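import Pool.Agent.MP_aea6d5_co.PolyCyc

/-! Package PB: the exponential bound. -/

set_option autoImplicit false

namespace Pool.Agent.LK

variable {E F : Finset (Sym2 P3)}

/-- the box `{-1,0,1}³` -/
noncomputable def box3 : Finset P3 :=
  Finset.Icc (-1 : ℤ) 1 ×ˢ (Finset.Icc (-1 : ℤ) 1 ×ˢ Finset.Icc (-1 : ℤ) 1)

theorem box3_card : box3.card = 27 := by simp [box3]

theorem adj_sub_mem_box {u v : P3} (h : Adj u v) : v - u ∈ box3 := by
  unfold Adj at h
  have h1 := abs_nonneg (u.1 - v.1)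
  have h2 := abs_nonneg (u.2.1 - v.2.1)
  have h3 := abs_nonneg (u.2.2 - v.2.2)
  have a1 : |u.1 - v.1| ≤ 1 := by omega
  have a2 : |u.2.1 - v.2.1| ≤ 1 := by omega
  have a3 : |u.2.2 - v.2.2| ≤ 1 := by omega
  rw [abs_le] at a1 a2 a3
  simp only [box3, Finset.mem_product, Finset.mem_Icc, Prod.fst_sub, Prod.snd_sub]
  refine ⟨⟨?_, ?_⟩, ⟨?_, ?_⟩, ?_, ?_⟩ <;> omega

/-- two normed sets which are translates of each other are equal -/
theorem normed_trans {n : ℕ} {g g' : ℕ → P3} (hc : Cyc E n g) (hc' : Cyc F n g')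
    (hE : Normed E) (hF : Normed F) (hd : ∀ i < n, g (i + 1) - g i = g' (i + 1) - g' i) : E = F := by
  have hg : ∀ i ≤ n, g i - g' i = g 0 - g' 0 := by
    intro i
    induction i with
    | zero => intro _; rfl
    | succ i ih =>
      intro hi
      rw [← ih (by omega)]
      have := hd i (by omega)
      have e1 : g (i + 1) = g' (i + 1) - g' i + g i := by rw [← this]; abel
      rw [e1]; abel
  set t := g 0 - g' 0 with ht
  have hg2 : ∀ i ≤ n, g i = g' i + t := fun i hi => by rw [← hg i hi]; abel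
  have hv1 : ∀ u ∈ verts F, u + t ∈ verts E := by
    intro u hu
    rw [hc'.verts_eq] at hu
    obtain ⟨i, hi, rfl⟩ := hu
    rw [hc.verts_eq]
    exact ⟨i, hi, hg2 i (le_of_lt hi)⟩
  have hv2 : ∀ u ∈ verts E, u - t ∈ verts F := by
    intro u hu
    rw [hc.verts_eq] at hu
    obtain ⟨i, hi, rfl⟩ := hu
    rw [hc'.verts_eq]
    exact ⟨i, hi, by rw [hg2 i (le_of_lt hi)]; abel⟩
  obtain ⟨hE0, ⟨x, hx, hx0⟩, ⟨y, hy, hy0⟩, ⟨z, hz, hz0⟩⟩ := hE
  obtain ⟨hF0, ⟨x', hx', hx0'⟩, ⟨y', hy', hy0'⟩, ⟨z', hz', hz0'⟩⟩ := hF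
  have ht0 : t = 0 := by
    have a1 := (hE0 _ (hv1 _ hx')).1
    have a2 := (hE0 _ (hv1 _ hy')).2.1
    have a3 := (hE0 _ (hv1 _ hz')).2.2
    have b1 := (hF0 _ (hv2 _ hx)).1
    have b2 := (hF0 _ (hv2 _ hy)).2.1
    have b3 := (hF0 _ (hv2 _ hz)).2.2
    simp only [Prod.fst_add, Prod.snd_add, Prod.fst_sub, Prod.snd_sub] at a1 a2 a3 b1 b2 b3
    refine Prod.ext ?_ (Prod.ext ?_ ?_)
    · simp only [Prod.fst_zero]; omega
    · simp only [Prod.snd_zero, Prod.fst_zero]; omega
    · simp only [Prod.snd_zero]; omega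
  have hg3 : ∀ i ≤ n, g i = g' i := fun i hi => by rw [hg2 i hi, ht0, add_zero]
  rw [hc.eq_image, hc'.eq_image]
  apply Finset.image_congr
  intro i hi
  have hi' : i < n := by simpa using hi
  simp only
  rw [hg3 i (by omega), hg3 (i + 1) (by omega)]

/-- Package PB. -/
theorem boundStatement : BoundStatement := by
  classical
  refine ⟨27, fun n => ?_⟩
  set S : Set (Finset (Sym2 P3)) := {E | IsPolygon E ∧ E.card = n ∧ Normed E} with hS
  set T : Finset (Fin n → P3) := Fintype.piFinset fun _ : Fin n => box3 with hT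
  have hcyc : ∀ E : S, ∃ g, Cyc E.1 n g := by
    rintro ⟨E, hE, hn, -⟩
    obtain ⟨a, b, hab⟩ := exists_edge hE
    obtain ⟨m, g, hc, -, -⟩ := exists_cyc hE hab
    have : m = n := by rw [← hn, hc.card_eq]
    subst this
    exact ⟨g, hc⟩
  choose g hg using hcyc
  let code : S → (Fin n → P3) := fun E i => g E (i + 1) - g E i
  have hcode : ∀ E, code E ∈ T := by
    intro E
    rw [hT, Fintype.mem_piFinset]
    intro i
    exact adj_sub_mem_box (E.2.1.adj _ _ ((hg E).mem_edge i.2))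
  have hinj : Function.Injective code := by
    intro E F hEF
    apply Subtype.ext
    apply normed_trans (hg E) (hg F) E.2.2.2 F.2.2.2
    intro i hi
    exact congrFun hEF ⟨i, hi⟩
  have hfin : Finite S := Finite.of_injective (fun E => (⟨code E, hcode E⟩ : T)) (by
    intro E F hEF
    exact hinj (congrArg Subtype.val hEF))
  refine ⟨Set.toFinite S, ?_⟩
  have h1 : S.ncard ≤ T.card := by
    rw [← Nat.card_coe_set_eq]
    have := Nat.card_le_card_of_injective (fun E : S => (⟨code E, hcode E⟩ : T)) (by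
      intro E F hEF
      exact hinj (congrArg Subtype.val hEF))
    simpa using this
  have h2 : T.card = 27 ^ n := by
    rw [hT, Fintype.card_piFinset]
    simp [box3_card]
  rw [h2] at h1
  unfold count
  exact_mod_cast h1

end Pool.Agent.LK
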