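import Pool.Agent.MP_aea6d5_co.Spec

/-! Package PA: cyclic parametrisation of polygons, the number of vertices, arcs. -/

set_option autoImplicit false

namespace Pool.Agent.LK

/-- `g 0, g 1, ..., g n = g 0` is a cyclic enumeration of the polygon `E`. -/
structure Cyc (E : Finset (Sym2 P3)) (n : ℕ) (g : ℕ → P3) : Prop where
  three : 3 ≤ n
  per : g n = g 0
  inj : ∀ i < n, ∀ j < n, g i = g j → i = j
  edge : ∀ u v, s(u, v) ∈ E ↔ ∃ i < n, s(u, v) = s(g i, g (i + 1))

theorem Adj.symm {u v : P3} (h : Adj u v) : Adj v u := by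
  unfold Adj at *
  rw [abs_sub_comm v.1, abs_sub_comm v.2.1, abs_sub_comm v.2.2]
  exact h

theorem Adj.ne {u v : P3} (h : Adj u v) : u ≠ v := by
  rintro rfl
  simp [Adj] at h

theorem Adj.irrefl (u : P3) : ¬ Adj u u := fun h => h.ne rfl

variable {E : Finset (Sym2 P3)}

theorem mem_verts_left {u v : P3} (h : s(u, v) ∈ E) : u ∈ verts E := ⟨v, h⟩

theorem mem_verts_right {u v : P3} (h : s(u, v) ∈ E) : v ∈ verts E :=
  ⟨u, by rwa [Sym2.eq_swap]⟩

theorem verts_eq_of_finset (E : Finset (Sym2 P3)) : verts E = ↑(E.biUnion fun e => e.toFinset) := by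
  ext u
  simp only [verts, Set.mem_ofPred_eq, Finset.coe_biUnion, Set.mem_iUnion, Finset.mem_coe,
    Sym2.mem_toFinset]
  constructor
  · rintro ⟨v, hv⟩
    exact ⟨s(u, v), hv, Sym2.mem_mk_left u v⟩
  · rintro ⟨e, he, hu⟩
    obtain ⟨v, rfl⟩ := hu
    exact ⟨v, he⟩

theorem verts_finite (E : Finset (Sym2 P3)) : (verts E).Finite := by
  rw [verts_eq_of_finset]
  exact Finset.finite_toSet _

/-- `f 0, ..., f m` is a path in `E` starting with `a, b`. -/
structure PathF (E : Finset (Sym2 P3)) (a b : P3) (m : ℕ) (f : ℕ → P3) : Prop where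
  zero : f 0 = a
  one : f 1 = b
  edge : ∀ i < m, s(f i, f (i + 1)) ∈ E
  inj : ∀ i ≤ m, ∀ j ≤ m, f i = f j → i = j

theorem PathF.card_le {a b : P3} {m : ℕ} {f : ℕ → P3} (h : PathF E a b m f) (hm : 0 < m) :
    m + 1 ≤ (verts E).ncard := by
  have h1 : f '' (Set.Iic m) ⊆ verts E := by
    rintro _ ⟨i, hi, rfl⟩
    rcases Nat.lt_or_ge i m with hlt | hge
    · exact mem_verts_left (h.edge i hlt)
    · have hi' : i = m := le_antisymm hi hge
      subst hi'
      have := h.edge (i - 1) (by omega)
      rw [Nat.sub_add_cancel (by omega)] at this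
      exact mem_verts_right this
  have h2 : (f '' (Set.Iic m)).ncard = m + 1 := by
    rw [Set.InjOn.ncard_image]
    · rw [Set.ncard_eq_toFinset_card']; simp
    · intro i hi j hj hij
      exact h.inj i hi j hj hij
  rw [← h2]
  exact Set.ncard_le_ncard h1 (verts_finite E)

theorem nbr_finite (E : Finset (Sym2 P3)) (u : P3) : {w | s(u, w) ∈ E}.Finite :=
  (verts_finite E).subset fun _ hw => mem_verts_right hw

/-- if `p, q` are two different neighbours of `u`, there are no others -/
theorem nbr_eq (h : IsPolygon E) {u p q : P3} (hp : s(u, p) ∈ E) (hq : s(u, q) ∈ E) (hpq : p ≠ q) :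
    {w | s(u, w) ∈ E} = {p, q} := by
  have h1 : ({p, q} : Set P3) ⊆ {w | s(u, w) ∈ E} := by
    rintro w (rfl | rfl)
    · exact hp
    · exact hq
  refine (Set.eq_of_subset_of_ncard_le h1 ?_ (nbr_finite E u)).symm
  rw [h.deg u (mem_verts_left hp), Set.ncard_pair hpq]

theorem nbr_eq' (h : IsPolygon E) {u p q w : P3} (hp : s(u, p) ∈ E) (hq : s(u, q) ∈ E)
    (hpq : p ≠ q) (hw : s(u, w) ∈ E) : w = p ∨ w = q := by
  have h1 : w ∈ {w | s(u, w) ∈ E} := hw
  rw [nbr_eq h hp hq hpq] at h1
  exact h1

theorem exists_other (h : IsPolygon E) {u p : P3} (hp : s(u, p) ∈ E) :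
    ∃ q, s(u, q) ∈ E ∧ q ≠ p := by
  have h1 := h.deg u (mem_verts_left hp)
  obtain ⟨x, y, hxy, hN⟩ := Set.ncard_eq_two.1 h1
  have hx : s(u, x) ∈ E := by
    have : x ∈ {w | s(u, w) ∈ E} := by rw [hN]; simp
    exact this
  have hy : s(u, y) ∈ E := by
    have : y ∈ {w | s(u, w) ∈ E} := by rw [hN]; simp
    exact this
  by_cases hpx : x = p
  · exact ⟨y, hy, fun h => hxy (hpx.trans h.symm)⟩
  · exact ⟨x, hx, hpx⟩

/-- every polygon has a cyclic enumeration starting with a given directed edge -/
theorem exists_cyc (h : IsPolygon E) {a b : P3} (hab : s(a, b) ∈ E) :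
    ∃ n g, Cyc E n g ∧ g 0 = a ∧ g 1 = b := by
  classical
  have hne : a ≠ b := (h.adj a b hab).ne
  -- a maximal path
  have hP1 : ∃ f, PathF E a b 1 f := by
    refine ⟨fun i => if i = 0 then a else b, by simp, by simp, ?_, ?_⟩
    · intro i hi
      have : i = 0 := by omega
      subst this
      simpa using hab
    · intro i hi j hj hij
      have hi' : i = 0 ∨ i = 1 := by omega
      have hj' : j = 0 ∨ j = 1 := by omega
      rcases hi' with rfl | rfl <;> rcases hj' with rfl | rfl <;> simp_all
  have hmax : ∃ m, 0 < m ∧ (∃ f, PathF E a b m f) ∧ ¬ ∃ f, PathF E a b (m + 1) f := by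
    by_contra hcon
    push Not at hcon
    have hall : ∀ m, 0 < m → ∃ f, PathF E a b m f := by
      intro m hm
      induction m with
      | zero => omega
      | succ k ih =>
        rcases Nat.eq_zero_or_pos k with rfl | hk
        · exact hP1
        · obtain ⟨f, hf⟩ := hcon k hk ((ih hk).elim fun f hf => ⟨f, hf⟩)
          exact ⟨f, hf⟩
    obtain ⟨f, hf⟩ := hall ((verts E).ncard + 1) (by omega)
    have := hf.card_le (by omega)
    omega
  obtain ⟨m, hm, ⟨f, hf⟩, hno⟩ := hmax
  -- the last vertex
  have hlast : s(f m, f (m - 1)) ∈ E := by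
    have := hf.edge (m - 1) (by omega)
    rw [Nat.sub_add_cancel hm] at this
    rwa [Sym2.eq_swap]
  obtain ⟨w, hw, hwne⟩ := exists_other h hlast
  have hwmem : ∃ j ≤ m, f j = w := by
    by_contra hcon
    push Not at hcon
    apply hno
    refine ⟨fun i => if i = m + 1 then w else f i, ?_, ?_, ?_, ?_⟩
    · simp [hf.zero]
    · have : ¬ (1 = m + 1) := by omega
      simp only [this, if_false, hf.one]
    · intro i hi
      rcases Nat.lt_or_ge i m with hlt | hge
      · have h1 : ¬ (i = m + 1) := by omega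
        have h2 : ¬ (i + 1 = m + 1) := by omega
        simp only [h1, h2, if_false]
        exact hf.edge i hlt
      · have h1 : i = m := by omega
        subst h1
        simpa using hw
    · intro i hi j hj hij
      by_cases hi' : i = m + 1 <;> by_cases hj' : j = m + 1
      · omega
      · simp only [hi', hj', if_true, if_false] at hij
        exact absurd hij.symm (hcon j (by omega))
      · simp only [hi', hj', if_true, if_false] at hij
        exact absurd hij (hcon i (by omega))
      · simp only [hi', hj', if_false] at hij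
        exact hf.inj i (by omega) j (by omega) hij
  obtain ⟨j, hjm, hj⟩ := hwmem
  have hj0 : j = 0 := by
    by_contra hj0
    have hjm' : j ≠ m := by
      rintro rfl
      exact (h.adj _ _ hw).ne hj
    have hjm1 : j ≠ m - 1 := by
      rintro rfl
      exact hwne hj.symm
    have e1 : s(f j, f (j - 1)) ∈ E := by
      have := hf.edge (j - 1) (by omega)
      rw [Nat.sub_add_cancel (by omega)] at this
      rwa [Sym2.eq_swap]
    have e2 : s(f j, f (j + 1)) ∈ E := hf.edge j (by omega)
    have e3 : s(f j, f m) ∈ E := by rw [hj, Sym2.eq_swap]; exact hw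
    have hd : f (j - 1) ≠ f (j + 1) := by
      intro hh
      have := hf.inj _ (by omega) _ (by omega) hh
      omega
    rcases nbr_eq' h e1 e2 hd e3 with hh | hh
    · have := hf.inj _ (by omega) _ (by omega) hh
      omega
    · have := hf.inj _ (by omega) _ (by omega) hh
      omega
  subst hj0
  have hm2 : 2 ≤ m := by
    by_contra hcon
    have h1 : m = 1 := by omega
    subst h1
    exact hwne hj.symm
  -- the cyclic enumeration
  set g : ℕ → P3 := fun i => if i = m + 1 then f 0 else f i with hg
  have gle : ∀ i ≤ m, g i = f i := by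
    intro i hi
    have : ¬ (i = m + 1) := by omega
    simp only [hg, this, if_false]
  have glast : g (m + 1) = f 0 := by simp [hg]
  have hedge : ∀ i < m + 1, s(g i, g (i + 1)) ∈ E := by
    intro i hi
    rcases Nat.lt_or_ge i m with hlt | hge
    · rw [gle i (by omega), gle (i + 1) (by omega)]
      exact hf.edge i hlt
    · have h1 : i = m := by omega
      subst h1
      rw [gle i le_rfl, glast, hj]
      exact hw
  have hnb : ∀ i < m + 1, ∀ v, s(g i, v) ∈ E →
      ∃ k < m + 1, s(g i, v) = s(g k, g (k + 1)) ∧ ∃ l < m + 1, v = g l := by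
    intro i hi v hv
    have e2 := hedge i hi
    rcases Nat.eq_zero_or_pos i with rfl | hipos
    · have e1 : s(g 0, g m) ∈ E := by
        rw [gle 0 (by omega), gle m le_rfl, Sym2.eq_swap, hj]
        exact hw
      have hd : g m ≠ g 1 := by
        rw [gle m le_rfl, gle 1 (by omega)]
        intro hh
        have := hf.inj _ (by omega) _ (by omega) hh
        omega
      rcases nbr_eq' h e1 e2 hd hv with rfl | rfl
      · refine ⟨m, by omega, ?_, m, by omega, rfl⟩
        rw [glast, gle 0 (by omega), Sym2.eq_swap]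
      · exact ⟨0, by omega, rfl, 1, by omega, rfl⟩
    · have e1 : s(g i, g (i - 1)) ∈ E := by
        have := hedge (i - 1) (by omega)
        rw [Nat.sub_add_cancel hipos] at this
        rwa [Sym2.eq_swap]
      have hd : g (i - 1) ≠ g (i + 1) := by
        rw [gle (i - 1) (by omega)]
        rcases Nat.lt_or_ge i m with hlt | hge
        · rw [gle (i + 1) (by omega)]
          intro hh
          have := hf.inj _ (by omega) _ (by omega) hh
          omega
        · have h1 : i = m := by omega
          subst h1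
          rw [glast]
          intro hh
          have := hf.inj _ (by omega) _ (by omega) hh
          omega
      rcases nbr_eq' h e1 e2 hd hv with rfl | rfl
      · refine ⟨i - 1, by omega, ?_, i - 1, by omega, rfl⟩
        rw [Nat.sub_add_cancel hipos, Sym2.eq_swap]
      · rcases Nat.lt_or_ge i m with hlt | hge
        · exact ⟨i, hi, rfl, i + 1, by omega, rfl⟩
        · have h1 : i = m := by omega
          subst h1
          refine ⟨i, hi, rfl, 0, by omega, ?_⟩
          rw [glast, gle 0 (by omega)]
  have hverts : ∀ u ∈ verts E, ∃ i < m + 1, u = g i := by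
    intro u hu
    have hc := h.conn a (mem_verts_left hab) u hu
    induction hc with
    | refl => exact ⟨0, by omega, by rw [gle 0 (by omega), hf.zero]⟩
    | tail _ hbc ih =>
      obtain ⟨i, hi, rfl⟩ := ih (mem_verts_left hbc)
      obtain ⟨_, _, _, l, hl, hv⟩ := hnb i hi _ hbc
      exact ⟨l, hl, hv⟩
  refine ⟨m + 1, g, ⟨by omega, ?_, ?_, ?_⟩, ?_, ?_⟩
  · rw [glast, gle 0 (by omega)]
  · intro i hi j hj' hij
    rw [gle i (by omega), gle j (by omega)] at hij
    exact hf.inj i (by omega) j (by omega) hij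
  · intro u v
    constructor
    · intro huv
      obtain ⟨i, hi, rfl⟩ := hverts u (mem_verts_left huv)
      obtain ⟨k, hk, hk', -⟩ := hnb i hi v huv
      exact ⟨k, hk, hk'⟩
    · rintro ⟨i, hi, hi'⟩
      rw [hi']
      exact hedge i hi
  · rw [gle 0 (by omega), hf.zero]
  · rw [gle 1 (by omega), hf.one]

theorem Cyc.mem_edge {n : ℕ} {g : ℕ → P3} (hc : Cyc E n g) {i : ℕ} (hi : i < n) :
    s(g i, g (i + 1)) ∈ E := (hc.edge _ _).2 ⟨i, hi, rfl⟩

theorem Cyc.verts_eq {n : ℕ} {g : ℕ → P3} (hc : Cyc E n g) : verts E = g '' Set.Iio n := by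
  ext u
  constructor
  · rintro ⟨v, hv⟩
    obtain ⟨i, hi, he⟩ := (hc.edge u v).1 hv
    rcases Sym2.eq_iff.1 he with ⟨h1, -⟩ | ⟨h1, -⟩
    · exact ⟨i, hi, h1.symm⟩
    · rcases Nat.lt_or_ge (i + 1) n with hlt | hge
      · exact ⟨i + 1, hlt, h1.symm⟩
      · have : i + 1 = n := by omega
        refine ⟨0, ?_, ?_⟩
        · have := hc.three
          exact Set.mem_Iio.2 (by omega)
        · rw [h1, this, hc.per]
  · rintro ⟨i, hi, rfl⟩
    exact mem_verts_left (hc.mem_edge hi)

/-- equality of cyclic edges -/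
theorem Cyc.edge_inj {n : ℕ} {g : ℕ → P3} (hc : Cyc E n g) {i j : ℕ} (hi : i < n) (hj : j < n)
    (h : s(g i, g (i + 1)) = s(g j, g (j + 1))) : i = j := by
  have h3 := hc.three
  rcases Sym2.eq_iff.1 h with ⟨h1, -⟩ | ⟨h1, h2⟩
  · exact hc.inj i hi j hj h1
  · exfalso
    -- `g i = g (j+1)`, `g (i+1) = g j`
    rcases Nat.lt_or_ge (j + 1) n with hlt | hge
    · have e1 := hc.inj i hi (j + 1) hlt h1
      rcases Nat.lt_or_ge (i + 1) n with hlt' | hge'
      · have e2 := hc.inj (i + 1) hlt' j hj h2
        omega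
      · have e3 : i + 1 = n := by omega
        rw [e3, hc.per] at h2
        have e2 := hc.inj 0 (by omega) j hj h2
        omega
    · have e3 : j + 1 = n := by omega
      rw [e3, hc.per] at h1
      have e1 := hc.inj i hi 0 (by omega) h1
      subst e1
      have e2 := hc.inj (0 + 1) (by omega) j hj h2
      omega

theorem Cyc.eq_image {n : ℕ} {g : ℕ → P3} (hc : Cyc E n g) :
    E = (Finset.range n).image fun i => s(g i, g (i + 1)) := by
  ext e
  induction e using Sym2.ind with
  | _ u v =>
    rw [hc.edge u v, Finset.mem_image]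
    constructor
    · rintro ⟨i, hi, h⟩
      exact ⟨i, Finset.mem_range.2 hi, h.symm⟩
    · rintro ⟨i, hi, h⟩
      exact ⟨i, Finset.mem_range.1 hi, h.symm⟩

theorem Cyc.card_eq {n : ℕ} {g : ℕ → P3} (hc : Cyc E n g) : E.card = n := by
  rw [hc.eq_image, Finset.card_image_of_injOn, Finset.card_range]
  intro i hi j hj hij
  exact hc.edge_inj (Finset.mem_range.1 hi) (Finset.mem_range.1 hj) hij

theorem Cyc.ncard_verts {n : ℕ} {g : ℕ → P3} (hc : Cyc E n g) : (verts E).ncard = n := by
  rw [hc.verts_eq, Set.InjOn.ncard_image]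
  · rw [Set.ncard_eq_toFinset_card']; simp
  · intro i hi j hj hij
    exact hc.inj i hi j hj hij

theorem exists_edge (h : IsPolygon E) : ∃ a b, s(a, b) ∈ E := by
  obtain ⟨e, he⟩ := h.nonempty
  induction e using Sym2.ind with
  | _ u v => exact ⟨u, v, he⟩

/-- Package PA, first part. -/
theorem cardStatement : CardStatement := by
  intro E h
  obtain ⟨a, b, hab⟩ := exists_edge h
  obtain ⟨n, g, hc, -, -⟩ := exists_cyc h hab
  exact ⟨verts_finite E, by rw [hc.ncard_verts, hc.card_eq]⟩

theorem reflTransGen_symm_of_symm {α : Type*} {r : α → α → Prop} (hr : ∀ a b, r a b → r b a)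
    {a b : α} (h : Relation.ReflTransGen r a b) : Relation.ReflTransGen r b a := by
  induction h with
  | refl => exact Relation.ReflTransGen.refl
  | tail _ hbc ih => exact Relation.ReflTransGen.head (hr _ _ hbc) ih

/-- Package PA, second part. -/
theorem arcStatement : ArcStatement := by
  intro E h a b hab u hu v hv
  obtain ⟨n, g, hc, h0, h1⟩ := exists_cyc h hab
  set r : P3 → P3 → Prop := fun u' v' => s(u', v') ∈ E ∧ s(u', v') ≠ s(a, b) with hr
  have hsymm : ∀ p q, r p q → r q p := by
    intro p q hpq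
    simp only [hr] at *
    rw [Sym2.eq_swap]
    exact hpq
  have h3 := hc.three
  have hstep : ∀ i, 1 ≤ i → i ≤ n → Relation.ReflTransGen r (g 1) (g i) := by
    intro i hi
    induction i, hi using Nat.le_induction with
    | base => intro _; exact Relation.ReflTransGen.refl
    | succ i hi ih =>
      intro hle
      refine (ih (by omega)).tail ⟨hc.mem_edge (by omega), ?_⟩
      intro he
      rw [← h0, ← h1] at he
      have := hc.edge_inj (by omega) (by omega : 0 < n) he
      omega
  have hall : ∀ w ∈ verts E, Relation.ReflTransGen r (g 1) w := by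
    intro w hw
    rw [hc.verts_eq] at hw
    obtain ⟨i, hi, rfl⟩ := hw
    rcases Nat.eq_zero_or_pos i with rfl | hpos
    · rw [← hc.per]
      exact hstep n (by omega) le_rfl
    · exact hstep i hpos (le_of_lt hi)
  exact (reflTransGen_symm_of_symm hsymm (hall u hu)).trans (hall v hv)

end Pool.Agent.LK
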