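import Pool.Agent.MP_aea6d5_co.Cut
import Pool.Agent.MP_aea6d5_co.PolyCyc
import Pool.Agent.MP_aea6d5_co.PolyBound

/-! The injection: pairs of polygons with a contact are recovered from the joined polygon up to
boundedly many choices. -/

set_option autoImplicit false

namespace Pool.Agent.LK

open Relation

variable {C : Finset (Sym2 P3) → Prop}

/-! ### Boxes as finite sets -/

/-- The points of the cube of radius `r`. -/
noncomputable def boxP (r : ℤ) : Finset P3 := Finset.Icc (-r) r ×ˢ Finset.Icc (-r) r ×ˢ Finset.Icc (-r) r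

theorem mem_boxP {r : ℤ} {u : P3} : u ∈ boxP r ↔ Box r u := by
  simp [boxP, Box, abs_le]

/-- Unordered pairs of points of the cube of radius `r`. -/
noncomputable def boxE (r : ℤ) : Finset (Sym2 P3) := (boxP r ×ˢ boxP r).image (fun q => s(q.1, q.2))

theorem mem_boxE {r : ℤ} {u v : P3} : s(u, v) ∈ boxE r ↔ Box r u ∧ Box r v := by
  rw [boxE, Finset.mem_image]
  constructor
  · rintro ⟨⟨a, b⟩, hab, h⟩
    rw [Finset.mem_product, mem_boxP, mem_boxP] at hab
    rw [Sym2.eq_iff] at h
    rcases h with ⟨rfl, rfl⟩ | ⟨rfl, rfl⟩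
    · exact hab
    · exact ⟨hab.2, hab.1⟩
  · rintro ⟨ha, hb⟩
    exact ⟨(u, v), Finset.mem_product.2 ⟨mem_boxP.2 ha, mem_boxP.2 hb⟩, rfl⟩

theorem ChangedIn.iff_far {a : P3} {r : ℤ} {E E' : Finset (Sym2 P3)} (h : ChangedIn a r E E')
    {u v : P3} (hf : ¬ (Box r (u - a) ∧ Box r (v - a))) : s(u, v) ∈ E ↔ s(u, v) ∈ E' := by
  constructor
  · intro h1
    by_contra h2
    exact hf (h u v (Or.inl ⟨h1, h2⟩))
  · intro h1
    by_contra h2
    exact hf (h u v (Or.inr ⟨h2, h1⟩))

theorem ChangedIn.symm {a : P3} {r : ℤ} {E E' : Finset (Sym2 P3)} (h : ChangedIn a r E E') :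
    ChangedIn a r E' E := fun u v huv => h u v (by tauto)

theorem ChangedIn.card_le {a : P3} {r : ℤ} {E E' : Finset (Sym2 P3)} (h : ChangedIn a r E E') :
    E'.card ≤ E.card + (boxE r).card := by
  have hsub : E' ⊆ E ∪ LK.shift a (boxE r) := by
    intro f hf
    induction f using Sym2.ind with
    | _ u v =>
      rw [Finset.mem_union]
      by_cases hE : s(u, v) ∈ E
      · exact Or.inl hE
      · right
        rw [mem_shift, mem_boxE]
        exact h u v (Or.inr ⟨hE, hf⟩)
  calc E'.card ≤ (E ∪ LK.shift a (boxE r)).card := Finset.card_le_card hsub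
    _ ≤ E.card + (LK.shift a (boxE r)).card := Finset.card_union_le _ _
    _ = E.card + (boxE r).card := by rw [card_shift]

/-! ### Components -/

theorem comp_sub {A B A1 B1 : Finset (Sym2 P3)} (hA : IsPolygon A)
    (hd1 : ∀ u ∈ verts A1, u ∉ verts B1) (h : A ∪ B = A1 ∪ B1) {v : P3} (hv : v ∈ verts A)
    (hv1 : v ∈ verts A1) : A ⊆ A1 := by
  have key : ∀ u, ReflTransGen (fun a b => s(a, b) ∈ A) v u → u ∈ verts A1 := by
    intro u hu
    induction hu with
    | refl => exact hv1
    | @tail u w _ huw ih =>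
      have : s(u, w) ∈ A1 ∪ B1 := by rw [← h]; exact Finset.mem_union_left _ huw
      rcases Finset.mem_union.1 this with h1 | h1
      · exact right_mem_verts h1
      · exact absurd (left_mem_verts h1) (hd1 _ ih)
  intro f hf
  induction f using Sym2.ind with
  | _ u w =>
    have hu := key u (hA.conn v hv u (left_mem_verts hf))
    have : s(u, w) ∈ A1 ∪ B1 := by rw [← h]; exact Finset.mem_union_left _ hf
    rcases Finset.mem_union.1 this with h1 | h1
    · exact h1
    · exact absurd (left_mem_verts h1) (hd1 _ hu)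

theorem comp_eq {A B A1 B1 : Finset (Sym2 P3)} (hA : IsPolygon A) (hA1 : IsPolygon A1)
    (hd : ∀ u ∈ verts A, u ∉ verts B) (hd1 : ∀ u ∈ verts A1, u ∉ verts B1)
    (h : A ∪ B = A1 ∪ B1) {v : P3} (hv : v ∈ verts A) (hv1 : v ∈ verts A1) :
    A = A1 ∧ B = B1 := by
  have h1 : A = A1 := Finset.Subset.antisymm (comp_sub hA hd1 h hv hv1)
    (comp_sub hA1 hd h.symm hv1 hv)
  refine ⟨h1, ?_⟩
  apply edge_ext
  intro a b
  have h2 : s(a, b) ∈ A ∪ B ↔ s(a, b) ∈ A1 ∪ B1 := by rw [h]
  rw [Finset.mem_union, Finset.mem_union, ← h1] at h2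
  constructor
  · intro h3
    rcases h2.1 (Or.inr h3) with h4 | h4
    · exact absurd (left_mem_verts h3) (hd _ (left_mem_verts h4))
    · exact h4
  · intro h3
    rcases h2.2 (Or.inr h3) with h4 | h4
    · rw [h1] at h4
      exact absurd (left_mem_verts h3) (hd1 _ (left_mem_verts h4))
    · exact h4

theorem shift_union (t : P3) (A B : Finset (Sym2 P3)) :
    shift t (A ∪ B) = shift t A ∪ shift t B := by
  apply edge_ext; intro u v
  simp only [mem_shift, Finset.mem_union]

theorem isPolygon_shift {E : Finset (Sym2 P3)} (h : IsPolygon E) (t : P3) :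
    IsPolygon (shift t E) := by
  refine ⟨?_, ?_, ?_, ?_⟩
  · obtain ⟨e, he⟩ := h.nonempty
    exact ⟨Sym2.map (fun u => u + t) e, Finset.mem_image_of_mem _ he⟩
  · intro u v huv
    have := h.adj _ _ (mem_shift.1 huv)
    unfold Adj at *
    simpa using this
  · intro u hu
    have h1 := h.deg _ (mem_verts_shift.1 hu)
    have h2 : {w | s(u, w) ∈ shift t E} = (fun w => w + t) '' {w | s(u - t, w) ∈ E} := by
      ext w
      simp only [Set.mem_ofPred_eq, mem_shift, Set.mem_image]
      constructor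
      · intro h3; exact ⟨w - t, h3, by abel⟩
      · rintro ⟨x, hx, rfl⟩
        simpa using hx
    rw [h2, Set.ncard_image_of_injective _ (add_left_injective t), h1]
  · intro u hu v hv
    have h1 := h.conn _ (mem_verts_shift.1 hu) _ (mem_verts_shift.1 hv)
    have key : ∀ w, ReflTransGen (fun a b => s(a, b) ∈ E) (u - t) w →
        ReflTransGen (fun a b => s(a, b) ∈ shift t E) u (w + t) := by
      intro w hw
      induction hw with
      | refl => rw [sub_add_cancel]
      | @tail x y _ hxy ih =>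
        refine ih.tail ?_
        rw [mem_shift]
        simpa using hxy
    have := key _ h1
    rwa [sub_add_cancel] at this

/-! ### Cuts and translations -/

theorem IsCut.shift {R E F : Finset (Sym2 P3)} {a : P3} {r : ℤ} (h : IsCut R E F a r) (t : P3) :
    IsCut (shift t R) (shift t E) (shift t F) (a + t) r := by
  refine ⟨isPolygon_shift h.pE t, isPolygon_shift h.pF t, ?_, ?_, ?_, ?_, ?_⟩
  · intro u hu v hv h1 h2
    have := h.below _ (mem_verts_shift.1 hu) _ (mem_verts_shift.1 hv) (by simpa using h1)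
      (by simpa using h2)
    simpa using this
  · rw [mem_shift]
    have e1 : a + t - t = a := by abel
    have e2 : a + t + (1, 0, 0) - t = a + (1, 0, 0) := by abel
    rw [e1, e2]; exact h.eE
  · rw [mem_shift]
    have e1 : a + t + (0, 0, 1) - t = a + (0, 0, 1) := by abel
    have e2 : a + t + (0, 0, 1) + (1, 0, 0) - t = a + (0, 0, 1) + (1, 0, 0) := by abel
    rw [e1, e2]; exact h.eF
  · apply edge_ext
    intro u v
    have key : ∀ x y : P3, s(u - t, v - t) = s(x, y) ↔ s(u, v) = s(x + t, y + t) := by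
      intro x y
      rw [Sym2.eq_iff, Sym2.eq_iff, sub_eq_iff_eq_add, sub_eq_iff_eq_add, sub_eq_iff_eq_add,
        sub_eq_iff_eq_add]
    rw [mem_shift, h.R_eq, mem_joinZ', mem_joinZ', mem_shift, mem_shift]
    simp only [ne_eq, key]
    have e1 : a + (1, 0, 0) + t = a + t + (1, 0, 0) := by abel
    have e2 : a + (0, 0, 1) + t = a + t + (0, 0, 1) := by abel
    have e3 : a + (1, 0, 0) + (0, 0, 1) + t = a + t + (1, 0, 0) + (0, 0, 1) := by abel
    rw [e1, e2, e3]
  · intro u hu v hv huv
    have := h.sep _ (mem_verts_shift.1 hu) _ (mem_verts_shift.1 hv) (by simpa using huv)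
    have e1 : u - (a + t) = u - t - a := by abel
    have e2 : v - (a + t) = v - t - a := by abel
    rw [e1, e2]; exact this

variable {CE CF CR : Finset (Sym2 P3) → Prop}

theorem Joined.isCut (pE : ∀ E, CE E → IsPolygon E) (pF : ∀ E, CF E → IsPolygon E)
    {E F R E' F' : Finset (Sym2 P3)} {d p a w : P3}
    (h : Joined CE CF CR E F d R E' F' p a w) : IsCut R E' F' a 1000 :=
  ⟨pE _ h.cE, pF _ h.cF, h.below, h.eE, h.eF, h.R_eq, h.sep⟩

theorem Joined.card_union {E F R E' F' : Finset (Sym2 P3)} {d p a w : P3}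
    (h : Joined CE CF CR E F d R E' F' p a w) : (E ∪ shift w F).card = E.card + F.card := by
  rw [Finset.card_union_of_disjoint, card_shift]
  rw [Finset.disjoint_left]
  intro f hf hf'
  induction f using Sym2.ind with
  | _ u v => exact h.disj u (left_mem_verts hf) (left_mem_verts hf')

/-- The local pattern at the join. -/
noncomputable def pat (E F : Finset (Sym2 P3)) (a w : P3) : Finset (Sym2 P3) :=
  boxE 1000 ∩ shift (-a) (E ∪ shift w F)

theorem mem_pat {E F : Finset (Sym2 P3)} {a w u v : P3} :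
    s(u, v) ∈ pat E F a w ↔ (Box 1000 u ∧ Box 1000 v) ∧ s(u + a, v + a) ∈ E ∪ shift w F := by
  rw [pat, Finset.mem_inter, mem_boxE, mem_shift, sub_neg_eq_add, sub_neg_eq_add]

/-- **Decoding.** -/
theorem decode {E F R E' F' E1 F1 R1 E1' F1' : Finset (Sym2 P3)}
    {d p a w d1 p1 a1 w1 s s1 : P3} (h : Joined CE CF CR E F d R E' F' p a w)
    (h1 : Joined CE CF CR E1 F1 d1 R1 E1' F1' p1 a1 w1) (pE : IsPolygon E) (pE1 : IsPolygon E1)
    (nE : Normed E) (nE1 : Normed E1) (nF : Normed F) (nF1 : Normed F1)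
    (hR : shift s R = shift s1 R1) (ha : a + s = a1 + s1) (hpat : pat E F a w = pat E1 F1 a1 w1)
    (hp : p - a = p1 - a1) (hw : w - d = w1 - d1) : E = E1 ∧ F = F1 ∧ d = d1 := by
  have hG : shift s (E ∪ shift w F) = shift s1 (E1 ∪ shift w1 F1) := by
    apply edge_ext
    intro u v
    rw [mem_shift, mem_shift]
    have hRuv : s(u - s, v - s) ∈ R ↔ s(u - s1, v - s1) ∈ R1 := by
      rw [← mem_shift, ← mem_shift, hR]
    have e1 : ∀ u : P3, u - s - a = u - s1 - a1 := by
      intro u
      rw [sub_sub, sub_sub, add_comm s a, add_comm s1 a1, ha]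
    by_cases hb : Box 1000 (u - s - a) ∧ Box 1000 (v - s - a)
    · have k1 := mem_pat (E := E) (F := F) (a := a) (w := w) (u := u - s - a) (v := v - s - a)
      have k2 := mem_pat (E := E1) (F := F1) (a := a1) (w := w1) (u := u - s1 - a1)
        (v := v - s1 - a1)
      rw [sub_add_cancel, sub_add_cancel] at k1 k2
      rw [← e1, ← e1, ← hpat, k1] at k2
      constructor
      · intro h3; exact (k2.1 ⟨hb, h3⟩).2
      · intro h3; exact (k2.2 ⟨hb, h3⟩).2
    · have c1 : s(u - s, v - s) ∈ E ∪ shift w F ↔ s(u - s, v - s) ∈ R := h.ch.iff_far hb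
      have c2 : s(u - s1, v - s1) ∈ E1 ∪ shift w1 F1 ↔ s(u - s1, v - s1) ∈ R1 := by
        rw [e1, e1] at hb
        exact h1.ch.iff_far hb
      rw [c1, c2, hRuv]
  rw [shift_union, shift_union, shift_shift, shift_shift] at hG
  have hps : p + s = p1 + s1 := by
    have e : p + s = (p - a) + (a + s) := by abel
    rw [e, hp, ha]; abel
  have disj : ∀ u ∈ verts (shift s E), u ∉ verts (shift (s + w) F) := by
    intro u hu hu'
    refine h.disj _ (mem_verts_shift.1 hu) (mem_verts_shift.2 ?_)
    rw [sub_sub]; exact mem_verts_shift.1 hu'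
  have disj1 : ∀ u ∈ verts (shift s1 E1), u ∉ verts (shift (s1 + w1) F1) := by
    intro u hu hu'
    refine h1.disj _ (mem_verts_shift.1 hu) (mem_verts_shift.2 ?_)
    rw [sub_sub]; exact mem_verts_shift.1 hu'
  obtain ⟨r1, r2⟩ := comp_eq (isPolygon_shift pE s)
    (isPolygon_shift pE1 s1) disj disj1 hG (v := p + s)
    (mem_verts_shift.2 (by simpa using h.hp))
    (mem_verts_shift.2 (by rw [hps]; simpa using h1.hp))
  have q1 : shift (s1 - s) E1 = E := by
    have := congrArg (shift (-s)) r1
    rw [shift_shift, shift_shift, neg_add_cancel, shift_zero] at this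
    rw [this]; congr 1; abel
  have q2 : s1 - s = 0 := nE1.eq_zero (by rw [q1]; exact nE)
  have q3 : E = E1 := by rw [← q1, q2, shift_zero]
  have q4 : s1 = s := sub_eq_zero.1 q2
  have q5 : shift ((s1 + w1) - (s + w)) F1 = F := by
    have := congrArg (shift (-(s + w))) r2
    rw [shift_shift, shift_shift, neg_add_cancel, shift_zero] at this
    rw [this]; congr 1; abel
  have q6 : (s1 + w1) - (s + w) = 0 := nF1.eq_zero (by rw [q5]; exact nF)
  have q7 : F = F1 := by rw [← q5, q6, shift_zero]
  have q8 : w = w1 := by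
    rw [q4] at q6
    have : s + w1 - (s + w) = w1 - w := by abel
    rw [this] at q6
    exact (sub_eq_zero.1 q6).symm
  refine ⟨q3, q7, ?_⟩
  rw [q8] at hw
  exact sub_right_inj.1 hw

end Pool.Agent.LK
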