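import Pool.Agent.MP_aea6d5_co.Defs

/-! Stacked joins: the version of the class interface that gives the exponent `2/3`. -/

set_option autoImplicit false

namespace Pool.Agent.LK

/-- The stacked join of `E` and `F` through the unit square with horizontal sides
`(x,y,h)(x+1,y,h)` (in `E`) and `(x,y,h+1)(x+1,y,h+1)` (in `F`). -/
def joinZ (E F : Finset (Sym2 P3)) (x y h : ℤ) : Finset (Sym2 P3) :=
  (E \ {s((x, y, h), (x + 1, y, h))}) ∪ (F \ {s((x, y, h + 1), (x + 1, y, h + 1))}) ∪
    {s((x, y, h), (x, y, h + 1)), s((x + 1, y, h), (x + 1, y, h + 1))}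

/-- `F` lies above `E`: in every vertical column all vertices of `E` are below those of `F`. -/
def Below (E F : Finset (Sym2 P3)) : Prop :=
  ∀ u ∈ verts E, ∀ v ∈ verts F, u.1 = v.1 → u.2.1 = v.2.1 → u.2.2 < v.2.2

/-- Classes of polygons closed under the lattice symmetries, the two local moves and stacked
joins. -/
structure ClosedZ (C : Finset (Sym2 P3) → Prop) : Prop where
  poly : ∀ E, C E → IsPolygon E
  square : C square
  trans : ∀ (t : P3) E, C E → C (mapE (fun u => u + t) E)
  swapXY : ∀ E, C E → C (mapE (fun u => (u.2.1, u.1, u.2.2)) E)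
  swapYZ : ∀ E, C E → C (mapE (fun u => (u.1, u.2.2, u.2.1)) E)
  negX : ∀ E, C E → C (mapE (fun u => (-u.1, u.2.1, u.2.2)) E)
  bump : ∀ E x y d, C E → s(x, y) ∈ E → IsUnit3 d → x + d ∉ verts E → y + d ∉ verts E →
    C (bump E x y d)
  flip : ∀ E x a b, C E → s(x, x + a) ∈ E → s(x + a, x + a + b) ∈ E → IsUnit3 a → IsUnit3 b →
    a ≠ b → a ≠ -b → x + b ∉ verts E → C (flip E x a b)
  join : ∀ E F x y h, C E → C F → Below E F → s((x, y, h), (x + 1, y, h)) ∈ E →
    s((x, y, h + 1), (x + 1, y, h + 1)) ∈ F → C (joinZ E F x y h)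

/-- Main combinatorial statement with the exponent `2/3`. -/
def MainStatementZ : Prop := ∀ C : Finset (Sym2 P3) → Prop, ClosedZ C →
  ∃ K : ℝ, ∀ n : ℕ, 0 < n → (count C n : ℝ) ≤ K * (n : ℝ) ^ (-(2 / 3 : ℝ)) * growth C ^ n

/-- The topological join statement (package T2) in the stacked version. -/
def JoinZStatement : Prop := ∀ E F x y h, IsPolygon E → Unknotted E → IsPolygon F → Unknotted F →
  Below E F → s((x, y, h), (x + 1, y, h)) ∈ E → s((x, y, h + 1), (x + 1, y, h + 1)) ∈ F →
  Unknotted (joinZ E F x y h)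

/-- The join part of package PC in the stacked version. -/
def PolyJoinZStatement : Prop := ∀ E F x y h, IsPolygon E → IsPolygon F →
  Below E F → s((x, y, h), (x + 1, y, h)) ∈ E → s((x, y, h + 1), (x + 1, y, h + 1)) ∈ F →
  IsPolygon (joinZ E F x y h)

/-- The counting statement from which helper51 deduces the pointwise bound: proved by helper52. -/
def PairStatementZ : Prop := ∀ C : Finset (Sym2 P3) → Prop, ClosedZ C →
  ∃ (K : ℝ) (c : ℕ), 0 < K ∧ ∀ n : ℕ, 0 < n →
    (n : ℝ) ^ (2 / 3 : ℝ) * (count C n : ℝ) ^ 2 ≤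
      K * ∑ i ∈ Finset.range (2 * c + 1), (count C (2 * n + i - c) : ℝ)

end Pool.Agent.LK
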