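import Pool.Agent.MP_aea6d5_co.PolyCyc
import Pool.Agent.MP_aea6d5_co.Stack

/-! Package PC: the class of all polygons is closed under symmetries, moves and joins. -/

set_option autoImplicit false

namespace Pool.Agent.LK

variable {E F : Finset (Sym2 P3)}

theorem rtg_mono {α : Type*} {r s : α → α → Prop} (hrs : ∀ a b, r a b → s a b) {a b : α}
    (h : Relation.ReflTransGen r a b) : Relation.ReflTransGen s a b := by
  induction h with
  | refl => exact Relation.ReflTransGen.refl
  | tail _ hbc ih => exact ih.tail (hrs _ _ hbc)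

theorem rtg_map {α β : Type*} {r : α → α → Prop} {s : β → β → Prop} (f : α → β)
    (hrs : ∀ a b, r a b → s (f a) (f b)) {a b : α}
    (h : Relation.ReflTransGen r a b) : Relation.ReflTransGen s (f a) (f b) := by
  induction h with
  | refl => exact Relation.ReflTransGen.refl
  | tail _ hbc ih => exact ih.tail (hrs _ _ hbc)

theorem mem_mapE_iff {φ : P3 → P3} {p q : P3} :
    s(p, q) ∈ mapE φ E ↔ ∃ u v, s(u, v) ∈ E ∧ φ u = p ∧ φ v = q := by
  unfold mapE
  rw [Finset.mem_image]
  constructor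
  · rintro ⟨e, he, h⟩
    induction e using Sym2.ind with
    | _ u v =>
      rw [Sym2.map_mk] at h
      rcases Sym2.eq_iff.1 h with ⟨h1, h2⟩ | ⟨h1, h2⟩
      · exact ⟨u, v, he, h1, h2⟩
      · exact ⟨v, u, by rwa [Sym2.eq_swap], h2, h1⟩
  · rintro ⟨u, v, he, rfl, rfl⟩
    exact ⟨s(u, v), he, by rw [Sym2.map_mk]⟩

theorem verts_mapE (φ : P3 → P3) : verts (mapE φ E) = φ '' verts E := by
  ext p
  constructor
  · rintro ⟨q, hq⟩
    obtain ⟨u, v, he, rfl, -⟩ := mem_mapE_iff.1 hq
    exact ⟨u, ⟨v, he⟩, rfl⟩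
  · rintro ⟨u, ⟨v, he⟩, rfl⟩
    exact ⟨φ v, mem_mapE_iff.2 ⟨u, v, he, rfl, rfl⟩⟩

theorem IsPolygon.mapE {φ : P3 → P3} (h : IsPolygon E) (hinj : Set.InjOn φ (verts E))
    (hadj : ∀ u v, s(u, v) ∈ E → Adj (φ u) (φ v)) : IsPolygon (mapE φ E) := by
  refine ⟨?_, ?_, ?_, ?_⟩
  · exact h.nonempty.image _
  · intro p q hpq
    obtain ⟨u, v, he, rfl, rfl⟩ := mem_mapE_iff.1 hpq
    exact hadj u v he
  · intro p hp
    rw [verts_mapE] at hp
    obtain ⟨u, hu, rfl⟩ := hp
    have h1 : {w | s(φ u, w) ∈ LK.mapE φ E} = φ '' {w | s(u, w) ∈ E} := by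
      ext w
      constructor
      · intro hw
        obtain ⟨u', v', he, h2, rfl⟩ := mem_mapE_iff.1 hw
        have := hinj (mem_verts_left he) hu h2
        subst this
        exact ⟨v', he, rfl⟩
      · rintro ⟨v, hv, rfl⟩
        exact mem_mapE_iff.2 ⟨u, v, hv, rfl, rfl⟩
    rw [h1, Set.InjOn.ncard_image]
    · exact h.deg u hu
    · exact hinj.mono fun w hw => mem_verts_right hw
  · intro p hp q hq
    rw [verts_mapE] at hp hq
    obtain ⟨u, hu, rfl⟩ := hp
    obtain ⟨v, hv, rfl⟩ := hq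
    exact rtg_map φ (fun a b hab => mem_mapE_iff.2 ⟨a, b, hab, rfl, rfl⟩) (h.conn u hu v hv)

/-- degrees on one side of a surgery: the edge `ab` is replaced by edges `aa'`, `bb'` to outside
vertices. -/
theorem deg_side (h : IsPolygon E) {a b a' b' : P3} (hab : s(a, b) ∈ E) (ha' : a' ∉ verts E)
    (hb' : b' ∉ verts E) {u : P3} (hu : u ∈ verts E) :
    {w | (s(u, w) ∈ E ∧ s(u, w) ≠ s(a, b)) ∨ (u = a ∧ w = a') ∨ (u = b ∧ w = b')}.ncard = 2 := by
  have hne : a ≠ b := (h.adj a b hab).ne
  have key : ∀ {a b a' b' : P3}, s(a, b) ∈ E → a' ∉ verts E → a ≠ b →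
      {w | (s(a, w) ∈ E ∧ s(a, w) ≠ s(a, b)) ∨ (a = a ∧ w = a') ∨ (a = b ∧ w = b')}.ncard = 2 := by
    intro a b a' b' hab ha' hne
    have h1 : {w | (s(a, w) ∈ E ∧ s(a, w) ≠ s(a, b)) ∨ (a = a ∧ w = a') ∨ (a = b ∧ w = b')} =
        insert a' ({w | s(a, w) ∈ E} \ {b}) := by
      ext w
      simp only [Set.mem_ofPred_eq, Set.mem_insert_iff, Set.mem_sdiff, Set.mem_singleton_iff, hne,
        false_and, or_false, true_and]
      constructor
      · rintro (⟨h1, h2⟩ | h1)
        · right
          exact ⟨h1, fun hw => h2 (by rw [hw])⟩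
        · exact Or.inl h1
      · rintro (h1 | ⟨h1, h2⟩)
        · exact Or.inr h1
        · left
          refine ⟨h1, fun he => h2 ?_⟩
          rcases Sym2.eq_iff.1 he with ⟨-, h3⟩ | ⟨h3, -⟩
          · exact h3
          · exact absurd h3 hne
    have hfin : ({w | s(a, w) ∈ E} \ {b}).Finite := (nbr_finite E a).subset fun w hw => hw.1
    have hnm : a' ∉ {w | s(a, w) ∈ E} \ {b} := fun hmem => ha' (mem_verts_right hmem.1)
    have hbm : b ∈ {w | s(a, w) ∈ E} := hab
    rw [h1, Set.ncard_insert_of_notMem hnm hfin, Set.ncard_sdiff_singleton_of_mem hbm,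
      h.deg a (mem_verts_left hab)]
  by_cases hua : u = a
  · subst hua
    exact key hab ha' hne
  · by_cases hub : u = b
    · subst hub
      have h2 := key (a := u) (b := a) (a' := b') (b' := a') (by rwa [Sym2.eq_swap]) hb' hne.symm
      have h3 : {w | (s(u, w) ∈ E ∧ s(u, w) ≠ s(a, u)) ∨ (u = a ∧ w = a') ∨ (u = u ∧ w = b')} =
          {w | (s(u, w) ∈ E ∧ s(u, w) ≠ s(u, a)) ∨ (u = u ∧ w = b') ∨ (u = a ∧ w = a')} := by
        ext w
        rw [Sym2.eq_swap (a := a) (b := u)]
        simp only [Set.mem_ofPred_eq]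
        tauto
      rw [h3]
      exact h2
    · have h1 : {w | (s(u, w) ∈ E ∧ s(u, w) ≠ s(a, b)) ∨ (u = a ∧ w = a') ∨ (u = b ∧ w = b')} =
          {w | s(u, w) ∈ E} := by
        ext w
        simp only [Set.mem_ofPred_eq, hua, hub, false_and, or_false]
        refine ⟨fun h => h.1, fun h => ⟨h, fun he => ?_⟩⟩
        rcases Sym2.eq_iff.1 he with ⟨h3, -⟩ | ⟨h3, -⟩
        · exact hua h3
        · exact hub h3
      rw [h1]
      exact h.deg u hu

/-- The general join of two disjoint polygons. -/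
theorem join_general (hE : IsPolygon E) (hF : IsPolygon F) (hdisj : ∀ u ∈ verts E, u ∉ verts F)
    {a b a' b' : P3} (hab : s(a, b) ∈ E) (hab' : s(a', b') ∈ F) (h1 : Adj a a') (h2 : Adj b b') :
    IsPolygon ((E \ {s(a, b)}) ∪ (F \ {s(a', b')}) ∪ {s(a, a'), s(b, b')}) := by
  set J := (E \ {s(a, b)}) ∪ (F \ {s(a', b')}) ∪ {s(a, a'), s(b, b')} with hJ
  have hmem : ∀ e, e ∈ J ↔ (e ∈ E ∧ e ≠ s(a, b)) ∨ (e ∈ F ∧ e ≠ s(a', b')) ∨
      e = s(a, a') ∨ e = s(b, b') := by
    intro e
    simp only [hJ, Finset.mem_union, Finset.mem_sdiff, Finset.mem_singleton, Finset.mem_insert]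
    tauto
  have haE := mem_verts_left hab
  have hbE := mem_verts_right hab
  have haF := mem_verts_left hab'
  have hbF := mem_verts_right hab'
  have hdisj' : ∀ u ∈ verts F, u ∉ verts E := fun u hu hu' => hdisj u hu' hu
  have hverts : ∀ u ∈ verts J, u ∈ verts E ∨ u ∈ verts F := by
    rintro u ⟨v, hv⟩
    rcases (hmem _).1 hv with h | h | h | h
    · exact Or.inl (mem_verts_left h.1)
    · exact Or.inr (mem_verts_left h.1)
    · rcases Sym2.eq_iff.1 h with ⟨rfl, -⟩ | ⟨rfl, -⟩
      · exact Or.inl haE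
      · exact Or.inr haF
    · rcases Sym2.eq_iff.1 h with ⟨rfl, -⟩ | ⟨rfl, -⟩
      · exact Or.inl hbE
      · exact Or.inr hbF
  -- neighbours
  have hnE : ∀ u ∈ verts E, {w | s(u, w) ∈ J} =
      {w | (s(u, w) ∈ E ∧ s(u, w) ≠ s(a, b)) ∨ (u = a ∧ w = a') ∨ (u = b ∧ w = b')} := by
    intro u hu
    ext w
    simp only [Set.mem_ofPred_eq, hmem]
    constructor
    · rintro (h | h | h | h)
      · exact Or.inl h
      · exact absurd (mem_verts_left h.1) (hdisj u hu)
      · rcases Sym2.eq_iff.1 h with ⟨h3, h4⟩ | ⟨h3, h4⟩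
        · exact Or.inr (Or.inl ⟨h3, h4⟩)
        · subst h3; exact absurd haF (hdisj _ hu)
      · rcases Sym2.eq_iff.1 h with ⟨h3, h4⟩ | ⟨h3, h4⟩
        · exact Or.inr (Or.inr ⟨h3, h4⟩)
        · subst h3; exact absurd hbF (hdisj _ hu)
    · rintro (h | ⟨rfl, rfl⟩ | ⟨rfl, rfl⟩)
      · exact Or.inl h
      · exact Or.inr (Or.inr (Or.inl rfl))
      · exact Or.inr (Or.inr (Or.inr rfl))
  have hnF : ∀ u ∈ verts F, {w | s(u, w) ∈ J} =
      {w | (s(u, w) ∈ F ∧ s(u, w) ≠ s(a', b')) ∨ (u = a' ∧ w = a) ∨ (u = b' ∧ w = b)} := by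
    intro u hu
    ext w
    simp only [Set.mem_ofPred_eq, hmem]
    constructor
    · rintro (h | h | h | h)
      · exact absurd (mem_verts_left h.1) (hdisj' u hu)
      · exact Or.inl h
      · rcases Sym2.eq_iff.1 h with ⟨h3, h4⟩ | ⟨h3, h4⟩
        · subst h3; exact absurd haE (hdisj' _ hu)
        · exact Or.inr (Or.inl ⟨h3, h4⟩)
      · rcases Sym2.eq_iff.1 h with ⟨h3, h4⟩ | ⟨h3, h4⟩
        · subst h3; exact absurd hbE (hdisj' _ hu)
        · exact Or.inr (Or.inr ⟨h3, h4⟩)
    · rintro (h | ⟨rfl, rfl⟩ | ⟨rfl, rfl⟩)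
      · exact Or.inr (Or.inl h)
      · exact Or.inr (Or.inr (Or.inl Sym2.eq_swap))
      · exact Or.inr (Or.inr (Or.inr Sym2.eq_swap))
  refine ⟨⟨s(a, a'), (hmem _).2 (Or.inr (Or.inr (Or.inl rfl)))⟩, ?_, ?_, ?_⟩
  · intro u v huv
    rcases (hmem _).1 huv with h | h | h | h
    · exact hE.adj u v h.1
    · exact hF.adj u v h.1
    · rcases Sym2.eq_iff.1 h with ⟨rfl, rfl⟩ | ⟨rfl, rfl⟩
      · exact h1
      · exact h1.symm
    · rcases Sym2.eq_iff.1 h with ⟨rfl, rfl⟩ | ⟨rfl, rfl⟩
      · exact h2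
      · exact h2.symm
  · intro u hu
    rcases hverts u hu with hu | hu
    · rw [hnE u hu]
      exact deg_side hE hab (hdisj' _ haF) (hdisj' _ hbF) hu
    · rw [hnF u hu]
      exact deg_side hF hab' (hdisj _ haE) (hdisj _ hbE) hu
  · have hsymm : ∀ p q, s(p, q) ∈ J → s(q, p) ∈ J := fun p q h => by rwa [Sym2.eq_swap]
    have hall : ∀ u ∈ verts J, Relation.ReflTransGen (fun p q => s(p, q) ∈ J) a u := by
      intro u hu
      rcases hverts u hu with hu | hu
      · exact rtg_mono (fun p q h => (hmem _).2 (Or.inl h)) (arcStatement E hE a b hab a haE u hu)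
      · refine Relation.ReflTransGen.head ((hmem _).2 (Or.inr (Or.inr (Or.inl rfl)))) ?_
        exact rtg_mono (fun p q h => (hmem _).2 (Or.inr (Or.inl h)))
          (arcStatement F hF a' b' hab' a' haF u hu)
    intro u hu v hv
    exact (reflTransGen_symm_of_symm hsymm (hall u hu)).trans (hall v hv)

/-- The general detour: the edge `ab` is replaced by the path `a, c, d, b`. -/
theorem detour_general (hE : IsPolygon E) {a b c d : P3} (hab : s(a, b) ∈ E) (hc : c ∉ verts E)
    (hd : d ∉ verts E) (h1 : Adj a c) (h2 : Adj c d) (h3 : Adj d b) :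
    IsPolygon ((E \ {s(a, b)}) ∪ {s(a, c), s(c, d), s(d, b)}) := by
  set J := (E \ {s(a, b)}) ∪ {s(a, c), s(c, d), s(d, b)} with hJ
  have hmem : ∀ e, e ∈ J ↔ (e ∈ E ∧ e ≠ s(a, b)) ∨ e = s(a, c) ∨ e = s(c, d) ∨ e = s(d, b) := by
    intro e
    simp only [hJ, Finset.mem_union, Finset.mem_sdiff, Finset.mem_singleton, Finset.mem_insert]
  have haE := mem_verts_left hab
  have hbE := mem_verts_right hab
  have hcd : c ≠ d := h2.ne
  have hne : a ≠ b := (hE.adj a b hab).ne
  have hac : a ≠ c := h1.ne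
  have hdb : d ≠ b := h3.ne
  have had : a ≠ d := fun h => hd (h ▸ haE)
  have hbc : b ≠ c := fun h => hc (h ▸ hbE)
  have hverts : ∀ u ∈ verts J, u ∈ verts E ∨ u = c ∨ u = d := by
    rintro u ⟨v, hv⟩
    rcases (hmem _).1 hv with h | h | h | h
    · exact Or.inl (mem_verts_left h.1)
    · rcases Sym2.eq_iff.1 h with ⟨rfl, -⟩ | ⟨rfl, -⟩
      · exact Or.inl haE
      · exact Or.inr (Or.inl rfl)
    · rcases Sym2.eq_iff.1 h with ⟨rfl, -⟩ | ⟨rfl, -⟩
      · exact Or.inr (Or.inl rfl)
      · exact Or.inr (Or.inr rfl)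
    · rcases Sym2.eq_iff.1 h with ⟨rfl, -⟩ | ⟨rfl, -⟩
      · exact Or.inr (Or.inr rfl)
      · exact Or.inl hbE
  refine ⟨⟨s(a, c), (hmem _).2 (Or.inr (Or.inl rfl))⟩, ?_, ?_, ?_⟩
  · intro u v huv
    rcases (hmem _).1 huv with h | h | h | h
    · exact hE.adj u v h.1
    · rcases Sym2.eq_iff.1 h with ⟨rfl, rfl⟩ | ⟨rfl, rfl⟩
      exacts [h1, h1.symm]
    · rcases Sym2.eq_iff.1 h with ⟨rfl, rfl⟩ | ⟨rfl, rfl⟩
      exacts [h2, h2.symm]
    · rcases Sym2.eq_iff.1 h with ⟨rfl, rfl⟩ | ⟨rfl, rfl⟩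
      exacts [h3, h3.symm]
  · intro u hu
    rcases hverts u hu with hu | rfl | rfl
    · have h4 : {w | s(u, w) ∈ J} =
          {w | (s(u, w) ∈ E ∧ s(u, w) ≠ s(a, b)) ∨ (u = a ∧ w = c) ∨ (u = b ∧ w = d)} := by
        have huc : u ≠ c := fun h => hc (h ▸ hu)
        have hud : u ≠ d := fun h => hd (h ▸ hu)
        ext w
        simp only [Set.mem_ofPred_eq, hmem]
        constructor
        · rintro (h | h | h | h)
          · exact Or.inl h
          · rcases Sym2.eq_iff.1 h with ⟨h3, h4⟩ | ⟨h3, h4⟩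
            · exact Or.inr (Or.inl ⟨h3, h4⟩)
            · exact absurd h3 huc
          · rcases Sym2.eq_iff.1 h with ⟨h3, h4⟩ | ⟨h3, h4⟩
            · exact absurd h3 huc
            · exact absurd h3 hud
          · rcases Sym2.eq_iff.1 h with ⟨h3, h4⟩ | ⟨h3, h4⟩
            · exact absurd h3 hud
            · exact Or.inr (Or.inr ⟨h3, h4⟩)
        · rintro (h | ⟨rfl, rfl⟩ | ⟨rfl, rfl⟩)
          · exact Or.inl h
          · exact Or.inr (Or.inl rfl)
          · exact Or.inr (Or.inr (Or.inr Sym2.eq_swap))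
      rw [h4]
      exact deg_side hE hab hc hd hu
    · have h4 : {w | s(u, w) ∈ J} = {a, d} := by
        ext w
        simp only [Set.mem_ofPred_eq, hmem, Set.mem_insert_iff, Set.mem_singleton_iff]
        constructor
        · rintro (h | h | h | h)
          · exact absurd (mem_verts_left h.1) hc
          · rcases Sym2.eq_iff.1 h with ⟨h3, h4⟩ | ⟨h3, h4⟩
            · exact absurd h3.symm hac
            · exact Or.inl h4
          · rcases Sym2.eq_iff.1 h with ⟨h3, h4⟩ | ⟨h3, h4⟩
            · exact Or.inr h4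
            · exact absurd h3 hcd
          · rcases Sym2.eq_iff.1 h with ⟨h3, h4⟩ | ⟨h3, h4⟩
            · exact absurd h3 hcd
            · exact absurd h3.symm hbc
        · rintro (rfl | rfl)
          · exact Or.inr (Or.inl Sym2.eq_swap)
          · exact Or.inr (Or.inr (Or.inl rfl))
      rw [h4, Set.ncard_pair had]
    · have h4 : {w | s(u, w) ∈ J} = {c, b} := by
        ext w
        simp only [Set.mem_ofPred_eq, hmem, Set.mem_insert_iff, Set.mem_singleton_iff]
        constructor
        · rintro (h | h | h | h)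
          · exact absurd (mem_verts_left h.1) hd
          · rcases Sym2.eq_iff.1 h with ⟨h3, h4⟩ | ⟨h3, h4⟩
            · exact absurd h3.symm had
            · exact absurd h3.symm hcd
          · rcases Sym2.eq_iff.1 h with ⟨h3, h4⟩ | ⟨h3, h4⟩
            · exact absurd h3.symm hcd
            · exact Or.inl h4
          · rcases Sym2.eq_iff.1 h with ⟨h3, h4⟩ | ⟨h3, h4⟩
            · exact Or.inr h4
            · exact absurd h3 hdb
        · rintro (rfl | rfl)
          · exact Or.inr (Or.inr (Or.inl Sym2.eq_swap))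
          · exact Or.inr (Or.inr (Or.inr rfl))
      rw [h4, Set.ncard_pair hbc.symm]
  · have hsymm : ∀ p q, s(p, q) ∈ J → s(q, p) ∈ J := fun p q h => by rwa [Sym2.eq_swap]
    have e1 : s(a, c) ∈ J := (hmem _).2 (Or.inr (Or.inl rfl))
    have e2 : s(c, d) ∈ J := (hmem _).2 (Or.inr (Or.inr (Or.inl rfl)))
    have hall : ∀ u ∈ verts J, Relation.ReflTransGen (fun p q => s(p, q) ∈ J) a u := by
      intro u hu
      rcases hverts u hu with hu | rfl | rfl
      · exact rtg_mono (fun p q h => (hmem _).2 (Or.inl h)) (arcStatement E hE a b hab a haE u hu)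
      · exact Relation.ReflTransGen.single e1
      · exact (Relation.ReflTransGen.single e1).tail e2
    intro u hu v hv
    exact (reflTransGen_symm_of_symm hsymm (hall u hu)).trans (hall v hv)

theorem adj_add_right {x y t : P3} : Adj (x + t) (y + t) ↔ Adj x y := by
  simp [Adj]

theorem adj_add_unit {x d : P3} (hd : IsUnit3 d) : Adj x (x + d) := by
  unfold IsUnit3 at hd
  unfold Adj at *
  simp only [Prod.fst_add, Prod.snd_add, Prod.fst_zero, Prod.snd_zero, sub_zero,
    sub_add_cancel_left, abs_neg] at *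
  exact hd

theorem isPolygon_bump {x y d : P3} (h : IsPolygon E) (hxy : s(x, y) ∈ E) (hd : IsUnit3 d)
    (hx : x + d ∉ verts E) (hy : y + d ∉ verts E) : IsPolygon (bump E x y d) :=
  detour_general h hxy hx hy (adj_add_unit hd) (adj_add_right.2 (h.adj x y hxy))
    (adj_add_unit hd).symm

open Classical in
theorem isPolygon_flip {x a b : P3} (h : IsPolygon E) (h1 : s(x, x + a) ∈ E)
    (h2 : s(x + a, x + a + b) ∈ E) (ha : IsUnit3 a) (hb : IsUnit3 b) (hab : a ≠ -b)
    (hxb : x + b ∉ verts E) : IsPolygon (flip E x a b) := by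
  set φ : P3 → P3 := fun p => if p = x + a then x + b else p with hφ
  have hφa : φ (x + a) = x + b := by simp [hφ]
  have hφn : ∀ p, p ≠ x + a → φ p = p := fun p hp => by simp [hφ, hp]
  have h1' : s(x + a, x) ∈ E := by rwa [Sym2.eq_swap]
  have hx1 : x ≠ x + a := (h.adj _ _ h1).ne
  have hx2 : x + a + b ≠ x + a := (h.adj _ _ h2).ne.symm
  have hx3 : x ≠ x + a + b := by
    intro hh
    apply hab
    have : a + b = 0 := by
      have := hh.symm
      rw [add_assoc] at this
      exact add_eq_left.1 this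
    exact eq_neg_of_add_eq_zero_left this
  have hN : ∀ w, s(x + a, w) ∈ E → w = x ∨ w = x + a + b := fun w hw => nbr_eq' h h1' h2 hx3 hw
  have hxa : x + a ∈ verts E := mem_verts_right h1
  have heq : flip E x a b = mapE φ E := by
    ext e
    induction e using Sym2.ind with
    | _ u v =>
      rw [mem_mapE_iff]
      simp only [flip, Finset.mem_union, Finset.mem_sdiff, Finset.mem_insert,
        Finset.mem_singleton, not_or]
      constructor
      · rintro (⟨he, hn1, hn2⟩ | h3 | h3)
        · have hu : u ≠ x + a := by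
            rintro rfl
            rcases hN _ he with rfl | rfl
            · exact hn1 Sym2.eq_swap
            · exact hn2 rfl
          have hv : v ≠ x + a := by
            rintro rfl
            rcases hN u (by rwa [Sym2.eq_swap]) with rfl | rfl
            · exact hn1 rfl
            · exact hn2 Sym2.eq_swap
          exact ⟨u, v, he, hφn u hu, hφn v hv⟩
        · rcases Sym2.eq_iff.1 h3 with ⟨rfl, rfl⟩ | ⟨rfl, rfl⟩
          · exact ⟨u, u + a, h1, hφn _ hx1, hφa⟩
          · exact ⟨v + a, v, h1', hφa, hφn _ hx1⟩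
        · rcases Sym2.eq_iff.1 h3 with ⟨rfl, rfl⟩ | ⟨rfl, rfl⟩
          · exact ⟨x + a, x + a + b, h2, hφa, hφn _ hx2⟩
          · exact ⟨x + a + b, x + a, by rwa [Sym2.eq_swap], hφn _ hx2, hφa⟩
      · rintro ⟨p, q, he, rfl, rfl⟩
        by_cases hp : p = x + a
        · subst hp
          rw [hφa]
          rcases hN q he with rfl | rfl
          · rw [hφn _ hx1]; exact Or.inr (Or.inl Sym2.eq_swap)
          · rw [hφn _ hx2]; exact Or.inr (Or.inr rfl)
        · by_cases hq : q = x + a
          · subst hq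
            rw [hφa]
            rcases hN p (by rwa [Sym2.eq_swap]) with rfl | rfl
            · rw [hφn _ hx1]; exact Or.inr (Or.inl rfl)
            · rw [hφn _ hx2]; exact Or.inr (Or.inr Sym2.eq_swap)
          · rw [hφn _ hp, hφn _ hq]
            left
            refine ⟨he, ?_, ?_⟩
            · intro h3
              rcases Sym2.eq_iff.1 h3 with ⟨-, h4⟩ | ⟨h4, -⟩
              · exact hq h4
              · exact hp h4
            · intro h3
              rcases Sym2.eq_iff.1 h3 with ⟨h4, -⟩ | ⟨-, h4⟩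
              · exact hp h4
              · exact hq h4
  rw [heq]
  apply h.mapE
  · intro p hp q hq hpq
    by_cases hp' : p = x + a
    · by_cases hq' : q = x + a
      · rw [hp', hq']
      · rw [hp', hφa, hφn _ hq'] at hpq
        exact absurd (hpq ▸ hq) hxb
    · by_cases hq' : q = x + a
      · rw [hq', hφa, hφn _ hp'] at hpq
        exact absurd (hpq ▸ hp) hxb
      · rwa [hφn _ hp', hφn _ hq'] at hpq
  · intro u v he
    have hbx : Adj (x + b) x := (adj_add_unit hb).symm
    have hbc : Adj (x + b) (x + a + b) := by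
      have : x + a + b = x + b + a := by abel
      rw [this]
      exact adj_add_unit ha
    by_cases hu : u = x + a
    · subst hu
      rw [hφa]
      rcases hN v he with rfl | rfl
      · rw [hφn _ hx1]; exact hbx
      · rw [hφn _ hx2]; exact hbc
    · by_cases hv : v = x + a
      · subst hv
        rw [hφa]
        rcases hN u (by rwa [Sym2.eq_swap]) with rfl | rfl
        · rw [hφn _ hx1]; exact hbx.symm
        · rw [hφn _ hx2]; exact hbc.symm
      · rw [hφn _ hu, hφn _ hv]
        exact h.adj u v he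

theorem isPolygon_join {x y h : ℤ} (hE : IsPolygon E) (hF : IsPolygon F)
    (hd : ∀ u ∈ verts E, ∀ v ∈ verts F, (u.1, u.2.1) ≠ (v.1, v.2.1))
    (h1 : s(((x, y, h) : P3), (x, y, h + 1)) ∈ E) (h2 : s(((x + 1, y, h) : P3), (x + 1, y, h + 1)) ∈ F) :
    IsPolygon (join E F x y h) :=
  join_general hE hF (fun u hu hu' => hd u hu u hu' rfl) h1 h2 (by simp [Adj]) (by simp [Adj])

/-- the stacked join of polygons is a polygon -/
theorem polyJoinZStatement : PolyJoinZStatement := by
  intro E F x y h hE hF hd h1 h2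
  exact join_general hE hF (fun u hu hu' => absurd (hd u hu u hu' rfl rfl) (lt_irrefl _)) h1 h2
    (by simp [Adj]) (by simp [Adj])

theorem isPolygon_square : IsPolygon square := by
  have hmem : ∀ u v : P3, s(u, v) ∈ square ↔
      (s(u, v) = s((0, 0, 0), (1, 0, 0)) ∨ s(u, v) = s((1, 0, 0), (1, 1, 0)) ∨
        s(u, v) = s((1, 1, 0), (0, 1, 0)) ∨ s(u, v) = s((0, 1, 0), (0, 0, 0))) := by
    intro u v
    simp only [square, Finset.mem_insert, Finset.mem_singleton]
  have hverts : ∀ u ∈ verts square, u = (0, 0, 0) ∨ u = (1, 0, 0) ∨ u = (1, 1, 0) ∨ u = (0, 1, 0) := by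
    rintro u ⟨v, hv⟩
    simp only [hmem, Sym2.eq_iff] at hv
    tauto
  have e1 : s(((0, 0, 0) : P3), (1, 0, 0)) ∈ square := by simp [square]
  have e2 : s(((1, 0, 0) : P3), (1, 1, 0)) ∈ square := by simp [square]
  have e3 : s(((1, 1, 0) : P3), (0, 1, 0)) ∈ square := by simp [square]
  have e4 : s(((0, 1, 0) : P3), (0, 0, 0)) ∈ square := by simp [square]
  refine ⟨⟨_, e1⟩, ?_, ?_, ?_⟩
  · intro u v huv
    simp only [hmem, Sym2.eq_iff] at huv
    rcases huv with (⟨rfl, rfl⟩ | ⟨rfl, rfl⟩) | (⟨rfl, rfl⟩ | ⟨rfl, rfl⟩) |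
      (⟨rfl, rfl⟩ | ⟨rfl, rfl⟩) | (⟨rfl, rfl⟩ | ⟨rfl, rfl⟩) <;> simp [Adj]
  · intro u hu
    rcases hverts u hu with rfl | rfl | rfl | rfl
    · have : {w : P3 | s((0, 0, 0), w) ∈ square} = {(1, 0, 0), (0, 1, 0)} := by
        ext ⟨p, q, r⟩
        simp only [Set.mem_ofPred_eq, hmem, Sym2.eq_iff, Set.mem_insert_iff,
          Set.mem_singleton_iff, Prod.mk.injEq]
        norm_num
        try tauto
      rw [this, Set.ncard_pair (by simp)]
    · have : {w : P3 | s((1, 0, 0), w) ∈ square} = {(0, 0, 0), (1, 1, 0)} := by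
        ext ⟨p, q, r⟩
        simp only [Set.mem_ofPred_eq, hmem, Sym2.eq_iff, Set.mem_insert_iff,
          Set.mem_singleton_iff, Prod.mk.injEq]
        norm_num
        try tauto
      rw [this, Set.ncard_pair (by simp)]
    · have : {w : P3 | s((1, 1, 0), w) ∈ square} = {(1, 0, 0), (0, 1, 0)} := by
        ext ⟨p, q, r⟩
        simp only [Set.mem_ofPred_eq, hmem, Sym2.eq_iff, Set.mem_insert_iff,
          Set.mem_singleton_iff, Prod.mk.injEq]
        norm_num
        try tauto
      rw [this, Set.ncard_pair (by simp)]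
    · have : {w : P3 | s((0, 1, 0), w) ∈ square} = {(1, 1, 0), (0, 0, 0)} := by
        ext ⟨p, q, r⟩
        simp only [Set.mem_ofPred_eq, hmem, Sym2.eq_iff, Set.mem_insert_iff,
          Set.mem_singleton_iff, Prod.mk.injEq]
        norm_num
        try tauto
      rw [this, Set.ncard_pair (by simp)]
  · have hsymm : ∀ p q : P3, s(p, q) ∈ square → s(q, p) ∈ square :=
      fun p q h => by rwa [Sym2.eq_swap]
    have hall : ∀ u ∈ verts square,
        Relation.ReflTransGen (fun p q => s(p, q) ∈ square) ((0, 0, 0) : P3) u := by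
      intro u hu
      rcases hverts u hu with rfl | rfl | rfl | rfl
      · exact Relation.ReflTransGen.refl
      · exact Relation.ReflTransGen.single e1
      · exact (Relation.ReflTransGen.single e1).tail e2
      · exact ((Relation.ReflTransGen.single e1).tail e2).tail e3
    intro u hu v hv
    exact (reflTransGen_symm_of_symm hsymm (hall u hu)).trans (hall v hv)

/-- Package PC. -/
theorem polyStatement : PolyStatement where
  poly := fun _ h => h
  square := isPolygon_square
  trans := fun t E h => h.mapE (fun u _ v _ huv => add_right_cancel huv)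
    fun u v huv => adj_add_right.2 (h.adj u v huv)
  swapXY := fun E h => h.mapE
    (fun u _ v _ huv => by
      simp only [Prod.mk.injEq] at huv
      exact Prod.ext huv.2.1 (Prod.ext huv.1 huv.2.2))
    fun u v huv => by
      have := h.adj u v huv
      unfold Adj at *
      linarith
  swapYZ := fun E h => h.mapE
    (fun u _ v _ huv => by
      simp only [Prod.mk.injEq] at huv
      exact Prod.ext huv.1 (Prod.ext huv.2.2 huv.2.1))
    fun u v huv => by
      have := h.adj u v huv
      unfold Adj at *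
      linarith
  negX := fun E h => h.mapE
    (fun u _ v _ huv => by
      simp only [Prod.mk.injEq, neg_inj] at huv
      exact Prod.ext huv.1 (Prod.ext huv.2.1 huv.2.2))
    fun u v huv => by
      have h1 := h.adj u v huv
      unfold Adj at *
      have : |-u.1 - -v.1| = |u.1 - v.1| := by
        rw [← abs_neg]; congr 1; ring
      rw [this]
      exact h1
  bump := fun E x y d h hxy hd hx hy => isPolygon_bump h hxy hd hx hy
  flip := fun E x a b h h1 h2 ha hb _ hab hxb => isPolygon_flip h h1 h2 ha hb hab hxb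
  join := fun E F x y h hE hF hd h1 h2 => isPolygon_join hE hF hd h1 h2

/-- The class of all polygons is closed, stacked version. -/
theorem polyClosedZ : ClosedZ IsPolygon where
  poly := polyStatement.poly
  square := polyStatement.square
  trans := polyStatement.trans
  swapXY := polyStatement.swapXY
  swapYZ := polyStatement.swapYZ
  negX := polyStatement.negX
  bump := polyStatement.bump
  flip := polyStatement.flip
  join := fun E F x y h hE hF hd h1 h2 => polyJoinZStatement E F x y h hE hF hd h1 h2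

end Pool.Agent.LK
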