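import Pool.Agent.MP_aea6d5_co.TopDefs
import Pool.Agent.MP_aea6d5_co.PolyClosed

/-! Package T0: lattice isometries, the unit square is unknotted. -/

set_option autoImplicit false

open Set Topology

namespace Pool.Agent.LK

/-! ### Lattice isometries -/

/-- the scalar product of lattice vectors -/
def dot3 (u v : P3) : ℤ := u.1 * v.1 + u.2.1 * v.2.1 + u.2.2 * v.2.2

/-- an orthonormal frame of lattice vectors -/
structure Frame (a b c : P3) : Prop where
  aa : dot3 a a = 1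
  bb : dot3 b b = 1
  cc : dot3 c c = 1
  ab : dot3 a b = 0
  ac : dot3 a c = 0
  bc : dot3 b c = 0

/-- the lattice isometry with origin `x` and frame `a, b, c` -/
def latIso (x a b c : P3) (u : P3) : P3 := x + u.1 • a + u.2.1 • b + u.2.2 • c

/-- its linear part on space -/
def frameLin (a b c : P3) : R3 →ₗ[ℝ] R3 where
  toFun v := v.1 • toR a + v.2.1 • toR b + v.2.2 • toR c
  map_add' v w := by simp only [Prod.fst_add, Prod.snd_add, add_smul]; abel
  map_smul' r v := by simp only [Prod.smul_fst, Prod.smul_snd, smul_eq_mul, mul_smul, smul_add,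
    RingHom.id_apply]

theorem frameLin_injective {a b c : P3} (h : Frame a b c) : Function.Injective (frameLin a b c) := by
  rw [injective_iff_map_eq_zero]
  intro v hv
  have haa : (a.1 : ℝ) * a.1 + a.2.1 * a.2.1 + a.2.2 * a.2.2 = 1 := by exact_mod_cast h.aa
  have hbb : (b.1 : ℝ) * b.1 + b.2.1 * b.2.1 + b.2.2 * b.2.2 = 1 := by exact_mod_cast h.bb
  have hcc : (c.1 : ℝ) * c.1 + c.2.1 * c.2.1 + c.2.2 * c.2.2 = 1 := by exact_mod_cast h.cc
  have hab : (a.1 : ℝ) * b.1 + a.2.1 * b.2.1 + a.2.2 * b.2.2 = 0 := by exact_mod_cast h.ab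
  have hac : (a.1 : ℝ) * c.1 + a.2.1 * c.2.1 + a.2.2 * c.2.2 = 0 := by exact_mod_cast h.ac
  have hbc : (b.1 : ℝ) * c.1 + b.2.1 * c.2.1 + b.2.2 * c.2.2 = 0 := by exact_mod_cast h.bc
  have hv' : v.1 • toR a + v.2.1 • toR b + v.2.2 • toR c = 0 := hv
  have e1 : v.1 * a.1 + v.2.1 * b.1 + v.2.2 * c.1 = 0 := by
    have := congrArg Prod.fst hv'
    simpa [toR] using this
  have e2 : v.1 * a.2.1 + v.2.1 * b.2.1 + v.2.2 * c.2.1 = 0 := by
    have := congrArg (fun p : R3 => p.2.1) hv'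
    simpa [toR] using this
  have e3 : v.1 * a.2.2 + v.2.1 * b.2.2 + v.2.2 * c.2.2 = 0 := by
    have := congrArg (fun p : R3 => p.2.2) hv'
    simpa [toR] using this
  refine Prod.ext ?_ (Prod.ext ?_ ?_)
  · change v.1 = 0
    linear_combination (a.1 : ℝ) * e1 + (a.2.1 : ℝ) * e2 + (a.2.2 : ℝ) * e3 - v.1 * haa -
      v.2.1 * hab - v.2.2 * hac
  · change v.2.1 = 0
    linear_combination (b.1 : ℝ) * e1 + (b.2.1 : ℝ) * e2 + (b.2.2 : ℝ) * e3 - v.1 * hab -
      v.2.1 * hbb - v.2.2 * hbc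
  · change v.2.2 = 0
    linear_combination (c.1 : ℝ) * e1 + (c.2.1 : ℝ) * e2 + (c.2.2 : ℝ) * e3 - v.1 * hac -
      v.2.1 * hbc - v.2.2 * hcc

/-- the isometry of space extending `latIso` -/
theorem exists_latHomeo {a b c : P3} (h : Frame a b c) (x : P3) : ∃ G : R3 ≃ₜ R3,
    (∀ v : R3, G v = toR x + v.1 • toR a + v.2.1 • toR b + v.2.2 • toR c) ∧
    (∀ u, G (toR u) = toR (latIso x a b c u)) ∧
    ∀ p q : R3, G '' segment ℝ p q = segment ℝ (G p) (G q) := by
  set L := LinearEquiv.ofInjectiveEndo (frameLin a b c) (frameLin_injective h) with hL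
  set G : R3 ≃ₜ R3 := L.toContinuousLinearEquiv.toHomeomorph.trans (Homeomorph.addLeft (toR x))
    with hG
  have hG1 : ∀ v : R3, G v = toR x + v.1 • toR a + v.2.1 • toR b + v.2.2 • toR c := by
    intro v
    have h1 : G v = toR x + (v.1 • toR a + v.2.1 • toR b + v.2.2 • toR c) := rfl
    rw [h1]; abel
  have hG2 : ∀ u, G (toR u) = toR (latIso x a b c u) := by
    intro u
    rw [hG1]
    simp only [toR, latIso, Prod.smul_mk, Prod.mk_add_mk, Prod.fst_add, Prod.snd_add,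
      Prod.smul_fst, Prod.smul_snd, smul_eq_mul]
    push_cast
    rfl
  refine ⟨G, hG1, hG2, ?_⟩
  intro p q
  set A : R3 →ᵃ[ℝ] R3 := (AffineMap.const ℝ R3 (toR x)) + (frameLin a b c).toAffineMap with hA
  have hGA : ∀ v, G v = A v := by
    intro v
    have h1 : A v = toR x + frameLin a b c v := rfl
    rw [hG1, h1]
    change _ = toR x + (v.1 • toR a + v.2.1 • toR b + v.2.2 • toR c)
    abel
  have h2 : (G : R3 → R3) = A := funext hGA
  rw [h2]
  exact image_segment ℝ A p q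

theorem body_mapE (G : R3 ≃ₜ R3) (g : P3 → P3) (hG : ∀ u, G (toR u) = toR (g u))
    (hseg : ∀ p q : R3, G '' segment ℝ p q = segment ℝ (G p) (G q)) (E : Finset (Sym2 P3)) :
    body (mapE g E) = G '' body E := by
  ext p
  constructor
  · rintro ⟨u, v, huv, hp⟩
    obtain ⟨u', v', he, rfl, rfl⟩ := mem_mapE_iff.1 huv
    rw [← hG, ← hG, ← hseg] at hp
    obtain ⟨q, hq, rfl⟩ := hp
    exact ⟨q, ⟨u', v', he, hq⟩, rfl⟩
  · rintro ⟨q, ⟨u, v, he, hq⟩, rfl⟩
    refine ⟨g u, g v, mem_mapE_iff.2 ⟨u, v, he, rfl, rfl⟩, ?_⟩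
    rw [← hG, ← hG, ← hseg]
    exact ⟨q, hq, rfl⟩

theorem unk_image (G : R3 ≃ₜ R3) (X : Set R3) : Unk (G '' X) ↔ Unk X := by
  constructor
  · rintro ⟨φ, hφ⟩
    refine ⟨G.trans φ, ?_⟩
    rw [← hφ, ← image_comp]
    rfl
  · rintro ⟨φ, hφ⟩
    refine ⟨G.symm.trans φ, ?_⟩
    rw [← hφ, ← image_comp]
    apply image_congr
    intro x _
    change φ (G.symm (G x)) = φ x
    rw [G.symm_apply_apply]

theorem unknotted_mapE_of_homeo (G : R3 ≃ₜ R3) (g : P3 → P3) (hG : ∀ u, G (toR u) = toR (g u))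
    (hseg : ∀ p q : R3, G '' segment ℝ p q = segment ℝ (G p) (G q)) (E : Finset (Sym2 P3)) :
    Unknotted (mapE g E) ↔ Unknotted E := by
  change Unk (body (mapE g E)) ↔ Unk (body E)
  rw [body_mapE G g hG hseg, unk_image]

/-- lattice isometries preserve (and reflect) unknottedness -/
theorem unknotted_latIso {a b c : P3} (h : Frame a b c) (x : P3) (E : Finset (Sym2 P3)) :
    Unknotted (mapE (latIso x a b c) E) ↔ Unknotted E := by
  obtain ⟨G, -, hG, hseg⟩ := exists_latHomeo h x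
  exact unknotted_mapE_of_homeo G _ hG hseg E

theorem latIso_injective {a b c : P3} (h : Frame a b c) (x : P3) :
    Function.Injective (latIso x a b c) := by
  obtain ⟨G, -, hG, -⟩ := exists_latHomeo h x
  intro u v huv
  have h1 : G (toR u) = G (toR v) := by rw [hG, hG, huv]
  have h2 := G.injective h1
  simp only [toR, Prod.mk.injEq, Int.cast_inj] at h2
  exact Prod.ext h2.1 (Prod.ext h2.2.1 h2.2.2)

theorem adj_iff_sq (u v : P3) : Adj u v ↔
    (u.1 - v.1) ^ 2 + (u.2.1 - v.2.1) ^ 2 + (u.2.2 - v.2.2) ^ 2 = 1 := by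
  unfold Adj
  generalize u.1 - v.1 = p
  generalize u.2.1 - v.2.1 = q
  generalize u.2.2 - v.2.2 = r
  constructor
  · intro h
    have hp := abs_nonneg p
    have hq := abs_nonneg q
    have hr := abs_nonneg r
    rw [← sq_abs p, ← sq_abs q, ← sq_abs r]
    have h1 : (|p| = 1 ∧ |q| = 0 ∧ |r| = 0) ∨ (|p| = 0 ∧ |q| = 1 ∧ |r| = 0) ∨
      (|p| = 0 ∧ |q| = 0 ∧ |r| = 1) := by omega
    rcases h1 with ⟨h1, h2, h3⟩ | ⟨h1, h2, h3⟩ | ⟨h1, h2, h3⟩ <;> rw [h1, h2, h3] <;> norm_num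
  · intro h
    have hp : |p| ≤ p ^ 2 := by rw [← sq_abs]; nlinarith [abs_nonneg p, Int.le_self_sq |p|]
    have hq : |q| ≤ q ^ 2 := by rw [← sq_abs]; nlinarith [abs_nonneg q, Int.le_self_sq |q|]
    have hr : |r| ≤ r ^ 2 := by rw [← sq_abs]; nlinarith [abs_nonneg r, Int.le_self_sq |r|]
    have h1 : |p| + |q| + |r| ≤ 1 := by linarith
    rcases lt_or_ge (|p| + |q| + |r|) 1 with h2 | h2
    · have hp0 := abs_nonneg p
      have hq0 := abs_nonneg q
      have hr0 := abs_nonneg r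
      have a1 : p = 0 := abs_eq_zero.1 (by omega)
      have a2 : q = 0 := abs_eq_zero.1 (by omega)
      have a3 : r = 0 := abs_eq_zero.1 (by omega)
      rw [a1, a2, a3] at h
      norm_num at h
    · omega

theorem latIso_adj {a b c : P3} (h : Frame a b c) (x u v : P3) :
    Adj (latIso x a b c u) (latIso x a b c v) ↔ Adj u v := by
  rw [adj_iff_sq, adj_iff_sq]
  have haa := h.aa
  have hbb := h.bb
  have hcc := h.cc
  have hab := h.ab
  have hac := h.ac
  have hbc := h.bc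
  simp only [dot3] at haa hbb hcc hab hac hbc
  have key : ((latIso x a b c u).1 - (latIso x a b c v).1) ^ 2 +
      ((latIso x a b c u).2.1 - (latIso x a b c v).2.1) ^ 2 +
      ((latIso x a b c u).2.2 - (latIso x a b c v).2.2) ^ 2 =
      (u.1 - v.1) ^ 2 + (u.2.1 - v.2.1) ^ 2 + (u.2.2 - v.2.2) ^ 2 := by
    simp only [latIso, Prod.fst_add, Prod.snd_add, Prod.smul_fst, Prod.smul_snd, smul_eq_mul]
    linear_combination (u.1 - v.1) ^ 2 * haa + (u.2.1 - v.2.1) ^ 2 * hbb +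
      (u.2.2 - v.2.2) ^ 2 * hcc + 2 * (u.1 - v.1) * (u.2.1 - v.2.1) * hab +
      2 * (u.1 - v.1) * (u.2.2 - v.2.2) * hac + 2 * (u.2.1 - v.2.1) * (u.2.2 - v.2.2) * hbc
  rw [key]

theorem isPolygon_latIso {a b c : P3} (h : Frame a b c) (x : P3) {E : Finset (Sym2 P3)}
    (hE : IsPolygon E) : IsPolygon (mapE (latIso x a b c) E) :=
  hE.mapE (latIso_injective h x).injOn fun u v huv => (latIso_adj h x u v).2 (hE.adj u v huv)

theorem frame_std : Frame (1, 0, 0) (0, 1, 0) (0, 0, 1) :=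
  ⟨by simp [dot3], by simp [dot3], by simp [dot3], by simp [dot3], by simp [dot3], by simp [dot3]⟩

theorem frame_swapXY : Frame (0, 1, 0) (1, 0, 0) (0, 0, 1) :=
  ⟨by simp [dot3], by simp [dot3], by simp [dot3], by simp [dot3], by simp [dot3], by simp [dot3]⟩

theorem frame_swapYZ : Frame (1, 0, 0) (0, 0, 1) (0, 1, 0) :=
  ⟨by simp [dot3], by simp [dot3], by simp [dot3], by simp [dot3], by simp [dot3], by simp [dot3]⟩

theorem frame_negX : Frame (-1, 0, 0) (0, 1, 0) (0, 0, 1) :=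
  ⟨by simp [dot3], by simp [dot3], by simp [dot3], by simp [dot3], by simp [dot3], by simp [dot3]⟩

theorem unknotted_trans_iff (t : P3) (E : Finset (Sym2 P3)) :
    Unknotted (mapE (fun u => u + t) E) ↔ Unknotted E := by
  have : (fun u : P3 => u + t) = latIso t (1, 0, 0) (0, 1, 0) (0, 0, 1) := by
    funext u
    refine Prod.ext ?_ (Prod.ext ?_ ?_) <;> simp [latIso, add_comm]
  rw [this]
  exact unknotted_latIso frame_std t E

theorem unknotted_swapXY_iff (E : Finset (Sym2 P3)) :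
    Unknotted (mapE (fun u => (u.2.1, u.1, u.2.2)) E) ↔ Unknotted E := by
  have : (fun u : P3 => ((u.2.1, u.1, u.2.2) : P3)) = latIso 0 (0, 1, 0) (1, 0, 0) (0, 0, 1) := by
    funext u
    refine Prod.ext ?_ (Prod.ext ?_ ?_) <;> simp [latIso]
  rw [this]
  exact unknotted_latIso frame_swapXY 0 E

theorem unknotted_swapYZ_iff (E : Finset (Sym2 P3)) :
    Unknotted (mapE (fun u => (u.1, u.2.2, u.2.1)) E) ↔ Unknotted E := by
  have : (fun u : P3 => ((u.1, u.2.2, u.2.1) : P3)) = latIso 0 (1, 0, 0) (0, 0, 1) (0, 1, 0) := by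
    funext u
    refine Prod.ext ?_ (Prod.ext ?_ ?_) <;> simp [latIso]
  rw [this]
  exact unknotted_latIso frame_swapYZ 0 E

theorem unknotted_negX_iff (E : Finset (Sym2 P3)) :
    Unknotted (mapE (fun u => (-u.1, u.2.1, u.2.2)) E) ↔ Unknotted E := by
  have : (fun u : P3 => ((-u.1, u.2.1, u.2.2) : P3)) = latIso 0 (-1, 0, 0) (0, 1, 0) (0, 0, 1) := by
    funext u
    refine Prod.ext ?_ (Prod.ext ?_ ?_) <;> simp [latIso]
  rw [this]
  exact unknotted_latIso frame_negX 0 E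

/-! ### The unit square -/

theorem sq_iff (x y : ℝ) : max |x - 1 / 2| |y - 1 / 2| = 1 / 2 ↔
    (0 ≤ x ∧ x ≤ 1 ∧ 0 ≤ y ∧ y ≤ 1) ∧ (x = 0 ∨ x = 1 ∨ y = 0 ∨ y = 1) := by
  have key : ∀ t : ℝ, |t - 1 / 2| = 1 / 2 ↔ t = 0 ∨ t = 1 := by
    intro t
    rw [abs_eq (by norm_num)]
    constructor
    · rintro (h | h)
      · right; linarith
      · left; linarith
    · rintro (h | h)
      · right; linarith
      · left; linarith
  have key2 : ∀ t : ℝ, |t - 1 / 2| ≤ 1 / 2 ↔ 0 ≤ t ∧ t ≤ 1 := by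
    intro t
    rw [abs_le]
    constructor <;> rintro ⟨h1, h2⟩ <;> constructor <;> linarith
  constructor
  · intro h
    have h1 : |x - 1 / 2| ≤ 1 / 2 := (le_max_left _ _).trans h.le
    have h2 : |y - 1 / 2| ≤ 1 / 2 := (le_max_right _ _).trans h.le
    refine ⟨⟨((key2 x).1 h1).1, ((key2 x).1 h1).2, ((key2 y).1 h2).1, ((key2 y).1 h2).2⟩, ?_⟩
    rcases max_choice |x - 1 / 2| |y - 1 / 2| with h3 | h3
    · rw [h3] at h
      rcases (key x).1 h with h4 | h4
      · exact Or.inl h4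
      · exact Or.inr (Or.inl h4)
    · rw [h3] at h
      rcases (key y).1 h with h4 | h4
      · exact Or.inr (Or.inr (Or.inl h4))
      · exact Or.inr (Or.inr (Or.inr h4))
  · rintro ⟨⟨h1, h2, h3, h4⟩, h5⟩
    apply le_antisymm
    · exact max_le ((key2 x).2 ⟨h1, h2⟩) ((key2 y).2 ⟨h3, h4⟩)
    · rcases h5 with h5 | h5 | h5 | h5
      · exact ((key x).2 (Or.inl h5)).symm.le.trans (le_max_left _ _)
      · exact ((key x).2 (Or.inr h5)).symm.le.trans (le_max_left _ _)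
      · exact ((key y).2 (Or.inl h5)).symm.le.trans (le_max_right _ _)
      · exact ((key y).2 (Or.inr h5)).symm.le.trans (le_max_right _ _)

theorem body_square : body square = {p : R3 | p.2.2 = 0 ∧ max |p.1 - 1 / 2| |p.2.1 - 1 / 2| = 1 / 2} := by
  ext ⟨x, y, z⟩
  simp only [mem_ofPred_eq]
  rw [sq_iff]
  constructor
  · rintro ⟨u, v, huv, a, b, ha, hb, hab, h⟩
    simp only [square, Finset.mem_insert, Finset.mem_singleton, Sym2.eq_iff] at huv
    rcases huv with (⟨rfl, rfl⟩ | ⟨rfl, rfl⟩) | (⟨rfl, rfl⟩ | ⟨rfl, rfl⟩) |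
      (⟨rfl, rfl⟩ | ⟨rfl, rfl⟩) | (⟨rfl, rfl⟩ | ⟨rfl, rfl⟩) <;>
    · simp [toR] at h
      obtain ⟨h1, h2, h3⟩ := h
      refine ⟨by linarith, ⟨by linarith, by linarith, by linarith, by linarith⟩, ?_⟩
      first
        | exact Or.inl (by linarith)
        | exact Or.inr (Or.inl (by linarith))
        | exact Or.inr (Or.inr (Or.inl (by linarith)))
        | exact Or.inr (Or.inr (Or.inr (by linarith)))
  · rintro ⟨hz, ⟨h1, h2, h3, h4⟩, h5⟩
    rcases h5 with rfl | rfl | rfl | rfl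
    · refine ⟨(0, 1, 0), (0, 0, 0), by simp [square], y, 1 - y, h3, by linarith, by ring, ?_⟩
      simp [toR, hz]
    · refine ⟨(1, 0, 0), (1, 1, 0), by simp [square], 1 - y, y, by linarith, h3, by ring, ?_⟩
      simp [toR, hz]
    · refine ⟨(0, 0, 0), (1, 0, 0), by simp [square], 1 - x, x, by linarith, h1, by ring, ?_⟩
      simp [toR, hz]
    · refine ⟨(1, 1, 0), (0, 1, 0), by simp [square], x, 1 - x, h1, by linarith, by ring, ?_⟩
      simp [toR, hz]

/-- the open square of side 1 around the origin in the complex plane -/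
def osq : Set ℂ := Complex.equivRealProdCLM ⁻¹' Metric.ball (0 : ℝ × ℝ) (1 / 2)

theorem frontier_osq : frontier osq = {z : ℂ | max |z.re| |z.im| = 1 / 2} := by
  have h1 : frontier osq = Complex.equivRealProdCLM ⁻¹' frontier (Metric.ball (0 : ℝ × ℝ) (1 / 2)) :=
    (Complex.equivRealProdCLM.toHomeomorph.preimage_frontier _).symm
  rw [h1, frontier_ball _ (by norm_num)]
  ext z
  simp only [mem_preimage, mem_sphere_zero_iff_norm, mem_ofPred_eq, Prod.norm_def,
    Real.norm_eq_abs, Complex.equivRealProdCLM_apply]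

theorem unk_square_aux : ∃ h : ℂ ≃ₜ ℂ, ∀ z : ℂ, max |z.re| |z.im| = 1 / 2 ↔ ‖h z‖ = 1 := by
  have hopen : IsOpen osq := Metric.isOpen_ball.preimage Complex.equivRealProdCLM.continuous
  have hconv : Convex ℝ osq :=
    (convex_ball (0 : ℝ × ℝ) (1 / 2)).linear_preimage
      (Complex.equivRealProdCLM : ℂ ≃L[ℝ] ℝ × ℝ).toLinearEquiv.toLinearMap
  have hne : (interior osq).Nonempty := by
    rw [hopen.interior_eq]
    exact ⟨0, by simp [osq]⟩
  have hb : Bornology.IsBounded osq := by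
    rw [isBounded_iff_forall_norm_le]
    refine ⟨2, fun z hz => ?_⟩
    have h1 : ‖Complex.equivRealProdCLM z‖ < 1 / 2 := by simpa [osq] using hz
    rw [Prod.norm_def] at h1
    have h2 : |z.re| ≤ 1 / 2 := (le_max_left _ _).trans h1.le
    have h3 : |z.im| ≤ 1 / 2 := (le_max_right _ _).trans h1.le
    linarith [Complex.norm_le_abs_re_add_abs_im z]
  obtain ⟨h, -, -, hf⟩ := exists_homeomorph_image_interior_closure_frontier_eq_unitBall hconv hne hb
  refine ⟨h, fun z => ?_⟩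
  have h1 : h z ∈ h '' frontier osq ↔ z ∈ frontier osq := h.injective.mem_set_image
  rw [hf, frontier_osq] at h1
  simpa using h1.symm

/-- the homeomorphism of space straightening the unit square -/
theorem unknotted_square : Unknotted square := by
  obtain ⟨h, hh⟩ := unk_square_aux
  -- `(x, y, z) ↦ (h (x + iy), z)`
  let e : R3 ≃ₜ ℂ × ℝ := (Homeomorph.prodAssoc ℝ ℝ ℝ).symm.trans
    (Complex.equivRealProdCLM.toHomeomorph.symm.prodCongr (Homeomorph.refl ℝ))
  let φ : R3 ≃ₜ R3 := (e.trans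
    (((Homeomorph.subRight (⟨1 / 2, 1 / 2⟩ : ℂ)).trans h).prodCongr (Homeomorph.refl ℝ))).trans e.symm
  have he : ∀ p : R3, e p = (⟨p.1, p.2.1⟩, p.2.2) := fun p => rfl
  have hes : ∀ q : ℂ × ℝ, e.symm q = (q.1.re, q.1.im, q.2) := fun q => rfl
  have hφ : ∀ p : R3, φ p = ((h (⟨p.1, p.2.1⟩ - ⟨1 / 2, 1 / 2⟩)).re,
      (h (⟨p.1, p.2.1⟩ - ⟨1 / 2, 1 / 2⟩)).im, p.2.2) := fun p => rfl
  have hkey : ∀ p : R3, p ∈ body square ↔ φ p ∈ stdCircle := by
    intro p
    rw [body_square, hφ]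
    simp only [mem_ofPred_eq, stdCircle]
    have h1 := hh (⟨p.1, p.2.1⟩ - ⟨1 / 2, 1 / 2⟩)
    simp only [Complex.sub_re, Complex.sub_im] at h1
    rw [h1]
    have h2 : ∀ w : ℂ, ‖w‖ = 1 ↔ w.re ^ 2 + w.im ^ 2 = 1 := by
      intro w
      rw [← sq_eq_sq₀ (norm_nonneg w) zero_le_one, one_pow, ← Complex.normSq_eq_norm_sq,
        Complex.normSq_apply]
      constructor <;> intro h3 <;> linarith
    rw [h2, and_comm]
  refine ⟨φ, ?_⟩
  ext q
  constructor
  · rintro ⟨p, hp, rfl⟩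
    exact (hkey p).1 hp
  · intro hq
    refine ⟨φ.symm q, ?_, φ.apply_symm_apply q⟩
    rw [hkey, φ.apply_symm_apply]
    exact hq

end Pool.Agent.LK
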