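import Pool.Agent.MP_aea6d5_co.Pair

/-! The pair inequality `n ^ (2/3) * u_n ^ 2 ≤ K * ∑ u_{2n + i}`. -/

set_option autoImplicit false

namespace Pool.Agent.LK

variable {C : Finset (Sym2 P3) → Prop}

/-- The contacts of a finite set (helper69). -/
def ContactProp : Prop := ∀ R : ℤ, 2 ≤ R → ∀ D : Finset P3, ∃ T ⊆ D,
  (D.image (fun d => (d.1, d.2.1))).card ≤ ((2 * R + 1) ^ 2).toNat * T.card ∧
  ∀ d0 ∈ T, ∃ N : P3, 0 ≤ N.2.2 ∧ (R - 1) ^ 2 ≤ nsq N + 2 ∧
    ∀ s : P3, nsq s < 2 * dot N s → ∀ t : ℤ, 0 ≤ t → d0 + s + (0, 0, t) ∉ D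

/-- Wide polygons (helper69). -/
def WideProp : Prop := ∀ C : Finset (Sym2 P3) → Prop, ClosedZ C → ∀ n : ℕ,
  (count C n : ℝ) ≤ 3 * (({E : Finset (Sym2 P3) | C E ∧ E.card = n ∧ Normed E ∧
    (n : ℝ) ^ (2 / 3 : ℝ) ≤ ((cols E).ncard : ℝ)}.ncard : ℕ) : ℝ)

theorem nsq_le_of_frame {N x y z : P3} (hF : Fr x y z) (hxy' : dot N y ≤ dot N x)
    (hyz' : dot N z ≤ dot N y) (hz0 : 0 ≤ dot N z) : nsq N ≤ 3 * dot N x ^ 2 := by
  have h := hF.expand N
  have h1 : nsq N = dot N x ^ 2 + dot N y ^ 2 + dot N z ^ 2 := by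
    unfold nsq
    conv_lhs => rw [h]
    rw [add_dot, add_dot, smul_dot, smul_dot, smul_dot, dot_comm x, dot_comm y, dot_comm z]
    rw [← h]
    ring
  rw [h1]
  nlinarith

/-- A contact gives a joined polygon. -/
theorem joined_of_contact {CE CF CR : Finset (Sym2 P3) → Prop} (mE : MoveClosed CE)
    (mF : MoveClosed CF) (negF : ∀ F, CF F → CF (negE F))
    (shiftF : ∀ F, CF F → ∀ t : P3, CF (shift t F))
    (hjoin : ∀ E F x y h, CE E → CF F → Below E F → s((x, y, h), (x + 1, y, h)) ∈ E →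
      s((x, y, h + 1), (x + 1, y, h + 1)) ∈ F → CR (joinZ E F x y h))
    {E F : Finset (Sym2 P3)} (hE : CE E) (hF : CF F)
    {D : Finset P3} (hD : ∀ d, d ∈ D ↔ ∃ u ∈ verts E, ∃ v ∈ verts F, d = u - v) {d N : P3}
    (hd : d ∈ D) (hN0 : 0 ≤ N.2.2) (hN : (2000000 - 1) ^ 2 ≤ nsq N + 2)
    (hfree : ∀ s : P3, nsq s < 2 * dot N s → ∀ t : ℤ, 0 ≤ t → d + s + (0, 0, t) ∉ D) :
    ∃ R E' F' p a w, Joined CE CF CR E F d R E' F' p a w := by
  obtain ⟨p, hp, q, hq, rfl⟩ := (hD d).1 hd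
  obtain ⟨x, y, z, hFr, h1, h2, h3⟩ := exists_frame N
  have hM : 1000000 ≤ dot N x := by
    have := nsq_le_of_frame hFr h1 h2 h3
    by_contra hlt
    push Not at hlt
    have h0 : 0 ≤ dot N x := by omega
    nlinarith
  obtain ⟨R, E', F', a, w, h⟩ := assemble mE mF negF shiftF hjoin hE hF hp hq hFr h1 h2 h3 hM hN0 (by
    intro s hs t ht u hu v hv he
    exact hfree s hs t ht ((hD _).2 ⟨u, hu, v, hv, he.symm⟩))
  exact ⟨R, E', F', p, a, w, h⟩

/-- The finite set of the members of the class with `n` edges in normal position. -/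
noncomputable def U (C : Finset (Sym2 P3) → Prop) (n : ℕ) : Finset (Finset (Sym2 P3)) :=
  open Classical in
  if h : {E : Finset (Sym2 P3) | C E ∧ E.card = n ∧ Normed E}.Finite then h.toFinset else ∅

theorem finite_class (hC : ClosedZ C) (n : ℕ) :
    {E : Finset (Sym2 P3) | C E ∧ E.card = n ∧ Normed E}.Finite := by
  obtain ⟨K, hK⟩ := boundStatement
  refine (hK n).1.subset ?_
  rintro E ⟨h1, h2, h3⟩
  exact ⟨hC.poly _ h1, h2, h3⟩

theorem mem_U (hC : ClosedZ C) {n : ℕ} {E : Finset (Sym2 P3)} :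
    E ∈ U C n ↔ C E ∧ E.card = n ∧ Normed E := by
  unfold U
  rw [dif_pos (finite_class hC n)]
  simp

theorem card_U (hC : ClosedZ C) (n : ℕ) : (U C n).card = count C n := by
  unfold U
  rw [dif_pos (finite_class hC n), count, Set.ncard_eq_toFinset_card _ (finite_class hC n)]

/-- The vertices as a finite set. -/
noncomputable def vF (E : Finset (Sym2 P3)) : Finset P3 := (verts_finite E).toFinset

theorem mem_vF {E : Finset (Sym2 P3)} {u : P3} : u ∈ vF E ↔ u ∈ verts E := by simp [vF]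

/-- The difference set of the vertices. -/
noncomputable def diffs (E F : Finset (Sym2 P3)) : Finset P3 :=
  (vF E ×ˢ vF F).image (fun q => q.1 - q.2)

theorem mem_diffs {E F : Finset (Sym2 P3)} {d : P3} :
    d ∈ diffs E F ↔ ∃ u ∈ verts E, ∃ v ∈ verts F, d = u - v := by
  rw [diffs, Finset.mem_image]
  constructor
  · rintro ⟨⟨u, v⟩, h, rfl⟩
    rw [Finset.mem_product, mem_vF, mem_vF] at h
    exact ⟨u, h.1, v, h.2, rfl⟩
  · rintro ⟨u, hu, v, hv, rfl⟩
    exact ⟨(u, v), Finset.mem_product.2 ⟨mem_vF.2 hu, mem_vF.2 hv⟩, rfl⟩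

theorem cols_le {E F : Finset (Sym2 P3)} (hF : (verts F).Nonempty) :
    (cols E).ncard ≤ ((diffs E F).image (fun d => (d.1, d.2.1))).card := by
  obtain ⟨v, hv⟩ := hF
  rw [← Set.ncard_coe_finset]
  refine Set.ncard_le_ncard_of_injOn (fun c : ℤ × ℤ => (c.1 - v.1, c.2 - v.2.1)) ?_ ?_
    (Finset.finite_toSet _)
  · rintro c ⟨z, hz⟩
    rw [Finset.mem_coe, Finset.mem_image]
    exact ⟨(c.1, c.2, z) - v, mem_diffs.2 ⟨_, hz, v, hv, rfl⟩, by simp⟩
  · intro c _ c' _ h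
    simp only [Prod.mk.injEq] at h
    exact Prod.ext (by omega) (by omega)

theorem exists_code_bound (r1 r : ℤ) : ∃ L : ℕ, ∀ S : Finset (P3 × Finset (Sym2 P3) × P3 × P3),
    (∀ q ∈ S, Box r1 q.1 ∧ q.2.1 ⊆ boxE r ∧ Box r q.2.2.1 ∧ Box r q.2.2.2) → S.card ≤ L := by
  refine ⟨(boxP r1 ×ˢ (boxE r).powerset ×ˢ boxP r ×ˢ boxP r).card,
    fun S hS => Finset.card_le_card ?_⟩
  intro q hq
  obtain ⟨h1, h2, h3, h4⟩ := hS q hq
  rw [Finset.mem_product, Finset.mem_product, Finset.mem_product]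
  exact ⟨mem_boxP.2 h1, Finset.mem_powerset.2 h2, mem_boxP.2 h3, mem_boxP.2 h4⟩

/-- **The pair inequality.** -/
theorem pair_of (hcon : ContactProp) (hwide : WideProp) : PairStatementZ := by
  intro C hC
  classical
  obtain ⟨B, hB⟩ : ∃ B : ℕ, ∀ (a : P3) (E E' : Finset (Sym2 P3)), ChangedIn a 1000 E E' →
      E'.card ≤ E.card + B := ⟨_, fun a E E' h => h.card_le⟩
  obtain ⟨K1, hT⟩ : ∃ K1 : ℕ, ∀ E F : Finset (Sym2 P3), ∃ T ⊆ diffs E F,
      ((diffs E F).image (fun d => (d.1, d.2.1))).card ≤ K1 * T.card ∧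
      ∀ d0 ∈ T, ∃ N : P3, 0 ≤ N.2.2 ∧ (2000000 - 1) ^ 2 ≤ nsq N + 2 ∧
        ∀ s : P3, nsq s < 2 * dot N s → ∀ t : ℤ, 0 ≤ t → d0 + s + (0, 0, t) ∉ diffs E F :=
    ⟨_, fun E F => hcon 2000000 (by norm_num) (diffs E F)⟩
  obtain ⟨L, hL⟩ := exists_code_bound (1000 + (2 * B : ℕ) + 2) 1000
  refine ⟨3 * K1 * L + 1, B, by positivity, ?_⟩
  intro n hn
  choose T hTD hTcard hTN using hT
  set X : Finset (Σ _ : Finset (Sym2 P3) × Finset (Sym2 P3), P3) :=
    (U C n ×ˢ U C n).sigma (fun q => T q.1 q.2) with hX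
  have memX : ∀ x ∈ X, x.1.1 ∈ U C n ∧ x.1.2 ∈ U C n ∧ x.2 ∈ T x.1.1 x.1.2 := by
    intro x hx
    rw [hX, Finset.mem_sigma, Finset.mem_product] at hx
    exact ⟨hx.1.1, hx.1.2, hx.2⟩
  -- the joined polygons
  have hJ : ∀ x : (Σ _ : Finset (Sym2 P3) × Finset (Sym2 P3), P3), ∃ R E' F' p a w s, x ∈ X →
      Joined C C C x.1.1 x.1.2 x.2 R E' F' p a w ∧ Normed (shift s R) := by
    intro x
    by_cases hx : x ∈ X
    · obtain ⟨h1, h2, h3⟩ := memX x hx
      rw [mem_U hC] at h1 h2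
      obtain ⟨N, hN0, hN, hfree⟩ := hTN _ _ _ h3
      obtain ⟨R, E', F', p, a, w, h⟩ := joined_of_contact hC.move hC.move (fun _ => hC.neg)
        (fun _ h t => hC.shift h t) hC.join h1.1 h2.1
        (fun d => mem_diffs) (hTD _ _ h3) hN0 hN hfree
      obtain ⟨s, hs⟩ := exists_normed (hC.poly _ h.cR).verts_nonempty
      exact ⟨R, E', F', p, a, w, s, fun _ => ⟨h, hs⟩⟩
    · exact ⟨∅, ∅, ∅, 0, 0, 0, 0, fun h => absurd h hx⟩
  choose R E' F' p a w s hJ using hJ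
  -- the target
  set V : Finset (Finset (Sym2 P3)) :=
    (Finset.range (2 * B + 1)).biUnion (fun i => U C (2 * n + i - B)) with hV
  have hVcard : V.card ≤ ∑ i ∈ Finset.range (2 * B + 1), count C (2 * n + i - B) := by
    refine Finset.card_biUnion_le.trans ?_
    exact Finset.sum_le_sum fun i _ => (card_U hC _).le
  have hcardR : ∀ x ∈ X, (R x).card ≤ 2 * n + B ∧ 2 * n ≤ (R x).card + B := by
    intro x hx
    obtain ⟨h1, h2, h3⟩ := memX x hx
    rw [mem_U hC] at h1 h2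
    have h := (hJ x hx).1
    have c1 := hB _ _ _ h.ch
    have c2 := hB _ _ _ h.ch.symm
    rw [h.card_union, h1.2.1, h2.2.1] at c1 c2
    omega
  have hmaps : ∀ x ∈ X, shift (s x) (R x) ∈ V := by
    intro x hx
    rw [hV, Finset.mem_biUnion]
    obtain ⟨c1, c2⟩ := hcardR x hx
    refine ⟨(R x).card + B - 2 * n, by rw [Finset.mem_range]; omega, ?_⟩
    rw [mem_U hC]
    refine ⟨hC.shift (hJ x hx).1.cR _, ?_, (hJ x hx).2⟩
    rw [card_shift]; omega
  have hfiber : ∀ G ∈ V, (X.filter (fun x => shift (s x) (R x) = G)).card ≤ L := by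
    intro G _
    rcases (X.filter (fun x => shift (s x) (R x) = G)).eq_empty_or_nonempty with h0 | ⟨x0, hx0⟩
    · rw [h0]; simp
    rw [Finset.mem_filter] at hx0
    suffices hinj : Set.InjOn (fun x => (a x + s x - (a x0 + s x0),
      pat x.1.1 x.1.2 (a x) (w x), p x - a x, w x - x.2))
      ((X.filter (fun x => shift (s x) (R x) = G) : Finset _) : Set _) by
      rw [← Finset.card_image_of_injOn hinj]
      refine hL _ ?_
      intro q hq
      obtain ⟨x, hx, rfl⟩ := Finset.mem_image.1 hq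
      rw [Finset.mem_filter] at hx
      have h := (hJ x hx.1).1
      have h' := (hJ x0 hx0.1).1
      obtain ⟨h1, h2, h3⟩ := memX x hx.1
      obtain ⟨g1, g2, g3⟩ := memX x0 hx0.1
      rw [mem_U hC] at h1 h2 g1 g2
      refine ⟨?_, Finset.inter_subset_left, h.pa, h.wd⟩
      have k1 := (h.isCut hC.poly hC.poly).shift (s x)
      have k2 := (h'.isCut hC.poly hC.poly).shift (s x0)
      rw [hx.2] at k1
      rw [hx0.2] at k2
      have m1 := hB _ _ _ h.chE.symm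
      have m2 := hB _ _ _ h.chF.symm
      have m3 := hB _ _ _ h'.chE
      have m4 := hB _ _ _ h'.chF
      rw [card_shift] at m2 m4
      refine cut_unique arcStatement cardStatement (by norm_num) k1 k2 (m := n - B) (k := 2 * B)
        ?_ ?_ ?_ ?_ <;> rw [card_shift] <;> omega
    · intro x hx x' hx' hxx
      rw [Finset.mem_coe, Finset.mem_filter] at hx hx'
      simp only [Prod.mk.injEq] at hxx
      obtain ⟨e1, e2, e3, e4⟩ := hxx
      obtain ⟨h1, h2, h3⟩ := memX x hx.1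
      obtain ⟨g1, g2, g3⟩ := memX x' hx'.1
      rw [mem_U hC] at h1 h2 g1 g2
      obtain ⟨q1, q2, q3⟩ := decode (hJ x hx.1).1 (hJ x' hx'.1).1 (hC.poly _ h1.1) (hC.poly _ g1.1) h1.2.2 g1.2.2
        h2.2.2 g2.2.2 (hx.2.trans hx'.2.symm) (sub_left_inj.1 e1) e2 e3 e4
      obtain ⟨⟨x1, x2⟩, x3⟩ := x
      obtain ⟨⟨y1, y2⟩, y3⟩ := x'
      simp only at q1 q2 q3
      subst q1 q2 q3
      rfl
  have hup : X.card ≤ L * V.card := by
    have h1 : X.card ≤ L * (X.image (fun x => shift (s x) (R x))).card :=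
      Finset.card_le_mul_card_image X L (fun G hG => hfiber G (by
        obtain ⟨x, hx, rfl⟩ := Finset.mem_image.1 hG
        exact hmaps x hx))
    refine h1.trans (Nat.mul_le_mul_left _ (Finset.card_le_card ?_))
    intro G hG
    obtain ⟨x, hx, rfl⟩ := Finset.mem_image.1 hG
    exact hmaps x hx
  -- the lower bound
  have hlow : (n : ℝ) ^ (2 / 3 : ℝ) * (count C n : ℝ) ^ 2 ≤ 3 * K1 * (X.card : ℝ) := by
    have hXc : X.card = ∑ q ∈ U C n ×ˢ U C n, (T q.1 q.2).card := by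
      rw [hX, Finset.card_sigma]
    set W : Finset (Finset (Sym2 P3)) :=
      (U C n).filter (fun E => (n : ℝ) ^ (2 / 3 : ℝ) ≤ ((cols E).ncard : ℝ)) with hW
    have hWc : (count C n : ℝ) ≤ 3 * (W.card : ℝ) := by
      refine (hwide C hC n).trans ?_
      have : {E : Finset (Sym2 P3) | C E ∧ E.card = n ∧ Normed E ∧
          (n : ℝ) ^ (2 / 3 : ℝ) ≤ ((cols E).ncard : ℝ)} = (W : Set (Finset (Sym2 P3))) := by
        ext E
        rw [hW, Finset.coe_filter, Set.mem_ofPred_eq, Set.mem_ofPred_eq, mem_U hC]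
        tauto
      rw [this, Set.ncard_coe_finset]
    have h1 : ∀ E ∈ W, ∀ F ∈ U C n, (n : ℝ) ^ (2 / 3 : ℝ) ≤ K1 * ((T E F).card : ℝ) := by
      intro E hE F hF
      rw [hW, Finset.mem_filter] at hE
      rw [mem_U hC] at hF
      have h2 := cols_le (E := E) (hC.poly _ hF.1).verts_nonempty
      have h3 := h2.trans (hTcard E F)
      refine hE.2.trans ?_
      exact_mod_cast h3
    have h2 : (W.card : ℝ) * (count C n : ℝ) * (n : ℝ) ^ (2 / 3 : ℝ) ≤ K1 * (X.card : ℝ) := by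
      have h3 : ∑ q ∈ W ×ˢ U C n, (n : ℝ) ^ (2 / 3 : ℝ) ≤
          ∑ q ∈ W ×ˢ U C n, (K1 * ((T q.1 q.2).card : ℝ)) := by
        refine Finset.sum_le_sum fun q hq => ?_
        rw [Finset.mem_product] at hq
        exact h1 _ hq.1 _ hq.2
      rw [Finset.sum_const, Finset.card_product, card_U hC, nsmul_eq_mul] at h3
      push_cast at h3
      refine h3.trans ?_
      rw [← Finset.mul_sum]
      refine mul_le_mul_of_nonneg_left ?_ (by positivity)
      rw [hXc]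
      push_cast
      refine Finset.sum_le_sum_of_subset_of_nonneg ?_ (fun _ _ _ => by positivity)
      exact Finset.product_subset_product (Finset.filter_subset _ _) (Finset.Subset.refl _)
    have h4 : (0 : ℝ) ≤ (count C n : ℝ) * (n : ℝ) ^ (2 / 3 : ℝ) := by positivity
    calc (n : ℝ) ^ (2 / 3 : ℝ) * (count C n : ℝ) ^ 2
        = (count C n : ℝ) * ((count C n : ℝ) * (n : ℝ) ^ (2 / 3 : ℝ)) := by ring
      _ ≤ (3 * (W.card : ℝ)) * ((count C n : ℝ) * (n : ℝ) ^ (2 / 3 : ℝ)) :=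
          mul_le_mul_of_nonneg_right hWc h4
      _ = 3 * ((W.card : ℝ) * (count C n : ℝ) * (n : ℝ) ^ (2 / 3 : ℝ)) := by ring
      _ ≤ 3 * (K1 * (X.card : ℝ)) := mul_le_mul_of_nonneg_left h2 (by norm_num)
      _ = 3 * K1 * (X.card : ℝ) := by ring
  have hup' : (X.card : ℝ) ≤ L * ∑ i ∈ Finset.range (2 * B + 1), (count C (2 * n + i - B) : ℝ) := by
    have : X.card ≤ L * ∑ i ∈ Finset.range (2 * B + 1), count C (2 * n + i - B) :=
      hup.trans (Nat.mul_le_mul_left _ hVcard)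
    exact_mod_cast this
  have hS : (0 : ℝ) ≤ ∑ i ∈ Finset.range (2 * B + 1), (count C (2 * n + i - B) : ℝ) := by
    positivity
  calc (n : ℝ) ^ (2 / 3 : ℝ) * (count C n : ℝ) ^ 2 ≤ 3 * K1 * (X.card : ℝ) := hlow
    _ ≤ 3 * K1 * (L * ∑ i ∈ Finset.range (2 * B + 1), (count C (2 * n + i - B) : ℝ)) :=
        mul_le_mul_of_nonneg_left hup' (by positivity)
    _ = 3 * K1 * L * ∑ i ∈ Finset.range (2 * B + 1), (count C (2 * n + i - B) : ℝ) := by ring
    _ ≤ (3 * K1 * L + 1) * ∑ i ∈ Finset.range (2 * B + 1), (count C (2 * n + i - B) : ℝ) :=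
        mul_le_mul_of_nonneg_right (by linarith) hS

end Pool.Agent.LK
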