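import Pool.Agent.MP_aea6d5_co.Stack

/-! Knot types of lattice polygons and the interface statements for Theorem B (every knot type). -/

set_option autoImplicit false

open Set

namespace Pool.Agent.LK

/-- A homeomorphism of space carries `E` to `F`: same knot type up to mirror images. -/
def SameType (E F : Finset (Sym2 P3)) : Prop := ∃ φ : R3 ≃ₜ R3, φ '' body E = body F

/-- The polygons of the same type as `K`, up to mirror images. -/
def KClass (K E : Finset (Sym2 P3)) : Prop := IsPolygon E ∧ SameType K E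

/-- The unknotted polygons. -/
def UClass (E : Finset (Sym2 P3)) : Prop := IsPolygon E ∧ Unknotted E

/-- (B1) Joining an unknotted polygon does not change the type. -/
def B1Statement : Prop := ∀ E F x y h, IsPolygon E → Unknotted E → IsPolygon F → Below E F →
  s((x, y, h), (x + 1, y, h)) ∈ E → s((x, y, h + 1), (x + 1, y, h + 1)) ∈ F →
  SameType F (joinZ E F x y h)

/-- (NC) No cancellation: if a stacked join is unknotted then so are the parts. -/
def NCStatement : Prop := ∀ E F x y h, IsPolygon E → IsPolygon F → Below E F →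
  s((x, y, h), (x + 1, y, h)) ∈ E → s((x, y, h + 1), (x + 1, y, h + 1)) ∈ F →
  Unknotted (joinZ E F x y h) → Unknotted F

/-- (M) The elementary moves do not change the type. -/
structure MoveFacts : Prop where
  trans : ∀ (t : P3) E, SameType E (mapE (fun u => u + t) E)
  neg : ∀ E, SameType E (mapE (fun u => -u) E)
  swapXY : ∀ E, SameType E (mapE (fun u => (u.2.1, u.1, u.2.2)) E)
  bump : ∀ E x y d, IsPolygon E → s(x, y) ∈ E → IsUnit3 d → x + d ∉ verts E →
    y + d ∉ verts E → SameType E (bump E x y d)
  flip : ∀ E x a b, IsPolygon E → s(x, x + a) ∈ E → s(x + a, x + a + b) ∈ E → IsUnit3 a →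
    IsUnit3 b → a ≠ b → a ≠ -b → x + b ∉ verts E → SameType E (flip E x a b)

theorem SameType.refl (E : Finset (Sym2 P3)) : SameType E E :=
  ⟨Homeomorph.refl _, by simp⟩

theorem SameType.symm {E F : Finset (Sym2 P3)} (h : SameType E F) : SameType F E := by
  obtain ⟨φ, hφ⟩ := h
  refine ⟨φ.symm, ?_⟩
  rw [← hφ]
  exact φ.symm_image_image _

theorem SameType.trans {E F G : Finset (Sym2 P3)} (h : SameType E F) (h' : SameType F G) :
    SameType E G := by
  obtain ⟨φ, hφ⟩ := h
  obtain ⟨ψ, hψ⟩ := h'
  refine ⟨φ.trans ψ, ?_⟩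
  rw [← hψ, ← hφ, image_image]
  rfl

theorem SameType.unknotted {E F : Finset (Sym2 P3)} (h : SameType E F) (hF : Unknotted F) :
    Unknotted E := by
  obtain ⟨φ, hφ⟩ := h
  obtain ⟨ψ, hψ⟩ := hF
  refine ⟨φ.trans ψ, ?_⟩
  rw [← hψ, ← hφ, image_image]
  rfl

end Pool.Agent.LK
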