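import Pool.Agent.MP_aea6d5_co.Spec

/-! Translations, normal position, general joins. -/

set_option autoImplicit false

namespace Pool.Agent.LK

open Relation

theorem Adj.symm {u v : P3} (h : Adj u v) : Adj v u := by
  unfold Adj at *
  rw [abs_sub_comm v.1, abs_sub_comm v.2.1, abs_sub_comm v.2.2]; exact h

theorem Adj.ne {u v : P3} (h : Adj u v) : u ≠ v := by
  rintro rfl; simp [Adj] at h

theorem mem_verts {E : Finset (Sym2 P3)} {u : P3} : u ∈ verts E ↔ ∃ v, s(u, v) ∈ E := Iff.rfl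

theorem left_mem_verts {E : Finset (Sym2 P3)} {u v : P3} (h : s(u, v) ∈ E) : u ∈ verts E := ⟨v, h⟩

theorem right_mem_verts {E : Finset (Sym2 P3)} {u v : P3} (h : s(u, v) ∈ E) : v ∈ verts E :=
  ⟨u, by rwa [Sym2.eq_swap]⟩

theorem verts_finite (E : Finset (Sym2 P3)) : (verts E).Finite := by
  have : verts E ⊆ ⋃ e ∈ E, {u : P3 | u ∈ e} := by
    rintro u ⟨v, hv⟩
    simp only [Set.mem_iUnion, Set.mem_ofPred_eq]
    exact ⟨_, hv, Sym2.mem_mk_left u v⟩
  refine Set.Finite.subset (Set.Finite.biUnion E.finite_toSet ?_) this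
  intro e _
  induction e using Sym2.ind with
  | _ x y =>
    refine Set.Finite.subset (Set.toFinite {x, y}) ?_
    intro u hu
    simpa using hu

theorem mem_mapE {g : P3 → P3} (hg : Function.Injective g) {E : Finset (Sym2 P3)} {u v : P3} :
    s(g u, g v) ∈ mapE g E ↔ s(u, v) ∈ E := by
  unfold mapE
  constructor
  · intro h
    rw [Finset.mem_image] at h
    obtain ⟨e, he, h2⟩ := h
    have h3 : Sym2.map g e = Sym2.map g s(u, v) := by rw [h2]; simp
    rwa [Sym2.map.injective hg h3] at he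
  · intro h
    rw [Finset.mem_image]
    exact ⟨_, h, by simp⟩

/-- Translate of an edge set. -/
def shift (t : P3) (E : Finset (Sym2 P3)) : Finset (Sym2 P3) := mapE (fun u => u + t) E

theorem mem_shift {t : P3} {E : Finset (Sym2 P3)} {u v : P3} :
    s(u, v) ∈ shift t E ↔ s(u - t, v - t) ∈ E := by
  have := mem_mapE (g := fun u => u + t) (add_left_injective t) (E := E) (u := u - t) (v := v - t)
  simpa [shift] using this

theorem mem_verts_shift {t : P3} {E : Finset (Sym2 P3)} {u : P3} :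
    u ∈ verts (shift t E) ↔ u - t ∈ verts E := by
  constructor
  · rintro ⟨v, hv⟩; exact ⟨v - t, mem_shift.1 hv⟩
  · rintro ⟨v, hv⟩
    refine ⟨v + t, mem_shift.2 ?_⟩
    simpa using hv

theorem edge_ext {E F : Finset (Sym2 P3)} (h : ∀ u v, s(u, v) ∈ E ↔ s(u, v) ∈ F) : E = F := by
  ext e
  induction e using Sym2.ind with
  | _ x y => exact h x y

theorem shift_zero (E : Finset (Sym2 P3)) : shift 0 E = E := by
  apply edge_ext; intro u v; rw [mem_shift]; simp

theorem shift_shift (s t : P3) (E : Finset (Sym2 P3)) : shift s (shift t E) = shift (s + t) E := by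
  apply edge_ext; intro u v; rw [mem_shift, mem_shift, mem_shift]
  rw [sub_sub, sub_sub]

theorem card_shift (t : P3) (E : Finset (Sym2 P3)) : (shift t E).card = E.card :=
  Finset.card_image_of_injective _ (Sym2.map.injective (add_left_injective t))

theorem shift_injective (t : P3) : Function.Injective (shift t) := by
  intro E F h
  have := congrArg (shift (-t)) h
  rwa [shift_shift, shift_shift, neg_add_cancel, shift_zero, shift_zero] at this

theorem Closed.shift {C : Finset (Sym2 P3) → Prop} (hC : Closed C) {E : Finset (Sym2 P3)}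
    (h : C E) (t : P3) : C (shift t E) := hC.trans t E h

theorem Normed.eq_zero {E : Finset (Sym2 P3)} {t : P3} (h1 : Normed E) (h2 : Normed (shift t E)) :
    t = 0 := by
  obtain ⟨a1, ⟨x, hx, hx0⟩, ⟨y, hy, hy0⟩, ⟨z, hz, hz0⟩⟩ := h1
  obtain ⟨b1, ⟨x', hx', hx0'⟩, ⟨y', hy', hy0'⟩, ⟨z', hz', hz0'⟩⟩ := h2
  have e1 := b1 (x + t) (mem_verts_shift.2 (by simpa using hx))
  have e2 := b1 (y + t) (mem_verts_shift.2 (by simpa using hy))
  have e3 := b1 (z + t) (mem_verts_shift.2 (by simpa using hz))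
  have f1 := a1 _ (mem_verts_shift.1 hx')
  have f2 := a1 _ (mem_verts_shift.1 hy')
  have f3 := a1 _ (mem_verts_shift.1 hz')
  simp only [Prod.fst_add, Prod.snd_add, Prod.fst_sub, Prod.snd_sub] at e1 e2 e3 f1 f2 f3
  have g1 : t.1 = 0 := by omega
  have g2 : t.2.1 = 0 := by omega
  have g3 : t.2.2 = 0 := by omega
  exact Prod.ext g1 (Prod.ext g2 g3)

theorem exists_normed {E : Finset (Sym2 P3)} (hE : (verts E).Nonempty) :
    ∃ t : P3, Normed (shift t E) := by
  obtain ⟨x, hx, hx'⟩ := Set.exists_min_image (verts E) (fun u => u.1) (verts_finite E) hE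
  obtain ⟨y, hy, hy'⟩ := Set.exists_min_image (verts E) (fun u => u.2.1) (verts_finite E) hE
  obtain ⟨z, hz, hz'⟩ := Set.exists_min_image (verts E) (fun u => u.2.2) (verts_finite E) hE
  refine ⟨(-x.1, -y.2.1, -z.2.2), ?_, ?_, ?_, ?_⟩
  · intro u hu
    have h := mem_verts_shift.1 hu
    have h1 := hx' _ h
    have h2 := hy' _ h
    have h3 := hz' _ h
    simp only [Prod.fst_sub, Prod.snd_sub] at h1 h2 h3
    omega
  · refine ⟨x + (-x.1, -y.2.1, -z.2.2), mem_verts_shift.2 (by simpa using hx), by simp⟩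
  · refine ⟨y + (-x.1, -y.2.1, -z.2.2), mem_verts_shift.2 (by simpa using hy), by simp⟩
  · refine ⟨z + (-x.1, -y.2.1, -z.2.2), mem_verts_shift.2 (by simpa using hz), by simp⟩

theorem IsPolygon.verts_nonempty {E : Finset (Sym2 P3)} (hE : IsPolygon E) :
    (verts E).Nonempty := by
  obtain ⟨e, he⟩ := hE.nonempty
  induction e using Sym2.ind with
  | _ x y => exact ⟨x, y, he⟩

/-- Adjacent columns. -/
def Adj2 (a b : ℤ × ℤ) : Prop := |a.1 - b.1| + |a.2 - b.2| = 1

/-- The join through a vertical unit square, general position. -/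
def joinG (E F : Finset (Sym2 P3)) (a b : ℤ × ℤ) (h : ℤ) : Finset (Sym2 P3) :=
  (E \ {s((a.1, a.2, h), (a.1, a.2, h + 1))}) ∪ (F \ {s((b.1, b.2, h), (b.1, b.2, h + 1))}) ∪
    {s((a.1, a.2, h), (b.1, b.2, h)), s((a.1, a.2, h + 1), (b.1, b.2, h + 1))}

theorem joinG_swap (E F : Finset (Sym2 P3)) (a b : ℤ × ℤ) (h : ℤ) :
    joinG E F a b h = joinG F E b a h := by
  unfold joinG
  rw [Finset.union_comm (E \ _)]
  rw [Sym2.eq_swap (a := ((a.1, a.2, h) : P3)) (b := (b.1, b.2, h)),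
    Sym2.eq_swap (a := ((a.1, a.2, h + 1) : P3)) (b := (b.1, b.2, h + 1))]

/-- Swap of the first two coordinates. -/
def sw (u : P3) : P3 := (u.2.1, u.1, u.2.2)

theorem sw_sw (u : P3) : sw (sw u) = u := rfl

theorem sw_inj : Function.Injective sw := fun u v h => by
  have := congrArg sw h; rwa [sw_sw, sw_sw] at this

theorem mem_swE {E : Finset (Sym2 P3)} {u v : P3} :
    s(u, v) ∈ mapE sw E ↔ s(sw u, sw v) ∈ E := by
  have := mem_mapE sw_inj (E := E) (u := sw u) (v := sw v)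
  rwa [sw_sw, sw_sw] at this

theorem mem_joinG {E F : Finset (Sym2 P3)} {a b : ℤ × ℤ} {h : ℤ} {e : Sym2 P3} :
    e ∈ joinG E F a b h ↔ (e ∈ E ∧ e ≠ s((a.1, a.2, h), (a.1, a.2, h + 1))) ∨
      (e ∈ F ∧ e ≠ s((b.1, b.2, h), (b.1, b.2, h + 1))) ∨
      e = s((a.1, a.2, h), (b.1, b.2, h)) ∨ e = s((a.1, a.2, h + 1), (b.1, b.2, h + 1)) := by
  unfold joinG
  simp only [Finset.mem_union, Finset.mem_sdiff, Finset.mem_singleton, Finset.mem_insert]
  tauto

theorem eq_sw_iff {u v x y : P3} : s(sw u, sw v) = s(x, y) ↔ s(u, v) = s(sw x, sw y) := by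
  constructor
  · intro h
    have := congrArg (Sym2.map sw) h
    simpa [sw_sw] using this
  · intro h
    have := congrArg (Sym2.map sw) h
    simpa [sw_sw] using this

theorem joinG_sw (E F : Finset (Sym2 P3)) (a b : ℤ × ℤ) (h : ℤ) :
    mapE sw (joinG E F a b h) = joinG (mapE sw E) (mapE sw F) (a.2, a.1) (b.2, b.1) h := by
  apply edge_ext
  intro u v
  rw [mem_swE, mem_joinG, mem_joinG, mem_swE, mem_swE]
  simp only [Ne, eq_sw_iff]
  rfl

theorem mapE_sw_sw (E : Finset (Sym2 P3)) : mapE sw (mapE sw E) = E := by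
  apply edge_ext; intro u v; rw [mem_swE, mem_swE]; rfl

theorem mem_cols {E : Finset (Sym2 P3)} {c : ℤ × ℤ} :
    c ∈ cols E ↔ ∃ z : ℤ, ((c.1, c.2, z) : P3) ∈ verts E := Iff.rfl

theorem mem_cols_of_mem {E : Finset (Sym2 P3)} {u : P3} (h : u ∈ verts E) :
    (u.1, u.2.1) ∈ cols E := ⟨u.2.2, h⟩

theorem disj_cols_iff {E F : Finset (Sym2 P3)} : Disjoint (cols E) (cols F) ↔
    ∀ u ∈ verts E, ∀ v ∈ verts F, (u.1, u.2.1) ≠ (v.1, v.2.1) := by
  rw [Set.disjoint_left]
  constructor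
  · intro h u hu v hv huv
    refine h (mem_cols_of_mem hu) ?_
    rw [huv]; exact mem_cols_of_mem hv
  · rintro h c ⟨z, hz⟩ ⟨z', hz'⟩
    exact h _ hz _ hz' rfl

theorem mem_verts_sw {E : Finset (Sym2 P3)} {u : P3} : u ∈ verts (mapE sw E) ↔ sw u ∈ verts E := by
  constructor
  · rintro ⟨v, hv⟩; exact ⟨sw v, mem_swE.1 hv⟩
  · rintro ⟨v, hv⟩; exact ⟨sw v, mem_swE.2 (by rwa [sw_sw])⟩

theorem Closed.joinG {C : Finset (Sym2 P3) → Prop} (hC : Closed C) {E F : Finset (Sym2 P3)}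
    {a b : ℤ × ℤ} {h : ℤ} (hE : C E) (hF : C F) (hd : Disjoint (cols E) (cols F))
    (hab : Adj2 a b) (h1 : s((a.1, a.2, h), (a.1, a.2, h + 1)) ∈ E)
    (h2 : s((b.1, b.2, h), (b.1, b.2, h + 1)) ∈ F) : C (joinG E F a b h) := by
  -- direction `e1`
  have key : ∀ {E F : Finset (Sym2 P3)} {a b : ℤ × ℤ}, C E → C F → Disjoint (cols E) (cols F) →
      s((a.1, a.2, h), (a.1, a.2, h + 1)) ∈ E → s((b.1, b.2, h), (b.1, b.2, h + 1)) ∈ F →
      b = (a.1 + 1, a.2) → C (LK.joinG E F a b h) := by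
    intro E F a b hE hF hd h1 h2 hb
    subst hb
    exact hC.join E F a.1 a.2 h hE hF (disj_cols_iff.1 hd) h1 h2
  -- directions `±e1`
  have key2 : ∀ {E F : Finset (Sym2 P3)} {a b : ℤ × ℤ}, C E → C F → Disjoint (cols E) (cols F) →
      s((a.1, a.2, h), (a.1, a.2, h + 1)) ∈ E → s((b.1, b.2, h), (b.1, b.2, h + 1)) ∈ F →
      |a.1 - b.1| = 1 → a.2 = b.2 → C (LK.joinG E F a b h) := by
    intro E F a b hE hF hd h1 h2 hb hb2
    rcases abs_eq (by norm_num : (0 : ℤ) ≤ 1) |>.1 hb with h3 | h3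
    · rw [joinG_swap]
      exact key hF hE hd.symm h2 h1 (Prod.ext (by simp; omega) (by simpa using hb2))
    · exact key hE hF hd h1 h2 (Prod.ext (by simp; omega) (by simpa using hb2.symm))
  have h3 := abs_nonneg (a.1 - b.1)
  have h4 := abs_nonneg (a.2 - b.2)
  unfold Adj2 at hab
  rcases (by omega : |a.1 - b.1| = 1 ∧ |a.2 - b.2| = 0 ∨ |a.1 - b.1| = 0 ∧ |a.2 - b.2| = 1) with
    ⟨h5, h6⟩ | ⟨h5, h6⟩
  · exact key2 hE hF hd h1 h2 h5 (by have := abs_eq_zero.1 h6; omega)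
  · have hcE : C (mapE sw E) := hC.swapXY E hE
    have hcF : C (mapE sw F) := hC.swapXY F hF
    have hR := key2 (a := (a.2, a.1)) (b := (b.2, b.1)) hcE hcF ?_ ?_ ?_ (by simpa using h6)
      (by have := abs_eq_zero.1 h5; simp; omega)
    · rw [← joinG_sw] at hR
      have := hC.swapXY _ hR
      change C (mapE sw _) at this
      rwa [mapE_sw_sw] at this
    · rw [disj_cols_iff] at hd ⊢
      intro u hu v hv huv
      refine hd (sw u) (mem_verts_sw.1 hu) (sw v) (mem_verts_sw.1 hv) ?_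
      simp only [Prod.mk.injEq, sw] at huv ⊢
      exact ⟨huv.2, huv.1⟩
    · rw [mem_swE]; exact h1
    · rw [mem_swE]; exact h2

end Pool.Agent.LK
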