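import Pool.Agent.MP_aea6d5_co.Basic

/-! Lattice geometry: dot products, frames, effect of bumps and flips on edges and vertices. -/

set_option autoImplicit false

namespace Pool.Agent.LK

/-- Integer dot product. -/
def dot (u v : P3) : ℤ := u.1 * v.1 + u.2.1 * v.2.1 + u.2.2 * v.2.2

/-- Square of the Euclidean length. -/
def nsq (u : P3) : ℤ := dot u u

/-- The cube of radius `r`. -/
def Box (r : ℤ) (u : P3) : Prop := |u.1| ≤ r ∧ |u.2.1| ≤ r ∧ |u.2.2| ≤ r

theorem dot_comm (u v : P3) : dot u v = dot v u := by simp only [dot]; ring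
theorem dot_add (u v w : P3) : dot u (v + w) = dot u v + dot u w := by
  simp only [dot, Prod.fst_add, Prod.snd_add]; ring
theorem add_dot (u v w : P3) : dot (u + v) w = dot u w + dot v w := by
  simp only [dot, Prod.fst_add, Prod.snd_add]; ring
theorem dot_sub (u v w : P3) : dot u (v - w) = dot u v - dot u w := by
  simp only [dot, Prod.fst_sub, Prod.snd_sub]; ring
theorem sub_dot (u v w : P3) : dot (u - v) w = dot u w - dot v w := by
  simp only [dot, Prod.fst_sub, Prod.snd_sub]; ring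
theorem dot_neg (u v : P3) : dot u (-v) = -dot u v := by
  simp only [dot, Prod.fst_neg, Prod.snd_neg]; ring
theorem neg_dot (u v : P3) : dot (-u) v = -dot u v := by
  simp only [dot, Prod.fst_neg, Prod.snd_neg]; ring
theorem dot_smul (n : ℤ) (u v : P3) : dot u (n • v) = n * dot u v := by
  simp only [dot, Prod.smul_fst, Prod.smul_snd, smul_eq_mul]; ring
theorem smul_dot (n : ℤ) (u v : P3) : dot (n • u) v = n * dot u v := by
  simp only [dot, Prod.smul_fst, Prod.smul_snd, smul_eq_mul]; ring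
theorem dot_zero (u : P3) : dot u 0 = 0 := by simp [dot]
theorem zero_dot (u : P3) : dot 0 u = 0 := by simp [dot]

theorem isUnit3_iff {d : P3} : IsUnit3 d ↔ d = (1, 0, 0) ∨ d = (-1, 0, 0) ∨ d = (0, 1, 0) ∨
    d = (0, -1, 0) ∨ d = (0, 0, 1) ∨ d = (0, 0, -1) := by
  obtain ⟨a, b, c⟩ := d
  simp only [IsUnit3, Adj, Prod.fst_zero, Prod.snd_zero, sub_zero, Prod.mk.injEq]
  constructor
  · intro h
    rcases abs_cases a with ⟨h1, h1'⟩ | ⟨h1, h1'⟩ <;> rcases abs_cases b with ⟨h2, h2'⟩ | ⟨h2, h2'⟩ <;>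
      rcases abs_cases c with ⟨h3, h3'⟩ | ⟨h3, h3'⟩ <;> omega
  · rintro (⟨rfl, rfl, rfl⟩ | ⟨rfl, rfl, rfl⟩ | ⟨rfl, rfl, rfl⟩ | ⟨rfl, rfl, rfl⟩ |
      ⟨rfl, rfl, rfl⟩ | ⟨rfl, rfl, rfl⟩) <;> simp

theorem isUnit3_neg {d : P3} (h : IsUnit3 d) : IsUnit3 (-d) := by
  rw [isUnit3_iff] at h ⊢
  rcases h with rfl | rfl | rfl | rfl | rfl | rfl <;> simp

theorem adj_iff {u v : P3} : Adj u v ↔ IsUnit3 (v - u) := by
  simp only [IsUnit3, Adj, Prod.fst_sub, Prod.snd_sub, Prod.fst_zero, Prod.snd_zero, sub_zero]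
  rw [abs_sub_comm u.1, abs_sub_comm u.2.1, abs_sub_comm u.2.2]

/-- Orthonormal frames. -/
structure Fr (x y z : P3) : Prop where
  xx : dot x x = 1
  yy : dot y y = 1
  zz : dot z z = 1
  xy : dot x y = 0
  xz : dot x z = 0
  yz : dot y z = 0

theorem isUnit3_iff_dot {d : P3} : IsUnit3 d ↔ dot d d = 1 := by
  constructor
  · intro h
    rw [isUnit3_iff] at h
    rcases h with rfl | rfl | rfl | rfl | rfl | rfl <;> simp [dot]
  · intro h
    rw [isUnit3_iff]
    obtain ⟨a, b, c⟩ := d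
    simp only [dot] at h
    have ha : -1 ≤ a ∧ a ≤ 1 := by constructor <;> nlinarith [sq_nonneg b, sq_nonneg c]
    have hb : -1 ≤ b ∧ b ≤ 1 := by constructor <;> nlinarith [sq_nonneg a, sq_nonneg c]
    have hc : -1 ≤ c ∧ c ≤ 1 := by constructor <;> nlinarith [sq_nonneg a, sq_nonneg b]
    obtain ⟨ha1, ha2⟩ := ha
    obtain ⟨hb1, hb2⟩ := hb
    obtain ⟨hc1, hc2⟩ := hc
    interval_cases a <;> interval_cases b <;> interval_cases c <;> simp_all

namespace Fr

variable {x y z : P3}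

theorem ux (h : Fr x y z) : IsUnit3 x := isUnit3_iff_dot.2 h.xx
theorem uy (h : Fr x y z) : IsUnit3 y := isUnit3_iff_dot.2 h.yy
theorem uz (h : Fr x y z) : IsUnit3 z := isUnit3_iff_dot.2 h.zz
theorem yx (h : Fr x y z) : dot y x = 0 := by rw [dot_comm]; exact h.xy
theorem zx (h : Fr x y z) : dot z x = 0 := by rw [dot_comm]; exact h.xz
theorem zy (h : Fr x y z) : dot z y = 0 := by rw [dot_comm]; exact h.yz

theorem expand (h : Fr x y z) (v : P3) : v = dot v x • x + dot v y • y + dot v z • z := by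
  have hx := isUnit3_iff.1 h.ux
  have hy := isUnit3_iff.1 h.uy
  have hz := isUnit3_iff.1 h.uz
  have h1 := h.xy
  have h2 := h.xz
  have h3 := h.yz
  obtain ⟨a, b, c⟩ := v
  rcases hx with rfl | rfl | rfl | rfl | rfl | rfl <;>
    rcases hy with rfl | rfl | rfl | rfl | rfl | rfl <;>
    simp [dot] at h1 <;>
    rcases hz with rfl | rfl | rfl | rfl | rfl | rfl <;>
    simp [dot] at h2 h3 <;> simp [dot]

theorem unit_cases (h : Fr x y z) {d : P3} (hd : IsUnit3 d) :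
    d = x ∨ d = -x ∨ d = y ∨ d = -y ∨ d = z ∨ d = -z := by
  have hx := isUnit3_iff.1 h.ux
  have hy := isUnit3_iff.1 h.uy
  have hz := isUnit3_iff.1 h.uz
  have h1 := h.xy
  have h2 := h.xz
  have h3 := h.yz
  rcases hx with rfl | rfl | rfl | rfl | rfl | rfl <;>
    rcases hy with rfl | rfl | rfl | rfl | rfl | rfl <;>
    simp [dot] at h1 <;>
    rcases hz with rfl | rfl | rfl | rfl | rfl | rfl <;>
    simp [dot] at h2 h3 <;> 
    rcases isUnit3_iff.1 hd with rfl | rfl | rfl | rfl | rfl | rfl <;> simp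

theorem rot (h : Fr x y z) : Fr y z x := ⟨h.yy, h.zz, h.xx, h.yz, h.yx, h.zx⟩
theorem swap (h : Fr x y z) : Fr y x z := ⟨h.yy, h.xx, h.zz, h.yx, h.yz, h.xz⟩
theorem negx (h : Fr x y z) : Fr (-x) y z :=
  ⟨by simp [dot_neg, neg_dot, h.xx], h.yy, h.zz, by simp [neg_dot, h.xy], by simp [neg_dot, h.xz],
    h.yz⟩

end Fr

/-- For every vector there is a frame in which its coordinates are sorted and nonnegative. -/
theorem exists_frame (N : P3) : ∃ x y z : P3, Fr x y z ∧ dot N y ≤ dot N x ∧ dot N z ≤ dot N y ∧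
    0 ≤ dot N z := by
  -- first make all coordinates nonnegative
  obtain ⟨x, y, z, h, hx, hy, hz⟩ : ∃ x y z : P3, Fr x y z ∧ 0 ≤ dot N x ∧ 0 ≤ dot N y ∧
      0 ≤ dot N z := by
    have h0 : Fr (1, 0, 0) (0, 1, 0) (0, 0, 1) := by constructor <;> simp [dot]
    rcases le_total 0 N.1 with h1 | h1 <;> rcases le_total 0 N.2.1 with h2 | h2 <;>
      rcases le_total 0 N.2.2 with h3 | h3
    · exact ⟨(1, 0, 0), (0, 1, 0), (0, 0, 1), by constructor <;> simp [dot], by simpa [dot],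
        by simpa [dot], by simpa [dot]⟩
    · exact ⟨(1, 0, 0), (0, 1, 0), (0, 0, -1), by constructor <;> simp [dot], by simpa [dot],
        by simpa [dot], by simpa [dot]⟩
    · exact ⟨(1, 0, 0), (0, -1, 0), (0, 0, 1), by constructor <;> simp [dot], by simpa [dot],
        by simpa [dot], by simpa [dot]⟩
    · exact ⟨(1, 0, 0), (0, -1, 0), (0, 0, -1), by constructor <;> simp [dot], by simpa [dot],
        by simpa [dot], by simpa [dot]⟩
    · exact ⟨(-1, 0, 0), (0, 1, 0), (0, 0, 1), by constructor <;> simp [dot], by simpa [dot],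
        by simpa [dot], by simpa [dot]⟩
    · exact ⟨(-1, 0, 0), (0, 1, 0), (0, 0, -1), by constructor <;> simp [dot], by simpa [dot],
        by simpa [dot], by simpa [dot]⟩
    · exact ⟨(-1, 0, 0), (0, -1, 0), (0, 0, 1), by constructor <;> simp [dot], by simpa [dot],
        by simpa [dot], by simpa [dot]⟩
    · exact ⟨(-1, 0, 0), (0, -1, 0), (0, 0, -1), by constructor <;> simp [dot], by simpa [dot],
        by simpa [dot], by simpa [dot]⟩
  rcases le_total (dot N x) (dot N y) with h1 | h1 <;>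
    rcases le_total (dot N y) (dot N z) with h2 | h2 <;>
    rcases le_total (dot N x) (dot N z) with h3 | h3
  · exact ⟨z, y, x, h.rot.swap, h2, h1, hx⟩
  · exact ⟨z, y, x, h.rot.swap, h2, h1, hx⟩
  · exact ⟨y, z, x, h.rot, h2, h3, hx⟩
  · exact ⟨y, x, z, h.swap, h1, h3, hz⟩
  · exact ⟨z, x, y, h.rot.rot, h3, h1, hy⟩
  · exact ⟨x, z, y, ⟨h.xx, h.zz, h.yy, h.xz, h.xy, h.zy⟩, h3, h2, hy⟩
  · exact ⟨x, y, z, h, h1, h2, hz⟩
  · exact ⟨x, y, z, h, h1, h2, hz⟩

/-! ## Edges and vertices -/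

theorem mem_bump {E : Finset (Sym2 P3)} {x y d : P3} {f : Sym2 P3} :
    f ∈ bump E x y d ↔ (f ∈ E ∧ f ≠ s(x, y)) ∨ f = s(x, x + d) ∨ f = s(x + d, y + d) ∨
      f = s(y + d, y) := by
  simp only [bump, Finset.mem_union, Finset.mem_sdiff, Finset.mem_singleton, Finset.mem_insert]

theorem mem_flip {E : Finset (Sym2 P3)} {x a b : P3} {f : Sym2 P3} :
    f ∈ flip E x a b ↔ (f ∈ E ∧ f ≠ s(x, x + a) ∧ f ≠ s(x + a, x + a + b)) ∨ f = s(x, x + b) ∨
      f = s(x + b, x + a + b) := by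
  simp only [flip, Finset.mem_union, Finset.mem_sdiff, Finset.mem_singleton, Finset.mem_insert, not_or]

theorem verts_bump {E : Finset (Sym2 P3)} {x y d v : P3} (hxy : s(x, y) ∈ E)
    (hv : v ∈ verts (bump E x y d)) : v ∈ verts E ∨ v = x + d ∨ v = y + d := by
  obtain ⟨w, hw⟩ := hv
  rw [mem_bump] at hw
  rcases hw with ⟨hw, -⟩ | hw | hw | hw
  · exact Or.inl ⟨w, hw⟩
  · rw [Sym2.eq_iff] at hw
    rcases hw with ⟨rfl, -⟩ | ⟨rfl, -⟩
    · exact Or.inl (left_mem_verts hxy)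
    · exact Or.inr (Or.inl rfl)
  · rw [Sym2.eq_iff] at hw
    rcases hw with ⟨rfl, -⟩ | ⟨rfl, -⟩
    · exact Or.inr (Or.inl rfl)
    · exact Or.inr (Or.inr rfl)
  · rw [Sym2.eq_iff] at hw
    rcases hw with ⟨rfl, -⟩ | ⟨rfl, -⟩
    · exact Or.inr (Or.inr rfl)
    · exact Or.inl (right_mem_verts hxy)

theorem verts_flip {E : Finset (Sym2 P3)} {x a b v : P3} (h1 : s(x, x + a) ∈ E)
    (h2 : s(x + a, x + a + b) ∈ E) (hv : v ∈ verts (flip E x a b)) : v ∈ verts E ∨ v = x + b := by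
  obtain ⟨w, hw⟩ := hv
  rw [mem_flip] at hw
  rcases hw with ⟨hw, -⟩ | hw | hw
  · exact Or.inl ⟨w, hw⟩
  · rw [Sym2.eq_iff] at hw
    rcases hw with ⟨rfl, -⟩ | ⟨rfl, -⟩
    · exact Or.inl (left_mem_verts h1)
    · exact Or.inr rfl
  · rw [Sym2.eq_iff] at hw
    rcases hw with ⟨rfl, -⟩ | ⟨rfl, -⟩
    · exact Or.inr rfl
    · exact Or.inl (right_mem_verts h2)

/-- `E` and `E'` differ only in edges with both ends in the cube of radius `r` about `p`. -/
def ChangedIn (p : P3) (r : ℤ) (E E' : Finset (Sym2 P3)) : Prop :=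
  ∀ u v : P3, (s(u, v) ∈ E ∧ s(u, v) ∉ E') ∨ (s(u, v) ∉ E ∧ s(u, v) ∈ E') →
    Box r (u - p) ∧ Box r (v - p)

theorem ChangedIn.refl (p : P3) (r : ℤ) (E : Finset (Sym2 P3)) : ChangedIn p r E E := by
  intro u v h; tauto

theorem ChangedIn.trans {p : P3} {r : ℤ} {E E' E'' : Finset (Sym2 P3)} (h : ChangedIn p r E E')
    (h' : ChangedIn p r E' E'') : ChangedIn p r E E'' := by
  intro u v huv
  by_cases h1 : s(u, v) ∈ E'
  · by_cases h2 : s(u, v) ∈ E
    · exact h' u v (Or.inl ⟨h1, by tauto⟩)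
    · exact h u v (Or.inr ⟨h2, h1⟩)
  · by_cases h2 : s(u, v) ∈ E
    · exact h u v (Or.inl ⟨h2, h1⟩)
    · exact h' u v (Or.inr ⟨h1, by tauto⟩)

theorem Box.mono {r r' : ℤ} (h : r ≤ r') {u : P3} (hu : Box r u) : Box r' u :=
  ⟨hu.1.trans h, hu.2.1.trans h, hu.2.2.trans h⟩

theorem ChangedIn.mono {p : P3} {r r' : ℤ} {E E' : Finset (Sym2 P3)} (h : ChangedIn p r E E')
    (hr : r ≤ r') : ChangedIn p r' E E' := fun u v huv =>
  ⟨(h u v huv).1.mono hr, (h u v huv).2.mono hr⟩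

theorem Box.add {r r' : ℤ} {u v : P3} (hu : Box r u) (hv : Box r' v) : Box (r + r') (u + v) := by
  refine ⟨?_, ?_, ?_⟩
  · exact (abs_add_le _ _).trans (add_le_add hu.1 hv.1)
  · exact (abs_add_le _ _).trans (add_le_add hu.2.1 hv.2.1)
  · exact (abs_add_le _ _).trans (add_le_add hu.2.2 hv.2.2)

theorem Box.neg {r : ℤ} {u : P3} (hu : Box r u) : Box r (-u) := by
  simpa [Box] using hu

theorem Box.sub {r r' : ℤ} {u v : P3} (hu : Box r u) (hv : Box r' v) : Box (r + r') (u - v) := by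
  rw [sub_eq_add_neg]; exact hu.add hv.neg

theorem box_unit {d : P3} (h : IsUnit3 d) : Box 1 d := by
  rcases isUnit3_iff.1 h with rfl | rfl | rfl | rfl | rfl | rfl <;> simp [Box]

theorem changedIn_bump {p : P3} {r : ℤ} {E : Finset (Sym2 P3)} {x y d : P3}
    (hx : Box r (x - p)) (hy : Box r (y - p)) (hx' : Box r (x + d - p)) (hy' : Box r (y + d - p)) :
    ChangedIn p r E (bump E x y d) := by
  have key : ∀ {a b u v : P3}, s(u, v) = s(a, b) → Box r (a - p) → Box r (b - p) →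
      Box r (u - p) ∧ Box r (v - p) := by
    intro a b u v h ha hb
    rw [Sym2.eq_iff] at h
    rcases h with ⟨rfl, rfl⟩ | ⟨rfl, rfl⟩
    · exact ⟨ha, hb⟩
    · exact ⟨hb, ha⟩
  intro u v huv
  rw [mem_bump] at huv
  rcases huv with ⟨h1, h2⟩ | ⟨h1, h2⟩
  · have : s(u, v) = s(x, y) := by
      by_contra hne
      exact h2 (Or.inl ⟨h1, hne⟩)
    exact key this hx hy
  · rcases h2 with ⟨h2, -⟩ | h2 | h2 | h2
    · exact absurd h2 h1
    · exact key h2 hx hx'
    · exact key h2 hx' hy'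
    · exact key h2 hy' hy

theorem changedIn_flip {p : P3} {r : ℤ} {E : Finset (Sym2 P3)} {x a b : P3}
    (hx : Box r (x - p)) (ha : Box r (x + a - p)) (hab : Box r (x + a + b - p))
    (hb : Box r (x + b - p)) : ChangedIn p r E (flip E x a b) := by
  have key : ∀ {a b u v : P3}, s(u, v) = s(a, b) → Box r (a - p) → Box r (b - p) →
      Box r (u - p) ∧ Box r (v - p) := by
    intro a b u v h ha hb
    rw [Sym2.eq_iff] at h
    rcases h with ⟨rfl, rfl⟩ | ⟨rfl, rfl⟩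
    · exact ⟨ha, hb⟩
    · exact ⟨hb, ha⟩
  intro u v huv
  rw [mem_flip] at huv
  rcases huv with ⟨h1, h2⟩ | ⟨h1, h2⟩
  · by_cases h3 : s(u, v) = s(x, x + a)
    · exact key h3 hx ha
    · by_cases h4 : s(u, v) = s(x + a, x + a + b)
      · exact key h4 ha hab
      · exact absurd (Or.inl ⟨h1, h3, h4⟩) h2
  · rcases h2 with ⟨h2, -⟩ | h2 | h2
    · exact absurd h2 h1
    · exact key h2 hx hb
    · exact key h2 hb hab

/-- The two neighbours of a vertex of a polygon. -/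
theorem IsPolygon.two {E : Finset (Sym2 P3)} (h : IsPolygon E) {u : P3} (hu : u ∈ verts E) :
    ∃ d d' : P3, IsUnit3 d ∧ IsUnit3 d' ∧ d ≠ d' ∧ s(u, u + d) ∈ E ∧ s(u, u + d') ∈ E ∧
      ∀ w, s(u, w) ∈ E → w = u + d ∨ w = u + d' := by
  obtain ⟨a, b, hab, hs⟩ := Set.ncard_eq_two.1 (h.deg u hu)
  have ha : s(u, a) ∈ E := by
    have : a ∈ {w | s(u, w) ∈ E} := by rw [hs]; simp
    exact this
  have hb : s(u, b) ∈ E := by
    have : b ∈ {w | s(u, w) ∈ E} := by rw [hs]; simp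
    exact this
  refine ⟨a - u, b - u, adj_iff.1 (h.adj _ _ ha), adj_iff.1 (h.adj _ _ hb), ?_, ?_, ?_, ?_⟩
  · intro h'
    exact hab (by simpa using h')
  · simpa using ha
  · simpa using hb
  · intro w hw
    have : w ∈ {w | s(u, w) ∈ E} := hw
    rw [hs] at this
    simpa using this

/-- Classes closed under bumps and flips. -/
structure MoveClosed (C : Finset (Sym2 P3) → Prop) : Prop where
  poly : ∀ E, C E → IsPolygon E
  bump : ∀ E x y d, C E → s(x, y) ∈ E → IsUnit3 d → x + d ∉ verts E → y + d ∉ verts E →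
    C (bump E x y d)
  flip : ∀ E x a b, C E → s(x, x + a) ∈ E → s(x + a, x + a + b) ∈ E → IsUnit3 a → IsUnit3 b →
    a ≠ b → a ≠ -b → x + b ∉ verts E → C (flip E x a b)

end Pool.Agent.LK
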