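import Pool.Agent.MP_aea6d5_co.CellRad

/-! The stacked join of two unknots is unknotted: geometric part. -/

set_option autoImplicit false
set_option linter.unusedSectionVars false

open Set Topology Filter

namespace Pool.Agent.LK

/-! ### Homeomorphisms -/

lemma unk_homeo_iff (φ : R3 ≃ₜ R3) (X : Set R3) : Unk (φ '' X) ↔ Unk X := by
  constructor
  · rintro ⟨ψ, hψ⟩
    exact ⟨φ.trans ψ, by rw [← hψ, image_image]; rfl⟩
  · rintro ⟨ψ, hψ⟩
    refine ⟨φ.symm.trans ψ, ?_⟩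
    rw [← hψ, image_image]
    apply image_congr
    intro a _
    change ψ (φ.symm (φ a)) = ψ a
    rw [φ.symm_apply_apply]

/-- Vertical homeomorphisms. -/
noncomputable def vert (g : ℝ × ℝ → ℝ) (hg : Continuous g) (x y : ℝ) (ζ : ℝ ≃ₜ ℝ) : R3 ≃ₜ R3 where
  toFun p := (p.1 - x - 1 / 2, p.2.1 - y, ζ (p.2.2 - g (p.1, p.2.1)))
  invFun u := (u.1 + x + 1 / 2, u.2.1 + y, ζ.symm u.2.2 + g (u.1 + x + 1 / 2, u.2.1 + y))
  left_inv := by
    intro p
    have h1 : p.1 - x - 1 / 2 + x + 1 / 2 = p.1 := by ring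
    have h2 : p.2.1 - y + y = p.2.1 := by ring
    refine Prod.ext h1 (Prod.ext h2 ?_)
    change ζ.symm (ζ (p.2.2 - g (p.1, p.2.1))) +
      g (p.1 - x - 1 / 2 + x + 1 / 2, p.2.1 - y + y) = p.2.2
    rw [h1, h2, ζ.symm_apply_apply, sub_add_cancel]
  right_inv := by
    intro p
    have h1 : p.1 + x + 1 / 2 - x - 1 / 2 = p.1 := by ring
    have h2 : p.2.1 + y - y = p.2.1 := by ring
    refine Prod.ext h1 (Prod.ext h2 ?_)
    change ζ (ζ.symm p.2.2 + g (p.1 + x + 1 / 2, p.2.1 + y) -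
      g (p.1 + x + 1 / 2, p.2.1 + y)) = p.2.2
    rw [add_sub_cancel_right, ζ.apply_symm_apply]
  continuous_toFun := by
    have h := ζ.continuous
    fun_prop
  continuous_invFun := by
    have h := ζ.symm.continuous
    fun_prop

lemma vert_apply (g : ℝ × ℝ → ℝ) (hg : Continuous g) (x y : ℝ) (ζ : ℝ ≃ₜ ℝ) (p : R3) :
    vert g hg x y ζ p = (p.1 - x - 1 / 2, p.2.1 - y, ζ (p.2.2 - g (p.1, p.2.1))) := rfl

/-- Level preserving homeomorphisms. -/
noncomputable def level (α : ℝ → ℝ) (hα : Continuous α) (hpos : ∀ z, 0 < α z) : R3 ≃ₜ R3 where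
  toFun u := (α u.2.2 * u.1, u.2.1, u.2.2)
  invFun u := (u.1 / α u.2.2, u.2.1, u.2.2)
  left_inv := by
    intro u
    refine Prod.ext ?_ rfl
    have := (hpos u.2.2).ne'
    change α u.2.2 * u.1 / α u.2.2 = u.1
    field_simp
  right_inv := by
    intro u
    refine Prod.ext ?_ rfl
    have := (hpos u.2.2).ne'
    change α u.2.2 * (u.1 / α u.2.2) = u.1
    field_simp
  continuous_toFun := by fun_prop
  continuous_invFun := by
    have h1 : Continuous fun u : R3 => u.1 / α u.2.2 :=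
      (by fun_prop : Continuous fun u : R3 => u.1).div (by fun_prop) (fun u => (hpos _).ne')
    fun_prop

lemma level_apply (α : ℝ → ℝ) (hα : Continuous α) (hpos : ∀ z, 0 < α z) (u : R3) :
    level α hα hpos u = (α u.2.2 * u.1, u.2.1, u.2.2) := rfl

/-- A strictly increasing surjection of the line as a homeomorphism. -/
noncomputable def homeoOf (f : ℝ → ℝ) (hf : StrictMono f) (hs : Function.Surjective f) : ℝ ≃ₜ ℝ :=
  (StrictMono.orderIsoOfSurjective f hf hs).toHomeomorph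

lemma homeoOf_apply (f : ℝ → ℝ) (hf : StrictMono f) (hs : Function.Surjective f) (t : ℝ) :
    homeoOf f hf hs t = f t := rfl

/-- Profile for the join. -/
noncomputable def zK (T z : ℝ) : ℝ := z + T * max (-1) (min 1 (2 * z))

/-- Profile for the tent. -/
noncomputable def zP (T z : ℝ) : ℝ := max (z - T) ((4 * T + 4) * z + T + 3 / 2)

lemma strictMono_zK {T : ℝ} (hT : 0 ≤ T) : StrictMono (zK T) := by
  intro a b hab
  unfold zK
  have h1 : max (-1) (min 1 (2 * a)) ≤ max (-1) (min 1 (2 * b)) :=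
    max_le_max le_rfl (min_le_min le_rfl (by linarith))
  nlinarith

lemma continuous_zK (T : ℝ) : Continuous (zK T) := by
  unfold zK; fun_prop

lemma zK_bounds {T : ℝ} (hT : 0 ≤ T) (z : ℝ) : z - T ≤ zK T z ∧ zK T z ≤ z + T := by
  have h1 : -1 ≤ max (-1) (min 1 (2 * z)) := le_max_left _ _
  have h2 : max (-1) (min 1 (2 * z)) ≤ 1 := max_le (by norm_num) (min_le_left _ _)
  unfold zK
  constructor <;> nlinarith

lemma surjective_zK {T : ℝ} (hT : 0 ≤ T) : Function.Surjective (zK T) := by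
  apply (continuous_zK T).surjective
  · exact tendsto_atTop_mono (fun z => (zK_bounds hT z).1) (tendsto_atTop_add_const_right _ _
      tendsto_id)
  · exact tendsto_atBot_mono (fun z => (zK_bounds hT z).2) (tendsto_atBot_add_const_right _ _
      tendsto_id)

lemma strictMono_zP {T : ℝ} (hT : 0 ≤ T) : StrictMono (zP T) := by
  intro a b hab
  unfold zP
  exact max_lt_max (by linarith) (by nlinarith)

lemma continuous_zP (T : ℝ) : Continuous (zP T) := by
  unfold zP; fun_prop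

lemma zP_of_le {T z : ℝ} (hT : 0 ≤ T) (hz : z ≤ -1 / 2) : zP T z = z - T := by
  unfold zP
  apply max_eq_left
  nlinarith

lemma zP_of_ge {T z : ℝ} (hT : 0 ≤ T) (hz : -1 / 2 ≤ z) :
    zP T z = (4 * T + 4) * z + T + 3 / 2 := by
  unfold zP
  apply max_eq_right
  nlinarith

lemma zK_of_le {T z : ℝ} (hz : z ≤ -1 / 2) : zK T z = z - T := by
  unfold zK
  rw [max_eq_left ((min_le_right _ _).trans (by linarith))]
  ring

lemma zK_of_ge {T z : ℝ} (hz : 1 / 2 ≤ z) : zK T z = z + T := by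
  unfold zK
  rw [min_eq_left (by linarith), max_eq_right (by norm_num)]
  ring

lemma zK_mid {T z : ℝ} (hz : -1 / 2 ≤ z) (hz' : z ≤ 1 / 2) : zK T z = (2 * T + 1) * z := by
  unfold zK
  rw [min_eq_right (by linarith), max_eq_right (by linarith)]
  ring

lemma surjective_zP {T : ℝ} (hT : 0 ≤ T) : Function.Surjective (zP T) := by
  apply (continuous_zP T).surjective
  · exact tendsto_atTop_mono (fun z => le_max_left _ _) (tendsto_atTop_add_const_right _ _
      tendsto_id)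
  · apply Tendsto.congr' _ (tendsto_atBot_add_const_right atBot (-T) tendsto_id)
    filter_upwards [eventually_le_atBot (-1 / 2)] with t ht
    rw [zP_of_le hT ht]
    rfl

/-- Scaling factor for the join. -/
noncomputable def aK (T z : ℝ) : ℝ := 1 + max 0 (T + 1 / 2 - |z|)

/-- Scaling factor for the tent. -/
noncomputable def aP (T z : ℝ) : ℝ :=
  (T + 3 / 2 + max (-(T + 1 / 2)) (min z 0)) * (2 * T + 2) /
    (T + 3 / 2 - max (-(T + 1 / 2)) (min z 0))

lemma aK_pos (T z : ℝ) : 0 < aK T z := by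
  unfold aK
  have := le_max_left 0 (T + 1 / 2 - |z|)
  linarith

lemma aP_pos {T : ℝ} (hT : 0 ≤ T) (z : ℝ) : 0 < aP T z := by
  unfold aP
  have h1 : -(T + 1 / 2) ≤ max (-(T + 1 / 2)) (min z 0) := le_max_left _ _
  have h2 : max (-(T + 1 / 2)) (min z 0) ≤ 0 := max_le (by linarith) (min_le_right _ _)
  apply div_pos
  · apply mul_pos <;> linarith
  · linarith

lemma continuous_aK (T : ℝ) : Continuous (aK T) := by
  unfold aK; fun_prop

lemma continuous_aP {T : ℝ} (hT : 0 ≤ T) : Continuous (aP T) := by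
  unfold aP
  refine Continuous.div (by fun_prop) (by fun_prop) ?_
  intro z
  have h2 : max (-(T + 1 / 2)) (min z 0) ≤ 0 := max_le (by linarith) (min_le_right _ _)
  have : 0 < T + 3 / 2 - max (-(T + 1 / 2)) (min z 0) := by linarith
  exact this.ne'

lemma aK_far {T z : ℝ} (hz : T + 1 / 2 ≤ |z|) : aK T z = 1 := by
  unfold aK
  rw [max_eq_left (by linarith), add_zero]

lemma aK_near {T z : ℝ} (hz : |z| ≤ T + 1 / 2) : aK T z = T + 3 / 2 - |z| := by
  unfold aK
  rw [max_eq_right (by linarith)]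
  ring

lemma aP_low {T z : ℝ} (hT : 0 ≤ T) (hz : z ≤ -(T + 1 / 2)) : aP T z = 1 := by
  unfold aP
  rw [max_eq_left ((min_le_left _ _).trans hz)]
  have h1 : T + 3 / 2 + -(T + 1 / 2) = 1 := by ring
  have h2 : T + 3 / 2 - -(T + 1 / 2) = 2 * T + 2 := by ring
  rw [h1, h2, one_mul]
  apply div_self
  positivity

lemma aP_mid {T z : ℝ} (hz : -(T + 1 / 2) ≤ z) (hz' : z ≤ 0) :
    aP T z = (T + 3 / 2 + z) * (2 * T + 2) / (T + 3 / 2 - z) := by
  unfold aP
  rw [min_eq_left hz', max_eq_right hz]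

lemma aP_high {T z : ℝ} (hT : 0 ≤ T) (hz : 0 ≤ z) : aP T z = 2 * T + 2 := by
  unfold aP
  rw [min_eq_right hz, max_eq_right (by linarith), add_zero, sub_zero]
  field_simp

lemma frac1 {T z D : ℝ} (hT : 0 ≤ T) (hD : 0 < D) :
    (T + 3 / 2 + z) * (2 * T + 2) / D * (D / (4 * T + 4)) = (T + 3 / 2 + z) / 2 := by
  have : (0 : ℝ) < 4 * T + 4 := by positivity
  field_simp
  ring

/-! ### Sets -/

/-- The tent over the edge from `(x,y,h)` to `(x+1,y,h)`. -/
def tent (x y h : ℝ) : Set R3 :=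
  {p | p.2.1 = y ∧ |p.1 - x - 1 / 2| ≤ 1 / 2 ∧ p.2.2 = h + 1 / 2 - |p.1 - x - 1 / 2|}

/-- The two vertical strands over the ends of the edge from `(x,y,h)` to `(x+1,y,h)`. -/
def strands (x y h : ℝ) : Set R3 :=
  {p | p.2.1 = y ∧ |p.1 - x - 1 / 2| = 1 / 2 ∧ h ≤ p.2.2 ∧ p.2.2 ≤ h + 1}

/-- The image of the tent. -/
def Te (T : ℝ) : Set R3 :=
  {u | u.2.1 = 0 ∧ -(T + 1 / 2) ≤ u.2.2 ∧ u.2.2 ≤ T + 3 / 2 ∧ |u.1| = (T + 3 / 2 - |u.2.2|) / 2}

/-- The image of the strands. -/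
def St (T : ℝ) : Set R3 :=
  {u | u.2.1 = 0 ∧ |u.2.2| ≤ T + 1 / 2 ∧ |u.1| = (T + 3 / 2 - |u.2.2|) / 2}

lemma tent_eq (x y h : ℝ) :
    segment ℝ ((x, y, h) : R3) (x + 1 / 2, y, h + 1 / 2) ∪
      segment ℝ ((x + 1 / 2, y, h + 1 / 2) : R3) (x + 1, y, h) = tent x y h := by
  ext p
  obtain ⟨p1, p2, p3⟩ := p
  simp only [mem_union, segment_eq_image, mem_image, mem_Icc, tent, mem_ofPred_eq, Prod.smul_mk,
    Prod.mk_add_mk, Prod.mk.injEq, smul_eq_mul]
  constructor
  · rintro (⟨s, ⟨h0, h1⟩, rfl, rfl, rfl⟩ | ⟨s, ⟨h0, h1⟩, rfl, rfl, rfl⟩)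
    · have h2 : (1 - s) * x + s * (x + 1 / 2) - x - 1 / 2 = -((1 - s) / 2) := by ring
      rw [h2, abs_neg, abs_of_nonneg (by linarith)]
      refine ⟨by ring, by linarith, by ring⟩
    · have h2 : (1 - s) * (x + 1 / 2) + s * (x + 1) - x - 1 / 2 = s / 2 := by ring
      rw [h2, abs_of_nonneg (by linarith)]
      refine ⟨by ring, by linarith, by ring⟩
  · rintro ⟨rfl, h1, rfl⟩
    rcases le_total (p1 - x - 1 / 2) 0 with h2 | h2
    · left
      rw [abs_of_nonpos h2] at h1 ⊢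
      refine ⟨2 * (p1 - x), ⟨by linarith, by linarith⟩, by ring, by ring, by ring⟩
    · right
      rw [abs_of_nonneg h2] at h1 ⊢
      refine ⟨2 * (p1 - x) - 1, ⟨by linarith, by linarith⟩, by ring, by ring, by ring⟩

lemma strands_eq (x y h : ℝ) :
    segment ℝ ((x, y, h) : R3) (x, y, h + 1) ∪
      segment ℝ ((x + 1, y, h) : R3) (x + 1, y, h + 1) = strands x y h := by
  ext p
  obtain ⟨p1, p2, p3⟩ := p
  simp only [mem_union, segment_eq_image, mem_image, mem_Icc, strands, mem_ofPred_eq, Prod.smul_mk,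
    Prod.mk_add_mk, Prod.mk.injEq, smul_eq_mul]
  constructor
  · rintro (⟨s, ⟨h0, h1⟩, rfl, rfl, rfl⟩ | ⟨s, ⟨h0, h1⟩, rfl, rfl, rfl⟩)
    · have h2 : (1 - s) * x + s * x - x - 1 / 2 = -(1 / 2) := by ring
      rw [h2, abs_neg, abs_of_nonneg (by norm_num)]
      refine ⟨by ring, rfl, by nlinarith, by nlinarith⟩
    · have h2 : (1 - s) * (x + 1) + s * (x + 1) - x - 1 / 2 = 1 / 2 := by ring
      rw [h2, abs_of_nonneg (by norm_num)]
      refine ⟨by ring, rfl, by nlinarith, by nlinarith⟩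
  · rintro ⟨rfl, h1, h3, h4⟩
    rcases le_total (p1 - x - 1 / 2) 0 with h2 | h2
    · left
      rw [abs_of_nonpos h2] at h1
      have h5 : x = p1 := by linarith
      subst h5
      refine ⟨p3 - h, ⟨by linarith, by linarith⟩, by ring, by ring, by ring⟩
    · right
      rw [abs_of_nonneg h2] at h1
      have h5 : p1 = x + 1 := by linarith
      subst h5
      refine ⟨p3 - h, ⟨by linarith, by linarith⟩, by ring, by ring, by ring⟩

/-- The map on the part below the surface. -/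
noncomputable def fA (g : ℝ × ℝ → ℝ) (x y T : ℝ) (p : R3) : R3 :=
  (p.1 - x - 1 / 2, p.2.1 - y, p.2.2 - g (p.1, p.2.1) - T)

/-- The map on the part above the surface. -/
noncomputable def fB (g : ℝ × ℝ → ℝ) (x y T : ℝ) (p : R3) : R3 :=
  (p.1 - x - 1 / 2, p.2.1 - y, p.2.2 - g (p.1, p.2.1) + T)

lemma side_homeo {A : Set R3} {g : ℝ × ℝ → ℝ} (hg : Continuous g) {x y h T : ℝ} (hT : 0 ≤ T)
    (hA : ∀ p ∈ A, p.2.2 + 1 / 2 ≤ g (p.1, p.2.1))
    (hgs : ∀ s : ℝ, 0 ≤ s → s ≤ 1 → g (x + s, y) = h + 1 / 2) :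
    ∃ Θ : R3 ≃ₜ R3, Θ '' (A ∪ tent x y h) = fA g x y T '' A ∪ Te T := by
  set Θ : R3 ≃ₜ R3 := (vert g hg x y (homeoOf (zP T) (strictMono_zP hT) (surjective_zP hT))).trans
    (level (aP T) (continuous_aP hT) (aP_pos hT)) with hΘ
  have hΘa : ∀ p, Θ p = (aP T (zP T (p.2.2 - g (p.1, p.2.1))) * (p.1 - x - 1 / 2), p.2.1 - y,
      zP T (p.2.2 - g (p.1, p.2.1))) := fun p => rfl
  refine ⟨Θ, ?_⟩
  rw [image_union]
  congr 1
  · apply image_congr
    intro p hp
    have h1 := hA p hp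
    have h2 : p.2.2 - g (p.1, p.2.1) ≤ -1 / 2 := by linarith
    rw [hΘa, zP_of_le hT h2, aP_low hT (by linarith), one_mul]
    rfl
  · ext u
    symm
    constructor
    · rintro ⟨h1, h2, h3, h4⟩
      set z := u.2.2 with hz
      have hα := aP_pos hT z
      set s : ℝ := u.1 / aP T z with hs
      have hsu : aP T z * s = u.1 := by rw [hs]; field_simp
      have hsabs : |s| = (T + 3 / 2 - z) / (4 * T + 4) := by
        rw [hs, abs_div, abs_of_pos hα, h4]
        rw [div_eq_iff hα.ne']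
        rcases le_total z 0 with h6 | h6
        · rw [abs_of_nonpos h6, mul_comm, aP_mid h2 h6, frac1 hT (by linarith)]
          ring
        · rw [abs_of_nonneg h6, aP_high hT h6]
          have h5 : (0 : ℝ) < 4 * T + 4 := by positivity
          field_simp
          ring
      have hs0 : 0 ≤ (T + 3 / 2 - z) / (4 * T + 4) := div_nonneg (by linarith) (by positivity)
      have hs1 : (T + 3 / 2 - z) / (4 * T + 4) ≤ 1 / 2 := by
        rw [div_le_div_iff₀ (by positivity) (by norm_num)]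
        linarith
      have hs2 : -(1 / 2) ≤ s ∧ s ≤ 1 / 2 := abs_le.mp (by rw [hsabs]; exact hs1)
      refine ⟨(x + (s + 1 / 2), y, h + 1 / 2 - |s|), ⟨rfl, ?_, ?_⟩, ?_⟩
      · have h5 : x + (s + 1 / 2) - x - 1 / 2 = s := by ring
        change |x + (s + 1 / 2) - x - 1 / 2| ≤ 1 / 2
        rw [h5, hsabs]
        exact hs1
      · have h5 : x + (s + 1 / 2) - x - 1 / 2 = s := by ring
        change h + 1 / 2 - |s| = h + 1 / 2 - |x + (s + 1 / 2) - x - 1 / 2|
        rw [h5]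
      · rw [hΘa]
        have h5 : g (x + (s + 1 / 2), y) = h + 1 / 2 := hgs _ (by linarith) (by linarith)
        change (aP T (zP T (h + 1 / 2 - |s| - g (x + (s + 1 / 2), y))) *
          (x + (s + 1 / 2) - x - 1 / 2), y - y, zP T (h + 1 / 2 - |s| - g (x + (s + 1 / 2), y))) = u
        have h6 : h + 1 / 2 - |s| - g (x + (s + 1 / 2), y) = -|s| := by rw [h5]; ring
        have h7 : zP T (-|s|) = z := by
          rw [zP_of_ge hT (by rw [hsabs]; linarith), hsabs]
          field_simp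
          ring
        rw [h6, h7]
        have h8 : x + (s + 1 / 2) - x - 1 / 2 = s := by ring
        rw [h8, hsu, sub_self, ← h1]
    · rintro ⟨p, ⟨h1, h2, h3⟩, rfl⟩
      set s := p.1 - x - 1 / 2 with hs
      have hs2 : -(1 / 2) ≤ s ∧ s ≤ 1 / 2 := abs_le.mp h2
      have h5 : g (p.1, p.2.1) = h + 1 / 2 := by
        have h6 := hgs (s + 1 / 2) (by linarith) (by linarith)
        have h7 : x + (s + 1 / 2) = p.1 := by rw [hs]; ring
        rw [h1, ← h7, h6]
      have h6 : p.2.2 - g (p.1, p.2.1) = -|s| := by rw [h5, h3]; ring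
      rw [hΘa, h6]
      set z := zP T (-|s|) with hz
      have h7 : z = (4 * T + 4) * (-|s|) + T + 3 / 2 := zP_of_ge hT (by linarith)
      have h8 : 0 ≤ |s| := abs_nonneg s
      have hz1 : -(T + 1 / 2) ≤ z := by rw [h7]; nlinarith
      have hz2 : z ≤ T + 3 / 2 := by rw [h7]; nlinarith
      have hsz : |s| = (T + 3 / 2 - z) / (4 * T + 4) := by
        rw [h7]
        have : (0 : ℝ) < 4 * T + 4 := by positivity
        field_simp
        ring
      refine ⟨?_, hz1, hz2, ?_⟩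
      · change p.2.1 - y = 0
        rw [h1, sub_self]
      · change |aP T z * s| = (T + 3 / 2 - |z|) / 2
        rw [abs_mul, abs_of_pos (aP_pos hT z), hsz]
        rcases le_total z 0 with h9 | h9
        · rw [abs_of_nonpos h9, aP_mid hz1 h9, frac1 hT (by linarith)]
          ring
        · rw [abs_of_nonneg h9, aP_high hT h9]
          field_simp
          ring

lemma side {A : Set R3} {g : ℝ × ℝ → ℝ} (hg : Continuous g) {x y h T : ℝ} (hT : 0 ≤ T)
    (hA : ∀ p ∈ A, p.2.2 + 1 / 2 ≤ g (p.1, p.2.1))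
    (hgs : ∀ s : ℝ, 0 ≤ s → s ≤ 1 → g (x + s, y) = h + 1 / 2) (hU : Unk (A ∪ tent x y h)) :
    Unk (fA g x y T '' A ∪ Te T) := by
  obtain ⟨Θ, hΘ⟩ := side_homeo hg hT hA hgs
  rw [← hΘ, unk_homeo_iff]
  exact hU

end Pool.Agent.LK
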