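import Pool.Agent.MP_aea6d5_co.Defs

/-! From the pair inequality to the pointwise bound: pure analysis. -/

set_option autoImplicit false

namespace Pool.Agent.LK

open Filter Topology

/-- The `n`-th roots are bounded. -/
theorem root_le {p : ℕ → ℕ} {B : ℝ} (hB : 1 ≤ B) (hp : ∀ n, (p n : ℝ) ≤ B ^ n) (n : ℕ) :
    (p n : ℝ) ^ ((n : ℝ)⁻¹) ≤ B := by
  rcases Nat.eq_zero_or_pos n with rfl | hn
  · simpa using hB
  · have h1 : (p n : ℝ) ^ ((n : ℝ)⁻¹) ≤ (B ^ n) ^ ((n : ℝ)⁻¹) :=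
      Real.rpow_le_rpow (Nat.cast_nonneg _) (hp n) (by positivity)
    rwa [Real.pow_rpow_inv_natCast (by linarith) hn.ne'] at h1

theorem bdd_root {p : ℕ → ℕ} {B : ℝ} (hB : 1 ≤ B) (hp : ∀ n, (p n : ℝ) ≤ B ^ n) :
    IsBoundedUnder (· ≤ ·) atTop (fun n : ℕ => (p n : ℝ) ^ ((n : ℝ)⁻¹)) :=
  isBoundedUnder_of ⟨B, root_le hB hp⟩

/-- If `p n ≥ x ^ n` for infinitely many `n` then the limsup of the roots is at least `x`. -/
theorem le_limsup_root {p : ℕ → ℕ} {B : ℝ} (hB : 1 ≤ B) (hp : ∀ n, (p n : ℝ) ≤ B ^ n) {x : ℝ}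
    (hx : 0 ≤ x) (hf : ∃ᶠ n in atTop, x ^ n ≤ (p n : ℝ)) :
    x ≤ limsup (fun n : ℕ => (p n : ℝ) ^ ((n : ℝ)⁻¹)) atTop := by
  refine le_limsup_of_frequently_le ?_ (bdd_root hB hp)
  refine (hf.and_eventually (eventually_gt_atTop 0)).mono ?_
  rintro n ⟨h1, hn⟩
  have h2 : (x ^ n) ^ ((n : ℝ)⁻¹) ≤ (p n : ℝ) ^ ((n : ℝ)⁻¹) :=
    Real.rpow_le_rpow (by positivity) h1 (by positivity)
  rwa [Real.pow_rpow_inv_natCast hx hn.ne'] at h2

/-- Powers beat polynomials. -/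
theorem eventually_pow_beats {β γ D s : ℝ} (hγ : 0 < γ) (hβ : γ < β) :
    ∀ᶠ n : ℕ in atTop, D * (n : ℝ) ^ s * γ ^ n ≤ β ^ n := by
  have hβ0 : 0 < β := hγ.trans hβ
  have hr : 1 < β / γ := (one_lt_div hγ).2 hβ
  have hlog : 0 < Real.log (β / γ) := Real.log_pos hr
  have h1 : Tendsto (fun x : ℝ => x ^ s * Real.exp (-(Real.log (β / γ)) * x)) atTop (𝓝 0) :=
    tendsto_rpow_mul_exp_neg_mul_atTop_nhds_zero s _ hlog
  have h2 : Tendsto (fun n : ℕ => D * ((n : ℝ) ^ s * Real.exp (-(Real.log (β / γ)) * n))) atTop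
      (𝓝 (D * 0)) := (h1.comp tendsto_natCast_atTop_atTop).const_mul D
  rw [mul_zero] at h2
  filter_upwards [h2.eventually (gt_mem_nhds (zero_lt_one' ℝ))] with n hn
  have h3 : Real.exp (-(Real.log (β / γ)) * n) = (γ / β) ^ n := by
    rw [mul_comm, Real.exp_nat_mul, Real.exp_neg, Real.exp_log (by positivity), inv_div]
  rw [h3, div_pow] at hn
  have h4 : 0 < β ^ n := by positivity
  have h5 : D * ((n : ℝ) ^ s * (γ ^ n / β ^ n)) * β ^ n = D * (n : ℝ) ^ s * γ ^ n := by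
    field_simp
  nlinarith

/-- The main analytic lemma. -/
theorem pointwise_bound {p : ℕ → ℕ} {B K s : ℝ} {c : ℕ} (hs : 0 ≤ s) (hB : 1 ≤ B)
    (hp : ∀ n, (p n : ℝ) ≤ B ^ n) (hK : 0 < K) (hfreq : ∃ᶠ n in atTop, 1 ≤ p n)
    (h : ∀ n : ℕ, 0 < n → (n : ℝ) ^ s * (p n : ℝ) ^ 2 ≤
      K * ∑ i ∈ Finset.range (2 * c + 1), (p (2 * n + i - c) : ℝ)) :
    ∃ K' : ℝ, ∀ n : ℕ, 0 < n → (p n : ℝ) ≤
      K' * (n : ℝ) ^ (-s) * (limsup (fun n : ℕ => (p n : ℝ) ^ ((n : ℝ)⁻¹)) atTop) ^ n := by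
  set μ := limsup (fun n : ℕ => (p n : ℝ) ^ ((n : ℝ)⁻¹)) atTop with hμdef
  have hμ : 1 ≤ μ := by
    refine le_limsup_root hB hp zero_le_one (hfreq.mono fun n hn => ?_)
    rw [one_pow]; exact_mod_cast hn
  have hμ0 : 0 < μ := by linarith
  set T : ℝ := K * (2 * c + 1) * μ ^ c with hT
  have hT0 : 0 < T := by positivity
  set r : ℕ → ℝ := fun n => (p n : ℝ) * (n : ℝ) ^ s / μ ^ n / T with hr
  -- one step
  have step : ∀ n : ℕ, c < n → ∃ m : ℕ, n < m ∧ m + c ≤ 2 * (n + c) ∧ r n ^ 2 ≤ r m := by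
    intro n hn
    have hn0 : 0 < n := by omega
    have hn1 : (0 : ℝ) < n := by exact_mod_cast hn0
    have hex : ∃ i ∈ Finset.range (2 * c + 1),
        (n : ℝ) ^ s * (p n : ℝ) ^ 2 / (K * (2 * c + 1)) ≤ (p (2 * n + i - c) : ℝ) := by
      by_contra hcon
      push Not at hcon
      have h1 := Finset.sum_lt_sum_of_nonempty (by simp) hcon
      rw [Finset.sum_const, Finset.card_range, nsmul_eq_mul] at h1
      have h2 : ((2 * c + 1 : ℕ) : ℝ) * ((n : ℝ) ^ s * (p n : ℝ) ^ 2 / (K * (2 * c + 1))) =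
          (n : ℝ) ^ s * (p n : ℝ) ^ 2 / K := by
        push_cast; field_simp
      rw [h2, lt_div_iff₀ hK] at h1
      have h3 := h n hn0
      nlinarith
    obtain ⟨i, hi, h1⟩ := hex
    rw [Finset.mem_range] at hi
    set m := 2 * n + i - c with hm
    have hm1 : n < m := by omega
    have hm2 : m + c ≤ 2 * (n + c) := by omega
    refine ⟨m, hm1, hm2, ?_⟩
    have hms : (n : ℝ) ^ s ≤ (m : ℝ) ^ s :=
      Real.rpow_le_rpow hn1.le (by exact_mod_cast hm1.le) hs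
    have hns : (0 : ℝ) < (n : ℝ) ^ s := Real.rpow_pos_of_pos hn1 s
    have hμm : μ ^ m ≤ μ ^ (2 * n) * μ ^ c := by
      rw [← pow_add]; exact pow_le_pow_right₀ hμ (by omega)
    have h4 : r n ^ 2 = ((n : ℝ) ^ s * (p n : ℝ) ^ 2 / (K * (2 * c + 1))) * (n : ℝ) ^ s /
        (μ ^ (2 * n) * μ ^ c) / T := by
      simp only [hr, hT]
      rw [mul_comm 2 n, pow_mul]
      field_simp
    rw [h4]
    simp only [hr]
    have h5 : 0 ≤ (n : ℝ) ^ s * (p n : ℝ) ^ 2 / (K * (2 * c + 1)) := by positivity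
    gcongr
  -- the iteration
  have small : ∀ n : ℕ, c < n → r n ≤ 2 := by
    intro n hn
    by_contra hbig
    push Not at hbig
    have it : ∀ k : ℕ, ∃ m : ℕ, n + k ≤ m ∧ m + c ≤ 2 ^ k * (n + c) ∧ 2 ^ (2 ^ k) ≤ r m := by
      intro k
      induction k with
      | zero => exact ⟨n, by omega, by omega, by simpa using hbig.le⟩
      | succ k ih =>
        obtain ⟨m, h1, h2, h3⟩ := ih
        obtain ⟨m', h4, h5, h6⟩ := step m (by omega)
        refine ⟨m', by omega, ?_, ?_⟩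
        · calc m' + c ≤ 2 * (m + c) := h5
            _ ≤ 2 * (2 ^ k * (n + c)) := by omega
            _ = 2 ^ (k + 1) * (n + c) := by ring
        · refine le_trans ?_ h6
          calc (2 : ℝ) ^ (2 ^ (k + 1)) = (2 ^ (2 ^ k)) ^ 2 := by rw [← pow_mul, pow_succ]
            _ ≤ r m ^ 2 := by gcongr
    set β : ℝ := (2 : ℝ) ^ ((1 : ℝ) / (n + c)) with hβ
    have hnc : (0 : ℝ) < (n : ℝ) + c := by
      have : (0 : ℝ) < n := by exact_mod_cast (by omega : 0 < n)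
      positivity
    have hβ1 : 1 < β := Real.one_lt_rpow (by norm_num) (by positivity)
    have hβ0 : 0 < β := by linarith
    set γ : ℝ := (1 + β) / 2 with hγ
    have hγ1 : 1 < γ := by linarith
    have hγβ : γ < β := by linarith
    have hfr : ∃ᶠ m : ℕ in atTop, β ^ m ≤ r m := by
      rw [frequently_atTop]
      intro a
      obtain ⟨m, h1, h2, h3⟩ := it a
      refine ⟨m, by omega, le_trans ?_ h3⟩
      have h4 : ((m : ℝ) + c) ≤ 2 ^ a * (n + c) := by exact_mod_cast h2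
      have h5 : (m : ℝ) / (n + c) ≤ 2 ^ a := by
        rw [div_le_iff₀ hnc]
        have : (0 : ℝ) ≤ c := Nat.cast_nonneg c
        linarith
      calc β ^ m = (2 : ℝ) ^ ((m : ℝ) / (n + c)) := by
            rw [hβ, ← Real.rpow_natCast, ← Real.rpow_mul (by norm_num)]
            congr 1; field_simp
        _ ≤ (2 : ℝ) ^ ((2 : ℝ) ^ a) := Real.rpow_le_rpow_of_exponent_le (by norm_num) h5
        _ = 2 ^ (2 ^ a) := by
            rw [← Real.rpow_natCast 2 (2 ^ a)]; push_cast; rfl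
    have hfr2 : ∃ᶠ m : ℕ in atTop, (γ * μ) ^ m ≤ (p m : ℝ) := by
      refine (hfr.and_eventually ((eventually_pow_beats (D := T⁻¹) (s := s)
        (by linarith : 0 < γ) hγβ).and (eventually_gt_atTop 0))).mono ?_
      rintro m ⟨h1, h2, hm⟩
      have hm1 : (0 : ℝ) < m := by exact_mod_cast hm
      have hms : 0 < (m : ℝ) ^ s := Real.rpow_pos_of_pos hm1 s
      have hμm : 0 < μ ^ m := by positivity
      have h3 := h2.trans h1
      simp only [hr] at h3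
      rw [div_div, le_div_iff₀ (by positivity)] at h3
      have h4 : T⁻¹ * (m : ℝ) ^ s * γ ^ m * (μ ^ m * T) = (m : ℝ) ^ s * (γ ^ m * μ ^ m) := by
        field_simp
      rw [h4, mul_comm (p m : ℝ)] at h3
      rw [mul_pow]
      exact le_of_mul_le_mul_left h3 hms
    have h7 := le_limsup_root hB hp (by positivity : 0 ≤ γ * μ) hfr2
    rw [← hμdef] at h7
    nlinarith
  refine ⟨2 * T + ∑ m ∈ Finset.range (c + 1), (p m : ℝ) * (m : ℝ) ^ s, fun n hn => ?_⟩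
  have hn1 : (0 : ℝ) < n := by exact_mod_cast hn
  have hns : 0 < (n : ℝ) ^ s := Real.rpow_pos_of_pos hn1 s
  have hμn : 1 ≤ μ ^ n := one_le_pow₀ hμ
  have hsum : 0 ≤ ∑ m ∈ Finset.range (c + 1), (p m : ℝ) * (m : ℝ) ^ s :=
    Finset.sum_nonneg fun m _ => by positivity
  rw [Real.rpow_neg hn1.le]
  rcases lt_or_ge c n with hc | hc
  · have h1 := small n hc
    simp only [hr] at h1
    rw [div_div, div_le_iff₀ (by positivity)] at h1
    have h2 : (p n : ℝ) = (p n : ℝ) * (n : ℝ) ^ s * ((n : ℝ) ^ s)⁻¹ := by field_simp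
    rw [h2]
    calc (p n : ℝ) * (n : ℝ) ^ s * ((n : ℝ) ^ s)⁻¹ ≤ (2 * (μ ^ n * T)) * ((n : ℝ) ^ s)⁻¹ := by
          gcongr
      _ = (2 * T) * ((n : ℝ) ^ s)⁻¹ * μ ^ n := by ring
      _ ≤ _ := by gcongr; linarith
  · have h1 : (p n : ℝ) * (n : ℝ) ^ s ≤ ∑ m ∈ Finset.range (c + 1), (p m : ℝ) * (m : ℝ) ^ s :=
      Finset.single_le_sum (f := fun m : ℕ => (p m : ℝ) * (m : ℝ) ^ s)
        (fun m _ => by positivity) (Finset.mem_range.2 (by omega))
    have h2 : (p n : ℝ) = (p n : ℝ) * (n : ℝ) ^ s * ((n : ℝ) ^ s)⁻¹ := by field_simp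
    rw [h2]
    calc (p n : ℝ) * (n : ℝ) ^ s * ((n : ℝ) ^ s)⁻¹ ≤
        (2 * T + ∑ m ∈ Finset.range (c + 1), (p m : ℝ) * (m : ℝ) ^ s) * ((n : ℝ) ^ s)⁻¹ := by
          gcongr; linarith
      _ ≤ _ := le_mul_of_one_le_right (by positivity) hμn

/-- Consequence for an assumed asymptotic form along even numbers. -/
theorem exponent_le {p : ℕ → ℕ} {μ K s A α : ℝ} (hμ : 0 < μ) (hA : 0 < A)
    (hb : ∀ n : ℕ, 0 < n → (p n : ℝ) ≤ K * (n : ℝ) ^ (-s) * μ ^ n)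
    (h : Tendsto (fun k : ℕ => (p (2 * k) : ℝ) / (((2 * k : ℕ) : ℝ) ^ (α - 3) * μ ^ (2 * k)))
      atTop (𝓝 A)) : α ≤ 3 - s := by
  by_contra hcon
  push Not at hcon
  have hpos : 0 < α - 3 + s := by linarith
  have h1 : ∀ᶠ k : ℕ in atTop, (p (2 * k) : ℝ) / (((2 * k : ℕ) : ℝ) ^ (α - 3) * μ ^ (2 * k)) ≤
      K * ((2 * k : ℕ) : ℝ) ^ (-(α - 3 + s)) := by
    filter_upwards [eventually_gt_atTop 0] with k hk
    have hk1 : (0 : ℝ) < ((2 * k : ℕ) : ℝ) := by exact_mod_cast (by omega : 0 < 2 * k)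
    rw [div_le_iff₀ (by positivity)]
    refine (hb (2 * k) (by omega)).trans (le_of_eq ?_)
    have h2 : ((2 * k : ℕ) : ℝ) ^ (-s) =
        ((2 * k : ℕ) : ℝ) ^ (-(α - 3 + s)) * ((2 * k : ℕ) : ℝ) ^ (α - 3) := by
      rw [← Real.rpow_add hk1]; congr 1; ring
    rw [h2]; ring
  have h3 : Tendsto (fun k : ℕ => K * ((2 * k : ℕ) : ℝ) ^ (-(α - 3 + s))) atTop (𝓝 (K * 0)) := by
    refine Tendsto.const_mul K ?_
    refine (tendsto_rpow_neg_atTop hpos).comp ?_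
    refine tendsto_natCast_atTop_atTop.comp ?_
    exact tendsto_id.const_mul_atTop' (by norm_num)
  rw [mul_zero] at h3
  have := le_of_tendsto_of_tendsto h h3 h1
  linarith

end Pool.Agent.LK
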