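import Pool.Agent.MP_aea6d5_co.TopDefs
import Pool.Agent.MP_aea6d5_co.PolyCyc

/-! The separating function of a stacked pair of polygons. -/

set_option autoImplicit false

open Set Topology

namespace Pool.Agent.LK

/-- the hat function -/
noncomputable def hat (t : ℝ) : ℝ := max 0 (1 - |t|)

theorem hat_continuous : Continuous hat := by
  unfold hat; fun_prop

theorem hat_int (m : ℤ) : hat m = if m = 0 then 1 else 0 := by
  unfold hat
  split_ifs with h
  · subst h; simp
  · have h1 : (1 : ℝ) ≤ |(m : ℝ)| := by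
      have : (1 : ℤ) ≤ |m| := Int.one_le_abs h
      exact_mod_cast this
    exact max_eq_left (by linarith)

theorem hat_affine_aux (m : ℤ) {a b : ℝ} (ha : 0 ≤ a) (hb : 0 ≤ b) (hab : a + b = 1) :
    hat (a * m + b * ((m : ℝ) + 1)) = a * hat m + b * hat ((m : ℝ) + 1) := by
  have e1 : a * (m : ℝ) + b * ((m : ℝ) + 1) = m + b := by
    have : a * (m : ℝ) + b * m = m := by rw [← add_mul, hab, one_mul]
    linarith
  have e2 : hat ((m : ℝ) + 1) = if m + 1 = 0 then 1 else 0 := by
    rw [← hat_int]; push_cast; rfl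
  rw [e1, hat_int, e2]
  have hb1 : b ≤ 1 := by linarith
  unfold hat
  rcases lt_trichotomy m 0 with h | h | h
  · rcases lt_or_ge m (-1) with h1 | h1
    · have h2 : (m : ℝ) ≤ -2 := by
        have : m ≤ -2 := by omega
        exact_mod_cast this
      rw [if_neg (by omega), if_neg (by omega), abs_of_nonpos (by linarith)]
      rw [max_eq_left (by linarith)]
      ring
    · have h2 : m = -1 := by omega
      subst h2
      simp only [Int.reduceNeg, Int.cast_neg, Int.cast_one, neg_add_cancel, if_true]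
      rw [if_neg (by norm_num), abs_of_nonpos (by linarith), max_eq_right (by linarith)]
      ring
  · subst h
    rw [if_pos rfl, if_neg (by norm_num)]
    simp only [Int.cast_zero, zero_add]
    rw [abs_of_nonneg hb, max_eq_right (by linarith)]
    linarith
  · have h2 : (1 : ℝ) ≤ m := by
      have : 1 ≤ m := by omega
      exact_mod_cast this
    rw [if_neg (by omega), if_neg (by omega), abs_of_nonneg (by linarith),
      max_eq_left (by linarith)]
    ring

theorem hat_affine {m m' : ℤ} (h : |m - m'| ≤ 1) {a b : ℝ} (ha : 0 ≤ a) (hb : 0 ≤ b)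
    (hab : a + b = 1) : hat (a * m + b * m') = a * hat m + b * hat m' := by
  rw [abs_le] at h
  have h3 : m' = m ∨ m' = m + 1 ∨ m = m' + 1 := by omega
  rcases h3 with rfl | rfl | rfl
  · rw [← add_mul, ← add_mul, hab, one_mul, one_mul]
  · push_cast
    exact hat_affine_aux m ha hb hab
  · push_cast
    have := hat_affine_aux m' hb ha (by linarith)
    rw [add_comm (a * _), add_comm (a * _)]
    exact this

/-- the weight of a column `j` at a point of the segment between two neighbouring columns -/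
theorem weight_eq {c c' : ℤ × ℤ} (h : |c.1 - c'.1| + |c.2 - c'.2| ≤ 1) {a b : ℝ} (ha : 0 ≤ a)
    (hb : 0 ≤ b) (hab : a + b = 1) (j : ℤ × ℤ) :
    hat (a * c.1 + b * c'.1 - j.1) * hat (a * c.2 + b * c'.2 - j.2) =
      a * (if j = c then 1 else 0) + b * (if j = c' then 1 else 0) := by
  have h1 := abs_nonneg (c.1 - c'.1)
  have h2 := abs_nonneg (c.2 - c'.2)
  have k1 : hat (a * c.1 + b * c'.1 - j.1) =
      a * (if c.1 - j.1 = 0 then 1 else 0) + b * (if c'.1 - j.1 = 0 then 1 else 0) := by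
    rw [← hat_int, ← hat_int, ← hat_affine (by rw [sub_sub_sub_cancel_right]; omega) ha hb hab]
    congr 1
    push_cast
    have : (j.1 : ℝ) = a * j.1 + b * j.1 := by rw [← add_mul, hab, one_mul]
    linarith
  have k2 : hat (a * c.2 + b * c'.2 - j.2) =
      a * (if c.2 - j.2 = 0 then 1 else 0) + b * (if c'.2 - j.2 = 0 then 1 else 0) := by
    rw [← hat_int, ← hat_int, ← hat_affine (by rw [sub_sub_sub_cancel_right]; omega) ha hb hab]
    congr 1
    push_cast
    have : (j.2 : ℝ) = a * j.2 + b * j.2 := by rw [← add_mul, hab, one_mul]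
    linarith
  rw [k1, k2]
  have hor : c.1 = c'.1 ∨ c.2 = c'.2 := by
    by_contra hcon
    push Not at hcon
    have e1 : 1 ≤ |c.1 - c'.1| := Int.one_le_abs (sub_ne_zero.2 hcon.1)
    have e2 : 1 ≤ |c.2 - c'.2| := Int.one_le_abs (sub_ne_zero.2 hcon.2)
    omega
  have ej : ∀ d : ℤ × ℤ, (j = d) ↔ (d.1 - j.1 = 0 ∧ d.2 - j.2 = 0) := by
    intro d
    constructor
    · rintro rfl; simp
    · rintro ⟨e1, e2⟩
      exact Prod.ext (by omega) (by omega)
  rw [if_congr (ej c) rfl rfl, if_congr (ej c') rfl rfl]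
  rcases hor with e | e
  · rw [← e]
    by_cases q : c.1 - j.1 = 0
    · simp only [q, if_true, true_and]
      have : a * 1 + b * 1 = (1 : ℝ) := by linarith
      rw [this, one_mul]
    · simp only [q, if_false, false_and]
      ring
  · rw [← e]
    by_cases q : c.2 - j.2 = 0
    · simp only [q, if_true, and_true]
      have : a * 1 + b * 1 = (1 : ℝ) := by linarith
      rw [this, mul_one]
    · simp only [q, if_false, and_false]
      ring

/-- interpolation of a function on columns -/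
noncomputable def interp (J : Finset (ℤ × ℤ)) (G : ℤ × ℤ → ℝ) (v : ℝ × ℝ) : ℝ :=
  ∑ j ∈ J, G j * (hat (v.1 - j.1) * hat (v.2 - j.2))

theorem interp_continuous (J : Finset (ℤ × ℤ)) (G : ℤ × ℤ → ℝ) : Continuous (interp J G) := by
  unfold interp
  apply continuous_finsetSum
  intro j _
  exact continuous_const.mul ((hat_continuous.comp (by fun_prop)).mul
    (hat_continuous.comp (by fun_prop)))

theorem interp_eq {J : Finset (ℤ × ℤ)} {G : ℤ × ℤ → ℝ} {c c' : ℤ × ℤ} (hc : c ∈ J) (hc' : c' ∈ J)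
    (h : |c.1 - c'.1| + |c.2 - c'.2| ≤ 1) {a b : ℝ} (ha : 0 ≤ a) (hb : 0 ≤ b) (hab : a + b = 1) :
    interp J G (a * c.1 + b * c'.1, a * c.2 + b * c'.2) = a * G c + b * G c' := by
  unfold interp
  simp only [weight_eq h ha hb hab]
  have : ∀ j, G j * (a * (if j = c then (1 : ℝ) else 0) + b * (if j = c' then 1 else 0)) =
      (if j = c then a * G j else 0) + (if j = c' then b * G j else 0) := by
    intro j
    split_ifs <;> ring
  simp only [this]
  rw [Finset.sum_add_distrib, Finset.sum_ite_eq' J c, Finset.sum_ite_eq' J c', if_pos hc, if_pos hc']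

theorem exists_sep_col (E F : Finset (Sym2 P3)) (hB : Below E F) (c : ℤ × ℤ) :
    ∃ t : ℝ, (∀ u ∈ verts E, (u.1, u.2.1) = c → (u.2.2 : ℝ) + 1 / 2 ≤ t) ∧
      ∀ v ∈ verts F, (v.1, v.2.1) = c → t ≤ (v.2.2 : ℝ) - 1 / 2 := by
  have hinj : Function.Injective fun z : ℤ => ((c.1, c.2, z) : P3) := by
    intro z z' h
    simpa using h
  have hfE : {z : ℤ | ((c.1, c.2, z) : P3) ∈ verts E}.Finite :=
    (verts_finite E).preimage hinj.injOn
  have hfF : {z : ℤ | ((c.1, c.2, z) : P3) ∈ verts F}.Finite :=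
    (verts_finite F).preimage hinj.injOn
  by_cases hE : {z : ℤ | ((c.1, c.2, z) : P3) ∈ verts E}.Nonempty
  · obtain ⟨m, hm, hmax⟩ := Set.exists_max_image _ (fun z : ℤ => z) hfE hE
    refine ⟨(m : ℝ) + 1 / 2, ?_, ?_⟩
    · rintro u hu rfl
      have h1 : u.2.2 ≤ m := hmax u.2.2 hu
      have : (u.2.2 : ℝ) ≤ m := by exact_mod_cast h1
      linarith
    · rintro v hv rfl
      have h1 : m < v.2.2 := hB _ hm v hv rfl rfl
      have : (m : ℝ) + 1 ≤ v.2.2 := by exact_mod_cast h1
      linarith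
  · by_cases hF : {z : ℤ | ((c.1, c.2, z) : P3) ∈ verts F}.Nonempty
    · obtain ⟨m, hm, hmin⟩ := Set.exists_min_image _ (fun z : ℤ => z) hfF hF
      refine ⟨(m : ℝ) - 1 / 2, ?_, ?_⟩
      · rintro u hu rfl
        exact absurd ⟨u.2.2, hu⟩ hE
      · rintro v hv rfl
        have h1 : m ≤ v.2.2 := hmin v.2.2 hv
        have : (m : ℝ) ≤ v.2.2 := by exact_mod_cast h1
        linarith
    · refine ⟨0, ?_, ?_⟩
      · rintro u hu rfl
        exact absurd ⟨u.2.2, hu⟩ hE
      · rintro v hv rfl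
        exact absurd ⟨v.2.2, hv⟩ hF

theorem adj_cols {u v : P3} (h : Adj u v) : |u.1 - v.1| + |u.2.1 - v.2.1| ≤ 1 := by
  unfold Adj at h
  have := abs_nonneg (u.2.2 - v.2.2)
  omega

theorem exists_sep (E F : Finset (Sym2 P3)) (x y h : ℤ) (hE : IsPolygon E) (hF : IsPolygon F)
    (hB : Below E F) (he : s((x, y, h), (x + 1, y, h)) ∈ E)
    (hf : s((x, y, h + 1), (x + 1, y, h + 1)) ∈ F) :
    ∃ g : ℝ × ℝ → ℝ, Continuous g ∧ (∀ p ∈ body E, p.2.2 + 1 / 2 ≤ g (p.1, p.2.1)) ∧
      (∀ p ∈ body F, g (p.1, p.2.1) ≤ p.2.2 - 1 / 2) ∧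
      ∀ s : ℝ, 0 ≤ s → s ≤ 1 → g (x + s, y) = h + 1 / 2 := by
  classical
  choose G hG1 hG2 using exists_sep_col E F hB
  set J : Finset (ℤ × ℤ) := (verts_finite E).toFinset.image (fun u => (u.1, u.2.1)) ∪
    (verts_finite F).toFinset.image (fun u => (u.1, u.2.1)) with hJ
  have hJE : ∀ u ∈ verts E, (u.1, u.2.1) ∈ J := by
    intro u hu
    rw [hJ, Finset.mem_union]
    left
    rw [Finset.mem_image]
    exact ⟨u, by simpa using hu, rfl⟩
  have hJF : ∀ u ∈ verts F, (u.1, u.2.1) ∈ J := by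
    intro u hu
    rw [hJ, Finset.mem_union]
    right
    rw [Finset.mem_image]
    exact ⟨u, by simpa using hu, rfl⟩
  refine ⟨interp J G, interp_continuous J G, ?_, ?_, ?_⟩
  · rintro p ⟨u, v, huv, a, b, ha, hb, hab, rfl⟩
    have hu := mem_verts_left huv
    have hv := mem_verts_right huv
    have h1 := interp_eq (G := G) (hJE u hu) (hJE v hv) (adj_cols (hE.adj u v huv)) ha hb hab
    simp only [toR, Prod.smul_mk, Prod.mk_add_mk, smul_eq_mul]
    simp only at h1
    rw [h1]
    have h2 := mul_le_mul_of_nonneg_left (hG1 (u.1, u.2.1) u hu rfl) ha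
    have h3 := mul_le_mul_of_nonneg_left (hG1 (v.1, v.2.1) v hv rfl) hb
    have h4 : a * (1 / 2) + b * (1 / 2) = (1 / 2 : ℝ) := by rw [← add_mul, hab, one_mul]
    linarith
  · rintro p ⟨u, v, huv, a, b, ha, hb, hab, rfl⟩
    have hu := mem_verts_left huv
    have hv := mem_verts_right huv
    have h1 := interp_eq (G := G) (hJF u hu) (hJF v hv) (adj_cols (hF.adj u v huv)) ha hb hab
    simp only [toR, Prod.smul_mk, Prod.mk_add_mk, smul_eq_mul]
    simp only at h1
    rw [h1]
    have h2 := mul_le_mul_of_nonneg_left (hG2 (u.1, u.2.1) u hu rfl) ha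
    have h3 := mul_le_mul_of_nonneg_left (hG2 (v.1, v.2.1) v hv rfl) hb
    have h4 : a * (1 / 2) + b * (1 / 2) = (1 / 2 : ℝ) := by rw [← add_mul, hab, one_mul]
    linarith
  · intro s hs0 hs1
    have a1 := mem_verts_left he
    have a2 := mem_verts_right he
    have b1 := mem_verts_left hf
    have b2 := mem_verts_right hf
    have g1 : G (x, y) = h + 1 / 2 := by
      have c1 := hG1 (x, y) _ a1 rfl
      have c2 := hG2 (x, y) _ b1 rfl
      simp only at c1 c2
      push_cast at c2
      linarith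
    have g2 : G (x + 1, y) = h + 1 / 2 := by
      have c1 := hG1 (x + 1, y) _ a2 rfl
      have c2 := hG2 (x + 1, y) _ b2 rfl
      simp only at c1 c2
      push_cast at c2
      linarith
    have h1 := interp_eq (G := G) (a := 1 - s) (b := s) (hJE _ a1) (hJE _ a2)
      (adj_cols (hE.adj _ _ he)) (by linarith) hs0 (by ring)
    simp only [g1, g2] at h1
    push_cast at h1
    have h2 : ((x : ℝ) + s, (y : ℝ)) = ((1 - s) * x + s * (x + 1), (1 - s) * y + s * y) := by
      refine Prod.ext ?_ ?_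
      · simp only; ring
      · simp only; ring
    rw [h2, h1]
    ring

end Pool.Agent.LK
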