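import Pool.Agent.MP_aea6d5_co.FrameMoves

/-! The tent over an edge. -/

set_option autoImplicit false

open Set Topology

namespace Pool.Agent.LK

theorem tentStatement : TentStatement := by
  intro E x y h k hP hU hk he h1 h2
  have hF : Frm (1, 0, 0) (0, 1, 0) (0, 0, k) := by
    rcases hk with rfl | rfl <;> decide
  obtain ⟨E₀, rfl⟩ := exists_mapE (x, y, h) hF E
  have f0 : fmap (x, y, h) (1, 0, 0) (0, 1, 0) (0, 0, k) (0, 0, 0) = (x, y, h) := by simp [fmap]
  have f1 : fmap (x, y, h) (1, 0, 0) (0, 1, 0) (0, 0, k) (1, 0, 0) = (x + 1, y, h) := by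
    simp [fmap]
  have f2 : fmap (x, y, h) (1, 0, 0) (0, 1, 0) (0, 0, k) (0, 0, 1) = (x, y, h + k) := by
    simp [fmap]
  have f3 : fmap (x, y, h) (1, 0, 0) (0, 1, 0) (0, 0, k) (1, 0, 1) = (x + 1, y, h + k) := by
    simp [fmap]
  have hadj0 : ∀ u v, s(u, v) ∈ E₀ → Adj u v := fun u v huv =>
    (adj_fmap (x := (x, y, h)) hF).1 (hP.adj _ _ ((mem_mapE_fmap hF).2 huv))
  have he0 : s(((0, 0, 0) : P3), ((1, 0, 0) : P3)) ∈ E₀ := by
    rw [← mem_mapE_fmap (x := (x, y, h)) hF, f0, f1]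
    exact he
  have h10 : ((0, 0, 1) : P3) ∉ verts E₀ := by
    rw [← mem_verts_fmap (x := (x, y, h)) hF, f2]
    exact h1
  have h20 : ((1, 0, 1) : P3) ∉ verts E₀ := by
    rw [← mem_verts_fmap (x := (x, y, h)) hF, f3]
    exact h2
  have hb : ((1 / 2, 0, 1 / 2) : R3) ∈ interior (poly LB) := by
    apply mem_interior_poly
    simp only [LB, val, List.forall_mem_cons, List.not_mem_nil, false_implies, implies_true,
      and_true]
    norm_num
  have key := tent_std hadj0 he0 h10 h20 ((unknotted_fmap hF E₀).1 hU) hb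
  rw [← Unk_image (fhomeo (x, y, h) hF), image_union, image_union, fhomeo_segment, fhomeo_segment,
    fhomeo_toR, fhomeo_toR, f0, f1, ← body_fmap hF] at key
  have e1 : mapE (fmap (x, y, h) (1, 0, 0) (0, 1, 0) (0, 0, k))
      (E₀ \ {s(((0, 0, 0) : P3), ((1, 0, 0) : P3))}) =
      mapE (fmap (x, y, h) (1, 0, 0) (0, 1, 0) (0, 0, k)) E₀ \
        {s((x, y, h), (x + 1, y, h))} := by
    have hinj := Sym2.map.injective (fmap_injective (x := (x, y, h)) hF)
    simp only [mapE]
    rw [Finset.image_sdiff _ _ hinj]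
    simp only [Finset.image_singleton, Sym2.map_mk, f0, f1]
  have e2 : fhomeo (x, y, h) hF (1 / 2, 0, 1 / 2) =
      ((x : ℝ) + 1 / 2, (y : ℝ), (h : ℝ) + k / 2) := by
    rw [fhomeo_apply]
    simp only [Int.cast_zero, Int.cast_one, mul_zero, mul_one, add_zero]
    refine Prod.ext ?_ (Prod.ext ?_ ?_) <;> simp only <;> ring
  rw [e1, e2] at key
  exact key

end Pool.Agent.LK
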