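import Pool.Agent.MP_aea6d5_co.JoinFinal
import Pool.Agent.MP_aea6d5_co.Tent
import Pool.Agent.MP_aea6d5_co.SepFun

/-! The stacked join of two unknotted polygons is unknotted. -/

set_option autoImplicit false

namespace Pool.Agent.LK

theorem sepStatement : SepStatement := fun E F x y h hE hF hB he hf =>
  exists_sep E F x y h hE hF hB he hf

/-- The stacked join of two unknotted polygons is unknotted. -/
theorem joinZStatement : JoinZStatement := joinZ_of tentStatement sepStatement

end Pool.Agent.LK
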