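import Pool.Agent.MP_aea6d5_co.Tent
import Pool.Agent.MP_aea6d5_co.TopSym

/-! All fields of the closure of unknotted polygons except the join. -/

set_option autoImplicit false

namespace Pool.Agent.LK

/-- The bump, in the form of `ClosedZ`. -/
theorem unk_bump (E : Finset (Sym2 P3)) (x y d : P3) (hP : IsPolygon E) (hE : Unknotted E)
    (he : s(x, y) ∈ E) (hd : IsUnit3 d) (h1 : x + d ∉ verts E) (h2 : y + d ∉ verts E) :
    Unknotted (bump E x y d) :=
  unknotted_bump E x y d hP.adj hE he hd h1 h2

end Pool.Agent.LK
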