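import Pool.Agent.MP_aea6d5_co.PairZ
import Pool.Agent.MP_aea6d5_co.JoinDone
import Pool.Agent.MP_aea6d5_co.MovesTop
import Pool.Agent.MP_aea6d5_co.PolyClosed
import Pool.Agent.MP_aea6d5_co.PolyBound
import Pool.Agent.MP_aea6d5_co.Analysis

/-! The pointwise bound `n ^ (-2/3)` for closed classes; the class of unknotted polygons is closed. -/

set_option autoImplicit false

namespace Pool.Agent.LK

open Filter Topology

theorem card_bump {E : Finset (Sym2 P3)} {x y d : P3} (he : s(x, y) ∈ E) (hne : x ≠ y)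
    (hx : x + d ∉ verts E) (hy : y + d ∉ verts E) : (bump E x y d).card = E.card + 2 := by
  have hxv : x ∈ verts E := left_mem_verts he
  have hyv : y ∈ verts E := right_mem_verts he
  have h1 : x ≠ x + d := fun h => hx (h ▸ hxv)
  have h2 : x ≠ y + d := fun h => hy (h ▸ hxv)
  have h3 : y ≠ x + d := fun h => hx (h ▸ hyv)
  have h4 : y ≠ y + d := fun h => hy (h ▸ hyv)
  have h5 : x + d ≠ y + d := fun h => hne (add_right_cancel h)
  have hcard : ({s(x, x + d), s(x + d, y + d), s(y + d, y)} : Finset (Sym2 P3)).card = 3 := by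
    rw [Finset.card_eq_three]
    refine ⟨_, _, _, ?_, ?_, ?_, rfl⟩
    · intro h
      rcases Sym2.eq_iff.1 h with ⟨h6, -⟩ | ⟨h6, -⟩
      · exact h1 h6
      · exact h2 h6
    · intro h
      rcases Sym2.eq_iff.1 h with ⟨h6, -⟩ | ⟨h6, -⟩
      · exact h2 h6
      · exact hne h6
    · intro h
      rcases Sym2.eq_iff.1 h with ⟨h6, -⟩ | ⟨h6, -⟩
      · exact h5 h6
      · exact h3 h6.symm
  have hdis : Disjoint (E \ {s(x, y)}) {s(x, x + d), s(x + d, y + d), s(y + d, y)} := by
    rw [Finset.disjoint_left]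
    intro e h6 h7
    rw [Finset.mem_sdiff] at h6
    simp only [Finset.mem_insert, Finset.mem_singleton] at h7
    rcases h7 with h7 | h7 | h7
    · subst h7; exact hx (right_mem_verts h6.1)
    · subst h7; exact hx (left_mem_verts h6.1)
    · subst h7; exact hy (left_mem_verts h6.1)
  unfold bump
  rw [Finset.card_union_of_disjoint hdis, hcard, Finset.card_sdiff_of_subset (by simpa using he),
    Finset.card_singleton]
  have : 0 < E.card := Finset.card_pos.2 ⟨_, he⟩
  omega

/-- A polygon can be enlarged at a highest vertex. -/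
theorem exists_bigger {C : Finset (Sym2 P3) → Prop} (hC : ClosedZ C) {E : Finset (Sym2 P3)}
    (hE : C E) : ∃ E', C E' ∧ E'.card = E.card + 2 := by
  have hP := hC.poly E hE
  obtain ⟨u, hu, hmax⟩ := Set.exists_max_image (verts E) (fun v => v.2.2) (verts_finite E)
    hP.verts_nonempty
  obtain ⟨d, d', hd, hd', hne, h1, h2, -⟩ := hP.two hu
  have key : ∀ v ∈ verts E, u.2.2 ≤ v.2.2 → v + (0, 0, 1) ∉ verts E := by
    intro v hv hle h
    have := hmax _ h
    simp only [Prod.snd_add] at this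
    omega
  have hup : ∀ d : P3, IsUnit3 d → s(u, u + d) ∈ E → 0 ≤ d.2.2 → ∃ E', C E' ∧
      E'.card = E.card + 2 := by
    intro d hd h1 h0
    have a1 := key u hu le_rfl
    have a2 := key (u + d) (right_mem_verts h1) (by simp only [Prod.snd_add]; omega)
    refine ⟨bump E u (u + d) (0, 0, 1), hC.bump E _ _ _ hE h1 (by simp [IsUnit3, Adj]) a1 a2,
      card_bump h1 (hP.adj _ _ h1).ne a1 a2⟩
  by_cases h0 : 0 ≤ d.2.2
  · exact hup d hd h1 h0
  · by_cases h0' : 0 ≤ d'.2.2
    · exact hup d' hd' h2 h0'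
    · exfalso
      apply hne
      rw [isUnit3_iff] at hd hd'
      rcases hd with rfl | rfl | rfl | rfl | rfl | rfl <;>
        rcases hd' with rfl | rfl | rfl | rfl | rfl | rfl <;> simp_all

theorem exists_card {C : Finset (Sym2 P3) → Prop} (hC : ClosedZ C) (k : ℕ) :
    ∃ E, C E ∧ E.card = 4 + 2 * k := by
  induction k with
  | zero => exact ⟨square, hC.square, by decide⟩
  | succ k ih =>
    obtain ⟨E, hE, hk⟩ := ih
    obtain ⟨E', hE', hk'⟩ := exists_bigger hC hE
    exact ⟨E', hE', by omega⟩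

theorem count_finite {C : Finset (Sym2 P3) → Prop} (hC : ClosedZ C) (n : ℕ) :
    {E : Finset (Sym2 P3) | C E ∧ E.card = n ∧ Normed E}.Finite := by
  obtain ⟨K, hK⟩ := boundStatement
  exact (hK n).1.subset fun E hE => ⟨hC.poly E hE.1, hE.2⟩

theorem count_pos {C : Finset (Sym2 P3) → Prop} (hC : ClosedZ C) (k : ℕ) :
    1 ≤ count C (4 + 2 * k) := by
  obtain ⟨E, hE, hk⟩ := exists_card hC k
  obtain ⟨t, ht⟩ := exists_normed (hC.poly E hE).verts_nonempty
  rw [Nat.one_le_iff_ne_zero]
  intro h0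
  unfold count at h0
  rw [Set.ncard_eq_zero (count_finite hC _)] at h0
  have : shift t E ∈ {E : Finset (Sym2 P3) | C E ∧ E.card = 4 + 2 * k ∧ Normed E} :=
    ⟨hC.trans t E hE, by rw [card_shift]; exact hk, ht⟩
  rw [h0] at this
  exact this

theorem count_le {C : Finset (Sym2 P3) → Prop} (hC : ClosedZ C) :
    ∃ B : ℝ, 1 ≤ B ∧ ∀ n, (count C n : ℝ) ≤ B ^ n := by
  obtain ⟨K, hK⟩ := boundStatement
  have hK0 : 0 ≤ K := by
    have := (hK 1).2
    rw [pow_one] at this
    exact le_trans (Nat.cast_nonneg _) this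
  refine ⟨max K 1, le_max_right _ _, fun n => ?_⟩
  have h1 : count C n ≤ count IsPolygon n :=
    Set.ncard_le_ncard (fun E hE => ⟨hC.poly E hE.1, hE.2⟩) (hK n).1
  calc (count C n : ℝ) ≤ (count IsPolygon n : ℝ) := by exact_mod_cast h1
    _ ≤ K ^ n := (hK n).2
    _ ≤ max K 1 ^ n := pow_le_pow_left₀ hK0 (le_max_left _ _) n

theorem frequently_count {C : Finset (Sym2 P3) → Prop} (hC : ClosedZ C) :
    ∃ᶠ n in atTop, 1 ≤ count C n := by
  rw [frequently_atTop]
  intro a
  exact ⟨4 + 2 * a, by omega, count_pos hC a⟩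

/-- The growth rate is a genuine finite limsup, at least one. -/
theorem one_le_growth {C : Finset (Sym2 P3) → Prop} (hC : ClosedZ C) : 1 ≤ growth C := by
  obtain ⟨B, hB, hp⟩ := count_le hC
  refine le_limsup_root hB hp zero_le_one ((frequently_count hC).mono fun n hn => ?_)
  rw [one_pow]; exact_mod_cast hn

/-- **Pointwise bound for closed classes.** -/
theorem mainStatementZ : MainStatementZ := by
  intro C hC
  obtain ⟨B, hB, hp⟩ := count_le hC
  obtain ⟨K, c, hK, h⟩ := pairStatementZ C hC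
  exact pointwise_bound (by norm_num) hB hp hK (frequently_count hC) h

/-- **Unknotted polygons are a closed class.** -/
theorem unknotClosedZ : ClosedZ fun E => IsPolygon E ∧ Unknotted E where
  poly := fun E h => h.1
  square := ⟨polyClosedZ.square, unknotted_square⟩
  trans := fun t E h => ⟨polyClosedZ.trans t E h.1, (unknotted_trans_iff t E).2 h.2⟩
  swapXY := fun E h => ⟨polyClosedZ.swapXY E h.1, (unknotted_swapXY_iff E).2 h.2⟩
  swapYZ := fun E h => ⟨polyClosedZ.swapYZ E h.1, (unknotted_swapYZ_iff E).2 h.2⟩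
  negX := fun E h => ⟨polyClosedZ.negX E h.1, (unknotted_negX_iff E).2 h.2⟩
  bump := fun E x y d h he hd h1 h2 =>
    ⟨polyClosedZ.bump E x y d h.1 he hd h1 h2, unk_bump E x y d h.1 h.2 he hd h1 h2⟩
  flip := fun E x a b h h1 h2 ha hb hab hab' hx =>
    ⟨polyClosedZ.flip E x a b h.1 h1 h2 ha hb hab hab' hx,
      unknotted_flip E x a b h.1 h.2 h1 h2 ha hb hab hab' hx⟩
  join := fun E F x y h hE hF hB he hf =>
    ⟨polyClosedZ.join E F x y h hE.1 hF.1 hB he hf,
      joinZStatement E F x y h hE.1 hE.2 hF.1 hF.2 hB he hf⟩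

end Pool.Agent.LK
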