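import Pool.Agent.MP_aea6d5_co.KPair
import Pool.Agent.MP_aea6d5_co.Main

/-! Parity, monotonicity, and the clean form of the attachment inequality. -/

set_option autoImplicit false

namespace Pool.Agent.LK

/-! ### Parity -/

/-- Parity of a lattice point. -/
def par (u : P3) : ℤ := (u.1 + u.2.1 + u.2.2) % 2

theorem par_adj {u v : P3} (h : Adj u v) : par v = (par u + 1) % 2 := by
  rw [adj_iff, isUnit3_iff] at h
  obtain ⟨u1, u2, u3⟩ := u
  obtain ⟨v1, v2, v3⟩ := v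
  simp only [Prod.mk_sub_mk, Prod.mk.injEq] at h
  simp only [par]
  rcases h with ⟨h1, h2, h3⟩ | ⟨h1, h2, h3⟩ | ⟨h1, h2, h3⟩ | ⟨h1, h2, h3⟩ | ⟨h1, h2, h3⟩ |
    ⟨h1, h2, h3⟩ <;> omega

theorem even_card {E : Finset (Sym2 P3)} (hE : IsPolygon E) : Even E.card := by
  obtain ⟨a, b, hab⟩ := exists_edge hE
  obtain ⟨n, g, hc, -, -⟩ := exists_cyc hE hab
  have key : ∀ i ≤ n, par (g i) = (par (g 0) + i) % 2 := by
    intro i
    induction i with
    | zero => intro _; simp only [par]; omega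
    | succ i ih =>
      intro hi
      have h1 := ih (by omega)
      have h2 := par_adj (hE.adj _ _ (hc.mem_edge (i := i) (by omega)))
      rw [h2, h1]
      push_cast
      omega
  have h1 := key n le_rfl
  rw [hc.per] at h1
  rw [hc.card_eq, Nat.even_iff]
  have h2 : par (g 0) = 0 ∨ par (g 0) = 1 := by simp only [par]; omega
  omega

theorem count_odd {C : Finset (Sym2 P3) → Prop} (hC : ∀ E, C E → IsPolygon E) {n : ℕ}
    (hn : ¬ Even n) : count C n = 0 := by
  rw [count, Set.ncard_eq_zero (finite_class' hC n)]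
  ext E
  simp only [Set.mem_ofPred_eq, Set.mem_empty_iff_false, iff_false, not_and]
  intro h1 h2
  exact absurd (h2 ▸ even_card (hC E h1)) hn

/-! ### Monotonicity -/

/-- An edge in the top plane. -/
structure Top (E : Finset (Sym2 P3)) (q : P3 × P3) : Prop where
  mem : s(q.1, q.2) ∈ E
  eq : q.2.2.2 = q.1.2.2
  max : ∀ v ∈ verts E, v.2.2 ≤ q.1.2.2

theorem exists_top {E : Finset (Sym2 P3)} (hP : IsPolygon E) : ∃ q, Top E q := by
  obtain ⟨u, hu, hmax⟩ := Set.exists_max_image (verts E) (fun v => v.2.2) (verts_finite E)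
    hP.verts_nonempty
  obtain ⟨d, d', hd, hd', hne, h1, h2, -⟩ := hP.two hu
  have key : ∀ d : P3, IsUnit3 d → s(u, u + d) ∈ E → 0 ≤ d.2.2 → ∃ q, Top E q := by
    intro d hd h1 h0
    refine ⟨(u, u + d), h1, ?_, hmax⟩
    have := hmax _ (right_mem_verts h1)
    simp only [Prod.snd_add] at this ⊢
    omega
  by_cases h0 : 0 ≤ d.2.2
  · exact key d hd h1 h0
  · by_cases h0' : 0 ≤ d'.2.2
    · exact key d' hd' h2 h0'
    · exfalso
      apply hne
      rw [isUnit3_iff] at hd hd'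
      rcases hd with rfl | rfl | rfl | rfl | rfl | rfl <;>
        rcases hd' with rfl | rfl | rfl | rfl | rfl | rfl <;> simp_all

/-- The bump upwards. -/
def up1 (E : Finset (Sym2 P3)) (q : P3 × P3) : Finset (Sym2 P3) := bump E q.1 q.2 (0, 0, 1)

theorem Top.free {E : Finset (Sym2 P3)} {q : P3 × P3} (h : Top E q) :
    q.1 + (0, 0, 1) ∉ verts E ∧ q.2 + (0, 0, 1) ∉ verts E := by
  constructor
  · intro h1
    have := h.max _ h1
    simp only [Prod.snd_add] at this
    omega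
  · intro h1
    have := h.max _ h1
    have h2 := h.eq
    simp only [Prod.snd_add] at this
    omega

theorem Top.unique {E : Finset (Sym2 P3)} {q : P3 × P3} (h : Top E q) {u v : P3}
    (huv : s(u, v) ∈ up1 E q) (hu : q.1.2.2 < u.2.2) (hv : q.1.2.2 < v.2.2) :
    s(u, v) = s(q.1 + (0, 0, 1), q.2 + (0, 0, 1)) := by
  rw [up1, mem_bump] at huv
  rcases huv with ⟨h1, -⟩ | h1 | h1 | h1
  · have := h.max _ (left_mem_verts h1)
    omega
  · exfalso
    rw [Sym2.eq_iff] at h1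
    rcases h1 with ⟨rfl, -⟩ | ⟨-, rfl⟩ <;> omega
  · exact h1
  · exfalso
    have h2 := h.eq
    rw [Sym2.eq_iff] at h1
    rcases h1 with ⟨-, rfl⟩ | ⟨rfl, -⟩ <;> omega

theorem Top.height {E : Finset (Sym2 P3)} {q : P3 × P3} (h : Top E q) {u : P3}
    (hu : u ∈ verts (up1 E q)) : u.2.2 ≤ q.1.2.2 + 1 := by
  have h2 := h.eq
  rcases verts_bump h.mem hu with h1 | rfl | rfl
  · have := h.max _ h1
    omega
  · simp
  · simp only [Prod.snd_add]; omega

theorem Top.mem_iff {E : Finset (Sym2 P3)} {q : P3 × P3} (h : Top E q) {f : Sym2 P3} :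
    f ∈ E ↔ (f ∈ up1 E q ∧ f ≠ s(q.1, q.1 + (0, 0, 1)) ∧
      f ≠ s(q.1 + (0, 0, 1), q.2 + (0, 0, 1)) ∧ f ≠ s(q.2 + (0, 0, 1), q.2)) ∨ f = s(q.1, q.2) := by
  obtain ⟨f1, f2⟩ := h.free
  rw [up1, mem_bump]
  constructor
  · intro hf
    by_cases h1 : f = s(q.1, q.2)
    · exact Or.inr h1
    · refine Or.inl ⟨Or.inl ⟨hf, h1⟩, ?_, ?_, ?_⟩
      · rintro rfl; exact f1 (right_mem_verts hf)
      · rintro rfl; exact f1 (left_mem_verts hf)
      · rintro rfl; exact f2 (left_mem_verts hf)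
  · rintro (⟨h1, h2, h3, h4⟩ | h1)
    · rcases h1 with h1 | h1 | h1 | h1
      · exact h1.1
      · exact absurd h1 h2
      · exact absurd h1 h3
      · exact absurd h1 h4
    · rw [h1]; exact h.mem

theorem up1_inj {E E1 : Finset (Sym2 P3)} {q q1 : P3 × P3} (h : Top E q) (h1 : Top E1 q1)
    (he : up1 E q = up1 E1 q1) : E = E1 := by
  have m : s(q.1 + (0, 0, 1), q.2 + (0, 0, 1)) ∈ up1 E q := by
    rw [up1, mem_bump]; tauto
  have m1 : s(q1.1 + (0, 0, 1), q1.2 + (0, 0, 1)) ∈ up1 E1 q1 := by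
    rw [up1, mem_bump]; tauto
  have g1 := h1.height (he ▸ left_mem_verts m)
  have g2 := h.height (he.symm ▸ left_mem_verts m1)
  simp only [Prod.snd_add] at g1 g2
  have hh : q.1.2.2 = q1.1.2.2 := by omega
  have e1 := h.eq
  have e2 := h1.eq
  have hs := h1.unique (u := q.1 + (0, 0, 1)) (v := q.2 + (0, 0, 1)) (he ▸ m)
    (by simp only [Prod.snd_add]; omega) (by simp only [Prod.snd_add]; omega)
  rw [Sym2.eq_iff] at hs
  obtain ⟨qa, qb⟩ := q
  obtain ⟨ra, rb⟩ := q1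
  simp only [add_left_inj] at hs
  apply edge_ext
  intro u v
  rw [h.mem_iff, h1.mem_iff, he]
  rcases hs with ⟨rfl, rfl⟩ | ⟨rfl, rfl⟩
  · exact Iff.rfl
  · simp only
    have s1 : ∀ x y : P3, (s(u, v) = s(x, y)) = (s(u, v) = s(y, x)) := by
      intro x y
      rw [Sym2.eq_swap (a := x)]
    rw [ne_eq, ne_eq, ne_eq, ne_eq, ne_eq, ne_eq, s1 qa (qa + (0, 0, 1)),
      s1 (qa + (0, 0, 1)) (qb + (0, 0, 1)), s1 (qb + (0, 0, 1)) qb, s1 qa qb]
    tauto

theorem Top.normed {E : Finset (Sym2 P3)} {q : P3 × P3} (h : Top E q) (hN : Normed E) :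
    Normed (up1 E q) := by
  have sub : ∀ u ∈ verts E, u ∈ verts (up1 E q) := by
    rintro u ⟨v, huv⟩
    by_cases h1 : s(u, v) = s(q.1, q.2)
    · rw [Sym2.eq_iff] at h1
      rcases h1 with ⟨rfl, -⟩ | ⟨rfl, -⟩
      · exact ⟨q.1 + (0, 0, 1), by rw [up1, mem_bump]; tauto⟩
      · exact right_mem_verts (u := q.2 + (0, 0, 1)) (by rw [up1, mem_bump]; tauto)
    · exact ⟨v, by rw [up1, mem_bump]; exact Or.inl ⟨huv, h1⟩⟩
  obtain ⟨h0, ⟨x, hx, hx0⟩, ⟨y, hy, hy0⟩, ⟨z, hz, hz0⟩⟩ := hN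
  refine ⟨?_, ⟨x, sub x hx, hx0⟩, ⟨y, sub y hy, hy0⟩, ⟨z, sub z hz, hz0⟩⟩
  intro u hu
  rcases verts_bump h.mem hu with h1 | rfl | rfl
  · exact h0 u h1
  · obtain ⟨a, b, c⟩ := h0 _ (left_mem_verts h.mem)
    simp only [Prod.fst_add, Prod.snd_add]
    omega
  · obtain ⟨a, b, c⟩ := h0 _ (right_mem_verts h.mem)
    simp only [Prod.fst_add, Prod.snd_add]
    omega

theorem count_mono {C : Finset (Sym2 P3) → Prop} (hC : MoveClosed C) (n : ℕ) :
    count C n ≤ count C (n + 2) := by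
  have hex : ∀ E : Finset (Sym2 P3), ∃ q, C E → Top E q := by
    intro E
    by_cases hE : C E
    · obtain ⟨q, hq⟩ := exists_top (hC.poly E hE)
      exact ⟨q, fun _ => hq⟩
    · exact ⟨(0, 0), fun h => absurd h hE⟩
  choose q hq using hex
  refine Set.ncard_le_ncard_of_injOn (fun E => up1 E (q E)) ?_ ?_ (finite_class' hC.poly (n + 2))
  · rintro E ⟨h1, h2, h3⟩
    have h := hq E h1
    refine ⟨?_, ?_, h.normed h3⟩
    · exact hC.bump _ _ _ _ h1 h.mem (by simp [IsUnit3, Adj]) h.free.1 h.free.2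
    · change (up1 E (q E)).card = n + 2
      rw [up1, card_bump h.mem (hC.poly E h1 |>.adj _ _ h.mem).ne h.free.1 h.free.2, h2]
  · rintro E ⟨h1, -, -⟩ E1 ⟨g1, -, -⟩ he
    exact up1_inj (hq E h1) (hq E1 g1) he

theorem count_mono' {C : Finset (Sym2 P3) → Prop} (hC : MoveClosed C) (n k : ℕ) :
    count C n ≤ count C (n + 2 * k) := by
  induction k with
  | zero => simp
  | succ k ih =>
    refine ih.trans ((count_mono hC _).trans (le_of_eq ?_))
    congr 1

/-- **The attachment inequality, clean form.** -/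
theorem attach (hB1 : B1Statement) (hNC : NCStatement) (hM : MoveFacts)
    {K : Finset (Sym2 P3)} (hK : IsPolygon K) (hKn : ¬ Unknotted K) :
    ∃ ε : ℝ, 0 < ε ∧ ∃ c : ℕ, Even c ∧ ∀ n : ℕ, ε * (n : ℝ) ^ (2 / 3 : ℝ) *
      (count UClass n : ℝ) ≤ (count (KClass K) (n + c) : ℝ) := by
  obtain ⟨L, B, h⟩ := kpair unknotClosedZ hB1 hNC hM hK hKn
  have hKp : ∀ E, KClass K E → IsPolygon E := fun E h => h.1
  have hKm := KClass.move hM K
  have hKe := even_card hK
  refine ⟨1 / (L * (2 * B + 1) + 1), by positivity, K.card + 2 * B,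
    by rw [Nat.even_add]; simp [hKe], ?_⟩
  intro n
  by_cases hn : Even n
  swap
  · rw [count_odd (fun E h => h.1) hn, Nat.cast_zero, mul_zero]
    positivity
  have h1 : ∀ i ∈ Finset.range (2 * B + 1), (count (KClass K) (n + K.card + i - B) : ℝ) ≤
      (count (KClass K) (n + (K.card + 2 * B)) : ℝ) := by
    intro i hi
    rw [Finset.mem_range] at hi
    by_cases hm : Even (n + K.card + i - B)
    swap
    · rw [count_odd hKp hm, Nat.cast_zero]
      positivity
    obtain ⟨m, hm⟩ := hm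
    obtain ⟨k, hk⟩ := hn
    obtain ⟨l, hl⟩ := hKe
    have h2 := count_mono' hKm (n + K.card + i - B) (k + l + B - m)
    have h3 : n + K.card + i - B + 2 * (k + l + B - m) = n + (K.card + 2 * B) := by omega
    rw [h3] at h2
    exact_mod_cast h2
  have h2 := h n
  have h3 : ∑ i ∈ Finset.range (2 * B + 1), (count (KClass K) (n + K.card + i - B) : ℝ) ≤
      (2 * B + 1) * (count (KClass K) (n + (K.card + 2 * B)) : ℝ) := by
    refine (Finset.sum_le_sum h1).trans ?_
    rw [Finset.sum_const, Finset.card_range, nsmul_eq_mul]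
    push_cast
    exact le_rfl
  have h4 : (n : ℝ) ^ (2 / 3 : ℝ) * (count UClass n : ℝ) ≤
      (L * (2 * B + 1) + 1) * (count (KClass K) (n + (K.card + 2 * B)) : ℝ) := by
    have h5 : (0 : ℝ) ≤ (count (KClass K) (n + (K.card + 2 * B)) : ℝ) := Nat.cast_nonneg _
    calc (n : ℝ) ^ (2 / 3 : ℝ) * (count UClass n : ℝ)
        ≤ L * ((2 * B + 1) * (count (KClass K) (n + (K.card + 2 * B)) : ℝ)) :=
          h2.trans (mul_le_mul_of_nonneg_left h3 (Nat.cast_nonneg _))
      _ ≤ _ := by nlinarith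
  rw [mul_assoc, div_mul_eq_mul_div, one_mul, div_le_iff₀ (by positivity), mul_comm _ (_ + _)]
  exact h4

end Pool.Agent.LK
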