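import Pool.Agent.MP_aea6d5_co.CMoves

/-! Connected sums of lattice polygons with respect to a group of homeomorphisms of space. -/

set_option autoImplicit false

open Set

namespace Pool.Agent.LK

/-- The group contains the translations and the homeomorphisms of bounded support. -/
structure BigGroup (G : Subgroup (R3 ≃ₜ R3)) : Prop where
  trans : ∀ t : R3, Homeomorph.addRight t ∈ G
  bdd : ∀ φ : R3 ≃ₜ R3, Bornology.IsBounded {x | φ x ≠ x} → φ ∈ G

/-- `IsSum G l R`: the polygon `R` is a connected sum of the polygons in the list `l` (and of an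
unknot), where the knot types are taken with respect to the group `G`. -/
inductive IsSum (G : Subgroup (R3 ≃ₜ R3)) :
    List (Finset (Sym2 P3)) → Finset (Sym2 P3) → Prop
  | nil {R : Finset (Sym2 P3)} : IsPolygon R → Unknotted R → IsSum G [] R
  | cons {K : Finset (Sym2 P3)} {l : List (Finset (Sym2 P3))} {E F R : Finset (Sym2 P3)}
      {x y h : ℤ} : IsSum G l E → GClass G K F → Below E F →
      s((x, y, h), (x + 1, y, h)) ∈ E → s((x, y, h + 1), (x + 1, y, h + 1)) ∈ F →
      GClass G (joinZ E F x y h) R → IsSum G (K :: l) R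

theorem SameB.toG {G : Subgroup (R3 ≃ₜ R3)} (hG : BigGroup G) {E F : Finset (Sym2 P3)}
    (h : SameB E F) : ∃ φ ∈ G, φ '' body E = body F := by
  obtain ⟨φ, h1, h2⟩ := h
  exact ⟨φ, hG.bdd φ h1, h2⟩

theorem GClass.trans' {G : Subgroup (R3 ≃ₜ R3)} {K E F : Finset (Sym2 P3)} (h : GClass G K E)
    (hF : IsPolygon F) (h' : ∃ φ ∈ G, φ '' body E = body F) : GClass G K F := by
  obtain ⟨φ, h1, h2⟩ := h.2
  obtain ⟨ψ, h3, h4⟩ := h'
  refine ⟨hF, ψ * φ, G.mul_mem h3 h1, ?_⟩
  change (ψ ∘ φ) '' body K = body F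
  rw [image_comp, h2, h4]

theorem GClass.refl {G : Subgroup (R3 ≃ₜ R3)} {E : Finset (Sym2 P3)} (h : IsPolygon E) :
    GClass G E E := by
  refine ⟨h, 1, G.one_mem, ?_⟩
  change id '' body E = body E
  exact image_id _

theorem body_shift (t : P3) (E : Finset (Sym2 P3)) :
    body (shift t E) = Homeomorph.addRight (toR t) '' body E := by
  refine body_mapE (Homeomorph.addRight (toR t)) (fun u => u + t) ?_ ?_ E
  · intro u
    simp [toR]
  · intro p q
    have h1 : ∀ p : R3, Homeomorph.addRight (toR t) p = toR t + p := by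
      intro p
      simp [add_comm]
    have h2 : (Homeomorph.addRight (toR t) : R3 → R3) = fun x => toR t + x := funext h1
    rw [h1, h1, h2]
    exact segment_translate_image ℝ (toR t) p q

theorem GClass.move {G : Subgroup (R3 ≃ₜ R3)} (hG : BigGroup G) (K : Finset (Sym2 P3)) :
    MoveClosed (GClass G K) := by
  refine ⟨fun E h => h.1, ?_, ?_⟩
  · intro E x y d h h1 h2 h3 h4
    exact h.trans' (isPolygon_bump h.1 h1 h2 h3 h4)
      ((sameB_bump E x y d h.1.adj h1 h2 h3 h4).toG hG)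
  · intro E x a b h h1 h2 h3 h4 h5 h6 h7
    exact h.trans' (isPolygon_flip h.1 h1 h2 h3 h4 h6 h7)
      ((sameB_flip E x a b h.1 h1 h2 h3 h4 h5 h6 h7).toG hG)

theorem GClass.shift {G : Subgroup (R3 ≃ₜ R3)} (hG : BigGroup G) {K E : Finset (Sym2 P3)}
    (h : GClass G K E) (t : P3) : GClass G K (LK.shift t E) :=
  h.trans' (isPolygon_shift h.1 t) ⟨_, hG.trans (toR t), (body_shift t E).symm⟩

theorem GClass.kclass {G : Subgroup (R3 ≃ₜ R3)} {K E : Finset (Sym2 P3)}
    (h : GClass G K E) : KClass K E := by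
  obtain ⟨φ, -, h2⟩ := h.2
  exact ⟨h.1, φ, h2⟩

theorem IsSum.poly {G : Subgroup (R3 ≃ₜ R3)} {l : List (Finset (Sym2 P3))}
    {R : Finset (Sym2 P3)} (h : IsSum G l R) : IsPolygon R := by
  cases h with
  | nil h1 _ => exact h1
  | cons _ _ _ _ _ h1 => exact h1.1

theorem IsSum.move {G : Subgroup (R3 ≃ₜ R3)} (hG : BigGroup G) (l : List (Finset (Sym2 P3))) :
    MoveClosed (IsSum G l) := by
  refine ⟨fun E h => h.poly, ?_, ?_⟩
  · intro E x y d h h1 h2 h3 h4
    cases h with
    | nil h5 h6 =>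
      exact IsSum.nil (isPolygon_bump h5 h1 h2 h3 h4)
        (unknotClosedZ.bump E x y d ⟨h5, h6⟩ h1 h2 h3 h4).2
    | cons k1 k2 k3 k4 k5 k6 =>
      exact IsSum.cons k1 k2 k3 k4 k5 ((GClass.move hG _).bump E x y d k6 h1 h2 h3 h4)
  · intro E x a b h h1 h2 h3 h4 h5 h6 h7
    cases h with
    | nil k5 k6 =>
      exact IsSum.nil (isPolygon_flip k5 h1 h2 h3 h4 h6 h7)
        (unknotClosedZ.flip E x a b ⟨k5, k6⟩ h1 h2 h3 h4 h5 h6 h7).2
    | cons k1 k2 k3 k4 k5 k6 =>
      exact IsSum.cons k1 k2 k3 k4 k5 ((GClass.move hG _).flip E x a b k6 h1 h2 h3 h4 h5 h6 h7)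

theorem IsSum.shift {G : Subgroup (R3 ≃ₜ R3)} (hG : BigGroup G)
    {l : List (Finset (Sym2 P3))} {R : Finset (Sym2 P3)} (h : IsSum G l R) (t : P3) :
    IsSum G l (LK.shift t R) := by
  cases h with
  | nil k5 k6 =>
    have := unknotClosedZ.trans t R ⟨k5, k6⟩
    exact IsSum.nil this.1 this.2
  | cons k1 k2 k3 k4 k5 k6 => exact IsSum.cons k1 k2 k3 k4 k5 (k6.shift hG t)

/-! ### The central reflection -/

theorem negE_bump (E : Finset (Sym2 P3)) (x y d : P3) :
    negE (bump E x y d) = bump (negE E) (-x) (-y) (-d) := by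
  apply edge_ext
  intro u v
  rw [mem_negE, mem_bump, mem_bump, mem_negE]
  have key : ∀ p q : P3, s(-u, -v) = s(p, q) ↔ s(u, v) = s(-p, -q) := by
    intro p q
    rw [Sym2.eq_iff, Sym2.eq_iff]
    constructor <;> rintro (⟨h1, h2⟩ | ⟨h1, h2⟩)
    · left; rw [← h1, ← h2]; simp
    · right; rw [← h1, ← h2]; simp
    · left; rw [h1, h2]; simp
    · right; rw [h1, h2]; simp
  simp only [ne_eq, key, neg_add]

theorem negE_flip (E : Finset (Sym2 P3)) (x a b : P3) :
    negE (flip E x a b) = flip (negE E) (-x) (-a) (-b) := by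
  apply edge_ext
  intro u v
  rw [mem_negE, mem_flip, mem_flip, mem_negE]
  have key : ∀ p q : P3, s(-u, -v) = s(p, q) ↔ s(u, v) = s(-p, -q) := by
    intro p q
    rw [Sym2.eq_iff, Sym2.eq_iff]
    constructor <;> rintro (⟨h1, h2⟩ | ⟨h1, h2⟩)
    · left; rw [← h1, ← h2]; simp
    · right; rw [← h1, ← h2]; simp
    · left; rw [h1, h2]; simp
    · right; rw [h1, h2]; simp
  simp only [ne_eq, key, neg_add]

theorem MoveClosed.negE {C : Finset (Sym2 P3) → Prop} (hC : MoveClosed C) :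
    MoveClosed (fun E => C (LK.negE E)) := by
  have nv : ∀ {E : Finset (Sym2 P3)} {u : P3}, u ∉ verts E → -u ∉ verts (LK.negE E) := by
    intro E u h h'
    exact h (by simpa using mem_verts_negE.1 h')
  have ne : ∀ {E : Finset (Sym2 P3)} {u v : P3}, s(u, v) ∈ E → s(-u, -v) ∈ LK.negE E := by
    intro E u v h
    rw [mem_negE]
    simpa using h
  refine ⟨?_, ?_, ?_⟩
  · intro E h
    have := isPolygon_negE (hC.poly _ h)
    rwa [negE_negE] at this
  · intro E x y d h h1 h2 h3 h4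
    rw [negE_bump]
    refine hC.bump _ _ _ _ h (ne h1) (isUnit3_neg h2) ?_ ?_
    · rw [← neg_add]; exact nv h3
    · rw [← neg_add]; exact nv h4
  · intro E x a b h h1 h2 h3 h4 h5 h6 h7
    rw [negE_flip]
    refine hC.flip _ _ _ _ h ?_ ?_ (isUnit3_neg h3) (isUnit3_neg h4) ?_ ?_ ?_
    · rw [← neg_add]; exact ne h1
    · rw [← neg_add, ← neg_add]; exact ne h2
    · exact fun h8 => h5 (neg_injective h8)
    · exact fun h8 => h6 (neg_injective h8)
    · rw [← neg_add]; exact nv h7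

end Pool.Agent.LK
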