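import Pool.Agent.MP_aea6d5_co.KMono
import Pool.Agent.MP_aea6d5_co.KMoves

/-! Theorem B: knot types with respect to a group of homeomorphisms, the gap of the exponents. -/

set_option autoImplicit false

open Filter Topology

namespace Pool.Agent.LK

/-! ### Orientation -/

/-- The reflection of space which exchanges the first two coordinates. -/
def swapR : R3 ≃ₜ R3 where
  toFun p := (p.2.1, p.1, p.2.2)
  invFun p := (p.2.1, p.1, p.2.2)
  left_inv _ := rfl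
  right_inv _ := rfl
  continuous_toFun := by fun_prop
  continuous_invFun := by fun_prop

/-- The same as a linear map. -/
def swapL : R3 →ₗ[ℝ] R3 where
  toFun p := (p.2.1, p.1, p.2.2)
  map_add' _ _ := rfl
  map_smul' _ _ := rfl

theorem body_swap (E : Finset (Sym2 P3)) :
    body (mapE (fun u => (u.2.1, u.1, u.2.2)) E) = swapR '' body E :=
  body_mapE swapR _ (fun _ => rfl) (fun p q => image_segment ℝ swapL.toAffineMap p q) E

/-- The polygons `E` of the knot type of `K` with respect to the group `G` of homeomorphisms of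
space. -/
def GClass (G : Subgroup (R3 ≃ₜ R3)) (K E : Finset (Sym2 P3)) : Prop :=
  IsPolygon E ∧ ∃ φ ∈ G, φ '' body K = body E

theorem count_le_two (G : Subgroup (R3 ≃ₜ R3)) (hG : ∀ φ : R3 ≃ₜ R3, φ ∈ G ∨ φ * swapR ∈ G)
    (K : Finset (Sym2 P3)) (n : ℕ) : count (KClass K) n ≤ 2 * count (GClass G K) n := by
  set S : Set (Finset (Sym2 P3)) := {E | GClass G K E ∧ E.card = n ∧ Normed E} with hS
  have hfin : S.Finite := finite_class' (fun E h => h.1) n
  have hcov : {E | KClass K E ∧ E.card = n ∧ Normed E} ⊆ S ∪ (mapE sw) ⁻¹' S := by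
    rintro E ⟨⟨hE, φ, hφ⟩, hn, hN⟩
    by_cases h1 : φ ∈ G
    · exact Or.inl ⟨⟨hE, φ, h1, hφ⟩, hn, hN⟩
    · right
      have h2 : φ * swapR ∈ G := (hG φ).resolve_left h1
      have h3 : swapR * φ ∈ G := by
        rcases hG (swapR * φ) with h3 | h3
        · exact h3
        · exfalso
          apply h1
          have h4 : swapR ∈ G := by
            have h5 := G.mul_mem h3 (G.inv_mem h2)
            have h6 : swapR * φ * swapR * (φ * swapR)⁻¹ = swapR := by group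
            rwa [h6] at h5
          have h5 := G.mul_mem h2 (G.inv_mem h4)
          have h6 : φ * swapR * swapR⁻¹ = φ := by group
          rwa [h6] at h5
      refine ⟨⟨polyClosedZ.swapXY E hE, swapR * φ, h3, ?_⟩, ?_, hN.sw⟩
      · change (swapR ∘ φ) '' body K = body (mapE (fun u => (u.2.1, u.1, u.2.2)) E)
        rw [Set.image_comp, hφ, body_swap]
      · rw [card_mapE sw_inj, hn]
  have i1 : Function.Injective (mapE sw) := mapE_inj sw_inj
  have f1 : ((mapE sw) ⁻¹' S).Finite := hfin.preimage i1.injOn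
  have c1 : ((mapE sw) ⁻¹' S).ncard ≤ S.ncard :=
    Set.ncard_le_ncard_of_injOn (mapE sw) (fun E hE => hE) i1.injOn hfin
  have h1 : count (KClass K) n ≤ (S ∪ (mapE sw) ⁻¹' S).ncard :=
    Set.ncard_le_ncard hcov (hfin.union f1)
  refine h1.trans ((Set.ncard_union_le _ _).trans ?_)
  change _ ≤ 2 * S.ncard
  omega

/-- **The attachment inequality for a group of homeomorphisms.** -/
theorem attachG (hB1 : B1Statement) (hNC : NCStatement) (G : Subgroup (R3 ≃ₜ R3))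
    (hG : ∀ φ : R3 ≃ₜ R3, φ ∈ G ∨ φ * swapR ∈ G)
    {K : Finset (Sym2 P3)} (hK : IsPolygon K) (hKn : ¬ Unknotted K) :
    ∃ ε : ℝ, 0 < ε ∧ ∃ c : ℕ, Even c ∧ ∀ n : ℕ, ε * (n : ℝ) ^ (2 / 3 : ℝ) *
      (count UClass n : ℝ) ≤ (count (GClass G K) (n + c) : ℝ) := by
  obtain ⟨ε, hε, c, hc, h⟩ := attach hB1 hNC moveFacts hK hKn
  refine ⟨ε / 2, by positivity, c, hc, fun n => ?_⟩
  have h1 := h n
  have h2 : (count (KClass K) (n + c) : ℝ) ≤ 2 * (count (GClass G K) (n + c) : ℝ) := by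
    exact_mod_cast count_le_two G hG K (n + c)
  linarith

/-! ### Consequences -/

/-- The gap of the exponents. -/
theorem exponent_gap {a b : ℕ → ℕ} {ε μ A B α β s : ℝ} {c : ℕ} (hc : Even c) (hε : 0 < ε)
    (hμ : 0 < μ) (hA : 0 < A) (h : ∀ n : ℕ, ε * (n : ℝ) ^ s * (a n : ℝ) ≤ (b (n + c) : ℝ))
    (ha : Tendsto (fun k : ℕ => (a (2 * k) : ℝ) / (((2 * k : ℕ) : ℝ) ^ (α - 3) * μ ^ (2 * k)))
      atTop (𝓝 A))
    (hb : Tendsto (fun k : ℕ => (b (2 * k) : ℝ) / (((2 * k : ℕ) : ℝ) ^ (β - 3) * μ ^ (2 * k)))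
      atTop (𝓝 B)) : α + s ≤ β := by
  by_contra hlt
  push Not at hlt
  obtain ⟨l, hl⟩ := hc
  set γ : ℝ := α + s - β with hγ
  have hγ0 : 0 < γ := by rw [hγ]; linarith
  have hb' := hb.comp (tendsto_add_atTop_nat l)
  have t1 : Tendsto (fun k : ℕ => ((2 * k : ℕ) : ℝ)) atTop atTop :=
    tendsto_natCast_atTop_atTop.comp (tendsto_id.const_mul_atTop' (by norm_num))
  have t2 : Tendsto (fun k : ℕ => ((2 * k : ℕ) : ℝ) ^ γ) atTop atTop :=
    (tendsto_rpow_atTop hγ0).comp t1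
  have t3 : Tendsto (fun k : ℕ => (ε * ((a (2 * k) : ℝ) /
      (((2 * k : ℕ) : ℝ) ^ (α - 3) * μ ^ (2 * k)))) * ((2 * k : ℕ) : ℝ) ^ γ) atTop atTop :=
    (ha.const_mul ε).pos_mul_atTop (by positivity) t2
  have t4 : Tendsto (fun k : ℕ => ((2 * (k + l) : ℕ) : ℝ) / ((2 * k : ℕ) : ℝ)) atTop (𝓝 1) := by
    have e1 : Tendsto (fun k : ℕ => 1 + ((2 * l : ℕ) : ℝ) / ((2 * k : ℕ) : ℝ)) atTop
        (𝓝 (1 + 0)) := (t1.const_div_atTop _).const_add 1
    rw [add_zero] at e1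
    refine e1.congr' ?_
    filter_upwards [eventually_gt_atTop 0] with k hk
    have : ((2 * k : ℕ) : ℝ) ≠ 0 := by positivity
    field_simp
    push_cast
    ring
  have t5 : Tendsto (fun k : ℕ => (((2 * (k + l) : ℕ) : ℝ) / ((2 * k : ℕ) : ℝ)) ^ (β - 3)) atTop
      (𝓝 1) := by
    have := t4.rpow_const (p := β - 3) (Or.inl one_ne_zero)
    rwa [Real.one_rpow] at this
  have t6 := (hb'.mul_const (μ ^ (2 * l))).mul t5
  refine not_tendsto_nhds_of_tendsto_atTop (tendsto_atTop_mono' atTop ?_ t3) _ t6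
  filter_upwards [eventually_gt_atTop 0] with k hk
  have h1 := h (2 * k)
  have e2 : 2 * k + c = 2 * (k + l) := by omega
  rw [e2] at h1
  simp only [Function.comp_apply]
  set x : ℝ := ((2 * k : ℕ) : ℝ) with hx
  set y : ℝ := ((2 * (k + l) : ℕ) : ℝ) with hy
  have hx0 : 0 < x := by rw [hx]; positivity
  have hy0 : 0 < y := by rw [hy]; positivity
  have p1 : x ^ γ = x ^ s * x ^ (α - 3) / x ^ (β - 3) := by
    rw [← Real.rpow_add hx0, ← Real.rpow_sub hx0, hγ]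
    congr 1
    ring
  have p2 : (y / x) ^ (β - 3) = y ^ (β - 3) / x ^ (β - 3) := Real.div_rpow hy0.le hx0.le _
  have p3 : μ ^ (2 * (k + l)) = μ ^ (2 * k) * μ ^ (2 * l) := by rw [mul_add, pow_add]
  rw [p1, p2, p3]
  have q1 : 0 < x ^ (α - 3) := Real.rpow_pos_of_pos hx0 _
  have q2 : 0 < x ^ (β - 3) := Real.rpow_pos_of_pos hx0 _
  have q3 : 0 < y ^ (β - 3) := Real.rpow_pos_of_pos hy0 _
  have q4 : 0 < μ ^ (2 * k) := pow_pos hμ _
  have q5 : 0 < μ ^ (2 * l) := pow_pos hμ _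
  have l1 : ε * ((a (2 * k) : ℝ) / (x ^ (α - 3) * μ ^ (2 * k))) *
      (x ^ s * x ^ (α - 3) / x ^ (β - 3)) =
      (ε * x ^ s * (a (2 * k) : ℝ)) / (μ ^ (2 * k) * x ^ (β - 3)) := by
    field_simp
  have l2 : (b (2 * (k + l)) : ℝ) / (y ^ (β - 3) * (μ ^ (2 * k) * μ ^ (2 * l))) * μ ^ (2 * l) *
      (y ^ (β - 3) / x ^ (β - 3)) = (b (2 * (k + l)) : ℝ) / (μ ^ (2 * k) * x ^ (β - 3)) := by
    field_simp
  rw [l1, l2]
  exact div_le_div_of_nonneg_right h1 (by positivity)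

/-- For infinitely many `n` the ratio is large. -/
theorem infinitely_often {a b : ℕ → ℕ} {ε D : ℝ} {c : ℕ} (hc : Even c) (hε : 0 < ε)
    (hD : 1 ≤ D) (ha : ∀ n, (a n : ℝ) ≤ D ^ n) (ha0 : ∀ k, 1 ≤ a (4 + 2 * k))
    (h : ∀ n : ℕ, ε * (n : ℝ) ^ (2 / 3 : ℝ) * (a n : ℝ) ≤ (b (n + c) : ℝ)) :
    ∃ δ : ℝ, 0 < δ ∧ ∃ᶠ n : ℕ in atTop, 0 < a n ∧
      δ * (n : ℝ) ^ (2 / 3 : ℝ) * (a n : ℝ) ≤ (b n : ℝ) := by
  have hD0 : 0 < D := by linarith
  refine ⟨ε / (4 * D ^ c), by positivity, ?_⟩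
  rw [frequently_atTop]
  intro N
  by_contra hcon
  push Not at hcon
  obtain ⟨l, hl⟩ := hc
  set N' : ℕ := 4 + 2 * (N + c) with hN'
  have hpos : ∀ k, 1 ≤ a (N' + k * c) := by
    intro k
    have e : N' + k * c = 4 + 2 * (N + c + k * l) := by
      rw [hN', hl]; ring
    rw [e]; exact ha0 _
  have step : ∀ k, 2 * D ^ c * (a (N' + k * c) : ℝ) ≤ (a (N' + (k + 1) * c) : ℝ) := by
    intro k
    set n := N' + k * c with hn
    have e : N' + (k + 1) * c = n + c := by rw [hn]; ring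
    rw [e]
    have h1 := h n
    have hpos' := hpos (k + 1)
    rw [e] at hpos'
    have h2 := hcon (n + c) (by omega) (by omega)
    have hn0 : (0 : ℝ) < n := by
      have : 0 < n := by omega
      exact_mod_cast this
    have h3 : ((n + c : ℕ) : ℝ) ^ (2 / 3 : ℝ) ≤ 2 * (n : ℝ) ^ (2 / 3 : ℝ) := by
      have h4 : ((n + c : ℕ) : ℝ) ≤ 2 * (n : ℝ) := by
        have : n + c ≤ 2 * n := by omega
        exact_mod_cast this
      calc ((n + c : ℕ) : ℝ) ^ (2 / 3 : ℝ) ≤ (2 * (n : ℝ)) ^ (2 / 3 : ℝ) :=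
            Real.rpow_le_rpow (Nat.cast_nonneg _) h4 (by norm_num)
        _ = 2 ^ (2 / 3 : ℝ) * (n : ℝ) ^ (2 / 3 : ℝ) :=
            Real.mul_rpow (by norm_num) hn0.le
        _ ≤ 2 * (n : ℝ) ^ (2 / 3 : ℝ) := by
            refine mul_le_mul_of_nonneg_right ?_ (by positivity)
            calc (2 : ℝ) ^ (2 / 3 : ℝ) ≤ 2 ^ (1 : ℝ) :=
                  Real.rpow_le_rpow_of_exponent_le (by norm_num) (by norm_num)
              _ = 2 := Real.rpow_one 2
    have hx : 0 < (n : ℝ) ^ (2 / 3 : ℝ) := Real.rpow_pos_of_pos hn0 _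
    have h5 : ε * (n : ℝ) ^ (2 / 3 : ℝ) * (a n : ℝ) ≤
        ε / (4 * D ^ c) * (2 * (n : ℝ) ^ (2 / 3 : ℝ)) * (a (n + c) : ℝ) := by
      refine h1.trans (h2.le.trans ?_)
      refine mul_le_mul_of_nonneg_right ?_ (Nat.cast_nonneg _)
      exact mul_le_mul_of_nonneg_left h3 (by positivity)
    have hDc : 0 < D ^ c := by positivity
    have h6 : ε / (4 * D ^ c) * (2 * (n : ℝ) ^ (2 / 3 : ℝ)) * (a (n + c) : ℝ) =
        (ε * (n : ℝ) ^ (2 / 3 : ℝ)) * ((a (n + c) : ℝ) / (2 * D ^ c)) := by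
      field_simp
      ring
    rw [h6] at h5
    have h7 := le_of_mul_le_mul_left h5 (by positivity)
    rw [le_div_iff₀ (by positivity)] at h7
    linarith
  have grow : ∀ k, (2 * D ^ c) ^ k ≤ (a (N' + k * c) : ℝ) := by
    intro k
    induction k with
    | zero =>
      rw [pow_zero]
      exact_mod_cast hpos 0
    | succ k ih =>
      refine le_trans ?_ (step k)
      rw [pow_succ, mul_comm]
      exact mul_le_mul_of_nonneg_left ih (by positivity)
  have bd : ∀ k : ℕ, (2 : ℝ) ^ k ≤ D ^ N' := by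
    intro k
    have h1 := (grow k).trans (ha _)
    rw [mul_pow, pow_add, mul_comm k c, pow_mul] at h1
    exact le_of_mul_le_mul_right h1 (by positivity)
  obtain ⟨k, hk⟩ := pow_unbounded_of_one_lt (D ^ N') (by norm_num : (1 : ℝ) < 2)
  exact absurd (bd k) (not_le.2 hk)

/-- **Theorem B**, from the two topological statements. -/
theorem theoremB_of (hB1 : B1Statement) (hNC : NCStatement) (G : Subgroup (R3 ≃ₜ R3))
    (hG : ∀ φ : R3 ≃ₜ R3, φ ∈ G ∨ φ * swapR ∈ G)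
    (K : Finset (Sym2 P3)) (hK : IsPolygon K) (hKn : ¬ Unknotted K) :
    (∃ ε : ℝ, 0 < ε ∧ ∃ c : ℕ, Even c ∧ ∀ n : ℕ, ε * (n : ℝ) ^ (2 / 3 : ℝ) *
      (count UClass n : ℝ) ≤ (count (GClass G K) (n + c) : ℝ)) ∧
    (∃ δ : ℝ, 0 < δ ∧ ∃ᶠ n : ℕ in atTop, 0 < count UClass n ∧
      δ * (n : ℝ) ^ (2 / 3 : ℝ) * (count UClass n : ℝ) ≤ (count (GClass G K) n : ℝ)) ∧
    (∀ A B α β : ℝ, 0 < A → growth (GClass G K) = growth UClass →
      Tendsto (fun k : ℕ => (count UClass (2 * k) : ℝ) /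
        (((2 * k : ℕ) : ℝ) ^ (α - 3) * growth UClass ^ (2 * k))) atTop (𝓝 A) →
      Tendsto (fun k : ℕ => (count (GClass G K) (2 * k) : ℝ) /
        (((2 * k : ℕ) : ℝ) ^ (β - 3) * growth (GClass G K) ^ (2 * k))) atTop (𝓝 B) →
      α + 2 / 3 ≤ β) := by
  obtain ⟨ε, hε, c, hc, h⟩ := attachG hB1 hNC G hG hK hKn
  refine ⟨⟨ε, hε, c, hc, h⟩, ?_, ?_⟩
  · obtain ⟨D, hD, hD'⟩ := count_le unknotClosedZ
    exact infinitely_often hc hε hD hD' (count_pos unknotClosedZ) h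
  · intro A B α β hA hgr h1 h2
    rw [hgr] at h2
    have := one_le_growth unknotClosedZ
    exact exponent_gap hc hε (lt_of_lt_of_le one_pos this) hA h h1 h2

end Pool.Agent.LK
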