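import Pool.Agent.MP_aea6d5_co.Geo

/-! Contacts: many nearest pairs above a finite set of lattice points. -/

set_option autoImplicit false

namespace Pool.Agent.LK

/-- In every column that meets `D` there is a highest point at distance at most `R` from `D`,
together with a nearest point of `D`. -/
theorem exists_contact_column (R : ℤ) (hR : 2 ≤ R) (D : Finset P3) (c : P3) (hc : c ∈ D) :
    ∃ d0 ∈ D, ∃ N : P3, (d0 + N).1 = c.1 ∧ (d0 + N).2.1 = c.2.1 ∧ 0 ≤ N.2.2 ∧ nsq N ≤ R ^ 2 ∧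
      (R - 1) ^ 2 < nsq N ∧
      ∀ s : P3, nsq s < 2 * dot N s → ∀ t : ℤ, 0 ≤ t → d0 + s + (0, 0, t) ∉ D := by
  -- heights `z` at which `(c.1, c.2.1, z)` is within `R` of `D`
  have hne : ∃ z : ℤ, ∃ d ∈ D, nsq ((c.1, c.2.1, z) - d) ≤ R ^ 2 :=
    ⟨c.2.2, c, hc, by simp [nsq, dot]; positivity⟩
  have hbdd : ∃ b : ℤ, ∀ z : ℤ, (∃ d ∈ D, nsq ((c.1, c.2.1, z) - d) ≤ R ^ 2) → z ≤ b := by
    obtain ⟨b, hb⟩ := (D.image fun d : P3 => d.2.2).bddAbove
    refine ⟨b + R, ?_⟩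
    rintro z ⟨d, hd, h⟩
    have h1 : d.2.2 ≤ b := hb (by simpa using ⟨d.1, d.2.1, hd⟩)
    by_contra hlt
    push Not at hlt
    have h2 : R < z - d.2.2 := by omega
    simp only [nsq, dot, Prod.fst_sub, Prod.snd_sub] at h
    nlinarith [mul_self_nonneg (c.1 - d.1), mul_self_nonneg (c.2.1 - d.2.1)]
  obtain ⟨z, ⟨d1, hd1, hz1⟩, hz⟩ := Int.exists_greatest_of_bdd hbdd hne
  obtain ⟨d0, hd0, hmin⟩ := D.exists_min_image (fun d => nsq ((c.1, c.2.1, z) - d)) ⟨c, hc⟩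
  set N : P3 := (c.1, c.2.1, z) - d0 with hN
  have hNR : nsq N ≤ R ^ 2 := (hmin d1 hd1).trans hz1
  have hup : ∀ t : ℤ, 0 < t → ∀ d ∈ D, R ^ 2 < nsq ((c.1, c.2.1, z + t) - d) := by
    intro t ht d hd
    by_contra hle
    push Not at hle
    have := hz (z + t) ⟨d, hd, hle⟩
    omega
  have hup1 : R ^ 2 < nsq N + 2 * N.2.2 + 1 := by
    have h := hup 1 one_pos d0 hd0
    have e : nsq ((c.1, c.2.1, z + 1) - d0) = nsq N + 2 * N.2.2 + 1 := by
      simp only [hN, nsq, dot, Prod.fst_sub, Prod.snd_sub]; ring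
    rwa [e] at h
  have hN0 : 0 ≤ N.2.2 := by omega
  refine ⟨d0, hd0, N, by simp [hN], by simp [hN], hN0, hNR, ?_, ?_⟩
  · by_contra hle
    push Not at hle
    have h3 : N.2.2 ≤ R - 1 := by
      by_contra hgt
      push Not at hgt
      have : nsq N = N.1 * N.1 + N.2.1 * N.2.1 + N.2.2 * N.2.2 := rfl
      nlinarith [mul_self_nonneg N.1, mul_self_nonneg N.2.1]
    nlinarith
  · intro s hs t ht hmem
    have e : nsq ((c.1, c.2.1, z + t) - (d0 + s + (0, 0, t))) = nsq N - 2 * dot N s + nsq s := by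
      simp only [hN, nsq, dot, Prod.fst_sub, Prod.snd_sub, Prod.fst_add, Prod.snd_add]; ring
    rcases ht.eq_or_lt with rfl | ht
    · have h := hmin _ hmem
      simp only [add_zero] at e
      rw [e] at h
      change nsq N ≤ _ at h
      omega
    · have h := hup t ht _ hmem
      rw [e] at h
      omega

/-- Many contacts. -/
theorem exists_contacts (R : ℤ) (hR : 2 ≤ R) (D : Finset P3) :
    ∃ T : Finset P3, T ⊆ D ∧
      (D.image fun d => (d.1, d.2.1)).card ≤ ((2 * R + 1) ^ 2).toNat * T.card ∧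
      ∀ d0 ∈ T, ∃ N : P3, 0 ≤ N.2.2 ∧ nsq N ≤ R ^ 2 ∧ (R - 1) ^ 2 < nsq N ∧
        ∀ s : P3, nsq s < 2 * dot N s → ∀ t : ℤ, 0 ≤ t → d0 + s + (0, 0, t) ∉ D := by
  classical
  -- the set of all contacts
  set T : Finset P3 := D.filter fun d0 => ∃ N : P3, 0 ≤ N.2.2 ∧ nsq N ≤ R ^ 2 ∧
    (R - 1) ^ 2 < nsq N ∧
    ∀ s : P3, nsq s < 2 * dot N s → ∀ t : ℤ, 0 ≤ t → d0 + s + (0, 0, t) ∉ D with hT
  refine ⟨T, Finset.filter_subset _ _, ?_, fun d0 hd0 => (Finset.mem_filter.1 hd0).2⟩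
  have hcov : (D.image fun d => (d.1, d.2.1)) ⊆
      T.biUnion fun d0 => (Finset.Icc (d0.1 - R) (d0.1 + R)) ×ˢ
        (Finset.Icc (d0.2.1 - R) (d0.2.1 + R)) := by
    intro q hq
    obtain ⟨c, hc, rfl⟩ := Finset.mem_image.1 hq
    obtain ⟨d0, hd0, N, h1, h2, h3, h4, h5, h6⟩ := exists_contact_column R hR D c hc
    rw [Finset.mem_biUnion]
    refine ⟨d0, Finset.mem_filter.2 ⟨hd0, N, h3, h4, h5, h6⟩, ?_⟩
    have e : nsq N = N.1 * N.1 + N.2.1 * N.2.1 + N.2.2 * N.2.2 := rfl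
    have s1 := mul_self_nonneg N.1
    have s2 := mul_self_nonneg N.2.1
    have s3 := mul_self_nonneg N.2.2
    have b1 : |N.1| ≤ R := abs_le_of_sq_le_sq (by linarith) (by omega)
    have b2 : |N.2.1| ≤ R := abs_le_of_sq_le_sq (by linarith) (by omega)
    rw [abs_le] at b1 b2
    simp only [Prod.fst_add, Prod.snd_add] at h1 h2
    simp only [Finset.mem_product, Finset.mem_Icc]
    omega
  refine (Finset.card_le_card hcov).trans ?_
  refine Finset.card_biUnion_le.trans ?_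
  rw [mul_comm, ← smul_eq_mul, ← Finset.sum_const]
  refine Finset.sum_le_sum fun d0 _ => ?_
  rw [Finset.card_product, Int.card_Icc, Int.card_Icc, sq, Int.toNat_mul (by omega) (by omega)]
  apply le_of_eq
  congr 2 <;> ring

end Pool.Agent.LK
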