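import Pool.Agent.MP_aea6d5_co.Basic
import Pool.Agent.MP_aea6d5_co.Stack
import Pool.Agent.MP_aea6d5_co.PolyCyc

/-! At least one third of the polygons have a large projection (Loomis and Whitney). -/

set_option autoImplicit false

namespace Pool.Agent.LK

/-- The Loomis and Whitney inequality for finite sets of lattice points. -/
theorem loomis_whitney (V : Finset P3) : V.card ^ 2 ≤
    (V.image fun u => (u.1, u.2.1)).card * ((V.image fun u => (u.1, u.2.2)).card *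
      (V.image fun u => (u.2.1, u.2.2)).card) := by
  classical
  set A := V.image fun u => (u.1, u.2.1) with hA
  have h1 : V.card = ∑ c ∈ A, (V.filter fun u => (u.1, u.2.1) = c).card :=
    Finset.card_eq_sum_card_image (fun u : P3 => (u.1, u.2.1)) V
  have h2 : V.card ^ 2 ≤ A.card * ∑ c ∈ A, (V.filter fun u => (u.1, u.2.1) = c).card ^ 2 := by
    rw [h1]; exact sq_sum_le_card_mul_sum_sq
  refine h2.trans (Nat.mul_le_mul_left _ ?_)
  have h3 : ∑ c ∈ A, (V.filter fun u => (u.1, u.2.1) = c).card ^ 2 =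
      (A.sigma fun c => (V.filter fun u => (u.1, u.2.1) = c) ×ˢ
        (V.filter fun u => (u.1, u.2.1) = c)).card := by
    rw [Finset.card_sigma]
    refine Finset.sum_congr rfl fun c _ => ?_
    rw [Finset.card_product, sq]
  rw [h3, ← Finset.card_product]
  refine Finset.card_le_card_of_injOn
    (fun p => ((p.2.1.1, p.2.1.2.2), (p.2.2.2.1, p.2.2.2.2))) ?_ ?_
  · rintro ⟨c, u, v⟩ h
    simp only [Finset.coe_sigma, Set.mem_sigma_iff, Finset.mem_coe, Finset.mem_product,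
      Finset.mem_filter] at h
    simp only [Finset.coe_product, Set.mem_prod, Finset.mem_coe]
    exact ⟨Finset.mem_image_of_mem (fun u : P3 => (u.1, u.2.2)) h.2.1.1,
      Finset.mem_image_of_mem (fun u : P3 => (u.2.1, u.2.2)) h.2.2.1⟩
  · rintro ⟨c, u, v⟩ h ⟨c', u', v'⟩ h' he
    simp only [Finset.coe_sigma, Set.mem_sigma_iff, Finset.mem_coe, Finset.mem_product,
      Finset.mem_filter] at h h'
    obtain ⟨-, ⟨-, rfl⟩, ⟨-, hv⟩⟩ := h
    obtain ⟨-, ⟨-, rfl⟩, ⟨-, hv'⟩⟩ := h'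
    obtain ⟨u1, u2, u3⟩ := u
    obtain ⟨v1, v2, v3⟩ := v
    obtain ⟨w1, w2, w3⟩ := u'
    obtain ⟨x1, x2, x3⟩ := v'
    simp only [Prod.mk.injEq] at hv hv' he
    obtain ⟨⟨rfl, rfl⟩, rfl, rfl⟩ := he
    obtain ⟨rfl, rfl⟩ := hv
    obtain ⟨rfl, rfl⟩ := hv'
    rfl

/-- Swap of the last two coordinates. -/
def sz (u : P3) : P3 := (u.1, u.2.2, u.2.1)

theorem sz_sz (u : P3) : sz (sz u) = u := rfl

theorem sz_inj : Function.Injective sz := fun u v h => by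
  have := congrArg sz h; rwa [sz_sz, sz_sz] at this

theorem mem_verts_sz {E : Finset (Sym2 P3)} {u : P3} : u ∈ verts (mapE sz E) ↔ sz u ∈ verts E := by
  have key : ∀ u v : P3, s(u, v) ∈ mapE sz E ↔ s(sz u, sz v) ∈ E := fun u v => by
    have := mem_mapE sz_inj (E := E) (u := sz u) (v := sz v)
    rwa [sz_sz, sz_sz] at this
  constructor
  · rintro ⟨v, hv⟩; exact ⟨sz v, (key _ _).1 hv⟩
  · rintro ⟨v, hv⟩; exact ⟨sz v, (key _ _).2 (by rwa [sz_sz])⟩

theorem Normed.sw {E : Finset (Sym2 P3)} (h : Normed E) : Normed (mapE sw E) := by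
  obtain ⟨h0, ⟨x, hx, hx0⟩, ⟨y, hy, hy0⟩, ⟨z, hz, hz0⟩⟩ := h
  refine ⟨fun u hu => ?_, ⟨LK.sw y, mem_verts_sw.2 hy, hy0⟩, ⟨LK.sw x, mem_verts_sw.2 hx, hx0⟩,
    ⟨LK.sw z, mem_verts_sw.2 hz, hz0⟩⟩
  obtain ⟨a, b, c⟩ := h0 _ (mem_verts_sw.1 hu)
  exact ⟨b, a, c⟩

theorem Normed.sz {E : Finset (Sym2 P3)} (h : Normed E) : Normed (mapE sz E) := by
  obtain ⟨h0, ⟨x, hx, hx0⟩, ⟨y, hy, hy0⟩, ⟨z, hz, hz0⟩⟩ := h
  refine ⟨fun u hu => ?_, ⟨LK.sz x, mem_verts_sz.2 hx, hx0⟩, ⟨LK.sz z, mem_verts_sz.2 hz, hz0⟩,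
    ⟨LK.sz y, mem_verts_sz.2 hy, hy0⟩⟩
  obtain ⟨a, b, c⟩ := h0 _ (mem_verts_sz.1 hu)
  exact ⟨a, c, b⟩

theorem card_mapE {g : P3 → P3} (hg : Function.Injective g) (E : Finset (Sym2 P3)) :
    (mapE g E).card = E.card :=
  Finset.card_image_of_injective _ (Sym2.map.injective hg)

theorem mapE_inj {g : P3 → P3} (hg : Function.Injective g) : Function.Injective (mapE g) :=
  Finset.image_injective (Sym2.map.injective hg)

theorem ncard_image_verts {E : Finset (Sym2 P3)} (f : P3 → ℤ × ℤ) :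
    (((verts_finite E).toFinset).image f).card = (f '' verts E).ncard := by
  classical
  rw [← Set.ncard_coe_finset, Finset.coe_image, Set.Finite.coe_toFinset]

theorem cols_eq (E : Finset (Sym2 P3)) : cols E = (fun u : P3 => (u.1, u.2.1)) '' verts E := by
  ext c
  constructor
  · rintro ⟨z, hz⟩; exact ⟨_, hz, rfl⟩
  · rintro ⟨u, hu, rfl⟩; exact ⟨u.2.2, hu⟩

theorem cols_sz (E : Finset (Sym2 P3)) :
    cols (mapE sz E) = (fun u : P3 => (u.1, u.2.2)) '' verts E := by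
  rw [cols_eq]
  ext c
  constructor
  · rintro ⟨u, hu, rfl⟩; exact ⟨_, mem_verts_sz.1 hu, rfl⟩
  · rintro ⟨u, hu, rfl⟩; exact ⟨sz u, mem_verts_sz.2 hu, rfl⟩

theorem cols_sz_sw (E : Finset (Sym2 P3)) :
    cols (mapE sz (mapE sw E)) = (fun u : P3 => (u.2.1, u.2.2)) '' verts E := by
  rw [cols_sz]
  ext c
  constructor
  · rintro ⟨u, hu, rfl⟩; exact ⟨_, mem_verts_sw.1 hu, rfl⟩
  · rintro ⟨u, hu, rfl⟩; exact ⟨sw u, mem_verts_sw.2 hu, rfl⟩

/-- One of three projections of a polygon is large. -/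
theorem large_projection {E : Finset (Sym2 P3)} (hE : (verts E).ncard = E.card) :
    ((E.card : ℝ) ^ (2 / 3 : ℝ) ≤ ((cols E).ncard : ℝ)) ∨
      ((E.card : ℝ) ^ (2 / 3 : ℝ) ≤ ((cols (mapE sz E)).ncard : ℝ)) ∨
      ((E.card : ℝ) ^ (2 / 3 : ℝ) ≤ ((cols (mapE sz (mapE sw E))).ncard : ℝ)) := by
  classical
  have h := loomis_whitney (verts_finite E).toFinset
  rw [ncard_image_verts, ncard_image_verts, ncard_image_verts, ← cols_eq, ← cols_sz,
    ← cols_sz_sw, ← Set.ncard_eq_toFinset_card _ (verts_finite E), hE] at h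
  by_contra hcon
  push Not at hcon
  obtain ⟨h1, h2, h3⟩ := hcon
  set a : ℝ := ((cols E).ncard : ℝ) with ha
  set b : ℝ := ((cols (mapE sz E)).ncard : ℝ) with hb
  set c : ℝ := ((cols (mapE sz (mapE sw E))).ncard : ℝ) with hc
  set m : ℝ := (E.card : ℝ) ^ (2 / 3 : ℝ) with hm
  have h' : (E.card : ℝ) ^ 2 ≤ a * (b * c) := by
    rw [ha, hb, hc]; exact_mod_cast h
  have hm3 : m * (m * m) = (E.card : ℝ) ^ 2 := by
    have h0 : (0 : ℝ) ≤ E.card := Nat.cast_nonneg _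
    have : m ^ 3 = (E.card : ℝ) ^ 2 := by
      rw [hm, ← Real.rpow_natCast, ← Real.rpow_mul h0, ← Real.rpow_natCast]
      norm_num
    rw [← this]; ring
  have ha0 : 0 ≤ a := Nat.cast_nonneg _
  have hb0 : 0 ≤ b := Nat.cast_nonneg _
  have hc0 : 0 ≤ c := Nat.cast_nonneg _
  have hm0 : 0 < m := lt_of_le_of_lt ha0 h1
  have h4 : b * c < m * m := mul_lt_mul'' h2 h3 hb0 hc0
  have h5 : a * (b * c) < m * (m * m) := mul_lt_mul'' h1 h4 ha0 (mul_nonneg hb0 hc0)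
  linarith

/-- At least a third of the members of a symmetric class have a large projection to the
`xy`-plane. -/
theorem wide_of_symm {C : Finset (Sym2 P3) → Prop} (hpoly : ∀ E, C E → IsPolygon E)
    (hxy : ∀ E, C E → C (mapE (fun u => (u.2.1, u.1, u.2.2)) E))
    (hyz : ∀ E, C E → C (mapE (fun u => (u.1, u.2.2, u.2.1)) E)) (n : ℕ) :
    (count C n : ℝ) ≤ 3 * (({E : Finset (Sym2 P3) | C E ∧ E.card = n ∧ Normed E ∧
      (n : ℝ) ^ (2 / 3 : ℝ) ≤ ((cols E).ncard : ℝ)}.ncard : ℕ) : ℝ) := by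
  set S : Set (Finset (Sym2 P3)) := {E | C E ∧ E.card = n ∧ Normed E} with hS
  set S1 : Set (Finset (Sym2 P3)) := {E | C E ∧ E.card = n ∧ Normed E ∧
      (n : ℝ) ^ (2 / 3 : ℝ) ≤ ((cols E).ncard : ℝ)} with hS1
  have hcount : count C n = S.ncard := rfl
  rw [hcount]
  rcases S.finite_or_infinite with hfin | hinf
  swap
  · rw [hinf.ncard, Nat.cast_zero]; exact mul_nonneg (by norm_num) (Nat.cast_nonneg _)
  have hsub : S1 ⊆ S := fun E h => ⟨h.1, h.2.1, h.2.2.1⟩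
  have hfin1 : S1.Finite := hfin.subset hsub
  have hcov : S ⊆ S1 ∪ ((mapE sz) ⁻¹' S1 ∪ (mapE sz ∘ mapE sw) ⁻¹' S1) := by
    rintro E ⟨hE, hn, hN⟩
    have hcard := (cardStatement E (hpoly E hE)).2
    have hlp := large_projection hcard
    rw [hn] at hlp
    rcases hlp with h | h | h
    · exact Or.inl ⟨hE, hn, hN, h⟩
    · exact Or.inr (Or.inl ⟨hyz E hE, by rw [card_mapE sz_inj, hn], hN.sz, h⟩)
    · exact Or.inr (Or.inr ⟨hyz _ (hxy E hE), by
        rw [Function.comp_apply, card_mapE sz_inj, card_mapE sw_inj, hn], hN.sw.sz, h⟩)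
  have i1 : Function.Injective (mapE sz) := mapE_inj sz_inj
  have i2 : Function.Injective (mapE sz ∘ mapE sw) := i1.comp (mapE_inj sw_inj)
  have f1 : ((mapE sz) ⁻¹' S1).Finite := hfin1.preimage i1.injOn
  have f2 : ((mapE sz ∘ mapE sw) ⁻¹' S1).Finite := hfin1.preimage i2.injOn
  have c1 : ((mapE sz) ⁻¹' S1).ncard ≤ S1.ncard :=
    Set.ncard_le_ncard_of_injOn (mapE sz) (fun E hE => hE) i1.injOn hfin1
  have c2 : ((mapE sz ∘ mapE sw) ⁻¹' S1).ncard ≤ S1.ncard :=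
    Set.ncard_le_ncard_of_injOn (mapE sz ∘ mapE sw) (fun E hE => hE) i2.injOn hfin1
  have hle : S.ncard ≤ 3 * S1.ncard := by
    refine (Set.ncard_le_ncard hcov (hfin1.union (f1.union f2))).trans ?_
    refine (Set.ncard_union_le _ _).trans ?_
    have := Set.ncard_union_le ((mapE sz) ⁻¹' S1) ((mapE sz ∘ mapE sw) ⁻¹' S1)
    omega
  exact_mod_cast hle

/-- Wide members of classes closed under stacked joins. -/
theorem wide {C : Finset (Sym2 P3) → Prop} (hC : ClosedZ C) (n : ℕ) :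
    (count C n : ℝ) ≤ 3 * (({E : Finset (Sym2 P3) | C E ∧ E.card = n ∧ Normed E ∧
      (n : ℝ) ^ (2 / 3 : ℝ) ≤ ((cols E).ncard : ℝ)}.ncard : ℕ) : ℝ) :=
  wide_of_symm hC.poly hC.swapXY hC.swapYZ n

end Pool.Agent.LK
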