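import Pool.Agent.MP_aea6d5_co.Count
import Pool.Agent.MP_aea6d5_co.Contact
import Pool.Agent.MP_aea6d5_co.Wide

/-! The pair inequality, unconditional. -/

set_option autoImplicit false

namespace Pool.Agent.LK

theorem contactProp : ContactProp := by
  intro R hR D
  obtain ⟨T, h1, h2, h3⟩ := exists_contacts R hR D
  refine ⟨T, h1, h2, fun d0 hd0 => ?_⟩
  obtain ⟨N, g1, -, g3, g4⟩ := h3 d0 hd0
  exact ⟨N, g1, by omega, g4⟩

theorem wideProp : WideProp := fun _ hC n => wide hC n

/-- For every class closed under the symmetries, bumps, flips and stacked joins,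
`n ^ (2/3) * u_n ^ 2 ≤ K * (u_{2n-c} + ... + u_{2n+c})`. -/
theorem pairStatementZ : PairStatementZ := pair_of contactProp wideProp

end Pool.Agent.LK
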