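import Pool.Agent.MP_aea6d5_co.KCut
import Pool.Agent.MP_aea6d5_co.PairZ

/-! Theorem B: attaching a fixed knotted polygon to the unknotted polygons. -/

set_option autoImplicit false

namespace Pool.Agent.LK

section finite

variable {C : Finset (Sym2 P3) → Prop}

theorem finite_class' (hC : ∀ E, C E → IsPolygon E) (n : ℕ) :
    {E : Finset (Sym2 P3) | C E ∧ E.card = n ∧ Normed E}.Finite := by
  obtain ⟨K, hK⟩ := boundStatement
  refine (hK n).1.subset ?_
  rintro E ⟨h1, h2, h3⟩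
  exact ⟨hC _ h1, h2, h3⟩

theorem mem_U' (hC : ∀ E, C E → IsPolygon E) {n : ℕ} {E : Finset (Sym2 P3)} :
    E ∈ U C n ↔ C E ∧ E.card = n ∧ Normed E := by
  unfold U
  rw [dif_pos (finite_class' hC n)]
  simp

theorem card_U' (hC : ∀ E, C E → IsPolygon E) (n : ℕ) : (U C n).card = count C n := by
  unfold U
  rw [dif_pos (finite_class' hC n), count, Set.ncard_eq_toFinset_card _ (finite_class' hC n)]

end finite

theorem KClass.move (hM : MoveFacts) (K : Finset (Sym2 P3)) : MoveClosed (KClass K) := by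
  refine ⟨fun E h => h.1, ?_, ?_⟩
  · intro E x y d h h1 h2 h3 h4
    exact ⟨isPolygon_bump h.1 h1 h2 h3 h4, h.2.trans (hM.bump E x y d h.1 h1 h2 h3 h4)⟩
  · intro E x a b h h1 h2 h3 h4 h5 h6 h7
    exact ⟨isPolygon_flip h.1 h1 h2 h3 h4 h6 h7,
      h.2.trans (hM.flip E x a b h.1 h1 h2 h3 h4 h5 h6 h7)⟩

theorem isPolygon_negE {E : Finset (Sym2 P3)} (h : IsPolygon E) : IsPolygon (negE E) :=
  polyClosedZ.neg h

/-- **The attachment inequality.** -/
theorem kpair (hU : ClosedZ UClass) (hB1 : B1Statement) (hNC : NCStatement) (hM : MoveFacts)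
    {K : Finset (Sym2 P3)} (hK : IsPolygon K) (hKn : ¬ Unknotted K) :
    ∃ L B : ℕ, ∀ n : ℕ, (n : ℝ) ^ (2 / 3 : ℝ) * (count UClass n : ℝ) ≤
      L * ∑ i ∈ Finset.range (2 * B + 1), (count (KClass K) (n + K.card + i - B) : ℝ) := by
  classical
  have hKp : ∀ E, KClass K E → IsPolygon E := fun E h => h.1
  obtain ⟨t0, hN0⟩ := exists_normed hK.verts_nonempty
  set K0 := shift t0 K with hK0
  have hK0c : KClass K K0 := ⟨isPolygon_shift hK t0, hM.trans t0 K⟩
  have cardK0 : K0.card = K.card := card_shift t0 K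
  have hneg : ∀ F, KClass K F → KClass K (negE F) := fun F h =>
    ⟨isPolygon_negE h.1, h.2.trans (hM.neg F)⟩
  have hshift : ∀ F, KClass K F → ∀ t : P3, KClass K (shift t F) := fun F h t =>
    ⟨isPolygon_shift h.1 t, h.2.trans (hM.trans t F)⟩
  have hjoin : ∀ E F x y h, UClass E → KClass K F → Below E F →
      s((x, y, h), (x + 1, y, h)) ∈ E → s((x, y, h + 1), (x + 1, y, h + 1)) ∈ F →
      KClass K (joinZ E F x y h) := by
    intro E F x y h h1 h2 h3 h4 h5
    exact ⟨polyJoinZStatement E F x y h h1.1 h2.1 h3 h4 h5,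
      h2.2.trans (hB1 E F x y h h1.1 h1.2 h2.1 h3 h4 h5)⟩
  obtain ⟨B, hB⟩ : ∃ B : ℕ, ∀ (a : P3) (E E' : Finset (Sym2 P3)), ChangedIn a 1000 E E' →
      E'.card ≤ E.card + B := ⟨_, fun a E E' h => h.card_le⟩
  obtain ⟨K1, hT⟩ : ∃ K1 : ℕ, ∀ E : Finset (Sym2 P3), ∃ T ⊆ diffs E K0,
      ((diffs E K0).image (fun d => (d.1, d.2.1))).card ≤ K1 * T.card ∧
      ∀ d0 ∈ T, ∃ N : P3, 0 ≤ N.2.2 ∧ (2000000 - 1) ^ 2 ≤ nsq N + 2 ∧
        ∀ s : P3, nsq s < 2 * dot N s → ∀ t : ℤ, 0 ≤ t → d0 + s + (0, 0, t) ∉ diffs E K0 :=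
    ⟨_, fun E => contactProp 2000000 (by norm_num) (diffs E K0)⟩
  obtain ⟨L, hL⟩ := exists_code_bound (1000 + (K.card + B : ℕ) + 2) 1000
  refine ⟨3 * K1 * L, B, ?_⟩
  intro n
  choose T hTD hTcard hTN using hT
  set X : Finset (Σ _ : Finset (Sym2 P3), P3) := (U UClass n).sigma (fun q => T q) with hX
  have memX : ∀ x ∈ X, x.1 ∈ U UClass n ∧ x.2 ∈ T x.1 := by
    intro x hx
    rw [hX, Finset.mem_sigma] at hx
    exact hx
  -- the joined polygons
  have hJ : ∀ x : (Σ _ : Finset (Sym2 P3), P3), ∃ R E' F' p a w s, x ∈ X →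
      Joined UClass (KClass K) (KClass K) x.1 K0 x.2 R E' F' p a w ∧ Normed (shift s R) := by
    intro x
    by_cases hx : x ∈ X
    · obtain ⟨h1, h3⟩ := memX x hx
      rw [mem_U hU] at h1
      obtain ⟨N, hN0, hN, hfree⟩ := hTN _ _ h3
      obtain ⟨R, E', F', p, a, w, h⟩ := joined_of_contact hU.move (KClass.move hM K) hneg
        hshift hjoin h1.1 hK0c
        (fun d => mem_diffs) (hTD _ h3) hN0 hN hfree
      obtain ⟨s, hs⟩ := exists_normed (hKp _ h.cR).verts_nonempty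
      exact ⟨R, E', F', p, a, w, s, fun _ => ⟨h, hs⟩⟩
    · exact ⟨∅, ∅, ∅, 0, 0, 0, 0, fun h => absurd h hx⟩
  choose R E' F' p a w s hJ using hJ
  -- the target
  set V : Finset (Finset (Sym2 P3)) :=
    (Finset.range (2 * B + 1)).biUnion (fun i => U (KClass K) (n + K.card + i - B)) with hV
  have hVcard : V.card ≤ ∑ i ∈ Finset.range (2 * B + 1),
      count (KClass K) (n + K.card + i - B) := by
    refine Finset.card_biUnion_le.trans ?_
    exact Finset.sum_le_sum fun i _ => (card_U' hKp _).le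
  have hcardR : ∀ x ∈ X, (R x).card ≤ n + K.card + B ∧ n + K.card ≤ (R x).card + B := by
    intro x hx
    obtain ⟨h1, h3⟩ := memX x hx
    rw [mem_U hU] at h1
    have h := (hJ x hx).1
    have c1 := hB _ _ _ h.ch
    have c2 := hB _ _ _ h.ch.symm
    rw [h.card_union, h1.2.1, cardK0] at c1 c2
    omega
  have hmaps : ∀ x ∈ X, shift (s x) (R x) ∈ V := by
    intro x hx
    rw [hV, Finset.mem_biUnion]
    obtain ⟨c1, c2⟩ := hcardR x hx
    refine ⟨(R x).card + B - (n + K.card), by rw [Finset.mem_range]; omega, ?_⟩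
    rw [mem_U' hKp]
    refine ⟨hshift _ (hJ x hx).1.cR _, ?_, (hJ x hx).2⟩
    rw [card_shift]; omega
  have hfiber : ∀ G ∈ V, (X.filter (fun x => shift (s x) (R x) = G)).card ≤ L := by
    intro G _
    rcases (X.filter (fun x => shift (s x) (R x) = G)).eq_empty_or_nonempty with h0 | ⟨x0, hx0⟩
    · rw [h0]; simp
    rw [Finset.mem_filter] at hx0
    suffices hinj : Set.InjOn (fun x => (a x + s x - (a x0 + s x0),
      pat x.1 K0 (a x) (w x), p x - a x, w x - x.2))
      ((X.filter (fun x => shift (s x) (R x) = G) : Finset _) : Set _) by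
      rw [← Finset.card_image_of_injOn hinj]
      refine hL _ ?_
      intro q hq
      obtain ⟨x, hx, rfl⟩ := Finset.mem_image.1 hq
      rw [Finset.mem_filter] at hx
      have h := (hJ x hx.1).1
      have h' := (hJ x0 hx0.1).1
      refine ⟨?_, Finset.inter_subset_left, h.pa, h.wd⟩
      have k1 := (h.isCut hU.poly hKp).shift (s x)
      have k2 := (h'.isCut hU.poly hKp).shift (s x0)
      rw [hx.2] at k1
      rw [hx0.2] at k2
      have m2 := hB _ _ _ h.chF
      have m4 := hB _ _ _ h'.chF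
      rw [card_shift, cardK0] at m2 m4
      refine far_cuts hNC (by norm_num) k1 k2 (k := K.card + B) ?_ ?_ ?_ ?_
      · rw [card_shift]; exact m2
      · rw [card_shift]; exact m4
      · exact (hU.shift h.cE (s x)).2
      · intro hun
        exact hKn ((hshift _ h'.cF (s x0)).2.unknotted hun)
    · intro x hx x' hx' hxx
      rw [Finset.mem_coe, Finset.mem_filter] at hx hx'
      simp only [Prod.mk.injEq] at hxx
      obtain ⟨e1, e2, e3, e4⟩ := hxx
      obtain ⟨h1, h3⟩ := memX x hx.1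
      obtain ⟨g1, g3⟩ := memX x' hx'.1
      rw [mem_U hU] at h1 g1
      obtain ⟨q1, q2, q3⟩ := decode (hJ x hx.1).1 (hJ x' hx'.1).1 h1.1.1 g1.1.1 h1.2.2 g1.2.2
        hN0 hN0 (hx.2.trans hx'.2.symm) (sub_left_inj.1 e1) e2 e3 e4
      obtain ⟨x1, x3⟩ := x
      obtain ⟨y1, y3⟩ := x'
      simp only at q1 q2 q3
      subst q1 q3
      rfl
  have hup : X.card ≤ L * V.card := by
    have h1 : X.card ≤ L * (X.image (fun x => shift (s x) (R x))).card :=
      Finset.card_le_mul_card_image X L (fun G hG => hfiber G (by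
        obtain ⟨x, hx, rfl⟩ := Finset.mem_image.1 hG
        exact hmaps x hx))
    refine h1.trans (Nat.mul_le_mul_left _ (Finset.card_le_card ?_))
    intro G hG
    obtain ⟨x, hx, rfl⟩ := Finset.mem_image.1 hG
    exact hmaps x hx
  -- the lower bound
  have hlow : (n : ℝ) ^ (2 / 3 : ℝ) * (count UClass n : ℝ) ≤ 3 * K1 * (X.card : ℝ) := by
    have hXc : X.card = ∑ q ∈ U UClass n, (T q).card := by
      rw [hX, Finset.card_sigma]
    set W : Finset (Finset (Sym2 P3)) :=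
      (U UClass n).filter (fun E => (n : ℝ) ^ (2 / 3 : ℝ) ≤ ((cols E).ncard : ℝ)) with hW
    have hWc : (count UClass n : ℝ) ≤ 3 * (W.card : ℝ) := by
      refine (wide hU n).trans ?_
      have : {E : Finset (Sym2 P3) | UClass E ∧ E.card = n ∧ Normed E ∧
          (n : ℝ) ^ (2 / 3 : ℝ) ≤ ((cols E).ncard : ℝ)} = (W : Set (Finset (Sym2 P3))) := by
        ext E
        rw [hW, Finset.coe_filter, Set.mem_ofPred_eq, Set.mem_ofPred_eq, mem_U hU]
        tauto
      rw [this, Set.ncard_coe_finset]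
    have h1 : ∀ E ∈ W, (n : ℝ) ^ (2 / 3 : ℝ) ≤ K1 * ((T E).card : ℝ) := by
      intro E hE
      rw [hW, Finset.mem_filter] at hE
      have h2 := cols_le (E := E) (F := K0) hK0c.1.verts_nonempty
      have h3 := h2.trans (hTcard E)
      refine hE.2.trans ?_
      exact_mod_cast h3
    have h2 : (W.card : ℝ) * (n : ℝ) ^ (2 / 3 : ℝ) ≤ K1 * (X.card : ℝ) := by
      have h3 : ∑ q ∈ W, (n : ℝ) ^ (2 / 3 : ℝ) ≤ ∑ q ∈ W, (K1 * ((T q).card : ℝ)) :=
        Finset.sum_le_sum fun q hq => h1 q hq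
      rw [Finset.sum_const, nsmul_eq_mul] at h3
      refine h3.trans ?_
      rw [← Finset.mul_sum]
      refine mul_le_mul_of_nonneg_left ?_ (by positivity)
      rw [hXc]
      push_cast
      exact Finset.sum_le_sum_of_subset_of_nonneg (Finset.filter_subset _ _)
        (fun _ _ _ => by positivity)
    have h4 : (0 : ℝ) ≤ (n : ℝ) ^ (2 / 3 : ℝ) := by positivity
    calc (n : ℝ) ^ (2 / 3 : ℝ) * (count UClass n : ℝ)
        ≤ (n : ℝ) ^ (2 / 3 : ℝ) * (3 * (W.card : ℝ)) := mul_le_mul_of_nonneg_left hWc h4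
      _ = 3 * ((W.card : ℝ) * (n : ℝ) ^ (2 / 3 : ℝ)) := by ring
      _ ≤ 3 * (K1 * (X.card : ℝ)) := mul_le_mul_of_nonneg_left h2 (by norm_num)
      _ = 3 * K1 * (X.card : ℝ) := by ring
  have hup' : (X.card : ℝ) ≤ L * ∑ i ∈ Finset.range (2 * B + 1),
      (count (KClass K) (n + K.card + i - B) : ℝ) := by
    have : X.card ≤ L * ∑ i ∈ Finset.range (2 * B + 1), count (KClass K) (n + K.card + i - B) :=
      hup.trans (Nat.mul_le_mul_left _ hVcard)
    exact_mod_cast this
  calc (n : ℝ) ^ (2 / 3 : ℝ) * (count UClass n : ℝ) ≤ 3 * K1 * (X.card : ℝ) := hlow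
    _ ≤ 3 * K1 * (L * ∑ i ∈ Finset.range (2 * B + 1),
          (count (KClass K) (n + K.card + i - B) : ℝ)) :=
        mul_le_mul_of_nonneg_left hup' (by positivity)
    _ = (3 * K1 * L : ℕ) * ∑ i ∈ Finset.range (2 * B + 1),
          (count (KClass K) (n + K.card + i - B) : ℝ) := by push_cast; ring

end Pool.Agent.LK
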