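import Mathlib

/-! A homeomorphism supported in a convex body which moves one interior point to another one and
maps the segments to the boundary to segments. -/

set_option autoImplicit false
set_option linter.unusedSectionVars false
set_option linter.unusedVariables false

open Set Topology

namespace Pool.Agent.LK

variable {V : Type*} [NormedAddCommGroup V] [NormedSpace ℝ V]

/-- The gauge of the convex body `C` as seen from the point `a`. -/
noncomputable def gau (C : Set V) (a x : V) : ℝ := gauge ((fun v => a + v) ⁻¹' C) (x - a)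

/-- The vertex move. -/
noncomputable def vmove (C : Set V) (a b x : V) : V := x + max 0 (1 - gau C a x) • (b - a)

/-- The hypotheses on the body. -/
structure Body (C : Set V) : Prop where
  conv : Convex ℝ C
  bdd : Bornology.IsBounded C

section
variable {C : Set V} {a b : V}

lemma preimage_nhds (ha : a ∈ interior C) : (fun v => a + v) ⁻¹' C ∈ 𝓝 (0 : V) := by
  have h : ContinuousAt (fun v : V => a + v) 0 := (continuous_const.add continuous_id).continuousAt
  apply h
  simp only [add_zero]
  exact mem_interior_iff_mem_nhds.1 ha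

lemma preimage_conv (hC : Body C) : Convex ℝ ((fun v => a + v) ⁻¹' C) :=
  hC.conv.translate_preimage_right a

lemma preimage_interior_iff {v : V} :
    v ∈ interior ((fun v => a + v) ⁻¹' C) ↔ a + v ∈ interior C := by
  have h := (Homeomorph.addLeft a).preimage_interior C
  rw [show ((fun v => a + v) ⁻¹' C) = (Homeomorph.addLeft a) ⁻¹' C from rfl, ← h]
  rfl

lemma gau_lt_one_iff (hC : Body C) (ha : a ∈ interior C) {x : V} :
    gau C a x < 1 ↔ x ∈ interior C := by
  unfold gau
  rw [gauge_lt_one_iff_mem_interior (preimage_conv hC) (preimage_nhds ha), preimage_interior_iff,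
    add_sub_cancel]

lemma gau_eq_one_iff (hC : Body C) (ha : a ∈ interior C) {x : V} :
    gau C a x = 1 ↔ x ∈ frontier C := by
  unfold gau
  rw [gauge_eq_one_iff_mem_frontier (preimage_conv hC) (preimage_nhds ha)]
  have h := (Homeomorph.addLeft a).preimage_frontier C
  rw [show ((fun v => a + v) ⁻¹' C) = (Homeomorph.addLeft a) ⁻¹' C from rfl, ← h, mem_preimage,
    Homeomorph.coe_addLeft]
  simp only [add_sub_cancel]

lemma gau_nonneg (x : V) : 0 ≤ gau C a x := gauge_nonneg _

lemma gau_eq_zero (hC : Body C) (ha : a ∈ interior C) {x : V} (h : gau C a x = 0) : x = a := by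
  have h1 : Bornology.IsVonNBounded ℝ ((fun v => a + v) ⁻¹' C) := by
    rw [NormedSpace.isVonNBounded_iff]
    have h2 : ((fun v => a + v) ⁻¹' C) = (fun x => -a + x) '' C := by
      ext v
      constructor
      · intro hv
        exact ⟨a + v, hv, by simp⟩
      · rintro ⟨w, hw, rfl⟩
        simpa using hw
    rw [h2]
    exact ((isometry_add_left (-a)).lipschitz).isBounded_image hC.bdd
  have h3 := (gauge_eq_zero (absorbent_nhds_zero (preimage_nhds ha)) h1).1 h
  exact sub_eq_zero.1 h3

/-- the gauge is homogeneous along rays from `a` -/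
lemma gau_ray {s : ℝ} (hs : 0 ≤ s) (v : V) : gau C a (a + s • v) = s * gau C a (a + v) := by
  unfold gau
  rw [add_sub_cancel_left, add_sub_cancel_left, gauge_smul_of_nonneg hs, smul_eq_mul]

lemma gau_self : gau C a a = 0 := by
  unfold gau
  rw [sub_self, gauge_zero]

lemma continuous_gau (hC : Body C) (ha : a ∈ interior C) : Continuous (gau C a) :=
  (continuous_gauge (preimage_conv hC) (preimage_nhds ha)).comp (continuous_id.sub continuous_const)

lemma vmove_of_ge {x : V} (h : 1 ≤ gau C a x) : vmove C a b x = x := by
  unfold vmove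
  rw [max_eq_left (by linarith), zero_smul, add_zero]

lemma vmove_of_notMem (hC : Body C) (ha : a ∈ interior C) {x : V} (h : x ∉ interior C) :
    vmove C a b x = x := by
  apply vmove_of_ge
  rw [← gau_lt_one_iff hC ha] at h
  exact not_lt.1 h

/-- on the segment from `a` to a boundary point -/
lemma vmove_seg (hC : Body C) (ha : a ∈ interior C) {f : V} (hf : f ∈ frontier C) {s : ℝ}
    (h0 : 0 ≤ s) (h1 : s ≤ 1) :
    vmove C a b (a + s • (f - a)) = b + s • (f - b) := by
  have h2 : gau C a (a + s • (f - a)) = s := by
    rw [gau_ray h0, add_sub_cancel, (gau_eq_one_iff hC ha).2 hf, mul_one]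
  unfold vmove
  rw [h2, max_eq_right (by linarith)]
  module

/-- every point of the interior lies on a segment from `a` to a boundary point -/
lemma exists_ray (hC : Body C) (ha : a ∈ interior C) {x : V} (hx : x ∈ interior C)
    (hxa : x ≠ a) : ∃ f ∈ frontier C, x = a + gau C a x • (f - a) := by
  have h1 : gau C a x ≠ 0 := fun h => hxa (gau_eq_zero hC ha h)
  refine ⟨a + (gau C a x)⁻¹ • (x - a), ?_, ?_⟩
  · rw [← gau_eq_one_iff hC ha, gau_ray (inv_nonneg.2 (gau_nonneg x)), add_sub_cancel,
      inv_mul_cancel₀ h1]
  · rw [add_sub_cancel_left, smul_smul, mul_inv_cancel₀ h1, one_smul, add_sub_cancel]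

lemma vmove_vmove (hC : Body C) (ha : a ∈ interior C) (hb : b ∈ interior C) (x : V) :
    vmove C b a (vmove C a b x) = x := by
  by_cases hx : x ∈ interior C
  · by_cases hxa : x = a
    · subst hxa
      have h1 : vmove C x b x = b := by
        unfold vmove
        rw [gau_self]
        simp
      rw [h1]
      unfold vmove
      rw [gau_self]
      simp
    · obtain ⟨f, hf, hxf⟩ := exists_ray hC ha hx hxa
      have h0 : 0 ≤ gau C a x := gau_nonneg x
      have h1 : gau C a x ≤ 1 := ((gau_lt_one_iff hC ha).2 hx).le
      generalize gau C a x = s at *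
      rw [hxf, vmove_seg hC ha hf h0 h1, vmove_seg hC hb hf h0 h1]
  · rw [vmove_of_notMem hC ha hx, vmove_of_notMem hC hb hx]

lemma continuous_vmove (hC : Body C) (ha : a ∈ interior C) : Continuous (vmove C a b) := by
  unfold vmove
  exact continuous_id.add ((continuous_const.max
    (continuous_const.sub (continuous_gau hC ha))).smul continuous_const)

/-- The vertex move as a homeomorphism. -/
noncomputable def vmoveHomeo (hC : Body C) (ha : a ∈ interior C) (hb : b ∈ interior C) :
    V ≃ₜ V where
  toFun := vmove C a b
  invFun := vmove C b a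
  left_inv := vmove_vmove hC ha hb
  right_inv := vmove_vmove hC hb ha
  continuous_toFun := continuous_vmove hC ha
  continuous_invFun := continuous_vmove hC hb

lemma vmove_image_segment (hC : Body C) (ha : a ∈ interior C) {u : V} (hu : u ∈ frontier C) :
    vmove C a b '' segment ℝ u a = segment ℝ u b := by
  rw [segment_symm ℝ u a, segment_symm ℝ u b]
  ext y
  constructor
  · rintro ⟨x, hx, rfl⟩
    rw [segment_eq_image'] at hx
    obtain ⟨s, ⟨h0, h1⟩, rfl⟩ := hx
    simp only
    rw [vmove_seg hC ha hu h0 h1, segment_eq_image']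
    exact ⟨s, ⟨h0, h1⟩, rfl⟩
  · intro hy
    rw [segment_eq_image'] at hy
    obtain ⟨s, ⟨h0, h1⟩, rfl⟩ := hy
    refine ⟨a + s • (u - a), ?_, vmove_seg hC ha hu h0 h1⟩
    rw [segment_eq_image']
    exact ⟨s, ⟨h0, h1⟩, rfl⟩

/-- The effect of the vertex move on a set which meets the body in a broken chord. -/
lemma vmove_image (hC : Body C) (ha : a ∈ interior C) {u v : V}
    (hu : u ∈ frontier C) (hv : v ∈ frontier C) {X : Set V}
    (hX : X ∩ C = segment ℝ u a ∪ segment ℝ a v) :
    vmove C a b '' X = (X \ C) ∪ (segment ℝ u b ∪ segment ℝ b v) := by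
  have h1 : X = (X \ C) ∪ (segment ℝ u a ∪ segment ℝ a v) := by
    rw [← hX, sdiff_union_inter]
  have h2 : vmove C a b '' (X \ C) = X \ C := by
    ext y
    constructor
    · rintro ⟨x, hx, rfl⟩
      rwa [vmove_of_notMem hC ha (fun h => hx.2 (interior_subset h))]
    · intro hy
      exact ⟨y, hy, vmove_of_notMem hC ha (fun h => hy.2 (interior_subset h))⟩
  calc vmove C a b '' X = vmove C a b '' ((X \ C) ∪ (segment ℝ u a ∪ segment ℝ a v)) := by
        rw [← h1]
    _ = (X \ C) ∪ (segment ℝ u b ∪ segment ℝ b v) := by
        rw [image_union, image_union, h2, vmove_image_segment hC ha hu, segment_symm ℝ a v,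
          vmove_image_segment hC ha hv, segment_symm ℝ v b]

end

end Pool.Agent.LK
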