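import Pool.Agent.MP_aea6d5_co.Sphere
import Pool.Agent.MP_aea6d5_co.VertexMove

/-! A homeomorphism of the sphere carrying a set onto a polygon can be replaced by a homeomorphism
of space. -/

set_option autoImplicit false

open Set Topology

namespace Pool.Agent.LK

/-- The plane through the edge and `c`, as a linear subspace. -/
noncomputable def espan (c : R3) (e : Sym2 P3) : Submodule ℝ R3 :=
  Submodule.span ℝ {toR (Quot.out e).1 - c, toR (Quot.out e).2 - c}

lemma espan_ne_top (c : R3) (e : Sym2 P3) : espan c e ≠ ⊤ := by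
  intro h
  have h1 : Module.finrank ℝ (espan c e) ≤ 2 := by
    have h2 := finrank_span_le_card (R := ℝ) ({toR (Quot.out e).1 - c, toR (Quot.out e).2 - c} : Set R3)
    refine h2.trans ?_
    rw [Set.toFinset_insert, Set.toFinset_singleton]
    exact Finset.card_le_two
  rw [h, finrank_top] at h1
  have h3 : Module.finrank ℝ R3 = 3 := by
    unfold R3
    rw [Module.finrank_prod, Module.finrank_prod, Module.finrank_self]
  omega

lemma espan_mem {c : R3} {u v : P3} {p : R3} (hp : p ∈ segment ℝ (toR u) (toR v)) :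
    p - c ∈ espan c s(u, v) := by
  have h1 : s((Quot.out s(u, v)).1, (Quot.out s(u, v)).2) = s(u, v) := Quot.out_eq s(u, v)
  obtain ⟨a, b, ha, hb, hab, rfl⟩ := hp
  have key : ∀ w : P3, w ∈ s(u, v) → toR w - c ∈ espan c s(u, v) := by
    intro w hw
    rw [← h1] at hw
    apply Submodule.subset_span
    rcases Sym2.mem_iff.1 hw with h | h
    · left; rw [h]
    · right; rw [h]; rfl
  have h2 : a • toR u + b • toR v - c = a • (toR u - c) + b • (toR v - c) := by
    have : c = (a + b) • c := by rw [hab, one_smul]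
    nth_rw 1 [this]
    module
  rw [h2]
  exact Submodule.add_mem _ (Submodule.smul_mem _ _ (key u (Sym2.mem_mk_left u v)))
    (Submodule.smul_mem _ _ (key v (Sym2.mem_mk_right u v)))

/-- A point off a polygon can be joined to a far point by a segment missing the polygon. -/
lemma exists_far {E : Finset (Sym2 P3)} {c : R3} (hc : c ∉ body E) (R : ℝ) :
    ∃ c' : R3, R < ‖c'‖ ∧ Disjoint (segment ℝ c c') (body E) := by
  classical
  obtain ⟨v, hv⟩ : ∃ v : R3, ∀ p ∈ insert (⊥ : Submodule ℝ R3) (E.image (espan c)), v ∉ p := by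
    have h1 := Subspace.biUnion_ne_univ_of_top_notMem (k := ℝ) (E := R3)
      (s := insert (⊥ : Submodule ℝ R3) (E.image (espan c))) (by
        rw [Finset.mem_insert, Finset.mem_image, not_or]
        refine ⟨top_ne_bot, ?_⟩
        rintro ⟨e, _, he⟩
        exact espan_ne_top c e he)
    rw [Set.ne_univ_iff_exists_notMem] at h1
    obtain ⟨v, hv⟩ := h1
    refine ⟨v, fun p hp hvp => hv ?_⟩
    exact Set.mem_iUnion₂.2 ⟨p, hp, hvp⟩
  have hv0 : v ≠ 0 := by
    intro h
    exact hv ⊥ (Finset.mem_insert_self _ _) (by rw [h]; exact Submodule.zero_mem _)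
  have hn : 0 < ‖v‖ := norm_pos_iff.2 hv0
  set T : ℝ := (|R| + ‖c‖ + 1) / ‖v‖ with hT
  have hT0 : 0 < T := div_pos (by positivity) hn
  refine ⟨c + T • v, ?_, ?_⟩
  · have h1 : ‖T • v‖ = |R| + ‖c‖ + 1 := by
      rw [norm_smul, Real.norm_of_nonneg hT0.le, hT, div_mul_cancel₀ _ hn.ne']
    have h2 : ‖T • v‖ ≤ ‖c + T • v‖ + ‖c‖ := by
      have h3 : T • v = (c + T • v) - c := by abel
      calc ‖T • v‖ = ‖(c + T • v) - c‖ := by rw [← h3]
        _ ≤ _ := norm_sub_le _ _
    have h3 := le_abs_self R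
    linarith
  · rw [Set.disjoint_left]
    intro p hp hpE
    rw [segment_eq_image'] at hp
    obtain ⟨t, ⟨t0, _⟩, rfl⟩ := hp
    simp only [add_sub_cancel_left] at hpE
    rcases t0.eq_or_lt with rfl | ht
    · rw [zero_smul, add_zero] at hpE
      exact hc hpE
    · obtain ⟨u, w, huw, hp⟩ := hpE
      have h1 := espan_mem (c := c) hp
      rw [add_sub_cancel_left, smul_smul] at h1
      have h2 : v ∈ espan c s(u, w) :=
        (Submodule.smul_mem_iff _ (mul_pos ht hT0).ne').1 h1
      exact hv _ (Finset.mem_insert_of_mem (Finset.mem_image_of_mem _ huw)) h2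

lemma cpt_body (E : Finset (Sym2 P3)) : IsCompact (body E) := by
  have h1 : body E = ⋃ e ∈ E, segment ℝ (toR (Quot.out e).1) (toR (Quot.out e).2) := by
    ext p
    simp only [mem_iUnion]
    constructor
    · rintro ⟨u, v, huv, hp⟩
      refine ⟨s(u, v), huv, ?_⟩
      have h1 : s((Quot.out s(u, v)).1, (Quot.out s(u, v)).2) = s(u, v) := Quot.out_eq s(u, v)
      rcases Sym2.eq_iff.1 h1 with ⟨h2, h3⟩ | ⟨h2, h3⟩
      · rwa [h2, h3]
      · rwa [h2, h3, segment_symm]
    · rintro ⟨e, he, hp⟩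
      refine ⟨_, _, ?_, hp⟩
      have h1 : s((Quot.out e).1, (Quot.out e).2) = e := Quot.out_eq e
      rwa [h1]
  rw [h1]
  apply Finset.isCompact_biUnion
  intro e _
  rw [segment_eq_image']
  exact isCompact_Icc.image (by fun_prop)

lemma vmove_self {V : Type*} [NormedAddCommGroup V] [NormedSpace ℝ V] (C : Set V) (a b : V) :
    vmove C a b a = b := by
  unfold vmove
  rw [gau_self]
  simp

/-- A far point can be moved to infinity by a homeomorphism fixing a ball. -/
lemma exists_far_move {R : ℝ} (hR : 0 < R) {c : R3} (hc : 3 * R < ‖c‖) :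
    ∃ Ψ : S3 ≃ₜ S3, Ψ (c : S3) = OnePoint.infty ∧ ∀ p : R3, ‖p‖ ≤ R → Ψ (p : S3) = (p : S3) := by
  have hc0 : c ≠ 0 := by
    rintro rfl
    rw [norm_zero] at hc
    linarith
  set C : Set R3 := Metric.ball 0 (3 * R)⁻¹ with hC
  have hr : 0 < (3 * R)⁻¹ := by positivity
  have hb : Body C := ⟨convex_ball _ _, Metric.isBounded_ball⟩
  have hi : interior C = C := Metric.isOpen_ball.interior_eq
  have h1 : invf c ∈ interior C := by
    rw [hi, hC, mem_ball_zero_iff]
    refine (norm_invf_le hc0).trans_lt ?_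
    exact inv_strictAnti₀ (by positivity) hc
  have h2 : (0 : R3) ∈ interior C := by
    rw [hi, hC, mem_ball_zero_iff, norm_zero]
    exact hr
  refine ⟨(InvH.trans (ext3 (vmoveHomeo hb h1 h2))).trans InvH, ?_, ?_⟩
  · show Invf (ext3 (vmoveHomeo hb h1 h2) (Invf (c : S3))) = _
    rw [Invf_coe hc0, ext3_coe]
    show Invf ((vmove C (invf c) 0 (invf c) : R3) : S3) = _
    rw [vmove_self, Invf_zero]
  · intro p hp
    show Invf (ext3 (vmoveHomeo hb h1 h2) (Invf (p : S3))) = _
    by_cases hp0 : p = 0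
    · rw [hp0, Invf_zero, ext3_infty, Invf_infty]
    · rw [Invf_coe hp0, ext3_coe]
      show Invf ((vmove C (invf c) 0 (invf p) : R3) : S3) = _
      rw [vmove_of_notMem hb h1, Invf_coe (invf_ne_zero hp0), invf_invf hp0]
      rw [hi, hC, mem_ball_zero_iff, not_lt]
      refine le_trans ?_ (le_norm_invf hp0)
      have hpp : 0 < ‖p‖ := norm_pos_iff.2 hp0
      exact inv_anti₀ (by positivity) (by linarith)

/-- A point of the sphere off a polygon can be moved to infinity by a homeomorphism fixing the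
polygon pointwise. -/
lemma exists_clear_move {E : Finset (Sym2 P3)} {c : S3} (hc : c ∉ up (body E)) :
    ∃ Ψ : S3 ≃ₜ S3, Ψ c = OnePoint.infty ∧ ∀ p ∈ body E, Ψ (p : S3) = (p : S3) := by
  induction c using OnePoint.rec with
  | infty => exact ⟨Homeomorph.refl _, rfl, fun p _ => rfl⟩
  | coe c =>
    rw [coe_mem_up] at hc
    obtain ⟨R, hR, hER⟩ : ∃ R : ℝ, 0 < R ∧ ∀ p ∈ body E, ‖p‖ ≤ R := by
      obtain ⟨R, hR⟩ := (cpt_body E).isBounded.exists_norm_le
      exact ⟨max R 1, lt_max_of_lt_right one_pos, fun p hp => (hR p hp).trans (le_max_left _ _)⟩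
    obtain ⟨c', hc', hdis⟩ := exists_far hc (3 * R)
    obtain ⟨Ψ, hΨ, hΨ'⟩ := exists_far_move hR hc'
    have hS : IsCompact (segment ℝ c c') := by
      rw [segment_eq_image']
      exact isCompact_Icc.image (by fun_prop)
    obtain ⟨δ, hδ, hsub⟩ := hS.exists_thickening_subset_open
      (cpt_body E).isClosed.isOpen_compl (fun p hp => (Set.disjoint_left.1 hdis hp))
    set C : Set R3 := Metric.thickening δ (segment ℝ c c') with hC
    have hb : Body C := ⟨(convex_segment c c').thickening δ, hS.isBounded.thickening⟩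
    have hi : interior C = C := Metric.isOpen_thickening.interior_eq
    have h1 : c ∈ interior C := by
      rw [hi]
      exact Metric.self_subset_thickening hδ _ (left_mem_segment ℝ c c')
    have h2 : c' ∈ interior C := by
      rw [hi]
      exact Metric.self_subset_thickening hδ _ (right_mem_segment ℝ c c')
    refine ⟨(ext3 (vmoveHomeo hb h1 h2)).trans Ψ, ?_, ?_⟩
    · show Ψ ((vmove C c c' c : R3) : S3) = _
      rw [vmove_self, hΨ]
    · intro p hp
      show Ψ ((vmove C c c' p : R3) : S3) = _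
      rw [vmove_of_notMem hb h1, hΨ' p (hER p hp)]
      rw [hi]
      intro hpC
      exact hsub hpC hp

/-- A homeomorphism of the sphere carrying a subset of space onto a polygon can be replaced by a
homeomorphism of space. -/
theorem restrict_homeo {X : Set R3} {E : Finset (Sym2 P3)} (Φ : S3 ≃ₜ S3)
    (h : Φ '' up X = up (body E)) : ∃ φ : R3 ≃ₜ R3, φ '' X = body E := by
  have h1 : Φ OnePoint.infty ∉ up (body E) := by
    rw [← h, Φ.injective.mem_set_image]
    exact infty_notMem_up X
  obtain ⟨Ψ, hΨ, hfix⟩ := exists_clear_move h1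
  obtain ⟨φ, hφ⟩ := exists_restrict (Φ.trans Ψ) hΨ
  refine ⟨φ, ?_⟩
  ext y
  constructor
  · rintro ⟨x, hx, rfl⟩
    have h2 : Φ (x : S3) ∈ up (body E) := by
      rw [← h]
      exact ⟨(x : S3), coe_mem_up.2 hx, rfl⟩
    obtain ⟨z, hz, hzx⟩ := h2
    have h3 := hφ x
    rw [Homeomorph.trans_apply, ← hzx, hfix z hz] at h3
    rwa [← OnePoint.coe_eq_coe.1 h3]
  · intro hy
    have h2 : (y : S3) ∈ Φ '' up X := by
      rw [h]
      exact coe_mem_up.2 hy
    obtain ⟨_, ⟨x, hx, rfl⟩, hxy⟩ := h2
    refine ⟨x, hx, ?_⟩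
    have h3 := hφ x
    rw [Homeomorph.trans_apply, hxy, hfix y hy] at h3
    exact (OnePoint.coe_eq_coe.1 h3).symm

end Pool.Agent.LK
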