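import Pool.Agent.MP_aea6d5_co.Brown

/-! Shrinking an intersection of unknotted cells to a point. -/

set_option autoImplicit false
set_option linter.unusedSectionVars false

open Set Topology Filter

namespace Pool.Agent.LK

/-- one step of the shrinking -/
lemma shrink_step {V M : Type} [NormedAddCommGroup V] [NormedSpace ℝ V] [ProperSpace V]
    [TopologicalSpace M] [T2Space M] [CompactSpace M] {L : Submodule ℝ V} {K : Set M}
    {u v : V → M} (hu : PCell L K u) (hcl : closure (range v) ⊆ range u) {q : M} (hqK : q ∈ K)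
    (hqu : q ∈ range u) {B : Set M} (hB : IsOpen B) (hqB : q ∈ B) (F : M ≃ₜ M) (hFq : F q = q)
    (hFK : ∀ m, F m ∈ K ↔ m ∈ K) :
    ∃ F' : M ≃ₜ M, F' q = q ∧ (∀ m, F' m ∈ K ↔ m ∈ K) ∧ (∀ x, x ∉ range u → F' x = F x) ∧
      (∀ x ∈ range u, ∃ y ∈ range u, F' x = F y) ∧ ∀ x ∈ closure (range v), F' x ∈ B := by
  have hFu : PCell L K (F ∘ u) := hu.homeo_comp F hFK
  have hqr : q ∈ range (F ∘ u) := by
    obtain ⟨y, hy⟩ := hqu
    exact ⟨y, by rw [Function.comp, hy, hFq]⟩
  obtain ⟨u', hu', hru', hu'0⟩ := hFu.recenter hqK hqr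
  have hrange : ∀ x, F x ∈ range u' ↔ x ∈ range u := by
    intro x
    rw [hru']
    constructor
    · rintro ⟨y, hy⟩
      exact ⟨y, F.injective hy⟩
    · rintro ⟨y, rfl⟩
      exact ⟨y, rfl⟩
  set D : Set M := F '' closure (range v) with hD
  have hDc : IsCompact D := (isClosed_closure.isCompact).image F.continuous
  have hDr : D ⊆ range u' := by
    rintro _ ⟨x, hx, rfl⟩
    exact (hrange x).2 (hcl hx)
  obtain ⟨R, hR, hRs⟩ : ∃ R : ℝ, 0 < R ∧ ∀ z : V, u' z ∈ D → ‖z‖ < R := by
    have h1 : IsCompact (u' ⁻¹' D) := hu'.1.isInducing.isCompact_preimage' hDc hDr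
    obtain ⟨R, hR⟩ := h1.isBounded.exists_norm_le
    refine ⟨max R 0 + 1, by positivity, fun z hz => ?_⟩
    have := hR z hz
    exact (this.trans (le_max_left _ _)).trans_lt (by linarith)
  obtain ⟨ε, hε, hεs⟩ : ∃ ε > 0, ∀ z : V, ‖z‖ < ε → u' z ∈ B := by
    have h1 : IsOpen (u' ⁻¹' B) := hB.preimage hu'.1.continuous
    have h2 : (0 : V) ∈ u' ⁻¹' B := by rw [mem_preimage, hu'0]; exact hqB
    obtain ⟨ε, hε, h3⟩ := Metric.isOpen_iff.mp h1 0 h2
    exact ⟨ε, hε, fun z hz => h3 (mem_ball_zero_iff.mpr hz)⟩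
  set k : ℝ := max 1 (R / ε) with hk_def
  have hk : 1 ≤ k := le_max_left _ _
  have hkR : R ≤ 0 + k * (ε - 0) := by
    have h1 : R / ε ≤ k := le_max_right _ _
    have h2 : R ≤ k * ε := by rwa [div_le_iff₀ hε] at h1
    linarith
  set θ : M ≃ₜ M := (push u' hu'.1 0 k R hk le_rfl).symm with hθ
  have hθ1 : ∀ z, θ (u' z) = u' ((expand V 0 k R hk le_rfl).symm z) := fun z =>
    push_symm_apply hu'.1 hk le_rfl z
  refine ⟨F.trans θ, ?_, ?_, ?_, ?_, ?_⟩
  · change θ (F q) = q
    rw [hFq, ← hu'0, hθ1]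
    congr 1
    rw [Homeomorph.symm_apply_eq, expand_of_le hk le_rfl (by simp)]
  · intro m
    change θ (F m) ∈ K ↔ m ∈ K
    rw [hθ, push_symm_mem hu' hk le_rfl, hFK]
  · intro x hx
    change θ (F x) = F x
    exact push_symm_of_notMem hu'.1 hk le_rfl (fun h => hx ((hrange x).1 h))
  · intro x hx
    have h1 : θ (F x) ∈ range u' := by
      obtain ⟨z, hz⟩ := (hrange x).2 hx
      rw [← hz, hθ1]
      exact mem_range_self _
    refine ⟨F.symm (θ (F x)), ?_, ?_⟩
    · rw [← hrange, F.apply_symm_apply]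
      exact h1
    · change θ (F x) = F (F.symm (θ (F x)))
      rw [F.apply_symm_apply]
  · intro x hx
    change θ (F x) ∈ B
    have h1 : F x ∈ D := mem_image_of_mem _ hx
    obtain ⟨z, hz⟩ := hDr h1
    rw [← hz, hθ1]
    apply hεs
    apply norm_lt_of_expand_lt hk le_rfl hε.le hkR
    rw [Homeomorph.apply_symm_apply]
    exact hRs z (by rw [hz]; exact h1)

theorem exists_shrink {V M : Type} [NormedAddCommGroup V] [NormedSpace ℝ V] [ProperSpace V]
    [TopologicalSpace M] [T2Space M] [CompactSpace M] {L : Submodule ℝ V} {K A : Set M}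
    {w : ℕ → V → M} (hw : ∀ n, PCell L K (w n))
    (hcl : ∀ n, closure (range (w (n + 1))) ⊆ range (w n)) (hA : ⋂ n, range (w n) = A) {q : M}
    (hqK : q ∈ K) (hqA : q ∈ A) :
    ∃ F : M → M, Continuous F ∧ (∀ x, F x = q ↔ x ∈ A) ∧ InjOn F Aᶜ ∧ Function.Surjective F ∧
      ∀ x, x ∉ A → (F x ∈ K ↔ x ∈ K) := by
  classical
  have hAn : ∀ n, A ⊆ range (w n) := fun n => by
    rw [← hA]; exact iInter_subset _ n
  have hdec : ∀ n, range (w (n + 1)) ⊆ range (w n) := fun n => subset_closure.trans (hcl n)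
  have hanti : ∀ n m, n ≤ m → range (w m) ⊆ range (w n) := by
    intro n m h
    induction m, h using Nat.le_induction with
    | base => exact Subset.rfl
    | succ m _ ih => exact (hdec m).trans ih
  obtain ⟨v, hv, hvr, hv0⟩ := (hw 0).recenter hqK (hAn 0 hqA)
  -- small neighbourhoods of `q`
  let B : ℕ → Set M := fun n => v '' Metric.ball 0 (1 / ((n : ℝ) + 1))
  have hBo : ∀ n, IsOpen (B n) := fun n => hv.1.isOpenMap _ Metric.isOpen_ball
  have hqB : ∀ n, q ∈ B n := fun n => ⟨0, by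
    rw [mem_ball_zero_iff, norm_zero]
    positivity, hv0⟩
  have hBn : ∀ O : Set M, O ∈ 𝓝 q → ∃ n, B n ⊆ O := by
    intro O hO
    have h1 : v ⁻¹' O ∈ 𝓝 (0 : V) := hv.1.continuous.continuousAt.preimage_mem_nhds (by rwa [hv0])
    obtain ⟨ε, hε, h2⟩ := Metric.mem_nhds_iff.1 h1
    obtain ⟨n, hn⟩ := exists_nat_one_div_lt hε
    refine ⟨n, ?_⟩
    rintro _ ⟨z, hz, rfl⟩
    exact h2 (Metric.ball_subset_ball hn.le hz)
  have hBm : ∀ m : M, m ≠ q → ∃ n, m ∉ B n := by
    intro m hm
    obtain ⟨n, hn⟩ := hBn {m}ᶜ (isOpen_compl_singleton.mem_nhds (fun h => hm h.symm))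
    exact ⟨n, fun h => hn h rfl⟩
  -- the sequence
  let St := {F : M ≃ₜ M // F q = q ∧ ∀ m, F m ∈ K ↔ m ∈ K}
  have hstep : ∀ (n : ℕ) (F : St), ∃ F' : St, (∀ x, x ∉ range (w n) → F'.1 x = F.1 x) ∧
      (∀ x ∈ range (w n), ∃ y ∈ range (w n), F'.1 x = F.1 y) ∧
      ∀ x ∈ closure (range (w (n + 1))), F'.1 x ∈ B n := by
    intro n F
    obtain ⟨F', h1, h2, h3, h4, h5⟩ := shrink_step (v := w (n + 1)) (hw n) (hcl n) hqK
      (hAn n hqA) (hBo n) (hqB n) F.1 F.2.1 F.2.2
    exact ⟨⟨F', h1, h2⟩, h3, h4, h5⟩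
  choose f hf1 hf2 hf3 using hstep
  let s : ℕ → St := fun n => Nat.rec ⟨Homeomorph.refl M, rfl, fun _ => Iff.rfl⟩ (fun n e => f n e) n
  have hs : ∀ n, s (n + 1) = f n (s n) := fun n => rfl
  -- off the `n`-th cell the sequence is constant from `n` on
  have hconst : ∀ n m, n ≤ m → ∀ x, x ∉ range (w n) → (s m).1 x = (s n).1 x := by
    intro n m h x hx
    induction m, h using Nat.le_induction with
    | base => rfl
    | succ m hm ih =>
      rw [hs, hf1 m (s m) x (fun h => hx (hanti n m hm h)), ih]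
  -- the cells stay in the small neighbourhoods
  have hstay : ∀ n m, n + 1 ≤ m → ∀ x ∈ range (w (n + 1)), (s m).1 x ∈ B n := by
    intro n m h
    have key : ∀ x ∈ range (w (n + 1)), ∃ y ∈ range (w (n + 1)), (s m).1 x = (s (n + 1)).1 y := by
      induction m, h using Nat.le_induction with
      | base => exact fun x hx => ⟨x, hx, rfl⟩
      | succ m hm ih =>
        intro x hx
        by_cases hxm : x ∈ range (w m)
        · obtain ⟨y, hy, hxy⟩ := hf2 m (s m) x hxm
          obtain ⟨z, hz, hyz⟩ := ih y (hanti (n + 1) m hm hy)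
          exact ⟨z, hz, by rw [hs, hxy, hyz]⟩
        · obtain ⟨y, hy, hxy⟩ := ih x hx
          exact ⟨y, hy, by rw [hs, hf1 m (s m) x hxm, hxy]⟩
    intro x hx
    obtain ⟨y, hy, hxy⟩ := key x hx
    rw [hxy, hs]
    exact hf3 n (s n) y (subset_closure hy)
  -- for each `x ∉ A` an index
  have hout : ∀ x, x ∉ A → ∃ n, x ∉ range (w n) := by
    intro x hx
    rw [← hA, mem_iInter] at hx
    push Not at hx
    exact hx
  let idx : M → ℕ := fun x => if h : ∃ n, x ∉ range (w n) then Nat.find h else 0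
  have hidx : ∀ x, x ∉ A → x ∉ range (w (idx x)) := by
    intro x hx
    have h := hout x hx
    have : idx x = Nat.find h := dif_pos h
    rw [this]
    exact Nat.find_spec h
  let F : M → M := fun x => if x ∈ A then q else (s (idx x)).1 x
  have hFA : ∀ x ∈ A, F x = q := fun x hx => if_pos hx
  have hFn : ∀ n x, x ∉ range (w n) → F x = (s n).1 x := by
    intro n x hx
    have hxA : x ∉ A := fun h => hx (hAn n h)
    have h1 : F x = (s (idx x)).1 x := if_neg hxA
    rw [h1]
    rcases le_total n (idx x) with h | h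
    · exact hconst n _ h x hx
    · exact (hconst _ n h x (hidx x hxA)).symm
  refine ⟨F, ?_, ?_, ?_, ?_, ?_⟩
  · rw [continuous_iff_continuousAt]
    intro x
    by_cases hx : x ∈ A
    · unfold ContinuousAt
      rw [hFA x hx]
      intro O hO
      obtain ⟨n, hn⟩ := hBn O hO
      have h1 : range (w (n + 1)) ∈ 𝓝 x := (hw (n + 1)).1.isOpen_range.mem_nhds (hAn _ hx)
      rw [mem_map]
      filter_upwards [h1] with y hy
      apply hn
      by_cases hyA : y ∈ A
      · rw [hFA y hyA]; exact hqB n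
      · obtain ⟨m, hm⟩ := hout y hyA
        have hm' : y ∉ range (w (max m (n + 1))) := fun h => hm (hanti m _ (le_max_left _ _) h)
        rw [hFn _ y hm']
        exact hstay n _ (le_max_right _ _) y hy
    · obtain ⟨n, hn⟩ := hout x hx
      have hx' : x ∉ closure (range (w (n + 1))) := fun h => hn (hcl n h)
      have h1 : F =ᶠ[𝓝 x] (s (n + 1)).1 := by
        filter_upwards [isClosed_closure.isOpen_compl.mem_nhds hx'] with y hy
        exact hFn _ y (fun h => hy (subset_closure h))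
      exact (s (n + 1)).1.continuous.continuousAt.congr h1.symm
  · intro x
    constructor
    · intro h
      by_contra hx
      obtain ⟨n, hn⟩ := hout x hx
      rw [hFn n x hn] at h
      have h2 : x = q := (s n).1.injective (h.trans (s n).2.1.symm)
      exact hx (h2 ▸ hqA)
    · exact hFA x
  · intro x hx y hy hxy
    obtain ⟨n, hn⟩ := hout x hx
    obtain ⟨m, hm⟩ := hout y hy
    rw [hFn (max n m) x (fun h => hn (hanti n _ (le_max_left _ _) h)),
      hFn (max n m) y (fun h => hm (hanti m _ (le_max_right _ _) h))] at hxy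
    exact (s (max n m)).1.injective hxy
  · intro m
    by_cases hm : m = q
    · exact ⟨q, by rw [hFA q hqA, hm]⟩
    · obtain ⟨n, hn⟩ := hBm m hm
      refine ⟨(s (n + 1)).1.symm m, ?_⟩
      have h1 : (s (n + 1)).1.symm m ∉ range (w (n + 1)) := by
        intro h
        apply hn
        have := hstay n (n + 1) le_rfl _ h
        rwa [Homeomorph.apply_symm_apply] at this
      rw [hFn _ _ h1, Homeomorph.apply_symm_apply]
  · intro x hx
    obtain ⟨n, hn⟩ := hout x hx
    rw [hFn n x hn]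
    exact (s n).2.2 x

end Pool.Agent.LK
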