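import Pool.Agent.MP_aea6d5_co.NonCancel
import Pool.Agent.MP_aea6d5_co.Shrink
import Pool.Agent.MP_aea6d5_co.Restrict

/-! Joining an unknotted polygon does not change the type. -/

set_option autoImplicit false
set_option linter.unusedSectionVars false

open Set Topology Filter

namespace Pool.Agent.LK

lemma mem_refl3_Te {T : ℝ} {p : R3} : p ∈ refl3 '' Te T ↔
    p.2.1 = 0 ∧ -(T + 3 / 2) ≤ p.2.2 ∧ p.2.2 ≤ T + 1 / 2 ∧ |p.1| = (T + 3 / 2 - |p.2.2|) / 2 := by
  rw [mem_refl3_image]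
  constructor
  · rintro ⟨h1, h2, h3, h4⟩
    change p.2.1 = 0 at h1
    change -(T + 1 / 2) ≤ -p.2.2 at h2
    change -p.2.2 ≤ T + 3 / 2 at h3
    change |p.1| = (T + 3 / 2 - |-p.2.2|) / 2 at h4
    rw [abs_neg] at h4
    exact ⟨h1, by linarith, by linarith, h4⟩
  · rintro ⟨h1, h2, h3, h4⟩
    refine ⟨h1, ?_, ?_, ?_⟩
    · change -(T + 1 / 2) ≤ -p.2.2
      linarith
    · change -p.2.2 ≤ T + 3 / 2
      linarith
    · change |p.1| = (T + 3 / 2 - |-p.2.2|) / 2
      rw [abs_neg]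
      exact h4

/-- Inside the ball the join agrees with the upper part with its tent. -/
lemma agree_in {A B : Set R3} {T : ℝ} (hA : ∀ u ∈ A, u.2.2 ≤ -(T + 1 / 2)) (hT : 0 ≤ T)
    (u : R3) (hu : ‖u‖ < T + 3 / 2) :
    qq T + u ∈ A ∪ B ∪ St T ↔ qq T + u ∈ B ∪ refl3 '' Te T := by
  have h3 := abs_lt.mp ((abs_snd2_le u).trans_lt hu)
  rw [qq_add]
  constructor
  · rintro ((h | h) | ⟨h1, h2, h4⟩)
    · exfalso
      have h5 : T + 3 / 2 + u.2.2 ≤ -(T + 1 / 2) := hA _ h
      linarith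
    · exact Or.inl h
    · right
      have h5 := abs_le.mp h2
      change -(T + 1 / 2) ≤ T + 3 / 2 + u.2.2 ∧ T + 3 / 2 + u.2.2 ≤ T + 1 / 2 at h5
      rw [mem_refl3_Te]
      refine ⟨h1, ?_, h5.2, h4⟩
      change -(T + 3 / 2) ≤ T + 3 / 2 + u.2.2
      linarith
  · rintro (h | h)
    · exact Or.inl (Or.inr h)
    · right
      rw [mem_refl3_Te] at h
      obtain ⟨h1, h2, h4, h5⟩ := h
      refine ⟨h1, ?_, h5⟩
      change T + 3 / 2 + u.2.2 ≤ T + 1 / 2 at h4
      change |T + 3 / 2 + u.2.2| ≤ T + 1 / 2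
      rw [abs_le]
      constructor <;> linarith

/-- Nested cells shrinking to the ball. -/
lemma exists_cells {A B : Set R3} {T N : ℝ} (hN0 : 0 ≤ N) (hN : N < T)
    (hA : ∀ u ∈ A, u.2.2 ≤ -(T + 1 / 2))
    (hB : ∀ u ∈ B, |u.1| ≤ N ∧ |u.2.1| ≤ N ∧ T + 1 / 2 ≤ u.2.2 ∧ u.2.2 ≤ T + N)
    (hU : Unk (B ∪ refl3 '' Te T)) :
    ∃ w : ℕ → R3 → S3, (∀ n, PCell axisY (up (A ∪ B ∪ St T)) (w n)) ∧
      (∀ n, closure (range (w (n + 1))) ⊆ range (w n)) ∧
      ⋂ n, range (w n) = up (Metric.closedBall (qq T) (T + 1)) := by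
  have hT : 0 ≤ T := by linarith
  set q := qq T with hq
  set K := A ∪ B ∪ St T with hK
  -- small cells
  have hsmall : ∀ R₁ : ℝ, T + 1 < R₁ → R₁ < T + 3 / 2 → ∃ w : R3 → S3, PCell axisY (up K) w ∧
      up (Metric.closedBall q (T + 1)) ⊆ range w ∧ range w ⊆ up (Metric.ball q R₁) := by
    intro R₁ h1 h2
    obtain ⟨w, hw, hw1, hw2⟩ := cell_in (X := B ∪ refl3 '' Te T) (q := q) (R := T + 1)
      (R₁ := R₁) (by linarith) h1 (fun u hu hu' => by
        rw [← agree_in hA hT u (hu'.trans_lt h2)]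
        exact shell_join hN0 hN hA hB u hu (hu'.trans_lt h2)) hU
    refine ⟨w, ⟨hw.1, fun x => ?_⟩, hw1, hw2⟩
    rw [← hw.2 x]
    obtain ⟨v, hv, hvx⟩ := hw2 (mem_range_self x)
    rw [← hvx, coe_mem_up, coe_mem_up]
    rw [Metric.mem_ball, dist_eq_norm] at hv
    have h3 := agree_in (B := B) hA hT (v - q) (hv.trans h2)
    rw [← hq, add_sub_cancel] at h3
    exact h3
  -- thickening
  have hthick : ∀ U : Set S3, IsOpen U → up (Metric.closedBall q (T + 1)) ⊆ U →
      ∃ R₂ : ℝ, T + 1 < R₂ ∧ R₂ < T + 3 / 2 ∧ up (Metric.closedBall q R₂) ⊆ U := by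
    intro U hU hsub
    set C' : Set R3 := (fun v : R3 => (v : S3)) ⁻¹' Uᶜ ∩ Metric.closedBall q (T + 3 / 2) with hC'
    have hC'c : IsCompact C' :=
      (isCompact_closedBall q _).inter_left (hU.isClosed_compl.preimage OnePoint.continuous_coe)
    rcases C'.eq_empty_or_nonempty with hemp | hne
    · refine ⟨T + 5 / 4, by linarith, by linarith, ?_⟩
      rintro m ⟨v, hv, rfl⟩
      by_contra hcon
      have : v ∈ C' := ⟨hcon, Metric.closedBall_subset_closedBall (by linarith) hv⟩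
      rw [hemp] at this
      exact this
    · obtain ⟨v₀, hv₀, hmin⟩ := hC'c.exists_isMinOn hne
        (f := fun v : R3 => ‖v - q‖) (by fun_prop)
      have h4 : T + 1 < ‖v₀ - q‖ := by
        by_contra hcon
        push Not at hcon
        exact hv₀.1 (hsub (mem_up_closedBall.mpr hcon))
      have h5 : ‖v₀ - q‖ ≤ T + 3 / 2 := by
        have := hv₀.2
        rwa [Metric.mem_closedBall, dist_eq_norm] at this
      refine ⟨(T + 1 + ‖v₀ - q‖) / 2, by linarith, by linarith, ?_⟩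
      rintro m ⟨v, hv, rfl⟩
      by_contra hcon
      rw [Metric.mem_closedBall, dist_eq_norm] at hv
      have h6 : v ∈ C' := ⟨hcon, by
        rw [Metric.mem_closedBall, dist_eq_norm]
        linarith⟩
      have h7 : ‖v₀ - q‖ ≤ ‖v - q‖ := hmin h6
      linarith
  -- the recursion
  let St' := {w : R3 → S3 // PCell axisY (up K) w ∧ up (Metric.closedBall q (T + 1)) ⊆ range w}
  have hstep : ∀ (n : ℕ) (w : St'), ∃ w' : St', closure (range w'.1) ⊆ range w.1 ∧
      range w'.1 ⊆ up (Metric.ball q (T + 1 + 1 / ((n : ℝ) + 1))) := by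
    intro n w
    obtain ⟨R₂, h1, h2, h3⟩ := hthick (range w.1) w.2.1.1.isOpen_range w.2.2
    have h4 : 0 < 1 / ((n : ℝ) + 1) := by positivity
    set R₃ := min R₂ (T + 1 + 1 / ((n : ℝ) + 1)) with hR₃
    have h5 : T + 1 < R₃ := lt_min h1 (by linarith)
    have h6 : R₃ < T + 3 / 2 := (min_le_left _ _).trans_lt h2
    obtain ⟨w', hw', hw1, hw2⟩ := hsmall R₃ h5 h6
    refine ⟨⟨w', hw', hw1⟩, ?_, ?_⟩
    · have h7 : IsClosed (up (Metric.closedBall q R₃)) :=
        ((isCompact_closedBall q R₃).image OnePoint.continuous_coe).isClosed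
      have h8 : range w' ⊆ up (Metric.closedBall q R₃) :=
        hw2.trans (image_mono Metric.ball_subset_closedBall)
      have h9 : up (Metric.closedBall q R₃) ⊆ range w.1 :=
        (image_mono (Metric.closedBall_subset_closedBall (min_le_left _ _))).trans h3
      exact (h7.closure_subset_iff.mpr h8).trans h9
    · exact hw2.trans (image_mono (Metric.ball_subset_ball (min_le_right _ _)))
  choose f hf1 hf2 using hstep
  obtain ⟨w₀, hw₀, hw₀1, -⟩ := hsmall (T + 5 / 4) (by linarith) (by linarith)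
  let s : ℕ → St' := fun n => Nat.rec ⟨w₀, hw₀, hw₀1⟩ (fun n w => f n w) n
  have hs : ∀ n, s (n + 1) = f n (s n) := fun n => rfl
  refine ⟨fun n => (s n).1, fun n => (s n).2.1, fun n => ?_, ?_⟩
  · change closure (range (s (n + 1)).1) ⊆ range (s n).1
    rw [hs]
    exact hf1 n (s n)
  · apply Subset.antisymm
    · intro m hm
      rw [mem_iInter] at hm
      have h1 : ∀ n : ℕ, m ∈ up (Metric.ball q (T + 1 + 1 / ((n : ℝ) + 1))) := by
        intro n
        apply hf2 n (s n)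
        rw [← hs]
        exact hm (n + 1)
      obtain ⟨v, hv, rfl⟩ := h1 0
      rw [mem_up_closedBall]
      by_contra hcon
      push Not at hcon
      obtain ⟨n, hn⟩ := exists_nat_one_div_lt (sub_pos.mpr hcon)
      have h2 := h1 n
      rw [mem_up_ball] at h2
      linarith
    · intro m hm
      rw [mem_iInter]
      intro n
      exact (s n).2.2 hm

lemma b1_side {A B : Set R3} {T N : ℝ} (hN0 : 0 ≤ N) (hN : N < T)
    (hA : ∀ u ∈ A, u.2.2 ≤ -(T + 1 / 2))
    (hB : ∀ u ∈ B, |u.1| ≤ N ∧ |u.2.1| ≤ N ∧ T + 1 / 2 ≤ u.2.2 ∧ u.2.2 ≤ T + N)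
    (hU : Unk (B ∪ refl3 '' Te T)) :
    ∃ Φ : S3 ≃ₜ S3, Φ '' up (A ∪ Te T) = up (A ∪ B ∪ St T) := by
  have hT : 0 ≤ T := by linarith
  obtain ⟨w, hw, hcl, hint⟩ := exists_cells hN0 hN hA hB hU
  set q := qq T with hq
  set K := A ∪ B ∪ St T with hK
  set CB := up (Metric.closedBall q (T + 1)) with hCB
  have hT1 : 0 < T + 1 := by linarith
  -- the point
  set s₀ : R3 := q + (T + 1) • dpt with hs₀
  have hs₀K : s₀ ∈ K :=
    (shell_join hN0 hN hA hB ((T + 1) • dpt) (by rw [norm_smul_dpt hT1])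
      (by rw [norm_smul_dpt hT1]; linarith)).mpr (smul_dpt_mem hT1)
  have hs₀C : (s₀ : S3) ∈ CB := by
    rw [hCB, mem_up_closedBall, hs₀, add_sub_cancel_left, norm_smul_dpt hT1]
  obtain ⟨F, hF, hFs, hFinj, hFsurj, hFK⟩ :=
    exists_shrink hw hcl hint (q := (s₀ : S3)) (coe_mem_up.mpr hs₀K) hs₀C
  obtain ⟨P, G, h1, h2, h3, h4, h5, h6, h7⟩ := radial_maps (X := A ∪ Te T) (X' := K) (q := q)
    (R := T + 1) (R' := T + 3 / 2) hT1 (by linarith)
    (fun v _ hv c hc hcv hvX => cone_Te hT hA v hv c hc hcv hvX) (agree_off hT hB hN.le)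
  -- the map
  classical
  set f : S3 → S3 := fun m => if m = (q : S3) then (s₀ : S3) else F (P m) with hf
  have hfq : f (q : S3) = (s₀ : S3) := if_pos rfl
  have hfn : ∀ m, m ≠ (q : S3) → f m = F (P m) := fun m hm => if_neg hm
  have hfns : ∀ m, m ≠ (q : S3) → f m ≠ (s₀ : S3) := by
    intro m hm hcon
    rw [hfn m hm, hFs] at hcon
    exact h3 m hm hcon
  have hinj : Function.Injective f := by
    intro a b hab
    by_cases ha : a = (q : S3)
    · by_cases hb : b = (q : S3)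
      · rw [ha, hb]
      · rw [ha, hfq] at hab
        exact absurd hab.symm (hfns b hb)
    · by_cases hb : b = (q : S3)
      · rw [hb, hfq] at hab
        exact absurd hab (hfns a ha)
      · rw [hfn a ha, hfn b hb] at hab
        have h8 := hFinj (h3 a ha) (h3 b hb) hab
        rw [← h5 a ha, h8, h5 b hb]
  have hsurj : Function.Surjective f := by
    intro y
    by_cases hy : y = (s₀ : S3)
    · exact ⟨q, by rw [hfq, hy]⟩
    · obtain ⟨x, hx⟩ := hFsurj y
      have hxC : x ∉ CB := by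
        rw [← hFs, hx]
        exact hy
      refine ⟨G x, ?_⟩
      rw [hfn _ (h4 x hxC), h6 x hxC, hx]
  have hcont : Continuous f := by
    rw [continuous_iff_continuousAt]
    intro m
    by_cases hm : m = (q : S3)
    · subst hm
      rw [ContinuousAt, hfq]
      intro U hU
      change f ⁻¹' U ∈ 𝓝 _
      obtain ⟨W, hWU, hWo, hsW⟩ := mem_nhds_iff.mp hU
      have h8 : IsCompact (F ⁻¹' Wᶜ) := (hWo.isClosed_compl.preimage hF).isCompact
      have h9 : ∀ x ∈ F ⁻¹' Wᶜ, x ∉ CB := by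
        intro x hx hxC
        rw [mem_preimage, (hFs x).mpr hxC] at hx
        exact hx hsW
      have h10 : IsCompact (G '' (F ⁻¹' Wᶜ)) :=
        h8.image_of_continuousOn fun x hx => (h2 x (h9 x hx)).continuousWithinAt
      have h11 : (q : S3) ∈ (G '' (F ⁻¹' Wᶜ))ᶜ := by
        rintro ⟨x, hx, hxq⟩
        exact h4 x (h9 x hx) hxq
      filter_upwards [h10.isClosed.isOpen_compl.mem_nhds h11] with y hy
      apply hWU
      by_cases hyq : y = (q : S3)
      · rw [hyq, hfq]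
        exact hsW
      · rw [hfn y hyq]
        by_contra hcon
        exact hy ⟨P y, hcon, h5 y hyq⟩
    · have h8 : f =ᶠ[𝓝 m] F ∘ P := by
        filter_upwards [isOpen_compl_singleton.mem_nhds hm] with y hy
        exact hfn y hy
      refine ContinuousAt.congr ?_ h8.symm
      exact ContinuousAt.comp hF.continuousAt (h1 m hm)
  set Φ : S3 ≃ₜ S3 := hcont.homeoOfEquivCompactToT2 (f := Equiv.ofBijective f ⟨hinj, hsurj⟩)
    with hΦ
  have hΦf : ∀ m, Φ m = f m := fun m => rfl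
  refine ⟨Φ, ?_⟩
  have hmem : ∀ m, f m ∈ up K ↔ m ∈ up (A ∪ Te T) := by
    intro m
    by_cases hm : m = (q : S3)
    · rw [hm, hfq, coe_mem_up, coe_mem_up]
      refine ⟨fun _ => Or.inr ?_, fun _ => hs₀K⟩
      refine ⟨rfl, ?_, ?_, ?_⟩
      · change -(T + 1 / 2) ≤ T + 3 / 2
        linarith
      · exact le_refl (T + 3 / 2)
      · change |(0 : ℝ)| = (T + 3 / 2 - |T + 3 / 2|) / 2
        rw [abs_zero, abs_of_nonneg (by linarith), sub_self, zero_div]
    · rw [hfn m hm, hFK _ (h3 m hm), h7 m hm]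
  ext m
  constructor
  · rintro ⟨x, hx, rfl⟩
    rw [hΦf, hmem]
    exact hx
  · intro hm
    obtain ⟨x, rfl⟩ := hsurj m
    exact ⟨x, (hmem x).mp hm, rfl⟩

lemma ext3_image_up (φ : R3 ≃ₜ R3) (X : Set R3) : ext3 φ '' up X = up (φ '' X) := by
  ext m
  constructor
  · rintro ⟨_, ⟨v, hv, rfl⟩, rfl⟩
    exact ⟨φ v, ⟨v, hv, rfl⟩, rfl⟩
  · rintro ⟨_, ⟨v, hv, rfl⟩, rfl⟩
    exact ⟨v, ⟨v, hv, rfl⟩, rfl⟩

/-- **Joining an unknotted polygon does not change the type.** -/
theorem b1Statement : B1Statement := by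
  intro E F x y h hE hU hF hB he hf
  obtain ⟨A, B, T, N, hN0, hN, hA, hB', hJ, hEA, hFB⟩ := exists_chart hE hF hB he hf
  have hUA : Unk (refl3 '' A ∪ refl3 '' Te T) := by
    rw [← image_union, unk_homeo_iff]
    exact hEA.unk.mp hU
  obtain ⟨Φ, hΦ⟩ := b1_side (A := refl3 '' B) (B := refl3 '' A) hN0 hN (by
      intro u hu
      rw [mem_refl3_image] at hu
      have h3 : T + 1 / 2 ≤ -u.2.2 := (hB' _ hu).2.2.1
      linarith) (by
      intro u hu
      rw [mem_refl3_image] at hu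
      obtain ⟨h3, h4, h5, h6⟩ := hA _ hu
      change T + 1 / 2 ≤ - -u.2.2 at h5
      change - -u.2.2 ≤ T + N at h6
      rw [neg_neg] at h5 h6
      exact ⟨h3, h4, h5, h6⟩) hUA
  rw [← refl3_join] at hΦ
  obtain ⟨φ, hφ⟩ := hFB
  obtain ⟨ψ, hψ⟩ := hJ.trans (Eqv.refl3 _)
  set Ξ : S3 ≃ₜ S3 := ((ext3 φ).trans Φ).trans (ext3 ψ).symm with hΞ
  have h1 : Ξ '' up (body F) = up (body (joinZ E F x y h)) := by
    have h2 : Ξ '' up (body F) = (ext3 ψ).symm '' (Φ '' (ext3 φ '' up (body F))) := by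
      rw [image_image, image_image]
      rfl
    rw [h2, ext3_image_up, hφ, hΦ, ← hψ, ← ext3_image_up]
    exact (ext3 ψ).symm_image_image _
  exact restrict_homeo Ξ h1

end Pool.Agent.LK
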