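import Pool.Agent.MP_aea6d5_co.RLower

/-! # (L3) Rectangles belong to the class -/

set_option autoImplicit false

namespace Pool.Agent.LK

/-- `h` are the left ends of the edges in direction `x`, `v` the lower ends of the edges in
direction `y`, and there are no other edges. -/
def Dat (E : Finset (Sym2 P3)) (h v : ℤ → ℤ → ℤ → Prop) : Prop :=
  ∀ u1 u2 u3 v1 v2 v3 : ℤ, s(((u1, u2, u3) : P3), ((v1, v2, v3) : P3)) ∈ E ↔
    (v1 = u1 + 1 ∧ v2 = u2 ∧ v3 = u3 ∧ h u1 u2 u3) ∨ (u1 = v1 + 1 ∧ v2 = u2 ∧ v3 = u3 ∧ h v1 v2 v3) ∨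
    (v1 = u1 ∧ v2 = u2 + 1 ∧ v3 = u3 ∧ v u1 u2 u3) ∨ (v1 = u1 ∧ u2 = v2 + 1 ∧ v3 = u3 ∧ v v1 v2 v3)

theorem Dat.union {E F : Finset (Sym2 P3)} {h v h' v' : ℤ → ℤ → ℤ → Prop} (hE : Dat E h v)
    (hF : Dat F h' v') : Dat (E ∪ F) (fun x y z => h x y z ∨ h' x y z)
      (fun x y z => v x y z ∨ v' x y z) := by
  intro u1 u2 u3 v1 v2 v3
  rw [Finset.mem_union, hE, hF]
  constructor
  · rintro ((⟨h1, h2, h3, h4⟩ | ⟨h1, h2, h3, h4⟩ | ⟨h1, h2, h3, h4⟩ | ⟨h1, h2, h3, h4⟩) |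
      (⟨h1, h2, h3, h4⟩ | ⟨h1, h2, h3, h4⟩ | ⟨h1, h2, h3, h4⟩ | ⟨h1, h2, h3, h4⟩))
    · exact Or.inl ⟨h1, h2, h3, Or.inl h4⟩
    · exact Or.inr (Or.inl ⟨h1, h2, h3, Or.inl h4⟩)
    · exact Or.inr (Or.inr (Or.inl ⟨h1, h2, h3, Or.inl h4⟩))
    · exact Or.inr (Or.inr (Or.inr ⟨h1, h2, h3, Or.inl h4⟩))
    · exact Or.inl ⟨h1, h2, h3, Or.inr h4⟩
    · exact Or.inr (Or.inl ⟨h1, h2, h3, Or.inr h4⟩)
    · exact Or.inr (Or.inr (Or.inl ⟨h1, h2, h3, Or.inr h4⟩))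
    · exact Or.inr (Or.inr (Or.inr ⟨h1, h2, h3, Or.inr h4⟩))
  · rintro (⟨h1, h2, h3, h4 | h4⟩ | ⟨h1, h2, h3, h4 | h4⟩ | ⟨h1, h2, h3, h4 | h4⟩ |
      ⟨h1, h2, h3, h4 | h4⟩)
    · exact Or.inl (Or.inl ⟨h1, h2, h3, h4⟩)
    · exact Or.inr (Or.inl ⟨h1, h2, h3, h4⟩)
    · exact Or.inl (Or.inr (Or.inl ⟨h1, h2, h3, h4⟩))
    · exact Or.inr (Or.inr (Or.inl ⟨h1, h2, h3, h4⟩))
    · exact Or.inl (Or.inr (Or.inr (Or.inl ⟨h1, h2, h3, h4⟩)))
    · exact Or.inr (Or.inr (Or.inr (Or.inl ⟨h1, h2, h3, h4⟩)))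
    · exact Or.inl (Or.inr (Or.inr (Or.inr ⟨h1, h2, h3, h4⟩)))
    · exact Or.inr (Or.inr (Or.inr (Or.inr ⟨h1, h2, h3, h4⟩)))

theorem Dat.sdiff {E F : Finset (Sym2 P3)} {h v h' v' : ℤ → ℤ → ℤ → Prop} (hE : Dat E h v)
    (hF : Dat F h' v') : Dat (E \ F) (fun x y z => h x y z ∧ ¬ h' x y z)
      (fun x y z => v x y z ∧ ¬ v' x y z) := by
  intro u1 u2 u3 v1 v2 v3
  rw [Finset.mem_sdiff, hE, hF]
  constructor
  · rintro ⟨⟨rfl, rfl, rfl, h1⟩ | ⟨rfl, rfl, rfl, h1⟩ | ⟨rfl, rfl, rfl, h1⟩ | ⟨rfl, rfl, rfl, h1⟩,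
      h2⟩
    · exact Or.inl ⟨rfl, rfl, rfl, h1, fun h3 => h2 (Or.inl ⟨rfl, rfl, rfl, h3⟩)⟩
    · exact Or.inr (Or.inl ⟨rfl, rfl, rfl, h1, fun h3 => h2 (Or.inr (Or.inl ⟨rfl, rfl, rfl, h3⟩))⟩)
    · exact Or.inr (Or.inr (Or.inl ⟨rfl, rfl, rfl, h1,
        fun h3 => h2 (Or.inr (Or.inr (Or.inl ⟨rfl, rfl, rfl, h3⟩)))⟩))
    · exact Or.inr (Or.inr (Or.inr ⟨rfl, rfl, rfl, h1,
        fun h3 => h2 (Or.inr (Or.inr (Or.inr ⟨rfl, rfl, rfl, h3⟩)))⟩))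
  · rintro (⟨rfl, rfl, rfl, h1, h2⟩ | ⟨rfl, rfl, rfl, h1, h2⟩ | ⟨rfl, rfl, rfl, h1, h2⟩ |
      ⟨rfl, rfl, rfl, h1, h2⟩)
    · refine ⟨Or.inl ⟨rfl, rfl, rfl, h1⟩, ?_⟩
      rintro (⟨-, -, -, h3⟩ | ⟨h3, -⟩ | ⟨h3, -⟩ | ⟨h3, -⟩)
      · exact h2 h3
      all_goals omega
    · refine ⟨Or.inr (Or.inl ⟨rfl, rfl, rfl, h1⟩), ?_⟩
      rintro (⟨h3, -⟩ | ⟨-, -, -, h3⟩ | ⟨h3, -⟩ | ⟨h3, -⟩)
      · omega
      · exact h2 h3
      all_goals omega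
    · refine ⟨Or.inr (Or.inr (Or.inl ⟨rfl, rfl, rfl, h1⟩)), ?_⟩
      rintro (⟨h3, -⟩ | ⟨h3, -⟩ | ⟨-, -, -, h3⟩ | ⟨-, h3, -⟩)
      · omega
      · omega
      · exact h2 h3
      · omega
    · refine ⟨Or.inr (Or.inr (Or.inr ⟨rfl, rfl, rfl, h1⟩)), ?_⟩
      rintro (⟨h3, -⟩ | ⟨h3, -⟩ | ⟨-, h3, -⟩ | ⟨-, -, -, h3⟩)
      · omega
      · omega
      · omega
      · exact h2 h3

theorem Dat.ext {E F : Finset (Sym2 P3)} {h v h' v' : ℤ → ℤ → ℤ → Prop} (hE : Dat E h v)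
    (hF : Dat F h' v') (h1 : ∀ x y z, h x y z ↔ h' x y z) (h2 : ∀ x y z, v x y z ↔ v' x y z) :
    E = F := by
  apply edge_ext
  rintro ⟨u1, u2, u3⟩ ⟨v1, v2, v3⟩
  rw [hE, hF]
  simp only [h1, h2]

theorem Dat.congr {E : Finset (Sym2 P3)} {h v h' v' : ℤ → ℤ → ℤ → Prop} (hE : Dat E h v)
    (h1 : ∀ x y z, h x y z ↔ h' x y z) (h2 : ∀ x y z, v x y z ↔ v' x y z) : Dat E h' v' := by
  intro u1 u2 u3 v1 v2 v3
  rw [hE]
  simp only [h1, h2]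

theorem Dat.not_mem_verts {E : Finset (Sym2 P3)} {h v : ℤ → ℤ → ℤ → Prop} (hE : Dat E h v)
    {a b c : ℤ} (h1 : ¬ h a b c) (h2 : ¬ h (a - 1) b c) (h3 : ¬ v a b c) (h4 : ¬ v a (b - 1) c) :
    ((a, b, c) : P3) ∉ verts E := by
  rintro ⟨⟨v1, v2, v3⟩, hw⟩
  rw [hE] at hw
  rcases hw with ⟨-, -, -, h⟩ | ⟨h5, rfl, rfl, h⟩ | ⟨-, -, -, h⟩ | ⟨rfl, h5, rfl, h⟩
  · exact h1 h
  · exact h2 (by rwa [show a - 1 = v1 by omega])
  · exact h3 h
  · exact h4 (by rwa [show b - 1 = v2 by omega])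

theorem dat_pathX (n : ℕ) (a b c : ℤ) : Dat (pathE (a, b, c) (List.replicate n (1, 0, 0)))
    (fun x y z => y = b ∧ z = c ∧ a ≤ x ∧ x < a + n) (fun _ _ _ => False) := by
  intro u1 u2 u3 v1 v2 v3
  induction n generalizing a with
  | zero =>
    simp only [List.replicate_zero, pathE, Finset.notMem_empty, false_iff, and_false, or_false,
      false_or, Nat.cast_zero]
    omega
  | succ n ih =>
    rw [List.replicate_succ, pathE, Finset.mem_insert]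
    have : ((a, b, c) : P3) + (1, 0, 0) = (a + 1, b, c) := by simp
    rw [this, ih, Sym2.eq_iff]
    simp only [Prod.mk.injEq]
    push_cast
    simp only [and_false, or_false, false_or]
    constructor
    · rintro ((⟨⟨rfl, rfl, rfl⟩, rfl, rfl, rfl⟩ | ⟨⟨rfl, rfl, rfl⟩, rfl, rfl, rfl⟩) | h | h)
      all_goals omega
    · rintro (h | h)
      all_goals omega

theorem dat_pathY (n : ℕ) (a b c : ℤ) : Dat (pathE (a, b, c) (List.replicate n (0, 1, 0)))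
    (fun _ _ _ => False) (fun x y z => x = a ∧ z = c ∧ b ≤ y ∧ y < b + n) := by
  intro u1 u2 u3 v1 v2 v3
  induction n generalizing b with
  | zero =>
    simp only [List.replicate_zero, pathE, Finset.notMem_empty, false_iff, and_false, or_false,
      false_or, Nat.cast_zero]
    omega
  | succ n ih =>
    rw [List.replicate_succ, pathE, Finset.mem_insert]
    have : ((a, b, c) : P3) + (0, 1, 0) = (a, b + 1, c) := by simp
    rw [this, ih, Sym2.eq_iff]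
    simp only [Prod.mk.injEq]
    push_cast
    simp only [and_false, or_false, false_or]
    constructor
    · rintro ((⟨⟨rfl, rfl, rfl⟩, rfl, rfl, rfl⟩ | ⟨⟨rfl, rfl, rfl⟩, rfl, rfl, rfl⟩) | h | h)
      all_goals omega
    · rintro (h | h)
      all_goals omega

theorem dat_x (a b c : ℤ) : Dat {s(((a, b, c) : P3), ((a + 1, b, c) : P3))}
    (fun x y z => x = a ∧ y = b ∧ z = c) (fun _ _ _ => False) := by
  intro u1 u2 u3 v1 v2 v3
  rw [Finset.mem_singleton, Sym2.eq_iff]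
  simp only [Prod.mk.injEq]
  constructor
  · rintro (⟨⟨rfl, rfl, rfl⟩, rfl, rfl, rfl⟩ | ⟨⟨rfl, rfl, rfl⟩, rfl, rfl, rfl⟩) <;> simp
  · rintro (⟨rfl, rfl, rfl, h⟩ | ⟨rfl, rfl, rfl, h⟩ | ⟨rfl, rfl, rfl, h⟩ | ⟨rfl, rfl, rfl, h⟩) <;>
      first | exact h.elim | (obtain ⟨rfl, rfl, rfl⟩ := h; simp)

theorem dat_y (a b c : ℤ) : Dat {s(((a, b, c) : P3), ((a, b + 1, c) : P3))}
    (fun _ _ _ => False) (fun x y z => x = a ∧ y = b ∧ z = c) := by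
  intro u1 u2 u3 v1 v2 v3
  rw [Finset.mem_singleton, Sym2.eq_iff]
  simp only [Prod.mk.injEq]
  constructor
  · rintro (⟨⟨rfl, rfl, rfl⟩, rfl, rfl, rfl⟩ | ⟨⟨rfl, rfl, rfl⟩, rfl, rfl, rfl⟩) <;> simp
  · rintro (⟨rfl, rfl, rfl, h⟩ | ⟨rfl, rfl, rfl, h⟩ | ⟨rfl, rfl, rfl, h⟩ | ⟨rfl, rfl, rfl, h⟩) <;>
      first | exact h.elim | (obtain ⟨rfl, rfl, rfl⟩ := h; simp)

/-- horizontal edges of the intermediate shape -/
def sh (a b j : ℕ) (x y z : ℤ) : Prop := z = 0 ∧ -1 ≤ x ∧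
  ((y = 0 ∧ x < a) ∨ (y = b ∧ x < (a : ℤ) - 1) ∨ (y = j ∧ x = (a : ℤ) - 1))

/-- vertical edges of the intermediate shape -/
def sv (a b j : ℕ) (x y z : ℤ) : Prop := z = 0 ∧
  ((x = -1 ∧ 0 ≤ y ∧ y < b) ∨ (x = a ∧ 0 ≤ y ∧ y < j) ∨ (x = (a : ℤ) - 1 ∧ (j : ℤ) ≤ y ∧ y < b))

theorem dat_rect (a b : ℕ) : Dat (rect a b)
    (fun x y z => z = 0 ∧ -1 ≤ x ∧ x < (a : ℤ) - 1 ∧ (y = 0 ∨ y = b))
    (fun x y z => z = 0 ∧ 0 ≤ y ∧ y < b ∧ (x = -1 ∨ x = (a : ℤ) - 1)) := by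
  have := (((dat_pathX a (-1) 0 0).union (dat_pathX a (-1) b 0)).union
    (dat_pathY b (-1) 0 0)).union (dat_pathY b ((a : ℤ) - 1) 0 0)
  refine this.congr ?_ ?_ <;> intro x y z <;>
    (try simp only [or_false, false_or, and_false, false_and, not_false_eq_true, and_true, true_and]) <;>
    constructor <;> intro h <;> omega

theorem step_one {C : Finset (Sym2 P3) → Prop} (hC : ClosedZ C) {a b : ℕ} (ha : 1 ≤ a) (hb : 1 ≤ b)
    (h : C (rect a b)) : ∃ E, C E ∧ Dat E (sh a b 1) (sv a b 1) := by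
  have hr := dat_rect a b
  refine ⟨bump (rect a b) ((a : ℤ) - 1, 0, 0) ((a : ℤ) - 1, 1, 0) (1, 0, 0), ?_, ?_⟩
  · apply hC.bump _ _ _ _ h
    · rw [hr]; beta_reduce; omega
    · simp [IsUnit3, Adj]
    · have : (((a : ℤ) - 1, 0, 0) : P3) + (1, 0, 0) = ((a : ℤ), 0, 0) := by simp
      rw [this]
      apply hr.not_mem_verts <;> beta_reduce <;> omega
    · have : (((a : ℤ) - 1, 1, 0) : P3) + (1, 0, 0) = ((a : ℤ), 1, 0) := by simp
      rw [this]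
      apply hr.not_mem_verts <;> beta_reduce <;> omega
  · have e1 : (((a : ℤ) - 1, 0, 0) : P3) + (1, 0, 0) = ((a : ℤ) - 1 + 1, 0, 0) := by simp
    have e2 : (((a : ℤ) - 1, 1, 0) : P3) + (1, 0, 0) = ((a : ℤ) - 1 + 1, 0 + 1, 0) := by simp
    have h1 := ((hr.sdiff (dat_y ((a : ℤ) - 1) 0 0)).union (dat_x ((a : ℤ) - 1) 0 0)).union
      ((dat_y ((a : ℤ) - 1 + 1) 0 0).union (dat_x ((a : ℤ) - 1) 1 0))
    have h2 : bump (rect a b) ((a : ℤ) - 1, 0, 0) ((a : ℤ) - 1, 1, 0) (1, 0, 0) =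
        (rect a b \ {s((((a : ℤ) - 1, 0, 0) : P3), (((a : ℤ) - 1, 0 + 1, 0) : P3))} ∪
        {s((((a : ℤ) - 1, 0, 0) : P3), (((a : ℤ) - 1 + 1, 0, 0) : P3))}) ∪
        ({s((((a : ℤ) - 1 + 1, 0, 0) : P3), (((a : ℤ) - 1 + 1, 0 + 1, 0) : P3))} ∪
        {s((((a : ℤ) - 1, 1, 0) : P3), (((a : ℤ) - 1 + 1, 1, 0) : P3))}) := by
      ext f
      rw [mem_bump, e1, e2]
      simp only [Finset.mem_union, Finset.mem_sdiff, Finset.mem_singleton, zero_add]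
      rw [Sym2.eq_swap (a := (((a : ℤ) - 1 + 1, 1, 0) : P3)) (b := (((a : ℤ) - 1, 1, 0) : P3))]
      tauto
    rw [h2]
    refine h1.congr ?_ ?_ <;> intro x y z <;> simp only [sh, sv, or_false, false_or, and_false, false_and, not_false_eq_true, and_true,
        true_and] <;> push_cast <;> constructor <;> intro h <;> omega

theorem step_succ {C : Finset (Sym2 P3) → Prop} (hC : ClosedZ C) {a b j : ℕ} (ha : 1 ≤ a)
    (hj : 1 ≤ j) (hjb : j < b) {E : Finset (Sym2 P3)} (h : C E) (hE : Dat E (sh a b j) (sv a b j)) :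
    ∃ E, C E ∧ Dat E (sh a b (j + 1)) (sv a b (j + 1)) := by
  refine ⟨flip E ((a : ℤ), (j : ℤ), 0) (-1, 0, 0) (0, 1, 0), ?_, ?_⟩
  · have e1 : (((a : ℤ), (j : ℤ), 0) : P3) + (-1, 0, 0) = ((a : ℤ) - 1, (j : ℤ), 0) := by
      simp [sub_eq_add_neg]
    have e2 : (((a : ℤ) - 1, (j : ℤ), 0) : P3) + (0, 1, 0) = ((a : ℤ) - 1, (j : ℤ) + 1, 0) := by
      simp
    have e3 : (((a : ℤ), (j : ℤ), 0) : P3) + (0, 1, 0) = ((a : ℤ), (j : ℤ) + 1, 0) := by simp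
    apply hC.flip _ _ _ _ h
    · rw [e1, hE]; refine Or.inr (Or.inl ⟨by omega, rfl, rfl, ?_⟩); unfold sh; omega
    · rw [e1, e2, hE]; refine Or.inr (Or.inr (Or.inl ⟨rfl, rfl, rfl, ?_⟩)); unfold sv; omega
    · simp [IsUnit3, Adj]
    · simp [IsUnit3, Adj]
    · simp
    · simp
    · rw [e3]
      apply hE.not_mem_verts <;> simp only [sh, sv] <;> omega
  · have h1 := (hE.sdiff ((dat_x ((a : ℤ) - 1) j 0).union (dat_y ((a : ℤ) - 1) j 0))).union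
      ((dat_y (a : ℤ) j 0).union (dat_x ((a : ℤ) - 1) (j + 1) 0))
    have e1 : (((a : ℤ), (j : ℤ), 0) : P3) + (-1, 0, 0) = ((a : ℤ) - 1, (j : ℤ), 0) := by
      simp [sub_eq_add_neg]
    have e2 : (((a : ℤ) - 1, (j : ℤ), 0) : P3) + (0, 1, 0) = ((a : ℤ) - 1, (j : ℤ) + 1, 0) := by
      simp
    have e3 : (((a : ℤ), (j : ℤ), 0) : P3) + (0, 1, 0) = ((a : ℤ), (j : ℤ) + 1, 0) := by simp
    have h2 : flip E ((a : ℤ), (j : ℤ), 0) (-1, 0, 0) (0, 1, 0) =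
        (E \ ({s((((a : ℤ) - 1, (j : ℤ), 0) : P3), (((a : ℤ) - 1 + 1, (j : ℤ), 0) : P3))} ∪
          {s((((a : ℤ) - 1, (j : ℤ), 0) : P3), (((a : ℤ) - 1, (j : ℤ) + 1, 0) : P3))})) ∪
        ({s((((a : ℤ), (j : ℤ), 0) : P3), (((a : ℤ), (j : ℤ) + 1, 0) : P3))} ∪
        {s((((a : ℤ) - 1, (j : ℤ) + 1, 0) : P3), (((a : ℤ) - 1 + 1, (j : ℤ) + 1, 0) : P3))}) := by
      ext f
      rw [mem_flip, e1, e2, e3]
      simp only [Finset.mem_union, Finset.mem_sdiff, Finset.mem_singleton, sub_add_cancel, not_or]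
      rw [Sym2.eq_swap (a := (((a : ℤ) - 1, (j : ℤ) + 1, 0) : P3)) (b := (((a : ℤ), (j : ℤ) + 1, 0) : P3)),
        Sym2.eq_swap (a := (((a : ℤ) - 1, (j : ℤ), 0) : P3)) (b := (((a : ℤ), (j : ℤ), 0) : P3))]
    rw [h2]
    refine h1.congr ?_ ?_ <;> intro x y z <;> simp only [sh, sv, or_false, false_or, and_false, false_and, not_false_eq_true, and_true,
        true_and] <;> push_cast <;> constructor <;> intro h <;> omega

theorem rect_succ {C : Finset (Sym2 P3) → Prop} (hC : ClosedZ C) {a b : ℕ} (ha : 1 ≤ a)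
    (hb : 1 ≤ b) (h : C (rect a b)) : C (rect (a + 1) b) := by
  have key : ∀ j : ℕ, 1 ≤ j → j ≤ b → ∃ E, C E ∧ Dat E (sh a b j) (sv a b j) := by
    intro j
    induction j with
    | zero => omega
    | succ j ih =>
      intro _ h2
      rcases Nat.eq_zero_or_pos j with rfl | hj
      · exact step_one hC ha hb h
      · obtain ⟨E, hE, hE'⟩ := ih hj (by omega)
        exact step_succ hC ha hj (by omega) hE hE'
  obtain ⟨E, hE, hE'⟩ := key b hb le_rfl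
  have : E = rect (a + 1) b := by
    refine hE'.ext (dat_rect (a + 1) b) ?_ ?_ <;> intro x y z <;> simp only [sh, sv, or_false, false_or, and_false, false_and, not_false_eq_true, and_true,
        true_and] <;> push_cast <;> constructor <;> intro h <;> omega
  rwa [this] at hE

theorem Dat.swap {E : Finset (Sym2 P3)} {h v : ℤ → ℤ → ℤ → Prop} (hE : Dat E h v) :
    Dat (mapE sw E) (fun x y z => v y x z) (fun x y z => h y x z) := by
  intro u1 u2 u3 v1 v2 v3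
  rw [mem_swE]
  change s(((u2, u1, u3) : P3), ((v2, v1, v3) : P3)) ∈ _ ↔ _
  rw [hE]
  constructor
  · rintro (⟨h1, h2, h3, h4⟩ | ⟨h1, h2, h3, h4⟩ | ⟨h1, h2, h3, h4⟩ | ⟨h1, h2, h3, h4⟩)
    · exact Or.inr (Or.inr (Or.inl ⟨h2, h1, h3, h4⟩))
    · exact Or.inr (Or.inr (Or.inr ⟨h2, h1, h3, h4⟩))
    · exact Or.inl ⟨h2, h1, h3, h4⟩
    · exact Or.inr (Or.inl ⟨h2, h1, h3, h4⟩)
  · rintro (⟨h1, h2, h3, h4⟩ | ⟨h1, h2, h3, h4⟩ | ⟨h1, h2, h3, h4⟩ | ⟨h1, h2, h3, h4⟩)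
    · exact Or.inr (Or.inr (Or.inl ⟨h2, h1, h3, h4⟩))
    · exact Or.inr (Or.inr (Or.inr ⟨h2, h1, h3, h4⟩))
    · exact Or.inl ⟨h2, h1, h3, h4⟩
    · exact Or.inr (Or.inl ⟨h2, h1, h3, h4⟩)

theorem Dat.shift {E : Finset (Sym2 P3)} {h v : ℤ → ℤ → ℤ → Prop} (hE : Dat E h v)
    (a b c : ℤ) : Dat (LK.shift (a, b, c) E) (fun x y z => h (x - a) (y - b) (z - c))
      (fun x y z => v (x - a) (y - b) (z - c)) := by
  intro u1 u2 u3 v1 v2 v3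
  rw [mem_shift]
  change s(((u1 - a, u2 - b, u3 - c) : P3), ((v1 - a, v2 - b, v3 - c) : P3)) ∈ _ ↔ _
  rw [hE]
  have e1 : ∀ x y t : ℤ, x - t = y - t + 1 ↔ x = y + 1 := by intros; omega
  have e2 : ∀ x y t : ℤ, x - t = y - t ↔ x = y := by intros; omega
  simp only [e1, e2]

theorem dat_square : Dat square (fun x y z => x = 0 ∧ z = 0 ∧ (y = 0 ∨ y = 1))
    (fun x y z => y = 0 ∧ z = 0 ∧ (x = 0 ∨ x = 1)) := by
  have h1 := ((dat_x 0 0 0).union (dat_y 1 0 0)).union ((dat_x 0 1 0).union (dat_y 0 0 0))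
  have h2 : square = ({s(((0, 0, 0) : P3), ((0 + 1, 0, 0) : P3))} ∪
      {s(((1, 0, 0) : P3), ((1, 0 + 1, 0) : P3))}) ∪ ({s(((0, 1, 0) : P3), ((0 + 1, 1, 0) : P3))} ∪
      {s(((0, 0, 0) : P3), ((0, 0 + 1, 0) : P3))}) := by
    ext f
    simp only [square, Finset.mem_union, Finset.mem_singleton, Finset.mem_insert, zero_add]
    rw [Sym2.eq_swap (a := ((1, 1, 0) : P3)) (b := ((0, 1, 0) : P3)),
      Sym2.eq_swap (a := ((0, 1, 0) : P3)) (b := ((0, 0, 0) : P3))]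
    tauto
  rw [h2]
  refine h1.congr ?_ ?_ <;> intro x y z <;>
    (try simp only [or_false, false_or, and_false, false_and, not_false_eq_true, and_true, true_and]) <;>
    constructor <;> intro h <;> omega

theorem rect_swap {C : Finset (Sym2 P3) → Prop} (hC : ClosedZ C) {a b : ℕ} (h : C (rect a b)) :
    C (rect b a) := by
  have h1 := hC.trans (-1, 1, 0) _ (hC.swapXY _ h)
  have : LK.shift (-1, 1, 0) (mapE sw (rect a b)) = rect b a := by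
    refine ((dat_rect a b).swap.shift (-1) 1 0).ext (dat_rect b a) ?_ ?_ <;> intro x y z <;>
    (try simp only [or_false, false_or, and_false, false_and, not_false_eq_true, and_true, true_and]) <;>
    constructor <;> intro h <;> omega
  rw [← this]
  exact h1

/-- (L3) Rectangles belong to the class. -/
theorem rectStatement : RectStatement := by
  intro C hC
  have h11 : C (rect 1 1) := by
    have h1 := hC.trans (-1, 0, 0) _ hC.square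
    have : LK.shift (-1, 0, 0) square = rect 1 1 := by
      refine (dat_square.shift (-1) 0 0).ext (dat_rect 1 1) ?_ ?_ <;> intro x y z <;>
        (try simp only [or_false, false_or, and_false, false_and, not_false_eq_true, and_true, true_and]) <;>
      push_cast <;> constructor <;> intro h <;> omega
    rw [← this]
    exact h1
  have ha : ∀ a : ℕ, 1 ≤ a → C (rect a 1) := by
    intro a h
    induction a, h using Nat.le_induction with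
    | base => exact h11
    | succ n hn ih => exact rect_succ hC hn le_rfl ih
  intro a b h1 h2
  have hb : C (rect 1 b) := rect_swap hC (ha b h2)
  induction a, h1 using Nat.le_induction with
  | base => exact hb
  | succ n hn ih => exact rect_succ hC hn h2 ih

end Pool.Agent.LK
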