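import Pool.Agent.MP_aea6d5_co.RDone

/-!
Theorem B without the shift of the length, from the ratio limit theorem for the unknot.
-/

set_option autoImplicit false

namespace Pool.Agent.LK

open Filter Topology

theorem noshift_of_ratio {a b : ℕ → ℕ} {c : ℕ} (hc : Even c) {ε μ : ℝ} (hε : 0 < ε)
    (hpos : ∀ᶠ k : ℕ in atTop, 0 < a (2 * k))
    (hr : Tendsto (fun k : ℕ => (a (2 * k + 2) : ℝ) / (a (2 * k) : ℝ)) atTop (𝓝 μ))
    (h : ∀ n : ℕ, ε * (n : ℝ) ^ (2 / 3 : ℝ) * (a n : ℝ) ≤ (b (n + c) : ℝ)) :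
    ∃ δ : ℝ, 0 < δ ∧ ∀ᶠ n : ℕ in atTop, Even n → 0 < a n ∧
      δ * (n : ℝ) ^ (2 / 3 : ℝ) * (a n : ℝ) ≤ (b n : ℝ) := by
  obtain ⟨j, rfl⟩ := hc
  set D : ℝ := |μ| + 1 with hD
  have hD0 : 0 < D := by positivity
  have hlt : μ < D := by
    have := le_abs_self μ
    linarith
  have h1 : ∀ᶠ k : ℕ in atTop, (a (2 * k + 2) : ℝ) / (a (2 * k) : ℝ) < D :=
    hr.eventually_lt_const hlt
  obtain ⟨k0, hk0⟩ := eventually_atTop.1 (h1.and hpos)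
  have hstep : ∀ k, k0 ≤ k → ∀ i : ℕ, (a (2 * k + 2 * i) : ℝ) ≤ D ^ i * (a (2 * k) : ℝ) := by
    intro k hk i
    induction i with
    | zero => simp
    | succ i ih =>
      obtain ⟨h2, h3⟩ := hk0 (k + i) (by omega)
      have h4 : (0 : ℝ) < (a (2 * (k + i)) : ℝ) := by exact_mod_cast h3
      rw [div_lt_iff₀ h4] at h2
      have e1 : 2 * k + 2 * (i + 1) = 2 * (k + i) + 2 := by ring
      have e2 : 2 * (k + i) = 2 * k + 2 * i := by ring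
      rw [e1]
      calc (a (2 * (k + i) + 2) : ℝ) ≤ D * (a (2 * (k + i)) : ℝ) := h2.le
        _ ≤ D * (D ^ i * (a (2 * k) : ℝ)) := by
            rw [e2]
            exact mul_le_mul_of_nonneg_left ih hD0.le
        _ = D ^ (i + 1) * (a (2 * k) : ℝ) := by ring
  refine ⟨ε / (2 * D ^ j), by positivity, ?_⟩
  refine eventually_atTop.2 ⟨2 * (k0 + 2 * j + 1), fun n hn hne => ?_⟩
  obtain ⟨m, rfl⟩ := hne
  have hm : k0 + 2 * j + 1 ≤ m := by omega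
  refine ⟨?_, ?_⟩
  · have := (hk0 m (by omega)).2
    rwa [two_mul] at this
  obtain ⟨k, rfl⟩ : ∃ k, m = k + j := ⟨m - j, by omega⟩
  have hk : k0 ≤ k := by omega
  have hkj : j ≤ k := by omega
  have h5 := hstep k hk j
  have h6 := h (2 * k)
  have e3 : 2 * k + (j + j) = k + j + (k + j) := by ring
  have e4 : 2 * k + 2 * j = k + j + (k + j) := by ring
  rw [e3] at h6
  rw [e4] at h5
  refine le_trans ?_ h6
  have h7 : ((k + j + (k + j) : ℕ) : ℝ) ^ (2 / 3 : ℝ) ≤ 2 * ((2 * k : ℕ) : ℝ) ^ (2 / 3 : ℝ) := by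
    have h8 : ((k + j + (k + j) : ℕ) : ℝ) ≤ 2 * ((2 * k : ℕ) : ℝ) := by
      exact_mod_cast (by omega : k + j + (k + j) ≤ 2 * (2 * k))
    calc ((k + j + (k + j) : ℕ) : ℝ) ^ (2 / 3 : ℝ) ≤ (2 * ((2 * k : ℕ) : ℝ)) ^ (2 / 3 : ℝ) :=
          Real.rpow_le_rpow (Nat.cast_nonneg _) h8 (by norm_num)
      _ = 2 ^ (2 / 3 : ℝ) * ((2 * k : ℕ) : ℝ) ^ (2 / 3 : ℝ) :=
          Real.mul_rpow (by norm_num) (Nat.cast_nonneg _)
      _ ≤ 2 * ((2 * k : ℕ) : ℝ) ^ (2 / 3 : ℝ) := by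
          refine mul_le_mul_of_nonneg_right ?_ (by positivity)
          calc (2 : ℝ) ^ (2 / 3 : ℝ) ≤ 2 ^ (1 : ℝ) :=
                Real.rpow_le_rpow_of_exponent_le (by norm_num) (by norm_num)
            _ = 2 := Real.rpow_one 2
  calc ε / (2 * D ^ j) * ((k + j + (k + j) : ℕ) : ℝ) ^ (2 / 3 : ℝ) * (a (k + j + (k + j)) : ℝ)
      ≤ ε / (2 * D ^ j) * (2 * ((2 * k : ℕ) : ℝ) ^ (2 / 3 : ℝ)) * (D ^ j * (a (2 * k) : ℝ)) := by
        gcongr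
    _ = ε * ((2 * k : ℕ) : ℝ) ^ (2 / 3 : ℝ) * (a (2 * k) : ℝ) := by
        field_simp

/-- The same with an arbitrary exponent. -/
theorem noshift_of_ratio' {a b : ℕ → ℕ} {c : ℕ} (hc : Even c) {ε μ s : ℝ} (hε : 0 < ε) (hs : 0 ≤ s)
    (hpos : ∀ᶠ k : ℕ in atTop, 0 < a (2 * k))
    (hr : Tendsto (fun k : ℕ => (a (2 * k + 2) : ℝ) / (a (2 * k) : ℝ)) atTop (𝓝 μ))
    (h : ∀ n : ℕ, ε * (n : ℝ) ^ s * (a n : ℝ) ≤ (b (n + c) : ℝ)) :
    ∃ δ : ℝ, 0 < δ ∧ ∀ᶠ n : ℕ in atTop, Even n → 0 < a n ∧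
      δ * (n : ℝ) ^ s * (a n : ℝ) ≤ (b n : ℝ) := by
  obtain ⟨j, rfl⟩ := hc
  set D : ℝ := |μ| + 1 with hD
  have hD0 : 0 < D := by positivity
  have hlt : μ < D := by
    have := le_abs_self μ
    linarith
  have h1 : ∀ᶠ k : ℕ in atTop, (a (2 * k + 2) : ℝ) / (a (2 * k) : ℝ) < D :=
    hr.eventually_lt_const hlt
  obtain ⟨k0, hk0⟩ := eventually_atTop.1 (h1.and hpos)
  have hstep : ∀ k, k0 ≤ k → ∀ i : ℕ, (a (2 * k + 2 * i) : ℝ) ≤ D ^ i * (a (2 * k) : ℝ) := by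
    intro k hk i
    induction i with
    | zero => simp
    | succ i ih =>
      obtain ⟨h2, h3⟩ := hk0 (k + i) (by omega)
      have h4 : (0 : ℝ) < (a (2 * (k + i)) : ℝ) := by exact_mod_cast h3
      rw [div_lt_iff₀ h4] at h2
      have e1 : 2 * k + 2 * (i + 1) = 2 * (k + i) + 2 := by ring
      have e2 : 2 * (k + i) = 2 * k + 2 * i := by ring
      rw [e1]
      calc (a (2 * (k + i) + 2) : ℝ) ≤ D * (a (2 * (k + i)) : ℝ) := h2.le
        _ ≤ D * (D ^ i * (a (2 * k) : ℝ)) := by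
            rw [e2]
            exact mul_le_mul_of_nonneg_left ih hD0.le
        _ = D ^ (i + 1) * (a (2 * k) : ℝ) := by ring
  have h2s : (0 : ℝ) < 2 ^ s := Real.rpow_pos_of_pos two_pos s
  refine ⟨ε / (2 ^ s * D ^ j), by positivity, ?_⟩
  refine eventually_atTop.2 ⟨2 * (k0 + 2 * j + 1), fun n hn hne => ?_⟩
  obtain ⟨m, rfl⟩ := hne
  have hm : k0 + 2 * j + 1 ≤ m := by omega
  refine ⟨?_, ?_⟩
  · have := (hk0 m (by omega)).2
    rwa [two_mul] at this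
  obtain ⟨k, rfl⟩ : ∃ k, m = k + j := ⟨m - j, by omega⟩
  have hk : k0 ≤ k := by omega
  have hkj : j ≤ k := by omega
  have h5 := hstep k hk j
  have h6 := h (2 * k)
  have e3 : 2 * k + (j + j) = k + j + (k + j) := by ring
  have e4 : 2 * k + 2 * j = k + j + (k + j) := by ring
  rw [e3] at h6
  rw [e4] at h5
  refine le_trans ?_ h6
  have h7 : ((k + j + (k + j) : ℕ) : ℝ) ^ s ≤ 2 ^ s * ((2 * k : ℕ) : ℝ) ^ s := by
    have h8 : ((k + j + (k + j) : ℕ) : ℝ) ≤ 2 * ((2 * k : ℕ) : ℝ) := by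
      exact_mod_cast (by omega : k + j + (k + j) ≤ 2 * (2 * k))
    calc ((k + j + (k + j) : ℕ) : ℝ) ^ s ≤ (2 * ((2 * k : ℕ) : ℝ)) ^ s :=
          Real.rpow_le_rpow (Nat.cast_nonneg _) h8 hs
      _ = 2 ^ s * ((2 * k : ℕ) : ℝ) ^ s :=
          Real.mul_rpow (by norm_num) (Nat.cast_nonneg _)
  calc ε / (2 ^ s * D ^ j) * ((k + j + (k + j) : ℕ) : ℝ) ^ s * (a (k + j + (k + j)) : ℝ)
      ≤ ε / (2 ^ s * D ^ j) * (2 ^ s * ((2 * k : ℕ) : ℝ) ^ s) * (D ^ j * (a (2 * k) : ℝ)) := by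
        gcongr
    _ = ε * ((2 * k : ℕ) : ℝ) ^ s * (a (2 * k) : ℝ) := by
        field_simp

/-- Lengths along which the unknots exist, and their ratio limit: the form used with
`noshift_of_ratio'`. -/
theorem unknot_pos_eventually : ∀ᶠ k : ℕ in atTop, 0 < count UClass (2 * k) := by
  refine eventually_atTop.2 ⟨2, fun k hk => ?_⟩
  have h4 := count_pos unknotClosedZ (k - 2)
  have e : 4 + 2 * (k - 2) = 2 * k := by omega
  rw [e] at h4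
  exact h4

/-- **Theorem B without shift.** -/
theorem theoremB_strong (G : Subgroup (R3 ≃ₜ R3)) (hG : ∀ φ : R3 ≃ₜ R3, φ ∈ G ∨ φ * swapR ∈ G)
    (K : Finset (Sym2 P3)) (hK : IsPolygon K) (hKn : ¬ Unknotted K) :
    (∃ δ : ℝ, 0 < δ ∧ ∀ᶠ n : ℕ in atTop, Even n → 0 < count UClass n ∧
      δ * (n : ℝ) ^ (2 / 3 : ℝ) * (count UClass n : ℝ) ≤ (count (GClass G K) n : ℝ)) ∧
    (∀ A B α β : ℝ, 0 < A → growth (GClass G K) = growth UClass →
      Tendsto (fun k : ℕ => (count UClass (2 * k) : ℝ) /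
        (((2 * k : ℕ) : ℝ) ^ (α - 3) * growth UClass ^ (2 * k))) atTop (𝓝 A) →
      Tendsto (fun k : ℕ => (count (GClass G K) (2 * k) : ℝ) /
        (((2 * k : ℕ) : ℝ) ^ (β - 3) * growth (GClass G K) ^ (2 * k))) atTop (𝓝 B) →
      α + 2 / 3 ≤ β) := by
  obtain ⟨⟨ε, hε, c, hc, h⟩, -, h3⟩ := theoremB_of b1Statement ncStatement G hG K hK hKn
  refine ⟨?_, h3⟩
  refine noshift_of_ratio hc hε ?_ ratioLimit.1 h
  refine eventually_atTop.2 ⟨2, fun k hk => ?_⟩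
  have h4 := count_pos unknotClosedZ (k - 2)
  have e : 4 + 2 * (k - 2) = 2 * k := by omega
  rw [e] at h4
  exact h4

end Pool.Agent.LK
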