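import Pool.Agent.MP_aea6d5_co.CFinal
import Pool.Agent.MP_aea6d5_co.RStrong

/-! Connected sums of `N` nontrivial knots, without the shift of the length. -/

set_option autoImplicit false

open Filter Topology

namespace Pool.Agent.LK

theorem unknot_pos : ∀ᶠ k : ℕ in atTop, 0 < count UClass (2 * k) := by
  refine eventually_atTop.2 ⟨2, fun k hk => ?_⟩
  have h4 := count_pos unknotClosedZ (k - 2)
  have e : 4 + 2 * (k - 2) = 2 * k := by omega
  rw [e] at h4
  exact h4

/-- **Connected sums, without shift.** -/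
theorem composite_strong (G : Subgroup (R3 ≃ₜ R3)) (hG : BigGroup G)
    (l : List (Finset (Sym2 P3))) (hl : ∀ K ∈ l, IsPolygon K ∧ ¬ Unknotted K) :
    (∃ δ : ℝ, 0 < δ ∧ ∀ᶠ n : ℕ in atTop, Even n → 0 < count UClass n ∧
      δ * (n : ℝ) ^ (2 * (l.length : ℝ) / 3) * (count UClass n : ℝ) ≤
        (count (IsSum G l) n : ℝ)) ∧
    (∀ A B α β : ℝ, 0 < A → growth (IsSum G l) = growth UClass →
      Tendsto (fun k : ℕ => (count UClass (2 * k) : ℝ) /
        (((2 * k : ℕ) : ℝ) ^ (α - 3) * growth UClass ^ (2 * k))) atTop (𝓝 A) →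
      Tendsto (fun k : ℕ => (count (IsSum G l) (2 * k) : ℝ) /
        (((2 * k : ℕ) : ℝ) ^ (β - 3) * growth (IsSum G l) ^ (2 * k))) atTop (𝓝 B) →
      α + 2 * (l.length : ℝ) / 3 ≤ β) := by
  obtain ⟨⟨ε, hε, c, hc, h⟩, -, h3⟩ := composite_of ncStatement G hG l hl
  exact ⟨noshift_of_ratio' hc hε (by positivity) unknot_pos ratioLimit.1 h, h3⟩

end Pool.Agent.LK
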