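import Pool.Agent.MP_aea6d5_co.CBuild

/-! The attachment of several small polygons can be undone up to boundedly many choices. -/

set_option autoImplicit false

namespace Pool.Agent.LK

section

variable {ι : Type} [DecidableEq ι]

/-- The union of the polygon and of the translated small polygons. -/
def superp (P : Finset (Sym2 P3)) (K0 : ι → Finset (Sym2 P3)) (w : ι → P3) (S : Finset ι) :
    Finset (Sym2 P3) := P ∪ S.biUnion (fun j => shift (w j) (K0 j))

variable {G : Subgroup (R3 ≃ₜ R3)} {P : Finset (Sym2 P3)} {K K0 : ι → Finset (Sym2 P3)}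
  {p q : ι → P3} {S : Finset ι} {C : Finset (Sym2 P3)} {F : ι → Finset (Sym2 P3)} {a w : ι → P3}

theorem mem_superp {f : Sym2 P3} :
    f ∈ superp P K0 w S ↔ f ∈ P ∨ ∃ j ∈ S, f ∈ shift (w j) (K0 j) := by
  simp [superp]

/-- The result agrees with the union outside the boxes. -/
theorem Built.changed (h : Built G P K K0 p q S C F a w) (u v : P3)
    (huv : (s(u, v) ∈ superp P K0 w S ∧ s(u, v) ∉ glue C F a S) ∨
      (s(u, v) ∉ superp P K0 w S ∧ s(u, v) ∈ glue C F a S)) :
    ∃ j ∈ S, Box 1000 (u - a j) ∧ Box 1000 (v - a j) := by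
  have sq : ∀ {j : ι} {x y : P3}, Sq (a j) x → Sq (a j) y → s(u, v) = s(x, y) →
      Box 1000 (u - a j) ∧ Box 1000 (v - a j) := by
    intro j x y hx hy he
    rw [Sym2.eq_iff] at he
    rcases he with ⟨rfl, rfl⟩ | ⟨rfl, rfl⟩
    · exact ⟨hx.box.mono (by norm_num), hy.box.mono (by norm_num)⟩
    · exact ⟨hy.box.mono (by norm_num), hx.box.mono (by norm_num)⟩
  rw [mem_superp, mem_glue] at huv
  rcases huv with ⟨h1 | ⟨j, hj, h1⟩, h2⟩ | ⟨h1, h2⟩
  · by_cases h3 : s(u, v) ∈ C
    · by_cases h4 : ∃ j ∈ S, s(u, v) = s(a j, a j + (1, 0, 0))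
      · obtain ⟨j, hj, h4⟩ := h4
        exact ⟨j, hj, sq (Sq.zero _) (Sq.one _) h4⟩
      · push Not at h4
        exact (h2 (Or.inl ⟨h3, h4⟩)).elim
    · exact h.chC u v (Or.inl ⟨h1, h3⟩)
  · by_cases h3 : s(u, v) ∈ F j
    · by_cases h4 : s(u, v) = s(a j + (0, 0, 1), a j + (1, 0, 0) + (0, 0, 1))
      · exact ⟨j, hj, sq (Sq.two _) (Sq.three _) h4⟩
      · exact (h2 (Or.inr ⟨j, hj, Or.inl ⟨h3, h4⟩⟩)).elim
    · exact ⟨j, hj, h.chF j hj u v (Or.inl ⟨h1, h3⟩)⟩
  · push Not at h1
    rcases h2 with ⟨h3, -⟩ | ⟨j, hj, ⟨h3, -⟩ | h3 | h3⟩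
    · exact h.chC u v (Or.inr ⟨h1.1, h3⟩)
    · exact ⟨j, hj, h.chF j hj u v (Or.inr ⟨h1.2 j hj, h3⟩)⟩
    · exact ⟨j, hj, sq (Sq.zero _) (Sq.two _) h3⟩
    · exact ⟨j, hj, sq (Sq.one _) (Sq.three _) h3⟩

theorem card_changed {E E' : Finset (Sym2 P3)}
    (h : ∀ u v, s(u, v) ∉ E → s(u, v) ∈ E' → ∃ j ∈ S, Box 1000 (u - a j) ∧ Box 1000 (v - a j)) :
    E'.card ≤ E.card + S.card * (boxE 1000).card := by
  have hsub : E' ⊆ E ∪ S.biUnion (fun j => shift (a j) (boxE 1000)) := by
    intro f hf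
    induction f using Sym2.ind with
    | _ u v =>
      rw [Finset.mem_union]
      by_cases hE : s(u, v) ∈ E
      · exact Or.inl hE
      · right
        obtain ⟨j, hj, h1⟩ := h u v hE hf
        rw [Finset.mem_biUnion]
        refine ⟨j, hj, ?_⟩
        rw [mem_shift, mem_boxE]
        exact h1
  refine (Finset.card_le_card hsub).trans ((Finset.card_union_le _ _).trans ?_)
  refine Nat.add_le_add_left (Finset.card_biUnion_le.trans ?_) _
  simp only [card_shift, Finset.sum_const, smul_eq_mul]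
  exact le_rfl

theorem Built.shift_near (h : Built G P K K0 p q S C F a w) {m : ℕ}
    (hm : ∀ j ∈ S, (K0 j).card ≤ m) (hP : ∀ j ∈ S, IsPolygon (K0 j))
    (hq : ∀ j ∈ S, q j ∈ verts (K0 j)) {j : ι} (hj : j ∈ S) {u : P3}
    (hu : u ∈ verts (shift (w j) (K0 j))) : Box (m + 1000) (u - p j) := by
  have h1 := diam_le (hP j hj) (mem_verts_shift.1 hu) (hq j hj)
  have h2 := hm j hj
  have e : u - p j = (u - w j - q j) + (w j - (p j - q j)) := by abel
  rw [e]
  exact (h1.mono (by exact_mod_cast h2)).add (h.wd j hj)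

theorem Built.card_superp (h : Built G P K K0 p q S C F a w) {m : ℕ}
    (hm : ∀ j ∈ S, (K0 j).card ≤ m) (hP : ∀ j ∈ S, IsPolygon (K0 j))
    (hq : ∀ j ∈ S, q j ∈ verts (K0 j)) {D : ℤ} (hD : 2 * (m : ℤ) + 2000 ≤ D)
    (hfar : ∀ i ∈ S, ∀ j ∈ S, i ≠ j → HFar D (p i) (p j)) :
    (superp P K0 w S).card = P.card + ∑ j ∈ S, (K0 j).card := by
  unfold superp
  rw [Finset.card_union_of_disjoint, Finset.card_biUnion]
  · simp only [card_shift]
  · intro i hi j hj hij
    refine Finset.disjoint_left.2 ?_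
    intro f hf hf'
    induction f using Sym2.ind with
    | _ u v =>
      have h1 := h.shift_near hm hP hq hi (left_mem_verts hf)
      have h2 := h.shift_near hm hP hq hj (left_mem_verts hf')
      have h3 : HFar 0 u u := (hfar i hi j hj hij).move (r := m + 1000) (r' := m + 1000)
        (by omega) h1 h2
      exact h3.not_box le_rfl (box_zero u)
  · rw [Finset.disjoint_left]
    intro f hf hf'
    rw [Finset.mem_biUnion] at hf'
    obtain ⟨j, hj, hf'⟩ := hf'
    induction f using Sym2.ind with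
    | _ u v => exact h.disj j hj u (left_mem_verts hf) (left_mem_verts hf')

/-- The local pattern at the place `a`. -/
noncomputable def patS (H : Finset (Sym2 P3)) (a : P3) : Finset (Sym2 P3) :=
  boxE 1000 ∩ shift (-a) H

theorem mem_patS {H : Finset (Sym2 P3)} {a u v : P3} :
    s(u, v) ∈ patS H a ↔ (Box 1000 u ∧ Box 1000 v) ∧ s(u + a, v + a) ∈ H := by
  rw [patS, Finset.mem_inter, mem_boxE, mem_shift, sub_neg_eq_add, sub_neg_eq_add]

/-- **Decoding.** -/
theorem decodeS {P' : Finset (Sym2 P3)} {p' q' : ι → P3} {C' : Finset (Sym2 P3)}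
    {F' : ι → Finset (Sym2 P3)} {a' w' : ι → P3} {s s' : P3}
    (h : Built G P K K0 p q S C F a w) (h' : Built G P' K K0 p' q' S C' F' a' w')
    (nP : Normed P) (nP' : Normed P')
    (hR : shift s (glue C F a S) = shift s' (glue C' F' a' S))
    (ha : ∀ j ∈ S, a j + s = a' j + s') (hw : ∀ j ∈ S, w j - a j = w' j - a' j)
    (hpat : ∀ j ∈ S, patS (superp P K0 w S) (a j) = patS (superp P' K0 w' S) (a' j)) :
    P = P' ∧ s = s' := by
  have hws : ∀ j ∈ S, s + w j = s' + w' j := by
    intro j hj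
    have e : s + w j = (w j - a j) + (a j + s) := by abel
    rw [e, hw j hj, ha j hj]; abel
  have hG : shift s (superp P K0 w S) = shift s' (superp P' K0 w' S) := by
    apply edge_ext
    intro u v
    rw [mem_shift, mem_shift]
    have hRuv : s(u - s, v - s) ∈ glue C F a S ↔ s(u - s', v - s') ∈ glue C' F' a' S := by
      rw [← mem_shift, ← mem_shift, hR]
    have e1 : ∀ j ∈ S, ∀ u : P3, u - s - a j = u - s' - a' j := by
      intro j hj u
      rw [sub_sub, sub_sub, add_comm s, add_comm s', ha j hj]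
    by_cases hb : ∃ j ∈ S, Box 1000 (u - s - a j) ∧ Box 1000 (v - s - a j)
    · obtain ⟨j, hj, hb⟩ := hb
      have k1 := mem_patS (H := superp P K0 w S) (a := a j) (u := u - s - a j)
        (v := v - s - a j)
      have k2 := mem_patS (H := superp P' K0 w' S) (a := a' j) (u := u - s' - a' j)
        (v := v - s' - a' j)
      rw [sub_add_cancel, sub_add_cancel] at k1 k2
      rw [← e1 j hj, ← e1 j hj, ← hpat j hj, k1] at k2
      constructor
      · intro h3; exact (k2.1 ⟨hb, h3⟩).2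
      · intro h3; exact (k2.2 ⟨hb, h3⟩).2
    · have c1 : s(u - s, v - s) ∈ superp P K0 w S ↔ s(u - s, v - s) ∈ glue C F a S := by
        by_contra hc
        exact hb (h.changed _ _ (by tauto))
      have c2 : s(u - s', v - s') ∈ superp P' K0 w' S ↔ s(u - s', v - s') ∈ glue C' F' a' S := by
        by_contra hc
        have hx := h'.changed (u - s') (v - s') (by tauto)
        obtain ⟨j, hj, hc⟩ := hx
        rw [← e1 j hj, ← e1 j hj] at hc
        exact hb ⟨j, hj, hc⟩
      rw [c1, c2, hRuv]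
  have hPeq : shift s P = shift s' P' := by
    apply edge_ext
    intro u v
    have h1 : s(u, v) ∈ shift s (superp P K0 w S) ↔ s(u, v) ∈ shift s' (superp P' K0 w' S) := by
      rw [hG]
    rw [mem_shift, mem_shift, mem_superp, mem_superp] at h1
    rw [mem_shift, mem_shift]
    have key : ∀ j ∈ S, (s(u - s, v - s) ∈ shift (w j) (K0 j) ↔
        s(u - s', v - s') ∈ shift (w' j) (K0 j)) := by
      intro j hj
      rw [mem_shift, mem_shift, sub_sub, sub_sub, sub_sub, sub_sub, hws j hj]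
    constructor
    · intro h2
      rcases h1.1 (Or.inl h2) with h3 | ⟨j, hj, h3⟩
      · exact h3
      · rw [← key j hj] at h3
        exact (h.disj j hj _ (left_mem_verts h2) (left_mem_verts h3)).elim
    · intro h2
      rcases h1.2 (Or.inl h2) with h3 | ⟨j, hj, h3⟩
      · exact h3
      · rw [key j hj] at h3
        exact (h'.disj j hj _ (left_mem_verts h2) (left_mem_verts h3)).elim
  have q1 : shift (s' - s) P' = P := by
    have := congrArg (shift (-s)) hPeq
    rw [shift_shift, shift_shift, neg_add_cancel, shift_zero] at this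
    rw [this]; congr 1; abel
  have q2 : s' - s = 0 := nP'.eq_zero (by rw [q1]; exact nP)
  have q3 : P = P' := by rw [← q1, q2, shift_zero]
  exact ⟨q3, (sub_eq_zero.1 q2).symm⟩

end

end Pool.Agent.LK
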