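import Pool.Agent.MP_aea6d5_co.StdBodies

/-! The elementary moves in standard position. -/

set_option autoImplicit false

open Set Topology

namespace Pool.Agent.LK

lemma body_union (A B : Finset (Sym2 P3)) : body (A ∪ B) = body A ∪ body B := by
  ext x
  simp only [body, Finset.mem_union, mem_ofPred_eq, mem_union]
  constructor
  · rintro ⟨u, v, h | h, hx⟩
    · exact Or.inl ⟨u, v, h, hx⟩
    · exact Or.inr ⟨u, v, h, hx⟩
  · rintro (⟨u, v, h, hx⟩ | ⟨u, v, h, hx⟩)
    · exact ⟨u, v, Or.inl h, hx⟩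
    · exact ⟨u, v, Or.inr h, hx⟩

lemma body_singleton (a b : P3) : body {s(a, b)} = segment ℝ (toR a) (toR b) := by
  ext x
  simp only [body, Finset.mem_singleton, mem_ofPred_eq]
  constructor
  · rintro ⟨u, v, h, hx⟩
    rcases Sym2.eq_iff.1 h with ⟨rfl, rfl⟩ | ⟨rfl, rfl⟩
    · exact hx
    · rwa [segment_symm]
  · intro hx
    exact ⟨a, b, rfl, hx⟩

lemma body_insert (a b : P3) (A : Finset (Sym2 P3)) :
    body (insert s(a, b) A) = segment ℝ (toR a) (toR b) ∪ body A := by
  rw [Finset.insert_eq, body_union, body_singleton]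

lemma mem_body {E : Finset (Sym2 P3)} {x : R3} : x ∈ body E ↔
    ∃ u v, s(u, v) ∈ E ∧ x ∈ segment ℝ (toR u) (toR v) := Iff.rfl

lemma body_mono {A B : Finset (Sym2 P3)} (h : A ⊆ B) : body A ⊆ body B := by
  rintro x ⟨u, v, huv, hx⟩
  exact ⟨u, v, h huv, hx⟩

lemma mem_verts_of_mem {E : Finset (Sym2 P3)} {u v w : P3} (h : s(u, v) ∈ E)
    (hw : w ∈ s(u, v)) : w ∈ verts E := by
  rcases Sym2.mem_iff.1 hw with rfl | rfl
  · exact ⟨v, h⟩
  · exact ⟨u, by rwa [Sym2.eq_swap]⟩

lemma Unk_vmove {C X : Set R3} {a b u v : R3} (hC : Body C) (ha : a ∈ interior C)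
    (hb : b ∈ interior C) (hu : u ∈ frontier C) (hv : v ∈ frontier C)
    (hX : X ∩ C = segment ℝ u a ∪ segment ℝ a v) (h : Unk X) :
    Unk ((X \ C) ∪ (segment ℝ u b ∪ segment ℝ b v)) := by
  obtain ⟨φ, hφ⟩ := h
  refine ⟨(vmoveHomeo hC ha hb).symm.trans φ, ?_⟩
  rw [← vmove_image hC ha hu hv hX, ← hφ]
  ext y
  constructor
  · rintro ⟨z, ⟨x, hx, rfl⟩, rfl⟩
    refine ⟨x, hx, ?_⟩
    rw [Homeomorph.trans_apply]
    congr 1
    exact ((vmoveHomeo hC ha hb).symm_apply_apply x).symm
  · rintro ⟨x, hx, rfl⟩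
    refine ⟨vmove C a b x, ⟨x, hx, rfl⟩, ?_⟩
    rw [Homeomorph.trans_apply]
    congr 1
    exact (vmoveHomeo hC ha hb).symm_apply_apply x

lemma segment_split {a b m : R3} (hm : m ∈ segment ℝ a b) :
    segment ℝ a m ∪ segment ℝ m b = segment ℝ a b := by
  apply Subset.antisymm
  · apply union_subset
    · exact (convex_segment a b).segment_subset (left_mem_segment ℝ a b) hm
    · exact (convex_segment a b).segment_subset hm (right_mem_segment ℝ a b)
  · rw [segment_eq_image'] at hm
    obtain ⟨s, ⟨s0, s1⟩, rfl⟩ := hm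
    intro x hx
    rw [segment_eq_image'] at hx
    obtain ⟨t, ⟨t0, t1⟩, rfl⟩ := hx
    simp only
    rcases le_total t s with h | h
    · left
      rcases s0.eq_or_lt with rfl | hs
      · have : t = 0 := le_antisymm h t0
        subst this
        simp
      · rw [segment_eq_image']
        refine ⟨t / s, ⟨by positivity, (div_le_one hs).2 h⟩, ?_⟩
        have : t = t / s * s := by field_simp
        simp only [add_sub_cancel_left, smul_smul]
        rw [← this]
    · right
      rcases s1.eq_or_lt with rfl | hs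
      · have : t = 1 := le_antisymm t1 h
        subst this
        simp
      · rw [segment_eq_image']
        have hs' : 0 < 1 - s := by linarith
        refine ⟨(t - s) / (1 - s), ⟨by apply div_nonneg <;> linarith,
          (div_le_one hs').2 (by linarith)⟩, ?_⟩
        have e1 : b - (a + s • (b - a)) = (1 - s) • (b - a) := by module
        simp only [e1, smul_smul]
        rw [div_mul_cancel₀ _ hs'.ne']
        module

/-- Moving the middle of the edge from `(0,0,0)` to `(1,0,0)` inside the body `LB`. -/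
lemma tent_std {E : Finset (Sym2 P3)} (hadj : ∀ u v, s(u, v) ∈ E → Adj u v)
    (he : s(((0, 0, 0) : P3), ((1, 0, 0) : P3)) ∈ E) (h1 : ((0, 0, 1) : P3) ∉ verts E)
    (h2 : ((1, 0, 1) : P3) ∉ verts E) (hU : Unk (body E)) {b : R3}
    (hb : b ∈ interior (poly LB)) :
    Unk (body (E \ {s(((0, 0, 0) : P3), ((1, 0, 0) : P3))}) ∪
      (segment ℝ (toR (0, 0, 0)) b ∪ segment ℝ b (toR (1, 0, 0)))) := by
  have ha : ((1 / 2, 0, 0) : R3) ∈ interior (poly LB) := by
    apply mem_interior_poly
    simp only [LB, val, List.forall_mem_cons, List.not_mem_nil, false_implies, implies_true,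
      and_true]
    norm_num
  have hu0 : toR (0, 0, 0) ∈ poly LB := by rw [mem_LB]; simp [toR]
  have hv0 : toR (1, 0, 0) ∈ poly LB := by rw [mem_LB]; simp [toR]
  have hu : toR (0, 0, 0) ∈ frontier (poly LB) := by
    apply mem_frontier_poly (a := (1 / 2, 0, 0)) hu0 (l := (-1, 4, -1, 0))
    · simp [LB]
    · simp [val, toR]
    · simp [val]
  have hv : toR (1, 0, 0) ∈ frontier (poly LB) := by
    apply mem_frontier_poly (a := (1 / 2, 0, 0)) hv0 (l := (1, 4, -1, -1))
    · simp [LB]
    · simp [val, toR]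
    · norm_num [val]
  have hm : ((1 / 2, 0, 0) : R3) ∈ segment ℝ (toR (0, 0, 0)) (toR (1, 0, 0)) := by
    rw [segment_eq_image']
    exact ⟨1 / 2, by norm_num, by simp [toR]⟩
  have hseg : segment ℝ (toR (0, 0, 0)) (toR (1, 0, 0)) ⊆ poly LB :=
    (poly_convex LB).segment_subset hu0 hv0
  have hin : ∀ u v, s(u, v) ∈ E → ∀ P ∈ segment ℝ (toR u) (toR v), P ∈ poly LB →
      s(u, v) = s(((0, 0, 0) : P3), ((1, 0, 0) : P3)) ∨ P = toR (0, 0, 0) ∨ P = toR (1, 0, 0) := by
    intro u v huv P hP hC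
    rcases LB_cases (hadj u v huv) hP hC with h | h | h | h | h
    · exact Or.inl h
    · exact absurd (mem_verts_of_mem huv h) h1
    · exact absurd (mem_verts_of_mem huv h) h2
    · exact Or.inr (Or.inl h)
    · exact Or.inr (Or.inr h)
  have hX : body E ∩ poly LB = segment ℝ (toR (0, 0, 0)) (1 / 2, 0, 0) ∪
      segment ℝ (1 / 2, 0, 0) (toR (1, 0, 0)) := by
    rw [segment_split hm]
    apply Subset.antisymm
    · rintro P ⟨⟨u, v, huv, hP⟩, hC⟩
      rcases hin u v huv P hP hC with h | h | h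
      · rcases Sym2.eq_iff.1 h with ⟨rfl, rfl⟩ | ⟨rfl, rfl⟩
        · exact hP
        · rwa [segment_symm]
      · rw [h]; exact left_mem_segment ℝ _ _
      · rw [h]; exact right_mem_segment ℝ _ _
    · intro P hP
      exact ⟨⟨_, _, he, hP⟩, hseg hP⟩
  have key := Unk_vmove body_LB ha hb hu hv hX hU
  have heq : (body E \ poly LB) ∪ (segment ℝ (toR (0, 0, 0)) b ∪ segment ℝ b (toR (1, 0, 0))) =
      body (E \ {s(((0, 0, 0) : P3), ((1, 0, 0) : P3))}) ∪
      (segment ℝ (toR (0, 0, 0)) b ∪ segment ℝ b (toR (1, 0, 0))) := by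
    ext P
    constructor
    · rintro (⟨⟨u, v, huv, hP⟩, hC⟩ | h)
      · left
        refine ⟨u, v, ?_, hP⟩
        rw [Finset.mem_sdiff, Finset.mem_singleton]
        refine ⟨huv, fun h => hC (hseg ?_)⟩
        rcases Sym2.eq_iff.1 h with ⟨rfl, rfl⟩ | ⟨rfl, rfl⟩
        · exact hP
        · rwa [segment_symm]
      · exact Or.inr h
    · rintro (⟨u, v, huv, hP⟩ | h)
      · rw [Finset.mem_sdiff, Finset.mem_singleton] at huv
        by_cases hC : P ∈ poly LB
        · right
          rcases hin u v huv.1 P hP hC with h | h | h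
          · exact absurd h huv.2
          · left; rw [h]; exact left_mem_segment ℝ _ _
          · right; rw [h]; exact right_mem_segment ℝ _ _
        · exact Or.inl ⟨⟨u, v, huv.1, hP⟩, hC⟩
      · exact Or.inr h
  rwa [heq] at key

/-- The bump in standard position. -/
lemma bump_std {E : Finset (Sym2 P3)} (hadj : ∀ u v, s(u, v) ∈ E → Adj u v)
    (he : s(((0, 0, 0) : P3), ((1, 0, 0) : P3)) ∈ E) (h1 : ((0, 0, 1) : P3) ∉ verts E)
    (h2 : ((1, 0, 1) : P3) ∉ verts E) (hU : Unk (body E)) :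
    Unk (body (bump E (0, 0, 0) (1, 0, 0) (0, 0, 1))) := by
  have hb : toR (0, 0, 1) ∈ interior (poly LB) := by
    apply mem_interior_poly
    simp only [LB, val, toR, List.forall_mem_cons, List.not_mem_nil, false_implies, implies_true,
      and_true]
    norm_num
  have hU1 := tent_std hadj he h1 h2 hU hb
  set E' := E \ {s(((0, 0, 0) : P3), ((1, 0, 0) : P3))} with hE'
  have hsub : ∀ u v, s(u, v) ∈ E' → s(u, v) ∈ E := fun u v h => (Finset.mem_sdiff.1 h).1
  set X := body E' ∪ (segment ℝ (toR (0, 0, 0)) (toR (0, 0, 1)) ∪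
    segment ℝ (toR (0, 0, 1)) (toR (1, 0, 0))) with hXdef
  have ha : ((1 / 2, 0, 1 / 2) : R3) ∈ interior (poly L2) := by
    apply mem_interior_poly
    simp only [L2, val, List.forall_mem_cons, List.not_mem_nil, false_implies, implies_true,
      and_true]
    norm_num
  have hb2 : toR (1, 0, 1) ∈ interior (poly L2) := by
    apply mem_interior_poly
    simp only [L2, val, toR, List.forall_mem_cons, List.not_mem_nil, false_implies, implies_true,
      and_true]
    norm_num
  have hu0 : toR (0, 0, 1) ∈ poly L2 := by rw [mem_L2]; norm_num [toR]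
  have hv0 : toR (1, 0, 0) ∈ poly L2 := by rw [mem_L2]; norm_num [toR]
  have hu : toR (0, 0, 1) ∈ frontier (poly L2) := by
    apply mem_frontier_poly (a := (1 / 2, 0, 1 / 2)) hu0 (l := (-1, 4, 1, -1))
    · simp [L2]
    · norm_num [val, toR]
    · norm_num [val]
  have hv : toR (1, 0, 0) ∈ frontier (poly L2) := by
    apply mem_frontier_poly (a := (1 / 2, 0, 1 / 2)) hv0 (l := (1, 4, -1, -1))
    · simp [L2]
    · norm_num [val, toR]
    · norm_num [val]
  have hm : ((1 / 2, 0, 1 / 2) : R3) ∈ segment ℝ (toR (0, 0, 1)) (toR (1, 0, 0)) := by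
    rw [segment_eq_image']
    exact ⟨1 / 2, by norm_num, by norm_num [toR]⟩
  have hseg : segment ℝ (toR (0, 0, 1)) (toR (1, 0, 0)) ⊆ poly L2 :=
    (poly_convex L2).segment_subset hu0 hv0
  have hin : ∀ P ∈ body E', P ∈ poly L2 → P = toR (1, 0, 0) := by
    rintro P ⟨u, v, huv, hP⟩ hC
    rcases L2_cases (hadj u v (hsub u v huv)) hP hC with h | h | h
    · exact absurd (mem_verts_of_mem (hsub u v huv) h) h1
    · exact absurd (mem_verts_of_mem (hsub u v huv) h) h2
    · exact h
  have hin2 : ∀ P ∈ segment ℝ (toR (0, 0, 0)) (toR (0, 0, 1)), P ∈ poly L2 →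
      P = toR (0, 0, 1) := by
    intro P hP hC
    rw [segment_eq_image'] at hP
    obtain ⟨t, ⟨t0, t1⟩, rfl⟩ := hP
    rw [mem_L2] at hC
    simp only [toR, Int.cast_zero, Int.cast_one, Prod.mk_sub_mk, sub_zero, Prod.smul_mk,
      smul_eq_mul, mul_zero, mul_one, Prod.mk_add_mk, zero_add] at hC ⊢
    have : t = 1 := by linarith [hC.1]
    rw [this]
  have hX : X ∩ poly L2 = segment ℝ (toR (0, 0, 1)) (1 / 2, 0, 1 / 2) ∪
      segment ℝ (1 / 2, 0, 1 / 2) (toR (1, 0, 0)) := by
    rw [segment_split hm]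
    apply Subset.antisymm
    · rintro P ⟨hP | hP | hP, hC⟩
      · rw [hin P hP hC]; exact right_mem_segment ℝ _ _
      · rw [hin2 P hP hC]; exact left_mem_segment ℝ _ _
      · exact hP
    · intro P hP
      exact ⟨Or.inr (Or.inr hP), hseg hP⟩
  have key := Unk_vmove body_L2 ha hb2 hu hv hX hU1
  have heq : (X \ poly L2) ∪ (segment ℝ (toR (0, 0, 1)) (toR (1, 0, 1)) ∪
      segment ℝ (toR (1, 0, 1)) (toR (1, 0, 0))) =
      body (bump E (0, 0, 0) (1, 0, 0) (0, 0, 1)) := by
    have hb : bump E (0, 0, 0) (1, 0, 0) (0, 0, 1) = E' ∪ {s((0, 0, 0), (0, 0, 1)),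
        s((0, 0, 1), (1, 0, 1)), s((1, 0, 1), (1, 0, 0))} := by
      rw [bump, hE']
      rfl
    rw [hb, body_union, body_insert, body_insert, body_singleton]
    ext P
    constructor
    · rintro (⟨hP | hP | hP, hC⟩ | hP | hP)
      · exact Or.inl hP
      · exact Or.inr (Or.inl hP)
      · exact absurd (hseg hP) hC
      · exact Or.inr (Or.inr (Or.inl hP))
      · exact Or.inr (Or.inr (Or.inr hP))
    · rintro (hP | hP | hP | hP)
      · by_cases hC : P ∈ poly L2
        · right; right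
          rw [hin P hP hC]; exact right_mem_segment ℝ _ _
        · exact Or.inl ⟨Or.inl hP, hC⟩
      · by_cases hC : P ∈ poly L2
        · right; left
          rw [hin2 P hP hC]; exact left_mem_segment ℝ _ _
        · exact Or.inl ⟨Or.inr (Or.inl hP), hC⟩
      · exact Or.inr (Or.inl hP)
      · exact Or.inr (Or.inr hP)
  rwa [heq] at key

/-- The flip in standard position. -/
lemma flip_std {E : Finset (Sym2 P3)} (hadj : ∀ u v, s(u, v) ∈ E → Adj u v)
    (he : s(((0, 0, 0) : P3), ((1, 0, 0) : P3)) ∈ E)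
    (hf : s(((1, 0, 0) : P3), ((1, 0, 1) : P3)) ∈ E)
    (hdeg : ∀ w, s(((1, 0, 0) : P3), w) ∈ E → w = (0, 0, 0) ∨ w = (1, 0, 1))
    (h1 : ((0, 0, 1) : P3) ∉ verts E) (hU : Unk (body E)) :
    Unk (body (flip E (0, 0, 0) (1, 0, 0) (0, 0, 1))) := by
  have ha : toR (1, 0, 0) ∈ interior (poly L3) := by
    apply mem_interior_poly
    simp only [L3, val, toR, List.forall_mem_cons, List.not_mem_nil, false_implies, implies_true,
      and_true]
    norm_num
  have hb : toR (0, 0, 1) ∈ interior (poly L3) := by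
    apply mem_interior_poly
    simp only [L3, val, toR, List.forall_mem_cons, List.not_mem_nil, false_implies, implies_true,
      and_true]
    norm_num
  have ha0 : toR (1, 0, 0) ∈ poly L3 := interior_subset ha
  have hu0 : toR (0, 0, 0) ∈ poly L3 := by rw [mem_L3]; norm_num [toR]
  have hv0 : toR (1, 0, 1) ∈ poly L3 := by rw [mem_L3]; norm_num [toR]
  have hu : toR (0, 0, 0) ∈ frontier (poly L3) := by
    apply mem_frontier_poly (a := toR (1, 0, 0)) hu0 (l := (-1, 4, -1, 0))
    · simp [L3]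
    · norm_num [val, toR]
    · norm_num [val, toR]
  have hv : toR (1, 0, 1) ∈ frontier (poly L3) := by
    apply mem_frontier_poly (a := toR (1, 0, 0)) hv0 (l := (1, 4, 1, -2))
    · simp [L3]
    · norm_num [val, toR]
    · norm_num [val, toR]
  have hs1 : segment ℝ (toR (0, 0, 0)) (toR (1, 0, 0)) ⊆ poly L3 :=
    (poly_convex L3).segment_subset hu0 ha0
  have hs2 : segment ℝ (toR (1, 0, 0)) (toR (1, 0, 1)) ⊆ poly L3 :=
    (poly_convex L3).segment_subset ha0 hv0
  have hin : ∀ u v, s(u, v) ∈ E → ∀ P ∈ segment ℝ (toR u) (toR v), P ∈ poly L3 →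
      s(u, v) = s(((0, 0, 0) : P3), ((1, 0, 0) : P3)) ∨
        s(u, v) = s(((1, 0, 0) : P3), ((1, 0, 1) : P3)) ∨ P = toR (0, 0, 0) ∨
          P = toR (1, 0, 1) := by
    intro u v huv P hP hC
    rcases L3_cases (hadj u v huv) hP hC with h | h | h | h
    · exact absurd (mem_verts_of_mem huv h) h1
    · rcases Sym2.mem_iff.1 h with h3 | h3
      · rw [← h3] at huv ⊢
        rcases hdeg v huv with rfl | rfl
        · exact Or.inl Sym2.eq_swap
        · exact Or.inr (Or.inl rfl)
      · rw [← h3] at huv ⊢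
        rw [Sym2.eq_swap] at huv
        rcases hdeg u huv with rfl | rfl
        · exact Or.inl rfl
        · exact Or.inr (Or.inl Sym2.eq_swap)
    · exact Or.inr (Or.inr (Or.inl h))
    · exact Or.inr (Or.inr (Or.inr h))
  have hX : body E ∩ poly L3 = segment ℝ (toR (0, 0, 0)) (toR (1, 0, 0)) ∪
      segment ℝ (toR (1, 0, 0)) (toR (1, 0, 1)) := by
    apply Subset.antisymm
    · rintro P ⟨⟨u, v, huv, hP⟩, hC⟩
      rcases hin u v huv P hP hC with h | h | h | h
      · left
        rcases Sym2.eq_iff.1 h with ⟨rfl, rfl⟩ | ⟨rfl, rfl⟩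
        · exact hP
        · rwa [segment_symm]
      · right
        rcases Sym2.eq_iff.1 h with ⟨rfl, rfl⟩ | ⟨rfl, rfl⟩
        · exact hP
        · rwa [segment_symm]
      · left; rw [h]; exact left_mem_segment ℝ _ _
      · right; rw [h]; exact right_mem_segment ℝ _ _
    · rintro P (hP | hP)
      · exact ⟨⟨_, _, he, hP⟩, hs1 hP⟩
      · exact ⟨⟨_, _, hf, hP⟩, hs2 hP⟩
  have key := Unk_vmove body_L3 ha hb hu hv hX hU
  have heq : (body E \ poly L3) ∪ (segment ℝ (toR (0, 0, 0)) (toR (0, 0, 1)) ∪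
      segment ℝ (toR (0, 0, 1)) (toR (1, 0, 1))) =
      body (flip E (0, 0, 0) (1, 0, 0) (0, 0, 1)) := by
    have hfl : flip E (0, 0, 0) (1, 0, 0) (0, 0, 1) =
        (E \ {s((0, 0, 0), (1, 0, 0)), s((1, 0, 0), (1, 0, 1))}) ∪
          {s((0, 0, 0), (0, 0, 1)), s((0, 0, 1), (1, 0, 1))} := rfl
    rw [hfl, body_union, body_insert, body_singleton]
    ext P
    constructor
    · rintro (⟨⟨u, v, huv, hP⟩, hC⟩ | hP)
      · left
        refine ⟨u, v, ?_, hP⟩
        rw [Finset.mem_sdiff, Finset.mem_insert, Finset.mem_singleton]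
        refine ⟨huv, ?_⟩
        rintro (h | h)
        · apply hC
          apply hs1
          rcases Sym2.eq_iff.1 h with ⟨rfl, rfl⟩ | ⟨rfl, rfl⟩
          · exact hP
          · rwa [segment_symm]
        · apply hC
          apply hs2
          rcases Sym2.eq_iff.1 h with ⟨rfl, rfl⟩ | ⟨rfl, rfl⟩
          · exact hP
          · rwa [segment_symm]
      · exact Or.inr hP
    · rintro (⟨u, v, huv, hP⟩ | hP)
      · rw [Finset.mem_sdiff, Finset.mem_insert, Finset.mem_singleton] at huv
        by_cases hC : P ∈ poly L3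
        · right
          rcases hin u v huv.1 P hP hC with h | h | h | h
          · exact absurd (Or.inl h) huv.2
          · exact absurd (Or.inr h) huv.2
          · left; rw [h]; exact left_mem_segment ℝ _ _
          · right; rw [h]; exact right_mem_segment ℝ _ _
        · exact Or.inl ⟨⟨u, v, huv.1, hP⟩, hC⟩
      · exact Or.inr hP
  rwa [heq] at key

end Pool.Agent.LK
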