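import Pool.Agent.MP_aea6d5_co.Frames
import Pool.Agent.MP_aea6d5_co.StdMoves

/-! Lattice isometries given by frames; the elementary moves in general position. -/

set_option autoImplicit false

open Set Topology

namespace Pool.Agent.LK

/-- The lattice isometry with origin `x` and frame `a, b, c`. -/
def fmap (x a b c u : P3) : P3 :=
  (x.1 + u.1 * a.1 + u.2.1 * b.1 + u.2.2 * c.1,
    x.2.1 + u.1 * a.2.1 + u.2.1 * b.2.1 + u.2.2 * c.2.1,
    x.2.2 + u.1 * a.2.2 + u.2.1 * b.2.2 + u.2.2 * c.2.2)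

/-- Its inverse. -/
def finv (x a b c v : P3) : P3 :=
  ((v.1 - x.1) * a.1 + (v.2.1 - x.2.1) * a.2.1 + (v.2.2 - x.2.2) * a.2.2,
    (v.1 - x.1) * b.1 + (v.2.1 - x.2.1) * b.2.1 + (v.2.2 - x.2.2) * b.2.2,
    (v.1 - x.1) * c.1 + (v.2.1 - x.2.1) * c.2.1 + (v.2.2 - x.2.2) * c.2.2)

variable {x a b c : P3}

lemma finv_fmap (h : Frm a b c) (u : P3) : finv x a b c (fmap x a b c u) = u := by
  obtain ⟨haa, hbb, hcc, hab, hac, hbc, _, _, _, _, _, _⟩ := h
  simp only [finv, fmap]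
  refine Prod.ext ?_ (Prod.ext ?_ ?_)
  · simp only
    linear_combination u.1 * haa + u.2.1 * hab + u.2.2 * hac
  · simp only
    linear_combination u.1 * hab + u.2.1 * hbb + u.2.2 * hbc
  · simp only
    linear_combination u.1 * hac + u.2.1 * hbc + u.2.2 * hcc

lemma fmap_finv (h : Frm a b c) (v : P3) : fmap x a b c (finv x a b c v) = v := by
  obtain ⟨_, _, _, _, _, _, h11, h22, h33, h12, h13, h23⟩ := h
  simp only [finv, fmap]
  refine Prod.ext ?_ (Prod.ext ?_ ?_)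
  · simp only
    linear_combination (v.1 - x.1) * h11 + (v.2.1 - x.2.1) * h12 + (v.2.2 - x.2.2) * h13
  · simp only
    linear_combination (v.1 - x.1) * h12 + (v.2.1 - x.2.1) * h22 + (v.2.2 - x.2.2) * h23
  · simp only
    linear_combination (v.1 - x.1) * h13 + (v.2.1 - x.2.1) * h23 + (v.2.2 - x.2.2) * h33

lemma fmap_injective (h : Frm a b c) : Function.Injective (fmap x a b c) :=
  Function.LeftInverse.injective (finv_fmap h)

/-- The real affine map extending `fmap`. -/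
noncomputable def fhomeo (x : P3) {a b c : P3} (h : Frm a b c) : R3 ≃ₜ R3 where
  toFun u := ((x.1 : ℝ) + u.1 * a.1 + u.2.1 * b.1 + u.2.2 * c.1,
    (x.2.1 : ℝ) + u.1 * a.2.1 + u.2.1 * b.2.1 + u.2.2 * c.2.1,
    (x.2.2 : ℝ) + u.1 * a.2.2 + u.2.1 * b.2.2 + u.2.2 * c.2.2)
  invFun v := ((v.1 - x.1) * a.1 + (v.2.1 - x.2.1) * a.2.1 + (v.2.2 - x.2.2) * a.2.2,
    (v.1 - x.1) * b.1 + (v.2.1 - x.2.1) * b.2.1 + (v.2.2 - x.2.2) * b.2.2,
    (v.1 - x.1) * c.1 + (v.2.1 - x.2.1) * c.2.1 + (v.2.2 - x.2.2) * c.2.2)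
  left_inv u := by
    obtain ⟨haa, hbb, hcc, hab, hac, hbc, _, _, _, _, _, _⟩ := h
    have haa' : (a.1 : ℝ) * a.1 + a.2.1 * a.2.1 + a.2.2 * a.2.2 = 1 := by exact_mod_cast haa
    have hbb' : (b.1 : ℝ) * b.1 + b.2.1 * b.2.1 + b.2.2 * b.2.2 = 1 := by exact_mod_cast hbb
    have hcc' : (c.1 : ℝ) * c.1 + c.2.1 * c.2.1 + c.2.2 * c.2.2 = 1 := by exact_mod_cast hcc
    have hab' : (a.1 : ℝ) * b.1 + a.2.1 * b.2.1 + a.2.2 * b.2.2 = 0 := by exact_mod_cast hab
    have hac' : (a.1 : ℝ) * c.1 + a.2.1 * c.2.1 + a.2.2 * c.2.2 = 0 := by exact_mod_cast hac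
    have hbc' : (b.1 : ℝ) * c.1 + b.2.1 * c.2.1 + b.2.2 * c.2.2 = 0 := by exact_mod_cast hbc
    refine Prod.ext ?_ (Prod.ext ?_ ?_)
    · simp only
      linear_combination u.1 * haa' + u.2.1 * hab' + u.2.2 * hac'
    · simp only
      linear_combination u.1 * hab' + u.2.1 * hbb' + u.2.2 * hbc'
    · simp only
      linear_combination u.1 * hac' + u.2.1 * hbc' + u.2.2 * hcc'
  right_inv v := by
    obtain ⟨_, _, _, _, _, _, h11, h22, h33, h12, h13, h23⟩ := h
    have h11' : (a.1 : ℝ) * a.1 + b.1 * b.1 + c.1 * c.1 = 1 := by exact_mod_cast h11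
    have h22' : (a.2.1 : ℝ) * a.2.1 + b.2.1 * b.2.1 + c.2.1 * c.2.1 = 1 := by exact_mod_cast h22
    have h33' : (a.2.2 : ℝ) * a.2.2 + b.2.2 * b.2.2 + c.2.2 * c.2.2 = 1 := by exact_mod_cast h33
    have h12' : (a.1 : ℝ) * a.2.1 + b.1 * b.2.1 + c.1 * c.2.1 = 0 := by exact_mod_cast h12
    have h13' : (a.1 : ℝ) * a.2.2 + b.1 * b.2.2 + c.1 * c.2.2 = 0 := by exact_mod_cast h13
    have h23' : (a.2.1 : ℝ) * a.2.2 + b.2.1 * b.2.2 + c.2.1 * c.2.2 = 0 := by exact_mod_cast h23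
    refine Prod.ext ?_ (Prod.ext ?_ ?_)
    · simp only
      linear_combination (v.1 - x.1) * h11' + (v.2.1 - x.2.1) * h12' + (v.2.2 - x.2.2) * h13'
    · simp only
      linear_combination (v.1 - x.1) * h12' + (v.2.1 - x.2.1) * h22' + (v.2.2 - x.2.2) * h23'
    · simp only
      linear_combination (v.1 - x.1) * h13' + (v.2.1 - x.2.1) * h23' + (v.2.2 - x.2.2) * h33'
  continuous_toFun := by fun_prop
  continuous_invFun := by fun_prop

lemma fhomeo_toR (h : Frm a b c) (u : P3) : fhomeo x h (toR u) = toR (fmap x a b c u) := by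
  simp only [fhomeo, toR, fmap, Homeomorph.homeomorph_mk_coe, Equiv.coe_fn_mk]
  push_cast
  rfl

lemma fhomeo_apply (h : Frm a b c) (u : R3) : fhomeo x h u =
    ((x.1 : ℝ) + u.1 * a.1 + u.2.1 * b.1 + u.2.2 * c.1,
    (x.2.1 : ℝ) + u.1 * a.2.1 + u.2.1 * b.2.1 + u.2.2 * c.2.1,
    (x.2.2 : ℝ) + u.1 * a.2.2 + u.2.1 * b.2.2 + u.2.2 * c.2.2) := rfl

lemma fhomeo_comb (h : Frm a b c) (P Q : R3) (t : ℝ) :
    fhomeo x h (P + t • (Q - P)) = fhomeo x h P + t • (fhomeo x h Q - fhomeo x h P) := by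
  simp only [fhomeo_apply, Prod.fst_add, Prod.snd_add, Prod.smul_fst, Prod.smul_snd, Prod.fst_sub,
    Prod.snd_sub, smul_eq_mul, Prod.mk_sub_mk, Prod.smul_mk, Prod.mk_add_mk]
  refine Prod.ext ?_ (Prod.ext ?_ ?_) <;> simp only <;> ring

lemma fhomeo_segment (h : Frm a b c) (P Q : R3) :
    fhomeo x h '' segment ℝ P Q = segment ℝ (fhomeo x h P) (fhomeo x h Q) := by
  rw [segment_eq_image', segment_eq_image', image_image]
  simp only [fhomeo_comb]

lemma body_fmap (h : Frm a b c) (E : Finset (Sym2 P3)) :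
    body (mapE (fmap x a b c) E) = fhomeo x h '' body E := by
  ext P
  constructor
  · rintro ⟨u, v, huv, hP⟩
    rw [mapE, Finset.mem_image] at huv
    obtain ⟨e, he, hmap⟩ := huv
    induction e using Sym2.ind with
    | _ p q =>
      rw [Sym2.map_mk] at hmap
      have hP' : P ∈ segment ℝ (toR (fmap x a b c p)) (toR (fmap x a b c q)) := by
        rcases Sym2.eq_iff.1 hmap with ⟨rfl, rfl⟩ | ⟨rfl, rfl⟩
        · exact hP
        · rwa [segment_symm]
      rw [← fhomeo_toR h, ← fhomeo_toR h, ← fhomeo_segment] at hP'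
      obtain ⟨Q, hQ, rfl⟩ := hP'
      exact ⟨Q, ⟨p, q, he, hQ⟩, rfl⟩
  · rintro ⟨Q, ⟨p, q, hpq, hQ⟩, rfl⟩
    refine ⟨fmap x a b c p, fmap x a b c q, ?_, ?_⟩
    · rw [mapE, Finset.mem_image]
      exact ⟨s(p, q), hpq, by rw [Sym2.map_mk]⟩
    · rw [← fhomeo_toR h, ← fhomeo_toR h, ← fhomeo_segment]
      exact ⟨Q, hQ, rfl⟩

lemma Unk_image (G : R3 ≃ₜ R3) {X : Set R3} : Unk (G '' X) ↔ Unk X := by
  constructor
  · rintro ⟨φ, hφ⟩
    exact ⟨G.trans φ, by rw [← hφ, ← image_comp]; rfl⟩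
  · rintro ⟨φ, hφ⟩
    refine ⟨G.symm.trans φ, ?_⟩
    rw [← hφ]
    ext y
    constructor
    · rintro ⟨z, ⟨w, hw, rfl⟩, rfl⟩
      exact ⟨w, hw, by simp⟩
    · rintro ⟨w, hw, rfl⟩
      exact ⟨G w, ⟨w, hw, rfl⟩, by simp⟩

lemma unknotted_fmap (h : Frm a b c) (E : Finset (Sym2 P3)) :
    Unknotted (mapE (fmap x a b c) E) ↔ Unknotted E := by
  have h1 : ∀ F : Finset (Sym2 P3), Unknotted F ↔ Unk (body F) := fun F => Iff.rfl
  rw [h1, h1, body_fmap h, Unk_image]

lemma mem_mapE_fmap (h : Frm a b c) {E : Finset (Sym2 P3)} {u v : P3} :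
    s(fmap x a b c u, fmap x a b c v) ∈ mapE (fmap x a b c) E ↔ s(u, v) ∈ E := by
  rw [mapE, ← Sym2.map_mk, Finset.mem_image]
  constructor
  · rintro ⟨e, he, hmap⟩
    rwa [← Sym2.map.injective (fmap_injective h) hmap]
  · intro he
    exact ⟨_, he, rfl⟩

lemma exists_mapE (x : P3) (h : Frm a b c) (E : Finset (Sym2 P3)) :
    ∃ E₀, E = mapE (fmap x a b c) E₀ := by
  refine ⟨mapE (finv x a b c) E, ?_⟩
  rw [mapE, mapE, Finset.image_image]
  have h1 : Sym2.map (fmap x a b c) ∘ Sym2.map (finv x a b c) = id := by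
    rw [← Sym2.map_comp]
    have h2 : fmap x a b c ∘ finv x a b c = id := by
      ext1 v
      exact fmap_finv h v
    rw [h2, Sym2.map_id]
  rw [h1, Finset.image_id]

lemma mem_verts_fmap (h : Frm a b c) {E : Finset (Sym2 P3)} {u : P3} :
    fmap x a b c u ∈ verts (mapE (fmap x a b c) E) ↔ u ∈ verts E := by
  constructor
  · rintro ⟨v, hv⟩
    rw [← fmap_finv (x := x) h v, mem_mapE_fmap h] at hv
    exact ⟨_, hv⟩
  · rintro ⟨v, hv⟩
    exact ⟨fmap x a b c v, (mem_mapE_fmap h).2 hv⟩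

lemma adj_iff_sq2 {u v : P3} : Adj u v ↔
    (u.1 - v.1) * (u.1 - v.1) + (u.2.1 - v.2.1) * (u.2.1 - v.2.1) +
      (u.2.2 - v.2.2) * (u.2.2 - v.2.2) = 1 := by
  unfold Adj
  generalize u.1 - v.1 = p
  generalize u.2.1 - v.2.1 = q
  generalize u.2.2 - v.2.2 = r
  rw [← abs_mul_abs_self p, ← abs_mul_abs_self q, ← abs_mul_abs_self r]
  have h1 := abs_nonneg p
  have h2 := abs_nonneg q
  have h3 := abs_nonneg r
  generalize |p| = p at *
  generalize |q| = q at *
  generalize |r| = r at *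
  constructor
  · intro h
    have h4 : p ≤ 1 := by omega
    have h5 : q ≤ 1 := by omega
    have h6 : r ≤ 1 := by omega
    interval_cases p <;> interval_cases q <;> interval_cases r <;> simp_all
  · intro h
    have h4 : p ≤ 1 := by nlinarith
    have h5 : q ≤ 1 := by nlinarith
    have h6 : r ≤ 1 := by nlinarith
    interval_cases p <;> interval_cases q <;> interval_cases r <;> simp_all

lemma adj_fmap (h : Frm a b c) {u v : P3} :
    Adj (fmap x a b c u) (fmap x a b c v) ↔ Adj u v := by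
  rw [adj_iff_sq2, adj_iff_sq2]
  obtain ⟨haa, hbb, hcc, hab, hac, hbc, _, _, _, _, _, _⟩ := h
  have key : (u.1 - v.1) * (u.1 - v.1) + (u.2.1 - v.2.1) * (u.2.1 - v.2.1) +
      (u.2.2 - v.2.2) * (u.2.2 - v.2.2) =
      ((fmap x a b c u).1 - (fmap x a b c v).1) * ((fmap x a b c u).1 - (fmap x a b c v).1) +
      ((fmap x a b c u).2.1 - (fmap x a b c v).2.1) *
        ((fmap x a b c u).2.1 - (fmap x a b c v).2.1) +
      ((fmap x a b c u).2.2 - (fmap x a b c v).2.2) *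
        ((fmap x a b c u).2.2 - (fmap x a b c v).2.2) := by
    simp only [fmap]
    linear_combination -(u.1 - v.1) ^ 2 * haa - (u.2.1 - v.2.1) ^ 2 * hbb -
      (u.2.2 - v.2.2) ^ 2 * hcc - 2 * (u.1 - v.1) * (u.2.1 - v.2.1) * hab -
      2 * (u.1 - v.1) * (u.2.2 - v.2.2) * hac - 2 * (u.2.1 - v.2.1) * (u.2.2 - v.2.2) * hbc
  rw [← key]

lemma isUnit3_of_adj {x y : P3} (h : Adj x y) : IsUnit3 (y - x) := by
  rw [IsUnit3, adj_iff_sq2]
  rw [adj_iff_sq2] at h
  simp only [Prod.fst_sub, Prod.snd_sub, Prod.fst_zero, Prod.snd_zero, sub_zero]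
  linarith

/-- Bumps keep a polygon unknotted. -/
theorem unknotted_bump (E : Finset (Sym2 P3)) (x y d : P3) (hadj : ∀ u v, s(u, v) ∈ E → Adj u v)
    (hE : Unknotted E) (he : s(x, y) ∈ E) (hd : IsUnit3 d) (h1 : x + d ∉ verts E)
    (h2 : y + d ∉ verts E) : Unknotted (bump E x y d) := by
  have ha : IsUnit3 (y - x) := isUnit3_of_adj (hadj x y he)
  have hx : x ∈ verts E := ⟨y, he⟩
  have hy : y ∈ verts E := ⟨x, by rwa [Sym2.eq_swap]⟩
  have hne : y - x ≠ d := by
    intro h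
    apply h1
    rw [← h, add_sub_cancel]
    exact hy
  have hne' : y - x ≠ -d := by
    intro h
    apply h2
    have h3 : d = x - y := by rw [← neg_sub y x, h, neg_neg]
    rw [h3, add_sub_cancel]
    exact hx
  obtain ⟨b, hF⟩ := exists_frm ha hd hne hne'
  obtain ⟨E₀, rfl⟩ := exists_mapE x hF E
  have f0 : fmap x (y - x) b d (0, 0, 0) = x := by simp [fmap]
  have f1 : fmap x (y - x) b d (1, 0, 0) = y := by simp [fmap]
  have f2 : fmap x (y - x) b d (0, 0, 1) = x + d := by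
    simp [fmap]
    rfl
  have f3 : fmap x (y - x) b d (1, 0, 1) = y + d := by
    simp [fmap]
    rfl
  have hadj0 : ∀ u v, s(u, v) ∈ E₀ → Adj u v := fun u v huv =>
    (adj_fmap (x := x) hF).1 (hadj _ _ ((mem_mapE_fmap hF).2 huv))
  have he0 : s(((0, 0, 0) : P3), ((1, 0, 0) : P3)) ∈ E₀ := by
    rw [← mem_mapE_fmap (x := x) hF, f0, f1]
    exact he
  have h10 : ((0, 0, 1) : P3) ∉ verts E₀ := by
    rw [← mem_verts_fmap (x := x) hF, f2]
    exact h1
  have h20 : ((1, 0, 1) : P3) ∉ verts E₀ := by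
    rw [← mem_verts_fmap (x := x) hF, f3]
    exact h2
  have key := bump_std hadj0 he0 h10 h20 ((unknotted_fmap hF E₀).1 hE)
  have hb : bump (mapE (fmap x (y - x) b d) E₀) x y d =
      mapE (fmap x (y - x) b d) (bump E₀ (0, 0, 0) (1, 0, 0) (0, 0, 1)) := by
    have hinj := Sym2.map.injective (fmap_injective (x := x) hF)
    simp only [bump, mapE]
    rw [Finset.image_union, Finset.image_sdiff _ _ hinj]
    simp only [Finset.image_insert, Finset.image_singleton, Sym2.map_mk, Prod.mk_add_mk, zero_add,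
      add_zero, f0, f1, f2, f3]
  rw [hb, unknotted_fmap hF]
  exact key

/-- Flips keep a polygon unknotted. -/
theorem unknotted_flip (E : Finset (Sym2 P3)) (x a b : P3) (hP : IsPolygon E)
    (hE : Unknotted E) (he : s(x, x + a) ∈ E) (hf : s(x + a, x + a + b) ∈ E) (ha : IsUnit3 a)
    (hb : IsUnit3 b) (hab : a ≠ b) (hab' : a ≠ -b) (h1 : x + b ∉ verts E) :
    Unknotted (flip E x a b) := by
  obtain ⟨n, hF⟩ := exists_frm ha hb hab hab'
  have hadj := hP.adj
  have hb0 : b ≠ 0 := by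
    rintro rfl
    simp [IsUnit3, Adj] at hb
  have ha0 : a ≠ 0 := by
    rintro rfl
    simp [IsUnit3, Adj] at ha
  have hneq : x ≠ x + a + b := by
    intro h
    apply hab'
    have h2 : a + b = 0 := by
      have : x + (a + b) = x + 0 := by rw [add_zero, ← add_assoc]; exact h.symm
      exact add_left_cancel this
    exact eq_neg_of_add_eq_zero_left h2
  have hdeg : ∀ w, s(x + a, w) ∈ E → w = x ∨ w = x + a + b := by
    intro w hw
    have h2 := hP.deg (x + a) ⟨x, by rwa [Sym2.eq_swap]⟩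
    by_contra hcon
    push Not at hcon
    have hfin : {w | s(x + a, w) ∈ E}.Finite := by
      apply Set.finite_of_ncard_ne_zero
      rw [h2]
      norm_num
    have h3 : ({x, x + a + b, w} : Set P3) ⊆ {w | s(x + a, w) ∈ E} := by
      intro q hq
      simp only [mem_insert_iff, mem_singleton_iff] at hq
      rcases hq with rfl | rfl | rfl
      · show s(q + a, q) ∈ E
        rwa [Sym2.eq_swap]
      · exact hf
      · exact hw
    have h4 := Set.ncard_le_ncard h3 hfin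
    rw [h2, Set.ncard_eq_toFinset_card'] at h4
    have h5 : ({x, x + a + b, w} : Set P3).toFinset = {x, x + a + b, w} := by
      ext q
      simp
    rw [h5, Finset.card_insert_of_notMem, Finset.card_insert_of_notMem,
      Finset.card_singleton] at h4
    · omega
    · simp only [Finset.mem_singleton]
      exact fun h => hcon.2 h.symm
    · simp only [Finset.mem_insert, Finset.mem_singleton, not_or]
      exact ⟨hneq, fun h => hcon.1 h.symm⟩
  obtain ⟨E₀, rfl⟩ := exists_mapE x hF E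
  have f0 : fmap x a n b (0, 0, 0) = x := by simp [fmap]
  have f1 : fmap x a n b (1, 0, 0) = x + a := by
    simp [fmap]
    rfl
  have f2 : fmap x a n b (0, 0, 1) = x + b := by
    simp [fmap]
    rfl
  have f3 : fmap x a n b (1, 0, 1) = x + a + b := by
    simp [fmap]
    rfl
  have hadj0 : ∀ u v, s(u, v) ∈ E₀ → Adj u v := fun u v huv =>
    (adj_fmap (x := x) hF).1 (hadj _ _ ((mem_mapE_fmap hF).2 huv))
  have he0 : s(((0, 0, 0) : P3), ((1, 0, 0) : P3)) ∈ E₀ := by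
    rw [← mem_mapE_fmap (x := x) hF, f0, f1]
    exact he
  have hf0 : s(((1, 0, 0) : P3), ((1, 0, 1) : P3)) ∈ E₀ := by
    rw [← mem_mapE_fmap (x := x) hF, f1, f3]
    exact hf
  have h10 : ((0, 0, 1) : P3) ∉ verts E₀ := by
    rw [← mem_verts_fmap (x := x) hF, f2]
    exact h1
  have hdeg0 : ∀ w, s(((1, 0, 0) : P3), w) ∈ E₀ → w = (0, 0, 0) ∨ w = (1, 0, 1) := by
    intro w hw
    rw [← mem_mapE_fmap (x := x) hF, f1] at hw
    rcases hdeg _ hw with h | h
    · left
      apply fmap_injective (x := x) hF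
      rw [f0, h]
    · right
      apply fmap_injective (x := x) hF
      rw [f3, h]
  have key := flip_std hadj0 he0 hf0 hdeg0 h10 ((unknotted_fmap hF E₀).1 hE)
  have hb : flip (mapE (fmap x a n b) E₀) x a b =
      mapE (fmap x a n b) (flip E₀ (0, 0, 0) (1, 0, 0) (0, 0, 1)) := by
    have hinj := Sym2.map.injective (fmap_injective (x := x) hF)
    simp only [flip, mapE]
    rw [Finset.image_union, Finset.image_sdiff _ _ hinj]
    simp only [Finset.image_insert, Finset.image_singleton, Sym2.map_mk, Prod.mk_add_mk, zero_add,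
      add_zero, f0, f1, f2, f3]
  rw [hb, unknotted_fmap hF]
  exact key

end Pool.Agent.LK
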