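import Pool.Agent.MP_aea6d5_co.RDefs

/-! Superadditivity of the counts by joins through a cut plane; the growth rate is a limit. -/

set_option autoImplicit false

open Filter Topology

namespace Pool.Agent.LK

/-- `R` is the stacked join of `E` and `F` and `F` lies above the top plane of `E`. -/
structure HCut (R E F : Finset (Sym2 P3)) (a : P3) : Prop where
  eE : s(a, a + (1, 0, 0)) ∈ E
  eF : s(a + (0, 0, 1), a + (1, 0, 0) + (0, 0, 1)) ∈ F
  lo : ∀ v ∈ verts E, v.2.2 ≤ a.2.2
  hi : ∀ v ∈ verts F, a.2.2 < v.2.2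
  R_eq : R = joinZ E F a.1 a.2.1 a.2.2

namespace HCut

variable {R E F E1 F1 : Finset (Sym2 P3)} {a a1 : P3}

theorem mem (h : HCut R E F a) {f : Sym2 P3} :
    f ∈ R ↔ (f ∈ E ∧ f ≠ s(a, a + (1, 0, 0))) ∨
      (f ∈ F ∧ f ≠ s(a + (0, 0, 1), a + (1, 0, 0) + (0, 0, 1))) ∨ f = s(a, a + (0, 0, 1)) ∨
      f = s(a + (1, 0, 0), a + (1, 0, 0) + (0, 0, 1)) := by
  rw [h.R_eq, mem_joinZ']

theorem below (h : HCut R E F a) : Below E F := fun u hu v hv _ _ =>
  lt_of_le_of_lt (h.lo u hu) (h.hi v hv)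

theorem shift (h : HCut R E F a) (t : P3) :
    HCut (LK.shift t R) (LK.shift t E) (LK.shift t F) (a + t) := by
  refine ⟨?_, ?_, ?_, ?_, ?_⟩
  · rw [mem_shift]
    have e1 : a + t - t = a := by abel
    have e2 : a + t + (1, 0, 0) - t = a + (1, 0, 0) := by abel
    rw [e1, e2]; exact h.eE
  · rw [mem_shift]
    have e1 : a + t + (0, 0, 1) - t = a + (0, 0, 1) := by abel
    have e2 : a + t + (1, 0, 0) + (0, 0, 1) - t = a + (1, 0, 0) + (0, 0, 1) := by abel
    rw [e1, e2]; exact h.eF
  · intro v hv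
    have := h.lo _ (mem_verts_shift.1 hv)
    simp only [Prod.snd_sub, Prod.snd_add] at this ⊢
    omega
  · intro v hv
    have := h.hi _ (mem_verts_shift.1 hv)
    simp only [Prod.snd_sub, Prod.snd_add] at this ⊢
    omega
  · apply edge_ext
    intro u v
    have key : ∀ x y : P3, s(u - t, v - t) = s(x, y) ↔ s(u, v) = s(x + t, y + t) := by
      intro x y
      rw [Sym2.eq_iff, Sym2.eq_iff, sub_eq_iff_eq_add, sub_eq_iff_eq_add, sub_eq_iff_eq_add,
        sub_eq_iff_eq_add]
    rw [mem_shift, h.R_eq, mem_joinZ', mem_joinZ', mem_shift, mem_shift]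
    simp only [ne_eq, key]
    have e1 : a + (1, 0, 0) + t = a + t + (1, 0, 0) := by abel
    have e2 : a + (0, 0, 1) + t = a + t + (0, 0, 1) := by abel
    have e3 : a + (1, 0, 0) + (0, 0, 1) + t = a + t + (1, 0, 0) + (0, 0, 1) := by abel
    rw [e1, e2, e3]

/-- an edge of the lower part lies below the cut plane -/
theorem le_of_mem (h : HCut R E F a) {u v : P3} (huv : s(u, v) ∈ E) :
    u.2.2 ≤ a.2.2 ∧ v.2.2 ≤ a.2.2 := ⟨h.lo _ (left_mem_verts huv), h.lo _ (right_mem_verts huv)⟩

theorem lt_of_mem (h : HCut R E F a) {u v : P3} (huv : s(u, v) ∈ F) :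
    a.2.2 < u.2.2 ∧ a.2.2 < v.2.2 := ⟨h.hi _ (left_mem_verts huv), h.hi _ (right_mem_verts huv)⟩

/-- the edges below the cut plane -/
theorem low_iff (h : HCut R E F a) {u v : P3} :
    (s(u, v) ∈ E ∧ s(u, v) ≠ s(a, a + (1, 0, 0))) ↔
      (s(u, v) ∈ R ∧ u.2.2 ≤ a.2.2 ∧ v.2.2 ≤ a.2.2) := by
  rw [h.mem]
  constructor
  · intro h1
    exact ⟨Or.inl h1, h.le_of_mem h1.1⟩
  · rintro ⟨h1 | ⟨h1, -⟩ | h1 | h1, h2, h3⟩
    · exact h1
    · have := h.lt_of_mem h1
      omega
    · exfalso
      rw [Sym2.eq_iff] at h1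
      rcases h1 with ⟨rfl, rfl⟩ | ⟨rfl, rfl⟩ <;> simp only [Prod.snd_add] at h2 h3 <;> omega
    · exfalso
      rw [Sym2.eq_iff] at h1
      rcases h1 with ⟨rfl, rfl⟩ | ⟨rfl, rfl⟩ <;> simp only [Prod.snd_add] at h2 h3 <;> omega

/-- the edges above the cut plane -/
theorem high_iff (h : HCut R E F a) {u v : P3} :
    (s(u, v) ∈ F ∧ s(u, v) ≠ s(a + (0, 0, 1), a + (1, 0, 0) + (0, 0, 1))) ↔
      (s(u, v) ∈ R ∧ a.2.2 < u.2.2 ∧ a.2.2 < v.2.2) := by
  rw [h.mem]
  constructor
  · intro h1
    exact ⟨Or.inr (Or.inl h1), h.lt_of_mem h1.1⟩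
  · rintro ⟨⟨h1, -⟩ | h1 | h1 | h1, h2, h3⟩
    · have := h.le_of_mem h1
      omega
    · exact h1
    · exfalso
      rw [Sym2.eq_iff] at h1
      rcases h1 with ⟨rfl, rfl⟩ | ⟨rfl, rfl⟩ <;> simp only [Prod.snd_add] at h2 h3 <;> omega
    · exfalso
      rw [Sym2.eq_iff] at h1
      rcases h1 with ⟨rfl, rfl⟩ | ⟨rfl, rfl⟩ <;> simp only [Prod.snd_add] at h2 h3 <;> omega

/-- the edges crossing the cut plane -/
theorem cross (h : HCut R E F a) {u : P3} (hu : u.2.2 = a.2.2)
    (h1 : s(u, u + (0, 0, 1)) ∈ R) : u = a ∨ u = a + (1, 0, 0) := by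
  rw [h.mem] at h1
  rcases h1 with ⟨h1, -⟩ | ⟨h1, -⟩ | h1 | h1
  · have := (h.le_of_mem h1).2
    simp only [Prod.snd_add] at this
    omega
  · have := (h.lt_of_mem h1).1
    omega
  · rw [Sym2.eq_iff] at h1
    rcases h1 with ⟨h1, -⟩ | ⟨h1, -⟩
    · exact Or.inl h1
    · rw [h1] at hu
      simp only [Prod.snd_add] at hu
      omega
  · rw [Sym2.eq_iff] at h1
    rcases h1 with ⟨h1, -⟩ | ⟨h1, -⟩
    · exact Or.inr h1
    · rw [h1] at hu
      simp only [Prod.snd_add] at hu
      omega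

theorem not_lt (h : HCut R E F a) (h1 : HCut R E1 F1 a1) (hc : E.card = E1.card) :
    ¬ a.2.2 < a1.2.2 := by
  intro hlt
  have hsub : insert s(a, a + (0, 0, 1)) (E.erase s(a, a + (1, 0, 0))) ⊆
      E1.erase s(a1, a1 + (1, 0, 0)) := by
    intro f hf
    induction f using Sym2.ind with
    | _ u v =>
      rw [Finset.mem_insert, Finset.mem_erase] at hf
      rw [Finset.mem_erase, and_comm]
      have key : s(u, v) ∈ R ∧ u.2.2 ≤ a1.2.2 ∧ v.2.2 ≤ a1.2.2 := by
        rcases hf with hf | hf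
        · refine ⟨h.mem.2 (Or.inr (Or.inr (Or.inl hf))), ?_⟩
          rw [Sym2.eq_iff] at hf
          rcases hf with ⟨rfl, rfl⟩ | ⟨rfl, rfl⟩ <;> simp only [Prod.snd_add] <;> omega
        · obtain ⟨h2, h3, h4⟩ := h.low_iff.1 ⟨hf.2, hf.1⟩
          exact ⟨h2, by omega, by omega⟩
      exact h1.low_iff.2 key
  have hnot : s(a, a + (0, 0, 1)) ∉ E.erase s(a, a + (1, 0, 0)) := by
    intro hm
    have := (h.le_of_mem (Finset.mem_of_mem_erase hm)).2
    simp only [Prod.snd_add] at this
    omega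
  have h2 := Finset.card_le_card hsub
  rw [Finset.card_insert_of_notMem hnot, Finset.card_erase_of_mem h.eE,
    Finset.card_erase_of_mem h1.eE] at h2
  omega

theorem unique (h : HCut R E F a) (h1 : HCut R E1 F1 a1) (hc : E.card = E1.card) :
    E = E1 ∧ F = F1 := by
  have hz : a.2.2 = a1.2.2 := by
    have := h.not_lt h1 hc
    have := h1.not_lt h hc.symm
    omega
  have m1 : s(a, a + (0, 0, 1)) ∈ R := h.mem.2 (Or.inr (Or.inr (Or.inl rfl)))
  have m2 : s(a + (1, 0, 0), a + (1, 0, 0) + (0, 0, 1)) ∈ R :=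
    h.mem.2 (Or.inr (Or.inr (Or.inr rfl)))
  have c1 := h1.cross hz m1
  have c2 := h1.cross (u := a + (1, 0, 0)) (by simp only [Prod.snd_add]; omega) m2
  have ha : a = a1 := by
    rcases c1 with c1 | c1
    · exact c1
    · exfalso
      rcases c2 with c2 | c2
      · rw [c1] at c2
        have := congrArg Prod.fst c2
        simp only [Prod.fst_add] at this
        omega
      · rw [c1] at c2
        have := congrArg Prod.fst c2
        simp only [Prod.fst_add] at this
        omega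
  subst ha
  constructor
  · apply edge_ext
    intro u v
    have k1 := h.low_iff (u := u) (v := v)
    have k2 := h1.low_iff (u := u) (v := v)
    by_cases hs : s(u, v) = s(a, a + (1, 0, 0))
    · rw [hs]
      exact ⟨fun _ => h1.eE, fun _ => h.eE⟩
    · tauto
  · apply edge_ext
    intro u v
    have k1 := h.high_iff (u := u) (v := v)
    have k2 := h1.high_iff (u := u) (v := v)
    by_cases hs : s(u, v) = s(a + (0, 0, 1), a + (1, 0, 0) + (0, 0, 1))
    · rw [hs]
      exact ⟨fun _ => h1.eF, fun _ => h.eF⟩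
    · tauto

theorem card (h : HCut R E F a) : R.card = E.card + F.card := by
  classical
  have hR : R = insert s(a, a + (0, 0, 1)) (insert s(a + (1, 0, 0), a + (1, 0, 0) + (0, 0, 1))
      (E.erase s(a, a + (1, 0, 0)) ∪ F.erase s(a + (0, 0, 1), a + (1, 0, 0) + (0, 0, 1)))) := by
    ext f
    rw [h.mem]
    simp only [Finset.mem_insert, Finset.mem_union, Finset.mem_erase]
    tauto
  have hd : Disjoint (E.erase s(a, a + (1, 0, 0)))
      (F.erase s(a + (0, 0, 1), a + (1, 0, 0) + (0, 0, 1))) := by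
    rw [Finset.disjoint_left]
    intro f hf hf'
    induction f using Sym2.ind with
    | _ u v =>
      have g1 := (h.le_of_mem (Finset.mem_of_mem_erase hf)).1
      have g2 := (h.lt_of_mem (Finset.mem_of_mem_erase hf')).1
      omega
  have n2 : s(a + (1, 0, 0), a + (1, 0, 0) + (0, 0, 1)) ∉ (E.erase s(a, a + (1, 0, 0)) ∪
      F.erase s(a + (0, 0, 1), a + (1, 0, 0) + (0, 0, 1))) := by
    rw [Finset.mem_union]
    rintro (hf | hf)
    · have := (h.le_of_mem (Finset.mem_of_mem_erase hf)).2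
      simp only [Prod.snd_add] at this
      omega
    · have := (h.lt_of_mem (Finset.mem_of_mem_erase hf)).1
      simp only [Prod.snd_add] at this
      omega
  have n1 : s(a, a + (0, 0, 1)) ∉ (insert s(a + (1, 0, 0), a + (1, 0, 0) + (0, 0, 1))
      (E.erase s(a, a + (1, 0, 0)) ∪ F.erase s(a + (0, 0, 1), a + (1, 0, 0) + (0, 0, 1)))) := by
    rw [Finset.mem_insert, Finset.mem_union]
    rintro (hf | hf | hf)
    · rw [Sym2.eq_iff] at hf
      rcases hf with ⟨hf, -⟩ | ⟨hf, -⟩
      · have := congrArg Prod.fst hf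
        simp only [Prod.fst_add] at this
        omega
      · have := congrArg Prod.fst hf
        simp only [Prod.fst_add] at this
        omega
    · have := (h.le_of_mem (Finset.mem_of_mem_erase hf)).2
      simp only [Prod.snd_add] at this
      omega
    · have := (h.lt_of_mem (Finset.mem_of_mem_erase hf)).1
      omega
  rw [hR, Finset.card_insert_of_notMem n1, Finset.card_insert_of_notMem n2,
    Finset.card_union_of_disjoint hd, Finset.card_erase_of_mem h.eE,
    Finset.card_erase_of_mem h.eF]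
  have p1 : 0 < E.card := Finset.card_pos.2 ⟨_, h.eE⟩
  have p2 : 0 < F.card := Finset.card_pos.2 ⟨_, h.eF⟩
  omega

end HCut

/-! ### Horizontal edges in the extreme planes -/

/-- `a, a + e1` is an edge in the top plane. -/
def XTop (E : Finset (Sym2 P3)) (a : P3) : Prop :=
  s(a, a + (1, 0, 0)) ∈ E ∧ ∀ v ∈ verts E, v.2.2 ≤ a.2.2

/-- `a, a + e1` is an edge in the bottom plane. -/
def XBot (E : Finset (Sym2 P3)) (a : P3) : Prop :=
  s(a, a + (1, 0, 0)) ∈ E ∧ ∀ v ∈ verts E, a.2.2 ≤ v.2.2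

theorem xtop_or {E : Finset (Sym2 P3)} (hP : IsPolygon E) :
    (∃ a, XTop E a) ∨ ∃ a, XTop (mapE sw E) a := by
  obtain ⟨⟨u, v⟩, h1, h2, h3⟩ := exists_top hP
  simp only at h1 h2 h3
  have hd := isUnit3_iff.1 (adj_iff.1 (hP.adj _ _ h1))
  have hsw : ∀ w : P3, w.2.2 = u.2.2 → ∀ v ∈ verts (mapE sw E), v.2.2 ≤ (sw w).2.2 := by
    intro w hw v hv
    have := h3 _ (mem_verts_sw.1 hv)
    simp only [sw] at this ⊢
    omega
  rcases hd with hd | hd | hd | hd | hd | hd
  · left
    refine ⟨u, ?_, h3⟩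
    rw [← hd, add_sub_cancel]
    exact h1
  · left
    refine ⟨v, ?_, fun w hw => (h3 w hw).trans h2.ge⟩
    have : v + (1, 0, 0) = u := by
      have e : u = v - (v - u) := by abel
      rw [e, hd]
      refine Prod.ext ?_ (Prod.ext ?_ ?_) <;> simp
    rw [this, Sym2.eq_swap]
    exact h1
  · right
    refine ⟨sw u, ?_, hsw u rfl⟩
    rw [mem_swE, sw_sw]
    have : sw (sw u + (1, 0, 0)) = v := by
      have e : v = u + (v - u) := by abel
      rw [e, hd]
      refine Prod.ext ?_ (Prod.ext ?_ ?_) <;> simp [sw]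
    rw [this]
    exact h1
  · right
    refine ⟨sw v, ?_, hsw v h2⟩
    rw [mem_swE, sw_sw]
    have : sw (sw v + (1, 0, 0)) = u := by
      have e : u = v - (v - u) := by abel
      rw [e, hd]
      refine Prod.ext ?_ (Prod.ext ?_ ?_) <;> simp [sw]
    rw [this, Sym2.eq_swap]
    exact h1
  · exfalso
    have := congrArg (fun w : P3 => w.2.2) hd
    simp only [Prod.snd_sub] at this
    omega
  · exfalso
    have := congrArg (fun w : P3 => w.2.2) hd
    simp only [Prod.snd_sub] at this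
    omega

theorem xbot_of_neg {E : Finset (Sym2 P3)} {a : P3} (h : XTop (negE E) a) :
    XBot E (-(a + (1, 0, 0))) := by
  obtain ⟨h1, h2⟩ := h
  refine ⟨?_, ?_⟩
  · rw [mem_negE] at h1
    have : -(a + (1, 0, 0)) + (1, 0, 0) = -a := by abel
    rw [this, Sym2.eq_swap]
    exact h1
  · intro v hv
    have := h2 (-v) (mem_verts_negE.2 (by rwa [neg_neg]))
    simp only [Prod.snd_neg, Prod.snd_add] at this ⊢
    omega

theorem neg_sw {E : Finset (Sym2 P3)} : mapE sw (negE E) = negE (mapE sw E) := by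
  apply edge_ext
  intro u v
  rw [mem_swE, mem_negE, mem_negE, mem_swE]
  rfl

theorem xbot_or {C : Finset (Sym2 P3) → Prop} (hC : ClosedZ C) {E : Finset (Sym2 P3)}
    (hE : C E) : (∃ a, XBot E a) ∨ ∃ a, XBot (mapE sw E) a := by
  rcases xtop_or (hC.poly _ (hC.neg hE)) with ⟨a, h⟩ | ⟨a, h⟩
  · exact Or.inl ⟨_, xbot_of_neg h⟩
  · rw [neg_sw] at h
    exact Or.inr ⟨_, xbot_of_neg h⟩

theorem normed_sw {E : Finset (Sym2 P3)} (h : Normed E) : Normed (mapE sw E) := by
  obtain ⟨h0, ⟨x, hx, hx0⟩, ⟨y, hy, hy0⟩, ⟨z, hz, hz0⟩⟩ := h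
  refine ⟨?_, ⟨sw y, mem_verts_sw.2 (by rwa [sw_sw]), hy0⟩,
    ⟨sw x, mem_verts_sw.2 (by rwa [sw_sw]), hx0⟩, ⟨sw z, mem_verts_sw.2 (by rwa [sw_sw]), hz0⟩⟩
  intro u hu
  obtain ⟨g1, g2, g3⟩ := h0 _ (mem_verts_sw.1 hu)
  exact ⟨g2, g1, g3⟩

theorem card_sw (E : Finset (Sym2 P3)) : (mapE sw E).card = E.card :=
  Finset.card_image_of_injective _ (Sym2.map.injective sw_inj)

theorem sw_mem_U {C : Finset (Sym2 P3) → Prop} (hC : ClosedZ C) {n : ℕ}
    {E : Finset (Sym2 P3)} (h : E ∈ U C n) : mapE sw E ∈ U C n := by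
  rw [mem_U hC] at h ⊢
  exact ⟨hC.swapXY _ h.1, by rw [card_sw]; exact h.2.1, normed_sw h.2.2⟩

/-- half of the members have a prescribed property which holds for `E` or for its mirror image -/
theorem count_half {C : Finset (Sym2 P3) → Prop} (hC : ClosedZ C) (n : ℕ)
    (p : Finset (Sym2 P3) → Prop) [DecidablePred p] (hp : ∀ E, C E → p E ∨ p (mapE sw E)) :
    count C n ≤ 2 * ((U C n).filter p).card := by
  classical
  rw [← card_U hC]
  have hsub : U C n ⊆ (U C n).filter p ∪ ((U C n).filter p).image (mapE sw) := by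
    intro E hE
    rw [Finset.mem_union]
    rcases hp E ((mem_U hC).1 hE).1 with h | h
    · exact Or.inl (Finset.mem_filter.2 ⟨hE, h⟩)
    · refine Or.inr (Finset.mem_image.2 ⟨mapE sw E, Finset.mem_filter.2 ⟨sw_mem_U hC hE, h⟩, ?_⟩)
      exact mapE_sw_sw E
  refine (Finset.card_le_card hsub).trans ((Finset.card_union_le _ _).trans ?_)
  have := Finset.card_image_le (s := (U C n).filter p) (f := mapE sw)
  omega

/-- **Superadditivity.** -/
theorem count_mul_le {C : Finset (Sym2 P3) → Prop} (hC : ClosedZ C) (n m : ℕ) :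
    count C n * count C m ≤ 4 * count C (n + m) := by
  classical
  set A := (U C n).filter (fun E => ∃ a, XTop E a) with hA
  set B := (U C m).filter (fun E => ∃ a, XBot E a) with hB
  have h1 : count C n ≤ 2 * A.card := count_half hC n _ fun E hE => xtop_or (hC.poly _ hE)
  have h2 : count C m ≤ 2 * B.card := count_half hC m _ fun E hE => xbot_or hC hE
  have hJ : ∀ q : Finset (Sym2 P3) × Finset (Sym2 P3), ∃ R s w a, q ∈ A ×ˢ B →
      C R ∧ Normed R ∧ HCut R (shift s q.1) (shift w q.2) a := by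
    intro q
    by_cases hq : q ∈ A ×ˢ B
    swap
    · exact ⟨∅, 0, 0, 0, fun h => absurd h hq⟩
    rw [Finset.mem_product, hA, hB, Finset.mem_filter, Finset.mem_filter, mem_U hC,
      mem_U hC] at hq
    obtain ⟨⟨⟨c1, -, -⟩, a, a1, a2⟩, ⟨c2, -, -⟩, b, b1, b2⟩ := hq
    have hcut : HCut (joinZ q.1 (shift (a + (0, 0, 1) - b) q.2) a.1 a.2.1 a.2.2) q.1
        (shift (a + (0, 0, 1) - b) q.2) a := by
      refine ⟨a1, ?_, a2, ?_, rfl⟩
      · rw [mem_shift]
        have e1 : a + (0, 0, 1) - (a + (0, 0, 1) - b) = b := by abel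
        have e2 : a + (1, 0, 0) + (0, 0, 1) - (a + (0, 0, 1) - b) = b + (1, 0, 0) := by abel
        rw [e1, e2]; exact b1
      · intro v hv
        have := b2 _ (mem_verts_shift.1 hv)
        simp only [Prod.snd_sub, Prod.snd_add] at this
        omega
    have e1 : ((a.1, a.2.1, a.2.2) : P3) = a := rfl
    have e2 : ((a.1 + 1, a.2.1, a.2.2) : P3) = a + (1, 0, 0) := by
      refine Prod.ext ?_ (Prod.ext ?_ ?_) <;> simp
    have e3 : ((a.1, a.2.1, a.2.2 + 1) : P3) = a + (0, 0, 1) := by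
      refine Prod.ext ?_ (Prod.ext ?_ ?_) <;> simp
    have e4 : ((a.1 + 1, a.2.1, a.2.2 + 1) : P3) = a + (1, 0, 0) + (0, 0, 1) := by
      refine Prod.ext ?_ (Prod.ext ?_ ?_) <;> simp
    have hCj := hC.join q.1 (shift (a + (0, 0, 1) - b) q.2) a.1 a.2.1 a.2.2 c1
      (hC.shift c2 _) hcut.below (by rw [e1, e2]; exact hcut.eE) (by rw [e3, e4]; exact hcut.eF)
    obtain ⟨t, ht⟩ := exists_normed (hC.poly _ hCj).verts_nonempty
    have hsh := hcut.shift t
    rw [shift_shift] at hsh
    exact ⟨_, t, _, _, fun _ => ⟨hC.shift hCj t, ht, hsh⟩⟩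
  choose R s w a hR using hJ
  have h3 : (A ×ˢ B).card ≤ count C (n + m) := by
    rw [← card_U hC]
    refine Finset.card_le_card_of_injOn R ?_ ?_
    · intro q hq
      have hq' := Finset.mem_coe.1 hq
      obtain ⟨g1, g2, g3⟩ := hR q hq'
      rw [Finset.mem_product, hA, hB, Finset.mem_filter, Finset.mem_filter, mem_U hC,
        mem_U hC] at hq'
      rw [Finset.mem_coe, mem_U hC]
      refine ⟨g1, ?_, g2⟩
      rw [g3.card, card_shift, card_shift, hq'.1.1.2.1, hq'.2.1.2.1]
    · intro q hq q' hq' he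
      rw [Finset.mem_coe] at hq hq'
      obtain ⟨g1, g2, g3⟩ := hR q hq
      obtain ⟨f1, f2, f3⟩ := hR q' hq'
      rw [Finset.mem_product, hA, hB, Finset.mem_filter, Finset.mem_filter, mem_U hC,
        mem_U hC] at hq hq'
      rw [← he] at f3
      obtain ⟨k1, k2⟩ := g3.unique f3 (by
        rw [card_shift, card_shift, hq.1.1.2.1, hq'.1.1.2.1])
      have key : ∀ {E E1 : Finset (Sym2 P3)} {t t1 : P3}, Normed E → Normed E1 →
          shift t E = shift t1 E1 → E = E1 := by
        intro E E1 t t1 hE hE1 ht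
        have q1 : shift (t1 - t) E1 = E := by
          have := congrArg (shift (-t)) ht
          rw [shift_shift, shift_shift, neg_add_cancel, shift_zero] at this
          rw [this]; congr 1; abel
        have q2 : t1 - t = 0 := hE1.eq_zero (by rw [q1]; exact hE)
        rw [← q1, q2, shift_zero]
      exact Prod.ext (key hq.1.1.2.2 hq'.1.1.2.2 k1) (key hq.2.1.2.2 hq'.2.1.2.2 k2)
  rw [Finset.card_product] at h3
  calc count C n * count C m ≤ (2 * A.card) * (2 * B.card) := Nat.mul_le_mul h1 h2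
    _ = 4 * (A.card * B.card) := by ring
    _ ≤ 4 * count C (n + m) := Nat.mul_le_mul_left _ h3

/-! ### The limit -/

theorem exists_hasGrowth {C : Finset (Sym2 P3) → Prop} (hC : ClosedZ C) :
    ∃ g : ℝ, 0 < g ∧ HasGrowth C g := by
  obtain ⟨B, hB, hp⟩ := count_le hC
  set a : ℕ → ℝ := fun k => Real.log (count C (2 * k)) with ha
  have hmono : ∀ k l, a l ≤ a (k + l) := by
    intro k l
    rcases Nat.eq_zero_or_pos (count C (2 * l)) with h0 | h0
    · rw [ha]
      simp only [h0, Nat.cast_zero, Real.log_zero]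
      exact Real.log_natCast_nonneg _
    · refine Real.log_le_log (by exact_mod_cast h0) ?_
      have := count_mono' hC.move (2 * l) k
      have e : 2 * l + 2 * k = 2 * (k + l) := by ring
      rw [e] at this
      exact_mod_cast this
  have hlog4 : 0 ≤ Real.log 4 := Real.log_nonneg (by norm_num)
  have hsup : ∀ k l, a k + a l ≤ Real.log 4 + a (k + l) := by
    intro k l
    rcases Nat.eq_zero_or_pos (count C (2 * k)) with h0 | h0
    · have h1 : a k = 0 := by rw [ha]; simp [h0]
      have := hmono k l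
      rw [h1]; linarith
    rcases Nat.eq_zero_or_pos (count C (2 * l)) with h0' | h0'
    · have h1 : a l = 0 := by rw [ha]; simp [h0']
      have := hmono l k
      rw [add_comm l k] at this
      rw [h1]; linarith
    have h1 := count_mul_le hC (2 * k) (2 * l)
    have e : 2 * k + 2 * l = 2 * (k + l) := by ring
    rw [e] at h1
    have h2 : 0 < count C (2 * (k + l)) := by
      have := Nat.mul_pos h0 h0'
      omega
    rw [ha]
    simp only
    rw [← Real.log_mul (by positivity) (by positivity), ← Real.log_mul (by norm_num)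
      (by positivity)]
    refine Real.log_le_log (by positivity) ?_
    exact_mod_cast h1
  have hsub : Subadditive fun k => Real.log 4 - a k := by
    intro k l
    have := hsup k l
    simp only
    linarith
  have hbd : BddBelow (Set.range fun k : ℕ => (Real.log 4 - a k) / k) := by
    refine ⟨-(2 * Real.log B), ?_⟩
    rintro _ ⟨k, rfl⟩
    have hlB : 0 ≤ Real.log B := Real.log_nonneg hB
    rcases Nat.eq_zero_or_pos k with rfl | hk
    · simp only [Nat.cast_zero, div_zero]
      linarith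
    · have hk' : (0 : ℝ) < k := by exact_mod_cast hk
      simp only
      rw [le_div_iff₀ hk']
      have h1 : a k ≤ 2 * k * Real.log B := by
        rcases Nat.eq_zero_or_pos (count C (2 * k)) with h0 | h0
        · have h1 : a k = 0 := by rw [ha]; simp [h0]
          rw [h1]; positivity
        · have h2 := Real.log_le_log (by exact_mod_cast h0) (hp (2 * k))
          rw [Real.log_pow] at h2
          push_cast at h2
          exact h2
      nlinarith
  have hlim := hsub.tendsto_lim hbd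
  set L := hsub.lim with hL
  have hlim2 : Tendsto (fun k : ℕ => a k / (2 * k)) atTop (𝓝 (-L / 2)) := by
    have h1 : Tendsto (fun k : ℕ => Real.log 4 / (k : ℝ)) atTop (𝓝 0) :=
      tendsto_const_div_atTop_nhds_zero_nat _
    have h2 := (h1.sub hlim).div_const 2
    rw [zero_sub] at h2
    refine h2.congr fun k => ?_
    rw [← sub_div, sub_sub_cancel, div_div, mul_comm (k : ℝ) 2]
  refine ⟨Real.exp (-L / 2), Real.exp_pos _, ?_⟩
  unfold HasGrowth
  refine ((Real.continuous_exp.tendsto _).comp hlim2).congr' ?_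
  filter_upwards [eventually_ge_atTop 2] with k hk
  have hpos : 0 < count C (2 * k) := by
    have := count_pos hC (k - 2)
    have e : 4 + 2 * (k - 2) = 2 * k := by omega
    rw [e] at this
    omega
  simp only [Function.comp]
  rw [Real.rpow_def_of_pos (by exact_mod_cast hpos)]
  congr 1
  rw [ha]
  push_cast
  rw [div_eq_mul_inv]

theorem growth_eq {C : Finset (Sym2 P3) → Prop} (hC : ClosedZ C) {g : ℝ} (hg : 0 < g)
    (h : HasGrowth C g) : growth C = g := by
  obtain ⟨B, hB, hp⟩ := count_le hC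
  have hbd := bdd_root hB hp
  refine le_antisymm ?_ ?_
  · refine le_of_forall_pos_le_add fun ε hε => ?_
    refine limsup_le_of_le ?_ ?_
    · refine IsCoboundedUnder.of_frequently_ge (a := 0) ?_
      exact Frequently.of_forall fun n => by positivity
    · have h1 : ∀ᶠ k : ℕ in atTop,
          (count C (2 * k) : ℝ) ^ (((2 * k : ℕ) : ℝ)⁻¹) < g + ε :=
        h.eventually_lt_const (by linarith)
      rw [eventually_atTop] at h1 ⊢
      obtain ⟨N, hN⟩ := h1
      refine ⟨2 * N + 1, fun n hn => ?_⟩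
      rcases Nat.even_or_odd' n with ⟨k, rfl | rfl⟩
      · exact (hN k (by omega)).le
      · rw [count_odd hC.poly (by simp), Nat.cast_zero, Real.zero_rpow (by positivity)]
        linarith
  · refine le_of_forall_pos_sub_le fun ε hε => ?_
    refine le_limsup_of_frequently_le ?_ hbd
    have h1 : ∀ᶠ k : ℕ in atTop,
        g - ε < (count C (2 * k) : ℝ) ^ (((2 * k : ℕ) : ℝ)⁻¹) :=
      h.eventually_const_lt (by linarith)
    rw [eventually_atTop] at h1
    obtain ⟨N, hN⟩ := h1
    rw [frequently_atTop]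
    intro b
    exact ⟨2 * (N + b), by omega, (hN (N + b) (by omega)).le⟩

/-- **(R5) The growth rate is a limit.** -/
theorem limitStatement : LimitStatement := by
  intro C hC
  obtain ⟨g, hg, h⟩ := exists_hasGrowth hC
  rw [growth_eq hC hg h]
  exact h

end Pool.Agent.LK
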