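import Pool.Agent.MP_aea6d5_co.JoinSwap
import Pool.Agent.MP_aea6d5_co.JoinDone
import Pool.Agent.MP_aea6d5_co.Restrict
import Pool.Agent.MP_aea6d5_co.TopSym
import Pool.Agent.MP_aea6d5_co.KDefs

/-! Joining an unknotted polygon does not change the knot type. -/

set_option autoImplicit false
set_option linter.unusedSectionVars false

open Set Topology Filter

namespace Pool.Agent.LK

/-- The body of a stacked join. -/
lemma body_joinZ (E F : Finset (Sym2 P3)) (x y h : ℤ) :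
    body (joinZ E F x y h) = body (E \ {s((x, y, h), (x + 1, y, h))}) ∪
      body (F \ {s((x, y, h + 1), (x + 1, y, h + 1))}) ∪ strands x y h := by
  unfold joinZ
  rw [body_union, body_union, body_insert, body_singleton, ← strands_eq]
  simp [toR]

/-- The unit square which hangs below an edge. -/
def hang (x y h : ℤ) : Finset (Sym2 P3) :=
  {s((x, y, h), (x + 1, y, h)), s((x + 1, y, h), (x + 1, y, h - 1)),
    s((x + 1, y, h - 1), (x, y, h - 1)), s((x, y, h - 1), (x, y, h))}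

lemma frame_hang : Frame (1, 0, 0) (0, 0, -1) (0, 1, 0) :=
  ⟨by simp [dot3], by simp [dot3], by simp [dot3], by simp [dot3], by simp [dot3], by simp [dot3]⟩

lemma hang_eq (x y h : ℤ) :
    hang x y h = mapE (latIso (x, y, h) (1, 0, 0) (0, 0, -1) (0, 1, 0)) square := by
  simp [hang, mapE, square, Finset.image_insert, latIso, sub_eq_add_neg]

lemma isPolygon_hang (x y h : ℤ) : IsPolygon (hang x y h) := by
  rw [hang_eq]
  exact isPolygon_latIso frame_hang _ isPolygon_square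

lemma unknotted_hang (x y h : ℤ) : Unknotted (hang x y h) := by
  rw [hang_eq]
  exact (unknotted_latIso frame_hang _ _).2 unknotted_square

lemma mem_hang {x y h : ℤ} {u v : P3} (huv : s(u, v) ∈ hang x y h) :
    (u.1 = x ∨ u.1 = x + 1) ∧ u.2.1 = y ∧ (u.2.2 = h ∨ u.2.2 = h - 1) := by
  simp only [hang, Finset.mem_insert, Finset.mem_singleton, Sym2.eq_iff] at huv
  rcases huv with (⟨rfl, rfl⟩ | ⟨rfl, rfl⟩) | (⟨rfl, rfl⟩ | ⟨rfl, rfl⟩) |
    (⟨rfl, rfl⟩ | ⟨rfl, rfl⟩) | (⟨rfl, rfl⟩ | ⟨rfl, rfl⟩) <;> simp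

lemma body_hang {x y h : ℤ} {p : R3} (hp : p ∈ body (hang x y h)) :
    (∃ s : ℝ, 0 ≤ s ∧ s ≤ 1 ∧ p.1 = x + s) ∧ p.2.1 = y ∧ p.2.2 ≤ h := by
  obtain ⟨u, v, huv, hseg⟩ := hp
  have hu := mem_hang huv
  have hv := mem_hang (by rw [Sym2.eq_swap]; exact huv : s(v, u) ∈ hang x y h)
  rw [segment_eq_image, mem_image] at hseg
  obtain ⟨t, ⟨ht0, ht1⟩, rfl⟩ := hseg
  have e1 : ((1 - t) • toR u + t • toR v).1 = (1 - t) * u.1 + t * v.1 := rfl
  have e2 : ((1 - t) • toR u + t • toR v).2.1 = (1 - t) * u.2.1 + t * v.2.1 := rfl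
  have e3 : ((1 - t) • toR u + t • toR v).2.2 = (1 - t) * u.2.2 + t * v.2.2 := rfl
  have hu1 : (x : ℝ) ≤ u.1 ∧ (u.1 : ℝ) ≤ x + 1 := by
    rcases hu.1 with h | h <;> rw [h] <;> push_cast <;> constructor <;> linarith
  have hv1 : (x : ℝ) ≤ v.1 ∧ (v.1 : ℝ) ≤ x + 1 := by
    rcases hv.1 with h | h <;> rw [h] <;> push_cast <;> constructor <;> linarith
  have hu2 : (u.2.2 : ℝ) ≤ h := by
    rcases hu.2.2 with h | h <;> rw [h] <;> push_cast <;> linarith
  have hv2 : (v.2.2 : ℝ) ≤ h := by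
    rcases hv.2.2 with h | h <;> rw [h] <;> push_cast <;> linarith
  refine ⟨⟨(1 - t) * (u.1 - x) + t * (v.1 - x), ?_, ?_, ?_⟩, ?_, ?_⟩
  · have h1 : 0 ≤ (1 - t) * ((u.1 : ℝ) - x) := mul_nonneg (by linarith) (by linarith)
    have h2 : 0 ≤ t * ((v.1 : ℝ) - x) := mul_nonneg ht0 (by linarith)
    linarith
  · have h1 : (1 - t) * ((u.1 : ℝ) - x) ≤ (1 - t) * 1 :=
      mul_le_mul_of_nonneg_left (by linarith) (by linarith)
    have h2 : t * ((v.1 : ℝ) - x) ≤ t * 1 := mul_le_mul_of_nonneg_left (by linarith) ht0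
    linarith
  · rw [e1]; ring
  · rw [e2, hu.2.1, hv.2.1]; ring
  · rw [e3]
    have h1 : (1 - t) * (u.2.2 : ℝ) ≤ (1 - t) * h :=
      mul_le_mul_of_nonneg_left hu2 (by linarith)
    have h2 : t * (v.2.2 : ℝ) ≤ t * h := mul_le_mul_of_nonneg_left hv2 ht0
    linarith

/-- The join with the hanging square is a double bump. -/
lemma joinZ_hang {F : Finset (Sym2 P3)} {x y h : ℤ} (hF : (x, y, h) ∉ verts F) :
    joinZ (hang x y h) F x y h =
      bump (bump F (x, y, h + 1) (x + 1, y, h + 1) (0, 0, -1)) (x, y, h) (x + 1, y, h)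
        (0, 0, -1) := by
  have hn : s((x, y, h), (x + 1, y, h)) ∉ F := fun hc => hF ⟨_, hc⟩
  have a1 : ((x, y, h + 1) : P3) + (0, 0, -1) = (x, y, h) := by simp
  have a2 : ((x + 1, y, h + 1) : P3) + (0, 0, -1) = (x + 1, y, h) := by simp
  have a3 : ((x, y, h) : P3) + (0, 0, -1) = (x, y, h - 1) := by simp [sub_eq_add_neg]
  have a4 : ((x + 1, y, h) : P3) + (0, 0, -1) = (x + 1, y, h - 1) := by simp [sub_eq_add_neg]
  unfold joinZ bump hang
  rw [a1, a2, a3, a4]
  set a : P3 := (x, y, h) with ha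
  set b : P3 := (x + 1, y, h) with hb
  set a' : P3 := (x, y, h + 1) with ha'
  set b' : P3 := (x + 1, y, h + 1) with hb'
  set a'' : P3 := (x, y, h - 1) with ha''
  set b'' : P3 := (x + 1, y, h - 1) with hb''
  have n1 : s(a, a') ≠ s(a, b) := by simp [ha, hb, ha']
  have n2 : s(b, b') ≠ s(a, b) := by simp [ha, hb, hb']
  have n3 : s(b, b'') ≠ s(a, b) := by simp [ha, hb, hb'']
  have n4 : s(b'', a'') ≠ s(a, b) := by simp [ha, hb, ha'', hb'']
  have n5 : s(a'', a) ≠ s(a, b) := by simp [ha, hb, ha'']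
  have w1 : s(a', a) = s(a, a') := Sym2.eq_swap
  have w2 : s(a, a'') = s(a'', a) := Sym2.eq_swap
  have w3 : s(a'', b'') = s(b'', a'') := Sym2.eq_swap
  have w4 : s(b'', b) = s(b, b'') := Sym2.eq_swap
  rw [w1, w2, w3, w4]
  ext e
  simp only [Finset.mem_union, Finset.mem_sdiff, Finset.mem_insert, Finset.mem_singleton]
  constructor
  · rintro ((⟨h1 | h1 | h1 | h1, h2⟩ | ⟨h1, h2⟩) | h1 | h1)
    · exact absurd h1 h2
    · exact Or.inr (Or.inr (Or.inr h1))
    · exact Or.inr (Or.inr (Or.inl h1))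
    · exact Or.inr (Or.inl h1)
    · refine Or.inl ⟨Or.inl ⟨h1, h2⟩, ?_⟩
      rintro rfl
      exact hn h1
    · exact Or.inl ⟨Or.inr (Or.inl h1), by rw [h1]; exact n1⟩
    · exact Or.inl ⟨Or.inr (Or.inr (Or.inr h1)), by rw [h1]; exact n2⟩
  · rintro (⟨⟨h1, h2⟩ | h1 | h1 | h1, h3⟩ | h1 | h1 | h1)
    · exact Or.inl (Or.inr ⟨h1, h2⟩)
    · exact Or.inr (Or.inl h1)
    · exact absurd h1 h3
    · exact Or.inr (Or.inr h1)
    · exact Or.inl (Or.inl ⟨Or.inr (Or.inr (Or.inr h1)), by rw [h1]; exact n5⟩)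
    · exact Or.inl (Or.inl ⟨Or.inr (Or.inr (Or.inl h1)), by rw [h1]; exact n4⟩)
    · exact Or.inl (Or.inl ⟨Or.inr (Or.inl h1), by rw [h1]; exact n3⟩)

lemma isUnit3_down : IsUnit3 (0, 0, -1) := by
  simp [IsUnit3, Adj]

/-- The tent over the edge of an unknotted polygon, below another polygon. -/
lemma unk_tent {E : Finset (Sym2 P3)} {x y h : ℤ} (hE : IsPolygon E) (hU : Unknotted E)
    (he : s((x, y, h), (x + 1, y, h)) ∈ E) (h1 : (x, y, h + 1) ∉ verts E)
    (h2 : (x + 1, y, h + 1) ∉ verts E) :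
    Unk (body (E \ {s((x, y, h), (x + 1, y, h))}) ∪ tent x y h) := by
  have h3 := tentStatement E x y h 1 hE hU (Or.inl rfl) he h1 h2
  have t1 : toR (x, y, h) = ((x : ℝ), (y : ℝ), (h : ℝ)) := rfl
  have t2 : toR (x + 1, y, h) = ((x : ℝ) + 1, (y : ℝ), (h : ℝ)) := by simp [toR]
  have t3 : (((x : ℝ) + 1 / 2, (y : ℝ), (h : ℝ) + ((1 : ℤ) : ℝ) / 2) : R3) =
      ((x : ℝ) + 1 / 2, (y : ℝ), (h : ℝ) + 1 / 2) := by simp
  rw [t1, t2, t3, tent_eq] at h3
  exact h3

/-- **Package B1.** Joining an unknotted polygon does not change the knot type. -/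
theorem b1_of_moves (hM : MoveFacts) : B1Statement := by
  intro E F x y h hE hUE hF hB he hf
  have e0 : ((x, y, h) : P3) ∈ verts E := ⟨_, he⟩
  have e1 : ((x + 1, y, h) : P3) ∈ verts E := ⟨_, by rw [Sym2.eq_swap]; exact he⟩
  have f0 : ((x, y, h + 1) : P3) ∈ verts F := ⟨_, hf⟩
  have f1 : ((x + 1, y, h + 1) : P3) ∈ verts F := ⟨_, by rw [Sym2.eq_swap]; exact hf⟩
  -- nothing of `F` below the edge
  have hlow : ∀ z : ℤ, z ≤ h → ((x, y, z) : P3) ∉ verts F ∧ ((x + 1, y, z) : P3) ∉ verts F := by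
    intro z hz
    constructor
    · intro hc
      have : h < z := hB _ e0 _ hc rfl rfl
      omega
    · intro hc
      have : h < z := hB _ e1 _ hc rfl rfl
      omega
  have hup : ((x, y, h + 1) : P3) ∉ verts E ∧ ((x + 1, y, h + 1) : P3) ∉ verts E :=
    ⟨fun hc => lt_irrefl _ (hB _ hc _ f0 rfl rfl), fun hc => lt_irrefl _ (hB _ hc _ f1 rfl rfl)⟩
  -- the separating function
  obtain ⟨g, hg, hgE, hgF, hgs⟩ := exists_sep E F x y h hE hF hB he hf
  -- first step: the hanging square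
  have b1 : SameType F (bump F (x, y, h + 1) (x + 1, y, h + 1) (0, 0, -1)) := by
    refine hM.bump F _ _ _ hF hf isUnit3_down ?_ ?_
    · have : ((x, y, h + 1) : P3) + (0, 0, -1) = (x, y, h) := by simp
      rw [this]
      exact (hlow h le_rfl).1
    · have : ((x + 1, y, h + 1) : P3) + (0, 0, -1) = (x + 1, y, h) := by simp
      rw [this]
      exact (hlow h le_rfl).2
  have hP : IsPolygon (bump F (x, y, h + 1) (x + 1, y, h + 1) (0, 0, -1)) := by
    refine isPolygon_bump hF hf isUnit3_down ?_ ?_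
    · have : ((x, y, h + 1) : P3) + (0, 0, -1) = (x, y, h) := by simp
      rw [this]
      exact (hlow h le_rfl).1
    · have : ((x + 1, y, h + 1) : P3) + (0, 0, -1) = (x + 1, y, h) := by simp
      rw [this]
      exact (hlow h le_rfl).2
  have hlow2 : ∀ z : ℤ, z < h →
      ((x, y, z) : P3) ∉ verts (bump F (x, y, h + 1) (x + 1, y, h + 1) (0, 0, -1)) ∧
      ((x + 1, y, z) : P3) ∉ verts (bump F (x, y, h + 1) (x + 1, y, h + 1) (0, 0, -1)) := by
    intro z hz
    constructor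
    · rintro ⟨v, hv⟩
      simp only [bump, Finset.mem_union, Finset.mem_sdiff, Finset.mem_insert,
        Finset.mem_singleton, Sym2.eq_iff, Prod.mk_add_mk, add_zero, Prod.mk.injEq] at hv
      rcases hv with ⟨hv, -⟩ | hv
      · exact (hlow z hz.le).1 ⟨_, hv⟩
      · omega
    · rintro ⟨v, hv⟩
      simp only [bump, Finset.mem_union, Finset.mem_sdiff, Finset.mem_insert,
        Finset.mem_singleton, Sym2.eq_iff, Prod.mk_add_mk, add_zero, Prod.mk.injEq] at hv
      rcases hv with ⟨hv, -⟩ | hv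
      · exact (hlow z hz.le).2 ⟨_, hv⟩
      · omega
  have b2 : SameType (bump F (x, y, h + 1) (x + 1, y, h + 1) (0, 0, -1))
      (joinZ (hang x y h) F x y h) := by
    rw [joinZ_hang (hlow h le_rfl).1]
    refine hM.bump _ _ _ _ hP ?_ isUnit3_down ?_ ?_
    · simp only [bump, Finset.mem_union, Finset.mem_insert, Prod.mk_add_mk, add_zero]
      right; right; left
      simp
    · have : ((x, y, h) : P3) + (0, 0, -1) = (x, y, h - 1) := by simp [sub_eq_add_neg]
      rw [this]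
      exact (hlow2 (h - 1) (by omega)).1
    · have : ((x + 1, y, h) : P3) + (0, 0, -1) = (x + 1, y, h - 1) := by simp [sub_eq_add_neg]
      rw [this]
      exact (hlow2 (h - 1) (by omega)).2
  -- second step: the swap
  have hUA := unk_tent hE hUE he hup.1 hup.2
  have he₀ : s((x, y, h), (x + 1, y, h)) ∈ hang x y h := by simp [hang]
  have hUA₀ : Unk (body (hang x y h \ {s((x, y, h), (x + 1, y, h))}) ∪ tent x y h) := by
    refine unk_tent (isPolygon_hang x y h) (unknotted_hang x y h) he₀ ?_ ?_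
    · rintro ⟨v, hv⟩
      have := (mem_hang hv).2.2
      simp only at this
      omega
    · rintro ⟨v, hv⟩
      have := (mem_hang hv).2.2
      simp only at this
      omega
  obtain ⟨Φ, hΦ⟩ := swap_below (A := body (E \ {s((x, y, h), (x + 1, y, h))}))
    (A₀ := body (hang x y h \ {s((x, y, h), (x + 1, y, h))}))
    (B := body (F \ {s((x, y, h + 1), (x + 1, y, h + 1))})) (isCompact_body _) hg
    (x := x) (y := y) (h := h)
    (fun p hp => hgE p (body_mono Finset.sdiff_subset hp))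
    (fun p hp => by
      obtain ⟨⟨s, hs0, hs1, hp1⟩, hp2, hp3⟩ := body_hang (body_mono Finset.sdiff_subset hp)
      rw [hp1, hp2, hgs s hs0 hs1]
      linarith)
    (fun p hp => hgF p (body_mono Finset.sdiff_subset hp)) hgs hUA hUA₀
  rw [← body_joinZ, ← body_joinZ] at hΦ
  exact (b1.trans b2).trans (restrict_homeo Φ hΦ)

end Pool.Agent.LK
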