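import Pool.Agent.MP_aea6d5_co.Tent

/-! The tent over an edge, as a homeomorphism of space. -/

set_option autoImplicit false

open Set Topology

namespace Pool.Agent.LK

/-- Moving the middle of the edge, as a homeomorphism of space (the polygon may be knotted). -/
lemma tent_std_homeo {E : Finset (Sym2 P3)} (hadj : ∀ u v, s(u, v) ∈ E → Adj u v)
    (he : s(((0, 0, 0) : P3), ((1, 0, 0) : P3)) ∈ E) (h1 : ((0, 0, 1) : P3) ∉ verts E)
    (h2 : ((1, 0, 1) : P3) ∉ verts E) {b : R3}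
    (hb : b ∈ interior (poly LB)) :
    ∃ φ : R3 ≃ₜ R3, φ '' body E = body (E \ {s(((0, 0, 0) : P3), ((1, 0, 0) : P3))}) ∪
      (segment ℝ (toR (0, 0, 0)) b ∪ segment ℝ b (toR (1, 0, 0))) := by
  have ha : ((1 / 2, 0, 0) : R3) ∈ interior (poly LB) := by
    apply mem_interior_poly
    simp only [LB, val, List.forall_mem_cons, List.not_mem_nil, false_implies, implies_true,
      and_true]
    norm_num
  have hu0 : toR (0, 0, 0) ∈ poly LB := by rw [mem_LB]; simp [toR]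
  have hv0 : toR (1, 0, 0) ∈ poly LB := by rw [mem_LB]; simp [toR]
  have hu : toR (0, 0, 0) ∈ frontier (poly LB) := by
    apply mem_frontier_poly (a := (1 / 2, 0, 0)) hu0 (l := (-1, 4, -1, 0))
    · simp [LB]
    · simp [val, toR]
    · simp [val]
  have hv : toR (1, 0, 0) ∈ frontier (poly LB) := by
    apply mem_frontier_poly (a := (1 / 2, 0, 0)) hv0 (l := (1, 4, -1, -1))
    · simp [LB]
    · simp [val, toR]
    · norm_num [val]
  have hm : ((1 / 2, 0, 0) : R3) ∈ segment ℝ (toR (0, 0, 0)) (toR (1, 0, 0)) := by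
    rw [segment_eq_image']
    exact ⟨1 / 2, by norm_num, by simp [toR]⟩
  have hseg : segment ℝ (toR (0, 0, 0)) (toR (1, 0, 0)) ⊆ poly LB :=
    (poly_convex LB).segment_subset hu0 hv0
  have hin : ∀ u v, s(u, v) ∈ E → ∀ P ∈ segment ℝ (toR u) (toR v), P ∈ poly LB →
      s(u, v) = s(((0, 0, 0) : P3), ((1, 0, 0) : P3)) ∨ P = toR (0, 0, 0) ∨ P = toR (1, 0, 0) := by
    intro u v huv P hP hC
    rcases LB_cases (hadj u v huv) hP hC with h | h | h | h | h
    · exact Or.inl h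
    · exact absurd (mem_verts_of_mem huv h) h1
    · exact absurd (mem_verts_of_mem huv h) h2
    · exact Or.inr (Or.inl h)
    · exact Or.inr (Or.inr h)
  have hX : body E ∩ poly LB = segment ℝ (toR (0, 0, 0)) (1 / 2, 0, 0) ∪
      segment ℝ (1 / 2, 0, 0) (toR (1, 0, 0)) := by
    rw [segment_split hm]
    apply Subset.antisymm
    · rintro P ⟨⟨u, v, huv, hP⟩, hC⟩
      rcases hin u v huv P hP hC with h | h | h
      · rcases Sym2.eq_iff.1 h with ⟨rfl, rfl⟩ | ⟨rfl, rfl⟩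
        · exact hP
        · rwa [segment_symm]
      · rw [h]; exact left_mem_segment ℝ _ _
      · rw [h]; exact right_mem_segment ℝ _ _
    · intro P hP
      exact ⟨⟨_, _, he, hP⟩, hseg hP⟩
  have key := vmove_image (b := b) body_LB ha hu hv hX
  have heq : (body E \ poly LB) ∪ (segment ℝ (toR (0, 0, 0)) b ∪ segment ℝ b (toR (1, 0, 0))) =
      body (E \ {s(((0, 0, 0) : P3), ((1, 0, 0) : P3))}) ∪
      (segment ℝ (toR (0, 0, 0)) b ∪ segment ℝ b (toR (1, 0, 0))) := by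
    ext P
    constructor
    · rintro (⟨⟨u, v, huv, hP⟩, hC⟩ | h)
      · left
        refine ⟨u, v, ?_, hP⟩
        rw [Finset.mem_sdiff, Finset.mem_singleton]
        refine ⟨huv, fun h => hC (hseg ?_)⟩
        rcases Sym2.eq_iff.1 h with ⟨rfl, rfl⟩ | ⟨rfl, rfl⟩
        · exact hP
        · rwa [segment_symm]
      · exact Or.inr h
    · rintro (⟨u, v, huv, hP⟩ | h)
      · rw [Finset.mem_sdiff, Finset.mem_singleton] at huv
        by_cases hC : P ∈ poly LB
        · right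
          rcases hin u v huv.1 P hP hC with h | h | h
          · exact absurd h huv.2
          · left; rw [h]; exact left_mem_segment ℝ _ _
          · right; rw [h]; exact right_mem_segment ℝ _ _
        · exact Or.inl ⟨⟨u, v, huv.1, hP⟩, hC⟩
      · exact Or.inr h
  rw [heq] at key
  exact ⟨vmoveHomeo body_LB ha hb, key⟩


theorem exists_tent_homeo (E : Finset (Sym2 P3)) (x y h k : ℤ)
    (hadj : ∀ u v, s(u, v) ∈ E → Adj u v) (hk : k = 1 ∨ k = -1)
    (he : s((x, y, h), (x + 1, y, h)) ∈ E) (h1 : (x, y, h + k) ∉ verts E)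
    (h2 : (x + 1, y, h + k) ∉ verts E) :
    ∃ φ : R3 ≃ₜ R3, φ '' body E = body (E \ {s((x, y, h), (x + 1, y, h))}) ∪
      (segment ℝ (toR (x, y, h)) ((x : ℝ) + 1 / 2, (y : ℝ), (h : ℝ) + k / 2) ∪
       segment ℝ ((x : ℝ) + 1 / 2, (y : ℝ), (h : ℝ) + k / 2) (toR (x + 1, y, h))) := by
  have hF : Frm (1, 0, 0) (0, 1, 0) (0, 0, k) := by
    rcases hk with rfl | rfl <;> decide
  obtain ⟨E₀, rfl⟩ := exists_mapE (x, y, h) hF E
  have f0 : fmap (x, y, h) (1, 0, 0) (0, 1, 0) (0, 0, k) (0, 0, 0) = (x, y, h) := by simp [fmap]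
  have f1 : fmap (x, y, h) (1, 0, 0) (0, 1, 0) (0, 0, k) (1, 0, 0) = (x + 1, y, h) := by
    simp [fmap]
  have f2 : fmap (x, y, h) (1, 0, 0) (0, 1, 0) (0, 0, k) (0, 0, 1) = (x, y, h + k) := by
    simp [fmap]
  have f3 : fmap (x, y, h) (1, 0, 0) (0, 1, 0) (0, 0, k) (1, 0, 1) = (x + 1, y, h + k) := by
    simp [fmap]
  have hadj0 : ∀ u v, s(u, v) ∈ E₀ → Adj u v := fun u v huv =>
    (adj_fmap (x := (x, y, h)) hF).1 (hadj _ _ ((mem_mapE_fmap hF).2 huv))
  have he0 : s(((0, 0, 0) : P3), ((1, 0, 0) : P3)) ∈ E₀ := by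
    rw [← mem_mapE_fmap (x := (x, y, h)) hF, f0, f1]
    exact he
  have h10 : ((0, 0, 1) : P3) ∉ verts E₀ := by
    rw [← mem_verts_fmap (x := (x, y, h)) hF, f2]
    exact h1
  have h20 : ((1, 0, 1) : P3) ∉ verts E₀ := by
    rw [← mem_verts_fmap (x := (x, y, h)) hF, f3]
    exact h2
  have hb : ((1 / 2, 0, 1 / 2) : R3) ∈ interior (poly LB) := by
    apply mem_interior_poly
    simp only [LB, val, List.forall_mem_cons, List.not_mem_nil, false_implies, implies_true,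
      and_true]
    norm_num
  obtain ⟨φ, key⟩ := tent_std_homeo hadj0 he0 h10 h20 hb
  have e1 : mapE (fmap (x, y, h) (1, 0, 0) (0, 1, 0) (0, 0, k))
      (E₀ \ {s(((0, 0, 0) : P3), ((1, 0, 0) : P3))}) =
      mapE (fmap (x, y, h) (1, 0, 0) (0, 1, 0) (0, 0, k)) E₀ \
        {s((x, y, h), (x + 1, y, h))} := by
    have hinj := Sym2.map.injective (fmap_injective (x := (x, y, h)) hF)
    simp only [mapE]
    rw [Finset.image_sdiff _ _ hinj]
    simp only [Finset.image_singleton, Sym2.map_mk, f0, f1]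
  have e2 : fhomeo (x, y, h) hF (1 / 2, 0, 1 / 2) =
      ((x : ℝ) + 1 / 2, (y : ℝ), (h : ℝ) + k / 2) := by
    rw [fhomeo_apply]
    simp only [Int.cast_zero, Int.cast_one, mul_zero, mul_one, add_zero]
    refine Prod.ext ?_ (Prod.ext ?_ ?_) <;> simp only <;> ring
  refine ⟨((fhomeo (x, y, h) hF).symm.trans φ).trans (fhomeo (x, y, h) hF), ?_⟩
  have key2 := congrArg (fun S => fhomeo (x, y, h) hF '' S) key
  rw [image_union, image_union, fhomeo_segment, fhomeo_segment, fhomeo_toR, fhomeo_toR, f0, f1,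
    ← body_fmap hF, e1, e2] at key2
  rw [← key2, body_fmap hF]
  ext z
  constructor
  · rintro ⟨_, ⟨w, hw, rfl⟩, rfl⟩
    refine ⟨φ w, ⟨w, hw, rfl⟩, ?_⟩
    rw [Homeomorph.trans_apply, Homeomorph.trans_apply, Homeomorph.symm_apply_apply]
  · rintro ⟨_, ⟨w, hw, rfl⟩, rfl⟩
    refine ⟨fhomeo (x, y, h) hF w, ⟨w, hw, rfl⟩, ?_⟩
    rw [Homeomorph.trans_apply, Homeomorph.trans_apply, Homeomorph.symm_apply_apply]

/-- The tent does not change the knot type; in particular it reflects unknottedness. -/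
theorem tent_iff (E : Finset (Sym2 P3)) (x y h k : ℤ) (hadj : ∀ u v, s(u, v) ∈ E → Adj u v)
    (hk : k = 1 ∨ k = -1) (he : s((x, y, h), (x + 1, y, h)) ∈ E) (h1 : (x, y, h + k) ∉ verts E)
    (h2 : (x + 1, y, h + k) ∉ verts E) :
    Unk (body (E \ {s((x, y, h), (x + 1, y, h))}) ∪
      (segment ℝ (toR (x, y, h)) ((x : ℝ) + 1 / 2, (y : ℝ), (h : ℝ) + k / 2) ∪
       segment ℝ ((x : ℝ) + 1 / 2, (y : ℝ), (h : ℝ) + k / 2) (toR (x + 1, y, h)))) ↔
    Unknotted E := by
  obtain ⟨φ, hφ⟩ := exists_tent_homeo E x y h k hadj hk he h1 h2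
  rw [← hφ, Unk_image]
  rfl

end Pool.Agent.LK
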