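import Pool.Agent.MP_aea6d5_co.JoinDone
import Pool.Agent.MP_aea6d5_co.TentHomeo
import Pool.Agent.MP_aea6d5_co.KDefs

/-! A chart in which the join, and the two polygons with tents, have a standard form. -/

set_option autoImplicit false
set_option linter.unusedSectionVars false

open Set Topology Filter

namespace Pool.Agent.LK

/-- A homeomorphism of space carries `X` to `Y`. -/
def Eqv (X Y : Set R3) : Prop := ∃ φ : R3 ≃ₜ R3, φ '' X = Y

lemma Eqv.trans {X Y Z : Set R3} (h : Eqv X Y) (h' : Eqv Y Z) : Eqv X Z := by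
  obtain ⟨φ, rfl⟩ := h
  obtain ⟨ψ, rfl⟩ := h'
  exact ⟨φ.trans ψ, by rw [image_image]; rfl⟩

lemma Eqv.symm {X Y : Set R3} (h : Eqv X Y) : Eqv Y X := by
  obtain ⟨φ, rfl⟩ := h
  exact ⟨φ.symm, φ.symm_image_image _⟩

lemma Eqv.refl3 (X : Set R3) : Eqv X (refl3 '' X) := ⟨_, rfl⟩

lemma Eqv.unk {X Y : Set R3} (h : Eqv X Y) : Unk X ↔ Unk Y := by
  obtain ⟨φ, rfl⟩ := h
  exact (unk_homeo_iff φ X).symm

theorem exists_chart {E F : Finset (Sym2 P3)} {x y h : ℤ} (hE : IsPolygon E) (hF : IsPolygon F)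
    (hB : Below E F) (he : s((x, y, h), (x + 1, y, h)) ∈ E)
    (hf : s((x, y, h + 1), (x + 1, y, h + 1)) ∈ F) :
    ∃ (A B : Set R3) (T N : ℝ), 0 ≤ N ∧ N < T ∧
      (∀ u ∈ A, |u.1| ≤ N ∧ |u.2.1| ≤ N ∧ T + 1 / 2 ≤ -u.2.2 ∧ -u.2.2 ≤ T + N) ∧
      (∀ u ∈ B, |u.1| ≤ N ∧ |u.2.1| ≤ N ∧ T + 1 / 2 ≤ u.2.2 ∧ u.2.2 ≤ T + N) ∧
      Eqv (body (joinZ E F x y h)) (A ∪ B ∪ St T) ∧ Eqv (body E) (A ∪ Te T) ∧
      Eqv (body F) (refl3 '' B ∪ Te T) := by
  obtain ⟨g, hg, hgE, hgF, hgs⟩ := sepStatement E F x y h hE hF hB he hf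
  set A := body (E \ {s((x, y, h), (x + 1, y, h))}) with hA_def
  set B := body (F \ {s((x, y, h + 1), (x + 1, y, h + 1))}) with hB_def
  have hAE : A ⊆ body E := body_mono Finset.sdiff_subset
  have hBF : B ⊆ body F := body_mono Finset.sdiff_subset
  have hA : ∀ p ∈ A, p.2.2 + 1 / 2 ≤ g (p.1, p.2.1) := fun p hp => hgE p (hAE hp)
  have hB' : ∀ p ∈ B, g (p.1, p.2.1) ≤ p.2.2 - 1 / 2 := fun p hp => hgF p (hBF hp)
  have e0 : ((x, y, h) : P3) ∈ verts E := ⟨_, he⟩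
  have e1 : ((x + 1, y, h) : P3) ∈ verts E := ⟨_, by rw [Sym2.eq_swap]; exact he⟩
  have f0 : ((x, y, h + 1) : P3) ∈ verts F := ⟨_, hf⟩
  have f1 : ((x + 1, y, h + 1) : P3) ∈ verts F := ⟨_, by rw [Sym2.eq_swap]; exact hf⟩
  -- a bound
  obtain ⟨N, hN0, hNA, hNB⟩ : ∃ N : ℝ, 0 ≤ N ∧
      (∀ p ∈ A, |p.1 - x - 1 / 2| ≤ N ∧ |p.2.1 - y| ≤ N ∧ |p.2.2 - g (p.1, p.2.1)| ≤ N) ∧
      (∀ p ∈ B, |p.1 - x - 1 / 2| ≤ N ∧ |p.2.1 - y| ≤ N ∧ |p.2.2 - g (p.1, p.2.1)| ≤ N) := by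
    have hf : Continuous fun p : R3 => ((p.1 - x - 1 / 2, p.2.1 - y, p.2.2 - g (p.1, p.2.1)) : R3) :=
      by fun_prop
    obtain ⟨N₁, hN₁⟩ := (((isCompact_body _).union (isCompact_body _)).image
      hf).isBounded.exists_norm_le
    refine ⟨max N₁ 0, le_max_right _ _, ?_, ?_⟩
    · intro p hp
      have h1 := hN₁ _ (mem_image_of_mem _ (Or.inl hp))
      exact ⟨((abs_fst_le _).trans h1).trans (le_max_left _ _),
        ((abs_snd1_le _).trans h1).trans (le_max_left _ _),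
        ((abs_snd2_le _).trans h1).trans (le_max_left _ _)⟩
    · intro p hp
      have h1 := hN₁ _ (mem_image_of_mem _ (Or.inr hp))
      exact ⟨((abs_fst_le _).trans h1).trans (le_max_left _ _),
        ((abs_snd1_le _).trans h1).trans (le_max_left _ _),
        ((abs_snd2_le _).trans h1).trans (le_max_left _ _)⟩
  set T : ℝ := N + 1 with hTN
  have hT : 0 ≤ T := by linarith
  refine ⟨fA g x y T '' A, fB g x y T '' B, T, N, hN0, by linarith, ?_, ?_, ?_, ?_, ?_⟩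
  · rintro _ ⟨p, hp, rfl⟩
    obtain ⟨h5, h6, h7⟩ := hNA p hp
    have h8 := hA p hp
    have h9 := abs_le.mp h7
    refine ⟨h5, h6, ?_, ?_⟩
    · change T + 1 / 2 ≤ -(p.2.2 - g (p.1, p.2.1) - T)
      linarith
    · change -(p.2.2 - g (p.1, p.2.1) - T) ≤ T + N
      linarith
  · rintro _ ⟨p, hp, rfl⟩
    obtain ⟨h5, h6, h7⟩ := hNB p hp
    have h8 := hB' p hp
    have h9 := abs_le.mp h7
    refine ⟨h5, h6, ?_, ?_⟩
    · change T + 1 / 2 ≤ p.2.2 - g (p.1, p.2.1) + T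
      linarith
    · change p.2.2 - g (p.1, p.2.1) + T ≤ T + N
      linarith
  · have h3 : body (joinZ E F x y h) = A ∪ B ∪ strands x y h := by
      unfold joinZ
      rw [body_union, body_union, body_insert, body_singleton, ← strands_eq]
      simp [toR, hA_def, hB_def]
    rw [h3]
    exact join_homeo hg hT hA hB' hgs
  · have h1 : Eqv (body E) (A ∪ tent x y h) := by
      obtain ⟨φ, hφ⟩ := exists_tent_homeo E x y h 1 hE.adj (Or.inl rfl) he
        (fun hc => lt_irrefl _ (hB _ hc _ f0 rfl rfl))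
        (fun hc => lt_irrefl _ (hB _ hc _ f1 rfl rfl))
      have t1 : toR (x, y, h) = ((x : ℝ), (y : ℝ), (h : ℝ)) := rfl
      have t2 : toR (x + 1, y, h) = ((x : ℝ) + 1, (y : ℝ), (h : ℝ)) := by simp [toR]
      have t3 : (((x : ℝ) + 1 / 2, (y : ℝ), (h : ℝ) + ((1 : ℤ) : ℝ) / 2) : R3) =
          ((x : ℝ) + 1 / 2, (y : ℝ), (h : ℝ) + 1 / 2) := by simp
      rw [t1, t2, t3, tent_eq] at hφ
      exact ⟨φ, hφ⟩
    exact h1.trans (side_homeo hg hT hA hgs)
  · have h1 : Eqv (body F) (refl3 '' B ∪ tent x y (-(h + 1))) := by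
      obtain ⟨φ, hφ⟩ := exists_tent_homeo F x y (h + 1) (-1) hF.adj (Or.inr rfl) hf
        (fun hc => by
          rw [add_neg_cancel_right] at hc
          exact lt_irrefl _ (hB _ e0 _ hc rfl rfl))
        (fun hc => by
          rw [add_neg_cancel_right] at hc
          exact lt_irrefl _ (hB _ e1 _ hc rfl rfl))
      have h2 : Eqv (body F) _ := Eqv.trans ⟨φ, hφ⟩ (Eqv.refl3 _)
      rw [image_union, image_union, refl3_segment, refl3_segment] at h2
      have t1 : refl3 (toR (x, y, h + 1)) = ((x : ℝ), (y : ℝ), -((h : ℝ) + 1)) := by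
        simp [refl3_apply, toR]
      have t2 : refl3 (toR (x + 1, y, h + 1)) = ((x : ℝ) + 1, (y : ℝ), -((h : ℝ) + 1)) := by
        simp [refl3_apply, toR]
      have t4 : -(((h + 1 : ℤ) : ℝ) + ((-1 : ℤ) : ℝ) / 2) = -((h : ℝ) + 1) + 1 / 2 := by
        push_cast
        ring
      have t3 : refl3 (((x : ℝ) + 1 / 2, (y : ℝ), ((h + 1 : ℤ) : ℝ) + ((-1 : ℤ) : ℝ) / 2) : R3) =
          ((x : ℝ) + 1 / 2, (y : ℝ), -((h : ℝ) + 1) + 1 / 2) := by
        rw [refl3_apply]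
        simp only
        rw [t4]
      rw [t1, t2, t3, tent_eq] at h2
      exact h2
    have h3 : fA (fun v => -g v) x y T '' (refl3 '' B) = refl3 '' (fB g x y T '' B) := by
      rw [image_image, image_image]
      apply image_congr
      intro p _
      refine Prod.ext rfl (Prod.ext rfl ?_)
      change -p.2.2 - -g (p.1, p.2.1) - T = -(p.2.2 - g (p.1, p.2.1) + T)
      ring
    rw [← h3]
    refine h1.trans (side_homeo (g := fun v => -g v) (by fun_prop) hT ?_ ?_)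
    · intro p hp
      rw [mem_refl3_image] at hp
      have := hB' _ hp
      rw [refl3_apply] at this
      simp only at this
      linarith
    · intro s hs0 hs1
      rw [hgs s hs0 hs1]
      ring

end Pool.Agent.LK
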