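import Pool.Agent.MP_aea6d5_co.Brown

/-! Brown's Schoenflies argument for pairs: a cell between two collapsed sets. -/

set_option autoImplicit false
set_option linter.unusedSectionVars false

open Set Topology Filter

namespace Pool.Agent.LK

variable {V M M' : Type} [NormedAddCommGroup V] [NormedSpace ℝ V] [ProperSpace V]
  [TopologicalSpace M] [T2Space M] [CompactSpace M] [TopologicalSpace M'] [T2Space M']
  [CompactSpace M'] {L : Submodule ℝ V}

/-- The part of a cell inside a ball is a cell. -/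
lemma PCell.ball {K : Set M} {w : V → M} (hw : PCell L K w) {ρ : ℝ} (hρ : 0 < ρ) :
    ∃ w' : V → M, PCell L K w' ∧ range w' = w '' Metric.ball 0 ρ := by
  have h1 : IsOpenEmbedding (OpenPartialHomeomorph.univUnitBall : OpenPartialHomeomorph V V) :=
    OpenPartialHomeomorph.univUnitBall.isOpenEmbedding rfl
  have h2 : IsOpenEmbedding (fun x : V => ρ • x) :=
    (Homeomorph.smulOfNeZero ρ hρ.ne').isOpenEmbedding
  have h3 : range (OpenPartialHomeomorph.univUnitBall : OpenPartialHomeomorph V V) =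
      Metric.ball 0 1 := by
    rw [← image_univ]
    exact OpenPartialHomeomorph.univUnitBall.image_source_eq_target
  refine ⟨w ∘ (fun x : V => ρ • x) ∘ (OpenPartialHomeomorph.univUnitBall :
    OpenPartialHomeomorph V V), ⟨hw.1.comp (h2.comp h1), ?_⟩, ?_⟩
  · intro x
    change w (ρ • (OpenPartialHomeomorph.univUnitBall x)) ∈ K ↔ x ∈ L
    rw [hw.2, L.smul_mem_iff hρ.ne', OpenPartialHomeomorph.univUnitBall_apply]
    apply L.smul_mem_iff
    apply inv_ne_zero
    exact Real.sqrt_ne_zero'.mpr (by positivity)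
  · rw [range_comp, range_comp, h3]
    congr 1
    rw [image_smul, smul_unitBall hρ.ne', Real.norm_of_nonneg hρ.le]

/-- **A cell between two collapsed sets.** -/
theorem exists_cell_between {K A B : Set M} {G : Set M'} {f : M → M'} (hf : Continuous f)
    (hfs : Function.Surjective f) {a b p : M'} (hab : a ≠ b) (hpa : p ≠ a) (hpb : p ≠ b)
    (hA : ∀ x, f x = a ↔ x ∈ A) (hB : ∀ x, f x = b ↔ x ∈ B)
    (hinj : ∀ x y, x ∉ A → x ∉ B → f x = f y → x = y)
    (hK : ∀ x, x ∉ A → x ∉ B → (f x ∈ G ↔ x ∈ K)) (haG : a ∈ G) (hbG : b ∈ G) (hpG : p ∈ G)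
    (hM : ∀ p ∈ K, ∃ w : V → M, PCell L K w ∧ range w = {p}ᶜ)
    (hM' : ∀ p ∈ G, ∃ w : V → M', PCell L G w ∧ range w = {p}ᶜ) {s : M} (hsK : s ∈ K)
    (hsB : s ∈ B) : ∃ w : V → M, PCell L K w ∧ B ⊆ range w ∧ range w ⊆ Aᶜ := by
  -- basic facts
  have hAB : ∀ x, x ∈ A → x ∉ B := by
    intro x hx hx'
    rw [← hA] at hx
    rw [← hB, hx] at hx'
    exact hab hx'
  have hAc : IsClosed A := by
    have : A = f ⁻¹' {a} := by
      ext x; rw [mem_preimage, mem_singleton_iff, hA]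
    rw [this]
    exact isClosed_singleton.preimage hf
  have hBc : IsClosed B := by
    have : B = f ⁻¹' {b} := by
      ext x; rw [mem_preimage, mem_singleton_iff, hB]
    rw [this]
    exact isClosed_singleton.preimage hf
  -- local behaviour of f
  have hfmap : ∀ x, x ∉ A → x ∉ B → map f (𝓝 x) = 𝓝 (f x) := by
    intro x hxA hxB
    apply le_antisymm
    · exact hf.continuousAt
    · intro U hU
      obtain ⟨W, hWU, hWo, hxW⟩ := mem_nhds_iff.mp hU
      have h1 : IsClosed (f '' (W ∩ Aᶜ ∩ Bᶜ)ᶜ) :=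
        (((hWo.inter hAc.isOpen_compl).inter hBc.isOpen_compl).isClosed_compl.isCompact.image
          hf).isClosed
      have h2 : f x ∈ (f '' (W ∩ Aᶜ ∩ Bᶜ)ᶜ)ᶜ := by
        rintro ⟨y, hy, hyx⟩
        have := hinj x y hxA hxB hyx.symm
        subst this
        exact hy ⟨⟨hxW, hxA⟩, hxB⟩
      filter_upwards [h1.isOpen_compl.mem_nhds h2] with z hz
      obtain ⟨y, rfl⟩ := hfs z
      by_contra hcon
      apply hz
      refine ⟨y, ?_, rfl⟩
      intro hy
      exact hcon (hWU hy.1.1)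
  -- the inverse
  set φ : M' → M := Function.surjInv hfs with hφ
  have hfφ : ∀ y, f (φ y) = y := Function.surjInv_eq hfs
  have hφf : ∀ x, x ∉ A → x ∉ B → φ (f x) = x := by
    intro x hxA hxB
    exact (hinj x _ hxA hxB (hfφ _).symm).symm
  have hφA : ∀ y, y ≠ a → φ y ∉ A := fun y hy h => hy (by rw [← hfφ y]; exact (hA _).mpr h)
  have hφB : ∀ y, y ≠ b → φ y ∉ B := fun y hy h => hy (by rw [← hfφ y]; exact (hB _).mpr h)
  have hφmap : ∀ y, y ≠ a → y ≠ b → map φ (𝓝 y) = 𝓝 (φ y) := by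
    intro y hya hyb
    have h1 := hfmap (φ y) (hφA y hya) (hφB y hyb)
    rw [hfφ] at h1
    rw [← h1, Filter.map_map]
    have h2 : φ ∘ f =ᶠ[𝓝 (φ y)] id := by
      filter_upwards [hAc.isOpen_compl.mem_nhds (hφA y hya),
        hBc.isOpen_compl.mem_nhds (hφB y hyb)] with x hx1 hx2
      exact hφf x hx1 hx2
    rw [Filter.map_congr h2, Filter.map_id]
  have hφK : ∀ y, y ≠ a → y ≠ b → (φ y ∈ K ↔ y ∈ G) := by
    intro y hya hyb
    rw [← hK _ (hφA y hya) (hφB y hyb), hfφ]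
  -- the homeomorphism h
  obtain ⟨h, hhG, hha, hhb⟩ : ∃ h : M' ≃ₜ M', (∀ y, h y ∈ G ↔ y ∈ G) ∧
      (∀ᶠ y in 𝓝 a, h y = y) ∧ h b ≠ b := by
    obtain ⟨w₀, hw₀, hr₀⟩ := hM' p hpG
    obtain ⟨w, hw, hwr, hw0⟩ := hw₀.recenter haG (by rw [hr₀]; exact hpa.symm)
    have hbr : b ∈ range w := by rw [hwr, hr₀]; exact hpb.symm
    obtain ⟨y, hy⟩ := hbr
    have hy0 : y ≠ 0 := by
      rintro rfl
      exact hab (hw0.symm.trans hy)
    set t := ‖y‖ with ht
    have htp : 0 < t := norm_pos_iff.mpr hy0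
    refine ⟨push w hw.1 (t / 2) 2 t one_le_two (by positivity), push_mem hw _ _, ?_, ?_⟩
    · have h1 : w '' Metric.ball 0 (t / 2) ∈ 𝓝 a :=
        (hw.1.isOpenMap _ Metric.isOpen_ball).mem_nhds ⟨0, by simp [htp], hw0⟩
      filter_upwards [h1] with z hz
      obtain ⟨x, hx, rfl⟩ := hz
      rw [push_apply, expand_of_le _ _ (mem_ball_zero_iff.mp hx).le]
    · rw [← hy, push_apply]
      intro hcon
      have h1 := hw.1.injective hcon
      have h2 := norm_expand (V := V) (d := t / 2) (k := 2) (R := t) one_le_two (by positivity) y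
      rw [h1, ← ht, prof] at h2
      have h3 : min (t / 2 + 2 * (t - t / 2)) (t + t / 2) = 3 / 2 * t := by
        rw [min_eq_left (by linarith)]
        ring
      rw [h3, max_eq_right (by linarith)] at h2
      linarith
  have hha' : h a = a := hha.self_of_nhds
  have hhb_a : h b ≠ a := fun hc => hab (h.injective (hha'.trans hc.symm))
  have hha_ne : ∀ y, y ≠ a → h y ≠ a := fun y hy hc => hy (h.injective (hc.trans hha'.symm))
  set b' : M' := h.symm b with hb'
  have hhb' : h b' = b := h.apply_symm_apply b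
  have hb'b : b' ≠ b := by
    intro hc
    apply hhb
    rw [← hc, hhb', ← hc]
  have hb'a : b' ≠ a := by
    intro hc
    rw [hc, hha'] at hhb'
    exact hab hhb'
  have hb'G : b' ∈ G := by rw [← hhG, hhb']; exact hbG
  -- the exceptional point
  set xb : M := φ b' with hxb
  have hxbK : xb ∈ K := (hφK b' hb'a hb'b).mpr hb'G
  have hxbA : xb ∉ A := hφA b' hb'a
  have hxbB : xb ∉ B := hφB b' hb'b
  set c : M := φ (h b) with hc
  have hcA : c ∉ A := hφA _ hhb_a
  have hcB : c ∉ B := hφB _ hhb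
  have hfc : f c = h b := hfφ _
  have hcK : c ∈ K := (hφK _ hhb_a hhb).mpr ((hhG b).mpr hbG)
  -- the map k
  classical
  set k : M → M := fun x => if x ∈ A then x else φ (h (f x)) with hk
  have hkA : ∀ x ∈ A, k x = x := fun x hx => by rw [hk]; simp only; rw [if_pos hx]
  have hkN : ∀ x, x ∉ A → k x = φ (h (f x)) := fun x hx => by rw [hk]; simp only; rw [if_neg hx]
  have hkB : ∀ x ∈ B, k x = c := by
    intro x hx
    rw [hkN x (fun h' => hAB x h' hx), (hB x).mpr hx]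
  have hfx_b' : ∀ x, x ≠ xb → f x ≠ b' := by
    intro x hx hcon
    apply hx
    have h1 : x ∉ A := fun h' => hb'a (hcon ▸ (hA x).mpr h')
    have h2 : x ∉ B := fun h' => hb'b (hcon ▸ (hB x).mpr h')
    rw [← hφf x h1 h2, hcon]
  have hhf_b : ∀ x, x ≠ xb → h (f x) ≠ b := by
    intro x hx hcon
    apply hfx_b' x hx
    rw [hb', ← hcon, h.symm_apply_apply]
  have hfa : ∀ x, x ∉ A → f x ≠ a := fun x hx hcon => hx ((hA x).mp hcon)
  have hfb : ∀ x, x ∉ B → f x ≠ b := fun x hx hcon => hx ((hB x).mp hcon)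
  have hfkN : ∀ x, x ∉ A → f (k x) = h (f x) := fun x hx => by rw [hkN x hx, hfφ]
  have hkB' : ∀ x, x ≠ xb → k x ∉ B := by
    intro x hx hcon
    by_cases hxA : x ∈ A
    · rw [hkA x hxA] at hcon
      exact hAB x hxA hcon
    · have := (hB _).mpr hcon
      rw [hfkN x hxA] at this
      exact hhf_b x hx this
  have hknA : ∀ x, x ∉ A → k x ∉ A := by
    intro x hx hcon
    have := (hA _).mpr hcon
    rw [hfkN x hx] at this
    exact hha_ne _ (hfa x hx) this
  have hkc : ∀ x, x ∉ B → k x ≠ c := by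
    intro x hx hcon
    by_cases hxA : x ∈ A
    · rw [hkA x hxA] at hcon
      exact hcA (hcon ▸ hxA)
    · have h1 : h (f x) = h b := by rw [← hfkN x hxA, hcon, hfc]
      exact hfb x hx (h.injective h1)
  have hkinj : ∀ x y, x ∉ B → y ∉ B → k x = k y → x = y := by
    intro x y hx hy hxy
    by_cases hxA : x ∈ A
    · by_cases hyA : y ∈ A
      · rwa [hkA x hxA, hkA y hyA] at hxy
      · exact absurd (hxy ▸ (hkA x hxA).symm ▸ hxA) (hknA y hyA)
    · by_cases hyA : y ∈ A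
      · exact absurd (hxy.symm ▸ (hkA y hyA).symm ▸ hyA) (hknA x hxA)
      · have h1 : h (f x) = h (f y) := by rw [← hfkN x hxA, ← hfkN y hyA, hxy]
        exact hinj x y hxA hx (h.injective h1)
  have hkK : ∀ x, x ∉ B → x ≠ xb → (k x ∈ K ↔ x ∈ K) := by
    intro x hx hxx
    by_cases hxA : x ∈ A
    · rw [hkA x hxA]
    · rw [hkN x hxA, hφK _ (hha_ne _ (hfa x hxA)) (hhf_b x hxx), hhG, hK x hxA hx]
  -- local behaviour of k
  have hkevA : ∀ x ∈ A, k =ᶠ[𝓝 x] id := by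
    intro x hx
    have h1 : ∀ᶠ y in 𝓝 x, h (f y) = f y := by
      have h2 : Tendsto f (𝓝 x) (𝓝 a) := by
        have := hf.tendsto x
        rwa [(hA x).mpr hx] at this
      exact h2.eventually hha
    filter_upwards [h1, hBc.isOpen_compl.mem_nhds (hAB x hx)] with y hy1 hy2
    by_cases hyA : y ∈ A
    · exact hkA y hyA
    · rw [hkN y hyA, hy1, hφf y hyA hy2]
      rfl
  have hkevN : ∀ x, x ∉ A → k =ᶠ[𝓝 x] φ ∘ h ∘ f := by
    intro x hx
    filter_upwards [hAc.isOpen_compl.mem_nhds hx] with y hy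
    exact hkN y hy
  have hkcont : ∀ x, x ≠ xb → ContinuousAt k x := by
    intro x hx
    by_cases hxA : x ∈ A
    · exact continuousAt_id.congr (hkevA x hxA).symm
    · refine ContinuousAt.congr ?_ (hkevN x hxA).symm
      have h1 : ContinuousAt φ (h (f x)) := (hφmap _ (hha_ne _ (hfa x hxA)) (hhf_b x hx)).le
      have h2 : ContinuousAt (h ∘ f) x := (h.continuous.comp hf).continuousAt
      exact ContinuousAt.comp (f := h ∘ f) h1 h2
  have hkmap : ∀ x, x ∉ B → x ≠ xb → map k (𝓝 x) = 𝓝 (k x) := by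
    intro x hxB hxx
    by_cases hxA : x ∈ A
    · rw [Filter.map_congr (hkevA x hxA), Filter.map_id, hkA x hxA]
    · rw [Filter.map_congr (hkevN x hxA), ← Filter.map_map, ← Filter.map_map, hfmap x hxA hxB,
        h.map_nhds_eq, hφmap _ (hha_ne _ (hfa x hxA)) (hhf_b x hxx), hkN x hxA]
  -- the domain
  obtain ⟨w₀, hw₀, hr₀⟩ := hM xb hxbK
  obtain ⟨R₀, hR₀, hR₀A, hR₀B⟩ : ∃ R : ℝ, 0 < R ∧ (∀ x ∈ A, ∃ v, ‖v‖ < R ∧ w₀ v = x) ∧
      ∀ x ∈ B, ∃ v, ‖v‖ < R ∧ w₀ v = x := by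
    have h1 : A ∪ B ⊆ range w₀ := by
      rw [hr₀]
      rintro x (hx | hx) hcon
      · exact hxbA (hcon ▸ hx)
      · exact hxbB (hcon ▸ hx)
    have h2 : IsCompact (w₀ ⁻¹' (A ∪ B)) :=
      hw₀.1.isInducing.isCompact_preimage' (hAc.isCompact.union hBc.isCompact) h1
    obtain ⟨R, hR⟩ := h2.isBounded.exists_norm_le
    have h3 : ∀ x ∈ A ∪ B, ∃ v, ‖v‖ < max R 0 + 1 ∧ w₀ v = x := by
      intro x hx
      obtain ⟨v, rfl⟩ := h1 hx
      exact ⟨v, ((hR v hx).trans (le_max_left _ _)).trans_lt (lt_add_one _), rfl⟩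
    exact ⟨max R 0 + 1, by positivity, fun x hx => h3 x (Or.inl hx),
      fun x hx => h3 x (Or.inr hx)⟩
  obtain ⟨wD, hwD, hrD⟩ := hw₀.ball hR₀
  have hDxb : ∀ v, wD v ≠ xb := by
    intro v hcon
    have h1 : wD v ∈ w₀ '' Metric.ball 0 R₀ := hrD ▸ mem_range_self v
    obtain ⟨u, _, hu⟩ := h1
    have h2 : w₀ u ∈ ({xb}ᶜ : Set M) := hr₀ ▸ mem_range_self u
    exact h2 (hu.trans hcon)
  set X : Set M := k '' (w₀ '' Metric.closedBall 0 R₀) with hX
  have hXc : IsCompact X := by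
    have h1 : IsCompact (w₀ '' Metric.closedBall 0 R₀) :=
      (isCompact_closedBall 0 R₀).image hw₀.1.continuous
    apply h1.image_of_continuousOn
    rintro x ⟨u, _, rfl⟩
    apply ContinuousAt.continuousWithinAt
    apply hkcont
    have h2 : w₀ u ∈ ({xb}ᶜ : Set M) := hr₀ ▸ mem_range_self u
    exact h2
  have hXB : ∀ x ∈ X, x ∉ B := by
    rintro _ ⟨x, ⟨u, _, rfl⟩, rfl⟩
    apply hkB'
    have h2 : w₀ u ∈ ({xb}ᶜ : Set M) := hr₀ ▸ mem_range_self u
    exact h2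
  have hDX : ∀ v, k (wD v) ∈ X := by
    intro v
    have h1 : wD v ∈ w₀ '' Metric.ball 0 R₀ := hrD ▸ mem_range_self v
    exact mem_image_of_mem k (image_mono Metric.ball_subset_closedBall h1)
  -- the homeomorphism H
  obtain ⟨H, hHK, hHc, hHX⟩ : ∃ H : M ≃ₜ M, (∀ y, H y ∈ K ↔ y ∈ K) ∧
      (∀ᶠ y in 𝓝 c, H y = y) ∧ ∀ y ∈ X, H y ∉ A ∧ H y ∉ B := by
    obtain ⟨w₁, hw₁, hr₁⟩ := hM s hsK
    obtain ⟨w, hw, hwr, hw0⟩ := hw₁.recenter hcK (by rw [hr₁]; exact fun hc' => hcB (hc' ▸ hsB))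
    have hXr : X ⊆ range w := by
      intro x hx
      rw [hwr, hr₁]
      exact fun hc' => hXB x hx (hc' ▸ hsB)
    obtain ⟨ε, hε, hεs⟩ : ∃ ε > 0, ∀ z : V, ‖z‖ < ε → w z ∉ A ∧ w z ∉ B := by
      have h1 : IsOpen (w ⁻¹' (Aᶜ ∩ Bᶜ)) :=
        (hAc.isOpen_compl.inter hBc.isOpen_compl).preimage hw.1.continuous
      have h2 : (0 : V) ∈ w ⁻¹' (Aᶜ ∩ Bᶜ) := by
        rw [mem_preimage, hw0]
        exact ⟨hcA, hcB⟩
      obtain ⟨ε, hε, h3⟩ := Metric.isOpen_iff.mp h1 0 h2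
      exact ⟨ε, hε, fun z hz => h3 (mem_ball_zero_iff.mpr hz)⟩
    obtain ⟨R, hR, hRs⟩ : ∃ R : ℝ, 0 < R ∧ ∀ z : V, w z ∈ X → ‖z‖ < R := by
      have h1 : IsCompact (w ⁻¹' X) := hw.1.isInducing.isCompact_preimage' hXc hXr
      obtain ⟨R, hR⟩ := h1.isBounded.exists_norm_le
      refine ⟨max R 0 + 1, by positivity, fun z hz => ?_⟩
      have := hR z hz
      exact (this.trans (le_max_left _ _)).trans_lt (by linarith)
    set κ : ℝ := max 1 (2 * R / ε) with hκ_def
    have hκ : 1 ≤ κ := le_max_left _ _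
    have hκR : R ≤ ε / 2 + κ * (ε - ε / 2) := by
      have h1 : 2 * R / ε ≤ κ := le_max_right _ _
      have h2 : 2 * R ≤ κ * ε := by rwa [div_le_iff₀ hε] at h1
      nlinarith
    have hd : (0 : ℝ) ≤ ε / 2 := by positivity
    refine ⟨(push w hw.1 (ε / 2) κ R hκ hd).symm, push_symm_mem hw hκ hd, ?_, ?_⟩
    · have h1 : w '' Metric.ball 0 (ε / 2) ∈ 𝓝 c :=
        (hw.1.isOpenMap _ Metric.isOpen_ball).mem_nhds ⟨0, by simp [hε], hw0⟩
      filter_upwards [h1] with z hz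
      obtain ⟨x, hx, rfl⟩ := hz
      rw [Homeomorph.symm_apply_eq, push_apply, expand_of_le _ _ (mem_ball_zero_iff.mp hx).le]
    · intro y hy
      obtain ⟨z, rfl⟩ := hXr hy
      rw [push_symm_apply]
      apply hεs
      apply norm_lt_of_expand_lt hκ hd hε.le hκR
      rw [Homeomorph.apply_symm_apply]
      exact hRs z hy
  have hHc' : H c = c := hHc.self_of_nhds
  -- the embedding
  set Ψ : M → M := fun x => if x ∈ B then x else φ (h.symm (f (H (k x)))) with hΨ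
  have hΨB : ∀ x ∈ B, Ψ x = x := fun x hx => by rw [hΨ]; simp only; rw [if_pos hx]
  have hΨN : ∀ x, x ∉ B → Ψ x = φ (h.symm (f (H (k x)))) :=
    fun x hx => by rw [hΨ]; simp only; rw [if_neg hx]
  have key : ∀ v, wD v ∉ B → H (k (wD v)) ∉ A ∧ H (k (wD v)) ∉ B ∧
      h.symm (f (H (k (wD v)))) ≠ a ∧ h.symm (f (H (k (wD v)))) ≠ b := by
    intro v hv
    obtain ⟨h1, h2⟩ := hHX _ (hDX v)
    refine ⟨h1, h2, ?_, ?_⟩
    · intro hcon
      rw [Homeomorph.symm_apply_eq, hha'] at hcon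
      exact hfa _ h1 hcon
    · intro hcon
      rw [Homeomorph.symm_apply_eq, ← hfc] at hcon
      have h3 : H (k (wD v)) = c := hinj _ _ h1 h2 hcon
      have h4 : k (wD v) = c := H.injective (h3.trans hHc'.symm)
      exact hkc _ hv h4
  have hΨmap : ∀ v, map Ψ (𝓝 (wD v)) = 𝓝 (Ψ (wD v)) := by
    intro v
    by_cases hvB : wD v ∈ B
    · have h1 : Ψ =ᶠ[𝓝 (wD v)] id := by
        have h2 : Tendsto k (𝓝 (wD v)) (𝓝 c) := by
          have := (hkcont (wD v) (hDxb v)).tendsto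
          rwa [hkB _ hvB] at this
        filter_upwards [h2.eventually hHc, hAc.isOpen_compl.mem_nhds
          (fun h' => hAB _ h' hvB)] with y hy1 hy2
        by_cases hyB : y ∈ B
        · exact hΨB y hyB
        · rw [hΨN y hyB, hy1, hfkN y hy2, h.symm_apply_apply, hφf y hy2 hyB]
          rfl
      rw [Filter.map_congr h1, Filter.map_id, hΨB _ hvB]
    · obtain ⟨h1, h2, h3, h4⟩ := key v hvB
      have h5 : Ψ =ᶠ[𝓝 (wD v)] φ ∘ h.symm ∘ f ∘ H ∘ k := by
        filter_upwards [hBc.isOpen_compl.mem_nhds hvB] with y hy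
        exact hΨN y hy
      rw [Filter.map_congr h5, ← Filter.map_map, ← Filter.map_map, ← Filter.map_map,
        ← Filter.map_map, hkmap _ hvB (hDxb v), H.map_nhds_eq, hfmap _ h1 h2,
        h.symm.map_nhds_eq, hφmap _ h3 h4, hΨN _ hvB]
  have hΨinj : ∀ u v, Ψ (wD u) = Ψ (wD v) → wD u = wD v := by
    intro u v huv
    by_cases huB : wD u ∈ B
    · by_cases hvB : wD v ∈ B
      · rwa [hΨB _ huB, hΨB _ hvB] at huv
      · exfalso
        obtain ⟨h1, h2, h3, h4⟩ := key v hvB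
        rw [hΨB _ huB, hΨN _ hvB] at huv
        exact hφB _ h4 (huv ▸ huB)
    · by_cases hvB : wD v ∈ B
      · exfalso
        obtain ⟨h1, h2, h3, h4⟩ := key u huB
        rw [hΨN _ huB, hΨB _ hvB] at huv
        exact hφB _ h4 (huv.symm ▸ hvB)
      · obtain ⟨h1, h2, h3, h4⟩ := key u huB
        rw [hΨN _ huB, hΨN _ hvB] at huv
        have h5 := congrArg f huv
        rw [hfφ, hfφ] at h5
        have h6 := hinj _ _ h1 h2 (h.symm.injective h5)
        exact hkinj _ _ huB hvB (H.injective h6)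
  refine ⟨Ψ ∘ wD, ⟨IsOpenEmbedding.of_continuous_injective_isOpenMap ?_ ?_ ?_, ?_⟩, ?_, ?_⟩
  · rw [continuous_iff_continuousAt]
    intro v
    exact ContinuousAt.comp (f := wD) (hΨmap v).le hwD.1.continuous.continuousAt
  · intro u v huv
    exact hwD.1.injective (hΨinj u v huv)
  · rw [isOpenMap_iff_nhds_le]
    intro v
    rw [← Filter.map_map, hwD.1.map_nhds_eq, hΨmap v]
    rfl
  · intro v
    rw [← hwD.2 v]
    change Ψ (wD v) ∈ K ↔ wD v ∈ K
    by_cases hvB : wD v ∈ B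
    · rw [hΨB _ hvB]
    · obtain ⟨h1, h2, h3, h4⟩ := key v hvB
      rw [hΨN _ hvB, hφK _ h3 h4, ← hhG, h.apply_symm_apply, hK _ h1 h2, hHK,
        hkK _ hvB (hDxb v)]
  · intro x hx
    obtain ⟨u, hu, hux⟩ := hR₀B x hx
    have h1 : x ∈ range wD := by
      rw [hrD]
      exact ⟨u, mem_ball_zero_iff.mpr hu, hux⟩
    obtain ⟨v, hv⟩ := h1
    refine ⟨v, ?_⟩
    change Ψ (wD v) = x
    rw [hv, hΨB x hx]
  · rintro _ ⟨v, rfl⟩
    change Ψ (wD v) ∉ A
    by_cases hvB : wD v ∈ B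
    · rw [hΨB _ hvB]
      exact fun h' => hAB _ h' hvB
    · obtain ⟨h1, h2, h3, h4⟩ := key v hvB
      rw [hΨN _ hvB]
      exact hφA _ h3

end Pool.Agent.LK
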