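import Pool.Agent.MP_aea6d5_co.Radial

/-! Brown's monotone union theorem for pairs and the sum lemma. -/

set_option autoImplicit false
set_option linter.unusedSectionVars false

open Set Topology Filter

namespace Pool.Agent.LK

variable {V M : Type} [NormedAddCommGroup V] [NormedSpace ℝ V] [ProperSpace V]
  [TopologicalSpace M] [T2Space M] {L : Submodule ℝ V} {K : Set M}

/-- Precomposition with a homeomorphism preserving `L`. -/
lemma PCell.comp_homeo {w : V → M} (hw : PCell L K w) (γ : V ≃ₜ V) (hγ : ∀ x, γ x ∈ L ↔ x ∈ L) :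
    PCell L K (w ∘ γ) :=
  ⟨hw.1.comp γ.isOpenEmbedding, fun x => (hw.2 _).trans (hγ x)⟩

/-- Postcomposition with a homeomorphism preserving `K`. -/
lemma PCell.homeo_comp {w : V → M} (hw : PCell L K w) (f : M ≃ₜ M) (hf : ∀ m, f m ∈ K ↔ m ∈ K) :
    PCell L K (f ∘ w) :=
  ⟨f.isOpenEmbedding.comp hw.1, fun x => (hf _).trans (hw.2 x)⟩

/-- A cell can be recentred at a point of `K`. -/
lemma PCell.recenter {w : V → M} (hw : PCell L K w) {p : M} (hp : p ∈ K) (hpr : p ∈ range w) :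
    ∃ w' : V → M, PCell L K w' ∧ range w' = range w ∧ w' 0 = p := by
  obtain ⟨y, rfl⟩ := hpr
  have hy : y ∈ L := (hw.2 y).mp hp
  refine ⟨w ∘ (Homeomorph.addRight y), hw.comp_homeo _ ?_, ?_, ?_⟩
  · intro x
    change x + y ∈ L ↔ x ∈ L
    exact L.add_mem_iff_left hy
  · exact (Homeomorph.addRight y).surjective.range_comp w
  · simp

/-- The homeomorphism of `M` which expands in the cell `w`. -/
noncomputable def push (w : V → M) (hw : IsOpenEmbedding w) (d k R : ℝ) (hk : 1 ≤ k)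
    (hd : 0 ≤ d) : M ≃ₜ M :=
  extHomeo w hw (expand V d k R hk hd) (Metric.closedBall 0 (2 * R))
    (isCompact_closedBall 0 (2 * R)) (fun x hx => expand_of_ge hk hd (by
      rw [mem_closedBall_zero_iff, not_le] at hx
      exact hx.le))

lemma push_apply {w : V → M} (hw : IsOpenEmbedding w) {d k R : ℝ} (hk : 1 ≤ k) (hd : 0 ≤ d)
    (x : V) : push w hw d k R hk hd (w x) = w (expand V d k R hk hd x) :=
  extHomeo_apply hw _ _ _ x

lemma push_symm_apply {w : V → M} (hw : IsOpenEmbedding w) {d k R : ℝ} (hk : 1 ≤ k) (hd : 0 ≤ d)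
    (x : V) : (push w hw d k R hk hd).symm (w x) = w ((expand V d k R hk hd).symm x) :=
  extHomeo_symm_apply hw _ _ _ x

lemma push_of_notMem {w : V → M} (hw : IsOpenEmbedding w) {d k R : ℝ} (hk : 1 ≤ k) (hd : 0 ≤ d)
    {m : M} (hm : m ∉ range w) : push w hw d k R hk hd m = m :=
  extHomeo_of_notMem hw _ _ _ hm

lemma push_symm_of_notMem {w : V → M} (hw : IsOpenEmbedding w) {d k R : ℝ} (hk : 1 ≤ k)
    (hd : 0 ≤ d) {m : M} (hm : m ∉ range w) : (push w hw d k R hk hd).symm m = m :=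
  extHomeo_symm_of_notMem hw _ _ _ hm

lemma push_mem {w : V → M} (hw : PCell L K w) {d k R : ℝ} (hk : 1 ≤ k) (hd : 0 ≤ d) (m : M) :
    push w hw.1 d k R hk hd m ∈ K ↔ m ∈ K := by
  by_cases hm : m ∈ range w
  · obtain ⟨x, rfl⟩ := hm
    rw [push_apply, hw.2, hw.2, expand_mem]
  · rw [push_of_notMem hw.1 hk hd hm]

lemma push_symm_mem {w : V → M} (hw : PCell L K w) {d k R : ℝ} (hk : 1 ≤ k) (hd : 0 ≤ d) (m : M) :
    (push w hw.1 d k R hk hd).symm m ∈ K ↔ m ∈ K := by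
  rw [← push_mem hw hk hd, Homeomorph.apply_symm_apply]

lemma push_mem_open {w : V → M} (hw : IsOpenEmbedding w) {O : Set M} (hwO : range w ⊆ O)
    {d k R : ℝ} (hk : 1 ≤ k) (hd : 0 ≤ d) {m : M} (hm : m ∈ O) :
    push w hw d k R hk hd m ∈ O := by
  by_cases h : m ∈ range w
  · obtain ⟨x, rfl⟩ := h
    rw [push_apply]
    exact hwO (mem_range_self _)
  · rwa [push_of_notMem hw hk hd h]

lemma push_symm_mem_open {w : V → M} (hw : IsOpenEmbedding w) {O : Set M} (hwO : range w ⊆ O)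
    {d k R : ℝ} (hk : 1 ≤ k) (hd : 0 ≤ d) {m : M} (hm : m ∈ O) :
    (push w hw d k R hk hd).symm m ∈ O := by
  by_cases h : m ∈ range w
  · obtain ⟨x, rfl⟩ := h
    rw [push_symm_apply]
    exact hwO (mem_range_self _)
  · rwa [push_symm_of_notMem hw hk hd h]

lemma norm_lt_of_expand_lt {d k R t : ℝ} (hk : 1 ≤ k) (hd : 0 ≤ d) (ht : 0 ≤ t)
    (h : R ≤ d + k * (t - d)) {x : V} (hx : ‖expand V d k R hk hd x‖ < R) : ‖x‖ < t := by
  by_contra hcon
  push Not at hcon
  rw [norm_expand] at hx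
  have h1 : R ≤ d + k * (‖x‖ - d) := by nlinarith
  exact absurd (prof_ge h1 (norm_nonneg x)) (not_le.mpr hx)

lemma norm_le_of_expand_le {d k R t : ℝ} (hk : 1 ≤ k) (hd : 0 ≤ d) (ht : 0 ≤ t)
    (h : R ≤ d + k * (t - d)) {x : V} (hx : ‖expand V d k R hk hd x‖ ≤ R) : ‖x‖ ≤ t := by
  by_contra hcon
  push Not at hcon
  rw [norm_expand] at hx
  have h2 : prof d k R t < prof d k R ‖x‖ := strictMono_prof hk hcon
  have h3 := prof_ge h ht
  linarith

/-- Every compact subset of `O` lies in an unknotted open cell contained in `O`. -/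
def Exh (L : Submodule ℝ V) (K O : Set M) : Prop :=
  ∀ C ⊆ O, IsCompact C → ∃ w : V → M, PCell L K w ∧ C ⊆ range w ∧ range w ⊆ O

/-- One step of Brown's construction. -/
lemma brown_step {O : Set M} (H : Exh L K O) (e : V → M) (he : PCell L K e) (heO : range e ⊆ O)
    {r : ℝ} (hr : 0 < r) {C : Set M} (hC : IsCompact C) (hCO : C ⊆ O) :
    ∃ e' : V → M, PCell L K e' ∧ range e' ⊆ O ∧ (∀ x, ‖x‖ ≤ r → e' x = e x) ∧
      ∀ m ∈ C, ∃ x, ‖x‖ < 2 * r ∧ e' x = m := by
  set C' : Set M := C ∪ e '' Metric.closedBall 0 (2 * r) with hC'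
  have hC'c : IsCompact C' := hC.union ((isCompact_closedBall 0 (2 * r)).image he.1.continuous)
  have hC'O : C' ⊆ O := union_subset hCO ((image_subset_range _ _).trans heO)
  obtain ⟨w₀, hw₀, hCw₀, hwO₀⟩ := H C' hC'O hC'c
  have he0 : e 0 ∈ C' := Or.inr ⟨0, by simp [hr.le], rfl⟩
  have he0K : e 0 ∈ K := (he.2 0).mpr L.zero_mem
  obtain ⟨w, hw, hwr, hw0⟩ := hw₀.recenter he0K (hCw₀ he0)
  have hCw : C' ⊆ range w := by rw [hwr]; exact hCw₀
  have hwO : range w ⊆ O := by rw [hwr]; exact hwO₀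
  -- a ball of `w` inside the ball of radius `2r` of `e`
  obtain ⟨ε, hε, hεs⟩ : ∃ ε > 0, ∀ z : V, ‖z‖ < ε → ∃ b : V, ‖b‖ < 2 * r ∧ e b = w z := by
    have h1 : IsOpen (w ⁻¹' (e '' Metric.ball 0 (2 * r))) :=
      (he.1.isOpenMap _ Metric.isOpen_ball).preimage hw.1.continuous
    have h2 : (0 : V) ∈ w ⁻¹' (e '' Metric.ball 0 (2 * r)) := by
      refine ⟨0, by simp [hr], hw0.symm⟩
    obtain ⟨ε, hε, h3⟩ := Metric.isOpen_iff.mp h1 0 h2
    refine ⟨ε, hε, fun z hz => ?_⟩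
    obtain ⟨b, hb, hbz⟩ := h3 (mem_ball_zero_iff.mpr hz)
    exact ⟨b, mem_ball_zero_iff.mp hb, hbz⟩
  -- a radius of `w` which contains `C'`
  obtain ⟨R, hR, hRs⟩ : ∃ R : ℝ, 0 < R ∧ ∀ z : V, w z ∈ C' → ‖z‖ < R := by
    have h1 : IsCompact (w ⁻¹' C') := hw.1.isInducing.isCompact_preimage' hC'c hCw
    obtain ⟨R, hR⟩ := h1.isBounded.exists_norm_le
    refine ⟨max R 0 + 1, by positivity, fun z hz => ?_⟩
    have := hR z hz
    exact (this.trans (le_max_left _ _)).trans_lt (by linarith)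
  -- the expansion in `w`
  set k : ℝ := max 1 (2 * R / ε) with hk_def
  have hk : 1 ≤ k := le_max_left _ _
  have hkR : R ≤ ε / 2 + k * (ε - ε / 2) := by
    have h1 : 2 * R / ε ≤ k := le_max_right _ _
    have h2 : 2 * R ≤ k * ε := by rwa [div_le_iff₀ hε] at h1
    nlinarith
  have hd : (0 : ℝ) ≤ ε / 2 := by positivity
  -- a ball of `e` inside the ball of radius `ε/2` of `w`
  obtain ⟨δ, hδ, hδs⟩ : ∃ δ > 0, ∀ z : V, ‖z‖ ≤ δ → ∃ b : V, ‖b‖ ≤ ε / 2 ∧ w b = e z := by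
    have h1 : IsOpen (e ⁻¹' (w '' Metric.ball 0 (ε / 2))) :=
      (hw.1.isOpenMap _ Metric.isOpen_ball).preimage he.1.continuous
    have h2 : (0 : V) ∈ e ⁻¹' (w '' Metric.ball 0 (ε / 2)) := by
      refine ⟨0, by simp [hε], hw0⟩
    obtain ⟨δ, hδ, h3⟩ := Metric.isOpen_iff.mp h1 0 h2
    refine ⟨δ / 2, by positivity, fun z hz => ?_⟩
    obtain ⟨b, hb, hbz⟩ := h3 (mem_ball_zero_iff.mpr (hz.trans_lt (by linarith)))
    exact ⟨b, (mem_ball_zero_iff.mp hb).le, hbz⟩
  set k' : ℝ := max 1 (r / δ) with hk'_def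
  have hk' : 1 ≤ k' := le_max_left _ _
  have hkr : r ≤ 0 + k' * (δ - 0) := by
    have h1 : r / δ ≤ k' := le_max_right _ _
    have h2 : r ≤ k' * δ := by rwa [div_le_iff₀ hδ] at h1
    linarith
  set P : M ≃ₜ M := push e he.1 0 k' r hk' le_rfl with hP
  set g : M ≃ₜ M := push w hw.1 (ε / 2) k R hk hd with hg
  -- P.symm preserves C'
  have hPC : ∀ m ∈ C', P.symm m ∈ C' := by
    intro m hm
    by_cases h : m ∈ range e
    · obtain ⟨a, rfl⟩ := h
      rw [hP, push_symm_apply]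
      by_cases ha : ‖a‖ ≤ 2 * r
      · refine Or.inr ⟨_, ?_, rfl⟩
        rw [mem_closedBall_zero_iff]
        have h1 : ‖expand V 0 k' r hk' le_rfl ((expand V 0 k' r hk' le_rfl).symm a)‖ = ‖a‖ := by
          rw [Homeomorph.apply_symm_apply]
        rw [norm_expand] at h1
        exact le_prof.trans (h1.le.trans ha)
      · push Not at ha
        have h1 : expand V 0 k' r hk' le_rfl a = a := expand_of_ge hk' le_rfl ha.le
        have h2 : (expand V 0 k' r hk' le_rfl).symm a = a := by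
          rw [Homeomorph.symm_apply_eq, h1]
        rwa [h2]
    · rw [hP, push_symm_of_notMem he.1 hk' le_rfl h]
      exact hm
  refine ⟨fun x => P (g (P.symm (e x))), ?_, ?_, ?_, ?_⟩
  · have h1 : PCell L K (P.symm ∘ e) := he.homeo_comp P.symm (push_symm_mem he hk' le_rfl)
    have h2 : PCell L K (g ∘ (P.symm ∘ e)) := h1.homeo_comp g (push_mem hw hk hd)
    exact h2.homeo_comp P (push_mem he hk' le_rfl)
  · rintro _ ⟨x, rfl⟩
    apply push_mem_open he.1 heO
    apply push_mem_open hw.1 hwO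
    apply push_symm_mem_open he.1 heO
    exact heO (mem_range_self x)
  · intro x hx
    change P (g (P.symm (e x))) = e x
    have h1 : P.symm (e x) = e ((expand V 0 k' r hk' le_rfl).symm x) := push_symm_apply he.1 _ _ x
    have h2 : ‖(expand V 0 k' r hk' le_rfl).symm x‖ ≤ δ := by
      apply norm_le_of_expand_le hk' le_rfl hδ.le hkr
      rwa [Homeomorph.apply_symm_apply]
    obtain ⟨b, hb, hbz⟩ := hδs _ h2
    have h3 : g (P.symm (e x)) = P.symm (e x) := by
      rw [h1, ← hbz, hg, push_apply, expand_of_le hk hd hb]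
    rw [h3, Homeomorph.apply_symm_apply]
  · intro m hm
    have hm' : m ∈ C' := Or.inl hm
    obtain ⟨z, hz⟩ := hCw (hPC m hm')
    have hzR : ‖z‖ < R := hRs z (by rw [hz]; exact hPC m hm')
    have h1 : g.symm (P.symm m) = w ((expand V (ε / 2) k R hk hd).symm z) := by
      rw [← hz, hg, push_symm_apply]
    have h2 : ‖(expand V (ε / 2) k R hk hd).symm z‖ < ε := by
      apply norm_lt_of_expand_lt hk hd hε.le hkR
      rwa [Homeomorph.apply_symm_apply]
    obtain ⟨b, hb, hbz⟩ := hεs _ h2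
    refine ⟨expand V 0 k' r hk' le_rfl b, ?_, ?_⟩
    · rw [norm_expand]
      have h3 : prof 0 k' r ‖b‖ < prof 0 k' r (2 * r) := strictMono_prof hk' hb
      rwa [prof_of_ge (le_refl (2 * r))] at h3
    · change P (g (P.symm (e _))) = m
      have h4 : e (expand V 0 k' r hk' le_rfl b) = P (e b) := (push_apply he.1 hk' le_rfl b).symm
      rw [h4, Homeomorph.symm_apply_apply, hbz, ← h1, Homeomorph.apply_symm_apply,
        Homeomorph.apply_symm_apply]

/-- **Brown's monotone union theorem for pairs.** -/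
theorem brown {O : Set M} (H : Exh L K O) {C : ℕ → Set M} (hC : ∀ n, IsCompact (C n))
    (hCO : ⋃ n, C n = O) : ∃ w : V → M, PCell L K w ∧ range w = O := by
  have hCn : ∀ n, C n ⊆ O := fun n => hCO ▸ subset_iUnion C n
  obtain ⟨e₀, he₀, -, heO₀⟩ := H ∅ (empty_subset _) isCompact_empty
  -- the sequence of cells
  let St := {e : V → M // PCell L K e ∧ range e ⊆ O}
  have hstep : ∀ (n : ℕ) (e : St), ∃ e' : St, (∀ x, ‖x‖ ≤ 2 ^ n → e'.1 x = e.1 x) ∧
      ∀ m ∈ C n, ∃ x, ‖x‖ < 2 ^ (n + 1) ∧ e'.1 x = m := by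
    intro n e
    obtain ⟨e', h1, h2, h3, h4⟩ := brown_step H e.1 e.2.1 e.2.2 (r := 2 ^ n) (by positivity)
      (hC n) (hCn n)
    refine ⟨⟨e', h1, h2⟩, h3, fun m hm => ?_⟩
    obtain ⟨x, hx, hxm⟩ := h4 m hm
    exact ⟨x, by rw [pow_succ]; linarith, hxm⟩
  choose f hf1 hf2 using hstep
  let s : ℕ → St := fun n => Nat.rec ⟨e₀, he₀, heO₀⟩ (fun n e => f n e) n
  have hs : ∀ n, s (n + 1) = f n (s n) := fun n => rfl
  have hagree : ∀ n k, ∀ x : V, ‖x‖ ≤ 2 ^ n → (s (n + k)).1 x = (s n).1 x := by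
    intro n k x hx
    induction k with
    | zero => rfl
    | succ k ih =>
      have h1 : ‖x‖ ≤ 2 ^ (n + k) := hx.trans (pow_le_pow_right₀ (by norm_num) (by omega))
      have h2 := hf1 (n + k) (s (n + k)) x h1
      rw [← hs] at h2
      rw [← ih, ← h2]
      rfl
  have hagree' : ∀ n m, ∀ x : V, ‖x‖ ≤ 2 ^ n → ‖x‖ ≤ 2 ^ m → (s n).1 x = (s m).1 x := by
    intro n m x hn hm
    rcases le_total n m with h | h
    · obtain ⟨k, rfl⟩ := Nat.exists_eq_add_of_le h
      exact (hagree n k x hn).symm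
    · obtain ⟨k, rfl⟩ := Nat.exists_eq_add_of_le h
      exact hagree m k x hm
  have hN : ∀ x : V, ‖x‖ < 2 ^ ⌈‖x‖⌉₊ := by
    intro x
    refine (Nat.le_ceil ‖x‖).trans_lt ?_
    exact_mod_cast (Nat.lt_two_pow_self (n := ⌈‖x‖⌉₊))
  let E : V → M := fun x => (s ⌈‖x‖⌉₊).1 x
  have hE : ∀ n, ∀ x : V, ‖x‖ ≤ 2 ^ n → E x = (s n).1 x := fun n x hx =>
    hagree' _ _ x (hN x).le hx
  have hEc : Continuous E := by
    rw [continuous_iff_continuousAt]
    intro x
    have h1 : E =ᶠ[𝓝 x] (s ⌈‖x‖⌉₊).1 := by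
      have h2 : {y : V | ‖y‖ < 2 ^ ⌈‖x‖⌉₊} ∈ 𝓝 x :=
        (isOpen_lt continuous_norm continuous_const).mem_nhds (hN x)
      filter_upwards [h2] with y hy
      exact hE _ y (le_of_lt hy)
    exact ((s ⌈‖x‖⌉₊).2.1.1.continuous.continuousAt).congr h1.symm
  have hEi : Function.Injective E := by
    intro x y hxy
    set n := max ⌈‖x‖⌉₊ ⌈‖y‖⌉₊
    have hx : ‖x‖ ≤ 2 ^ n := (hN x).le.trans (pow_le_pow_right₀ (by norm_num) (le_max_left _ _))
    have hy : ‖y‖ ≤ 2 ^ n := (hN y).le.trans (pow_le_pow_right₀ (by norm_num) (le_max_right _ _))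
    rw [hE n x hx, hE n y hy] at hxy
    exact (s n).2.1.1.injective hxy
  have hEo : IsOpenMap E := by
    intro U hU
    have h1 : E '' U = ⋃ n : ℕ, (s n).1 '' (U ∩ {y : V | ‖y‖ < 2 ^ n}) := by
      ext m
      simp only [mem_image, mem_iUnion, mem_inter_iff, mem_setOf_eq]
      constructor
      · rintro ⟨x, hx, rfl⟩
        exact ⟨⌈‖x‖⌉₊, x, ⟨hx, hN x⟩, rfl⟩
      · rintro ⟨n, x, ⟨hx, hx2⟩, rfl⟩
        exact ⟨x, hx, hE n x hx2.le⟩
    rw [h1]
    refine isOpen_iUnion fun n => (s n).2.1.1.isOpenMap _ (hU.inter ?_)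
    exact isOpen_lt continuous_norm continuous_const
  refine ⟨E, ⟨IsOpenEmbedding.of_continuous_injective_isOpenMap hEc hEi hEo, ?_⟩, ?_⟩
  · intro x
    exact (s ⌈‖x‖⌉₊).2.1.2 x
  · apply Subset.antisymm
    · rintro _ ⟨x, rfl⟩
      exact (s ⌈‖x‖⌉₊).2.2 (mem_range_self x)
    · intro m hm
      rw [← hCO, mem_iUnion] at hm
      obtain ⟨n, hn⟩ := hm
      obtain ⟨x, hx, hxm⟩ := hf2 n (s n) m hn
      refine ⟨x, ?_⟩
      rw [hE (n + 1) x hx.le, hs, hxm]

/-- **Sum lemma.** If the compact space `M` is covered by two open cells in which `K` is unknotted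
then `K` is unknotted in the complement of a point. -/
theorem sum_lemma [CompactSpace M] {w₁ w₂ : V → M} (h₁ : PCell L K w₁) (h₂ : PCell L K w₂)
    (hcov : range w₁ ∪ range w₂ = univ) {p : M} (hp : p ∈ K) (hp2 : p ∉ range w₂) :
    ∃ w : V → M, PCell L K w ∧ range w = {p}ᶜ := by
  have hp1 : p ∈ range w₁ := by
    have : p ∈ range w₁ ∪ range w₂ := hcov ▸ mem_univ p
    exact this.resolve_right hp2
  obtain ⟨w, hw, hwr, hw0⟩ := h₁.recenter hp hp1
  have hcov' : (range w₂)ᶜ ⊆ range w := by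
    intro m hm
    have : m ∈ range w₁ ∪ range w₂ := hcov ▸ mem_univ m
    rw [hwr]
    exact this.resolve_right hm
  have hB : IsCompact (range w₂)ᶜ := h₂.1.isOpen_range.isClosed_compl.isCompact
  obtain ⟨R, hR, hRs⟩ : ∃ R : ℝ, 0 < R ∧ ∀ z : V, w z ∉ range w₂ → ‖z‖ < R := by
    have h1 : IsCompact (w ⁻¹' (range w₂)ᶜ) := hw.1.isInducing.isCompact_preimage' hB hcov'
    obtain ⟨R, hR⟩ := h1.isBounded.exists_norm_le
    refine ⟨max R 0 + 1, by positivity, fun z hz => ?_⟩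
    have := hR z hz
    exact (this.trans (le_max_left _ _)).trans_lt (by linarith)
  -- the exhaustion
  let C : ℕ → Set M := fun n => (w '' Metric.ball 0 (1 / ((n : ℝ) + 1)))ᶜ
  have hCc : ∀ n, IsCompact (C n) := fun n =>
    (hw.1.isOpenMap _ Metric.isOpen_ball).isClosed_compl.isCompact
  have hCO : ⋃ n, C n = {p}ᶜ := by
    ext m
    simp only [mem_iUnion, mem_compl_iff, mem_singleton_iff, C]
    constructor
    · rintro ⟨n, hn⟩ rfl
      apply hn
      refine ⟨0, ?_, hw0⟩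
      rw [mem_ball_zero_iff, norm_zero]
      positivity
    · intro hm
      by_cases hmr : m ∈ range w
      · obtain ⟨x, rfl⟩ := hmr
        have hx : 0 < ‖x‖ := by
          rw [norm_pos_iff]
          rintro rfl
          exact hm hw0
        obtain ⟨n, hn⟩ := exists_nat_one_div_lt hx
        refine ⟨n, ?_⟩
        rintro ⟨y, hy, hyx⟩
        rw [hw.1.injective hyx, mem_ball_zero_iff] at hy
        linarith
      · refine ⟨0, ?_⟩
        rintro ⟨y, _, rfl⟩
        exact hmr (mem_range_self y)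
  refine brown ?_ hCc hCO
  intro D hD hDc
  -- a small ball of `w` disjoint from `D`
  obtain ⟨ε, hε, hεs⟩ : ∃ ε > 0, ∀ z : V, ‖z‖ < ε → w z ∉ D := by
    have h1 : IsOpen (w ⁻¹' Dᶜ) := hDc.isClosed.isOpen_compl.preimage hw.1.continuous
    have h2 : (0 : V) ∈ w ⁻¹' Dᶜ := by
      rw [mem_preimage, hw0]
      exact fun h => hD h rfl
    obtain ⟨ε, hε, h3⟩ := Metric.isOpen_iff.mp h1 0 h2
    exact ⟨ε, hε, fun z hz => h3 (mem_ball_zero_iff.mpr hz)⟩
  set k : ℝ := max 1 (R / ε) with hk_def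
  have hk : 1 ≤ k := le_max_left _ _
  have hkR : R ≤ 0 + k * (ε - 0) := by
    have h1 : R / ε ≤ k := le_max_right _ _
    have h2 : R ≤ k * ε := by rwa [div_le_iff₀ hε] at h1
    linarith
  set g : M ≃ₜ M := push w hw.1 0 k R hk le_rfl with hg
  refine ⟨g.symm ∘ w₂, h₂.homeo_comp g.symm (push_symm_mem hw hk le_rfl), ?_, ?_⟩
  · intro m hm
    have h1 : g m ∈ range w₂ := by
      by_contra hcon
      obtain ⟨z, hz⟩ := hcov' hcon
      have hzR : ‖z‖ < R := hRs z (by rw [hz]; exact hcon)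
      have h2 : m = w ((expand V 0 k R hk le_rfl).symm z) := by
        rw [← push_symm_apply hw.1 hk le_rfl z, hz]
        exact (g.symm_apply_apply m).symm
      have h3 : ‖(expand V 0 k R hk le_rfl).symm z‖ < ε := by
        apply norm_lt_of_expand_lt hk le_rfl hε.le hkR
        rwa [Homeomorph.apply_symm_apply]
      exact hεs _ h3 (h2 ▸ hm)
    obtain ⟨x, hx⟩ := h1
    refine ⟨x, ?_⟩
    change g.symm (w₂ x) = m
    rw [hx, Homeomorph.symm_apply_apply]
  · rintro _ ⟨x, rfl⟩ hcon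
    rw [mem_singleton_iff] at hcon
    change g.symm (w₂ x) = p at hcon
    have h1 : w₂ x = g p := by rw [← hcon, Homeomorph.apply_symm_apply]
    have h2 : g p = p := by
      rw [← hw0, hg, push_apply, expand_of_le hk le_rfl (by simp)]
    apply hp2
    rw [← h2, ← h1]
    exact mem_range_self x

end Pool.Agent.LK
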