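import Pool.Agent.MP_aea6d5_co.CGlue

/-! Attaching several small polygons to an unknotted polygon at far contacts. -/

set_option autoImplicit false

namespace Pool.Agent.LK

/-- A contact of `E` and `F`: the points `p` of `E` and `q` of `F` can be brought together. -/
structure Con (E F : Finset (Sym2 P3)) (p q N : P3) : Prop where
  hp : p ∈ verts E
  hq : q ∈ verts F
  hN0 : 0 ≤ N.2.2
  hNR : nsq N ≤ 2000000 ^ 2
  hN : (2000000 - 1) ^ 2 ≤ nsq N + 2
  free : ∀ s : P3, nsq s < 2 * dot N s → ∀ t : ℤ, 0 ≤ t → ∀ u ∈ verts E, ∀ v ∈ verts F,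
    u - v ≠ (p - q) + s + (0, 0, t)

theorem box_of_nsq {N s : P3} {R : ℤ} (hR : 0 ≤ R) (hN : nsq N ≤ R ^ 2)
    (hs : nsq s < 2 * dot N s) : |s.1| ≤ 2 * R ∧ |s.2.1| ≤ 2 * R := by
  obtain ⟨n1, n2, n3⟩ := N
  obtain ⟨s1, s2, s3⟩ := s
  simp only [nsq, dot] at *
  have h1 : (s1 - n1) ^ 2 + (s2 - n2) ^ 2 + (s3 - n3) ^ 2 < R ^ 2 := by nlinarith
  have a1 : |s1 - n1| ≤ R := abs_le_of_sq_le_sq (by nlinarith [sq_nonneg (s2 - n2), sq_nonneg (s3 - n3)]) hR
  have a2 : |s2 - n2| ≤ R := abs_le_of_sq_le_sq (by nlinarith [sq_nonneg (s1 - n1), sq_nonneg (s3 - n3)]) hR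
  have b1 : |n1| ≤ R := abs_le_of_sq_le_sq (by nlinarith [sq_nonneg n2, sq_nonneg n3]) hR
  have b2 : |n2| ≤ R := abs_le_of_sq_le_sq (by nlinarith [sq_nonneg n1, sq_nonneg n3]) hR
  simp only [abs_le] at *
  omega

/-- A contact persists when the polygon is changed far away. -/
theorem Con.far {E E' F : Finset (Sym2 P3)} {p q N : P3} {m : ℤ} (h : Con E F p q N)
    (hm : ∀ v ∈ verts F, Box m (v - q)) (hp : p ∈ verts E')
    (hE' : ∀ u ∈ verts E', u ∈ verts E ∨ HFar (m + 4000000) u p) : Con E' F p q N := by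
  refine ⟨hp, h.hq, h.hN0, h.hNR, h.hN, ?_⟩
  intro s hs t ht u hu v hv he
  rcases hE' u hu with h1 | h1
  · exact h.free s hs t ht u h1 v hv he
  · have h2 := hm v hv
    obtain ⟨h3, h4⟩ := box_of_nsq (by norm_num) h.hNR hs
    have e1 : u.1 - p.1 = (v.1 - q.1) + s.1 := by
      have := congrArg (fun x : P3 => x.1) he
      simp only [Prod.fst_sub, Prod.fst_add] at this
      omega
    have e2 : u.2.1 - p.2.1 = (v.2.1 - q.2.1) + s.2.1 := by
      have := congrArg (fun x : P3 => x.2.1) he
      simp only [Prod.fst_sub, Prod.fst_add, Prod.snd_sub, Prod.snd_add] at this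
      omega
    simp only [HFar, Box, Prod.fst_sub, Prod.snd_sub, abs_le, lt_abs] at *
    omega

theorem Con.joined {CE CF CR : Finset (Sym2 P3) → Prop} (mE : MoveClosed CE)
    (mF : MoveClosed (fun F => CF (negE F)))
    (shiftF : ∀ F, CF F → ∀ t : P3, CF (shift t F))
    (hjoin : ∀ E F x y h, CE E → CF F → Below E F → s((x, y, h), (x + 1, y, h)) ∈ E →
      s((x, y, h + 1), (x + 1, y, h + 1)) ∈ F → CR (joinZ E F x y h))
    {E F : Finset (Sym2 P3)} (hE : CE E) (hF : CF F) {p q N : P3} (h : Con E F p q N) :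
    ∃ R E' F' a w, Joined CE CF CR E F (p - q) R E' F' p a w := by
  obtain ⟨x, y, z, hFr, h1, h2, h3⟩ := exists_frame N
  have hM : 1000000 ≤ dot N x := by
    have := nsq_le_of_frame hFr h1 h2 h3
    have hN := h.hN
    by_contra hlt
    push Not at hlt
    have h0 : 0 ≤ dot N x := by omega
    nlinarith
  exact assemble2 mE mF shiftF hjoin hE hF h.hp h.hq hFr h1 h2 h3 hM h.hN0 h.free

section build

variable {ι : Type} [DecidableEq ι]

/-- The outcome of the attachments. -/
structure Built (G : Subgroup (R3 ≃ₜ R3)) (P : Finset (Sym2 P3)) (K K0 : ι → Finset (Sym2 P3))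
    (p q : ι → P3) (S : Finset ι) (C : Finset (Sym2 P3)) (F : ι → Finset (Sym2 P3))
    (a w : ι → P3) : Prop where
  cC : UClass C
  cF : ∀ j ∈ S, GClass G (K j) (F j)
  below : ∀ j ∈ S, Below C (F j)
  eE : ∀ j ∈ S, s(a j, a j + (1, 0, 0)) ∈ C
  eF : ∀ j ∈ S, s(a j + (0, 0, 1), a j + (0, 0, 1) + (1, 0, 0)) ∈ F j
  sep : ∀ j ∈ S, ∀ u ∈ verts C, ∀ v ∈ verts (F j), Box 1 (u - v) →
    Box 1000 (u - a j) ∧ Box 1000 (v - a j)
  pa : ∀ j ∈ S, Box 1000 (p j - a j)
  wd : ∀ j ∈ S, Box 1000 (w j - (p j - q j))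
  chF : ∀ j ∈ S, ChangedIn (a j) 1000 (shift (w j) (K0 j)) (F j)
  chC : ∀ u v, (s(u, v) ∈ P ∧ s(u, v) ∉ C) ∨ (s(u, v) ∉ P ∧ s(u, v) ∈ C) →
    ∃ j ∈ S, Box 1000 (u - a j) ∧ Box 1000 (v - a j)
  disj : ∀ j ∈ S, ∀ u ∈ verts P, u ∉ verts (shift (w j) (K0 j))

variable {G : Subgroup (R3 ≃ₜ R3)} {P : Finset (Sym2 P3)} {K K0 : ι → Finset (Sym2 P3)}
  {p q N : ι → P3} {S : Finset ι} {C : Finset (Sym2 P3)} {F : ι → Finset (Sym2 P3)} {a w : ι → P3}

theorem Built.near (h : Built G P K K0 p q S C F a w) {m B : ℕ}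
    (hB : ∀ (a : P3) (E E' : Finset (Sym2 P3)), ChangedIn a 1000 E E' → E'.card ≤ E.card + B)
    (hm : ∀ j ∈ S, (K0 j).card ≤ m) {j : ι} (hj : j ∈ S) {v : P3} (hv : v ∈ verts (F j)) :
    Box (m + B + 1) (v - a j) := by
  have h1 := hB _ _ _ (h.chF j hj)
  rw [card_shift] at h1
  have h2 := hm j hj
  have h3 := diam_le (h.cF j hj).1 hv (left_mem_verts (h.eF j hj))
  have e : v - a j = (v - (a j + (0, 0, 1))) + (0, 0, 1) := by abel
  have u3 : Box 1 ((0, 0, 1) : P3) := by simp [Box]
  rw [e]
  exact (h3.add u3).mono (by push_cast; omega)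

theorem build (hG : BigGroup G) {m B : ℕ}
    (hB : ∀ (a : P3) (E E' : Finset (Sym2 P3)), ChangedIn a 1000 E E' → E'.card ≤ E.card + B)
    {D : ℤ} (hD : 10000000 + 10 * ((m : ℤ) + B) ≤ D) (hP : UClass P)
    (hm : ∀ j ∈ S, (K0 j).card ≤ m) (hK0 : ∀ j ∈ S, GClass G (K j) (K0 j))
    (hcon : ∀ j ∈ S, Con P (K0 j) (p j) (q j) (N j))
    (hfar : ∀ i ∈ S, ∀ j ∈ S, i ≠ j → HFar D (p i) (p j)) :
    ∃ C F a w, Built G P K K0 p q S C F a w := by
  induction S using Finset.induction_on with
  | empty =>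
    refine ⟨P, fun _ => ∅, fun _ => 0, fun _ => 0, hP, ?_, ?_, ?_, ?_, ?_, ?_, ?_, ?_, ?_, ?_⟩
    all_goals try (intro j hj; exact absurd hj (Finset.notMem_empty j))
    intro u v huv
    tauto
  | insert j S hj ih =>
    obtain ⟨C, F, a, w, h⟩ := ih (fun i hi => hm i (Finset.mem_insert_of_mem hi))
      (fun i hi => hK0 i (Finset.mem_insert_of_mem hi))
      (fun i hi => hcon i (Finset.mem_insert_of_mem hi))
      (fun i hi i' hi' => hfar i (Finset.mem_insert_of_mem hi) i' (Finset.mem_insert_of_mem hi'))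
    have hmS : ∀ i ∈ S, (K0 i).card ≤ m := fun i hi => hm i (Finset.mem_insert_of_mem hi)
    have hjm : j ∈ insert j S := Finset.mem_insert_self j S
    have hne : ∀ i ∈ S, i ≠ j := fun i hi e => hj (e ▸ hi)
    have hfj : ∀ i ∈ S, HFar D (p i) (p j) := fun i hi =>
      hfar i (Finset.mem_insert_of_mem hi) j hjm (hne i hi)
    have hcj := hcon j hjm
    have hap : ∀ i ∈ S, Box 1000 (a i - p i) := by
      intro i hi
      have e : a i - p i = -(p i - a i) := by abel
      rw [e]; exact (h.pa i hi).neg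
    -- the vertices of `C`
    have vC : ∀ u ∈ verts C, u ∈ verts P ∨ ∃ i ∈ S, Box 1000 (u - a i) := by
      rintro u ⟨v, huv⟩
      by_cases h1 : s(u, v) ∈ P
      · exact Or.inl (left_mem_verts h1)
      · obtain ⟨i, hi, h2, -⟩ := h.chC u v (Or.inr ⟨h1, huv⟩)
        exact Or.inr ⟨i, hi, h2⟩
    have vP : ∀ u ∈ verts P, u ∈ verts C ∨ ∃ i ∈ S, Box 1000 (u - a i) := by
      rintro u ⟨v, huv⟩
      by_cases h1 : s(u, v) ∈ C
      · exact Or.inl (left_mem_verts h1)
      · obtain ⟨i, hi, h2, -⟩ := h.chC u v (Or.inl ⟨huv, h1⟩)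
        exact Or.inr ⟨i, hi, h2⟩
    have nearfar : ∀ i ∈ S, ∀ u, Box 1000 (u - a i) → HFar (D - 3000) u (p j) := by
      intro i hi u hu
      have h1 : Box 2000 (u - p i) := by
        have e : u - p i = (u - a i) + (a i - p i) := by abel
        rw [e]; exact (hu.add (hap i hi)).mono (by norm_num)
      exact (hfj i hi).move (r := 2000) (r' := 0) (by omega) h1 (box_zero _)
    have hqm : ∀ v ∈ verts (K0 j), Box m (v - q j) := by
      intro v hv
      have := diam_le (hK0 j hjm).1 hv hcj.hq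
      exact this.mono (by exact_mod_cast hm j hjm)
    have hcon' : Con C (K0 j) (p j) (q j) (N j) := by
      refine hcj.far hqm ?_ ?_
      · rcases vP _ hcj.hp with h1 | ⟨i, hi, h1⟩
        · exact h1
        · exfalso
          have h2 := nearfar i hi _ h1
          exact h2.not_box (r := 0) (by omega) (box_zero _)
      · intro u hu
        rcases vC u hu with h1 | ⟨i, hi, h1⟩
        · exact Or.inl h1
        · right
          exact (nearfar i hi u h1).move (r := 0) (r' := 0) (by omega) (box_zero _) (box_zero _)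
    obtain ⟨R, C', F', a', w', hJ⟩ := hcon'.joined (CR := fun _ => True) unknotClosedZ.move
      ((GClass.move hG (K j)).negE) (fun F hF t => hF.shift hG t)
      (fun _ _ _ _ _ _ _ _ _ _ => trivial) h.cC (hK0 j hjm)
    have ha'p : Box 1000 (a' - p j) := by
      have e : a' - p j = -(p j - a') := by abel
      rw [e]; exact hJ.pa.neg
    -- everything near `a'` is far from everything near `a i`
    have far1 : ∀ i ∈ S, HFar (D - 2000) (a i) a' := by
      intro i hi
      exact (hfj i hi).move (r := 1000) (r' := 1000) (by omega) (hap i hi) ha'p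
    have vC' : ∀ u ∈ verts C', u ∈ verts C ∨ Box 1000 (u - a') := by
      rintro u ⟨v, huv⟩
      by_cases h1 : s(u, v) ∈ C
      · exact Or.inl (left_mem_verts h1)
      · exact Or.inr (hJ.chE u v (Or.inr ⟨h1, huv⟩)).1
    have farF : ∀ i ∈ S, ∀ v ∈ verts (F i), ∀ u, Box 1000 (u - a') → HFar 1 u v := by
      intro i hi v hv u hu
      have h1 := h.near hB hmS hi hv
      exact ((far1 i hi).symm.move (r := 1000) (r' := m + B + 1) (by omega) hu h1)
    have old : ∀ u v i, i ∈ S → Box 1000 (u - a i) → (s(u, v) ∈ C ↔ s(u, v) ∈ C') := by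
      intro u v i hi hu
      refine hJ.chE.iff_far ?_
      rintro ⟨h1, -⟩
      have h2 : HFar (D - 3000) u a' := (far1 i hi).move (r := 1000) (r' := 0) (by omega) hu
        (box_zero _)
      exact h2.not_box (by omega) h1
    refine ⟨C', Function.update F j F', Function.update a j a', Function.update w j w', hJ.cE,
      ?_, ?_, ?_, ?_, ?_, ?_, ?_, ?_, ?_, ?_⟩
    · intro i hi
      rcases Finset.mem_insert.1 hi with rfl | hi
      · rw [Function.update_self]; exact hJ.cF
      · rw [Function.update_of_ne (hne i hi)]; exact h.cF i hi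
    · intro i hi
      rcases Finset.mem_insert.1 hi with rfl | hi
      · rw [Function.update_self]; exact hJ.below
      · rw [Function.update_of_ne (hne i hi)]
        intro u hu v hv h1 h2
        rcases vC' u hu with h3 | h3
        · exact h.below i hi u h3 v hv h1 h2
        · exact ((farF i hi v hv u h3).col (by norm_num) ⟨h1, h2⟩).elim
    · intro i hi
      rcases Finset.mem_insert.1 hi with rfl | hi
      · rw [Function.update_self]; exact hJ.eE
      · rw [Function.update_of_ne (hne i hi)]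
        exact (old _ _ i hi ((box_zero _).mono (by norm_num))).1 (h.eE i hi)
    · intro i hi
      rcases Finset.mem_insert.1 hi with rfl | hi
      · rw [Function.update_self, Function.update_self]; exact hJ.eF
      · rw [Function.update_of_ne (hne i hi), Function.update_of_ne (hne i hi)]; exact h.eF i hi
    · intro i hi
      rcases Finset.mem_insert.1 hi with rfl | hi
      · rw [Function.update_self, Function.update_self]; exact hJ.sep
      · rw [Function.update_of_ne (hne i hi), Function.update_of_ne (hne i hi)]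
        intro u hu v hv huv
        rcases vC' u hu with h3 | h3
        · exact h.sep i hi u h3 v hv huv
        · exact ((farF i hi v hv u h3).not_box le_rfl huv).elim
    · intro i hi
      rcases Finset.mem_insert.1 hi with rfl | hi
      · rw [Function.update_self]; exact hJ.pa
      · rw [Function.update_of_ne (hne i hi)]; exact h.pa i hi
    · intro i hi
      rcases Finset.mem_insert.1 hi with rfl | hi
      · rw [Function.update_self]; exact hJ.wd
      · rw [Function.update_of_ne (hne i hi)]; exact h.wd i hi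
    · intro i hi
      rcases Finset.mem_insert.1 hi with rfl | hi
      · rw [Function.update_self, Function.update_self, Function.update_self]; exact hJ.chF
      · rw [Function.update_of_ne (hne i hi), Function.update_of_ne (hne i hi),
          Function.update_of_ne (hne i hi)]
        exact h.chF i hi
    · intro u v huv
      by_cases h1 : s(u, v) ∈ C
      · by_cases h2 : s(u, v) ∈ C'
        · obtain ⟨i, hi, h3⟩ := h.chC u v (by tauto)
          exact ⟨i, Finset.mem_insert_of_mem hi, by rwa [Function.update_of_ne (hne i hi)]⟩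
        · exact ⟨j, hjm, by rw [Function.update_self]; exact hJ.chE u v (Or.inl ⟨h1, h2⟩)⟩
      · by_cases h2 : s(u, v) ∈ C'
        · exact ⟨j, hjm, by rw [Function.update_self]; exact hJ.chE u v (Or.inr ⟨h1, h2⟩)⟩
        · obtain ⟨i, hi, h3⟩ := h.chC u v (by tauto)
          exact ⟨i, Finset.mem_insert_of_mem hi, by rwa [Function.update_of_ne (hne i hi)]⟩
    · intro i hi
      rcases Finset.mem_insert.1 hi with rfl | hi
      · rw [Function.update_self]
        intro u hu hu'
        rcases vP u hu with h1 | ⟨i', hi', h1⟩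
        · exact hJ.disj u h1 hu'
        · have h2 := nearfar i' hi' u h1
          have h3 := hqm _ (mem_verts_shift.1 hu')
          have e : u - p i = (u - w' - q i) + (w' - (p i - q i)) := by abel
          have h4 : Box (m + 1000) (u - p i) := by rw [e]; exact h3.add hJ.wd
          exact h2.not_box (by omega) h4
      · rw [Function.update_of_ne (hne i hi)]; exact h.disj i hi

theorem Built.parts (h : Built G P K K0 p q S C F a w) {m B : ℕ}
    (hB : ∀ (a : P3) (E E' : Finset (Sym2 P3)), ChangedIn a 1000 E E' → E'.card ≤ E.card + B)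
    {D : ℤ} (hD : 10000000 + 10 * ((m : ℤ) + B) ≤ D)
    (hm : ∀ j ∈ S, (K0 j).card ≤ m)
    (hfar : ∀ i ∈ S, ∀ j ∈ S, i ≠ j → HFar D (p i) (p j)) :
    Parts C F a S 1000 (m + B + 1) := by
  refine ⟨by omega, h.cC.1, fun j hj => (h.cF j hj).1, h.below, h.eE, h.eF, h.sep,
    fun j hj v hv => h.near hB hm hj hv, ?_⟩
  intro i hi j hj hij
  have hap : ∀ i ∈ S, Box 1000 (a i - p i) := by
    intro i hi
    have e : a i - p i = -(p i - a i) := by abel
    rw [e]; exact (h.pa i hi).neg
  exact (hfar i hi j hj hij).move (r := 1000) (r' := 1000) (by omega) (hap i hi) (hap j hj)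

end build

end Pool.Agent.LK
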