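import Pool.Agent.MP_aea6d5_co.CDecode

/-! Counting connected sums: `n ^ (2N/3) * p_n(unknot)` is at most a constant times the number of
connected sums of `N` given knots. -/

set_option autoImplicit false

namespace Pool.Agent.LK

/-! ### Contacts over every column -/

theorem exists_con {P F : Finset (Sym2 P3)} {m : ℤ} (hF : (verts F).Nonempty)
    (hm : ∀ u ∈ verts F, ∀ v ∈ verts F, Box m (u - v)) {c : ℤ × ℤ} (hc : c ∈ cols P) :
    ∃ p q N, Con P F p q N ∧ |p.1 - c.1| ≤ 2000000 + m ∧ |p.2.1 - c.2| ≤ 2000000 + m := by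
  obtain ⟨z, hz⟩ := hc
  obtain ⟨v0, hv0⟩ := hF
  have hcD : ((c.1, c.2, z) : P3) - v0 ∈ diffs P F := mem_diffs.2 ⟨_, hz, v0, hv0, rfl⟩
  obtain ⟨d0, hd0, N, h1, h2, h3, h4, h5, h6⟩ :=
    exists_contact_column 2000000 (by norm_num) (diffs P F) _ hcD
  obtain ⟨p, hp, q, hq, rfl⟩ := mem_diffs.1 hd0
  obtain ⟨m1, m2, -⟩ := hm q hq v0 hv0
  have e : nsq N = N.1 * N.1 + N.2.1 * N.2.1 + N.2.2 * N.2.2 := rfl
  have s1 := mul_self_nonneg N.1
  have s2 := mul_self_nonneg N.2.1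
  have s3 := mul_self_nonneg N.2.2
  have b1 : |N.1| ≤ 2000000 := abs_le_of_sq_le_sq (by linarith) (by omega)
  have b2 : |N.2.1| ≤ 2000000 := abs_le_of_sq_le_sq (by linarith) (by omega)
  simp only [Prod.fst_add, Prod.snd_add, Prod.fst_sub, Prod.snd_sub] at h1 h2 m1 m2
  refine ⟨p, q, N, ⟨hp, hq, h3, h4, by omega, ?_⟩, ?_, ?_⟩
  · intro s hs t ht u hu v hv he
    exact h6 s hs t ht (mem_diffs.2 ⟨u, hu, v, hv, he.symm⟩)
  · simp only [abs_le] at *
    omega
  · simp only [abs_le] at *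
    omega

/-! ### Sparse sets of columns -/

theorem exists_sparse {M : ℕ} (hM : 0 < M) (s : Finset (ℤ × ℤ)) : ∃ Y ⊆ s,
    s.card ≤ M ^ 2 * (Y.card + 1) ∧ ∀ c ∈ Y, ∀ c' ∈ Y, c ≠ c' →
      (M : ℤ) ≤ |c.1 - c'.1| ∨ (M : ℤ) ≤ |c.2 - c'.2| := by
  classical
  have hM' : (0 : ℤ) < M := by exact_mod_cast hM
  set t : Finset (ℤ × ℤ) := Finset.Ico 0 (M : ℤ) ×ˢ Finset.Ico 0 (M : ℤ) with ht
  have tc : t.card = M ^ 2 := by
    rw [ht, Finset.card_product, Int.card_Ico, sub_zero, Int.toNat_natCast, sq]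
  have hmaps : ∀ c ∈ s, ((c.1 % (M : ℤ), c.2 % (M : ℤ)) : ℤ × ℤ) ∈ t := by
    intro c _
    rw [ht, Finset.mem_product, Finset.mem_Ico, Finset.mem_Ico]
    exact ⟨⟨Int.emod_nonneg _ hM'.ne', Int.emod_lt_of_pos _ hM'⟩,
      ⟨Int.emod_nonneg _ hM'.ne', Int.emod_lt_of_pos _ hM'⟩⟩
  have hne : t.Nonempty := by
    rw [← Finset.card_pos, tc]
    positivity
  obtain ⟨y, -, hy⟩ := Finset.exists_le_card_fiber_of_mul_le_card_of_maps_to
    (s := s) (t := t) (n := s.card / M ^ 2) hmaps hne (by rw [tc]; exact Nat.mul_div_le _ _)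
  refine ⟨s.filter (fun c => ((c.1 % (M : ℤ), c.2 % (M : ℤ)) : ℤ × ℤ) = y),
    Finset.filter_subset _ _, ?_, ?_⟩
  · have h1 : s.card < M ^ 2 * (s.card / M ^ 2 + 1) :=
      Nat.lt_mul_div_succ _ (by positivity)
    exact h1.le.trans (Nat.mul_le_mul_left _ (Nat.add_le_add_right hy 1))
  · intro c hc c' hc' hcc
    rw [Finset.mem_filter] at hc hc'
    have h1 := hc.2.trans hc'.2.symm
    rw [Prod.mk.injEq] at h1
    have key : ∀ x y : ℤ, x % (M : ℤ) = y % (M : ℤ) → x ≠ y → (M : ℤ) ≤ |x - y| := by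
      intro x y hxy hne
      refine Int.le_of_dvd (abs_pos.2 (sub_ne_zero.2 hne)) ((dvd_abs _ _).2 ?_)
      exact Int.dvd_of_emod_eq_zero (Int.emod_eq_emod_iff_emod_sub_eq_zero.1 hxy)
    by_cases h2 : c.1 = c'.1
    · right
      refine key _ _ h1.2 ?_
      intro h3
      exact hcc (Prod.ext h2 h3)
    · left
      exact key _ _ h1.1 h2

theorem card_inj (N : ℕ) (Y : Finset (ℤ × ℤ)) : (Y.card + 1 - N) ^ N ≤
    ((Fintype.piFinset (fun _ : Fin N => Y)).filter Function.Injective).card := by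
  classical
  refine (Nat.pow_sub_le_descFactorial _ _).trans ?_
  have h1 : Fintype.card (Fin N ↪ Y) = (Y.card).descFactorial N := by
    rw [Fintype.card_embedding_eq, Fintype.card_coe, Fintype.card_fin]
  rw [← h1, ← Finset.card_univ]
  refine Finset.card_le_card_of_injOn (fun e j => ((e j : Y) : ℤ × ℤ)) ?_ ?_
  · intro e _
    rw [Finset.mem_coe, Finset.mem_filter, Fintype.mem_piFinset]
    refine ⟨fun j => (e j).2, ?_⟩
    intro i j hij
    exact e.injective (Subtype.ext hij)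
  · intro e _ e' _ hee
    ext1 j
    exact Subtype.ext (congrFun hee j)

/-- The columns as a finite set. -/
noncomputable def colsF (E : Finset (Sym2 P3)) : Finset (ℤ × ℤ) :=
  (vF E).image (fun u => (u.1, u.2.1))

theorem mem_colsF {E : Finset (Sym2 P3)} {c : ℤ × ℤ} : c ∈ colsF E ↔ c ∈ cols E := by
  rw [colsF, Finset.mem_image, cols_eq]
  simp only [mem_vF, Set.mem_image]

theorem card_colsF (E : Finset (Sym2 P3)) : (colsF E).card = (cols E).ncard := by
  rw [← Set.ncard_coe_finset]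
  congr 1
  ext c
  rw [Finset.mem_coe, mem_colsF]

end Pool.Agent.LK
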