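import Pool.Agent.MP_aea6d5_co.Shell
import Pool.Agent.MP_aea6d5_co.Charts

/-! Non-cancellation: if a stacked join is unknotted then so are its parts. -/

set_option autoImplicit false
set_option linter.unusedSectionVars false

open Set Topology Filter

namespace Pool.Agent.LK

/-- The centre of the upper ball. -/
noncomputable def qq (T : ℝ) : R3 := (0, 0, T + 3 / 2)

lemma qq_add (T : ℝ) (u : R3) : qq T + u = (u.1, u.2.1, T + 3 / 2 + u.2.2) := by
  refine Prod.ext (zero_add _) (Prod.ext (zero_add _) rfl)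

lemma norm_sub_qq_le {T r : ℝ} {p : R3} (h1 : |p.1| ≤ r) (h2 : |p.2.1| ≤ r)
    (h3 : |p.2.2 - (T + 3 / 2)| ≤ r) : ‖p - qq T‖ ≤ r := by
  refine norm_le_of _ r ?_ ?_ h3
  · change |p.1 - 0| ≤ r
    rwa [sub_zero]
  · change |p.2.1 - 0| ≤ r
    rwa [sub_zero]

/-- The set with the tent is conical about `qq T`. -/
lemma cone_Te {A : Set R3} {T : ℝ} (hT : 0 ≤ T) (hA : ∀ u ∈ A, u.2.2 ≤ -(T + 1 / 2)) (v : R3)
    (hvn : ‖v‖ < T + 3 / 2) (c : ℝ) (hc : 0 < c) (hcn : ‖c • v‖ < T + 3 / 2)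
    (hvX : qq T + v ∈ A ∪ Te T) : qq T + c • v ∈ A ∪ Te T := by
  have hv3 : |v.2.2| < T + 3 / 2 := (abs_snd2_le v).trans_lt hvn
  have hc3 : |c * v.2.2| < T + 3 / 2 := (abs_snd2_le (c • v)).trans_lt hcn
  have hv3' := abs_lt.mp hv3
  have hc3' := abs_lt.mp hc3
  rw [qq_add] at hvX
  have e : qq T + c • v = (c * v.1, c * v.2.1, T + 3 / 2 + c * v.2.2) := qq_add T (c • v)
  rw [e]
  right
  rcases hvX with hvA | ⟨h1, h2, h3, h4⟩
  · exfalso
    have h5 : T + 3 / 2 + v.2.2 ≤ -(T + 1 / 2) := hA _ hvA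
    linarith
  · change v.2.1 = 0 at h1
    change -(T + 1 / 2) ≤ T + 3 / 2 + v.2.2 at h2
    change T + 3 / 2 + v.2.2 ≤ T + 3 / 2 at h3
    change |v.1| = (T + 3 / 2 - |T + 3 / 2 + v.2.2|) / 2 at h4
    rw [abs_of_pos (show 0 < T + 3 / 2 + v.2.2 by linarith)] at h4
    have hz : v.2.2 ≤ 0 := by linarith
    refine ⟨?_, ?_, ?_, ?_⟩
    · change c * v.2.1 = 0
      rw [h1, mul_zero]
    · change -(T + 1 / 2) ≤ T + 3 / 2 + c * v.2.2
      linarith
    · change T + 3 / 2 + c * v.2.2 ≤ T + 3 / 2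
      nlinarith
    · change |c * v.1| = (T + 3 / 2 - |T + 3 / 2 + c * v.2.2|) / 2
      rw [abs_mul, abs_of_pos hc, h4, abs_of_pos (show 0 < T + 3 / 2 + c * v.2.2 by linarith)]
      ring

/-- The join and the tent agree outside of the ball. -/
lemma agree_off {A B : Set R3} {T N : ℝ} (hT : 0 ≤ T)
    (hB : ∀ u ∈ B, |u.1| ≤ N ∧ |u.2.1| ≤ N ∧ T + 1 / 2 ≤ u.2.2 ∧ u.2.2 ≤ T + N) (hN : N ≤ T)
    (p : R3) (hp : T + 1 < ‖p - qq T‖) : p ∈ A ∪ B ∪ St T ↔ p ∈ A ∪ Te T := by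
  constructor
  · rintro ((h | h) | ⟨h1, h2, h3⟩)
    · exact Or.inl h
    · exfalso
      obtain ⟨h1, h2, h3, h4⟩ := hB p h
      have := norm_sub_qq_le (T := T) (r := T + 1) (p := p) (by linarith) (by linarith)
        (abs_le.mpr ⟨by linarith, by linarith⟩)
      linarith
    · right
      have h4 := abs_le.mp h2
      exact ⟨h1, by linarith, by linarith, h3⟩
  · rintro (h | ⟨h1, h2, h3, h4⟩)
    · exact Or.inl (Or.inl h)
    · by_cases h5 : p.2.2 ≤ T + 1 / 2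
      · right
        exact ⟨h1, abs_le.mpr ⟨by linarith, h5⟩, h4⟩
      · exfalso
        push Not at h5
        rw [abs_of_pos (show 0 < p.2.2 by linarith)] at h4
        have := norm_sub_qq_le (T := T) (r := T + 1) (p := p) (by rw [h4]; linarith)
          (by rw [h1, abs_zero]; linarith) (abs_le.mpr ⟨by linarith, by linarith⟩)
        linarith

lemma norm_Dn {u : R3} (hu : u ∈ Dn) : u.2.2 ≤ 0 ∧ ‖u‖ = -u.2.2 := by
  obtain ⟨h1, h2⟩ := hu
  have h3 : u.2.2 ≤ 0 := by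
    have := abs_nonneg u.1
    linarith
  refine ⟨h3, le_antisymm ?_ ?_⟩
  · refine norm_le_of _ _ (by rw [h2]; linarith) (by rw [h1, abs_zero]; linarith)
      (by rw [abs_of_nonpos h3])
  · have := abs_snd2_le u
    rwa [abs_of_nonpos h3] at this

/-- Near the upper ball the join is a pair of rays. -/
lemma shell_join {A B : Set R3} {T N : ℝ} (hN0 : 0 ≤ N) (hN : N < T)
    (hA : ∀ u ∈ A, u.2.2 ≤ -(T + 1 / 2))
    (hB : ∀ u ∈ B, |u.1| ≤ N ∧ |u.2.1| ≤ N ∧ T + 1 / 2 ≤ u.2.2 ∧ u.2.2 ≤ T + N) (u : R3)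
    (hu : T + 1 ≤ ‖u‖) (hu' : ‖u‖ < T + 3 / 2) : qq T + u ∈ A ∪ B ∪ St T ↔ u ∈ Dn := by
  have h3 := abs_lt.mp ((abs_snd2_le u).trans_lt hu')
  rw [qq_add]
  constructor
  · rintro ((h | h) | ⟨h1, h2, h4⟩)
    · exfalso
      have h5 : T + 3 / 2 + u.2.2 ≤ -(T + 1 / 2) := hA _ h
      linarith
    · exfalso
      obtain ⟨h5, h6, h7, h8⟩ := hB _ h
      change |u.1| ≤ N at h5
      change |u.2.1| ≤ N at h6
      change T + 1 / 2 ≤ T + 3 / 2 + u.2.2 at h7
      change T + 3 / 2 + u.2.2 ≤ T + N at h8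
      have h9 : ‖u‖ ≤ max N 1 := by
        refine norm_le_of _ _ (h5.trans (le_max_left _ _)) (h6.trans (le_max_left _ _)) ?_
        rw [abs_le]
        constructor
        · have := le_max_right N 1
          linarith
        · have := le_max_left N 1
          linarith
      have h10 : max N 1 < T + 1 := max_lt (by linarith) (by linarith)
      linarith
    · change u.2.1 = 0 at h1
      change |u.1| = (T + 3 / 2 - |T + 3 / 2 + u.2.2|) / 2 at h4
      refine ⟨h1, ?_⟩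
      rw [h4, abs_of_pos (by linarith)]
      ring
  · intro h
    obtain ⟨h4, h5⟩ := norm_Dn h
    obtain ⟨h1, h2⟩ := h
    right
    refine ⟨h1, ?_, ?_⟩
    · change |T + 3 / 2 + u.2.2| ≤ T + 1 / 2
      rw [abs_le]
      constructor <;> linarith
    · change |u.1| = (T + 3 / 2 - |T + 3 / 2 + u.2.2|) / 2
      rw [h2, abs_of_pos (by linarith)]
      ring

lemma nc_side {A B : Set R3} {T N : ℝ} (hN0 : 0 ≤ N) (hN : N < T)
    (hA : ∀ u ∈ A, u.2.2 ≤ -(T + 1 / 2))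
    (hB : ∀ u ∈ B, |u.1| ≤ N ∧ |u.2.1| ≤ N ∧ T + 1 / 2 ≤ u.2.2 ∧ u.2.2 ≤ T + N)
    (hU : Unk (A ∪ B ∪ St T)) : Unk (A ∪ Te T) := by
  have hT : 0 ≤ T := by linarith
  obtain ⟨w, hw, hwr⟩ := cell_compl (R := T + 1) (R' := T + 3 / 2) (by linarith) (by linarith)
    (shell_join hN0 hN hA hB) hU
  obtain ⟨w', hw', hwr'⟩ := radial_cell_rev (X := A ∪ Te T) (R := T + 1) (R' := T + 3 / 2)
    (by linarith) (by linarith) (fun v _ hv c hc hcv hvX => cone_Te hT hA v hv c hc hcv hvX)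
    (agree_off hT hB hN.le) hw hwr
  have hqT : qq T ∈ Te T := by
    refine ⟨rfl, ?_, ?_, ?_⟩
    · change -(T + 1 / 2) ≤ T + 3 / 2
      linarith
    · exact le_refl (T + 3 / 2)
    · change |(0 : ℝ)| = (T + 3 / 2 - |T + 3 / 2|) / 2
      rw [abs_zero, abs_of_nonneg (by linarith), sub_self, zero_div]
  exact unkOfCell _ (qq T) w' (Or.inr hqT) hw' hwr'

lemma refl3_image_image (X : Set R3) : refl3 '' (refl3 '' X) = X := by
  ext p
  rw [mem_refl3_image, mem_refl3_image, refl3_refl3]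

/-- The reflected join. -/
lemma refl3_join (A B : Set R3) (T : ℝ) :
    refl3 '' (A ∪ B ∪ St T) = refl3 '' B ∪ refl3 '' A ∪ St T := by
  rw [image_union, image_union, refl3_St, union_comm (refl3 '' A)]

/-- **Non-cancellation.** If a stacked join is unknotted then so are its parts. -/
theorem ncStatement : NCStatement := by
  intro E F x y h hE hF hB he hf hU
  obtain ⟨A, B, T, N, hN0, hN, hA, hB', hJ, -, hFB⟩ := exists_chart hE hF hB he hf
  have h1 : Unk (A ∪ B ∪ St T) := hJ.unk.mp hU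
  have h2 : Unk (refl3 '' B ∪ refl3 '' A ∪ St T) := by
    rw [← refl3_join, unk_homeo_iff]
    exact h1
  apply hFB.unk.mpr
  refine nc_side hN0 hN ?_ ?_ h2
  · intro u hu
    rw [mem_refl3_image] at hu
    have h3 : T + 1 / 2 ≤ -u.2.2 := (hB' _ hu).2.2.1
    linarith
  · intro u hu
    rw [mem_refl3_image] at hu
    obtain ⟨h3, h4, h5, h6⟩ := hA _ hu
    change T + 1 / 2 ≤ - -u.2.2 at h5
    change - -u.2.2 ≤ T + N at h6
    rw [neg_neg] at h5 h6
    exact ⟨h3, h4, h5, h6⟩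

end Pool.Agent.LK
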