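import Pool.Agent.MP_aea6d5_co.CSum
import Pool.Agent.MP_aea6d5_co.NonCancel

/-! Connected sums of `N` nontrivial knots: the exponent is at least `2 N / 3` larger. -/

set_option autoImplicit false

open Filter Topology

namespace Pool.Agent.LK

theorem count_mono_even {C : Finset (Sym2 P3) → Prop} (hC : MoveClosed C) {a b : ℕ} (hab : a ≤ b)
    (hb : Even b) : count C a ≤ count C b := by
  by_cases ha : Even a
  · obtain ⟨k, rfl⟩ := ha
    obtain ⟨l, rfl⟩ := hb
    have h := count_mono' hC (k + k) (l - k)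
    have e : k + k + 2 * (l - k) = l + l := by omega
    rwa [e] at h
  · rw [count_odd hC.poly ha]
    exact Nat.zero_le _

/-- The clean form of the multiple attachment inequality. -/
theorem cattach {G : Subgroup (R3 ≃ₜ R3)} (hG : BigGroup G) (hNC : NCStatement)
    (l : List (Finset (Sym2 P3))) (hl : ∀ K ∈ l, IsPolygon K ∧ ¬ Unknotted K) :
    ∃ ε : ℝ, 0 < ε ∧ ∃ c : ℕ, Even c ∧ ∀ n : ℕ, ε * (n : ℝ) ^ (2 * (l.length : ℝ) / 3) *
      (count UClass n : ℝ) ≤ (count (IsSum G l) (n + c) : ℝ) := by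
  classical
  have hU : ClosedZ UClass := unknotClosedZ
  obtain ⟨A, L, B, κ, hA, h⟩ := cpair hG hNC l hl
  set N := l.length with hN
  have hmv := IsSum.move hG l
  have hpow : ∀ n : ℕ, (n : ℝ) ^ (2 * (N : ℝ) / 3) = ((n : ℝ) ^ (2 / 3 : ℝ)) ^ N := by
    intro n
    rw [← Real.rpow_natCast, ← Real.rpow_mul (Nat.cast_nonneg n)]
    congr 1
    ring
  -- large lengths
  have hlim : Tendsto (fun n : ℕ => (n : ℝ) ^ (2 / 3 : ℝ)) atTop atTop :=
    (tendsto_rpow_atTop (by norm_num)).comp tendsto_natCast_atTop_atTop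
  obtain ⟨n0, hn0⟩ := eventually_atTop.1 (hlim.eventually_ge_atTop (A * N))
  -- existence of a connected sum
  obtain ⟨n1, hn1⟩ : ∃ n1, 0 < count (IsSum G l) n1 := by
    set n2 := 4 + 2 * n0 with hn2
    have h1 := h n2 (hn0 n2 (by omega))
    have h2 : 1 ≤ count UClass n2 := count_pos hU n0
    by_contra hcon
    push Not at hcon
    have h3 : ∑ i ∈ Finset.range (2 * B + 1), (count (IsSum G l) (n2 + κ + i - B) : ℝ) = 0 := by
      apply Finset.sum_eq_zero
      intro i _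
      have := hcon (n2 + κ + i - B)
      have : count (IsSum G l) (n2 + κ + i - B) = 0 := by omega
      rw [this, Nat.cast_zero]
    rw [h3, mul_zero] at h1
    have h4 : (0 : ℝ) < ((n2 : ℝ) ^ (2 / 3 : ℝ) / A) ^ N * (count UClass n2 : ℝ) := by
      have h5 : (0 : ℝ) < n2 := by
        have : 0 < n2 := by omega
        exact_mod_cast this
      have h6 : (0 : ℝ) < (count UClass n2 : ℝ) := by exact_mod_cast h2
      positivity
    linarith
  set c : ℕ := 2 * (n1 + κ + B) with hc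
  have hce : Even c := ⟨n1 + κ + B, by rw [hc]; ring⟩
  -- small lengths
  set T : ℝ := ∑ n ∈ Finset.range n0, (n : ℝ) ^ (2 * (N : ℝ) / 3) * (count UClass n : ℝ) with hT
  have hT0 : 0 ≤ T := Finset.sum_nonneg fun n _ => by positivity
  have hAN : 0 < A ^ N := by positivity
  set Q : ℝ := A ^ N * (L * (2 * B + 1)) with hQ
  have hQ0 : 0 ≤ Q := by positivity
  refine ⟨1 / (T + Q + 1), by positivity, c, hce, fun n => ?_⟩
  rw [mul_assoc, div_mul_eq_mul_div, one_mul, div_le_iff₀ (by positivity)]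
  have hcount0 : (0 : ℝ) ≤ (count (IsSum G l) (n + c) : ℝ) := Nat.cast_nonneg _
  by_cases hn : Even n
  swap
  · rw [count_odd hU.poly hn, Nat.cast_zero, mul_zero]
    positivity
  have hnc : Even (n + c) := hn.add hce
  by_cases hlt : n < n0
  · have h1 : (n : ℝ) ^ (2 * (N : ℝ) / 3) * (count UClass n : ℝ) ≤ T :=
      Finset.single_le_sum (f := fun n : ℕ => (n : ℝ) ^ (2 * (N : ℝ) / 3) *
        (count UClass n : ℝ)) (fun _ _ => by positivity) (Finset.mem_range.2 hlt)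
    have h2 : (1 : ℝ) ≤ (count (IsSum G l) (n + c) : ℝ) := by
      have h3 := count_mono_even hmv (a := n1) (b := n + c) (by omega) hnc
      have h4 : 1 ≤ count (IsSum G l) (n + c) := by omega
      exact_mod_cast h4
    nlinarith
  · push Not at hlt
    have h1 := h n (hn0 n hlt)
    have h2 : ∑ i ∈ Finset.range (2 * B + 1), (count (IsSum G l) (n + κ + i - B) : ℝ) ≤
        (2 * B + 1) * (count (IsSum G l) (n + c) : ℝ) := by
      have h3 : ∀ i ∈ Finset.range (2 * B + 1), (count (IsSum G l) (n + κ + i - B) : ℝ) ≤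
          (count (IsSum G l) (n + c) : ℝ) := by
        intro i hi
        rw [Finset.mem_range] at hi
        exact_mod_cast count_mono_even hmv (a := n + κ + i - B) (b := n + c) (by omega) hnc
      refine (Finset.sum_le_sum h3).trans ?_
      rw [Finset.sum_const, Finset.card_range, nsmul_eq_mul]
      push_cast
      exact le_rfl
    rw [hpow, show ((n : ℝ) ^ (2 / 3 : ℝ)) ^ N = A ^ N * (((n : ℝ) ^ (2 / 3 : ℝ)) / A) ^ N by
      rw [div_pow]; field_simp]
    calc A ^ N * (((n : ℝ) ^ (2 / 3 : ℝ)) / A) ^ N * (count UClass n : ℝ)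
        = A ^ N * ((((n : ℝ) ^ (2 / 3 : ℝ)) / A) ^ N * (count UClass n : ℝ)) := by ring
      _ ≤ A ^ N * (L * ((2 * B + 1) * (count (IsSum G l) (n + c) : ℝ))) :=
          mul_le_mul_of_nonneg_left (h1.trans (mul_le_mul_of_nonneg_left h2 (Nat.cast_nonneg _)))
            hAN.le
      _ = Q * (count (IsSum G l) (n + c) : ℝ) := by rw [hQ]; ring
      _ ≤ (count (IsSum G l) (n + c) : ℝ) * (T + Q + 1) := by nlinarith

/-- Infinitely often without a shift. -/
theorem infinitely_often' {a b : ℕ → ℕ} {ε D s : ℝ} {c : ℕ} (hc : Even c) (hε : 0 < ε)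
    (hs : 0 ≤ s) (hD : 1 ≤ D) (ha : ∀ n, (a n : ℝ) ≤ D ^ n) (ha0 : ∀ k, 1 ≤ a (4 + 2 * k))
    (h : ∀ n : ℕ, ε * (n : ℝ) ^ s * (a n : ℝ) ≤ (b (n + c) : ℝ)) :
    ∃ δ : ℝ, 0 < δ ∧ ∃ᶠ n : ℕ in atTop, 0 < a n ∧
      δ * (n : ℝ) ^ s * (a n : ℝ) ≤ (b n : ℝ) := by
  have hD0 : 0 < D := by linarith
  have h2s : (0 : ℝ) < 2 ^ s := Real.rpow_pos_of_pos two_pos s
  refine ⟨ε / (2 * 2 ^ s * D ^ c), by positivity, ?_⟩
  rw [frequently_atTop]
  intro N
  by_contra hcon
  push Not at hcon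
  obtain ⟨l, hl⟩ := hc
  set N' : ℕ := 4 + 2 * (N + c) with hN'
  have hpos : ∀ k, 1 ≤ a (N' + k * c) := by
    intro k
    have e : N' + k * c = 4 + 2 * (N + c + k * l) := by
      rw [hN', hl]; ring
    rw [e]; exact ha0 _
  have step : ∀ k, 2 * D ^ c * (a (N' + k * c) : ℝ) ≤ (a (N' + (k + 1) * c) : ℝ) := by
    intro k
    set n := N' + k * c with hn
    have e : N' + (k + 1) * c = n + c := by rw [hn]; ring
    rw [e]
    have h1 := h n
    have hpos' := hpos (k + 1)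
    rw [e] at hpos'
    have h2 := hcon (n + c) (by omega) (by omega)
    have hn0 : (0 : ℝ) < n := by
      have : 0 < n := by omega
      exact_mod_cast this
    have h3 : ((n + c : ℕ) : ℝ) ^ s ≤ 2 ^ s * (n : ℝ) ^ s := by
      have h4 : ((n + c : ℕ) : ℝ) ≤ 2 * (n : ℝ) := by
        have : n + c ≤ 2 * n := by omega
        exact_mod_cast this
      calc ((n + c : ℕ) : ℝ) ^ s ≤ (2 * (n : ℝ)) ^ s :=
            Real.rpow_le_rpow (Nat.cast_nonneg _) h4 hs
        _ = 2 ^ s * (n : ℝ) ^ s := Real.mul_rpow (by norm_num) hn0.le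
    have hx : 0 < (n : ℝ) ^ s := Real.rpow_pos_of_pos hn0 _
    have h5 : ε * (n : ℝ) ^ s * (a n : ℝ) ≤
        ε / (2 * 2 ^ s * D ^ c) * (2 ^ s * (n : ℝ) ^ s) * (a (n + c) : ℝ) := by
      refine h1.trans (h2.le.trans ?_)
      refine mul_le_mul_of_nonneg_right ?_ (Nat.cast_nonneg _)
      exact mul_le_mul_of_nonneg_left h3 (by positivity)
    have hDc : 0 < D ^ c := by positivity
    have h6 : ε / (2 * 2 ^ s * D ^ c) * (2 ^ s * (n : ℝ) ^ s) * (a (n + c) : ℝ) =
        (ε * (n : ℝ) ^ s) * ((a (n + c) : ℝ) / (2 * D ^ c)) := by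
      field_simp
    rw [h6] at h5
    have h7 := le_of_mul_le_mul_left h5 (by positivity)
    rw [le_div_iff₀ (by positivity)] at h7
    linarith
  have grow : ∀ k, (2 * D ^ c) ^ k ≤ (a (N' + k * c) : ℝ) := by
    intro k
    induction k with
    | zero =>
      rw [pow_zero]
      exact_mod_cast hpos 0
    | succ k ih =>
      refine le_trans ?_ (step k)
      rw [pow_succ, mul_comm]
      exact mul_le_mul_of_nonneg_left ih (by positivity)
  have bd : ∀ k : ℕ, (2 : ℝ) ^ k ≤ D ^ N' := by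
    intro k
    have h1 := (grow k).trans (ha _)
    rw [mul_pow, pow_add, mul_comm k c, pow_mul] at h1
    exact le_of_mul_le_mul_right h1 (by positivity)
  obtain ⟨k, hk⟩ := pow_unbounded_of_one_lt (D ^ N') (by norm_num : (1 : ℝ) < 2)
  exact absurd (bd k) (not_le.2 hk)

/-- **Connected sums.** -/
theorem composite_of (hNC : NCStatement) (G : Subgroup (R3 ≃ₜ R3)) (hG : BigGroup G)
    (l : List (Finset (Sym2 P3))) (hl : ∀ K ∈ l, IsPolygon K ∧ ¬ Unknotted K) :
    (∃ ε : ℝ, 0 < ε ∧ ∃ c : ℕ, Even c ∧ ∀ n : ℕ, ε * (n : ℝ) ^ (2 * (l.length : ℝ) / 3) *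
      (count UClass n : ℝ) ≤ (count (IsSum G l) (n + c) : ℝ)) ∧
    (∃ δ : ℝ, 0 < δ ∧ ∃ᶠ n : ℕ in atTop, 0 < count UClass n ∧
      δ * (n : ℝ) ^ (2 * (l.length : ℝ) / 3) * (count UClass n : ℝ) ≤
        (count (IsSum G l) n : ℝ)) ∧
    (∀ A B α β : ℝ, 0 < A → growth (IsSum G l) = growth UClass →
      Tendsto (fun k : ℕ => (count UClass (2 * k) : ℝ) /
        (((2 * k : ℕ) : ℝ) ^ (α - 3) * growth UClass ^ (2 * k))) atTop (𝓝 A) →
      Tendsto (fun k : ℕ => (count (IsSum G l) (2 * k) : ℝ) /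
        (((2 * k : ℕ) : ℝ) ^ (β - 3) * growth (IsSum G l) ^ (2 * k))) atTop (𝓝 B) →
      α + 2 * (l.length : ℝ) / 3 ≤ β) := by
  obtain ⟨ε, hε, c, hc, h⟩ := cattach hG hNC l hl
  refine ⟨⟨ε, hε, c, hc, h⟩, ?_, ?_⟩
  · obtain ⟨D, hD, hD'⟩ := count_le unknotClosedZ
    exact infinitely_often' hc hε (by positivity) hD hD' (count_pos unknotClosedZ) h
  · intro A B α β hA hgr h1 h2
    rw [hgr] at h2
    have := one_le_growth unknotClosedZ
    exact exponent_gap hc hε (lt_of_lt_of_le one_pos this) hA h h1 h2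

end Pool.Agent.LK
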