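import Pool.Agent.MP_aea6d5_co.CAsm

/-! Several small polygons glued to one polygon at far places. -/

set_option autoImplicit false

namespace Pool.Agent.LK

open Relation

/-! ### Splitting off a cut, once more -/

theorem split_cut {R E F E2 F2 : Finset (Sym2 P3)} {a b : P3} {r : ℤ} (h : IsCut R E F a r)
    (h2 : IsCut R E2 F2 b r) (hbE : ∀ u, Sq b u → u ∈ verts E) (haE2 : ∀ u, Sq a u → u ∈ verts E2)
    (hab : a ≠ b) (hab2 : a ≠ b + (0, 0, 1)) : ∃ E3, IsCut E E3 F2 b r := by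
  obtain ⟨E3, p3, b3, e3, hEq⟩ := split_off h h2 hbE haE2 hab hab2
  refine ⟨E3, p3, h2.pF, b3, e3, h2.eF, hEq, ?_⟩
  intro u hu v hv huv
  refine h2.sep u ?_ v hv huv
  obtain ⟨w, hw⟩ := hu
  by_cases h1 : s(u, w) = s(b, b + (1, 0, 0))
  · rw [Sym2.eq_iff] at h1
    rcases h1 with ⟨rfl, -⟩ | ⟨rfl, -⟩
    · exact h2.v0
    · exact h2.v1
  · have h3 : s(u, w) ∈ E := by
      rw [hEq, mem_joinZ']
      exact Or.inl ⟨hw, h1⟩
    by_cases h4 : s(u, w) = s(a, a + (1, 0, 0))
    · rw [Sym2.eq_iff] at h4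
      rcases h4 with ⟨rfl, -⟩ | ⟨rfl, -⟩
      · exact haE2 _ (Sq.zero _)
      · exact haE2 _ (Sq.one _)
    · have h5 : s(u, w) ∈ R := h.partE.sub _ _ h3 h4
      rcases h2.verts_R (left_mem_verts h5) with h6 | h6
      · exact h6
      · exact (b3.disj (left_mem_verts hw) h6).elim

/-- A cut with a small upper part that is far from the cut `R = E # F` with small `F` is a cut of
`E`. -/
theorem descend {R E F E2 F2 : Finset (Sym2 P3)} {a b : P3} {r : ℤ}
    (hr : 0 ≤ r) (h : IsCut R E F a r) (h2 : IsCut R E2 F2 b r) {k : ℕ} (hk : F.card ≤ k)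
    (hk2 : F2.card ≤ k) (hfar : ¬ Box (r + k + 2) (a - b)) : ∃ E3, IsCut E E3 F2 b r := by
  have symm : ∀ {c : ℤ}, Box c (b - a) → Box c (a - b) := by
    intro c hB
    have : a - b = -(b - a) := by abel
    rw [this]; exact hB.neg
  have far1 : ¬ Box (r + 1) (a - b) := fun hB => hfar (hB.mono (by omega))
  have far2 : ¬ Box (r + 1) (b - a) := fun hB => far1 (symm hB)
  have hbE : ∀ u, Sq b u → u ∈ verts E := by
    rcases h.dich (fun u hu => h2.sq_mem hu) far1 with h3 | h3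
    · exact h3
    · exfalso
      apply hfar
      have h4 := diam_le h.pF h.v2 (h3 b (Sq.zero b))
      have e : a - b = (a + (0, 0, 1) - b) - (0, 0, 1) := by abel
      rw [e]
      have u3 : Box 1 ((0, 0, 1) : P3) := by simp [Box]
      exact (h4.sub u3).mono (by omega)
  have haE2 : ∀ u, Sq a u → u ∈ verts E2 := by
    rcases h2.dich (fun u hu => h.sq_mem hu) far2 with h3 | h3
    · exact h3
    · exfalso
      apply hfar
      apply symm
      have h4 := diam_le h2.pF h2.v2 (h3 a (Sq.zero a))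
      have e : b - a = (b + (0, 0, 1) - a) - (0, 0, 1) := by abel
      rw [e]
      have u3 : Box 1 ((0, 0, 1) : P3) := by simp [Box]
      exact (h4.sub u3).mono (by omega)
  refine split_cut h h2 hbE haE2 ?_ ?_
  · rintro rfl
    apply far1
    simp [Box]; omega
  · rintro rfl
    apply far1
    simp [Box]; omega

/-! ### Horizontally far points -/

/-- The horizontal distance of `u` and `v` is larger than `D`. -/
def HFar (D : ℤ) (u v : P3) : Prop := D < |u.1 - v.1| ∨ D < |u.2.1 - v.2.1|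

theorem HFar.move {D D' r r' : ℤ} {u v u' v' : P3} (h : HFar D u v) (hD : r + r' + D' ≤ D)
    (hu : Box r (u' - u)) (hv : Box r' (v' - v)) : HFar D' u' v' := by
  obtain ⟨u1, u2, u3⟩ := u
  obtain ⟨v1, v2, v3⟩ := v
  obtain ⟨x1, x2, x3⟩ := u'
  obtain ⟨y1, y2, y3⟩ := v'
  simp only [HFar, Box, Prod.fst_sub, Prod.snd_sub, abs_le, lt_abs] at *
  omega

theorem HFar.not_box {D r : ℤ} {u v : P3} (h : HFar D u v) (hD : r ≤ D) : ¬ Box r (u - v) := by
  intro h1
  obtain ⟨u1, u2, u3⟩ := u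
  obtain ⟨v1, v2, v3⟩ := v
  simp only [HFar, Box, Prod.fst_sub, Prod.snd_sub, abs_le, lt_abs] at *
  omega

theorem HFar.symm {D : ℤ} {u v : P3} (h : HFar D u v) : HFar D v u := by
  obtain ⟨u1, u2, u3⟩ := u
  obtain ⟨v1, v2, v3⟩ := v
  simp only [HFar, lt_abs] at *
  omega

theorem HFar.col {D : ℤ} (hD : 0 ≤ D) {u v : P3} (h : HFar D u v) :
    ¬ (u.1 = v.1 ∧ u.2.1 = v.2.1) := by
  obtain ⟨u1, u2, u3⟩ := u
  obtain ⟨v1, v2, v3⟩ := v
  simp only [HFar, lt_abs] at *
  omega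

theorem box_zero (u : P3) : Box 0 (u - u) := by simp [Box]

/-! ### Glueing -/

section glue

variable {ι : Type} [DecidableEq ι]

/-- The polygons `F j`, `j ∈ S`, glued to `C` at the places `a j`. -/
def glue (C : Finset (Sym2 P3)) (F : ι → Finset (Sym2 P3)) (a : ι → P3) (S : Finset ι) :
    Finset (Sym2 P3) :=
  (C \ S.image (fun j => s(a j, a j + (1, 0, 0)))) ∪
    S.biUnion (fun j => (F j \ {s(a j + (0, 0, 1), a j + (1, 0, 0) + (0, 0, 1))}) ∪
      {s(a j, a j + (0, 0, 1)), s(a j + (1, 0, 0), a j + (1, 0, 0) + (0, 0, 1))})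

variable {C : Finset (Sym2 P3)} {F : ι → Finset (Sym2 P3)} {a : ι → P3} {S : Finset ι} {r k : ℤ}

theorem mem_glue {f : Sym2 P3} : f ∈ glue C F a S ↔
    (f ∈ C ∧ ∀ j ∈ S, f ≠ s(a j, a j + (1, 0, 0))) ∨ ∃ j ∈ S,
      (f ∈ F j ∧ f ≠ s(a j + (0, 0, 1), a j + (1, 0, 0) + (0, 0, 1))) ∨
      f = s(a j, a j + (0, 0, 1)) ∨ f = s(a j + (1, 0, 0), a j + (1, 0, 0) + (0, 0, 1)) := by
  simp only [glue, Finset.mem_union, Finset.mem_sdiff, Finset.mem_image, Finset.mem_biUnion,
    Finset.mem_singleton, Finset.mem_insert, not_exists, not_and]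
  constructor
  · rintro (⟨h1, h2⟩ | h1)
    · exact Or.inl ⟨h1, fun j hj he => h2 j hj he.symm⟩
    · exact Or.inr h1
  · rintro (⟨h1, h2⟩ | h1)
    · exact Or.inl ⟨h1, fun j hj he => h2 j hj he.symm⟩
    · exact Or.inr h1

theorem glue_empty : glue C F a ∅ = C := by
  ext f
  rw [mem_glue]
  simp

/-- The data of a glueing. -/
structure Parts (C : Finset (Sym2 P3)) (F : ι → Finset (Sym2 P3)) (a : ι → P3) (S : Finset ι)
    (r k : ℤ) : Prop where
  hk : 1 ≤ k
  pC : IsPolygon C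
  pF : ∀ j ∈ S, IsPolygon (F j)
  below : ∀ j ∈ S, Below C (F j)
  eE : ∀ j ∈ S, s(a j, a j + (1, 0, 0)) ∈ C
  eF : ∀ j ∈ S, s(a j + (0, 0, 1), a j + (0, 0, 1) + (1, 0, 0)) ∈ F j
  sep : ∀ j ∈ S, ∀ u ∈ verts C, ∀ v ∈ verts (F j), Box 1 (u - v) →
    Box r (u - a j) ∧ Box r (v - a j)
  near : ∀ j ∈ S, ∀ v ∈ verts (F j), Box k (v - a j)
  far : ∀ i ∈ S, ∀ j ∈ S, i ≠ j → HFar (2 * k + 2) (a i) (a j)

theorem Parts.mono (h : Parts C F a S r k) {T : Finset ι} (hT : T ⊆ S) : Parts C F a T r k :=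
  ⟨h.hk, h.pC, fun j hj => h.pF j (hT hj), fun j hj => h.below j (hT hj),
    fun j hj => h.eE j (hT hj), fun j hj => h.eF j (hT hj), fun j hj => h.sep j (hT hj),
    fun j hj => h.near j (hT hj), fun i hi j hj => h.far i (hT hi) j (hT hj)⟩

theorem verts_glue (h : Parts C F a S r k) {u : P3} (hu : u ∈ verts (glue C F a S)) :
    u ∈ verts C ∨ ∃ j ∈ S, u ∈ verts (F j) := by
  obtain ⟨v, hv⟩ := hu
  rw [mem_glue] at hv
  rcases hv with ⟨h1, -⟩ | ⟨j, hj, ⟨h1, -⟩ | h1 | h1⟩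
  · exact Or.inl (left_mem_verts h1)
  · exact Or.inr ⟨j, hj, left_mem_verts h1⟩
  · rw [Sym2.eq_iff] at h1
    rcases h1 with ⟨rfl, -⟩ | ⟨rfl, -⟩
    · exact Or.inl (left_mem_verts (h.eE j hj))
    · exact Or.inr ⟨j, hj, left_mem_verts (h.eF j hj)⟩
  · rw [Sym2.eq_iff] at h1
    rcases h1 with ⟨rfl, -⟩ | ⟨rfl, -⟩
    · exact Or.inl (right_mem_verts (h.eE j hj))
    · refine Or.inr ⟨j, hj, ?_⟩
      rw [add_right_comm]
      exact right_mem_verts (h.eF j hj)

/-- The endpoints of the edges of a part are near its place. -/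
theorem Parts.part_near (h : Parts C F a S r k) {j : ι} (hj : j ∈ S) {u v : P3}
    (huv : (s(u, v) ∈ F j ∧ s(u, v) ≠ s(a j + (0, 0, 1), a j + (1, 0, 0) + (0, 0, 1))) ∨
      s(u, v) = s(a j, a j + (0, 0, 1)) ∨
      s(u, v) = s(a j + (1, 0, 0), a j + (1, 0, 0) + (0, 0, 1))) : Box k (u - a j) := by
  have hk := h.hk
  rcases huv with ⟨h1, -⟩ | h1 | h1
  · exact h.near j hj u (left_mem_verts h1)
  · rw [Sym2.eq_iff] at h1
    rcases h1 with ⟨rfl, -⟩ | ⟨rfl, -⟩
    · exact (box_zero _).mono (by omega)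
    · exact ((Sq.two _).box).mono hk
  · rw [Sym2.eq_iff] at h1
    rcases h1 with ⟨rfl, -⟩ | ⟨rfl, -⟩
    · exact ((Sq.one _).box).mono hk
    · exact ((Sq.three _).box).mono hk

theorem Parts.ne_eb (h : Parts C F a S r k) {i j : ι} (hi : i ∈ S) (hj : j ∈ S) (hij : i ≠ j)
    {f : Sym2 P3} (hf : (f ∈ F i ∧ f ≠ s(a i + (0, 0, 1), a i + (1, 0, 0) + (0, 0, 1))) ∨
      f = s(a i, a i + (0, 0, 1)) ∨ f = s(a i + (1, 0, 0), a i + (1, 0, 0) + (0, 0, 1))) :
    f ≠ s(a j, a j + (1, 0, 0)) := by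
  rintro rfl
  have h1 := h.part_near hi hf
  have hk := h.hk
  have h2 := h.far i hi j hj hij
  refine (h2.symm).not_box (r := k) (by omega) h1

theorem glue_insert {j : ι} (h : Parts C F a (insert j S) r k) (hj : j ∉ S) :
    glue C F a (insert j S) = joinZ (glue C F a S) (F j) (a j).1 (a j).2.1 (a j).2.2 := by
  ext f
  rw [mem_glue, mem_joinZ', mem_glue]
  simp only [Finset.mem_insert, forall_eq_or_imp, exists_eq_or_imp]
  constructor
  · rintro (⟨h1, h2, h3⟩ | h1 | ⟨i, hi, h1⟩)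
    · exact Or.inl ⟨Or.inl ⟨h1, h3⟩, h2⟩
    · exact Or.inr h1
    · refine Or.inl ⟨Or.inr ⟨i, hi, h1⟩, ?_⟩
      exact h.ne_eb (Finset.mem_insert_of_mem hi) (Finset.mem_insert_self j S)
        (fun e => hj (e ▸ hi)) h1
  · rintro (⟨⟨h1, h3⟩ | h1, h2⟩ | h1)
    · exact Or.inl ⟨h1, h2, h3⟩
    · exact Or.inr (Or.inr h1)
    · exact Or.inr (Or.inl h1)

theorem isCut_glue {j : ι} (h : Parts C F a (insert j S) r k) (hj : j ∉ S)
    (hP : IsPolygon (glue C F a S)) :
    IsCut (glue C F a (insert j S)) (glue C F a S) (F j) (a j) r := by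
  have hS : Parts C F a S r k := h.mono (Finset.subset_insert j S)
  have hjm := Finset.mem_insert_self j S
  have hk := h.hk
  have far : ∀ i ∈ S, ∀ u ∈ verts (F i), ∀ v ∈ verts (F j), HFar 1 u v := by
    intro i hi u hu v hv
    have h1 := h.far i (Finset.mem_insert_of_mem hi) j hjm (fun e => hj (e ▸ hi))
    exact h1.move (by omega) (hS.near i hi u hu) (h.near j hjm v hv)
  refine ⟨hP, h.pF j hjm, ?_, ?_, h.eF j hjm, glue_insert h hj, ?_⟩
  · intro u hu v hv h1 h2
    rcases verts_glue hS hu with h3 | ⟨i, hi, h3⟩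
    · exact h.below j hjm u h3 v hv h1 h2
    · exact ((far i hi u h3 v hv).col (by norm_num) ⟨h1, h2⟩).elim
  · rw [mem_glue]
    refine Or.inl ⟨h.eE j hjm, ?_⟩
    intro i hi he
    have h1 := h.far i (Finset.mem_insert_of_mem hi) j hjm (fun e => hj (e ▸ hi))
    have h2 : Box 1 (a i - a j) := by
      rw [Sym2.eq_iff] at he
      rcases he with ⟨h3, -⟩ | ⟨-, h3⟩
      · rw [h3]; exact (box_zero _).mono (by norm_num)
      · rw [← h3]; exact (Sq.one _).box
    exact h1.not_box (by omega) h2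
  · intro u hu v hv huv
    rcases verts_glue hS hu with h3 | ⟨i, hi, h3⟩
    · exact h.sep j hjm u h3 v hv huv
    · exact ((far i hi u h3 v hv).not_box le_rfl huv).elim

theorem isPolygon_glue (h : Parts C F a S r k) : IsPolygon (glue C F a S) := by
  induction S using Finset.induction_on with
  | empty => rw [glue_empty]; exact h.pC
  | insert j S hj ih =>
    have hP := ih (h.mono (Finset.subset_insert j S))
    have hc := isCut_glue h hj hP
    rw [hc.R_eq]
    refine polyJoinZStatement _ _ _ _ _ hP hc.pF hc.below ?_ ?_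
    · have e1 : ((a j).1 + 1, (a j).2.1, (a j).2.2) = a j + (1, 0, 0) := by
        refine Prod.ext ?_ (Prod.ext ?_ ?_) <;> simp
      rw [e1]; exact hc.eE
    · have e2 : ((a j).1, (a j).2.1, (a j).2.2 + 1) = a j + (0, 0, 1) := by
        refine Prod.ext ?_ (Prod.ext ?_ ?_) <;> simp
      have e3 : ((a j).1 + 1, (a j).2.1, (a j).2.2 + 1) = a j + (0, 0, 1) + (1, 0, 0) := by
        refine Prod.ext ?_ (Prod.ext ?_ ?_) <;> simp
      rw [e2, e3]; exact hc.eF

theorem isCut_erase (h : Parts C F a S r k) {j : ι} (hj : j ∈ S) :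
    IsCut (glue C F a S) (glue C F a (S.erase j)) (F j) (a j) r := by
  have h1 : insert j (S.erase j) = S := Finset.insert_erase hj
  have h2 : Parts C F a (insert j (S.erase j)) r k := by rw [h1]; exact h
  have h3 := isCut_glue h2 (Finset.notMem_erase j S) (isPolygon_glue (h.mono (Finset.erase_subset j S)))
  rwa [h1] at h3

/-- Every cut with a small knotted upper part is near one of the places. -/
theorem cut_near (hNC : NCStatement) (hr : 0 ≤ r) (h : Parts C F a S r k) (hC : Unknotted C)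
    {m : ℕ} (hm : ∀ j ∈ S, (F j).card ≤ m) {E2 F2 : Finset (Sym2 P3)} {b : P3}
    (h2 : IsCut (glue C F a S) E2 F2 b r) (hm2 : F2.card ≤ m) (hF2 : ¬ Unknotted F2) :
    ∃ j ∈ S, Box (r + m + 2) (a j - b) := by
  induction S using Finset.induction_on generalizing E2 with
  | empty =>
    exfalso
    rw [glue_empty] at h2
    apply hF2
    have e1 : (b.1 + 1, b.2.1, b.2.2) = b + (1, 0, 0) := by
      refine Prod.ext ?_ (Prod.ext ?_ ?_) <;> simp
    have e2 : (b.1, b.2.1, b.2.2 + 1) = b + (0, 0, 1) := by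
      refine Prod.ext ?_ (Prod.ext ?_ ?_) <;> simp
    have e3' : (b.1 + 1, b.2.1, b.2.2 + 1) = b + (0, 0, 1) + (1, 0, 0) := by
      refine Prod.ext ?_ (Prod.ext ?_ ?_) <;> simp
    have e0 : (b.1, b.2.1, b.2.2) = b := rfl
    refine hNC E2 F2 b.1 b.2.1 b.2.2 h2.pE h2.pF h2.below ?_ ?_ ?_
    · rw [e1, e0]; exact h2.eE
    · rw [e2, e3']; exact h2.eF
    · rw [← h2.R_eq]; exact hC
  | insert j S hj ih =>
    by_cases hn : Box (r + m + 2) (a j - b)
    · exact ⟨j, Finset.mem_insert_self j S, hn⟩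
    · have hS := h.mono (Finset.subset_insert j S)
      have hc := isCut_glue h hj (isPolygon_glue hS)
      obtain ⟨E3, h3⟩ := descend hr hc h2 (hm j (Finset.mem_insert_self j S)) hm2 hn
      obtain ⟨i, hi, h4⟩ := ih hS (fun i hi => hm i (Finset.mem_insert_of_mem hi)) h3
      exact ⟨i, Finset.mem_insert_of_mem hi, h4⟩

/-- The glued polygon is a connected sum of the parts. -/
theorem isSum_glue {G : Subgroup (R3 ≃ₜ R3)} {K : ι → Finset (Sym2 P3)} (l : List ι)
    (hl : l.Nodup) (h : Parts C F a l.toFinset r k) (hC : Unknotted C)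
    (hF : ∀ j ∈ l, GClass G (K j) (F j)) : IsSum G (l.map K) (glue C F a l.toFinset) := by
  induction l with
  | nil =>
    rw [List.toFinset_nil, glue_empty]
    exact IsSum.nil h.pC hC
  | cons j l ih =>
    rw [List.nodup_cons] at hl
    rw [List.toFinset_cons] at h ⊢
    have hj : j ∉ l.toFinset := by simpa using hl.1
    have hS := h.mono (Finset.subset_insert j l.toFinset)
    have hc := isCut_glue h hj (isPolygon_glue hS)
    have h1 := ih hl.2 hS (fun i hi => hF i (List.mem_cons_of_mem j hi))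
    rw [List.map_cons]
    refine IsSum.cons (x := (a j).1) (y := (a j).2.1) (h := (a j).2.2) h1
      (hF j List.mem_cons_self) hc.below ?_ ?_ ?_
    · have e1 : ((a j).1 + 1, (a j).2.1, (a j).2.2) = a j + (1, 0, 0) := by
        refine Prod.ext ?_ (Prod.ext ?_ ?_) <;> simp
      rw [e1]; exact hc.eE
    · have e2 : ((a j).1, (a j).2.1, (a j).2.2 + 1) = a j + (0, 0, 1) := by
        refine Prod.ext ?_ (Prod.ext ?_ ?_) <;> simp
      have e3 : ((a j).1 + 1, (a j).2.1, (a j).2.2 + 1) = a j + (0, 0, 1) + (1, 0, 0) := by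
        refine Prod.ext ?_ (Prod.ext ?_ ?_) <;> simp
      rw [e2, e3]; exact hc.eF
    · rw [← hc.R_eq]
      exact GClass.refl (isPolygon_glue h)

end glue

end Pool.Agent.LK
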