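import Pool.Agent.MP_aea6d5_co.KFinal

/-! The elementary moves are realised by homeomorphisms of bounded support. -/

set_option autoImplicit false

open Set Topology

namespace Pool.Agent.LK

/-- A homeomorphism of bounded support. -/
def BS (φ : R3 ≃ₜ R3) : Prop := Bornology.IsBounded {x | φ x ≠ x}

theorem BS.comp {φ ψ : R3 ≃ₜ R3} (h : BS φ) (h' : BS ψ) : BS (φ.trans ψ) := by
  refine (h.union h').subset ?_
  intro x hx
  by_contra h2
  simp only [mem_union, mem_ofPred_eq, not_or, not_not] at h2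
  apply hx
  change ψ (φ x) = x
  rw [h2.1, h2.2]

theorem isBounded_image_homeo (φ : R3 ≃ₜ R3) {S : Set R3} (h : Bornology.IsBounded S) :
    Bornology.IsBounded (φ '' S) := by
  have h1 : IsCompact (closure S) := h.isCompact_closure
  exact (h1.image φ.continuous).isBounded.subset (image_mono subset_closure)

theorem BS.conj {φ : R3 ≃ₜ R3} (h : BS φ) (ψ : R3 ≃ₜ R3) : BS ((ψ.symm.trans φ).trans ψ) := by
  refine (isBounded_image_homeo ψ h).subset ?_
  intro x hx
  refine ⟨ψ.symm x, ?_, ψ.apply_symm_apply x⟩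
  intro h2
  apply hx
  change ψ (φ (ψ.symm x)) = x
  rw [h2, ψ.apply_symm_apply]

theorem BS.vmove {C : Set R3} (hC : Body C) {a b : R3} (ha : a ∈ interior C)
    (hb : b ∈ interior C) : BS (vmoveHomeo hC ha hb) := by
  refine hC.bdd.subset ?_
  intro x hx
  by_contra h2
  apply hx
  exact vmove_of_notMem hC ha (fun h3 => h2 (interior_subset h3))

/-- Moving the middle of the edge, as a homeomorphism of space (the polygon may be knotted). -/
lemma tent_std_bs {E : Finset (Sym2 P3)} (hadj : ∀ u v, s(u, v) ∈ E → Adj u v)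
    (he : s(((0, 0, 0) : P3), ((1, 0, 0) : P3)) ∈ E) (h1 : ((0, 0, 1) : P3) ∉ verts E)
    (h2 : ((1, 0, 1) : P3) ∉ verts E) {b : R3}
    (hb : b ∈ interior (poly LB)) :
    ∃ φ : R3 ≃ₜ R3, BS φ ∧ φ '' body E = body (E \ {s(((0, 0, 0) : P3), ((1, 0, 0) : P3))}) ∪
      (segment ℝ (toR (0, 0, 0)) b ∪ segment ℝ b (toR (1, 0, 0))) := by
  have ha : ((1 / 2, 0, 0) : R3) ∈ interior (poly LB) := by
    apply mem_interior_poly
    simp only [LB, val, List.forall_mem_cons, List.not_mem_nil, false_implies, implies_true,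
      and_true]
    norm_num
  have hu0 : toR (0, 0, 0) ∈ poly LB := by rw [mem_LB]; simp [toR]
  have hv0 : toR (1, 0, 0) ∈ poly LB := by rw [mem_LB]; simp [toR]
  have hu : toR (0, 0, 0) ∈ frontier (poly LB) := by
    apply mem_frontier_poly (a := (1 / 2, 0, 0)) hu0 (l := (-1, 4, -1, 0))
    · simp [LB]
    · simp [val, toR]
    · simp [val]
  have hv : toR (1, 0, 0) ∈ frontier (poly LB) := by
    apply mem_frontier_poly (a := (1 / 2, 0, 0)) hv0 (l := (1, 4, -1, -1))
    · simp [LB]
    · simp [val, toR]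
    · norm_num [val]
  have hm : ((1 / 2, 0, 0) : R3) ∈ segment ℝ (toR (0, 0, 0)) (toR (1, 0, 0)) := by
    rw [segment_eq_image']
    exact ⟨1 / 2, by norm_num, by simp [toR]⟩
  have hseg : segment ℝ (toR (0, 0, 0)) (toR (1, 0, 0)) ⊆ poly LB :=
    (poly_convex LB).segment_subset hu0 hv0
  have hin : ∀ u v, s(u, v) ∈ E → ∀ P ∈ segment ℝ (toR u) (toR v), P ∈ poly LB →
      s(u, v) = s(((0, 0, 0) : P3), ((1, 0, 0) : P3)) ∨ P = toR (0, 0, 0) ∨ P = toR (1, 0, 0) := by
    intro u v huv P hP hC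
    rcases LB_cases (hadj u v huv) hP hC with h | h | h | h | h
    · exact Or.inl h
    · exact absurd (mem_verts_of_mem huv h) h1
    · exact absurd (mem_verts_of_mem huv h) h2
    · exact Or.inr (Or.inl h)
    · exact Or.inr (Or.inr h)
  have hX : body E ∩ poly LB = segment ℝ (toR (0, 0, 0)) (1 / 2, 0, 0) ∪
      segment ℝ (1 / 2, 0, 0) (toR (1, 0, 0)) := by
    rw [segment_split hm]
    apply Subset.antisymm
    · rintro P ⟨⟨u, v, huv, hP⟩, hC⟩
      rcases hin u v huv P hP hC with h | h | h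
      · rcases Sym2.eq_iff.1 h with ⟨rfl, rfl⟩ | ⟨rfl, rfl⟩
        · exact hP
        · rwa [segment_symm]
      · rw [h]; exact left_mem_segment ℝ _ _
      · rw [h]; exact right_mem_segment ℝ _ _
    · intro P hP
      exact ⟨⟨_, _, he, hP⟩, hseg hP⟩
  have key := vmove_image (b := b) body_LB ha hu hv hX
  have heq : (body E \ poly LB) ∪ (segment ℝ (toR (0, 0, 0)) b ∪ segment ℝ b (toR (1, 0, 0))) =
      body (E \ {s(((0, 0, 0) : P3), ((1, 0, 0) : P3))}) ∪
      (segment ℝ (toR (0, 0, 0)) b ∪ segment ℝ b (toR (1, 0, 0))) := by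
    ext P
    constructor
    · rintro (⟨⟨u, v, huv, hP⟩, hC⟩ | h)
      · left
        refine ⟨u, v, ?_, hP⟩
        rw [Finset.mem_sdiff, Finset.mem_singleton]
        refine ⟨huv, fun h => hC (hseg ?_)⟩
        rcases Sym2.eq_iff.1 h with ⟨rfl, rfl⟩ | ⟨rfl, rfl⟩
        · exact hP
        · rwa [segment_symm]
      · exact Or.inr h
    · rintro (⟨u, v, huv, hP⟩ | h)
      · rw [Finset.mem_sdiff, Finset.mem_singleton] at huv
        by_cases hC : P ∈ poly LB
        · right
          rcases hin u v huv.1 P hP hC with h | h | h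
          · exact absurd h huv.2
          · left; rw [h]; exact left_mem_segment ℝ _ _
          · right; rw [h]; exact right_mem_segment ℝ _ _
        · exact Or.inl ⟨⟨u, v, huv.1, hP⟩, hC⟩
      · exact Or.inr h
  rw [heq] at key
  exact ⟨vmoveHomeo body_LB ha hb, BS.vmove _ _ _, key⟩


/-- The bump in standard position, as a homeomorphism of space. -/
lemma bump_std_bs {E : Finset (Sym2 P3)} (hadj : ∀ u v, s(u, v) ∈ E → Adj u v)
    (he : s(((0, 0, 0) : P3), ((1, 0, 0) : P3)) ∈ E) (h1 : ((0, 0, 1) : P3) ∉ verts E)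
    (h2 : ((1, 0, 1) : P3) ∉ verts E) :
    ∃ φ : R3 ≃ₜ R3, BS φ ∧ φ '' body E = body (bump E (0, 0, 0) (1, 0, 0) (0, 0, 1)) := by
  have hb : toR (0, 0, 1) ∈ interior (poly LB) := by
    apply mem_interior_poly
    simp only [LB, val, toR, List.forall_mem_cons, List.not_mem_nil, false_implies, implies_true,
      and_true]
    norm_num
  obtain ⟨φ₁, hb₁, hφ₁⟩ := tent_std_bs hadj he h1 h2 hb
  set E' := E \ {s(((0, 0, 0) : P3), ((1, 0, 0) : P3))} with hE'
  have hsub : ∀ u v, s(u, v) ∈ E' → s(u, v) ∈ E := fun u v h => (Finset.mem_sdiff.1 h).1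
  set X := body E' ∪ (segment ℝ (toR (0, 0, 0)) (toR (0, 0, 1)) ∪
    segment ℝ (toR (0, 0, 1)) (toR (1, 0, 0))) with hXdef
  have ha : ((1 / 2, 0, 1 / 2) : R3) ∈ interior (poly L2) := by
    apply mem_interior_poly
    simp only [L2, val, List.forall_mem_cons, List.not_mem_nil, false_implies, implies_true,
      and_true]
    norm_num
  have hb2 : toR (1, 0, 1) ∈ interior (poly L2) := by
    apply mem_interior_poly
    simp only [L2, val, toR, List.forall_mem_cons, List.not_mem_nil, false_implies, implies_true,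
      and_true]
    norm_num
  have hu0 : toR (0, 0, 1) ∈ poly L2 := by rw [mem_L2]; norm_num [toR]
  have hv0 : toR (1, 0, 0) ∈ poly L2 := by rw [mem_L2]; norm_num [toR]
  have hu : toR (0, 0, 1) ∈ frontier (poly L2) := by
    apply mem_frontier_poly (a := (1 / 2, 0, 1 / 2)) hu0 (l := (-1, 4, 1, -1))
    · simp [L2]
    · norm_num [val, toR]
    · norm_num [val]
  have hv : toR (1, 0, 0) ∈ frontier (poly L2) := by
    apply mem_frontier_poly (a := (1 / 2, 0, 1 / 2)) hv0 (l := (1, 4, -1, -1))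
    · simp [L2]
    · norm_num [val, toR]
    · norm_num [val]
  have hm : ((1 / 2, 0, 1 / 2) : R3) ∈ segment ℝ (toR (0, 0, 1)) (toR (1, 0, 0)) := by
    rw [segment_eq_image']
    exact ⟨1 / 2, by norm_num, by norm_num [toR]⟩
  have hseg : segment ℝ (toR (0, 0, 1)) (toR (1, 0, 0)) ⊆ poly L2 :=
    (poly_convex L2).segment_subset hu0 hv0
  have hin : ∀ P ∈ body E', P ∈ poly L2 → P = toR (1, 0, 0) := by
    rintro P ⟨u, v, huv, hP⟩ hC
    rcases L2_cases (hadj u v (hsub u v huv)) hP hC with h | h | h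
    · exact absurd (mem_verts_of_mem (hsub u v huv) h) h1
    · exact absurd (mem_verts_of_mem (hsub u v huv) h) h2
    · exact h
  have hin2 : ∀ P ∈ segment ℝ (toR (0, 0, 0)) (toR (0, 0, 1)), P ∈ poly L2 →
      P = toR (0, 0, 1) := by
    intro P hP hC
    rw [segment_eq_image'] at hP
    obtain ⟨t, ⟨t0, t1⟩, rfl⟩ := hP
    rw [mem_L2] at hC
    simp only [toR, Int.cast_zero, Int.cast_one, Prod.mk_sub_mk, sub_zero, Prod.smul_mk,
      smul_eq_mul, mul_zero, mul_one, Prod.mk_add_mk, zero_add] at hC ⊢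
    have : t = 1 := by linarith [hC.1]
    rw [this]
  have hX : X ∩ poly L2 = segment ℝ (toR (0, 0, 1)) (1 / 2, 0, 1 / 2) ∪
      segment ℝ (1 / 2, 0, 1 / 2) (toR (1, 0, 0)) := by
    rw [segment_split hm]
    apply Subset.antisymm
    · rintro P ⟨hP | hP | hP, hC⟩
      · rw [hin P hP hC]; exact right_mem_segment ℝ _ _
      · rw [hin2 P hP hC]; exact left_mem_segment ℝ _ _
      · exact hP
    · intro P hP
      exact ⟨Or.inr (Or.inr hP), hseg hP⟩
  have key := vmove_image (b := toR (1, 0, 1)) body_L2 ha hu hv hX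
  have heq : (X \ poly L2) ∪ (segment ℝ (toR (0, 0, 1)) (toR (1, 0, 1)) ∪
      segment ℝ (toR (1, 0, 1)) (toR (1, 0, 0))) =
      body (bump E (0, 0, 0) (1, 0, 0) (0, 0, 1)) := by
    have hb : bump E (0, 0, 0) (1, 0, 0) (0, 0, 1) = E' ∪ {s((0, 0, 0), (0, 0, 1)),
        s((0, 0, 1), (1, 0, 1)), s((1, 0, 1), (1, 0, 0))} := by
      rw [bump, hE']
      rfl
    rw [hb, body_union, body_insert, body_insert, body_singleton]
    ext P
    constructor
    · rintro (⟨hP | hP | hP, hC⟩ | hP | hP)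
      · exact Or.inl hP
      · exact Or.inr (Or.inl hP)
      · exact absurd (hseg hP) hC
      · exact Or.inr (Or.inr (Or.inl hP))
      · exact Or.inr (Or.inr (Or.inr hP))
    · rintro (hP | hP | hP | hP)
      · by_cases hC : P ∈ poly L2
        · right; right
          rw [hin P hP hC]; exact right_mem_segment ℝ _ _
        · exact Or.inl ⟨Or.inl hP, hC⟩
      · by_cases hC : P ∈ poly L2
        · right; left
          rw [hin2 P hP hC]; exact left_mem_segment ℝ _ _
        · exact Or.inl ⟨Or.inr (Or.inl hP), hC⟩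
      · exact Or.inr (Or.inl hP)
      · exact Or.inr (Or.inr hP)
  rw [heq] at key
  refine ⟨φ₁.trans (vmoveHomeo body_L2 ha hb2), hb₁.comp (BS.vmove _ _ _), ?_⟩
  rw [← key, ← hφ₁, image_image]
  rfl

/-- The flip in standard position, as a homeomorphism of space. -/
lemma flip_std_bs {E : Finset (Sym2 P3)} (hadj : ∀ u v, s(u, v) ∈ E → Adj u v)
    (he : s(((0, 0, 0) : P3), ((1, 0, 0) : P3)) ∈ E)
    (hf : s(((1, 0, 0) : P3), ((1, 0, 1) : P3)) ∈ E)
    (hdeg : ∀ w, s(((1, 0, 0) : P3), w) ∈ E → w = (0, 0, 0) ∨ w = (1, 0, 1))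
    (h1 : ((0, 0, 1) : P3) ∉ verts E) :
    ∃ φ : R3 ≃ₜ R3, BS φ ∧ φ '' body E = body (flip E (0, 0, 0) (1, 0, 0) (0, 0, 1)) := by
  have ha : toR (1, 0, 0) ∈ interior (poly L3) := by
    apply mem_interior_poly
    simp only [L3, val, toR, List.forall_mem_cons, List.not_mem_nil, false_implies, implies_true,
      and_true]
    norm_num
  have hb : toR (0, 0, 1) ∈ interior (poly L3) := by
    apply mem_interior_poly
    simp only [L3, val, toR, List.forall_mem_cons, List.not_mem_nil, false_implies, implies_true,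
      and_true]
    norm_num
  have ha0 : toR (1, 0, 0) ∈ poly L3 := interior_subset ha
  have hu0 : toR (0, 0, 0) ∈ poly L3 := by rw [mem_L3]; norm_num [toR]
  have hv0 : toR (1, 0, 1) ∈ poly L3 := by rw [mem_L3]; norm_num [toR]
  have hu : toR (0, 0, 0) ∈ frontier (poly L3) := by
    apply mem_frontier_poly (a := toR (1, 0, 0)) hu0 (l := (-1, 4, -1, 0))
    · simp [L3]
    · norm_num [val, toR]
    · norm_num [val, toR]
  have hv : toR (1, 0, 1) ∈ frontier (poly L3) := by
    apply mem_frontier_poly (a := toR (1, 0, 0)) hv0 (l := (1, 4, 1, -2))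
    · simp [L3]
    · norm_num [val, toR]
    · norm_num [val, toR]
  have hs1 : segment ℝ (toR (0, 0, 0)) (toR (1, 0, 0)) ⊆ poly L3 :=
    (poly_convex L3).segment_subset hu0 ha0
  have hs2 : segment ℝ (toR (1, 0, 0)) (toR (1, 0, 1)) ⊆ poly L3 :=
    (poly_convex L3).segment_subset ha0 hv0
  have hin : ∀ u v, s(u, v) ∈ E → ∀ P ∈ segment ℝ (toR u) (toR v), P ∈ poly L3 →
      s(u, v) = s(((0, 0, 0) : P3), ((1, 0, 0) : P3)) ∨
        s(u, v) = s(((1, 0, 0) : P3), ((1, 0, 1) : P3)) ∨ P = toR (0, 0, 0) ∨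
          P = toR (1, 0, 1) := by
    intro u v huv P hP hC
    rcases L3_cases (hadj u v huv) hP hC with h | h | h | h
    · exact absurd (mem_verts_of_mem huv h) h1
    · rcases Sym2.mem_iff.1 h with h3 | h3
      · rw [← h3] at huv ⊢
        rcases hdeg v huv with rfl | rfl
        · exact Or.inl Sym2.eq_swap
        · exact Or.inr (Or.inl rfl)
      · rw [← h3] at huv ⊢
        rw [Sym2.eq_swap] at huv
        rcases hdeg u huv with rfl | rfl
        · exact Or.inl rfl
        · exact Or.inr (Or.inl Sym2.eq_swap)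
    · exact Or.inr (Or.inr (Or.inl h))
    · exact Or.inr (Or.inr (Or.inr h))
  have hX : body E ∩ poly L3 = segment ℝ (toR (0, 0, 0)) (toR (1, 0, 0)) ∪
      segment ℝ (toR (1, 0, 0)) (toR (1, 0, 1)) := by
    apply Subset.antisymm
    · rintro P ⟨⟨u, v, huv, hP⟩, hC⟩
      rcases hin u v huv P hP hC with h | h | h | h
      · left
        rcases Sym2.eq_iff.1 h with ⟨rfl, rfl⟩ | ⟨rfl, rfl⟩
        · exact hP
        · rwa [segment_symm]
      · right
        rcases Sym2.eq_iff.1 h with ⟨rfl, rfl⟩ | ⟨rfl, rfl⟩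
        · exact hP
        · rwa [segment_symm]
      · left; rw [h]; exact left_mem_segment ℝ _ _
      · right; rw [h]; exact right_mem_segment ℝ _ _
    · rintro P (hP | hP)
      · exact ⟨⟨_, _, he, hP⟩, hs1 hP⟩
      · exact ⟨⟨_, _, hf, hP⟩, hs2 hP⟩
  have key := vmove_image (b := toR (0, 0, 1)) body_L3 ha hu hv hX
  have heq : (body E \ poly L3) ∪ (segment ℝ (toR (0, 0, 0)) (toR (0, 0, 1)) ∪
      segment ℝ (toR (0, 0, 1)) (toR (1, 0, 1))) =
      body (flip E (0, 0, 0) (1, 0, 0) (0, 0, 1)) := by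
    have hfl : flip E (0, 0, 0) (1, 0, 0) (0, 0, 1) =
        (E \ {s((0, 0, 0), (1, 0, 0)), s((1, 0, 0), (1, 0, 1))}) ∪
          {s((0, 0, 0), (0, 0, 1)), s((0, 0, 1), (1, 0, 1))} := rfl
    rw [hfl, body_union, body_insert, body_singleton]
    ext P
    constructor
    · rintro (⟨⟨u, v, huv, hP⟩, hC⟩ | hP)
      · left
        refine ⟨u, v, ?_, hP⟩
        rw [Finset.mem_sdiff, Finset.mem_insert, Finset.mem_singleton]
        refine ⟨huv, ?_⟩
        rintro (h | h)
        · apply hC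
          apply hs1
          rcases Sym2.eq_iff.1 h with ⟨rfl, rfl⟩ | ⟨rfl, rfl⟩
          · exact hP
          · rwa [segment_symm]
        · apply hC
          apply hs2
          rcases Sym2.eq_iff.1 h with ⟨rfl, rfl⟩ | ⟨rfl, rfl⟩
          · exact hP
          · rwa [segment_symm]
      · exact Or.inr hP
    · rintro (⟨u, v, huv, hP⟩ | hP)
      · rw [Finset.mem_sdiff, Finset.mem_insert, Finset.mem_singleton] at huv
        by_cases hC : P ∈ poly L3
        · right
          rcases hin u v huv.1 P hP hC with h | h | h | h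
          · exact absurd (Or.inl h) huv.2
          · exact absurd (Or.inr h) huv.2
          · left; rw [h]; exact left_mem_segment ℝ _ _
          · right; rw [h]; exact right_mem_segment ℝ _ _
        · exact Or.inl ⟨⟨u, v, huv.1, hP⟩, hC⟩
      · exact Or.inr hP
  rw [heq] at key
  exact ⟨vmoveHomeo body_L3 ha hb, BS.vmove _ _ _, key⟩



/-- A homeomorphism of bounded support carries `E` to `F`. -/
def SameB (E F : Finset (Sym2 P3)) : Prop := ∃ φ : R3 ≃ₜ R3, BS φ ∧ φ '' body E = body F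

lemma sameB_fmap {x a b c : P3} (h : Frm a b c) {E F : Finset (Sym2 P3)} (hEF : SameB E F) :
    SameB (mapE (fmap x a b c) E) (mapE (fmap x a b c) F) := by
  obtain ⟨φ, h1, h2⟩ := hEF
  refine ⟨_, h1.conj (fhomeo x h), ?_⟩
  rw [body_fmap h, body_fmap h, ← h2]
  ext z
  constructor
  · rintro ⟨_, ⟨w, hw, rfl⟩, rfl⟩
    refine ⟨φ w, ⟨w, hw, rfl⟩, ?_⟩
    rw [Homeomorph.trans_apply, Homeomorph.trans_apply, Homeomorph.symm_apply_apply]
  · rintro ⟨_, ⟨w, hw, rfl⟩, rfl⟩
    refine ⟨fhomeo x h w, ⟨w, hw, rfl⟩, ?_⟩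
    rw [Homeomorph.trans_apply, Homeomorph.trans_apply, Homeomorph.symm_apply_apply]

/-- Bumps do not change the type. -/
theorem sameB_bump (E : Finset (Sym2 P3)) (x y d : P3) (hadj : ∀ u v, s(u, v) ∈ E → Adj u v)
    (he : s(x, y) ∈ E) (hd : IsUnit3 d) (h1 : x + d ∉ verts E)
    (h2 : y + d ∉ verts E) : SameB E (bump E x y d) := by
  have ha : IsUnit3 (y - x) := isUnit3_of_adj (hadj x y he)
  have hx : x ∈ verts E := ⟨y, he⟩
  have hy : y ∈ verts E := ⟨x, by rwa [Sym2.eq_swap]⟩
  have hne : y - x ≠ d := by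
    intro h
    apply h1
    rw [← h, add_sub_cancel]
    exact hy
  have hne' : y - x ≠ -d := by
    intro h
    apply h2
    have h3 : d = x - y := by rw [← neg_sub y x, h, neg_neg]
    rw [h3, add_sub_cancel]
    exact hx
  obtain ⟨b, hF⟩ := exists_frm ha hd hne hne'
  obtain ⟨E₀, rfl⟩ := exists_mapE x hF E
  have f0 : fmap x (y - x) b d (0, 0, 0) = x := by simp [fmap]
  have f1 : fmap x (y - x) b d (1, 0, 0) = y := by simp [fmap]
  have f2 : fmap x (y - x) b d (0, 0, 1) = x + d := by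
    simp [fmap]
    rfl
  have f3 : fmap x (y - x) b d (1, 0, 1) = y + d := by
    simp [fmap]
    rfl
  have hadj0 : ∀ u v, s(u, v) ∈ E₀ → Adj u v := fun u v huv =>
    (adj_fmap (x := x) hF).1 (hadj _ _ ((mem_mapE_fmap hF).2 huv))
  have he0 : s(((0, 0, 0) : P3), ((1, 0, 0) : P3)) ∈ E₀ := by
    rw [← mem_mapE_fmap (x := x) hF, f0, f1]
    exact he
  have h10 : ((0, 0, 1) : P3) ∉ verts E₀ := by
    rw [← mem_verts_fmap (x := x) hF, f2]
    exact h1
  have h20 : ((1, 0, 1) : P3) ∉ verts E₀ := by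
    rw [← mem_verts_fmap (x := x) hF, f3]
    exact h2
  have key := bump_std_bs hadj0 he0 h10 h20
  have hb : bump (mapE (fmap x (y - x) b d) E₀) x y d =
      mapE (fmap x (y - x) b d) (bump E₀ (0, 0, 0) (1, 0, 0) (0, 0, 1)) := by
    have hinj := Sym2.map.injective (fmap_injective (x := x) hF)
    simp only [bump, mapE]
    rw [Finset.image_union, Finset.image_sdiff _ _ hinj]
    simp only [Finset.image_insert, Finset.image_singleton, Sym2.map_mk, Prod.mk_add_mk, zero_add,
      add_zero, f0, f1, f2, f3]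
  rw [hb]
  exact sameB_fmap hF key

/-- Flips do not change the type. -/
theorem sameB_flip (E : Finset (Sym2 P3)) (x a b : P3) (hP : IsPolygon E)
    (he : s(x, x + a) ∈ E) (hf : s(x + a, x + a + b) ∈ E) (ha : IsUnit3 a)
    (hb : IsUnit3 b) (hab : a ≠ b) (hab' : a ≠ -b) (h1 : x + b ∉ verts E) :
    SameB E (flip E x a b) := by
  obtain ⟨n, hF⟩ := exists_frm ha hb hab hab'
  have hadj := hP.adj
  have hb0 : b ≠ 0 := by
    rintro rfl
    simp [IsUnit3, Adj] at hb
  have ha0 : a ≠ 0 := by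
    rintro rfl
    simp [IsUnit3, Adj] at ha
  have hneq : x ≠ x + a + b := by
    intro h
    apply hab'
    have h2 : a + b = 0 := by
      have : x + (a + b) = x + 0 := by rw [add_zero, ← add_assoc]; exact h.symm
      exact add_left_cancel this
    exact eq_neg_of_add_eq_zero_left h2
  have hdeg : ∀ w, s(x + a, w) ∈ E → w = x ∨ w = x + a + b := by
    intro w hw
    have h2 := hP.deg (x + a) ⟨x, by rwa [Sym2.eq_swap]⟩
    by_contra hcon
    push Not at hcon
    have hfin : {w | s(x + a, w) ∈ E}.Finite := by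
      apply Set.finite_of_ncard_ne_zero
      rw [h2]
      norm_num
    have h3 : ({x, x + a + b, w} : Set P3) ⊆ {w | s(x + a, w) ∈ E} := by
      intro q hq
      simp only [mem_insert_iff, mem_singleton_iff] at hq
      rcases hq with rfl | rfl | rfl
      · show s(q + a, q) ∈ E
        rwa [Sym2.eq_swap]
      · exact hf
      · exact hw
    have h4 := Set.ncard_le_ncard h3 hfin
    rw [h2, Set.ncard_eq_toFinset_card'] at h4
    have h5 : ({x, x + a + b, w} : Set P3).toFinset = {x, x + a + b, w} := by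
      ext q
      simp
    rw [h5, Finset.card_insert_of_notMem, Finset.card_insert_of_notMem,
      Finset.card_singleton] at h4
    · omega
    · simp only [Finset.mem_singleton]
      exact fun h => hcon.2 h.symm
    · simp only [Finset.mem_insert, Finset.mem_singleton, not_or]
      exact ⟨hneq, fun h => hcon.1 h.symm⟩
  obtain ⟨E₀, rfl⟩ := exists_mapE x hF E
  have f0 : fmap x a n b (0, 0, 0) = x := by simp [fmap]
  have f1 : fmap x a n b (1, 0, 0) = x + a := by
    simp [fmap]
    rfl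
  have f2 : fmap x a n b (0, 0, 1) = x + b := by
    simp [fmap]
    rfl
  have f3 : fmap x a n b (1, 0, 1) = x + a + b := by
    simp [fmap]
    rfl
  have hadj0 : ∀ u v, s(u, v) ∈ E₀ → Adj u v := fun u v huv =>
    (adj_fmap (x := x) hF).1 (hadj _ _ ((mem_mapE_fmap hF).2 huv))
  have he0 : s(((0, 0, 0) : P3), ((1, 0, 0) : P3)) ∈ E₀ := by
    rw [← mem_mapE_fmap (x := x) hF, f0, f1]
    exact he
  have hf0 : s(((1, 0, 0) : P3), ((1, 0, 1) : P3)) ∈ E₀ := by
    rw [← mem_mapE_fmap (x := x) hF, f1, f3]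
    exact hf
  have h10 : ((0, 0, 1) : P3) ∉ verts E₀ := by
    rw [← mem_verts_fmap (x := x) hF, f2]
    exact h1
  have hdeg0 : ∀ w, s(((1, 0, 0) : P3), w) ∈ E₀ → w = (0, 0, 0) ∨ w = (1, 0, 1) := by
    intro w hw
    rw [← mem_mapE_fmap (x := x) hF, f1] at hw
    rcases hdeg _ hw with h | h
    · left
      apply fmap_injective (x := x) hF
      rw [f0, h]
    · right
      apply fmap_injective (x := x) hF
      rw [f3, h]
  have key := flip_std_bs hadj0 he0 hf0 hdeg0 h10
  have hb : flip (mapE (fmap x a n b) E₀) x a b =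
      mapE (fmap x a n b) (flip E₀ (0, 0, 0) (1, 0, 0) (0, 0, 1)) := by
    have hinj := Sym2.map.injective (fmap_injective (x := x) hF)
    simp only [flip, mapE]
    rw [Finset.image_union, Finset.image_sdiff _ _ hinj]
    simp only [Finset.image_insert, Finset.image_singleton, Sym2.map_mk, Prod.mk_add_mk, zero_add,
      add_zero, f0, f1, f2, f3]
  rw [hb]
  exact sameB_fmap hF key



end Pool.Agent.LK
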