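import Pool.Agent.MP_aea6d5_co.TopDefs

/-! The complement of a point of an unknotted circle is an unknotted open cell, and conversely. -/

set_option autoImplicit false

open Set Topology Filter

namespace Pool.Agent.LK

/-! ### The inversion -/

/-- The square of the Euclidean norm. -/
noncomputable def nsqR (v : R3) : ℝ := v.1 ^ 2 + v.2.1 ^ 2 + v.2.2 ^ 2

/-- Inversion in the unit sphere. -/
noncomputable def invf (v : R3) : R3 := (v.1 / nsqR v, v.2.1 / nsqR v, v.2.2 / nsqR v)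

theorem nsqR_nonneg (v : R3) : 0 ≤ nsqR v := by unfold nsqR; positivity

theorem nsqR_pos {v : R3} (hv : v ≠ 0) : 0 < nsqR v := by
  refine lt_of_le_of_ne (nsqR_nonneg v) (fun h => hv ?_)
  unfold nsqR at h
  have h1 : v.1 = 0 := by nlinarith [sq_nonneg v.1, sq_nonneg v.2.1, sq_nonneg v.2.2]
  have h2 : v.2.1 = 0 := by nlinarith [sq_nonneg v.1, sq_nonneg v.2.1, sq_nonneg v.2.2]
  have h3 : v.2.2 = 0 := by nlinarith [sq_nonneg v.1, sq_nonneg v.2.1, sq_nonneg v.2.2]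
  exact Prod.ext h1 (Prod.ext h2 h3)

theorem nsqR_invf {v : R3} (hv : v ≠ 0) : nsqR (invf v) = (nsqR v)⁻¹ := by
  have h := nsqR_pos hv
  have h' : nsqR (invf v) = (v.1 ^ 2 + v.2.1 ^ 2 + v.2.2 ^ 2) / nsqR v ^ 2 := by
    show (v.1 / nsqR v) ^ 2 + (v.2.1 / nsqR v) ^ 2 + (v.2.2 / nsqR v) ^ 2 = _
    field_simp
  rw [h']
  have h2 : v.1 ^ 2 + v.2.1 ^ 2 + v.2.2 ^ 2 = nsqR v := rfl
  rw [h2]
  field_simp

theorem nsqR_zero : nsqR 0 = 0 := by simp [nsqR]

theorem invf_ne_zero {v : R3} (hv : v ≠ 0) : invf v ≠ 0 := by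
  intro h
  have h1 := nsqR_invf hv
  rw [h, nsqR_zero] at h1
  have h2 := inv_pos.mpr (nsqR_pos hv)
  linarith

theorem invf_invf {v : R3} (hv : v ≠ 0) : invf (invf v) = v := by
  have h := nsqR_pos hv
  have h1 := nsqR_invf hv
  have h2 : invf (invf v) = ((invf v).1 / nsqR (invf v), (invf v).2.1 / nsqR (invf v),
    (invf v).2.2 / nsqR (invf v)) := rfl
  rw [h2, h1]
  have e1 : (invf v).1 = v.1 / nsqR v := rfl
  have e2 : (invf v).2.1 = v.2.1 / nsqR v := rfl
  have e3 : (invf v).2.2 = v.2.2 / nsqR v := rfl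
  rw [e1, e2, e3]
  refine Prod.ext ?_ (Prod.ext ?_ ?_)
  · show v.1 / nsqR v / (nsqR v)⁻¹ = v.1
    field_simp
  · show v.2.1 / nsqR v / (nsqR v)⁻¹ = v.2.1
    field_simp
  · show v.2.2 / nsqR v / (nsqR v)⁻¹ = v.2.2
    field_simp

theorem abs_fst_le (v : R3) : |v.1| ≤ ‖v‖ := norm_fst_le v

theorem abs_snd1_le (v : R3) : |v.2.1| ≤ ‖v‖ := (norm_fst_le v.2).trans (norm_snd_le v)

theorem abs_snd2_le (v : R3) : |v.2.2| ≤ ‖v‖ := (norm_snd_le v.2).trans (norm_snd_le v)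

theorem nsqR_le (v : R3) : nsqR v ≤ 3 * ‖v‖ ^ 2 := by
  have h1 := abs_fst_le v
  have h2 := abs_snd1_le v
  have h3 := abs_snd2_le v
  have e1 : v.1 ^ 2 ≤ ‖v‖ ^ 2 := by rw [← sq_abs v.1]; gcongr
  have e2 : v.2.1 ^ 2 ≤ ‖v‖ ^ 2 := by rw [← sq_abs v.2.1]; gcongr
  have e3 : v.2.2 ^ 2 ≤ ‖v‖ ^ 2 := by rw [← sq_abs v.2.2]; gcongr
  unfold nsqR
  linarith

theorem norm_le_of (v : R3) (r : ℝ) (h1 : |v.1| ≤ r) (h2 : |v.2.1| ≤ r) (h3 : |v.2.2| ≤ r) :
    ‖v‖ ≤ r := by
  rw [Prod.norm_def, Prod.norm_def]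
  exact max_le h1 (max_le h2 h3)

theorem sq_norm_le (v : R3) : ‖v‖ ^ 2 ≤ nsqR v := by
  have h : ‖v‖ ≤ Real.sqrt (nsqR v) := by
    apply norm_le_of
    · apply Real.abs_le_sqrt
      unfold nsqR
      nlinarith [sq_nonneg v.2.1, sq_nonneg v.2.2]
    · apply Real.abs_le_sqrt
      unfold nsqR
      nlinarith [sq_nonneg v.1, sq_nonneg v.2.2]
    · apply Real.abs_le_sqrt
      unfold nsqR
      nlinarith [sq_nonneg v.1, sq_nonneg v.2.1]
  calc ‖v‖ ^ 2 ≤ (Real.sqrt (nsqR v)) ^ 2 := by gcongr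
    _ = nsqR v := Real.sq_sqrt (nsqR_nonneg v)

theorem norm_invf_le {v : R3} (hv : v ≠ 0) : ‖invf v‖ ≤ ‖v‖⁻¹ := by
  have hn : 0 < ‖v‖ := norm_pos_iff.mpr hv
  have hs := sq_norm_le v
  have hsp := nsqR_pos hv
  have key : ∀ x : ℝ, |x| ≤ ‖v‖ → |x / nsqR v| ≤ ‖v‖⁻¹ := by
    intro x hx
    rw [abs_div, abs_of_pos hsp, div_le_iff₀ hsp]
    calc |x| ≤ ‖v‖ := hx
      _ = ‖v‖⁻¹ * ‖v‖ ^ 2 := by field_simp
      _ ≤ ‖v‖⁻¹ * nsqR v := by gcongr
  exact norm_le_of _ _ (key _ (abs_fst_le v)) (key _ (abs_snd1_le v)) (key _ (abs_snd2_le v))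

theorem le_norm_invf {v : R3} (hv : v ≠ 0) : (3 * ‖v‖)⁻¹ ≤ ‖invf v‖ := by
  have hn : 0 < ‖v‖ := norm_pos_iff.mpr hv
  have h1 := nsqR_le (invf v)
  rw [nsqR_invf hv] at h1
  have h2 := nsqR_le v
  have hsp := nsqR_pos hv
  have h3 : (3 * ‖v‖ ^ 2)⁻¹ ≤ (nsqR v)⁻¹ := by
    apply inv_anti₀ hsp h2
  have h4 : (3 * ‖v‖)⁻¹ ^ 2 ≤ ‖invf v‖ ^ 2 := by
    have h5 : (3 * ‖v‖ ^ 2)⁻¹ ≤ 3 * ‖invf v‖ ^ 2 := h3.trans h1
    have h6 : (3 * ‖v‖)⁻¹ ^ 2 = (3 * ‖v‖ ^ 2)⁻¹ / 3 := by
      field_simp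
    rw [h6]
    linarith
  exact le_of_sq_le_sq₀ h4 (norm_nonneg _)
where
  le_of_sq_le_sq₀ {a b : ℝ} (h : a ^ 2 ≤ b ^ 2) (hb : 0 ≤ b) : a ≤ b := by
    exact le_of_not_gt fun hlt => by nlinarith

open Classical in
/-- The inversion of the sphere. -/
noncomputable def Invf (p : S3) : S3 :=
  p.elim ((0 : R3) : S3) (fun v => if v = 0 then OnePoint.infty else (invf v : S3))

theorem Invf_infty : Invf OnePoint.infty = ((0 : R3) : S3) := rfl

theorem Invf_zero : Invf ((0 : R3) : S3) = OnePoint.infty := by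
  show (if (0 : R3) = 0 then (OnePoint.infty : S3) else _) = _
  rw [if_pos rfl]

theorem Invf_coe {v : R3} (hv : v ≠ 0) : Invf (v : S3) = (invf v : S3) := by
  show (if v = 0 then (OnePoint.infty : S3) else _) = _
  rw [if_neg hv]

theorem Invf_Invf (p : S3) : Invf (Invf p) = p := by
  induction p using OnePoint.rec with
  | infty => rw [Invf_infty, Invf_zero]
  | coe v =>
    by_cases hv : v = 0
    · rw [hv, Invf_zero, Invf_infty]
    · rw [Invf_coe hv, Invf_coe (invf_ne_zero hv), invf_invf hv]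

theorem coclosed_eq : coclosedCompact R3 = Bornology.cobounded R3 := by
  rw [coclosedCompact_eq_cocompact, Metric.cobounded_eq_cocompact]

theorem continuousAt_invf {v : R3} (hv : v ≠ 0) : ContinuousAt invf v := by
  have hn : ContinuousAt nsqR v := by
    have : Continuous nsqR := by unfold nsqR; fun_prop
    exact this.continuousAt
  have h0 := (nsqR_pos hv).ne'
  have e1 : ContinuousAt (fun v : R3 => v.1 / nsqR v) v :=
    continuous_fst.continuousAt.div hn h0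
  have e2 : ContinuousAt (fun v : R3 => v.2.1 / nsqR v) v :=
    (continuous_fst.comp continuous_snd).continuousAt.div hn h0
  have e3 : ContinuousAt (fun v : R3 => v.2.2 / nsqR v) v :=
    (continuous_snd.comp continuous_snd).continuousAt.div hn h0
  exact e1.prodMk (e2.prodMk e3)

theorem continuous_Invf : Continuous Invf := by
  rw [OnePoint.continuous_iff]
  constructor
  · rw [Invf_infty, coclosed_eq]
    have h1 : Tendsto invf (Bornology.cobounded R3) (𝓝 0) := by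
      refine squeeze_zero_norm' (a := fun v => ‖v‖⁻¹) ?_
        (tendsto_inv_atTop_zero.comp tendsto_norm_cobounded_atTop)
      filter_upwards [Bornology.eventually_ne_cobounded (0 : R3)] with v hv
      exact norm_invf_le hv
    have h2 : Tendsto (fun v => (invf v : S3)) (Bornology.cobounded R3) (𝓝 ((0 : R3) : S3)) :=
      (OnePoint.continuous_coe.tendsto (0 : R3)).comp h1
    refine h2.congr' ?_
    filter_upwards [Bornology.eventually_ne_cobounded (0 : R3)] with v hv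
    exact (Invf_coe hv).symm
  · rw [continuous_iff_continuousAt]
    intro v
    by_cases hv : v = 0
    · subst hv
      rw [continuousAt_iff_punctured_nhds, Invf_zero]
      have h1 : Tendsto invf (𝓝[≠] (0 : R3)) (coclosedCompact R3) := by
        rw [coclosed_eq, ← tendsto_norm_atTop_iff_cobounded]
        refine tendsto_atTop_mono' _ (f₁ := fun v => (3 * ‖v‖)⁻¹) ?_ ?_
        · filter_upwards [self_mem_nhdsWithin] with v hv
          exact le_norm_invf hv
        · have h3 : Tendsto (fun v : R3 => 3 * ‖v‖) (𝓝[≠] (0 : R3)) (𝓝[>] 0) := by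
            rw [tendsto_nhdsWithin_iff]
            constructor
            · have : Continuous fun v : R3 => 3 * ‖v‖ := by fun_prop
              have h4 := this.tendsto (0 : R3)
              rw [norm_zero, mul_zero] at h4
              exact h4.mono_left nhdsWithin_le_nhds
            · filter_upwards [self_mem_nhdsWithin] with v hv
              have : 0 < ‖v‖ := norm_pos_iff.mpr hv
              exact mul_pos (by norm_num) this
          exact tendsto_inv_nhdsGT_zero.comp h3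
      have h2 : Tendsto (fun v => (invf v : S3)) (𝓝[≠] (0 : R3)) (𝓝 OnePoint.infty) :=
        OnePoint.tendsto_coe_infty.comp h1
      refine h2.congr' ?_
      filter_upwards [self_mem_nhdsWithin] with v hv
      exact (Invf_coe hv).symm
    · have h1 : ContinuousAt (fun v => (invf v : S3)) v :=
        (OnePoint.continuous_coe.continuousAt).comp (continuousAt_invf hv)
      refine h1.congr ?_
      filter_upwards [isOpen_ne.mem_nhds hv] with u hu
      exact (Invf_coe hu).symm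

/-- The inversion as a homeomorphism of the sphere. -/
noncomputable def InvH : S3 ≃ₜ S3 where
  toFun := Invf
  invFun := Invf
  left_inv := Invf_Invf
  right_inv := Invf_Invf
  continuous_toFun := continuous_Invf
  continuous_invFun := continuous_Invf

/-! ### The line with the point at infinity -/

/-- The `y`-axis together with the point at infinity. -/
def Lbar : Set S3 := {p | p = OnePoint.infty ∨ ∃ v : R3, v ∈ axisY ∧ (v : S3) = p}

theorem infty_mem_Lbar : (OnePoint.infty : S3) ∈ Lbar := Or.inl rfl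

theorem coe_mem_Lbar {v : R3} : (v : S3) ∈ Lbar ↔ v ∈ axisY := by
  constructor
  · rintro (h | ⟨u, hu, h⟩)
    · exact absurd h (OnePoint.coe_ne_infty v)
    · rwa [← OnePoint.coe_eq_coe.mp h]
  · intro h
    exact Or.inr ⟨v, h, rfl⟩

theorem mem_axisY {v : R3} : v ∈ axisY ↔ v.1 = 0 ∧ v.2.2 = 0 := Iff.rfl

theorem invf_mem_axisY {v : R3} (hv : v ≠ 0) : invf v ∈ axisY ↔ v ∈ axisY := by
  have h := (nsqR_pos hv).ne'
  rw [mem_axisY, mem_axisY]
  show v.1 / nsqR v = 0 ∧ v.2.2 / nsqR v = 0 ↔ _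
  rw [div_eq_zero_iff, div_eq_zero_iff]
  tauto

theorem InvH_mem_Lbar (p : S3) : InvH p ∈ Lbar ↔ p ∈ Lbar := by
  show Invf p ∈ Lbar ↔ p ∈ Lbar
  induction p using OnePoint.rec with
  | infty =>
    rw [Invf_infty, coe_mem_Lbar]
    exact ⟨fun _ => infty_mem_Lbar, fun _ => axisY.zero_mem⟩
  | coe v =>
    by_cases hv : v = 0
    · rw [hv, Invf_zero, coe_mem_Lbar]
      exact ⟨fun _ => axisY.zero_mem, fun _ => infty_mem_Lbar⟩
    · rw [Invf_coe hv, coe_mem_Lbar, coe_mem_Lbar, invf_mem_axisY hv]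

/-- Extension of a homeomorphism of space to the sphere. -/
noncomputable def ext3 (e : R3 ≃ₜ R3) : S3 ≃ₜ S3 := e.onePointCongr

theorem ext3_coe (e : R3 ≃ₜ R3) (v : R3) : ext3 e (v : S3) = (e v : S3) := rfl

theorem ext3_infty (e : R3 ≃ₜ R3) : ext3 e OnePoint.infty = OnePoint.infty := rfl

theorem ext3_mem_Lbar {e : R3 ≃ₜ R3} (he : ∀ v, e v ∈ axisY ↔ v ∈ axisY) (p : S3) :
    ext3 e p ∈ Lbar ↔ p ∈ Lbar := by
  induction p using OnePoint.rec with
  | infty =>
    rw [ext3_infty]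
  | coe v => rw [ext3_coe, coe_mem_Lbar, coe_mem_Lbar, he]

/-- (H1) a point of the line can be moved to infinity -/
theorem exists_move_line {s : S3} (hs : s ∈ Lbar) :
    ∃ h : S3 ≃ₜ S3, (∀ p, h p ∈ Lbar ↔ p ∈ Lbar) ∧ h s = OnePoint.infty := by
  rcases hs with rfl | ⟨a, ha, rfl⟩
  · exact ⟨Homeomorph.refl _, fun p => Iff.rfl, rfl⟩
  · refine ⟨(ext3 (Homeomorph.subRight a)).trans InvH, fun p => ?_, ?_⟩
    · rw [Homeomorph.trans_apply, InvH_mem_Lbar]
      apply ext3_mem_Lbar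
      intro v
      show v - a ∈ axisY ↔ v ∈ axisY
      exact Submodule.sub_mem_iff_left _ ha
    · rw [Homeomorph.trans_apply, ext3_coe]
      show Invf ((a - a : R3) : S3) = _
      rw [sub_self, Invf_zero]

/-- The base point of the inversion `Jh`. -/
def cpt : R3 := (1, 0, 0)

/-- the similarity moving `u` to `(1,0,0)` and preserving the `y`-axis -/
noncomputable def simil (u : R3) (hu : u.1 ^ 2 + u.2.2 ^ 2 ≠ 0) : R3 ≃ₜ R3 where
  toFun v := ((u.1 * v.1 + u.2.2 * v.2.2) / (u.1 ^ 2 + u.2.2 ^ 2), v.2.1 - u.2.1,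
    (-u.2.2 * v.1 + u.1 * v.2.2) / (u.1 ^ 2 + u.2.2 ^ 2))
  invFun w := (u.1 * w.1 - u.2.2 * w.2.2, w.2.1 + u.2.1, u.2.2 * w.1 + u.1 * w.2.2)
  left_inv v := by
    refine Prod.ext ?_ (Prod.ext ?_ ?_)
    · simp only
      field_simp
      ring
    · simp
    · simp only
      field_simp
      ring
  right_inv w := by
    refine Prod.ext ?_ (Prod.ext ?_ ?_)
    · simp only
      field_simp
      ring
    · simp
    · simp only
      field_simp
      ring
  continuous_toFun := by fun_prop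
  continuous_invFun := by fun_prop

theorem simil_self (u : R3) (hu : u.1 ^ 2 + u.2.2 ^ 2 ≠ 0) : simil u hu u = cpt := by
  refine Prod.ext ?_ (Prod.ext ?_ ?_)
  · show (u.1 * u.1 + u.2.2 * u.2.2) / (u.1 ^ 2 + u.2.2 ^ 2) = 1
    rw [div_eq_one_iff_eq hu]
    ring
  · show u.2.1 - u.2.1 = 0
    ring
  · show (-u.2.2 * u.1 + u.1 * u.2.2) / (u.1 ^ 2 + u.2.2 ^ 2) = 0
    rw [div_eq_zero_iff]
    left
    ring

theorem simil_axis (u : R3) (hu : u.1 ^ 2 + u.2.2 ^ 2 ≠ 0) (v : R3) :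
    simil u hu v ∈ axisY ↔ v ∈ axisY := by
  rw [mem_axisY, mem_axisY]
  show (u.1 * v.1 + u.2.2 * v.2.2) / (u.1 ^ 2 + u.2.2 ^ 2) = 0 ∧
    (-u.2.2 * v.1 + u.1 * v.2.2) / (u.1 ^ 2 + u.2.2 ^ 2) = 0 ↔ _
  rw [div_eq_zero_iff, div_eq_zero_iff]
  constructor
  · rintro ⟨h1, h2⟩
    have h1 := h1.resolve_right hu
    have h2 := h2.resolve_right hu
    have e1 : (u.1 ^ 2 + u.2.2 ^ 2) * v.1 = 0 := by linear_combination u.1 * h1 - u.2.2 * h2
    have e2 : (u.1 ^ 2 + u.2.2 ^ 2) * v.2.2 = 0 := by linear_combination u.2.2 * h1 + u.1 * h2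
    exact ⟨(mul_eq_zero.mp e1).resolve_left hu, (mul_eq_zero.mp e2).resolve_left hu⟩
  · rintro ⟨h1, h2⟩
    rw [h1, h2]
    exact ⟨Or.inl (by ring), Or.inl (by ring)⟩

/-- (H2) a point off the line can be moved to `(1,0,0)` -/
theorem exists_move_off {s : S3} (hs : s ∉ Lbar) :
    ∃ h : S3 ≃ₜ S3, (∀ p, h p ∈ Lbar ↔ p ∈ Lbar) ∧ h s = (cpt : S3) := by
  induction s using OnePoint.rec with
  | infty => exact absurd infty_mem_Lbar hs
  | coe u =>
    rw [coe_mem_Lbar, mem_axisY] at hs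
    have hu : u.1 ^ 2 + u.2.2 ^ 2 ≠ 0 := by
      intro h
      apply hs
      constructor
      · nlinarith [sq_nonneg u.1, sq_nonneg u.2.2]
      · nlinarith [sq_nonneg u.1, sq_nonneg u.2.2]
    refine ⟨ext3 (simil u hu), ext3_mem_Lbar (simil_axis u hu), ?_⟩
    rw [ext3_coe, simil_self]

/-! ### The inversion carrying the circle onto the line -/

/-- `v ↦ c + 2 v` -/
noncomputable def affTwo : R3 ≃ₜ R3 :=
  (Homeomorph.smulOfNeZero (2 : ℝ) two_ne_zero).trans (Homeomorph.addLeft cpt)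

/-- the inversion in the sphere of radius `√2` centred at `(1,0,0)` -/
noncomputable def Jh : S3 ≃ₜ S3 :=
  ((ext3 (Homeomorph.subRight cpt)).trans InvH).trans (ext3 affTwo)

theorem Jh_infty : Jh OnePoint.infty = (cpt : S3) := by
  show ext3 affTwo (Invf (ext3 (Homeomorph.subRight cpt) OnePoint.infty)) = _
  rw [ext3_infty, Invf_infty, ext3_coe]
  show ((cpt + (2 : ℝ) • (0 : R3) : R3) : S3) = _
  rw [smul_zero, add_zero]

theorem Jh_cpt : Jh (cpt : S3) = OnePoint.infty := by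
  show ext3 affTwo (Invf (ext3 (Homeomorph.subRight cpt) (cpt : S3))) = _
  rw [ext3_coe]
  show ext3 affTwo (Invf ((cpt - cpt : R3) : S3)) = _
  rw [sub_self, Invf_zero, ext3_infty]

theorem Jh_coe {v : R3} (hv : v ≠ cpt) :
    Jh (v : S3) = ((cpt + (2 : ℝ) • invf (v - cpt) : R3) : S3) := by
  show ext3 affTwo (Invf (ext3 (Homeomorph.subRight cpt) (v : S3))) = _
  rw [ext3_coe]
  show ext3 affTwo (Invf ((v - cpt : R3) : S3)) = _
  rw [Invf_coe (sub_ne_zero.mpr hv), ext3_coe]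
  rfl

theorem coe_mem_up {X : Set R3} {v : R3} : (v : S3) ∈ up X ↔ v ∈ X := by
  constructor
  · rintro ⟨u, hu, h⟩
    rwa [← OnePoint.coe_eq_coe.mp h]
  · intro h
    exact ⟨v, h, rfl⟩

theorem infty_notMem_up (X : Set R3) : (OnePoint.infty : S3) ∉ up X := by
  rintro ⟨u, _, h⟩
  exact OnePoint.coe_ne_infty u h

theorem Jh_mem (p : S3) : Jh p ∈ Lbar ↔ p ∈ up stdCircle := by
  induction p using OnePoint.rec with
  | infty =>
    rw [Jh_infty, coe_mem_Lbar, mem_axisY]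
    constructor
    · rintro ⟨h, _⟩
      simp [cpt] at h
    · intro h
      exact absurd h (infty_notMem_up _)
  | coe v =>
    by_cases hv : v = cpt
    · rw [hv, Jh_cpt, coe_mem_up]
      refine ⟨fun _ => ?_, fun _ => infty_mem_Lbar⟩
      simp [stdCircle, cpt]
    · rw [Jh_coe hv, coe_mem_Lbar, coe_mem_up, mem_axisY]
      have hn := nsqR_pos (sub_ne_zero.mpr hv)
      have e1 : (cpt + (2 : ℝ) • invf (v - cpt)).1 = 1 + 2 * ((v.1 - 1) / nsqR (v - cpt)) := rfl
      have e3 : (cpt + (2 : ℝ) • invf (v - cpt)).2.2 = 0 + 2 * ((v.2.2 - 0) / nsqR (v - cpt)) := rfl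
      have en : nsqR (v - cpt) = (v.1 - 1) ^ 2 + (v.2.1 - 0) ^ 2 + (v.2.2 - 0) ^ 2 := rfl
      rw [e1, e3]
      show _ ↔ v.1 ^ 2 + v.2.1 ^ 2 = 1 ∧ v.2.2 = 0
      have h1 : 1 + 2 * ((v.1 - 1) / nsqR (v - cpt)) = 0 ↔ nsqR (v - cpt) + 2 * (v.1 - 1) = 0 := by
        have : 1 + 2 * ((v.1 - 1) / nsqR (v - cpt)) =
            (nsqR (v - cpt) + 2 * (v.1 - 1)) / nsqR (v - cpt) := by
          field_simp
        rw [this, div_eq_zero_iff]
        simp [hn.ne']
      have h3 : 0 + 2 * ((v.2.2 - 0) / nsqR (v - cpt)) = 0 ↔ v.2.2 = 0 := by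
        rw [zero_add, sub_zero, mul_eq_zero, div_eq_zero_iff]
        simp [hn.ne']
      rw [h1, h3, en]
      constructor
      · rintro ⟨ha, hb⟩
        refine ⟨?_, hb⟩
        rw [hb] at ha
        linarith
      · rintro ⟨ha, hb⟩
        refine ⟨?_, hb⟩
        rw [hb]
        linarith

/-! ### U1 -/

theorem cellOfUnk : CellOfUnk := by
  rintro X q ⟨φ, hφ⟩ hq
  have hX : ∀ p : S3, ext3 φ p ∈ up stdCircle ↔ p ∈ up X := by
    intro p
    induction p using OnePoint.rec with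
    | infty =>
      rw [ext3_infty]
      exact ⟨fun h => absurd h (infty_notMem_up _), fun h => absurd h (infty_notMem_up _)⟩
    | coe v =>
      rw [ext3_coe, coe_mem_up, coe_mem_up, ← hφ]
      exact φ.injective.mem_set_image
  have hs : Jh (ext3 φ (q : S3)) ∈ Lbar := by
    rw [Jh_mem, hX, coe_mem_up]
    exact hq
  obtain ⟨h, hh, hinf⟩ := exists_move_line hs
  set Θ : S3 ≃ₜ S3 := ((ext3 φ).trans Jh).trans h with hΘ
  have hΘmem : ∀ p, Θ p ∈ Lbar ↔ p ∈ up X := by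
    intro p
    show h (Jh (ext3 φ p)) ∈ Lbar ↔ p ∈ up X
    rw [hh, Jh_mem, hX]
  have hΘq : Θ (q : S3) = OnePoint.infty := hinf
  refine ⟨fun x => Θ.symm (x : S3), ⟨?_, ?_⟩, ?_⟩
  · exact Θ.symm.isOpenEmbedding.comp OnePoint.isOpenEmbedding_coe
  · intro x
    rw [← hΘmem, Θ.apply_symm_apply, coe_mem_Lbar]
  · ext p
    simp only [mem_range, mem_compl_iff, mem_singleton_iff]
    constructor
    · rintro ⟨x, rfl⟩ h1
      have h2 : (x : S3) = Θ (q : S3) := by rw [← h1, Θ.apply_symm_apply]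
      rw [hΘq] at h2
      exact OnePoint.coe_ne_infty x h2
    · intro hp
      have h1 : Θ p ≠ OnePoint.infty := by
        intro h2
        apply hp
        exact Θ.injective (h2.trans hΘq.symm)
      obtain ⟨x, hx⟩ := OnePoint.ne_infty_iff_exists.mp h1
      exact ⟨x, by rw [hx, Θ.symm_apply_apply]⟩

/-! ### U2 -/

/-- a homeomorphism of the sphere fixing infinity restricts to a homeomorphism of space -/
theorem exists_restrict (Θ : S3 ≃ₜ S3) (h : Θ OnePoint.infty = OnePoint.infty) :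
    ∃ φ : R3 ≃ₜ R3, ∀ x : R3, Θ (x : S3) = (φ x : S3) := by
  have hsymm : Θ.symm OnePoint.infty = OnePoint.infty := by
    rw [← h, Θ.symm_apply_apply, h]
  have h1 : ∀ x : R3, ∃ y : R3, Θ (x : S3) = (y : S3) := by
    intro x
    have h2 : Θ (x : S3) ≠ OnePoint.infty := by
      intro h3
      exact OnePoint.coe_ne_infty x (Θ.injective (h3.trans h.symm))
    obtain ⟨y, hy⟩ := OnePoint.ne_infty_iff_exists.mp h2
    exact ⟨y, hy.symm⟩
  have h2 : ∀ x : R3, ∃ y : R3, Θ.symm (x : S3) = (y : S3) := by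
    intro x
    have h2 : Θ.symm (x : S3) ≠ OnePoint.infty := by
      intro h3
      exact OnePoint.coe_ne_infty x (Θ.symm.injective (h3.trans hsymm.symm))
    obtain ⟨y, hy⟩ := OnePoint.ne_infty_iff_exists.mp h2
    exact ⟨y, hy.symm⟩
  choose f hf using h1
  choose g hg using h2
  have hcont : ∀ (Ξ : S3 ≃ₜ S3) (k : R3 → R3), (∀ x : R3, Ξ (x : S3) = (k x : S3)) →
      Continuous k := by
    intro Ξ k hk
    rw [OnePoint.isOpenEmbedding_coe.isEmbedding.continuous_iff]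
    have : ((↑) ∘ k : R3 → S3) = fun x : R3 => Ξ (x : S3) := by
      funext x
      exact (hk x).symm
    rw [this]
    exact Ξ.continuous.comp OnePoint.continuous_coe
  refine ⟨⟨⟨f, g, ?_, ?_⟩, hcont Θ f hf, hcont Θ.symm g hg⟩, hf⟩
  · intro x
    apply OnePoint.coe_injective
    rw [← hg, ← hf, Θ.symm_apply_apply]
  · intro x
    apply OnePoint.coe_injective
    rw [← hf, ← hg, Θ.apply_symm_apply]

theorem unkOfCell : UnkOfCell := by
  rintro X p w hp ⟨hw, hmem⟩ hrange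
  set Φ : S3 ≃ₜ S3 := OnePoint.equivOfIsEmbeddingOfRangeEq (p : S3) w hw.isEmbedding hrange
    with hΦ
  have hΦc : ∀ x : R3, Φ (x : S3) = w x := fun x => by
    rw [hΦ, OnePoint.equivOfIsEmbeddingOfRangeEq_apply_coe]
  have hΦi : Φ OnePoint.infty = (p : S3) := by
    rw [hΦ, OnePoint.equivOfIsEmbeddingOfRangeEq_apply_infty]
  have hΦmem : ∀ s : S3, Φ s ∈ up X ↔ s ∈ Lbar := by
    intro s
    induction s using OnePoint.rec with
    | infty =>
      rw [hΦi, coe_mem_up]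
      exact ⟨fun _ => infty_mem_Lbar, fun _ => hp⟩
    | coe v =>
      rw [hΦc, hmem, coe_mem_Lbar]
  have hΨ : ∀ s : S3, Φ.symm s ∈ Lbar ↔ s ∈ up X := by
    intro s
    rw [← hΦmem, Φ.apply_symm_apply]
  have hoff : Φ.symm OnePoint.infty ∉ Lbar := by
    rw [hΨ]
    exact infty_notMem_up X
  obtain ⟨h, hh, hc⟩ := exists_move_off hoff
  set Θ : S3 ≃ₜ S3 := (Φ.symm.trans h).trans Jh.symm with hΘ
  have hΘi : Θ OnePoint.infty = OnePoint.infty := by
    show Jh.symm (h (Φ.symm OnePoint.infty)) = _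
    rw [hc, ← Jh_infty, Jh.symm_apply_apply]
  have hΘmem : ∀ s : S3, Θ s ∈ up stdCircle ↔ s ∈ up X := by
    intro s
    show Jh.symm (h (Φ.symm s)) ∈ up stdCircle ↔ s ∈ up X
    rw [← Jh_mem, Jh.apply_symm_apply, hh, hΨ]
  obtain ⟨φ, hφ⟩ := exists_restrict Θ hΘi
  refine ⟨φ, ?_⟩
  have key : ∀ x : R3, φ x ∈ stdCircle ↔ x ∈ X := by
    intro x
    rw [← coe_mem_up, ← hφ, hΘmem, coe_mem_up]
  ext y
  constructor
  · rintro ⟨x, hx, rfl⟩
    exact (key x).mpr hx
  · intro hy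
    refine ⟨φ.symm y, ?_, φ.apply_symm_apply y⟩
    rw [← key, φ.apply_symm_apply]
    exact hy

end Pool.Agent.LK
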