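import Pool.Agent.MP_aea6d5_co.Brown
import Pool.Agent.MP_aea6d5_co.Sphere

/-! Enlarging a puncture to a ball. -/

set_option autoImplicit false
set_option linter.unusedSectionVars false

open Set Topology Filter

namespace Pool.Agent.LK

/-- Transport of a cell by a pair of mutually inverse maps defined on open sets. -/
lemma PCell.map {L : Submodule ℝ R3} {K K' : Set S3} {w : R3 → S3} (hw : PCell L K w)
    {O' : Set S3} (hO' : IsOpen O') {F G : S3 → S3} (hF : ∀ m ∈ range w, ContinuousAt F m)
    (hG : ∀ m ∈ O', ContinuousAt G m) (hFm : ∀ m ∈ range w, F m ∈ O')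
    (hGm : ∀ m ∈ O', G m ∈ range w) (hGF : ∀ m ∈ range w, G (F m) = m)
    (hFG : ∀ m ∈ O', F (G m) = m) (hK : ∀ m ∈ range w, (F m ∈ K' ↔ m ∈ K)) :
    PCell L K' (F ∘ w) ∧ range (F ∘ w) = O' := by
  refine ⟨⟨IsOpenEmbedding.of_continuous_injective_isOpenMap ?_ ?_ ?_, ?_⟩, ?_⟩
  · rw [continuous_iff_continuousAt]
    intro x
    exact ContinuousAt.comp (hF _ (mem_range_self x)) hw.1.continuous.continuousAt
  · intro a b hab
    have h1 : G (F (w a)) = G (F (w b)) := congrArg G hab
    rw [hGF _ (mem_range_self a), hGF _ (mem_range_self b)] at h1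
    exact hw.1.injective h1
  · intro U hU
    have h1 : (F ∘ w) '' U = O' ∩ G ⁻¹' (w '' U) := by
      ext m
      constructor
      · rintro ⟨x, hx, rfl⟩
        refine ⟨hFm _ (mem_range_self x), ?_⟩
        rw [mem_preimage, Function.comp, hGF _ (mem_range_self x)]
        exact mem_image_of_mem w hx
      · rintro ⟨hm, x, hx, hxm⟩
        refine ⟨x, hx, ?_⟩
        rw [Function.comp, hxm, hFG m hm]
    rw [h1]
    exact ContinuousOn.isOpen_inter_preimage (fun m hm => (hG m hm).continuousWithinAt) hO'
      (hw.1.isOpenMap U hU)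
  · intro x
    exact (hK _ (mem_range_self x)).trans (hw.2 x)
  · apply Subset.antisymm
    · rintro _ ⟨x, rfl⟩
      exact hFm _ (mem_range_self x)
    · intro m hm
      obtain ⟨x, hx⟩ := hGm m hm
      exact ⟨x, by rw [Function.comp, hx, hFG m hm]⟩

/-- The map of the sphere which fixes infinity and scales radially about `q`. -/
noncomputable def scal (q : R3) (c : ℝ → ℝ) : S3 → S3 := fun m =>
  OnePoint.elim m OnePoint.infty (fun v : R3 => ((q + c ‖v - q‖ • (v - q) : R3) : S3))

lemma scal_infty (q : R3) (c : ℝ → ℝ) : scal q c OnePoint.infty = OnePoint.infty := rfl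

lemma scal_coe (q : R3) (c : ℝ → ℝ) (v : R3) :
    scal q c (v : S3) = ((q + c ‖v - q‖ • (v - q) : R3) : S3) := rfl

lemma isOpen_compl_up_ball (q : R3) (R : ℝ) : IsOpen (up (Metric.closedBall q R))ᶜ := by
  exact isOpen_compl_iff.mpr ((isCompact_closedBall q R).image OnePoint.continuous_coe).isClosed

lemma continuousAt_scal {q : R3} {c : ℝ → ℝ} {R' : ℝ} (hc' : ∀ t, R' ≤ t → c t = 1)
    {m : S3} (hm : ∀ v : R3, m = (v : S3) → ContinuousAt c ‖v - q‖) :
    ContinuousAt (scal q c) m := by
  induction m using OnePoint.rec with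
  | infty =>
    have h1 : (up (Metric.closedBall q R'))ᶜ ∈ 𝓝 (OnePoint.infty : S3) :=
      (isOpen_compl_up_ball q R').mem_nhds (infty_notMem_up _)
    have h2 : scal q c =ᶠ[𝓝 (OnePoint.infty : S3)] id := by
      filter_upwards [h1] with m hm
      induction m using OnePoint.rec with
      | infty => rfl
      | coe v =>
        have h3 : R' ≤ ‖v - q‖ := by
          by_contra hcon
          push Not at hcon
          exact hm (coe_mem_up.mpr (by rw [Metric.mem_closedBall, dist_eq_norm]; exact hcon.le))
        rw [scal_coe, hc' _ h3, one_smul]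
        simp
    exact continuousAt_id.congr h2.symm
  | coe v =>
    rw [← OnePoint.isOpenEmbedding_coe.continuousAt_iff]
    have h1 : (scal q c ∘ ((↑) : R3 → S3)) = ((↑) : R3 → S3) ∘
        fun v => q + c ‖v - q‖ • (v - q) := rfl
    rw [h1]
    apply OnePoint.continuous_coe.continuousAt.comp
    have h2 : ContinuousAt (fun v : R3 => ‖v - q‖) v := by fun_prop
    have h3 : ContinuousAt (fun v : R3 => c ‖v - q‖) v :=
      ContinuousAt.comp (f := fun v : R3 => ‖v - q‖) (hm v rfl) h2
    exact continuousAt_const.add (h3.smul (by fun_prop))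

/-- The radial maps between the complement of a point and the complement of a ball. -/
theorem radial_maps {X X' : Set R3} {q : R3} {R R' : ℝ} (hR : 0 < R) (hRR' : R < R')
    (hcone : ∀ v : R3, v ≠ 0 → ‖v‖ < R' → ∀ c : ℝ, 0 < c → ‖c • v‖ < R' →
      (q + v ∈ X → q + c • v ∈ X))
    (hXX' : ∀ p : R3, R < ‖p - q‖ → (p ∈ X' ↔ p ∈ X)) :
    ∃ F G : S3 → S3, (∀ m, m ≠ (q : S3) → ContinuousAt F m) ∧
      (∀ m, m ∉ up (Metric.closedBall q R) → ContinuousAt G m) ∧
      (∀ m, m ≠ (q : S3) → F m ∉ up (Metric.closedBall q R)) ∧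
      (∀ m, m ∉ up (Metric.closedBall q R) → G m ≠ (q : S3)) ∧
      (∀ m, m ≠ (q : S3) → G (F m) = m) ∧
      (∀ m, m ∉ up (Metric.closedBall q R) → F (G m) = m) ∧
      ∀ m, m ≠ (q : S3) → (F m ∈ up X' ↔ m ∈ up X) := by
  have hR' : 0 < R' := hR.trans hRR'
  set κ : ℝ := 1 - R / R' with hκ_def
  have hκ : 0 < κ := by
    rw [hκ_def, sub_pos, div_lt_one hR']
    exact hRR'
  have hκR : R + κ * R' = R' := by
    rw [hκ_def]; field_simp; ring
  set c : ℝ → ℝ := fun t => max 1 (R / t + κ) with hc_def
  set d : ℝ → ℝ := fun t => min 1 ((t - R) / (κ * t)) with hd_def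
  have hct : ∀ t, 0 < t → c t * t = max t (R + κ * t) := by
    intro t ht
    rw [hc_def]
    simp only
    rw [max_mul_of_nonneg _ _ ht.le, one_mul]
    congr 1
    field_simp
  have hdt : ∀ t, 0 < t → d t * t = min t ((t - R) / κ) := by
    intro t ht
    rw [hd_def]
    simp only
    rw [min_mul_of_nonneg _ _ ht.le, one_mul]
    congr 1
    field_simp
  have hc1 : ∀ t, R' ≤ t → c t = 1 := by
    intro t ht
    have ht0 : 0 < t := hR'.trans_le ht
    have h1 : R + κ * t ≤ t := by
      have : κ ≤ 1 := by
        rw [hκ_def]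
        have := div_pos hR hR'
        linarith
      nlinarith
    have h2 := hct t ht0
    rw [max_eq_left h1] at h2
    exact mul_right_cancel₀ ht0.ne' (by rw [h2, one_mul])
  have hd1 : ∀ t, R' ≤ t → d t = 1 := by
    intro t ht
    have ht0 : 0 < t := hR'.trans_le ht
    have h1 : t ≤ (t - R) / κ := by
      rw [le_div_iff₀ hκ]
      have : κ ≤ 1 := by
        rw [hκ_def]
        have := div_pos hR hR'
        linarith
      nlinarith
    have h2 := hdt t ht0
    rw [min_eq_left h1] at h2
    exact mul_right_cancel₀ ht0.ne' (by rw [h2, one_mul])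
  have hcpos : ∀ t, 0 < c t := fun t => lt_of_lt_of_le one_pos (le_max_left _ _)
  have hdpos : ∀ t, R < t → 0 < d t := by
    intro t ht
    have ht0 : 0 < t := hR.trans ht
    rw [hd_def]
    exact lt_min one_pos (div_pos (sub_pos.mpr ht) (mul_pos hκ ht0))
  have hcR : ∀ t, 0 < t → R < c t * t := by
    intro t ht
    rw [hct t ht]
    exact lt_of_lt_of_le (by nlinarith) (le_max_right _ _)
  have hcc : ∀ t, 0 < t → ContinuousAt c t := by
    intro t ht
    exact continuousAt_const.max ((continuousAt_const.div continuousAt_id ht.ne').add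
      continuousAt_const)
  have hdc : ∀ t, 0 < t → ContinuousAt d t := by
    intro t ht
    refine continuousAt_const.min ((continuousAt_id.sub continuousAt_const).div
      (continuousAt_const.mul continuousAt_id) ?_)
    exact (mul_pos hκ ht).ne'
  have hdc1 : ∀ t, 0 < t → d (c t * t) * c t = 1 := by
    intro t ht
    have h1 := hcR t ht
    have h2 : 0 < c t * t := hR.trans h1
    have h3 := hdt (c t * t) h2
    have h4 : min (c t * t) ((c t * t - R) / κ) = t := by
      rw [hct t ht]
      rcases le_total t R' with h | h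
      · have h5 : t ≤ R + κ * t := by
          have h6 : κ < 1 := by
            rw [hκ_def]
            have := div_pos hR hR'
            linarith
          nlinarith
        rw [max_eq_right h5]
        have h7 : (R + κ * t - R) / κ = t := by field_simp; ring
        rw [h7, min_eq_right h5]
      · have h5 : R + κ * t ≤ t := by
          have h6 : κ < 1 := by
            rw [hκ_def]
            have := div_pos hR hR'
            linarith
          nlinarith
        rw [max_eq_left h5]
        have h7 : t ≤ (t - R) / κ := by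
          rw [le_div_iff₀ hκ]
          linarith
        rw [min_eq_left h7]
    rw [h4] at h3
    have h5 : (d (c t * t) * c t) * t = 1 * t := by rw [one_mul, mul_assoc]; exact h3
    exact mul_right_cancel₀ ht.ne' h5
  have hcd1 : ∀ t, R < t → c (d t * t) * d t = 1 := by
    intro t ht
    have ht0 : 0 < t := hR.trans ht
    have h1 : 0 < d t * t := mul_pos (hdpos t ht) ht0
    have h2 := hct (d t * t) h1
    have h4 : max (d t * t) (R + κ * (d t * t)) = t := by
      rw [hdt t ht0]
      have h6 : κ < 1 := by
        rw [hκ_def]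
        have := div_pos hR hR'
        linarith
      rcases le_total t R' with h | h
      · have h5 : (t - R) / κ ≤ t := by
          rw [div_le_iff₀ hκ]
          nlinarith
        rw [min_eq_right h5]
        have h7 : R + κ * ((t - R) / κ) = t := by field_simp; ring
        rw [h7, max_eq_right h5]
      · have h5 : t ≤ (t - R) / κ := by
          rw [le_div_iff₀ hκ]
          nlinarith
        rw [min_eq_left h5]
        apply max_eq_left
        nlinarith
    rw [h4] at h2
    have h5 : (c (d t * t) * d t) * t = 1 * t := by rw [one_mul, mul_assoc]; exact h2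
    exact mul_right_cancel₀ ht0.ne' h5
  have hnorm : ∀ (a : ℝ → ℝ) (v : R3), 0 < a ‖v - q‖ →
      ‖(q + a ‖v - q‖ • (v - q)) - q‖ = a ‖v - q‖ * ‖v - q‖ := by
    intro a v ha
    rw [add_sub_cancel_left, norm_smul, Real.norm_of_nonneg ha.le]
  refine ⟨scal q c, scal q d, ?_, ?_, ?_, ?_, ?_, ?_, ?_⟩
  · intro m hm
    refine continuousAt_scal hc1 ?_
    rintro v rfl
    refine hcc _ (norm_pos_iff.mpr (sub_ne_zero.mpr ?_))
    rintro rfl
    exact hm rfl
  · intro m hm
    refine continuousAt_scal hd1 ?_
    rintro v rfl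
    refine hdc _ ?_
    by_contra hcon
    push Not at hcon
    apply hm
    rw [coe_mem_up, Metric.mem_closedBall, dist_eq_norm]
    exact hcon.trans hR.le
  · intro m hm
    induction m using OnePoint.rec with
    | infty => exact infty_notMem_up _
    | coe v =>
      have hv : 0 < ‖v - q‖ := by
        refine norm_pos_iff.mpr (sub_ne_zero.mpr ?_)
        rintro rfl
        exact hm rfl
      rw [scal_coe]
      intro hcon
      rw [coe_mem_up, Metric.mem_closedBall, dist_eq_norm, hnorm c v (hcpos _)] at hcon
      exact absurd (hcR _ hv) (not_lt.mpr hcon)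
  · intro m hm
    induction m using OnePoint.rec with
    | infty =>
      rw [scal_infty]
      exact fun h => absurd h (OnePoint.infty_ne_coe _)
    | coe v =>
      have hv : R < ‖v - q‖ := by
        by_contra hcon
        push Not at hcon
        exact hm (coe_mem_up.mpr (by rw [Metric.mem_closedBall, dist_eq_norm]; exact hcon))
      rw [scal_coe]
      intro hcon
      rw [OnePoint.coe_eq_coe] at hcon
      have h3 : d ‖v - q‖ • (v - q) = 0 := by
        simpa using hcon
      rcases smul_eq_zero.mp h3 with h4 | h4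
      · exact absurd h4 (hdpos _ hv).ne'
      · rw [h4, norm_zero] at hv
        linarith
  · intro m hm
    induction m using OnePoint.rec with
    | infty => rfl
    | coe v =>
      have hv : 0 < ‖v - q‖ := by
        refine norm_pos_iff.mpr (sub_ne_zero.mpr ?_)
        rintro rfl
        exact hm rfl
      rw [scal_coe, scal_coe, hnorm c v (hcpos _), add_sub_cancel_left, smul_smul, hdc1 _ hv,
        one_smul, add_sub_cancel]
  · intro m hm
    induction m using OnePoint.rec with
    | infty => rfl
    | coe v =>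
      have hv : R < ‖v - q‖ := by
        by_contra hcon
        push Not at hcon
        exact hm (coe_mem_up.mpr (by rw [Metric.mem_closedBall, dist_eq_norm]; exact hcon))
      rw [scal_coe, scal_coe, hnorm d v (hdpos _ hv), add_sub_cancel_left, smul_smul, hcd1 _ hv,
        one_smul, add_sub_cancel]
  · intro m hm
    induction m using OnePoint.rec with
    | infty =>
      rw [scal_infty]
      exact ⟨fun h => absurd h (infty_notMem_up _), fun h => absurd h (infty_notMem_up _)⟩
    | coe v =>
      have hv0 : v - q ≠ 0 := by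
        refine sub_ne_zero.mpr ?_
        rintro rfl
        exact hm rfl
      have hv : 0 < ‖v - q‖ := norm_pos_iff.mpr hv0
      rw [scal_coe, coe_mem_up, coe_mem_up, hXX' _ (by rw [hnorm c v (hcpos _)]; exact hcR _ hv)]
      rcases lt_or_ge ‖v - q‖ R' with h | h
      · have h6 : c ‖v - q‖ * ‖v - q‖ < R' := by
          rw [hct _ hv]
          refine max_lt h ?_
          rw [← hκR]
          nlinarith
        have h7 : ‖c ‖v - q‖ • (v - q)‖ < R' := by
          rw [norm_smul, Real.norm_of_nonneg (hcpos _).le]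
          exact h6
        constructor
        · intro h8
          have h9 := hcone (c ‖v - q‖ • (v - q)) (smul_ne_zero (hcpos _).ne' hv0) h7
            (c ‖v - q‖)⁻¹ (inv_pos.mpr (hcpos _)) (by
              rw [smul_smul, inv_mul_cancel₀ (hcpos _).ne', one_smul]; exact h) h8
          rw [smul_smul, inv_mul_cancel₀ (hcpos _).ne', one_smul] at h9
          simpa using h9
        · intro h8
          have h9 : q + (v - q) ∈ X := by simpa using h8
          exact hcone (v - q) hv0 h (c ‖v - q‖) (hcpos _) h7 h9
      · rw [hc1 _ h, one_smul, add_sub_cancel]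

/-- **Enlarging a puncture.** If `X` is conical about `q` in the ball of radius `R'` and agrees
with `X'` outside the ball of radius `R < R'` then a cell for `X` which is the complement of `q`
gives a cell for `X'` which is the complement of the closed ball of radius `R`. -/
theorem radial_cell {X X' : Set R3} {q : R3} {R R' : ℝ} (hR : 0 < R) (hRR' : R < R')
    (hcone : ∀ v : R3, v ≠ 0 → ‖v‖ < R' → ∀ c : ℝ, 0 < c → ‖c • v‖ < R' →
      (q + v ∈ X → q + c • v ∈ X))
    (hXX' : ∀ p : R3, R < ‖p - q‖ → (p ∈ X' ↔ p ∈ X)) {w : R3 → S3}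
    (hw : PCell axisY (up X) w) (hr : range w = {(q : S3)}ᶜ) :
    ∃ w' : R3 → S3, PCell axisY (up X') w' ∧ range w' = (up (Metric.closedBall q R))ᶜ := by
  obtain ⟨F, G, h1, h2, h3, h4, h5, h6, h7⟩ := radial_maps hR hRR' hcone hXX'
  have hm : ∀ m ∈ range w, m ≠ (q : S3) := by
    intro m hm
    rw [hr] at hm
    exact hm
  exact ⟨F ∘ w, hw.map (isOpen_compl_up_ball q R) (fun m h => h1 m (hm m h)) h2
    (fun m h => h3 m (hm m h)) (fun m h => by rw [hr]; exact h4 m h)
    (fun m h => h5 m (hm m h)) h6 (fun m h => h7 m (hm m h))⟩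

/-- **Shrinking a ball to a point.** The converse of `radial_cell`. -/
theorem radial_cell_rev {X X' : Set R3} {q : R3} {R R' : ℝ} (hR : 0 < R) (hRR' : R < R')
    (hcone : ∀ v : R3, v ≠ 0 → ‖v‖ < R' → ∀ c : ℝ, 0 < c → ‖c • v‖ < R' →
      (q + v ∈ X → q + c • v ∈ X))
    (hXX' : ∀ p : R3, R < ‖p - q‖ → (p ∈ X' ↔ p ∈ X)) {w : R3 → S3}
    (hw : PCell axisY (up X') w) (hr : range w = (up (Metric.closedBall q R))ᶜ) :
    ∃ w' : R3 → S3, PCell axisY (up X) w' ∧ range w' = {(q : S3)}ᶜ := by
  obtain ⟨F, G, h1, h2, h3, h4, h5, h6, h7⟩ := radial_maps hR hRR' hcone hXX'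
  have hm : ∀ m ∈ range w, m ∉ up (Metric.closedBall q R) := by
    intro m hm
    rw [hr] at hm
    exact hm
  refine ⟨G ∘ w, hw.map (isOpen_compl_singleton) (F := G) (G := F)
    (fun m h => h2 m (hm m h)) h1 (fun m h => h4 m (hm m h))
    (fun m h => by rw [hr]; exact h3 m h) (fun m h => h6 m (hm m h)) h5 (fun m h => ?_)⟩
  rw [← h7 _ (h4 m (hm m h)), h6 m (hm m h)]

end Pool.Agent.LK
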