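import Pool.Agent.MP_aea6d5_co.CellRad

/-! The map of the sphere which collapses a ball and the complement of a larger ball. -/

set_option autoImplicit false

open Set Topology Filter

namespace Pool.Agent.LK

/-- The coefficient of the collapse. -/
noncomputable def cco (R R₁ t : ℝ) : ℝ := max 0 (t - R) / ((R₁ - t) * t)

/-- The collapse. -/
noncomputable def coll (q : R3) (R R₁ : ℝ) (m : S3) : S3 :=
  OnePoint.elim m OnePoint.infty (fun v : R3 => if ‖v - q‖ < R₁ then
    ((q + cco R R₁ ‖v - q‖ • (v - q) : R3) : S3) else OnePoint.infty)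

lemma coll_infty (q : R3) (R R₁ : ℝ) : coll q R R₁ OnePoint.infty = OnePoint.infty := rfl

lemma coll_lt {q : R3} {R R₁ : ℝ} {v : R3} (h : ‖v - q‖ < R₁) :
    coll q R R₁ (v : S3) = ((q + cco R R₁ ‖v - q‖ • (v - q) : R3) : S3) := if_pos h

lemma coll_ge {q : R3} {R R₁ : ℝ} {v : R3} (h : R₁ ≤ ‖v - q‖) :
    coll q R R₁ (v : S3) = OnePoint.infty := if_neg (not_lt.mpr h)

lemma cco_mul {R R₁ t : ℝ} (h0 : 0 < t) (h1 : t < R₁) :
    cco R R₁ t * t = max 0 (t - R) / (R₁ - t) := by
  have h2 : 0 < R₁ - t := sub_pos.mpr h1
  unfold cco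
  field_simp

lemma cco_le {R R₁ t : ℝ} (h : t ≤ R) : cco R R₁ t = 0 := by
  unfold cco
  rw [max_eq_left (by linarith), zero_div]

lemma cco_pos {R R₁ t : ℝ} (hR : 0 < R) (h : R < t) (h1 : t < R₁) : 0 < cco R R₁ t := by
  unfold cco
  rw [max_eq_right (by linarith)]
  exact div_pos (by linarith) (mul_pos (by linarith) (by linarith))

lemma norm_coll {q v : R3} {R R₁ : ℝ} (hR : 0 < R) (h : R < ‖v - q‖) (h1 : ‖v - q‖ < R₁) :
    ‖cco R R₁ ‖v - q‖ • (v - q)‖ = (‖v - q‖ - R) / (R₁ - ‖v - q‖) := by
  rw [norm_smul, Real.norm_of_nonneg (cco_pos hR h h1).le, cco_mul (hR.trans h) h1,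
    max_eq_right (by linarith)]

lemma isOpen_up_compl_closedBall (q : R3) (r : ℝ) : IsOpen (up (Metric.closedBall q r))ᶜ :=
  isOpen_compl_iff.mpr ((isCompact_closedBall q r).image OnePoint.continuous_coe).isClosed

lemma continuous_coll {q : R3} {R R₁ : ℝ} (hR : 0 < R) (hRR₁ : R < R₁) :
    Continuous (coll q R R₁) := by
  rw [continuous_iff_continuousAt]
  intro m
  -- far away the map is constant
  have hfar : ∀ m ∈ (up (Metric.closedBall q R₁))ᶜ, coll q R R₁ m = OnePoint.infty := by
    intro m hm
    induction m using OnePoint.rec with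
    | infty => rfl
    | coe v =>
      apply coll_ge
      rw [mem_compl_iff, coe_mem_up, Metric.mem_closedBall, dist_eq_norm, not_le] at hm
      exact hm.le
  by_cases hm : m ∈ (up (Metric.closedBall q R₁))ᶜ
  · have h1 : coll q R R₁ =ᶠ[𝓝 m] fun _ => OnePoint.infty := by
      filter_upwards [(isOpen_up_compl_closedBall q R₁).mem_nhds hm] with y hy
      exact hfar y hy
    exact continuousAt_const.congr h1.symm
  · rw [mem_compl_iff, not_not] at hm
    obtain ⟨v, hv, rfl⟩ := hm
    rw [Metric.mem_closedBall, dist_eq_norm] at hv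
    rw [← OnePoint.isOpenEmbedding_coe.continuousAt_iff]
    rcases hv.lt_or_eq with hv | hv
    · -- inside
      have h1 : coll q R R₁ ∘ ((↑) : R3 → S3) =ᶠ[𝓝 v]
          ((↑) : R3 → S3) ∘ fun v => q + cco R R₁ ‖v - q‖ • (v - q) := by
        have : {y : R3 | ‖y - q‖ < R₁} ∈ 𝓝 v :=
          (isOpen_lt (by fun_prop) continuous_const).mem_nhds hv
        filter_upwards [this] with y hy
        exact coll_lt hy
      refine ContinuousAt.congr ?_ h1.symm
      apply OnePoint.continuous_coe.continuousAt.comp
      by_cases hvR : ‖v - q‖ < R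
      · have h2 : (fun v : R3 => q + cco R R₁ ‖v - q‖ • (v - q)) =ᶠ[𝓝 v] fun _ => q := by
          have : {y : R3 | ‖y - q‖ < R} ∈ 𝓝 v :=
            (isOpen_lt (by fun_prop) continuous_const).mem_nhds hvR
          filter_upwards [this] with y hy
          rw [cco_le (le_of_lt hy), zero_smul, add_zero]
        exact continuousAt_const.congr h2.symm
      · push Not at hvR
        have h0 : 0 < ‖v - q‖ := hR.trans_le hvR
        have h3 : ContinuousAt (fun y : R3 => cco R R₁ ‖y - q‖) v := by
          unfold cco
          refine ContinuousAt.div (by fun_prop) (by fun_prop) ?_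
          exact (mul_pos (sub_pos.mpr hv) h0).ne'
        exact continuousAt_const.add (h3.smul (by fun_prop))
    · -- the outer sphere
      rw [ContinuousAt, Function.comp, coll_ge hv.ge, Tendsto, OnePoint.le_nhds_infty]
      intro s _ hs
      obtain ⟨ρ, hρ⟩ := (hs.image (f := fun y : R3 => y - q) (by fun_prop)).isBounded.exists_norm_le
      have h1 : {y : R3 | ρ * (R₁ - ‖y - q‖) < ‖y - q‖ - R} ∩ {y : R3 | R < ‖y - q‖} ∈ 𝓝 v := by
        apply inter_mem
        · refine (isOpen_lt (by fun_prop) (by fun_prop)).mem_nhds ?_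
          change ρ * (R₁ - ‖v - q‖) < ‖v - q‖ - R
          rw [hv]
          linarith
        · refine (isOpen_lt (by fun_prop) (by fun_prop)).mem_nhds ?_
          change R < ‖v - q‖
          rw [hv]
          exact hRR₁
      rw [mem_map]
      filter_upwards [h1] with y hy
      obtain ⟨hy1, hy2⟩ := hy
      change ρ * (R₁ - ‖y - q‖) < ‖y - q‖ - R at hy1
      change R < ‖y - q‖ at hy2
      rcases lt_or_ge ‖y - q‖ R₁ with h2 | h2
      · left
        refine ⟨q + cco R R₁ ‖y - q‖ • (y - q), ?_, (coll_lt h2).symm⟩
        intro hz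
        have h3 := hρ _ (mem_image_of_mem _ hz)
        simp only [add_sub_cancel_left] at h3
        rw [norm_coll hR hy2 h2, div_le_iff₀ (sub_pos.mpr h2)] at h3
        linarith
      · right
        exact coll_ge h2

theorem exists_collapse (q : R3) {R R₁ : ℝ} (hR : 0 < R) (hRR₁ : R < R₁) :
    ∃ f : S3 → S3, Continuous f ∧ Function.Surjective f ∧
      (∀ m, f m = (q : S3) ↔ m ∈ up (Metric.closedBall q R)) ∧
      (∀ m, f m = OnePoint.infty ↔ m ∉ up (Metric.ball q R₁)) ∧
      (∀ m m', m ∉ up (Metric.closedBall q R) → m ∈ up (Metric.ball q R₁) → f m = f m' →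
        m = m') ∧
      (∀ u : R3, R < ‖u‖ → ‖u‖ < R₁ →
        ∃ c : ℝ, 0 < c ∧ f ((q + u : R3) : S3) = ((q + c • u : R3) : S3)) := by
  have hR₁ : 0 < R₁ := hR.trans hRR₁
  have hq : ∀ m, coll q R R₁ m = (q : S3) ↔ m ∈ up (Metric.closedBall q R) := by
    intro m
    induction m using OnePoint.rec with
    | infty =>
      rw [coll_infty]
      exact ⟨fun h => absurd h (OnePoint.infty_ne_coe _), fun h => absurd h (infty_notMem_up _)⟩
    | coe v =>
      rw [coe_mem_up, Metric.mem_closedBall, dist_eq_norm]
      constructor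
      · intro h
        by_contra hcon
        push Not at hcon
        rcases lt_or_ge ‖v - q‖ R₁ with h2 | h2
        · rw [coll_lt h2, OnePoint.coe_eq_coe] at h
          have h3 : cco R R₁ ‖v - q‖ • (v - q) = 0 := by simpa using h
          rcases smul_eq_zero.mp h3 with h4 | h4
          · exact absurd h4 (cco_pos hR hcon h2).ne'
          · rw [h4, norm_zero] at hcon
            linarith
        · rw [coll_ge h2] at h
          exact OnePoint.infty_ne_coe _ h
      · intro h
        rw [coll_lt (h.trans_lt hRR₁), cco_le h, zero_smul, add_zero]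
  have hi : ∀ m, coll q R R₁ m = OnePoint.infty ↔ m ∉ up (Metric.ball q R₁) := by
    intro m
    induction m using OnePoint.rec with
    | infty => exact ⟨fun _ => infty_notMem_up _, fun _ => rfl⟩
    | coe v =>
      rw [coe_mem_up, Metric.mem_ball, dist_eq_norm]
      constructor
      · intro h h2
        rw [coll_lt h2] at h
        exact OnePoint.coe_ne_infty _ h
      · intro h
        exact coll_ge (not_lt.mp h)
  refine ⟨coll q R R₁, continuous_coll hR hRR₁, ?_, hq, hi, ?_, ?_⟩
  · -- surjective
    intro y
    induction y using OnePoint.rec with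
    | infty => exact ⟨OnePoint.infty, rfl⟩
    | coe z =>
      by_cases hz : z = q
      · refine ⟨(q : S3), ?_⟩
        rw [hz, hq, coe_mem_up]
        exact Metric.mem_closedBall_self hR.le
      · set r := ‖z - q‖ with hr
        have hr0 : 0 < r := norm_pos_iff.mpr (sub_ne_zero.mpr hz)
        set t := (R + r * R₁) / (1 + r) with ht
        have h1r : 0 < 1 + r := by linarith
        have htR : R < t := by
          rw [ht, lt_div_iff₀ h1r]
          nlinarith
        have htR₁ : t < R₁ := by
          rw [ht, div_lt_iff₀ h1r]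
          nlinarith
        have ht0 : 0 < t := hR.trans htR
        have hn : ‖(q + (t / r) • (z - q)) - q‖ = t := by
          rw [add_sub_cancel_left, norm_smul, Real.norm_of_nonneg (div_pos ht0 hr0).le, ← hr]
          field_simp
        refine ⟨((q + (t / r) • (z - q) : R3) : S3), ?_⟩
        rw [coll_lt (by rw [hn]; exact htR₁), hn, add_sub_cancel_left, smul_smul]
        have h5 : cco R R₁ t * (t / r) = 1 := by
          rw [← mul_div_assoc, cco_mul ht0 htR₁, max_eq_right (by linarith)]
          have h6 : t - R = r * (R₁ - t) := by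
            rw [ht]
            field_simp
            ring
          rw [h6]
          have h7 : 0 < R₁ - t := by linarith
          field_simp
        rw [h5, one_smul, add_sub_cancel]
  · -- injective
    intro m m' h1 h2 h3
    induction m using OnePoint.rec with
    | infty => exact absurd h2 (infty_notMem_up _)
    | coe v =>
      rw [coe_mem_up, Metric.mem_closedBall, dist_eq_norm, not_le] at h1
      rw [coe_mem_up, Metric.mem_ball, dist_eq_norm] at h2
      induction m' using OnePoint.rec with
      | infty =>
        rw [coll_lt h2, coll_infty] at h3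
        exact absurd h3 (OnePoint.coe_ne_infty _)
      | coe v' =>
        rcases lt_or_ge ‖v' - q‖ R₁ with h5 | h5
        · have h6 : R < ‖v' - q‖ := by
            by_contra hcon
            push Not at hcon
            have h7 : coll q R R₁ (v' : S3) = (q : S3) := by
              rw [hq, coe_mem_up, Metric.mem_closedBall, dist_eq_norm]
              exact hcon
            rw [h7, hq, coe_mem_up, Metric.mem_closedBall, dist_eq_norm] at h3
            linarith
          rw [coll_lt h2, coll_lt h5, OnePoint.coe_eq_coe, add_right_inj] at h3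
          have h8 := congrArg norm h3
          rw [norm_coll hR h1 h2, norm_coll hR h6 h5,
            div_eq_div_iff (sub_pos.mpr h2).ne' (sub_pos.mpr h5).ne'] at h8
          have h9 : ‖v - q‖ = ‖v' - q‖ := by
            have h10 : (‖v - q‖ - ‖v' - q‖) * (R₁ - R) = 0 := by linarith
            rcases mul_eq_zero.mp h10 with h11 | h11
            · linarith
            · linarith
          rw [h9] at h3
          have h12 := smul_right_injective R3 (cco_pos hR h6 h5).ne' h3
          have h13 : v = v' := by
            have := congrArg (· + q) h12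
            simpa using this
          rw [h13]
        · rw [coll_lt h2, coll_ge h5] at h3
          exact absurd h3 (OnePoint.coe_ne_infty _)
  · intro u hu hu'
    refine ⟨cco R R₁ ‖u‖, cco_pos hR hu hu', ?_⟩
    have h1 : q + u - q = u := add_sub_cancel_left _ _
    rw [coll_lt (by rw [h1]; exact hu'), h1]

end Pool.Agent.LK
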