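import Pool.Agent.MP_aea6d5_co.JoinAsm

/-! Cut uniqueness: all cuts of a polygon into two parts of given sizes are close together. -/

set_option autoImplicit false

namespace Pool.Agent.LK

open Relation

/-- The four vertices of the vertical unit square at `a`. -/
def Sq (a u : P3) : Prop := u = a ∨ u = a + (1, 0, 0) ∨ u = a + (0, 0, 1) ∨
  u = a + (1, 0, 0) + (0, 0, 1)

theorem Sq.box {a u : P3} (h : Sq a u) : Box 1 (u - a) := by
  rcases h with rfl | rfl | rfl | rfl
  · simp [Box]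
  · simp [Box]
  · simp [Box]
  · have : a + (1, 0, 0) + (0, 0, 1) - a = (1, 0, 1) := by
      rw [add_assoc, add_sub_cancel_left]; simp
    rw [this]; simp [Box]

theorem Sq.box2 {a u v : P3} (h : Sq a u) (h' : Sq a v) : Box 1 (u - v) := by
  rcases h with rfl | rfl | rfl | rfl <;> rcases h' with rfl | rfl | rfl | rfl <;> simp [Box]

/-- `X` is one of the two parts of the cut of `R` at `a`. -/
structure Part (R X : Finset (Sym2 P3)) (a f1 f2 : P3) : Prop where
  poly : IsPolygon X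
  s1 : Sq a f1
  s2 : Sq a f2
  edge : s(f1, f2) ∈ X
  sub : ∀ u v, s(u, v) ∈ X → s(u, v) ≠ s(f1, f2) → s(u, v) ∈ R
  back : ∀ u v, s(u, v) ∈ R → u ∈ verts X → s(u, v) ∈ X ∨ (Sq a u ∧ Sq a v)

/-- `R` is the stacked join of `E` and `F` at `a`, and `E` and `F` are not close to each other
except near `a`. -/
structure IsCut (R E F : Finset (Sym2 P3)) (a : P3) (r : ℤ) : Prop where
  pE : IsPolygon E
  pF : IsPolygon F
  below : Below E F
  eE : s(a, a + (1, 0, 0)) ∈ E
  eF : s(a + (0, 0, 1), a + (0, 0, 1) + (1, 0, 0)) ∈ F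
  R_eq : R = joinZ E F a.1 a.2.1 a.2.2
  sep : ∀ u ∈ verts E, ∀ v ∈ verts F, Box 1 (u - v) → Box r (u - a) ∧ Box r (v - a)

theorem mem_joinZ' {E F : Finset (Sym2 P3)} {a : P3} {f : Sym2 P3} :
    f ∈ joinZ E F a.1 a.2.1 a.2.2 ↔ (f ∈ E ∧ f ≠ s(a, a + (1, 0, 0))) ∨
      (f ∈ F ∧ f ≠ s(a + (0, 0, 1), a + (1, 0, 0) + (0, 0, 1))) ∨ f = s(a, a + (0, 0, 1)) ∨
      f = s(a + (1, 0, 0), a + (1, 0, 0) + (0, 0, 1)) := by
  have e1 : (a.1 + 1, a.2.1, a.2.2) = a + (1, 0, 0) := by
    refine Prod.ext ?_ (Prod.ext ?_ ?_) <;> simp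
  have e2 : (a.1, a.2.1, a.2.2 + 1) = a + (0, 0, 1) := by
    refine Prod.ext ?_ (Prod.ext ?_ ?_) <;> simp
  have e3 : (a.1 + 1, a.2.1, a.2.2 + 1) = a + (1, 0, 0) + (0, 0, 1) := by
    refine Prod.ext ?_ (Prod.ext ?_ ?_) <;> simp
  have e0 : (a.1, a.2.1, a.2.2) = a := rfl
  rw [mem_joinZ, e1, e2, e3, e0]

theorem Below.disj {E F : Finset (Sym2 P3)} (h : Below E F) {u : P3} (hu : u ∈ verts E)
    (hu' : u ∈ verts F) : False := lt_irrefl _ (h u hu u hu' rfl rfl)

theorem IsCut.partE {R E F : Finset (Sym2 P3)} {a : P3} {r : ℤ} (h : IsCut R E F a r) :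
    Part R E a a (a + (1, 0, 0)) := by
  refine ⟨h.pE, Or.inl rfl, Or.inr (Or.inl rfl), h.eE, ?_, ?_⟩
  · intro u v huv hne
    rw [h.R_eq, mem_joinZ']
    exact Or.inl ⟨huv, hne⟩
  · intro u v huv hu
    rw [h.R_eq, mem_joinZ'] at huv
    rcases huv with ⟨h1, -⟩ | ⟨h1, -⟩ | h1 | h1
    · exact Or.inl h1
    · exact (h.below.disj hu (left_mem_verts h1)).elim
    · rw [Sym2.eq_iff] at h1
      right
      rcases h1 with ⟨rfl, rfl⟩ | ⟨rfl, rfl⟩ <;> simp [Sq]
    · rw [Sym2.eq_iff] at h1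
      right
      rcases h1 with ⟨rfl, rfl⟩ | ⟨rfl, rfl⟩ <;> simp [Sq]

theorem IsCut.partF {R E F : Finset (Sym2 P3)} {a : P3} {r : ℤ} (h : IsCut R E F a r) :
    Part R F a (a + (0, 0, 1)) (a + (1, 0, 0) + (0, 0, 1)) := by
  refine ⟨h.pF, Or.inr (Or.inr (Or.inl rfl)), Or.inr (Or.inr (Or.inr rfl)), ?_, ?_, ?_⟩
  · have := h.eF
    rwa [add_right_comm] at this
  · intro u v huv hne
    rw [h.R_eq, mem_joinZ']
    exact Or.inr (Or.inl ⟨huv, hne⟩)
  · intro u v huv hu
    rw [h.R_eq, mem_joinZ'] at huv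
    rcases huv with ⟨h1, -⟩ | ⟨h1, -⟩ | h1 | h1
    · exact (h.below.disj (left_mem_verts h1) hu).elim
    · exact Or.inl h1
    · rw [Sym2.eq_iff] at h1
      right
      rcases h1 with ⟨rfl, rfl⟩ | ⟨rfl, rfl⟩ <;> simp [Sq]
    · rw [Sym2.eq_iff] at h1
      right
      rcases h1 with ⟨rfl, rfl⟩ | ⟨rfl, rfl⟩ <;> simp [Sq]

theorem IsCut.verts_R {R E F : Finset (Sym2 P3)} {a : P3} {r : ℤ} (h : IsCut R E F a r) {u : P3}
    (hu : u ∈ verts R) : u ∈ verts E ∨ u ∈ verts F := by
  obtain ⟨v, huv⟩ := hu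
  have eF := h.eF
  rw [add_right_comm] at eF
  rw [h.R_eq, mem_joinZ'] at huv
  rcases huv with ⟨h1, -⟩ | ⟨h1, -⟩ | h1 | h1
  · exact Or.inl (left_mem_verts h1)
  · exact Or.inr (left_mem_verts h1)
  · rw [Sym2.eq_iff] at h1
    rcases h1 with ⟨rfl, rfl⟩ | ⟨rfl, rfl⟩
    · exact Or.inl (left_mem_verts h.eE)
    · exact Or.inr (left_mem_verts h.eF)
  · rw [Sym2.eq_iff] at h1
    rcases h1 with ⟨rfl, rfl⟩ | ⟨rfl, rfl⟩
    · exact Or.inl (right_mem_verts h.eE)
    · exact Or.inr (right_mem_verts eF)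

theorem IsCut.sq_mem {R E F : Finset (Sym2 P3)} {a : P3} {r : ℤ} (h : IsCut R E F a r) {u : P3}
    (hu : Sq a u) : u ∈ verts R := by
  have h1 : s(a, a + (0, 0, 1)) ∈ R := by rw [h.R_eq, mem_joinZ']; tauto
  have h2 : s(a + (1, 0, 0), a + (1, 0, 0) + (0, 0, 1)) ∈ R := by
    rw [h.R_eq, mem_joinZ']; tauto
  rcases hu with rfl | rfl | rfl | rfl
  · exact left_mem_verts h1
  · exact left_mem_verts h2
  · exact right_mem_verts h1
  · exact right_mem_verts h2

/-- If `b` is a far cut, its square lies entirely in one of the parts. -/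
theorem IsCut.dich {R E F : Finset (Sym2 P3)} {a b : P3} {r : ℤ} (h : IsCut R E F a r)
    (hb : ∀ u, Sq b u → u ∈ verts R) (hfar : ¬ Box (r + 1) (a - b)) :
    (∀ u, Sq b u → u ∈ verts E) ∨ (∀ u, Sq b u → u ∈ verts F) := by
  have near : ∀ {u : P3}, Sq b u → ¬ Box r (u - a) := by
    intro u hu hB
    apply hfar
    have e : a - b = -(u - a) + (u - b) := by abel
    rw [e]; exact hB.neg.add hu.box
  have hbb : Sq b b := Or.inl rfl
  rcases h.verts_R (hb b hbb) with h1 | h1
  · left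
    intro u hu
    rcases h.verts_R (hb u hu) with h2 | h2
    · exact h2
    · exact (near hbb (h.sep b h1 u h2 (hbb.box2 hu)).1).elim
  · right
    intro u hu
    rcases h.verts_R (hb u hu) with h2 | h2
    · exact (near hu (h.sep u h2 b h1 (hu.box2 hbb)).1).elim
    · exact h2

theorem box_walk {G : SimpleGraph P3} (hG : ∀ u v, G.Adj u v → Adj u v) {u v : P3}
    (p : G.Walk u v) : Box p.length (u - v) := by
  induction p with
  | nil => simp [Box]
  | @cons u w v h p ih =>
    have e : u - v = (u - w) + (w - v) := by abel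
    have h1 : Box 1 (u - w) := by
      have := box_unit (adj_iff.1 (hG _ _ h).symm)
      exact this
    rw [e]
    refine (h1.add ih).mono ?_
    rw [SimpleGraph.Walk.length_cons]
    push_cast
    omega

/-- The core of the cut uniqueness. -/
theorem part_close (hArc : ArcStatement) (hCard : CardStatement) {R X Y : Finset (Sym2 P3)}
    {a b f1 f2 g1 g2 : P3} (hX : Part R X a f1 f2) (hY : Part R Y b g1 g2)
    (hbX : ∀ u, Sq b u → u ∉ verts X) (haY : ∀ u, Sq a u → u ∈ verts Y) {k : ℕ}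
    (hk : Y.card ≤ X.card + k) : Box (k + 2) (a - b) := by
  have hf1 : f1 ∈ verts X := left_mem_verts hX.edge
  have hXY : verts X ⊆ verts Y := by
    intro v hv
    have := hArc X hX.poly f1 f2 hX.edge f1 hf1 v hv
    have key : v ∈ verts X ∧ v ∈ verts Y := by
      clear hv
      induction this with
      | refl => exact ⟨hf1, haY _ hX.s1⟩
      | @tail u v _ huv ih =>
        refine ⟨right_mem_verts huv.1, ?_⟩
        have h1 := hX.sub _ _ huv.1 huv.2
        rcases hY.back _ _ h1 ih.2 with h2 | ⟨h2, -⟩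
        · exact right_mem_verts h2
        · exact (hbX _ h2 ih.1).elim
    exact key.2
  have hg1 : g1 ∈ verts Y := left_mem_verts hY.edge
  have hg1X : g1 ∉ verts X := hbX _ hY.s1
  -- the graph outside `X`
  let G : SimpleGraph P3 := 
    { Adj := fun u v => s(u, v) ∈ Y ∧ u ≠ v ∧ u ∉ verts X ∧ v ∉ verts X
      symm := ⟨fun u v h => ⟨by rw [Sym2.eq_swap]; exact h.1, h.2.1.symm, h.2.2.2, h.2.2.1⟩⟩
      loopless := ⟨fun u h => h.2.1 rfl⟩ }
  have hGadj : ∀ u v, G.Adj u v → Adj u v := fun u v h => hY.poly.adj _ _ h.1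
  -- the first exit into `X`
  obtain ⟨u, v, hreach, huX, hvX, huv, hne⟩ : ∃ u v, G.Reachable g1 u ∧ u ∉ verts X ∧ v ∈ verts X ∧
      s(u, v) ∈ Y ∧ s(u, v) ≠ s(g1, g2) := by
    have := hArc Y hY.poly g1 g2 hY.edge g1 hg1 f1 (hXY hf1)
    have key : ∀ w, ReflTransGen (fun u' v' => s(u', v') ∈ Y ∧ s(u', v') ≠ s(g1, g2)) g1 w →
        (w ∉ verts X ∧ G.Reachable g1 w) ∨ ∃ u v, G.Reachable g1 u ∧ u ∉ verts X ∧ v ∈ verts X ∧
      s(u, v) ∈ Y ∧ s(u, v) ≠ s(g1, g2) := by
      intro w hw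
      induction hw with
      | refl => exact Or.inl ⟨hg1X, SimpleGraph.Reachable.refl _⟩
      | @tail u v _ huv ih =>
        rcases ih with ⟨h1, h2⟩ | h1
        · by_cases hv : v ∈ verts X
          · exact Or.inr ⟨u, v, h2, h1, hv, huv.1, huv.2⟩
          · refine Or.inl ⟨hv, h2.trans (SimpleGraph.Adj.reachable ?_)⟩
            exact ⟨huv.1, (hY.poly.adj _ _ huv.1).ne, h1, hv⟩
        · exact Or.inr h1
    rcases key f1 this with ⟨h1, -⟩ | h1
    · exact (h1 hf1).elim
    · exact h1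
  have huR := hY.sub _ _ huv hne
  have hu : Sq a u := by
    rcases hX.back v u (by rw [Sym2.eq_swap]; exact huR) hvX with h1 | ⟨-, h1⟩
    · exact (huX (right_mem_verts h1)).elim
    · exact h1
  obtain ⟨p, hp⟩ := hreach.exists_isPath
  have hsupp : ∀ w ∈ p.support, w ∈ verts Y \ verts X := by
    have gen : ∀ {u' v' : P3} (p : G.Walk u' v'), u' ∈ verts Y \ verts X →
        ∀ w ∈ p.support, w ∈ verts Y \ verts X := by
      intro u' v' p
      induction p with
      | nil =>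
        intro h w hw
        simp only [SimpleGraph.Walk.support_nil, List.mem_singleton] at hw
        rw [hw]; exact h
      | @cons u1 w1 v1 h p ih =>
        intro h' w hw
        rw [SimpleGraph.Walk.support_cons, List.mem_cons] at hw
        rcases hw with rfl | hw
        · exact h'
        · exact ih ⟨right_mem_verts h.1, h.2.2.2⟩ w hw
    exact gen p ⟨hg1, hg1X⟩
  have hlen : p.length + 1 ≤ k := by
    have h1 : p.support.toFinset.card = p.length + 1 := by
      rw [List.toFinset_card_of_nodup hp.support_nodup, SimpleGraph.Walk.length_support]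
    have h2 : ((p.support.toFinset : Finset P3) : Set P3) ⊆ verts Y \ verts X := by
      intro w hw
      exact hsupp w (by simpa using hw)
    have hfin : (verts Y \ verts X).Finite := (hCard Y hY.poly).1.subset Set.sdiff_subset
    have h3 := Set.ncard_le_ncard h2 hfin
    rw [Set.ncard_coe_finset, h1] at h3
    have h4 : (verts Y \ verts X).ncard + (verts X).ncard = (verts Y).ncard :=
      Set.ncard_sdiff_add_ncard_of_subset hXY (hCard Y hY.poly).1
    rw [(hCard Y hY.poly).2, (hCard X hX.poly).2] at h4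
    omega
  have hb1 := box_walk hGadj p
  have e : a - b = -(u - a) + -(g1 - u) + (g1 - b) := by abel
  rw [e]
  refine (((hu.box.neg).add hb1.neg).add hY.s1.box).mono ?_
  omega

/-- **Cut uniqueness.** -/
theorem cut_unique (hArc : ArcStatement) (hCard : CardStatement)
    {R E F E2 F2 : Finset (Sym2 P3)} {a b : P3} {r : ℤ} (hr : 0 ≤ r) (h : IsCut R E F a r)
    (h2 : IsCut R E2 F2 b r) {m k : ℕ} (h1a : m ≤ E.card) (h1b : m ≤ F.card)
    (h2a : E2.card ≤ m + k) (h2b : F2.card ≤ m + k) : Box (r + k + 2) (a - b) := by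
  by_contra hfar
  have far1 : ¬ Box (r + 1) (a - b) := fun hB => hfar (hB.mono (by omega))
  have far2 : ¬ Box (r + 1) (b - a) := by
    intro hB
    apply far1
    have : a - b = -(b - a) := by abel
    rw [this]; exact hB.neg
  have notF : (∀ u, Sq b u → u ∈ verts E) → ∀ u, Sq b u → u ∉ verts F := fun hh u hu hu' =>
    h.below.disj (hh u hu) hu'
  have notE : (∀ u, Sq b u → u ∈ verts F) → ∀ u, Sq b u → u ∉ verts E := fun hh u hu hu' =>
    h.below.disj hu' (hh u hu)
  apply hfar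
  rcases h.dich (fun u hu => h2.sq_mem hu) far1 with h3 | h3 <;>
    rcases h2.dich (fun u hu => h.sq_mem hu) far2 with h4 | h4
  · exact (part_close hArc hCard h.partF h2.partE (notF h3) h4 (k := k) (by omega)).mono (by omega)
  · exact (part_close hArc hCard h.partF h2.partF (notF h3) h4 (k := k) (by omega)).mono (by omega)
  · exact (part_close hArc hCard h.partE h2.partE (notE h3) h4 (k := k) (by omega)).mono (by omega)
  · exact (part_close hArc hCard h.partE h2.partF (notE h3) h4 (k := k) (by omega)).mono (by omega)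

end Pool.Agent.LK
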