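import Mathlib

/-! Polygons of the simple cubic lattice, unknotted polygons, counting. -/

set_option autoImplicit false

namespace Pool.Agent.LK

/-- Points of the simple cubic lattice `ℤ³`. -/
abbrev P3 := ℤ × ℤ × ℤ

/-- Nearest neighbours in `ℤ³`. -/
def Adj (u v : P3) : Prop := |u.1 - v.1| + |u.2.1 - v.2.1| + |u.2.2 - v.2.2| = 1

/-- The vertices of a set of edges. -/
def verts (E : Finset (Sym2 P3)) : Set P3 := {u | ∃ v, s(u, v) ∈ E}

/-- `E` is the edge set of a polygon: a finite nonempty set of lattice edges, connected, in which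
every vertex has degree two (that is, a cycle of the lattice graph). -/
structure IsPolygon (E : Finset (Sym2 P3)) : Prop where
  nonempty : E.Nonempty
  adj : ∀ u v, s(u, v) ∈ E → Adj u v
  deg : ∀ u ∈ verts E, {w | s(u, w) ∈ E}.ncard = 2
  conn : ∀ u ∈ verts E, ∀ v ∈ verts E, Relation.ReflTransGen (fun a b => s(a, b) ∈ E) u v

/-- Three dimensional space. -/
abbrev R3 := ℝ × ℝ × ℝ

/-- A lattice point as a point of space. -/
def toR (u : P3) : R3 := ((u.1 : ℝ), (u.2.1 : ℝ), (u.2.2 : ℝ))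

/-- The subset of space occupied by a set of edges: the union of the closed unit segments. -/
def body (E : Finset (Sym2 P3)) : Set R3 :=
  {x | ∃ u v, s(u, v) ∈ E ∧ x ∈ segment ℝ (toR u) (toR v)}

/-- The unit circle in the plane `z = 0`. -/
def stdCircle : Set R3 := {x | x.1 ^ 2 + x.2.1 ^ 2 = 1 ∧ x.2.2 = 0}

/-- `E` is unknotted: a homeomorphism of space carries it onto the round circle. -/
def Unknotted (E : Finset (Sym2 P3)) : Prop := ∃ φ : R3 ≃ₜ R3, φ '' body E = stdCircle

/-- `E` lies in `ℕ³` and touches the three coordinate planes. Each class of finite nonempty edge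
sets modulo lattice translations has exactly one such member. -/
def Normed (E : Finset (Sym2 P3)) : Prop :=
  (∀ u ∈ verts E, 0 ≤ u.1 ∧ 0 ≤ u.2.1 ∧ 0 ≤ u.2.2) ∧ (∃ u ∈ verts E, u.1 = 0) ∧
    (∃ u ∈ verts E, u.2.1 = 0) ∧ ∃ u ∈ verts E, u.2.2 = 0

/-- The number of members of the class `C` with `n` edges, up to translation. -/
noncomputable def count (C : Finset (Sym2 P3) → Prop) (n : ℕ) : ℕ :=
  {E : Finset (Sym2 P3) | C E ∧ E.card = n ∧ Normed E}.ncard

/-- The growth rate of the class `C`. -/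
noncomputable def growth (C : Finset (Sym2 P3) → Prop) : ℝ :=
  Filter.limsup (fun n : ℕ => (count C n : ℝ) ^ ((n : ℝ)⁻¹)) Filter.atTop

/-- Image of a set of edges under a map of the lattice. -/
def mapE (g : P3 → P3) (E : Finset (Sym2 P3)) : Finset (Sym2 P3) := E.image (Sym2.map g)

/-- Unit vectors of the lattice. -/
def IsUnit3 (d : P3) : Prop := Adj d 0

/-- `E` with the edge `xy` replaced by the three other edges of the unit square
`x, x+d, y+d, y`. -/
def bump (E : Finset (Sym2 P3)) (x y d : P3) : Finset (Sym2 P3) :=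
  (E \ {s(x, y)}) ∪ {s(x, x + d), s(x + d, y + d), s(y + d, y)}

/-- `E` with the corner `x, x+a, x+a+b` replaced by `x, x+b, x+a+b`. -/
def flip (E : Finset (Sym2 P3)) (x a b : P3) : Finset (Sym2 P3) :=
  (E \ {s(x, x + a), s(x + a, x + a + b)}) ∪ {s(x, x + b), s(x + b, x + a + b)}

/-- The join of `E` and `F` through the unit square with vertical sides `(x,y,h)(x,y,h+1)` (in `E`)
and `(x+1,y,h)(x+1,y,h+1)` (in `F`). -/
def join (E F : Finset (Sym2 P3)) (x y h : ℤ) : Finset (Sym2 P3) :=
  (E \ {s((x, y, h), (x, y, h + 1))}) ∪ (F \ {s((x + 1, y, h), (x + 1, y, h + 1))}) ∪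
    {s((x, y, h), (x + 1, y, h)), s((x, y, h + 1), (x + 1, y, h + 1))}

/-- The unit square. -/
def square : Finset (Sym2 P3) :=
  {s((0, 0, 0), (1, 0, 0)), s((1, 0, 0), (1, 1, 0)), s((1, 1, 0), (0, 1, 0)),
    s((0, 1, 0), (0, 0, 0))}

/-- Classes of polygons closed under the lattice symmetries, the two local moves and the join of
polygons whose projections to the `xy`-plane have no lattice point in common. -/
structure Closed (C : Finset (Sym2 P3) → Prop) : Prop where
  poly : ∀ E, C E → IsPolygon E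
  square : C square
  trans : ∀ (t : P3) E, C E → C (mapE (fun u => u + t) E)
  swapXY : ∀ E, C E → C (mapE (fun u => (u.2.1, u.1, u.2.2)) E)
  swapYZ : ∀ E, C E → C (mapE (fun u => (u.1, u.2.2, u.2.1)) E)
  negX : ∀ E, C E → C (mapE (fun u => (-u.1, u.2.1, u.2.2)) E)
  bump : ∀ E x y d, C E → s(x, y) ∈ E → IsUnit3 d → x + d ∉ verts E → y + d ∉ verts E →
    C (bump E x y d)
  flip : ∀ E x a b, C E → s(x, x + a) ∈ E → s(x + a, x + a + b) ∈ E → IsUnit3 a → IsUnit3 b →
    a ≠ b → a ≠ -b → x + b ∉ verts E → C (flip E x a b)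
  join : ∀ E F x y h, C E → C F →
    (∀ u ∈ verts E, ∀ v ∈ verts F, (u.1, u.2.1) ≠ (v.1, v.2.1)) →
    s((x, y, h), (x, y, h + 1)) ∈ E → s((x + 1, y, h), (x + 1, y, h + 1)) ∈ F →
    C (join E F x y h)

/-- MAIN COMBINATORIAL STATEMENT (to be proved by helper51). -/
def MainStatement : Prop := ∀ C : Finset (Sym2 P3) → Prop, Closed C →
  ∃ K : ℝ, ∀ n : ℕ, 0 < n → (count C n : ℝ) ≤ K * (n : ℝ) ^ (-(1 / 3 : ℝ)) * growth C ^ n

/-- TOPOLOGICAL STATEMENT (to be proved by helper33, helper43). -/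
def TopStatement : Prop := Closed fun E => IsPolygon E ∧ Unknotted E

end Pool.Agent.LK
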