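import Pool.Agent.MP_aea6d5_co.Defs

/-! Orthonormal frames of lattice vectors. -/

set_option autoImplicit false

namespace Pool.Agent.LK

/-- `(a, b, c)` is an orthonormal frame of lattice vectors. -/
structure Frm (a b c : P3) : Prop where
  aa : a.1 * a.1 + a.2.1 * a.2.1 + a.2.2 * a.2.2 = 1
  bb : b.1 * b.1 + b.2.1 * b.2.1 + b.2.2 * b.2.2 = 1
  cc : c.1 * c.1 + c.2.1 * c.2.1 + c.2.2 * c.2.2 = 1
  ab : a.1 * b.1 + a.2.1 * b.2.1 + a.2.2 * b.2.2 = 0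
  ac : a.1 * c.1 + a.2.1 * c.2.1 + a.2.2 * c.2.2 = 0
  bc : b.1 * c.1 + b.2.1 * c.2.1 + b.2.2 * c.2.2 = 0
  r11 : a.1 * a.1 + b.1 * b.1 + c.1 * c.1 = 1
  r22 : a.2.1 * a.2.1 + b.2.1 * b.2.1 + c.2.1 * c.2.1 = 1
  r33 : a.2.2 * a.2.2 + b.2.2 * b.2.2 + c.2.2 * c.2.2 = 1
  r12 : a.1 * a.2.1 + b.1 * b.2.1 + c.1 * c.2.1 = 0
  r13 : a.1 * a.2.2 + b.1 * b.2.2 + c.1 * c.2.2 = 0
  r23 : a.2.1 * a.2.2 + b.2.1 * b.2.2 + c.2.1 * c.2.2 = 0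

instance (a b c : P3) : Decidable (Frm a b c) := by
  have h : Frm a b c ↔ (a.1 * a.1 + a.2.1 * a.2.1 + a.2.2 * a.2.2 = 1 ∧
      b.1 * b.1 + b.2.1 * b.2.1 + b.2.2 * b.2.2 = 1 ∧
      c.1 * c.1 + c.2.1 * c.2.1 + c.2.2 * c.2.2 = 1 ∧
      a.1 * b.1 + a.2.1 * b.2.1 + a.2.2 * b.2.2 = 0 ∧
      a.1 * c.1 + a.2.1 * c.2.1 + a.2.2 * c.2.2 = 0 ∧
      b.1 * c.1 + b.2.1 * c.2.1 + b.2.2 * c.2.2 = 0 ∧
      a.1 * a.1 + b.1 * b.1 + c.1 * c.1 = 1 ∧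
      a.2.1 * a.2.1 + b.2.1 * b.2.1 + c.2.1 * c.2.1 = 1 ∧
      a.2.2 * a.2.2 + b.2.2 * b.2.2 + c.2.2 * c.2.2 = 1 ∧
      a.1 * a.2.1 + b.1 * b.2.1 + c.1 * c.2.1 = 0 ∧
      a.1 * a.2.2 + b.1 * b.2.2 + c.1 * c.2.2 = 0 ∧
      a.2.1 * a.2.2 + b.2.1 * b.2.2 + c.2.1 * c.2.2 = 0) := by
    constructor
    · rintro ⟨h1, h2, h3, h4, h5, h6, h7, h8, h9, h10, h11, h12⟩
      exact ⟨h1, h2, h3, h4, h5, h6, h7, h8, h9, h10, h11, h12⟩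
    · rintro ⟨h1, h2, h3, h4, h5, h6, h7, h8, h9, h10, h11, h12⟩
      exact ⟨h1, h2, h3, h4, h5, h6, h7, h8, h9, h10, h11, h12⟩
  exact decidable_of_iff _ h.symm

lemma unit_cases {d : P3} (h : IsUnit3 d) : d = (1, 0, 0) ∨ d = (-1, 0, 0) ∨ d = (0, 1, 0) ∨
    d = (0, -1, 0) ∨ d = (0, 0, 1) ∨ d = (0, 0, -1) := by
  obtain ⟨d1, d2, d3⟩ := d
  simp only [IsUnit3, Adj, Prod.fst_zero, Prod.snd_zero, sub_zero] at h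
  simp only [Prod.mk.injEq]
  rcases abs_cases d1 with h2 | h2 <;> rcases abs_cases d2 with h3 | h3 <;>
    rcases abs_cases d3 with h4 | h4 <;> omega

lemma exists_frm {a c : P3} (ha : IsUnit3 a) (hc : IsUnit3 c) (h1 : a ≠ c) (h2 : a ≠ -c) :
    ∃ b, Frm a b c := by
  refine ⟨(a.2.1 * c.2.2 - a.2.2 * c.2.1, a.2.2 * c.1 - a.1 * c.2.2,
    a.1 * c.2.1 - a.2.1 * c.1), ?_⟩
  rcases unit_cases ha with rfl | rfl | rfl | rfl | rfl | rfl <;>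
    rcases unit_cases hc with rfl | rfl | rfl | rfl | rfl | rfl <;>
    first
    | exact absurd rfl h1
    | exact absurd (by decide) h2
    | decide

end Pool.Agent.LK
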