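import Pool.Agent.MP_aea6d5_co.Surgery
import Pool.Agent.MP_aea6d5_co.Stack

/-! Assembly of the joined polygon at a contact. -/

set_option autoImplicit false
set_option linter.unusedSimpArgs false

namespace Pool.Agent.LK

variable {C : Finset (Sym2 P3) → Prop}

theorem mapE_mapE (g f : P3 → P3) (E : Finset (Sym2 P3)) :
    mapE g (mapE f E) = mapE (fun u => g (f u)) E := by
  unfold mapE
  rw [Finset.image_image]
  congr 1
  funext e
  simp [Sym2.map_map, Function.comp_def]

/-- Central reflection. -/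
def negE (E : Finset (Sym2 P3)) : Finset (Sym2 P3) := mapE (fun u => -u) E

theorem mem_negE {E : Finset (Sym2 P3)} {u v : P3} : s(u, v) ∈ negE E ↔ s(-u, -v) ∈ E := by
  have := mem_mapE (g := fun u : P3 => -u) neg_injective (E := E) (u := -u) (v := -v)
  simpa [negE] using this

theorem mem_verts_negE {E : Finset (Sym2 P3)} {u : P3} : u ∈ verts (negE E) ↔ -u ∈ verts E := by
  constructor
  · rintro ⟨v, hv⟩; exact ⟨-v, mem_negE.1 hv⟩
  · rintro ⟨v, hv⟩
    exact ⟨-v, mem_negE.2 (by simpa using hv)⟩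

theorem negE_negE (E : Finset (Sym2 P3)) : negE (negE E) = E := by
  apply edge_ext; intro u v; rw [mem_negE, mem_negE]; simp

theorem ClosedZ.neg (hC : ClosedZ C) {E : Finset (Sym2 P3)} (h : C E) : C (negE E) := by
  have h1 := hC.negX _ h
  have h2 := hC.swapXY _ h1
  have h3 := hC.negX _ h2
  have h4 := hC.swapXY _ h3
  have h5 := hC.swapYZ _ h4
  have h6 := hC.swapXY _ h5
  have h7 := hC.negX _ h6
  have h8 := hC.swapXY _ h7
  have h9 := hC.swapYZ _ h8
  simp only [mapE_mapE] at h9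
  exact h9

theorem ClosedZ.move (hC : ClosedZ C) : MoveClosed C := ⟨hC.poly, hC.bump, hC.flip⟩

theorem ClosedZ.shift (hC : ClosedZ C) {E : Finset (Sym2 P3)} (h : C E) (t : P3) :
    C (shift t E) := hC.trans t E h

theorem ChangedIn.negE {p : P3} {r : ℤ} {E E' : Finset (Sym2 P3)} (h : ChangedIn p r E E') :
    ChangedIn (-p) r (negE E) (negE E') := by
  intro u v huv
  rw [mem_negE, mem_negE] at huv
  obtain ⟨h1, h2⟩ := h _ _ huv
  have e1 : u - -p = -(-u - p) := by abel
  have e2 : v - -p = -(-v - p) := by abel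
  rw [e1, e2]
  exact ⟨h1.neg, h2.neg⟩

theorem ChangedIn.shiftE {p w : P3} {r : ℤ} {E E' : Finset (Sym2 P3)} (h : ChangedIn p r E E') :
    ChangedIn (p + w) r (LK.shift w E) (LK.shift w E') := by
  intro u v huv
  rw [mem_shift, mem_shift] at huv
  obtain ⟨h1, h2⟩ := h _ _ huv
  have e1 : u - (p + w) = u - w - p := by abel
  have e2 : v - (p + w) = v - w - p := by abel
  rw [e1, e2]
  exact ⟨h1, h2⟩

theorem ChangedIn.union {p : P3} {r : ℤ} {E E' F F' : Finset (Sym2 P3)}
    (h : ChangedIn p r E E') (h' : ChangedIn p r F F') : ChangedIn p r (E ∪ F) (E' ∪ F') := by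
  intro u v huv
  simp only [Finset.mem_union] at huv
  by_cases h1 : s(u, v) ∈ E
  · by_cases h2 : s(u, v) ∈ E'
    · tauto
    · exact h u v (Or.inl ⟨h1, h2⟩)
  · by_cases h2 : s(u, v) ∈ E'
    · exact h u v (Or.inr ⟨h1, h2⟩)
    · exact h' u v (by tauto)

theorem mem_joinZ {E F : Finset (Sym2 P3)} {x y h : ℤ} {f : Sym2 P3} :
    f ∈ joinZ E F x y h ↔ (f ∈ E ∧ f ≠ s((x, y, h), (x + 1, y, h))) ∨
      (f ∈ F ∧ f ≠ s((x, y, h + 1), (x + 1, y, h + 1))) ∨ f = s((x, y, h), (x, y, h + 1)) ∨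
      f = s((x + 1, y, h), (x + 1, y, h + 1)) := by
  simp only [joinZ, Finset.mem_union, Finset.mem_sdiff, Finset.mem_singleton, Finset.mem_insert]
  tauto

/-- The result of the assembly. -/
structure Joined (CE CF CR : Finset (Sym2 P3) → Prop) (E F : Finset (Sym2 P3)) (d : P3)
    (R E' F' : Finset (Sym2 P3)) (p a w : P3) : Prop where
  cR : CR R
  cE : CE E'
  cF : CF F'
  below : Below E' F'
  eE : s(a, a + (1, 0, 0)) ∈ E'
  eF : s(a + (0, 0, 1), a + (0, 0, 1) + (1, 0, 0)) ∈ F'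
  R_eq : R = joinZ E' F' a.1 a.2.1 a.2.2
  hp : p ∈ verts E
  disj : ∀ u ∈ verts E, u ∉ verts (shift w F)
  pa : Box 1000 (p - a)
  wd : Box 1000 (w - d)
  ch : ChangedIn a 1000 (E ∪ shift w F) R
  chE : ChangedIn a 1000 E E'
  chF : ChangedIn a 1000 (shift w F) F'
  sep : ∀ u ∈ verts E', ∀ v ∈ verts F', Box 1 (u - v) → Box 1000 (u - a) ∧ Box 1000 (v - a)

theorem assemble {CE CF CR : Finset (Sym2 P3) → Prop} (mE : MoveClosed CE) (mF : MoveClosed CF)
    (negF : ∀ F, CF F → CF (negE F)) (shiftF : ∀ F, CF F → ∀ t : P3, CF (shift t F))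
    (hjoin : ∀ E F x y h, CE E → CF F → Below E F → s((x, y, h), (x + 1, y, h)) ∈ E →
      s((x, y, h + 1), (x + 1, y, h + 1)) ∈ F → CR (joinZ E F x y h))
    {E F : Finset (Sym2 P3)} (hE : CE E) (hF : CF F) {p q N : P3}
    (hp : p ∈ verts E) (hq : q ∈ verts F) {x y z : P3} (hFr : Fr x y z)
    (hxy' : dot N y ≤ dot N x) (hyz' : dot N z ≤ dot N y) (hz0 : 0 ≤ dot N z)
    (hM : 1000000 ≤ dot N x) (hN : 0 ≤ N.2.2)
    (hfree : ∀ s : P3, nsq s < 2 * dot N s → ∀ t : ℤ, 0 ≤ t → ∀ u ∈ verts E, ∀ v ∈ verts F,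
      u - v ≠ (p - q) + s + (0, 0, t)) :
    ∃ R E' F' a w, Joined CE CF CR E F (p - q) R E' F' p a w := by
  set M := dot N x with hMdef
  have lb : ∀ {r : ℤ} {v : P3}, Box r v → -(3 * r * M) ≤ dot N v := fun h =>
    le_dot_box hFr hxy' hyz' hz0 h
  have z0 : ((0, 0, 0) : P3) = 0 := rfl
  -- local half spaces
  have locE : Loc E p N := by
    intro u hu
    by_contra hlt
    push Not at hlt
    refine hfree (u - p) hlt 0 le_rfl u hu q hq ?_
    rw [z0]; abel
  have locF : Loc (negE F) (-q) N := by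
    intro u hu
    by_contra hlt
    push Not at hlt
    refine hfree (u - -q) hlt 0 le_rfl p hp (-u) (mem_verts_negE.1 hu) ?_
    rw [z0]; abel
  obtain ⟨E', a, cE', eE', chE', aB, vE', hE'⟩ := surgery mE hE hp locE hFr hxy' hyz' hz0
    (by omega) hN
  obtain ⟨G, b, cG, eG, chG, bB, vG, hG⟩ := surgery mF (negF _ hF)
    (mem_verts_negE.2 (by simpa using hq)) locF hFr hxy' hyz' hz0 (by omega) hN
  rw [← hMdef] at vE' hE' vG hG
  set w : P3 := a + (0, 0, 1) + b + (1, 0, 0) with hw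
  set F' := shift w (negE G) with hF'
  have cF' : CF F' := shiftF _ (negF _ cG) w
  have memF' : ∀ v, v ∈ verts F' → -(v - w) ∈ verts G := fun v hv =>
    mem_verts_negE.1 (mem_verts_shift.1 hv)
  have memF : ∀ v, v ∈ verts (negE F) ↔ -v ∈ verts F := fun v => mem_verts_negE
  -- the offset
  have hτ : w - (p - q) = (a - p) + (b - -q) + (1, 0, 0) + (0, 0, 1) := by rw [hw]; abel
  have u1 : Box 1 ((1, 0, 0) : P3) := by simp [Box]
  have u3 : Box 1 ((0, 0, 1) : P3) := by simp [Box]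
  have hτB : Box 442 (w - (p - q)) := by
    rw [hτ]; exact ((aB.add bB).add u1).add u3
  have hN3 : dot N (0, 0, 1) = N.2.2 := by simp [dot]
  have hN1 : -(3 * 1 * M) ≤ dot N (1, 0, 0) := lb u1
  have hτN : dot N (w - (p - q)) = dot N (a - p) + dot N (b - -q) + dot N (1, 0, 0) +
      dot N (0, 0, 1) := by rw [hτ, dot_add, dot_add, dot_add]
  -- no old-old coincidences
  have oo : ∀ u ∈ verts E, ∀ v, -(v - w) ∈ verts (negE F) → ∀ (η : P3) (t : ℤ), Box 1 η → 0 ≤ t →
      u ≠ v + η + (0, 0, t) := by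
    intro u hu v hv η t hη ht he
    have hv' : v - w ∈ verts F := by
      have := (memF _).1 hv
      rwa [neg_neg] at this
    refine hfree (w - (p - q) + η) ?_ t ht u hu (v - w) hv' ?_
    · have h1 := nsq_box (hτB.add hη)
      have h2 := lb hη
      rw [dot_add, hτN, hN3]
      omega
    · rw [he]; abel
  have no : ∀ u, Box 220 (u - p) → dot N (u - p) ≤ dot N (a - p) + 100 * M →
      ∀ v, -(v - w) ∈ verts (negE F) → ∀ t : ℤ, 0 ≤ t → u ≠ v + (0, 0, t) := by
    intro u hu hu' v hv t ht he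
    have hv' : v - w ∈ verts F := by
      have := (memF _).1 hv
      rwa [neg_neg] at this
    refine hfree (w - (p - q) - (u - p)) ?_ t ht p hp (v - w) hv' ?_
    · have h1 := nsq_box (hτB.sub hu)
      rw [dot_sub, hτN, hN3]
      omega
    · rw [he]; abel
  have on : ∀ v, Box 220 (-(v - w) - -q) → dot N (-(v - w) - -q) ≤ dot N (b - -q) + 100 * M →
      ∀ u ∈ verts E, ∀ t : ℤ, 0 ≤ t → u ≠ v + (0, 0, t) := by
    intro v hv hv' u hu t ht he
    refine hfree (w - (p - q) - (-(v - w) - -q)) ?_ t ht u hu q hq ?_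
    · have h1 := nsq_box (hτB.sub hv)
      rw [dot_sub, hτN, hN3]
      omega
    · rw [he]; abel
  have hbelow : Below E' F' := by
    intro u hu v hv hx' hy'
    by_contra hlt
    push Not at hlt
    have he : u = v + (0, 0, u.2.2 - v.2.2) := by
      refine Prod.ext ?_ (Prod.ext ?_ ?_)
      · simpa using hx'
      · simpa using hy'
      · simp
    have he0 : u = v + 0 + (0, 0, u.2.2 - v.2.2) := by rw [add_zero]; exact he
    rcases vE' u hu with h1 | ⟨h1, h1z, h1N⟩ <;>
      rcases vG _ (memF' v hv) with h2 | ⟨h2, h2z, h2N⟩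
    · exact oo u h1 v h2 0 _ (by simp [Box]) (by omega) he0
    · exact on v h2 h2N u h1 _ (by omega) he
    · exact no u h1 h1N v h2 _ (by omega) he
    · have hwz : w.2.2 = a.2.2 + 1 + b.2.2 := by rw [hw]; simp
      simp only [Prod.snd_neg, Prod.snd_sub] at h2z
      omega
  have edgeE : s((a.1, a.2.1, a.2.2), ((a.1 + 1, a.2.1, a.2.2) : P3)) ∈ E' := by
    have : a + (1, 0, 0) = (a.1 + 1, a.2.1, a.2.2) := by
      refine Prod.ext ?_ (Prod.ext ?_ ?_) <;> simp
    rw [this] at eE'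
    exact eE'
  have eF' : s(a + (0, 0, 1), a + (0, 0, 1) + (1, 0, 0)) ∈ F' := by
    rw [hF', mem_shift, mem_negE]
    have e1 : -(a + (0, 0, 1) - w) = b + (1, 0, 0) := by rw [hw]; abel
    have e2 : -(a + (0, 0, 1) + (1, 0, 0) - w) = b := by rw [hw]; abel
    rw [e1, e2, Sym2.eq_swap]
    exact eG
  have edgeF : s((a.1, a.2.1, a.2.2 + 1), ((a.1 + 1, a.2.1, a.2.2 + 1) : P3)) ∈ F' := by
    have e1 : a + (0, 0, 1) = (a.1, a.2.1, a.2.2 + 1) := by
      refine Prod.ext ?_ (Prod.ext ?_ ?_) <;> simp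
    have e2 : a + (0, 0, 1) + (1, 0, 0) = (a.1 + 1, a.2.1, a.2.2 + 1) := by
      refine Prod.ext ?_ (Prod.ext ?_ ?_) <;> simp
    rw [e2, e1] at eF'
    exact eF'
  have chE'' : ChangedIn a 440 E E' := by
    have : Box 220 (p - a) := by
      have e : p - a = -(a - p) := by abel
      rw [e]; exact aB.neg
    exact chE'.shift this
  have chF'' : ChangedIn a 443 (shift w F) F' := by
    have h1 := (chG.negE).shiftE (w := w)
    rw [negE_negE, neg_neg] at h1
    have : Box 222 (q + w - a) := by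
      have e : q + w - a = (b - -q) + (1, 0, 0) + (0, 0, 1) := by rw [hw]; abel
      rw [e]; exact (bB.add u1).add u3
    exact (h1.shift this).mono (by norm_num)
  refine ⟨joinZ E' F' a.1 a.2.1 a.2.2, E', F', a, w,
    hjoin _ _ _ _ _ cE' cF' hbelow edgeE edgeF, cE', cF', hbelow, eE', eF', rfl, hp, ?_, ?_,
    hτB.mono (by norm_num), ?_, chE''.mono (by norm_num), chF''.mono (by norm_num), ?_⟩
  · intro u hu hu'
    refine oo u hu u ?_ 0 0 (by simp [Box]) le_rfl ?_
    · rw [memF, neg_neg]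
      exact mem_verts_shift.1 hu'
    · rw [z0]; simp
  · have e : p - a = -(a - p) := by abel
    rw [e]; exact aB.neg.mono (by norm_num)
  · -- locality of the join
    have h1 : ChangedIn a 443 (E ∪ shift w F) (E' ∪ F') :=
      (chE''.mono (by norm_num)).union chF''
    refine (h1.mono (by norm_num)).trans ?_
    have key : ∀ u v : P3, (s(u, v) = s((a.1, a.2.1, a.2.2), (a.1 + 1, a.2.1, a.2.2)) ∨
        s(u, v) = s((a.1, a.2.1, a.2.2 + 1), (a.1 + 1, a.2.1, a.2.2 + 1)) ∨
        s(u, v) = s((a.1, a.2.1, a.2.2), (a.1, a.2.1, a.2.2 + 1)) ∨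
        s(u, v) = s((a.1 + 1, a.2.1, a.2.2), (a.1 + 1, a.2.1, a.2.2 + 1))) →
        Box 1000 (u - a) ∧ Box 1000 (v - a) := by
      intro u v h
      rcases h with h | h | h | h <;> rw [Sym2.eq_iff] at h <;>
        rcases h with ⟨rfl, rfl⟩ | ⟨rfl, rfl⟩ <;>
        simp [Box]
    intro u v huv
    rw [mem_joinZ] at huv
    apply key
    simp only [Finset.mem_union] at huv
    tauto
  · intro u hu v hv huv
    have new1 : Box 220 (u - p) → Box 1000 (u - a) ∧ Box 1000 (v - a) := by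
      intro h1
      have e1 : u - a = (u - p) - (a - p) := by abel
      have e2 : v - a = (u - p) - (a - p) - (u - v) := by abel
      rw [e2, e1]
      exact ⟨(h1.sub aB).mono (by norm_num), ((h1.sub aB).sub huv).mono (by norm_num)⟩
    have new2 : Box 220 (-(v - w) - -q) → Box 1000 (u - a) ∧ Box 1000 (v - a) := by
      intro h1
      have e2 : v - a = (b - -q) - (-(v - w) - -q) + (1, 0, 0) + (0, 0, 1) := by rw [hw]; abel
      have e1 : u - a = (b - -q) - (-(v - w) - -q) + (1, 0, 0) + (0, 0, 1) + (u - v) := by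
        rw [hw]; abel
      rw [e1, e2]
      exact ⟨((((bB.sub h1).add u1).add u3).add huv).mono (by norm_num),
        (((bB.sub h1).add u1).add u3).mono (by norm_num)⟩
    rcases vE' u hu with h1 | ⟨h1, -⟩
    · rcases vG _ (memF' v hv) with h2 | ⟨h2, -⟩
      · exfalso
        refine oo u h1 v h2 (u - v) 0 huv le_rfl ?_
        rw [z0]; abel
      · exact new2 h2
    · exact new1 h1

end Pool.Agent.LK
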