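import Pool.Agent.MP_aea6d5_co.JoinUnk
import Pool.Agent.MP_aea6d5_co.StdMoves

/-! The stacked join of two unknotted polygons is unknotted, from the tents and the separating
function. -/

set_option autoImplicit false
set_option linter.unusedSectionVars false

open Set Topology Filter

namespace Pool.Agent.LK

/-- The separating function. -/
def SepStatement : Prop := ∀ (E F : Finset (Sym2 P3)) (x y h : ℤ), IsPolygon E → IsPolygon F →
  Below E F → s((x, y, h), (x + 1, y, h)) ∈ E → s((x, y, h + 1), (x + 1, y, h + 1)) ∈ F →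
  ∃ g : ℝ × ℝ → ℝ, Continuous g ∧ (∀ p ∈ body E, p.2.2 + 1 / 2 ≤ g (p.1, p.2.1)) ∧
    (∀ p ∈ body F, g (p.1, p.2.1) ≤ p.2.2 - 1 / 2) ∧
    ∀ s : ℝ, 0 ≤ s → s ≤ 1 → g (x + s, y) = h + 1 / 2

lemma isCompact_segment (a b : R3) : IsCompact (segment ℝ a b) := by
  rw [segment_eq_image]
  exact isCompact_Icc.image (by fun_prop)

lemma isCompact_body (E : Finset (Sym2 P3)) : IsCompact (body E) := by
  induction E using Finset.induction_on with
  | empty =>
    have : body (∅ : Finset (Sym2 P3)) = ∅ := by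
      ext x
      simp [body]
    rw [this]
    exact isCompact_empty
  | insert e E' _ ih =>
    induction e using Sym2.ind with
    | _ a b =>
      rw [body_insert]
      exact (isCompact_segment _ _).union ih

/-- Reflection as a linear map. -/
def reflL : R3 →ₗ[ℝ] R3 where
  toFun p := (p.1, p.2.1, -p.2.2)
  map_add' := by
    intro p q
    refine Prod.ext rfl (Prod.ext rfl ?_)
    exact neg_add p.2.2 q.2.2
  map_smul' := by
    intro c p
    refine Prod.ext rfl (Prod.ext rfl ?_)
    exact (mul_neg c p.2.2).symm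

lemma refl3_segment (a b : R3) : refl3 '' segment ℝ a b = segment ℝ (refl3 a) (refl3 b) :=
  image_segment ℝ reflL.toAffineMap a b

theorem joinZ_of (hV : TentStatement) (hS : SepStatement) : JoinZStatement := by
  intro E F x y h hE hUE hF hUF hB he hf
  obtain ⟨g, hg, hgE, hgF, hgs⟩ := hS E F x y h hE hF hB he hf
  set A := body (E \ {s((x, y, h), (x + 1, y, h))}) with hA
  set B := body (F \ {s((x, y, h + 1), (x + 1, y, h + 1))}) with hB'
  have hAE : A ⊆ body E := body_mono Finset.sdiff_subset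
  have hBF : B ⊆ body F := body_mono Finset.sdiff_subset
  have e0 : ((x, y, h) : P3) ∈ verts E := ⟨_, he⟩
  have e1 : ((x + 1, y, h) : P3) ∈ verts E := ⟨_, by rw [Sym2.eq_swap]; exact he⟩
  have f0 : ((x, y, h + 1) : P3) ∈ verts F := ⟨_, hf⟩
  have f1 : ((x + 1, y, h + 1) : P3) ∈ verts F := ⟨_, by rw [Sym2.eq_swap]; exact hf⟩
  -- tents
  have hUA : Unk (A ∪ tent x y h) := by
    have h1 := hV E x y h 1 hE hUE (Or.inl rfl) he
      (fun hc => lt_irrefl _ (hB _ hc _ f0 rfl rfl)) (fun hc => lt_irrefl _ (hB _ hc _ f1 rfl rfl))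
    have t1 : toR (x, y, h) = ((x : ℝ), (y : ℝ), (h : ℝ)) := rfl
    have t2 : toR (x + 1, y, h) = ((x : ℝ) + 1, (y : ℝ), (h : ℝ)) := by simp [toR]
    have t3 : (((x : ℝ) + 1 / 2, (y : ℝ), (h : ℝ) + ((1 : ℤ) : ℝ) / 2) : R3) =
        ((x : ℝ) + 1 / 2, (y : ℝ), (h : ℝ) + 1 / 2) := by simp
    rw [t1, t2, t3, tent_eq] at h1
    exact h1
  have hUB : Unk (refl3 '' B ∪ tent x y (-(h + 1))) := by
    have h1 := hV F x y (h + 1) (-1) hF hUF (Or.inr rfl) hf
      (fun hc => by
        rw [add_neg_cancel_right] at hc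
        exact lt_irrefl _ (hB _ e0 _ hc rfl rfl))
      (fun hc => by
        rw [add_neg_cancel_right] at hc
        exact lt_irrefl _ (hB _ e1 _ hc rfl rfl))
    rw [← unk_homeo_iff refl3, image_union, image_union, refl3_segment, refl3_segment] at h1
    have t1 : refl3 (toR (x, y, h + 1)) = ((x : ℝ), (y : ℝ), -((h : ℝ) + 1)) := by
      simp [refl3_apply, toR]
    have t2 : refl3 (toR (x + 1, y, h + 1)) = ((x : ℝ) + 1, (y : ℝ), -((h : ℝ) + 1)) := by
      simp [refl3_apply, toR]
    have t4 : -(((h + 1 : ℤ) : ℝ) + ((-1 : ℤ) : ℝ) / 2) = -((h : ℝ) + 1) + 1 / 2 := by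
      push_cast
      ring
    have t3 : refl3 (((x : ℝ) + 1 / 2, (y : ℝ), ((h + 1 : ℤ) : ℝ) + ((-1 : ℤ) : ℝ) / 2) : R3) =
        ((x : ℝ) + 1 / 2, (y : ℝ), -((h : ℝ) + 1) + 1 / 2) := by
      rw [refl3_apply]
      simp only
      rw [t4]
    rw [t1, t2, t3, tent_eq] at h1
    exact h1
  have h2 := unk_join (isCompact_body _) (isCompact_body _) hg (x := x) (y := y) (h := h)
    (fun p hp => hgE p (hAE hp)) (fun p hp => hgF p (hBF hp)) hgs hUA hUB
  have h3 : body (joinZ E F x y h) = A ∪ B ∪ strands x y h := by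
    unfold joinZ
    rw [body_union, body_union, body_insert, body_singleton, ← strands_eq]
    simp [toR, hA, hB']
  change Unk (body (joinZ E F x y h))
  rw [h3]
  exact h2

end Pool.Agent.LK
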