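import Pool.Agent.MP_aea6d5_co.JoinUnk
import Pool.Agent.MP_aea6d5_co.Shrink

/-! The lower part of a stacked join can be replaced by any other unknotted lower part. -/

set_option autoImplicit false
set_option linter.unusedSectionVars false

open Set Topology Filter

namespace Pool.Agent.LK

/-- Two continuous surjections of a compact space with the same point inverses. -/
theorem exists_homeo_of_collapse {M N N' : Type} [TopologicalSpace M] [CompactSpace M]
    [TopologicalSpace N] [T2Space N] [TopologicalSpace N'] [T2Space N'] {D : M → N} {F : M → N'}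
    (hD : Continuous D) (hF : Continuous F) (hDs : Function.Surjective D)
    (hFs : Function.Surjective F) (h : ∀ x y, D x = D y ↔ F x = F y) :
    ∃ Φ : N ≃ₜ N', ∀ x, Φ (D x) = F x := by
  have hqD : IsQuotientMap D := hD.isClosedMap.isQuotientMap hD hDs
  have hqF : IsQuotientMap F := hF.isClosedMap.isQuotientMap hF hFs
  set f : N → N' := fun y => F (Function.surjInv hDs y) with hf
  set k : N' → N := fun y => D (Function.surjInv hFs y) with hk
  have h1 : ∀ x, f (D x) = F x := by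
    intro x
    rw [hf]
    exact (h _ _).1 (Function.surjInv_eq hDs (D x))
  have h2 : ∀ x, k (F x) = D x := by
    intro x
    rw [hk]
    exact (h _ _).2 (Function.surjInv_eq hFs (F x))
  refine ⟨⟨⟨f, k, ?_, ?_⟩, ?_, ?_⟩, h1⟩
  · intro y
    obtain ⟨x, rfl⟩ := hDs y
    rw [h1, h2]
  · intro y
    obtain ⟨x, rfl⟩ := hFs y
    rw [h2, h1]
  · rw [hqD.continuous_iff]
    have : f ∘ D = F := funext h1
    rw [this]
    exact hF
  · rw [hqF.continuous_iff]
    have : k ∘ F = D := funext h2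
    rw [this]
    exact hD

/-- The homeomorphism which moves the two parts of the join apart. -/
noncomputable def Theta (g : ℝ × ℝ → ℝ) (hg : Continuous g) (x y : ℝ) {T : ℝ} (hT : 0 ≤ T) :
    R3 ≃ₜ R3 :=
  (vert g hg x y (homeoOf (zK T) (strictMono_zK hT) (surjective_zK hT))).trans
    (level (aK T) (continuous_aK T) (aK_pos T))

lemma Theta_apply (g : ℝ × ℝ → ℝ) (hg : Continuous g) (x y : ℝ) {T : ℝ} (hT : 0 ≤ T) (p : R3) :
    Theta g hg x y hT p = (aK T (zK T (p.2.2 - g (p.1, p.2.1))) * (p.1 - x - 1 / 2), p.2.1 - y,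
      zK T (p.2.2 - g (p.1, p.2.1))) := rfl

lemma Theta_image {A B : Set R3} {g : ℝ × ℝ → ℝ} (hg : Continuous g) {x y h T : ℝ} (hT : 0 ≤ T)
    (hA : ∀ p ∈ A, p.2.2 + 1 / 2 ≤ g (p.1, p.2.1))
    (hB : ∀ p ∈ B, g (p.1, p.2.1) ≤ p.2.2 - 1 / 2)
    (hgs : ∀ s : ℝ, 0 ≤ s → s ≤ 1 → g (x + s, y) = h + 1 / 2) :
    Theta g hg x y hT '' (A ∪ B ∪ strands x y h) =
      fA g x y T '' A ∪ fB g x y T '' B ∪ St T := by
  set Θ := Theta g hg x y hT with hΘ
  have hΘa : ∀ p, Θ p = (aK T (zK T (p.2.2 - g (p.1, p.2.1))) * (p.1 - x - 1 / 2), p.2.1 - y,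
      zK T (p.2.2 - g (p.1, p.2.1))) := fun p => rfl
  rw [image_union, image_union]
  congr 1
  · congr 1
    · apply image_congr
      intro p hp
      have h5 := hA p hp
      have h6 : p.2.2 - g (p.1, p.2.1) ≤ -1 / 2 := by linarith
      rw [hΘa, zK_of_le h6, aK_far (by rw [abs_of_nonpos (by linarith)]; linarith), one_mul]
      rfl
    · apply image_congr
      intro p hp
      have h5 := hB p hp
      have h6 : 1 / 2 ≤ p.2.2 - g (p.1, p.2.1) := by linarith
      rw [hΘa, zK_of_ge h6, aK_far (by rw [abs_of_nonneg (by linarith)]; linarith), one_mul]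
      rfl
  · ext u
    constructor
    · rintro ⟨p, ⟨h5, h6, h7, h8⟩, rfl⟩
      have h9 : g (p.1, p.2.1) = h + 1 / 2 := by
        have h10 := abs_le.mp h6.le
        have h11 := hgs (p.1 - x) (by linarith) (by linarith)
        rw [add_sub_cancel] at h11
        rw [h5, h11]
      rw [hΘa, h9]
      have h10 : zK T (p.2.2 - (h + 1 / 2)) = (2 * T + 1) * (p.2.2 - (h + 1 / 2)) :=
        zK_mid (by linarith) (by linarith)
      have h11 : |zK T (p.2.2 - (h + 1 / 2))| ≤ T + 1 / 2 := by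
        rw [h10, abs_le]
        constructor <;> nlinarith
      refine ⟨?_, h11, ?_⟩
      · change p.2.1 - y = 0
        rw [h5, sub_self]
      · change |aK T (zK T (p.2.2 - (h + 1 / 2))) * (p.1 - x - 1 / 2)| =
          (T + 3 / 2 - |zK T (p.2.2 - (h + 1 / 2))|) / 2
        rw [abs_mul, h6, aK_near h11, abs_of_nonneg (by linarith)]
        ring
    · rintro ⟨h5, h6, h7⟩
      set z := u.2.2 with hz
      have h8 := abs_le.mp h6
      have hα : 0 < aK T z := aK_pos T z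
      have hαz := aK_near h6
      have h2T : 0 < 2 * T + 1 := by linarith
      set s : ℝ := u.1 / aK T z with hs
      have hsu : aK T z * s = u.1 := by rw [hs]; field_simp
      have hsabs : |s| = 1 / 2 := by
        rw [hs, abs_div, abs_of_pos hα, h7, ← hαz]
        field_simp
      have hs2 := abs_le.mp hsabs.le
      have h9 : g (x + (s + 1 / 2), y) = h + 1 / 2 := hgs _ (by linarith) (by linarith)
      have h10 : -(1 / 2) ≤ z / (2 * T + 1) := by
        rw [le_div_iff₀ h2T]; linarith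
      have h11 : z / (2 * T + 1) ≤ 1 / 2 := by
        rw [div_le_iff₀ h2T]; linarith
      refine ⟨(x + (s + 1 / 2), y, h + 1 / 2 + z / (2 * T + 1)), ⟨rfl, ?_, ?_, ?_⟩, ?_⟩
      · change |x + (s + 1 / 2) - x - 1 / 2| = 1 / 2
        rw [show x + (s + 1 / 2) - x - 1 / 2 = s by ring, hsabs]
      · change h ≤ h + 1 / 2 + z / (2 * T + 1)
        linarith
      · change h + 1 / 2 + z / (2 * T + 1) ≤ h + 1
        linarith
      · rw [hΘa]
        change (aK T (zK T (h + 1 / 2 + z / (2 * T + 1) - g (x + (s + 1 / 2), y))) *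
          (x + (s + 1 / 2) - x - 1 / 2), y - y,
          zK T (h + 1 / 2 + z / (2 * T + 1) - g (x + (s + 1 / 2), y))) = u
        rw [h9, show h + 1 / 2 + z / (2 * T + 1) - (h + 1 / 2) = z / (2 * T + 1) by ring,
          zK_mid (by linarith) h11, mul_div_cancel₀ _ h2T.ne',
          show x + (s + 1 / 2) - x - 1 / 2 = s by ring, hsu, sub_self, ← h5]

/-- The compact boxes around the upper part. -/
def Bx (g : ℝ × ℝ → ℝ) (x y T : ℝ) : Set R3 :=
  {p | |aK T (zK T (p.2.2 - g (p.1, p.2.1))) * (p.1 - x - 1 / 2)| ≤ T + 1 ∧ |p.2.1 - y| ≤ T + 1 ∧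
    |zK T (p.2.2 - g (p.1, p.2.1)) - (T + 3 / 2)| ≤ T + 1}

/-- Their interiors. -/
def BxO (g : ℝ × ℝ → ℝ) (x y T : ℝ) : Set R3 :=
  {p | |aK T (zK T (p.2.2 - g (p.1, p.2.1))) * (p.1 - x - 1 / 2)| < T + 1 ∧ |p.2.1 - y| < T + 1 ∧
    |zK T (p.2.2 - g (p.1, p.2.1)) - (T + 3 / 2)| < T + 1}

lemma isOpen_BxO {g : ℝ × ℝ → ℝ} (hg : Continuous g) (x y T : ℝ) : IsOpen (BxO g x y T) := by
  have h1 := continuous_zK T
  have h2 := continuous_aK T
  have h3 : Continuous fun p : R3 => g (p.1, p.2.1) := hg.comp (by fun_prop)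
  have c1 : Continuous fun p : R3 =>
      |aK T (zK T (p.2.2 - g (p.1, p.2.1))) * (p.1 - x - 1 / 2)| := by fun_prop
  have c2 : Continuous fun p : R3 => |p.2.1 - y| := by fun_prop
  have c3 : Continuous fun p : R3 => |zK T (p.2.2 - g (p.1, p.2.1)) - (T + 3 / 2)| := by fun_prop
  exact (isOpen_lt c1 continuous_const).inter
    ((isOpen_lt c2 continuous_const).inter (isOpen_lt c3 continuous_const))

lemma Bx_subset_BxO {g : ℝ × ℝ → ℝ} {x y T T' : ℝ} (hT : 0 ≤ T) (hTT : T < T') :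
    Bx g x y T ⊆ BxO g x y T' := by
  rintro p ⟨h1, h2, h3⟩
  set z := p.2.2 - g (p.1, p.2.1) with hz
  set t := p.1 - x - 1 / 2 with ht
  have h4 := abs_le.1 h3
  have hz0 : 0 < z := by
    by_contra hcon
    push Not at hcon
    have h5 := (strictMono_zK hT).monotone hcon
    have h6 : zK T 0 = 0 := by rw [zK_mid (by norm_num) (by norm_num), mul_zero]
    linarith
  rcases le_total z (1 / 2) with h5 | h5
  · rw [zK_mid (by linarith) h5] at h1 h3 h4
    have e1 : 0 ≤ (2 * T + 1) * z := by positivity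
    have e2 : (2 * T + 1) * z ≤ T + 1 / 2 := by nlinarith
    have e3 : 0 ≤ (2 * T' + 1) * z := by nlinarith
    have e4 : (2 * T' + 1) * z ≤ T' + 1 / 2 := by nlinarith
    have e5 : (2 * T + 1) * z < (2 * T' + 1) * z := by nlinarith
    rw [aK_near (by rw [abs_of_nonneg e1]; exact e2), abs_of_nonneg e1, abs_mul,
      abs_of_pos (show 0 < T + 3 / 2 - (2 * T + 1) * z by linarith)] at h1
    refine ⟨?_, by linarith, ?_⟩
    · change |aK T' (zK T' z) * t| < T' + 1
      rw [zK_mid (by linarith) h5, aK_near (by rw [abs_of_nonneg e3]; exact e4),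
        abs_of_nonneg e3, abs_mul,
        abs_of_pos (show 0 < T' + 3 / 2 - (2 * T' + 1) * z by linarith)]
      have e6 : 0 < T + 3 / 2 - (2 * T + 1) * z := by linarith
      have e7 : 0 < T' + 3 / 2 - (2 * T' + 1) * z := by linarith
      have e8 : (T' + 3 / 2 - (2 * T' + 1) * z) * (T + 1) <
          (T' + 1) * (T + 3 / 2 - (2 * T + 1) * z) := by nlinarith
      by_contra hcon
      push Not at hcon
      have e9 := mul_le_mul_of_nonneg_left h1 e7.le
      have e10 := mul_le_mul_of_nonneg_left hcon e6.le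
      nlinarith
    · change |zK T' z - (T' + 3 / 2)| < T' + 1
      rw [zK_mid (by linarith) h5, abs_lt]
      constructor <;> linarith
  · rw [zK_of_ge h5] at h1 h3 h4
    rw [aK_far (by rw [abs_of_nonneg (by linarith)]; linarith), one_mul] at h1
    refine ⟨?_, by linarith, ?_⟩
    · change |aK T' (zK T' z) * t| < T' + 1
      rw [zK_of_ge h5, aK_far (by rw [abs_of_nonneg (by linarith)]; linarith), one_mul]
      linarith
    · change |zK T' z - (T' + 3 / 2)| < T' + 1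
      rw [zK_of_ge h5, abs_lt]
      constructor <;> linarith

lemma BxO_subset_Bx (g : ℝ × ℝ → ℝ) (x y T : ℝ) : BxO g x y T ⊆ Bx g x y T := by
  rintro p ⟨h1, h2, h3⟩
  exact ⟨h1.le, h2.le, h3.le⟩

/-- Points below the surface are not in the boxes. -/
lemma notMem_Bx {g : ℝ × ℝ → ℝ} {x y T : ℝ} (hT : 0 ≤ T) {p : R3} (hp : p.2.2 ≤ g (p.1, p.2.1)) :
    p ∉ Bx g x y T := by
  rintro ⟨h1, h2, h3⟩
  have h4 := abs_le.1 h3
  have h5 := (strictMono_zK hT).monotone (sub_nonpos.2 hp)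
  have h6 : zK T 0 = 0 := by rw [zK_mid (by norm_num) (by norm_num), mul_zero]
  linarith

lemma cell_Bx {A B : Set R3} {g : ℝ × ℝ → ℝ} (hg : Continuous g) {x y h : ℝ}
    (hA : ∀ p ∈ A, p.2.2 + 1 / 2 ≤ g (p.1, p.2.1))
    (hB : ∀ p ∈ B, g (p.1, p.2.1) ≤ p.2.2 - 1 / 2)
    (hgs : ∀ s : ℝ, 0 ≤ s → s ≤ 1 → g (x + s, y) = h + 1 / 2) (hUA : Unk (A ∪ tent x y h))
    {N : ℝ} (hN0 : 0 ≤ N)
    (hNB : ∀ p ∈ B, |p.1 - x - 1 / 2| ≤ N ∧ |p.2.1 - y| ≤ N ∧ |p.2.2 - g (p.1, p.2.1)| ≤ N)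
    {T : ℝ} (hNT : N ≤ T) :
    ∃ w : R3 → S3, PCell axisY (up (A ∪ B ∪ strands x y h)) w ∧
      range w = (up (Bx g x y T))ᶜ := by
  have hT : 0 ≤ T := hN0.trans hNT
  have h1 : Unk (fA g x y T '' A ∪ Te T) := side hg hT hA hgs hUA
  obtain ⟨w, hw, hwr⟩ := cell_side (A := fA g x y T '' A) (B := fB g x y T '' B) hT (by
    rintro _ ⟨p, hp, rfl⟩
    have h8 := hA p hp
    change p.2.2 - g (p.1, p.2.1) - T ≤ -(T + 1 / 2)
    linarith) (by
    rintro _ ⟨p, hp, rfl⟩
    obtain ⟨h5, h6, h7⟩ := hNB p hp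
    have h8 := hB p hp
    have h9 := abs_le.mp h7
    refine ⟨h5, h6, ?_, ?_⟩
    · change T + 1 / 2 ≤ p.2.2 - g (p.1, p.2.1) + T
      linarith
    · change p.2.2 - g (p.1, p.2.1) + T ≤ T + N
      linarith) hNT h1
  set Θ := Theta g hg x y hT with hΘ
  have himg := Theta_image hg hT hA hB hgs
  have hmem : ∀ m : S3, ext3 Θ m ∈ up (fA g x y T '' A ∪ fB g x y T '' B ∪ St T) ↔
      m ∈ up (A ∪ B ∪ strands x y h) := by
    intro m
    induction m using OnePoint.rec with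
    | infty =>
      rw [ext3_infty]
      exact ⟨fun h => absurd h (infty_notMem_up _), fun h => absurd h (infty_notMem_up _)⟩
    | coe v =>
      rw [ext3_coe, coe_mem_up, coe_mem_up, ← himg]
      exact Θ.injective.mem_set_image
  refine ⟨(ext3 Θ).symm ∘ w, ⟨(ext3 Θ).symm.isOpenEmbedding.comp hw.1, ?_⟩, ?_⟩
  · intro v
    rw [Function.comp, ← hmem, Homeomorph.apply_symm_apply]
    exact hw.2 v
  · ext m
    have h2 : m ∈ range ((ext3 Θ).symm ∘ w) ↔ ext3 Θ m ∈ range w := by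
      constructor
      · rintro ⟨v, rfl⟩
        rw [Function.comp, Homeomorph.apply_symm_apply]
        exact mem_range_self v
      · rintro ⟨v, hv⟩
        exact ⟨v, by rw [Function.comp, hv, Homeomorph.symm_apply_apply]⟩
    rw [h2, hwr, mem_compl_iff, mem_compl_iff, not_iff_not]
    induction m using OnePoint.rec with
    | infty =>
      rw [ext3_infty]
      exact ⟨fun h => absurd h (infty_notMem_up _), fun h => absurd h (infty_notMem_up _)⟩
    | coe v =>
      rw [ext3_coe, coe_mem_up, coe_mem_up, Metric.mem_closedBall, dist_eq_norm]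
      have e1 : (Θ v - ((0, 0, T + 3 / 2) : R3)).1 =
          aK T (zK T (v.2.2 - g (v.1, v.2.1))) * (v.1 - x - 1 / 2) := by
        change aK T (zK T (v.2.2 - g (v.1, v.2.1))) * (v.1 - x - 1 / 2) - 0 = _
        rw [sub_zero]
      have e2 : (Θ v - ((0, 0, T + 3 / 2) : R3)).2.1 = v.2.1 - y := by
        change v.2.1 - y - 0 = _
        rw [sub_zero]
      have e3 : (Θ v - ((0, 0, T + 3 / 2) : R3)).2.2 =
        zK T (v.2.2 - g (v.1, v.2.1)) - (T + 3 / 2) := rfl
      constructor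
      · intro hv
        refine ⟨?_, ?_, ?_⟩
        · rw [← e1]; exact (abs_fst_le _).trans hv
        · rw [← e2]; exact (abs_snd1_le _).trans hv
        · rw [← e3]; exact (abs_snd2_le _).trans hv
      · rintro ⟨h3, h4, h5⟩
        refine norm_le_of _ _ ?_ ?_ ?_
        · rw [e1]; exact h3
        · rw [e2]; exact h4
        · rw [e3]; exact h5

/-- Collapsing the lower part of the join. -/
lemma collapse_below {A B : Set R3} {g : ℝ × ℝ → ℝ} (hg : Continuous g) {x y h : ℝ}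
    (hA : ∀ p ∈ A, p.2.2 + 1 / 2 ≤ g (p.1, p.2.1))
    (hB : ∀ p ∈ B, g (p.1, p.2.1) ≤ p.2.2 - 1 / 2)
    (hgs : ∀ s : ℝ, 0 ≤ s → s ≤ 1 → g (x + s, y) = h + 1 / 2) (hUA : Unk (A ∪ tent x y h))
    {N : ℝ} (hN0 : 0 ≤ N)
    (hNB : ∀ p ∈ B, |p.1 - x - 1 / 2| ≤ N ∧ |p.2.1 - y| ≤ N ∧ |p.2.2 - g (p.1, p.2.1)| ≤ N) :
    ∃ (q : S3) (F : S3 → S3), q ∈ up (A ∪ B ∪ strands x y h) ∧ Continuous F ∧
      (∀ m, F m = q ↔ m ∈ ⋂ n : ℕ, (up (Bx g x y (N + n)))ᶜ) ∧
      InjOn F (⋂ n : ℕ, (up (Bx g x y (N + n)))ᶜ)ᶜ ∧ Function.Surjective F ∧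
      ∀ m, m ∉ ⋂ n : ℕ, (up (Bx g x y (N + n)))ᶜ →
        (F m ∈ up (A ∪ B ∪ strands x y h) ↔ m ∈ up (A ∪ B ∪ strands x y h)) := by
  have hNn : ∀ n : ℕ, N ≤ N + n := fun n => by
    have : (0 : ℝ) ≤ n := Nat.cast_nonneg n
    linarith
  choose w hw hwr using fun n : ℕ => cell_Bx hg hA hB hgs hUA hN0 hNB (hNn n)
  set q : R3 := (x, y, h) with hq
  have hgq : g (x, y) = h + 1 / 2 := by
    have := hgs 0 le_rfl (by norm_num)
    rwa [add_zero] at this
  have hqS : q ∈ A ∪ B ∪ strands x y h := by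
    right
    refine ⟨rfl, ?_, le_refl h, ?_⟩
    · change |x - x - 1 / 2| = 1 / 2
      rw [show x - x - 1 / 2 = -(1 / 2) by ring, abs_neg, abs_of_pos (by norm_num)]
    · change h ≤ h + 1
      linarith
  obtain ⟨F, h1, h2, h3, h4, h5⟩ := exists_shrink (A := ⋂ n : ℕ, (up (Bx g x y (N + n)))ᶜ)
    (q := (q : S3)) hw (by
      intro n
      rw [hwr, hwr]
      have hlt : N + (n : ℝ) < N + ((n + 1 : ℕ) : ℝ) := by push_cast; linarith
      have e1 : up (BxO g x y (N + ((n + 1 : ℕ) : ℝ))) ⊆ up (Bx g x y (N + ((n + 1 : ℕ) : ℝ))) :=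
        image_mono (BxO_subset_Bx _ _ _ _)
      have e2 : up (Bx g x y (N + n)) ⊆ up (BxO g x y (N + ((n + 1 : ℕ) : ℝ))) :=
        image_mono (Bx_subset_BxO (hN0.trans (hNn n)) hlt)
      have e3 : IsClosed (up (BxO g x y (N + ((n + 1 : ℕ) : ℝ))))ᶜ :=
        (OnePoint.isOpenEmbedding_coe.isOpenMap _ (isOpen_BxO hg _ _ _)).isClosed_compl
      exact (closure_minimal (compl_subset_compl.2 e1) e3).trans (compl_subset_compl.2 e2))
    (by simp_rw [hwr]) (coe_mem_up.2 hqS) (by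
      rw [mem_iInter]
      intro n
      rw [mem_compl_iff, coe_mem_up]
      apply notMem_Bx (hN0.trans (hNn n))
      change h ≤ g (x, y)
      rw [hgq]
      linarith)
  exact ⟨(q : S3), F, coe_mem_up.2 hqS, h1, h2, h3, h4, h5⟩

/-- **Swapping the lower part.** The lower part of a stacked join can be replaced by any other
unknotted lower part. -/
theorem swap_below {A A₀ B : Set R3} (hBc : IsCompact B) {g : ℝ × ℝ → ℝ}
    (hg : Continuous g) {x y h : ℝ} (hA : ∀ p ∈ A, p.2.2 + 1 / 2 ≤ g (p.1, p.2.1))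
    (hA₀ : ∀ p ∈ A₀, p.2.2 + 1 / 2 ≤ g (p.1, p.2.1))
    (hB : ∀ p ∈ B, g (p.1, p.2.1) ≤ p.2.2 - 1 / 2)
    (hgs : ∀ s : ℝ, 0 ≤ s → s ≤ 1 → g (x + s, y) = h + 1 / 2) (hUA : Unk (A ∪ tent x y h))
    (hUA₀ : Unk (A₀ ∪ tent x y h)) :
    ∃ Φ : S3 ≃ₜ S3, Φ '' up (A₀ ∪ B ∪ strands x y h) = up (A ∪ B ∪ strands x y h) := by
  -- a bound
  obtain ⟨N, hN0, hNB⟩ : ∃ N : ℝ, 0 ≤ N ∧
      (∀ p ∈ B, |p.1 - x - 1 / 2| ≤ N ∧ |p.2.1 - y| ≤ N ∧ |p.2.2 - g (p.1, p.2.1)| ≤ N) := by
    have hf : Continuous fun p : R3 => ((p.1 - x - 1 / 2, p.2.1 - y, p.2.2 - g (p.1, p.2.1)) : R3) :=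
      by fun_prop
    obtain ⟨N₁, hN₁⟩ := (hBc.image hf).isBounded.exists_norm_le
    refine ⟨max N₁ 0, le_max_right _ _, ?_⟩
    intro p hp
    have h1 := hN₁ _ (mem_image_of_mem _ hp)
    exact ⟨((abs_fst_le _).trans h1).trans (le_max_left _ _),
      ((abs_snd1_le _).trans h1).trans (le_max_left _ _),
      ((abs_snd2_le _).trans h1).trans (le_max_left _ _)⟩
  obtain ⟨q, F, hq, h1, h2, h3, h4, h5⟩ := collapse_below hg hA hB hgs hUA hN0 hNB
  obtain ⟨q₀, D, hq₀, k1, k2, k3, k4, k5⟩ := collapse_below hg hA₀ hB hgs hUA₀ hN0 hNB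
  set Ω : Set S3 := ⋂ n : ℕ, (up (Bx g x y (N + n)))ᶜ with hΩ
  -- the two knots agree off `Ω`
  have hagree : ∀ m, m ∉ Ω → (m ∈ up (A₀ ∪ B ∪ strands x y h) ↔ m ∈ up (A ∪ B ∪ strands x y h)) := by
    intro m hm
    rw [hΩ, mem_iInter] at hm
    obtain ⟨n, hn⟩ := not_forall.1 hm
    obtain ⟨v, hv, rfl⟩ := notMem_compl_iff.1 hn
    have hT : 0 ≤ N + (n : ℝ) := by positivity
    rw [coe_mem_up, coe_mem_up]
    have hvg : g (v.1, v.2.1) < v.2.2 := by
      by_contra hcon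
      push Not at hcon
      exact notMem_Bx hT hcon hv
    constructor
    · rintro ((h | h) | h)
      · have := hA₀ v h
        exact absurd hvg (by linarith)
      · exact Or.inl (Or.inr h)
      · exact Or.inr h
    · rintro ((h | h) | h)
      · have := hA v h
        exact absurd hvg (by linarith)
      · exact Or.inl (Or.inr h)
      · exact Or.inr h
  have hfib : ∀ a b, D a = D b ↔ F a = F b := by
    intro a b
    by_cases ha : a ∈ Ω
    · have e1 := (k2 a).2 ha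
      have e2 := (h2 a).2 ha
      rw [e1, e2]
      rw [eq_comm, k2, eq_comm (a := q), h2]
    · by_cases hb : b ∈ Ω
      · have e1 := (k2 b).2 hb
        have e2 := (h2 b).2 hb
        rw [e1, e2, k2, h2]
      · constructor
        · intro hab
          rw [k3 ha hb hab]
        · intro hab
          rw [h3 ha hb hab]
  obtain ⟨Φ, hΦ⟩ := exists_homeo_of_collapse k1 h1 k4 h4 hfib
  have key : ∀ m, Φ m ∈ up (A ∪ B ∪ strands x y h) ↔ m ∈ up (A₀ ∪ B ∪ strands x y h) := by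
    intro m
    obtain ⟨a, rfl⟩ := k4 m
    rw [hΦ]
    by_cases ha : a ∈ Ω
    · rw [(k2 a).2 ha, (h2 a).2 ha]
      exact ⟨fun _ => hq₀, fun _ => hq⟩
    · rw [h5 a ha, k5 a ha]
      exact (hagree a ha).symm
  refine ⟨Φ, ?_⟩
  ext m
  constructor
  · rintro ⟨a, ha, rfl⟩
    exact (key a).2 ha
  · intro hm
    refine ⟨Φ.symm m, ?_, Φ.apply_symm_apply m⟩
    rw [← key, Φ.apply_symm_apply]
    exact hm

end Pool.Agent.LK
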