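import Pool.Agent.MP_aea6d5_co.JoinTop

/-! The stacked join of two unknots is unknotted. -/

set_option autoImplicit false
set_option linter.unusedSectionVars false

open Set Topology Filter

namespace Pool.Agent.LK

lemma cell_side {A B : Set R3} {T N : ℝ} (hT : 0 ≤ T) (hA : ∀ u ∈ A, u.2.2 ≤ -(T + 1 / 2))
    (hB : ∀ u ∈ B, |u.1| ≤ N ∧ |u.2.1| ≤ N ∧ T + 1 / 2 ≤ u.2.2 ∧ u.2.2 ≤ T + N) (hN : N ≤ T)
    (hU : Unk (A ∪ Te T)) :
    ∃ w : R3 → S3, PCell axisY (up (A ∪ B ∪ St T)) w ∧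
      range w = (up (Metric.closedBall ((0, 0, T + 3 / 2) : R3) (T + 1)))ᶜ := by
  set q : R3 := (0, 0, T + 3 / 2) with hq
  have hqT : q ∈ Te T := by
    refine ⟨rfl, ?_, ?_, ?_⟩
    · change -(T + 1 / 2) ≤ T + 3 / 2
      linarith
    · exact le_refl (T + 3 / 2)
    · change |(0 : ℝ)| = (T + 3 / 2 - |T + 3 / 2|) / 2
      rw [abs_zero, abs_of_nonneg (by linarith), sub_self, zero_div]
  obtain ⟨w, hw, hwr⟩ := cellOfUnk (A ∪ Te T) q hU (Or.inr hqT)
  refine radial_cell (X := A ∪ Te T) (R := T + 1) (R' := T + 3 / 2) (by linarith) (by linarith)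
    ?_ ?_ hw hwr
  · -- conical
    intro v hv hvn c hc hcn hvX
    have hv3 : |v.2.2| < T + 3 / 2 := (abs_snd2_le v).trans_lt hvn
    have hc3 : |c * v.2.2| < T + 3 / 2 := (abs_snd2_le (c • v)).trans_lt hcn
    have hv3' := abs_lt.mp hv3
    have hc3' := abs_lt.mp hc3
    have e1 : (q + v).1 = v.1 := by
      change 0 + v.1 = v.1
      rw [zero_add]
    have e2 : (q + v).2.1 = v.2.1 := by
      change 0 + v.2.1 = v.2.1
      rw [zero_add]
    have e3 : (q + v).2.2 = T + 3 / 2 + v.2.2 := rfl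
    have f1 : (q + c • v).1 = c * v.1 := by
      change 0 + c * v.1 = c * v.1
      rw [zero_add]
    have f2 : (q + c • v).2.1 = c * v.2.1 := by
      change 0 + c * v.2.1 = c * v.2.1
      rw [zero_add]
    have f3 : (q + c • v).2.2 = T + 3 / 2 + c * v.2.2 := rfl
    right
    rcases hvX with hvA | ⟨h1, h2, h3, h4⟩
    · exfalso
      have := hA _ hvA
      rw [e3] at this
      linarith
    · rw [e2] at h1
      rw [e3] at h2 h3
      rw [e1, e3, abs_of_pos (show 0 < T + 3 / 2 + v.2.2 by linarith)] at h4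
      have hz : v.2.2 ≤ 0 := by linarith
      refine ⟨by rw [f2, h1, mul_zero], ?_, ?_, ?_⟩
      · rw [f3]; linarith
      · rw [f3]; nlinarith
      · rw [f1, f3, abs_mul, abs_of_pos hc, h4,
          abs_of_pos (show 0 < T + 3 / 2 + c * v.2.2 by linarith)]
        ring
  · -- agreement off the ball
    intro p hp
    have hball : ∀ r : ℝ, 0 ≤ r → |p.1| ≤ r → |p.2.1| ≤ r → |p.2.2 - (T + 3 / 2)| ≤ r →
        ‖p - q‖ ≤ r := by
      intro r _ h1 h2 h3
      refine norm_le_of _ r ?_ ?_ h3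
      · change |p.1 - 0| ≤ r
        rwa [sub_zero]
      · change |p.2.1 - 0| ≤ r
        rwa [sub_zero]
    constructor
    · rintro ((h | h) | ⟨h1, h2, h3⟩)
      · exact Or.inl h
      · exfalso
        obtain ⟨h1, h2, h3, h4⟩ := hB p h
        have := hball (T + 1) (by linarith) (by linarith) (by linarith)
          (abs_le.mpr ⟨by linarith, by linarith⟩)
        linarith
      · right
        have h4 := abs_le.mp h2
        exact ⟨h1, by linarith, by linarith, h3⟩
    · rintro (h | ⟨h1, h2, h3, h4⟩)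
      · exact Or.inl (Or.inl h)
      · by_cases h5 : p.2.2 ≤ T + 1 / 2
        · right
          exact ⟨h1, abs_le.mpr ⟨by linarith, h5⟩, h4⟩
        · exfalso
          push Not at h5
          rw [abs_of_pos (show 0 < p.2.2 by linarith)] at h4
          have := hball (T + 1) (by linarith) (by rw [h4]; linarith)
            (by rw [h1, abs_zero]; linarith) (abs_le.mpr ⟨by linarith, by linarith⟩)
          linarith

/-- Reflection in the horizontal plane. -/
noncomputable def refl3 : R3 ≃ₜ R3 where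
  toFun p := (p.1, p.2.1, -p.2.2)
  invFun p := (p.1, p.2.1, -p.2.2)
  left_inv := by
    intro p
    refine Prod.ext rfl (Prod.ext rfl ?_)
    exact neg_neg p.2.2
  right_inv := by
    intro p
    refine Prod.ext rfl (Prod.ext rfl ?_)
    exact neg_neg p.2.2
  continuous_toFun := by fun_prop
  continuous_invFun := by fun_prop

lemma refl3_apply (p : R3) : refl3 p = (p.1, p.2.1, -p.2.2) := rfl

lemma refl3_refl3 (p : R3) : refl3 (refl3 p) = p := refl3.left_inv p

lemma mem_refl3_image {X : Set R3} {p : R3} : p ∈ refl3 '' X ↔ refl3 p ∈ X := by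
  constructor
  · rintro ⟨q, hq, rfl⟩
    rwa [refl3_refl3]
  · intro h
    exact ⟨_, h, refl3_refl3 p⟩

lemma refl3_St (T : ℝ) : refl3 '' St T = St T := by
  ext p
  rw [mem_refl3_image]
  simp only [St, mem_ofPred_eq, refl3_apply, abs_neg]

/-- The sum of two parts which are unknotted after adding the tents is unknotted. -/
lemma unk_sum {A B : Set R3} {T N : ℝ} (hN0 : 0 ≤ N) (hN : N ≤ T)
    (hA : ∀ u ∈ A, |u.1| ≤ N ∧ |u.2.1| ≤ N ∧ T + 1 / 2 ≤ -u.2.2 ∧ -u.2.2 ≤ T + N)
    (hB : ∀ u ∈ B, |u.1| ≤ N ∧ |u.2.1| ≤ N ∧ T + 1 / 2 ≤ u.2.2 ∧ u.2.2 ≤ T + N)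
    (hUA : Unk (A ∪ Te T)) (hUB : Unk (refl3 '' B ∪ Te T)) : Unk (A ∪ B ∪ St T) := by
  have hT : 0 ≤ T := hN0.trans hN
  obtain ⟨w₁, hw₁, hr₁⟩ := cell_side hT (fun u hu => by linarith [(hA u hu).2.2.1]) hB hN hUA
  obtain ⟨w₂', hw₂', hr₂'⟩ := cell_side (A := refl3 '' B) (B := refl3 '' A) hT (by
      intro u hu
      rw [mem_refl3_image] at hu
      have := (hB _ hu).2.2.1
      rw [refl3_apply] at this
      simp only at this
      linarith) (by
      intro u hu
      rw [mem_refl3_image] at hu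
      have := hA _ hu
      rw [refl3_apply] at this
      simpa using this) hN hUB
  -- reflect the second cell
  set w₂ : R3 → S3 := ext3 refl3 ∘ w₂' with hw₂_def
  have hext : ∀ m : S3, ext3 refl3 (ext3 refl3 m) = m := by
    intro m
    induction m using OnePoint.rec with
    | infty => rfl
    | coe v => rw [ext3_coe, ext3_coe, refl3_refl3]
  have hmem : ∀ (X : Set R3) (m : S3), ext3 refl3 m ∈ up X ↔ m ∈ up (refl3 '' X) := by
    intro X m
    induction m using OnePoint.rec with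
    | infty =>
      rw [ext3_infty]
      exact ⟨fun h => absurd h (infty_notMem_up _), fun h => absurd h (infty_notMem_up _)⟩
    | coe v => rw [ext3_coe, coe_mem_up, coe_mem_up, mem_refl3_image]
  have hset : refl3 '' (A ∪ B ∪ St T) = refl3 '' B ∪ refl3 '' A ∪ St T := by
    rw [image_union, image_union, refl3_St, union_comm (refl3 '' A)]
  have hw₂ : PCell axisY (up (A ∪ B ∪ St T)) w₂ := by
    refine ⟨(ext3 refl3).isOpenEmbedding.comp hw₂'.1, ?_⟩
    intro x
    rw [hw₂_def, Function.comp, hmem, hset]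
    exact hw₂'.2 x
  have hr₂ : range w₂ = (up (Metric.closedBall ((0, 0, -(T + 3 / 2)) : R3) (T + 1)))ᶜ := by
    ext m
    constructor
    · rintro ⟨x, rfl⟩ hcon
      have h1 : w₂' x ∈ (up (Metric.closedBall ((0, 0, T + 3 / 2) : R3) (T + 1)))ᶜ :=
        hr₂' ▸ mem_range_self x
      apply h1
      rw [hw₂_def, Function.comp, hmem] at hcon
      obtain ⟨v, hv, hvx⟩ := hcon
      rw [← hvx, coe_mem_up]
      rw [mem_refl3_image, Metric.mem_closedBall, dist_eq_norm] at hv
      rw [Metric.mem_closedBall, dist_eq_norm]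
      have a1 := (abs_fst_le _).trans hv
      have a2 := (abs_snd1_le _).trans hv
      refine norm_le_of _ _ a1 a2 ?_
      have h2 := (abs_snd2_le _).trans hv
      change |-v.2.2 - -(T + 3 / 2)| ≤ T + 1 at h2
      change |v.2.2 - (T + 3 / 2)| ≤ T + 1
      rw [← abs_neg]
      convert h2 using 2
      ring
    · intro hm
      have h1 : ext3 refl3 m ∈ range w₂' := by
        rw [hr₂']
        intro hcon
        rw [hmem] at hcon
        obtain ⟨v, hv, hvx⟩ := hcon
        apply hm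
        rw [← hvx, coe_mem_up]
        rw [mem_refl3_image, Metric.mem_closedBall, dist_eq_norm] at hv
        rw [Metric.mem_closedBall, dist_eq_norm]
        have a1 := (abs_fst_le _).trans hv
        have a2 := (abs_snd1_le _).trans hv
        refine norm_le_of _ _ a1 a2 ?_
        have h2 := (abs_snd2_le _).trans hv
        change |-v.2.2 - (T + 3 / 2)| ≤ T + 1 at h2
        change |v.2.2 - -(T + 3 / 2)| ≤ T + 1
        rw [← abs_neg]
        convert h2 using 2
        ring
      obtain ⟨x, hx⟩ := h1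
      refine ⟨x, ?_⟩
      rw [hw₂_def, Function.comp, hx, hext]
  -- the two cells cover the sphere
  have hcov : range w₁ ∪ range w₂ = univ := by
    rw [hr₁, hr₂, ← compl_inter, compl_univ_iff]
    rw [eq_empty_iff_forall_notMem]
    rintro m ⟨⟨v, hv, rfl⟩, hm2⟩
    rw [coe_mem_up] at hm2
    rw [Metric.mem_closedBall, dist_eq_norm] at hv hm2
    have h1 := (abs_snd2_le _).trans hv
    have h2 := (abs_snd2_le _).trans hm2
    change |v.2.2 - (T + 3 / 2)| ≤ T + 1 at h1
    change |v.2.2 - -(T + 3 / 2)| ≤ T + 1 at h2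
    have h3 := abs_le.mp h1
    have h4 := abs_le.mp h2
    linarith
  -- the point at the bottom
  set p : R3 := (1 / 2, 0, -(T + 1 / 2)) with hp
  have hpS : p ∈ St T := by
    refine ⟨rfl, ?_, ?_⟩
    · change |-(T + 1 / 2)| ≤ T + 1 / 2
      rw [abs_neg, abs_of_nonneg (by linarith)]
    · change |(1 / 2 : ℝ)| = (T + 3 / 2 - |-(T + 1 / 2)|) / 2
      rw [abs_neg, abs_of_nonneg (show 0 ≤ T + 1 / 2 by linarith),
        abs_of_nonneg (show (0 : ℝ) ≤ 1 / 2 by norm_num)]
      ring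
  have hpK : p ∈ A ∪ B ∪ St T := Or.inr hpS
  have hp2 : (p : S3) ∉ range w₂ := by
    rw [hr₂]
    intro hcon
    apply hcon
    rw [coe_mem_up, Metric.mem_closedBall, dist_eq_norm]
    refine norm_le_of _ _ ?_ ?_ ?_
    · change |(1 / 2 : ℝ) - 0| ≤ T + 1
      rw [sub_zero, abs_of_nonneg (by norm_num)]
      linarith
    · change |(0 : ℝ) - 0| ≤ T + 1
      rw [sub_zero, abs_zero]
      linarith
    · change |-(T + 1 / 2) - -(T + 3 / 2)| ≤ T + 1
      rw [show -(T + 1 / 2) - -(T + 3 / 2) = 1 by ring, abs_one]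
      linarith
  obtain ⟨w, hw, hwr⟩ := sum_lemma hw₁ hw₂ hcov (coe_mem_up.mpr hpK) hp2
  exact unkOfCell _ p w hpK hw hwr

/-- The chart for the join. -/
lemma join_homeo {A B : Set R3} {g : ℝ × ℝ → ℝ} (hg : Continuous g) {x y h T : ℝ} (hT : 0 ≤ T)
    (hA : ∀ p ∈ A, p.2.2 + 1 / 2 ≤ g (p.1, p.2.1))
    (hB : ∀ p ∈ B, g (p.1, p.2.1) ≤ p.2.2 - 1 / 2)
    (hgs : ∀ s : ℝ, 0 ≤ s → s ≤ 1 → g (x + s, y) = h + 1 / 2) :
    ∃ Θ : R3 ≃ₜ R3, Θ '' (A ∪ B ∪ strands x y h) =
      fA g x y T '' A ∪ fB g x y T '' B ∪ St T := by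
  -- the homeomorphism
  set Θ : R3 ≃ₜ R3 := (vert g hg x y (homeoOf (zK T) (strictMono_zK hT) (surjective_zK hT))).trans
    (level (aK T) (continuous_aK T) (aK_pos T)) with hΘ
  have hΘa : ∀ p, Θ p = (aK T (zK T (p.2.2 - g (p.1, p.2.1))) * (p.1 - x - 1 / 2), p.2.1 - y,
      zK T (p.2.2 - g (p.1, p.2.1))) := fun p => rfl
  refine ⟨Θ, ?_⟩
  rw [image_union, image_union]
  congr 1
  · congr 1
    · apply image_congr
      intro p hp
      have h5 := hA p hp
      have h6 : p.2.2 - g (p.1, p.2.1) ≤ -1 / 2 := by linarith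
      rw [hΘa, zK_of_le h6, aK_far (by rw [abs_of_nonpos (by linarith)]; linarith), one_mul]
      rfl
    · apply image_congr
      intro p hp
      have h5 := hB p hp
      have h6 : 1 / 2 ≤ p.2.2 - g (p.1, p.2.1) := by linarith
      rw [hΘa, zK_of_ge h6, aK_far (by rw [abs_of_nonneg (by linarith)]; linarith), one_mul]
      rfl
  · ext u
    constructor
    · rintro ⟨p, ⟨h5, h6, h7, h8⟩, rfl⟩
      have h9 : g (p.1, p.2.1) = h + 1 / 2 := by
        have h10 := abs_le.mp h6.le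
        have h11 := hgs (p.1 - x) (by linarith) (by linarith)
        rw [add_sub_cancel] at h11
        rw [h5, h11]
      rw [hΘa, h9]
      have h10 : zK T (p.2.2 - (h + 1 / 2)) = (2 * T + 1) * (p.2.2 - (h + 1 / 2)) :=
        zK_mid (by linarith) (by linarith)
      have h11 : |zK T (p.2.2 - (h + 1 / 2))| ≤ T + 1 / 2 := by
        rw [h10, abs_le]
        constructor <;> nlinarith
      refine ⟨?_, h11, ?_⟩
      · change p.2.1 - y = 0
        rw [h5, sub_self]
      · change |aK T (zK T (p.2.2 - (h + 1 / 2))) * (p.1 - x - 1 / 2)| =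
          (T + 3 / 2 - |zK T (p.2.2 - (h + 1 / 2))|) / 2
        rw [abs_mul, h6, aK_near h11, abs_of_nonneg (by linarith)]
        ring
    · rintro ⟨h5, h6, h7⟩
      set z := u.2.2 with hz
      have h8 := abs_le.mp h6
      have hα : 0 < aK T z := aK_pos T z
      have hαz := aK_near h6
      have h2T : 0 < 2 * T + 1 := by linarith
      set s : ℝ := u.1 / aK T z with hs
      have hsu : aK T z * s = u.1 := by rw [hs]; field_simp
      have hsabs : |s| = 1 / 2 := by
        rw [hs, abs_div, abs_of_pos hα, h7, ← hαz]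
        field_simp
      have hs2 := abs_le.mp hsabs.le
      have h9 : g (x + (s + 1 / 2), y) = h + 1 / 2 := hgs _ (by linarith) (by linarith)
      have h10 : -(1 / 2) ≤ z / (2 * T + 1) := by
        rw [le_div_iff₀ h2T]; linarith
      have h11 : z / (2 * T + 1) ≤ 1 / 2 := by
        rw [div_le_iff₀ h2T]; linarith
      refine ⟨(x + (s + 1 / 2), y, h + 1 / 2 + z / (2 * T + 1)), ⟨rfl, ?_, ?_, ?_⟩, ?_⟩
      · change |x + (s + 1 / 2) - x - 1 / 2| = 1 / 2
        rw [show x + (s + 1 / 2) - x - 1 / 2 = s by ring, hsabs]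
      · change h ≤ h + 1 / 2 + z / (2 * T + 1)
        linarith
      · change h + 1 / 2 + z / (2 * T + 1) ≤ h + 1
        linarith
      · rw [hΘa]
        change (aK T (zK T (h + 1 / 2 + z / (2 * T + 1) - g (x + (s + 1 / 2), y))) *
          (x + (s + 1 / 2) - x - 1 / 2), y - y,
          zK T (h + 1 / 2 + z / (2 * T + 1) - g (x + (s + 1 / 2), y))) = u
        rw [h9, show h + 1 / 2 + z / (2 * T + 1) - (h + 1 / 2) = z / (2 * T + 1) by ring,
          zK_mid (by linarith) h11, mul_div_cancel₀ _ h2T.ne',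
          show x + (s + 1 / 2) - x - 1 / 2 = s by ring, hsu, sub_self, ← h5]

/-- The join in terms of a separating function. -/
theorem unk_join {A B : Set R3} (hAc : IsCompact A) (hBc : IsCompact B) {g : ℝ × ℝ → ℝ}
    (hg : Continuous g) {x y h : ℝ} (hA : ∀ p ∈ A, p.2.2 + 1 / 2 ≤ g (p.1, p.2.1))
    (hB : ∀ p ∈ B, g (p.1, p.2.1) ≤ p.2.2 - 1 / 2)
    (hgs : ∀ s : ℝ, 0 ≤ s → s ≤ 1 → g (x + s, y) = h + 1 / 2) (hUA : Unk (A ∪ tent x y h))
    (hUB : Unk (refl3 '' B ∪ tent x y (-(h + 1)))) : Unk (A ∪ B ∪ strands x y h) := by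
  -- a bound
  obtain ⟨N, hN0, hNA, hNB⟩ : ∃ N : ℝ, 0 ≤ N ∧
      (∀ p ∈ A, |p.1 - x - 1 / 2| ≤ N ∧ |p.2.1 - y| ≤ N ∧ |p.2.2 - g (p.1, p.2.1)| ≤ N) ∧
      (∀ p ∈ B, |p.1 - x - 1 / 2| ≤ N ∧ |p.2.1 - y| ≤ N ∧ |p.2.2 - g (p.1, p.2.1)| ≤ N) := by
    have hf : Continuous fun p : R3 => ((p.1 - x - 1 / 2, p.2.1 - y, p.2.2 - g (p.1, p.2.1)) : R3) :=
      by fun_prop
    obtain ⟨N₁, hN₁⟩ := ((hAc.union hBc).image hf).isBounded.exists_norm_le
    refine ⟨max N₁ 0, le_max_right _ _, ?_, ?_⟩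
    · intro p hp
      have h1 := hN₁ _ (mem_image_of_mem _ (Or.inl hp))
      exact ⟨((abs_fst_le _).trans h1).trans (le_max_left _ _),
        ((abs_snd1_le _).trans h1).trans (le_max_left _ _),
        ((abs_snd2_le _).trans h1).trans (le_max_left _ _)⟩
    · intro p hp
      have h1 := hN₁ _ (mem_image_of_mem _ (Or.inr hp))
      exact ⟨((abs_fst_le _).trans h1).trans (le_max_left _ _),
        ((abs_snd1_le _).trans h1).trans (le_max_left _ _),
        ((abs_snd2_le _).trans h1).trans (le_max_left _ _)⟩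
  set T : ℝ := N with hTN
  have hT : 0 ≤ T := hN0
  -- the two sides
  have h1 : Unk (fA g x y T '' A ∪ Te T) := side hg hT hA hgs hUA
  have h2 : Unk (fA (fun v => -g v) x y T '' (refl3 '' B) ∪ Te T) := by
    refine side (g := fun v => -g v) (by fun_prop) hT ?_ ?_ hUB
    · intro p hp
      rw [mem_refl3_image] at hp
      have := hB _ hp
      rw [refl3_apply] at this
      simp only at this
      linarith
    · intro s hs0 hs1
      rw [hgs s hs0 hs1]
      ring
  have h3 : fA (fun v => -g v) x y T '' (refl3 '' B) = refl3 '' (fB g x y T '' B) := by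
    rw [image_image, image_image]
    apply image_congr
    intro p _
    refine Prod.ext rfl (Prod.ext rfl ?_)
    change -p.2.2 - -g (p.1, p.2.1) - T = -(p.2.2 - g (p.1, p.2.1) + T)
    ring
  rw [h3] at h2
  have h4 : Unk (fA g x y T '' A ∪ fB g x y T '' B ∪ St T) := by
    refine unk_sum hN0 le_rfl ?_ ?_ h1 h2
    · rintro _ ⟨p, hp, rfl⟩
      obtain ⟨h5, h6, h7⟩ := hNA p hp
      have h8 := hA p hp
      have h9 := abs_le.mp h7
      refine ⟨h5, h6, ?_, ?_⟩
      · change T + 1 / 2 ≤ -(p.2.2 - g (p.1, p.2.1) - T)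
        linarith
      · change -(p.2.2 - g (p.1, p.2.1) - T) ≤ T + N
        linarith
    · rintro _ ⟨p, hp, rfl⟩
      obtain ⟨h5, h6, h7⟩ := hNB p hp
      have h8 := hB p hp
      have h9 := abs_le.mp h7
      refine ⟨h5, h6, ?_, ?_⟩
      · change T + 1 / 2 ≤ p.2.2 - g (p.1, p.2.1) + T
        linarith
      · change p.2.2 - g (p.1, p.2.1) + T ≤ T + N
        linarith
  obtain ⟨Θ, hΘ⟩ := join_homeo hg hT hA hB hgs
  rw [← unk_homeo_iff Θ, hΘ]
  exact h4

end Pool.Agent.LK
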