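import Pool.Agent.MP_aea6d5_co.Count
import Pool.Agent.MP_aea6d5_co.PolyClosed
import Pool.Agent.MP_aea6d5_co.KDefs

/-! Cuts with a small upper part: two far cuts split the polygon into three parts. -/

set_option autoImplicit false

namespace Pool.Agent.LK

open Relation

section facts

variable {R E F : Finset (Sym2 P3)} {a : P3} {r : ℤ}

theorem IsCut.v0 (h : IsCut R E F a r) : a ∈ verts E := left_mem_verts h.eE
theorem IsCut.v1 (h : IsCut R E F a r) : a + (1, 0, 0) ∈ verts E := right_mem_verts h.eE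
theorem IsCut.v2 (h : IsCut R E F a r) : a + (0, 0, 1) ∈ verts F := left_mem_verts h.eF
theorem IsCut.v3 (h : IsCut R E F a r) : a + (1, 0, 0) + (0, 0, 1) ∈ verts F := by
  rw [add_right_comm]; exact right_mem_verts h.eF
theorem IsCut.eF' (h : IsCut R E F a r) :
    s(a + (0, 0, 1), a + (1, 0, 0) + (0, 0, 1)) ∈ F := by
  have := h.eF
  rwa [add_right_comm] at this

theorem IsCut.disj (h : IsCut R E F a r) {u : P3} (hu : u ∈ verts E) (hu' : u ∈ verts F) : False :=
  h.below.disj hu hu'

theorem IsCut.mem_iff (h : IsCut R E F a r) {f : Sym2 P3} :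
    f ∈ R ↔ (f ∈ E ∧ f ≠ s(a, a + (1, 0, 0))) ∨
      (f ∈ F ∧ f ≠ s(a + (0, 0, 1), a + (1, 0, 0) + (0, 0, 1))) ∨ f = s(a, a + (0, 0, 1)) ∨
      f = s(a + (1, 0, 0), a + (1, 0, 0) + (0, 0, 1)) := by
  rw [h.R_eq, mem_joinZ']

theorem IsCut.eE_notMem (h : IsCut R E F a r) : s(a, a + (1, 0, 0)) ∉ R := by
  rw [h.mem_iff]
  rintro (⟨-, h1⟩ | ⟨h1, -⟩ | h1 | h1)
  · exact h1 rfl
  · exact h.disj h.v0 (left_mem_verts h1)
  · rw [Sym2.eq_iff] at h1; simp at h1
  · rw [Sym2.eq_iff] at h1; simp [add_assoc] at h1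

theorem IsCut.eF_notMem (h : IsCut R E F a r) :
    s(a + (0, 0, 1), a + (1, 0, 0) + (0, 0, 1)) ∉ R := by
  rw [h.mem_iff]
  rintro (⟨h1, -⟩ | ⟨-, h1⟩ | h1 | h1)
  · exact h.disj (left_mem_verts h1) h.v2
  · exact h1 rfl
  · rw [Sym2.eq_iff] at h1
    rcases h1 with ⟨h2, -⟩ | ⟨-, h2⟩
    · simp at h2
    · exact h.disj h.v0 (h2 ▸ h.v3)
  · rw [Sym2.eq_iff] at h1
    rcases h1 with ⟨h2, -⟩ | ⟨h2, h3⟩
    · exact h.disj (h2.symm ▸ h.v1 : a + (0, 0, 1) ∈ verts E) h.v2
    · simp at h3

theorem Sq.zero (a : P3) : Sq a a := Or.inl rfl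
theorem Sq.one (a : P3) : Sq a (a + (1, 0, 0)) := Or.inr (Or.inl rfl)
theorem Sq.two (a : P3) : Sq a (a + (0, 0, 1)) := Or.inr (Or.inr (Or.inl rfl))
theorem Sq.three (a : P3) : Sq a (a + (1, 0, 0) + (0, 0, 1)) := Or.inr (Or.inr (Or.inr rfl))

end facts

theorem Part.verts_sub {R X Y : Finset (Sym2 P3)} {a b f1 f2 g1 g2 : P3}
    (hX : Part R X a f1 f2) (hY : Part R Y b g1 g2) (hbX : ∀ u, Sq b u → u ∉ verts X)
    (haY : ∀ u, Sq a u → u ∈ verts Y) : verts X ⊆ verts Y := by
  have hf1 : f1 ∈ verts X := left_mem_verts hX.edge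
  intro v hv
  have := arcStatement X hX.poly f1 f2 hX.edge f1 hf1 v hv
  have key : v ∈ verts X ∧ v ∈ verts Y := by
    clear hv
    induction this with
    | refl => exact ⟨hf1, haY _ hX.s1⟩
    | @tail u v _ huv ih =>
      refine ⟨right_mem_verts huv.1, ?_⟩
      have h1 := hX.sub _ _ huv.1 huv.2
      rcases hY.back _ _ h1 ih.2 with h2 | ⟨h2, -⟩
      · exact right_mem_verts h2
      · exact (hbX _ h2 ih.1).elim
  exact key.2

/-- Two cuts at different places whose upper parts are disjoint: the polygon `E` is itself a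
stacked join with upper part `F2`. -/
theorem split_off {R E F E2 F2 : Finset (Sym2 P3)} {a b : P3} {r : ℤ} (h : IsCut R E F a r)
    (h2 : IsCut R E2 F2 b r) (hbE : ∀ u, Sq b u → u ∈ verts E) (haE2 : ∀ u, Sq a u → u ∈ verts E2)
    (hab : a ≠ b) (hab2 : a ≠ b + (0, 0, 1)) :
    ∃ E3, IsPolygon E3 ∧ Below E3 F2 ∧ s(b, b + (1, 0, 0)) ∈ E3 ∧
      E = joinZ E3 F2 b.1 b.2.1 b.2.2 := by
  classical
  -- inclusions of the vertex sets
  have hF2E : verts F2 ⊆ verts E := h2.partF.verts_sub h.partE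
    (fun u hu hu' => h2.disj (haE2 u hu) hu') hbE
  set eb : Sym2 P3 := s(b, b + (1, 0, 0)) with heb
  set fb : Sym2 P3 := s(b + (0, 0, 1), b + (1, 0, 0) + (0, 0, 1)) with hfb
  set v1 : Sym2 P3 := s(b, b + (0, 0, 1)) with hv1
  set v2 : Sym2 P3 := s(b + (1, 0, 0), b + (1, 0, 0) + (0, 0, 1)) with hv2
  have hEsub : ∀ u v, s(u, v) ∈ E → s(u, v) ≠ s(a, a + (1, 0, 0)) → s(u, v) ∈ R := h.partE.sub
  -- (i)
  have ebE : eb ∉ E := by
    intro h1
    have h3 : eb ≠ s(a, a + (1, 0, 0)) := by
      intro h4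
      rw [heb, Sym2.eq_iff] at h4
      rcases h4 with ⟨h5, -⟩ | ⟨h5, h6⟩
      · exact hab h5.symm
      · rw [h5] at h6; simp [add_assoc] at h6
    exact h2.eE_notMem (hEsub _ _ h1 h3)
  -- (ii)
  have back : ∀ u v, s(u, v) ∈ R → u ∈ verts F2 → s(u, v) ∈ E := by
    intro u v h1 hu
    rcases h.partE.back u v h1 (hF2E hu) with h3 | ⟨h3, -⟩
    · exact h3
    · exact (h2.disj (haE2 u h3) hu).elim
  have F2E : ∀ f, f ∈ F2 → f ≠ fb → f ∈ E := by
    intro f
    induction f using Sym2.ind with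
    | _ u v =>
      intro hf hne
      exact back u v (h2.mem_iff.2 (Or.inr (Or.inl ⟨hf, hne⟩))) (left_mem_verts hf)
  -- (iii)
  have v1E : v1 ∈ E := by
    have : s(b + (0, 0, 1), b) ∈ E := back _ _ (by
      rw [Sym2.eq_swap, h2.mem_iff]; tauto) h2.v2
    rwa [Sym2.eq_swap] at this
  have v2E : v2 ∈ E := by
    have : s(b + (1, 0, 0) + (0, 0, 1), b + (1, 0, 0)) ∈ E := back _ _ (by
      rw [Sym2.eq_swap, h2.mem_iff]; tauto) h2.v3
    rwa [Sym2.eq_swap] at this
  -- (iv)
  have fbE : fb ∉ E := by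
    intro h1
    have h3 : fb ≠ s(a, a + (1, 0, 0)) := by
      intro h4
      rw [hfb, Sym2.eq_iff] at h4
      rcases h4 with ⟨h5, -⟩ | ⟨h5, h6⟩
      · exact hab2 h5.symm
      · rw [add_right_comm, h5] at h6; simp [add_assoc] at h6
    exact h2.eF_notMem (hEsub _ _ h1 h3)
  -- the third part
  set E3 : Finset (Sym2 P3) := (E \ ((F2 \ {fb}) ∪ {v1, v2})) ∪ {eb} with hE3
  have mem3 : ∀ f, f ∈ E3 ↔ (f ∈ E ∧ ¬ (f ∈ F2 ∧ f ≠ fb) ∧ f ≠ v1 ∧ f ≠ v2) ∨ f = eb := by
    intro f
    simp only [hE3, Finset.mem_union, Finset.mem_sdiff, Finset.mem_singleton, Finset.mem_insert]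
    tauto
  have hEF : E = joinZ E3 F2 b.1 b.2.1 b.2.2 := by
    apply edge_ext
    intro u v
    rw [mem_joinZ', mem3]
    constructor
    · intro h1
      by_cases c1 : s(u, v) ∈ F2 ∧ s(u, v) ≠ fb
      · exact Or.inr (Or.inl c1)
      · by_cases c2 : s(u, v) = v1
        · exact Or.inr (Or.inr (Or.inl c2))
        · by_cases c3 : s(u, v) = v2
          · exact Or.inr (Or.inr (Or.inr c3))
          · exact Or.inl ⟨Or.inl ⟨h1, c1, c2, c3⟩, fun h4 => ebE (by rw [heb, ← h4]; exact h1)⟩
    · rintro (⟨⟨h1, -⟩ | h1, h3⟩ | ⟨h1, h3⟩ | h1 | h1)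
      · exact h1
      · exact absurd h1 h3
      · exact F2E _ h1 h3
      · rw [h1]; exact v1E
      · rw [h1]; exact v2E
  -- vertices of the third part
  have verts3 : ∀ u ∈ verts E3, u ∈ verts E ∧ u ∈ verts E2 := by
    rintro u ⟨v, huv⟩
    rw [mem3] at huv
    rcases huv with ⟨h1, h3, h4, h5⟩ | h1
    · refine ⟨left_mem_verts h1, ?_⟩
      by_cases h6 : s(u, v) = s(a, a + (1, 0, 0))
      · rw [Sym2.eq_iff] at h6
        rcases h6 with ⟨rfl, -⟩ | ⟨rfl, -⟩
        · exact haE2 _ (Sq.zero _)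
        · exact haE2 _ (Sq.one _)
      · have h7 := hEsub _ _ h1 h6
        rw [h2.mem_iff] at h7
        rcases h7 with ⟨h7, -⟩ | h7 | h7 | h7
        · exact left_mem_verts h7
        · exact absurd h7 h3
        · exact absurd h7 h4
        · exact absurd h7 h5
    · rw [heb, Sym2.eq_iff] at h1
      rcases h1 with ⟨rfl, -⟩ | ⟨rfl, -⟩
      · exact ⟨hbE _ (Sq.zero _), h2.v0⟩
      · exact ⟨hbE _ (Sq.one _), h2.v1⟩
  -- edges between the parts
  have cross : ∀ u v, s(u, v) ∈ E → u ∈ verts E2 → v ∈ verts F2 →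
      (u = b ∨ u = b + (1, 0, 0)) := by
    intro u v huv hu hv
    have h6 : s(u, v) ≠ s(a, a + (1, 0, 0)) := by
      intro h6
      rw [Sym2.eq_iff] at h6
      rcases h6 with ⟨-, rfl⟩ | ⟨-, rfl⟩
      · exact h2.disj (haE2 _ (Sq.one _)) hv
      · exact h2.disj (haE2 _ (Sq.zero _)) hv
    have h7 := hEsub _ _ huv h6
    rw [h2.mem_iff] at h7
    rcases h7 with ⟨h7, -⟩ | ⟨h7, -⟩ | h7 | h7
    · exact (h2.disj (right_mem_verts h7) hv).elim
    · exact (h2.disj hu (left_mem_verts h7)).elim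
    · rw [Sym2.eq_iff] at h7
      rcases h7 with ⟨h7, -⟩ | ⟨h7, -⟩
      · exact Or.inl h7
      · exact (h2.disj (h7 ▸ hu) h2.v2).elim
    · rw [Sym2.eq_iff] at h7
      rcases h7 with ⟨h7, -⟩ | ⟨h7, -⟩
      · exact Or.inr h7
      · exact (h2.disj (h7 ▸ hu) h2.v3).elim
  have keep : ∀ u v, s(u, v) ∈ E → u ∈ verts E2 → v ∈ verts E2 → s(u, v) ∈ E3 := by
    intro u v huv hu hv
    rw [mem3]
    refine Or.inl ⟨huv, fun h1 => h2.disj hu (left_mem_verts h1.1), ?_, ?_⟩
    · intro h1
      rw [hv1, Sym2.eq_iff] at h1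
      rcases h1 with ⟨-, h3⟩ | ⟨h3, -⟩
      · exact h2.disj (h3 ▸ hv) h2.v2
      · exact h2.disj (h3 ▸ hu) h2.v2
    · intro h1
      rw [hv2, Sym2.eq_iff] at h1
      rcases h1 with ⟨-, h3⟩ | ⟨h3, -⟩
      · exact h2.disj (h3 ▸ hv) h2.v3
      · exact h2.disj (h3 ▸ hu) h2.v3
  have eb3 : eb ∈ E3 := (mem3 _).2 (Or.inr rfl)
  have vertsE : ∀ u ∈ verts E, u ∈ verts E2 ∨ u ∈ verts F2 := by
    rintro u ⟨v, huv⟩
    by_cases h6 : s(u, v) = s(a, a + (1, 0, 0))
    · rw [Sym2.eq_iff] at h6
      rcases h6 with ⟨rfl, -⟩ | ⟨rfl, -⟩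
      · exact Or.inl (haE2 _ (Sq.zero _))
      · exact Or.inl (haE2 _ (Sq.one _))
    · exact h2.verts_R (left_mem_verts (hEsub _ _ huv h6))
  -- the third part is a polygon
  have poly3 : IsPolygon E3 := by
    refine ⟨⟨eb, eb3⟩, ?_, ?_, ?_⟩
    · intro u v huv
      rw [mem3] at huv
      rcases huv with ⟨h1, -⟩ | h1
      · exact h.pE.adj _ _ h1
      · have h3 := h2.pE.adj _ _ h2.eE
        rw [heb, Sym2.eq_iff] at h1
        rcases h1 with ⟨rfl, rfl⟩ | ⟨rfl, rfl⟩
        · exact h3
        · exact h3.symm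
    · intro u hu
      obtain ⟨huE, huE2⟩ := verts3 u hu
      -- the special vertices
      have special : ∀ p q p' : P3, u = p → eb = s(p, q) → s(p, p') ∈ E → p' ∈ verts F2 →
          (∀ w, s(p, w) ∈ E → w ∈ verts F2 → w = p') → {w | s(u, w) ∈ E3}.ncard = 2 := by
        intro p q p' hup hebq hp' hp'F2 huniq
        subst hup
        obtain ⟨t, ht, htp⟩ := exists_other h.pE hp'
        have hset : {w | s(u, w) ∈ E3} = {t, q} := by
          ext w
          simp only [Set.mem_ofPred_eq, Set.mem_insert_iff, Set.mem_singleton_iff]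
          constructor
          · intro hw
            have hw' := (mem3 _).1 hw
            rcases hw' with ⟨h1, h3⟩ | h1
            · left
              rcases nbr_eq' h.pE hp' ht (Ne.symm htp) h1 with h4 | h4
              · exfalso
                subst h4
                exact h2.disj (verts3 _ (right_mem_verts hw)).2 hp'F2
              · exact h4
            · right
              rw [hebq, Sym2.eq_iff] at h1
              rcases h1 with ⟨-, h1⟩ | ⟨h1, h3⟩
              · exact h1
              · rw [h3, ← h1]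
          · rintro (rfl | rfl)
            · have hw2 : w ∈ verts E2 := by
                rcases vertsE w (right_mem_verts ht) with h1 | h1
                · exact h1
                · exact absurd (huniq w ht h1) htp
              exact keep _ _ ht huE2 hw2
            · rw [← hebq]; exact eb3
        rw [hset, Set.ncard_pair]
        rintro rfl
        exact ebE (hebq ▸ ht)
      have hB : ∀ (p p' : P3), s(p, p') ∈ E → p ∈ verts E2 → p' ∈ verts F2 →
          ∀ w, s(p, w) ∈ E → w ∈ verts F2 → w = p' := by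
        intro p p' h1 hp hp' w hw hwF
        have k1 := hEsub _ _ h1 (by
          intro h6
          rw [Sym2.eq_iff] at h6
          rcases h6 with ⟨-, rfl⟩ | ⟨-, rfl⟩
          · exact h2.disj (haE2 _ (Sq.one _)) hp'
          · exact h2.disj (haE2 _ (Sq.zero _)) hp')
        have k2 := hEsub _ _ hw (by
          intro h6
          rw [Sym2.eq_iff] at h6
          rcases h6 with ⟨-, rfl⟩ | ⟨-, rfl⟩
          · exact h2.disj (haE2 _ (Sq.one _)) hwF
          · exact h2.disj (haE2 _ (Sq.zero _)) hwF)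
        have red : ∀ x, s(p, x) ∈ R → x ∈ verts F2 → (p = b ∧ x = b + (0, 0, 1)) ∨
            (p = b + (1, 0, 0) ∧ x = b + (1, 0, 0) + (0, 0, 1)) := by
          intro x hx hxF
          rw [h2.mem_iff] at hx
          rcases hx with ⟨hx, -⟩ | ⟨hx, -⟩ | hx | hx
          · exact (h2.disj (right_mem_verts hx) hxF).elim
          · exact (h2.disj hp (left_mem_verts hx)).elim
          · rw [Sym2.eq_iff] at hx
            rcases hx with ⟨h7, h8⟩ | ⟨h7, -⟩
            · exact Or.inl ⟨h7, h8⟩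
            · exact (h2.disj (h7 ▸ hp) h2.v2).elim
          · rw [Sym2.eq_iff] at hx
            rcases hx with ⟨h7, h8⟩ | ⟨h7, -⟩
            · exact Or.inr ⟨h7, h8⟩
            · exact (h2.disj (h7 ▸ hp) h2.v3).elim
        rcases red p' k1 hp' with ⟨c1, c2⟩ | ⟨c1, c2⟩ <;> rcases red w k2 hwF with ⟨d1, d2⟩ | ⟨d1, d2⟩
        · rw [c2, d2]
        · rw [c1] at d1; simp at d1
        · rw [c1] at d1; simp at d1
        · rw [c2, d2]
      by_cases c1 : u = b
      · exact special b (b + (1, 0, 0)) (b + (0, 0, 1)) c1 rfl v1E h2.v2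
          (hB _ _ v1E h2.v0 h2.v2)
      by_cases c2 : u = b + (1, 0, 0)
      · exact special (b + (1, 0, 0)) b (b + (1, 0, 0) + (0, 0, 1)) c2
          (by rw [heb, Sym2.eq_swap]) v2E h2.v3 (hB _ _ v2E h2.v1 h2.v3)
      · have hset : {w | s(u, w) ∈ E3} = {w | s(u, w) ∈ E} := by
          ext w
          simp only [Set.mem_ofPred_eq]
          constructor
          · intro hw
            rcases (mem3 _).1 hw with ⟨h1, -⟩ | h1
            · exact h1
            · rw [heb, Sym2.eq_iff] at h1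
              rcases h1 with ⟨h1, -⟩ | ⟨h1, -⟩
              · exact absurd h1 c1
              · exact absurd h1 c2
          · intro hw
            rcases vertsE w (right_mem_verts hw) with h1 | h1
            · exact keep _ _ hw huE2 h1
            · rcases cross u w hw huE2 h1 with h3 | h3
              · exact absurd h3 c1
              · exact absurd h3 c2
        rw [hset]
        exact h.pE.deg u huE
    · -- connectivity
      intro u hu v hv
      have huv := h.pE.conn u (verts3 u hu).1 v (verts3 v hv).1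
      let ρ : P3 → P3 := fun x => if x ∈ verts F2 then b else x
      have hρ : ∀ x ∈ verts E2, ρ x = x := fun x hx => if_neg fun hx' => h2.disj hx hx'
      have hρ' : ∀ x ∈ verts F2, ρ x = b := fun x hx => if_pos hx
      have hub : ReflTransGen (fun a b => s(a, b) ∈ E3) b (b + (1, 0, 0)) :=
        ReflTransGen.single eb3
      have hbu : ReflTransGen (fun a b => s(a, b) ∈ E3) (b + (1, 0, 0)) b :=
        ReflTransGen.single (by rw [Sym2.eq_swap]; exact eb3)
      have step : ∀ x y, s(x, y) ∈ E → ReflTransGen (fun a b => s(a, b) ∈ E3) (ρ x) (ρ y) := by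
        intro x y hxy
        rcases vertsE x (left_mem_verts hxy) with hx | hx <;>
          rcases vertsE y (right_mem_verts hxy) with hy | hy
        · rw [hρ x hx, hρ y hy]
          exact ReflTransGen.single (keep _ _ hxy hx hy)
        · rw [hρ x hx, hρ' y hy]
          rcases cross x y hxy hx hy with rfl | rfl
          · exact ReflTransGen.refl
          · exact hbu
        · rw [hρ' x hx, hρ y hy]
          rcases cross y x (by rw [Sym2.eq_swap]; exact hxy) hy hx with rfl | rfl
          · exact ReflTransGen.refl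
          · exact hub
        · rw [hρ' x hx, hρ' y hy]
      have key : ∀ w, ReflTransGen (fun a b => s(a, b) ∈ E) u w →
          ReflTransGen (fun a b => s(a, b) ∈ E3) (ρ u) (ρ w) := by
        intro w hw
        induction hw with
        | refl => exact ReflTransGen.refl
        | tail _ hxy ih => exact ih.trans (step _ _ hxy)
      have := key v huv
      rwa [hρ u (verts3 u hu).2, hρ v (verts3 v hv).2] at this
  refine ⟨E3, poly3, ?_, eb3, hEF⟩
  intro u hu v hv
  exact h2.below u (verts3 u hu).2 v hv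

/-- The diameter of a polygon is at most its length. -/
theorem diam_le {E : Finset (Sym2 P3)} (hE : IsPolygon E) {u v : P3} (hu : u ∈ verts E)
    (hv : v ∈ verts E) : Box E.card (u - v) := by
  let G : SimpleGraph P3 :=
    { Adj := fun u v => s(u, v) ∈ E ∧ u ≠ v
      symm := ⟨fun u v h => ⟨by rw [Sym2.eq_swap]; exact h.1, h.2.symm⟩⟩
      loopless := ⟨fun u h => h.2 rfl⟩ }
  have hr : G.Reachable u v := by
    have := hE.conn u hu v hv
    clear hv
    induction this with
    | refl => exact SimpleGraph.Reachable.refl _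
    | @tail x y _ hxy ih =>
      exact ih.trans (SimpleGraph.Adj.reachable ⟨hxy, (hE.adj _ _ hxy).ne⟩)
  obtain ⟨p, hp⟩ := hr.exists_isPath
  have hsupp : ∀ w ∈ p.support, w ∈ verts E := by
    have gen : ∀ {u' v' : P3} (p : G.Walk u' v'), u' ∈ verts E → ∀ w ∈ p.support, w ∈ verts E := by
      intro u' v' p
      induction p with
      | nil =>
        intro h w hw
        simp only [SimpleGraph.Walk.support_nil, List.mem_singleton] at hw
        rw [hw]; exact h
      | @cons u1 w1 v1 h p ih =>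
        intro h' w hw
        rw [SimpleGraph.Walk.support_cons, List.mem_cons] at hw
        rcases hw with rfl | hw
        · exact h'
        · exact ih (right_mem_verts h.1) w hw
    exact gen p hu
  have h1 : p.support.toFinset.card = p.length + 1 := by
    rw [List.toFinset_card_of_nodup hp.support_nodup, SimpleGraph.Walk.length_support]
  have h2 : ((p.support.toFinset : Finset P3) : Set P3) ⊆ verts E := by
    intro w hw
    exact hsupp w (by simpa using hw)
  have h3 := Set.ncard_le_ncard h2 (cardStatement E hE).1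
  rw [Set.ncard_coe_finset, h1, (cardStatement E hE).2] at h3
  exact (box_walk (G := G) (fun u v h => hE.adj _ _ h.1) p).mono (by omega)

/-- **Far cuts.** Two cuts with an unknotted lower part and a small knotted upper part are close
together. -/
theorem far_cuts (hNC : NCStatement) {R E F E2 F2 : Finset (Sym2 P3)} {a b : P3} {r : ℤ}
    (hr : 0 ≤ r) (h : IsCut R E F a r) (h2 : IsCut R E2 F2 b r) {k : ℕ} (hk : F.card ≤ k)
    (hk2 : F2.card ≤ k) (hE : Unknotted E) (hF2 : ¬ Unknotted F2) : Box (r + k + 2) (a - b) := by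
  by_contra hfar
  have symm : ∀ {c : ℤ}, Box c (b - a) → Box c (a - b) := by
    intro c hB
    have : a - b = -(b - a) := by abel
    rw [this]; exact hB.neg
  have far1 : ¬ Box (r + 1) (a - b) := fun hB => hfar (hB.mono (by omega))
  have far2 : ¬ Box (r + 1) (b - a) := fun hB => far1 (symm hB)
  -- the squares lie in the lower parts
  have hbE : ∀ u, Sq b u → u ∈ verts E := by
    rcases h.dich (fun u hu => h2.sq_mem hu) far1 with h3 | h3
    · exact h3
    · exfalso
      apply hfar
      have h4 := diam_le h.pF h.v2 (h3 b (Sq.zero b))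
      have e : a - b = (a + (0, 0, 1) - b) - (0, 0, 1) := by abel
      rw [e]
      have u3 : Box 1 ((0, 0, 1) : P3) := by simp [Box]
      exact (h4.sub u3).mono (by omega)
  have haE2 : ∀ u, Sq a u → u ∈ verts E2 := by
    rcases h2.dich (fun u hu => h.sq_mem hu) far2 with h3 | h3
    · exact h3
    · exfalso
      apply hfar
      apply symm
      have h4 := diam_le h2.pF h2.v2 (h3 a (Sq.zero a))
      have e : b - a = (b + (0, 0, 1) - a) - (0, 0, 1) := by abel
      rw [e]
      have u3 : Box 1 ((0, 0, 1) : P3) := by simp [Box]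
      exact (h4.sub u3).mono (by omega)
  have hab : a ≠ b := by
    rintro rfl
    apply far1
    simp [Box]; omega
  have hab2 : a ≠ b + (0, 0, 1) := by
    rintro rfl
    apply far1
    simp [Box]; omega
  obtain ⟨E3, p3, b3, e3, hEq⟩ := split_off h h2 hbE haE2 hab hab2
  apply hF2
  have e1 : (b.1 + 1, b.2.1, b.2.2) = b + (1, 0, 0) := by
    refine Prod.ext ?_ (Prod.ext ?_ ?_) <;> simp
  have e2 : (b.1, b.2.1, b.2.2 + 1) = b + (0, 0, 1) := by
    refine Prod.ext ?_ (Prod.ext ?_ ?_) <;> simp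
  have e3' : (b.1 + 1, b.2.1, b.2.2 + 1) = b + (1, 0, 0) + (0, 0, 1) := by
    refine Prod.ext ?_ (Prod.ext ?_ ?_) <;> simp
  have e0 : (b.1, b.2.1, b.2.2) = b := rfl
  refine hNC E3 F2 b.1 b.2.1 b.2.2 p3 h2.pF b3 ?_ ?_ ?_
  · rw [e1, e0]; exact e3
  · rw [e2, e3']; exact h2.eF'
  · rw [← hEq]; exact hE

end Pool.Agent.LK
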