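import Pool.Agent.MP_aea6d5_co.SPat

/-! # A criterion for frequent patterns -/

set_option autoImplicit false

open Filter Topology

namespace Pool.Agent.LK

/-- A horizontal edge in an extreme level. -/
theorem extreme_edge {E : Finset (Sym2 P3)} (hE : IsPolygon E) {σ : ℤ} (hσ : σ = 1 ∨ σ = -1)
    {p : P3} (hp : p ∈ verts E) (hmax : ∀ u ∈ verts E, σ * u.2.2 ≤ σ * p.2.2) :
    ∃ p', s(p, p') ∈ E ∧ p'.2.2 = p.2.2 := by
  obtain ⟨a, b, hab, hs⟩ := Set.ncard_eq_two.1 (hE.deg p hp)
  have ha : s(p, a) ∈ E := by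
    have : a ∈ {w | s(p, w) ∈ E} := by rw [hs]; simp
    exact this
  have hb : s(p, b) ∈ E := by
    have : b ∈ {w | s(p, w) ∈ E} := by rw [hs]; simp
    exact this
  by_contra hcon
  push Not at hcon
  have h1 := hcon a ha
  have h2 := hcon b hb
  have a1 := hE.adj _ _ ha
  have a2 := hE.adj _ _ hb
  have m1 := hmax a (right_mem_verts ha)
  have m2 := hmax b (right_mem_verts hb)
  apply hab
  obtain ⟨a1', a2', a3'⟩ := a
  obtain ⟨b1', b2', b3'⟩ := b
  obtain ⟨p1, p2, p3⟩ := p
  simp only [Adj, abs_eq_max_neg] at *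
  simp only [Prod.mk.injEq]
  rcases hσ with rfl | rfl <;> omega

/-- A tongue of height `M` above (below) the polygon. -/
theorem tongue {E Q : Finset (Sym2 P3)} {σ : ℤ} (hσ : σ = 1 ∨ σ = -1) (hE : UClass E) (hQ : Q ⊆ E)
    (hin : ∀ u ∈ verts Q, ∃ v ∈ verts E, σ * u.2.2 < σ * v.2.2) (M : ℕ) :
    ∃ E', UClass E' ∧ Q ⊆ E' ∧ verts E ⊆ verts E' ∧
      ∀ u ∈ verts Q, ∃ v ∈ verts E', σ * u.2.2 + M < σ * v.2.2 := by
  induction M with
  | zero => exact ⟨E, hE, hQ, le_rfl, fun u hu => by simpa using hin u hu⟩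
  | succ M ih =>
    obtain ⟨E1, h1, h2, h3, h4⟩ := ih
    obtain ⟨p, hp, hmax⟩ := (verts_finite E1).exists_maximalFor (fun u : P3 => σ * u.2.2) _
      h1.1.verts_nonempty
    have hmax' : ∀ u ∈ verts E1, σ * u.2.2 ≤ σ * p.2.2 := by
      intro u hu
      by_contra hlt
      push Not at hlt
      exact absurd (hmax hu hlt.le) (not_le.2 hlt)
    obtain ⟨p', hpp, hz⟩ := extreme_edge h1.1 hσ hp hmax'
    have hd : IsUnit3 ((0, 0, σ) : P3) := by
      rcases hσ with rfl | rfl <;> simp [IsUnit3, Adj]
    have hσσ : σ * σ = 1 := by rcases hσ with rfl | rfl <;> norm_num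
    have n1 : p + (0, 0, σ) ∉ verts E1 := by
      intro h
      have := hmax' _ h
      simp only [Prod.snd_add] at this
      rw [mul_add, hσσ] at this
      omega
    have n2 : p' + (0, 0, σ) ∉ verts E1 := by
      intro h
      have := hmax' _ h
      simp only [Prod.snd_add] at this
      rw [mul_add, hσσ, hz] at this
      omega
    have hV : verts E1 ⊆ verts (bump E1 p p' (0, 0, σ)) := by
      rintro u ⟨v, huv⟩
      by_cases he : s(u, v) = s(p, p')
      · rw [Sym2.eq_iff] at he
        rcases he with ⟨rfl, rfl⟩ | ⟨rfl, rfl⟩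
        · exact ⟨u + (0, 0, σ), mem_bump.2 (Or.inr (Or.inl rfl))⟩
        · exact ⟨u + (0, 0, σ), mem_bump.2 (Or.inr (Or.inr (Or.inr Sym2.eq_swap)))⟩
      · exact ⟨v, mem_bump.2 (Or.inl ⟨huv, he⟩)⟩
    refine ⟨bump E1 p p' (0, 0, σ), unknotClosedZ.bump E1 p p' _ h1 hpp hd n1 n2, ?_,
      h3.trans hV, ?_⟩
    · intro e he
      refine mem_bump.2 (Or.inl ⟨h2 he, ?_⟩)
      rintro rfl
      obtain ⟨v, hv, hlt⟩ := h4 p (left_mem_verts he)
      have := hmax' v hv
      omega
    · intro u hu
      obtain ⟨v, hv, hlt⟩ := h4 u hu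
      refine ⟨p + (0, 0, σ), right_mem_verts (mem_bump.2 (Or.inr (Or.inl rfl))), ?_⟩
      have := hmax' v hv
      simp only [Prod.snd_add]
      rw [mul_add, hσσ]
      push_cast
      omega

/-- **Criterion.** Every nonempty set of edges of an unknotted polygon without vertices in its
highest and lowest levels is frequent. -/
theorem frequent_of_inner {E Q : Finset (Sym2 P3)} (hE : UClass E) (hQ : Q ⊆ E) (hne : Q.Nonempty)
    (hin : ∀ u ∈ verts Q, (∃ v ∈ verts E, u.2.2 < v.2.2) ∧ ∃ v ∈ verts E, v.2.2 < u.2.2) :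
    Frequent Q := by
  classical
  -- the block
  obtain ⟨F0, hF0, hQF, hup, hdn⟩ : ∃ F0, UClass F0 ∧ Q ⊆ F0 ∧
      (∀ u ∈ verts Q, ∃ v ∈ verts F0, u.2.2 + 5000 < v.2.2) ∧
      (∀ u ∈ verts Q, ∃ v ∈ verts F0, v.2.2 + 5000 < u.2.2) := by
    obtain ⟨E1, h1, h2, h3, h4⟩ := tongue (σ := 1) (Or.inl rfl) hE hQ
      (fun u hu => by simpa using (hin u hu).1) 5000
    obtain ⟨E2, g1, g2, g3, g4⟩ := tongue (σ := -1) (Or.inr rfl) h1 h2
      (fun u hu => by
        obtain ⟨v, hv, hlt⟩ := (hin u hu).2
        exact ⟨v, h3 hv, by omega⟩) 5000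
    refine ⟨E2, g1, g2, fun u hu => ?_, fun u hu => ?_⟩
    · obtain ⟨v, hv, hlt⟩ := h4 u hu
      exact ⟨v, g3 hv, by push_cast at hlt; omega⟩
    · obtain ⟨v, hv, hlt⟩ := g4 u hu
      exact ⟨v, hv, by push_cast at hlt; omega⟩
  have hU : ClosedZ UClass := unknotClosedZ
  have hUJ : ∀ k : ℕ, ∃ F, UClass F ∧ ∃ S : Finset P3, S.card = k ∧ (∀ t ∈ S, t ∈ occs Q F) ∧
      ∀ t ∈ S, ∀ u ∈ verts Q, ∃ v ∈ verts F, (u + t).2.2 + 4000 < v.2.2 := by
    intro k
    induction k with
    | zero => exact ⟨F0, hF0, ∅, rfl, by simp, by simp⟩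
    | succ k ih =>
      obtain ⟨F, hF, S, hS, hocc, htop⟩ := ih
      -- the contact
      obtain ⟨p0, hp0, hmax⟩ := (verts_finite F).exists_maximalFor (fun u : P3 => u.2.2) _
        hF.1.verts_nonempty
      obtain ⟨q0, hq0, hmin⟩ := (verts_finite F0).exists_minimalFor (fun u : P3 => u.2.2) _
        hF0.1.verts_nonempty
      obtain ⟨r0, hr0, hmax0⟩ := (verts_finite F0).exists_maximalFor (fun u : P3 => u.2.2) _
        hF0.1.verts_nonempty
      have hmax' : ∀ u ∈ verts F, u.2.2 ≤ p0.2.2 := by
        intro u hu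
        by_contra hlt
        push Not at hlt
        exact absurd (hmax hu hlt.le) (not_le.2 hlt)
      have hmin' : ∀ u ∈ verts F0, q0.2.2 ≤ u.2.2 := by
        intro u hu
        by_contra hlt
        push Not at hlt
        exact absurd (hmin hu hlt.le) (not_le.2 hlt)
      have hmax0' : ∀ u ∈ verts F0, u.2.2 ≤ r0.2.2 := by
        intro u hu
        by_contra hlt
        push Not at hlt
        exact absurd (hmax0 hu hlt.le) (not_le.2 hlt)
      obtain ⟨R, E', F', p, a, w, q, h, hq, hd⟩ := sJoined (CE := UClass) (CF := UClass)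
        (CR := UClass) hU.move hU.move (fun _ => hU.neg) (fun F hF t => hU.trans t F hF) hU.join
        hF hF0 (D := diffs F F0) (fun d => mem_diffs) (d := p0 - q0) (N := (0, 0, 2000000))
        (mem_diffs.2 ⟨p0, hp0, q0, hq0, rfl⟩) (by norm_num) (by norm_num [nsq, dot])
        (by
          intro s hs t ht hmem
          obtain ⟨u, hu, v, hv, he⟩ := mem_diffs.1 hmem
          have h1 := hmax' u hu
          have h2 := hmin' v hv
          have h3 := congrArg (fun x : P3 => x.2.2) he
          simp only [Prod.snd_add, Prod.snd_sub] at h3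
          have h4 : 0 < s.2.2 := by
            by_contra hneg
            push Not at hneg
            simp only [nsq, dot] at hs
            nlinarith [sq_nonneg s.1, sq_nonneg s.2.1, sq_nonneg s.2.2]
          omega)
      have hpz : p.2.2 = p0.2.2 ∧ q.2.2 = q0.2.2 := by
        have h1 := hmax' p h.hp
        have h2 := hmin' q hq
        have h3 := congrArg (fun x : P3 => x.2.2) hd
        simp only [Prod.snd_sub] at h3
        omega
      have hpa := h.pa
      have hwd := h.wd
      simp only [Box, Prod.fst_sub, Prod.snd_sub, abs_le] at hpa hwd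
      -- far edges survive
      have hfar : ∀ x y : P3, s(x, y) ∈ F ∪ shift w F0 → ¬ Box 1000 (x - a) → s(x, y) ∈ R := by
        intro x y hxy hb
        by_contra hR
        exact hb (h.ch x y (Or.inl ⟨hxy, hR⟩)).1
      have hlow : ∀ x : P3, x.2.2 + 4000 < p0.2.2 → ¬ Box 1000 (x - a) := by
        intro x hx hb
        have := hb.2.2
        simp only [Prod.snd_sub, abs_le] at this
        omega
      have hhigh : ∀ x : P3, q0.2.2 + 5000 < x.2.2 → ¬ Box 1000 (x + w - a) := by
        intro x hx hb
        have := hb.2.2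
        simp only [Prod.snd_sub, Prod.snd_add, abs_le] at this
        omega
      have hw : w ∉ S := by
        intro hwS
        obtain ⟨e, he⟩ := hne
        induction e using Sym2.ind with
        | _ x y =>
          obtain ⟨v, hv, h1⟩ := htop w hwS x (left_mem_verts he)
          have h2 := hmax' v hv
          obtain ⟨v', hv', h3⟩ := hdn x (left_mem_verts he)
          have h4 := hmin' v' hv'
          simp only [Prod.snd_add] at h1
          omega
      have hr0 : r0 + w ∈ verts R := by
        obtain ⟨e, he⟩ := hne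
        induction e using Sym2.ind with
        | _ x y =>
          obtain ⟨y', hy'⟩ := hr0
          obtain ⟨v, hv, h1⟩ := hup x (left_mem_verts he)
          have h2 := hmax0' v hv
          obtain ⟨v', hv', h3⟩ := hdn x (left_mem_verts he)
          have h4 := hmin' v' hv'
          refine ⟨y' + w, hfar _ _ ?_ (hhigh r0 (by omega))⟩
          rw [Finset.mem_union, mem_shift]
          right
          simpa using hy'
      refine ⟨R, h.cR, insert w S, by rw [Finset.card_insert_of_notMem hw, hS], ?_, ?_⟩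
      · intro t ht
        rw [Finset.mem_insert] at ht
        rcases ht with rfl | ht
        · rw [mem_occs]
          intro x y hxy
          obtain ⟨v', hv', h3⟩ := hdn x (left_mem_verts hxy)
          have h4 := hmin' v' hv'
          refine hfar _ _ ?_ (hhigh x (by omega))
          rw [Finset.mem_union, mem_shift]
          right
          simpa using hQF hxy
        · rw [mem_occs]
          intro x y hxy
          obtain ⟨v, hv, h1⟩ := htop t ht x (left_mem_verts hxy)
          have h2 := hmax' v hv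
          exact hfar _ _ (Finset.mem_union_left _ (mem_occs.1 (hocc t ht) x y hxy))
            (hlow _ (by omega))
      · intro t ht u hu
        rw [Finset.mem_insert] at ht
        refine ⟨r0 + w, hr0, ?_⟩
        obtain ⟨v0, hv0, h1⟩ := hup u hu
        have h2 := hmax0' v0 hv0
        obtain ⟨v', hv', h3⟩ := hdn u hu
        have h4 := hmin' v' hv'
        rcases ht with rfl | ht
        · simp only [Prod.snd_add]
          omega
        · obtain ⟨v, hv, h5⟩ := htop t ht u hu
          have h6 := hmax' v hv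
          simp only [Prod.snd_add] at *
          omega
  intro k
  obtain ⟨F, hF, S, hS, hocc, -⟩ := hUJ k
  refine ⟨F, hF, ?_⟩
  rw [nOcc, ← hS, ← Set.ncard_coe_finset]
  exact Set.ncard_le_ncard (fun t ht => hocc t ht) (occs_finite hne F)

end Pool.Agent.LK
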