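import Pool.Agent.MP_aea6d5_co.PPair

/-! # Pairs of knot types: final forms -/

set_option autoImplicit false

open Filter Topology

namespace Pool.Agent.LK

/-- The polygon `R` is a connected sum of polygons of the types of `K` and `L`. -/
def SumClass (G : Subgroup (R3 ≃ₜ R3)) (K L R : Finset (Sym2 P3)) : Prop :=
  ∃ (E F : Finset (Sym2 P3)) (x y h : ℤ), GClass G K E ∧ GClass G L F ∧ Below E F ∧
    s((x, y, h), (x + 1, y, h)) ∈ E ∧ s((x, y, h + 1), (x + 1, y, h + 1)) ∈ F ∧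
    GClass G (joinZ E F x y h) R

theorem SumClass.move {G : Subgroup (R3 ≃ₜ R3)} (hG : BigGroup G) (K L : Finset (Sym2 P3)) :
    MoveClosed (SumClass G K L) := by
  refine ⟨?_, ?_, ?_⟩
  · rintro R ⟨E, F, x, y, h, -, -, -, -, -, h1⟩
    exact h1.1
  · rintro R x y d ⟨E, F, x', y', h', k1, k2, k3, k4, k5, k6⟩ h1 h2 h3 h4
    exact ⟨E, F, x', y', h', k1, k2, k3, k4, k5, (GClass.move hG _).bump R x y d k6 h1 h2 h3 h4⟩
  · rintro R x a b ⟨E, F, x', y', h', k1, k2, k3, k4, k5, k6⟩ h1 h2 h3 h4 h5 h6 h7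
    exact ⟨E, F, x', y', h', k1, k2, k3, k4, k5,
      (GClass.move hG _).flip R x a b k6 h1 h2 h3 h4 h5 h6 h7⟩

theorem SumClass.shift {G : Subgroup (R3 ≃ₜ R3)} (hG : BigGroup G) {K L R : Finset (Sym2 P3)}
    (h : SumClass G K L R) (t : P3) : SumClass G K L (LK.shift t R) := by
  obtain ⟨E, F, x', y', h', k1, k2, k3, k4, k5, k6⟩ := h
  exact ⟨E, F, x', y', h', k1, k2, k3, k4, k5, k6.shift hG t⟩

theorem pclean_arith {mn mx N S p C B : ℝ} (hmx : 0 ≤ mx) (hN : 0 < N) (hNm : N ≤ 2 * mx)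
    (h : mn * (mx ^ (2 / 3 : ℝ) * p) ≤ C * (N * B) * S) (hmn : 0 ≤ mn) (hp : 0 ≤ p) :
    mn * p ≤ (2 * C * B) * N ^ (1 / 3 : ℝ) * S := by
  have h1 : N ^ (2 / 3 : ℝ) ≤ 2 * mx ^ (2 / 3 : ℝ) := by
    calc N ^ (2 / 3 : ℝ) ≤ (2 * mx) ^ (2 / 3 : ℝ) := Real.rpow_le_rpow hN.le hNm (by norm_num)
      _ = 2 ^ (2 / 3 : ℝ) * mx ^ (2 / 3 : ℝ) := Real.mul_rpow (by norm_num) hmx
      _ ≤ 2 * mx ^ (2 / 3 : ℝ) := by
        refine mul_le_mul_of_nonneg_right ?_ (Real.rpow_nonneg hmx _)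
        calc (2 : ℝ) ^ (2 / 3 : ℝ) ≤ 2 ^ (1 : ℝ) :=
              Real.rpow_le_rpow_of_exponent_le (by norm_num) (by norm_num)
          _ = 2 := Real.rpow_one 2
  have hN2 : 0 < N ^ (2 / 3 : ℝ) := Real.rpow_pos_of_pos hN _
  have e : N = N ^ (1 / 3 : ℝ) * N ^ (2 / 3 : ℝ) := by
    rw [← Real.rpow_add hN]; norm_num
  have h2 : (mn * p) * N ^ (2 / 3 : ℝ) ≤ ((2 * C * B) * N ^ (1 / 3 : ℝ) * S) * N ^ (2 / 3 : ℝ) := by
    calc (mn * p) * N ^ (2 / 3 : ℝ) ≤ (mn * p) * (2 * mx ^ (2 / 3 : ℝ)) :=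
          mul_le_mul_of_nonneg_left h1 (mul_nonneg hmn hp)
      _ = 2 * (mn * (mx ^ (2 / 3 : ℝ) * p)) := by ring
      _ ≤ 2 * (C * (N * B) * S) := mul_le_mul_of_nonneg_left h (by norm_num)
      _ = 2 * (C * ((N ^ (1 / 3 : ℝ) * N ^ (2 / 3 : ℝ)) * B) * S) := by rw [← e]
      _ = _ := by ring
  exact le_of_mul_le_mul_right h2 hN2

/-- The clean form of the pair inequality. -/
theorem pclean {CE CF CR : Finset (Sym2 P3) → Prop} (mE : MoveClosed CE) (mF : MoveClosed CF)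
    (mR : MoveClosed CR)
    (shiftF : ∀ F, CF F → ∀ t : P3, CF (shift t F))
    (shiftR : ∀ R, CR R → ∀ t : P3, CR (shift t R))
    (hjoin : ∀ E F x y h, CE E → CF F → Below E F → s((x, y, h), (x + 1, y, h)) ∈ E →
      s((x, y, h + 1), (x + 1, y, h + 1)) ∈ F → CR (joinZ E F x y h))
    (rE1 : ∀ E, CE E → CE (mapE sz (mapE sw E))) (rE2 : ∀ E, CE E → CE (mapE sw (mapE sz E)))
    (rF1 : ∀ E, CF E → CF (mapE sz (mapE sw E))) (rF2 : ∀ E, CF E → CF (mapE sw (mapE sz E))) :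
    ∃ (C : ℝ) (c : ℕ), 0 < C ∧ Even c ∧ ∀ n m : ℕ,
      ((min n m : ℕ) : ℝ) * ((count CE n : ℝ) * (count CF m : ℝ)) ≤
        C * ((n + m : ℕ) : ℝ) ^ (1 / 3 : ℝ) * (count CR (n + m + c) : ℝ) := by
  obtain ⟨C, B, hC, h⟩ := ppair mE mF shiftF mR.poly shiftR hjoin rE1 rE2 rF1 rF2
  refine ⟨2 * C * ((B + 1) * (2 * B + 1)), 2 * B, by positivity, even_two_mul B, ?_⟩
  intro n m
  have hs0 : (0 : ℝ) ≤ (count CR (n + m + 2 * B) : ℝ) := Nat.cast_nonneg _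
  have hr0 : 0 ≤ 2 * C * (((B : ℝ) + 1) * (2 * B + 1)) * ((n + m : ℕ) : ℝ) ^ (1 / 3 : ℝ) *
      (count CR (n + m + 2 * B) : ℝ) := by positivity
  by_cases hn : Even n
  swap
  · rw [count_odd mE.poly hn, Nat.cast_zero, zero_mul, mul_zero]
    exact hr0
  by_cases hm : Even m
  swap
  · rw [count_odd mF.poly hm, Nat.cast_zero, mul_zero, mul_zero]
    exact hr0
  rcases Nat.eq_zero_or_pos (n + m) with h0 | h0
  · have : min n m = 0 := by omega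
    rw [this, Nat.cast_zero, zero_mul]
    exact hr0
  have hN : (0 : ℝ) < ((n + m : ℕ) : ℝ) := by exact_mod_cast h0
  have hsum : ∑ i ∈ Finset.range (2 * B + 1), (count CR (n + m + i - B) : ℝ) ≤
      (2 * B + 1) * (count CR (n + m + 2 * B) : ℝ) := by
    have h3 : ∀ i ∈ Finset.range (2 * B + 1), (count CR (n + m + i - B) : ℝ) ≤
        (count CR (n + m + 2 * B) : ℝ) := by
      intro i hi
      rw [Finset.mem_range] at hi
      exact_mod_cast count_mono_even mR (by omega) ((hn.add hm).add (even_two_mul B))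
    refine (Finset.sum_le_sum h3).trans ?_
    rw [Finset.sum_const, Finset.card_range, nsmul_eq_mul]
    push_cast
    exact le_rfl
  have hB1 : ((n + m + B : ℕ) : ℝ) ≤ ((n + m : ℕ) : ℝ) * (B + 1) := by
    have : n + m + B ≤ (n + m) * (B + 1) := by
      have h1 : 1 * B ≤ (n + m) * B := Nat.mul_le_mul_right _ h0
      rw [mul_add, mul_one]
      omega
    exact_mod_cast this
  have h1 := h n m
  have h2 : ((min n m : ℕ) : ℝ) * (((max n m : ℕ) : ℝ) ^ (2 / 3 : ℝ) *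
      ((count CE n : ℝ) * (count CF m : ℝ))) ≤
      C * (((n + m : ℕ) : ℝ) * ((B + 1) * (2 * B + 1))) * (count CR (n + m + 2 * B) : ℝ) := by
    calc _ ≤ C * ((n + m + B : ℕ) : ℝ) *
          ∑ i ∈ Finset.range (2 * B + 1), (count CR (n + m + i - B) : ℝ) := h1
      _ ≤ C * (((n + m : ℕ) : ℝ) * (B + 1)) *
          ((2 * B + 1) * (count CR (n + m + 2 * B) : ℝ)) := by
          refine mul_le_mul (mul_le_mul_of_nonneg_left hB1 hC.le) hsum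
            (Finset.sum_nonneg fun _ _ => Nat.cast_nonneg _) (by positivity)
      _ = _ := by ring
  refine (pclean_arith (Nat.cast_nonneg _) hN ?_ h2 (Nat.cast_nonneg _) (by positivity)).trans
    (le_of_eq (by ring))
  have : n + m ≤ 2 * max n m := by omega
  exact_mod_cast this

/-- The exponents of a pair. -/
theorem exponent_pair {a b q : ℕ → ℕ} {C μ A B D α β γ : ℝ} {c : ℕ} (hc : Even c) (hC : 0 < C)
    (hμ : 0 < μ) (hA : 0 < A) (hB : 0 < B)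
    (h : ∀ n : ℕ, (n : ℝ) ^ (2 / 3 : ℝ) * ((a n : ℝ) * (b n : ℝ)) ≤ C * (q (n + n + c) : ℝ))
    (ha : Tendsto (fun k : ℕ => (a (2 * k) : ℝ) / (((2 * k : ℕ) : ℝ) ^ (α - 3) * μ ^ (2 * k)))
      atTop (𝓝 A))
    (hb : Tendsto (fun k : ℕ => (b (2 * k) : ℝ) / (((2 * k : ℕ) : ℝ) ^ (β - 3) * μ ^ (2 * k)))
      atTop (𝓝 B))
    (hq : Tendsto (fun k : ℕ => (q (2 * k) : ℝ) / (((2 * k : ℕ) : ℝ) ^ (γ - 3) * μ ^ (2 * k)))
      atTop (𝓝 D)) : α + β - 7 / 3 ≤ γ := by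
  by_contra hlt
  push Not at hlt
  obtain ⟨l, hl⟩ := hc
  set δ : ℝ := α + β - 7 / 3 - γ with hδ
  have hδ0 : 0 < δ := by rw [hδ]; linarith
  have hto : Tendsto (fun k : ℕ => 2 * k + l) atTop atTop :=
    tendsto_atTop_mono (f := fun k : ℕ => k) (fun k => by omega) tendsto_id
  have hq' := hq.comp hto
  have t1 : Tendsto (fun k : ℕ => ((2 * k : ℕ) : ℝ)) atTop atTop :=
    tendsto_natCast_atTop_atTop.comp (tendsto_id.const_mul_atTop' (by norm_num))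
  have t2 : Tendsto (fun k : ℕ => ((2 * k : ℕ) : ℝ) ^ δ) atTop atTop :=
    (tendsto_rpow_atTop hδ0).comp t1
  have t3 : Tendsto (fun k : ℕ => (((a (2 * k) : ℝ) /
      (((2 * k : ℕ) : ℝ) ^ (α - 3) * μ ^ (2 * k))) * ((b (2 * k) : ℝ) /
      (((2 * k : ℕ) : ℝ) ^ (β - 3) * μ ^ (2 * k)))) * ((2 * k : ℕ) : ℝ) ^ δ) atTop atTop :=
    (ha.mul hb).pos_mul_atTop (by positivity) t2
  have t4 : Tendsto (fun k : ℕ => ((2 * (2 * k + l) : ℕ) : ℝ) / ((2 * k : ℕ) : ℝ)) atTop (𝓝 2) := by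
    have e1 : Tendsto (fun k : ℕ => 2 + ((2 * l : ℕ) : ℝ) / ((2 * k : ℕ) : ℝ)) atTop
        (𝓝 (2 + 0)) := (t1.const_div_atTop _).const_add 2
    rw [add_zero] at e1
    refine e1.congr' ?_
    filter_upwards [eventually_gt_atTop 0] with k hk
    have : ((2 * k : ℕ) : ℝ) ≠ 0 := by positivity
    field_simp
    push_cast
    ring
  have t5 : Tendsto (fun k : ℕ => (((2 * (2 * k + l) : ℕ) : ℝ) / ((2 * k : ℕ) : ℝ)) ^ (γ - 3)) atTop
      (𝓝 (2 ^ (γ - 3))) := t4.rpow_const (p := γ - 3) (Or.inl two_ne_zero)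
  have t6 := ((hq'.mul_const (μ ^ (2 * l))).mul t5).const_mul C
  refine not_tendsto_nhds_of_tendsto_atTop (tendsto_atTop_mono' atTop ?_ t3) _ t6
  filter_upwards [eventually_gt_atTop 0] with k hk
  have h1 := h (2 * k)
  have e2 : 2 * k + 2 * k + c = 2 * (2 * k + l) := by omega
  rw [e2] at h1
  simp only [Function.comp_apply]
  set x : ℝ := ((2 * k : ℕ) : ℝ) with hx
  set y : ℝ := ((2 * (2 * k + l) : ℕ) : ℝ) with hy
  have hx0 : 0 < x := by rw [hx]; positivity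
  have hy0 : 0 < y := by rw [hy]; positivity
  have p1 : x ^ δ = x ^ (2 / 3 : ℝ) * (x ^ (α - 3) * x ^ (β - 3)) / x ^ (γ - 3) := by
    rw [← Real.rpow_add hx0, ← Real.rpow_add hx0, ← Real.rpow_sub hx0, hδ]
    congr 1
    ring
  have p2 : (y / x) ^ (γ - 3) = y ^ (γ - 3) / x ^ (γ - 3) := Real.div_rpow hy0.le hx0.le _
  have p3 : μ ^ (2 * (2 * k + l)) = (μ ^ (2 * k) * μ ^ (2 * k)) * μ ^ (2 * l) := by
    rw [← pow_add, ← pow_add]
    congr 1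
    ring
  rw [p1, p2, p3]
  have q1 : 0 < x ^ (α - 3) := Real.rpow_pos_of_pos hx0 _
  have q2 : 0 < x ^ (β - 3) := Real.rpow_pos_of_pos hx0 _
  have q2' : 0 < x ^ (γ - 3) := Real.rpow_pos_of_pos hx0 _
  have q3 : 0 < y ^ (γ - 3) := Real.rpow_pos_of_pos hy0 _
  have q4 : 0 < μ ^ (2 * k) := pow_pos hμ _
  have q5 : 0 < μ ^ (2 * l) := pow_pos hμ _
  have l1 : (a (2 * k) : ℝ) / (x ^ (α - 3) * μ ^ (2 * k)) *
      ((b (2 * k) : ℝ) / (x ^ (β - 3) * μ ^ (2 * k))) *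
      (x ^ (2 / 3 : ℝ) * (x ^ (α - 3) * x ^ (β - 3)) / x ^ (γ - 3)) =
      (x ^ (2 / 3 : ℝ) * ((a (2 * k) : ℝ) * (b (2 * k) : ℝ))) /
        (μ ^ (2 * k) * μ ^ (2 * k) * x ^ (γ - 3)) := by
    field_simp
  have l2 : C * ((q (2 * (2 * k + l)) : ℝ) / (y ^ (γ - 3) * (μ ^ (2 * k) * μ ^ (2 * k) *
      μ ^ (2 * l))) * μ ^ (2 * l) * (y ^ (γ - 3) / x ^ (γ - 3))) =
      (C * (q (2 * (2 * k + l)) : ℝ)) / (μ ^ (2 * k) * μ ^ (2 * k) * x ^ (γ - 3)) := by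
    field_simp
  rw [l1, l2]
  exact div_le_div_of_nonneg_right h1 (by positivity)

/-- From the clean form to the diagonal form. -/
theorem pdiag {a b q : ℕ → ℕ} {C : ℝ} {c : ℕ} (hC : 0 < C)
    (h : ∀ n m : ℕ, ((min n m : ℕ) : ℝ) * ((a n : ℝ) * (b m : ℝ)) ≤
        C * ((n + m : ℕ) : ℝ) ^ (1 / 3 : ℝ) * (q (n + m + c) : ℝ)) (n : ℕ) :
    (n : ℝ) ^ (2 / 3 : ℝ) * ((a n : ℝ) * (b n : ℝ)) ≤ (2 * C) * (q (n + n + c) : ℝ) := by
  rcases Nat.eq_zero_or_pos n with rfl | hn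
  · rw [Nat.cast_zero, Real.zero_rpow (by norm_num), zero_mul]
    positivity
  have hx : (0 : ℝ) < n := by exact_mod_cast hn
  have h1 := h n n
  rw [min_self] at h1
  have e1 : (n : ℝ) = (n : ℝ) ^ (1 / 3 : ℝ) * (n : ℝ) ^ (2 / 3 : ℝ) := by
    rw [← Real.rpow_add hx]; norm_num
  have e2 : ((n + n : ℕ) : ℝ) ^ (1 / 3 : ℝ) ≤ 2 * (n : ℝ) ^ (1 / 3 : ℝ) := by
    have : ((n + n : ℕ) : ℝ) = 2 * n := by push_cast; ring
    rw [this, Real.mul_rpow (by norm_num) hx.le]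
    refine mul_le_mul_of_nonneg_right ?_ (Real.rpow_nonneg hx.le _)
    calc (2 : ℝ) ^ (1 / 3 : ℝ) ≤ 2 ^ (1 : ℝ) :=
          Real.rpow_le_rpow_of_exponent_le (by norm_num) (by norm_num)
      _ = 2 := Real.rpow_one 2
  have hn3 : 0 < (n : ℝ) ^ (1 / 3 : ℝ) := Real.rpow_pos_of_pos hx _
  have h2 : (n : ℝ) ^ (1 / 3 : ℝ) * ((n : ℝ) ^ (2 / 3 : ℝ) * ((a n : ℝ) * (b n : ℝ))) ≤
      (n : ℝ) ^ (1 / 3 : ℝ) * ((2 * C) * (q (n + n + c) : ℝ)) := by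
    calc _ = ((n : ℝ) ^ (1 / 3 : ℝ) * (n : ℝ) ^ (2 / 3 : ℝ)) * ((a n : ℝ) * (b n : ℝ)) := by ring
      _ = (n : ℝ) * ((a n : ℝ) * (b n : ℝ)) := by rw [← e1]
      _ ≤ C * ((n + n : ℕ) : ℝ) ^ (1 / 3 : ℝ) * (q (n + n + c) : ℝ) := h1
      _ ≤ C * (2 * (n : ℝ) ^ (1 / 3 : ℝ)) * (q (n + n + c) : ℝ) :=
          mul_le_mul_of_nonneg_right (mul_le_mul_of_nonneg_left e2 hC.le) (Nat.cast_nonneg _)
      _ = _ := by ring
  exact le_of_mul_le_mul_left h2 hn3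

/-- **The pair inequality for knot types.** -/
theorem pair_types {G : Subgroup (R3 ≃ₜ R3)} (hG : BigGroup G)
    (hG2 : ∀ φ : R3 ≃ₜ R3, φ ∈ G ∨ φ * swapR ∈ G) (K L : Finset (Sym2 P3)) :
    ∃ (C : ℝ) (c : ℕ), 0 < C ∧ Even c ∧ ∀ n m : ℕ,
      ((min n m : ℕ) : ℝ) * ((count (GClass G K) n : ℝ) * (count (GClass G L) m : ℝ)) ≤
        C * ((n + m : ℕ) : ℝ) ^ (1 / 3 : ℝ) * (count (SumClass G K L) (n + m + c) : ℝ) :=
  pclean (GClass.move hG K) (GClass.move hG L) (SumClass.move hG K L)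
    (fun _ h t => h.shift hG t) (fun _ h t => h.shift hG t)
    (fun E F x y h hE hF hB he hf => ⟨E, F, x, y, h, hE, hF, hB, he, hf,
      GClass.refl (polyJoinZStatement E F x y h hE.1 hF.1 hB he hf)⟩)
    (fun _ h => h.rot hG2) (fun _ h => h.rot' hG2) (fun _ h => h.rot hG2) (fun _ h => h.rot' hG2)

/-- The pair inequality for classes closed under joins. -/
theorem pair_closed {C : Finset (Sym2 P3) → Prop} (hC : ClosedZ C) :
    ∃ (D : ℝ) (c : ℕ), 0 < D ∧ Even c ∧ ∀ n m : ℕ,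
      ((min n m : ℕ) : ℝ) * ((count C n : ℝ) * (count C m : ℝ)) ≤
        D * ((n + m : ℕ) : ℝ) ^ (1 / 3 : ℝ) * (count C (n + m + c) : ℝ) :=
  pclean hC.move hC.move hC.move (fun _ h t => hC.shift h t) (fun _ h t => hC.shift h t)
    hC.join (fun _ h => hC.swapYZ _ (hC.swapXY _ h)) (fun _ h => hC.swapXY _ (hC.swapYZ _ h))
    (fun _ h => hC.swapYZ _ (hC.swapXY _ h)) (fun _ h => hC.swapXY _ (hC.swapYZ _ h))

end Pool.Agent.LK
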