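import Pool.Agent.MP_aea6d5_co.PWide

/-! # Pairs of knot types: far cuts with parts of given sizes are few -/

set_option autoImplicit false

namespace Pool.Agent.LK

/-- The small parts of two far cuts are disjoint. -/
theorem far_disj {R P Q P2 Q2 : Finset (Sym2 P3)} {a b p1 p2 q1 q2 p1' p2' q1' q2' : P3}
    (hP : Part R P a p1 p2) (hQ : Part R Q a q1 q2) (hP2 : Part R P2 b p1' p2')
    (hQ2 : Part R Q2 b q1' q2') (hPQ : ∀ u, u ∈ verts P → u ∈ verts Q → False)
    (hPQ2 : ∀ u, u ∈ verts P2 → u ∈ verts Q2 → False)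
    (hb : (∀ u, Sq b u → u ∈ verts P) ∨ (∀ u, Sq b u → u ∈ verts Q))
    (ha : (∀ u, Sq a u → u ∈ verts P2) ∨ (∀ u, Sq a u → u ∈ verts Q2)) {k : ℕ}
    (h1 : P2.card ≤ P.card + k) (h2 : P.card ≤ P2.card + k) (h3 : P2.card ≤ Q.card + k)
    (hfar : ¬ Box (k + 2) (a - b)) : ∀ u, u ∈ verts P → u ∈ verts P2 → False := by
  rcases hb with hb | hb <;> rcases ha with ha | ha
  · exact (hfar (part_close arcStatement cardStatement hQ hP2
      (fun u hu hu' => hPQ u (hb u hu) hu') ha h3)).elim
  · have := part_close arcStatement cardStatement hP2 hP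
      (fun u hu hu' => hPQ2 u hu' (ha u hu)) hb h2
    refine (hfar ?_).elim
    have e : a - b = -(b - a) := by abel
    rw [e]; exact this.neg
  · exact (hfar (part_close arcStatement cardStatement hP hP2
      (fun u hu hu' => hPQ u hu' (hb u hu)) ha h1)).elim
  · have := hP.verts_sub hQ2 (fun u hu hu' => hPQ u hu' (hb u hu)) ha
    exact fun u hu hu' => hPQ2 u hu' (this hu)

theorem IsCut.poly {R E F : Finset (Sym2 P3)} {a : P3} {r : ℤ} (h : IsCut R E F a r) :
    IsPolygon R := by
  rw [h.R_eq]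
  refine polyJoinZStatement _ _ _ _ _ h.pE h.pF h.below ?_ ?_
  · have e1 : ((a.1 + 1, a.2.1, a.2.2) : P3) = a + (1, 0, 0) := by
      refine Prod.ext ?_ (Prod.ext ?_ ?_) <;> simp
    rw [e1]; exact h.eE
  · have e2 : ((a.1, a.2.1, a.2.2 + 1) : P3) = a + (0, 0, 1) := by
      refine Prod.ext ?_ (Prod.ext ?_ ?_) <;> simp
    have e3 : ((a.1 + 1, a.2.1, a.2.2 + 1) : P3) = a + (0, 0, 1) + (1, 0, 0) := by
      refine Prod.ext ?_ (Prod.ext ?_ ?_) <;> simp
    rw [e3, e2]; exact h.eF

theorem Part.verts_R {R P : Finset (Sym2 P3)} {a f1 f2 : P3} (h : Part R P a f1 f2)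
    (hsq : ∀ u, Sq a u → u ∈ verts R) : verts P ⊆ verts R := by
  rintro u ⟨v, huv⟩
  by_cases he : s(u, v) = s(f1, f2)
  · rw [Sym2.eq_iff] at he
    rcases he with ⟨rfl, -⟩ | ⟨rfl, -⟩
    · exact hsq _ h.s1
    · exact hsq _ h.s2
  · exact left_mem_verts (h.sub u v huv he)

/-- **Packing.** All cuts with parts of given sizes are near few of them. -/
theorem pack {ι : Type} [DecidableEq ι] (X : Finset ι) {R : Finset (Sym2 P3)}
    {E F : ι → Finset (Sym2 P3)} {a : ι → P3} {r : ℤ} (hr : 0 ≤ r)
    (h : ∀ x ∈ X, IsCut R (E x) (F x) (a x) r) {n m B : ℕ}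
    (hE : ∀ x ∈ X, n ≤ (E x).card + B ∧ (E x).card ≤ n + B)
    (hF : ∀ x ∈ X, m ≤ (F x).card + B ∧ (F x).card ≤ m + B) :
    ∃ Y ⊆ X, Y.card * min n m ≤ (B + 1) * R.card ∧
      ∀ x ∈ X, ∃ y ∈ Y, Box (r + 2 * B + 2) (a x - a y) := by
  classical
  set D : ℤ := r + 2 * B + 2 with hD
  -- the parts
  set P : ι → Finset (Sym2 P3) := fun x => if n ≤ m then E x else F x with hPdef
  set S : Finset (Finset ι) := X.powerset.filter
    (fun Y => ∀ x ∈ Y, ∀ y ∈ Y, x ≠ y → ¬ Box D (a x - a y)) with hS
  have hSne : S.Nonempty := ⟨∅, by rw [hS, Finset.mem_filter]; simp⟩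
  obtain ⟨Y, hY, hmax⟩ := Finset.exists_max_image S Finset.card hSne
  rw [hS, Finset.mem_filter, Finset.mem_powerset] at hY
  obtain ⟨hYX, hYfar⟩ := hY
  have hmin : ∀ x ∈ X, min n m ≤ (P x).card + B := by
    intro x hx
    simp only [hPdef]
    split_ifs with hnm
    · exact (min_le_left _ _).trans (hE x hx).1
    · exact (min_le_right _ _).trans (hF x hx).1
  have hPsub : ∀ x ∈ X, verts (P x) ⊆ verts R := by
    intro x hx
    have hc := h x hx
    simp only [hPdef]
    split_ifs with hnm
    · exact hc.partE.verts_R (fun u hu => hc.sq_mem hu)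
    · exact hc.partF.verts_R (fun u hu => hc.sq_mem hu)
  have hPpoly : ∀ x ∈ X, IsPolygon (P x) := by
    intro x hx
    simp only [hPdef]
    split_ifs with hnm
    · exact (h x hx).pE
    · exact (h x hx).pF
  have hdisj : ∀ x ∈ X, ∀ y ∈ X, ¬ Box D (a x - a y) →
      ∀ u, u ∈ verts (P x) → u ∈ verts (P y) → False := by
    intro x hx y hy hfar
    have hx' := h x hx
    have hy' := h y hy
    have f0 : ¬ Box (((2 * B : ℕ) : ℤ) + 2) (a x - a y) := fun hB => hfar (hB.mono (by push_cast; omega))
    have f1 : ¬ Box (r + 1) (a x - a y) := fun hB => hfar (hB.mono (by omega))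
    have f2 : ¬ Box (r + 1) (a y - a x) := by
      intro hB
      apply f1
      have e : a x - a y = -(a y - a x) := by abel
      rw [e]; exact hB.neg
    have d1 := hx'.dich (fun u hu => hy'.sq_mem hu) f1
    have d2 := hy'.dich (fun u hu => hx'.sq_mem hu) f2
    have sx := hE x hx
    have sy := hE y hy
    have tx := hF x hx
    have ty := hF y hy
    simp only [hPdef]
    split_ifs with hnm
    · exact far_disj hx'.partE hx'.partF hy'.partE hy'.partF (fun u h1 h2 => hx'.disj h1 h2)
        (fun u h1 h2 => hy'.disj h1 h2) d1 d2 (k := 2 * B) (by omega) (by omega) (by omega) f0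
    · exact far_disj hx'.partF hx'.partE hy'.partF hy'.partE (fun u h1 h2 => hx'.disj h2 h1)
        (fun u h1 h2 => hy'.disj h2 h1) d1.symm d2.symm (k := 2 * B) (by omega) (by omega)
        (by omega) f0
  refine ⟨Y, hYX, ?_, ?_⟩
  · rcases Y.eq_empty_or_nonempty with h0 | ⟨y0, hy0⟩
    · rw [h0]; simp
    have hR := (h y0 (hYX hy0)).poly
    -- the vertex sets
    set V : ι → Finset P3 := fun x => (verts_finite (P x)).toFinset with hV
    have hVc : ∀ x ∈ X, (V x).card = (P x).card := by
      intro x hx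
      rw [hV]
      simp only
      rw [← Set.ncard_eq_toFinset_card _ (verts_finite (P x))]
      exact (cardStatement _ (hPpoly x hx)).2
    have h1 : (Y.biUnion V).card ≤ R.card := by
      rw [← (cardStatement R hR).2, ← Set.ncard_coe_finset]
      refine Set.ncard_le_ncard ?_ (verts_finite R)
      intro u hu
      rw [Finset.mem_coe, Finset.mem_biUnion] at hu
      obtain ⟨x, hx, hu⟩ := hu
      exact hPsub x (hYX hx) (by simpa [hV] using hu)
    have h2 : (Y.biUnion V).card = ∑ x ∈ Y, (V x).card := by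
      refine Finset.card_biUnion ?_
      intro x hx y hy hxy
      refine Finset.disjoint_left.2 ?_
      intro u hu hu'
      exact hdisj x (hYX hx) y (hYX hy) (hYfar x hx y hy hxy) u (by simpa [hV] using hu)
        (by simpa [hV] using hu')
    have h3 : ∀ x ∈ Y, min n m ≤ (B + 1) * (V x).card := by
      intro x hx
      have h4 := hmin x (hYX hx)
      rw [hVc x (hYX hx)]
      have h5 : 1 ≤ (P x).card := (hPpoly x (hYX hx)).nonempty.card_pos
      have h6 : B * 1 ≤ B * (P x).card := Nat.mul_le_mul_left _ h5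
      have h7 : (B + 1) * (P x).card = B * (P x).card + (P x).card := by ring
      omega
    calc Y.card * min n m = ∑ x ∈ Y, min n m := by rw [Finset.sum_const, smul_eq_mul]
      _ ≤ ∑ x ∈ Y, (B + 1) * (V x).card := Finset.sum_le_sum h3
      _ = (B + 1) * (Y.biUnion V).card := by rw [h2, Finset.mul_sum]
      _ ≤ (B + 1) * R.card := Nat.mul_le_mul_left _ h1
  · intro x hx
    by_contra hcon
    push Not at hcon
    have hxY : x ∉ Y := by
      intro hxY
      apply hcon x hxY
      rw [sub_self]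
      simp only [Box, Prod.fst_zero, Prod.snd_zero, abs_zero]
      omega
    have hin : insert x Y ∈ S := by
      rw [hS, Finset.mem_filter, Finset.mem_powerset]
      refine ⟨Finset.insert_subset hx hYX, ?_⟩
      intro z hz w hw hzw
      rw [Finset.mem_insert] at hz hw
      rcases hz with rfl | hz <;> rcases hw with rfl | hw
      · exact (hzw rfl).elim
      · exact hcon w hw
      · intro hB
        apply hcon z hz
        have e : a w - a z = -(a z - a w) := by abel
        rw [e]; exact hB.neg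
      · exact hYfar z hz w hw hzw
    have := hmax _ hin
    rw [Finset.card_insert_of_notMem hxY] at this
    omega

end Pool.Agent.LK
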