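import Pool.Agent.MP_aea6d5_co.PPack

/-! # Pairs of knot types: the pair inequality -/

set_option autoImplicit false

namespace Pool.Agent.LK

/-- A contact gives a joined polygon. -/
theorem pJoined {CE CF CR : Finset (Sym2 P3) → Prop} (mE : MoveClosed CE)
    (mF : MoveClosed (fun F => CF (negE F)))
    (shiftF : ∀ F, CF F → ∀ t : P3, CF (shift t F))
    (hjoin : ∀ E F x y h, CE E → CF F → Below E F → s((x, y, h), (x + 1, y, h)) ∈ E →
      s((x, y, h + 1), (x + 1, y, h + 1)) ∈ F → CR (joinZ E F x y h))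
    {E F : Finset (Sym2 P3)} (hE : CE E) (hF : CF F)
    {D : Finset P3} (hD : ∀ d, d ∈ D ↔ ∃ u ∈ verts E, ∃ v ∈ verts F, d = u - v) {d N : P3}
    (hd : d ∈ D) (hN0 : 0 ≤ N.2.2) (hN : (2000000 - 1) ^ 2 ≤ nsq N + 2)
    (hfree : ∀ s : P3, nsq s < 2 * dot N s → ∀ t : ℤ, 0 ≤ t → d + s + (0, 0, t) ∉ D) :
    ∃ R E' F' p a w, Joined CE CF CR E F d R E' F' p a w := by
  obtain ⟨p, hp, q, hq, rfl⟩ := (hD d).1 hd
  obtain ⟨x, y, z, hFr, h1, h2, h3⟩ := exists_frame N
  have hM : 1000000 ≤ dot N x := by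
    have := nsq_le_of_frame hFr h1 h2 h3
    by_contra hlt
    push Not at hlt
    have h0 : 0 ≤ dot N x := by omega
    nlinarith
  obtain ⟨R, E', F', a, w, h⟩ := assemble2 mE mF shiftF hjoin hE hF hp hq hFr h1 h2 h3 hM hN0 (by
    intro s hs t ht u hu v hv he
    exact hfree s hs t ht ((hD _).2 ⟨u, hu, v, hv, he.symm⟩))
  exact ⟨R, E', F', p, a, w, h⟩

/-- **The pair inequality for two classes.** -/
theorem ppair {CE CF CR : Finset (Sym2 P3) → Prop} (mE : MoveClosed CE) (mF : MoveClosed CF)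
    (shiftF : ∀ F, CF F → ∀ t : P3, CF (shift t F))
    (pR : ∀ R, CR R → IsPolygon R) (shiftR : ∀ R, CR R → ∀ t : P3, CR (shift t R))
    (hjoin : ∀ E F x y h, CE E → CF F → Below E F → s((x, y, h), (x + 1, y, h)) ∈ E →
      s((x, y, h + 1), (x + 1, y, h + 1)) ∈ F → CR (joinZ E F x y h))
    (rE1 : ∀ E, CE E → CE (mapE sz (mapE sw E))) (rE2 : ∀ E, CE E → CE (mapE sw (mapE sz E)))
    (rF1 : ∀ E, CF E → CF (mapE sz (mapE sw E))) (rF2 : ∀ E, CF E → CF (mapE sw (mapE sz E))) :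
    ∃ (C : ℝ) (B : ℕ), 0 < C ∧ ∀ n m : ℕ,
      ((min n m : ℕ) : ℝ) * (((max n m : ℕ) : ℝ) ^ (2 / 3 : ℝ) *
        ((count CE n : ℝ) * (count CF m : ℝ))) ≤
      C * ((n + m + B : ℕ) : ℝ) *
        ∑ i ∈ Finset.range (2 * B + 1), (count CR (n + m + i - B) : ℝ) := by
  classical
  have pE := mE.poly
  have pF := mF.poly
  obtain ⟨B, hB⟩ : ∃ B : ℕ, ∀ (a : P3) (E E' : Finset (Sym2 P3)), ChangedIn a 1000 E E' →
      E'.card ≤ E.card + B := ⟨_, fun a E E' h => h.card_le⟩
  obtain ⟨K1, hT⟩ : ∃ K1 : ℕ, ∀ E F : Finset (Sym2 P3), ∃ T ⊆ diffs E F,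
      ((diffs E F).image (fun d => (d.1, d.2.1))).card ≤ K1 * T.card ∧
      ∀ d0 ∈ T, ∃ N : P3, 0 ≤ N.2.2 ∧ (2000000 - 1) ^ 2 ≤ nsq N + 2 ∧
        ∀ s : P3, nsq s < 2 * dot N s → ∀ t : ℤ, 0 ≤ t → d0 + s + (0, 0, t) ∉ diffs E F :=
    ⟨_, fun E F => contactProp 2000000 (by norm_num) (diffs E F)⟩
  obtain ⟨L, hL⟩ := exists_code_bound (1000 + 2 * B + 2) 1000
  refine ⟨3 * K1 * (L * (B + 1)) + 1, B, by positivity, ?_⟩
  intro n m
  choose T hTD hTcard hTN using hT
  set X : Finset (Σ _ : Finset (Sym2 P3) × Finset (Sym2 P3), P3) :=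
    (U CE n ×ˢ U CF m).sigma (fun q => T q.1 q.2) with hX
  have memX : ∀ x ∈ X, (CE x.1.1 ∧ x.1.1.card = n ∧ Normed x.1.1) ∧
      (CF x.1.2 ∧ x.1.2.card = m ∧ Normed x.1.2) ∧ x.2 ∈ T x.1.1 x.1.2 := by
    intro x hx
    rw [hX, Finset.mem_sigma, Finset.mem_product, mem_U' pE, mem_U' pF] at hx
    exact ⟨hx.1.1, hx.1.2, hx.2⟩
  -- the joined polygons
  have hJ : ∀ x : (Σ _ : Finset (Sym2 P3) × Finset (Sym2 P3), P3), ∃ R E' F' p a w s, x ∈ X →
      Joined CE CF CR x.1.1 x.1.2 x.2 R E' F' p a w ∧ Normed (shift s R) := by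
    intro x
    by_cases hx : x ∈ X
    · obtain ⟨h1, h2, h3⟩ := memX x hx
      obtain ⟨N, hN0, hN, hfree⟩ := hTN _ _ _ h3
      obtain ⟨R, E', F', p, a, w, h⟩ := pJoined mE mF.negE shiftF hjoin h1.1 h2.1
        (fun d => mem_diffs) (hTD _ _ h3) hN0 hN hfree
      obtain ⟨s, hs⟩ := exists_normed (pR _ h.cR).verts_nonempty
      exact ⟨R, E', F', p, a, w, s, fun _ => ⟨h, hs⟩⟩
    · exact ⟨∅, ∅, ∅, 0, 0, 0, 0, fun h => absurd h hx⟩
  choose R E' F' p a w s hJ using hJ
  -- the target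
  set V : Finset (Finset (Sym2 P3)) :=
    (Finset.range (2 * B + 1)).biUnion (fun i => U CR (n + m + i - B)) with hV
  have hVcard : V.card ≤ ∑ i ∈ Finset.range (2 * B + 1), count CR (n + m + i - B) := by
    refine Finset.card_biUnion_le.trans ?_
    exact Finset.sum_le_sum fun i _ => (card_U' pR _).le
  have hcardR : ∀ x ∈ X, (R x).card ≤ n + m + B ∧ n + m ≤ (R x).card + B := by
    intro x hx
    obtain ⟨h1, h2, h3⟩ := memX x hx
    have h := (hJ x hx).1
    have c1 := hB _ _ _ h.ch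
    have c2 := hB _ _ _ h.ch.symm
    rw [h.card_union, h1.2.1, h2.2.1] at c1 c2
    omega
  have hmaps : ∀ x ∈ X, shift (s x) (R x) ∈ V := by
    intro x hx
    rw [hV, Finset.mem_biUnion]
    obtain ⟨c1, c2⟩ := hcardR x hx
    refine ⟨(R x).card + B - (n + m), by rw [Finset.mem_range]; omega, ?_⟩
    rw [mem_U' pR]
    refine ⟨shiftR _ (hJ x hx).1.cR _, ?_, (hJ x hx).2⟩
    rw [card_shift]; omega
  have hfiber : ∀ G ∈ V, (X.filter (fun x => shift (s x) (R x) = G)).card * min n m ≤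
      L * (B + 1) * (n + m + B) := by
    intro G _
    set Z := X.filter (fun x => shift (s x) (R x) = G) with hZ
    rcases Z.eq_empty_or_nonempty with h0 | ⟨x0, hx0⟩
    · rw [h0]; simp
    have hG : G.card ≤ n + m + B := by
      rw [hZ, Finset.mem_filter] at hx0
      have h1 := (hcardR x0 hx0.1).1
      rw [← hx0.2, card_shift]
      exact h1
    obtain ⟨Y, hYZ, hYc, hYn⟩ := pack Z (R := G) (E := fun x => shift (s x) (E' x))
      (F := fun x => shift (s x) (F' x)) (a := fun x => a x + s x) (r := 1000) (by norm_num)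
      (n := n) (m := m) (B := B)
      (by
        intro x hx
        rw [hZ, Finset.mem_filter] at hx
        have k1 := ((hJ x hx.1).1.isCut pE pF).shift (s x)
        rw [hx.2] at k1
        exact k1)
      (by
        intro x hx
        rw [hZ, Finset.mem_filter] at hx
        obtain ⟨h1, h2, h3⟩ := memX x hx.1
        have h := (hJ x hx.1).1
        have m1 := hB _ _ _ h.chE.symm
        have m2 := hB _ _ _ h.chE
        simp only [card_shift]
        omega)
      (by
        intro x hx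
        rw [hZ, Finset.mem_filter] at hx
        obtain ⟨h1, h2, h3⟩ := memX x hx.1
        have h := (hJ x hx.1).1
        have m1 := hB _ _ _ h.chF.symm
        have m2 := hB _ _ _ h.chF
        rw [card_shift] at m1 m2
        simp only [card_shift]
        omega)
    have hcov : Z ⊆ Y.biUnion (fun y => Z.filter
        (fun x => Box (1000 + 2 * B + 2) (a x + s x - (a y + s y)))) := by
      intro x hx
      obtain ⟨y, hy, hb⟩ := hYn x hx
      rw [Finset.mem_biUnion]
      exact ⟨y, hy, Finset.mem_filter.2 ⟨hx, hb⟩⟩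
    have hone : ∀ y ∈ Y, (Z.filter
        (fun x => Box (1000 + 2 * B + 2) (a x + s x - (a y + s y)))).card ≤ L := by
      intro y _
      set W := Z.filter (fun x => Box (1000 + 2 * B + 2) (a x + s x - (a y + s y))) with hW
      suffices hinj : Set.InjOn (fun x => (a x + s x - (a y + s y),
        pat x.1.1 x.1.2 (a x) (w x), p x - a x, w x - x.2)) (W : Set _) by
        rw [← Finset.card_image_of_injOn hinj]
        refine hL _ ?_
        intro q hq
        obtain ⟨x, hx, rfl⟩ := Finset.mem_image.1 hq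
        rw [hW, Finset.mem_filter, hZ, Finset.mem_filter] at hx
        have h := (hJ x hx.1.1).1
        exact ⟨hx.2, Finset.inter_subset_left, h.pa, h.wd⟩
      intro x hx x' hx' hxx
      rw [Finset.mem_coe, hW, Finset.mem_filter, hZ, Finset.mem_filter] at hx hx'
      simp only [Prod.mk.injEq] at hxx
      obtain ⟨e1, e2, e3, e4⟩ := hxx
      obtain ⟨h1, h2, h3⟩ := memX x hx.1.1
      obtain ⟨g1, g2, g3⟩ := memX x' hx'.1.1
      obtain ⟨q1, q2, q3⟩ := decode (hJ x hx.1.1).1 (hJ x' hx'.1.1).1 (pE _ h1.1) (pE _ g1.1)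
        h1.2.2 g1.2.2 h2.2.2 g2.2.2 (hx.1.2.trans hx'.1.2.symm) (sub_left_inj.1 e1) e2 e3 e4
      obtain ⟨⟨x1, x2⟩, x3⟩ := x
      obtain ⟨⟨y1, y2⟩, y3⟩ := x'
      simp only at q1 q2 q3
      subst q1 q2 q3
      rfl
    have hZc : Z.card ≤ Y.card * L :=
      (Finset.card_le_card hcov).trans (Finset.card_biUnion_le_card_mul _ _ _ hone)
    calc Z.card * min n m ≤ (Y.card * L) * min n m := Nat.mul_le_mul_right _ hZc
      _ = L * (Y.card * min n m) := by ring
      _ ≤ L * ((B + 1) * G.card) := Nat.mul_le_mul_left _ hYc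
      _ ≤ L * ((B + 1) * (n + m + B)) := by gcongr
      _ = _ := by ring
  have hup : X.card * min n m ≤ L * (B + 1) * (n + m + B) * V.card := by
    have h1 : X.card = ∑ G ∈ V, (X.filter (fun x => shift (s x) (R x) = G)).card :=
      Finset.card_eq_sum_card_fiberwise hmaps
    rw [h1, Finset.sum_mul]
    refine (Finset.sum_le_sum fun G hG => hfiber G hG).trans ?_
    rw [Finset.sum_const, smul_eq_mul]
    exact le_of_eq (by ring)
  -- the lower bound
  have hlow : ((max n m : ℕ) : ℝ) ^ (2 / 3 : ℝ) * ((count CE n : ℝ) * (count CF m : ℝ)) ≤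
      3 * K1 * (X.card : ℝ) := by
    have hXc : X.card = ∑ q ∈ U CE n ×ˢ U CF m, (T q.1 q.2).card := by
      rw [hX, Finset.card_sigma]
    -- a subset of pairs with many contacts
    obtain ⟨A, hA, hAc, hAT⟩ : ∃ A ⊆ U CE n ×ˢ U CF m,
        (count CE n : ℝ) * (count CF m : ℝ) ≤ 3 * (A.card : ℝ) ∧
        ∀ q ∈ A, ((max n m : ℕ) : ℝ) ^ (2 / 3 : ℝ) ≤ K1 * ((T q.1 q.2).card : ℝ) := by
      rcases le_total m n with hnm | hnm
      · rw [max_eq_left hnm]
        set W : Finset (Finset (Sym2 P3)) :=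
          (U CE n).filter (fun E => (n : ℝ) ^ (2 / 3 : ℝ) ≤ ((cols E).ncard : ℝ)) with hW
        have hWc : (count CE n : ℝ) ≤ 3 * (W.card : ℝ) := by
          refine (wide_of_rot pE rE1 rE2 n).trans ?_
          have : {E : Finset (Sym2 P3) | CE E ∧ E.card = n ∧ Normed E ∧
              (n : ℝ) ^ (2 / 3 : ℝ) ≤ ((cols E).ncard : ℝ)} = (W : Set (Finset (Sym2 P3))) := by
            ext E
            rw [hW, Finset.coe_filter, Set.mem_ofPred_eq, Set.mem_ofPred_eq, mem_U' pE]
            tauto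
          rw [this, Set.ncard_coe_finset]
        refine ⟨W ×ˢ U CF m, Finset.product_subset_product (Finset.filter_subset _ _)
          (Finset.Subset.refl _), ?_, ?_⟩
        · rw [Finset.card_product, card_U' pF]
          push_cast
          have h4 : (0 : ℝ) ≤ count CF m := Nat.cast_nonneg _
          nlinarith
        · intro q hq
          rw [Finset.mem_product, hW, Finset.mem_filter, mem_U' pF] at hq
          have h2 := cols_le (E := q.1) (pF _ hq.2.1).verts_nonempty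
          have h3 := h2.trans (hTcard q.1 q.2)
          refine hq.1.2.trans ?_
          exact_mod_cast h3
      · rw [max_eq_right hnm]
        set W : Finset (Finset (Sym2 P3)) :=
          (U CF m).filter (fun E => (m : ℝ) ^ (2 / 3 : ℝ) ≤ ((cols E).ncard : ℝ)) with hW
        have hWc : (count CF m : ℝ) ≤ 3 * (W.card : ℝ) := by
          refine (wide_of_rot pF rF1 rF2 m).trans ?_
          have : {E : Finset (Sym2 P3) | CF E ∧ E.card = m ∧ Normed E ∧
              (m : ℝ) ^ (2 / 3 : ℝ) ≤ ((cols E).ncard : ℝ)} = (W : Set (Finset (Sym2 P3))) := by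
            ext E
            rw [hW, Finset.coe_filter, Set.mem_ofPred_eq, Set.mem_ofPred_eq, mem_U' pF]
            tauto
          rw [this, Set.ncard_coe_finset]
        refine ⟨U CE n ×ˢ W, Finset.product_subset_product (Finset.Subset.refl _)
          (Finset.filter_subset _ _), ?_, ?_⟩
        · rw [Finset.card_product, card_U' pE]
          push_cast
          have h4 : (0 : ℝ) ≤ count CE n := Nat.cast_nonneg _
          nlinarith
        · intro q hq
          rw [Finset.mem_product, hW, Finset.mem_filter, mem_U' pE] at hq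
          have h2 := cols_le' (F := q.2) (pE _ hq.1.1).verts_nonempty
          have h3 := h2.trans (hTcard q.1 q.2)
          refine hq.2.2.trans ?_
          exact_mod_cast h3
    set z : ℝ := ((max n m : ℕ) : ℝ) ^ (2 / 3 : ℝ) with hz
    have hz0 : 0 ≤ z := Real.rpow_nonneg (Nat.cast_nonneg _) _
    have h2 : (A.card : ℝ) * z ≤ K1 * (X.card : ℝ) := by
      have h3 : ∑ q ∈ A, z ≤ ∑ q ∈ A, (K1 * ((T q.1 q.2).card : ℝ)) :=
        Finset.sum_le_sum fun q hq => hAT q hq
      rw [Finset.sum_const, nsmul_eq_mul] at h3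
      refine h3.trans ?_
      rw [← Finset.mul_sum]
      refine mul_le_mul_of_nonneg_left ?_ (Nat.cast_nonneg _)
      rw [hXc]
      push_cast
      exact Finset.sum_le_sum_of_subset_of_nonneg hA (fun _ _ _ => Nat.cast_nonneg _)
    calc z * ((count CE n : ℝ) * (count CF m : ℝ)) ≤ z * (3 * (A.card : ℝ)) :=
          mul_le_mul_of_nonneg_left hAc hz0
      _ = 3 * ((A.card : ℝ) * z) := by ring
      _ ≤ 3 * (K1 * (X.card : ℝ)) := mul_le_mul_of_nonneg_left h2 (by norm_num)
      _ = 3 * K1 * (X.card : ℝ) := by ring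
  have hup' : (X.card : ℝ) * ((min n m : ℕ) : ℝ) ≤ L * (B + 1) * ((n + m + B : ℕ) : ℝ) *
      ∑ i ∈ Finset.range (2 * B + 1), (count CR (n + m + i - B) : ℝ) := by
    have : X.card * min n m ≤ L * (B + 1) * (n + m + B) *
        ∑ i ∈ Finset.range (2 * B + 1), count CR (n + m + i - B) :=
      hup.trans (Nat.mul_le_mul_left _ hVcard)
    exact_mod_cast this
  set S : ℝ := ∑ i ∈ Finset.range (2 * B + 1), (count CR (n + m + i - B) : ℝ) with hS
  have hS0 : 0 ≤ S := Finset.sum_nonneg fun _ _ => Nat.cast_nonneg _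
  have hm0 : (0 : ℝ) ≤ ((min n m : ℕ) : ℝ) := Nat.cast_nonneg _
  have hs0 : (0 : ℝ) ≤ ((n + m + B : ℕ) : ℝ) := Nat.cast_nonneg _
  calc ((min n m : ℕ) : ℝ) * (((max n m : ℕ) : ℝ) ^ (2 / 3 : ℝ) *
        ((count CE n : ℝ) * (count CF m : ℝ)))
      ≤ ((min n m : ℕ) : ℝ) * (3 * K1 * (X.card : ℝ)) := mul_le_mul_of_nonneg_left hlow hm0
    _ = 3 * K1 * ((X.card : ℝ) * ((min n m : ℕ) : ℝ)) := by ring
    _ ≤ 3 * K1 * (L * (B + 1) * ((n + m + B : ℕ) : ℝ) * S) :=
        mul_le_mul_of_nonneg_left hup' (by positivity)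
    _ = (3 * K1 * (L * (B + 1))) * (((n + m + B : ℕ) : ℝ) * S) := by ring
    _ ≤ (3 * K1 * (L * (B + 1)) + 1) * (((n + m + B : ℕ) : ℝ) * S) :=
        mul_le_mul_of_nonneg_right (by linarith) (mul_nonneg hs0 hS0)
    _ = _ := by ring

end Pool.Agent.LK
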