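import Pool.Agent.MP_aea6d5_co.SOcc
import Pool.Agent.MP_aea6d5_co.CFinal

/-! # Pairs of knot types: rotations of space, wide polygons -/

set_option autoImplicit false

namespace Pool.Agent.LK

/-- Squares of homeomorphisms lie in every group of index at most two. -/
theorem sq_mem_G {G : Subgroup (R3 ≃ₜ R3)} (hG : ∀ φ : R3 ≃ₜ R3, φ ∈ G ∨ φ * swapR ∈ G)
    (φ : R3 ≃ₜ R3) : φ * φ ∈ G := by
  by_cases h : φ ∈ G
  · exact G.mul_mem h h
  rcases hG (φ * φ) with h1 | h1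
  · exact h1
  · exfalso
    have h2 : φ * swapR ∈ G := (hG φ).resolve_left h
    have h3 := G.mul_mem h1 (G.inv_mem h2)
    have h4 : φ * φ * swapR * (φ * swapR)⁻¹ = φ := by group
    rw [h4] at h3
    exact h h3

theorem rot_mem_G {G : Subgroup (R3 ≃ₜ R3)} (hG : ∀ φ : R3 ≃ₜ R3, φ ∈ G ∨ φ * swapR ∈ G) :
    szR * swapR ∈ G := by
  have h1 := G.mul_mem (sq_mem_G hG (szR * swapR)) (sq_mem_G hG (szR * swapR))
  have h2 : szR * swapR * (szR * swapR) * (szR * swapR * (szR * swapR)) = szR * swapR := by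
    ext p <;> rfl
  rwa [h2] at h1

theorem rot_mem_G' {G : Subgroup (R3 ≃ₜ R3)} (hG : ∀ φ : R3 ≃ₜ R3, φ ∈ G ∨ φ * swapR ∈ G) :
    swapR * szR ∈ G := by
  have h1 := G.inv_mem (rot_mem_G hG)
  have h2 : (szR * swapR)⁻¹ = swapR * szR := by
    rw [mul_inv_rev]
    rfl
  rwa [h2] at h1

section

variable {G : Subgroup (R3 ≃ₜ R3)} {K E : Finset (Sym2 P3)}

theorem GClass.rot (hG : ∀ φ : R3 ≃ₜ R3, φ ∈ G ∨ φ * swapR ∈ G) (h : GClass G K E) :
    GClass G K (mapE sz (mapE sw E)) := by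
  obtain ⟨hE, φ, hφ, he⟩ := h
  refine ⟨polyClosedZ.swapYZ _ (polyClosedZ.swapXY E hE), szR * swapR * φ,
    G.mul_mem (rot_mem_G hG) hφ, ?_⟩
  change (szR ∘ swapR ∘ φ) '' body K = body (mapE sz (mapE sw E))
  rw [Set.image_comp, Set.image_comp, he, body_sz]
  congr 1
  exact (body_swap E).symm

theorem GClass.rot' (hG : ∀ φ : R3 ≃ₜ R3, φ ∈ G ∨ φ * swapR ∈ G) (h : GClass G K E) :
    GClass G K (mapE sw (mapE sz E)) := by
  obtain ⟨hE, φ, hφ, he⟩ := h
  refine ⟨polyClosedZ.swapXY _ (polyClosedZ.swapYZ E hE), swapR * szR * φ,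
    G.mul_mem (rot_mem_G' hG) hφ, ?_⟩
  change (swapR ∘ szR ∘ φ) '' body K = body (mapE sw (mapE sz E))
  rw [Set.image_comp, Set.image_comp, he, ← body_sz]
  exact (body_swap (mapE sz E)).symm

end

theorem cols_sw_ncard (E : Finset (Sym2 P3)) : (cols (mapE sw E)).ncard = (cols E).ncard := by
  have : cols (mapE sw E) = (fun c : ℤ × ℤ => (c.2, c.1)) '' cols E := by
    rw [cols_eq, cols_eq, Set.image_image]
    ext c
    simp only [Set.mem_image]
    constructor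
    · rintro ⟨u, hu, rfl⟩
      exact ⟨sw u, mem_verts_sw.1 hu, rfl⟩
    · rintro ⟨u, hu, rfl⟩
      exact ⟨sw u, mem_verts_sw.2 hu, rfl⟩
  rw [this, Set.ncard_image_of_injective]
  intro c c' h
  simp only [Prod.mk.injEq] at h
  exact Prod.ext h.2 h.1

/-- At least a third of the members of a class which is closed under rotations have a large
projection to the `xy`-plane. -/
theorem wide_of_rot {C : Finset (Sym2 P3) → Prop} (hpoly : ∀ E, C E → IsPolygon E)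
    (h1 : ∀ E, C E → C (mapE sz (mapE sw E))) (h2 : ∀ E, C E → C (mapE sw (mapE sz E))) (n : ℕ) :
    (count C n : ℝ) ≤ 3 * (({E : Finset (Sym2 P3) | C E ∧ E.card = n ∧ Normed E ∧
      (n : ℝ) ^ (2 / 3 : ℝ) ≤ ((cols E).ncard : ℝ)}.ncard : ℕ) : ℝ) := by
  set S : Set (Finset (Sym2 P3)) := {E | C E ∧ E.card = n ∧ Normed E} with hS
  set S1 : Set (Finset (Sym2 P3)) := {E | C E ∧ E.card = n ∧ Normed E ∧
      (n : ℝ) ^ (2 / 3 : ℝ) ≤ ((cols E).ncard : ℝ)} with hS1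
  have hcount : count C n = S.ncard := rfl
  rw [hcount]
  rcases S.finite_or_infinite with hfin | hinf
  swap
  · rw [hinf.ncard, Nat.cast_zero]; exact mul_nonneg (by norm_num) (Nat.cast_nonneg _)
  have hsub : S1 ⊆ S := fun E h => ⟨h.1, h.2.1, h.2.2.1⟩
  have hfin1 : S1.Finite := hfin.subset hsub
  have hcov : S ⊆ S1 ∪ ((mapE sw ∘ mapE sz) ⁻¹' S1 ∪ (mapE sz ∘ mapE sw) ⁻¹' S1) := by
    rintro E ⟨hE, hn, hN⟩
    have hcard := (cardStatement E (hpoly E hE)).2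
    have hlp := large_projection hcard
    rw [hn] at hlp
    rcases hlp with h | h | h
    · exact Or.inl ⟨hE, hn, hN, h⟩
    · refine Or.inr (Or.inl ⟨h2 E hE, ?_, hN.sz.sw, ?_⟩)
      · rw [Function.comp_apply, card_mapE sw_inj, card_mapE sz_inj, hn]
      · rw [Function.comp_apply, cols_sw_ncard]
        exact h
    · exact Or.inr (Or.inr ⟨h1 E hE, by
        rw [Function.comp_apply, card_mapE sz_inj, card_mapE sw_inj, hn], hN.sw.sz, h⟩)
  have i1 : Function.Injective (mapE sw ∘ mapE sz) := (mapE_inj sw_inj).comp (mapE_inj sz_inj)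
  have i2 : Function.Injective (mapE sz ∘ mapE sw) := (mapE_inj sz_inj).comp (mapE_inj sw_inj)
  have f1 : ((mapE sw ∘ mapE sz) ⁻¹' S1).Finite := hfin1.preimage i1.injOn
  have f2 : ((mapE sz ∘ mapE sw) ⁻¹' S1).Finite := hfin1.preimage i2.injOn
  have c1 : ((mapE sw ∘ mapE sz) ⁻¹' S1).ncard ≤ S1.ncard :=
    Set.ncard_le_ncard_of_injOn (mapE sw ∘ mapE sz) (fun E hE => hE) i1.injOn hfin1
  have c2 : ((mapE sz ∘ mapE sw) ⁻¹' S1).ncard ≤ S1.ncard :=
    Set.ncard_le_ncard_of_injOn (mapE sz ∘ mapE sw) (fun E hE => hE) i2.injOn hfin1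
  have hle : S.ncard ≤ 3 * S1.ncard := by
    refine (Set.ncard_le_ncard hcov (hfin1.union (f1.union f2))).trans ?_
    refine (Set.ncard_union_le _ _).trans ?_
    have := Set.ncard_union_le ((mapE sw ∘ mapE sz) ⁻¹' S1) ((mapE sz ∘ mapE sw) ⁻¹' S1)
    omega
  exact_mod_cast hle

theorem cols_le' {E F : Finset (Sym2 P3)} (hE : (verts E).Nonempty) :
    (cols F).ncard ≤ ((diffs E F).image (fun d => (d.1, d.2.1))).card := by
  obtain ⟨u, hu⟩ := hE
  rw [← Set.ncard_coe_finset]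
  refine Set.ncard_le_ncard_of_injOn (fun c : ℤ × ℤ => (u.1 - c.1, u.2.1 - c.2)) ?_ ?_
    (Finset.finite_toSet _)
  · rintro c ⟨z, hz⟩
    rw [Finset.mem_coe, Finset.mem_image]
    exact ⟨u - (c.1, c.2, z), mem_diffs.2 ⟨u, hu, _, hz, rfl⟩, by simp⟩
  · intro c _ c' _ h
    simp only [Prod.mk.injEq] at h
    exact Prod.ext (by omega) (by omega)

end Pool.Agent.LK
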