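import Pool.Agent.MP_aea6d5_co.Stack

/-! Definitions and interface statements for the topological part (stacked join of unknots). -/

set_option autoImplicit false

open Set Topology

namespace Pool.Agent.LK

/-- A subset of space is an unknotted circle: a homeomorphism of space carries it onto the round
circle. `Unknotted E` is `Unk (body E)`. -/
def Unk (X : Set R3) : Prop := ∃ φ : R3 ≃ₜ R3, φ '' X = stdCircle

/-- The `y`-axis. -/
def axisY : Submodule ℝ R3 where
  carrier := {v | v.1 = 0 ∧ v.2.2 = 0}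
  add_mem' := by rintro a b ⟨h1, h2⟩ ⟨h3, h4⟩; simp [h1, h2, h3, h4]
  zero_mem' := by simp
  smul_mem' := by rintro c a ⟨h1, h2⟩; simp [h1, h2]

/-- The three dimensional sphere. -/
abbrev S3 := OnePoint R3

/-- A subset of space as a subset of the sphere. -/
def up (X : Set R3) : Set S3 := ((↑) : R3 → S3) '' X

/-- `w` is an open cell of `M` in which `K` is unknotted: an open embedding of `V` in `M` such that
`K` corresponds to the linear subspace `L`. -/
def PCell {V M : Type} [NormedAddCommGroup V] [NormedSpace ℝ V] [TopologicalSpace M]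
    (L : Submodule ℝ V) (K : Set M) (w : V → M) : Prop :=
  IsOpenEmbedding w ∧ ∀ x, w x ∈ K ↔ x ∈ L

/-- U1: the complement of a point of an unknotted circle is an unknotted open cell. -/
def CellOfUnk : Prop := ∀ (X : Set R3) (q : R3), Unk X → q ∈ X →
  ∃ w : R3 → S3, PCell axisY (up X) w ∧ range w = {(q : S3)}ᶜ

/-- U2: the converse. -/
def UnkOfCell : Prop := ∀ (X : Set R3) (p : R3) (w : R3 → S3), p ∈ X → PCell axisY (up X) w →
  range w = {(p : S3)}ᶜ → Unk X

/-- V: the tent over an edge. `d = (0,0,1)` or `d = (0,0,-1)`. -/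
def TentStatement : Prop := ∀ (E : Finset (Sym2 P3)) (x y h k : ℤ), IsPolygon E → Unknotted E →
  (k = 1 ∨ k = -1) → s((x, y, h), (x + 1, y, h)) ∈ E → (x, y, h + k) ∉ verts E →
  (x + 1, y, h + k) ∉ verts E →
  Unk (body (E \ {s((x, y, h), (x + 1, y, h))}) ∪
    (segment ℝ (toR (x, y, h)) ((x : ℝ) + 1 / 2, (y : ℝ), (h : ℝ) + k / 2) ∪
     segment ℝ ((x : ℝ) + 1 / 2, (y : ℝ), (h : ℝ) + k / 2) (toR (x + 1, y, h))))

end Pool.Agent.LK
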