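import Pool.Agent.MP_aea6d5_co.VertexMove
import Pool.Agent.MP_aea6d5_co.TopDefs

/-! Convex polyhedra in space given by lists of affine inequalities, and segments of the lattice. -/

set_option autoImplicit false

open Set Topology

namespace Pool.Agent.LK

/-- The value of an affine function given by its coefficients. -/
def val (l : ℝ × ℝ × ℝ × ℝ) (P : R3) : ℝ := l.1 * P.1 + l.2.1 * P.2.1 + l.2.2.1 * P.2.2 + l.2.2.2

/-- The polyhedron of a list of inequalities. -/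
def poly (L : List (ℝ × ℝ × ℝ × ℝ)) : Set R3 := {P | ∀ l ∈ L, val l P ≤ 0}

lemma continuous_val (l : ℝ × ℝ × ℝ × ℝ) : Continuous (val l) := by
  unfold val
  fun_prop

lemma val_comb (l : ℝ × ℝ × ℝ × ℝ) (P Q : R3) {a b : ℝ} (hab : a + b = 1) :
    val l (a • P + b • Q) = a * val l P + b * val l Q := by
  have hb : b = 1 - a := by linarith
  subst hb
  simp only [val, Prod.fst_add, Prod.snd_add, Prod.smul_fst, Prod.smul_snd, smul_eq_mul]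
  ring

lemma poly_convex (L : List (ℝ × ℝ × ℝ × ℝ)) : Convex ℝ (poly L) := by
  intro P hP Q hQ a b ha hb hab l hl
  rw [val_comb l P Q hab]
  have h1 := mul_nonneg ha (neg_nonneg.2 (hP l hl))
  have h2 := mul_nonneg hb (neg_nonneg.2 (hQ l hl))
  nlinarith

lemma poly_closed (L : List (ℝ × ℝ × ℝ × ℝ)) : IsClosed (poly L) := by
  have h : poly L = ⋂ l ∈ L, {P | val l P ≤ 0} := by
    ext P
    simp [poly]
  rw [h]
  exact isClosed_biInter fun l _ => isClosed_le (continuous_val l) continuous_const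

lemma mem_interior_poly {L : List (ℝ × ℝ × ℝ × ℝ)} {P : R3} (h : ∀ l ∈ L, val l P < 0) :
    P ∈ interior (poly L) := by
  have hfin : {l : ℝ × ℝ × ℝ × ℝ | l ∈ L}.Finite := List.finite_toSet L
  have hopen : IsOpen (⋂ l ∈ {l : ℝ × ℝ × ℝ × ℝ | l ∈ L}, {P | val l P < 0}) :=
    hfin.isOpen_biInter fun l _ => isOpen_lt (continuous_val l) continuous_const
  have hsub : (⋂ l ∈ {l : ℝ × ℝ × ℝ × ℝ | l ∈ L}, {P | val l P < 0}) ⊆ poly L := by
    intro Q hQ l hl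
    have := mem_iInter₂.1 hQ l hl
    exact le_of_lt this
  exact mem_interior.2 ⟨_, hsub, hopen, mem_iInter₂.2 h⟩

lemma mem_frontier_poly {L : List (ℝ × ℝ × ℝ × ℝ)} {P a : R3} (hP : P ∈ poly L)
    {l : ℝ × ℝ × ℝ × ℝ} (hl : l ∈ L) (h0 : val l P = 0) (ha : val l a < 0) :
    P ∈ frontier (poly L) := by
  rw [(poly_closed L).frontier_eq]
  refine ⟨hP, fun hint => ?_⟩
  have hc : Continuous fun t : ℝ => P + t • (P - a) := by fun_prop
  have h1 : (fun t : ℝ => P + t • (P - a)) ⁻¹' interior (poly L) ∈ 𝓝 (0 : ℝ) := by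
    apply hc.continuousAt
    simp only [zero_smul, add_zero]
    exact isOpen_interior.mem_nhds hint
  obtain ⟨ε, hε, hball⟩ := Metric.mem_nhds_iff.1 h1
  have h2 : (ε / 2) ∈ Metric.ball (0 : ℝ) ε := by
    rw [Metric.mem_ball, Real.dist_eq, sub_zero, abs_of_pos (by linarith)]
    linarith
  have h3 := interior_subset (hball h2) l hl
  have h4 : P + (ε / 2) • (P - a) = (1 + ε / 2) • P + (-(ε / 2)) • a := by module
  simp only at h3
  rw [h4, val_comb l P a (by ring), h0] at h3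
  nlinarith

/-- The standard way in which a point lies on a lattice edge. -/
lemma seg_cases {u v : P3} (h : Adj u v) {P : R3} (hP : P ∈ segment ℝ (toR u) (toR v)) :
    ∃ (p : P3) (t : ℝ), 0 ≤ t ∧ t ≤ 1 ∧
      ((s(u, v) = s(p, (p.1 + 1, p.2.1, p.2.2)) ∧ P = ((p.1 : ℝ) + t, (p.2.1 : ℝ), (p.2.2 : ℝ))) ∨
       (s(u, v) = s(p, (p.1, p.2.1 + 1, p.2.2)) ∧ P = ((p.1 : ℝ), (p.2.1 : ℝ) + t, (p.2.2 : ℝ))) ∨
       (s(u, v) = s(p, (p.1, p.2.1, p.2.2 + 1)) ∧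
          P = ((p.1 : ℝ), (p.2.1 : ℝ), (p.2.2 : ℝ) + t))) := by
  rw [segment_eq_image'] at hP
  obtain ⟨t, ⟨h0, h1⟩, rfl⟩ := hP
  obtain ⟨u1, u2, u3⟩ := u
  obtain ⟨v1, v2, v3⟩ := v
  simp only [Adj] at h
  have hcase : (v1 = u1 + 1 ∧ v2 = u2 ∧ v3 = u3) ∨ (v1 = u1 - 1 ∧ v2 = u2 ∧ v3 = u3) ∨
      (v1 = u1 ∧ v2 = u2 + 1 ∧ v3 = u3) ∨ (v1 = u1 ∧ v2 = u2 - 1 ∧ v3 = u3) ∨
      (v1 = u1 ∧ v2 = u2 ∧ v3 = u3 + 1) ∨ (v1 = u1 ∧ v2 = u2 ∧ v3 = u3 - 1) := by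
    rcases abs_cases (u1 - v1) with h2 | h2 <;> rcases abs_cases (u2 - v2) with h3 | h3 <;>
      rcases abs_cases (u3 - v3) with h4 | h4 <;> omega
  rcases hcase with ⟨rfl, rfl, rfl⟩ | ⟨rfl, rfl, rfl⟩ | ⟨rfl, rfl, rfl⟩ | ⟨rfl, rfl, rfl⟩ |
    ⟨rfl, rfl, rfl⟩ | ⟨rfl, rfl, rfl⟩
  · refine ⟨(u1, v2, v3), t, h0, h1, Or.inl ⟨rfl, ?_⟩⟩
    simp [toR]
  · refine ⟨(u1 - 1, v2, v3), 1 - t, by linarith, by linarith, Or.inl ⟨?_, ?_⟩⟩
    · rw [Sym2.eq_swap]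
      simp
    · simp [toR]
      ring
  · refine ⟨(v1, u2, v3), t, h0, h1, Or.inr (Or.inl ⟨rfl, ?_⟩)⟩
    simp [toR]
  · refine ⟨(v1, u2 - 1, v3), 1 - t, by linarith, by linarith, Or.inr (Or.inl ⟨?_, ?_⟩)⟩
    · rw [Sym2.eq_swap]
      simp
    · simp [toR]
      ring
  · refine ⟨(v1, v2, u3), t, h0, h1, Or.inr (Or.inr ⟨rfl, ?_⟩)⟩
    simp [toR]
  · refine ⟨(v1, v2, u3 - 1), 1 - t, by linarith, by linarith, Or.inr (Or.inr ⟨?_, ?_⟩)⟩
    · rw [Sym2.eq_swap]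
      simp
    · simp [toR]
      ring

end Pool.Agent.LK
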