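import Pool.Agent.MP_aea6d5_co.Geo

/-! The protrusion lemma. -/

set_option autoImplicit false
set_option linter.unusedSimpArgs false

namespace Pool.Agent.LK

/-- Locally at `p`, all vertices of `E` lie (essentially) in the half space opposite to `N`. -/
def Loc (E : Finset (Sym2 P3)) (p N : P3) : Prop := ∀ v ∈ verts E, 2 * dot N (v - p) ≤ nsq (v - p)

theorem Loc.free {E : Finset (Sym2 P3)} {p N : P3} (h : Loc E p N) (δ v : P3) (hv : v = p + δ)
    (hδ : nsq δ < 2 * dot N δ) : v ∉ verts E := by
  intro hm
  have := h v hm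
  rw [hv, add_sub_cancel_left] at this
  omega

/-- Result of the local surgery near `p`: a polygon `E'` of the class with an edge `a, a + x` in
the free half space, which is highest in the direction `y` among the new vertices. -/
structure Prot (C : Finset (Sym2 P3) → Prop) (E : Finset (Sym2 P3)) (p N : P3) (M : ℤ)
    (E' : Finset (Sym2 P3)) (a x y : P3) : Prop where
  mem : C E'
  hx : IsUnit3 x
  hy : IsUnit3 y
  xy : dot x y = 0
  big : M - 3 ≤ dot N y
  edge : s(a, a + x) ∈ E'
  verts : ∀ v ∈ verts E', v ∈ verts E ∨ (Box 3 (v - p) ∧ dot (v - a) y ≤ 0)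
  changed : ChangedIn p 3 E E'
  box : Box 3 (a - p)
  h0 : 0 ≤ dot N (a - p)
  h1 : 0 ≤ dot N (a + x - p)

variable {C : Finset (Sym2 P3) → Prop}

theorem prot_of_bump (hC : MoveClosed C) {E E1 : Finset (Sym2 P3)} {p N : P3} {M : ℤ} (h1 : C E1)
    {q u y : P3} (hu : IsUnit3 u) (hy : IsUnit3 y) (huy : dot u y = 0) (big : M - 3 ≤ dot N y)
    (edge : s(q, q + u) ∈ E1)
    (hv : ∀ v ∈ verts E1, v ∈ verts E ∨ (Box 3 (v - p) ∧ dot (v - q) y ≤ 1))
    (hf1 : q + y ∉ verts E1) (hf2 : q + u + y ∉ verts E1) (hch : ChangedIn p 3 E E1)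
    (hq : Box 1 (q - p)) (h0 : 0 ≤ dot N (q + y - p)) (h1' : 0 ≤ dot N (q + y + u - p)) :
    Prot C E p N M (bump E1 q (q + u) y) (q + y) u y := by
  have hb1 : Box 2 (q + u - p) := by
    have : q + u - p = (q - p) + u := by abel
    rw [this]; exact hq.add (box_unit hu)
  have hb2 : Box 2 (q + y - p) := by
    have : q + y - p = (q - p) + y := by abel
    rw [this]; exact hq.add (box_unit hy)
  have hb3 : Box 3 (q + u + y - p) := by
    have : q + u + y - p = (q - p) + u + y := by abel
    rw [this]; exact (hq.add (box_unit hu)).add (box_unit hy)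
  have hyy : dot y y = 1 := isUnit3_iff_dot.1 hy
  refine ⟨hC.bump _ _ _ _ h1 edge hy hf1 hf2, hu, hy, huy, big, ?_, ?_, ?_, hb2.mono (by norm_num),
    h0, h1'⟩
  · rw [mem_bump]
    right; right; left
    rw [add_right_comm q u y]
  · intro v hv'
    rcases verts_bump edge hv' with h | rfl | rfl
    · rcases hv v h with h | ⟨h, h'⟩
      · exact Or.inl h
      · refine Or.inr ⟨h, ?_⟩
        rw [← sub_sub, sub_dot, hyy]
        linarith
    · refine Or.inr ⟨hb2.mono (by norm_num), ?_⟩
      rw [sub_self, zero_dot]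
    · refine Or.inr ⟨hb3, ?_⟩
      have : q + u + y - (q + y) = u := by abel
      rw [this, huy]
  · refine hch.trans (changedIn_bump ?_ ?_ ?_ ?_)
    · exact hq.mono (by norm_num)
    · exact hb1.mono (by norm_num)
    · exact hb2.mono (by norm_num)
    · exact hb3

/-- The corner move: the corner `q - xi, q` of the polygon is pushed by `xj`, and the new edge
`q, q + xj` is pushed by `xk`. -/
theorem corner (hC : MoveClosed C) {E : Finset (Sym2 P3)} {p N : P3} {M : ℤ} (h1 : C E)
    {q xi xj xk : P3} (hi : IsUnit3 xi) (hj : IsUnit3 xj) (hk : IsUnit3 xk) (hij : dot xi xj = 0)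
    (hjk : dot xj xk = 0) (hik : 0 ≤ dot xi xk) (big : M - 3 ≤ dot N xk)
    (edge : s(q - xi, q) ∈ E) (hfj : q + xj ∉ verts E)
    (hst : q - xi + xj ∈ verts E → s(q - xi + xj, q - xi) ∈ E)
    (hfk : q + xk ∉ verts E) (hfjk : q + xj + xk ∉ verts E)
    (hq : Box 1 (q - p)) (h0 : 0 ≤ dot N (q + xk - p)) (h1' : 0 ≤ dot N (q + xk + xj - p)) :
    ∃ E' a x y, Prot C E p N M E' a x y := by
  have hii : dot xi xi = 1 := isUnit3_iff_dot.1 hi
  have hjj : dot xj xj = 1 := isUnit3_iff_dot.1 hj
  have hkk : dot xk xk = 1 := isUnit3_iff_dot.1 hk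
  have hji : dot xj xi = 0 := by rw [dot_comm]; exact hij
  have hbi : Box 2 (q - xi - p) := by
    have : q - xi - p = (q - p) - xi := by abel
    rw [this]; exact hq.sub (box_unit hi)
  have hbj : Box 2 (q + xj - p) := by
    have : q + xj - p = (q - p) + xj := by abel
    rw [this]; exact hq.add (box_unit hj)
  have hbij : Box 3 (q - xi + xj - p) := by
    have : q - xi + xj - p = (q - p) - xi + xj := by abel
    rw [this]; exact (hq.sub (box_unit hi)).add (box_unit hj)
  -- the intermediate polygon
  obtain ⟨E1, hE1, he1, hv1, hch1⟩ : ∃ E1, C E1 ∧ s(q, q + xj) ∈ E1 ∧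
      (∀ v ∈ verts E1, v ∈ verts E ∨ v = q - xi + xj ∨ v = q + xj) ∧ ChangedIn p 3 E E1 := by
    by_cases hc : q - xi + xj ∈ verts E
    · have he := hst hc
      have e1 : q - xi + xj + -xj = q - xi := by abel
      have e2 : q - xi + xj + -xj + xi = q := by abel
      have e3 : q - xi + xj + xi = q + xj := by abel
      have m1 : s(q - xi + xj, q - xi + xj + -xj) ∈ E := by rw [e1]; exact he
      have m2 : s(q - xi + xj + -xj, q - xi + xj + -xj + xi) ∈ E := by rw [e2, e1]; exact edge
      refine ⟨flip E (q - xi + xj) (-xj) xi, ?_, ?_, ?_, ?_⟩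
      · refine hC.flip _ _ _ _ h1 m1 m2 (isUnit3_neg hj) hi ?_ ?_ ?_
        · intro h
          have := congrArg (fun v => dot v xi) h
          simp only [neg_dot, hji, hii] at this
          omega
        · intro h
          have := congrArg (fun v => dot v xi) h
          simp only [neg_dot, hji, hii] at this
          omega
        · rw [e3]; exact hfj
      · rw [mem_flip, e2, e3]
        right; right
        rw [Sym2.eq_swap]
      · intro v hv
        rcases verts_flip m1 m2 hv with h | h
        · exact Or.inl h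
        · rw [e3] at h; exact Or.inr (Or.inr h)
      · refine changedIn_flip hbij ?_ ?_ ?_
        · rw [e1]; exact hbi.mono (by norm_num)
        · rw [e2]; exact hq.mono (by norm_num)
        · rw [e3]; exact hbj.mono (by norm_num)
    · refine ⟨bump E (q - xi) q xj, hC.bump _ _ _ _ h1 edge hj hc hfj, ?_, ?_, ?_⟩
      · rw [mem_bump]
        right; right; right
        rw [Sym2.eq_swap]
      · intro v hv
        exact verts_bump edge hv
      · exact changedIn_bump (hbi.mono (by norm_num)) (hq.mono (by norm_num)) hbij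
          (hbj.mono (by norm_num))
  refine ⟨_, _, _, _, prot_of_bump hC hE1 hj hk hjk big he1 ?_ ?_ ?_ hch1 hq h0 h1'⟩
  · intro v hv
    rcases hv1 v hv with h | rfl | rfl
    · exact Or.inl h
    · refine Or.inr ⟨hbij, ?_⟩
      have : q - xi + xj - q = -xi + xj := by abel
      rw [this, add_dot, neg_dot, hjk]
      linarith
    · refine Or.inr ⟨hbj.mono (by norm_num), ?_⟩
      rw [add_sub_cancel_left, hjk]
      norm_num
  · intro hv
    rcases hv1 _ hv with h | h | h
    · exact hfk h
    · have := congrArg (fun v => dot v xk) h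
      simp only [add_dot, sub_dot, hkk, hjk] at this
      linarith
    · have := congrArg (fun v => dot v xk) h
      simp only [add_dot, hkk, hjk] at this
      linarith
  · intro hv
    rcases hv1 _ hv with h | h | h
    · exact hfjk h
    · have := congrArg (fun v => dot v xk) h
      simp only [add_dot, sub_dot, hkk, hjk] at this
      linarith
    · have := congrArg (fun v => dot v xk) h
      simp only [add_dot, hkk, hjk] at this
      linarith

/-- Case III: all coordinates of `N` are nearly equal and `p` is a corner with the edges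
`-x`, `-y`. -/
theorem prot_three (hC : MoveClosed C) {E : Finset (Sym2 P3)} {p N x y z : P3} {M : ℤ} (h1 : C E)
    (hF : Fr x y z) (hM : 100 ≤ M) (hx : M - 3 ≤ dot N x) (hy : M - 3 ≤ dot N y)
    (hz : M - 3 ≤ dot N z) (hx' : dot N x ≤ M) (hy' : dot N y ≤ M) (hz' : dot N z ≤ M)
    (hloc : Loc E p N) (ex : s(p, p - x) ∈ E) (ey : s(p, p - y) ∈ E) :
    ∃ E' a x y, Prot C E p N M E' a x y := by
  have hxx := hF.xx
  have hyy := hF.yy
  have hzz := hF.zz
  have hxy := hF.xy
  have hxz := hF.xz
  have hyz := hF.yz
  have hyx := hF.yx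
  have hzx := hF.zx
  have hzy := hF.zy
  have B0 : Box 1 (p - p) := by rw [sub_self]; simp [Box]
  -- points with positive coordinate sum are free
  have fz : p + z ∉ verts E := by
    refine hloc.free z _ rfl ?_
    simp only [nsq, hzz]; omega
  have fx : p + x ∉ verts E := by
    refine hloc.free x _ rfl ?_
    simp only [nsq, hxx]; omega
  have fxz : p + z + x ∉ verts E := by
    refine hloc.free (z + x) _ (by abel) ?_
    simp only [nsq, dot_add, add_dot, hxx, hzz, hxz, hzx]; omega
  have fyz : p + z + y ∉ verts E := by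
    refine hloc.free (z + y) _ (by abel) ?_
    simp only [nsq, dot_add, add_dot, hyy, hzz, hyz, hzy]; omega
  have fy : p + y ∉ verts E := by
    refine hloc.free y _ rfl ?_
    simp only [nsq, hyy]; omega
  -- first attempt: push the edge `p - x, p` by `z`
  by_cases hb : p - x + z ∈ verts E → s(p - x + z, p - x) ∈ E
  · refine corner hC h1 (q := p) (xi := x) (xj := z) (xk := x) hF.ux hF.uz hF.ux hxz hzx
      (by rw [hxx]; norm_num) hx (by rwa [Sym2.eq_swap]) fz hb fx fxz B0 ?_ ?_
    · rw [add_sub_cancel_left]; omega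
    · have : p + x + z - p = x + z := by abel
      rw [this, dot_add]; omega
  push Not at hb
  obtain ⟨hbv, hbe⟩ := hb
  -- second attempt: push the edge `p - y, p` by `z`
  by_cases hd : p - y + z ∈ verts E → s(p - y + z, p - y) ∈ E
  · refine corner hC h1 (q := p) (xi := y) (xj := z) (xk := y) hF.uy hF.uz hF.uy hyz hzy
      (by rw [hyy]; norm_num) hy (by rwa [Sym2.eq_swap]) fz hd fy fyz B0 ?_ ?_
    · rw [add_sub_cancel_left]; omega
    · have : p + y + z - p = y + z := by abel
      rw [this, dot_add]; omega
  push Not at hd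
  obtain ⟨hdv, hde⟩ := hd
  -- the edges at `b` and `d`
  have edges : ∀ q, q ∈ verts E → (q + x ∉ verts E) → (q + y ∉ verts E) → (q + z ∉ verts E) →
      s(q, q - z) ∉ E → s(q, q - x) ∈ E ∧ s(q, q - y) ∈ E := by
    intro q hq q1 q2 q3 q4
    obtain ⟨d, d', hd, hd', hne, e1, e2, -⟩ := (hC.poly _ h1).two hq
    have key : ∀ {d : P3}, IsUnit3 d → s(q, q + d) ∈ E → d = -x ∨ d = -y := by
      intro d hd e
      rcases hF.unit_cases hd with rfl | rfl | rfl | rfl | rfl | rfl
      · exact absurd (right_mem_verts e) q1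
      · exact Or.inl rfl
      · exact absurd (right_mem_verts e) q2
      · exact Or.inr rfl
      · exact absurd (right_mem_verts e) q3
      · rw [← sub_eq_add_neg] at e
        exact absurd e q4
    rcases key hd e1 with rfl | rfl <;> rcases key hd' e2 with rfl | rfl
    · exact absurd rfl hne
    · exact ⟨by rwa [sub_eq_add_neg], by rwa [sub_eq_add_neg]⟩
    · exact ⟨by rwa [sub_eq_add_neg], by rwa [sub_eq_add_neg]⟩
    · exact absurd rfl hne
  have hbE := edges (p - x + z) hbv (by
      have : p - x + z + x = p + z := by abel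
      rw [this]; exact fz) (by
      refine hloc.free (-x + z + y) _ (by abel) ?_
      simp only [nsq, dot_add, add_dot, dot_neg, neg_dot, hxx, hyy, hzz, hxy, hyx, hxz, hzx, hyz,
        hzy]
      omega) (by
      refine hloc.free (-x + z + z) _ (by abel) ?_
      simp only [nsq, dot_add, add_dot, dot_neg, neg_dot, hxx, hyy, hzz, hxy, hyx, hxz, hzx, hyz,
        hzy]
      omega) (by
      have : p - x + z - z = p - x := by abel
      rw [this]; exact hbe)
  have hdE := edges (p - y + z) hdv (by
      refine hloc.free (-y + z + x) _ (by abel) ?_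
      simp only [nsq, dot_add, add_dot, dot_neg, neg_dot, hxx, hyy, hzz, hxy, hyx, hxz, hzx, hyz,
        hzy]
      omega) (by
      have : p - y + z + y = p + z := by abel
      rw [this]; exact fz) (by
      refine hloc.free (-y + z + z) _ (by abel) ?_
      simp only [nsq, dot_add, add_dot, dot_neg, neg_dot, hxx, hyy, hzz, hxy, hyx, hxz, hzx, hyz,
        hzy]
      omega) (by
      have : p - y + z - z = p - y := by abel
      rw [this]; exact hde)
  -- third attempt: push the edge `b - y, b` by `x`, a flip
  have e1 : p - x + z - y + x = p - y + z := by abel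
  have e2 : p - x + z - y = p - y + z - x := by abel
  refine corner hC h1 (q := p - x + z) (xi := y) (xj := x) (xk := z) hF.uy hF.ux hF.uz hyx hxz
    (by rw [hyz]) hz (by rw [Sym2.eq_swap]; exact hbE.2) ?_ ?_ ?_ ?_ ?_ ?_ ?_
  · have : p - x + z + x = p + z := by abel
    rw [this]; exact fz
  · intro _
    rw [e1, e2]; exact hdE.1
  · refine hloc.free (-x + z + z) _ (by abel) ?_
    simp only [nsq, dot_add, add_dot, dot_neg, neg_dot, hxx, hyy, hzz, hxy, hyx, hxz, hzx, hyz,
      hzy]
    omega
  · refine hloc.free (z + z) _ (by abel) ?_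
    simp only [nsq, dot_add, add_dot, dot_neg, neg_dot, hxx, hyy, hzz, hxy, hyx, hxz, hzx, hyz,
      hzy]
    omega
  · have : p - x + z - p = z - x := by abel
    rw [this]
    rcases isUnit3_iff.1 hF.ux with rfl | rfl | rfl | rfl | rfl | rfl <;>
      rcases isUnit3_iff.1 hF.uz with rfl | rfl | rfl | rfl | rfl | rfl <;>
      simp [dot] at hxz <;> simp [Box]
  · have : p - x + z + z - p = -x + z + z := by abel
    rw [this, dot_add, dot_add, dot_neg]; omega
  · have : p - x + z + z + x - p = z + z := by abel
    rw [this, dot_add]; omega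

/-- An edge `p, p + v` with `v` orthogonal to `x` is pushed by `x`. -/
theorem prot_side (hC : MoveClosed C) {E : Finset (Sym2 P3)} {p N q v x : P3} {M : ℤ} (h1 : C E)
    (hv : IsUnit3 v) (hx : IsUnit3 x) (hvx : dot v x = 0) (big : M - 3 ≤ dot N x)
    (edge : s(q, q + v) ∈ E) (hf1 : q + x ∉ verts E) (hf2 : q + v + x ∉ verts E)
    (hq : Box 1 (q - p)) (h0 : 0 ≤ dot N (q + x - p)) (h1' : 0 ≤ dot N (q + x + v - p)) :
    ∃ E' a x y, Prot C E p N M E' a x y :=
  ⟨_, _, _, _, prot_of_bump hC h1 hv hx hvx big edge (fun _ h => Or.inl h) hf1 hf2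
    (ChangedIn.refl _ _ _) hq h0 h1'⟩

/-- Case II: the two largest coordinates of `N` are nearly equal, and `p` is a corner with the
edges `-x`, `-y`. -/
theorem prot_two (hC : MoveClosed C) {E : Finset (Sym2 P3)} {p N x y z : P3} (h1 : C E)
    (hF : Fr x y z) (hM : 100 ≤ dot N x) (hxy' : dot N y ≤ dot N x) (hyz' : dot N z ≤ dot N y)
    (hz0 : 0 ≤ dot N z) (h12 : dot N x ≤ dot N y + 1) (h13 : dot N z + 4 ≤ dot N x)
    (hloc : Loc E p N) (ex : s(p, p - x) ∈ E) :
    ∃ E' a u v, Prot C E p N (dot N x) E' a u v := by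
  have hxx := hF.xx
  have hyy := hF.yy
  have hzz := hF.zz
  have hxy := hF.xy
  have hxz := hF.xz
  have hyz := hF.yz
  have hyx := hF.yx
  have hzx := hF.zx
  have hzy := hF.zy
  have B0 : Box 1 (p - p) := by rw [sub_self]; simp [Box]
  have fx : p + x ∉ verts E := by
    refine hloc.free x _ rfl ?_
    simp only [nsq, hxx]; omega
  have fy : p + y ∉ verts E := by
    refine hloc.free y _ rfl ?_
    simp only [nsq, hyy]; omega
  have fxy : p + y + x ∉ verts E := by
    refine hloc.free (y + x) _ (by abel) ?_
    simp only [nsq, dot_add, add_dot, hyy, hxx, hyx, hxy]; omega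
  by_cases hb : p - x + y ∈ verts E → s(p - x + y, p - x) ∈ E
  · refine corner hC h1 (q := p) (xi := x) (xj := y) (xk := x) hF.ux hF.uy hF.ux hxy hyx
      (by rw [hxx]; norm_num) (by omega) (by rwa [Sym2.eq_swap]) fy hb fx fxy B0 ?_ ?_
    · rw [add_sub_cancel_left]; omega
    · have : p + x + y - p = x + y := by abel
      rw [this, dot_add]; omega
  push Not at hb
  obtain ⟨hbv, hbe⟩ := hb
  -- `c = p - x + y` has an edge in the direction `± z`
  obtain ⟨v, hv, hvz⟩ : ∃ v, s(p - x + y, p - x + y + v) ∈ E ∧ (v = z ∨ v = -z) := by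
    obtain ⟨d, d', hd, hd', hne, e1, e2, -⟩ := (hC.poly _ h1).two hbv
    have key : ∀ {d : P3}, IsUnit3 d → s(p - x + y, p - x + y + d) ∈ E →
        d = -x ∨ d = z ∨ d = -z := by
      intro d hd e
      rcases hF.unit_cases hd with rfl | rfl | rfl | rfl | h | h
      · have : p - d + y + d = p + y := by abel
        rw [this] at e
        exact absurd (right_mem_verts e) fy
      · exact Or.inl rfl
      · refine absurd (right_mem_verts e) (hloc.free (-x + d + d) _ (by abel) ?_)
        simp only [nsq, dot_add, add_dot, dot_neg, neg_dot, hxx, hyy, hzz, hxy, hyx, hxz, hzx, hyz,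
          hzy]
        omega
      · have : p - x + y + -y = p - x := by abel
        rw [this] at e
        exact absurd e hbe
      · exact Or.inr (Or.inl h)
      · exact Or.inr (Or.inr h)
    rcases key hd e1 with rfl | h
    · rcases key hd' e2 with rfl | h
      · exact absurd rfl hne
      · exact ⟨_, e2, h⟩
    · exact ⟨_, e1, h⟩
  have hvu : IsUnit3 v := by
    rcases hvz with rfl | rfl
    · exact hF.uz
    · exact isUnit3_neg hF.uz
  have hvx : dot v x = 0 := by
    rcases hvz with rfl | rfl
    · exact hzx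
    · rw [neg_dot, hzx, neg_zero]
  have hvy : dot v y = 0 := by
    rcases hvz with rfl | rfl
    · exact hzy
    · rw [neg_dot, hzy, neg_zero]
  have hvN : -dot N z ≤ dot N v := by
    rcases hvz with rfl | rfl
    · omega
    · rw [dot_neg]
  have hvv : dot v v = 1 := isUnit3_iff_dot.1 hvu
  have hyv : dot y v = 0 := by rw [dot_comm]; exact hvy
  have e3 : p - x + y + x = p + y := by abel
  have e4 : p - x + y + v + x = p + (y + v) := by abel
  refine prot_side hC h1 (q := p - x + y) hvu hF.ux hvx (by omega) hv (by rw [e3]; exact fy)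
    (by
      rw [e4]
      refine hloc.free (y + v) _ rfl ?_
      simp only [nsq, dot_add, add_dot, hyy, hvv, hyv, hvy]
      omega) ?_ ?_ ?_
  · have : p - x + y - p = y - x := by abel
    rw [this]
    rcases isUnit3_iff.1 hF.ux with rfl | rfl | rfl | rfl | rfl | rfl <;>
      rcases isUnit3_iff.1 hF.uy with rfl | rfl | rfl | rfl | rfl | rfl <;>
      simp [dot] at hxy <;> simp [Box]
  · rw [e3, add_sub_cancel_left]; omega
  · have : p - x + y + x + v - p = y + v := by abel
    rw [this, dot_add]; omega

/-- **Protrusion lemma.** -/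
theorem protrude (hC : MoveClosed C) {E : Finset (Sym2 P3)} {p N : P3} (h1 : C E)
    (hp : p ∈ verts E) (hloc : Loc E p N) (x y z : P3) (hF : Fr x y z) (hM : 100 ≤ dot N x)
    (hxy' : dot N y ≤ dot N x) (hyz' : dot N z ≤ dot N y) (hz0 : 0 ≤ dot N z) :
    ∃ E' a u v, Prot C E p N (dot N x) E' a u v := by
  have hxx := hF.xx
  have hyy := hF.yy
  have hzz := hF.zz
  have hxy := hF.xy
  have hxz := hF.xz
  have hyz := hF.yz
  have hyx := hF.yx
  have hzx := hF.zx
  have hzy := hF.zy
  have B0 : Box 1 (p - p) := by rw [sub_self]; simp [Box]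
  have fx : p + x ∉ verts E := by
    refine hloc.free x _ rfl ?_
    simp only [nsq, hxx]; omega
  -- pushing a side edge
  have side : ∀ v : P3, IsUnit3 v → dot v x = 0 → 2 ≤ dot N x + dot N v → s(p, p + v) ∈ E →
      ∃ E' a u v, Prot C E p N (dot N x) E' a u v := by
    intro v hv hvx hvN e
    have hvv : dot v v = 1 := isUnit3_iff_dot.1 hv
    have hxv : dot x v = 0 := by rw [dot_comm]; exact hvx
    refine prot_side hC h1 (q := p) hv hF.ux hvx (by omega) e fx ?_ B0 ?_ ?_
    · refine hloc.free (v + x) _ (by abel) ?_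
      simp only [nsq, dot_add, add_dot, hvv, hxx, hvx, hxv]
      omega
    · rw [add_sub_cancel_left]; omega
    · have : p + x + v - p = x + v := by abel
      rw [this, dot_add]; omega
  obtain ⟨d, d', hd, hd', hne, e1, e2, -⟩ := (hC.poly _ h1).two hp
  by_cases hI : dot N y + 2 ≤ dot N x
  · -- Case I
    have key : ∀ {d : P3}, IsUnit3 d → s(p, p + d) ∈ E → d = -x ∨
        (dot d x = 0 ∧ 2 ≤ dot N x + dot N d) := by
      intro d hd e
      rcases hF.unit_cases hd with rfl | rfl | rfl | rfl | rfl | rfl
      · exact absurd (right_mem_verts e) fx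
      · exact Or.inl rfl
      · exact Or.inr ⟨hyx, by omega⟩
      · exact Or.inr ⟨by rw [neg_dot, hyx, neg_zero], by rw [dot_neg]; omega⟩
      · exact Or.inr ⟨hzx, by omega⟩
      · exact Or.inr ⟨by rw [neg_dot, hzx, neg_zero], by rw [dot_neg]; omega⟩
    rcases key hd e1 with h | ⟨h, h'⟩
    · rcases key hd' e2 with h' | ⟨h', h''⟩
      · exact absurd (h.trans h'.symm) hne
      · exact side _ hd' h' h'' e2
    · exact side _ hd h h' e1
  · push Not at hI
    have fy : p + y ∉ verts E := by
      refine hloc.free y _ rfl ?_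
      simp only [nsq, hyy]; omega
    by_cases hII : dot N z + 4 ≤ dot N x
    · -- Case II
      have key : ∀ {d : P3}, IsUnit3 d → s(p, p + d) ∈ E → d = -x ∨ d = -y ∨
          (dot d x = 0 ∧ 2 ≤ dot N x + dot N d) := by
        intro d hd e
        rcases hF.unit_cases hd with rfl | rfl | rfl | rfl | rfl | rfl
        · exact absurd (right_mem_verts e) fx
        · exact Or.inl rfl
        · exact absurd (right_mem_verts e) fy
        · exact Or.inr (Or.inl rfl)
        · exact Or.inr (Or.inr ⟨hzx, by omega⟩)
        · exact Or.inr (Or.inr ⟨by rw [neg_dot, hzx, neg_zero], by rw [dot_neg]; omega⟩)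
      have two : s(p, p - x) ∈ E → ∃ E' a u v, Prot C E p N (dot N x) E' a u v := fun ex =>
        prot_two hC h1 hF hM hxy' hyz' hz0 (by omega) hII hloc ex
      rcases key hd e1 with rfl | rfl | ⟨h, h'⟩
      · exact two (by rwa [sub_eq_add_neg])
      · rcases key hd' e2 with rfl | rfl | ⟨h, h'⟩
        · exact two (by rwa [sub_eq_add_neg])
        · exact absurd rfl hne
        · exact side _ hd' h h' e2
      · exact side _ hd h h' e1
    · -- Case III
      push Not at hII
      have fz : p + z ∉ verts E := by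
        refine hloc.free z _ rfl ?_
        simp only [nsq, hzz]; omega
      have key : ∀ {d : P3}, IsUnit3 d → s(p, p + d) ∈ E → d = -x ∨ d = -y ∨ d = -z := by
        intro d hd e
        rcases hF.unit_cases hd with rfl | rfl | rfl | rfl | rfl | rfl
        · exact absurd (right_mem_verts e) fx
        · exact Or.inl rfl
        · exact absurd (right_mem_verts e) fy
        · exact Or.inr (Or.inl rfl)
        · exact absurd (right_mem_verts e) fz
        · exact Or.inr (Or.inr rfl)
      have three : ∀ x' y' z' : P3, Fr x' y' z' → dot N x - 3 ≤ dot N x' → dot N x' ≤ dot N x →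
          dot N x - 3 ≤ dot N y' → dot N y' ≤ dot N x → dot N x - 3 ≤ dot N z' →
          dot N z' ≤ dot N x → s(p, p + -x') ∈ E → s(p, p + -y') ∈ E →
          ∃ E' a u v, Prot C E p N (dot N x) E' a u v := by
        intro x' y' z' hF' a1 a2 b1 b2 c1 c2 g1 g2
        exact prot_three hC h1 hF' hM a1 b1 c1 a2 b2 c2 hloc (by rwa [sub_eq_add_neg])
          (by rwa [sub_eq_add_neg])
      rcases key hd e1 with rfl | rfl | rfl <;> rcases key hd' e2 with rfl | rfl | rfl
      · exact absurd rfl hne
      · exact three x y z hF (by omega) (by omega) (by omega) (by omega) (by omega) (by omega) e1 e2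
      · exact three x z y ⟨hxx, hzz, hyy, hxz, hxy, hzy⟩ (by omega) (by omega) (by omega)
          (by omega) (by omega) (by omega) e1 e2
      · exact three y x z hF.swap (by omega) (by omega) (by omega) (by omega) (by omega)
          (by omega) e1 e2
      · exact absurd rfl hne
      · exact three y z x hF.rot (by omega) (by omega) (by omega) (by omega) (by omega) (by omega)
          e1 e2
      · exact three z x y hF.rot.rot (by omega) (by omega) (by omega) (by omega) (by omega)
          (by omega) e1 e2
      · exact three z y x hF.rot.swap (by omega) (by omega) (by omega) (by omega) (by omega)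
          (by omega) e1 e2
      · exact absurd rfl hne

end Pool.Agent.LK
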