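import Pool.Agent.MP_aea6d5_co.RLower

/-! # Ratio limit theorem, package L5: there are many blocks -/

set_option autoImplicit false
set_option linter.constructorNameAsVariable false

open Filter Topology

namespace Pool.Agent.LK

/-- planar letters -/
def blkLet : List P3 := [(0, 1, 0), (0, -1, 0), (0, 0, 1), (0, 0, -1)]

/-- planar words of length `n` without opposite letters -/
def blkWords : ℕ → List (List P3)
  | 0 => [[]]
  | n + 1 => (blkWords n).flatMap fun v => (blkLet.filter fun d => (-d) ∉ v).map fun d => d :: v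

/-- all planar words of length at most four -/
def blkAll : List (List P3) :=
  blkWords 0 ++ blkWords 1 ++ blkWords 2 ++ blkWords 3 ++ blkWords 4

theorem blkAll_nodup : blkAll.Nodup := by decide +kernel

theorem blkAll_lens : (blkAll.map List.length).count 0 = 1 ∧ (blkAll.map List.length).count 1 = 4 ∧
    (blkAll.map List.length).count 2 = 12 ∧ (blkAll.map List.length).count 3 = 28 ∧
    (blkAll.map List.length).count 4 = 60 := by decide +kernel

theorem blkAll_sum (f : ℕ → ℝ) : (blkAll.map fun v => f v.length).sum =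
    f 0 + 4 * f 1 + 12 * f 2 + 28 * f 3 + 60 * f 4 := by
  have h : blkAll.map List.length = List.replicate 1 0 ++ List.replicate 4 1 ++
      List.replicate 12 2 ++ List.replicate 28 3 ++ List.replicate 60 4 := by decide +kernel
  have h2 : (blkAll.map fun v => f v.length) = (blkAll.map List.length).map f := by
    rw [List.map_map]; rfl
  rw [h2, h]
  simp only [List.map_append, List.map_replicate, List.sum_append, List.sum_replicate, nsmul_eq_mul]
  push_cast
  ring

/-- good planar words -/
def BlkGood (v : List P3) : Prop :=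
  v.length ≤ 4 ∧ (∀ d ∈ v, IsUnit3 d ∧ d.1 = 0) ∧ ∀ d ∈ v, (-d) ∉ v

theorem blkLet_unit : ∀ d ∈ blkLet, IsUnit3 d ∧ d.1 = 0 := by
  intro d hd
  simp only [blkLet, List.mem_cons, List.not_mem_nil, or_false] at hd
  rcases hd with rfl | rfl | rfl | rfl <;> simp [IsUnit3, Adj]

theorem blkWords_good (n : ℕ) : ∀ v ∈ blkWords n, v.length = n ∧ (∀ d ∈ v, IsUnit3 d ∧ d.1 = 0) ∧
    ∀ d ∈ v, (-d) ∉ v := by
  induction n with
  | zero =>
    intro v hv
    simp only [blkWords, List.mem_singleton] at hv
    subst hv
    simp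
  | succ n ih =>
    intro v hv
    simp only [blkWords, List.mem_flatMap, List.mem_map, List.mem_filter, decide_eq_true_eq] at hv
    obtain ⟨u, hu, d, ⟨hd, hdu⟩, rfl⟩ := hv
    obtain ⟨h1, h2, h3⟩ := ih u hu
    have hdd := blkLet_unit d hd
    refine ⟨by simp [h1], ?_, ?_⟩
    · intro e he
      rcases List.mem_cons.1 he with rfl | he
      · exact hdd
      · exact h2 e he
    · intro e he hne
      have hdne : d ≠ -d := by
        intro h
        have hd0 : d = 0 := by
          have h1' : d.1 = -d.1 := congrArg Prod.fst h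
          have h2' : d.2.1 = -d.2.1 := congrArg (fun z : P3 => z.2.1) h
          have h3' : d.2.2 = -d.2.2 := congrArg (fun z : P3 => z.2.2) h
          refine Prod.ext (by simp; omega) (Prod.ext (by simp; omega) (by simp; omega))
        have := hdd.1
        rw [hd0] at this
        simp [IsUnit3, Adj] at this
      rcases List.mem_cons.1 he with rfl | he
      · rcases List.mem_cons.1 hne with h | h
        · exact hdne h.symm
        · exact hdu h
      · rcases List.mem_cons.1 hne with h | h
        · apply hdu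
          rw [← h, neg_neg]
          exact he
        · exact h3 e he h

theorem blkAll_good : ∀ v ∈ blkAll, BlkGood v := by
  intro v hv
  simp only [blkAll, List.mem_append] at hv
  rcases hv with (((h | h) | h) | h) | h
  all_goals
    obtain ⟨h1, h2, h3⟩ := blkWords_good _ v h
    exact ⟨by omega, h2, h3⟩

theorem blk_e1_ne {v : List P3} (h : BlkGood v) : e1 ∉ v ∧ (-e1) ∉ v := by
  constructor
  · intro h1
    have := (h.2.1 _ h1).2
    simp [e1] at this
  · intro h1
    have := (h.2.1 _ h1).2
    simp [e1] at this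

theorem blk_strand_neg {w : List P3} (h : Strand w) : (-e1) ∉ w := by
  intro h1
  rcases h.1 _ h1 with h2 | h2
  · have := congrArg Prod.fst h2
    simp [e1] at this
  · have := h2.2
    simp [e1] at this

theorem blk_strand_cons {v w : List P3} (hv : BlkGood v) (hw : Strand w) :
    Strand (v ++ e1 :: w) := by
  refine ⟨?_, ?_⟩
  · intro d hd
    rcases List.mem_append.1 hd with h | h
    · exact Or.inr (hv.2.1 d h)
    · rcases List.mem_cons.1 h with h | h
      · exact Or.inl h
      · exact hw.1 d h
  · intro A B D d heq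
    have hve := blk_e1_ne hv
    have hwe := blk_strand_neg hw
    rcases List.append_eq_append_iff.1 heq with ⟨C, h1, h2⟩ | ⟨C, h1, h2⟩
    · cases C with
      | nil =>
        simp only [List.nil_append, List.cons.injEq] at h2
        obtain ⟨rfl, h2⟩ := h2
        exact absurd (h2 ▸ (List.mem_append_right B List.mem_cons_self)) hwe
      | cons c C =>
        simp only [List.cons_append, List.cons.injEq] at h2
        exact hw.2 C B D d h2.2
    · cases C with
      | nil =>
        simp only [List.nil_append, List.cons.injEq] at h2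
        obtain ⟨rfl, h2⟩ := h2
        exact absurd (h2 ▸ (List.mem_append_right B List.mem_cons_self)) hwe
      | cons c C =>
        simp only [List.cons_append, List.cons.injEq] at h2
        obtain ⟨hc, h2⟩ := h2
        subst hc
        have hdv : d ∈ v := by
          rw [h1]
          exact List.mem_append_right A List.mem_cons_self
        rcases List.append_eq_append_iff.1 h2 with ⟨G, h3, h4⟩ | ⟨G, h3, h4⟩
        · cases G with
          | nil =>
            simp only [List.nil_append, List.cons.injEq] at h4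
            have : d = -e1 := by rw [← h4.1, neg_neg]
            exact absurd (this ▸ hdv) hve.2
          | cons g G =>
            simp only [List.cons_append, List.cons.injEq] at h4
            exfalso
            apply hv.2.2 d hdv
            rw [h1, h3, h4.1]
            simp
        · cases G with
          | nil =>
            simp only [List.nil_append, List.cons.injEq] at h4
            have : d = -e1 := by rw [h4.1, neg_neg]
            exact absurd (this ▸ hdv) hve.2
          | cons g G =>
            simp only [List.cons_append, List.cons.injEq] at h4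
            rw [h3, ← h4.1]
            simp

theorem blk_strand_nil : Strand [] := by
  refine ⟨by simp, ?_⟩
  intro A B D d h
  simp at h

/-- concatenations of `K` blocks -/
noncomputable def blkT : ℕ → Finset (List P3)
  | 0 => {[]}
  | K + 1 => open Classical in
      (blkAll.toFinset ×ˢ blkT K).image fun q => q.1 ++ e1 :: q.2

theorem blk_inj_aux : ∀ (v v' w w' : List P3), e1 ∉ v → e1 ∉ v' →
    v ++ e1 :: w = v' ++ e1 :: w' → v = v' ∧ w = w'
  | [], [], w, w', _, _, h => by
    simp only [List.nil_append, List.cons.injEq, true_and] at h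
    exact ⟨rfl, h⟩
  | [], a :: v', w, w', _, h2, h => by
    simp only [List.nil_append, List.cons_append, List.cons.injEq] at h
    exact absurd (h.1 ▸ List.mem_cons_self) h2
  | a :: v, [], w, w', h1, _, h => by
    simp only [List.nil_append, List.cons_append, List.cons.injEq] at h
    exact absurd (h.1 ▸ List.mem_cons_self) h1
  | a :: v, b :: v', w, w', h1, h2, h => by
    simp only [List.cons_append, List.cons.injEq] at h
    obtain ⟨h3, h4⟩ := blk_inj_aux v v' w w' (fun h => h1 (List.mem_cons_of_mem _ h))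
      (fun h => h2 (List.mem_cons_of_mem _ h)) h.2
    exact ⟨by rw [h.1, h3], h4⟩

theorem blkT_succ_sum (K : ℕ) (f : ℕ → ℝ) :
    ∑ w ∈ blkT (K + 1), f w.length =
      ∑ v ∈ blkAll.toFinset, ∑ w ∈ blkT K, f (v.length + (w.length + 1)) := by
  classical
  rw [blkT, Finset.sum_image, Finset.sum_product]
  · refine Finset.sum_congr rfl fun v _ => Finset.sum_congr rfl fun w _ => ?_
    simp
  · rintro ⟨v, w⟩ hq ⟨v', w'⟩ hq' h
    simp only [Finset.coe_product, Set.mem_prod, Finset.mem_coe, List.mem_toFinset] at hq hq'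
    obtain ⟨h1, h2⟩ := blk_inj_aux v v' w w' (blk_e1_ne (blkAll_good v hq.1)).1
      (blk_e1_ne (blkAll_good v' hq'.1)).1 h
    rw [h1, h2]

theorem blkT_weight (K : ℕ) : (1 : ℝ) ≤ ∑ w ∈ blkT K, ((4 : ℝ) / 15) ^ w.length := by
  induction K with
  | zero => simp [blkT]
  | succ K ih =>
    rw [blkT_succ_sum K (fun n => ((4 : ℝ) / 15) ^ n)]
    have h1 : ∀ v ∈ blkAll.toFinset, ∑ w ∈ blkT K, ((4 : ℝ) / 15) ^ (v.length + (w.length + 1)) =
        ((4 : ℝ) / 15) ^ (v.length + 1) * ∑ w ∈ blkT K, ((4 : ℝ) / 15) ^ w.length := by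
      intro v _
      rw [Finset.mul_sum]
      refine Finset.sum_congr rfl fun w _ => ?_
      ring
    rw [Finset.sum_congr rfl h1, ← Finset.sum_mul]
    have h2 : (1 : ℝ) ≤ ∑ v ∈ blkAll.toFinset, ((4 : ℝ) / 15) ^ (v.length + 1) := by
      rw [List.sum_toFinset _ blkAll_nodup, blkAll_sum (fun n => ((4 : ℝ) / 15) ^ (n + 1))]
      norm_num
    nlinarith

theorem blkAll_coord {v : List P3} (h : ∀ d ∈ v, IsUnit3 d ∧ d.1 = 0) :
    v.sum.1 = 0 ∧ |v.sum.2.1| ≤ v.length ∧ |v.sum.2.2| ≤ v.length := by
  induction v with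
  | nil => simp
  | cons d v ih =>
    obtain ⟨h1, h2, h3⟩ := ih fun e he => h e (List.mem_cons_of_mem _ he)
    obtain ⟨h4, h5⟩ := h d List.mem_cons_self
    simp only [IsUnit3, Adj] at h4
    simp only [Prod.fst_zero, Prod.snd_zero, sub_zero] at h4
    rw [List.sum_cons]
    simp only [Prod.fst_add, Prod.snd_add, List.length_cons]
    have a1 := abs_nonneg d.1
    have a2 := abs_nonneg d.2.1
    have a3 := abs_nonneg d.2.2
    have a4 := abs_add_le d.2.1 v.sum.2.1
    have a5 := abs_add_le d.2.2 v.sum.2.2
    refine ⟨by rw [h5, h1]; rfl, ?_, ?_⟩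
    · push_cast; linarith
    · push_cast; linarith

theorem blkT_spec (K : ℕ) : ∀ w ∈ blkT K, Strand w ∧ (K ≤ w.length ∧ w.length ≤ 5 * K) ∧
    (K ≠ 0 → w.getLast? = some e1) ∧ w.sum.1 = K ∧ |w.sum.2.1| ≤ 4 * K ∧ |w.sum.2.2| ≤ 4 * K := by
  classical
  induction K with
  | zero =>
    intro w hw
    simp only [blkT, Finset.mem_singleton] at hw
    subst hw
    refine ⟨blk_strand_nil, by simp, by simp, by simp, by simp, by simp⟩
  | succ K ih =>
    intro w hw
    rw [blkT] at hw
    simp only [Finset.mem_image, Finset.mem_product, List.mem_toFinset, Prod.exists] at hw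
    obtain ⟨v, u, ⟨hv, hu⟩, rfl⟩ := hw
    obtain ⟨h1, h2, h3, h4, h5, h6⟩ := ih u hu
    have hg := blkAll_good v hv
    obtain ⟨c1, c2, c3⟩ := blkAll_coord hg.2.1
    have hvl : (v.length : ℤ) ≤ 4 := by exact_mod_cast hg.1
    have hvl' := hg.1
    refine ⟨blk_strand_cons hg h1, ?_, ?_, ?_, ?_, ?_⟩
    · simp only [List.length_append, List.length_cons]
      omega
    · intro _
      rw [List.getLast?_append_of_ne_nil _ (List.cons_ne_nil _ _)]
      by_cases hK : K = 0
      · subst hK
        simp only [blkT, Finset.mem_singleton] at hu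
        subst hu
        rfl
      · have h7 := h3 hK
        cases u with
        | nil => simp at h7
        | cons a u => rw [List.getLast?_cons_cons]; exact h7
    · rw [List.sum_append, List.sum_cons]
      simp only [Prod.fst_add, c1, h4, e1]
      push_cast; ring
    · rw [List.sum_append, List.sum_cons]
      simp only [Prod.fst_add, Prod.snd_add, e1]
      have := abs_add_le v.sum.2.1 (0 + u.sum.2.1)
      rw [zero_add] at this
      rw [zero_add]
      push_cast
      linarith
    · rw [List.sum_append, List.sum_cons]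
      simp only [Prod.snd_add, e1]
      have := abs_add_le v.sum.2.2 (0 + u.sum.2.2)
      rw [zero_add] at this
      rw [zero_add]
      push_cast
      linarith

theorem blk_exists_K {r : ℝ} (h0 : 0 ≤ r) (h1 : r < 1) :
    ∃ K : ℕ, 1 ≤ K ∧ 405 * (K : ℝ) ^ 3 * r ^ K ≤ 1 := by
  have h := tendsto_pow_const_mul_const_pow_of_abs_lt_one 3 (r := r) (by rwa [abs_of_nonneg h0])
  have h2 : ∀ᶠ K : ℕ in atTop, (K : ℝ) ^ 3 * r ^ K < 1 / 405 :=
    h.eventually_lt_const (by norm_num)
  obtain ⟨K, hK1, hK2⟩ := (h2.and (eventually_ge_atTop 1)).exists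
  exact ⟨K, hK2, by nlinarith⟩

theorem blockStatement : BlockStatement := by
  classical
  intro η hη
  by_cases h1 : 1 ≤ η
  · refine ⟨{[e1]}, 1, 1, 0, ⟨?_, ?_, ?_, ?_⟩, le_refl 1, ?_⟩
    · intro w hw
      rw [Finset.mem_singleton] at hw
      subst hw
      exact blk_strand_cons (v := []) ⟨by simp, by simp, by simp⟩ blk_strand_nil
    · intro w hw
      rw [Finset.mem_singleton] at hw
      subst hw
      rfl
    · intro w hw
      rw [Finset.mem_singleton] at hw
      subst hw
      rfl
    · intro w hw
      rw [Finset.mem_singleton] at hw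
      subst hw
      rfl
    · rw [pow_one, Finset.card_singleton]
      have : (15 / 4 : ℝ) * (1 - η) ≤ 0 := by nlinarith
      push_cast
      linarith
  · push Not at h1
    obtain ⟨K, hK1, hK2⟩ := blk_exists_K (r := 1 - η) (by linarith) (by linarith)
    set Y : Finset (ℕ × ℤ × ℤ) := Finset.Icc K (5 * K) ×ˢ (Finset.Icc (-(4 * (K : ℤ))) (4 * K) ×ˢ
      Finset.Icc (-(4 * (K : ℤ))) (4 * K)) with hY
    have hYcard : (Y.card : ℝ) ≤ 405 * (K : ℝ) ^ 3 := by
      have : Y.card = (4 * K + 1) * ((8 * K + 1) * (8 * K + 1)) := by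
        rw [hY, Finset.card_product, Finset.card_product, Nat.card_Icc, Int.card_Icc]
        congr 1
        · omega
        · congr 1 <;> omega
      rw [this]
      push_cast
      have hK : (1 : ℝ) ≤ K := by exact_mod_cast hK1
      have a1 : 4 * (K : ℝ) + 1 ≤ 5 * K := by linarith
      have a2 : 8 * (K : ℝ) + 1 ≤ 9 * K := by linarith
      have a3 : (8 * (K : ℝ) + 1) * (8 * K + 1) ≤ (9 * K) * (9 * K) :=
        mul_le_mul a2 a2 (by positivity) (by positivity)
      calc (4 * (K : ℝ) + 1) * ((8 * K + 1) * (8 * K + 1)) ≤ (5 * K) * ((9 * K) * (9 * K)) :=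
            mul_le_mul a1 a3 (by positivity) (by positivity)
        _ = 405 * (K : ℝ) ^ 3 := by ring
    have hYne : Y.Nonempty := by
      refine ⟨(K, 0, 0), ?_⟩
      simp only [hY, Finset.mem_product, Finset.mem_Icc]
      omega
    have hYpos : (0 : ℝ) < Y.card := by exact_mod_cast hYne.card_pos
    have hmaps : ∀ w ∈ blkT K, (w.length, w.sum.2.1, w.sum.2.2) ∈ Y := by
      intro w hw
      obtain ⟨_, h2, _, _, h5, h6⟩ := blkT_spec K w hw
      simp only [hY, Finset.mem_product, Finset.mem_Icc]
      rw [abs_le] at h5 h6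
      exact ⟨h2, h5, h6⟩
    obtain ⟨⟨m, t1, t2⟩, hy, hle⟩ := Finset.exists_le_sum_fiber_of_maps_to_of_nsmul_le_sum
      (s := blkT K) (t := Y) (f := fun w => (w.length, w.sum.2.1, w.sum.2.2))
      (w := fun w => ((4 : ℝ) / 15) ^ w.length) (b := 1 / (Y.card : ℝ)) hmaps hYne
      (by
        rw [nsmul_eq_mul, mul_one_div_cancel hYpos.ne']
        exact blkT_weight K)
    simp only [hY, Finset.mem_product, Finset.mem_Icc] at hy
    set T := (blkT K).filter fun w => (w.length, w.sum.2.1, w.sum.2.2) = (m, t1, t2) with hT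
    have hTm : ∀ w ∈ T, w ∈ blkT K ∧ w.length = m ∧ w.sum.2.1 = t1 ∧ w.sum.2.2 = t2 := by
      intro w hw
      rw [hT, Finset.mem_filter] at hw
      simp only [Prod.mk.injEq] at hw
      exact ⟨hw.1, hw.2.1, hw.2.2.1, hw.2.2.2⟩
    refine ⟨T, m, K, (t1, t2), ⟨?_, ?_, ?_, ?_⟩, by omega, ?_⟩
    · intro w hw
      exact (blkT_spec K w (hTm w hw).1).1
    · intro w hw
      exact (hTm w hw).2.1
    · intro w hw
      exact (blkT_spec K w (hTm w hw).1).2.2.1 (by omega)
    · intro w hw
      obtain ⟨h2, _, h3, h4⟩ := hTm w hw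
      exact Prod.ext (blkT_spec K w h2).2.2.2.1 (Prod.ext h3 h4)
    · have hsum : ∑ w ∈ T, ((4 : ℝ) / 15) ^ w.length = T.card * ((4 : ℝ) / 15) ^ m := by
        rw [Finset.sum_congr rfl fun w hw => by rw [(hTm w hw).2.1], Finset.sum_const, nsmul_eq_mul]
      rw [hsum] at hle
      have e1' : ((15 : ℝ) / 4) ^ m * ((4 : ℝ) / 15) ^ m = 1 := by
        rw [← mul_pow]
        norm_num
      have h3 : (15 / 4 : ℝ) ^ m / Y.card ≤ T.card := by
        have h4 := mul_le_mul_of_nonneg_left hle (by positivity : (0 : ℝ) ≤ (15 / 4 : ℝ) ^ m)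
        have h5 : (15 / 4 : ℝ) ^ m * (T.card * ((4 : ℝ) / 15) ^ m) = T.card := by
          calc (15 / 4 : ℝ) ^ m * (T.card * ((4 : ℝ) / 15) ^ m)
              = T.card * ((15 / 4 : ℝ) ^ m * ((4 : ℝ) / 15) ^ m) := by ring
            _ = T.card := by rw [e1', mul_one]
        rw [h5] at h4
        calc (15 / 4 : ℝ) ^ m / Y.card = (15 / 4 : ℝ) ^ m * (1 / Y.card) := by ring
          _ ≤ _ := h4
      refine le_trans ?_ h3
      rw [le_div_iff₀ hYpos, mul_pow, mul_assoc]
      have h6 : (1 - η) ^ m * (Y.card : ℝ) ≤ 1 := by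
        have h7 : (1 - η) ^ m ≤ (1 - η) ^ K :=
          pow_le_pow_of_le_one (by linarith) (by linarith) (by omega)
        have h8 : 0 ≤ (1 - η) ^ K := pow_nonneg (by linarith) _
        calc (1 - η) ^ m * (Y.card : ℝ) ≤ (1 - η) ^ K * (405 * (K : ℝ) ^ 3) :=
              mul_le_mul h7 hYcard hYpos.le h8
          _ = 405 * (K : ℝ) ^ 3 * (1 - η) ^ K := by ring
          _ ≤ 1 := hK2
      calc (15 / 4 : ℝ) ^ m * ((1 - η) ^ m * (Y.card : ℝ)) ≤ (15 / 4 : ℝ) ^ m * 1 :=
            mul_le_mul_of_nonneg_left h6 (by positivity)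
        _ = (15 / 4 : ℝ) ^ m := mul_one _

end Pool.Agent.LK
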