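import Pool.Agent.MP_aea6d5_co.KMono
import Pool.Agent.MP_aea6d5_co.KFinal

/-! # Ratio limit theorem: definitions and interface statements

`U C n` (file `Count`) is the finite set of the members of the class `C` with `n` edges in normal
position, `count C n` its cardinality (`card_U'`, `mem_U'` in `KPair`). -/

set_option autoImplicit false

open Filter Topology

namespace Pool.Agent.LK

/-- `E` with the three sides `x, x+d, y+d, y` of a unit square replaced by the edge `xy`: the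
inverse of `bump`. -/
def unbump (E : Finset (Sym2 P3)) (x y d : P3) : Finset (Sym2 P3) :=
  (E \ {s(x, x + d), s(x + d, y + d), s(y + d, y)}) ∪ {s(x, y)}

/-- A place `(x, y, d)` where `E` can be bumped. -/
def Spot (E : Finset (Sym2 P3)) (q : P3 × P3 × P3) : Prop :=
  s(q.1, q.2.1) ∈ E ∧ IsUnit3 q.2.2 ∧ q.1 + q.2.2 ∉ verts E ∧ q.2.1 + q.2.2 ∉ verts E

/-- A place `(x, y, d)` where three sides of a unit square belong to `E`, the fourth side `xy` does
not. -/
def UShape (E : Finset (Sym2 P3)) (q : P3 × P3 × P3) : Prop :=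
  s(q.1, q.2.1) ∉ E ∧ IsUnit3 q.2.2 ∧ s(q.1, q.1 + q.2.2) ∈ E ∧
    s(q.1 + q.2.2, q.2.1 + q.2.2) ∈ E ∧ s(q.2.1 + q.2.2, q.2.1) ∈ E

/-- number of (ordered) spots -/
noncomputable def nSpot (E : Finset (Sym2 P3)) : ℕ := {q | Spot E q}.ncard

/-- number of (ordered) U-shapes -/
noncomputable def nU (E : Finset (Sym2 P3)) : ℕ := {q | UShape E q}.ncard

/-- the finite set of spots -/
noncomputable def spots (E : Finset (Sym2 P3)) : Finset (P3 × P3 × P3) :=
  open Classical in if h : {q | Spot E q}.Finite then h.toFinset else ∅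

/-- Classes of polygons closed under translations, bumps and inverse bumps. -/
structure BumpClass (C : Finset (Sym2 P3) → Prop) : Prop where
  poly : ∀ E, C E → IsPolygon E
  trans : ∀ (t : P3) E, C E → C (shift t E)
  bump : ∀ E x y d, C E → Spot E (x, y, d) → C (bump E x y d)
  unbump : ∀ E x y d, C E → UShape E (x, y, d) → C (unbump E x y d)
  flip : ∀ E x a b, C E → s(x, x + a) ∈ E → s(x + a, x + a + b) ∈ E → IsUnit3 a → IsUnit3 b →
    a ≠ b → a ≠ -b → x + b ∉ verts E → C (flip E x a b)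

/-- (R0) Local facts about bumps and inverse bumps. -/
structure LocalFacts : Prop where
  spots_finite : ∀ E : Finset (Sym2 P3), {q | Spot E q}.Finite
  ushape_finite : ∀ E : Finset (Sym2 P3), {q | UShape E q}.Finite
  unbump_poly : ∀ E x y d, IsPolygon E → UShape E (x, y, d) → IsPolygon (unbump E x y d)
  unbump_spot : ∀ E x y d, IsPolygon E → UShape E (x, y, d) → Spot (unbump E x y d) (x, y, d)
  bump_unbump : ∀ E x y d, IsPolygon E → UShape E (x, y, d) → bump (unbump E x y d) x y d = E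
  card_unbump : ∀ E x y d, IsPolygon E → UShape E (x, y, d) → (unbump E x y d).card + 2 = E.card
  ushape_bump : ∀ E x y d, IsPolygon E → Spot E (x, y, d) → UShape (bump E x y d) (x, y, d)
  unbump_bump : ∀ E x y d, IsPolygon E → Spot E (x, y, d) → unbump (bump E x y d) x y d = E
  nU_shift : ∀ t E, nU (shift t E) = nU E
  nSpot_shift : ∀ t E, nSpot (shift t E) = nSpot E
  nU_le : ∀ E, IsPolygon E → nU E ≤ 12 * E.card
  nSpot_le : ∀ E, IsPolygon E → nSpot E ≤ 12 * E.card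

/-- (R1) Bounded differences. -/
def DiffStatement : Prop := ∃ D : ℕ, ∀ E x y d, IsPolygon E → Spot E (x, y, d) →
  nU (bump E x y d) ≤ nU E + D ∧ nU E ≤ nU (bump E x y d) + D ∧
    nSpot (bump E x y d) ≤ nSpot E + D ∧ nSpot E ≤ nSpot (bump E x y d) + D

/-- (R2) The exchange identity. -/
def ExchangeStatement : Prop := ∀ C : Finset (Sym2 P3) → Prop, BumpClass C →
  ∀ f : Finset (Sym2 P3) → ℝ, (∀ t E, f (shift t E) = f E) → ∀ n : ℕ,
    ∑ E ∈ U C (n + 2), (nU E : ℝ) * f E =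
      ∑ E ∈ U C n, ∑ q ∈ spots E, f (bump E q.1 q.2.1 q.2.2)

/-- The number of polygons with few U-shapes. -/
noncomputable def few (C : Finset (Sym2 P3) → Prop) (ε : ℝ) (n : ℕ) : ℕ :=
  open Classical in ((U C n).filter fun E => (nU E : ℝ) ≤ ε * n).card

/-- (R3) Polygons with few U-shapes and few spots. -/
def RigidStatement : Prop := ∃ ε K : ℝ, 0 < ε ∧ ∀ n : ℕ,
  ((open Classical in ((U IsPolygon n).filter fun E => (nU E : ℝ) ≤ ε * n ∧
    (nSpot E : ℝ) ≤ ε * n).card : ℕ) : ℝ) ≤ K * (374 / 100 : ℝ) ^ n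

/-- (R4) A lower bound for the growth rate. -/
def LowerStatement : Prop := ∀ C : Finset (Sym2 P3) → Prop, ClosedZ C → (15 / 4 : ℝ) ≤ growth C

/-- the `n`-th roots of the counts converge to `g` along even `n` -/
def HasGrowth (C : Finset (Sym2 P3) → Prop) (g : ℝ) : Prop :=
  Tendsto (fun k : ℕ => (count C (2 * k) : ℝ) ^ (((2 * k : ℕ) : ℝ)⁻¹)) atTop (𝓝 g)

/-- (R5) The growth rate is a limit. -/
def LimitStatement : Prop := ∀ C : Finset (Sym2 P3) → Prop, ClosedZ C → HasGrowth C (growth C)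

/-- (R6) Few U-shapes are exponentially rare. -/
def FewStatement : Prop := ∀ (C : Finset (Sym2 P3) → Prop) (g : ℝ), BumpClass C →
  HasGrowth C g → (15 / 4 : ℝ) ≤ g → ∃ ε c : ℝ, 0 < ε ∧ 0 < c ∧ c < 1 ∧
    ∀ᶠ k : ℕ in atTop, (few C ε (2 * k) : ℝ) ≤ c ^ k * (count C (2 * k) : ℝ)

/-- (R7) Kesten's inequality for the ratios. -/
def KestenStatement : Prop := ∀ (C : Finset (Sym2 P3) → Prop) (ε c : ℝ), BumpClass C →
  0 < ε → 0 < c → c < 1 → (∀ᶠ k : ℕ in atTop, 0 < count C (2 * k)) →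
  (∀ᶠ k : ℕ in atTop, (few C ε (2 * k) : ℝ) ≤ c ^ k * (count C (2 * k) : ℝ)) →
  ∃ A : ℝ, ∀ᶠ k : ℕ in atTop,
    (count C (2 * k + 2) : ℝ) / (count C (2 * k) : ℝ) - A / k ≤
      (count C (2 * k + 4) : ℝ) / (count C (2 * k + 2) : ℝ)

/-- (R8) The limit lemma. -/
def LimitLemma : Prop := ∀ (u : ℕ → ℝ) (g A : ℝ), 1 ≤ g → (∀ᶠ k in atTop, 0 < u k) →
  Tendsto (fun k : ℕ => (u k) ^ ((2 * (k : ℝ))⁻¹)) atTop (𝓝 g) →
  (∀ᶠ k : ℕ in atTop, u (k + 1) / u k - A / k ≤ u (k + 2) / u (k + 1)) →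
  Tendsto (fun k => u (k + 1) / u k) atTop (𝓝 (g ^ 2))

/-- (R9) Types with respect to a subgroup: the counts are proportional. -/
def PropStatement : Prop := ∀ (G : Subgroup (R3 ≃ₜ R3)),
  (∀ φ : R3 ≃ₜ R3, φ ∈ G ∨ φ * swapR ∈ G) → ∀ K : Finset (Sym2 P3),
  (∀ n, count (GClass G K) n = count (KClass K) n) ∨
    (∀ n, count (KClass K) n = 2 * count (GClass G K) n)

end Pool.Agent.LK
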