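import Pool.Agent.MP_aea6d5_co.RDefs

/-! # (R1) Bounded differences -/

set_option autoImplicit false

namespace Pool.Agent.LK

/-- The set of relevant triples near `x`. -/
def nearT (x : P3) : Set (P3 × P3 × P3) :=
  {q | Box 4 (q.1 - x) ∧ Box 4 (q.2.1 - x) ∧ Box 4 q.2.2}

theorem box_finite (r : ℤ) : {u : P3 | Box r u}.Finite := by
  have h : {u : P3 | Box r u} ⊆ (Set.Icc (-r) r) ×ˢ ((Set.Icc (-r) r) ×ˢ (Set.Icc (-r) r)) := by
    rintro ⟨a, b, c⟩ ⟨h1, h2, h3⟩
    exact ⟨abs_le.1 h1, abs_le.1 h2, abs_le.1 h3⟩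
  exact ((Set.finite_Icc _ _).prod ((Set.finite_Icc _ _).prod (Set.finite_Icc _ _))).subset h

theorem nearT_zero_finite : (nearT 0).Finite := by
  have h : nearT 0 ⊆ {u : P3 | Box 4 u} ×ˢ ({u : P3 | Box 4 u} ×ˢ {u : P3 | Box 4 u}) := by
    rintro ⟨a, b, c⟩ ⟨h1, h2, h3⟩
    simp only [sub_zero] at h1 h2
    exact ⟨h1, h2, h3⟩
  exact ((box_finite 4).prod ((box_finite 4).prod (box_finite 4))).subset h

theorem nearT_eq (x : P3) :
    nearT x = (fun q : P3 × P3 × P3 => (q.1 + x, q.2.1 + x, q.2.2)) '' nearT 0 := by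
  apply Set.Subset.antisymm
  · rintro ⟨a, b, c⟩ ⟨h1, h2, h3⟩
    simp only at h1 h2 h3
    refine ⟨(a - x, b - x, c), ⟨?_, ?_, h3⟩, ?_⟩
    · show Box 4 (a - x - 0); rwa [sub_zero]
    · show Box 4 (b - x - 0); rwa [sub_zero]
    · simp
  · rintro _ ⟨⟨a, b, c⟩, ⟨h1, h2, h3⟩, rfl⟩
    simp only [sub_zero] at h1 h2 h3
    refine ⟨?_, ?_, h3⟩
    · show Box 4 (a + x - x); rwa [add_sub_cancel_right]
    · show Box 4 (b + x - x); rwa [add_sub_cancel_right]

theorem nearT_finite (x : P3) : (nearT x).Finite := by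
  rw [nearT_eq]; exact nearT_zero_finite.image _

theorem nearT_ncard (x : P3) : (nearT x).ncard ≤ (nearT 0).ncard := by
  rw [nearT_eq]; exact Set.ncard_image_le nearT_zero_finite

theorem ChangedIn.verts {p : P3} {r : ℤ} {E E' : Finset (Sym2 P3)} (h : ChangedIn p r E E')
    {u : P3} (hu : (u ∈ LK.verts E ∧ u ∉ LK.verts E') ∨ (u ∉ LK.verts E ∧ u ∈ LK.verts E')) :
    Box r (u - p) := by
  rcases hu with ⟨⟨v, hv⟩, hu'⟩ | ⟨hu', ⟨v, hv⟩⟩
  · exact (h u v (Or.inl ⟨hv, fun h' => hu' ⟨v, h'⟩⟩)).1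
  · exact (h u v (Or.inr ⟨fun h' => hu' ⟨v, h'⟩, hv⟩)).1

theorem nearT_of {x u v e : P3} (huv : IsUnit3 (v - u)) (he : IsUnit3 e)
    (h : Box 2 (u - x) ∨ Box 2 (v - x) ∨ Box 2 (u + e - x) ∨ Box 2 (v + e - x)) :
    (u, v, e) ∈ nearT x := by
  have b1 := box_unit huv
  have b2 := box_unit he
  have b1' := b1.neg
  have b2' := b2.neg
  refine ⟨?_, ?_, b2.mono (by norm_num)⟩
  · show Box 4 (u - x)
    rcases h with h | h | h | h
    · exact h.mono (by norm_num)
    · exact (by have := h.add b1'; rwa [show v - x + -(v - u) = u - x by abel] at this : Box (2 + 1) (u - x)).mono (by norm_num)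
    · exact (by have := h.add b2'; rwa [show u + e - x + -e = u - x by abel] at this : Box (2 + 1) (u - x)).mono (by norm_num)
    · exact (by have := (h.add b2').add b1'; rwa [show v + e - x + -e + -(v - u) = u - x by abel] at this : Box (2 + 1 + 1) (u - x)).mono (by norm_num)
  · show Box 4 (v - x)
    rcases h with h | h | h | h
    · exact (by have := h.add b1; rwa [show u - x + (v - u) = v - x by abel] at this : Box (2 + 1) (v - x)).mono (by norm_num)
    · exact h.mono (by norm_num)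
    · exact (by have := (h.add b2').add b1; rwa [show u + e - x + -e + (v - u) = v - x by abel] at this : Box (2 + 1 + 1) (v - x)).mono (by norm_num)
    · exact (by have := h.add b2'; rwa [show v + e - x + -e = v - x by abel] at this : Box (2 + 1) (v - x)).mono (by norm_num)

theorem ushape_sub {E E' : Finset (Sym2 P3)} {x : P3} (hE : ∀ u v, s(u, v) ∈ E → Adj u v)
    (h : ChangedIn x 2 E E') : {q | UShape E q} ⊆ {q | UShape E' q} ∪ nearT x := by
  rintro ⟨u, v, e⟩ hq
  obtain ⟨h1, h2, h3, h4, h5⟩ := hq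
  simp only at h1 h2 h3 h4 h5
  by_cases hq' : UShape E' (u, v, e)
  · exact Or.inl hq'
  · right
    have huv : IsUnit3 (v - u) := by
      have := adj_iff.1 (hE _ _ h4)
      rwa [add_sub_add_right_eq_sub] at this
    apply nearT_of huv h2
    by_contra hcon
    push Not at hcon
    obtain ⟨n1, n2, n3, n4⟩ := hcon
    apply hq'
    refine ⟨?_, h2, ?_, ?_, ?_⟩
    · show s(u, v) ∉ E'
      intro h'
      exact n1 (h u v (Or.inr ⟨h1, h'⟩)).1
    · show s(u, u + e) ∈ E'
      by_contra h'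
      exact n1 (h u (u + e) (Or.inl ⟨h3, h'⟩)).1
    · show s(u + e, v + e) ∈ E'
      by_contra h'
      exact n3 (h _ _ (Or.inl ⟨h4, h'⟩)).1
    · show s(v + e, v) ∈ E'
      by_contra h'
      exact n4 (h _ _ (Or.inl ⟨h5, h'⟩)).1

theorem spot_sub {E E' : Finset (Sym2 P3)} {x : P3} (hE : ∀ u v, s(u, v) ∈ E → Adj u v)
    (h : ChangedIn x 2 E E') : {q | Spot E q} ⊆ {q | Spot E' q} ∪ nearT x := by
  rintro ⟨u, v, e⟩ hq
  obtain ⟨h1, h2, h3, h4⟩ := hq
  simp only at h1 h2 h3 h4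
  by_cases hq' : Spot E' (u, v, e)
  · exact Or.inl hq'
  · right
    have huv : IsUnit3 (v - u) := adj_iff.1 (hE _ _ h1)
    apply nearT_of huv h2
    by_contra hcon
    push Not at hcon
    obtain ⟨n1, n2, n3, n4⟩ := hcon
    apply hq'
    refine ⟨?_, h2, ?_, ?_⟩
    · show s(u, v) ∈ E'
      by_contra h'
      exact n1 (h u v (Or.inl ⟨h1, h'⟩)).1
    · show u + e ∉ verts E'
      intro h'
      exact n3 (h.verts (Or.inr ⟨h3, h'⟩))
    · show v + e ∉ verts E'
      intro h'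
      exact n4 (h.verts (Or.inr ⟨h4, h'⟩))

theorem ushape_fin (E : Finset (Sym2 P3)) : {q | UShape E q}.Finite := by
  have h : {q | UShape E q} ⊆ (fun q : P3 × P3 × P3 => (q.1, q.2.1, q.2.2 - q.1)) ''
      ((verts E) ×ˢ ((verts E) ×ˢ (verts E))) := by
    rintro ⟨u, v, e⟩ ⟨h1, h2, h3, h4, h5⟩
    simp only at h1 h2 h3 h4 h5
    exact ⟨(u, v, u + e), ⟨left_mem_verts h3, right_mem_verts h5, right_mem_verts h3⟩, by simp⟩
  exact (((verts_finite E).prod ((verts_finite E).prod (verts_finite E))).image _).subset h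

theorem spot_fin (E : Finset (Sym2 P3)) : {q | Spot E q}.Finite := by
  have h : {q | Spot E q} ⊆ (verts E) ×ˢ ((verts E) ×ˢ {u : P3 | Box 1 u}) := by
    rintro ⟨u, v, e⟩ ⟨h1, h2, h3, h4⟩
    simp only at h1 h2 h3 h4
    exact ⟨left_mem_verts h1, right_mem_verts h1, box_unit h2⟩
  exact ((verts_finite E).prod ((verts_finite E).prod (box_finite 1))).subset h

theorem nU_le_of {E E' : Finset (Sym2 P3)} {x : P3} (hE : ∀ u v, s(u, v) ∈ E → Adj u v)
    (h : ChangedIn x 2 E E') : nU E ≤ nU E' + (nearT 0).ncard := by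
  unfold nU
  calc {q | UShape E q}.ncard ≤ ({q | UShape E' q} ∪ nearT x).ncard :=
        Set.ncard_le_ncard (ushape_sub hE h) ((ushape_fin E').union (nearT_finite x))
    _ ≤ {q | UShape E' q}.ncard + (nearT x).ncard := Set.ncard_union_le _ _
    _ ≤ _ := Nat.add_le_add_left (nearT_ncard x) _

theorem nSpot_le_of {E E' : Finset (Sym2 P3)} {x : P3} (hE : ∀ u v, s(u, v) ∈ E → Adj u v)
    (h : ChangedIn x 2 E E') : nSpot E ≤ nSpot E' + (nearT 0).ncard := by
  unfold nSpot
  calc {q | Spot E q}.ncard ≤ ({q | Spot E' q} ∪ nearT x).ncard :=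
        Set.ncard_le_ncard (spot_sub hE h) ((spot_fin E').union (nearT_finite x))
    _ ≤ {q | Spot E' q}.ncard + (nearT x).ncard := Set.ncard_union_le _ _
    _ ≤ _ := Nat.add_le_add_left (nearT_ncard x) _

/-- (R1) Bounded differences. -/
theorem diffStatement : DiffStatement := by
  refine ⟨(nearT 0).ncard, ?_⟩
  rintro E x y d hE ⟨h1, h2, h3, h4⟩
  simp only at h1 h2 h3 h4
  have hd := box_unit h2
  have hxy := box_unit (adj_iff.1 (hE.adj _ _ h1))
  have hch : ChangedIn x 2 E (bump E x y d) := by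
    apply changedIn_bump
    · rw [sub_self]; exact ⟨by simp, by simp, by simp⟩
    · exact hxy.mono (by norm_num)
    · rw [add_sub_cancel_left]; exact hd.mono (by norm_num)
    · rw [add_sub_right_comm]; exact hxy.add hd
  have hadj : ∀ u v, s(u, v) ∈ bump E x y d → Adj u v := by
    have aux : ∀ {a b u v : P3}, s(u, v) = s(a, b) → Adj a b → Adj u v := by
      intro a b u v h hab
      rw [Sym2.eq_iff] at h
      rcases h with ⟨rfl, rfl⟩ | ⟨rfl, rfl⟩
      · exact hab
      · exact hab.symm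
    intro u v huv
    rw [mem_bump] at huv
    rcases huv with ⟨huv, -⟩ | huv | huv | huv
    · exact hE.adj _ _ huv
    · exact aux huv (adj_iff.2 (by simpa using h2))
    · exact aux huv (adj_iff.2 (by rw [add_sub_add_right_eq_sub]; exact adj_iff.1 (hE.adj _ _ h1)))
    · exact aux huv (adj_iff.2 (by simpa using isUnit3_neg h2))
  exact ⟨nU_le_of hadj hch.symm, nU_le_of hE.adj hch, nSpot_le_of hadj hch.symm,
    nSpot_le_of hE.adj hch⟩

end Pool.Agent.LK
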