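import Pool.Agent.MP_aea6d5_co.RLocal

/-! # (R2) The exchange identity -/

set_option autoImplicit false

open Filter Topology

namespace Pool.Agent.LK


theorem eq_sub_iff {u v a b t : P3} : s(u - t, v - t) = s(a, b) ↔ s(u, v) = s(a + t, b + t) := by
  rw [Sym2.eq_iff, Sym2.eq_iff]
  simp only [sub_eq_iff_eq_add]

theorem shift_bump (t : P3) (E : Finset (Sym2 P3)) (x y d : P3) :
    shift t (bump E x y d) = bump (shift t E) (x + t) (y + t) d := by
  apply edge_ext
  intro u v
  rw [mem_shift, mem_bump, mem_bump, mem_shift]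
  simp only [Ne, eq_sub_iff]
  have e1 : x + d + t = x + t + d := by abel
  have e2 : y + d + t = y + t + d := by abel
  rw [e1, e2]

theorem shift_unbump (t : P3) (E : Finset (Sym2 P3)) (x y d : P3) :
    shift t (unbump E x y d) = unbump (shift t E) (x + t) (y + t) d := by
  apply edge_ext
  intro u v
  rw [mem_shift, mem_unbump, mem_unbump, mem_shift]
  simp only [Ne, eq_sub_iff]
  have e1 : x + d + t = x + t + d := by abel
  have e2 : y + d + t = y + t + d := by abel
  rw [e1, e2]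

theorem shq_shq (s t : P3) (q : P3 × P3 × P3) : shq s (shq t q) = shq (s + t) q := by
  obtain ⟨x, y, d⟩ := q
  simp only [shq, Prod.mk.injEq, and_true]
  exact ⟨by abel, by abel⟩

theorem shq_zero (q : P3 × P3 × P3) : shq 0 q = q := by
  obtain ⟨x, y, d⟩ := q
  simp [shq]

theorem mem_spots {E : Finset (Sym2 P3)} {q : P3 × P3 × P3} : q ∈ spots E ↔ Spot E q := by
  unfold spots
  rw [dif_pos (spots_finite E)]
  simp

/-- the finite set of U-shapes -/
noncomputable def ushapes (E : Finset (Sym2 P3)) : Finset (P3 × P3 × P3) :=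
  (ushape_finite E).toFinset

theorem mem_ushapes {E : Finset (Sym2 P3)} {q : P3 × P3 × P3} : q ∈ ushapes E ↔ UShape E q := by
  unfold ushapes
  rw [Set.Finite.mem_toFinset]; rfl

theorem card_ushapes (E : Finset (Sym2 P3)) : (ushapes E).card = nU E := by
  unfold ushapes nU
  rw [Set.ncard_eq_toFinset_card _ (ushape_finite E)]

/-- a normalising translation -/
noncomputable def nrm (E : Finset (Sym2 P3)) : P3 :=
  open Classical in if h : ∃ t : P3, Normed (shift t E) then h.choose else 0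

theorem nrm_spec {E : Finset (Sym2 P3)} (h : (verts E).Nonempty) : Normed (shift (nrm E) E) := by
  classical
  have h1 := exists_normed h
  unfold nrm
  rw [dif_pos h1]
  exact h1.choose_spec

theorem exchange (C : Finset (Sym2 P3) → Prop) (hC : BumpClass C) (f : Finset (Sym2 P3) → ℝ)
    (hf : ∀ t E, f (shift t E) = f E) (n : ℕ) :
    ∑ E ∈ U C (n + 2), (nU E : ℝ) * f E =
      ∑ E ∈ U C n, ∑ q ∈ spots E, f (bump E q.1 q.2.1 q.2.2) := by
  classical
  have hL : ∑ E ∈ U C (n + 2), (nU E : ℝ) * f E = ∑ E ∈ U C (n + 2), ∑ q ∈ ushapes E, f E := by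
    refine Finset.sum_congr rfl fun E _ => ?_
    rw [Finset.sum_const, card_ushapes, nsmul_eq_mul]
  rw [hL, Finset.sum_sigma', Finset.sum_sigma']
  symm
  refine Finset.sum_bij'
    (i := fun r _ => ⟨shift (nrm (bump r.1 r.2.1 r.2.2.1 r.2.2.2)) (bump r.1 r.2.1 r.2.2.1 r.2.2.2),
      shq (nrm (bump r.1 r.2.1 r.2.2.1 r.2.2.2)) r.2⟩)
    (j := fun r _ => ⟨shift (nrm (unbump r.1 r.2.1 r.2.2.1 r.2.2.2))
      (unbump r.1 r.2.1 r.2.2.1 r.2.2.2), shq (nrm (unbump r.1 r.2.1 r.2.2.1 r.2.2.2)) r.2⟩)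
    ?_ ?_ ?_ ?_ ?_
  · rintro ⟨E, x, y, d⟩ hr
    rw [Finset.mem_sigma, mem_U' hC.poly, mem_spots] at hr
    obtain ⟨⟨h1, h2, h3⟩, h4⟩ := hr
    simp only at h1 h2 h3 h4
    have hp := hC.poly _ h1
    have hB := hC.bump _ _ _ _ h1 h4
    have hBp := hC.poly _ hB
    rw [Finset.mem_sigma, mem_U' hC.poly, mem_ushapes]
    refine ⟨⟨hC.trans _ _ hB, ?_, nrm_spec hBp.verts_nonempty⟩, ?_⟩
    · rw [card_shift]
      show (bump E x y d).card = n + 2
      rw [card_bump h4.1 (hp.adj _ _ h4.1).ne h4.2.2.1 h4.2.2.2, h2]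
    · exact ushape_shift.2 (ushape_bump hp h4)
  · rintro ⟨E, x, y, d⟩ hr
    rw [Finset.mem_sigma, mem_U' hC.poly, mem_ushapes] at hr
    obtain ⟨⟨h1, h2, h3⟩, h4⟩ := hr
    simp only at h1 h2 h3 h4
    have hp := hC.poly _ h1
    have hB := hC.unbump _ _ _ _ h1 h4
    have hBp := hC.poly _ hB
    rw [Finset.mem_sigma, mem_U' hC.poly, mem_spots]
    refine ⟨⟨hC.trans _ _ hB, ?_, nrm_spec hBp.verts_nonempty⟩, ?_⟩
    · rw [card_shift]
      show (unbump E x y d).card = n
      have := card_unbump hp h4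
      omega
    · exact spot_shift.2 (unbump_spot hp h4)
  · rintro ⟨E, x, y, d⟩ hr
    rw [Finset.mem_sigma, mem_U' hC.poly, mem_spots] at hr
    obtain ⟨⟨h1, h2, h3⟩, h4⟩ := hr
    simp only at h1 h2 h3 h4
    have hp := hC.poly _ h1
    set B := bump E x y d with hB
    have e1 : unbump (shift (nrm B) B) (x + nrm B) (y + nrm B) d = shift (nrm B) E := by
      rw [← shift_unbump, hB, unbump_bump h4]
    show (⟨shift (nrm (unbump (shift (nrm B) B) (x + nrm B) (y + nrm B) d))
      (unbump (shift (nrm B) B) (x + nrm B) (y + nrm B) d),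
      shq (nrm (unbump (shift (nrm B) B) (x + nrm B) (y + nrm B) d)) (shq (nrm B) (x, y, d))⟩ :
      Σ _ : Finset (Sym2 P3), P3 × P3 × P3) = ⟨E, (x, y, d)⟩
    rw [e1]
    have hne : (verts (shift (nrm B) E)).Nonempty := (isPolygon_shift hp _).verts_nonempty
    have h5 := nrm_spec hne
    rw [shift_shift] at h5
    have h6 := Normed.eq_zero h3 h5
    rw [shift_shift, shq_shq, h6, shift_zero, shq_zero]
  · rintro ⟨E, x, y, d⟩ hr
    rw [Finset.mem_sigma, mem_U' hC.poly, mem_ushapes] at hr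
    obtain ⟨⟨h1, h2, h3⟩, h4⟩ := hr
    simp only at h1 h2 h3 h4
    have hp := hC.poly _ h1
    set B := unbump E x y d with hB
    have e1 : bump (shift (nrm B) B) (x + nrm B) (y + nrm B) d = shift (nrm B) E := by
      rw [← shift_bump, hB, bump_unbump h4]
    show (⟨shift (nrm (bump (shift (nrm B) B) (x + nrm B) (y + nrm B) d))
      (bump (shift (nrm B) B) (x + nrm B) (y + nrm B) d),
      shq (nrm (bump (shift (nrm B) B) (x + nrm B) (y + nrm B) d)) (shq (nrm B) (x, y, d))⟩ :
      Σ _ : Finset (Sym2 P3), P3 × P3 × P3) = ⟨E, (x, y, d)⟩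
    rw [e1]
    have hne : (verts (shift (nrm B) E)).Nonempty := (isPolygon_shift hp _).verts_nonempty
    have h5 := nrm_spec hne
    rw [shift_shift] at h5
    have h6 := Normed.eq_zero h3 h5
    rw [shift_shift, shq_shq, h6, shift_zero, shq_zero]
  · rintro ⟨E, x, y, d⟩ hr
    exact (hf _ _).symm

/-- (R2) -/
theorem exchangeStatement (_ : LocalFacts) : ExchangeStatement :=
  fun C hC f hf n => exchange C hC f hf n

end Pool.Agent.LK
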