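import Pool.Agent.MP_aea6d5_co.RDefs

/-! # Few U-shapes are exponentially rare (R6) -/

set_option autoImplicit false

open Filter Topology

namespace Pool.Agent.LK

namespace RFew

variable {C : Finset (Sym2 P3) → Prop}

/-- Members of `C` with at most `a` U-shapes and at least `b` spots. -/
noncomputable def W (C : Finset (Sym2 P3) → Prop) (n : ℕ) (a b : ℝ) : ℕ :=
  open Classical in ((U C n).filter fun E => (nU E : ℝ) ≤ a ∧ b ≤ (nSpot E : ℝ)).card

theorem mem_spots (h0 : LocalFacts) {E : Finset (Sym2 P3)} {q : P3 × P3 × P3} :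
    q ∈ spots E ↔ Spot E q := by
  unfold spots
  rw [dif_pos (h0.spots_finite E)]
  simp

theorem card_spots (h0 : LocalFacts) (E : Finset (Sym2 P3)) : (spots E).card = nSpot E := by
  unfold spots nSpot
  rw [dif_pos (h0.spots_finite E), Set.ncard_eq_toFinset_card _ (h0.spots_finite E)]

theorem W_le_count (hC : BumpClass C) (n : ℕ) (a b : ℝ) : W C n a b ≤ count C n := by
  classical
  rw [← card_U' hC.poly n]
  exact Finset.card_filter_le _ _

theorem W_step (h0 : LocalFacts) (h2 : ExchangeStatement) {D : ℕ}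
    (hD : ∀ E x y d, IsPolygon E → Spot E (x, y, d) →
      nU (bump E x y d) ≤ nU E + D ∧ nU E ≤ nU (bump E x y d) + D ∧
        nSpot (bump E x y d) ≤ nSpot E + D ∧ nSpot E ≤ nSpot (bump E x y d) + D)
    (hC : BumpClass C) (n : ℕ) (a b : ℝ) :
    b * (W C n a b : ℝ) ≤ (a + D) * (W C (n + 2) (a + D) (b - D) : ℝ) := by
  classical
  set f : Finset (Sym2 P3) → ℝ := fun E =>
    if (nU E : ℝ) ≤ a + D ∧ b - D ≤ (nSpot E : ℝ) then 1 else 0 with hf
  have hfs : ∀ t E, f (shift t E) = f E := by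
    intro t E
    simp only [hf, h0.nU_shift, h0.nSpot_shift]
  have hf0 : ∀ E, 0 ≤ f E := by
    intro E
    simp only [hf]
    split_ifs <;> norm_num
  have hex := h2 C hC f hfs n
  have hl : ∑ E ∈ U C (n + 2), (nU E : ℝ) * f E ≤
      (a + D) * (W C (n + 2) (a + D) (b - D) : ℝ) := by
    have h1 : (W C (n + 2) (a + D) (b - D) : ℝ) = ∑ E ∈ U C (n + 2), f E := by
      unfold W
      rw [Finset.sum_ite, Finset.sum_const_zero, add_zero, Finset.sum_const, nsmul_eq_mul, mul_one]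
    rw [h1, Finset.mul_sum]
    refine Finset.sum_le_sum fun E _ => ?_
    simp only [hf]
    split_ifs with h
    · rw [mul_one, mul_one]; exact h.1
    · simp
  have hr : b * (W C n a b : ℝ) ≤
      ∑ E ∈ U C n, ∑ q ∈ spots E, f (bump E q.1 q.2.1 q.2.2) := by
    have h1 : b * (W C n a b : ℝ) = ∑ E ∈ (U C n).filter
        (fun E => (nU E : ℝ) ≤ a ∧ b ≤ (nSpot E : ℝ)), b := by
      unfold W
      rw [Finset.sum_const, nsmul_eq_mul, mul_comm]
    rw [h1]
    refine le_trans ?_ (Finset.sum_le_sum_of_subset_of_nonneg (Finset.filter_subset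
      (fun E => (nU E : ℝ) ≤ a ∧ b ≤ (nSpot E : ℝ)) (U C n))
      (fun E _ _ => Finset.sum_nonneg fun q _ => hf0 _))
    refine Finset.sum_le_sum fun E hE => ?_
    obtain ⟨hEU, hEa, hEb⟩ := Finset.mem_filter.1 hE
    have hEC := ((mem_U' hC.poly).1 hEU).1
    have h3 : ∀ q ∈ spots E, f (bump E q.1 q.2.1 q.2.2) = 1 := by
      rintro ⟨x, y, d⟩ hq
      obtain ⟨e1, -, -, e4⟩ := hD E x y d (hC.poly E hEC) ((mem_spots h0).1 hq)
      have e1' : (nU (bump E x y d) : ℝ) ≤ nU E + D := by exact_mod_cast e1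
      have e4' : (nSpot E : ℝ) ≤ nSpot (bump E x y d) + D := by exact_mod_cast e4
      simp only [hf]
      rw [if_pos]
      exact ⟨by linarith, by linarith⟩
    rw [Finset.sum_congr rfl h3, Finset.sum_const, nsmul_eq_mul, mul_one, card_spots h0]
    exact hEb
  rw [hex] at hl
  exact hr.trans hl

theorem W_iter (h0 : LocalFacts) (h2 : ExchangeStatement) {D : ℕ}
    (hD : ∀ E x y d, IsPolygon E → Spot E (x, y, d) →
      nU (bump E x y d) ≤ nU E + D ∧ nU E ≤ nU (bump E x y d) + D ∧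
        nSpot (bump E x y d) ≤ nSpot E + D ∧ nSpot E ≤ nSpot (bump E x y d) + D)
    (hC : BumpClass C) (n : ℕ) (a b α β : ℝ) (hα : 0 ≤ α) (hβ : 0 ≤ β) (k : ℕ)
    (hka : a + k * D ≤ α) (hkb : β ≤ b - k * D) :
    β ^ k * (W C n a b : ℝ) ≤ α ^ k * (W C (n + 2 * k) (a + k * D) (b - k * D) : ℝ) := by
  induction k with
  | zero => simp
  | succ k ih =>
    push_cast at hka hkb
    have hD0 : (0 : ℝ) ≤ D := Nat.cast_nonneg D
    have ih' := ih (by linarith) (by linarith)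
    have hs := W_step h0 h2 hD hC (n + 2 * k) (a + k * D) (b - k * D)
    have e1 : n + 2 * k + 2 = n + 2 * (k + 1) := by ring
    have e2 : a + k * D + D = a + ((k + 1 : ℕ) : ℝ) * D := by push_cast; ring
    have e3 : b - k * D - D = b - ((k + 1 : ℕ) : ℝ) * D := by push_cast; ring
    rw [e1, e3] at hs
    rw [e2] at hs
    have hW0 : (0 : ℝ) ≤ (W C (n + 2 * k) (a + k * D) (b - k * D) : ℝ) := Nat.cast_nonneg _
    have hW1 : (0 : ℝ) ≤ (W C (n + 2 * (k + 1)) (a + ((k + 1 : ℕ) : ℝ) * D)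
      (b - ((k + 1 : ℕ) : ℝ) * D) : ℝ) := Nat.cast_nonneg _
    calc β ^ (k + 1) * (W C n a b : ℝ) = β * (β ^ k * (W C n a b : ℝ)) := by ring
      _ ≤ β * (α ^ k * (W C (n + 2 * k) (a + k * D) (b - k * D) : ℝ)) :=
        mul_le_mul_of_nonneg_left ih' hβ
      _ = α ^ k * (β * (W C (n + 2 * k) (a + k * D) (b - k * D) : ℝ)) := by ring
      _ ≤ α ^ k * ((b - k * D) * (W C (n + 2 * k) (a + k * D) (b - k * D) : ℝ)) := by
        refine mul_le_mul_of_nonneg_left (mul_le_mul_of_nonneg_right ?_ hW0) (pow_nonneg hα k)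
        linarith
      _ ≤ α ^ k * ((a + ((k + 1 : ℕ) : ℝ) * D) * (W C (n + 2 * (k + 1))
          (a + ((k + 1 : ℕ) : ℝ) * D) (b - ((k + 1 : ℕ) : ℝ) * D) : ℝ)) :=
        mul_le_mul_of_nonneg_left hs (pow_nonneg hα k)
      _ ≤ α ^ k * (α * (W C (n + 2 * (k + 1))
          (a + ((k + 1 : ℕ) : ℝ) * D) (b - ((k + 1 : ℕ) : ℝ) * D) : ℝ)) := by
        refine mul_le_mul_of_nonneg_left (mul_le_mul_of_nonneg_right ?_ hW1) (pow_nonneg hα k)
        push_cast
        linarith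
      _ = _ := by ring

/-- The bound for polygons with few U-shapes and many spots. -/
theorem W_bound (h0 : LocalFacts) (h2 : ExchangeStatement) {D : ℕ}
    (hD : ∀ E x y d, IsPolygon E → Spot E (x, y, d) →
      nU (bump E x y d) ≤ nU E + D ∧ nU E ≤ nU (bump E x y d) + D ∧
        nSpot (bump E x y d) ≤ nSpot E + D ∧ nSpot E ≤ nSpot (bump E x y d) + D)
    (hC : BumpClass C) {ε ε0 : ℝ} (hε : 0 < ε) (h : ε * (1 + D) ≤ ε0 / 2)
    (n : ℕ) (hn : 0 < n) :
    (W C n (ε * n) (ε0 * n) : ℝ) ≤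
      (ε * (1 + D) / (ε0 / 2)) ^ ⌊ε * n⌋₊ * (count C (n + 2 * ⌊ε * n⌋₊) : ℝ) := by
  set k := ⌊ε * n⌋₊ with hk
  have hn' : (0 : ℝ) < n := by exact_mod_cast hn
  have hD0 : (0 : ℝ) ≤ D := Nat.cast_nonneg D
  have hε0 : 0 < ε0 / 2 := lt_of_lt_of_le (by positivity) h
  have hkε : (k : ℝ) ≤ ε * n := Nat.floor_le (by positivity)
  have hkD : (k : ℝ) * D ≤ ε * n * D := mul_le_mul_of_nonneg_right hkε hD0
  have h1 : (ε0 / 2 * n) ^ k * (W C n (ε * n) (ε0 * n) : ℝ) ≤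
      (ε * (1 + D) * n) ^ k * (W C (n + 2 * k) (ε * n + k * D) (ε0 * n - k * D) : ℝ) := by
    refine W_iter h0 h2 hD hC n _ _ _ _ (by positivity) (by positivity) k ?_ ?_
    · linarith
    · have : ε * n * D ≤ ε0 / 2 * n := by
        calc ε * n * D ≤ ε * n * D + ε * n := by linarith [mul_pos hε hn']
          _ = ε * (1 + D) * n := by ring
          _ ≤ ε0 / 2 * n := mul_le_mul_of_nonneg_right h hn'.le
      linarith
  have h3 : (W C (n + 2 * k) (ε * n + k * D) (ε0 * n - k * D) : ℝ) ≤ count C (n + 2 * k) := by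
    exact_mod_cast W_le_count hC _ _ _
  have h4 := h1.trans (mul_le_mul_of_nonneg_left h3 (by positivity))
  have h5 : ε * (1 + D) / (ε0 / 2) = (ε * (1 + D) * n) / (ε0 / 2 * n) := by
    rw [mul_div_mul_right _ _ hn'.ne']
  rw [h5, div_pow, div_mul_eq_mul_div, le_div_iff₀ (by positivity), mul_comm]
  exact h4

/-- The basic splitting. -/
theorem few_le (h0 : LocalFacts) (h2 : ExchangeStatement) {D : ℕ}
    (hD : ∀ E x y d, IsPolygon E → Spot E (x, y, d) →
      nU (bump E x y d) ≤ nU E + D ∧ nU E ≤ nU (bump E x y d) + D ∧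
        nSpot (bump E x y d) ≤ nSpot E + D ∧ nSpot E ≤ nSpot (bump E x y d) + D)
    {ε0 K : ℝ} (hR : ∀ n : ℕ,
      ((open Classical in ((U IsPolygon n).filter fun E => (nU E : ℝ) ≤ ε0 * n ∧
        (nSpot E : ℝ) ≤ ε0 * n).card : ℕ) : ℝ) ≤ K * (374 / 100 : ℝ) ^ n)
    (hC : BumpClass C) {ε : ℝ} (hε : 0 < ε) (h : ε * (1 + D) ≤ ε0 / 2) (n : ℕ) (hn : 0 < n) :
    (few C ε n : ℝ) ≤ K * (374 / 100 : ℝ) ^ n +
      (ε * (1 + D) / (ε0 / 2)) ^ ⌊ε * n⌋₊ * (count C (n + 2 * ⌊ε * n⌋₊) : ℝ) := by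
  classical
  have hn' : (0 : ℝ) < n := by exact_mod_cast hn
  have hD0 : (0 : ℝ) ≤ D := Nat.cast_nonneg D
  have hle : ε ≤ ε0 := by
    have : ε ≤ ε * (1 + D) := by
      have := mul_nonneg hε.le hD0
      linarith
    have h3 : 0 < ε0 / 2 := lt_of_lt_of_le (by positivity) h
    linarith
  have hsub : (U C n).filter (fun E => (nU E : ℝ) ≤ ε * n) ⊆
      ((U IsPolygon n).filter fun E => (nU E : ℝ) ≤ ε0 * n ∧ (nSpot E : ℝ) ≤ ε0 * n) ∪
      ((U C n).filter fun E => (nU E : ℝ) ≤ ε * n ∧ ε0 * n ≤ (nSpot E : ℝ)) := by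
    intro E hE
    obtain ⟨hE1, hE2⟩ := Finset.mem_filter.1 hE
    rw [Finset.mem_union]
    rcases le_total (nSpot E : ℝ) (ε0 * n) with hs | hs
    · left
      obtain ⟨g1, g2, g3⟩ := (mem_U' hC.poly).1 hE1
      refine Finset.mem_filter.2 ⟨(mem_U' (fun E h => h)).2 ⟨hC.poly E g1, g2, g3⟩, ?_, hs⟩
      exact hE2.trans (mul_le_mul_of_nonneg_right hle hn'.le)
    · right
      exact Finset.mem_filter.2 ⟨hE1, hE2, hs⟩
  have hcard := (Finset.card_le_card hsub).trans (Finset.card_union_le _ _)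
  have hcard' : (few C ε n : ℝ) ≤
      ((((U IsPolygon n).filter fun E => (nU E : ℝ) ≤ ε0 * n ∧
        (nSpot E : ℝ) ≤ ε0 * n).card : ℕ) : ℝ) + (W C n (ε * n) (ε0 * n) : ℝ) := by
    unfold few W
    exact_mod_cast hcard
  refine hcard'.trans (add_le_add ?_ (W_bound h0 h2 hD hC hε h n hn))
  exact hR n

/-! ### The analytic part -/

theorem growth_bounds {u : ℕ → ℝ} {g : ℝ} (hu : ∀ m, 0 ≤ u m)
    (hg : Tendsto (fun k : ℕ => (u k) ^ (((2 * k : ℕ) : ℝ)⁻¹)) atTop (𝓝 g)) {η : ℝ} (hη : 0 < η)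
    (hgη : 0 < g - η) :
    ∀ᶠ m : ℕ in atTop, (g - η) ^ (2 * m) ≤ u m ∧ u m ≤ (g + η) ^ (2 * m) := by
  have h1 : ∀ᶠ m : ℕ in atTop, g - η < (u m) ^ (((2 * m : ℕ) : ℝ)⁻¹) :=
    hg.eventually_const_lt (by linarith)
  have h2 : ∀ᶠ m : ℕ in atTop, (u m) ^ (((2 * m : ℕ) : ℝ)⁻¹) < g + η :=
    hg.eventually_lt_const (by linarith)
  filter_upwards [h1, h2, eventually_gt_atTop 0] with m hm1 hm2 hm0
  have hne : (2 * m : ℕ) ≠ 0 := by omega
  have hpow : ((u m) ^ (((2 * m : ℕ) : ℝ)⁻¹)) ^ (2 * m) = u m :=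
    Real.rpow_inv_natCast_pow (hu m) hne
  constructor
  · rw [← hpow]
    exact pow_le_pow_left₀ hgη.le hm1.le _
  · conv_lhs => rw [← hpow]
    exact pow_le_pow_left₀ (Real.rpow_nonneg (hu m) _) hm2.le _

theorem analysis {u F : ℕ → ℝ} {g K ε : ℝ} (hu : ∀ m, 0 ≤ u m)
    (hg : Tendsto (fun k : ℕ => (u k) ^ (((2 * k : ℕ) : ℝ)⁻¹)) atTop (𝓝 g))
    (hg4 : (15 / 4 : ℝ) ≤ g) (hε : 0 < ε)
    (hF : ∀ m : ℕ, 0 < m → F m ≤ K * (374 / 100 : ℝ) ^ (2 * m) +
      (Real.exp (-4) / (g + 1) ^ 2) ^ ⌊ε * (2 * m : ℕ)⌋₊ * u (m + ⌊ε * (2 * m : ℕ)⌋₊)) :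
    ∃ c : ℝ, 0 < c ∧ c < 1 ∧ ∀ᶠ m : ℕ in atTop, F m ≤ c ^ m * u m := by
  -- the choice of `η`
  have hexp : 1 < Real.exp ε := Real.one_lt_exp_iff.2 hε
  set η : ℝ := min (5 / 1000) (g * (Real.exp ε - 1) / (1 + Real.exp ε)) with hη
  have hη0 : 0 < η := by
    rw [hη, lt_min_iff]
    refine ⟨by norm_num, ?_⟩
    have : 0 < Real.exp ε - 1 := by linarith
    positivity
  have hη1 : η ≤ 5 / 1000 := min_le_left _ _
  have hη2 : g + η ≤ Real.exp ε * (g - η) := by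
    have h1 : η ≤ g * (Real.exp ε - 1) / (1 + Real.exp ε) := min_le_right _ _
    rw [le_div_iff₀ (by positivity)] at h1
    nlinarith
  have hgη : 0 < g - η := by linarith
  -- the ratios
  set r : ℝ := (374 / 100 / (3745 / 1000)) ^ 2 with hr
  set s : ℝ := Real.exp (-(6 * ε)) with hs
  have hr0 : 0 < r := by rw [hr]; positivity
  have hr1 : r < 1 := by rw [hr]; norm_num
  have hs0 : 0 < s := Real.exp_pos _
  have hs1 : s < 1 := by
    rw [hs, Real.exp_lt_one_iff]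
    linarith
  obtain ⟨c, hc1, hc2⟩ := exists_between (max_lt hr1 hs1)
  have hrc : r < c := lt_of_le_of_lt (le_max_left _ _) hc1
  have hsc : s < c := lt_of_le_of_lt (le_max_right _ _) hc1
  have hc0 : 0 < c := hr0.trans hrc
  refine ⟨c, hc0, hc2, ?_⟩
  -- the final comparison
  have hlim : Tendsto (fun m : ℕ => |K| * (r / c) ^ m + Real.exp 4 * (s / c) ^ m) atTop
      (𝓝 (|K| * 0 + Real.exp 4 * 0)) := by
    refine Tendsto.add (Tendsto.const_mul _ ?_) (Tendsto.const_mul _ ?_)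
    · exact tendsto_pow_atTop_nhds_zero_of_lt_one (by positivity) ((div_lt_one hc0).2 hrc)
    · exact tendsto_pow_atTop_nhds_zero_of_lt_one (by positivity) ((div_lt_one hc0).2 hsc)
  have hlim' : ∀ᶠ m : ℕ in atTop, |K| * (r / c) ^ m + Real.exp 4 * (s / c) ^ m < 1 :=
    hlim.eventually_lt_const (by norm_num)
  obtain ⟨m0, hm0⟩ := eventually_atTop.1 (growth_bounds hu hg hη0 hgη)
  filter_upwards [hlim', eventually_ge_atTop m0, eventually_gt_atTop 0] with m hm1 hm2 hm3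
  set k := ⌊ε * (2 * m : ℕ)⌋₊ with hk
  have hF' := hF m hm3
  obtain ⟨hlow, -⟩ := hm0 m hm2
  obtain ⟨-, hup⟩ := hm0 (m + k) (hm2.trans (Nat.le_add_right _ _))
  have hm3' : (0 : ℝ) < m := by exact_mod_cast hm3
  -- first term
  have t1 : K * (374 / 100 : ℝ) ^ (2 * m) ≤ |K| * r ^ m * u m := by
    have e1 : (374 / 100 : ℝ) ^ (2 * m) = r ^ m * (3745 / 1000 : ℝ) ^ (2 * m) := by
      rw [hr, ← pow_mul, ← mul_pow]
      norm_num
    have e2 : (3745 / 1000 : ℝ) ^ (2 * m) ≤ u m :=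
      (pow_le_pow_left₀ (by norm_num) (by linarith) _).trans hlow
    calc K * (374 / 100 : ℝ) ^ (2 * m) ≤ |K| * (374 / 100 : ℝ) ^ (2 * m) :=
          mul_le_mul_of_nonneg_right (le_abs_self K) (by positivity)
      _ = |K| * r ^ m * (3745 / 1000 : ℝ) ^ (2 * m) := by rw [e1]; ring
      _ ≤ |K| * r ^ m * u m := mul_le_mul_of_nonneg_left e2 (by positivity)
  -- second term
  have t2 : (Real.exp (-4) / (g + 1) ^ 2) ^ k * u (m + k) ≤ Real.exp 4 * s ^ m * u m := by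
    have hk1 : ε * (2 * m : ℕ) - 1 ≤ k := (Nat.sub_one_lt_floor _).le
    have hg0 : 0 < g := by linarith
    have e1 : (g + η) ^ 2 ≤ (g + 1) ^ 2 :=
      pow_le_pow_left₀ (by linarith) (by linarith) 2
    have e2 : (Real.exp (-4) / (g + 1) ^ 2) * (g + η) ^ 2 ≤ Real.exp (-4) := by
      rw [div_mul_eq_mul_div, div_le_iff₀ (by positivity)]
      exact mul_le_mul_of_nonneg_left e1 (Real.exp_pos _).le
    calc (Real.exp (-4) / (g + 1) ^ 2) ^ k * u (m + k)
        ≤ (Real.exp (-4) / (g + 1) ^ 2) ^ k * (g + η) ^ (2 * (m + k)) :=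
          mul_le_mul_of_nonneg_left hup (by positivity)
      _ = ((Real.exp (-4) / (g + 1) ^ 2) * (g + η) ^ 2) ^ k * (g + η) ^ (2 * m) := by
          rw [mul_pow, ← pow_mul, mul_add, pow_add]; ring
      _ ≤ (Real.exp (-4)) ^ k * (g + η) ^ (2 * m) :=
          mul_le_mul_of_nonneg_right (pow_le_pow_left₀ (by positivity) e2 k) (by positivity)
      _ ≤ (Real.exp (-4)) ^ k * (Real.exp ε * (g - η)) ^ (2 * m) :=
          mul_le_mul_of_nonneg_left (pow_le_pow_left₀ (by positivity) hη2 _) (by positivity)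
      _ = (Real.exp (-4)) ^ k * (Real.exp ε) ^ (2 * m) * (g - η) ^ (2 * m) := by
          rw [mul_pow]; ring
      _ ≤ (Real.exp (-4)) ^ k * (Real.exp ε) ^ (2 * m) * u m :=
          mul_le_mul_of_nonneg_left hlow (by positivity)
      _ ≤ Real.exp 4 * s ^ m * u m := by
          refine mul_le_mul_of_nonneg_right ?_ (hu m)
          rw [hs, ← Real.exp_nat_mul, ← Real.exp_nat_mul, ← Real.exp_nat_mul, ← Real.exp_add,
            ← Real.exp_add, Real.exp_le_exp]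
          push_cast at hk1 ⊢
          nlinarith
  calc F m ≤ |K| * r ^ m * u m + Real.exp 4 * s ^ m * u m := hF'.trans (add_le_add t1 t2)
    _ = (|K| * (r / c) ^ m + Real.exp 4 * (s / c) ^ m) * (c ^ m * u m) := by
        rw [div_pow, div_pow]
        field_simp
    _ ≤ 1 * (c ^ m * u m) :=
        mul_le_mul_of_nonneg_right hm1.le (mul_nonneg (by positivity) (hu m))
    _ = c ^ m * u m := one_mul _

end RFew

theorem fewStatement (h0 : LocalFacts) (h1 : DiffStatement) (h2 : ExchangeStatement)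
    (h3 : RigidStatement) : FewStatement := by
  intro C g hC hg hg4
  obtain ⟨D, hD⟩ := h1
  obtain ⟨ε0, K, hε0, hR⟩ := h3
  have hD0 : (0 : ℝ) ≤ D := Nat.cast_nonneg D
  have hg0 : 0 < g := by linarith
  set ε : ℝ := ε0 / 2 * (Real.exp (-4) / (g + 1) ^ 2) / (1 + D) with hε
  have hεpos : 0 < ε := by
    have : 0 < Real.exp (-4) := Real.exp_pos _
    positivity
  have hεD : ε * (1 + D) = ε0 / 2 * (Real.exp (-4) / (g + 1) ^ 2) := by
    rw [hε, div_mul_cancel₀]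
    positivity
  have hq : Real.exp (-4) / (g + 1) ^ 2 ≤ 1 := by
    rw [div_le_one (by positivity)]
    have h4 : Real.exp (-4) ≤ 1 := Real.exp_le_one_iff.2 (by norm_num)
    nlinarith
  have hle : ε * (1 + D) ≤ ε0 / 2 := by
    rw [hεD]
    exact mul_le_of_le_one_right (by positivity) hq
  have hratio : ε * (1 + D) / (ε0 / 2) = Real.exp (-4) / (g + 1) ^ 2 := by
    rw [hεD, mul_comm, mul_div_assoc, div_self (by positivity), mul_one]
  obtain ⟨c, hc0, hc1, hc⟩ := RFew.analysis (u := fun m => (count C (2 * m) : ℝ))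
    (F := fun m => (few C ε (2 * m) : ℝ)) (g := g) (K := K) (ε := ε)
    (fun m => Nat.cast_nonneg _) hg hg4 hεpos (fun m hm => by
      have := RFew.few_le h0 h2 hD hR hC hεpos hle (2 * m) (by omega)
      rw [hratio] at this
      have e : 2 * m + 2 * ⌊ε * ((2 * m : ℕ) : ℝ)⌋₊ = 2 * (m + ⌊ε * ((2 * m : ℕ) : ℝ)⌋₊) := by
        ring
      rw [e] at this
      exact this)
  exact ⟨ε, c, hεpos, hc0, hc1, hc⟩

end Pool.Agent.LK
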