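import Pool.Agent.MP_aea6d5_co.RDefs

/-! # The limit lemma for ratios -/

set_option autoImplicit false

open Filter Topology

namespace Pool.Agent.LK

theorem rll_up (u : ℕ → ℝ) (G A B η : ℝ) (K k m : ℕ) (hk : 0 < k) (hKk : K ≤ k)
    (hu : ∀ k, K ≤ k → 0 < u k)
    (hstep : ∀ k, K ≤ k → u (k + 1) / u k - A / k ≤ u (k + 2) / u (k + 1))
    (hA : 0 ≤ A) (hη : (m : ℝ) ≤ η * k) (hGB : 0 < G) (hr : B ≤ u (k + 1) / u k)
    (hB : G ≤ B - A * η) : m * Real.log G ≤ Real.log (u (k + m)) - Real.log (u k) := by
  have hkR : (0 : ℝ) < k := by exact_mod_cast hk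
  have h1 : ∀ j : ℕ, B - A * j / k ≤ u (k + j + 1) / u (k + j) := by
    intro j
    induction j with
    | zero => simpa using hr
    | succ j ih =>
      have h2 := hstep (k + j) (by omega)
      have h3 : A / ((k + j : ℕ) : ℝ) ≤ A / k := by
        apply div_le_div_of_nonneg_left hA hkR
        push_cast
        linarith [(Nat.cast_nonneg j : (0 : ℝ) ≤ j)]
      have h4 : A * ((j + 1 : ℕ) : ℝ) / k = A * j / k + A / k := by
        push_cast; ring
      rw [h4]
      have h5 : u (k + (j + 1) + 1) / u (k + (j + 1)) = u (k + j + 2) / u (k + j + 1) := by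
        congr 2
      rw [h5]
      linarith
  have h2 : ∀ j : ℕ, j ≤ m → (j : ℝ) * Real.log G ≤ Real.log (u (k + j)) - Real.log (u k) := by
    intro j
    induction j with
    | zero => intro _; simp
    | succ j ih =>
      intro hj
      have h3 := ih (by omega)
      have h4 := h1 j
      have h5 : A * j / k ≤ A * η := by
        rw [mul_div_assoc]
        apply mul_le_mul_of_nonneg_left _ hA
        rw [div_le_iff₀ hkR]
        have : (j : ℝ) ≤ m := by exact_mod_cast (by omega : j ≤ m)
        linarith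
      have h6 : G ≤ u (k + j + 1) / u (k + j) := by linarith
      have h7 : Real.log G ≤ Real.log (u (k + j + 1)) - Real.log (u (k + j)) := by
        rw [← Real.log_div (hu _ (by omega)).ne' (hu _ (by omega)).ne']
        exact Real.log_le_log hGB h6
      have h8 : u (k + (j + 1)) = u (k + j + 1) := by congr 1
      rw [h8]
      push_cast
      linarith
  exact h2 m le_rfl

theorem rll_down (u : ℕ → ℝ) (G A B η : ℝ) (K k m : ℕ) (hk : 0 < k)
    (hu : ∀ k, K ≤ k → 0 < u k)
    (hstep : ∀ k, K ≤ k → u (k + 1) / u k - A / k ≤ u (k + 2) / u (k + 1))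
    (hA : 0 ≤ A) (hη : (m : ℝ) ≤ η * (k + m)) (hKk : K + m ≤ k) (hmk : m ≤ k)
    (hr : u (k + m + 1) / u (k + m) ≤ B)
    (hB : B + 2 * A * η ≤ G) : Real.log (u (k + m)) - Real.log (u k) ≤ m * Real.log G := by
  have hkR : (0 : ℝ) < k := by exact_mod_cast hk
  have h1 : ∀ j : ℕ, j ≤ m → u (k + m - j + 1) / u (k + m - j) ≤ B + A * j / k := by
    intro j
    induction j with
    | zero => intro _; simpa using hr
    | succ j ih =>
      intro hj
      have h0 := ih (by omega)
      have h2 := hstep (k + m - (j + 1)) (by omega)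
      have h3 : A / ((k + m - (j + 1) : ℕ) : ℝ) ≤ A / k := by
        apply div_le_div_of_nonneg_left hA hkR
        exact_mod_cast (by omega : k ≤ k + m - (j + 1))
      have h4 : A * ((j + 1 : ℕ) : ℝ) / k = A * j / k + A / k := by
        push_cast; ring
      rw [h4]
      have e1 : k + m - (j + 1) + 1 = k + m - j := by omega
      have e2 : k + m - (j + 1) + 2 = k + m - j + 1 := by omega
      rw [e1, e2] at h2
      rw [e1]
      linarith
  have hkm : (k : ℝ) + m ≤ 2 * k := by
    have : (m : ℝ) ≤ k := by exact_mod_cast hmk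
    linarith
  have hη0 : (0 : ℝ) ≤ η := by
    by_contra hcon
    push Not at hcon
    have h2 : η * (k + m) < 0 := mul_neg_of_neg_of_pos hcon (by positivity)
    have h3 : (0 : ℝ) ≤ m := Nat.cast_nonneg m
    linarith
  have h2 : ∀ j : ℕ, j ≤ m →
      Real.log (u (k + m)) - Real.log (u (k + m - j)) ≤ (j : ℝ) * Real.log G := by
    intro j
    induction j with
    | zero => intro _; simp
    | succ j ih =>
      intro hj
      have h3 := ih (by omega)
      have h4 := h1 (j + 1) hj
      have h5 : A * ((j + 1 : ℕ) : ℝ) / k ≤ 2 * A * η := by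
        rw [div_le_iff₀ hkR]
        have h6 : ((j + 1 : ℕ) : ℝ) ≤ m := by exact_mod_cast hj
        have h7 : ((j + 1 : ℕ) : ℝ) ≤ η * (2 * k) :=
          h6.trans (hη.trans (mul_le_mul_of_nonneg_left hkm hη0))
        calc A * ((j + 1 : ℕ) : ℝ) ≤ A * (η * (2 * k)) := mul_le_mul_of_nonneg_left h7 hA
          _ = 2 * A * η * k := by ring
      have e1 : k + m - (j + 1) + 1 = k + m - j := by omega
      rw [e1] at h4
      have h6 : u (k + m - j) / u (k + m - (j + 1)) ≤ G := by linarith
      have p1 := hu (k + m - j) (by omega)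
      have p2 := hu (k + m - (j + 1)) (by omega)
      have h7 : Real.log (u (k + m - j)) - Real.log (u (k + m - (j + 1))) ≤ Real.log G := by
        rw [← Real.log_div p1.ne' p2.ne']
        exact Real.log_le_log (div_pos p1 p2) h6
      push_cast
      linarith
  have := h2 m le_rfl
  rwa [Nat.add_sub_cancel] at this

theorem limitLemma : LimitLemma := by
  intro u g A hg hpos hlim hstep
  -- replace `A` by its absolute value
  set A' := |A| with hA'
  have hA'0 : 0 ≤ A' := abs_nonneg A
  have hG : 0 < g ^ 2 := by positivity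
  set L := Real.log (g ^ 2) with hL
  obtain ⟨K1, hK1⟩ := eventually_atTop.mp hpos
  obtain ⟨K2, hK2⟩ := eventually_atTop.mp hstep
  obtain ⟨K0, hK01, hK02, hK03⟩ : ∃ K0, K1 ≤ K0 ∧ K2 ≤ K0 ∧ 1 ≤ K0 :=
    ⟨max (max K1 K2) 1, by omega, by omega, by omega⟩
  have hu : ∀ k, K0 ≤ k → 0 < u k := fun k hk => hK1 k (by omega)
  have hst : ∀ k, K0 ≤ k → u (k + 1) / u k - A' / k ≤ u (k + 2) / u (k + 1) := by
    intro k hk
    have h := hK2 k (by omega)
    have : A / (k : ℝ) ≤ A' / k := div_le_div_of_nonneg_right (le_abs_self A) (Nat.cast_nonneg k)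
    linarith
  -- the logarithms
  have hlog : ∀ ε : ℝ, 0 < ε → ∀ᶠ k : ℕ in atTop, |Real.log (u k) - k * L| ≤ ε * k := by
    intro ε hε
    have hg0 : (0 : ℝ) < g := by linarith
    have h1 : Tendsto (fun k : ℕ => Real.log ((u k) ^ ((2 * (k : ℝ))⁻¹))) atTop
        (𝓝 (Real.log g)) := (Real.continuousAt_log hg0.ne').tendsto.comp hlim
    have h2 := (Metric.tendsto_atTop.mp h1) (ε / 2) (by positivity)
    obtain ⟨N, hN⟩ := h2
    filter_upwards [eventually_ge_atTop (max N K0)] with k hk
    have hk0 : K0 ≤ k := by omega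
    have hkR : (0 : ℝ) < k := by exact_mod_cast (by omega : 0 < k)
    have h3 := hN k (by omega)
    rw [Real.dist_eq, Real.log_rpow (hu k hk0)] at h3
    have h4 : Real.log (u k) - k * L = 2 * k * ((2 * (k : ℝ))⁻¹ * Real.log (u k) - Real.log g) := by
      rw [hL, Real.log_pow]
      field_simp
      push_cast
      ring
    rw [h4, abs_mul, abs_of_pos (by positivity : (0 : ℝ) < 2 * k)]
    nlinarith
  rw [Metric.tendsto_atTop]
  intro δ hδ
  -- upper bound
  have hup : ∀ᶠ k : ℕ in atTop, u (k + 1) / u k < g ^ 2 + δ := by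
    set c := Real.log (g ^ 2 + δ / 2) - L with hc
    have hc0 : 0 < c := by
      rw [hc, hL]
      have := Real.log_lt_log hG (by linarith : g ^ 2 < g ^ 2 + δ / 2)
      linarith
    set η := min (δ / (2 * (A' + 1))) 1 with hη
    have hη0 : 0 < η := lt_min (by positivity) one_pos
    have hη1 : η ≤ 1 := min_le_right _ _
    have hηA : A' * η ≤ δ / 2 := by
      have h1 : η ≤ δ / (2 * (A' + 1)) := min_le_left _ _
      have h2 : A' * η ≤ A' * (δ / (2 * (A' + 1))) := mul_le_mul_of_nonneg_left h1 hA'0
      have h3 : A' * (δ / (2 * (A' + 1))) ≤ δ / 2 := by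
        rw [mul_div_assoc', div_le_div_iff₀ (by positivity) (by norm_num)]
        nlinarith
      linarith
    obtain ⟨N, hN⟩ := eventually_atTop.mp (hlog (c * η / 6) (by positivity))
    filter_upwards [eventually_ge_atTop (max N K0), eventually_gt_atTop ⌈2 / η⌉₊] with k hk hk2
    by_contra hcon
    push Not at hcon
    have hk0 : 0 < k := by omega
    have hkR : (0 : ℝ) < k := by exact_mod_cast hk0
    set m := ⌊η * k⌋₊ with hm
    have hmle : (m : ℝ) ≤ η * k := Nat.floor_le (by positivity)
    have hmge : η * k - 1 < m := Nat.sub_one_lt_floor _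
    have h1 := rll_up u (g ^ 2 + δ / 2) A' (g ^ 2 + δ) η K0 k m hk0 (by omega) hu hst hA'0 hmle
      (by positivity) hcon (by linarith)
    have h2 := abs_le.mp (hN (k + m) (by omega))
    have h3 := abs_le.mp (hN k (by omega))
    push_cast at h2
    have hmk : (m : ℝ) ≤ k := by nlinarith
    have h4 : (m : ℝ) * c ≤ c * η / 6 * (3 * k) := by
      have h5 : (m : ℝ) * (L + c) ≤ Real.log (u (k + m)) - Real.log (u k) := by
        have : L + c = Real.log (g ^ 2 + δ / 2) := by rw [hc]; ring
        rw [this]; exact h1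
      have h6 : Real.log (u (k + m)) - Real.log (u k) ≤
          m * L + c * η / 6 * (k + m) + c * η / 6 * k := by linarith [h2.2, h3.1]
      have h7 : c * η / 6 * (k + m) ≤ c * η / 6 * (2 * k) :=
        mul_le_mul_of_nonneg_left (by linarith) (by positivity)
      linarith
    have h5 : 2 / η < k := (Nat.le_ceil _).trans_lt (by exact_mod_cast hk2)
    rw [div_lt_iff₀ hη0] at h5
    nlinarith
  -- lower bound
  have hdown : ∀ᶠ k : ℕ in atTop, g ^ 2 - δ < u (k + 1) / u k := by
    by_cases hGδ : g ^ 2 - δ / 2 ≤ 0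
    · filter_upwards [eventually_ge_atTop K0] with k hk
      have := div_pos (hu (k + 1) (by omega)) (hu k hk)
      linarith
    push Not at hGδ
    set c := L - Real.log (g ^ 2 - δ / 2) with hc
    have hc0 : 0 < c := by
      rw [hc, hL]
      have := Real.log_lt_log hGδ (by linarith : g ^ 2 - δ / 2 < g ^ 2)
      linarith
    set η := min (δ / (4 * (A' + 1))) (1 / 4) with hη
    have hη0 : 0 < η := lt_min (by positivity) (by norm_num)
    have hη1 : η ≤ 1 / 4 := min_le_right _ _
    have hηA : 2 * A' * η ≤ δ / 2 := by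
      have h1 : η ≤ δ / (4 * (A' + 1)) := min_le_left _ _
      have h2 : 2 * A' * η ≤ 2 * A' * (δ / (4 * (A' + 1))) :=
        mul_le_mul_of_nonneg_left h1 (by positivity)
      have h3 : 2 * A' * (δ / (4 * (A' + 1))) ≤ δ / 2 := by
        rw [mul_div_assoc', div_le_div_iff₀ (by positivity) (by norm_num)]
        nlinarith
      linarith
    obtain ⟨N, hN⟩ := eventually_atTop.mp (hlog (c * η / 6) (by positivity))
    filter_upwards [eventually_ge_atTop (2 * (max N K0) + 2), eventually_gt_atTop ⌈2 / η⌉₊]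
      with l hl hl2
    by_contra hcon
    push Not at hcon
    have hlR : (0 : ℝ) < l := by exact_mod_cast (by omega : 0 < l)
    set m := ⌊η * l⌋₊ with hm
    have hmle : (m : ℝ) ≤ η * l := Nat.floor_le (by positivity)
    have hmge : η * l - 1 < m := Nat.sub_one_lt_floor _
    have hm4 : 4 * m ≤ l := by
      have : (4 : ℝ) * m ≤ l := by nlinarith
      exact_mod_cast this
    obtain ⟨k, hk⟩ : ∃ k, l = k + m := ⟨l - m, by omega⟩
    have hKk : K0 + m ≤ k := by omega
    have h1 := rll_down u (g ^ 2 - δ / 2) A' (g ^ 2 - δ) η K0 k m (by omega) hu hst hA'0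
      (by rw [hk] at hmle; push_cast at hmle; exact hmle) hKk (by omega)
      (by rw [← hk]; exact hcon) (by linarith)
    have h2 := abs_le.mp (hN (k + m) (by omega))
    have h3 := abs_le.mp (hN k (by omega))
    have hlk : (l : ℝ) = k + m := by rw [hk]; push_cast; ring
    have hm0 : (0 : ℝ) ≤ m := Nat.cast_nonneg m
    push_cast at h2
    have h4 : (m : ℝ) * c ≤ c * η / 6 * (2 * l) := by
      have h5 : Real.log (u (k + m)) - Real.log (u k) ≤ m * (L - c) := by
        have : L - c = Real.log (g ^ 2 - δ / 2) := by rw [hc]; ring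
        rw [this]; exact h1
      have h6 : m * L - c * η / 6 * (k + m) - c * η / 6 * k ≤
          Real.log (u (k + m)) - Real.log (u k) := by linarith [h2.1, h3.2]
      have h7 : c * η / 6 * (k + m) + c * η / 6 * k ≤ c * η / 6 * (2 * l) := by
        rw [← mul_add]
        exact mul_le_mul_of_nonneg_left (by linarith) (by positivity)
      linarith
    have h5 : 2 / η < l := (Nat.le_ceil _).trans_lt (by exact_mod_cast hl2)
    rw [div_lt_iff₀ hη0] at h5
    nlinarith
  obtain ⟨N1, hN1⟩ := eventually_atTop.mp hup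
  obtain ⟨N2, hN2⟩ := eventually_atTop.mp hdown
  refine ⟨max N1 N2, fun k hk => ?_⟩
  rw [Real.dist_eq, abs_lt]
  constructor
  · linarith [hN2 k (by omega)]
  · linarith [hN1 k (by omega)]

end Pool.Agent.LK
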