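import Pool.Agent.MP_aea6d5_co.RDefs

/-! # (R0) Local facts about bumps and inverse bumps -/

set_option autoImplicit false

open Filter Topology

namespace Pool.Agent.LK

theorem mem_unbump {E : Finset (Sym2 P3)} {x y d : P3} {f : Sym2 P3} :
    f ∈ unbump E x y d ↔ (f ∈ E ∧ f ≠ s(x, x + d) ∧ f ≠ s(x + d, y + d) ∧ f ≠ s(y + d, y)) ∨
      f = s(x, y) := by
  simp only [unbump, Finset.mem_union, Finset.mem_sdiff, Finset.mem_singleton, Finset.mem_insert,
    not_or]

/-- the six unit vectors -/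
def units3 : Finset P3 :=
  {(1, 0, 0), (-1, 0, 0), (0, 1, 0), (0, -1, 0), (0, 0, 1), (0, 0, -1)}

theorem isUnit3_iff_mem {d : P3} : IsUnit3 d ↔ d ∈ units3 := by
  rw [isUnit3_iff]
  simp only [units3, Finset.mem_insert, Finset.mem_singleton]

theorem card_units3 : units3.card ≤ 6 := Finset.card_le_six

open Classical in
/-- oriented edges -/
noncomputable def orEdges (E : Finset (Sym2 P3)) : Finset (P3 × P3) :=
  ((verts_finite E).toFinset ×ˢ (verts_finite E).toFinset).filter fun p => s(p.1, p.2) ∈ E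

theorem mem_orEdges {E : Finset (Sym2 P3)} {p : P3 × P3} : p ∈ orEdges E ↔ s(p.1, p.2) ∈ E := by
  classical
  unfold orEdges
  rw [Finset.mem_filter, Finset.mem_product, Set.Finite.mem_toFinset, Set.Finite.mem_toFinset]
  constructor
  · exact fun h => h.2
  · exact fun h => ⟨⟨mem_verts_left h, mem_verts_right h⟩, h⟩

theorem card_orEdges (E : Finset (Sym2 P3)) : (orEdges E).card ≤ 2 * E.card := by
  classical
  refine Finset.card_le_mul_card_image_of_maps_to (f := fun p : P3 × P3 => s(p.1, p.2)) ?_ 2 ?_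
  · intro p hp
    exact mem_orEdges.1 hp
  · intro e _
    induction e using Sym2.ind with
    | _ a b =>
      refine le_trans (Finset.card_le_card (t := {(a, b), (b, a)}) ?_) Finset.card_le_two
      intro p hp
      rw [Finset.mem_filter] at hp
      rcases Sym2.eq_iff.1 hp.2 with ⟨h1, h2⟩ | ⟨h1, h2⟩
      · rw [Finset.mem_insert]; left; exact Prod.ext h1 h2
      · rw [Finset.mem_insert, Finset.mem_singleton]; right; exact Prod.ext h1 h2

theorem ushape_subset (E : Finset (Sym2 P3)) :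
    {q | UShape E q} ⊆ (fun r : (P3 × P3) × P3 => (r.1.1 - r.2, r.1.2 - r.2, r.2)) ''
      (↑(orEdges E ×ˢ units3) : Set ((P3 × P3) × P3)) := by
  rintro ⟨x, y, d⟩ ⟨-, h2, -, h4, -⟩
  refine ⟨((x + d, y + d), d), ?_, ?_⟩
  · rw [Finset.mem_coe, Finset.mem_product, mem_orEdges]
    exact ⟨h4, isUnit3_iff_mem.1 h2⟩
  · simp

theorem spot_subset (E : Finset (Sym2 P3)) :
    {q | Spot E q} ⊆ (fun r : (P3 × P3) × P3 => (r.1.1, r.1.2, r.2)) ''
      (↑(orEdges E ×ˢ units3) : Set ((P3 × P3) × P3)) := by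
  rintro ⟨x, y, d⟩ ⟨h1, h2, -, -⟩
  refine ⟨((x, y), d), ?_, ?_⟩
  · rw [Finset.mem_coe, Finset.mem_product, mem_orEdges]
    exact ⟨h1, isUnit3_iff_mem.1 h2⟩
  · simp

theorem card_oe (E : Finset (Sym2 P3)) : (orEdges E ×ˢ units3).card ≤ 12 * E.card := by
  rw [Finset.card_product]
  have h1 := card_orEdges E
  have h2 := card_units3
  calc (orEdges E).card * units3.card ≤ (2 * E.card) * 6 := Nat.mul_le_mul h1 h2
    _ = 12 * E.card := by ring

theorem spots_finite (E : Finset (Sym2 P3)) : {q | Spot E q}.Finite :=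
  Set.Finite.subset ((Finset.finite_toSet _).image _) (spot_subset E)

theorem ushape_finite (E : Finset (Sym2 P3)) : {q | UShape E q}.Finite :=
  Set.Finite.subset ((Finset.finite_toSet _).image _) (ushape_subset E)

theorem nU_le (E : Finset (Sym2 P3)) : nU E ≤ 12 * E.card := by
  refine le_trans (Set.ncard_le_ncard (ushape_subset E) ((Finset.finite_toSet _).image _)) ?_
  refine le_trans (Set.ncard_image_le (Finset.finite_toSet _)) ?_
  rw [Set.ncard_coe_finset]
  exact card_oe E

theorem nSpot_le (E : Finset (Sym2 P3)) : nSpot E ≤ 12 * E.card := by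
  refine le_trans (Set.ncard_le_ncard (spot_subset E) ((Finset.finite_toSet _).image _)) ?_
  refine le_trans (Set.ncard_image_le (Finset.finite_toSet _)) ?_
  rw [Set.ncard_coe_finset]
  exact card_oe E

/-- translation of a triple -/
def shq (t : P3) (q : P3 × P3 × P3) : P3 × P3 × P3 := (q.1 + t, q.2.1 + t, q.2.2)

theorem shq_injective (t : P3) : Function.Injective (shq t) := by
  rintro ⟨x, y, d⟩ ⟨x', y', d'⟩ h
  simp only [shq, Prod.mk.injEq, add_left_inj] at h
  obtain ⟨h1, h2, h3⟩ := h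
  rw [h1, h2, h3]

theorem ushape_shift {t : P3} {E : Finset (Sym2 P3)} {q : P3 × P3 × P3} :
    UShape (shift t E) (shq t q) ↔ UShape E q := by
  obtain ⟨x, y, d⟩ := q
  have e1 : x + t + d - t = x + d := by abel
  have e2 : y + t + d - t = y + d := by abel
  unfold UShape shq
  simp only [mem_shift, add_sub_cancel_right, e1, e2]

theorem spot_shift {t : P3} {E : Finset (Sym2 P3)} {q : P3 × P3 × P3} :
    Spot (shift t E) (shq t q) ↔ Spot E q := by
  obtain ⟨x, y, d⟩ := q
  have e1 : x + t + d - t = x + d := by abel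
  have e2 : y + t + d - t = y + d := by abel
  unfold Spot shq
  simp only [mem_shift, mem_verts_shift, add_sub_cancel_right, e1, e2]

theorem shq_neg (t : P3) (q : P3 × P3 × P3) : shq t (shq (-t) q) = q := by
  obtain ⟨x, y, d⟩ := q
  simp [shq]

theorem nU_shift (t : P3) (E : Finset (Sym2 P3)) : nU (shift t E) = nU E := by
  unfold nU
  rw [← Set.ncard_image_of_injective {q | UShape E q} (shq_injective t)]
  congr 1
  ext q
  constructor
  · intro hq
    refine ⟨shq (-t) q, ?_, shq_neg t q⟩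
    rw [Set.mem_ofPred_eq, ← ushape_shift (t := t), shq_neg]
    exact hq
  · rintro ⟨q', hq', rfl⟩
    exact ushape_shift.2 hq'

theorem nSpot_shift (t : P3) (E : Finset (Sym2 P3)) : nSpot (shift t E) = nSpot E := by
  unfold nSpot
  rw [← Set.ncard_image_of_injective {q | Spot E q} (shq_injective t)]
  congr 1
  ext q
  constructor
  · intro hq
    refine ⟨shq (-t) q, ?_, shq_neg t q⟩
    rw [Set.mem_ofPred_eq, ← spot_shift (t := t), shq_neg]
    exact hq
  · rintro ⟨q', hq', rfl⟩
    exact spot_shift.2 hq'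

section undetour

variable {E : Finset (Sym2 P3)} {a c e b : P3}

/-- a path `a c e b` of length three in a polygon, the edge `ab` is not there -/
structure Detour (E : Finset (Sym2 P3)) (a c e b : P3) : Prop where
  poly : IsPolygon E
  h1 : s(a, c) ∈ E
  h2 : s(c, e) ∈ E
  h3 : s(e, b) ∈ E
  hn : s(a, b) ∉ E
  adj : Adj a b

namespace Detour

/-- the polygon with the path replaced by the edge -/
def J (E : Finset (Sym2 P3)) (a c e b : P3) : Finset (Sym2 P3) :=
  (E \ {s(a, c), s(c, e), s(e, b)}) ∪ {s(a, b)}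

theorem mem_J {f : Sym2 P3} : f ∈ J E a c e b ↔
    (f ∈ E ∧ f ≠ s(a, c) ∧ f ≠ s(c, e) ∧ f ≠ s(e, b)) ∨ f = s(a, b) := by
  simp only [J, Finset.mem_union, Finset.mem_sdiff, Finset.mem_singleton, Finset.mem_insert, not_or]

theorem symm (h : Detour E a c e b) : Detour E b e c a :=
  ⟨h.poly, by rw [Sym2.eq_swap]; exact h.h3, by rw [Sym2.eq_swap]; exact h.h2,
    by rw [Sym2.eq_swap]; exact h.h1, by rw [Sym2.eq_swap]; exact h.hn, h.adj.symm⟩

theorem J_symm : J E b e c a = J E a c e b := by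
  ext f
  rw [mem_J, mem_J, Sym2.eq_swap (a := b) (b := e), Sym2.eq_swap (a := e) (b := c),
    Sym2.eq_swap (a := c) (b := a), Sym2.eq_swap (a := b) (b := a)]
  tauto

theorem ab (h : Detour E a c e b) : a ≠ b := h.adj.ne
theorem ac (h : Detour E a c e b) : a ≠ c := (h.poly.adj _ _ h.h1).ne
theorem ce (h : Detour E a c e b) : c ≠ e := (h.poly.adj _ _ h.h2).ne
theorem eb (h : Detour E a c e b) : e ≠ b := (h.poly.adj _ _ h.h3).ne
theorem cb (h : Detour E a c e b) : c ≠ b := by
  rintro rfl; exact h.hn h.h1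
theorem ae (h : Detour E a c e b) : a ≠ e := by
  rintro rfl; exact h.hn h.h3

theorem nbr_c (h : Detour E a c e b) {w : P3} (hw : s(c, w) ∈ E) : w = a ∨ w = e :=
  nbr_eq' h.poly (by rw [Sym2.eq_swap]; exact h.h1) h.h2 h.ae hw

theorem notMem_c (h : Detour E a c e b) : c ∉ verts (J E a c e b) := by
  rintro ⟨w, hw⟩
  rw [mem_J] at hw
  rcases hw with ⟨h1, h2, h3, -⟩ | hw
  · rcases h.nbr_c h1 with rfl | rfl
    · exact h2 Sym2.eq_swap
    · exact h3 rfl
  · rcases Sym2.eq_iff.1 hw with ⟨h1, -⟩ | ⟨h1, -⟩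
    · exact h.ac h1.symm
    · exact h.cb h1

theorem notMem_e (h : Detour E a c e b) : e ∉ verts (J E a c e b) := by
  have := h.symm.notMem_c
  rwa [J_symm] at this

theorem verts_sub (h : Detour E a c e b) {u : P3} (hu : u ∈ verts (J E a c e b)) :
    u ∈ verts E := by
  obtain ⟨w, hw⟩ := hu
  rw [mem_J] at hw
  rcases hw with ⟨h1, -⟩ | hw
  · exact mem_verts_left h1
  · rcases Sym2.eq_iff.1 hw with ⟨h1, -⟩ | ⟨h1, -⟩
    · rw [h1]; exact mem_verts_left h.h1
    · rw [h1]; exact mem_verts_right h.h3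

theorem deg_a (h : Detour E a c e b) : {w | s(a, w) ∈ J E a c e b}.ncard = 2 := by
  have h1 : {w | s(a, w) ∈ J E a c e b} = insert b ({w | s(a, w) ∈ E} \ {c}) := by
    ext w
    simp only [Set.mem_ofPred_eq, Set.mem_insert_iff, Set.mem_sdiff, Set.mem_singleton_iff, mem_J]
    constructor
    · rintro (⟨h1, h2, -, -⟩ | h1)
      · exact Or.inr ⟨h1, fun hw => h2 (by rw [hw])⟩
      · rcases Sym2.eq_iff.1 h1 with ⟨-, h3⟩ | ⟨h3, -⟩
        · exact Or.inl h3
        · exact absurd h3 h.ab
    · rintro (rfl | ⟨h1, h2⟩)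
      · exact Or.inr rfl
      · refine Or.inl ⟨h1, ?_, ?_, ?_⟩
        · intro he
          rcases Sym2.eq_iff.1 he with ⟨-, h3⟩ | ⟨h3, -⟩
          · exact h2 h3
          · exact h.ac h3
        · intro he
          rcases Sym2.eq_iff.1 he with ⟨h3, -⟩ | ⟨h3, -⟩
          · exact h.ac h3
          · exact h.ae h3
        · intro he
          rcases Sym2.eq_iff.1 he with ⟨h3, -⟩ | ⟨h3, -⟩
          · exact h.ae h3
          · exact h.ab h3
  have hfin : ({w | s(a, w) ∈ E} \ {c}).Finite := (nbr_finite E a).subset fun w hw => hw.1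
  have hnm : b ∉ {w | s(a, w) ∈ E} \ {c} := fun hmem => h.hn hmem.1
  have hbm : c ∈ {w | s(a, w) ∈ E} := h.h1
  rw [h1, Set.ncard_insert_of_notMem hnm hfin, Set.ncard_sdiff_singleton_of_mem hbm,
    h.poly.deg a (mem_verts_left h.h1)]

theorem deg (h : Detour E a c e b) {u : P3} (hu : u ∈ verts (J E a c e b)) :
    {w | s(u, w) ∈ J E a c e b}.ncard = 2 := by
  have huc : u ≠ c := fun hh => h.notMem_c (hh ▸ hu)
  have hue : u ≠ e := fun hh => h.notMem_e (hh ▸ hu)
  by_cases hua : u = a
  · subst hua; exact h.deg_a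
  · by_cases hub : u = b
    · subst hub
      have := h.symm.deg_a
      rwa [J_symm] at this
    · have h1 : {w | s(u, w) ∈ J E a c e b} = {w | s(u, w) ∈ E} := by
        ext w
        simp only [Set.mem_ofPred_eq, mem_J]
        constructor
        · rintro (⟨h1, -⟩ | h1)
          · exact h1
          · rcases Sym2.eq_iff.1 h1 with ⟨h3, -⟩ | ⟨h3, -⟩
            · exact absurd h3 hua
            · exact absurd h3 hub
        · intro h1
          refine Or.inl ⟨h1, ?_, ?_, ?_⟩ <;> intro he <;>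
            rcases Sym2.eq_iff.1 he with ⟨h3, -⟩ | ⟨h3, -⟩
          · exact hua h3
          · exact huc h3
          · exact huc h3
          · exact hue h3
          · exact hue h3
          · exact hub h3
      rw [h1]
      exact h.poly.deg u (h.verts_sub hu)

theorem isPolygon (h : Detour E a c e b) : IsPolygon (J E a c e b) := by
  refine ⟨⟨s(a, b), mem_J.2 (Or.inr rfl)⟩, ?_, fun u hu => h.deg hu, ?_⟩
  · intro u v huv
    rcases mem_J.1 huv with h1 | h1
    · exact h.poly.adj u v h1.1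
    · rcases Sym2.eq_iff.1 h1 with ⟨rfl, rfl⟩ | ⟨rfl, rfl⟩
      · exact h.adj
      · exact h.adj.symm
  · obtain ⟨n, g, hc, h0, h1⟩ := exists_cyc h.poly h.h2
    have h3 := hc.three
    have hedge : ∀ i, 2 ≤ i → i + 1 < n → s(g i, g (i + 1)) ∈ J E a c e b := by
      intro i hi hin
      rw [mem_J]
      have hne : ∀ j, 2 ≤ j → j < n → g j ≠ c ∧ g j ≠ e := by
        intro j hj hjn
        refine ⟨?_, ?_⟩
        · rw [← h0]; intro hh
          have := hc.inj j hjn 0 (by omega) hh
          omega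
        · rw [← h1]; intro hh
          have := hc.inj j hjn 1 (by omega) hh
          omega
      obtain ⟨n1, n2⟩ := hne i hi (by omega)
      obtain ⟨n3, n4⟩ := hne (i + 1) (by omega) hin
      refine Or.inl ⟨hc.mem_edge (by omega), ?_, ?_, ?_⟩ <;> intro he <;>
        rcases Sym2.eq_iff.1 he with ⟨h5, h6⟩ | ⟨h5, h6⟩
      · exact n3 h6
      · exact n1 h5
      · exact n1 h5
      · exact n2 h5
      · exact n2 h5
      · exact n4 h6
    have hsymm : ∀ p q, s(p, q) ∈ J E a c e b → s(q, p) ∈ J E a c e b :=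
      fun p q hpq => by rwa [Sym2.eq_swap]
    have hstep : ∀ i, 2 ≤ i → i < n →
        Relation.ReflTransGen (fun p q => s(p, q) ∈ J E a c e b) (g 2) (g i) := by
      intro i hi
      induction i, hi using Nat.le_induction with
      | base => intro _; exact Relation.ReflTransGen.refl
      | succ i hi ih =>
        intro hlt
        exact (ih (by omega)).tail (hedge i hi hlt)
    have hall : ∀ u ∈ verts (J E a c e b),
        Relation.ReflTransGen (fun p q => s(p, q) ∈ J E a c e b) (g 2) u := by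
      intro u hu
      have hu' := h.verts_sub hu
      rw [hc.verts_eq] at hu'
      obtain ⟨i, hi, rfl⟩ := hu'
      refine hstep i ?_ hi
      by_contra hcon
      have hi2 : i = 0 ∨ i = 1 := by omega
      rcases hi2 with rfl | rfl
      · exact h.notMem_c (h0 ▸ hu)
      · exact h.notMem_e (h1 ▸ hu)
    intro u hu v hv
    exact (reflTransGen_symm_of_symm hsymm (hall u hu)).trans (hall v hv)

end Detour

end undetour

section local_

variable {E : Finset (Sym2 P3)} {x y d : P3}

theorem detour_of (h : IsPolygon E) (hU : UShape E (x, y, d)) :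
    Detour E x (x + d) (y + d) y :=
  ⟨h, hU.2.2.1, hU.2.2.2.1, hU.2.2.2.2, hU.1, adj_add_right.1 (h.adj _ _ hU.2.2.2.1)⟩

theorem unbump_eq : unbump E x y d = Detour.J E x (x + d) (y + d) y := rfl

theorem unbump_poly (h : IsPolygon E) (hU : UShape E (x, y, d)) : IsPolygon (unbump E x y d) :=
  (detour_of h hU).isPolygon

theorem unbump_spot (h : IsPolygon E) (hU : UShape E (x, y, d)) :
    Spot (unbump E x y d) (x, y, d) :=
  ⟨mem_unbump.2 (Or.inr rfl), hU.2.1, (detour_of h hU).notMem_c, (detour_of h hU).notMem_e⟩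

theorem bump_unbump (hU : UShape E (x, y, d)) : bump (unbump E x y d) x y d = E := by
  obtain ⟨h1, h2, h3, h4, h5⟩ := hU
  simp only at h1 h2 h3 h4 h5
  ext f
  rw [mem_bump, mem_unbump]
  constructor
  · rintro (⟨(⟨h, -⟩ | h), h'⟩ | rfl | rfl | rfl)
    · exact h
    · exact absurd h h'
    · exact h3
    · exact h4
    · exact h5
  · intro hf
    by_cases e1 : f = s(x, x + d)
    · exact Or.inr (Or.inl e1)
    by_cases e2 : f = s(x + d, y + d)
    · exact Or.inr (Or.inr (Or.inl e2))
    by_cases e3 : f = s(y + d, y)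
    · exact Or.inr (Or.inr (Or.inr e3))
    refine Or.inl ⟨Or.inl ⟨hf, e1, e2, e3⟩, ?_⟩
    rintro rfl
    exact h1 hf

theorem card_unbump (h : IsPolygon E) (hU : UShape E (x, y, d)) :
    (unbump E x y d).card + 2 = E.card := by
  have hs := unbump_spot h hU
  have h1 := card_bump hs.1 (detour_of h hU).ab hs.2.2.1 hs.2.2.2
  rw [← h1]
  exact congrArg Finset.card (bump_unbump hU)

theorem ushape_bump (_ : IsPolygon E) (hS : Spot E (x, y, d)) :
    UShape (bump E x y d) (x, y, d) := by
  obtain ⟨h1, h2, h3, h4⟩ := hS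
  simp only at h1 h2 h3 h4
  have hxv := mem_verts_left h1
  have hyv := mem_verts_right h1
  refine ⟨?_, h2, mem_bump.2 (Or.inr (Or.inl rfl)), mem_bump.2 (Or.inr (Or.inr (Or.inl rfl))),
    mem_bump.2 (Or.inr (Or.inr (Or.inr rfl)))⟩
  show s(x, y) ∉ bump E x y d
  rw [mem_bump]
  rintro (⟨-, h5⟩ | h5 | h5 | h5)
  · exact h5 rfl
  · rcases Sym2.eq_iff.1 h5 with ⟨-, h6⟩ | ⟨h6, -⟩
    · exact h3 (h6 ▸ hyv)
    · exact h3 (h6 ▸ hxv)
  · rcases Sym2.eq_iff.1 h5 with ⟨h6, -⟩ | ⟨h6, -⟩
    · exact h3 (h6 ▸ hxv)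
    · exact h4 (h6 ▸ hxv)
  · rcases Sym2.eq_iff.1 h5 with ⟨h6, -⟩ | ⟨-, h6⟩
    · exact h4 (h6 ▸ hxv)
    · exact h4 (h6 ▸ hyv)

theorem unbump_bump (hS : Spot E (x, y, d)) : unbump (bump E x y d) x y d = E := by
  obtain ⟨h1, h2, h3, h4⟩ := hS
  simp only at h1 h2 h3 h4
  ext f
  rw [mem_unbump, mem_bump]
  constructor
  · rintro (⟨(⟨h, -⟩ | h | h | h), h5, h6, h7⟩ | rfl)
    · exact h
    · exact absurd h h5
    · exact absurd h h6
    · exact absurd h h7
    · exact h1
  · intro hf
    by_cases e1 : f = s(x, y)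
    · exact Or.inr e1
    refine Or.inl ⟨Or.inl ⟨hf, e1⟩, ?_, ?_, ?_⟩
    · rintro rfl; exact h3 (mem_verts_right hf)
    · rintro rfl; exact h3 (mem_verts_left hf)
    · rintro rfl; exact h4 (mem_verts_left hf)

end local_

/-- (R0) -/
theorem localFacts : LocalFacts where
  spots_finite := spots_finite
  ushape_finite := ushape_finite
  unbump_poly := fun _ _ _ _ h hU => unbump_poly h hU
  unbump_spot := fun _ _ _ _ h hU => unbump_spot h hU
  bump_unbump := fun _ _ _ _ _ hU => bump_unbump hU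
  card_unbump := fun _ _ _ _ h hU => card_unbump h hU
  ushape_bump := fun _ _ _ _ h hS => ushape_bump h hS
  unbump_bump := fun _ _ _ _ _ hS => unbump_bump hS
  nU_shift := nU_shift
  nSpot_shift := nSpot_shift
  nU_le := fun E _ => nU_le E
  nSpot_le := fun E _ => nSpot_le E

end Pool.Agent.LK
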