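import Pool.Agent.MP_aea6d5_co.RLower

/-! # The lower bound for the growth rate from the counting of strands -/

set_option autoImplicit false

open Filter Topology

namespace Pool.Agent.LK

theorem lower_of (h4 : StrandCountStatement) (h5 : BlockStatement) : LowerStatement := by
  intro C hC
  obtain ⟨B, hB, hp⟩ := count_le hC
  refine le_of_forall_lt fun x hx => ?_
  -- it is enough to treat large x
  set y : ℝ := max x 1 with hy
  have hy1 : 1 ≤ y := le_max_right _ _
  have hy2 : y < 15 / 4 := max_lt hx (by norm_num)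
  -- a number between y and 15/4
  set z : ℝ := (y + 15 / 4) / 2 with hz
  have hyz : y < z := by rw [hz]; linarith
  have hz4 : z < 15 / 4 := by rw [hz]; linarith
  have hz0 : 0 < z := by linarith
  suffices hkey : z ≤ growth C from lt_of_le_of_lt (le_max_left _ _) (lt_of_lt_of_le hyz hkey)
  set a : ℝ := (z + 15 / 4) / 2 with ha
  have hza : z < a := by rw [ha]; linarith
  have ha4 : a < 15 / 4 := by rw [ha]; linarith
  have ha0 : 0 < a := by linarith
  obtain ⟨T, m, K, t, hT, hm, hcard⟩ := h5 (1 - a / (15 / 4)) (by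
    rw [sub_pos, div_lt_one (by norm_num)]; exact ha4)
  have e : (15 / 4 : ℝ) * (1 - (1 - a / (15 / 4))) = a := by ring
  rw [e] at hcard
  refine le_limsup_root hB hp hz0.le ?_
  rw [frequently_atTop]
  intro n0
  have hr : 1 < a / z := by rw [lt_div_iff₀ hz0]; linarith
  obtain ⟨N, hN⟩ := pow_unbounded_of_one_lt (z ^ (4 * m + 4)) hr
  have hN' : ∀ M, N ≤ M → z ^ (4 * m + 4) ≤ (a / z) ^ M := fun M hM =>
    hN.le.trans (pow_le_pow_right₀ hr.le hM)
  set M := max N n0 with hM
  refine ⟨4 * M * m + 2 + 2 * (2 * m + 1), ?_, ?_⟩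
  · have h1 : n0 ≤ M := le_max_right _ _
    have : M * 1 ≤ M * m := Nat.mul_le_mul_left _ hm
    nlinarith
  · have h1 : (T.card : ℝ) ^ (4 * M) ≤ (count C (4 * M * m + 2 + 2 * (2 * m + 1)) : ℝ) := by
      exact_mod_cast h4 C hC T m K t hT hm M
    have h2 : (a ^ m) ^ (4 * M) ≤ (T.card : ℝ) ^ (4 * M) :=
      pow_le_pow_left₀ (by positivity) hcard _
    refine le_trans ?_ (h2.trans h1)
    have h3 : z ^ (4 * m + 4) ≤ (a / z) ^ (m * (4 * M)) := by
      apply hN'
      have : N ≤ M := le_max_left _ _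
      have : M * 1 ≤ M * m := Nat.mul_le_mul_left _ hm
      nlinarith
    rw [← pow_mul, show 4 * M * m + 2 + 2 * (2 * m + 1) = (4 * m + 4) + m * (4 * M) by ring, pow_add]
    rw [div_pow a z, le_div_iff₀ (by positivity)] at h3
    exact h3

end Pool.Agent.LK
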