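import Pool.Agent.MP_aea6d5_co.RDefs

/-! # (R9) Types with respect to a subgroup; the classes are closed under bumps and inverse bumps -/

set_option autoImplicit false

open Filter Topology

namespace Pool.Agent.LK

theorem propStatement : PropStatement := by
  intro G hG K
  by_cases h0 : swapR ∈ G
  · -- `G` is the full group
    left
    have hall : ∀ φ : R3 ≃ₜ R3, φ ∈ G := by
      intro φ
      rcases hG φ with h | h
      · exact h
      · have h1 := G.mul_mem h (G.inv_mem h0)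
        rwa [mul_inv_cancel_right] at h1
    have hC : GClass G K = KClass K := by
      funext E
      apply propext
      constructor
      · rintro ⟨hE, φ, -, hφ⟩
        exact ⟨hE, φ, hφ⟩
      · rintro ⟨hE, φ, hφ⟩
        exact ⟨hE, φ, hall φ, hφ⟩
    intro n
    rw [hC]
  -- the index is two
  have hmul : ∀ φ ψ : R3 ≃ₜ R3, φ ∉ G → ψ ∉ G → ψ * φ ∈ G := by
    intro φ ψ hφ hψ
    rcases hG (ψ * φ) with h | h
    · exact h
    · exfalso
      have h1 : φ * swapR ∈ G := (hG φ).resolve_left hφ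
      have h2 := G.mul_mem h (G.inv_mem h1)
      have h3 : ψ * φ * swapR * (φ * swapR)⁻¹ = ψ := by group
      rw [h3] at h2
      exact hψ h2
  by_cases hK : ∃ φ : R3 ≃ₜ R3, φ ∉ G ∧ φ '' body K = body K
  · left
    obtain ⟨φ, hφ, hφK⟩ := hK
    have hC : GClass G K = KClass K := by
      funext E
      apply propext
      constructor
      · rintro ⟨hE, ψ, -, hψ⟩
        exact ⟨hE, ψ, hψ⟩
      · rintro ⟨hE, ψ, hψ⟩
        by_cases h1 : ψ ∈ G
        · exact ⟨hE, ψ, h1, hψ⟩
        · refine ⟨hE, ψ * φ, hmul φ ψ hφ h1, ?_⟩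
          change (ψ ∘ φ) '' body K = body E
          rw [Set.image_comp, hφK, hψ]
    intro n
    rw [hC]
  · right
    have hK' : ∀ φ : R3 ≃ₜ R3, φ '' body K = body K → φ ∈ G := by
      intro φ hφ
      by_contra h
      exact hK ⟨φ, h, hφ⟩
    intro n
    set S : Set (Finset (Sym2 P3)) := {E | GClass G K E ∧ E.card = n ∧ Normed E} with hS
    have hfin : S.Finite := finite_class' (fun E h => h.1) n
    have i1 : Function.Injective (mapE sw) := mapE_inj sw_inj
    have hpre : ((mapE sw) ⁻¹' S).Finite := hfin.preimage i1.injOn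
    have hcard : ((mapE sw) ⁻¹' S).ncard = S.ncard := by
      apply Set.ncard_preimage_of_injective_subset_range i1
      intro E _
      exact ⟨mapE sw E, mapE_sw_sw E⟩
    have hunion : {E | KClass K E ∧ E.card = n ∧ Normed E} = S ∪ (mapE sw) ⁻¹' S := by
      apply Set.Subset.antisymm
      · rintro E ⟨⟨hE, φ, hφ⟩, hn, hN⟩
        by_cases h1 : φ ∈ G
        · exact Or.inl ⟨⟨hE, φ, h1, hφ⟩, hn, hN⟩
        · right
          refine ⟨⟨polyClosedZ.swapXY E hE, swapR * φ, hmul φ swapR h1 h0, ?_⟩, ?_, hN.sw⟩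
          · change (swapR ∘ φ) '' body K = body (mapE (fun u => (u.2.1, u.1, u.2.2)) E)
            rw [Set.image_comp, hφ, body_swap]
          · rw [card_mapE sw_inj, hn]
      · rintro E (⟨⟨hE, φ, -, hφ⟩, hn, hN⟩ | ⟨⟨hE, φ, -, hφ⟩, hn, hN⟩)
        · exact ⟨⟨hE, φ, hφ⟩, hn, hN⟩
        · have e := mapE_sw_sw E
          refine ⟨⟨?_, swapR * φ, ?_⟩, ?_, ?_⟩
          · have h1 := polyClosedZ.swapXY _ hE
            rw [← e]
            exact h1
          · change (swapR ∘ φ) '' body K = body E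
            rw [Set.image_comp, hφ, ← body_swap]
            exact congrArg body e
          · rw [← card_mapE sw_inj, hn]
          · rw [← e]
            exact hN.sw
    have hdisj : Disjoint S ((mapE sw) ⁻¹' S) := by
      rw [Set.disjoint_left]
      rintro E ⟨⟨-, φ, hφG, hφ⟩, -, -⟩ ⟨⟨-, ψ, hψG, hψ⟩, -, -⟩
      have h1 : (swapR * φ) '' body K = ψ '' body K := by
        rw [hψ]
        change (swapR ∘ φ) '' body K = body (mapE (fun u => (u.2.1, u.1, u.2.2)) E)
        rw [Set.image_comp, hφ, body_swap]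
      have h2 : (ψ⁻¹ * (swapR * φ) : R3 ≃ₜ R3) '' body K = body K := by
        change (ψ.symm ∘ (swapR * φ : R3 ≃ₜ R3)) '' body K = body K
        rw [Set.image_comp, h1]
        exact ψ.symm_image_image _
      have h3 := hK' _ h2
      apply h0
      have h4 := G.mul_mem (G.mul_mem hψG h3) (G.inv_mem hφG)
      have h5 : ψ * (ψ⁻¹ * (swapR * φ)) * φ⁻¹ = swapR := by group
      rwa [h5] at h4
    change {E | KClass K E ∧ E.card = n ∧ Normed E}.ncard = 2 * S.ncard
    rw [hunion, Set.ncard_union_eq hdisj hfin hpre, hcard]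
    ring

theorem bumpClass_K (h : LocalFacts) (K : Finset (Sym2 P3)) : BumpClass (KClass K) where
  poly E hE := hE.1
  trans t E hE := ⟨polyClosedZ.trans t E hE.1, hE.2.trans (moveFacts.trans t E)⟩
  bump E x y d hE hs :=
    ⟨isPolygon_bump hE.1 hs.1 hs.2.1 hs.2.2.1 hs.2.2.2,
      hE.2.trans (moveFacts.bump E x y d hE.1 hs.1 hs.2.1 hs.2.2.1 hs.2.2.2)⟩
  unbump E x y d hE hs := by
    have h1 := h.unbump_poly E x y d hE.1 hs
    have h2 := h.unbump_spot E x y d hE.1 hs
    refine ⟨h1, hE.2.trans ?_⟩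
    have h3 := moveFacts.bump _ x y d h1 h2.1 h2.2.1 h2.2.2.1 h2.2.2.2
    rw [h.bump_unbump E x y d hE.1 hs] at h3
    exact h3.symm
  flip E x a b hE h1 h2 h3 h4 h5 h6 h7 :=
    ⟨polyClosedZ.flip E x a b hE.1 h1 h2 h3 h4 h5 h6 h7,
      hE.2.trans (moveFacts.flip E x a b hE.1 h1 h2 h3 h4 h5 h6 h7)⟩

theorem bumpClass_U (h : LocalFacts) : BumpClass UClass where
  poly E hE := hE.1
  trans t E hE := ⟨polyClosedZ.trans t E hE.1, (moveFacts.trans t E).symm.unknotted hE.2⟩
  bump E x y d hE hs :=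
    ⟨isPolygon_bump hE.1 hs.1 hs.2.1 hs.2.2.1 hs.2.2.2,
      (moveFacts.bump E x y d hE.1 hs.1 hs.2.1 hs.2.2.1 hs.2.2.2).symm.unknotted hE.2⟩
  unbump E x y d hE hs := by
    have h1 := h.unbump_poly E x y d hE.1 hs
    have h2 := h.unbump_spot E x y d hE.1 hs
    refine ⟨h1, ?_⟩
    have h3 := moveFacts.bump _ x y d h1 h2.1 h2.2.1 h2.2.2.1 h2.2.2.2
    rw [h.bump_unbump E x y d hE.1 hs] at h3
    exact h3.unknotted hE.2
  flip E x a b hE h1 h2 h3 h4 h5 h6 h7 :=
    ⟨polyClosedZ.flip E x a b hE.1 h1 h2 h3 h4 h5 h6 h7,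
      (moveFacts.flip E x a b hE.1 h1 h2 h3 h4 h5 h6 h7).symm.unknotted hE.2⟩

theorem bumpClass_poly (h : LocalFacts) : BumpClass IsPolygon where
  poly _ hE := hE
  trans t E hE := polyClosedZ.trans t E hE
  bump _ _ _ _ hE hs := isPolygon_bump hE hs.1 hs.2.1 hs.2.2.1 hs.2.2.2
  unbump E x y d hE hs := h.unbump_poly E x y d hE hs
  flip E x a b hE h1 h2 h3 h4 h5 h6 h7 := polyClosedZ.flip E x a b hE h1 h2 h3 h4 h5 h6 h7

end Pool.Agent.LK
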