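import Pool.Agent.MP_aea6d5_co.RRigid

/-! # Rigid polygons: the geometric inequality (package R3a) -/

set_option autoImplicit false

open Finset

namespace Pool.Agent.LK

namespace RRA

/-- the six unit vectors -/
def D6 : Finset P3 := {(1, 0, 0), (-1, 0, 0), (0, 1, 0), (0, -1, 0), (0, 0, 1), (0, 0, -1)}

theorem mem_D6 {d : P3} : d ∈ D6 ↔ IsUnit3 d := by
  rw [isUnit3_iff]
  simp [D6]

theorem card_D6 : D6.card = 6 := by decide

theorem card_perp' : ∀ s ∈ D6, (D6.filter fun a => a ≠ s ∧ a ≠ -s).card = 4 := by decide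

theorem card_perp {s : P3} (hs : IsUnit3 s) : (D6.filter fun a => a ≠ s ∧ a ≠ -s).card = 4 :=
  card_perp' s (mem_D6.2 hs)

/-- the steps of a walk -/
def st (g : ℕ → P3) (i : ℕ) : P3 := g (i + 1) - g i

/-- the walk turns at time `j` -/
def corner (g : ℕ → P3) (j : ℕ) : Prop := st g (j - 1) ≠ st g j

/-- the fourth vertex of the square at a corner -/
def fv (g : ℕ → P3) (j : ℕ) : P3 := g (j - 1) + g (j + 1) - g j

open Classical in
/-- number of corners -/
noncomputable def cK (g : ℕ → P3) (n : ℕ) : ℕ := ((Icc 1 (n - 2)).filter fun j => corner g j).card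

open Classical in
/-- number of corners whose fourth vertex is occupied -/
noncomputable def cF (E : Finset (Sym2 P3)) (g : ℕ → P3) (n : ℕ) : ℕ :=
  ((Icc 1 (n - 2)).filter fun j => corner g j ∧ fv g j ∈ verts E).card

open Classical in
/-- number of corners whose fourth vertex was visited before -/
noncomputable def cFe (g : ℕ → P3) (n : ℕ) : ℕ :=
  ((Icc 1 (n - 3)).filter fun j => corner g j ∧ ∃ m ≤ j, fv g j = g m).card

variable {E : Finset (Sym2 P3)} {n : ℕ} {g : ℕ → P3}

theorem unit_st (hc : Cyc E n g) (hp : IsPolygon E) {i : ℕ} (hi : i < n) : IsUnit3 (st g i) :=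
  adj_iff.1 (hp.adj _ _ (hc.mem_edge hi))

theorem mem_V (hc : Cyc E n g) {u : P3} : u ∈ verts E ↔ ∃ m < n, g m = u := by
  rw [hc.verts_eq]
  rfl

theorem g_mem (hc : Cyc E n g) {m : ℕ} (hm : m < n) : g m ∈ verts E := (mem_V hc).2 ⟨m, hm, rfl⟩

theorem noback (hc : Cyc E n g) (hn : 8 ≤ n) {i : ℕ} (h1 : 1 ≤ i) (hi : i < n) :
    st g i ≠ -st g (i - 1) := by
  intro h
  have h2 : g (i + 1) = g (i - 1) := by
    unfold st at h
    rw [Nat.sub_add_cancel h1] at h
    have h3 : g (i + 1) = g i + (g (i + 1) - g i) := by abel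
    rw [h3, h]
    abel
  rcases Nat.lt_or_ge (i + 1) n with h3 | h3
  · have := hc.inj _ h3 _ (by omega) h2
    omega
  · have h4 : i + 1 = n := by omega
    rw [h4, hc.per] at h2
    have := hc.inj _ (by omega) _ (by omega) h2
    omega

theorem spot_finite (E : Finset (Sym2 P3)) : {q | Spot E q}.Finite := by
  refine ((verts_finite E).prod ((verts_finite E).prod (D6.finite_toSet))).subset ?_
  rintro ⟨x, y, d⟩ ⟨h1, h2, -, -⟩
  exact ⟨mem_verts_left h1, mem_verts_right h1, mem_D6.2 h2⟩

theorem ushape_finite (E : Finset (Sym2 P3)) : {q | UShape E q}.Finite := by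
  refine ((verts_finite E).prod ((verts_finite E).prod (D6.finite_toSet))).subset ?_
  rintro ⟨x, y, d⟩ ⟨-, h2, h3, -, h5⟩
  exact ⟨mem_verts_left h3, mem_verts_right h5, mem_D6.2 h2⟩

open Classical in
/-- pairs (edge, perpendicular direction) -/
noncomputable def Om (g : ℕ → P3) (n : ℕ) : Finset (ℕ × P3) :=
  ((Icc 1 (n - 3)) ×ˢ D6).filter fun p => p.2 ≠ st g p.1 ∧ p.2 ≠ -st g p.1

theorem card_Om (hc : Cyc E n g) (hp : IsPolygon E) (hn : 8 ≤ n) :
    (Om g n).card = 4 * (n - 3) := by
  classical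
  unfold Om
  rw [card_filter, sum_product]
  have h1 : ∀ j ∈ Icc 1 (n - 3), (∑ a ∈ D6, if a ≠ st g j ∧ a ≠ -st g j then 1 else 0) = 4 := by
    intro j hj
    rw [mem_Icc] at hj
    rw [← card_filter]
    convert card_perp (unit_st hc hp (show j < n by omega)) using 2
  rw [sum_congr rfl h1, sum_const, Nat.card_Icc]
  simp only [smul_eq_mul]
  omega

open Classical in
/-- (vertex, contact direction) -/
noncomputable def Cc (E : Finset (Sym2 P3)) (g : ℕ → P3) (n : ℕ) : Finset (ℕ × P3) :=
  ((Icc 1 (n - 2)) ×ˢ D6).filter fun p => g p.1 + p.2 ∈ verts E ∧ p.2 ≠ st g p.1 ∧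
    p.2 ≠ -st g (p.1 - 1)

theorem ite_ineq (A B C D : Prop) [Decidable A] [Decidable B] [Decidable C] [Decidable D] :
    1 + (if A ∧ D ∧ ¬B then 1 else 0) + (if B ∧ C ∧ ¬A then 1 else 0) ≤
      (if ¬C ∧ ¬D then 1 else 0) + (if A then 1 else 0) + (if B then 1 else 0) +
        (if C ∧ ¬A then 1 else 0) + (if D ∧ ¬B then 1 else 0) := by
  by_cases hA : A <;> by_cases hB : B <;> by_cases hC : C <;> by_cases hD : D <;>
    simp [hA, hB, hC, hD]

open Classical in
theorem main_ineq (E : Finset (Sym2 P3)) (g : ℕ → P3) (n : ℕ) :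
    (Om g n).card + ((Om g n).filter fun p => p.2 = -st g (p.1 - 1) ∧
        g (p.1 + 1) + p.2 ∈ verts E ∧ p.2 ≠ st g (p.1 + 1)).card +
      ((Om g n).filter fun p => p.2 = st g (p.1 + 1) ∧ g p.1 + p.2 ∈ verts E ∧
        p.2 ≠ -st g (p.1 - 1)).card ≤
    ((Om g n).filter fun p => g p.1 + p.2 ∉ verts E ∧ g (p.1 + 1) + p.2 ∉ verts E).card +
      ((Om g n).filter fun p => p.2 = -st g (p.1 - 1)).card +
      ((Om g n).filter fun p => p.2 = st g (p.1 + 1)).card +
      ((Om g n).filter fun p => g p.1 + p.2 ∈ verts E ∧ p.2 ≠ -st g (p.1 - 1)).card +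
      ((Om g n).filter fun p => g (p.1 + 1) + p.2 ∈ verts E ∧ p.2 ≠ st g (p.1 + 1)).card := by
  simp only [card_filter]
  rw [card_eq_sum_ones]
  simp only [← sum_add_distrib]
  refine sum_le_sum fun p _ => ?_
  exact ite_ineq (p.2 = -st g (p.1 - 1)) (p.2 = st g (p.1 + 1)) (g p.1 + p.2 ∈ verts E)
    (g (p.1 + 1) + p.2 ∈ verts E)

open Classical in
theorem bound_spot (hc : Cyc E n g) (hn : 8 ≤ n) :
    ((Om g n).filter fun p => g p.1 + p.2 ∉ verts E ∧ g (p.1 + 1) + p.2 ∉ verts E).card ≤
      nSpot E := by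
  unfold nSpot
  set T := (Om g n).filter fun p => g p.1 + p.2 ∉ verts E ∧ g (p.1 + 1) + p.2 ∉ verts E with hT
  have hmem : ∀ p ∈ T, p.1 < n ∧ p.1 + 1 < n ∧ p.2 ∈ D6 ∧ g p.1 + p.2 ∉ verts E ∧
      g (p.1 + 1) + p.2 ∉ verts E := by
    intro p hp
    rw [hT, mem_filter, Om, mem_filter, mem_product, mem_Icc] at hp
    exact ⟨by omega, by omega, hp.1.1.2, hp.2⟩
  have h1 : T.card = (T.image fun p => (g p.1, g (p.1 + 1), p.2)).card := by
    rw [card_image_of_injOn]
    intro p hp q hq hpq
    simp only [Prod.mk.injEq] at hpq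
    have h1 := hmem p hp
    have h2 := hmem q hq
    exact Prod.ext (hc.inj _ h1.1 _ h2.1 hpq.1) hpq.2.2
  rw [h1, ← Set.ncard_coe_finset]
  refine Set.ncard_le_ncard ?_ (spot_finite E)
  intro q hq
  rw [mem_coe, mem_image] at hq
  obtain ⟨p, hp, rfl⟩ := hq
  have h2 := hmem p hp
  exact ⟨hc.mem_edge h2.1, mem_D6.1 h2.2.2.1, h2.2.2.2.1, h2.2.2.2.2⟩

open Classical in
theorem bound_bx (hn : 8 ≤ n) :
    ((Om g n).filter fun p => p.2 = -st g (p.1 - 1)).card ≤ cK g n := by
  unfold cK
  refine card_le_card_of_injOn (fun p => p.1) ?_ ?_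
  · intro p hp
    rw [mem_coe, mem_filter, Om, mem_filter, mem_product, mem_Icc] at hp
    rw [mem_coe, mem_filter, mem_Icc]
    dsimp only
    refine ⟨⟨hp.1.1.1.1, by omega⟩, fun h => hp.1.2.2 ?_⟩
    rw [hp.2, h]
  · intro p hp q hq hpq
    rw [mem_coe, mem_filter] at hp hq
    refine Prod.ext hpq ?_
    rw [hp.2, hq.2]
    simp only at hpq
    rw [hpq]

open Classical in
theorem bound_by (hn : 8 ≤ n) :
    ((Om g n).filter fun p => p.2 = st g (p.1 + 1)).card ≤ cK g n := by
  unfold cK
  refine card_le_card_of_injOn (fun p => p.1 + 1) ?_ ?_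
  · intro p hp
    rw [mem_coe, mem_filter, Om, mem_filter, mem_product, mem_Icc] at hp
    rw [mem_coe, mem_filter, mem_Icc]
    dsimp only
    refine ⟨⟨by omega, by omega⟩, fun h => hp.1.2.1 ?_⟩
    rw [hp.2, ← h, Nat.add_sub_cancel]
  · intro p hp q hq hpq
    rw [mem_coe, mem_filter] at hp hq
    have h1 : p.1 = q.1 := Nat.succ_injective hpq
    refine Prod.ext h1 ?_
    rw [hp.2, hq.2, h1]

open Classical in
theorem bound_qx (hn : 8 ≤ n) :
    ((Om g n).filter fun p => g p.1 + p.2 ∈ verts E ∧ p.2 ≠ -st g (p.1 - 1)).card ≤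
      (Cc E g n).card := by
  refine card_le_card ?_
  intro p hp
  rw [mem_filter, Om, mem_filter, mem_product, mem_Icc] at hp
  rw [Cc, mem_filter, mem_product, mem_Icc]
  exact ⟨⟨⟨hp.1.1.1.1, by omega⟩, hp.1.1.2⟩, hp.2.1, hp.1.2.1, hp.2.2⟩

open Classical in
theorem bound_qy (hn : 8 ≤ n) :
    ((Om g n).filter fun p => g (p.1 + 1) + p.2 ∈ verts E ∧ p.2 ≠ st g (p.1 + 1)).card ≤
      (Cc E g n).card := by
  refine card_le_card_of_injOn (fun p => (p.1 + 1, p.2)) ?_ ?_
  · intro p hp
    rw [mem_coe, mem_filter, Om, mem_filter, mem_product, mem_Icc] at hp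
    rw [mem_coe, Cc, mem_filter, mem_product, mem_Icc]
    dsimp only
    refine ⟨⟨⟨by omega, by omega⟩, hp.1.1.2⟩, hp.2.1, hp.2.2, ?_⟩
    rw [Nat.add_sub_cancel]
    exact hp.1.2.2
  · intro p _ q _ hpq
    simp only [Prod.mk.injEq] at hpq
    exact Prod.ext (Nat.succ_injective hpq.1) hpq.2

open Classical in
/-- the times at which a U-shape is completed -/
noncomputable def Us (g : ℕ → P3) (n : ℕ) : Finset ℕ :=
  (Icc 1 (n - 3)).filter fun j => st g (j + 1) = -st g (j - 1)

theorem bound_U (hc : Cyc E n g) (hp : IsPolygon E) (hn : 8 ≤ n) : (Us g n).card ≤ nU E := by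
  classical
  unfold nU
  have hmem : ∀ j ∈ Us g n, 1 ≤ j ∧ j + 2 < n ∧ st g (j + 1) = -st g (j - 1) := by
    intro j hj
    rw [Us, mem_filter, mem_Icc] at hj
    exact ⟨hj.1.1, by omega, hj.2⟩
  have h1 : (Us g n).card = ((Us g n).image fun j => (g (j - 1), g (j + 2), st g (j - 1))).card := by
    rw [card_image_of_injOn]
    intro p hp q hq hpq
    simp only [Prod.mk.injEq] at hpq
    have h1 := hmem p hp
    have h2 := hmem q hq
    have := hc.inj _ (by omega) _ (by omega) hpq.1
    omega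
  rw [h1, ← Set.ncard_coe_finset]
  refine Set.ncard_le_ncard ?_ (ushape_finite E)
  intro q hq
  rw [mem_coe, mem_image] at hq
  obtain ⟨j, hj, rfl⟩ := hq
  obtain ⟨h2, h3, h4⟩ := hmem j hj
  have e1 : g (j - 1) + st g (j - 1) = g j := by
    unfold st
    rw [Nat.sub_add_cancel h2]
    abel
  have e2 : g (j + 2) + st g (j - 1) = g (j + 1) := by
    have : g (j + 2) = g (j + 1) + st g (j + 1) := by
      unfold st
      abel
    rw [this, h4]
    abel
  refine ⟨?_, unit_st hc hp (by omega), ?_, ?_, ?_⟩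
  · intro h
    obtain ⟨i, hi, he⟩ := (hc.edge _ _).1 h
    rcases Sym2.eq_iff.1 he with ⟨h5, h6⟩ | ⟨h5, h6⟩
    · have h7 := hc.inj _ (by omega) _ hi h5
      rcases Nat.lt_or_ge (i + 1) n with h8 | h8
      · have := hc.inj _ h3 _ h8 h6
        omega
      · have h9 : i + 1 = n := by omega
        rw [h9, hc.per] at h6
        have := hc.inj _ h3 _ (by omega) h6
        omega
    · have h7 := hc.inj _ h3 _ hi h6
      rcases Nat.lt_or_ge (i + 1) n with h8 | h8
      · have := hc.inj _ (by omega) _ h8 h5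
        omega
      · have h9 : i + 1 = n := by omega
        rw [h9, hc.per] at h5
        have := hc.inj _ (by omega) _ (by omega) h5
        omega
  · show s(g (j - 1), g (j - 1) + st g (j - 1)) ∈ E
    rw [e1]
    have := hc.mem_edge (show j - 1 < n by omega)
    rwa [Nat.sub_add_cancel h2] at this
  · show s(g (j - 1) + st g (j - 1), g (j + 2) + st g (j - 1)) ∈ E
    rw [e1, e2]
    exact hc.mem_edge (by omega)
  · show s(g (j + 2) + st g (j - 1), g (j + 2)) ∈ E
    rw [e2]
    exact hc.mem_edge (by omega)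

theorem fv_eq (g : ℕ → P3) {j : ℕ} (h1 : 1 ≤ j) : g (j + 1) + -st g (j - 1) = fv g j := by
  unfold st fv
  rw [Nat.sub_add_cancel h1]
  abel

theorem fv_eq' (g : ℕ → P3) (j : ℕ) : g j + st g (j + 1) = fv g (j + 1) := by
  unfold st fv
  rw [Nat.add_sub_cancel]
  abel

open Classical in
theorem bound_X1 (hc : Cyc E n g) (hp : IsPolygon E) (hn : 8 ≤ n) :
    cF E g n ≤ ((Om g n).filter fun p => p.2 = -st g (p.1 - 1) ∧
        g (p.1 + 1) + p.2 ∈ verts E ∧ p.2 ≠ st g (p.1 + 1)).card + (Us g n).card + 1 := by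
  unfold cF
  set A := (Icc 1 (n - 3)).filter fun j => (corner g j ∧ fv g j ∈ verts E) ∧
    st g (j + 1) ≠ -st g (j - 1) with hA
  have h1 : ((Icc 1 (n - 2)).filter fun j => corner g j ∧ fv g j ∈ verts E) ⊆
      (A ∪ Us g n) ∪ {n - 2} := by
    intro j hj
    rw [mem_filter, mem_Icc] at hj
    rw [mem_union, mem_union, hA, Us, mem_filter, mem_filter, mem_Icc, mem_singleton]
    by_cases h2 : j = n - 2
    · exact Or.inr h2
    · by_cases h3 : st g (j + 1) = -st g (j - 1)
      · exact Or.inl (Or.inr ⟨⟨hj.1.1, by omega⟩, h3⟩)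
      · exact Or.inl (Or.inl ⟨⟨hj.1.1, by omega⟩, hj.2, h3⟩)
  have h2 : A.card ≤ ((Om g n).filter fun p => p.2 = -st g (p.1 - 1) ∧
        g (p.1 + 1) + p.2 ∈ verts E ∧ p.2 ≠ st g (p.1 + 1)).card := by
    refine card_le_card_of_injOn (fun j => (j, -st g (j - 1))) ?_ ?_
    · intro j hj
      rw [mem_coe, hA, mem_filter, mem_Icc] at hj
      obtain ⟨⟨h3, h4⟩, ⟨h5, h6⟩, h7⟩ := hj
      rw [mem_coe, mem_filter, Om, mem_filter, mem_product, mem_Icc]
      dsimp only
      refine ⟨⟨⟨⟨h3, h4⟩, mem_D6.2 (isUnit3_neg (unit_st hc hp (by omega)))⟩, ?_, ?_⟩, rfl, ?_, ?_⟩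
      · exact fun h => noback hc hn h3 (by omega) h.symm
      · exact fun h => h5 (neg_injective h)
      · rw [fv_eq g h3]
        exact h6
      · exact fun h => h7 h.symm
    · intro p _ q _ hpq
      simp only [Prod.mk.injEq] at hpq
      exact hpq.1
  have h3 := card_le_card h1
  have h4 := card_union_le (A ∪ Us g n) {n - 2}
  have h5 := card_union_le A (Us g n)
  rw [card_singleton] at h4
  omega

open Classical in
theorem bound_X2 (hc : Cyc E n g) (hp : IsPolygon E) (hn : 8 ≤ n) :
    cF E g n ≤ ((Om g n).filter fun p => p.2 = st g (p.1 + 1) ∧ g p.1 + p.2 ∈ verts E ∧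
        p.2 ≠ -st g (p.1 - 1)).card + (Us g n).card + 1 := by
  unfold cF
  set A := (Icc 1 (n - 3)).filter fun j => (corner g (j + 1) ∧ fv g (j + 1) ∈ verts E) ∧
    st g (j + 1) ≠ -st g (j - 1) with hA
  have h1 : ((Icc 1 (n - 2)).filter fun j => corner g j ∧ fv g j ∈ verts E) ⊆
      ((A ∪ Us g n).image fun j => j + 1) ∪ {1} := by
    intro j hj
    rw [mem_filter, mem_Icc] at hj
    rw [mem_union, mem_singleton, mem_image]
    by_cases h2 : j = 1
    · exact Or.inr h2
    · refine Or.inl ⟨j - 1, ?_, by omega⟩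
      rw [mem_union, hA, Us, mem_filter, mem_filter, mem_Icc]
      have e1 : j - 1 + 1 = j := by omega
      rw [e1]
      by_cases h3 : st g j = -st g (j - 1 - 1)
      · exact Or.inr ⟨⟨by omega, by omega⟩, h3⟩
      · exact Or.inl ⟨⟨by omega, by omega⟩, hj.2, h3⟩
  have h2 : A.card ≤ ((Om g n).filter fun p => p.2 = st g (p.1 + 1) ∧ g p.1 + p.2 ∈ verts E ∧
        p.2 ≠ -st g (p.1 - 1)).card := by
    refine card_le_card_of_injOn (fun j => (j, st g (j + 1))) ?_ ?_
    · intro j hj
      rw [mem_coe, hA, mem_filter, mem_Icc] at hj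
      obtain ⟨⟨h3, h4⟩, ⟨h5, h6⟩, h7⟩ := hj
      rw [mem_coe, mem_filter, Om, mem_filter, mem_product, mem_Icc]
      dsimp only
      refine ⟨⟨⟨⟨h3, h4⟩, mem_D6.2 (unit_st hc hp (by omega))⟩, ?_, ?_⟩, rfl, ?_, h7⟩
      · intro h
        apply h5
        rw [Nat.add_sub_cancel]
        exact h.symm
      · have := noback hc hn (show 1 ≤ j + 1 by omega) (by omega)
        rwa [Nat.add_sub_cancel] at this
      · rw [fv_eq']
        exact h6
    · intro p _ q _ hpq
      simp only [Prod.mk.injEq] at hpq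
      exact hpq.1
  have h3 := card_le_card h1
  have h4 := card_union_le ((A ∪ Us g n).image fun j => j + 1) {1}
  have h5 := card_union_le A (Us g n)
  have h6 : ((A ∪ Us g n).image fun j => j + 1).card ≤ (A ∪ Us g n).card := card_image_le
  rw [card_singleton] at h4
  omega

/-- PART 1 -/
theorem part1 (hc : Cyc E n g) (hp : IsPolygon E) (hn : 8 ≤ n) :
    4 * n + 2 * cF E g n ≤ nSpot E + 2 * cK g n + 2 * (Cc E g n).card + 2 * nU E + 14 := by
  classical
  have h0 := main_ineq E g n
  rw [card_Om hc hp hn] at h0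
  have h1 := bound_spot hc hn
  have h2 := bound_bx (g := g) hn
  have h3 := bound_by (g := g) hn
  have h4 := bound_qx (E := E) (g := g) hn
  have h5 := bound_qy (E := E) (g := g) hn
  have h6 := bound_X1 hc hp hn
  have h7 := bound_X2 hc hp hn
  have h8 := bound_U hc hp hn
  omega

open Classical in
/-- earlier vertices at distance one from `g i` (not joined to it) -/
noncomputable def Ac (g : ℕ → P3) (n i : ℕ) : Finset ℕ :=
  (range n).filter fun m => m + 2 ≤ i ∧ g m - g i ∈ D6

theorem zero_not_unit : ¬ IsUnit3 (0 : P3) := by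
  rw [← mem_D6]
  decide

theorem contacts (hc : Cyc E n g) (hn : 8 ≤ n) :
    (Cc E g n).card ≤ 2 * (∑ i ∈ Icc 2 (n - 2), (Ac g n i).card) + 6 := by
  classical
  rw [← card_sigma]
  set Sg := (Icc 2 (n - 2)).sigma fun i => Ac g n i with hSg
  set Cl := (Cc E g n).filter fun p => g (n - 1) = g p.1 + p.2 with hCl
  have h1 : Cc E g n ⊆ (Sg.image (fun x => (x.1, g x.2 - g x.1)) ∪
      Sg.image (fun x => (x.2, g x.1 - g x.2))) ∪ Cl := by
    intro p hp
    have hp' := hp
    rw [Cc, mem_filter, mem_product, mem_Icc] at hp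
    obtain ⟨⟨⟨h1, h2⟩, h3⟩, h4, h5, h6⟩ := hp
    obtain ⟨m, hm, hgm⟩ := (mem_V hc).1 h4
    have hpa : p.2 = g m - g p.1 := by
      rw [hgm]
      abel
    rw [mem_union, mem_union, mem_image, mem_image]
    have hm1 : m ≠ p.1 := by
      rintro rfl
      rw [sub_self] at hpa
      rw [hpa, mem_D6] at h3
      exact zero_not_unit h3
    have hm2 : m ≠ p.1 + 1 := by
      rintro rfl
      exact h5 hpa
    have hm3 : m ≠ p.1 - 1 := by
      rintro rfl
      apply h6
      rw [hpa]
      unfold st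
      rw [Nat.sub_add_cancel h1]
      abel
    by_cases hm4 : m = n - 1
    · right
      rw [hCl, mem_filter]
      exact ⟨hp', by rw [← hm4, hgm]⟩
    · left
      by_cases hm5 : m < p.1
      · left
        refine ⟨⟨p.1, m⟩, ?_, ?_⟩
        · rw [hSg, mem_sigma, mem_Icc, Ac, mem_filter, mem_range]
          dsimp only
          exact ⟨⟨by omega, h2⟩, hm, by omega, hpa ▸ h3⟩
        · exact Prod.ext rfl hpa.symm
      · right
        refine ⟨⟨m, p.1⟩, ?_, ?_⟩
        · rw [hSg, mem_sigma, mem_Icc, Ac, mem_filter, mem_range]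
          dsimp only
          refine ⟨⟨by omega, by omega⟩, by omega, by omega, ?_⟩
          have : g p.1 - g m = -p.2 := by
            rw [hpa]
            abel
          rw [this, mem_D6]
          exact isUnit3_neg (mem_D6.1 h3)
        · exact Prod.ext rfl hpa.symm
  have h2 : Cl.card ≤ 6 := by
    rw [← card_D6]
    refine card_le_card_of_injOn (fun p => p.2) ?_ ?_
    · intro p hp
      rw [mem_coe, hCl, mem_filter, Cc, mem_filter, mem_product] at hp
      exact hp.1.1.2
    · intro p hp q hq hpq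
      rw [mem_coe, hCl, mem_filter, Cc, mem_filter, mem_product, mem_Icc] at hp hq
      refine Prod.ext ?_ hpq
      refine hc.inj _ (by omega) _ (by omega) ?_
      have e1 := hp.2
      have e2 := hq.2
      simp only at hpq
      rw [hpq, e2] at e1
      exact (add_right_cancel e1).symm
  have h3 := card_le_card h1
  have h4 := card_union_le (Sg.image (fun x => (x.1, g x.2 - g x.1)) ∪
      Sg.image (fun x => (x.2, g x.1 - g x.2))) Cl
  have h5 := card_union_le (Sg.image (fun x => (x.1, g x.2 - g x.1)))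
      (Sg.image (fun x => (x.2, g x.1 - g x.2)))
  have h6 : (Sg.image (fun x => (x.1, g x.2 - g x.1))).card ≤ Sg.card := card_image_le
  have h7 : (Sg.image (fun x => (x.2, g x.1 - g x.2))).card ≤ Sg.card := card_image_le
  omega

theorem forb_finite (g : ℕ → P3) (i : ℕ) : (forb g i).Finite := by
  refine D6.finite_toSet.subset ?_
  rintro d ⟨h, -⟩
  exact mem_D6.2 h

open Classical in
theorem forb_ge (hc : Cyc E n g) (hp : IsPolygon E) (hn : 8 ≤ n) {i : ℕ} (h2 : 2 ≤ i)
    (hi : i ≤ n - 2) : (Ac g n i).card +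
      (if corner g (i - 1) ∧ ¬ ∃ m ≤ i - 1, fv g (i - 1) = g m then 1 else 0) ≤
        (forb g i).ncard := by
  have hcard : ((Ac g n i).image fun m => g m - g i).card = (Ac g n i).card := by
    rw [card_image_of_injOn]
    intro p hp q hq hpq
    rw [mem_coe, Ac, mem_filter, mem_range] at hp hq
    exact hc.inj _ hp.1 _ hq.1 (sub_left_injective hpq)
  have hsub : ∀ d ∈ (Ac g n i).image fun m => g m - g i, d ∈ forb g i := by
    intro d hd
    rw [mem_image] at hd
    obtain ⟨m, hm, rfl⟩ := hd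
    rw [Ac, mem_filter, mem_range] at hm
    refine ⟨mem_D6.1 hm.2.2, ?_, Or.inl ⟨m, by omega, by abel⟩⟩
    intro h
    have h1 : g m = g (i - 1) := by
      have : g m = (g m - g i) + g i := by abel
      rw [this, h]
      abel
    have := hc.inj _ hm.1 _ (by omega) h1
    omega
  split_ifs with hex
  · obtain ⟨h3, h4⟩ := hex
    have e1 : i - 1 - 1 = i - 2 := by omega
    have e2 : i - 1 + 1 = i := by omega
    have e3 : i - 2 + 1 = i - 1 := by omega
    have hst : st g (i - 2) = g (i - 1) - g (i - 2) := by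
      unfold st
      rw [e3]
    have hst' : st g (i - 1) = g i - g (i - 1) := by
      unfold st
      rw [e2]
    have hnot : -(g (i - 1) - g (i - 2)) ∉ (Ac g n i).image fun m => g m - g i := by
      intro h
      rw [mem_image] at h
      obtain ⟨m, hm, hmd⟩ := h
      rw [Ac, mem_filter, mem_range] at hm
      apply h4
      refine ⟨m, by omega, ?_⟩
      unfold fv
      rw [e1, e2]
      have : g m = (g m - g i) + g i := by abel
      rw [this, hmd]
      abel
    have hT : ((insert (-(g (i - 1) - g (i - 2))) ((Ac g n i).image fun m => g m - g i) :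
        Finset P3) : Set P3) ⊆ forb g i := by
      intro d hd
      rw [mem_coe, mem_insert] at hd
      rcases hd with rfl | hd
      · refine ⟨?_, ?_, Or.inr rfl⟩
        · rw [← hst]
          exact isUnit3_neg (unit_st hc hp (by omega))
        · intro h
          apply h3
          rw [e1, hst, hst']
          exact neg_injective h
      · exact hsub d hd
    have h5 := Set.ncard_le_ncard hT (forb_finite g i)
    rw [Set.ncard_coe_finset, card_insert_of_notMem hnot, hcard] at h5
    exact h5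
  · rw [add_zero, ← hcard, ← Set.ncard_coe_finset]
    exact Set.ncard_le_ncard (fun d hd => hsub d hd) (forb_finite g i)

/-- PART 2 -/
theorem part2 (hc : Cyc E n g) (hp : IsPolygon E) (hn : 8 ≤ n) :
    (∑ i ∈ Icc 2 (n - 2), (Ac g n i).card) + cK g n ≤
      (∑ i ∈ Icc 2 (n - 2), (forb g i).ncard) + cFe g n + 1 := by
  classical
  have h1 : (∑ i ∈ Icc 2 (n - 2), (Ac g n i).card) + ((Icc 2 (n - 2)).filter fun i =>
      corner g (i - 1) ∧ ¬ ∃ m ≤ i - 1, fv g (i - 1) = g m).card ≤
      ∑ i ∈ Icc 2 (n - 2), (forb g i).ncard := by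
    rw [card_filter, ← sum_add_distrib]
    refine sum_le_sum fun i hi => ?_
    rw [mem_Icc] at hi
    exact forb_ge hc hp hn hi.1 hi.2
  have h2 : cK g n ≤ ((Icc 2 (n - 2)).filter fun i =>
      corner g (i - 1) ∧ ¬ ∃ m ≤ i - 1, fv g (i - 1) = g m).card + cFe g n + 1 := by
    unfold cK cFe
    set X := (Icc 2 (n - 2)).filter fun i =>
      corner g (i - 1) ∧ ¬ ∃ m ≤ i - 1, fv g (i - 1) = g m with hX
    set Y := (Icc 1 (n - 3)).filter fun j => corner g j ∧ ∃ m ≤ j, fv g j = g m with hY
    have h3 : ((Icc 1 (n - 2)).filter fun j => corner g j) ⊆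
        (X.image (fun i => i - 1) ∪ Y) ∪ {n - 2} := by
      intro j hj
      rw [mem_filter, mem_Icc] at hj
      rw [mem_union, mem_union, mem_singleton, mem_image, hX, hY, mem_filter, mem_Icc]
      by_cases h4 : j = n - 2
      · exact Or.inr h4
      · left
        by_cases h5 : ∃ m ≤ j, fv g j = g m
        · exact Or.inr ⟨⟨hj.1.1, by omega⟩, hj.2, h5⟩
        · left
          refine ⟨j + 1, ?_, Nat.add_sub_cancel _ _⟩
          rw [mem_filter, mem_Icc, Nat.add_sub_cancel]
          exact ⟨⟨by omega, by omega⟩, hj.2, h5⟩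
    have h4 := card_le_card h3
    have h5 := card_union_le (X.image (fun i => i - 1) ∪ Y) {n - 2}
    have h6 := card_union_le (X.image (fun i => i - 1)) Y
    have h7 : (X.image (fun i => i - 1)).card ≤ X.card := card_image_le
    rw [card_singleton] at h5
    omega
  omega

theorem lemA (hc : Cyc E n g) (hp : IsPolygon E) (hn : 8 ≤ n) :
    4 * n + 2 * cK g n + 2 * cF E g n ≤
      4 * (∑ i ∈ Icc 2 (n - 2), (forb g i).ncard) + 4 * cFe g n + nSpot E + 2 * nU E + 30 := by
  have h1 := part1 hc hp hn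
  have h2 := part2 hc hp hn
  have h3 := contacts hc hn
  omega

theorem turns_le (g : ℕ → P3) (n : ℕ) : turns g n ≤ cK g n := by
  classical
  unfold turns cK
  refine card_le_card ?_
  intro i hi
  rw [mem_filter, mem_Icc] at hi
  rw [mem_filter, mem_Icc]
  refine ⟨⟨by omega, hi.1.2⟩, ?_⟩
  unfold corner st
  rw [Nat.sub_add_cancel (by omega)]
  exact fun h => hi.2 h.symm

/-! ### the reversed walk -/

/-- the reversed walk -/
def rv (g : ℕ → P3) (n : ℕ) : ℕ → P3 := fun i => g (n - i)

theorem cyc_rv (hc : Cyc E n g) : Cyc E n (rv g n) := by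
  have h3 := hc.three
  refine ⟨h3, ?_, ?_, ?_⟩
  · unfold rv
    rw [Nat.sub_self, Nat.sub_zero, hc.per]
  · intro i hi j hj hij
    unfold rv at hij
    rcases Nat.eq_zero_or_pos i with rfl | hi0 <;> rcases Nat.eq_zero_or_pos j with rfl | hj0
    · rfl
    · rw [Nat.sub_zero, hc.per] at hij
      have := hc.inj _ (by omega) _ (by omega) hij
      omega
    · rw [Nat.sub_zero, hc.per] at hij
      have := hc.inj _ (by omega) _ (by omega) hij
      omega
    · have := hc.inj _ (by omega) _ (by omega) hij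
      omega
  · intro u v
    rw [hc.edge]
    unfold rv
    constructor
    · rintro ⟨i, hi, h⟩
      refine ⟨n - 1 - i, by omega, ?_⟩
      have e1 : n - (n - 1 - i) = i + 1 := by omega
      have e2 : n - (n - 1 - i + 1) = i := by omega
      rw [e1, e2, h, Sym2.eq_swap]
    · rintro ⟨i, hi, h⟩
      refine ⟨n - 1 - i, by omega, ?_⟩
      have e1 : n - 1 - i + 1 = n - i := by omega
      have e2 : n - (i + 1) = n - 1 - i := by omega
      rw [e1, h, e2, Sym2.eq_swap]

theorem corner_rv {i : ℕ} (h1 : 1 ≤ i) (h2 : i < n) : corner (rv g n) i ↔ corner g (n - i) := by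
  unfold corner st rv
  have e1 : i - 1 + 1 = i := by omega
  have e2 : n - (i - 1) = n - i + 1 := by omega
  have e3 : n - (i + 1) = n - i - 1 := by omega
  have e4 : n - i - 1 + 1 = n - i := by omega
  rw [e1, e2, e3, e4]
  constructor
  · intro h h'
    apply h
    rw [← neg_sub, ← h', neg_sub]
  · intro h h'
    apply h
    rw [← neg_sub, ← h', neg_sub]

theorem fv_rv {i : ℕ} (h1 : 1 ≤ i) (h2 : i < n) : fv (rv g n) i = fv g (n - i) := by
  unfold fv rv
  have e2 : n - (i - 1) = n - i + 1 := by omega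
  have e3 : n - (i + 1) = n - i - 1 := by omega
  rw [e2, e3, add_comm]

theorem cF_rv (hn : 8 ≤ n) : cF E g n ≤ cF E (rv g n) n + 1 := by
  classical
  unfold cF
  set X := (Icc 1 (n - 2)).filter fun j => corner (rv g n) j ∧ fv (rv g n) j ∈ verts E with hX
  have h1 : ((Icc 1 (n - 2)).filter fun j => corner g j ∧ fv g j ∈ verts E) ⊆
      X.image (fun i => n - i) ∪ {1} := by
    intro j hj
    rw [mem_filter, mem_Icc] at hj
    rw [mem_union, mem_singleton, mem_image]
    by_cases h2 : j = 1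
    · exact Or.inr h2
    · refine Or.inl ⟨n - j, ?_, by omega⟩
      rw [hX, mem_filter, mem_Icc, corner_rv (by omega) (by omega), fv_rv (by omega) (by omega)]
      have e1 : n - (n - j) = j := by omega
      rw [e1]
      exact ⟨⟨by omega, by omega⟩, hj.2⟩
  have h2 := card_le_card h1
  have h3 := card_union_le (X.image (fun i => n - i)) {1}
  have h4 : (X.image (fun i => n - i)).card ≤ X.card := card_image_le
  rw [card_singleton] at h3
  omega

theorem cFe_add (hc : Cyc E n g) (hp : IsPolygon E) (hn : 8 ≤ n) :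
    cFe g n + cFe (rv g n) n ≤ cF E g n + 7 := by
  classical
  set S1 := (Icc 1 (n - 3)).filter fun j => corner g j ∧ ∃ m ≤ j, fv g j = g m with hS1
  set S2' := (Icc 1 (n - 3)).filter fun j => corner (rv g n) j ∧ ∃ m ≤ j,
    fv (rv g n) j = rv g n m with hS2'
  set S2 := S2'.image fun i => n - i with hS2
  have hcard : S2.card = S2'.card := by
    rw [hS2, card_image_of_injOn]
    intro p hp q hq hpq
    rw [mem_coe, hS2', mem_filter, mem_Icc] at hp hq
    simp only at hpq
    omega
  have hmem2 : ∀ j ∈ S2, 3 ≤ j ∧ j ≤ n - 1 ∧ corner g j ∧ ∃ l, j ≤ l ∧ l ≤ n ∧ fv g j = g l := by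
    intro j hj
    rw [hS2, mem_image] at hj
    obtain ⟨i, hi, rfl⟩ := hj
    rw [hS2', mem_filter, mem_Icc] at hi
    obtain ⟨⟨h1, h2⟩, h3, m, h4, h5⟩ := hi
    rw [corner_rv h1 (by omega)] at h3
    rw [fv_rv h1 (by omega)] at h5
    exact ⟨by omega, by omega, h3, n - m, by omega, by omega, h5⟩
  have hU : S1 ∪ S2 ⊆ ((Icc 1 (n - 2)).filter fun j => corner g j ∧ fv g j ∈ verts E) ∪
      {n - 1} := by
    intro j hj
    rw [mem_union, mem_singleton, mem_filter, mem_Icc]
    rw [mem_union] at hj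
    rcases hj with hj | hj
    · rw [hS1, mem_filter, mem_Icc] at hj
      obtain ⟨⟨h1, h2⟩, h3, m, h4, h5⟩ := hj
      refine Or.inl ⟨⟨h1, by omega⟩, h3, ?_⟩
      rw [h5]
      exact g_mem hc (by omega)
    · obtain ⟨h1, h2, h3, l, h4, h5, h6⟩ := hmem2 j hj
      by_cases h7 : j = n - 1
      · exact Or.inr h7
      · refine Or.inl ⟨⟨by omega, by omega⟩, h3, ?_⟩
        rw [h6]
        rcases Nat.lt_or_ge l n with h8 | h8
        · exact g_mem hc h8
        · have : l = n := by omega
          rw [this, hc.per]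
          exact g_mem hc (by omega)
  have hI : (S1 ∩ S2).card ≤ 6 := by
    rw [← card_D6]
    have hz : ∀ j ∈ S1 ∩ S2, 1 ≤ j ∧ j ≤ n - 3 ∧ fv g j = g 0 := by
      intro j hj
      rw [mem_inter] at hj
      obtain ⟨h1, h2, h3, l, h4, h5, h6⟩ := hmem2 j hj.2
      have h7 := hj.1
      rw [hS1, mem_filter, mem_Icc] at h7
      obtain ⟨⟨h8, h9⟩, h10, m, h11, h12⟩ := h7
      refine ⟨h8, h9, ?_⟩
      rcases Nat.lt_or_ge l n with h13 | h13
      · exfalso
        have h14 : g m = g l := by rw [← h12, h6]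
        have h15 := hc.inj _ (by omega) _ h13 h14
        have h16 : m = j := by omega
        rw [h16] at h12
        apply h10
        unfold st
        unfold fv at h12
        rw [Nat.sub_add_cancel h8]
        have : g (j + 1) = g j + g j - g (j - 1) := by
          have e : g (j + 1) = (g (j - 1) + g (j + 1) - g j) + g j - g (j - 1) := by abel
          rw [e, h12]
        rw [this]
        abel
      · have : l = n := by omega
        rw [h6, this, hc.per]
    refine card_le_card_of_injOn (fun j => st g j) ?_ ?_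
    · intro j hj
      have := hz j hj
      exact mem_D6.2 (unit_st hc hp (by omega))
    · intro i hi j hj hij
      have h1 := hz i hi
      have h2 := hz j hj
      have e1 : g (i - 1) = g 0 - st g i := by
        rw [← h1.2.2]
        unfold fv st
        abel
      have e2 : g (j - 1) = g 0 - st g j := by
        rw [← h2.2.2]
        unfold fv st
        abel
      simp only at hij
      have := hc.inj (i - 1) (by omega) (j - 1) (by omega) (by rw [e1, e2, hij])
      omega
  have h1 := card_union_add_card_inter S1 S2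
  have h2 := card_le_card hU
  have h3 := card_union_le ((Icc 1 (n - 2)).filter fun j => corner g j ∧ fv g j ∈ verts E) {n - 1}
  rw [card_singleton] at h3
  have h4 : cFe g n = S1.card := rfl
  have h5 : cFe (rv g n) n = S2'.card := rfl
  have h6 : cF E g n = ((Icc 1 (n - 2)).filter fun j => corner g j ∧ fv g j ∈ verts E).card := rfl
  omega

end RRA

open RRA in
/-- Package R3a. -/
theorem rigIneq : RigIneqStatement := by
  refine ⟨100, fun E n g hc hp hn => ?_⟩
  have h1 := lemA hc hp hn
  have h2 := lemA (cyc_rv hc) hp hn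
  have h3 := cF_rv (E := E) (g := g) hn
  have h4 := cFe_add hc hp hn
  have h5 := turns_le g n
  have h6 := turns_le (rv g n) n
  by_cases h : 2 * cFe g n ≤ cF E g n + 8
  · refine ⟨g, hc, ?_⟩
    omega
  · refine ⟨rv g n, cyc_rv hc, ?_⟩
    omega

end Pool.Agent.LK
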