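import Pool.Agent.MP_aea6d5_co.RRigid

/-! # Rigid polygons are rare: counting by weights (Kraft inequality) -/

set_option autoImplicit false

open Filter Topology

namespace Pool.Agent.LK

namespace RigB

/-- the six unit vectors -/
def units : Finset P3 :=
  {(1, 0, 0), (-1, 0, 0), (0, 1, 0), (0, -1, 0), (0, 0, 1), (0, 0, -1)}

theorem card_units : units.card = 6 := by decide

theorem mem_units {d : P3} : d ∈ units ↔ IsUnit3 d := by
  rw [isUnit3_iff]
  simp [units]

/-- the words of length `k`; the most recent letter is the first one -/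
def words : ℕ → Finset (List P3)
  | 0 => {[]}
  | k + 1 => (units ×ˢ words k).image fun x => x.1 :: x.2

/-- forbidden steps after the word `p` -/
def Forb (p : List P3) (d : P3) : Prop :=
  (∃ k, 1 ≤ k ∧ k ≤ p.length ∧ (p.take k).sum + d = 0) ∨ d = -(p.getD 1 0)

open Classical in
/-- allowed steps after the word `p` -/
noncomputable def allowed (p : List P3) : Finset P3 :=
  units.filter fun d => d ≠ -(p.getD 0 0) ∧ ¬ Forb p d

/-- preference for going straight -/
noncomputable def tau (p : List P3) (d : P3) : ℝ := if d = p.getD 0 0 then 1 else 9 / 10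

noncomputable def T (p : List P3) : ℝ := ∑ d ∈ allowed p, tau p d

open Classical in
/-- the weight of the step `d` after the word `p` -/
noncomputable def om (p : List P3) (d : P3) : ℝ :=
  if p.length < 2 then 1 else if d ∈ allowed p then (199 / 200) * (tau p d / T p) else 1 / 1200

/-- the weight of a word -/
noncomputable def wt : List P3 → ℝ
  | [] => 1
  | d :: p => om p d * wt p

theorem tau_pos (p : List P3) (d : P3) : 0 < tau p d := by unfold tau; split_ifs <;> norm_num

theorem T_nonneg (p : List P3) : 0 ≤ T p := Finset.sum_nonneg fun d _ => (tau_pos p d).le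

theorem T_pos {p : List P3} {d : P3} (h : d ∈ allowed p) : 0 < T p :=
  Finset.sum_pos (fun d _ => tau_pos p d) ⟨d, h⟩

theorem om_pos (p : List P3) (d : P3) : 0 < om p d := by
  unfold om
  split_ifs with h1 h2
  · exact one_pos
  · have := tau_pos p d
    have := T_pos h2
    positivity
  · norm_num

theorem wt_pos : ∀ p : List P3, 0 < wt p
  | [] => one_pos
  | d :: p => mul_pos (om_pos p d) (wt_pos p)

theorem allowed_subset (p : List P3) : allowed p ⊆ units := by
  classical
  unfold allowed
  exact Finset.filter_subset _ _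

theorem sum_om_short {p : List P3} (h : p.length < 2) : ∑ d ∈ units, om p d = 6 := by
  have : ∀ d ∈ units, om p d = 1 := fun d _ => by unfold om; rw [if_pos h]
  rw [Finset.sum_congr rfl this, Finset.sum_const, card_units]
  norm_num

theorem sum_om_le {p : List P3} (h : ¬ p.length < 2) : ∑ d ∈ units, om p d ≤ 1 := by
  classical
  have h1 : ∀ d ∈ units, om p d ≤ (if d ∈ allowed p then (199 / 200) * (tau p d / T p) else 0) +
      1 / 1200 := by
    intro d _
    unfold om
    rw [if_neg h]
    split_ifs
    · norm_num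
    · norm_num
  refine (Finset.sum_le_sum h1).trans ?_
  rw [Finset.sum_add_distrib, Finset.sum_const, card_units, ← Finset.sum_filter]
  have h2 : units.filter (fun d => d ∈ allowed p) = allowed p := by
    ext d
    rw [Finset.mem_filter]
    exact ⟨fun h => h.2, fun h => ⟨allowed_subset p h, h⟩⟩
  rw [h2, ← Finset.mul_sum, ← Finset.sum_div]
  have h3 : (∑ i ∈ allowed p, tau p i) / T p ≤ 1 := div_self_le_one _
  norm_num
  linarith

theorem length_of_mem_words {k : ℕ} : ∀ {p : List P3}, p ∈ words k → p.length = k := by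
  induction k with
  | zero => intro p hp; simp [words] at hp; simp [hp]
  | succ k ih =>
    intro p hp
    simp only [words, Finset.mem_image, Finset.mem_product] at hp
    obtain ⟨⟨d, q⟩, ⟨-, hq⟩, rfl⟩ := hp
    simp [ih hq]

theorem sum_words (k : ℕ) : ∑ p ∈ words (k + 1), wt p =
    ∑ p ∈ words k, wt p * ∑ d ∈ units, om p d := by
  rw [words, Finset.sum_image]
  · rw [Finset.sum_product_right]
    refine Finset.sum_congr rfl fun p _ => ?_
    rw [Finset.mul_sum]
    refine Finset.sum_congr rfl fun d _ => ?_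
    simp only [wt]
    ring
  · rintro ⟨d, p⟩ _ ⟨d', p'⟩ _ h
    simp only [List.cons.injEq] at h
    exact Prod.ext h.1 h.2

theorem kraft (k : ℕ) : ∑ p ∈ words k, wt p ≤ 36 := by
  rcases k with _ | k
  · simp [words, wt]
  rcases k with _ | k
  · rw [sum_words]
    simp only [words, Finset.sum_singleton, wt]
    rw [sum_om_short (by simp)]
    norm_num
  induction k with
  | zero =>
    have h : ∀ p ∈ words 1, wt p * ∑ d ∈ units, om p d = wt p * 6 := fun p hp => by
      rw [sum_om_short (by rw [length_of_mem_words hp]; norm_num)]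
    rw [sum_words, Finset.sum_congr rfl h, ← Finset.sum_mul, sum_words]
    simp only [words, Finset.sum_singleton, wt]
    rw [sum_om_short (by simp)]
    norm_num
  | succ k ih =>
    rw [sum_words]
    refine le_trans (Finset.sum_le_sum fun p hp => ?_) ih
    have h1 := sum_om_le (p := p) (by rw [length_of_mem_words hp]; omega)
    have h2 := (wt_pos p).le
    nlinarith

/-- the word of the first `k` steps of `g` -/
def steps (g : ℕ → P3) : ℕ → List P3
  | 0 => []
  | k + 1 => (g (k + 1) - g k) :: steps g k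

theorem length_steps (g : ℕ → P3) (k : ℕ) : (steps g k).length = k := by
  induction k with
  | zero => rfl
  | succ k ih => simp [steps, ih]

theorem steps_mem_words {g : ℕ → P3} {k : ℕ} (h : ∀ i < k, IsUnit3 (g (i + 1) - g i)) :
    steps g k ∈ words k := by
  induction k with
  | zero => simp [steps, words]
  | succ k ih =>
    simp only [words, Finset.mem_image, Finset.mem_product]
    exact ⟨(g (k + 1) - g k, steps g k), ⟨mem_units.2 (h k (by omega)),
      ih fun i hi => h i (by omega)⟩, rfl⟩

theorem wt_steps (g : ℕ → P3) (k : ℕ) :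
    wt (steps g k) = ∏ i ∈ Finset.range k, om (steps g i) (g (i + 1) - g i) := by
  induction k with
  | zero => simp [steps, wt]
  | succ k ih => rw [Finset.prod_range_succ, ← ih, steps, wt, mul_comm]

theorem take_steps (g : ℕ → P3) (i : ℕ) : ∀ k ≤ i, ((steps g i).take k).sum = g i - g (i - k) := by
  induction i with
  | zero => intro k hk; obtain rfl : k = 0 := by omega
            simp
  | succ i ih =>
    intro k hk
    rcases k with _ | k
    · simp
    · simp only [steps, List.take_succ_cons, List.sum_cons]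
      rw [ih k (by omega)]
      have : i + 1 - (k + 1) = i - k := by omega
      rw [this]
      abel

theorem steps_inj {g g' : ℕ → P3} {k : ℕ} (h : steps g k = steps g' k) :
    ∀ i < k, g (i + 1) - g i = g' (i + 1) - g' i := by
  induction k with
  | zero => intro i hi; omega
  | succ k ih =>
    simp only [steps, List.cons.injEq] at h
    intro i hi
    rcases Nat.lt_or_ge i k with h1 | h1
    · exact ih h.2 i h1
    · obtain rfl : i = k := by omega
      exact h.1

theorem getD_zero {g : ℕ → P3} {i : ℕ} (hi : 2 ≤ i) : (steps g i).getD 0 0 = g i - g (i - 1) := by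
  obtain ⟨i, rfl⟩ : ∃ j, i = j + 2 := ⟨i - 2, by omega⟩
  simp [steps]

theorem getD_one {g : ℕ → P3} {i : ℕ} (hi : 2 ≤ i) :
    (steps g i).getD 1 0 = g (i - 1) - g (i - 2) := by
  obtain ⟨i, rfl⟩ : ∃ j, i = j + 2 := ⟨i - 2, by omega⟩
  simp [steps]

theorem forb_iff {g : ℕ → P3} {i : ℕ} (hi : 2 ≤ i) (d : P3) :
    d ∈ forb g i ↔ IsUnit3 d ∧ d ≠ -((steps g i).getD 0 0) ∧ Forb (steps g i) d := by
  unfold forb Forb
  rw [getD_zero hi, getD_one hi, length_steps]
  simp only [Set.mem_ofPred_eq]
  have : (∃ j < i, g i + d = g j) ↔ ∃ k, 1 ≤ k ∧ k ≤ i ∧ ((steps g i).take k).sum + d = 0 := by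
    constructor
    · rintro ⟨j, hj, h⟩
      refine ⟨i - j, by omega, by omega, ?_⟩
      rw [take_steps g i (i - j) (by omega)]
      have : i - (i - j) = j := by omega
      rw [this, ← h]
      abel
    · rintro ⟨k, h1, h2, h⟩
      refine ⟨i - k, by omega, ?_⟩
      rw [take_steps g i k h2] at h
      have : g i + d = (g i - g (i - k) + d) + g (i - k) := by abel
      rw [this, h, zero_add]
  rw [this]

theorem forb_card {g : ℕ → P3} {i : ℕ} (hi : 2 ≤ i) (hu : IsUnit3 (g i - g (i - 1))) :
    (forb g i).ncard + (allowed (steps g i)).card = 5 := by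
  classical
  have h1 : forb g i = ((units.filter fun d => d ≠ -((steps g i).getD 0 0) ∧
      Forb (steps g i) d : Finset P3) : Set P3) := by
    ext d
    rw [forb_iff hi, Finset.mem_coe, Finset.mem_filter, mem_units]
  rw [h1, Set.ncard_coe_finset]
  have h2 : (units.filter fun d => d ≠ -((steps g i).getD 0 0)).card = 5 := by
    have h3 : units.filter (fun d => d ≠ -((steps g i).getD 0 0)) =
        units.erase (-((steps g i).getD 0 0)) := by
      ext d
      rw [Finset.mem_filter, Finset.mem_erase]
      tauto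
    rw [h3, Finset.card_erase_of_mem, card_units]
    rw [mem_units, getD_zero hi]
    exact isUnit3_neg hu
  rw [← h2, ← Finset.card_filter_add_card_filter_not (s := units.filter fun d =>
    d ≠ -((steps g i).getD 0 0)) (fun d => Forb (steps g i) d), Finset.filter_filter,
    Finset.filter_filter]
  rfl

theorem T_le {g : ℕ → P3} {i : ℕ} (hi : 2 ≤ i) (hu : IsUnit3 (g i - g (i - 1))) :
    T (steps g i) ≤ 46 / 10 - 9 / 10 * ((forb g i).ncard : ℝ) := by
  classical
  have h1 := forb_card hi hu
  have h2 : T (steps g i) ≤ 9 / 10 * ((allowed (steps g i)).card : ℝ) + 1 / 10 := by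
    unfold T
    have h3 : ∀ d ∈ allowed (steps g i), tau (steps g i) d = 9 / 10 +
        (if d = (steps g i).getD 0 0 then 1 / 10 else 0) := by
      intro d _
      unfold tau
      split_ifs <;> norm_num
    rw [Finset.sum_congr rfl h3, Finset.sum_add_distrib, Finset.sum_const, nsmul_eq_mul,
      Finset.sum_ite_eq']
    split_ifs <;> linarith
  have h4 : ((allowed (steps g i)).card : ℝ) = 5 - ((forb g i).ncard : ℝ) := by
    have : ((forb g i).ncard : ℝ) + ((allowed (steps g i)).card : ℝ) = 5 := by exact_mod_cast h1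
    linarith
  rw [h4] at h2
  linarith

theorem Icc_card_le (n : ℕ) : (Finset.Icc 2 (n - 2)).card ≤ n := by
  rw [Nat.card_Icc]; omega

/-- the estimate for one step -/
theorem om_inv_le {g : ℕ → P3} {i : ℕ} (hi : 2 ≤ i) (hu : IsUnit3 (g i - g (i - 1)))
    (hu' : IsUnit3 (g (i + 1) - g i)) (hrev : g (i + 1) - g i ≠ -(g i - g (i - 1))) :
    (om (steps g i) (g (i + 1) - g i))⁻¹ ≤ 372 / 100 *
      Real.exp (9 / 37 * (1 - ((forb g i).ncard : ℝ))) *
      (if g (i + 1) - g i ≠ g i - g (i - 1) then 10 / 9 else 1) *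
      (open Classical in if g (i + 1) - g i ∈ forb g i then 1200 * Real.exp 1 else 1) := by
  classical
  have hlen : ¬ (steps g i).length < 2 := by rw [length_steps]; omega
  have hcard := forb_card hi hu
  have hT := T_le hi hu
  have hf : ((forb g i).ncard : ℝ) ≤ 5 := by
    have : (forb g i).ncard ≤ 5 := by omega
    exact_mod_cast this
  have hturn : (1 : ℝ) ≤ if g (i + 1) - g i ≠ g i - g (i - 1) then 10 / 9 else 1 := by
    split_ifs <;> norm_num
  by_cases hb : g (i + 1) - g i ∈ forb g i
  · rw [if_pos hb]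
    have hna : g (i + 1) - g i ∉ allowed (steps g i) := by
      intro h
      unfold allowed at h
      rw [Finset.mem_filter] at h
      exact h.2.2 ((forb_iff hi _).1 hb).2.2
    have hom : om (steps g i) (g (i + 1) - g i) = 1 / 1200 := by
      unfold om
      rw [if_neg hlen, if_neg hna]
    rw [hom]
    have h1 : (1 : ℝ) ≤ Real.exp (9 / 37 * (1 - ((forb g i).ncard : ℝ))) * Real.exp 1 := by
      rw [← Real.exp_add]
      apply Real.one_le_exp
      linarith
    set a := Real.exp (9 / 37 * (1 - ((forb g i).ncard : ℝ))) with ha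
    set b := Real.exp 1 with hb'
    set t : ℝ := if g (i + 1) - g i ≠ g i - g (i - 1) then 10 / 9 else 1 with ht
    have h2 : 1 ≤ t * (a * b) := one_le_mul_of_one_le_of_one_le hturn h1
    have e : 372 / 100 * a * t * (1200 * b) = 372 / 100 * 1200 * (t * (a * b)) := by ring
    rw [e]
    norm_num
    linarith
  · rw [if_neg hb, mul_one]
    have hal : g (i + 1) - g i ∈ allowed (steps g i) := by
      unfold allowed
      rw [Finset.mem_filter, mem_units]
      refine ⟨hu', ?_, fun h => hb ((forb_iff hi _).2 ⟨hu', ?_, h⟩)⟩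
      · rw [getD_zero hi]; exact hrev
      · rw [getD_zero hi]; exact hrev
    have hom : om (steps g i) (g (i + 1) - g i) = (199 / 200) *
        (tau (steps g i) (g (i + 1) - g i) / T (steps g i)) := by
      unfold om
      rw [if_neg hlen, if_pos hal]
    have hTp := T_pos hal
    have h1 : T (steps g i) ≤ 37 / 10 * Real.exp (9 / 37 * (1 - ((forb g i).ncard : ℝ))) := by
      have h2 := Real.add_one_le_exp (T (steps g i) / (37 / 10) - 1)
      have h3 : T (steps g i) / (37 / 10) - 1 ≤ 9 / 37 * (1 - ((forb g i).ncard : ℝ)) := by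
        linarith
      have h4 := Real.exp_le_exp.2 h3
      linarith
    rw [hom]
    set a := Real.exp (9 / 37 * (1 - ((forb g i).ncard : ℝ))) with ha
    have ha0 : 0 < a := Real.exp_pos _
    unfold tau
    rw [getD_zero hi]
    have hT0 : T (steps g i) ≠ 0 := hTp.ne'
    by_cases h5 : g (i + 1) - g i = g i - g (i - 1)
    · rw [if_pos h5, if_neg (not_not.2 h5)]
      have e : (199 / 200 * (1 / T (steps g i)))⁻¹ = 200 / 199 * T (steps g i) := by
        field_simp
      rw [e]
      linarith
    · rw [if_neg h5, if_pos h5]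
      have e : (199 / 200 * (9 / 10 / T (steps g i)))⁻¹ = 200 / 199 * (10 / 9) * T (steps g i) := by
        field_simp
      rw [e]
      linarith

/-- the number of forbidden steps made by a polygon -/
theorem bad_le (h0 : LocalFacts) {E : Finset (Sym2 P3)} {n : ℕ} {g : ℕ → P3} (hc : Cyc E n g)
    (hE : IsPolygon E) (hn : 8 ≤ n) :
    (open Classical in ((Finset.Icc 2 (n - 2)).filter fun i => g (i + 1) - g i ∈ forb g i).card) ≤
      nU E := by
  classical
  unfold nU
  rw [Set.ncard_eq_toFinset_card _ (h0.ushape_finite E)]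
  refine Finset.card_le_card_of_injOn (fun i => (g (i - 2), g (i + 1), g (i - 1) - g (i - 2)))
    ?_ ?_
  · intro i hi
    rw [Finset.mem_coe, Finset.mem_filter, Finset.mem_Icc] at hi
    obtain ⟨⟨hi2, hin⟩, hf⟩ := hi
    rw [Finset.mem_coe, Set.Finite.mem_toFinset]
    have hvis : ¬ ∃ j < i, g i + (g (i + 1) - g i) = g j := by
      rintro ⟨j, hj, h⟩
      have e : g (i + 1) = g j := by rw [← h]; abel
      have := hc.inj (i + 1) (by omega) j (by omega) e
      omega
    have hd : g (i + 1) - g i = -(g (i - 1) - g (i - 2)) := by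
      have := hf.2.2
      exact this.resolve_left hvis
    have e1 : g (i - 2) + (g (i - 1) - g (i - 2)) = g (i - 1) := by abel
    have e2 : g (i + 1) + (g (i - 1) - g (i - 2)) = g i := by
      have : g (i - 1) - g (i - 2) = -(g (i + 1) - g i) := by rw [hd, neg_neg]
      rw [this]; abel
    refine ⟨?_, ?_, ?_, ?_, ?_⟩
    · change s(g (i - 2), g (i + 1)) ∉ E
      intro hmem
      obtain ⟨k, hk, h⟩ := (hc.edge _ _).1 hmem
      rcases Sym2.eq_iff.1 h with ⟨h1, h2⟩ | ⟨h1, h2⟩
      · have hk' := hc.inj (i - 2) (by omega) k hk h1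
        subst hk'
        have := hc.inj (i + 1) (by omega) (i - 2 + 1) (by omega) h2
        omega
      · have hk' := hc.inj (i + 1) (by omega) k hk h2
        subst hk'
        rcases Nat.lt_or_ge (i + 1 + 1) n with h3 | h3
        · have := hc.inj (i - 2) (by omega) (i + 1 + 1) h3 h1
          omega
        · have h4 : i + 1 + 1 = n := by omega
          rw [h4, hc.per] at h1
          have := hc.inj (i - 2) (by omega) 0 (by omega) h1
          omega
    · change IsUnit3 (g (i - 1) - g (i - 2))
      have h5 := hc.mem_edge (i := i - 2) (by omega)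
      have h6 := adj_iff.1 (hE.adj _ _ h5)
      have : i - 2 + 1 = i - 1 := by omega
      rwa [this] at h6
    · change s(g (i - 2), g (i - 2) + (g (i - 1) - g (i - 2))) ∈ E
      rw [e1]
      have h5 := hc.mem_edge (i := i - 2) (by omega)
      have : i - 2 + 1 = i - 1 := by omega
      rwa [this] at h5
    · change s(g (i - 2) + (g (i - 1) - g (i - 2)), g (i + 1) + (g (i - 1) - g (i - 2))) ∈ E
      rw [e1, e2]
      have h5 := hc.mem_edge (i := i - 1) (by omega)
      have : i - 1 + 1 = i := by omega
      rwa [this] at h5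
    · change s(g (i + 1) + (g (i - 1) - g (i - 2)), g (i + 1)) ∈ E
      rw [e2]
      exact hc.mem_edge (i := i) (by omega)
  · intro i hi j hj hij
    rw [Finset.mem_coe, Finset.mem_filter, Finset.mem_Icc] at hi hj
    simp only [Prod.mk.injEq] at hij
    have := hc.inj (i + 1) (by omega) (j + 1) (by omega) hij.2.1
    omega

/-- the estimate for the whole walk -/
theorem wt_inv_le {E : Finset (Sym2 P3)} {n : ℕ} {g : ℕ → P3} (hc : Cyc E n g)
    (hE : IsPolygon E) (hn : 8 ≤ n) :
    (wt (steps g (n - 1)))⁻¹ ≤ (372 / 100) ^ n *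
      Real.exp (9 / 37 * (n - (∑ i ∈ Finset.Icc 2 (n - 2), ((forb g i).ncard : ℝ)))) *
      (10 / 9) ^ turns g n *
      (1200 * Real.exp 1) ^
        (open Classical in ((Finset.Icc 2 (n - 2)).filter fun i =>
          g (i + 1) - g i ∈ forb g i).card) := by
  classical
  have hunit : ∀ i, i < n → IsUnit3 (g (i + 1) - g i) := fun i hi =>
    adj_iff.1 (hE.adj _ _ (hc.mem_edge hi))
  have h1 : wt (steps g (n - 1)) = ∏ i ∈ Finset.Icc 2 (n - 2), om (steps g i) (g (i + 1) - g i) := by
    rw [wt_steps]
    symm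
    refine Finset.prod_subset (fun i hi => ?_) fun i hi hi' => ?_
    · rw [Finset.mem_Icc] at hi
      rw [Finset.mem_range]; omega
    · rw [Finset.mem_range] at hi
      rw [Finset.mem_Icc] at hi'
      unfold om
      rw [if_pos (by rw [length_steps]; omega)]
  rw [h1, ← Finset.prod_inv_distrib]
  have h2 : ∀ i ∈ Finset.Icc 2 (n - 2), (om (steps g i) (g (i + 1) - g i))⁻¹ ≤ 372 / 100 *
      Real.exp (9 / 37 * (1 - ((forb g i).ncard : ℝ))) *
      (if g (i + 1) - g i ≠ g i - g (i - 1) then 10 / 9 else 1) *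
      (if g (i + 1) - g i ∈ forb g i then 1200 * Real.exp 1 else 1) := by
    intro i hi
    rw [Finset.mem_Icc] at hi
    have hu := hunit (i - 1) (by omega)
    have e : i - 1 + 1 = i := by omega
    rw [e] at hu
    refine om_inv_le hi.1 hu (hunit i (by omega)) ?_
    intro h
    have e2 : g (i + 1) = g (i - 1) := by
      have : g (i + 1) = (g (i + 1) - g i) + g i := by abel
      rw [this, h]; abel
    have := hc.inj (i + 1) (by omega) (i - 1) (by omega) e2
    omega
  refine (Finset.prod_le_prod (fun i _ => (inv_pos.2 (om_pos _ _)).le) h2).trans ?_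
  rw [Finset.prod_mul_distrib, Finset.prod_mul_distrib, Finset.prod_mul_distrib, ← Real.exp_sum,
    Finset.prod_const, Finset.prod_ite, Finset.prod_ite, Finset.prod_const_one, mul_one,
    Finset.prod_const, Finset.prod_const_one, mul_one, Finset.prod_const]
  have h3 : (372 / 100 : ℝ) ^ (Finset.Icc 2 (n - 2)).card ≤ (372 / 100) ^ n :=
    pow_le_pow_right₀ (by norm_num) (Icc_card_le n)
  have h4 : Real.exp (∑ i ∈ Finset.Icc 2 (n - 2), 9 / 37 * (1 - ((forb g i).ncard : ℝ))) ≤
      Real.exp (9 / 37 * (n - (∑ i ∈ Finset.Icc 2 (n - 2), ((forb g i).ncard : ℝ)))) := by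
    apply Real.exp_le_exp.2
    rw [← Finset.mul_sum, Finset.sum_sub_distrib, Finset.sum_const, nsmul_eq_mul, mul_one]
    have : ((Finset.Icc 2 (n - 2)).card : ℝ) ≤ n := by exact_mod_cast Icc_card_le n
    linarith
  have h5 : (10 / 9 : ℝ) ^ ((Finset.Icc 2 (n - 2)).filter fun i =>
      g (i + 1) - g i ≠ g i - g (i - 1)).card = (10 / 9) ^ turns g n := rfl
  rw [h5]
  gcongr

end RigB

/-- (R3b) -/
theorem rigid_of (h0 : LocalFacts) (h : RigIneqStatement) : RigidStatement := by
  classical
  obtain ⟨K0, hK⟩ := h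
  obtain ⟨K1, hK1⟩ := boundStatement
  set M : ℝ := 1200 * Real.exp 1 with hM
  have hM1 : 1 < M := by
    have := Real.add_one_le_exp (1 : ℝ)
    rw [hM]; linarith
  set c : ℝ := Real.exp (9 / 37) * M with hc
  have hc1 : 1 < c := by
    have : 1 ≤ Real.exp (9 / 37) := Real.one_le_exp (by norm_num)
    rw [hc]; nlinarith
  have hlc : 0 < Real.log c := Real.log_pos hc1
  have hl : 0 < Real.log (374 / 372) := Real.log_pos (by norm_num)
  set ε : ℝ := Real.log (374 / 372) / Real.log c with hε
  have hε0 : 0 < ε := div_pos hl hlc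
  have hcε : c ^ ε = 374 / 372 := by
    rw [Real.rpow_def_of_pos (by linarith), hε, mul_div_cancel₀ _ hlc.ne', Real.exp_log (by norm_num)]
  set K2 : ℝ := 36 * Real.exp (9 / 74 * K0) with hK2
  refine ⟨ε, max K2 ((max 1 K1) ^ 8), hε0, fun n => ?_⟩
  set W := (U IsPolygon n).filter fun E => (nU E : ℝ) ≤ ε * n ∧ (nSpot E : ℝ) ≤ ε * n with hW
  have hmemW : ∀ E ∈ W, (IsPolygon E ∧ E.card = n ∧ Normed E) ∧ (nU E : ℝ) ≤ ε * n ∧
      (nSpot E : ℝ) ≤ ε * n := by
    intro E hE
    rw [hW, Finset.mem_filter, mem_U' (fun E h => h)] at hE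
    exact hE
  change ((W.card : ℕ) : ℝ) ≤ _
  rcases Nat.lt_or_ge n 8 with hn | hn
  · -- small `n`
    have h1 : (W.card : ℝ) ≤ (max 1 K1) ^ 8 := by
      have h2 : W.card ≤ count IsPolygon n := by
        rw [← card_U' (fun E h => h) n]
        exact Finset.card_le_card (Finset.filter_subset _ _)
      have h3 : (W.card : ℝ) ≤ K1 ^ n := le_trans (by exact_mod_cast h2) (hK1 n).2
      refine h3.trans ?_
      have h4 : K1 ^ n ≤ (max 1 K1) ^ n := by
        rcases le_or_gt 0 K1 with h5 | h5
        · exact pow_le_pow_left₀ h5 (le_max_right _ _) n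
        · calc K1 ^ n ≤ |K1 ^ n| := le_abs_self _
            _ = |K1| ^ n := abs_pow _ _
            _ ≤ _ := by
              exfalso
              have h6 := (hK1 1).2
              rw [pow_one] at h6
              have : (0 : ℝ) ≤ (count IsPolygon 1 : ℝ) := by positivity
              linarith
      exact h4.trans (pow_le_pow_right₀ (le_max_left _ _) (by omega))
    have h2 : (1 : ℝ) ≤ (374 / 100) ^ n := one_le_pow₀ (by norm_num)
    have h3 : (0 : ℝ) ≤ (max 1 K1) ^ 8 := by positivity
    calc (W.card : ℝ) ≤ (max 1 K1) ^ 8 := h1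
      _ ≤ max K2 ((max 1 K1) ^ 8) := le_max_right _ _
      _ = max K2 ((max 1 K1) ^ 8) * 1 := (mul_one _).symm
      _ ≤ _ := by
        refine mul_le_mul_of_nonneg_left h2 ?_
        exact h3.trans (le_max_right _ _)
  · -- large `n`
    have hcyc : ∀ E ∈ W, ∃ g, Cyc E n g ∧
        2 * n + turns g n ≤ 2 * (∑ i ∈ Finset.Icc 2 (n - 2), (forb g i).ncard) + nU E + nSpot E +
          K0 := by
      intro E hE
      obtain ⟨⟨hp, hcard, -⟩, -⟩ := hmemW E hE
      obtain ⟨a, b, hab⟩ := exists_edge hp
      obtain ⟨m, g, hg, -, -⟩ := exists_cyc hp hab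
      have : m = n := by rw [← hcard, hg.card_eq]
      subst this
      exact hK E m g hg hp hn
    choose! g hg using hcyc
    have hinj : Set.InjOn (fun E => RigB.steps (g E) (n - 1)) (W : Set (Finset (Sym2 P3))) := by
      intro E hE F hF hEF
      have h1 := RigB.steps_inj hEF
      obtain ⟨⟨-, -, hNE⟩, -⟩ := hmemW E hE
      obtain ⟨⟨-, -, hNF⟩, -⟩ := hmemW F hF
      have hcE := (hg E hE).1
      have hcF := (hg F hF).1
      refine normed_trans hcE hcF hNE hNF fun i hi => ?_
      rcases Nat.lt_or_ge i (n - 1) with h2 | h2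
      · exact h1 i h2
      · have h3 : i = n - 1 := by omega
        subst h3
        have h4 : n - 1 + 1 = n := by omega
        rw [h4, hcE.per, hcF.per]
        have h5 : ∀ k ≤ n - 1, g E k - g E 0 = g F k - g F 0 := by
          intro k
          induction k with
          | zero => intro _; simp
          | succ k ih =>
            intro hk
            have h6 := h1 k (by omega)
            have h7 := ih (by omega)
            have e1 : g E (k + 1) - g E 0 = (g E (k + 1) - g E k) + (g E k - g E 0) := by abel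
            have e2 : g F (k + 1) - g F 0 = (g F (k + 1) - g F k) + (g F k - g F 0) := by abel
            rw [e1, e2, h6, h7]
        have h6 := h5 (n - 1) le_rfl
        have e1 : g E 0 - g E (n - 1) = -(g E (n - 1) - g E 0) := by abel
        have e2 : g F 0 - g F (n - 1) = -(g F (n - 1) - g F 0) := by abel
        rw [e1, e2, h6]
    have hsum : ∑ E ∈ W, RigB.wt (RigB.steps (g E) (n - 1)) ≤ 36 := by
      rw [← Finset.sum_image (f := RigB.wt) hinj]
      refine (Finset.sum_le_sum_of_subset_of_nonneg ?_ fun p _ _ => (RigB.wt_pos p).le).trans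
        (RigB.kraft (n - 1))
      intro p hp
      obtain ⟨E, hE, rfl⟩ := Finset.mem_image.1 hp
      refine RigB.steps_mem_words fun i hi => ?_
      exact adj_iff.1 ((hmemW E hE).1.1.adj _ _ ((hg E hE).1.mem_edge (by omega)))
    have hlow : ∀ E ∈ W, (Real.exp (9 / 74 * K0) * (374 / 100) ^ n)⁻¹ ≤
        RigB.wt (RigB.steps (g E) (n - 1)) := by
      intro E hE
      obtain ⟨⟨hp, hcard, -⟩, hU, hS⟩ := hmemW E hE
      obtain ⟨hcE, hineq⟩ := hg E hE
      rw [inv_le_comm₀ (by positivity) (RigB.wt_pos _)]
      refine (RigB.wt_inv_le hcE hp hn).trans ?_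
      have hB := RigB.bad_le h0 hcE hp hn
      set B := ((Finset.Icc 2 (n - 2)).filter fun i => g E (i + 1) - g E i ∈ forb (g E) i).card
        with hBdef
      set t := turns (g E) n with ht
      set f : ℝ := ∑ i ∈ Finset.Icc 2 (n - 2), ((forb (g E) i).ncard : ℝ) with hf
      have hineq' : 2 * (n : ℝ) + t ≤ 2 * f + nU E + nSpot E + K0 := by
        have : ((2 * n + turns (g E) n : ℕ) : ℝ) ≤ ((2 * (∑ i ∈ Finset.Icc 2 (n - 2),
          (forb (g E) i).ncard) + nU E + nSpot E + K0 : ℕ) : ℝ) := by exact_mod_cast hineq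
        push_cast at this
        exact this
      have hexp : 9 / 37 * ((n : ℝ) - f) ≤ 9 / 37 * (ε * n) + 9 / 74 * K0 + (t : ℝ) * (-(9 / 74)) := by
        linarith
      have h1 : Real.exp (9 / 37 * ((n : ℝ) - f)) ≤ Real.exp (9 / 37) ^ (ε * n) *
          Real.exp (9 / 74 * K0) * Real.exp (-(9 / 74)) ^ t := by
        have e1 : Real.exp (9 / 37) ^ (ε * n) = Real.exp (9 / 37 * (ε * n)) := by
          rw [← Real.exp_mul]
        rw [e1, ← Real.exp_nat_mul, ← Real.exp_add, ← Real.exp_add]
        exact Real.exp_le_exp.2 hexp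
      have h2 : M ^ B ≤ M ^ (ε * n) := by
        rw [← Real.rpow_natCast]
        refine Real.rpow_le_rpow_of_exponent_le hM1.le ?_
        have : (B : ℝ) ≤ nU E := by exact_mod_cast hB
        linarith
      have h3 : Real.exp (-(9 / 74)) ^ t * (10 / 9) ^ t ≤ 1 := by
        rw [← mul_pow]
        refine pow_le_one₀ (by positivity) ?_
        rw [Real.exp_neg, inv_mul_le_iff₀ (Real.exp_pos _)]
        have := Real.add_one_le_exp (9 / 74 : ℝ)
        linarith
      have hce : Real.exp (9 / 37) ^ (ε * n) * M ^ (ε * n) = (374 / 372) ^ n := by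
        rw [← Real.mul_rpow (Real.exp_pos _).le (by linarith), ← hc, Real.rpow_mul (by linarith),
          hcε, Real.rpow_natCast]
      calc (372 / 100 : ℝ) ^ n * Real.exp (9 / 37 * ((n : ℝ) - f)) * (10 / 9) ^ t * M ^ B
          ≤ (372 / 100 : ℝ) ^ n * (Real.exp (9 / 37) ^ (ε * n) *
          Real.exp (9 / 74 * K0) * Real.exp (-(9 / 74)) ^ t) * (10 / 9) ^ t * M ^ (ε * n) := by
            gcongr
        _ = (372 / 100 : ℝ) ^ n * (Real.exp (9 / 37) ^ (ε * n) * M ^ (ε * n)) *
            Real.exp (9 / 74 * K0) * (Real.exp (-(9 / 74)) ^ t * (10 / 9) ^ t) := by ring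
        _ ≤ (372 / 100 : ℝ) ^ n * (Real.exp (9 / 37) ^ (ε * n) * M ^ (ε * n)) *
            Real.exp (9 / 74 * K0) * 1 := by gcongr
        _ = Real.exp (9 / 74 * K0) * (374 / 100) ^ n := by
            rw [hce, mul_one, ← mul_pow]
            norm_num
            ring
    have h1 : (W.card : ℝ) * (Real.exp (9 / 74 * K0) * (374 / 100) ^ n)⁻¹ ≤ 36 := by
      refine le_trans ?_ hsum
      rw [← nsmul_eq_mul, ← Finset.sum_const]
      exact Finset.sum_le_sum hlow
    rw [← div_eq_mul_inv, div_le_iff₀ (by positivity)] at h1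
    calc (W.card : ℝ) ≤ 36 * (Real.exp (9 / 74 * K0) * (374 / 100) ^ n) := h1
      _ = K2 * (374 / 100) ^ n := by rw [hK2]; ring
      _ ≤ _ := by
        gcongr
        exact le_max_left _ _

end Pool.Agent.LK

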