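import Pool.Agent.MP_aea6d5_co.RLower

/-! # Strands do not intersect themselves and can be straightened -/

set_option autoImplicit false

namespace Pool.Agent.LK

theorem pathE_append (p : P3) (A B : List P3) :
    pathE p (A ++ B) = pathE p A ∪ pathE (p + A.sum) B := by
  induction A generalizing p with
  | nil => simp [pathE]
  | cons d A ih =>
    simp only [List.cons_append, pathE, ih, List.sum_cons]
    rw [Finset.insert_union, add_assoc]

theorem pathV_append_cons (p : P3) (A B : List P3) (d : P3) :
    pathV p (A ++ d :: B) = pathV p A ++ pathV (p + A.sum + d) B := by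
  induction A generalizing p with
  | nil => simp [pathV]
  | cons c A ih =>
    simp only [List.cons_append, pathV, ih, List.sum_cons]
    rw [add_assoc p c]

theorem start_mem_pathV (p : P3) (w : List P3) : p ∈ pathV p w := by
  cases w <;> simp [pathV]

theorem mem_pathV {p v : P3} {w : List P3} (h : v ∈ pathV p w) :
    ∃ A B, w = A ++ B ∧ v = p + A.sum := by
  induction w generalizing p with
  | nil =>
    simp only [pathV, List.mem_singleton] at h
    exact ⟨[], [], rfl, by simp [h]⟩
  | cons d w ih =>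
    simp only [pathV, List.mem_cons] at h
    rcases h with h | h
    · exact ⟨[], d :: w, rfl, by simp [h]⟩
    · obtain ⟨A, B, h1, h2⟩ := ih h
      refine ⟨d :: A, B, by rw [h1]; rfl, ?_⟩
      rw [h2, List.sum_cons, add_assoc]

theorem sum_mem_pathV (p : P3) (A B : List P3) : p + A.sum ∈ pathV p (A ++ B) := by
  induction A generalizing p with
  | nil => simpa using start_mem_pathV p B
  | cons d A ih =>
    simp only [List.cons_append, pathV, List.mem_cons, List.sum_cons]
    right
    rw [← add_assoc]
    exact ih (p + d)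

theorem verts_pathE {p v : P3} {w : List P3} (h : v ∈ verts (pathE p w)) : v ∈ pathV p w := by
  induction w generalizing p with
  | nil =>
    obtain ⟨u, hu⟩ := h
    simp [pathE] at hu
  | cons d w ih =>
    obtain ⟨u, hu⟩ := h
    simp only [pathE, Finset.mem_insert] at hu
    simp only [pathV, List.mem_cons]
    rcases hu with hu | hu
    · rw [Sym2.eq_iff] at hu
      rcases hu with ⟨h1, -⟩ | ⟨h1, -⟩
      · exact Or.inl h1
      · right
        rw [h1]
        exact start_mem_pathV _ _
    · exact Or.inr (ih ⟨u, hu⟩)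

theorem Strand.left {A B : List P3} (h : Strand (A ++ B)) : Strand A := by
  refine ⟨fun d hd => h.1 d (List.mem_append_left _ hd), fun A' B' D d hA => ?_⟩
  refine h.2 A' B' (D ++ B) d ?_
  rw [hA]
  simp

theorem Strand.right {A B : List P3} (h : Strand (A ++ B)) : Strand B := by
  refine ⟨fun d hd => h.1 d (List.mem_append_right _ hd), fun A' B' D d hA => ?_⟩
  refine h.2 (A ++ A') B' D d ?_
  rw [hA]
  simp

theorem Strand.tail {d : P3} {w : List P3} (h : Strand (d :: w)) : Strand w :=
  Strand.right (A := [d]) h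

theorem neg_e1_ne_letter {d : P3} (h : d = e1 ∨ (IsUnit3 d ∧ d.1 = 0)) : -d ≠ e1 := by
  intro h'
  have h1 : (-d).1 = e1.1 := by rw [h']
  simp only [Prod.fst_neg, e1] at h1
  rcases h with h | ⟨-, h⟩
  · rw [h] at h1
    simp [e1] at h1
  · omega

/-- nonnegative dot products add up -/
theorem dot_sum_nonneg {d : P3} {A : List P3} (h : ∀ a ∈ A, 0 ≤ dot d a) : 0 ≤ dot d A.sum := by
  induction A with
  | nil => simp [dot]
  | cons c A ih =>
    rw [List.sum_cons, dot_add]
    have h1 := h c (by simp)
    have h2 := ih fun a ha => h a (by simp [ha])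
    omega

theorem dot_nonneg_of_ne_neg {d a : P3} (hd : IsUnit3 d) (ha : IsUnit3 a) (h : a ≠ -d) :
    0 ≤ dot d a := by
  rcases isUnit3_iff.1 hd with rfl | rfl | rfl | rfl | rfl | rfl <;>
    rcases isUnit3_iff.1 ha with rfl | rfl | rfl | rfl | rfl | rfl <;>
    simp [dot] at h ⊢

theorem isUnit3_e1 : IsUnit3 e1 := isUnit3_iff.2 (Or.inl rfl)

theorem letter_unit {d : P3} (h : d = e1 ∨ (IsUnit3 d ∧ d.1 = 0)) : IsUnit3 d := by
  rcases h with h | h
  · rw [h]; exact isUnit3_e1
  · exact h.1

theorem letter_fst {d : P3} (h : d = e1 ∨ (IsUnit3 d ∧ d.1 = 0)) : 0 ≤ d.1 := by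
  rcases h with h | h
  · rw [h]; simp [e1]
  · rw [h.2]

theorem sum_fst_nonneg {A : List P3} (h : ∀ d ∈ A, d = e1 ∨ (IsUnit3 d ∧ d.1 = 0)) :
    0 ≤ A.sum.1 := by
  induction A with
  | nil => simp
  | cons c A ih =>
    rw [List.sum_cons, Prod.fst_add]
    have h1 := letter_fst (h c (by simp))
    have h2 := ih fun a ha => h a (by simp [ha])
    omega

theorem sum_fst_pos {A : List P3} (h : ∀ d ∈ A, d = e1 ∨ (IsUnit3 d ∧ d.1 = 0)) (he : e1 ∈ A) :
    1 ≤ A.sum.1 := by
  induction A with
  | nil => simp at he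
  | cons c A ih =>
    rw [List.sum_cons, Prod.fst_add]
    have h1 := letter_fst (h c (by simp))
    have h2 : 0 ≤ A.sum.1 := sum_fst_nonneg fun a ha => h a (List.mem_cons_of_mem _ ha)
    rcases List.mem_cons.1 he with h3 | h3
    · rw [← h3]
      simp only [e1]
      omega
    · have := ih (fun a ha => h a (by simp [ha])) h3
      omega

/-- A nonempty strand does not return to its starting point. -/
theorem strand_sum_ne {d : P3} {A : List P3} (h : Strand (d :: A)) : (d :: A).sum ≠ 0 := by
  intro h0
  have hle : ∀ a ∈ d :: A, a = e1 ∨ (IsUnit3 a ∧ a.1 = 0) := h.1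
  have he : e1 ∉ d :: A := by
    intro he
    have := sum_fst_pos hle he
    rw [h0] at this
    simp at this
  have hd := letter_unit (hle d (by simp))
  have h1 : 0 ≤ dot d A.sum := by
    refine dot_sum_nonneg fun a ha => ?_
    refine dot_nonneg_of_ne_neg hd (letter_unit (hle a (by simp [ha]))) ?_
    rintro rfl
    obtain ⟨B, D, hBD⟩ := List.append_of_mem ha
    refine he (List.mem_cons_of_mem _ ?_)
    rw [hBD]
    refine List.mem_append_left _ (h.2 [] B D d ?_)
    rw [hBD]
    rfl
  have h2 : dot d (d :: A).sum = 1 + dot d A.sum := by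
    rw [List.sum_cons, dot_add, isUnit3_iff_dot.1 hd]
  rw [h0, dot_zero] at h2
  omega

/-- (L1) Strands do not intersect themselves. -/
theorem strandNodup : StrandNodup := by
  intro p w
  induction w generalizing p with
  | nil => intro _; simp [pathV]
  | cons d w ih =>
    intro h
    rw [pathV, List.nodup_cons]
    refine ⟨?_, ih (p + d) h.tail⟩
    intro hmem
    obtain ⟨A, B, hw, hv⟩ := mem_pathV hmem
    have h1 : Strand (d :: A) := by
      refine Strand.left (B := B) ?_
      rw [List.cons_append, ← hw]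
      exact h
    refine strand_sum_ne h1 ?_
    rw [List.sum_cons]
    have h2 : p + (d + A.sum) = p + 0 := by
      rw [← add_assoc, ← hv, add_zero]
    exact add_left_cancel h2

/-! ## The letters before the first `e1` -/

/-- the letters before the first `e1` -/
def fb : List P3 → List P3
  | [] => []
  | d :: w => if d = e1 then [] else d :: fb w

theorem mem_fb_iff {x : P3} {w : List P3} :
    x ∈ fb w ↔ ∃ B D, w = B ++ x :: D ∧ e1 ∉ B ∧ x ∉ B ∧ x ≠ e1 := by
  induction w with
  | nil => simp [fb]
  | cons d w ih =>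
    by_cases hd : d = e1
    · simp only [fb, hd, if_true, List.not_mem_nil, false_iff, not_exists, not_and]
      intro B D h h1 h2 h3
      cases B with
      | nil =>
        simp only [List.nil_append, List.cons.injEq] at h
        exact h3 h.1.symm
      | cons c B =>
        simp only [List.cons_append, List.cons.injEq] at h
        exact h1 (by simp [h.1])
    · simp only [fb, hd, if_false, List.mem_cons, ih]
      constructor
      · rintro (h | ⟨B, D, h1, h2, h3, h4⟩)
        · exact ⟨[], w, by simp [h], by simp, by simp, by rw [h]; exact hd⟩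
        · by_cases hx : x = d
          · exact ⟨[], w, by simp [hx], by simp, by simp, h4⟩
          · refine ⟨d :: B, D, by simp [h1], ?_, ?_, h4⟩
            · simp only [List.mem_cons, not_or]
              exact ⟨fun h => hd h.symm, h2⟩
            · simp only [List.mem_cons, not_or]
              exact ⟨hx, h3⟩
      · rintro ⟨B, D, h1, h2, h3, h4⟩
        cases B with
        | nil =>
          simp only [List.nil_append, List.cons.injEq] at h1
          exact Or.inl h1.1.symm
        | cons c B =>
          simp only [List.cons_append, List.cons.injEq] at h1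
          simp only [List.mem_cons, not_or] at h2 h3
          exact Or.inr ⟨B, D, h1.2, h2.2, h3.2, h4⟩

theorem mem_fb_of {x : P3} {B D : List P3} (h : e1 ∉ B) (hx : x ≠ e1) : x ∈ fb (B ++ x :: D) := by
  induction B with
  | nil => simp [fb, hx]
  | cons c B ih =>
    simp only [List.mem_cons, not_or] at h
    simp only [List.cons_append, fb]
    rw [if_neg (fun h' => h.1 h'.symm)]
    exact List.mem_cons_of_mem _ (ih h.2)

theorem strand_cons_iff {d : P3} {w : List P3} :
    Strand (d :: w) ↔ (d = e1 ∨ (IsUnit3 d ∧ d.1 = 0)) ∧ -d ∉ fb w ∧ Strand w := by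
  constructor
  · intro h
    refine ⟨h.1 d (by simp), ?_, h.tail⟩
    intro h'
    obtain ⟨B, D, h1, h2, -, -⟩ := mem_fb_iff.1 h'
    exact h2 (h.2 [] B D d (by rw [h1]; rfl))
  · rintro ⟨h1, h2, h3⟩
    refine ⟨?_, ?_⟩
    · intro c hc
      rcases List.mem_cons.1 hc with rfl | hc
      · exact h1
      · exact h3.1 c hc
    · intro A B D c h
      cases A with
      | nil =>
        simp only [List.nil_append, List.cons.injEq] at h
        obtain ⟨rfl, h⟩ := h
        by_contra h4
        exact h2 (by rw [h]; exact mem_fb_of h4 (neg_e1_ne_letter h1))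
      | cons a A =>
        simp only [List.cons_append, List.cons.injEq] at h
        exact h3.2 A B D c h.2

/-- `w'` can replace `w` in a strand -/
def Repl (w w' : List P3) : Prop := (Strand w → Strand w') ∧ ∀ x ∈ fb w', x ∈ fb w

theorem Repl.cons {w w' : List P3} (h : Repl w w') (d : P3) : Repl (d :: w) (d :: w') := by
  refine ⟨?_, ?_⟩
  · rw [strand_cons_iff, strand_cons_iff]
    rintro ⟨h1, h2, h3⟩
    exact ⟨h1, fun h4 => h2 (h.2 _ h4), h.1 h3⟩
  · intro x
    simp only [fb]
    split_ifs
    · simp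
    · simp only [List.mem_cons]
      rintro (h1 | h1)
      · exact Or.inl h1
      · exact Or.inr (h.2 _ h1)

theorem Repl.append {w w' : List P3} (h : Repl w w') (A : List P3) : Repl (A ++ w) (A ++ w') := by
  induction A with
  | nil => exact h
  | cons d A ih => exact ih.cons d

theorem repl_swap {a b : P3} (B : List P3) (ha : a ≠ e1) (hb : b ≠ e1) (h : a ≠ -b) :
    Repl (a :: b :: B) (b :: a :: B) := by
  refine ⟨?_, ?_⟩
  · simp only [strand_cons_iff, fb, if_neg ha, if_neg hb, List.mem_cons, not_or]
    rintro ⟨h1, ⟨h2, h3⟩, h4, h5, h6⟩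
    exact ⟨h4, ⟨fun h' => h h'.symm, h5⟩, h1, h3, h6⟩
  · intro x
    simp only [fb, if_neg ha, if_neg hb, List.mem_cons]
    tauto

theorem repl_push {d : P3} (B : List P3) (hd : d ≠ e1) (h : -d ∉ fb B) :
    Repl (d :: e1 :: B) (e1 :: d :: B) := by
  refine ⟨?_, ?_⟩
  · simp only [strand_cons_iff, fb, if_neg hd, if_true, List.mem_cons, not_or]
    rintro ⟨h1, -, -, h2, h3⟩
    refine ⟨Or.inl trivial, ⟨?_, h2⟩, h1, h, h3⟩
    intro h'
    refine neg_e1_ne_letter h1 ?_
    rw [← h', neg_neg]
  · intro x
    simp [fb]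

theorem repl_cancel {d : P3} (B : List P3) : Repl (d :: e1 :: (-d) :: B) (e1 :: B) := by
  refine ⟨?_, ?_⟩
  · simp only [strand_cons_iff, fb, if_true]
    rintro ⟨h1, -, h2, h3, h4, h5, h6⟩
    refine ⟨Or.inl trivial, ?_, h6⟩
    intro h'
    refine h3 ?_
    split_ifs with h7
    · exact absurd h7 (neg_e1_ne_letter h1)
    · exact List.mem_cons_of_mem _ h'
  · intro x
    simp [fb]

/-! ## The measure -/

/-- number of steps other than `e1` plus the number of pairs (such a step, a later `e1`) -/
def mu : List P3 → ℕ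
  | [] => 0
  | d :: w => (if d = e1 then 0 else 1 + w.count e1) + mu w

theorem mu_append_le (A : List P3) {X Y : List P3} (h : mu X ≤ mu Y)
    (h' : X.count e1 ≤ Y.count e1) : mu (A ++ X) ≤ mu (A ++ Y) := by
  induction A with
  | nil => exact h
  | cons d A ih =>
    simp only [List.cons_append, mu, List.count_append]
    split_ifs <;> omega

theorem mu_append_lt (A : List P3) {X Y : List P3} (h : mu X < mu Y)
    (h' : X.count e1 ≤ Y.count e1) : mu (A ++ X) < mu (A ++ Y) := by
  induction A with
  | nil => exact h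
  | cons d A ih =>
    simp only [List.cons_append, mu, List.count_append]
    split_ifs <;> omega

/-! ## Good words -/

/-- the strand with interior `u` -/
def W (u : List P3) : List P3 := e1 :: (u ++ [e1])

/-- The words `u` to which the straightening applies. -/
structure Good (p : P3) (L : ℕ) (lo hi : ℤ) (u : List P3) : Prop where
  strand : Strand (W u)
  sum : (W u).sum = ((L : ℤ), 0, 0)
  bd : ∀ v ∈ pathV p (W u), lo ≤ v.2.1 ∧ v.2.1 ≤ hi

theorem W_append (A B : List P3) : W (A ++ B) = (e1 :: A) ++ (B ++ [e1]) := by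
  simp [W]

/-- Interior vertices do not belong to the rest of the polygon. -/
theorem interior_notMem {R : Finset (Sym2 P3)} {p : P3} {L : ℕ} {lo hi : ℤ}
    (hR : ∀ v ∈ verts R, v.1 ≤ p.1 ∨ p.1 + L ≤ v.1 ∨ v.2.1 < lo ∨ hi < v.2.1)
    {u A B : List P3} (hu : Good p L lo hi u) (hAB : u = A ++ B) :
    p + (e1 + A.sum) ∉ verts R := by
  intro h
  have h1 := hu.bd (p + (e1 + A.sum)) (by
    have := sum_mem_pathV p (e1 :: A) (B ++ [e1])
    rw [List.sum_cons] at this
    rw [hAB, W_append]
    exact this)
  have hle := hu.strand.1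
  have h2 : 0 ≤ A.sum.1 := sum_fst_nonneg fun a ha => hle a (by simp [W, hAB, ha])
  have h3 : 0 ≤ B.sum.1 := sum_fst_nonneg fun a ha => hle a (by simp [W, hAB, ha])
  have h4 := congrArg Prod.fst hu.sum
  rw [hAB, W_append] at h4
  simp only [List.sum_append, List.sum_cons, List.sum_nil, Prod.fst_add, e1] at h4
  have h5 : (0 : P3).1 = 0 := rfl
  have h6 : (p + (e1 + A.sum)).1 = p.1 + (1 + A.sum.1) := rfl
  rcases hR _ h with h7 | h7 | h7 | h7
  · omega
  · omega
  · omega
  · omega

theorem flip_eq {E : Finset (Sym2 P3)} {x a b : P3} (h : x + b ∉ verts E) :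
    flip (E ∪ {s(x, x + b), s(x + b, x + b + a)}) x b a =
      E ∪ {s(x, x + a), s(x + a, x + b + a)} := by
  ext f
  rw [mem_flip]
  simp only [Finset.mem_union, Finset.mem_insert, Finset.mem_singleton]
  constructor
  · rintro (⟨h1 | h1 | h1, h2, h3⟩ | h1 | h1)
    · exact Or.inl h1
    · exact absurd h1 h2
    · exact absurd h1 h3
    · exact Or.inr (Or.inl h1)
    · exact Or.inr (Or.inr h1)
  · rintro (h1 | h1 | h1)
    · left
      refine ⟨Or.inl h1, ?_, ?_⟩
      · rintro rfl
        exact h (right_mem_verts h1)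
      · rintro rfl
        exact h (left_mem_verts h1)
    · exact Or.inr (Or.inl h1)
    · exact Or.inr (Or.inr h1)

theorem bump_eq {E : Finset (Sym2 P3)} {x y d : P3} (h : s(x, y) ∉ E) :
    bump (E ∪ {s(x, y)}) x y d = E ∪ {s(x, x + d), s(x + d, y + d), s(y + d, y)} := by
  ext f
  rw [mem_bump]
  simp only [Finset.mem_union, Finset.mem_insert, Finset.mem_singleton]
  constructor
  · rintro (⟨h1 | h1, h2⟩ | h1 | h1 | h1)
    · exact Or.inl h1
    · exact absurd h1 h2
    · exact Or.inr (Or.inl h1)
    · exact Or.inr (Or.inr (Or.inl h1))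
    · exact Or.inr (Or.inr (Or.inr h1))
  · rintro (h1 | h1 | h1 | h1)
    · left
      refine ⟨Or.inl h1, ?_⟩
      rintro rfl
      exact h h1
    · exact Or.inr (Or.inl h1)
    · exact Or.inr (Or.inr (Or.inl h1))
    · exact Or.inr (Or.inr (Or.inr h1))

theorem verts_union {E F : Finset (Sym2 P3)} {v : P3} :
    v ∈ verts (E ∪ F) ↔ v ∈ verts E ∨ v ∈ verts F := by
  simp only [verts, Set.mem_ofPred_eq, Finset.mem_union]
  constructor
  · rintro ⟨u, h | h⟩
    · exact Or.inl ⟨u, h⟩
    · exact Or.inr ⟨u, h⟩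
  · rintro (⟨u, h⟩ | ⟨u, h⟩)
    · exact ⟨u, Or.inl h⟩
    · exact ⟨u, Or.inr h⟩

theorem verts_two {x y z v : P3} (h : v ∈ verts {s(x, y), s(y, z)}) : v = x ∨ v = y ∨ v = z := by
  obtain ⟨u, h⟩ := h
  simp only [Finset.mem_insert, Finset.mem_singleton, Sym2.eq_iff] at h
  tauto

theorem verts_one {x y v : P3} (h : v ∈ verts {s(x, y)}) : v = x ∨ v = y := by
  obtain ⟨u, h⟩ := h
  simp only [Finset.mem_singleton, Sym2.eq_iff] at h
  tauto

theorem unit_ne_zero {d : P3} (h : IsUnit3 d) : d ≠ 0 := by
  rintro rfl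
  rw [isUnit3_iff_dot, dot_zero] at h
  omega

/-- The first elementary step: exchange of two neighbouring perpendicular letters. -/
theorem step_flip {C : Finset (Sym2 P3) → Prop} (hC : MoveClosed C) {R : Finset (Sym2 P3)}
    {p : P3} {L : ℕ} {lo hi : ℤ}
    (hR : ∀ v ∈ verts R, v.1 ≤ p.1 ∨ p.1 + L ≤ v.1 ∨ v.2.1 < lo ∨ hi < v.2.1)
    {A B : List P3} {a b : P3} (hu : Good p L lo hi (A ++ a :: b :: B))
    (hs : Repl (a :: b :: (B ++ [e1])) (b :: a :: (B ++ [e1]))) (hab : a ≠ b) (hab' : a ≠ -b)
    (hy : a.2.1 = 0 ∨ b.2.1 = 0) :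
    Good p L lo hi (A ++ b :: a :: B) ∧
      (C (R ∪ pathE p (W (A ++ b :: a :: B))) → C (R ∪ pathE p (W (A ++ a :: b :: B)))) := by
  have hw : W (A ++ a :: b :: B) = (e1 :: A) ++ a :: b :: (B ++ [e1]) := by simp [W]
  have hw' : W (A ++ b :: a :: B) = (e1 :: A) ++ b :: a :: (B ++ [e1]) := by simp [W]
  have ha : IsUnit3 a := letter_unit (hu.strand.1 a (by simp [W]))
  have hb : IsUnit3 b := letter_unit (hu.strand.1 b (by simp [W]))
  have hs' : Strand (W (A ++ b :: a :: B)) := by
    rw [hw']
    refine (hs.append (e1 :: A)).1 ?_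
    rw [← hw]
    exact hu.strand
  obtain ⟨x, hx⟩ : ∃ x, x = p + (e1 :: A).sum := ⟨_, rfl⟩
  have hV : pathV p (W (A ++ a :: b :: B)) =
      pathV p (e1 :: A) ++ (x + a) :: pathV (x + a + b) (B ++ [e1]) := by
    rw [hw, pathV_append_cons, ← hx]
    rfl
  have hV' : pathV p (W (A ++ b :: a :: B)) =
      pathV p (e1 :: A) ++ (x + b) :: pathV (x + b + a) (B ++ [e1]) := by
    rw [hw', pathV_append_cons, ← hx]
    rfl
  have hcomm : x + b + a = x + a + b := by abel
  have hgood : Good p L lo hi (A ++ b :: a :: B) := by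
    refine ⟨hs', ?_, ?_⟩
    · rw [← hu.sum, hw, hw']
      simp only [List.sum_append, List.sum_cons]
      abel
    · intro v hv
      rw [hV', List.mem_append, List.mem_cons] at hv
      have hold : ∀ v ∈ pathV p (e1 :: A) ++ (x + a) :: pathV (x + a + b) (B ++ [e1]),
          lo ≤ v.2.1 ∧ v.2.1 ≤ hi := by
        rw [← hV]
        exact hu.bd
      rcases hv with hv | hv | hv
      · exact hold v (by simp [hv])
      · rcases hy with hy | hy
        · have h1 := hold (x + a + b) (by simp [start_mem_pathV])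
          rw [hv]
          simp only [Prod.snd_add, Prod.fst_add] at h1 ⊢
          omega
        · have h1 := hold x (List.mem_append_left _ (by
            rw [hx]
            have := sum_mem_pathV p (e1 :: A) []
            rwa [List.append_nil] at this))
          rw [hv]
          simp only [Prod.snd_add, Prod.fst_add] at h1 ⊢
          omega
      · rw [hcomm] at hv
        exact hold v (by simp [hv])
  refine ⟨hgood, fun hCw => ?_⟩
  have hn := strandNodup p _ hu.strand
  have hn' := strandNodup p _ hs'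
  rw [hV, List.nodup_append, List.nodup_cons] at hn
  rw [hV', List.nodup_append, List.nodup_cons, hcomm] at hn'
  have hxa : x + a ∉ verts R := by
    have := interior_notMem hR hu (A := A ++ [a]) (B := b :: B) (by simp)
    have h2 : x + a = p + (e1 + (A ++ [a]).sum) := by
      rw [hx, List.sum_cons, List.sum_append, List.sum_cons, List.sum_nil]
      abel
    rw [h2]
    exact this
  have hxb : x + b ∉ verts R := by
    have := interior_notMem hR hgood (A := A ++ [b]) (B := a :: B) (by simp)
    have h2 : x + b = p + (e1 + (A ++ [b]).sum) := by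
      rw [hx, List.sum_cons, List.sum_append, List.sum_cons, List.sum_nil]
      abel
    rw [h2]
    exact this
  obtain ⟨E, hE⟩ : ∃ E, E = R ∪ pathE p (e1 :: A) ∪ pathE (x + a + b) (B ++ [e1]) := ⟨_, rfl⟩
  have hEa : x + a ∉ verts E := by
    rw [hE, verts_union, verts_union]
    rintro ((h | h) | h)
    · exact hxa h
    · exact hn.2.2 _ (verts_pathE h) (x + a) (by simp) rfl
    · exact hn.2.1.1 (verts_pathE h)
  have hEb : x + b ∉ verts E := by
    rw [hE, verts_union, verts_union]
    rintro ((h | h) | h)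
    · exact hxb h
    · exact hn'.2.2 _ (verts_pathE h) (x + b) (by simp) rfl
    · exact hn'.2.1.1 (verts_pathE h)
  have h1 : R ∪ pathE p (W (A ++ b :: a :: B)) =
      E ∪ {s(x, x + b), s(x + b, x + b + a)} := by
    rw [hw', pathE_append, ← hx]
    simp only [pathE]
    rw [hE, ← hcomm]
    ext f
    simp only [Finset.mem_union, Finset.mem_insert, Finset.mem_singleton, pathE]
    tauto
  have h2 : R ∪ pathE p (W (A ++ a :: b :: B)) =
      E ∪ {s(x, x + a), s(x + a, x + b + a)} := by
    rw [hw, pathE_append, ← hx]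
    simp only [pathE]
    rw [hE, hcomm]
    ext f
    simp only [Finset.mem_union, Finset.mem_insert, Finset.mem_singleton, pathE]
    tauto
  rw [h1] at hCw
  rw [h2, ← flip_eq hEb]
  refine hC.flip _ x b a hCw (by simp) (by simp) hb ha hab.symm ?_ ?_
  · intro h
    exact hab' (by rw [h, neg_neg])
  · rw [verts_union]
    rintro (h | h)
    · exact hEa h
    · rcases verts_two h with h | h | h
      · exact unit_ne_zero ha (add_left_cancel (a := x) (by rw [h, add_zero]))
      · exact hab (add_left_cancel h)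
      · rw [hcomm] at h
        exact unit_ne_zero hb (add_left_cancel (a := x + a) (by rw [← h, add_zero]))

/-- The second elementary step: cancellation of two opposite letters around `e1`. -/
theorem step_cancel {C : Finset (Sym2 P3) → Prop} (hC : MoveClosed C) {R : Finset (Sym2 P3)}
    {p : P3} {L : ℕ} {lo hi : ℤ}
    (hR : ∀ v ∈ verts R, v.1 ≤ p.1 ∨ p.1 + L ≤ v.1 ∨ v.2.1 < lo ∨ hi < v.2.1)
    {A B : List P3} {d : P3} (hu : Good p L lo hi (A ++ d :: e1 :: (-d) :: B)) :
    Good p L lo hi (A ++ e1 :: B) ∧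
      (C (R ∪ pathE p (W (A ++ e1 :: B))) → C (R ∪ pathE p (W (A ++ d :: e1 :: (-d) :: B)))) := by
  have hw : W (A ++ d :: e1 :: (-d) :: B) = (e1 :: A) ++ d :: e1 :: (-d) :: (B ++ [e1]) := by
    simp [W]
  have hw' : W (A ++ e1 :: B) = (e1 :: A) ++ e1 :: (B ++ [e1]) := by simp [W]
  have hd : IsUnit3 d := letter_unit (hu.strand.1 d (by simp [W]))
  have hs' : Strand (W (A ++ e1 :: B)) := by
    rw [hw']
    refine ((repl_cancel (B ++ [e1])).append (e1 :: A)).1 (?_ : Strand (_ ++ d :: _))
    rw [← hw]
    exact hu.strand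
  obtain ⟨x, hx⟩ : ∃ x, x = p + (e1 :: A).sum := ⟨_, rfl⟩
  have hcomm : x + d + e1 + -d = x + e1 := by abel
  have hV : pathV p (W (A ++ d :: e1 :: (-d) :: B)) =
      pathV p (e1 :: A) ++ (x + d) :: (x + d + e1) :: pathV (x + e1) (B ++ [e1]) := by
    rw [hw, pathV_append_cons, ← hx]
    simp only [pathV]
    rw [hcomm]
  have hV' : pathV p (W (A ++ e1 :: B)) = pathV p (e1 :: A) ++ pathV (x + e1) (B ++ [e1]) := by
    rw [hw', pathV_append_cons, ← hx]
  have hgood : Good p L lo hi (A ++ e1 :: B) := by
    refine ⟨hs', ?_, ?_⟩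
    · rw [← hu.sum, hw, hw']
      simp only [List.sum_append, List.sum_cons]
      abel
    · intro v hv
      refine hu.bd v ?_
      rw [hV', List.mem_append] at hv
      rw [hV]
      simp only [List.mem_append, List.mem_cons]
      tauto
  refine ⟨hgood, fun hCw => ?_⟩
  have hn := strandNodup p _ hu.strand
  have hn' := strandNodup p _ hs'
  rw [hV, List.nodup_append, List.nodup_cons, List.nodup_cons] at hn
  rw [hV', List.nodup_append] at hn'
  have hxA : x ∈ pathV p (e1 :: A) := by
    rw [hx]
    have := sum_mem_pathV p (e1 :: A) []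
    rwa [List.append_nil] at this
  have hxd : x + d ∉ verts R := by
    have := interior_notMem hR hu (A := A ++ [d]) (B := e1 :: (-d) :: B) (by simp)
    have h2 : x + d = p + (e1 + (A ++ [d]).sum) := by
      rw [hx, List.sum_cons, List.sum_append, List.sum_cons, List.sum_nil]
      abel
    rw [h2]
    exact this
  have hxe : x + d + e1 ∉ verts R := by
    have := interior_notMem hR hu (A := A ++ [d, e1]) (B := (-d) :: B) (by simp)
    have h2 : x + d + e1 = p + (e1 + (A ++ [d, e1]).sum) := by
      rw [hx, List.sum_cons, List.sum_append, List.sum_cons, List.sum_cons, List.sum_nil]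
      abel
    rw [h2]
    exact this
  have hxx : x ∉ verts R := by
    have := interior_notMem hR hgood (A := A) (B := e1 :: B) rfl
    have h2 : x = p + (e1 + A.sum) := by rw [hx, List.sum_cons]
    rw [h2]
    exact this
  obtain ⟨E, hE⟩ : ∃ E, E = R ∪ pathE p (e1 :: A) ∪ pathE (x + e1) (B ++ [e1]) := ⟨_, rfl⟩
  have hE1 : x + d ∉ verts E := by
    rw [hE, verts_union, verts_union]
    rintro ((h | h) | h)
    · exact hxd h
    · exact hn.2.2 _ (verts_pathE h) (x + d) (by simp) rfl
    · exact hn.2.1.1 (List.mem_cons_of_mem _ (verts_pathE h))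
  have hE2 : x + e1 + d ∉ verts E := by
    have hc : x + e1 + d = x + d + e1 := by abel
    rw [hE, verts_union, verts_union, hc]
    rintro ((h | h) | h)
    · exact hxe h
    · exact hn.2.2 _ (verts_pathE h) (x + d + e1) (by simp) rfl
    · exact hn.2.1.2.1 (verts_pathE h)
  have hE3 : s(x, x + e1) ∉ E := by
    rw [hE]
    simp only [Finset.mem_union, not_or]
    refine ⟨⟨fun h => hxx (left_mem_verts h), fun h => ?_⟩, fun h => ?_⟩
    · exact hn'.2.2 _ (verts_pathE (right_mem_verts h)) (x + e1) (start_mem_pathV _ _) rfl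
    · exact hn'.2.2 _ hxA x (verts_pathE (left_mem_verts h)) rfl
  have h1 : R ∪ pathE p (W (A ++ e1 :: B)) = E ∪ {s(x, x + e1)} := by
    rw [hw', pathE_append, ← hx]
    simp only [pathE]
    rw [hE]
    ext f
    simp only [Finset.mem_union, Finset.mem_insert, Finset.mem_singleton, pathE]
    tauto
  have h2 : R ∪ pathE p (W (A ++ d :: e1 :: (-d) :: B)) =
      E ∪ {s(x, x + d), s(x + d, x + e1 + d), s(x + e1 + d, x + e1)} := by
    have hc : x + e1 + d = x + d + e1 := by abel
    rw [hw, pathE_append, ← hx, hc]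
    simp only [pathE]
    rw [hE, hcomm]
    ext f
    simp only [Finset.mem_union, Finset.mem_insert, Finset.mem_singleton, pathE]
    tauto
  rw [h1] at hCw
  rw [h2, ← bump_eq hE3]
  refine hC.bump _ x (x + e1) d hCw (by simp) hd ?_ ?_
  · rw [verts_union]
    rintro (h | h)
    · exact hE1 h
    · rcases verts_one h with h | h
      · exact hn.2.2 _ hxA (x + d) (by simp) h.symm
      · refine hn.2.1.1 (List.mem_cons_of_mem _ ?_)
        rw [h]
        exact start_mem_pathV _ _
  · have hc : x + e1 + d = x + d + e1 := by abel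
    rw [verts_union]
    rintro (h | h)
    · exact hE2 h
    · rw [hc] at h
      rcases verts_one h with h | h
      · exact hn.2.2 _ hxA (x + d + e1) (by simp) h.symm
      · refine hn.2.1.2.1 ?_
        rw [h]
        exact start_mem_pathV _ _

theorem unit_perp_y {a b : P3} (ha : IsUnit3 a) (hb : IsUnit3 b) (h : a ≠ b) (h' : a ≠ -b) :
    a.2.1 = 0 ∨ b.2.1 = 0 := by
  rcases isUnit3_iff.1 ha with rfl | rfl | rfl | rfl | rfl | rfl <;>
    rcases isUnit3_iff.1 hb with rfl | rfl | rfl | rfl | rfl | rfl <;>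
    simp at h h' ⊢

/-- Bringing a letter to the front of its block. -/
theorem bring_front {C : Finset (Sym2 P3) → Prop} (hC : MoveClosed C) {R : Finset (Sym2 P3)}
    {p : P3} {L : ℕ} {lo hi : ℤ}
    (hR : ∀ v ∈ verts R, v.1 ≤ p.1 ∨ p.1 + L ≤ v.1 ∨ v.2.1 < lo ∨ hi < v.2.1) {c : P3}
    (hc : c ≠ e1) (T S : List P3) : ∀ A : List P3, (∀ s ∈ S, s ≠ c ∧ s ≠ -c ∧ s ≠ e1) →
    Good p L lo hi (A ++ (S ++ c :: T)) → Good p L lo hi (A ++ c :: (S ++ T)) ∧
      (C (R ∪ pathE p (W (A ++ c :: (S ++ T)))) → C (R ∪ pathE p (W (A ++ (S ++ c :: T))))) := by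
  induction S with
  | nil => intro A _ h; exact ⟨h, id⟩
  | cons s S ih =>
    intro A hS h
    obtain ⟨h1, h2, h3⟩ := hS s (by simp)
    have e1' : (A ++ [s]) ++ (S ++ c :: T) = A ++ ((s :: S) ++ c :: T) := by simp
    have e2' : (A ++ [s]) ++ c :: (S ++ T) = A ++ s :: c :: (S ++ T) := by simp
    obtain ⟨h4, h5⟩ := ih (A ++ [s]) (fun t ht => hS t (by simp [ht])) (by rw [e1']; exact h)
    rw [e1', e2'] at h5
    rw [e2'] at h4
    have hs : IsUnit3 s := letter_unit (h4.strand.1 s (by simp [W]))
    have hcu : IsUnit3 c := letter_unit (h4.strand.1 c (by simp [W]))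
    obtain ⟨h6, h7⟩ := step_flip hC hR h4 (repl_swap _ h3 hc h2) h1 h2 (unit_perp_y hs hcu h1 h2)
    exact ⟨h6, fun h8 => h5 (h7 h8)⟩

theorem word_cases (u : List P3) : (∃ A B d, u = A ++ d :: e1 :: B ∧ d ≠ e1) ∨
    ∃ (k : ℕ) (P : List P3), u = List.replicate k e1 ++ P ∧ e1 ∉ P := by
  induction u with
  | nil => exact Or.inr ⟨0, [], rfl, by simp⟩
  | cons d u ih =>
    rcases ih with ⟨A, B, c, h1, h2⟩ | ⟨k, P, h1, h2⟩
    · exact Or.inl ⟨d :: A, B, c, by rw [h1]; rfl, h2⟩
    · by_cases hd : d = e1
      · refine Or.inr ⟨k + 1, P, ?_, h2⟩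
        rw [h1, hd, List.replicate_succ]
        rfl
      · cases k with
        | zero =>
          refine Or.inr ⟨0, d :: P, by rw [h1]; rfl, ?_⟩
          simp only [List.mem_cons, not_or]
          exact ⟨fun h => hd h.symm, h2⟩
        | succ k =>
          refine Or.inl ⟨[], List.replicate k e1 ++ P, d, ?_, hd⟩
          rw [h1, List.replicate_succ]
          rfl

theorem sum_fst_zero {A : List P3} (h : ∀ d ∈ A, d = e1 ∨ (IsUnit3 d ∧ d.1 = 0))
    (he : e1 ∉ A) : A.sum.1 = 0 := by
  induction A with
  | nil => rfl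
  | cons c A ih =>
    simp only [List.mem_cons, not_or] at he
    rw [List.sum_cons, Prod.fst_add, ih (fun a ha => h a (by simp [ha])) he.2]
    rcases h c (by simp) with h1 | h1
    · exact absurd h1.symm he.1
    · rw [h1.2]; rfl

theorem straighten_aux {C : Finset (Sym2 P3) → Prop} (hC : MoveClosed C) {R : Finset (Sym2 P3)}
    {p : P3} {L : ℕ} {lo hi : ℤ}
    (hR : ∀ v ∈ verts R, v.1 ≤ p.1 ∨ p.1 + L ≤ v.1 ∨ v.2.1 < lo ∨ hi < v.2.1)
    (h0 : C (R ∪ pathE p (List.replicate L e1))) :
    ∀ (n : ℕ) (u : List P3), mu u ≤ n → Good p L lo hi u → C (R ∪ pathE p (W u)) := by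
  intro n
  induction n using Nat.strong_induction_on with
  | _ n ih =>
  intro u hn hu
  rcases word_cases u with ⟨A, B, d, h1, h2⟩ | ⟨k, P, h1, h2⟩
  · subst h1
    have hdu := hu.strand.1 d (by simp [W])
    by_cases hf : -d ∈ fb B
    · obtain ⟨S, T, h3, h4, h5, h6⟩ := mem_fb_iff.1 hf
      subst h3
      have h7 : ∀ s ∈ S, s ≠ -d ∧ s ≠ - -d ∧ s ≠ e1 := by
        intro s hs
        refine ⟨?_, ?_, ?_⟩
        · rintro rfl; exact h5 hs
        · rw [neg_neg]
          rintro rfl
          obtain ⟨S1, S2, hS⟩ := List.append_of_mem hs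
          refine h4 ?_
          have h8 := hu.strand.2 (e1 :: (A ++ s :: e1 :: S1)) S2 (T ++ [e1]) s (by
            simp [W, hS])
          rw [hS]
          simp [h8]
        · rintro rfl; exact h4 hs
      have e3 : (A ++ [d, e1]) ++ (S ++ (-d) :: T) = A ++ d :: e1 :: (S ++ (-d) :: T) := by simp
      have e4 : (A ++ [d, e1]) ++ (-d) :: (S ++ T) = A ++ d :: e1 :: (-d) :: (S ++ T) := by simp
      obtain ⟨h8, h9⟩ := bring_front hC hR h6 T S (A ++ [d, e1]) h7 (by rw [e3]; exact hu)
      rw [e3, e4] at h9
      rw [e4] at h8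
      obtain ⟨h10, h11⟩ := step_cancel hC hR h8
      refine h9 (h11 (ih _ ?_ _ le_rfl h10))
      refine lt_of_lt_of_le (mu_append_lt A (Y := d :: e1 :: (S ++ (-d) :: T)) ?_ ?_) hn
      · have h12 : mu (S ++ T) ≤ mu (S ++ (-d) :: T) := by
          refine mu_append_le S ?_ ?_
          · simp only [mu]; omega
          · rw [List.count_cons]; omega
        simp only [mu, if_true, if_neg h2]
        omega
      · simp only [List.count_cons, List.count_append]
        omega
    · have h3 : -d ∉ fb (B ++ [e1]) := by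
        intro h
        refine hf ?_
        obtain ⟨S, T, h4, h5, h6, h7⟩ := mem_fb_iff.1 h
        rcases List.eq_nil_or_concat T with h8 | ⟨T', c, h8⟩
        · exfalso
          rw [h8] at h4
          have := List.append_inj_right' h4 rfl
          simp only [List.cons.injEq, and_true] at this
          exact h7 this.symm
        · rw [h8, List.concat_eq_append, ← List.cons_append, ← List.append_assoc] at h4
          have := List.append_inj_left' h4 rfl
          rw [this]
          exact mem_fb_of h5 h7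
      obtain ⟨h4, h5⟩ := step_flip hC hR hu (repl_push _ h2 h3) h2 (by
          intro h
          exact neg_e1_ne_letter hdu (by rw [h, neg_neg])) (Or.inr rfl)
      refine h5 (ih _ ?_ _ le_rfl h4)
      refine lt_of_lt_of_le (mu_append_lt A (Y := d :: e1 :: B) ?_ ?_) hn
      · simp only [mu, if_true, if_neg h2, List.count_cons]
        simp
      · simp only [List.count_cons]
        omega
  · subst h1
    have hle : ∀ c ∈ P, c = e1 ∨ (IsUnit3 c ∧ c.1 = 0) := fun c hc =>
      hu.strand.1 c (by simp [W, hc])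
    have h3 : P.sum = 0 := by
      have h4 := hu.sum
      have h5 := sum_fst_zero hle h2
      simp only [W, List.sum_cons, List.sum_append, List.sum_replicate, List.sum_nil, e1] at h4
      have h6 := congrArg Prod.fst h4
      have h7 := congrArg (fun q => q.2.1) h4
      have h8 := congrArg (fun q => q.2.2) h4
      simp at h6 h7 h8
      exact Prod.ext h5 (Prod.ext h7 h8)
    have h4 : P = [] := by
      cases P with
      | nil => rfl
      | cons d P =>
        refine absurd h3 (strand_sum_ne ?_)
        have h5 : W (List.replicate k e1 ++ d :: P) =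
            (e1 :: List.replicate k e1) ++ ((d :: P) ++ [e1]) := by simp [W]
        have h6 := hu.strand
        rw [h5] at h6
        exact h6.right.left
    subst h4
    have h5 : L = k + 2 := by
      have h6 := congrArg Prod.fst hu.sum
      simp only [W, List.sum_cons, List.sum_append, List.sum_replicate, List.sum_nil, e1] at h6
      simp at h6
      omega
    have h6 : W (List.replicate k e1 ++ []) = List.replicate L e1 := by
      rw [h5, List.append_nil, W, List.replicate_succ, List.replicate_succ']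
    rw [h6]
    exact h0

/-- (L2) Straightening. -/
theorem straighten : StraightenStatement := by
  intro C hC R p u L lo hi h1 h2 h3 h4 h5
  exact straighten_aux hC h4 h5 (mu u) u le_rfl ⟨h1, h2, h3⟩

end Pool.Agent.LK
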