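import Pool.Agent.MP_aea6d5_co.RLower

/-! # (L4) Counting the polygons made of two strands -/

set_option autoImplicit false

namespace Pool.Agent.LK

namespace SC

/-! ## Paths -/

theorem start_mem_pathV (p : P3) (w : List P3) : p ∈ pathV p w := by
  cases w <;> simp [pathV]

theorem mem_pathV_append (w w' : List P3) : ∀ (p v : P3),
    v ∈ pathV p (w ++ w') ↔ v ∈ pathV p w ∨ v ∈ pathV (p + w.sum) w' := by
  induction w with
  | nil =>
    intro p v
    simp only [List.nil_append, pathV, List.sum_nil, add_zero, List.mem_singleton]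
    constructor
    · exact Or.inr
    · rintro (rfl | h)
      · exact start_mem_pathV _ _
      · exact h
  | cons d w ih =>
    intro p v
    simp only [List.cons_append, pathV, List.mem_cons, List.sum_cons, ih, add_assoc, or_assoc]

theorem pathE_append (w w' : List P3) : ∀ p : P3,
    pathE p (w ++ w') = pathE p w ∪ pathE (p + w.sum) w' := by
  induction w with
  | nil => intro p; simp [pathE]
  | cons d w ih =>
    intro p
    simp only [List.cons_append, pathE, List.sum_cons, ih, add_assoc, Finset.insert_union]

theorem mem_pathV_of_mem_pathE {w : List P3} : ∀ {p : P3} {e : Sym2 P3} {v : P3},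
    e ∈ pathE p w → v ∈ e → v ∈ pathV p w := by
  induction w with
  | nil => intro p e v h; simp [pathE] at h
  | cons d w ih =>
    intro p e v h hv
    simp only [pathE, Finset.mem_insert] at h
    simp only [pathV, List.mem_cons]
    rcases h with rfl | h
    · rcases Sym2.mem_iff.1 hv with rfl | rfl
      · exact Or.inl rfl
      · exact Or.inr (start_mem_pathV _ _)
    · exact Or.inr (ih h hv)

theorem mem_pathV_of_mem_verts {w : List P3} {p v : P3} (h : v ∈ verts (pathE p w)) :
    v ∈ pathV p w := by
  obtain ⟨u, hu⟩ := h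
  exact mem_pathV_of_mem_pathE hu (Sym2.mem_mk_left v u)

theorem card_pathE {w : List P3} : ∀ {p : P3}, (pathV p w).Nodup → (pathE p w).card = w.length := by
  induction w with
  | nil => intro p _; simp [pathE]
  | cons d w ih =>
    intro p h
    simp only [pathV, List.nodup_cons] at h
    simp only [pathE, List.length_cons]
    rw [Finset.card_insert_of_notMem, ih h.2]
    intro h'
    exact h.1 (mem_pathV_of_mem_pathE h' (Sym2.mem_mk_left _ _))

theorem pathV_fst {w : List P3} (hw : ∀ d ∈ w, (0 : ℤ) ≤ d.1) : ∀ {p v : P3}, v ∈ pathV p w →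
    p.1 ≤ v.1 ∧ v.1 ≤ (p + w.sum).1 := by
  induction w with
  | nil => intro p v h; simp only [pathV, List.mem_singleton] at h; subst h; simp
  | cons d w ih =>
    intro p v h
    have hs : (0 : ℤ) ≤ w.sum.1 := by
      have := ih (fun d' h' => hw d' (List.mem_cons_of_mem _ h')) (start_mem_pathV p w)
      simp only [Prod.fst_add] at this
      omega
    have hd := hw d List.mem_cons_self
    simp only [pathV, List.mem_cons] at h
    simp only [List.sum_cons, Prod.fst_add]
    rcases h with rfl | h
    · omega
    · have := ih (fun d' h' => hw d' (List.mem_cons_of_mem _ h')) h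
      simp only [Prod.fst_add] at this
      omega

theorem pathV_snd {w : List P3} (hw : ∀ d ∈ w, |d.2.1| ≤ (1 : ℤ)) : ∀ {p v : P3}, v ∈ pathV p w →
    |v.2.1 - p.2.1| ≤ w.length ∧ |v.2.1 - (p + w.sum).2.1| ≤ w.length := by
  induction w with
  | nil => intro p v h; simp only [pathV, List.mem_singleton] at h; subst h; simp
  | cons d w ih =>
    intro p v h
    have hd := hw d List.mem_cons_self
    rw [abs_le] at hd
    simp only [pathV, List.mem_cons] at h
    simp only [List.sum_cons, Prod.fst_add, Prod.snd_add, List.length_cons]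
    push_cast
    rcases h with rfl | h
    · have := (ih (fun d' h' => hw d' (List.mem_cons_of_mem _ h')) (start_mem_pathV v w)).2
      simp only [Prod.fst_add, Prod.snd_add] at this
      rw [abs_le] at this
      constructor
      · rw [sub_self, abs_zero]; positivity
      · rw [abs_le]; constructor <;> omega
    · have := ih (fun d' h' => hw d' (List.mem_cons_of_mem _ h')) h
      simp only [Prod.fst_add, Prod.snd_add] at this
      rw [abs_le, abs_le] at this
      constructor <;> rw [abs_le] <;> constructor <;> omega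

/-- In a polygon, a path is determined by its first edge and its length. -/
theorem path_det {E : Finset (Sym2 P3)} (hE : IsPolygon E) : ∀ (w w' : List P3) (p q : P3),
    w.length = w'.length → s(p, q) ∈ E → p ∉ pathV q w → p ∉ pathV q w' → (pathV q w).Nodup →
    (pathV q w').Nodup → pathE q w ⊆ E → pathE q w' ⊆ E → w = w' := by
  intro w
  induction w with
  | nil =>
    intro w' p q hl _ _ _ _ _ _ _
    exact (List.length_eq_zero_iff.1 hl.symm).symm
  | cons d w ih =>
    intro w' p q hl hpq h1 h2 h3 h4 h5 h6
    cases w' with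
    | nil => simp at hl
    | cons d' w' =>
      simp only [pathV, List.mem_cons, not_or] at h1 h2
      simp only [pathV, List.nodup_cons] at h3 h4
      simp only [pathE, Finset.insert_subset_iff] at h5 h6
      have hq : q ∈ verts E := ⟨_, h5.1⟩
      have hdd : d = d' := by
        by_contra hne
        have hdeg := hE.deg q hq
        have hfin : {w | s(q, w) ∈ E}.Finite := Set.finite_of_ncard_ne_zero (by rw [hdeg]; norm_num)
        have hsub : (({p, q + d, q + d'} : Finset P3) : Set P3) ⊆ {w | s(q, w) ∈ E} := by
          intro x hx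
          simp only [Finset.coe_insert, Finset.coe_singleton, Set.mem_insert_iff,
            Set.mem_singleton_iff] at hx
          rcases hx with rfl | rfl | rfl
          · rw [Set.mem_ofPred_eq, Sym2.eq_swap]; exact hpq
          · exact h5.1
          · exact h6.1
        have hc := Set.ncard_le_ncard hsub hfin
        rw [Set.ncard_coe_finset, hdeg, Finset.card_eq_three.2] at hc
        · omega
        · refine ⟨p, q + d, q + d', ?_, ?_, ?_, rfl⟩
          · rintro h
            exact h1.2 (h ▸ start_mem_pathV _ _)
          · rintro h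
            exact h2.2 (h ▸ start_mem_pathV _ _)
          · intro h
            exact hne (add_left_cancel h)
      subst hdd
      have := ih w' q (q + d) (by simpa using hl) h5.1 h3.1 h4.1 h3.2 h4.2 h5.2 h6.2
      rw [this]

/-! ## Strands -/

theorem e1_ne_neg {d : P3} (h : d = e1 ∨ (IsUnit3 d ∧ d.1 = 0)) (h2 : d = -e1) : False := by
  subst h2
  rcases h with h | ⟨_, h⟩
  · have := congrArg Prod.fst h
    simp [e1] at this
  · simp [e1] at h

theorem mem_of_getLast? {α : Type*} {l : List α} {a : α} (h : l.getLast? = some a) : a ∈ l := by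
  obtain ⟨ys, rfl⟩ := List.getLast?_eq_some_iff.1 h
  simp

theorem strand_append {a b : List P3} (ha : Strand a) (hl : a.getLast? = some e1)
    (hb : Strand b) : Strand (a ++ b) := by
  refine ⟨fun d hd => ?_, fun A B D d h => ?_⟩
  · rcases List.mem_append.1 hd with h | h
    · exact ha.1 d h
    · exact hb.1 d h
  · have hneg : d = e1 → -d ∈ b → False := by
      rintro rfl h'
      exact e1_ne_neg (hb.1 _ h') rfl
    have hlast : ∀ c : List P3, a = A ++ d :: c → d = e1 ∧ c = [] ∨ e1 ∈ c := by
      intro c hc
      rcases List.eq_nil_or_concat c with rfl | ⟨c', x, rfl⟩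
      · left
        rw [hc] at hl
        simp at hl
        exact ⟨hl, rfl⟩
      · right
        rw [List.concat_eq_append] at hc ⊢
        rw [hc] at hl
        have : (A ++ d :: (c' ++ [x])).getLast? = some x := by
          rw [← List.cons_append, ← List.append_assoc, List.getLast?_concat]
        rw [this] at hl
        simp only [Option.some.injEq] at hl
        subst hl
        simp
    rcases List.append_eq_append_iff.1 h with ⟨a', h1, h2⟩ | ⟨c', h1, h2⟩
    · exact hb.2 a' B D d h2
    · cases c' with
      | nil =>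
        rw [List.nil_append] at h2
        exact hb.2 [] B D d (by rw [List.nil_append]; exact h2.symm)
      | cons x c'' =>
        rw [List.cons_append, List.cons.injEq] at h2
        obtain ⟨rfl, h2⟩ := h2
        rcases hlast c'' h1 with ⟨h3, rfl⟩ | h3
        · exfalso
          refine hneg h3 ?_
          rw [List.nil_append] at h2
          rw [← h2]; simp
        · rcases List.append_eq_append_iff.1 h2 with ⟨a'', h4, h5⟩ | ⟨c3, h4, h5⟩
          · cases a'' with
            | nil =>
              rw [List.append_nil] at h4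
              exact h4 ▸ h3
            | cons y a3 =>
              rw [List.cons_append, List.cons.injEq] at h5
              obtain ⟨rfl, h5⟩ := h5
              exact ha.2 A B a3 d (by rw [h1, h4])
          · rw [h4]
            exact List.mem_append_left _ h3

theorem strand_nil : Strand [] := by
  refine ⟨by simp, fun A B D d h => ?_⟩
  simp at h

theorem strand_e1 : Strand [e1] := by
  refine ⟨by simp, fun A B D d h => ?_⟩
  have := congrArg List.length h
  simp at this
  omega

theorem strand_replicate_y (b : ℕ) : Strand (List.replicate b ((0, 1, 0) : P3)) := by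
  refine ⟨fun d hd => ?_, fun A B D d h => ?_⟩
  · rw [List.mem_replicate] at hd
    rw [hd.2]
    right
    exact ⟨by simp [IsUnit3, Adj], rfl⟩
  · exfalso
    have h1 : d ∈ List.replicate b ((0, 1, 0) : P3) := by rw [h]; simp
    have h2 : -d ∈ List.replicate b ((0, 1, 0) : P3) := by rw [h]; simp
    rw [List.mem_replicate] at h1 h2
    rw [h1.2] at h2
    have := congrArg (fun u : P3 => u.2.1) h2.2
    simp at this

theorem strand_fst_nonneg {w : List P3} (h : Strand w) : ∀ d ∈ w, (0 : ℤ) ≤ d.1 := by
  intro d hd
  rcases h.1 d hd with rfl | ⟨_, h2⟩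
  · simp [e1]
  · omega

theorem strand_snd_le {w : List P3} (h : Strand w) : ∀ d ∈ w, |d.2.1| ≤ (1 : ℤ) := by
  intro d hd
  rcases h.1 d hd with rfl | ⟨h1, _⟩
  · simp [e1]
  · unfold IsUnit3 Adj at h1
    simp only [Prod.fst_zero, Prod.snd_zero, sub_zero] at h1
    have h3 := abs_nonneg d.1
    have h4 := abs_nonneg d.2.2
    omega

/-! ## Words -/

/-- Reversal of the planar letters. -/
def bar (d : P3) : P3 := (d.1, -d.2.1, -d.2.2)

theorem bar_bar (d : P3) : bar (bar d) = d := by simp [bar]

theorem bar_inj : Function.Injective bar := fun a b h => by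
  rw [← bar_bar a, h, bar_bar]

theorem bar_e1 : bar e1 = e1 := by simp [bar, e1]

theorem bar_neg (d : P3) : bar (-d) = -bar d := by simp [bar]

theorem bar_add (d d' : P3) : bar (d + d') = bar d + bar d' := by
  refine Prod.ext rfl (Prod.ext ?_ ?_)
  · simp only [bar, Prod.fst_add, Prod.snd_add]; ring
  · simp only [bar, Prod.snd_add]; ring

theorem sum_map_bar (w : List P3) : (w.map bar).sum = bar w.sum := by
  induction w with
  | nil => rfl
  | cons d w ih => rw [List.map_cons, List.sum_cons, List.sum_cons, ih, bar_add]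

theorem strand_bar {w : List P3} (h : Strand w) : Strand (w.map bar) := by
  refine ⟨fun d hd => ?_, fun A B D d h2 => ?_⟩
  · obtain ⟨d', hd', rfl⟩ := List.mem_map.1 hd
    rcases h.1 d' hd' with rfl | ⟨h1, h2⟩
    · left; exact bar_e1
    · right
      refine ⟨?_, by simpa [bar] using h2⟩
      unfold IsUnit3 Adj at *
      simpa [bar] using h1
  · have h3 : w = A.map bar ++ bar d :: (B.map bar ++ (-bar d) :: D.map bar) := by
      have := congrArg (List.map bar) h2
      rw [List.map_map, show bar ∘ bar = id from funext bar_bar, List.map_id] at this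
      rw [this]
      simp [bar_neg]
    obtain ⟨x, hx, hx2⟩ := List.mem_map.1 (h.2 _ _ _ _ h3)
    rw [← bar_e1, bar_inj.eq_iff] at hx2
    rwa [← hx2]

/-- The word of a list of pairs of blocks. -/
def word : List (List P3 × List P3) → List P3
  | [] => []
  | q :: l => q.1 ++ (q.2.map bar ++ word l)

variable {T : Finset (List P3)} {m K : ℕ} {t : ℤ × ℤ}

theorem word_length (hT : Blocks T m K t) {l : List (List P3 × List P3)}
    (hl : ∀ q ∈ l, q.1 ∈ T ∧ q.2 ∈ T) : (word l).length = 2 * m * l.length := by
  induction l with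
  | nil => simp [word]
  | cons q l ih =>
    have hq := hl q List.mem_cons_self
    simp only [word, List.length_append, List.length_map, List.length_cons, hT.len _ hq.1,
      hT.len _ hq.2, ih (fun q' h' => hl q' (List.mem_cons_of_mem _ h'))]
    ring

theorem pair_sum (hT : Blocks T m K t) {q : List P3 × List P3} (hq : q.1 ∈ T ∧ q.2 ∈ T) :
    q.1.sum + (q.2.map bar).sum = (2 * (K : ℤ), 0, 0) := by
  rw [sum_map_bar, hT.sum _ hq.1, hT.sum _ hq.2]
  simp only [bar, Prod.mk_add_mk]
  refine Prod.ext ?_ (Prod.ext ?_ ?_) <;> simp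
  ring

theorem word_sum (hT : Blocks T m K t) {l : List (List P3 × List P3)}
    (hl : ∀ q ∈ l, q.1 ∈ T ∧ q.2 ∈ T) : (word l).sum = (2 * (K : ℤ) * l.length, 0, 0) := by
  induction l with
  | nil => simp [word]; rfl
  | cons q l ih =>
    have hq := hl q List.mem_cons_self
    simp only [word, List.sum_append, List.length_cons]
    rw [← add_assoc, pair_sum hT hq, ih (fun q' h' => hl q' (List.mem_cons_of_mem _ h'))]
    simp only [Prod.mk_add_mk, add_zero]
    push_cast
    refine Prod.ext ?_ rfl
    simp only
    ring

theorem word_strand (hT : Blocks T m K t) {l : List (List P3 × List P3)}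
    (hl : ∀ q ∈ l, q.1 ∈ T ∧ q.2 ∈ T) : Strand (word l) := by
  induction l with
  | nil => exact strand_nil
  | cons q l ih =>
    have hq := hl q List.mem_cons_self
    refine strand_append (hT.strand _ hq.1) (hT.last _ hq.1)
      (strand_append (strand_bar (hT.strand _ hq.2)) ?_
        (ih (fun q' h' => hl q' (List.mem_cons_of_mem _ h'))))
    rw [List.getLast?_map, hT.last _ hq.2]
    simp [bar_e1]

theorem word_last (hT : Blocks T m K t) {l : List (List P3 × List P3)}
    (hl : ∀ q ∈ l, q.1 ∈ T ∧ q.2 ∈ T) (hne : l ≠ []) : (word l).getLast? = some e1 := by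
  induction l with
  | nil => exact absurd rfl hne
  | cons q l ih =>
    have hq := hl q List.mem_cons_self
    have h2 : (q.2.map bar).getLast? = some e1 := by
      rw [List.getLast?_map, hT.last _ hq.2]
      simp [bar_e1]
    rcases eq_or_ne l [] with rfl | hl'
    · simp only [word, List.append_nil, List.getLast?_append, h2, Option.some_or]
    · simp only [word, List.getLast?_append,
        ih (fun q' h' => hl q' (List.mem_cons_of_mem _ h')) hl', Option.some_or]

theorem word_bd (hT : Blocks T m K t) {l : List (List P3 × List P3)}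
    (hl : ∀ q ∈ l, q.1 ∈ T ∧ q.2 ∈ T) : ∀ {p v : P3}, v ∈ pathV p (word l) →
    |v.2.1 - p.2.1| ≤ m := by
  induction l with
  | nil =>
    intro p v h
    simp only [word, pathV, List.mem_singleton] at h
    subst h
    simp
  | cons q l ih =>
    intro p v h
    have hq := hl q List.mem_cons_self
    simp only [word] at h
    rw [mem_pathV_append, mem_pathV_append] at h
    have hs := pair_sum hT hq
    rcases h with h | h | h
    · have := (pathV_snd (strand_snd_le (hT.strand _ hq.1)) h).1
      rwa [hT.len _ hq.1] at this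
    · have := (pathV_snd (strand_snd_le (strand_bar (hT.strand _ hq.2))) h).2
      rw [add_assoc, hs, List.length_map, hT.len _ hq.2] at this
      simpa using this
    · have := ih (fun q' h' => hl q' (List.mem_cons_of_mem _ h')) h
      rw [add_assoc, hs] at this
      simpa using this

theorem word_inj (hT : Blocks T m K t) : ∀ {l l' : List (List P3 × List P3)},
    (∀ q ∈ l, q.1 ∈ T ∧ q.2 ∈ T) → (∀ q ∈ l', q.1 ∈ T ∧ q.2 ∈ T) → l.length = l'.length →
    word l = word l' → l = l' := by
  intro l
  induction l with
  | nil =>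
    intro l' _ _ h _
    exact (List.length_eq_zero_iff.1 h.symm).symm
  | cons q l ih =>
    intro l' hl hl' h hw
    cases l' with
    | nil => simp at h
    | cons q' l' =>
      have hq := hl q List.mem_cons_self
      have hq' := hl' q' List.mem_cons_self
      simp only [word] at hw
      obtain ⟨e1, e2⟩ := List.append_inj hw (by rw [hT.len _ hq.1, hT.len _ hq'.1])
      obtain ⟨e3, e4⟩ := List.append_inj e2 (by
        rw [List.length_map, List.length_map, hT.len _ hq.2, hT.len _ hq'.2])
      have e5 := List.map_injective_iff.2 bar_inj e3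
      have e6 := ih (fun q' h' => hl q' (List.mem_cons_of_mem _ h'))
        (fun q' h' => hl' q' (List.mem_cons_of_mem _ h')) (by simpa using h) e4
      rw [e6, Prod.ext e1 e5]

/-! ## The polygons -/

/-- Good words. -/
structure GW (m a : ℕ) (w : List P3) : Prop where
  strand : Strand w
  first : ∃ v, w = e1 :: v
  last : ∃ v, w = v ++ [e1]
  sum : w.sum = ((a : ℤ), 0, 0)
  bd : ∀ p v : P3, v ∈ pathV p w → |v.2.1 - p.2.1| ≤ m

theorem gw_word (hT : Blocks T m K t) {l : List (List P3 × List P3)}
    (hl : ∀ q ∈ l, q.1 ∈ T ∧ q.2 ∈ T) : GW m (1 + 2 * K * l.length) (e1 :: word l) := by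
  refine ⟨?_, ⟨_, rfl⟩, ?_, ?_, ?_⟩
  · exact strand_append strand_e1 rfl (word_strand hT hl)
  · rcases eq_or_ne l [] with rfl | hne
    · exact ⟨[], rfl⟩
    · obtain ⟨ys, hys⟩ := List.getLast?_eq_some_iff.1 (word_last hT hl hne)
      exact ⟨e1 :: ys, by rw [hys]; rfl⟩
  · rw [List.sum_cons, word_sum hT hl]
    simp only [e1, Prod.mk_add_mk, add_zero]
    push_cast
    rfl
  · intro p v h
    simp only [pathV, List.mem_cons] at h
    rcases h with rfl | h
    · simp
    · have := word_bd hT hl h
      simpa [e1] using this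

/-- Straightening for good words. -/
theorem of_straight (h2 : StraightenStatement) {C : Finset (Sym2 P3) → Prop} (hC : MoveClosed C)
    {m a : ℕ} {w : List P3} (hw : GW m a w) {R : Finset (Sym2 P3)} {p : P3}
    (hR : ∀ v ∈ verts R, v.1 ≤ p.1 ∨ p.1 + a ≤ v.1 ∨ v.2.1 < p.2.1 - m ∨ p.2.1 + m < v.2.1)
    (h : C (R ∪ pathE p (List.replicate a e1))) : C (R ∪ pathE p w) := by
  obtain ⟨v, hv⟩ := hw.first
  obtain ⟨v', hv'⟩ := hw.last
  rcases List.eq_nil_or_concat v with rfl | ⟨u, x, rfl⟩
  · have ha := hw.sum
    rw [hv] at ha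
    have ha1 : (1 : ℤ) = a := by
      have := congrArg Prod.fst ha
      simpa [e1] using this
    have ha2 : a = 1 := by omega
    subst ha2
    rw [hv]
    exact h
  · rw [List.concat_eq_append] at hv
    have hx : x = e1 := by
      have h3 : (u ++ [x]).getLast? = some x := List.getLast?_concat ..
      have h4 : w.getLast? = some x := by
        rw [hv, ← List.cons_append, List.getLast?_concat]
      rw [hv', List.getLast?_concat] at h4
      exact (Option.some.inj h4).symm
    subst hx
    rw [hv]
    refine h2 C hC R p u a (p.2.1 - m) (p.2.1 + m) (hv ▸ hw.strand) (hv ▸ hw.sum) ?_ hR h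
    intro v hv2
    have := hw.bd p v (hv ▸ hv2)
    rw [abs_le] at this
    constructor <;> omega

/-- A rectangle whose horizontal sides are replaced by `w` and `w'`. -/
def poly2 (a b : ℕ) (w w' : List P3) : Finset (Sym2 P3) :=
  pathE (-1, 0, 0) w ∪ pathE (-1, (b : ℤ), 0) w' ∪
    pathE (-1, 0, 0) (List.replicate b (0, 1, 0)) ∪
    pathE ((a : ℤ) - 1, 0, 0) (List.replicate b (0, 1, 0))

theorem mem_pathV_y {b : ℕ} : ∀ {p v : P3}, v ∈ pathV p (List.replicate b (0, 1, 0)) →
    v.1 = p.1 ∧ v.2.2 = p.2.2 ∧ p.2.1 ≤ v.2.1 ∧ v.2.1 ≤ p.2.1 + b := by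
  induction b with
  | zero =>
    intro p v h
    simp only [List.replicate_zero, pathV, List.mem_singleton] at h
    subst h
    simp
  | succ b ih =>
    intro p v h
    simp only [List.replicate_succ, pathV, List.mem_cons] at h
    rcases h with rfl | h
    · simp
      positivity
    · have := ih h
      simp only [Prod.fst_add, Prod.snd_add] at this
      push_cast
      refine ⟨?_, ?_, ?_, ?_⟩ <;> omega

theorem mem_pathV_x {a : ℕ} : ∀ {p v : P3}, v ∈ pathV p (List.replicate a e1) →
    v.2.1 = p.2.1 := by
  induction a with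
  | zero =>
    intro p v h
    simp only [List.replicate_zero, pathV, List.mem_singleton] at h
    rw [h]
  | succ b ih =>
    intro p v h
    simp only [List.replicate_succ, pathV, List.mem_cons] at h
    rcases h with rfl | h
    · rfl
    · have := ih h
      simpa [e1] using this

theorem verts_union {E F : Finset (Sym2 P3)} {v : P3} (h : v ∈ verts (E ∪ F)) :
    v ∈ verts E ∨ v ∈ verts F := by
  obtain ⟨u, hu⟩ := h
  rw [Finset.mem_union] at hu
  rcases hu with hu | hu
  · exact Or.inl ⟨u, hu⟩
  · exact Or.inr ⟨u, hu⟩

theorem poly2_mem (h2 : StraightenStatement) (h3 : RectStatement)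
    {C : Finset (Sym2 P3) → Prop} (hC : ClosedZ C) {m a : ℕ} {w w' : List P3} (ha : 1 ≤ a)
    (hw : GW m a w) (hw' : GW m a w') : C (poly2 a (2 * m + 1) w w') := by
  have h0 : C (rect a (2 * m + 1)) := h3 C hC a (2 * m + 1) ha (by omega)
  have h1 : C ((pathE (-1, ((2 * m + 1 : ℕ) : ℤ), 0) (List.replicate a e1) ∪
      pathE (-1, 0, 0) (List.replicate (2 * m + 1) (0, 1, 0)) ∪
      pathE ((a : ℤ) - 1, 0, 0) (List.replicate (2 * m + 1) (0, 1, 0))) ∪ pathE (-1, 0, 0) w) := by
    refine of_straight h2 hC.move hw ?_ ?_
    · intro v hv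
      rcases verts_union hv with hv | hv
      · rcases verts_union hv with hv | hv
        · have := mem_pathV_x (mem_pathV_of_mem_verts hv)
          simp only at this ⊢
          push_cast at this
          omega
        · have := mem_pathV_y (mem_pathV_of_mem_verts hv)
          simp only at this ⊢
          omega
      · have := mem_pathV_y (mem_pathV_of_mem_verts hv)
        simp only at this ⊢
        omega
    · convert h0 using 1
      ext e
      simp only [rect, Finset.mem_union, e1]
      tauto
  have h4 : C ((pathE (-1, 0, 0) w ∪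
      pathE (-1, 0, 0) (List.replicate (2 * m + 1) (0, 1, 0)) ∪
      pathE ((a : ℤ) - 1, 0, 0) (List.replicate (2 * m + 1) (0, 1, 0))) ∪
      pathE (-1, ((2 * m + 1 : ℕ) : ℤ), 0) w') := by
    refine of_straight h2 hC.move hw' ?_ ?_
    · intro v hv
      rcases verts_union hv with hv | hv
      · rcases verts_union hv with hv | hv
        · have := hw.bd _ _ (mem_pathV_of_mem_verts hv)
          rw [abs_le] at this
          simp only at this ⊢
          push_cast
          omega
        · have := mem_pathV_y (mem_pathV_of_mem_verts hv)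
          simp only at this ⊢
          omega
      · have := mem_pathV_y (mem_pathV_of_mem_verts hv)
        simp only at this ⊢
        omega
    · convert h1 using 1
      ext e
      simp only [Finset.mem_union]
      tauto
  convert h4 using 1
  ext e
  simp only [poly2, Finset.mem_union]
  tauto

theorem GW.fst {m a : ℕ} {w : List P3} (hw : GW m a w) {p v : P3} (h : v ∈ pathV p w) :
    p.1 ≤ v.1 ∧ v.1 ≤ p.1 + a := by
  have := pathV_fst (strand_fst_nonneg hw.strand) h
  rw [hw.sum] at this
  simpa using this

theorem GW.eq_start {m a : ℕ} {w : List P3} (hw : GW m a w) {p v : P3} (h : v ∈ pathV p w)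
    (h1 : v.1 = p.1) : v = p := by
  obtain ⟨u, hu⟩ := hw.first
  rw [hu] at h
  simp only [pathV, List.mem_cons] at h
  rcases h with h | h
  · exact h
  · have := (pathV_fst (fun d hd => strand_fst_nonneg hw.strand d
      (hu ▸ List.mem_cons_of_mem _ hd)) h).1
    simp only [Prod.fst_add, e1] at this
    omega

/-- An edge of a good path is not in the left or the right plane. -/
theorem GW.edge {m a : ℕ} {w : List P3} (hw : GW m a w) {p : P3} {e : Sym2 P3}
    (h : e ∈ pathE p w) : (∃ v ∈ e, p.1 < v.1) ∧ ∃ v ∈ e, v.1 < p.1 + a := by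
  constructor
  · obtain ⟨u, hu⟩ := hw.first
    rw [hu] at h
    simp only [pathE, Finset.mem_insert] at h
    rcases h with rfl | h
    · exact ⟨_, Sym2.mem_mk_right _ _, by simp [e1]⟩
    · induction e using Sym2.ind with
      | _ x y =>
        refine ⟨x, Sym2.mem_mk_left _ _, ?_⟩
        have := (pathV_fst (fun d hd => strand_fst_nonneg hw.strand d
          (hu ▸ List.mem_cons_of_mem _ hd)) (mem_pathV_of_mem_pathE h (Sym2.mem_mk_left _ _))).1
        simp only [Prod.fst_add, e1] at this
        omega
  · obtain ⟨u, hu⟩ := hw.last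
    have hs := hw.sum
    rw [hu] at h
    rw [hu, List.sum_append] at hs
    have hs1 : u.sum.1 + 1 = a := by
      have := congrArg Prod.fst hs
      simpa [e1] using this
    rw [pathE_append, Finset.mem_union] at h
    rcases h with h | h
    · induction e using Sym2.ind with
      | _ x y =>
        refine ⟨x, Sym2.mem_mk_left _ _, ?_⟩
        have := (pathV_fst (fun d hd => strand_fst_nonneg hw.strand d
          (hu ▸ List.mem_append_left _ hd)) (mem_pathV_of_mem_pathE h (Sym2.mem_mk_left _ _))).2
        simp only [Prod.fst_add] at this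
        omega
    · simp only [pathE, Finset.insert_empty, Finset.mem_singleton] at h
      rw [h]
      refine ⟨_, Sym2.mem_mk_left _ _, ?_⟩
      simp only [Prod.fst_add]
      omega

theorem card_poly2 (h1 : StrandNodup) {m a : ℕ} {w w' : List P3} (ha : 1 ≤ a)
    (hw : GW m a w) (hw' : GW m a w') :
    (poly2 a (2 * m + 1) w w').card = w.length + w'.length + 2 * (2 * m + 1) := by
  have exv : ∀ e : Sym2 P3, ∃ v, v ∈ e := by
    intro e
    induction e using Sym2.ind with
    | _ x y => exact ⟨x, Sym2.mem_mk_left _ _⟩
  unfold poly2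
  rw [Finset.card_union_of_disjoint, Finset.card_union_of_disjoint,
    Finset.card_union_of_disjoint, card_pathE (h1 _ _ hw.strand), card_pathE (h1 _ _ hw'.strand),
    card_pathE (h1 _ _ (strand_replicate_y _)), card_pathE (h1 _ _ (strand_replicate_y _))]
  · simp only [List.length_replicate]
    ring
  · rw [Finset.disjoint_left]
    intro e he he'
    obtain ⟨v, hv⟩ := exv e
    have k1 := hw.bd _ _ (mem_pathV_of_mem_pathE he hv)
    have k2 := hw'.bd _ _ (mem_pathV_of_mem_pathE he' hv)
    rw [abs_le] at k1 k2
    simp only at k1 k2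
    push_cast at k2
    omega
  · rw [Finset.disjoint_left]
    intro e he he'
    rcases Finset.mem_union.1 he with he | he
    · obtain ⟨v, hv, hv2⟩ := (hw.edge he).1
      have := (mem_pathV_y (mem_pathV_of_mem_pathE he' hv)).1
      simp only at this hv2
      omega
    · obtain ⟨v, hv, hv2⟩ := (hw'.edge he).1
      have := (mem_pathV_y (mem_pathV_of_mem_pathE he' hv)).1
      simp only at this hv2
      omega
  · rw [Finset.disjoint_left]
    intro e he he'
    rcases Finset.mem_union.1 he with he | he
    · rcases Finset.mem_union.1 he with he | he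
      · obtain ⟨v, hv, hv2⟩ := (hw.edge he).2
        have := (mem_pathV_y (mem_pathV_of_mem_pathE he' hv)).1
        simp only at this hv2
        omega
      · obtain ⟨v, hv, hv2⟩ := (hw'.edge he).2
        have := (mem_pathV_y (mem_pathV_of_mem_pathE he' hv)).1
        simp only at this hv2
        omega
    · obtain ⟨v, hv⟩ := exv e
      have k1 := (mem_pathV_y (mem_pathV_of_mem_pathE he hv)).1
      have k2 := (mem_pathV_y (mem_pathV_of_mem_pathE he' hv)).1
      simp only at k1 k2
      omega

/-- Facts about the left plane. -/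
theorem poly2_left {m a : ℕ} {w w' : List P3} (ha : 1 ≤ a) (hw : GW m a w) (hw' : GW m a w') :
    ((-1, 0, 0) : P3) ∈ verts (poly2 a (2 * m + 1) w w') ∧
      ∀ v ∈ verts (poly2 a (2 * m + 1) w w'), -1 ≤ v.1 ∧ (v.1 = -1 → 0 ≤ v.2.1 ∧ v.2.2 = 0) := by
  constructor
  · obtain ⟨u, hu⟩ := hw.first
    refine ⟨((-1, 0, 0) : P3) + e1, ?_⟩
    simp only [poly2, Finset.mem_union]
    left; left; left
    rw [hu]
    simp [pathE]
  · intro v hv
    rcases verts_union hv with hv | hv
    · rcases verts_union hv with hv | hv
      · rcases verts_union hv with hv | hv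
        · have k := mem_pathV_of_mem_verts hv
          refine ⟨(hw.fst k).1, fun h => ?_⟩
          rw [hw.eq_start k h]
          simp
        · have k := mem_pathV_of_mem_verts hv
          refine ⟨(hw'.fst k).1, fun h => ?_⟩
          rw [hw'.eq_start k h]
          simp only [and_true]
          positivity
      · have := mem_pathV_y (mem_pathV_of_mem_verts hv)
        simp only at this
        omega
    · have := mem_pathV_y (mem_pathV_of_mem_verts hv)
      simp only at this
      omega

theorem poly2_translate {m a : ℕ} {w1 w1' w2 w2' : List P3} (ha : 1 ≤ a)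
    (h1 : GW m a w1) (h1' : GW m a w1') (h2 : GW m a w2) (h2' : GW m a w2') {t : P3}
    (h : poly2 a (2 * m + 1) w1 w1' = shift t (poly2 a (2 * m + 1) w2 w2')) : t = 0 := by
  obtain ⟨k1, k2⟩ := poly2_left ha h1 h1'
  obtain ⟨k3, k4⟩ := poly2_left ha h2 h2'
  have k5 : ((-1, 0, 0) : P3) - t ∈ verts (poly2 a (2 * m + 1) w2 w2') := by
    rw [h] at k1
    exact mem_verts_shift.1 k1
  have k6 : ((-1, 0, 0) : P3) + t ∈ verts (poly2 a (2 * m + 1) w1 w1') := by
    rw [h]
    exact mem_verts_shift.2 (by simpa using k3)
  have k7 := k4 _ k5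
  have k8 := k2 _ k6
  obtain ⟨t1, t2, t3⟩ := t
  simp only [Prod.mk_sub_mk, Prod.mk_add_mk] at k7 k8
  have e : t1 = 0 := by omega
  have k9 := k7.2 (by omega)
  have k10 := k8.2 (by omega)
  simp only [Prod.mk_eq_zero]
  omega

theorem poly2_inj (hn : StrandNodup) {m a : ℕ} {w1 w1' w2 w2' : List P3}
    (hp : IsPolygon (poly2 a (2 * m + 1) w1 w1'))
    (h1 : GW m a w1) (h1' : GW m a w1') (h2 : GW m a w2) (h2' : GW m a w2')
    (hl : w1.length = w2.length) (hl' : w1'.length = w2'.length)
    (h : poly2 a (2 * m + 1) w1 w1' = poly2 a (2 * m + 1) w2 w2') : w1 = w2 ∧ w1' = w2' := by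
  have key : ∀ (w w' : List P3) (p : P3), GW m a w → GW m a w' → w.length = w'.length →
      pathE p w ⊆ poly2 a (2 * m + 1) w1 w1' → pathE p w' ⊆ poly2 a (2 * m + 1) w1 w1' →
      w = w' := by
    intro w w' p hw hw' hlen hs hs'
    have n1 := hn p _ hw.strand
    have n2 := hn p _ hw'.strand
    obtain ⟨u, rfl⟩ := hw.first
    obtain ⟨u', rfl⟩ := hw'.first
    simp only [pathV, List.nodup_cons] at n1 n2
    simp only [pathE, Finset.insert_subset_iff] at hs hs'
    rw [path_det hp u u' p (p + e1) (by simpa using hlen) hs.1 n1.1 n2.1 n1.2 n2.2 hs.2 hs'.2]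
  constructor
  · refine key w1 w2 (-1, 0, 0) h1 h2 hl ?_ ?_
    · intro e he
      simp only [poly2, Finset.mem_union]
      tauto
    · rw [h]
      intro e he
      simp only [poly2, Finset.mem_union]
      tauto
  · refine key w1' w2' (-1, ((2 * m + 1 : ℕ) : ℤ), 0) h1' h2' hl' ?_ ?_
    · intro e he
      simp only [poly2, Finset.mem_union]
      tauto
    · rw [h]
      intro e he
      simp only [poly2, Finset.mem_union]
      tauto

end SC

open SC in
/-- **(L4)** -/
theorem strandCount (h1 : StrandNodup) (h2 : StraightenStatement) (h3 : RectStatement) :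
    StrandCountStatement := by
  intro C hC T m K t hT hm N
  classical
  set D : Finset (Fin N → List P3 × List P3) := Fintype.piFinset fun _ => T ×ˢ T with hD
  have memD : ∀ f ∈ D, ∀ q ∈ List.ofFn f, q.1 ∈ T ∧ q.2 ∈ T := by
    intro f hf q hq
    rw [List.mem_ofFn] at hq
    obtain ⟨i, rfl⟩ := hq
    have := Fintype.mem_piFinset.1 hf i
    exact Finset.mem_product.1 this
  set a : ℕ := 1 + 2 * K * N with ha
  have ha1 : 1 ≤ a := by omega
  have gw : ∀ f ∈ D, GW m a (e1 :: word (List.ofFn f)) := by
    intro f hf
    have := gw_word hT (memD f hf)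
    rwa [List.length_ofFn] at this
  have len : ∀ f ∈ D, (e1 :: word (List.ofFn f)).length = 2 * m * N + 1 := by
    intro f hf
    rw [List.length_cons, word_length hT (memD f hf), List.length_ofFn]
  set P : (Fin N → List P3 × List P3) × (Fin N → List P3 × List P3) → Finset (Sym2 P3) :=
    fun x => poly2 a (2 * m + 1) (e1 :: word (List.ofFn x.1)) (e1 :: word (List.ofFn x.2)) with hP
  have hPC : ∀ x ∈ D ×ˢ D, C (P x) := by
    intro x hx
    rw [Finset.mem_product] at hx
    exact poly2_mem h2 h3 hC ha1 (gw _ hx.1) (gw _ hx.2)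
  have hN : ∀ x, ∃ s : P3, x ∈ D ×ˢ D → Normed (shift s (P x)) := by
    intro x
    by_cases hx : x ∈ D ×ˢ D
    · obtain ⟨s, hs⟩ := exists_normed (hC.poly _ (hPC x hx)).verts_nonempty
      exact ⟨s, fun _ => hs⟩
    · exact ⟨0, fun h => absurd h hx⟩
  choose s hs using hN
  have hcard : (D ×ˢ D).card = T.card ^ (4 * N) := by
    rw [Finset.card_product, hD, Fintype.card_piFinset]
    simp only [Finset.card_product, Finset.prod_const, Finset.card_univ, Fintype.card_fin]
    rw [← mul_pow, ← pow_two, ← pow_two, ← pow_mul, ← pow_mul]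
    congr 1
    ring
  rw [← hcard, ← card_U' hC.poly]
  refine Finset.card_le_card_of_injOn (fun x => shift (s x) (P x)) ?_ ?_
  · intro x hx
    rw [Finset.mem_coe] at hx
    have hx' := Finset.mem_product.1 hx
    rw [Finset.mem_coe, mem_U' hC.poly]
    refine ⟨hC.shift (hPC x hx) _, ?_, hs x hx⟩
    rw [card_shift, card_poly2 h1 ha1 (gw _ hx'.1) (gw _ hx'.2), len _ hx'.1, len _ hx'.2]
    ring
  · intro x hx y hy hxy
    rw [Finset.mem_coe] at hx hy
    have hx' := Finset.mem_product.1 hx
    have hy' := Finset.mem_product.1 hy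
    simp only at hxy
    have h4 : P x = shift (-(s x) + s y) (P y) := by
      have := congrArg (shift (-(s x))) hxy
      rwa [shift_shift, shift_shift, neg_add_cancel, shift_zero] at this
    have h5 := poly2_translate ha1 (gw _ hx'.1) (gw _ hx'.2) (gw _ hy'.1) (gw _ hy'.2) h4
    rw [h5, shift_zero] at h4
    obtain ⟨h6, h7⟩ := poly2_inj h1 (hC.poly _ (hPC x hx)) (gw _ hx'.1) (gw _ hx'.2)
      (gw _ hy'.1) (gw _ hy'.2) (by rw [len _ hx'.1, len _ hy'.1])
      (by rw [len _ hx'.2, len _ hy'.2]) h4
    rw [List.cons.injEq] at h6 h7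
    have h8 := word_inj hT (memD _ hx'.1) (memD _ hy'.1) (by simp) h6.2
    have h9 := word_inj hT (memD _ hx'.2) (memD _ hy'.2) (by simp) h7.2
    exact Prod.ext (List.ofFn_injective h8) (List.ofFn_injective h9)

end Pool.Agent.LK
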