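import Pool.Agent.MP_aea6d5_co.RFinal
import Pool.Agent.MP_aea6d5_co.RLocal
import Pool.Agent.MP_aea6d5_co.RDiff
import Pool.Agent.MP_aea6d5_co.RExchange
import Pool.Agent.MP_aea6d5_co.RRigA
import Pool.Agent.MP_aea6d5_co.RRigB
import Pool.Agent.MP_aea6d5_co.RStrand
import Pool.Agent.MP_aea6d5_co.RRect
import Pool.Agent.MP_aea6d5_co.RStrandCount
import Pool.Agent.MP_aea6d5_co.RBlock
import Pool.Agent.MP_aea6d5_co.RLowerFinal
import Pool.Agent.MP_aea6d5_co.RLimit
import Pool.Agent.MP_aea6d5_co.RFew
import Pool.Agent.MP_aea6d5_co.RKesten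
import Pool.Agent.MP_aea6d5_co.RLimLemma
import Pool.Agent.MP_aea6d5_co.RProp
import Pool.Agent.MP_aea6d5_co.NonCancel
import Pool.Agent.MP_aea6d5_co.SumInv

/-! # Ratio limit theorem: all parts together -/

set_option autoImplicit false

open Filter Topology

namespace Pool.Agent.LK

theorem rigidStatement : RigidStatement := rigid_of localFacts rigIneq

theorem few_all : FewStatement :=
  fewStatement localFacts diffStatement (exchangeStatement localFacts) rigidStatement

theorem kesten_all : KestenStatement :=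
  kestenStatement localFacts diffStatement (exchangeStatement localFacts)

theorem lower_all : LowerStatement :=
  lower_of (strandCount strandNodup straighten rectStatement) blockStatement

/-- **The ratio limit theorem.** -/
theorem ratioLimit :
    Tendsto (fun k : ℕ => (count UClass (2 * k + 2) : ℝ) / (count UClass (2 * k) : ℝ)) atTop
      (𝓝 (growth UClass ^ 2)) ∧
    ∀ G : Subgroup (R3 ≃ₜ R3), (∀ φ : R3 ≃ₜ R3, φ ∈ G ∨ φ * swapR ∈ G) →
      ∀ K : Finset (Sym2 P3), IsPolygon K → ∀ μ : ℝ,
        Tendsto (fun k : ℕ => (count (GClass G K) (2 * k) : ℝ) ^ (((2 * k : ℕ) : ℝ)⁻¹)) atTop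
          (𝓝 μ) →
        Tendsto (fun k : ℕ => (count (GClass G K) (2 * k + 2) : ℝ) /
          (count (GClass G K) (2 * k) : ℝ)) atTop (𝓝 (μ ^ 2)) :=
  ratioLimit_of few_all kesten_all limitLemma lower_all limitStatement propStatement
    (bumpClass_U localFacts) (bumpClass_K localFacts) b1Statement ncStatement

end Pool.Agent.LK
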