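import Pool.Agent.MP_aea6d5_co.RDefs

/-! # Lower bound for the growth rate: interface -/

set_option autoImplicit false

open Filter Topology

namespace Pool.Agent.LK

/-- The edges of the lattice path that starts in `p` and has the steps `w`. -/
def pathE : P3 → List P3 → Finset (Sym2 P3)
  | _, [] => ∅
  | p, d :: w => insert s(p, p + d) (pathE (p + d) w)

/-- The vertices of the lattice path that starts in `p` and has the steps `w`. -/
def pathV : P3 → List P3 → List P3
  | p, [] => [p]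
  | p, d :: w => p :: pathV (p + d) w

/-- the step in direction `x` -/
def e1 : P3 := (1, 0, 0)

/-- A strand: the steps are `(1,0,0)`, `±(0,1,0)`, `±(0,0,1)`, and between two opposite steps there
is a step `(1,0,0)`. -/
def Strand (w : List P3) : Prop :=
  (∀ d ∈ w, d = e1 ∨ (IsUnit3 d ∧ d.1 = 0)) ∧
    ∀ (A B D : List P3) (d : P3), w = A ++ d :: (B ++ (-d) :: D) → e1 ∈ B

/-- (L1) Strands do not intersect themselves. -/
def StrandNodup : Prop := ∀ (p : P3) (w : List P3), Strand w → (pathV p w).Nodup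

/-- (L2) Straightening. A straight strand of a polygon can be replaced by any strand with the same
end points (starting and ending with a step `(1,0,0)`), if the rest of the polygon stays away. -/
def StraightenStatement : Prop := ∀ C : Finset (Sym2 P3) → Prop, MoveClosed C →
  ∀ (R : Finset (Sym2 P3)) (p : P3) (u : List P3) (L : ℕ) (lo hi : ℤ),
    Strand (e1 :: (u ++ [e1])) → (e1 :: (u ++ [e1])).sum = ((L : ℤ), 0, 0) →
    (∀ v ∈ pathV p (e1 :: (u ++ [e1])), lo ≤ v.2.1 ∧ v.2.1 ≤ hi) →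
    (∀ v ∈ verts R, v.1 ≤ p.1 ∨ p.1 + L ≤ v.1 ∨ v.2.1 < lo ∨ hi < v.2.1) →
    C (R ∪ pathE p (List.replicate L e1)) → C (R ∪ pathE p (e1 :: (u ++ [e1])))

/-- The rectangle `[-1, a - 1] × [0, b]` in the plane `z = 0`. -/
def rect (a b : ℕ) : Finset (Sym2 P3) :=
  pathE (-1, 0, 0) (List.replicate a (1, 0, 0)) ∪ pathE (-1, (b : ℤ), 0) (List.replicate a (1, 0, 0)) ∪
    pathE (-1, 0, 0) (List.replicate b (0, 1, 0)) ∪
    pathE ((a : ℤ) - 1, 0, 0) (List.replicate b (0, 1, 0))

/-- (L3) Rectangles belong to the class. -/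
def RectStatement : Prop := ∀ C : Finset (Sym2 P3) → Prop, ClosedZ C →
  ∀ a b : ℕ, 1 ≤ a → 1 ≤ b → C (rect a b)

/-- The building blocks of the strands: words with `m` letters, `K` of them `e1`, the last letter
`e1`, total displacement `(K, t)`. -/
structure Blocks (T : Finset (List P3)) (m K : ℕ) (t : ℤ × ℤ) : Prop where
  strand : ∀ w ∈ T, Strand w
  len : ∀ w ∈ T, w.length = m
  last : ∀ w ∈ T, w.getLast? = some e1
  sum : ∀ w ∈ T, w.sum = ((K : ℤ), t)

/-- (L4) Counting the polygons made of two strands. -/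
def StrandCountStatement : Prop := ∀ C : Finset (Sym2 P3) → Prop, ClosedZ C →
  ∀ (T : Finset (List P3)) (m K : ℕ) (t : ℤ × ℤ), Blocks T m K t → 1 ≤ m →
    ∀ N : ℕ, T.card ^ (4 * N) ≤ count C (4 * N * m + 2 + 2 * (2 * m + 1))

/-- (L5) There are many blocks. -/
def BlockStatement : Prop := ∀ η : ℝ, 0 < η → ∃ (T : Finset (List P3)) (m K : ℕ) (t : ℤ × ℤ),
  Blocks T m K t ∧ 1 ≤ m ∧ ((15 / 4 : ℝ) * (1 - η)) ^ m ≤ (T.card : ℝ)

end Pool.Agent.LK
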