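import Pool.Agent.MP_aea6d5_co.RRigid
import Pool.Agent.MP_aea6d5_co.RLower

/-! # Ratio limit theorem: assembly -/

set_option autoImplicit false

open Filter Topology

namespace Pool.Agent.LK

theorem BumpClass.move {C : Finset (Sym2 P3) → Prop} (hC : BumpClass C) : MoveClosed C where
  poly := hC.poly
  bump := fun E x y d h h1 h2 h3 h4 => hC.bump E x y d h ⟨h1, h2, h3, h4⟩
  flip := hC.flip

theorem HasGrowth.eventually_pos {C : Finset (Sym2 P3) → Prop} {g : ℝ} (h : HasGrowth C g)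
    (hg : 0 < g) : ∀ᶠ k : ℕ in atTop, 0 < count C (2 * k) := by
  have h1 : ∀ᶠ k : ℕ in atTop, 0 < (count C (2 * k) : ℝ) ^ (((2 * k : ℕ) : ℝ)⁻¹) :=
    h.eventually (lt_mem_nhds hg)
  filter_upwards [h1, eventually_gt_atTop 0] with k hk hk0
  by_contra h0
  have h0' : count C (2 * k) = 0 := by omega
  rw [h0', Nat.cast_zero, Real.zero_rpow] at hk
  · exact lt_irrefl _ hk
  · have : ((2 * k : ℕ) : ℝ) ≠ 0 := by
      have : 0 < 2 * k := by omega
      exact_mod_cast this.ne'
    exact inv_ne_zero this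

/-- The ratio limit theorem for a class. -/
theorem ratio_of (hF : FewStatement) (hK : KestenStatement) (hL : LimitLemma)
    {C : Finset (Sym2 P3) → Prop} (hC : BumpClass C) {g : ℝ} (hg : HasGrowth C g)
    (h15 : (15 / 4 : ℝ) ≤ g) :
    Tendsto (fun k : ℕ => (count C (2 * k + 2) : ℝ) / (count C (2 * k) : ℝ)) atTop
      (𝓝 (g ^ 2)) := by
  have hpos := hg.eventually_pos (by linarith)
  obtain ⟨ε, c, hε, hc0, hc1, hfew⟩ := hF C g hC hg h15
  obtain ⟨A, hA⟩ := hK C ε c hC hε hc0 hc1 hpos hfew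
  have h := hL (fun k => (count C (2 * k) : ℝ)) g A (by linarith)
    (by filter_upwards [hpos] with k hk; exact_mod_cast hk) ?_ ?_
  · refine h.congr fun k => ?_
    have e : 2 * (k + 1) = 2 * k + 2 := by ring
    simp only [e]
  · have hg' := hg
    unfold HasGrowth at hg'
    refine hg'.congr fun k => ?_
    simp only [Nat.cast_mul, Nat.cast_ofNat]
  · filter_upwards [hA] with k hk
    have e1 : 2 * (k + 1) = 2 * k + 2 := by ring
    have e2 : 2 * (k + 2) = 2 * k + 4 := by ring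
    simp only [e1, e2]
    exact hk

/-- The growth rate of a knotted type, if it exists, is at least that of the unknot. -/
theorem growth_ge (hB1 : B1Statement) (hNC : NCStatement) (hlim : LimitStatement)
    (G : Subgroup (R3 ≃ₜ R3)) (hG : ∀ φ : R3 ≃ₜ R3, φ ∈ G ∨ φ * swapR ∈ G)
    {K : Finset (Sym2 P3)} (hK : IsPolygon K) (hKn : ¬ Unknotted K) {g : ℝ}
    (hg : HasGrowth (GClass G K) g) : growth UClass ≤ g := by
  obtain ⟨ε, hε, c, ⟨l, hl⟩, h⟩ := attachG hB1 hNC G hG hK hKn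
  have hU : HasGrowth UClass (growth UClass) := hlim UClass unknotClosedZ
  -- the shifted sequence
  set v : ℕ → ℝ := fun k => (count (GClass G K) (2 * k) : ℝ) with hv
  have h1 : Tendsto (fun k : ℕ => (v (k + l)) ^ (((2 * (k + l) : ℕ) : ℝ)⁻¹)) atTop (𝓝 g) :=
    hg.comp (tendsto_add_atTop_nat l)
  have hr : Tendsto (fun k : ℕ => ((2 * (k + l) : ℕ) : ℝ) * ((2 * k : ℕ) : ℝ)⁻¹) atTop (𝓝 1) := by
    have h2 : Tendsto (fun k : ℕ => 1 + (l : ℝ) * ((k : ℝ))⁻¹) atTop (𝓝 (1 + (l : ℝ) * 0)) :=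
      tendsto_const_nhds.add (tendsto_const_nhds.mul tendsto_inv_atTop_nhds_zero_nat)
    rw [mul_zero, add_zero] at h2
    refine h2.congr' ?_
    filter_upwards [eventually_gt_atTop 0] with k hk
    have : (k : ℝ) ≠ 0 := by exact_mod_cast hk.ne'
    push_cast
    field_simp
  have hg0 : 0 ≤ g := ge_of_tendsto' hg fun k => Real.rpow_nonneg (Nat.cast_nonneg _) _
  have h3 : Tendsto (fun k : ℕ => ((v (k + l)) ^ (((2 * (k + l) : ℕ) : ℝ)⁻¹)) ^
      (((2 * (k + l) : ℕ) : ℝ) * ((2 * k : ℕ) : ℝ)⁻¹)) atTop (𝓝 (g ^ (1 : ℝ))) := by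
    apply h1.rpow hr
    right
    exact one_pos
  rw [Real.rpow_one] at h3
  refine le_of_tendsto_of_tendsto hU h3 ?_
  have hbig : ∀ᶠ k : ℕ in atTop, 1 ≤ ε * ((2 * k : ℕ) : ℝ) ^ (2 / 3 : ℝ) := by
    have h4 : Tendsto (fun k : ℕ => ε * ((2 * k : ℕ) : ℝ) ^ (2 / 3 : ℝ)) atTop atTop := by
      apply Tendsto.const_mul_atTop hε
      refine (tendsto_rpow_atTop (by norm_num)).comp ?_
      refine tendsto_natCast_atTop_atTop.comp ?_
      exact tendsto_atTop_mono (fun k => by simp only [id]; omega) tendsto_id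
    exact h4.eventually_ge_atTop 1
  filter_upwards [hbig, eventually_gt_atTop 0] with k hk hk0
  have h5 := h (2 * k)
  have e1 : 2 * k + c = 2 * (k + l) := by rw [hl]; ring
  rw [e1] at h5
  have h6 : (count UClass (2 * k) : ℝ) ≤ v (k + l) := by
    refine le_trans ?_ h5
    have := Nat.cast_nonneg (α := ℝ) (count UClass (2 * k))
    nlinarith
  have hvn : 0 ≤ v (k + l) := Nat.cast_nonneg _
  have e2 : ((v (k + l)) ^ (((2 * (k + l) : ℕ) : ℝ)⁻¹)) ^
      (((2 * (k + l) : ℕ) : ℝ) * ((2 * k : ℕ) : ℝ)⁻¹) = v (k + l) ^ (((2 * k : ℕ) : ℝ)⁻¹) := by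
    rw [← Real.rpow_mul hvn]
    congr 1
    have : (((2 * (k + l) : ℕ)) : ℝ) ≠ 0 := by
      have : 0 < 2 * (k + l) := by omega
      exact_mod_cast this.ne'
    field_simp
  rw [e2]
  exact Real.rpow_le_rpow (Nat.cast_nonneg _) h6 (by positivity)

/-- Proportional counts: the growth is the same. -/
theorem HasGrowth.of_two_mul {C C' : Finset (Sym2 P3) → Prop} {g : ℝ} (hg : HasGrowth C g)
    (h : ∀ n, count C' n = 2 * count C n) : HasGrowth C' g := by
  unfold HasGrowth at *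
  have h1 : Tendsto (fun k : ℕ => (2 : ℝ) ^ (((2 * k : ℕ) : ℝ)⁻¹)) atTop (𝓝 ((2 : ℝ) ^ (0 : ℝ))) := by
    refine Tendsto.rpow tendsto_const_nhds ?_ (Or.inl two_ne_zero)
    have : Tendsto (fun k : ℕ => ((2 * k : ℕ) : ℝ)) atTop atTop :=
      tendsto_natCast_atTop_atTop.comp
        (tendsto_atTop_mono (fun k => by simp only [id]; omega) tendsto_id)
    exact tendsto_inv_atTop_zero.comp this
  rw [Real.rpow_zero] at h1
  have h2 := h1.mul hg
  rw [one_mul] at h2
  refine h2.congr fun k => ?_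
  have e : (count C' (2 * k) : ℝ) = 2 * (count C (2 * k) : ℝ) := by rw [h]; push_cast; ring
  rw [e, Real.mul_rpow two_pos.le (Nat.cast_nonneg _)]

/-- **The ratio limit theorem.** -/
theorem ratioLimit_of (hF : FewStatement) (hKe : KestenStatement) (hL : LimitLemma)
    (hlow : LowerStatement) (hlim : LimitStatement) (hprop : PropStatement)
    (hbu : BumpClass UClass) (hbk : ∀ K, BumpClass (KClass K))
    (hB1 : B1Statement) (hNC : NCStatement) :
    Tendsto (fun k : ℕ => (count UClass (2 * k + 2) : ℝ) / (count UClass (2 * k) : ℝ)) atTop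
      (𝓝 (growth UClass ^ 2)) ∧
    ∀ G : Subgroup (R3 ≃ₜ R3), (∀ φ : R3 ≃ₜ R3, φ ∈ G ∨ φ * swapR ∈ G) →
      ∀ K : Finset (Sym2 P3), IsPolygon K → ∀ μ : ℝ,
        Tendsto (fun k : ℕ => (count (GClass G K) (2 * k) : ℝ) ^ (((2 * k : ℕ) : ℝ)⁻¹)) atTop
          (𝓝 μ) →
        Tendsto (fun k : ℕ => (count (GClass G K) (2 * k + 2) : ℝ) /
          (count (GClass G K) (2 * k) : ℝ)) atTop (𝓝 (μ ^ 2)) := by
  have h15 : (15 / 4 : ℝ) ≤ growth UClass := hlow UClass unknotClosedZ
  refine ⟨ratio_of hF hKe hL hbu (hlim UClass unknotClosedZ) h15, ?_⟩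
  intro G hG K hK μ hμ
  have hμ' : HasGrowth (GClass G K) μ := hμ
  -- growth of the full class
  have hKg : HasGrowth (KClass K) μ := by
    rcases hprop G hG K with h | h
    · unfold HasGrowth at *
      refine hμ'.congr fun k => ?_
      rw [h]
    · exact hμ'.of_two_mul h
  have hge : (15 / 4 : ℝ) ≤ μ := by
    by_cases hKn : Unknotted K
    · have hcl : ∀ n, count (KClass K) n = count UClass n := by
        intro n
        unfold count
        congr 1
        ext E
        simp only [Set.mem_ofPred_eq]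
        constructor
        · rintro ⟨⟨h1, h2⟩, h3⟩
          exact ⟨⟨h1, h2.symm.unknotted hKn⟩, h3⟩
        · rintro ⟨⟨h1, h2⟩, h3⟩
          refine ⟨⟨h1, ?_⟩, h3⟩
          obtain ⟨φ, hφ⟩ := hKn
          obtain ⟨ψ, hψ⟩ := h2
          refine ⟨φ.trans ψ.symm, ?_⟩
          change (ψ.symm ∘ φ) '' body K = body E
          rw [Set.image_comp, hφ, ← hψ]
          exact ψ.symm_image_image _
      have h1 : HasGrowth UClass μ := by
        unfold HasGrowth at *
        refine hKg.congr fun k => ?_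
        rw [hcl]
      have h2 := tendsto_nhds_unique h1 (hlim UClass unknotClosedZ)
      rw [h2]
      exact h15
    · exact h15.trans (growth_ge hB1 hNC hlim G hG hK hKn hμ')
  have h1 := ratio_of hF hKe hL (hbk K) hKg hge
  rcases hprop G hG K with h | h
  · refine h1.congr fun k => ?_
    rw [h, h]
  · refine h1.congr fun k => ?_
    rw [h, h]
    push_cast
    rw [mul_div_mul_left _ _ two_ne_zero]

end Pool.Agent.LK
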