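import Pool.Agent.MP_aea6d5_co.RDefs

/-! # Kesten's inequality for the ratios -/

set_option autoImplicit false

open Filter Topology

namespace Pool.Agent.LK

theorem BumpClass.kMove {C : Finset (Sym2 P3) → Prop} (hC : BumpClass C) : MoveClosed C :=
  ⟨hC.poly, fun E x y d h1 h2 h3 h4 h5 => hC.bump E x y d h1 ⟨h2, h3, h4, h5⟩, hC.flip⟩

theorem kMem_spots (h0 : LocalFacts) {E : Finset (Sym2 P3)} {q : P3 × P3 × P3} :
    q ∈ spots E ↔ Spot E q := by
  unfold spots
  rw [dif_pos (h0.spots_finite E)]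
  simp

theorem kCard_spots (h0 : LocalFacts) (E : Finset (Sym2 P3)) : (spots E).card = nSpot E := by
  unfold spots
  rw [dif_pos (h0.spots_finite E), nSpot, Set.ncard_eq_toFinset_card _ (h0.spots_finite E)]

theorem kPos_nU_bump (h0 : LocalFacts) {E : Finset (Sym2 P3)} {q : P3 × P3 × P3}
    (hE : IsPolygon E) (hq : Spot E q) : 1 ≤ nU (bump E q.1 q.2.1 q.2.2) := by
  have h : 0 < nU (bump E q.1 q.2.1 q.2.2) := by
    rw [nU, Set.ncard_pos (h0.ushape_finite _)]
    exact ⟨(q.1, q.2.1, q.2.2), h0.ushape_bump E q.1 q.2.1 q.2.2 hE hq⟩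
  exact h

/-! ### Two elementary inequalities -/

theorem kReal_upper {a b D ε n : ℝ} (hε : 0 < ε) (hn : 0 < n) (hD : 0 ≤ D) (hb : 0 ≤ b)
    (hbn : b ≤ 12 * n) (han : ε * n < a) (hDn : 2 * D ≤ ε * n) :
    b / (a - D) ≤ b / a + 24 * D / ε ^ 2 / n := by
  have hεn : 0 < ε * n := mul_pos hε hn
  have ha : 0 < a := hεn.trans han
  have haD : 0 < a - D := by nlinarith
  have haD2 : a / 2 ≤ a - D := by nlinarith
  have h1 : b / (a - D) = b / a + b * D / (a * (a - D)) := by
    field_simp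
    ring
  rw [h1]
  have h2 : b * D / (a * (a - D)) ≤ 24 * D / ε ^ 2 / n := by
    rw [div_div, div_le_div_iff₀ (mul_pos ha haD) (by positivity)]
    have h3 : (ε * n) * (ε * n) ≤ a * (2 * (a - D)) := by
      apply mul_le_mul han.le (by linarith) hεn.le ha.le
    have h4 : b * D ≤ 12 * n * D := mul_le_mul_of_nonneg_right hbn hD
    calc b * D * (ε ^ 2 * n) ≤ 12 * n * D * (ε ^ 2 * n) := by
          apply mul_le_mul_of_nonneg_right h4 (by positivity)
      _ = 12 * D * ((ε * n) * (ε * n)) := by ring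
      _ ≤ 12 * D * (a * (2 * (a - D))) := by
          apply mul_le_mul_of_nonneg_left h3 (by positivity)
      _ = 24 * D * (a * (a - D)) := by ring
  linarith

theorem kReal_lower {a b D ε n : ℝ} (hε : 0 < ε) (hn : 1 ≤ n) (hD : 0 ≤ D) (hb : 0 ≤ b)
    (hbn : b ≤ 12 * n) (han : ε * n < a) :
    (b / a) ^ 2 - (144 / ε ^ 2 * (3 * D / ε + 2 * D ^ 2 / ε ^ 2) + 12 / ε * (D / ε)) / n ≤
      b * ((b - D) / (a + 2 * D) / (a + D)) := by
  have hn0 : 0 < n := by linarith
  have hεn : 0 < ε * n := mul_pos hε hn0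
  have ha : 0 < a := hεn.trans han
  set R := b / a with hR
  set s := D / a with hs
  have hR0 : 0 ≤ R := div_nonneg hb ha.le
  have hs0 : 0 ≤ s := div_nonneg hD ha.le
  have hbR : b = R * a := by rw [hR]; field_simp
  have hDs : D = s * a := by rw [hs]; field_simp
  have hRle : R ≤ 12 / ε := by
    rw [hR, div_le_div_iff₀ ha hε]
    nlinarith
  have hsle : s ≤ D / ε / n := by
    rw [hs, div_div]
    exact div_le_div_of_nonneg_left hD hεn han.le
  have hs2 : s ^ 2 ≤ D ^ 2 / ε ^ 2 / n := by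
    calc s ^ 2 ≤ (D / ε / n) ^ 2 := by gcongr
      _ = D ^ 2 / ε ^ 2 / n * (1 / n) := by ring
      _ ≤ D ^ 2 / ε ^ 2 / n * 1 := by
          apply mul_le_mul_of_nonneg_left _ (by positivity)
          rw [div_le_one hn0]; exact hn
      _ = _ := by ring
  have h1 : b * ((b - D) / (a + 2 * D) / (a + D)) =
      R * (R - s) / ((1 + 2 * s) * (1 + s)) := by
    have e1 : a + 2 * D = a * (1 + 2 * s) := by rw [hDs]; ring
    have e2 : a + D = a * (1 + s) := by rw [hDs]; ring
    have e3 : b - D = a * (R - s) := by rw [hbR, hDs]; ring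
    rw [e1, e2, e3, hbR]
    have h3 : 0 < 1 + 2 * s := by linarith
    have h4 : 0 < 1 + s := by linarith
    field_simp
  rw [h1]
  have hu : 0 ≤ 3 * s + 2 * s ^ 2 := by positivity
  have h2 : R ^ 2 - R * s - (3 * s + 2 * s ^ 2) * R ^ 2 ≤
      R * (R - s) / ((1 + 2 * s) * (1 + s)) := by
    rw [le_div_iff₀ (by positivity)]
    have h3 : 0 ≤ (3 * s + 2 * s ^ 2) * (R * s) := by positivity
    have h4 : 0 ≤ (3 * s + 2 * s ^ 2) ^ 2 * R ^ 2 := by positivity
    nlinarith
  refine le_trans ?_ h2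
  have h5 : R * s ≤ 12 / ε * (D / ε) / n := by
    calc R * s ≤ 12 / ε * (D / ε / n) := by
          apply mul_le_mul hRle hsle hs0 (by positivity)
      _ = _ := by ring
  have h6 : (3 * s + 2 * s ^ 2) * R ^ 2 ≤
      144 / ε ^ 2 * (3 * D / ε + 2 * D ^ 2 / ε ^ 2) / n := by
    have h7 : 3 * s + 2 * s ^ 2 ≤ (3 * D / ε + 2 * D ^ 2 / ε ^ 2) / n := by
      calc 3 * s + 2 * s ^ 2 ≤ 3 * (D / ε / n) + 2 * (D ^ 2 / ε ^ 2 / n) := by linarith
        _ = _ := by ring
    have h8 : R ^ 2 ≤ 144 / ε ^ 2 := by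
      calc R ^ 2 ≤ (12 / ε) ^ 2 := by gcongr
        _ = _ := by ring
    calc (3 * s + 2 * s ^ 2) * R ^ 2 ≤ ((3 * D / ε + 2 * D ^ 2 / ε ^ 2) / n) * (144 / ε ^ 2) := by
          apply mul_le_mul h7 h8 (by positivity) (by positivity)
      _ = _ := by ring
  have h9 : (144 / ε ^ 2 * (3 * D / ε + 2 * D ^ 2 / ε ^ 2) + 12 / ε * (D / ε)) / n =
      144 / ε ^ 2 * (3 * D / ε + 2 * D ^ 2 / ε ^ 2) / n + 12 / ε * (D / ε) / n := by ring
  rw [h9]
  linarith

/-! ### The sums -/

section sums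

variable {C : Finset (Sym2 P3) → Prop}

open Classical in
/-- The ratio spots / U-shapes for the good polygons. -/
noncomputable def kx (ε : ℝ) (n : ℕ) (E : Finset (Sym2 P3)) : ℝ :=
  if (nU E : ℝ) ≤ ε * n then 0 else (nSpot E : ℝ) / (nU E : ℝ)

open Classical in
theorem kFew_eq (ε : ℝ) (n : ℕ) :
    (few C ε n : ℝ) = ∑ E ∈ U C n, (if (nU E : ℝ) ≤ ε * n then (1 : ℝ) else 0) := by
  unfold few
  rw [Finset.card_filter]
  push_cast
  rfl

theorem kExch (h0 : LocalFacts) (h2 : ExchangeStatement) (hC : BumpClass C) (n : ℕ) :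
    ∑ E ∈ U C (n + 2), (nU E : ℝ) * (1 / (nU E : ℝ)) =
      ∑ E ∈ U C n, ∑ q ∈ spots E, 1 / (nU (bump E q.1 q.2.1 q.2.2) : ℝ) :=
  h2 C hC (fun E => 1 / (nU E : ℝ)) (fun t E => by simp only [h0.nU_shift]) n

theorem kUpper (h0 : LocalFacts) (h2 : ExchangeStatement) (hC : BumpClass C) {D : ℕ}
    (hD : ∀ E x y d, IsPolygon E → Spot E (x, y, d) →
      nU (bump E x y d) ≤ nU E + D ∧ nU E ≤ nU (bump E x y d) + D ∧
      nSpot (bump E x y d) ≤ nSpot E + D ∧ nSpot E ≤ nSpot (bump E x y d) + D)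
    {ε : ℝ} (hε : 0 < ε) {n : ℕ} (hn : 1 ≤ n) (hDn : 2 * (D : ℝ) ≤ ε * n) :
    (count C (n + 2) : ℝ) ≤ few C ε (n + 2) + 12 * n * few C ε n + ∑ E ∈ U C n, kx ε n E +
      24 * D / ε ^ 2 / n * count C n := by
  classical
  have hn0 : (0 : ℝ) < n := by exact_mod_cast hn
  have step1 : (count C (n + 2) : ℝ) ≤ few C ε (n + 2) +
      ∑ E ∈ U C (n + 2), (nU E : ℝ) * (1 / (nU E : ℝ)) := by
    rw [kFew_eq, ← Finset.sum_add_distrib, ← card_U' hC.poly (n + 2), Finset.card_eq_sum_ones]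
    push_cast
    refine Finset.sum_le_sum fun E _ => ?_
    by_cases h : (nU E : ℝ) = 0
    · rw [if_pos (by rw [h]; positivity), h]
      simp
    · rw [mul_one_div_cancel h]
      split_ifs <;> norm_num
  rw [kExch h0 h2 hC n] at step1
  have step2 : ∑ E ∈ U C n, ∑ q ∈ spots E, 1 / (nU (bump E q.1 q.2.1 q.2.2) : ℝ) ≤
      12 * n * few C ε n + ∑ E ∈ U C n, kx ε n E + 24 * D / ε ^ 2 / n * count C n := by
    rw [kFew_eq, ← card_U' hC.poly n, Finset.card_eq_sum_ones]
    push_cast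
    rw [Finset.mul_sum, Finset.mul_sum, ← Finset.sum_add_distrib, ← Finset.sum_add_distrib]
    refine Finset.sum_le_sum fun E hE => ?_
    rw [mem_U' hC.poly] at hE
    have hP := hC.poly E hE.1
    have hb : (nSpot E : ℝ) ≤ 12 * n := by
      have := h0.nSpot_le E hP
      rw [hE.2.1] at this
      exact_mod_cast this
    have hb0 : (0 : ℝ) ≤ nSpot E := Nat.cast_nonneg _
    have hpos : ∀ q ∈ spots E, (1 : ℝ) ≤ (nU (bump E q.1 q.2.1 q.2.2) : ℝ) := by
      intro q hq
      rw [kMem_spots h0] at hq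
      exact_mod_cast kPos_nU_bump h0 hP hq
    unfold kx
    by_cases h : (nU E : ℝ) ≤ ε * n
    · rw [if_pos h, if_pos h]
      have h3 : ∑ q ∈ spots E, 1 / (nU (bump E q.1 q.2.1 q.2.2) : ℝ) ≤ (nSpot E : ℝ) := by
        rw [← kCard_spots h0, Finset.card_eq_sum_ones]
        push_cast
        refine Finset.sum_le_sum fun q hq => ?_
        have := hpos q hq
        rw [div_le_one (by linarith)]
        exact this
      have h4 : (0 : ℝ) ≤ 24 * D / ε ^ 2 / n := by positivity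
      linarith
    · rw [if_neg h, if_neg h]
      push Not at h
      have haD : (0 : ℝ) < nU E - D := by
        have : (0 : ℝ) ≤ D := Nat.cast_nonneg _
        nlinarith
      have h3 : ∑ q ∈ spots E, 1 / (nU (bump E q.1 q.2.1 q.2.2) : ℝ) ≤
          (nSpot E : ℝ) / ((nU E : ℝ) - D) := by
        calc ∑ q ∈ spots E, 1 / (nU (bump E q.1 q.2.1 q.2.2) : ℝ)
            ≤ ∑ q ∈ spots E, 1 / ((nU E : ℝ) - D) := by
              refine Finset.sum_le_sum fun q hq => ?_
              apply one_div_le_one_div_of_le haD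
              rw [kMem_spots h0] at hq
              have := (hD E q.1 q.2.1 q.2.2 hP hq).2.1
              have h5 : (nU E : ℝ) ≤ nU (bump E q.1 q.2.1 q.2.2) + D := by exact_mod_cast this
              linarith
          _ = _ := by
              rw [Finset.sum_const, kCard_spots h0, nsmul_eq_mul]
              ring
      have h4 := kReal_upper hε hn0 (Nat.cast_nonneg D) hb0 hb h hDn
      linarith
  linarith

theorem kLower (h0 : LocalFacts) (h2 : ExchangeStatement) (hC : BumpClass C) {D : ℕ}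
    (hD : ∀ E x y d, IsPolygon E → Spot E (x, y, d) →
      nU (bump E x y d) ≤ nU E + D ∧ nU E ≤ nU (bump E x y d) + D ∧
      nSpot (bump E x y d) ≤ nSpot E + D ∧ nSpot E ≤ nSpot (bump E x y d) + D)
    {ε : ℝ} (hε : 0 < ε) {n : ℕ} (hn : 1 ≤ n) :
    ∑ E ∈ U C n, kx ε n E ^ 2 -
      (144 / ε ^ 2 * (3 * D / ε + 2 * D ^ 2 / ε ^ 2) + 12 / ε * (D / ε)) / n * count C n ≤
      (count C (n + 4) : ℝ) := by
  classical
  have hn1 : (1 : ℝ) ≤ n := by exact_mod_cast hn
  set A2 : ℝ := 144 / ε ^ 2 * (3 * D / ε + 2 * D ^ 2 / ε ^ 2) + 12 / ε * (D / ε) with hA2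
  have hA20 : 0 ≤ A2 := by positivity
  -- the function
  set f : Finset (Sym2 P3) → ℝ := fun E => (nSpot E : ℝ) / (nU E + D) / nU E with hf
  have step1 : ∑ E ∈ U C (n + 4), (nU E : ℝ) * (1 / (nU E : ℝ)) ≤ (count C (n + 4) : ℝ) := by
    rw [← card_U' hC.poly (n + 4), Finset.card_eq_sum_ones]
    push_cast
    refine Finset.sum_le_sum fun E _ => ?_
    by_cases h : (nU E : ℝ) = 0
    · rw [h]; simp
    · rw [mul_one_div_cancel h]
  have e := kExch h0 h2 hC (n + 2)
  have step2 : ∑ E ∈ U C (n + 2), (nU E : ℝ) * f E ≤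
      ∑ E ∈ U C (n + 2), ∑ q ∈ spots E, 1 / (nU (bump E q.1 q.2.1 q.2.2) : ℝ) := by
    refine Finset.sum_le_sum fun E hE => ?_
    rw [mem_U' hC.poly] at hE
    have hP := hC.poly E hE.1
    have h3 : (nU E : ℝ) * f E ≤ (nSpot E : ℝ) / (nU E + D) := by
      by_cases h : (nU E : ℝ) = 0
      · rw [h, zero_mul]; positivity
      · rw [hf]
        simp only
        rw [mul_div_cancel₀ _ h]
    refine h3.trans ?_
    calc (nSpot E : ℝ) / (nU E + D) = ∑ q ∈ spots E, 1 / ((nU E : ℝ) + D) := by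
          rw [Finset.sum_const, kCard_spots h0, nsmul_eq_mul]
          ring
      _ ≤ _ := by
          refine Finset.sum_le_sum fun q hq => ?_
          rw [kMem_spots h0] at hq
          have h5 : (1 : ℝ) ≤ nU (bump E q.1 q.2.1 q.2.2) := by
            exact_mod_cast kPos_nU_bump h0 hP hq
          apply one_div_le_one_div_of_le (by linarith)
          have := (hD E q.1 q.2.1 q.2.2 hP hq).1
          exact_mod_cast this
  have e2 : ∑ E ∈ U C (n + 2), (nU E : ℝ) * f E =
      ∑ E ∈ U C n, ∑ q ∈ spots E, f (bump E q.1 q.2.1 q.2.2) :=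
    h2 C hC f (fun t E => by simp only [hf, h0.nU_shift, h0.nSpot_shift]) n
  have step3 : ∑ E ∈ U C n, kx ε n E ^ 2 - A2 / n * count C n ≤
      ∑ E ∈ U C n, ∑ q ∈ spots E, f (bump E q.1 q.2.1 q.2.2) := by
    rw [← card_U' hC.poly n, Finset.card_eq_sum_ones]
    push_cast
    rw [Finset.mul_sum, ← Finset.sum_sub_distrib]
    refine Finset.sum_le_sum fun E hE => ?_
    rw [mem_U' hC.poly] at hE
    have hP := hC.poly E hE.1
    have hb : (nSpot E : ℝ) ≤ 12 * n := by
      have := h0.nSpot_le E hP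
      rw [hE.2.1] at this
      exact_mod_cast this
    have hb0 : (0 : ℝ) ≤ nSpot E := Nat.cast_nonneg _
    have hf0 : ∀ F, 0 ≤ f F := fun F => by rw [hf]; positivity
    unfold kx
    by_cases h : (nU E : ℝ) ≤ ε * n
    · rw [if_pos h]
      have h4 : 0 ≤ A2 / n := by positivity
      have h5 : 0 ≤ ∑ q ∈ spots E, f (bump E q.1 q.2.1 q.2.2) :=
        Finset.sum_nonneg fun q _ => hf0 _
      nlinarith
    · rw [if_neg h]
      push Not at h
      have h4 := kReal_lower hε hn1 (Nat.cast_nonneg D) hb0 hb h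
      rw [mul_one]
      refine h4.trans ?_
      have ha0 : (0 : ℝ) ≤ nU E := Nat.cast_nonneg _
      have hD0 : (0 : ℝ) ≤ D := Nat.cast_nonneg _
      have ha : (0 : ℝ) < nU E := by nlinarith
      calc (nSpot E : ℝ) * (((nSpot E : ℝ) - D) / (nU E + 2 * D) / (nU E + D))
          = ∑ q ∈ spots E, ((nSpot E : ℝ) - D) / (nU E + 2 * D) / (nU E + D) := by
            rw [Finset.sum_const, kCard_spots h0, nsmul_eq_mul]
        _ ≤ _ := by
            refine Finset.sum_le_sum fun q hq => ?_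
            rw [kMem_spots h0] at hq
            obtain ⟨k1, k2, k3, k4⟩ := hD E q.1 q.2.1 q.2.2 hP hq
            have h5 : (1 : ℝ) ≤ nU (bump E q.1 q.2.1 q.2.2) := by
              exact_mod_cast kPos_nU_bump h0 hP hq
            set a' : ℝ := (nU (bump E q.1 q.2.1 q.2.2) : ℝ) with ha'
            set b' : ℝ := (nSpot (bump E q.1 q.2.1 q.2.2) : ℝ) with hb'
            have m1 : a' ≤ nU E + D := by rw [ha']; exact_mod_cast k1
            have m4 : (nSpot E : ℝ) - D ≤ b' := by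
              have : (nSpot E : ℝ) ≤ b' + D := by rw [hb']; exact_mod_cast k4
              linarith
            have hb'0 : 0 ≤ b' := Nat.cast_nonneg _
            change _ ≤ b' / (a' + D) / a'
            by_cases hbD : (nSpot E : ℝ) - D ≤ 0
            · refine le_trans ?_ (by positivity : (0 : ℝ) ≤ b' / (a' + D) / a')
              apply div_nonpos_of_nonpos_of_nonneg _ (by positivity)
              exact div_nonpos_of_nonpos_of_nonneg hbD (by positivity)
            · push Not at hbD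
              apply div_le_div₀ (by positivity) _ (by linarith) m1
              apply div_le_div₀ hb'0 m4 (by linarith) (by linarith)
  linarith

end sums

theorem kestenStatement (h0 : LocalFacts) (h1 : DiffStatement) (h2 : ExchangeStatement) :
    KestenStatement := by
  classical
  intro C ε c hC hε hc0 hc1 hpos hfew
  obtain ⟨D, hD⟩ := h1
  set A1 : ℝ := 24 * D / ε ^ 2 with hA1
  set A2 : ℝ := 144 / ε ^ 2 * (3 * D / ε + 2 * D ^ 2 / ε ^ 2) + 12 / ε * (D / ε) with hA2
  have hA10 : 0 ≤ A1 := by positivity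
  have hA20 : 0 ≤ A2 := by positivity
  set M : ℝ := 2 * (12 / ε + 24 + A1) with hM
  have hM0 : 0 ≤ M := by positivity
  set B : ℝ := M + 24 + A1 with hB
  have hB0 : 0 ≤ B := by positivity
  refine ⟨2 * B + A2, ?_⟩
  have hlim : ∀ᶠ k : ℕ in atTop, (k : ℝ) ^ 2 * c ^ k ≤ 1 := by
    have := tendsto_pow_const_mul_const_pow_of_lt_one 2 hc0.le hc1
    filter_upwards [this.eventually (gt_mem_nhds (zero_lt_one))] with k hk
    exact hk.le
  have hlarge : ∀ᶠ k : ℕ in atTop, 2 * (D : ℝ) / ε ≤ k := (tendsto_natCast_atTop_atTop (R := ℝ)).eventually_ge_atTop _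
  have hfew' : ∀ᶠ k : ℕ in atTop,
      (few C ε (2 * (k + 1)) : ℝ) ≤ c ^ (k + 1) * (count C (2 * (k + 1)) : ℝ) :=
    (tendsto_add_atTop_nat 1).eventually hfew
  filter_upwards [hpos, hfew, hfew', hlim, hlarge, eventually_ge_atTop 2] with k h3 h4 h5 h6 h7 h8
  have hk : (2 : ℝ) ≤ k := by exact_mod_cast h8
  have hk0 : (0 : ℝ) < k := by linarith
  have hDn : 2 * (D : ℝ) ≤ ε * ((2 * k : ℕ) : ℝ) := by
    rw [div_le_iff₀ hε] at h7
    push_cast
    nlinarith
  have up := kUpper h0 h2 hC hD hε (n := 2 * k) (by omega) hDn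
  have lo := kLower h0 h2 hC hD hε (n := 2 * k) (by omega)
  have hmono : (count C (2 * k) : ℝ) ≤ (count C (2 * k + 2) : ℝ) := by
    exact_mod_cast count_mono hC.kMove (2 * k)
  set P : ℝ := (count C (2 * k) : ℝ) with hP
  set Q : ℝ := (count C (2 * k + 2) : ℝ) with hQ
  set T : ℝ := (count C (2 * k + 4) : ℝ) with hT
  set S1 : ℝ := ∑ E ∈ U C (2 * k), kx ε (2 * k) E with hS1
  set S2 : ℝ := ∑ E ∈ U C (2 * k), kx ε (2 * k) E ^ 2 with hS2
  have hP0 : 0 < P := by rw [hP]; exact_mod_cast h3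
  have hQ0 : 0 < Q := hP0.trans_le hmono
  have hck0 : 0 ≤ c ^ k := by positivity
  have hck : c ^ k ≤ 1 / k ^ 2 := by
    rw [le_div_iff₀ (by positivity)]
    linarith
  have hx0 : ∀ E, 0 ≤ kx ε (2 * k) E := by
    intro E
    unfold kx
    split_ifs
    · exact le_rfl
    · positivity
  have hS10 : 0 ≤ S1 := Finset.sum_nonneg fun E _ => hx0 E
  have hcs : S1 ^ 2 ≤ P * S2 := by
    rw [hS1, hS2, hP, ← card_U' hC.poly]
    exact sq_sum_le_card_mul_sum_sq
  have hS1P : S1 ≤ 12 / ε * P := by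
    rw [hS1, hP, ← card_U' hC.poly, Finset.card_eq_sum_ones]
    push_cast
    rw [Finset.mul_sum]
    refine Finset.sum_le_sum fun E hE => ?_
    rw [mem_U' hC.poly] at hE
    have hPo := hC.poly E hE.1
    have hb : (nSpot E : ℝ) ≤ 12 * ((2 * k : ℕ) : ℝ) := by
      have := h0.nSpot_le E hPo
      rw [hE.2.1] at this
      exact_mod_cast this
    unfold kx
    split_ifs with h
    · positivity
    · push Not at h
      have hnp : (0 : ℝ) < ((2 * k : ℕ) : ℝ) := by push_cast; linarith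
      have ha : (0 : ℝ) < nU E := (mul_pos hε hnp).trans h
      rw [mul_one, div_le_div_iff₀ ha hε]
      nlinarith
  -- the few polygons
  have h4' : 12 * ((2 * k : ℕ) : ℝ) * (few C ε (2 * k) : ℝ) ≤ 24 / k * P := by
    calc 12 * ((2 * k : ℕ) : ℝ) * (few C ε (2 * k) : ℝ)
        ≤ 12 * ((2 * k : ℕ) : ℝ) * (c ^ k * P) := by
          apply mul_le_mul_of_nonneg_left h4 (by positivity)
      _ ≤ 12 * ((2 * k : ℕ) : ℝ) * (1 / k ^ 2 * P) := by
          apply mul_le_mul_of_nonneg_left _ (by positivity)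
          exact mul_le_mul_of_nonneg_right hck hP0.le
      _ = 24 / k * P := by
          push_cast
          field_simp
          ring
  have h5' : (few C ε (2 * k + 2) : ℝ) ≤ 1 / k * Q := by
    have e1 : 2 * (k + 1) = 2 * k + 2 := by ring
    rw [e1] at h5
    refine h5.trans ?_
    apply mul_le_mul_of_nonneg_right _ hQ0.le
    calc c ^ (k + 1) = c ^ k * c := pow_succ _ _
      _ ≤ c ^ k * 1 := mul_le_mul_of_nonneg_left hc1.le hck0
      _ ≤ 1 / k ^ 2 := by rw [mul_one]; exact hck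
      _ ≤ 1 / k := by
          apply one_div_le_one_div_of_le hk0
          nlinarith
  have hAk : A1 / ((2 * k : ℕ) : ℝ) ≤ A1 / k := by
    apply div_le_div_of_nonneg_left hA10 hk0
    push_cast; linarith
  have hA2k : A2 / ((2 * k : ℕ) : ℝ) ≤ A2 / k := by
    apply div_le_div_of_nonneg_left hA20 hk0
    push_cast; linarith
  have up' : Q ≤ 1 / k * Q + 24 / k * P + S1 + A1 / k * P := by
    have := mul_le_mul_of_nonneg_right hAk hP0.le
    linarith
  have lo' : S2 - A2 / k * P ≤ T := by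
    have := mul_le_mul_of_nonneg_right hA2k hP0.le
    linarith
  -- the ratios
  set r : ℝ := Q / P with hr
  set w : ℝ := S1 / P with hw
  have hQr : Q = r * P := by rw [hr]; field_simp
  have hSw : S1 = w * P := by rw [hw]; field_simp
  have hr1 : 1 ≤ r := by rw [hr, le_div_iff₀ hP0]; linarith
  have hw0 : 0 ≤ w := div_nonneg hS10 hP0.le
  have hwle : w ≤ 12 / ε := by rw [hw, div_le_iff₀ hP0]; exact hS1P
  have upr : r ≤ 1 / k * r + 24 / k + w + A1 / k := by
    rw [hQr, hSw] at up'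
    have : r * P ≤ (1 / k * r + 24 / k + w + A1 / k) * P := by linarith
    exact le_of_mul_le_mul_right this hP0
  have hkinv : 1 / (k : ℝ) ≤ 1 / 2 := one_div_le_one_div_of_le (by norm_num) hk
  have hkinv0 : 0 ≤ 1 / (k : ℝ) := by positivity
  have hrM : r ≤ M := by
    have e1 : 24 / (k : ℝ) = 24 * (1 / k) := by ring
    have e2 : A1 / (k : ℝ) = A1 * (1 / k) := by ring
    rw [e1, e2] at upr
    have e3 : 1 / (k : ℝ) * r ≤ 1 / 2 * r := mul_le_mul_of_nonneg_right hkinv (by linarith)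
    have e4 : A1 * (1 / (k : ℝ)) ≤ A1 * (1 / 2) := mul_le_mul_of_nonneg_left hkinv hA10
    rw [hM]
    linarith
  have hrw : r ≤ w + B / k := by
    have e3 : 1 / (k : ℝ) * r ≤ 1 / (k : ℝ) * M := mul_le_mul_of_nonneg_left hrM hkinv0
    have e4 : B / k = 1 / (k : ℝ) * M + 24 / k + A1 / k := by rw [hB]; ring
    rw [e4]
    linarith
  have hδ : 0 ≤ B / (k : ℝ) := by positivity
  have hw2 : r ^ 2 - 2 * r * (B / k) ≤ w ^ 2 := by
    by_cases hwr : r ≤ w
    · nlinarith [mul_nonneg (by linarith : (0 : ℝ) ≤ r) hδ]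
    · push Not at hwr
      nlinarith [mul_nonneg hδ (by linarith : (0 : ℝ) ≤ r - w),
        mul_nonneg (by linarith : (0 : ℝ) ≤ w - r + B / k) (by linarith : (0 : ℝ) ≤ w + r)]
  have hwS : w ^ 2 * P ≤ S2 := by
    have : w ^ 2 * P * P ≤ S2 * P := by
      calc w ^ 2 * P * P = S1 ^ 2 := by rw [hSw]; ring
        _ ≤ P * S2 := hcs
        _ = S2 * P := by ring
    exact le_of_mul_le_mul_right this hP0
  have hTP : (w ^ 2 - A2 / k) * P ≤ T := by
    have : (w ^ 2 - A2 / k) * P = w ^ 2 * P - A2 / k * P := by ring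
    linarith
  have hfin : (r - (2 * B + A2) / k) * Q ≤ T := by
    refine le_trans ?_ hTP
    rw [hQr]
    have : (r - (2 * B + A2) / k) * r ≤ w ^ 2 - A2 / k := by
      have e1 : (r - (2 * B + A2) / k) * r = r ^ 2 - 2 * r * (B / k) - A2 / k * r := by ring
      rw [e1]
      have e2 : A2 / k * 1 ≤ A2 / k * r := mul_le_mul_of_nonneg_left hr1 (by positivity)
      linarith
    calc (r - (2 * B + A2) / k) * (r * P) = ((r - (2 * B + A2) / k) * r) * P := by ring
      _ ≤ _ := mul_le_mul_of_nonneg_right this hP0.le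
  change r - (2 * B + A2) / k ≤ T / Q
  rw [le_div_iff₀ hQ0]
  exact hfin

end Pool.Agent.LK
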