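import Pool.Agent.MP_aea6d5_co.RDefs

/-! # Rigid polygons: interface -/

set_option autoImplicit false

open Filter Topology

namespace Pool.Agent.LK

/-- The forbidden next steps at time `i ≥ 2` of the walk `g`: unit steps, not the immediate
reversal, which lead to an already visited point or would complete a U-shape. -/
def forb (g : ℕ → P3) (i : ℕ) : Set P3 :=
  {d | IsUnit3 d ∧ d ≠ -(g i - g (i - 1)) ∧
    ((∃ j < i, g i + d = g j) ∨ d = -(g (i - 1) - g (i - 2)))}

/-- The number of turns at the times `2 ≤ i ≤ n - 2`. -/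
noncomputable def turns (g : ℕ → P3) (n : ℕ) : ℕ :=
  ((Finset.Icc 2 (n - 2)).filter fun i => g (i + 1) - g i ≠ g i - g (i - 1)).card

/-- (R3a) For one of the two orientations the walk has many forbidden steps. (One can take
`g' = g` or `g' i = g (n - i)`; use `nU`, `nSpot` count ordered triples, so every U-shape and every
spot is counted twice.) -/
def RigIneqStatement : Prop := ∃ K0 : ℕ, ∀ (E : Finset (Sym2 P3)) (n : ℕ) (g : ℕ → P3),
  Cyc E n g → IsPolygon E → 8 ≤ n → ∃ g' : ℕ → P3, Cyc E n g' ∧
    2 * n + turns g' n ≤ 2 * (∑ i ∈ Finset.Icc 2 (n - 2), (forb g' i).ncard) + nU E + nSpot E + K0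

end Pool.Agent.LK
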