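import Pool.Agent.MP_aea6d5_co.TopDefs

/-! Radial homeomorphisms of normed spaces and extension of homeomorphisms supported in a cell. -/

set_option autoImplicit false
set_option linter.unusedSectionVars false

open Set Topology Filter

namespace Pool.Agent.LK

section radial

variable {V : Type} [NormedAddCommGroup V] [NormedSpace ℝ V]

/-- The radial map with profile `ρ`. -/
noncomputable def radFun (ρ : ℝ → ℝ) (x : V) : V := (ρ ‖x‖ / ‖x‖) • x

lemma radFun_zero (ρ : ℝ → ℝ) : radFun ρ (0 : V) = 0 := by simp [radFun]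

lemma norm_radFun {ρ : ℝ → ℝ} (h0 : ρ 0 = 0) (hpos : ∀ t, 0 ≤ t → 0 ≤ ρ t) (x : V) :
    ‖radFun ρ x‖ = ρ ‖x‖ := by
  by_cases hx : x = 0
  · subst hx; simp [radFun, h0]
  · have h1 : 0 < ‖x‖ := norm_pos_iff.mpr hx
    rw [radFun, norm_smul, norm_div, Real.norm_of_nonneg (hpos _ h1.le), norm_norm]
    field_simp

lemma continuous_radFun {ρ : ℝ → ℝ} (hc : Continuous ρ) (h0 : ρ 0 = 0)
    (hpos : ∀ t, 0 ≤ t → 0 ≤ ρ t) : Continuous (radFun ρ : V → V) := by
  rw [continuous_iff_continuousAt]
  intro x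
  by_cases hx : x = 0
  · subst hx
    rw [ContinuousAt, radFun_zero, tendsto_zero_iff_norm_tendsto_zero]
    have h1 : (fun e : V => ‖radFun ρ e‖) = fun e => ρ ‖e‖ := by
      funext e; exact norm_radFun h0 hpos e
    rw [h1]
    have h2 : Continuous fun e : V => ρ ‖e‖ := hc.comp continuous_norm
    have h3 := h2.tendsto 0
    simpa [h0] using h3
  · have h1 : ‖x‖ ≠ 0 := norm_ne_zero_iff.mpr hx
    unfold radFun
    exact ((hc.continuousAt.comp continuous_norm.continuousAt).div continuous_norm.continuousAt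
      h1).smul continuousAt_id

lemma radFun_radFun {ρ σ : ℝ → ℝ} (h0 : ρ 0 = 0) (hpos : ∀ t, 0 < t → 0 < ρ t)
    (hσ : ∀ t, 0 ≤ t → σ (ρ t) = t) (x : V) : radFun σ (radFun ρ x) = x := by
  by_cases hx : x = 0
  · subst hx; simp [radFun_zero]
  · have h1 : 0 < ‖x‖ := norm_pos_iff.mpr hx
    have h2 := hpos _ h1
    have hpos' : ∀ t, 0 ≤ t → 0 ≤ ρ t := by
      intro t ht
      rcases ht.eq_or_lt with h | h
      · rw [← h, h0]
      · exact (hpos t h).le
    have h3 : ‖radFun ρ x‖ = ρ ‖x‖ := norm_radFun h0 hpos' x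
    rw [radFun, h3, hσ _ h1.le, radFun, smul_smul]
    have : ‖x‖ / ρ ‖x‖ * (ρ ‖x‖ / ‖x‖) = 1 := by field_simp
    rw [this, one_smul]

lemma radFun_mem {ρ : ℝ → ℝ} (hpos : ∀ t, 0 < t → 0 < ρ t) (L : Submodule ℝ V) (x : V) :
    radFun ρ x ∈ L ↔ x ∈ L := by
  by_cases hx : x = 0
  · subst hx; simp [radFun_zero]
  · have h1 : 0 < ‖x‖ := norm_pos_iff.mpr hx
    have h2 : ρ ‖x‖ / ‖x‖ ≠ 0 := (div_pos (hpos _ h1) h1).ne'
    exact L.smul_mem_iff h2

lemma radFun_eq_self {ρ : ℝ → ℝ} {x : V} (h : ρ ‖x‖ = ‖x‖) : radFun ρ x = x := by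
  by_cases hx : x = 0
  · subst hx; simp [radFun_zero]
  · have h1 : ‖x‖ ≠ 0 := norm_ne_zero_iff.mpr hx
    rw [radFun, h, div_self h1, one_smul]

/-- The radial homeomorphism with profile an order automorphism of the line fixing zero. -/
noncomputable def radHomeo (ρ : ℝ ≃o ℝ) (h0 : ρ 0 = 0) : V ≃ₜ V where
  toFun := radFun ρ
  invFun := radFun ρ.symm
  left_inv := by
    intro x
    exact radFun_radFun h0 (fun t ht => by rw [← h0]; exact ρ.strictMono ht) (fun t _ => by simp) x
  right_inv := by
    intro x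
    have h0' : ρ.symm 0 = 0 := by rw [OrderIso.symm_apply_eq, h0]
    exact radFun_radFun h0' (fun t ht => by rw [← h0']; exact ρ.symm.strictMono ht)
      (fun t _ => by simp) x
  continuous_toFun := continuous_radFun ρ.continuous h0
    (fun t ht => by rw [← h0]; exact ρ.monotone ht)
  continuous_invFun := by
    have h0' : ρ.symm 0 = 0 := by rw [OrderIso.symm_apply_eq, h0]
    exact continuous_radFun ρ.symm.continuous h0'
      (fun t ht => by rw [← h0']; exact ρ.symm.monotone ht)

/-- The profile `t ↦ max t (min (d + k (t - d)) (R + t / 2))`. -/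
noncomputable def prof (d k R t : ℝ) : ℝ := max t (min (d + k * (t - d)) (R + t / 2))

lemma strictMono_prof {d k R : ℝ} (hk : 1 ≤ k) : StrictMono (prof d k R) := by
  intro s t hst
  have h1 : d + k * (s - d) < d + k * (t - d) := by nlinarith
  have h2 : R + s / 2 < R + t / 2 := by linarith
  unfold prof
  exact max_lt_max hst (min_lt_min h1 h2)

lemma continuous_prof (d k R : ℝ) : Continuous (prof d k R) := by
  unfold prof
  fun_prop

lemma prof_of_le {d k R t : ℝ} (hk : 1 ≤ k) (ht : t ≤ d) : prof d k R t = t := by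
  unfold prof
  apply max_eq_left
  apply (min_le_left _ _).trans
  nlinarith

lemma prof_of_ge {d k R t : ℝ} (ht : 2 * R ≤ t) : prof d k R t = t := by
  unfold prof
  apply max_eq_left
  apply (min_le_right _ _).trans
  linarith

lemma le_prof {d k R t : ℝ} : t ≤ prof d k R t := le_max_left _ _

lemma prof_ge {d k R t : ℝ} (h : R ≤ d + k * (t - d)) (ht : 0 ≤ t) : R ≤ prof d k R t := by
  unfold prof
  apply le_max_of_le_right
  apply le_min h
  linarith

lemma surjective_prof {d k R : ℝ} (hk : 1 ≤ k) : Function.Surjective (prof d k R) := by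
  apply (continuous_prof d k R).surjective
  · exact tendsto_atTop_mono (fun t => le_prof) tendsto_id
  · apply Tendsto.congr' _ tendsto_id
    filter_upwards [eventually_le_atBot d] with t ht
    exact (prof_of_le hk ht).symm

/-- `prof` as an order isomorphism. -/
noncomputable def profIso (d k R : ℝ) (hk : 1 ≤ k) : ℝ ≃o ℝ :=
  StrictMono.orderIsoOfSurjective _ (strictMono_prof (d := d) (R := R) hk) (surjective_prof hk)

lemma profIso_apply (d k R : ℝ) (hk : 1 ≤ k) (t : ℝ) : profIso d k R hk t = prof d k R t := rfl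

lemma profIso_zero {d k R : ℝ} (hk : 1 ≤ k) (hd : 0 ≤ d) : profIso d k R hk 0 = 0 := by
  rw [profIso_apply, prof_of_le hk hd]

/-- The radial expansion: identity on the ball of radius `d`, identity outside the ball of
radius `2 R`. -/
noncomputable def expand (V : Type) [NormedAddCommGroup V] [NormedSpace ℝ V] (d k R : ℝ)
    (hk : 1 ≤ k) (hd : 0 ≤ d) : V ≃ₜ V := radHomeo (profIso d k R hk) (profIso_zero hk hd)

lemma norm_expand {d k R : ℝ} (hk : 1 ≤ k) (hd : 0 ≤ d) (x : V) :
    ‖expand V d k R hk hd x‖ = prof d k R ‖x‖ :=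
  norm_radFun (profIso_zero hk hd) (fun t ht => by
    change 0 ≤ prof d k R t
    exact ht.trans le_prof) x

lemma expand_of_le {d k R : ℝ} (hk : 1 ≤ k) (hd : 0 ≤ d) {x : V} (hx : ‖x‖ ≤ d) :
    expand V d k R hk hd x = x := radFun_eq_self (prof_of_le hk hx)

lemma expand_of_ge {d k R : ℝ} (hk : 1 ≤ k) (hd : 0 ≤ d) {x : V} (hx : 2 * R ≤ ‖x‖) :
    expand V d k R hk hd x = x := radFun_eq_self (prof_of_ge hx)

lemma expand_mem {d k R : ℝ} (hk : 1 ≤ k) (hd : 0 ≤ d) (L : Submodule ℝ V) (x : V) :
    expand V d k R hk hd x ∈ L ↔ x ∈ L :=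
  radFun_mem (fun t ht => by
    change 0 < prof d k R t
    exact ht.trans_le le_prof) L x

end radial

section ext

variable {V M : Type} [TopologicalSpace V] [Nonempty V] [TopologicalSpace M]

open Classical in
/-- Extension by the identity of a self-map of an open cell. -/
noncomputable def extFun (w : V → M) (γ : V → V) (m : M) : M :=
  if m ∈ range w then w (γ (Function.invFun w m)) else m

lemma extFun_apply {w : V → M} (hw : Function.Injective w) (γ : V → V) (x : V) :
    extFun w γ (w x) = w (γ x) := by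
  rw [extFun, if_pos (mem_range_self x), Function.leftInverse_invFun hw x]

lemma extFun_of_notMem {w : V → M} (γ : V → V) {m : M} (hm : m ∉ range w) :
    extFun w γ m = m := by
  rw [extFun, if_neg hm]

lemma continuous_extFun [T2Space M] {w : V → M} (hw : IsOpenEmbedding w) {γ : V → V}
    (hγ : Continuous γ) {B : Set V} (hB : IsCompact B) (hB' : ∀ x ∉ B, γ x = x) :
    Continuous (extFun w γ) := by
  rw [continuous_iff_continuousAt]
  intro m
  by_cases hm : m ∈ range w
  · obtain ⟨x, rfl⟩ := hm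
    rw [← hw.continuousAt_iff]
    have h1 : extFun w γ ∘ w = w ∘ γ := by
      funext y; exact extFun_apply hw.injective γ y
    rw [h1]
    exact (hw.continuous.comp hγ).continuousAt
  · have h1 : IsOpen (w '' B)ᶜ := (hB.image hw.continuous).isClosed.isOpen_compl
    have h2 : m ∈ (w '' B)ᶜ := by
      rintro ⟨x, _, rfl⟩
      exact hm (mem_range_self x)
    have h3 : extFun w γ =ᶠ[𝓝 m] id := by
      filter_upwards [h1.mem_nhds h2] with m' hm'
      by_cases h4 : m' ∈ range w
      · obtain ⟨x, rfl⟩ := h4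
        have h5 : x ∉ B := fun hx => hm' (mem_image_of_mem _ hx)
        rw [extFun_apply hw.injective, hB' x h5]; rfl
      · exact extFun_of_notMem γ h4
    exact continuousAt_id.congr h3.symm

/-- Extension by the identity of a homeomorphism with compact support of an open cell. -/
noncomputable def extHomeo [T2Space M] (w : V → M) (hw : IsOpenEmbedding w) (γ : V ≃ₜ V)
    (B : Set V) (hB : IsCompact B) (hB' : ∀ x ∉ B, γ x = x) : M ≃ₜ M where
  toFun := extFun w γ
  invFun := extFun w γ.symm
  left_inv := by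
    intro m
    by_cases hm : m ∈ range w
    · obtain ⟨x, rfl⟩ := hm
      rw [extFun_apply hw.injective, extFun_apply hw.injective, γ.symm_apply_apply]
    · rw [extFun_of_notMem _ hm, extFun_of_notMem _ hm]
  right_inv := by
    intro m
    by_cases hm : m ∈ range w
    · obtain ⟨x, rfl⟩ := hm
      rw [extFun_apply hw.injective, extFun_apply hw.injective, γ.apply_symm_apply]
    · rw [extFun_of_notMem _ hm, extFun_of_notMem _ hm]
  continuous_toFun := continuous_extFun hw γ.continuous hB hB'
  continuous_invFun := by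
    refine continuous_extFun hw γ.symm.continuous hB ?_
    intro x hx
    have h := hB' x hx
    rw [← h, γ.symm_apply_apply, h]

lemma extHomeo_apply [T2Space M] {w : V → M} (hw : IsOpenEmbedding w) (γ : V ≃ₜ V)
    {B : Set V} (hB : IsCompact B) (hB' : ∀ x ∉ B, γ x = x) (x : V) :
    extHomeo w hw γ B hB hB' (w x) = w (γ x) := extFun_apply hw.injective γ x

lemma extHomeo_symm_apply [T2Space M] {w : V → M} (hw : IsOpenEmbedding w) (γ : V ≃ₜ V)
    {B : Set V} (hB : IsCompact B) (hB' : ∀ x ∉ B, γ x = x) (x : V) :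
    (extHomeo w hw γ B hB hB').symm (w x) = w (γ.symm x) := extFun_apply hw.injective γ.symm x

lemma extHomeo_of_notMem [T2Space M] {w : V → M} (hw : IsOpenEmbedding w) (γ : V ≃ₜ V)
    {B : Set V} (hB : IsCompact B) (hB' : ∀ x ∉ B, γ x = x) {m : M} (hm : m ∉ range w) :
    extHomeo w hw γ B hB hB' m = m := extFun_of_notMem γ hm

lemma extHomeo_symm_of_notMem [T2Space M] {w : V → M} (hw : IsOpenEmbedding w) (γ : V ≃ₜ V)
    {B : Set V} (hB : IsCompact B) (hB' : ∀ x ∉ B, γ x = x) {m : M} (hm : m ∉ range w) :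
    (extHomeo w hw γ B hB hB').symm m = m := extFun_of_notMem γ.symm hm

end ext

end Pool.Agent.LK
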