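import Pool.Agent.MP_aea6d5_co.SFin

/-!
The ratio limit theorem for lattice polygons of a fixed knot type.

Write `p n K` for the number of polygons of the simple cubic lattice with `n` edges and knot type
`K`, up to translation, and `μ` for their growth rate, the limsup of `p n K ^ (1 / n)`. If the
asymptotic form of Q1 holds for `K` then `p (n + 2) K / p n K` tends to `μ ^ 2` along even `n`. We
prove this for the unknot and, for every knot type `K`, along all sequences of lengths `n` for which
`p n K ^ (1 / n)` tends to `μ`; it also holds approximately in long intervals `[n, (1 + κ) n]`.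

Outline of the proof.
* A bump replaces an edge `xy` by the three other sides of a unit square `x, x+d, y+d, y` whose
  vertices `x+d, y+d` are free. Its inverse contracts a U-shape: three sides of a unit square in the
  polygon, the fourth not. Both preserve the knot type, a U-shape can always be contracted, and
  (polygon, bump) ↔ (polygon, U-shape) is a bijection. The numbers `a` of U-shapes and `b` of
  bumps change by a bounded amount under a bump.
* Polygons with at most `ε n` U-shapes and at most `ε n` bumps: at most `3.74 ^ n`. This follows
  from a double counting of the contacts of the polygon and a Kraft inequality for the next step of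
  a walk.
* The growth rate of the unknot is at least `3.75`: polygons made of two strands. Every other
  type has at least this growth rate.
* Let `n` be a length with `p n K ≥ x ^ n`, where `x < μ` is close to `μ`. Polygons with few
  U-shapes and many bumps have many longer successors with few U-shapes, and the number of these is
  at most `(μ + η) ^ m` for the length `m` of the successors. This shows that few of the polygons of
  type `K` with `m` edges have few U-shapes, for all `m` in an interval around `n`, and that
  `p (m + 2) K` is at most a constant times `p m K` there.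
* Hence `p (m + 2) / p m` is the mean of `b / a` up to `O(1 / m)`, and `p (m + 4) / p m` is at least
  the mean of its square, so the ratio `r` satisfies `r (m + 2) ≥ r m - A / m` in the interval.
  With `p m ≤ (μ + η) ^ m` this bounds `r n` from above, and with `p n ≥ x ^ n` from below.
-/

set_option autoImplicit false

namespace Pool.Agent.MP_aea6d5_co.RatioAllTypes

open Pool.Agent.LK Filter Topology

/-- The class of unknotted lattice polygons. -/
def Unknot (E : Finset (Sym2 P3)) : Prop := IsPolygon E ∧ Unknotted E

/-- The class of lattice polygons which have the same knot type as `K` with respect to the group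
`G` of homeomorphisms of space. -/
def OfType (G : Subgroup (R3 ≃ₜ R3)) (K E : Finset (Sym2 P3)) : Prop :=
  IsPolygon E ∧ ∃ φ ∈ G, φ '' body K = body E

/-- The number of polygons of a class with `2 * k + 2` edges divided by the number of those with
`2 * k` edges. -/
noncomputable def ratio (C : Finset (Sym2 P3) → Prop) (k : ℕ) : ℝ :=
  (count C (2 * k + 2) : ℝ) / (count C (2 * k) : ℝ)

/-- **The ratio limit theorem.**

The ratio for the unknot tends to the square of the growth rate. Let `G` be a group of
homeomorphisms of space such that each homeomorphism `φ` lies in `G` or `φ ∘ swapR` lies in `G`,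
where `swapR` is the reflection `(x, y, z) ↦ (y, x, z)` (for example all homeomorphisms, or the
orientation preserving ones), and let `K` be a lattice polygon. Let `μ` be the growth rate of the
polygons of type `K` and `p n` the number of those with `n` edges.

* For every `τ > 0` there is `x < μ` such that the ratio differs from `μ ^ 2` by at most `τ` at all
  large lengths `2 * k` with `p (2 * k) ≥ x ^ (2 * k)`. There are infinitely many such lengths.
* For every `τ > 0` there are `κ > 0` and infinitely many `k` such that the ratio differs from
  `μ ^ 2` by at most `τ` at all `m` between `k` and `(1 + κ) * k`.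
* If the `n`-th roots of `p n` converge to `ν` along even `n` then the ratio tends to `ν ^ 2`. -/
theorem result :
    Tendsto (ratio Unknot) atTop (𝓝 (growth Unknot ^ 2)) ∧
    ∀ G : Subgroup (R3 ≃ₜ R3), (∀ φ : R3 ≃ₜ R3, φ ∈ G ∨ φ * swapR ∈ G) →
      ∀ K : Finset (Sym2 P3), IsPolygon K →
        (∀ τ : ℝ, 0 < τ → ∃ x : ℝ, 0 < x ∧ x < growth (OfType G K) ∧
          (∀ᶠ k : ℕ in atTop, x ^ (2 * k) ≤ (count (OfType G K) (2 * k) : ℝ) →
            |ratio (OfType G K) k - growth (OfType G K) ^ 2| ≤ τ) ∧
          ∃ᶠ k : ℕ in atTop, x ^ (2 * k) ≤ (count (OfType G K) (2 * k) : ℝ)) ∧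
        (∀ τ : ℝ, 0 < τ → ∃ κ : ℝ, 0 < κ ∧ ∃ᶠ k : ℕ in atTop,
          ∀ m : ℕ, k ≤ m → (m : ℝ) ≤ (1 + κ) * k →
            |ratio (OfType G K) m - growth (OfType G K) ^ 2| ≤ τ) ∧
        ∀ ν : ℝ, Tendsto (fun k : ℕ => (count (OfType G K) (2 * k) : ℝ) ^ (((2 * k : ℕ) : ℝ)⁻¹))
          atTop (𝓝 ν) → Tendsto (ratio (OfType G K)) atTop (𝓝 (ν ^ 2)) := by
  refine ⟨ratioLimit.1, fun G hG K hK => ⟨fun τ hτ => ?_, fun τ hτ => sG_window hG hK hτ,
    fun ν h => ratioLimit.2 G hG K hK ν h⟩⟩
  obtain ⟨x, h1, h2, h3⟩ := sG_ratio hG hK hτ
  exact ⟨x, by linarith, h2, h3, sNear_freq (C := OfType G K) (fun E h => h.1) (by linarith) h2⟩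

end Pool.Agent.MP_aea6d5_co.RatioAllTypes
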