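import Pool.Agent.MP_aea6d5_co.RDone

/-! # All knot types: the analysis near the lengths where the growth rate is attained -/

set_option autoImplicit false

open Filter Topology

namespace Pool.Agent.LK

/-- Pointwise version of the comparison in the proof of (R6). -/
theorem sAna_point {g K ε : ℝ} (hg4 : (15 / 4 : ℝ) ≤ g) (hε : 0 < ε) :
    ∃ η c : ℝ, 0 < η ∧ η ≤ 5 / 1000 ∧ 0 < c ∧ c < 1 ∧ ∀ᶠ m : ℕ in atTop,
      ∀ F u0 u1 : ℝ, (g - η) ^ (2 * m) ≤ u0 →
        u1 ≤ (g + η) ^ (2 * (m + ⌊ε * (2 * m : ℕ)⌋₊)) →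
        F ≤ K * (374 / 100 : ℝ) ^ (2 * m) +
          (Real.exp (-4) / (g + 1) ^ 2) ^ ⌊ε * (2 * m : ℕ)⌋₊ * u1 → F ≤ c ^ m * u0 := by
  -- the choice of `η`
  have hexp : 1 < Real.exp ε := Real.one_lt_exp_iff.2 hε
  set η : ℝ := min (5 / 1000) (g * (Real.exp ε - 1) / (1 + Real.exp ε)) with hη
  have hη0 : 0 < η := by
    rw [hη, lt_min_iff]
    refine ⟨by norm_num, ?_⟩
    have : 0 < Real.exp ε - 1 := by linarith
    positivity
  have hη1 : η ≤ 5 / 1000 := min_le_left _ _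
  have hη2 : g + η ≤ Real.exp ε * (g - η) := by
    have h1 : η ≤ g * (Real.exp ε - 1) / (1 + Real.exp ε) := min_le_right _ _
    rw [le_div_iff₀ (by positivity)] at h1
    nlinarith
  have hgη : 0 < g - η := by linarith
  -- the ratios
  set r : ℝ := (374 / 100 / (3745 / 1000)) ^ 2 with hr
  set s : ℝ := Real.exp (-(6 * ε)) with hs
  have hr0 : 0 < r := by rw [hr]; positivity
  have hr1 : r < 1 := by rw [hr]; norm_num
  have hs0 : 0 < s := Real.exp_pos _
  have hs1 : s < 1 := by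
    rw [hs, Real.exp_lt_one_iff]
    linarith
  obtain ⟨c, hc1, hc2⟩ := exists_between (max_lt hr1 hs1)
  have hrc : r < c := lt_of_le_of_lt (le_max_left _ _) hc1
  have hsc : s < c := lt_of_le_of_lt (le_max_right _ _) hc1
  have hc0 : 0 < c := hr0.trans hrc
  refine ⟨η, c, hη0, hη1, hc0, hc2, ?_⟩
  -- the final comparison
  have hlim : Tendsto (fun m : ℕ => |K| * (r / c) ^ m + Real.exp 4 * (s / c) ^ m) atTop
      (𝓝 (|K| * 0 + Real.exp 4 * 0)) := by
    refine Tendsto.add (Tendsto.const_mul _ ?_) (Tendsto.const_mul _ ?_)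
    · exact tendsto_pow_atTop_nhds_zero_of_lt_one (by positivity) ((div_lt_one hc0).2 hrc)
    · exact tendsto_pow_atTop_nhds_zero_of_lt_one (by positivity) ((div_lt_one hc0).2 hsc)
  have hlim' : ∀ᶠ m : ℕ in atTop, |K| * (r / c) ^ m + Real.exp 4 * (s / c) ^ m < 1 :=
    hlim.eventually_lt_const (by norm_num)
  filter_upwards [hlim', eventually_gt_atTop 0] with m hm1 hm3
  intro F u0 u1 hlow hup hF'
  set k := ⌊ε * (2 * m : ℕ)⌋₊ with hk
  have hm3' : (0 : ℝ) < m := by exact_mod_cast hm3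
  have hu0 : 0 ≤ u0 := le_trans (by positivity) hlow
  -- first term
  have t1 : K * (374 / 100 : ℝ) ^ (2 * m) ≤ |K| * r ^ m * u0 := by
    have e1 : (374 / 100 : ℝ) ^ (2 * m) = r ^ m * (3745 / 1000 : ℝ) ^ (2 * m) := by
      rw [hr, ← pow_mul, ← mul_pow]
      norm_num
    have e2 : (3745 / 1000 : ℝ) ^ (2 * m) ≤ u0 :=
      (pow_le_pow_left₀ (by norm_num) (by linarith) _).trans hlow
    calc K * (374 / 100 : ℝ) ^ (2 * m) ≤ |K| * (374 / 100 : ℝ) ^ (2 * m) :=
          mul_le_mul_of_nonneg_right (le_abs_self K) (by positivity)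
      _ = |K| * r ^ m * (3745 / 1000 : ℝ) ^ (2 * m) := by rw [e1]; ring
      _ ≤ |K| * r ^ m * u0 := mul_le_mul_of_nonneg_left e2 (by positivity)
  -- second term
  have t2 : (Real.exp (-4) / (g + 1) ^ 2) ^ k * u1 ≤ Real.exp 4 * s ^ m * u0 := by
    have hk1 : ε * (2 * m : ℕ) - 1 ≤ k := (Nat.sub_one_lt_floor _).le
    have hg0 : 0 < g := by linarith
    have e1 : (g + η) ^ 2 ≤ (g + 1) ^ 2 :=
      pow_le_pow_left₀ (by linarith) (by linarith) 2
    have e2 : (Real.exp (-4) / (g + 1) ^ 2) * (g + η) ^ 2 ≤ Real.exp (-4) := by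
      rw [div_mul_eq_mul_div, div_le_iff₀ (by positivity)]
      exact mul_le_mul_of_nonneg_left e1 (Real.exp_pos _).le
    calc (Real.exp (-4) / (g + 1) ^ 2) ^ k * u1
        ≤ (Real.exp (-4) / (g + 1) ^ 2) ^ k * (g + η) ^ (2 * (m + k)) :=
          mul_le_mul_of_nonneg_left hup (by positivity)
      _ = ((Real.exp (-4) / (g + 1) ^ 2) * (g + η) ^ 2) ^ k * (g + η) ^ (2 * m) := by
          rw [mul_pow, ← pow_mul, mul_add, pow_add]; ring
      _ ≤ (Real.exp (-4)) ^ k * (g + η) ^ (2 * m) :=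
          mul_le_mul_of_nonneg_right (pow_le_pow_left₀ (by positivity) e2 k) (by positivity)
      _ ≤ (Real.exp (-4)) ^ k * (Real.exp ε * (g - η)) ^ (2 * m) :=
          mul_le_mul_of_nonneg_left (pow_le_pow_left₀ (by positivity) hη2 _) (by positivity)
      _ = (Real.exp (-4)) ^ k * (Real.exp ε) ^ (2 * m) * (g - η) ^ (2 * m) := by
          rw [mul_pow]; ring
      _ ≤ (Real.exp (-4)) ^ k * (Real.exp ε) ^ (2 * m) * u0 :=
          mul_le_mul_of_nonneg_left hlow (by positivity)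
      _ ≤ Real.exp 4 * s ^ m * u0 := by
          refine mul_le_mul_of_nonneg_right ?_ hu0
          rw [hs, ← Real.exp_nat_mul, ← Real.exp_nat_mul, ← Real.exp_nat_mul, ← Real.exp_add,
            ← Real.exp_add, Real.exp_le_exp]
          push_cast at hk1 ⊢
          nlinarith
  calc F ≤ |K| * r ^ m * u0 + Real.exp 4 * s ^ m * u0 := hF'.trans (add_le_add t1 t2)
    _ = (|K| * (r / c) ^ m + Real.exp 4 * (s / c) ^ m) * (c ^ m * u0) := by
        rw [div_pow, div_pow]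
        field_simp
    _ ≤ 1 * (c ^ m * u0) :=
        mul_le_mul_of_nonneg_right hm1.le (mul_nonneg (by positivity) hu0)
    _ = c ^ m * u0 := one_mul _

/-- The windows. If `u m` is nearly `g ^ (2 * m)` then this is so for all `m'` near `m`, and there
the comparison of `F` and `u` holds. -/
theorem sAna_window {u F : ℕ → ℝ} {g K ε : ℝ} (hg4 : (15 / 4 : ℝ) ≤ g) (hε : 0 < ε)
    (hε1 : ε ≤ 1)
    (hmono : ∀ m, u m ≤ u (m + 1))
    (hup : ∀ η : ℝ, 0 < η → ∀ᶠ m : ℕ in atTop, u m ≤ (g + η) ^ (2 * m))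
    (hF : ∀ m : ℕ, 0 < m → F m ≤ K * (374 / 100 : ℝ) ^ (2 * m) +
      (Real.exp (-4) / (g + 1) ^ 2) ^ ⌊ε * (2 * m : ℕ)⌋₊ * u (m + ⌊ε * (2 * m : ℕ)⌋₊))
    (hex : ∀ m : ℕ, u (m + 1) ≤ F (m + 1) + 12 / ε * u m) :
    ∃ c δ : ℝ, ∃ N : ℕ, 0 < c ∧ c < 1 ∧ 0 < δ ∧ δ < 1 ∧ 0 < N ∧ ∀ᶠ m : ℕ in atTop,
      (g - δ) ^ (2 * m) ≤ u m → ∀ k : ℕ, N * k ≤ (N + 1) * m → N * m ≤ (N + 1) * k →
        (15 / 4 - 1 / 100 : ℝ) ^ (2 * k) ≤ u k ∧ F k ≤ c ^ k * u k ∧
          u (k + 1) ≤ 24 / ε * u k := by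
  obtain ⟨η, c, hη0, hη1, hc0, hc1, hpt⟩ := sAna_point (K := K) hg4 hε
  set δ : ℝ := η / 2 with hδ
  have hδ0 : 0 < δ := by positivity
  have hgη : 1 < g - η := by linarith
  have hgη0 : 0 < g - η := by linarith
  have hgδ : g - η < g - δ := by rw [hδ]; linarith
  set ρ : ℝ := (g - δ) / (g - η) with hρ
  have hρ1 : 1 < ρ := (one_lt_div hgη0).2 hgδ
  have hX : 1 ≤ 24 / ε := by
    rw [le_div_iff₀ hε]; linarith
  have hg1 : 1 ≤ g := by linarith
  obtain ⟨N0, hN0⟩ := pow_unbounded_of_one_lt ((24 / ε) * g ^ 4) hρ1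
  -- we take `N = N0 + 2`
  set N : ℕ := N0 + 2 with hN
  have hXN : (24 / ε) * g ^ 4 ≤ ρ ^ N :=
    hN0.le.trans (pow_le_pow_right₀ hρ1.le (by omega))
  have hX1 : (24 / ε) ≤ ρ ^ N := by
    refine le_trans ?_ hXN
    have : (1 : ℝ) ≤ g ^ 4 := one_le_pow₀ hg1
    nlinarith
  have hX2 : (g - η) ^ 2 ≤ ρ ^ N := by
    refine le_trans ?_ hXN
    have h1 : (g - η) ^ 2 ≤ g ^ 2 := pow_le_pow_left₀ hgη0.le (by linarith) 2
    have h2 : g ^ 2 ≤ g ^ 4 := pow_le_pow_right₀ hg1 (by norm_num)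
    have h3 : 0 ≤ g ^ 4 := by positivity
    nlinarith
  have hN2 : 0 < N := by omega
  have hN3 : 2 ≤ N := by omega
  clear_value N
  -- where things hold
  have hev : ∀ᶠ m : ℕ in atTop, (∀ F u0 u1 : ℝ, (g - η) ^ (2 * m) ≤ u0 →
        u1 ≤ (g + η) ^ (2 * (m + ⌊ε * (2 * m : ℕ)⌋₊)) →
        F ≤ K * (374 / 100 : ℝ) ^ (2 * m) +
          (Real.exp (-4) / (g + 1) ^ 2) ^ ⌊ε * (2 * m : ℕ)⌋₊ * u1 → F ≤ c ^ m * u0) ∧
      u m ≤ (g + η) ^ (2 * m) ∧ c ^ m ≤ 1 / 2 := by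
    have h1 : ∀ᶠ m : ℕ in atTop, c ^ m < 1 / 2 :=
      (tendsto_pow_atTop_nhds_zero_of_lt_one hc0.le hc1).eventually_lt_const (by norm_num)
    filter_upwards [hpt, hup η hη0, h1] with m h2 h3 h4
    exact ⟨h2, h3, h4.le⟩
  obtain ⟨M, hM⟩ := eventually_atTop.1 hev
  set M' := max M 1 with hM'
  -- the comparison at a point
  have hcmp : ∀ m, M' ≤ m → (g - η) ^ (2 * m) ≤ u m → F m ≤ c ^ m * u m := by
    intro m hm hlow
    obtain ⟨h1, -, -⟩ := hM m (by omega)
    obtain ⟨-, h2, -⟩ := hM (m + ⌊ε * (2 * m : ℕ)⌋₊) (by omega)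
    exact h1 _ _ _ hlow h2 (hF m (by omega))
  have hmonoK : ∀ m i, u m ≤ u (m + i) := by
    intro m i
    induction i with
    | zero => simp
    | succ i ih => exact ih.trans (hmono (m + i))
  -- upwards
  have hupw : ∀ m i, (g - δ) ^ (2 * m) ≤ u m → N * i ≤ m → (g - η) ^ (2 * (m + i)) ≤ u (m + i) := by
    intro m i hm hi
    refine le_trans ?_ (hm.trans (hmonoK m i))
    have h1 : (g - δ) ^ (2 * m) = ρ ^ (2 * m) * (g - η) ^ (2 * m) := by
      rw [hρ, ← mul_pow, div_mul_cancel₀ _ hgη0.ne']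
    rw [h1, mul_add, pow_add, mul_comm]
    refine mul_le_mul_of_nonneg_right ?_ (by positivity)
    calc (g - η) ^ (2 * i) = ((g - η) ^ 2) ^ i := by rw [pow_mul]
      _ ≤ (ρ ^ N) ^ i := pow_le_pow_left₀ (by positivity) hX2 i
      _ = ρ ^ (N * i) := by rw [pow_mul]
      _ ≤ ρ ^ (2 * m) := pow_le_pow_right₀ hρ1.le (by omega)
  -- downwards
  have hstepd : ∀ m, M' ≤ m + 1 → (g - η) ^ (2 * (m + 1)) ≤ u (m + 1) → ε / 24 * u (m + 1) ≤ u m := by
    intro m hm hlow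
    have h1 := hcmp (m + 1) hm hlow
    obtain ⟨-, -, h2⟩ := hM (m + 1) (by omega)
    have h3 := hex m
    have h4 : 0 ≤ u (m + 1) := le_trans (by positivity) hlow
    have h5 : c ^ (m + 1) * u (m + 1) ≤ 1 / 2 * u (m + 1) := mul_le_mul_of_nonneg_right h2 h4
    have h6 : u (m + 1) ≤ 24 / ε * u m := by
      have : 24 / ε * u m = 2 * (12 / ε * u m) := by ring
      rw [this]; linarith
    calc ε / 24 * u (m + 1) ≤ ε / 24 * (24 / ε * u m) := mul_le_mul_of_nonneg_left h6 (by positivity)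
      _ = u m := by field_simp
  have hdown : ∀ m, (g - δ) ^ (2 * m) ≤ u m → ∀ i, N * i ≤ m → M' + i ≤ m →
      (ε / 24) ^ i * u m ≤ u (m - i) ∧ (g - η) ^ (2 * (m - i)) ≤ u (m - i) := by
    intro m hm i
    induction i with
    | zero =>
      intro _ _
      refine ⟨by simp, ?_⟩
      rw [Nat.sub_zero]
      exact (pow_le_pow_left₀ hgη0.le hgδ.le _).trans hm
    | succ i ih =>
      intro hi1 hi2
      obtain ⟨h1, h2⟩ := ih (by rw [Nat.mul_succ] at hi1; omega) (by omega)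
      have e1 : m - i = (m - (i + 1)) + 1 := by omega
      have h3 : ε / 24 * u (m - i) ≤ u (m - (i + 1)) := by
        rw [e1] at h2 ⊢
        exact hstepd _ (by omega) h2
      have h4 : (ε / 24) ^ (i + 1) * u m ≤ u (m - (i + 1)) := by
        calc (ε / 24) ^ (i + 1) * u m = ε / 24 * ((ε / 24) ^ i * u m) := by ring
          _ ≤ ε / 24 * u (m - i) := mul_le_mul_of_nonneg_left h1 (by positivity)
          _ ≤ _ := h3
      refine ⟨h4, le_trans ?_ h4⟩
      have h5 : (ε / 24) ^ (i + 1) * (g - δ) ^ (2 * m) ≤ (ε / 24) ^ (i + 1) * u m :=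
        mul_le_mul_of_nonneg_left hm (by positivity)
      refine le_trans ?_ h5
      have h6 : (g - δ) ^ (2 * m) = ρ ^ (2 * m) * (g - η) ^ (2 * m) := by
        rw [hρ, ← mul_pow, div_mul_cancel₀ _ hgη0.ne']
      have h7 : (g - η) ^ (2 * (m - (i + 1))) ≤ (g - η) ^ (2 * m) :=
        pow_le_pow_right₀ hgη.le (by omega)
      have h8 : 1 ≤ (ε / 24) ^ (i + 1) * ρ ^ (2 * m) := by
        have h9 : (24 / ε) ^ (i + 1) ≤ ρ ^ (2 * m) := by
          calc (24 / ε) ^ (i + 1) ≤ (ρ ^ N) ^ (i + 1) := pow_le_pow_left₀ (by positivity) hX1 _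
            _ = ρ ^ (N * (i + 1)) := by rw [pow_mul]
            _ ≤ ρ ^ (2 * m) := pow_le_pow_right₀ hρ1.le (by omega)
        calc (1 : ℝ) = (ε / 24) ^ (i + 1) * (24 / ε) ^ (i + 1) := by
              rw [← mul_pow]
              have : ε / 24 * (24 / ε) = 1 := by field_simp
              rw [this, one_pow]
          _ ≤ _ := mul_le_mul_of_nonneg_left h9 (by positivity)
      rw [h6]
      calc (g - η) ^ (2 * (m - (i + 1))) ≤ 1 * (g - η) ^ (2 * m) := by rw [one_mul]; exact h7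
        _ ≤ ((ε / 24) ^ (i + 1) * ρ ^ (2 * m)) * (g - η) ^ (2 * m) :=
            mul_le_mul_of_nonneg_right h8 (by positivity)
        _ = _ := by ring
  refine ⟨c, δ, 2 * N, hc0, hc1, hδ0, by rw [hδ]; linarith, by omega, ?_⟩
  filter_upwards [eventually_ge_atTop (2 * M' + 2 * N + 8)] with m hm hlow k hk1 hk2
  -- all near indices are good
  have hgood : ∀ k : ℕ, N * k ≤ (N + 1) * m → (N - 1) * m ≤ N * k →
      (g - η) ^ (2 * k) ≤ u k ∧ M' ≤ k := by
    intro k h1 h2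
    have h2' : N * m ≤ N * k + m := by
      have e1 : N * m = (N - 1) * m + m := by
        obtain ⟨q, hq⟩ : ∃ q, N = q + 1 := ⟨N - 1, by omega⟩
        rw [hq, Nat.add_sub_cancel]; ring
      omega
    rcases le_total m k with h | h
    · obtain ⟨i, rfl⟩ := Nat.exists_eq_add_of_le h
      refine ⟨hupw m i hlow ?_, by omega⟩
      rw [mul_add, add_mul, one_mul] at h1
      omega
    · obtain ⟨i, rfl⟩ := Nat.exists_eq_add_of_le h
      have hi : N * i ≤ k + i := by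
        rw [mul_add] at h2'
        omega
      have hi2 : 2 * i ≤ k + i := by
        have : 2 * i ≤ N * i := Nat.mul_le_mul_right i hN3
        omega
      have hi3 : M' + i ≤ k + i := by omega
      have := (hdown (k + i) hlow i hi hi3).2
      rw [Nat.add_sub_cancel] at this
      exact ⟨this, by omega⟩
  have a1 : N * k ≤ (N + 1) * m := by
    have : 2 * N * k ≤ 2 * N * m + m := by rw [add_mul, one_mul] at hk1; exact hk1
    have h2 : 2 * (N * k) ≤ 2 * (N * m) + m := by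
      calc 2 * (N * k) = 2 * N * k := by ring
        _ ≤ 2 * N * m + m := this
        _ = _ := by ring
    rw [add_mul, one_mul]; omega
  have hkm : k ≤ 2 * m := by
    have h1 : N * k ≤ N * (2 * m) := by
      refine a1.trans ?_
      have : (N + 1) * m ≤ (2 * N) * m := Nat.mul_le_mul_right m (by omega)
      calc (N + 1) * m ≤ (2 * N) * m := this
        _ = N * (2 * m) := by ring
    exact Nat.le_of_mul_le_mul_left h1 hN2
  have a2 : (N - 1) * m ≤ N * k := by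
    have h1 : 2 * (N * m) ≤ 2 * (N * k) + k := by
      have : 2 * N * m ≤ 2 * N * k + k := by rw [add_mul, one_mul] at hk2; exact hk2
      calc 2 * (N * m) = 2 * N * m := by ring
        _ ≤ 2 * N * k + k := this
        _ = _ := by ring
    have e1 : N * m = (N - 1) * m + m := by
      obtain ⟨q, hq⟩ : ∃ q, N = q + 1 := ⟨N - 1, by omega⟩
      rw [hq, Nat.add_sub_cancel]; ring
    omega
  have a3 : N * (k + 1) ≤ (N + 1) * m := by
    have : 2 * N * k ≤ 2 * N * m + m := by rw [add_mul, one_mul] at hk1; exact hk1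
    have h2 : 2 * (N * k) ≤ 2 * (N * m) + m := by
      calc 2 * (N * k) = 2 * N * k := by ring
        _ ≤ 2 * N * m + m := this
        _ = _ := by ring
    rw [mul_add, mul_one, add_mul, one_mul]; omega
  have a4 : (N - 1) * m ≤ N * (k + 1) := by
    rw [mul_add, mul_one]; omega
  obtain ⟨b1, b2⟩ := hgood k a1 a2
  obtain ⟨b3, b4⟩ := hgood (k + 1) a3 a4
  refine ⟨?_, hcmp k b2 b1, ?_⟩
  · exact (pow_le_pow_left₀ (by norm_num) (by linarith) _).trans b1
  · have h1 := hcmp (k + 1) b4 b3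
    obtain ⟨-, -, h2⟩ := hM (k + 1) (by omega)
    have h3 := hex k
    have h4 : 0 ≤ u (k + 1) := le_trans (by positivity) b3
    have h5 : c ^ (k + 1) * u (k + 1) ≤ 1 / 2 * u (k + 1) := mul_le_mul_of_nonneg_right h2 h4
    have : 24 / ε * u k = 2 * (12 / ε * u k) := by ring
    rw [this]; linarith

end Pool.Agent.LK
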