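import Pool.Agent.MP_aea6d5_co.SAna

/-! # All knot types: the ratio near the lengths where the growth rate is attained (analysis) -/

set_option autoImplicit false

open Filter Topology

namespace Pool.Agent.LK

theorem sAna_pow {q x : ℝ} {P J m : ℕ} (hq : 1 < q) (hx : 1 ≤ x)
    (hxq : x ^ (4 * P) ≤ q) (hJ : 2 ≤ J) (hm : m < P * (J + 1)) : x ^ (2 * m) < q ^ J := by
  have h1 : (x ^ (2 * m)) ^ 2 ≤ q ^ (J + 1) := by
    calc (x ^ (2 * m)) ^ 2 = x ^ (4 * m) := by rw [← pow_mul]; congr 1; ring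
      _ ≤ x ^ (4 * P * (J + 1)) := pow_le_pow_right₀ hx (by
          have : 4 * m ≤ 4 * (P * (J + 1)) := by omega
          calc 4 * m ≤ 4 * (P * (J + 1)) := this
            _ = 4 * P * (J + 1) := by ring)
      _ = (x ^ (4 * P)) ^ (J + 1) := by rw [pow_mul]
      _ ≤ q ^ (J + 1) := pow_le_pow_left₀ (by positivity) hxq _
  have h2 : q ^ (J + 1) < (q ^ J) ^ 2 := by
    rw [← pow_mul]
    exact pow_lt_pow_right₀ hq (by omega)
  have h3 : (0 : ℝ) < q ^ J := by positivity
  exact lt_of_pow_lt_pow_left₀ 2 h3.le (h1.trans_lt h2)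

/-- Near the lengths where `u m` is nearly `g ^ (2 * m)` the ratio is nearly `g ^ 2`. -/
theorem sAna_ratio {u : ℕ → ℝ} {g A δ1 : ℝ} {N : ℕ} (hg : 2 ≤ g) (hA : 0 ≤ A) (hN : 0 < N)
    (hδ1 : 0 < δ1) (hδ11 : δ1 < 1)
    (hup : ∀ η : ℝ, 0 < η → ∀ᶠ m : ℕ in atTop, u m ≤ (g + η) ^ (2 * m))
    (hw : ∀ᶠ m : ℕ in atTop, (g - δ1) ^ (2 * m) ≤ u m → ∀ k : ℕ, N * k ≤ (N + 1) * m →
      N * m ≤ (N + 1) * k → 0 < u k ∧ u (k + 1) / u k - A / k ≤ u (k + 2) / u (k + 1)) :
    ∀ τ : ℝ, 0 < τ → ∃ δ : ℝ, 0 < δ ∧ δ ≤ δ1 ∧ ∀ᶠ m : ℕ in atTop, (g - δ) ^ (2 * m) ≤ u m →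
      |u (m + 1) / u m - g ^ 2| ≤ τ := by
  intro τ' hτ'
  -- we may assume `τ ≤ 1`
  obtain ⟨τ, hτ, hτ1, hττ⟩ : ∃ τ : ℝ, 0 < τ ∧ τ ≤ 1 ∧ τ ≤ τ' :=
    ⟨min τ' 1, lt_min hτ' one_pos, min_le_right _ _, min_le_left _ _⟩
  suffices h : ∃ δ : ℝ, 0 < δ ∧ δ ≤ δ1 ∧ ∀ᶠ m : ℕ in atTop, (g - δ) ^ (2 * m) ≤ u m →
      |u (m + 1) / u m - g ^ 2| ≤ τ by
    obtain ⟨δ, h1, h2, h3⟩ := h
    exact ⟨δ, h1, h2, h3.mono fun m hm h4 => (hm h4).trans hττ⟩
  obtain ⟨P, hPN, hPA⟩ : ∃ P : ℕ, N + 1 ≤ P ∧ 4 * A ≤ P * τ := by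
    refine ⟨max (N + 1) ⌈4 * A / τ⌉₊, le_max_left _ _, ?_⟩
    have h1 : 4 * A / τ ≤ (⌈4 * A / τ⌉₊ : ℝ) := Nat.le_ceil _
    have h2 : (⌈4 * A / τ⌉₊ : ℝ) ≤ ((max (N + 1) ⌈4 * A / τ⌉₊ : ℕ) : ℝ) := by
      exact_mod_cast le_max_right _ _
    rw [← div_le_iff₀ hτ]
    linarith
  have hP0 : 0 < P := by omega
  have hPR : (0 : ℝ) < P := by exact_mod_cast hP0
  set b : ℝ := g ^ 2 + τ / 2 with hb
  set b' : ℝ := g ^ 2 - τ / 2 with hb'
  have hg2 : 4 ≤ g ^ 2 := by nlinarith
  have hb'0 : 0 < b' := by rw [hb']; linarith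
  set q0 : ℝ := b / (g ^ 2 + τ / 4) with hq0
  set q1 : ℝ := g ^ 2 / b' with hq1
  have hq01 : 1 < q0 := by
    rw [hq0, one_lt_div (by positivity)]
    rw [hb]; linarith
  have hq11 : 1 < q1 := by
    rw [hq1, one_lt_div hb'0]
    rw [hb']; linarith
  -- the choice of `δ`
  obtain ⟨δ, hδ0, hδ1', hδ2, hδ3, hδ4⟩ : ∃ δ : ℝ, 0 < δ ∧ δ ≤ δ1 ∧ δ < 1 ∧
      (g + δ) ^ 2 ≤ g ^ 2 + τ / 4 ∧ ((g + δ) / (g - δ)) ^ (4 * P) ≤ min q0 q1 := by
    have c1 : Tendsto (fun δ : ℝ => ((g + δ) / (g - δ)) ^ (4 * P)) (𝓝[>] 0)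
        (𝓝 (((g + 0) / (g - 0)) ^ (4 * P))) := by
      refine tendsto_nhdsWithin_of_tendsto_nhds ?_
      refine Tendsto.pow (Tendsto.div ?_ ?_ ?_) _
      · exact tendsto_const_nhds.add tendsto_id
      · exact tendsto_const_nhds.sub tendsto_id
      · linarith
    have e1 : ((g + 0) / (g - 0)) ^ (4 * P) = 1 := by
      rw [add_zero, sub_zero, div_self (by linarith), one_pow]
    rw [e1] at c1
    have c2 : Tendsto (fun δ : ℝ => (g + δ) ^ 2) (𝓝[>] 0) (𝓝 ((g + 0) ^ 2)) :=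
      tendsto_nhdsWithin_of_tendsto_nhds ((tendsto_const_nhds.add tendsto_id).pow 2)
    have e2 : (g + 0) ^ 2 < g ^ 2 + τ / 4 := by rw [add_zero]; linarith
    have h1 := c1.eventually_lt_const (lt_min hq01 hq11)
    have h2 := c2.eventually_lt_const e2
    have h3 : ∀ᶠ δ : ℝ in 𝓝[>] 0, 0 < δ := self_mem_nhdsWithin
    have h4 : ∀ᶠ δ : ℝ in 𝓝[>] 0, δ < min δ1 1 := by
      refine Filter.Eventually.filter_mono nhdsWithin_le_nhds ?_
      exact gt_mem_nhds (lt_min hδ1 one_pos)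
    obtain ⟨δ, a1, a2, a3, a4⟩ := (h1.and (h2.and (h3.and h4))).exists
    exact ⟨δ, a3, (a4.trans_le (min_le_left _ _)).le, a4.trans_le (min_le_right _ _), a2.le, a1.le⟩
  have hgδ : 0 < g - δ := by linarith
  set x : ℝ := (g + δ) / (g - δ) with hx
  have hx1 : 1 ≤ x := by rw [hx, one_le_div hgδ]; linarith
  have hxg : x * (g - δ) = g + δ := by rw [hx, div_mul_cancel₀ _ hgδ.ne']
  refine ⟨δ, hδ0, hδ1', ?_⟩
  obtain ⟨M1, hM1⟩ := eventually_atTop.1 hw
  obtain ⟨M2, hM2⟩ := eventually_atTop.1 (hup δ hδ0)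
  filter_upwards [eventually_ge_atTop (M1 + 2 * M2 + 2 * P + 2)] with m hm hlow
  have hm0 : 0 < m := by omega
  have hmR : (0 : ℝ) < m := by exact_mod_cast hm0
  have hlow1 : (g - δ1) ^ (2 * m) ≤ u m := by
    refine le_trans ?_ hlow
    exact pow_le_pow_left₀ (by linarith) (by linarith) _
  have hwin := hM1 m (by omega) hlow1
  set J : ℕ := m / P with hJ
  have hJP : P * J ≤ m := Nat.mul_div_le m P
  have hJP' : m < P * (J + 1) := by
    have := Nat.lt_mul_div_succ m hP0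
    exact this
  have hJ2 : 2 ≤ J := (Nat.le_div_iff_mul_le hP0).2 (by omega)
  have hJm : 2 * J ≤ m := by
    have : 2 * J ≤ P * J := Nat.mul_le_mul_right J (by omega)
    omega
  -- the indices in the window
  have win1 : ∀ j, j ≤ J → N * (m + j) ≤ (N + 1) * m ∧ N * m ≤ (N + 1) * (m + j) := by
    intro j hj
    have h1 : N * j ≤ P * J := Nat.mul_le_mul (by omega) hj
    constructor
    · rw [mul_add, add_mul, one_mul]; omega
    · exact Nat.mul_le_mul (by omega) (by omega)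
  have win2 : ∀ j, j ≤ J → N * (m - j) ≤ (N + 1) * m ∧ N * m ≤ (N + 1) * (m - j) := by
    intro j hj
    have h1 : (N + 1) * j ≤ P * J := Nat.mul_le_mul hPN hj
    constructor
    · exact Nat.mul_le_mul (by omega) (by omega)
    · obtain ⟨l, hl⟩ := Nat.exists_eq_add_of_le (show j ≤ m by omega)
      have h2 : m - j = l := by omega
      rw [h2]
      have h3 : (N + 1) * m = (N + 1) * j + (N + 1) * l := by rw [hl]; ring
      have h4 : (N + 1) * m = N * m + m := by ring
      omega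
  have hJA : A * J / m ≤ τ / 4 := by
    rw [div_le_iff₀ hmR]
    have h1 : (P : ℝ) * J ≤ m := by exact_mod_cast hJP
    have h2 : 4 * A * J ≤ P * τ * J := mul_le_mul_of_nonneg_right hPA (Nat.cast_nonneg _)
    have h3 : P * τ * J = τ * (P * J) := by ring
    have h4 : τ * (P * J) ≤ τ * m := mul_le_mul_of_nonneg_left h1 hτ.le
    linarith
  have hum0 : 0 < u m := by
    have := win1 0 (by omega)
    rw [add_zero] at this
    exact (hwin m this.1 this.2).1
  rw [abs_le]
  constructor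
  · -- lower bound
    by_contra hcon
    push Not at hcon
    have hr : u (m + 1) / u m < g ^ 2 - τ := by linarith
    have key : ∀ j : ℕ, j ≤ J → u (m - j + 1) / u (m - j) ≤ g ^ 2 - τ + 2 * A * j / m := by
      intro j
      induction j with
      | zero => intro _; simpa using hr.le
      | succ j ih =>
        intro hj
        have h1 := ih (by omega)
        obtain ⟨w1, w2⟩ := win2 (j + 1) hj
        have h2 := (hwin _ w1 w2).2
        have e1 : m - (j + 1) + 1 = m - j := by omega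
        have e2 : m - (j + 1) + 2 = m - j + 1 := by omega
        rw [e1, e2] at h2
        rw [e1]
        have h3 : A / ((m - (j + 1) : ℕ) : ℝ) ≤ 2 * A / m := by
          have h4 : (m : ℝ) ≤ 2 * ((m - (j + 1) : ℕ) : ℝ) := by
            exact_mod_cast (by omega : m ≤ 2 * (m - (j + 1)))
          have h5 : (0 : ℝ) < ((m - (j + 1) : ℕ) : ℝ) := by linarith
          rw [div_le_div_iff₀ h5 hmR]
          nlinarith
        have h6 : 2 * A * ((j + 1 : ℕ) : ℝ) / m = 2 * A * j / m + 2 * A / m := by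
          push_cast; ring
        rw [h6]
        linarith
    have key2 : ∀ j : ℕ, j ≤ J → u m ≤ b' ^ j * u (m - j) := by
      intro j
      induction j with
      | zero => intro _; simp
      | succ j ih =>
        intro hj
        have h1 := ih (by omega)
        have h2 := key (j + 1) hj
        obtain ⟨w1, w2⟩ := win2 (j + 1) hj
        have h3 := (hwin _ w1 w2).1
        have e1 : m - (j + 1) + 1 = m - j := by omega
        rw [e1] at h2
        have h4 : 2 * A * ((j + 1 : ℕ) : ℝ) / m ≤ τ / 2 := by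
          have h5 : ((j + 1 : ℕ) : ℝ) ≤ J := by exact_mod_cast hj
          have h6 : 2 * A * ((j + 1 : ℕ) : ℝ) / m ≤ 2 * (A * J / m) := by
            rw [← mul_div_assoc, ← mul_assoc]
            exact div_le_div_of_nonneg_right (mul_le_mul_of_nonneg_left h5 (by positivity)) hmR.le
          linarith
        have h7 : u (m - j) ≤ b' * u (m - (j + 1)) := by
          rw [← div_le_iff₀ h3]
          rw [hb']; linarith
        calc u m ≤ b' ^ j * u (m - j) := h1
          _ ≤ b' ^ j * (b' * u (m - (j + 1))) := mul_le_mul_of_nonneg_left h7 (by positivity)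
          _ = b' ^ (j + 1) * u (m - (j + 1)) := by ring
    have h1 := key2 J le_rfl
    have h2 := hM2 (m - J) (by omega)
    have h3 : (g - δ) ^ (2 * m) ≤ b' ^ J * (g + δ) ^ (2 * (m - J)) :=
      hlow.trans (h1.trans (mul_le_mul_of_nonneg_left h2 (by positivity)))
    have h4 := sAna_pow hq11 hx1 (hδ4.trans (min_le_right _ _)) hJ2 hJP'
    -- `q1 ^ J * b' ^ J = (g ^ 2) ^ J ≤ (g + δ) ^ (2 * J)`
    have h5 : q1 ^ J * b' ^ J ≤ (g + δ) ^ (2 * J) := by
      rw [← mul_pow, hq1, div_mul_cancel₀ _ hb'0.ne', pow_mul]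
      exact pow_le_pow_left₀ (by positivity) (pow_le_pow_left₀ (by linarith) (by linarith) 2) J
    have h6 : (g + δ) ^ (2 * m) = x ^ (2 * m) * (g - δ) ^ (2 * m) := by
      rw [← mul_pow, hxg]
    have h7 : (g + δ) ^ (2 * m) = (g + δ) ^ (2 * J) * (g + δ) ^ (2 * (m - J)) := by
      rw [← pow_add]; congr 1; omega
    have h8 : 0 < (g - δ) ^ (2 * m) := by positivity
    have h9 : q1 ^ J * (g - δ) ^ (2 * m) ≤ (g + δ) ^ (2 * m) := by
      calc q1 ^ J * (g - δ) ^ (2 * m) ≤ q1 ^ J * (b' ^ J * (g + δ) ^ (2 * (m - J))) :=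
            mul_le_mul_of_nonneg_left h3 (by positivity)
        _ = q1 ^ J * b' ^ J * (g + δ) ^ (2 * (m - J)) := by ring
        _ ≤ (g + δ) ^ (2 * J) * (g + δ) ^ (2 * (m - J)) :=
            mul_le_mul_of_nonneg_right h5 (by positivity)
        _ = _ := h7.symm
    rw [h6] at h9
    have h10 := le_of_mul_le_mul_right h9 h8
    linarith
  · -- upper bound
    by_contra hcon
    push Not at hcon
    have hr : g ^ 2 + τ < u (m + 1) / u m := by linarith
    have key : ∀ j : ℕ, j ≤ J → g ^ 2 + τ - A * j / m ≤ u (m + j + 1) / u (m + j) := by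
      intro j
      induction j with
      | zero => intro _; simpa using hr.le
      | succ j ih =>
        intro hj
        have h1 := ih (by omega)
        obtain ⟨w1, w2⟩ := win1 j (by omega)
        have h2 := (hwin _ w1 w2).2
        have e1 : m + (j + 1) = m + j + 1 := by omega
        have e2 : m + j + 1 + 1 = m + j + 2 := by omega
        rw [e1, e2]
        have h3 : A / ((m + j : ℕ) : ℝ) ≤ A / m := by
          apply div_le_div_of_nonneg_left hA hmR
          push_cast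
          linarith [(Nat.cast_nonneg j : (0 : ℝ) ≤ j)]
        have h6 : A * ((j + 1 : ℕ) : ℝ) / m = A * j / m + A / m := by
          push_cast; ring
        rw [h6]
        linarith
    have key2 : ∀ j : ℕ, j ≤ J → b ^ j * u m ≤ u (m + j) := by
      intro j
      induction j with
      | zero => intro _; simp
      | succ j ih =>
        intro hj
        have h1 := ih (by omega)
        have h2 := key j (by omega)
        obtain ⟨w1, w2⟩ := win1 j (by omega)
        have h3 := (hwin _ w1 w2).1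
        have h4 : A * (j : ℝ) / m ≤ τ / 4 := by
          have h5 : (j : ℝ) ≤ J := by exact_mod_cast (by omega : j ≤ J)
          refine le_trans ?_ hJA
          exact div_le_div_of_nonneg_right (mul_le_mul_of_nonneg_left h5 hA) hmR.le
        have h7 : b * u (m + j) ≤ u (m + j + 1) := by
          rw [← le_div_iff₀ h3]
          rw [hb]; linarith
        calc b ^ (j + 1) * u m = b * (b ^ j * u m) := by ring
          _ ≤ b * u (m + j) := mul_le_mul_of_nonneg_left h1 (by positivity)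
          _ ≤ _ := h7
    have h1 := key2 J le_rfl
    have h2 := hM2 (m + J) (by omega)
    have h3 : b ^ J * (g - δ) ^ (2 * m) ≤ (g + δ) ^ (2 * (m + J)) :=
      (mul_le_mul_of_nonneg_left hlow (by positivity)).trans (h1.trans h2)
    have h4 := sAna_pow hq01 hx1 (hδ4.trans (min_le_left _ _)) hJ2 hJP'
    have h5 : q0 ^ J * (g + δ) ^ (2 * J) ≤ b ^ J := by
      rw [pow_mul, ← mul_pow]
      refine pow_le_pow_left₀ (by positivity) ?_ J
      calc q0 * (g + δ) ^ 2 ≤ q0 * (g ^ 2 + τ / 4) := mul_le_mul_of_nonneg_left hδ3 (by positivity)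
        _ = b := by rw [hq0, div_mul_cancel₀ _ (by positivity)]
    have h6 : (g + δ) ^ (2 * m) = x ^ (2 * m) * (g - δ) ^ (2 * m) := by
      rw [← mul_pow, hxg]
    have h7 : (g + δ) ^ (2 * (m + J)) = (g + δ) ^ (2 * m) * (g + δ) ^ (2 * J) := by
      rw [← pow_add]; congr 1; ring
    have h8 : 0 < (g - δ) ^ (2 * m) := by positivity
    have h9 : 0 < (g + δ) ^ (2 * J) := by positivity
    have h10 : q0 ^ J * (g - δ) ^ (2 * m) * (g + δ) ^ (2 * J) ≤
        x ^ (2 * m) * (g - δ) ^ (2 * m) * (g + δ) ^ (2 * J) := by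
      calc q0 ^ J * (g - δ) ^ (2 * m) * (g + δ) ^ (2 * J)
          = (q0 ^ J * (g + δ) ^ (2 * J)) * (g - δ) ^ (2 * m) := by ring
        _ ≤ b ^ J * (g - δ) ^ (2 * m) := mul_le_mul_of_nonneg_right h5 h8.le
        _ ≤ (g + δ) ^ (2 * (m + J)) := h3
        _ = _ := by rw [h7, h6]
    have h11 := le_of_mul_le_mul_right (le_of_mul_le_mul_right h10 h9) h8
    linarith

end Pool.Agent.LK
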