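import Pool.Agent.MP_aea6d5_co.SPatB

/-! # Final forms, for the types with respect to a subgroup -/

set_option autoImplicit false

open Filter Topology

namespace Pool.Agent.LK

section

variable {G : Subgroup (R3 ≃ₜ R3)} {K : Finset (Sym2 P3)}

theorem sG_sub {E : Finset (Sym2 P3)} (h : GClass G K E) : KClass K E := by
  obtain ⟨hE, φ, -, hφ⟩ := h
  exact ⟨hE, φ, hφ⟩

theorem sG_le (n : ℕ) : count (GClass G K) n ≤ count (KClass K) n :=
  sCount_mono (fun _ h => h.1) (fun _ h => sG_sub h) n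

theorem sG_le2 (hG : ∀ φ : R3 ≃ₜ R3, φ ∈ G ∨ φ * swapR ∈ G) (n : ℕ) :
    count (KClass K) n ≤ 2 * count (GClass G K) n := by
  rcases propStatement G hG K with h | h
  · rw [h]; omega
  · rw [h]


theorem sUnknot_count (hK : Unknotted K) (n : ℕ) : count (KClass K) n = count UClass n := by
  unfold count
  congr 1
  ext E
  simp only [Set.mem_ofPred_eq]
  constructor
  · rintro ⟨⟨h1, h2⟩, h3⟩
    exact ⟨⟨h1, h2.symm.unknotted hK⟩, h3⟩
  · rintro ⟨⟨h1, h2⟩, h3⟩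
    refine ⟨⟨h1, ?_⟩, h3⟩
    obtain ⟨φ, hφ⟩ := hK
    obtain ⟨ψ, hψ⟩ := h2
    refine ⟨φ.trans ψ.symm, ?_⟩
    change (ψ.symm ∘ φ) '' body K = body E
    rw [Set.image_comp, hφ, ← hψ]
    exact ψ.symm_image_image _

/-- For the unknot all large even lengths are good. -/
theorem sNear_unknot (hG : ∀ φ : R3 ≃ₜ R3, φ ∈ G ∨ φ * swapR ∈ G) (hK : Unknotted K) {x : ℝ}
    (hx0 : 0 ≤ x) (hx : x < growth (GClass G K)) :
    ∀ᶠ k : ℕ in atTop, x ^ (2 * k) ≤ (count (GClass G K) (2 * k) : ℝ) := by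
  rw [sGrowth_G G hG K] at hx
  have hg : growth (KClass K) = growth UClass := by
    unfold growth
    simp only [sUnknot_count hK]
  rw [hg] at hx
  obtain ⟨y, hxy, hy⟩ := exists_between hx
  have hy0 : 0 < y := lt_of_le_of_lt hx0 hxy
  have h1 : ∀ᶠ k : ℕ in atTop, y < (count UClass (2 * k) : ℝ) ^ (((2 * k : ℕ) : ℝ)⁻¹) :=
    (limitStatement UClass unknotClosedZ).eventually_const_lt hy
  have h2 : ∀ᶠ k : ℕ in atTop, (2 : ℝ) * x ^ (2 * k) ≤ y ^ (2 * k) := by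
    rcases hx0.eq_or_lt with h | h
    · filter_upwards [eventually_gt_atTop 0] with k hk
      rw [← h, zero_pow (by omega), mul_zero]
      positivity
    · have hr : 1 < y / x := by rwa [one_lt_div h]
      have h3 := (tendsto_pow_atTop_atTop_of_one_lt hr).comp
        (tendsto_id.const_mul_atTop' (by norm_num : 0 < 2))
      filter_upwards [h3.eventually_ge_atTop 2] with k hk
      simp only [Function.comp_apply, id_eq] at hk
      rw [div_pow, le_div_iff₀ (by positivity)] at hk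
      exact hk
  filter_upwards [h1, h2, eventually_gt_atTop 0] with k hk1 hk2 hk0
  have hpow : ((count UClass (2 * k) : ℝ) ^ (((2 * k : ℕ) : ℝ)⁻¹)) ^ (2 * k) = count UClass (2 * k) :=
    Real.rpow_inv_natCast_pow (Nat.cast_nonneg _) (by omega)
  have h4 : y ^ (2 * k) ≤ (count UClass (2 * k) : ℝ) := by
    rw [← hpow]
    exact pow_le_pow_left₀ hy0.le hk1.le _
  have h5 : (count (KClass K) (2 * k) : ℝ) ≤ 2 * count (GClass G K) (2 * k) := by
    exact_mod_cast sG_le2 hG (2 * k)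
  rw [sUnknot_count hK] at h5
  linarith

/-- The growth rate is attained at infinitely many lengths. -/
theorem sNear_freq {C : Finset (Sym2 P3) → Prop} (hC : ∀ E, C E → IsPolygon E) {x : ℝ}
    (hx0 : 0 ≤ x) (hx : x < growth C) :
    ∃ᶠ k : ℕ in atTop, x ^ (2 * k) ≤ (count C (2 * k) : ℝ) := by
  obtain ⟨y, hxy, hy⟩ := exists_between hx
  have hy0 : 0 < y := lt_of_le_of_lt hx0 hxy
  have h1 := sFreq hy0.le hy
  rw [frequently_atTop] at h1 ⊢
  intro a
  obtain ⟨n, hn, h2⟩ := h1 (2 * a)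
  have hpos : (0 : ℝ) < count C n := lt_of_lt_of_le (by positivity) h2
  have hev : Even n := by
    by_contra hne
    rw [count_odd hC hne] at hpos
    simp at hpos
  obtain ⟨k, rfl⟩ := hev
  refine ⟨k, by omega, ?_⟩
  rw [← two_mul] at h2
  exact (pow_le_pow_left₀ hx0 hxy.le _).trans h2

/-- **The ratio at the lengths where the growth rate is attained.** -/
theorem sG_ratio (hG : ∀ φ : R3 ≃ₜ R3, φ ∈ G ∨ φ * swapR ∈ G) (hK : IsPolygon K) {τ : ℝ}
    (hτ : 0 < τ) : ∃ x : ℝ, 1 < x ∧ x < growth (GClass G K) ∧ ∀ᶠ k : ℕ in atTop,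
      x ^ (2 * k) ≤ (count (GClass G K) (2 * k) : ℝ) →
      |(count (GClass G K) (2 * k + 2) : ℝ) / (count (GClass G K) (2 * k) : ℝ) -
        growth (GClass G K) ^ 2| ≤ τ := by
  rw [sGrowth_G G hG K]
  have hg := sGrowth_ge K hK
  obtain ⟨δ, hδ, hδ1, h⟩ := sRatio (bumpClass_K localFacts K) hg hτ
  refine ⟨growth (KClass K) - δ, by linarith, by linarith, ?_⟩
  filter_upwards [h] with k hk hlow
  have h1 : (count (GClass G K) (2 * k) : ℝ) ≤ count (KClass K) (2 * k) := by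
    exact_mod_cast sG_le (2 * k)
  have h2 := hk (hlow.trans h1)
  have e : 2 * (k + 1) = 2 * k + 2 := by ring
  rw [e] at h2
  rcases propStatement G hG K with h3 | h3
  · rw [h3, h3]
    exact h2
  · rw [h3, h3] at h2
    push_cast at h2
    rwa [mul_div_mul_left _ _ (two_ne_zero)] at h2

/-- Long windows. -/
theorem sG_window (hG : ∀ φ : R3 ≃ₜ R3, φ ∈ G ∨ φ * swapR ∈ G) (hK : IsPolygon K) {τ : ℝ}
    (hτ : 0 < τ) : ∃ κ : ℝ, 0 < κ ∧ ∃ᶠ k : ℕ in atTop, ∀ m : ℕ, k ≤ m → (m : ℝ) ≤ (1 + κ) * k →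
      |(count (GClass G K) (2 * m + 2) : ℝ) / (count (GClass G K) (2 * m) : ℝ) -
        growth (GClass G K) ^ 2| ≤ τ := by
  obtain ⟨x, hx1, hxg, h⟩ := sG_ratio hG hK hτ
  have hx0 : 0 < x := by linarith
  obtain ⟨y, hxy, hyg⟩ := exists_between hxg
  -- `x ^ (1 + κ) ≤ y`
  obtain ⟨κ, hκ0, hκ⟩ : ∃ κ : ℝ, 0 < κ ∧ x ^ (1 + κ) ≤ y := by
    have hcont : ContinuousAt (fun κ : ℝ => x ^ (1 + κ)) 0 :=
      (Real.continuous_const_rpow hx0.ne').continuousAt.comp (by fun_prop)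
    have h1 : Tendsto (fun κ : ℝ => x ^ (1 + κ)) (𝓝 0) (𝓝 x) := by
      have := hcont.tendsto
      simpa using this
    have h2 := (h1.eventually_lt_const hxy)
    rw [Metric.eventually_nhds_iff] at h2
    obtain ⟨e, he, h3⟩ := h2
    refine ⟨e / 2, by positivity, (h3 ?_).le⟩
    rw [Real.dist_eq, sub_zero, abs_of_pos (by positivity)]
    linarith
  refine ⟨κ, hκ0, ?_⟩
  obtain ⟨M, hM⟩ := eventually_atTop.1 h
  have hf := sNear_freq (C := GClass G K) (fun E h => h.1) (by linarith) hyg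
  refine (hf.and_eventually (eventually_ge_atTop M)).mono ?_
  rintro k ⟨hk, hkM⟩ m hkm hm
  refine hM m (hkM.trans hkm) ?_
  have h1 : (count (KClass K) (2 * k) : ℝ) ≤ count (KClass K) (2 * m) := by
    exact_mod_cast sMono_even (bumpClass_K localFacts K).kMove (by omega) (even_two_mul m)
  have h2 : (count (GClass G K) (2 * k) : ℝ) ≤ count (GClass G K) (2 * m) := by
    rcases propStatement G hG K with h3 | h3
    · rw [h3, h3]
      exact h1
    · rw [h3, h3] at h1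
      push_cast at h1
      linarith
  refine le_trans ?_ (hk.trans h2)
  have h3 : x ^ (2 * m) ≤ x ^ ((1 + κ) * ((2 * k : ℕ) : ℝ)) := by
    rw [← Real.rpow_natCast]
    refine Real.rpow_le_rpow_of_exponent_le hx1.le ?_
    push_cast
    linarith
  refine h3.trans ?_
  rw [Real.rpow_mul hx0.le, Real.rpow_natCast]
  exact pow_le_pow_left₀ (by positivity) hκ _

/-- **Pattern theorem for U-shapes.** -/
theorem sG_few (hG : ∀ φ : R3 ≃ₜ R3, φ ∈ G ∨ φ * swapR ∈ G) (hK : IsPolygon K) :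
    ∃ ε c x : ℝ, 0 < ε ∧ 0 < c ∧ c < 1 ∧ 1 < x ∧ x < growth (GClass G K) ∧ ∀ᶠ k : ℕ in atTop,
      x ^ (2 * k) ≤ (count (GClass G K) (2 * k) : ℝ) →
      (count (fun E => GClass G K E ∧ (nU E : ℝ) ≤ ε * (2 * k : ℕ)) (2 * k) : ℝ) ≤
        c ^ k * (count (GClass G K) (2 * k) : ℝ) := by
  rw [sGrowth_G G hG K]
  have hg := sGrowth_ge K hK
  obtain ⟨ε, c, δ, A, N, hε, hc0, hc1, hδ0, hδ1, -, hN, hw⟩ :=
    sWindow (bumpClass_K localFacts K) hg
  obtain ⟨c', hcc', hc'1⟩ := exists_between hc1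
  have hc'0 : 0 < c' := hc0.trans hcc'
  refine ⟨ε, c', growth (KClass K) - δ, hε, hc'0, hc'1, by linarith, by linarith, ?_⟩
  have h2 : ∀ᶠ k : ℕ in atTop, (2 : ℝ) * c ^ k ≤ c' ^ k := by
    have hr : 1 < c' / c := by rwa [one_lt_div hc0]
    filter_upwards [(tendsto_pow_atTop_atTop_of_one_lt hr).eventually_ge_atTop 2] with k hk
    rwa [div_pow, le_div_iff₀ (by positivity)] at hk
  filter_upwards [hw, h2] with k hk hk2 hlow
  have h1 : (count (GClass G K) (2 * k) : ℝ) ≤ count (KClass K) (2 * k) := by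
    exact_mod_cast sG_le (2 * k)
  have h3 := (hk (hlow.trans h1) k (Nat.mul_le_mul_right k (Nat.le_succ N))
    (Nat.mul_le_mul_right k (Nat.le_succ N))).2.1
  have h4 : count (fun E => GClass G K E ∧ (nU E : ℝ) ≤ ε * (2 * k : ℕ)) (2 * k) ≤
      few (KClass K) ε (2 * k) := by
    classical
    unfold few count
    rw [← Set.ncard_coe_finset]
    refine Set.ncard_le_ncard ?_ (Finset.finite_toSet _)
    rintro E ⟨⟨g1, g2⟩, g3, g4⟩
    rw [Finset.mem_coe, Finset.mem_filter, mem_U' (C := KClass K) (fun E h => h.1)]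
    exact ⟨⟨sG_sub g1, g3, g4⟩, g2⟩
  have h5 : (count (KClass K) (2 * k) : ℝ) ≤ 2 * count (GClass G K) (2 * k) := by
    exact_mod_cast sG_le2 hG (2 * k)
  have h6 : (count (fun E => GClass G K E ∧ (nU E : ℝ) ≤ ε * (2 * k : ℕ)) (2 * k) : ℝ) ≤
      few (KClass K) ε (2 * k) := by exact_mod_cast h4
  have hcn : (0 : ℝ) ≤ count (GClass G K) (2 * k) := Nat.cast_nonneg _
  calc _ ≤ c ^ k * (count (KClass K) (2 * k) : ℝ) := h6.trans h3
    _ ≤ c ^ k * (2 * count (GClass G K) (2 * k)) := mul_le_mul_of_nonneg_left h5 (by positivity)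
    _ = (2 * c ^ k) * count (GClass G K) (2 * k) := by ring
    _ ≤ c' ^ k * count (GClass G K) (2 * k) := mul_le_mul_of_nonneg_right hk2 hcn

/-- **Pattern theorem for arbitrary frequent patterns.** -/
theorem sG_fewQ (hG : ∀ φ : R3 ≃ₜ R3, φ ∈ G ∨ φ * swapR ∈ G) (hK : IsPolygon K)
    {Q : Finset (Sym2 P3)} (hQ : Frequent Q) :
    ∃ ε x : ℝ, 0 < ε ∧ 1 < x ∧ x < growth (GClass G K) ∧ ∀ᶠ k : ℕ in atTop,
      x ^ (2 * k) ≤ (count (GClass G K) (2 * k) : ℝ) →
      (count (fun E => GClass G K E ∧ (nOcc Q E : ℝ) ≤ ε * ((2 * k : ℕ) : ℝ) ^ (2 / 3 : ℝ))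
        (2 * k) : ℝ) ≤
        Real.exp (-(ε * ((2 * k : ℕ) : ℝ) ^ (2 / 3 : ℝ))) *
          (count (GClass G K) (2 * k) : ℝ) := by
  rw [sGrowth_G G hG K]
  have hg := sGrowth_ge K hK
  obtain ⟨ε, δ, hε, hδ0, hδ1, hw⟩ := sFewQ K hK hQ
  refine ⟨ε / 2, growth (KClass K) - δ, by positivity, by linarith, by linarith, ?_⟩
  have h2 : ∀ᶠ m : ℕ in atTop,
      2 * Real.exp (-(ε / 2 * ((2 * m : ℕ) : ℝ) ^ (2 / 3 : ℝ))) ≤ 1 := by
    have hto : Tendsto (fun m : ℕ => ((2 * m : ℕ) : ℝ)) atTop atTop :=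
      tendsto_natCast_atTop_atTop.comp (tendsto_id.const_mul_atTop' (by norm_num))
    have h4 : Tendsto (fun m : ℕ => ε / 2 * ((2 * m : ℕ) : ℝ) ^ (2 / 3 : ℝ)) atTop atTop :=
      Tendsto.const_mul_atTop (by positivity) ((tendsto_rpow_atTop (by norm_num)).comp hto)
    have h5 := (Real.tendsto_exp_neg_atTop_nhds_zero.comp h4).const_mul 2
    rw [mul_zero] at h5
    exact h5.eventually_le_const one_pos
  filter_upwards [hw, h2] with k hk hk2 hlow
  set x : ℝ := ((2 * k : ℕ) : ℝ) ^ (2 / 3 : ℝ) with hx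
  have hx0 : 0 ≤ x := Real.rpow_nonneg (Nat.cast_nonneg _) _
  have h1 : (count (GClass G K) (2 * k) : ℝ) ≤ count (KClass K) (2 * k) := by
    exact_mod_cast sG_le (2 * k)
  have h3 := hk (hlow.trans h1)
  have h4 : count (fun E => GClass G K E ∧ (nOcc Q E : ℝ) ≤ ε / 2 * x) (2 * k) ≤
      fewQ (KClass K) Q (ε * x) (2 * k) := by
    classical
    unfold fewQ count
    rw [← Set.ncard_coe_finset]
    refine Set.ncard_le_ncard ?_ (Finset.finite_toSet _)
    rintro E ⟨⟨g1, g2⟩, g3, g4⟩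
    rw [Finset.mem_coe, Finset.mem_filter, mem_U' (C := KClass K) (fun E h => h.1)]
    refine ⟨⟨sG_sub g1, g3, g4⟩, g2.trans ?_⟩
    nlinarith
  have h5 : (count (KClass K) (2 * k) : ℝ) ≤ 2 * count (GClass G K) (2 * k) := by
    exact_mod_cast sG_le2 hG (2 * k)
  have h6 : (count (fun E => GClass G K E ∧ (nOcc Q E : ℝ) ≤ ε / 2 * x) (2 * k) : ℝ) ≤
      fewQ (KClass K) Q (ε * x) (2 * k) := by exact_mod_cast h4
  have hcn : (0 : ℝ) ≤ count (GClass G K) (2 * k) := Nat.cast_nonneg _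
  have he : Real.exp (-(ε * x)) = Real.exp (-(ε / 2 * x)) * Real.exp (-(ε / 2 * x)) := by
    rw [← Real.exp_add]
    congr 1
    ring
  calc _ ≤ Real.exp (-(ε * x)) * (count (KClass K) (2 * k) : ℝ) := h6.trans h3
    _ ≤ Real.exp (-(ε * x)) * (2 * count (GClass G K) (2 * k)) :=
        mul_le_mul_of_nonneg_left h5 (by positivity)
    _ = (2 * Real.exp (-(ε / 2 * x))) * (Real.exp (-(ε / 2 * x)) *
        count (GClass G K) (2 * k)) := by rw [he]; ring
    _ ≤ 1 * (Real.exp (-(ε / 2 * x)) * count (GClass G K) (2 * k)) :=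
        mul_le_mul_of_nonneg_right hk2 (by positivity)
    _ = _ := one_mul _

end

end Pool.Agent.LK
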