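import Pool.Agent.MP_aea6d5_co.RKesten
import Pool.Agent.MP_aea6d5_co.SAna

/-! # All knot types: pointwise forms of the exchange inequality and of Kesten's inequality -/

set_option autoImplicit false

open Filter Topology

namespace Pool.Agent.LK

/-- Kesten's inequality at a single length. -/
theorem sKes_point (h0 : LocalFacts) (h1 : DiffStatement) (h2 : ExchangeStatement) {ε c : ℝ}
    (hε : 0 < ε) (hc0 : 0 < c) (hc1 : c < 1) :
    ∃ A : ℝ, 0 ≤ A ∧ ∀ᶠ k : ℕ in atTop, ∀ C : Finset (Sym2 P3) → Prop, BumpClass C →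
      0 < count C (2 * k) →
      (few C ε (2 * k) : ℝ) ≤ c ^ k * (count C (2 * k) : ℝ) →
      (few C ε (2 * (k + 1)) : ℝ) ≤ c ^ (k + 1) * (count C (2 * (k + 1)) : ℝ) →
      (count C (2 * k + 2) : ℝ) / (count C (2 * k) : ℝ) - A / k ≤
        (count C (2 * k + 4) : ℝ) / (count C (2 * k + 2) : ℝ) := by
  classical
  obtain ⟨D, hD⟩ := h1
  set A1 : ℝ := 24 * D / ε ^ 2 with hA1
  set A2 : ℝ := 144 / ε ^ 2 * (3 * D / ε + 2 * D ^ 2 / ε ^ 2) + 12 / ε * (D / ε) with hA2
  have hA10 : 0 ≤ A1 := by positivity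
  have hA20 : 0 ≤ A2 := by positivity
  set M : ℝ := 2 * (12 / ε + 24 + A1) with hM
  have hM0 : 0 ≤ M := by positivity
  set B : ℝ := M + 24 + A1 with hB
  have hB0 : 0 ≤ B := by positivity
  refine ⟨2 * B + A2, by positivity, ?_⟩
  have hlim : ∀ᶠ k : ℕ in atTop, (k : ℝ) ^ 2 * c ^ k ≤ 1 := by
    have := tendsto_pow_const_mul_const_pow_of_lt_one 2 hc0.le hc1
    filter_upwards [this.eventually (gt_mem_nhds (zero_lt_one))] with k hk
    exact hk.le
  have hlarge : ∀ᶠ k : ℕ in atTop, 2 * (D : ℝ) / ε ≤ k := (tendsto_natCast_atTop_atTop (R := ℝ)).eventually_ge_atTop _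
  filter_upwards [hlim, hlarge, eventually_ge_atTop 2] with k h6 h7 h8
  intro C hC h3 h4 h5
  have hk : (2 : ℝ) ≤ k := by exact_mod_cast h8
  have hk0 : (0 : ℝ) < k := by linarith
  have hDn : 2 * (D : ℝ) ≤ ε * ((2 * k : ℕ) : ℝ) := by
    rw [div_le_iff₀ hε] at h7
    push_cast
    nlinarith
  have up := kUpper h0 h2 hC hD hε (n := 2 * k) (by omega) hDn
  have lo := kLower h0 h2 hC hD hε (n := 2 * k) (by omega)
  have hmono : (count C (2 * k) : ℝ) ≤ (count C (2 * k + 2) : ℝ) := by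
    exact_mod_cast count_mono hC.kMove (2 * k)
  set P : ℝ := (count C (2 * k) : ℝ) with hP
  set Q : ℝ := (count C (2 * k + 2) : ℝ) with hQ
  set T : ℝ := (count C (2 * k + 4) : ℝ) with hT
  set S1 : ℝ := ∑ E ∈ U C (2 * k), kx ε (2 * k) E with hS1
  set S2 : ℝ := ∑ E ∈ U C (2 * k), kx ε (2 * k) E ^ 2 with hS2
  have hP0 : 0 < P := by rw [hP]; exact_mod_cast h3
  have hQ0 : 0 < Q := hP0.trans_le hmono
  have hck0 : 0 ≤ c ^ k := by positivity
  have hck : c ^ k ≤ 1 / k ^ 2 := by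
    rw [le_div_iff₀ (by positivity)]
    linarith
  have hx0 : ∀ E, 0 ≤ kx ε (2 * k) E := by
    intro E
    unfold kx
    split_ifs
    · exact le_rfl
    · positivity
  have hS10 : 0 ≤ S1 := Finset.sum_nonneg fun E _ => hx0 E
  have hcs : S1 ^ 2 ≤ P * S2 := by
    rw [hS1, hS2, hP, ← card_U' hC.poly]
    exact sq_sum_le_card_mul_sum_sq
  have hS1P : S1 ≤ 12 / ε * P := by
    rw [hS1, hP, ← card_U' hC.poly, Finset.card_eq_sum_ones]
    push_cast
    rw [Finset.mul_sum]
    refine Finset.sum_le_sum fun E hE => ?_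
    rw [mem_U' hC.poly] at hE
    have hPo := hC.poly E hE.1
    have hb : (nSpot E : ℝ) ≤ 12 * ((2 * k : ℕ) : ℝ) := by
      have := h0.nSpot_le E hPo
      rw [hE.2.1] at this
      exact_mod_cast this
    unfold kx
    split_ifs with h
    · positivity
    · push Not at h
      have hnp : (0 : ℝ) < ((2 * k : ℕ) : ℝ) := by push_cast; linarith
      have ha : (0 : ℝ) < nU E := (mul_pos hε hnp).trans h
      rw [mul_one, div_le_div_iff₀ ha hε]
      nlinarith
  -- the few polygons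
  have h4' : 12 * ((2 * k : ℕ) : ℝ) * (few C ε (2 * k) : ℝ) ≤ 24 / k * P := by
    calc 12 * ((2 * k : ℕ) : ℝ) * (few C ε (2 * k) : ℝ)
        ≤ 12 * ((2 * k : ℕ) : ℝ) * (c ^ k * P) := by
          apply mul_le_mul_of_nonneg_left h4 (by positivity)
      _ ≤ 12 * ((2 * k : ℕ) : ℝ) * (1 / k ^ 2 * P) := by
          apply mul_le_mul_of_nonneg_left _ (by positivity)
          exact mul_le_mul_of_nonneg_right hck hP0.le
      _ = 24 / k * P := by
          push_cast
          field_simp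
          ring
  have h5' : (few C ε (2 * k + 2) : ℝ) ≤ 1 / k * Q := by
    have e1 : 2 * (k + 1) = 2 * k + 2 := by ring
    rw [e1] at h5
    refine h5.trans ?_
    apply mul_le_mul_of_nonneg_right _ hQ0.le
    calc c ^ (k + 1) = c ^ k * c := pow_succ _ _
      _ ≤ c ^ k * 1 := mul_le_mul_of_nonneg_left hc1.le hck0
      _ ≤ 1 / k ^ 2 := by rw [mul_one]; exact hck
      _ ≤ 1 / k := by
          apply one_div_le_one_div_of_le hk0
          nlinarith
  have hAk : A1 / ((2 * k : ℕ) : ℝ) ≤ A1 / k := by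
    apply div_le_div_of_nonneg_left hA10 hk0
    push_cast; linarith
  have hA2k : A2 / ((2 * k : ℕ) : ℝ) ≤ A2 / k := by
    apply div_le_div_of_nonneg_left hA20 hk0
    push_cast; linarith
  have up' : Q ≤ 1 / k * Q + 24 / k * P + S1 + A1 / k * P := by
    have := mul_le_mul_of_nonneg_right hAk hP0.le
    linarith
  have lo' : S2 - A2 / k * P ≤ T := by
    have := mul_le_mul_of_nonneg_right hA2k hP0.le
    linarith
  -- the ratios
  set r : ℝ := Q / P with hr
  set w : ℝ := S1 / P with hw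
  have hQr : Q = r * P := by rw [hr]; field_simp
  have hSw : S1 = w * P := by rw [hw]; field_simp
  have hr1 : 1 ≤ r := by rw [hr, le_div_iff₀ hP0]; linarith
  have hw0 : 0 ≤ w := div_nonneg hS10 hP0.le
  have hwle : w ≤ 12 / ε := by rw [hw, div_le_iff₀ hP0]; exact hS1P
  have upr : r ≤ 1 / k * r + 24 / k + w + A1 / k := by
    rw [hQr, hSw] at up'
    have : r * P ≤ (1 / k * r + 24 / k + w + A1 / k) * P := by linarith
    exact le_of_mul_le_mul_right this hP0
  have hkinv : 1 / (k : ℝ) ≤ 1 / 2 := one_div_le_one_div_of_le (by norm_num) hk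
  have hkinv0 : 0 ≤ 1 / (k : ℝ) := by positivity
  have hrM : r ≤ M := by
    have e1 : 24 / (k : ℝ) = 24 * (1 / k) := by ring
    have e2 : A1 / (k : ℝ) = A1 * (1 / k) := by ring
    rw [e1, e2] at upr
    have e3 : 1 / (k : ℝ) * r ≤ 1 / 2 * r := mul_le_mul_of_nonneg_right hkinv (by linarith)
    have e4 : A1 * (1 / (k : ℝ)) ≤ A1 * (1 / 2) := mul_le_mul_of_nonneg_left hkinv hA10
    rw [hM]
    linarith
  have hrw : r ≤ w + B / k := by
    have e3 : 1 / (k : ℝ) * r ≤ 1 / (k : ℝ) * M := mul_le_mul_of_nonneg_left hrM hkinv0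
    have e4 : B / k = 1 / (k : ℝ) * M + 24 / k + A1 / k := by rw [hB]; ring
    rw [e4]
    linarith
  have hδ : 0 ≤ B / (k : ℝ) := by positivity
  have hw2 : r ^ 2 - 2 * r * (B / k) ≤ w ^ 2 := by
    by_cases hwr : r ≤ w
    · nlinarith [mul_nonneg (by linarith : (0 : ℝ) ≤ r) hδ]
    · push Not at hwr
      nlinarith [mul_nonneg hδ (by linarith : (0 : ℝ) ≤ r - w),
        mul_nonneg (by linarith : (0 : ℝ) ≤ w - r + B / k) (by linarith : (0 : ℝ) ≤ w + r)]
  have hwS : w ^ 2 * P ≤ S2 := by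
    have : w ^ 2 * P * P ≤ S2 * P := by
      calc w ^ 2 * P * P = S1 ^ 2 := by rw [hSw]; ring
        _ ≤ P * S2 := hcs
        _ = S2 * P := by ring
    exact le_of_mul_le_mul_right this hP0
  have hTP : (w ^ 2 - A2 / k) * P ≤ T := by
    have : (w ^ 2 - A2 / k) * P = w ^ 2 * P - A2 / k * P := by ring
    linarith
  have hfin : (r - (2 * B + A2) / k) * Q ≤ T := by
    refine le_trans ?_ hTP
    rw [hQr]
    have : (r - (2 * B + A2) / k) * r ≤ w ^ 2 - A2 / k := by
      have e1 : (r - (2 * B + A2) / k) * r = r ^ 2 - 2 * r * (B / k) - A2 / k * r := by ring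
      rw [e1]
      have e2 : A2 / k * 1 ≤ A2 / k * r := mul_le_mul_of_nonneg_left hr1 (by positivity)
      linarith
    calc (r - (2 * B + A2) / k) * (r * P) = ((r - (2 * B + A2) / k) * r) * P := by ring
      _ ≤ _ := mul_le_mul_of_nonneg_right this hP0.le
  change r - (2 * B + A2) / k ≤ T / Q
  rw [le_div_iff₀ hQ0]
  exact hfin



/-- The exchange inequality: the ratio of consecutive counts is bounded, up to the polygons with
few U-shapes. -/
theorem sExch (h0 : LocalFacts) (h2 : ExchangeStatement) {C : Finset (Sym2 P3) → Prop}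
    (hC : BumpClass C) {ε : ℝ} (hε : 0 < ε) (n : ℕ) :
    (count C (n + 2) : ℝ) ≤ few C ε (n + 2) + 12 / ε * count C n := by
  classical
  have hn : (0 : ℝ) < ((n + 2 : ℕ) : ℝ) := by positivity
  have e := h2 C hC (fun _ => 1) (fun _ _ => rfl) n
  simp only [mul_one] at e
  have hr : ∑ E ∈ U C n, ∑ _q ∈ spots E, (1 : ℝ) ≤ 12 * n * count C n := by
    rw [← card_U' hC.poly n, Finset.card_eq_sum_ones]
    push_cast
    rw [Finset.mul_sum]
    refine Finset.sum_le_sum fun E hE => ?_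
    rw [mem_U' hC.poly] at hE
    rw [Finset.sum_const, kCard_spots h0, nsmul_eq_mul, mul_one, mul_one]
    have := h0.nSpot_le E (hC.poly E hE.1)
    rw [hE.2.1] at this
    exact_mod_cast this
  have hl : ε * ((n + 2 : ℕ) : ℝ) * (count C (n + 2) - few C ε (n + 2)) ≤
      ∑ E ∈ U C (n + 2), (nU E : ℝ) := by
    rw [kFew_eq, ← card_U' hC.poly (n + 2), Finset.card_eq_sum_ones]
    push_cast
    rw [← Finset.sum_sub_distrib, Finset.mul_sum]
    refine Finset.sum_le_sum fun E _ => ?_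
    by_cases h : (nU E : ℝ) ≤ ε * ((n : ℝ) + 2)
    · rw [if_pos h, sub_self, mul_zero]
      exact Nat.cast_nonneg _
    · rw [if_neg h, sub_zero, mul_one]
      push Not at h
      exact h.le
  have h3 : ε * ((n + 2 : ℕ) : ℝ) * (count C (n + 2) - few C ε (n + 2)) ≤
      12 * ((n + 2 : ℕ) : ℝ) * count C n := by
    refine hl.trans (e.le.trans (hr.trans ?_))
    refine mul_le_mul_of_nonneg_right ?_ (Nat.cast_nonneg _)
    push_cast
    linarith
  have h4 : ε * (count C (n + 2) - few C ε (n + 2)) ≤ 12 * (count C n : ℝ) := by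
    refine le_of_mul_le_mul_left ?_ hn
    calc ((n + 2 : ℕ) : ℝ) * (ε * (count C (n + 2) - few C ε (n + 2)))
        = ε * ((n + 2 : ℕ) : ℝ) * (count C (n + 2) - few C ε (n + 2)) := by ring
      _ ≤ _ := h3
      _ = _ := by ring
  have h5 : (count C (n + 2) : ℝ) - few C ε (n + 2) ≤ 12 / ε * count C n := by
    rw [div_mul_eq_mul_div, le_div_iff₀ hε]
    linarith
  linarith

end Pool.Agent.LK
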