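import Pool.Agent.MP_aea6d5_co.SWin
import Pool.Agent.MP_aea6d5_co.CCount

/-! # Occurrences of a finite set of edges; classes to which unknotted polygons can be joined -/

set_option autoImplicit false

open Filter Topology

namespace Pool.Agent.LK

/-! ### Occurrences -/

/-- The translations which carry `Q` into `E`. -/
def occs (Q E : Finset (Sym2 P3)) : Set P3 := {t | shift t Q ⊆ E}

/-- The number of translates of `Q` in `E`. -/
noncomputable def nOcc (Q E : Finset (Sym2 P3)) : ℕ := (occs Q E).ncard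

theorem occs_finite {Q : Finset (Sym2 P3)} (hQ : Q.Nonempty) (E : Finset (Sym2 P3)) :
    (occs Q E).Finite := by
  obtain ⟨e, he⟩ := hQ
  induction e using Sym2.ind with
  | _ x y =>
    refine ((verts_finite E).preimage (f := fun t => x + t) ?_).subset ?_
    · exact fun a _ b _ h => add_left_cancel h
    · intro t ht
      have h1 : s(x + t, y + t) ∈ shift t Q := by
        rw [mem_shift]
        simpa using he
      exact ⟨y + t, ht h1⟩

theorem mem_occs {Q E : Finset (Sym2 P3)} {t : P3} :
    t ∈ occs Q E ↔ ∀ x y, s(x, y) ∈ Q → s(x + t, y + t) ∈ E := by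
  constructor
  · intro h x y hxy
    apply h
    rw [mem_shift]
    simpa using hxy
  · intro h f hf
    induction f using Sym2.ind with
    | _ u v =>
      rw [mem_shift] at hf
      have := h _ _ hf
      simpa using this

theorem occs_shift {Q E : Finset (Sym2 P3)} {s t : P3} :
    t ∈ occs Q (shift s E) ↔ t - s ∈ occs Q E := by
  rw [mem_occs, mem_occs]
  refine forall_congr' fun x => forall_congr' fun y => imp_congr_right fun _ => ?_
  rw [mem_shift]
  have e : ∀ x : P3, x + t - s = x + (t - s) := fun x => by abel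
  rw [e, e]

theorem nOcc_shift (Q E : Finset (Sym2 P3)) (s : P3) : nOcc Q (shift s E) = nOcc Q E := by
  unfold nOcc
  have : occs Q (shift s E) = (fun t => t + s) '' occs Q E := by
    ext t
    rw [occs_shift]
    constructor
    · intro h; exact ⟨t - s, h, by simp⟩
    · rintro ⟨t', h, rfl⟩
      simpa using h
  rw [this, Set.ncard_image_of_injective _ (add_left_injective s)]

theorem occs_mapE {Q E : Finset (Sym2 P3)} {g : P3 → P3} (hg : Function.Injective g)
    (hadd : ∀ u v, g (u + v) = g u + g v) (t : P3) : g t ∈ occs (mapE g Q) (mapE g E) ↔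
      t ∈ occs Q E := by
  have h1 : shift (g t) (mapE g Q) = mapE g (shift t Q) := by
    unfold shift mapE
    rw [Finset.image_image, Finset.image_image]
    refine Finset.image_congr fun e _ => ?_
    induction e using Sym2.ind with
    | _ x y => simp [hadd]
  have h2 : Function.Injective (mapE g) := mapE_inj hg
  change shift (g t) (mapE g Q) ⊆ mapE g E ↔ shift t Q ⊆ E
  rw [h1]
  exact Finset.image_subset_image_iff (Sym2.map.injective hg)

theorem nOcc_mapE {Q E : Finset (Sym2 P3)} {g : P3 → P3} (hg : Function.Bijective g)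
    (hadd : ∀ u v, g (u + v) = g u + g v) : nOcc (mapE g Q) (mapE g E) = nOcc Q E := by
  unfold nOcc
  have : occs (mapE g Q) (mapE g E) = g '' occs Q E := by
    ext t
    obtain ⟨t', rfl⟩ := hg.2 t
    rw [occs_mapE hg.1 hadd, Set.mem_image]
    constructor
    · intro h; exact ⟨t', h, rfl⟩
    · rintro ⟨s, h, hs⟩
      rwa [← hg.1 hs]
  rw [this, Set.ncard_image_of_injective _ hg.1]

/-- `Q` occurs arbitrarily often in unknotted polygons. -/
def Frequent (Q : Finset (Sym2 P3)) : Prop := ∀ k : ℕ, ∃ F, UClass F ∧ k ≤ nOcc Q F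

theorem Frequent.nonempty {Q : Finset (Sym2 P3)} (h : Frequent Q) : Q.Nonempty := by
  by_contra hQ
  rw [Finset.not_nonempty_iff_eq_empty] at hQ
  obtain ⟨F, -, hF⟩ := h 1
  have : occs Q F = Set.univ := by
    ext t
    simp [occs, hQ, shift, mapE]
  rw [nOcc, this, Set.infinite_univ.ncard] at hF
  omega

/-- Two occurrences far from each other. -/
theorem Frequent.far {Q : Finset (Sym2 P3)} (h : Frequent Q) (r : ℤ) :
    ∃ F, UClass F ∧ Normed F ∧ ∃ q1 ∈ occs Q F, ∃ q2 ∈ occs Q F, ¬ Box r (q1 - q2) := by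
  obtain ⟨F, hF, hk⟩ := h ((boxP r).card + 1)
  have hfar : ∃ q1 ∈ occs Q F, ∃ q2 ∈ occs Q F, ¬ Box r (q1 - q2) := by
    by_contra hcon
    push Not at hcon
    have hne : (occs Q F).Nonempty := by
      rw [← Set.ncard_pos (occs_finite h.nonempty F)]
      exact lt_of_lt_of_le (Nat.succ_pos _) hk
    obtain ⟨q0, hq0⟩ := hne
    have h1 : occs Q F ⊆ (fun x => x + q0) '' (boxP r : Set P3) := by
      intro q hq
      refine ⟨q - q0, ?_, by simp⟩
      rw [Finset.mem_coe, mem_boxP]
      exact hcon q hq q0 hq0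
    have h2 := Set.ncard_le_ncard h1 ((Finset.finite_toSet _).image _)
    have h3 := Set.ncard_image_le (f := fun x => x + q0) (Finset.finite_toSet (boxP r))
    rw [Set.ncard_coe_finset] at h3
    have : nOcc Q F = (occs Q F).ncard := rfl
    omega
  obtain ⟨q1, h1, q2, h2, h3⟩ := hfar
  obtain ⟨s, hs⟩ := exists_normed hF.1.verts_nonempty
  refine ⟨shift s F, unknotClosedZ.trans s F hF, hs, q1 + s, ?_, q2 + s, ?_, ?_⟩
  · rw [occs_shift]; simpa using h1
  · rw [occs_shift]; simpa using h2
  · simpa using h3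

/-! ### Attachable classes -/

/-- Classes closed under moves, translations and joins with an unknotted upper part. -/
structure UJoin (C : Finset (Sym2 P3) → Prop) : Prop where
  move : MoveClosed C
  shift : ∀ E, C E → ∀ t : P3, C (shift t E)
  join : ∀ E F x y h, C E → UClass F → Below E F → s((x, y, h), (x + 1, y, h)) ∈ E →
    s((x, y, h + 1), (x + 1, y, h + 1)) ∈ F → C (joinZ E F x y h)

theorem negE_joinZ (E F : Finset (Sym2 P3)) (x y h : ℤ) :
    negE (joinZ E F x y h) = joinZ (negE F) (negE E) (-x - 1) (-y) (-h - 1) := by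
  apply edge_ext
  intro u v
  rw [mem_negE, mem_joinZ, mem_joinZ, mem_negE, mem_negE]
  have key : ∀ p q : P3, s(-u, -v) = s(p, q) ↔ s(u, v) = s(-q, -p) := by
    intro p q
    rw [Sym2.eq_iff, Sym2.eq_iff, neg_eq_iff_eq_neg, neg_eq_iff_eq_neg, neg_eq_iff_eq_neg,
      neg_eq_iff_eq_neg]
    tauto
  simp only [ne_eq, key, Prod.neg_mk]
  have e1 : -(x + 1) = -x - 1 := by ring
  have e2 : -(h + 1) = -h - 1 := by ring
  have e3 : -x - 1 + 1 = -x := by ring
  have e4 : -h - 1 + 1 = -h := by ring
  rw [e1, e2, e3, e4]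
  tauto

theorem Below.neg {E F : Finset (Sym2 P3)} (h : Below E F) : Below (negE F) (negE E) := by
  intro u hu v hv h1 h2
  have := h _ (mem_verts_negE.1 hv) _ (mem_verts_negE.1 hu) (by simp [h1]) (by simp [h2])
  simp only [Prod.snd_neg] at this
  omega

theorem ujoin_K (K : Finset (Sym2 P3)) : UJoin (KClass K) where
  move := KClass.move moveFacts K
  shift := fun E h t => ⟨isPolygon_shift h.1 t, h.2.trans (moveFacts.trans t E)⟩
  join := by
    intro E F x y h hE hF hB he hf
    refine ⟨polyJoinZStatement E F x y h hE.1 hF.1 hB he hf, hE.2.trans ?_⟩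
    have hnF : UClass (negE F) := unknotClosedZ.neg hF
    have h1 := b1Statement (negE F) (negE E) (-x - 1) (-y) (-h - 1) hnF.1 hnF.2
      (isPolygon_negE hE.1) hB.neg ?_ ?_
    · rw [← negE_joinZ] at h1
      exact ((moveFacts.neg E).trans h1).trans (moveFacts.neg _).symm
    · rw [mem_negE, Sym2.eq_swap]
      simp only [Prod.neg_mk, neg_sub, neg_neg]
      have e1 : -(-x - 1 + 1) = x := by ring
      have e2 : (1 : ℤ) - -x = x + 1 := by ring
      have e3 : (1 : ℤ) - -h = h + 1 := by ring
      rw [e1, e2, e3]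
      exact hf
    · rw [mem_negE, Sym2.eq_swap]
      simp only [Prod.neg_mk, neg_sub, neg_neg]
      have e1 : -(-x - 1 + 1) = x := by ring
      have e2 : (1 : ℤ) - -x = x + 1 := by ring
      have e3 : -(-h - 1 + 1) = h := by ring
      rw [e1, e2, e3]
      exact he

/-! ### Symmetries of the knot types -/

/-- The reflection of space which exchanges the last two coordinates. -/
def szR : R3 ≃ₜ R3 where
  toFun p := (p.1, p.2.2, p.2.1)
  invFun p := (p.1, p.2.2, p.2.1)
  left_inv _ := rfl
  right_inv _ := rfl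
  continuous_toFun := by fun_prop
  continuous_invFun := by fun_prop

/-- The same as a linear map. -/
def szL : R3 →ₗ[ℝ] R3 where
  toFun p := (p.1, p.2.2, p.2.1)
  map_add' _ _ := rfl
  map_smul' _ _ := rfl

theorem body_sz (E : Finset (Sym2 P3)) : body (mapE sz E) = szR '' body E :=
  body_mapE szR _ (fun _ => rfl) (fun p q => image_segment ℝ szL.toAffineMap p q) E

theorem KClass.sz {K E : Finset (Sym2 P3)} (h : KClass K E) : KClass K (mapE sz E) :=
  ⟨polyClosedZ.swapYZ E h.1, h.2.trans ⟨szR, (body_sz E).symm⟩⟩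

theorem KClass.sw {K E : Finset (Sym2 P3)} (h : KClass K E) : KClass K (mapE sw E) :=
  ⟨polyClosedZ.swapXY E h.1, h.2.trans (moveFacts.swapXY E)⟩

theorem sz_bij : Function.Bijective sz := ⟨sz_inj, fun u => ⟨sz u, sz_sz u⟩⟩

theorem sw_bij : Function.Bijective sw := ⟨sw_inj, fun u => ⟨sw u, sw_sw u⟩⟩

theorem Frequent.sz {Q : Finset (Sym2 P3)} (h : Frequent Q) : Frequent (mapE sz Q) := by
  intro k
  obtain ⟨F, h1, h2⟩ := h k
  exact ⟨mapE LK.sz F, unknotClosedZ.swapYZ F h1, by
    rwa [nOcc_mapE sz_bij (fun _ _ => rfl)]⟩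

theorem Frequent.sw {Q : Finset (Sym2 P3)} (h : Frequent Q) : Frequent (mapE sw Q) := by
  intro k
  obtain ⟨F, h1, h2⟩ := h k
  exact ⟨mapE LK.sw F, unknotClosedZ.swapXY F h1, by
    rwa [nOcc_mapE sw_bij (fun _ _ => rfl)]⟩

end Pool.Agent.LK
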