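import Pool.Agent.MP_aea6d5_co.SOcc

/-! # Attaching a block with two copies of a pattern: the one step inequality -/

set_option autoImplicit false

open Filter Topology

namespace Pool.Agent.LK

/-- A contact gives a joined polygon; with the second contact point. -/
theorem sJoined {CE CF CR : Finset (Sym2 P3) → Prop} (mE : MoveClosed CE)
    (mF : MoveClosed CF) (negF : ∀ F, CF F → CF (negE F))
    (shiftF : ∀ F, CF F → ∀ t : P3, CF (shift t F))
    (hjoin : ∀ E F x y h, CE E → CF F → Below E F → s((x, y, h), (x + 1, y, h)) ∈ E →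
      s((x, y, h + 1), (x + 1, y, h + 1)) ∈ F → CR (joinZ E F x y h))
    {E F : Finset (Sym2 P3)} (hE : CE E) (hF : CF F)
    {D : Finset P3} (hD : ∀ d, d ∈ D ↔ ∃ u ∈ verts E, ∃ v ∈ verts F, d = u - v) {d N : P3}
    (hd : d ∈ D) (hN0 : 0 ≤ N.2.2) (hN : (2000000 - 1) ^ 2 ≤ nsq N + 2)
    (hfree : ∀ s : P3, nsq s < 2 * dot N s → ∀ t : ℤ, 0 ≤ t → d + s + (0, 0, t) ∉ D) :
    ∃ R E' F' p a w q, Joined CE CF CR E F d R E' F' p a w ∧ q ∈ verts F ∧ d = p - q := by
  obtain ⟨p, hp, q, hq, rfl⟩ := (hD d).1 hd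
  obtain ⟨x, y, z, hFr, h1, h2, h3⟩ := exists_frame N
  have hM : 1000000 ≤ dot N x := by
    have := nsq_le_of_frame hFr h1 h2 h3
    by_contra hlt
    push Not at hlt
    have h0 : 0 ≤ dot N x := by omega
    nlinarith
  obtain ⟨R, E', F', a, w, h⟩ := assemble mE mF negF shiftF hjoin hE hF hp hq hFr h1 h2 h3 hM hN0 (by
    intro s hs t ht u hu v hv he
    exact hfree s hs t ht ((hD _).2 ⟨u, hu, v, hv, he.symm⟩))
  exact ⟨R, E', F', p, a, w, q, h, hq, rfl⟩

/-- A bound for a finite set of points. -/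
theorem exists_box {S : Set P3} (hS : S.Finite) : ∃ r : ℤ, 0 ≤ r ∧ ∀ u ∈ S, Box r u := by
  refine ⟨∑ u ∈ hS.toFinset, (|u.1| + |u.2.1| + |u.2.2|), Finset.sum_nonneg fun u _ => by positivity,
    fun u hu => ?_⟩
  have h1 : |u.1| + |u.2.1| + |u.2.2| ≤ ∑ u ∈ hS.toFinset, (|u.1| + |u.2.1| + |u.2.2|) :=
    Finset.single_le_sum (f := fun u : P3 => |u.1| + |u.2.1| + |u.2.2|)
      (fun u _ => by positivity) (hS.mem_toFinset.2 hu)
  have a1 := abs_nonneg u.1
  have a2 := abs_nonneg u.2.1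
  have a3 := abs_nonneg u.2.2
  exact ⟨by linarith, by linarith, by linarith⟩

theorem cols_finite (E : Finset (Sym2 P3)) : (cols E).Finite := by
  rw [cols_eq]
  exact (verts_finite E).image _

/-- The polygons of the class with at most `N` edges, at most `j` translates of `Q` and at least
`B` columns. -/
noncomputable def sZ (C : Finset (Sym2 P3) → Prop) (Q : Finset (Sym2 P3)) (N : ℕ) (j B : ℝ) :
    Finset (Finset (Sym2 P3)) :=
  open Classical in ((Finset.range (N + 1)).biUnion (fun n => U C n)).filter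
    (fun E => (nOcc Q E : ℝ) ≤ j ∧ B ≤ ((cols E).ncard : ℝ))

theorem mem_sZ {C : Finset (Sym2 P3) → Prop} (hC : ∀ E, C E → IsPolygon E)
    {Q E : Finset (Sym2 P3)} {N : ℕ} {j B : ℝ} : E ∈ sZ C Q N j B ↔
      C E ∧ E.card ≤ N ∧ Normed E ∧ (nOcc Q E : ℝ) ≤ j ∧ B ≤ ((cols E).ncard : ℝ) := by
  classical
  unfold sZ
  rw [Finset.mem_filter, Finset.mem_biUnion]
  constructor
  · rintro ⟨⟨n, hn, h1⟩, h2, h3⟩
    rw [mem_U' hC] at h1
    rw [Finset.mem_range] at hn
    exact ⟨h1.1, by omega, h1.2.2, h2, h3⟩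
  · rintro ⟨h1, h2, h3, h4, h5⟩
    exact ⟨⟨E.card, Finset.mem_range.2 (by omega), (mem_U' hC).2 ⟨h1, rfl, h3⟩⟩, h4, h5⟩

theorem card_sZ_le {C : Finset (Sym2 P3) → Prop} (hC : ∀ E, C E → IsPolygon E)
    (Q : Finset (Sym2 P3)) (N : ℕ) (j B : ℝ) :
    (sZ C Q N j B).card ≤ ∑ n ∈ Finset.range (N + 1), count C n := by
  classical
  unfold sZ
  refine (Finset.card_filter_le _ _).trans (Finset.card_biUnion_le.trans ?_)
  exact Finset.sum_le_sum fun n _ => (card_U' hC n).le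

/-- Locality of the number of occurrences. -/
theorem nOcc_local {Q E F R : Finset (Sym2 P3)} (hQ : Q.Nonempty) {a : P3} {rQ ρ : ℤ}
    (hrQ : ∀ u ∈ verts Q, Box rQ u) (hF : ∀ u ∈ verts F, Box ρ (u - a))
    (hρ : 1000 ≤ ρ) (h : ChangedIn a 1000 (E ∪ F) R) :
    nOcc Q R ≤ nOcc Q E + (boxP (ρ + rQ)).card := by
  have hsub : occs Q R ⊆ occs Q E ∪ (fun x => x + a) '' (boxP (ρ + rQ) : Set P3) := by
    intro t ht
    by_cases hE : t ∈ occs Q E
    · exact Or.inl hE
    right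
    rw [mem_occs] at hE ht
    push Not at hE
    obtain ⟨x, y, hxy, hnE⟩ := hE
    have hR := ht x y hxy
    have hb : Box ρ (x + t - a) := by
      by_cases hF' : s(x + t, y + t) ∈ F
      · exact hF _ (left_mem_verts hF')
      · have h1 : s(x + t, y + t) ∉ E ∪ F := by
          rw [Finset.mem_union]; tauto
        exact (h _ _ (Or.inr ⟨h1, hR⟩)).1.mono hρ
    refine ⟨t - a, ?_, by simp⟩
    rw [Finset.mem_coe, mem_boxP]
    have e : t - a = (x + t - a) - x := by abel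
    rw [e]
    exact hb.sub (hrQ x (left_mem_verts hxy))
  have h1 := Set.ncard_le_ncard hsub ((occs_finite hQ E).union ((Finset.finite_toSet _).image _))
  have h2 := Set.ncard_image_le (f := fun x => x + a) (Finset.finite_toSet (boxP (ρ + rQ)))
  rw [Set.ncard_coe_finset] at h2
  have h3 := Set.ncard_union_le (occs Q E) ((fun x => x + a) '' (boxP (ρ + rQ) : Set P3))
  unfold nOcc
  omega

/-- Locality of the number of columns. -/
theorem cols_local {E F R : Finset (Sym2 P3)} {a : P3} (h : ChangedIn a 1000 (E ∪ F) R) :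
    (cols E).ncard ≤ (cols R).ncard + (boxP 1000).card := by
  have hsub : cols E ⊆ cols R ∪ (fun x : P3 => (x.1 + a.1, x.2.1 + a.2.1)) '' (boxP 1000 : Set P3) := by
    rintro c ⟨z, v, hv⟩
    by_cases hR : s((c.1, c.2, z), v) ∈ R
    · exact Or.inl ⟨z, v, hR⟩
    right
    have h1 := (h _ _ (Or.inl ⟨Finset.mem_union_left _ hv, hR⟩)).1
    refine ⟨(c.1, c.2, z) - a, ?_, by simp⟩
    rw [Finset.mem_coe, mem_boxP]
    exact h1
  have h1 := Set.ncard_le_ncard hsub ((cols_finite R).union ((Finset.finite_toSet _).image _))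
  have h2 := Set.ncard_image_le (f := fun x : P3 => (x.1 + a.1, x.2.1 + a.2.1))
    (Finset.finite_toSet (boxP 1000))
  rw [Set.ncard_coe_finset] at h2
  have h3 := Set.ncard_union_le (cols R)
    ((fun x : P3 => (x.1 + a.1, x.2.1 + a.2.1)) '' (boxP 1000 : Set P3))
  omega

theorem cols_shift_ncard (E : Finset (Sym2 P3)) (s : P3) :
    (cols (shift s E)).ncard = (cols E).ncard := by
  have : cols (shift s E) = (fun c : ℤ × ℤ => (c.1 + s.1, c.2 + s.2.1)) '' cols E := by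
    rw [cols_eq, cols_eq, Set.image_image]
    ext c
    simp only [Set.mem_image]
    constructor
    · rintro ⟨u, hu, rfl⟩
      exact ⟨u - s, mem_verts_shift.1 hu, by simp⟩
    · rintro ⟨u, hu, rfl⟩
      exact ⟨u + s, mem_verts_shift.2 (by simpa using hu), by simp⟩
  rw [this, Set.ncard_image_of_injective]
  intro c c' h
  simp only [Prod.mk.injEq, add_left_inj] at h
  exact Prod.ext h.1 h.2

/-- One of two far copies of `Q` survives. -/
theorem occ_survives {Q F E R : Finset (Sym2 P3)} {a w q1 q2 : P3} {rQ : ℤ}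
    (hrQ : ∀ u ∈ verts Q, Box rQ u) (h1 : q1 ∈ occs Q F) (h2 : q2 ∈ occs Q F)
    (hfar : ¬ Box (2000 + 2 * rQ) (q1 - q2)) (h : ChangedIn a 1000 (E ∪ shift w F) R) :
    q1 + w ∈ occs Q R ∨ q2 + w ∈ occs Q R := by
  by_contra hcon
  push Not at hcon
  obtain ⟨n1, n2⟩ := hcon
  have key : ∀ q ∈ occs Q F, q + w ∉ occs Q R → ∃ x ∈ verts Q, Box 1000 (x + (q + w) - a) := by
    intro q hq hn
    rw [mem_occs] at hn hq
    push Not at hn
    obtain ⟨x, y, hxy, hR⟩ := hn
    have h3 : s(x + (q + w), y + (q + w)) ∈ E ∪ shift w F := by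
      rw [Finset.mem_union, mem_shift]
      right
      have e : ∀ x : P3, x + (q + w) - w = x + q := fun x => by abel
      rw [e, e]
      exact hq x y hxy
    exact ⟨x, left_mem_verts hxy, (h _ _ (Or.inl ⟨h3, hR⟩)).1⟩
  obtain ⟨x1, m1, b1⟩ := key q1 h1 n1
  obtain ⟨x2, m2, b2⟩ := key q2 h2 n2
  apply hfar
  have e : q1 - q2 = (x1 + (q1 + w) - a) - (x2 + (q2 + w) - a) - x1 + x2 := by abel
  rw [e]
  exact ((((b1.sub b2).sub (hrQ x1 m1)).add (hrQ x2 m2)).mono (by linarith))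

theorem sPat_arith1 {n j D L : ℝ} (h3 : n ≤ j + D) (hL : 0 ≤ L) : n * L ≤ L * (j + D) := by
  nlinarith

theorem sPat_arith2 {x y z t : ℝ} {K1 L0 : ℕ} (h1 : x ≤ K1 * y) (h2 : y ≤ L0 * t * z)
    (ht : 0 ≤ t) (hz : 0 ≤ z) : x ≤ ((K1 * L0 + 1 : ℕ) : ℝ) * t * z := by
  have h3 : (K1 : ℝ) * y ≤ K1 * (L0 * t * z) := mul_le_mul_of_nonneg_left h2 (Nat.cast_nonneg _)
  have h4 : 0 ≤ t * z := mul_nonneg ht hz
  push_cast
  nlinarith

/-- **The one step inequality.** -/
theorem sStep {Q : Finset (Sym2 P3)} (hQ : Frequent Q) :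
    ∃ D L c1 : ℕ, 0 < L ∧ Even c1 ∧ ∀ C : Finset (Sym2 P3) → Prop, UJoin C →
      ∀ (N : ℕ) (j B : ℝ), 0 ≤ j →
        B * ((sZ C Q N j B).card : ℝ) ≤
          L * (j + D) * ((sZ C Q (N + c1) (j + D) (B - D)).card : ℝ) := by
  classical
  have hU : ClosedZ UClass := unknotClosedZ
  obtain ⟨rQ, hrQ0, hrQ⟩ := exists_box (verts_finite Q)
  obtain ⟨F0, hF0, hN0, q1, hq1, q2, hq2, hfar⟩ := hQ.far (2000 + 2 * rQ)
  obtain ⟨rF, hrF0, hrF⟩ := exists_box ((verts_finite F0).union (Set.toFinite {q1, q2}))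
  have hrF1 : ∀ u ∈ verts F0, Box rF u := fun u hu => hrF u (Or.inl hu)
  have hrq1 : Box rF q1 := hrF q1 (Or.inr (by simp))
  have hrq2 : Box rF q2 := hrF q2 (Or.inr (by simp))
  obtain ⟨B0, hB0⟩ : ∃ B0 : ℕ, ∀ (a : P3) (E E' : Finset (Sym2 P3)), ChangedIn a 1000 E E' →
      E'.card ≤ E.card + B0 := ⟨_, fun a E E' h => h.card_le⟩
  obtain ⟨K1, hT⟩ : ∃ K1 : ℕ, ∀ E : Finset (Sym2 P3), ∃ T ⊆ diffs E F0,
      ((diffs E F0).image (fun d => (d.1, d.2.1))).card ≤ K1 * T.card ∧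
      ∀ d0 ∈ T, ∃ N : P3, 0 ≤ N.2.2 ∧ (2000000 - 1) ^ 2 ≤ nsq N + 2 ∧
        ∀ s : P3, nsq s < 2 * dot N s → ∀ t : ℤ, 0 ≤ t → d0 + s + (0, 0, t) ∉ diffs E F0 :=
    ⟨_, fun E => contactProp 2000000 (by norm_num) (diffs E F0)⟩
  -- the constants
  set ρ : ℤ := 2000 + 2 * rF with hρ
  obtain ⟨D, hD⟩ : ∃ D : ℕ, D = (boxP (ρ + rQ)).card + (boxP 1000).card := ⟨_, rfl⟩
  obtain ⟨L0, hL0⟩ : ∃ L0 : ℕ, L0 = (boxP ρ).card *
      ((boxE 1000).powerset.card * ((boxP 1000).card * (boxP 1000).card)) := ⟨_, rfl⟩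
  set c1 : ℕ := 2 * (F0.card + B0) with hc1
  refine ⟨D, K1 * L0 + 1, c1, Nat.succ_pos _, even_two_mul _, ?_⟩
  intro C hC N j B hj
  have hCp := hC.move.poly
  choose T hTD hTcard hTN using hT
  set Z := sZ C Q N j B with hZ
  set Z' := sZ C Q (N + c1) (j + D) (B - D) with hZ'
  set X : Finset (Σ _ : Finset (Sym2 P3), P3) := Z.sigma (fun q => T q) with hX
  have memX : ∀ x ∈ X, x.1 ∈ Z ∧ x.2 ∈ T x.1 := by
    intro x hx
    rw [hX, Finset.mem_sigma] at hx
    exact hx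
  -- the joined polygons
  have hJ : ∀ x : (Σ _ : Finset (Sym2 P3), P3), ∃ R E' F' p a w q s, x ∈ X →
      (Joined C UClass C x.1 F0 x.2 R E' F' p a w ∧ q ∈ verts F0 ∧ x.2 = p - q) ∧
        Normed (shift s R) := by
    intro x
    by_cases hx : x ∈ X
    · obtain ⟨h1, h3⟩ := memX x hx
      rw [mem_sZ hCp] at h1
      obtain ⟨N, hN0, hN, hfree⟩ := hTN _ _ h3
      obtain ⟨R, E', F', p, a, w, q, h⟩ := sJoined hC.move hU.move (fun _ => hU.neg)
        (fun F hF t => hU.trans t F hF) hC.join h1.1 hF0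
        (fun d => mem_diffs) (hTD _ h3) hN0 hN hfree
      obtain ⟨s, hs⟩ := exists_normed (hCp _ h.1.cR).verts_nonempty
      exact ⟨R, E', F', p, a, w, q, s, fun _ => ⟨h, hs⟩⟩
    · exact ⟨∅, ∅, ∅, 0, 0, 0, 0, 0, fun h => absurd h hx⟩
  choose R E' F' p a w q s hJ using hJ
  -- the position of the block
  have hwa : ∀ x ∈ X, Box (2000 + rF) (w x - a x) := by
    intro x hx
    obtain ⟨⟨h, hq, hd⟩, -⟩ := hJ x hx
    have e : w x - a x = (w x - x.2) + (p x - a x) - q x := by rw [hd]; abel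
    rw [e]
    exact ((h.wd.add h.pa).sub (hrF1 _ hq)).mono (by linarith)
  have hFa : ∀ x ∈ X, ∀ u ∈ verts (shift (w x) F0), Box ρ (u - a x) := by
    intro x hx u hu
    have h1 := hrF1 _ (mem_verts_shift.1 hu)
    have e : u - a x = (u - w x) + (w x - a x) := by abel
    rw [e]
    exact (h1.add (hwa x hx)).mono (by linarith)
  have hmaps : ∀ x ∈ X, shift (s x) (R x) ∈ Z' := by
    intro x hx
    obtain ⟨h1, h3⟩ := memX x hx
    rw [mem_sZ hCp] at h1
    obtain ⟨g1, g2, g3, g4, g5⟩ := h1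
    obtain ⟨⟨h, hq, hd⟩, hs⟩ := hJ x hx
    rw [mem_sZ hCp]
    refine ⟨hC.shift _ h.cR _, ?_, hs, ?_, ?_⟩
    · rw [card_shift]
      have c2 := hB0 _ _ _ h.ch
      rw [h.card_union] at c2
      omega
    · rw [nOcc_shift]
      have := nOcc_local hQ.nonempty hrQ (hFa x hx) (by linarith) h.ch
      have h5 : nOcc Q (R x) ≤ nOcc Q x.1 + D := by omega
      have h6 : (nOcc Q (R x) : ℝ) ≤ nOcc Q x.1 + D := by exact_mod_cast h5
      linarith
    · rw [cols_shift_ncard]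
      have := cols_local h.ch
      have h5 : (cols x.1).ncard ≤ (cols (R x)).ncard + D := by omega
      have h6 : ((cols x.1).ncard : ℝ) ≤ (cols (R x)).ncard + D := by exact_mod_cast h5
      linarith
  have hfiber : ∀ G ∈ Z', (X.filter (fun x => shift (s x) (R x) = G)).card ≤ nOcc Q G * L0 := by
    intro G _
    set cod : Finset (P3 × Finset (Sym2 P3) × P3 × P3) :=
      (((occs_finite hQ.nonempty G).toFinset ×ˢ boxP ρ).image (fun z => z.1 + z.2)) ×ˢ
        (boxE 1000).powerset ×ˢ boxP 1000 ×ˢ boxP 1000 with hcod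
    have hcodc : cod.card ≤ nOcc Q G * L0 := by
      rw [hcod, Finset.card_product, Finset.card_product, Finset.card_product, hL0]
      have h1 : (((occs_finite hQ.nonempty G).toFinset ×ˢ boxP ρ).image
          (fun z => z.1 + z.2)).card ≤ nOcc Q G * (boxP ρ).card := by
        refine Finset.card_image_le.trans ?_
        rw [Finset.card_product, nOcc, Set.ncard_eq_toFinset_card _ (occs_finite hQ.nonempty G)]
      calc _ ≤ (nOcc Q G * (boxP ρ).card) * ((boxE 1000).powerset.card *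
            ((boxP 1000).card * (boxP 1000).card)) := Nat.mul_le_mul_right _ h1
        _ = _ := by ring
    refine le_trans ?_ hcodc
    refine Finset.card_le_card_of_injOn (fun x => (a x + s x,
      pat x.1 F0 (a x) (w x), p x - a x, w x - x.2)) ?_ ?_
    · intro x hx
      rw [Finset.mem_coe, Finset.mem_filter] at hx
      obtain ⟨⟨h, hq, hd⟩, -⟩ := hJ x hx.1
      rw [Finset.mem_coe, hcod, Finset.mem_product, Finset.mem_product, Finset.mem_product,
        Finset.mem_powerset, mem_boxP, mem_boxP]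
      refine ⟨?_, Finset.inter_subset_left, h.pa, h.wd⟩
      simp only
      rw [Finset.mem_image]
      have hkey : ∀ q0 : P3, Box rF q0 → q0 + w x ∈ occs Q (R x) →
          ∃ z ∈ (occs_finite hQ.nonempty G).toFinset ×ˢ boxP ρ, z.1 + z.2 = a x + s x := by
        intro q0 hb hocc
        refine ⟨(q0 + w x + s x, a x - w x - q0), ?_, by simp only; abel⟩
        rw [Finset.mem_product, Set.Finite.mem_toFinset, mem_boxP]
        refine ⟨?_, ?_⟩
        · rw [← hx.2, occs_shift]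
          simpa using hocc
        · have e : a x - w x - q0 = -(w x - a x) - q0 := by abel
          simp only
          rw [e]
          exact ((hwa x hx.1).neg.sub hb).mono (by linarith)
      rcases occ_survives hrQ hq1 hq2 hfar h.ch with h5 | h5
      · exact hkey q1 hrq1 h5
      · exact hkey q2 hrq2 h5
    · intro x hx x' hx' hxx
      rw [Finset.mem_coe, Finset.mem_filter] at hx hx'
      simp only [Prod.mk.injEq] at hxx
      obtain ⟨e1, e2, e3, e4⟩ := hxx
      obtain ⟨h1, h3⟩ := memX x hx.1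
      obtain ⟨g1, g3⟩ := memX x' hx'.1
      rw [mem_sZ hCp] at h1 g1
      obtain ⟨k1, k2, k3⟩ := decode (hJ x hx.1).1.1 (hJ x' hx'.1).1.1 (hCp _ h1.1) (hCp _ g1.1)
        h1.2.2.1 g1.2.2.1 hN0 hN0 (hx.2.trans hx'.2.symm) e1 e2 e3 e4
      obtain ⟨x1, x3⟩ := x
      obtain ⟨y1, y3⟩ := x'
      simp only at k1 k2 k3
      subst k1 k3
      rfl
  have hup : (X.card : ℝ) ≤ L0 * (j + D) * (Z'.card : ℝ) := by
    have h1 : X.card = ∑ G ∈ Z', (X.filter (fun x => shift (s x) (R x) = G)).card :=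
      Finset.card_eq_sum_card_fiberwise hmaps
    rw [h1]
    push_cast
    calc ∑ G ∈ Z', ((X.filter (fun x => shift (s x) (R x) = G)).card : ℝ)
        ≤ ∑ G ∈ Z', (L0 * (j + D) : ℝ) := by
          refine Finset.sum_le_sum fun G hG => ?_
          have h2 : ((X.filter (fun x => shift (s x) (R x) = G)).card : ℝ) ≤ nOcc Q G * L0 := by
            exact_mod_cast hfiber G hG
          rw [hZ', mem_sZ hCp] at hG
          have h3 := hG.2.2.2.1
          exact h2.trans (sPat_arith1 h3 (Nat.cast_nonneg _))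
      _ = _ := by rw [Finset.sum_const, nsmul_eq_mul]; ring
  have hlow : B * (Z.card : ℝ) ≤ K1 * (X.card : ℝ) := by
    have hXc : X.card = ∑ q ∈ Z, (T q).card := by
      rw [hX, Finset.card_sigma]
    have h1 : ∀ E ∈ Z, B ≤ K1 * ((T E).card : ℝ) := by
      intro E hE
      rw [hZ, mem_sZ hCp] at hE
      have h2 := cols_le (E := E) (F := F0) hF0.1.verts_nonempty
      have h3 := h2.trans (hTcard E)
      refine hE.2.2.2.2.trans ?_
      exact_mod_cast h3
    have h3 : ∑ q ∈ Z, B ≤ ∑ q ∈ Z, (K1 * ((T q).card : ℝ)) :=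
      Finset.sum_le_sum fun q hq => h1 q hq
    rw [Finset.sum_const, nsmul_eq_mul, mul_comm, ← Finset.mul_sum] at h3
    refine h3.trans ?_
    rw [hXc]
    push_cast
    exact le_rfl
  exact sPat_arith2 hlow hup (add_nonneg hj (Nat.cast_nonneg D)) (Nat.cast_nonneg _)

end Pool.Agent.LK
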