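import Pool.Agent.MP_aea6d5_co.SPat

/-! # Arbitrary patterns occur at least `ε n ^ (2/3)` times -/

set_option autoImplicit false

open Filter Topology

namespace Pool.Agent.LK

theorem sIter {Q : Finset (Sym2 P3)} {C : Finset (Sym2 P3) → Prop} {D L c1 : ℕ}
    (hst : ∀ (N : ℕ) (j B : ℝ), 0 ≤ j → B * ((sZ C Q N j B).card : ℝ) ≤
      L * (j + D) * ((sZ C Q (N + c1) (j + D) (B - D)).card : ℝ))
    (N : ℕ) {j B α β : ℝ} (hj : 0 ≤ j) (hα : 0 ≤ α) (hβ : 0 ≤ β) (m : ℕ)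
    (h1 : L * (j + m * D) ≤ α) (h2 : β ≤ B - m * D) :
    β ^ m * ((sZ C Q N j B).card : ℝ) ≤
      α ^ m * ((sZ C Q (N + m * c1) (j + m * D) (B - m * D)).card : ℝ) := by
  induction m with
  | zero => simp
  | succ m ih =>
    push_cast at h1 h2
    have hD0 : (0 : ℝ) ≤ D := Nat.cast_nonneg D
    have hL0 : (0 : ℝ) ≤ L := Nat.cast_nonneg L
    have hm0 : (0 : ℝ) ≤ m := Nat.cast_nonneg m
    have ih' := ih (by nlinarith) (by nlinarith)
    have hjm : 0 ≤ j + m * D := by positivity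
    have hs := hst (N + m * c1) (j + m * D) (B - m * D) hjm
    have e1 : N + m * c1 + c1 = N + (m + 1) * c1 := by ring
    have e2 : j + m * D + D = j + ((m + 1 : ℕ) : ℝ) * D := by push_cast; ring
    have e3 : B - m * D - D = B - ((m + 1 : ℕ) : ℝ) * D := by push_cast; ring
    rw [e1, e2, e3] at hs
    have hW0 : (0 : ℝ) ≤ ((sZ C Q (N + m * c1) (j + m * D) (B - m * D)).card : ℝ) :=
      Nat.cast_nonneg _
    have hW1 : (0 : ℝ) ≤ ((sZ C Q (N + (m + 1) * c1) (j + ((m + 1 : ℕ) : ℝ) * D)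
      (B - ((m + 1 : ℕ) : ℝ) * D)).card : ℝ) := Nat.cast_nonneg _
    have hβB : β ≤ B - m * D := by nlinarith
    have hαL : (L : ℝ) * (j + ((m + 1 : ℕ) : ℝ) * D) ≤ α := by
      push_cast
      linarith
    calc β ^ (m + 1) * ((sZ C Q N j B).card : ℝ) = β * (β ^ m * ((sZ C Q N j B).card : ℝ)) := by
          ring
      _ ≤ β * (α ^ m * ((sZ C Q (N + m * c1) (j + m * D) (B - m * D)).card : ℝ)) :=
        mul_le_mul_of_nonneg_left ih' hβ
      _ = α ^ m * (β * ((sZ C Q (N + m * c1) (j + m * D) (B - m * D)).card : ℝ)) := by ring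
      _ ≤ α ^ m * ((B - m * D) * ((sZ C Q (N + m * c1) (j + m * D) (B - m * D)).card : ℝ)) :=
        mul_le_mul_of_nonneg_left (mul_le_mul_of_nonneg_right hβB hW0) (pow_nonneg hα m)
      _ ≤ α ^ m * (L * (j + ((m + 1 : ℕ) : ℝ) * D) * ((sZ C Q (N + (m + 1) * c1)
          (j + ((m + 1 : ℕ) : ℝ) * D) (B - ((m + 1 : ℕ) : ℝ) * D)).card : ℝ)) :=
        mul_le_mul_of_nonneg_left hs (pow_nonneg hα m)
      _ ≤ α ^ m * (α * ((sZ C Q (N + (m + 1) * c1)
          (j + ((m + 1 : ℕ) : ℝ) * D) (B - ((m + 1 : ℕ) : ℝ) * D)).card : ℝ)) :=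
        mul_le_mul_of_nonneg_left (mul_le_mul_of_nonneg_right hαL hW1) (pow_nonneg hα m)
      _ = _ := by ring

theorem sMono_even {C : Finset (Sym2 P3) → Prop} (hC : MoveClosed C) {a b : ℕ} (hab : a ≤ b)
    (hb : Even b) : count C a ≤ count C b := by
  by_cases ha : Even a
  · obtain ⟨k, rfl⟩ := ha
    obtain ⟨l, rfl⟩ := hb
    have h := count_mono' hC (k + k) (l - k)
    have e : k + k + 2 * (l - k) = l + l := by omega
    rwa [e] at h
  · rw [count_odd hC.poly ha]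
    exact Nat.zero_le _

/-- Comparison of all shorter polygons with those of one even length. -/
theorem sSum_le {C : Finset (Sym2 P3) → Prop} (hC : MoveClosed C) (m : ℕ) :
    ∑ n ∈ Finset.range (2 * m + 1), count C n ≤ (2 * m + 1) * count C (2 * m) := by
  refine (Finset.sum_le_sum (g := fun _ => count C (2 * m)) fun n hn => ?_).trans (le_of_eq ?_)
  · rw [Finset.mem_range] at hn
    exact sMono_even hC (by omega) (even_two_mul m)
  · rw [Finset.sum_const, Finset.card_range, smul_eq_mul]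

/-- Few translates of `Q`: the bound for wide polygons, near the lengths where the growth rate is
attained. -/
theorem sFewQ_wide {Q : Finset (Sym2 P3)} (hQ : Frequent Q) {C : Finset (Sym2 P3) → Prop}
    (hC : BumpClass C) (hCJ : UJoin C) (hg : (15 / 4 : ℝ) ≤ growth C) :
    ∃ ε δ : ℝ, 0 < ε ∧ 0 < δ ∧ δ < 1 ∧ ∀ᶠ m : ℕ in atTop,
      (growth C - δ) ^ (2 * m) ≤ (count C (2 * m) : ℝ) →
        ∀ ε' : ℝ, 0 ≤ ε' → ε' ≤ ε →
        ((sZ C Q (2 * m) (ε' * ((2 * m : ℕ) : ℝ) ^ (2 / 3 : ℝ))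
          (((2 * m : ℕ) : ℝ) ^ (2 / 3 : ℝ))).card : ℝ) ≤
          Real.exp (-(ε * ((2 * m : ℕ) : ℝ) ^ (2 / 3 : ℝ))) * (count C (2 * m) : ℝ) := by
  obtain ⟨D, L, c1, hL, ⟨c2, hc2⟩, hst⟩ := sStep hQ
  obtain ⟨ε0, c, δ, A, N, hε0, -, -, hδ0, hδ1, -, hN, hw⟩ := sWindow hC hg
  have hLR : (0 : ℝ) < L := by exact_mod_cast hL
  -- the constants
  set Cr : ℝ := max 1 (24 / ε0) with hCr
  have hCr1 : 1 ≤ Cr := le_max_left _ _
  have hCr0 : 0 < Cr := by linarith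
  set q : ℝ := 2 * L * (1 + D) * Cr ^ c2 with hq
  have hq0 : 0 < q := by positivity
  set ε : ℝ := min (Real.exp (-2) / q) (1 / (2 * (D + 1))) with hε
  have hεpos : 0 < ε := lt_min (div_pos (Real.exp_pos _) hq0) (by positivity)
  have hεq : ε * q ≤ Real.exp (-2) := by
    rw [← le_div_iff₀ hq0]
    exact min_le_left _ _
  have hεD : ε * D ≤ 1 / 2 := by
    have h1 : ε ≤ 1 / (2 * (D + 1)) := min_le_right _ _
    rw [le_div_iff₀ (by positivity)] at h1
    nlinarith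
  refine ⟨ε, δ, hεpos, hδ0, hδ1, ?_⟩
  -- limits
  have hto : Tendsto (fun m : ℕ => ((2 * m : ℕ) : ℝ)) atTop atTop :=
    tendsto_natCast_atTop_atTop.comp (tendsto_id.const_mul_atTop' (by norm_num))
  have hlim1 : ∀ᶠ m : ℕ in atTop,
      (2 * N * (c2 + 1) : ℝ) * (ε * ((2 * m : ℕ) : ℝ) ^ (2 / 3 : ℝ)) ≤ ((2 * m : ℕ) : ℝ) := by
    have h1 : Tendsto (fun x : ℝ => x ^ (1 / 3 : ℝ)) atTop atTop := tendsto_rpow_atTop (by norm_num)
    filter_upwards [(h1.comp hto).eventually_ge_atTop ((2 * N * (c2 + 1) : ℝ) * ε),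
      eventually_gt_atTop 0] with m hm hm0
    simp only [Function.comp_apply] at hm
    set x : ℝ := ((2 * m : ℕ) : ℝ) with hx
    have hx0 : 0 < x := by rw [hx]; positivity
    have e : x = x ^ (1 / 3 : ℝ) * x ^ (2 / 3 : ℝ) := by
      rw [← Real.rpow_add hx0]; norm_num
    calc (2 * N * (c2 + 1) : ℝ) * (ε * x ^ (2 / 3 : ℝ))
        = ((2 * N * (c2 + 1) : ℝ) * ε) * x ^ (2 / 3 : ℝ) := by ring
      _ ≤ x ^ (1 / 3 : ℝ) * x ^ (2 / 3 : ℝ) := mul_le_mul_of_nonneg_right hm (by positivity)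
      _ = x := e.symm
  have hlim2 : ∀ᶠ m : ℕ in atTop,
      Real.exp 2 * (3 * ((2 * m : ℕ) : ℝ)) *
        Real.exp (-(ε * ((2 * m : ℕ) : ℝ) ^ (2 / 3 : ℝ))) ≤ 1 := by
    have h1 : Tendsto (fun x : ℝ => x ^ (3 / 2 : ℝ) * Real.exp (-ε * x)) atTop (𝓝 0) :=
      tendsto_rpow_mul_exp_neg_mul_atTop_nhds_zero _ _ hεpos
    have h2 : Tendsto (fun x : ℝ => x ^ (2 / 3 : ℝ)) atTop atTop := tendsto_rpow_atTop (by norm_num)
    have h3 := ((h1.comp (h2.comp hto)).const_mul (Real.exp 2 * 3))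
    rw [mul_zero] at h3
    filter_upwards [h3.eventually_le_const one_pos] with m hm
    simp only [Function.comp_apply] at hm
    refine le_trans (le_of_eq ?_) hm
    rw [← Real.rpow_mul (by positivity)]
    norm_num
    ring
  filter_upwards [hw, hlim1, hlim2, eventually_gt_atTop 0] with m hm hm1 hm2 hm0 hlow ε' hε'0 hε'
  set x : ℝ := ((2 * m : ℕ) : ℝ) ^ (2 / 3 : ℝ) with hx
  have hn0 : (0 : ℝ) < ((2 * m : ℕ) : ℝ) := by positivity
  have hx0 : 0 < x := Real.rpow_pos_of_pos hn0 _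
  set M : ℕ := ⌊ε * x⌋₊ with hM
  have hMle : (M : ℝ) ≤ ε * x := Nat.floor_le (by positivity)
  have hMge : ε * x - 1 < M := Nat.sub_one_lt_floor _
  have hM0 : (0 : ℝ) ≤ M := Nat.cast_nonneg _
  -- the window
  have hMc : N * (M * c2) ≤ m := by
    have h1 : ((2 * (N * (M * c2)) : ℕ) : ℝ) ≤ ((2 * m : ℕ) : ℝ) := by
      refine le_trans ?_ hm1
      push_cast
      have h2 : (2 * (N : ℝ)) * (M * c2) ≤ (2 * N) * ((ε * x) * (c2 + 1)) := by
        refine mul_le_mul_of_nonneg_left ?_ (by positivity)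
        exact mul_le_mul hMle (by linarith) (by positivity) (by positivity)
      calc 2 * ((N : ℝ) * (M * c2)) = (2 * (N : ℝ)) * (M * c2) := by ring
        _ ≤ (2 * N) * ((ε * x) * (c2 + 1)) := h2
        _ = _ := by ring
    have h3 : 2 * (N * (M * c2)) ≤ 2 * m := by exact_mod_cast h1
    omega
  have hrat : ∀ i : ℕ, N * i ≤ m → (count C (2 * (m + i)) : ℝ) ≤ Cr ^ i * count C (2 * m) := by
    intro i
    induction i with
    | zero => intro _; simp
    | succ i ih =>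
      intro hi
      have hi' : N * i ≤ m := le_trans (Nat.mul_le_mul_left _ (Nat.le_succ i)) hi
      have h1 := ih hi'
      have h2 := (hm hlow (m + i) (by rw [mul_add, add_mul, one_mul]; omega)
        (Nat.mul_le_mul (by omega) (by omega))).2.2.1
      have e : m + (i + 1) = m + i + 1 := by omega
      rw [e]
      have h3 : (0 : ℝ) ≤ count C (2 * (m + i)) := Nat.cast_nonneg _
      calc (count C (2 * (m + i + 1)) : ℝ) ≤ 24 / ε0 * count C (2 * (m + i)) := h2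
        _ ≤ Cr * count C (2 * (m + i)) := mul_le_mul_of_nonneg_right (le_max_right _ _) h3
        _ ≤ Cr * (Cr ^ i * count C (2 * m)) := mul_le_mul_of_nonneg_left h1 hCr0.le
        _ = _ := by ring
  -- iterate
  have hit := sIter (C := C) (Q := Q) (D := D) (L := L) (c1 := c1) (hst C hCJ) (2 * m)
    (j := ε' * x) (B := x) (α := L * (ε * x * (1 + D))) (β := x / 2) (by positivity)
    (by positivity) (by positivity) M
    (by
      refine mul_le_mul_of_nonneg_left ?_ hLR.le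
      have h1 : ε' * x ≤ ε * x := mul_le_mul_of_nonneg_right hε' hx0.le
      have h2 : (M : ℝ) * D ≤ ε * x * D := mul_le_mul_of_nonneg_right hMle (Nat.cast_nonneg _)
      linarith)
    (by
      have h2 : (M : ℝ) * D ≤ ε * x * D := mul_le_mul_of_nonneg_right hMle (Nat.cast_nonneg _)
      have h3 : ε * x * D = (ε * D) * x := by ring
      have h4 : (ε * D) * x ≤ 1 / 2 * x := mul_le_mul_of_nonneg_right hεD hx0.le
      linarith)
  set Z0 : ℝ := ((sZ C Q (2 * m) (ε' * x) x).card : ℝ) with hZ0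
  have hZ1 : ((sZ C Q (2 * m + M * c1) (ε' * x + M * D) (x - M * D)).card : ℝ) ≤
      (3 * ((2 * m : ℕ) : ℝ)) * (Cr ^ (M * c2) * count C (2 * m)) := by
    have e : 2 * m + M * c1 = 2 * (m + M * c2) := by rw [hc2]; ring
    rw [e]
    have h1 := (card_sZ_le hC.poly Q (2 * (m + M * c2)) (ε' * x + M * D) (x - M * D)).trans
      (sSum_le hC.kMove (m + M * c2))
    have h2 : ((2 * (m + M * c2) + 1 : ℕ) : ℝ) ≤ 3 * ((2 * m : ℕ) : ℝ) := by
      have h3 : M * c2 ≤ m := le_trans (Nat.le_mul_of_pos_left _ hN) hMc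
      exact_mod_cast (by omega : 2 * (m + M * c2) + 1 ≤ 3 * (2 * m))
    calc ((sZ C Q (2 * (m + M * c2)) (ε' * x + M * D) (x - M * D)).card : ℝ)
        ≤ ((2 * (m + M * c2) + 1 : ℕ) : ℝ) * count C (2 * (m + M * c2)) := by exact_mod_cast h1
      _ ≤ (3 * ((2 * m : ℕ) : ℝ)) * (Cr ^ (M * c2) * count C (2 * m)) :=
        mul_le_mul h2 (hrat _ hMc) (Nat.cast_nonneg _) (by positivity)
  have hmain : Z0 ≤ (ε * q) ^ M * (3 * ((2 * m : ℕ) : ℝ)) * count C (2 * m) := by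
    have h1 : (x / 2) ^ M * Z0 ≤ (L * (ε * x * (1 + D))) ^ M *
        ((3 * ((2 * m : ℕ) : ℝ)) * (Cr ^ (M * c2) * count C (2 * m))) :=
      hit.trans (mul_le_mul_of_nonneg_left hZ1 (by positivity))
    have h2 : (x / 2) ^ M * ((ε * q) ^ M * (3 * ((2 * m : ℕ) : ℝ)) * count C (2 * m)) =
        (L * (ε * x * (1 + D))) ^ M *
        ((3 * ((2 * m : ℕ) : ℝ)) * (Cr ^ (M * c2) * count C (2 * m))) := by
      have h3 : x / 2 * (ε * q) = L * (ε * x * (1 + D)) * Cr ^ c2 := by rw [hq]; ring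
      have h4 : (x / 2) ^ M * (ε * q) ^ M = (L * (ε * x * (1 + D))) ^ M * Cr ^ (M * c2) := by
        rw [← mul_pow, h3, mul_pow, mul_comm M c2, pow_mul]
      calc _ = ((x / 2) ^ M * (ε * q) ^ M) * ((3 * ((2 * m : ℕ) : ℝ)) * count C (2 * m)) := by ring
        _ = _ := by rw [h4]; ring
    rw [← h2] at h1
    exact le_of_mul_le_mul_left h1 (by positivity)
  have hexp : (ε * q) ^ M ≤ Real.exp 2 * Real.exp (-(ε * x)) * Real.exp (-(ε * x)) := by
    calc (ε * q) ^ M ≤ (Real.exp (-2)) ^ M := pow_le_pow_left₀ (by positivity) hεq _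
      _ = Real.exp (M * (-2)) := by rw [← Real.exp_nat_mul]
      _ ≤ Real.exp (2 + -(ε * x) + -(ε * x)) := by
        rw [Real.exp_le_exp]; linarith
      _ = _ := by rw [Real.exp_add, Real.exp_add]
  have hcn : (0 : ℝ) ≤ count C (2 * m) := Nat.cast_nonneg _
  calc Z0 ≤ (ε * q) ^ M * (3 * ((2 * m : ℕ) : ℝ)) * count C (2 * m) := hmain
    _ ≤ (Real.exp 2 * Real.exp (-(ε * x)) * Real.exp (-(ε * x))) * (3 * ((2 * m : ℕ) : ℝ)) *
        count C (2 * m) := by gcongr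
    _ = (Real.exp 2 * (3 * ((2 * m : ℕ) : ℝ)) * Real.exp (-(ε * x))) *
        (Real.exp (-(ε * x)) * count C (2 * m)) := by ring
    _ ≤ 1 * (Real.exp (-(ε * x)) * count C (2 * m)) := by
        refine mul_le_mul_of_nonneg_right hm2 (by positivity)
    _ = _ := one_mul _

/-- The polygons with `n` edges and few translates of `Q`. -/
noncomputable def fewQ (C : Finset (Sym2 P3) → Prop) (Q : Finset (Sym2 P3)) (j : ℝ) (n : ℕ) : ℕ :=
  open Classical in ((U C n).filter fun E => (nOcc Q E : ℝ) ≤ j).card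

theorem fewQ_le {C : Finset (Sym2 P3) → Prop} (hC : ∀ E, C E → IsPolygon E)
    (hsz : ∀ E, C E → C (mapE sz E)) (hsw : ∀ E, C E → C (mapE sw E))
    (Q : Finset (Sym2 P3)) (j : ℝ) (n : ℕ) :
    fewQ C Q j n ≤ (sZ C Q n j ((n : ℝ) ^ (2 / 3 : ℝ))).card +
      ((sZ C (mapE sz Q) n j ((n : ℝ) ^ (2 / 3 : ℝ))).card +
        (sZ C (mapE sz (mapE sw Q)) n j ((n : ℝ) ^ (2 / 3 : ℝ))).card) := by
  classical
  set x : ℝ := (n : ℝ) ^ (2 / 3 : ℝ) with hx
  set S := (U C n).filter fun E => (nOcc Q E : ℝ) ≤ j with hS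
  set S1 := S.filter fun E => x ≤ ((cols E).ncard : ℝ) with hS1
  set S2 := S.filter fun E => x ≤ ((cols (mapE sz E)).ncard : ℝ) with hS2
  set S3 := S.filter fun E => x ≤ ((cols (mapE sz (mapE sw E))).ncard : ℝ) with hS3
  have memS : ∀ E, E ∈ S ↔ (C E ∧ E.card = n ∧ Normed E) ∧ (nOcc Q E : ℝ) ≤ j := by
    intro E
    rw [hS, Finset.mem_filter, mem_U' hC]
  have h1 : fewQ C Q j n = S.card := rfl
  clear_value S
  have hcov : S ⊆ S1 ∪ (S2 ∪ S3) := by
    intro E hE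
    have h := (memS E).1 hE
    have hcard := (cardStatement E (hC E h.1.1)).2
    have hlp := large_projection hcard
    rw [h.1.2.1] at hlp
    rw [Finset.mem_union, Finset.mem_union, hS1, hS2, hS3, Finset.mem_filter, Finset.mem_filter,
      Finset.mem_filter]
    rcases hlp with h1 | h1 | h1
    · exact Or.inl ⟨hE, h1⟩
    · exact Or.inr (Or.inl ⟨hE, h1⟩)
    · exact Or.inr (Or.inr ⟨hE, h1⟩)
  have c1 : S1.card ≤ (sZ C Q n j x).card := by
    refine Finset.card_le_card fun E hE => ?_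
    rw [hS1, Finset.mem_filter, memS] at hE
    exact (mem_sZ hC).2 ⟨hE.1.1.1, hE.1.1.2.1.le, hE.1.1.2.2, hE.1.2, hE.2⟩
  have c2 : S2.card ≤ (sZ C (mapE sz Q) n j x).card := by
    refine Finset.card_le_card_of_injOn (mapE sz) (fun E hE => ?_) (mapE_inj sz_inj).injOn
    rw [Finset.mem_coe, hS2, Finset.mem_filter, memS] at hE
    rw [Finset.mem_coe, mem_sZ hC]
    refine ⟨hsz E hE.1.1.1, ?_, hE.1.1.2.2.sz, ?_, hE.2⟩
    · rw [card_mapE sz_inj]; exact hE.1.1.2.1.le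
    · rw [nOcc_mapE sz_bij (fun _ _ => rfl)]; exact hE.1.2
  have c3 : S3.card ≤ (sZ C (mapE sz (mapE sw Q)) n j x).card := by
    refine Finset.card_le_card_of_injOn (fun E => mapE sz (mapE sw E)) (fun E hE => ?_)
      ((mapE_inj sz_inj).comp (mapE_inj sw_inj)).injOn
    rw [Finset.mem_coe, hS3, Finset.mem_filter, memS] at hE
    rw [Finset.mem_coe, mem_sZ hC]
    refine ⟨hsz _ (hsw E hE.1.1.1), ?_, hE.1.1.2.2.sw.sz, ?_, hE.2⟩
    · rw [card_mapE sz_inj, card_mapE sw_inj]; exact hE.1.1.2.1.le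
    · rw [nOcc_mapE sz_bij (fun _ _ => rfl), nOcc_mapE sw_bij (fun _ _ => rfl)]; exact hE.1.2
  have h2 := (Finset.card_le_card hcov).trans (Finset.card_union_le _ _)
  have h3 := Finset.card_union_le S2 S3
  omega

/-- **Every frequent pattern occurs often.** -/
theorem sFewQ (K : Finset (Sym2 P3)) (hK : IsPolygon K) {Q : Finset (Sym2 P3)}
    (hQ : Frequent Q) : ∃ ε δ : ℝ, 0 < ε ∧ 0 < δ ∧ δ < 1 ∧ ∀ᶠ m : ℕ in atTop,
      (growth (KClass K) - δ) ^ (2 * m) ≤ (count (KClass K) (2 * m) : ℝ) →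
        (fewQ (KClass K) Q (ε * ((2 * m : ℕ) : ℝ) ^ (2 / 3 : ℝ)) (2 * m) : ℝ) ≤
          Real.exp (-(ε * ((2 * m : ℕ) : ℝ) ^ (2 / 3 : ℝ))) * (count (KClass K) (2 * m) : ℝ) := by
  have hg := sGrowth_ge K hK
  have hC := bumpClass_K localFacts K
  have hCJ := ujoin_K K
  obtain ⟨ε1, δ1, hε1, hδ1, hδ1', h1⟩ := sFewQ_wide hQ hC hCJ hg
  obtain ⟨ε2, δ2, hε2, hδ2, hδ2', h2⟩ := sFewQ_wide hQ.sz hC hCJ hg
  obtain ⟨ε3, δ3, hε3, hδ3, hδ3', h3⟩ := sFewQ_wide hQ.sw.sz hC hCJ hg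
  obtain ⟨ε, hε, he1, he2, he3⟩ : ∃ ε : ℝ, 0 < ε ∧ 2 * ε ≤ ε1 ∧ 2 * ε ≤ ε2 ∧ 2 * ε ≤ ε3 := by
    refine ⟨min ε1 (min ε2 ε3) / 2, by positivity, ?_, ?_, ?_⟩ <;>
      rw [mul_div_cancel₀ _ two_ne_zero]
    · exact min_le_left _ _
    · exact (min_le_right _ _).trans (min_le_left _ _)
    · exact (min_le_right _ _).trans (min_le_right _ _)
  obtain ⟨δ, hδ, hd1, hd2, hd3⟩ : ∃ δ : ℝ, 0 < δ ∧ δ ≤ δ1 ∧ δ ≤ δ2 ∧ δ ≤ δ3 :=
    ⟨min δ1 (min δ2 δ3), by positivity, min_le_left _ _, (min_le_right _ _).trans (min_le_left _ _),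
      (min_le_right _ _).trans (min_le_right _ _)⟩
  refine ⟨ε, δ, hε, hδ, by linarith, ?_⟩
  have hlim : ∀ᶠ m : ℕ in atTop,
      3 * Real.exp (-(ε * ((2 * m : ℕ) : ℝ) ^ (2 / 3 : ℝ))) ≤ 1 := by
    have hto : Tendsto (fun m : ℕ => ((2 * m : ℕ) : ℝ)) atTop atTop :=
      tendsto_natCast_atTop_atTop.comp (tendsto_id.const_mul_atTop' (by norm_num))
    have h4 : Tendsto (fun m : ℕ => ε * ((2 * m : ℕ) : ℝ) ^ (2 / 3 : ℝ)) atTop atTop :=
      Tendsto.const_mul_atTop hε ((tendsto_rpow_atTop (by norm_num)).comp hto)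
    have h5 := (Real.tendsto_exp_neg_atTop_nhds_zero.comp h4).const_mul 3
    rw [mul_zero] at h5
    exact h5.eventually_le_const one_pos
  filter_upwards [h1, h2, h3, hlim] with m k1 k2 k3 k4 hlow
  set g := growth (KClass K)
  set x : ℝ := ((2 * m : ℕ) : ℝ) ^ (2 / 3 : ℝ) with hx
  have hx0 : 0 ≤ x := Real.rpow_nonneg (Nat.cast_nonneg _) _
  have low : ∀ δ', δ ≤ δ' → δ' < 1 → (g - δ') ^ (2 * m) ≤ (count (KClass K) (2 * m) : ℝ) :=
    fun δ' h h' => (pow_le_pow_left₀ (by linarith) (by linarith) _).trans hlow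
  have m1 := k1 (low δ1 hd1 hδ1') ε hε.le (by linarith)
  have m2 := k2 (low δ2 hd2 hδ2') ε hε.le (by linarith)
  have m3 := k3 (low δ3 hd3 hδ3') ε hε.le (by linarith)
  have hcn : (0 : ℝ) ≤ count (KClass K) (2 * m) := Nat.cast_nonneg _
  have hexp : ∀ ε', 2 * ε ≤ ε' → Real.exp (-(ε' * x)) * (count (KClass K) (2 * m) : ℝ) ≤
      Real.exp (-(ε * x)) * (Real.exp (-(ε * x)) * (count (KClass K) (2 * m) : ℝ)) := by
    intro ε' h
    rw [← mul_assoc, ← Real.exp_add]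
    refine mul_le_mul_of_nonneg_right ?_ hcn
    rw [Real.exp_le_exp]
    nlinarith
  have h5 := fewQ_le hC.poly (fun E h => KClass.sz h) (fun E h => KClass.sw h) Q (ε * x) (2 * m)
  have h6 : (fewQ (KClass K) Q (ε * x) (2 * m) : ℝ) ≤
      (sZ (KClass K) Q (2 * m) (ε * x) x).card + ((sZ (KClass K) (mapE sz Q) (2 * m) (ε * x) x).card +
        (sZ (KClass K) (mapE sz (mapE sw Q)) (2 * m) (ε * x) x).card) := by
    exact_mod_cast h5
  have n1 := m1.trans (hexp ε1 he1)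
  have n2 := m2.trans (hexp ε2 he2)
  have n3 := m3.trans (hexp ε3 he3)
  set y : ℝ := Real.exp (-(ε * x)) * (count (KClass K) (2 * m) : ℝ) with hy
  have hy0 : 0 ≤ y := by positivity
  calc (fewQ (KClass K) Q (ε * x) (2 * m) : ℝ) ≤ 3 * (Real.exp (-(ε * x)) * y) := by linarith
    _ = (3 * Real.exp (-(ε * x))) * y := by ring
    _ ≤ 1 * y := mul_le_mul_of_nonneg_right k4 hy0
    _ = y := one_mul y

end Pool.Agent.LK
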