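import Pool.Agent.MP_aea6d5_co.SKes
import Pool.Agent.MP_aea6d5_co.SAnb

/-! # All knot types: the pattern theorem for U-shapes, Kesten's inequality and the ratio near the
lengths where the growth rate is attained -/

set_option autoImplicit false

open Filter Topology

namespace Pool.Agent.LK

section counts

variable {C : Finset (Sym2 P3) → Prop}

theorem sCount_mono {C C' : Finset (Sym2 P3) → Prop} (hC : ∀ E, C' E → IsPolygon E)
    (h : ∀ E, C E → C' E) (n : ℕ) : count C n ≤ count C' n :=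
  Set.ncard_le_ncard (fun _ hE => ⟨h _ hE.1, hE.2⟩) (finite_class' hC n)

theorem sCount_le : ∃ B : ℝ, 1 ≤ B ∧ ∀ C : Finset (Sym2 P3) → Prop, (∀ E, C E → IsPolygon E) →
    ∀ n, (count C n : ℝ) ≤ B ^ n := by
  obtain ⟨B, hB, h⟩ := count_le polyClosedZ
  refine ⟨B, hB, fun C hC n => ?_⟩
  have h1 : count C n ≤ count IsPolygon n := sCount_mono (fun _ h => h) hC n
  exact le_trans (by exact_mod_cast h1) (h n)

theorem sUpper (hC : ∀ E, C E → IsPolygon E) {η : ℝ} (hη : 0 < η) :
    ∀ᶠ n : ℕ in atTop, (count C n : ℝ) ≤ (growth C + η) ^ n := by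
  obtain ⟨B, hB, h⟩ := sCount_le
  have h1 : growth C < growth C + η := by linarith
  have h2 := eventually_lt_of_limsup_lt h1 (bdd_root hB (h C hC))
  filter_upwards [h2, eventually_gt_atTop 0] with n hn hn0
  have h3 : ((count C n : ℝ) ^ ((n : ℝ)⁻¹)) ^ n = count C n :=
    Real.rpow_inv_natCast_pow (Nat.cast_nonneg _) hn0.ne'
  rw [← h3]
  exact pow_le_pow_left₀ (Real.rpow_nonneg (Nat.cast_nonneg _) _) hn.le _

theorem sUpper2 (hC : ∀ E, C E → IsPolygon E) {η : ℝ} (hη : 0 < η) :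
    ∀ᶠ m : ℕ in atTop, (count C (2 * m) : ℝ) ≤ (growth C + η) ^ (2 * m) :=
  (tendsto_id.const_mul_atTop' (by norm_num : 0 < 2)).eventually (sUpper hC hη)

/-- **The windows.** -/
theorem sWindow (hC : BumpClass C) (hg : (15 / 4 : ℝ) ≤ growth C) :
    ∃ ε c δ A : ℝ, ∃ N : ℕ, 0 < ε ∧ 0 < c ∧ c < 1 ∧ 0 < δ ∧ δ < 1 ∧ 0 ≤ A ∧ 0 < N ∧
      ∀ᶠ m : ℕ in atTop, (growth C - δ) ^ (2 * m) ≤ (count C (2 * m) : ℝ) →
        ∀ k : ℕ, N * k ≤ (N + 1) * m → N * m ≤ (N + 1) * k →
          0 < count C (2 * k) ∧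
          (few C ε (2 * k) : ℝ) ≤ c ^ k * (count C (2 * k) : ℝ) ∧
          (count C (2 * (k + 1)) : ℝ) ≤ 24 / ε * (count C (2 * k) : ℝ) ∧
          (count C (2 * (k + 1)) : ℝ) / (count C (2 * k) : ℝ) - A / k ≤
            (count C (2 * (k + 2)) : ℝ) / (count C (2 * (k + 1)) : ℝ) := by
  set g := growth C with hgd
  have h0 := localFacts
  have h2 : ExchangeStatement := exchangeStatement localFacts
  obtain ⟨D, hD⟩ := diffStatement
  obtain ⟨ε0, K, hε0, hR⟩ := rigidStatement
  have hD0 : (0 : ℝ) ≤ D := Nat.cast_nonneg D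
  have hg0 : 0 < g := by linarith
  -- we may assume `ε0 ≤ 1`
  set ε1 : ℝ := min ε0 1 with hε1
  have hε10 : 0 < ε1 := lt_min hε0 one_pos
  have hε11 : ε1 ≤ 1 := min_le_right _ _
  have hR1 : ∀ n : ℕ,
      ((open Classical in ((U IsPolygon n).filter fun E => (nU E : ℝ) ≤ ε1 * n ∧
        (nSpot E : ℝ) ≤ ε1 * n).card : ℕ) : ℝ) ≤ K * (374 / 100 : ℝ) ^ n := by
    classical
    intro n
    refine le_trans ?_ (hR n)
    have h1 : ε1 * (n : ℝ) ≤ ε0 * n := mul_le_mul_of_nonneg_right (min_le_left _ _) (Nat.cast_nonneg _)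
    exact_mod_cast Finset.card_le_card (Finset.monotone_filter_right _ (by
      intro E _ hE
      exact ⟨hE.1.trans h1, hE.2.trans h1⟩))
  set ε : ℝ := ε1 / 2 * (Real.exp (-4) / (g + 1) ^ 2) / (1 + D) with hε
  have hεpos : 0 < ε := by
    have : 0 < Real.exp (-4) := Real.exp_pos _
    positivity
  have hεD : ε * (1 + D) = ε1 / 2 * (Real.exp (-4) / (g + 1) ^ 2) := by
    rw [hε, div_mul_cancel₀]
    positivity
  have hq : Real.exp (-4) / (g + 1) ^ 2 ≤ 1 := by
    rw [div_le_one (by positivity)]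
    have h4 : Real.exp (-4) ≤ 1 := Real.exp_le_one_iff.2 (by norm_num)
    nlinarith
  have hle : ε * (1 + D) ≤ ε1 / 2 := by
    rw [hεD]
    exact mul_le_of_le_one_right (by positivity) hq
  have hεle : ε ≤ 1 := by
    have h1 : ε ≤ ε * (1 + D) := by
      have := mul_nonneg hεpos.le hD0
      linarith
    linarith
  have hratio : ε * (1 + D) / (ε1 / 2) = Real.exp (-4) / (g + 1) ^ 2 := by
    rw [hεD, mul_comm, mul_div_assoc, div_self (by positivity), mul_one]
  obtain ⟨c, δ, N, hc0, hc1, hδ0, hδ1, hN, hw⟩ := sAna_window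
    (u := fun m => (count C (2 * m) : ℝ)) (F := fun m => (few C ε (2 * m) : ℝ)) (g := g) (K := K)
    (ε := ε) hg hεpos hεle
    (fun m => by
      have := count_mono hC.kMove (2 * m)
      have e : 2 * (m + 1) = 2 * m + 2 := by ring
      simp only [e]
      exact_mod_cast this)
    (fun η hη => sUpper2 hC.poly hη)
    (fun m hm => by
      have := RFew.few_le h0 h2 hD hR1 hC hεpos hle (2 * m) (by omega)
      rw [hratio] at this
      have e : 2 * m + 2 * ⌊ε * ((2 * m : ℕ) : ℝ)⌋₊ = 2 * (m + ⌊ε * ((2 * m : ℕ) : ℝ)⌋₊) := by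
        ring
      rw [e] at this
      exact this)
    (fun m => by
      have := sExch h0 h2 hC hεpos (2 * m)
      have e : 2 * (m + 1) = 2 * m + 2 := by ring
      simp only [e]
      exact this)
  obtain ⟨A, hA, hkes⟩ := sKes_point h0 diffStatement h2 hεpos hc0 hc1
  obtain ⟨M, hM⟩ := eventually_atTop.1 hkes
  -- the Kesten inequality needs the next index, so we take the window for `2 * N`
  refine ⟨ε, c, δ, A, 2 * N, hεpos, hc0, hc1, hδ0, hδ1, hA, by omega, ?_⟩
  filter_upwards [hw, eventually_ge_atTop (2 * M + 2 * N + 2)] with m hm hm2 hlow k hk1 hk2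
  have hm' := hm hlow
  have b1 : N * k ≤ (N + 1) * m ∧ N * m ≤ (N + 1) * k ∧ N * (k + 1) ≤ (N + 1) * m ∧
      N * m ≤ (N + 1) * (k + 1) := by
    have e1 : 2 * N * k = 2 * (N * k) := by ring
    have e2 : (2 * N + 1) * m = 2 * (N * m) + m := by ring
    have e3 : 2 * N * m = 2 * (N * m) := by ring
    have e4 : (2 * N + 1) * k = 2 * (N * k) + k := by ring
    have e5 : (N + 1) * m = N * m + m := by ring
    have e6 : (N + 1) * k = N * k + k := by ring
    have e7 : N * (k + 1) = N * k + N := by ring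
    have e8 : (N + 1) * (k + 1) = N * k + k + N + 1 := by ring
    rw [e1, e2] at hk1
    rw [e3, e4] at hk2
    rw [e5, e6, e7, e8]
    refine ⟨by omega, by omega, by omega, by omega⟩
  obtain ⟨w1, w2, w3, w4⟩ := b1
  obtain ⟨p1, p2, p3⟩ := hm' k w1 w2
  obtain ⟨q1, q2, q3⟩ := hm' (k + 1) w3 w4
  have hpos : 0 < count C (2 * k) := by
    have : (0 : ℝ) < count C (2 * k) := lt_of_lt_of_le (by positivity) p1
    exact_mod_cast this
  refine ⟨hpos, p2, p3, ?_⟩
  have hkM : M ≤ k := by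
    have h1 : m ≤ 2 * k := by
      have h2 : N * m ≤ N * (2 * k) := by
        have : (N + 1) * k ≤ (2 * N) * k := Nat.mul_le_mul_right k (by omega)
        calc N * m ≤ (N + 1) * k := w2
          _ ≤ (2 * N) * k := this
          _ = N * (2 * k) := by ring
      exact Nat.le_of_mul_le_mul_left h2 hN
    omega
  have h3 := hM k hkM C hC hpos p2 q2
  have e1 : 2 * (k + 1) = 2 * k + 2 := by ring
  have e2 : 2 * (k + 2) = 2 * k + 4 := by ring
  rw [e1, e2]
  exact h3

/-- **The ratio near the lengths where the growth rate is attained.** -/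
theorem sRatio (hC : BumpClass C) (hg : (15 / 4 : ℝ) ≤ growth C) {τ : ℝ} (hτ : 0 < τ) :
    ∃ δ : ℝ, 0 < δ ∧ δ < 1 ∧ ∀ᶠ m : ℕ in atTop,
      (growth C - δ) ^ (2 * m) ≤ (count C (2 * m) : ℝ) →
      |(count C (2 * (m + 1)) : ℝ) / (count C (2 * m) : ℝ) - growth C ^ 2| ≤ τ := by
  obtain ⟨ε, c, δ, A, N, -, -, -, hδ0, hδ1, hA, hN, hw⟩ := sWindow hC hg
  obtain ⟨δ', h1, h2, h3⟩ := sAna_ratio (u := fun m => (count C (2 * m) : ℝ)) (g := growth C)
    (A := A) (δ1 := δ) (N := N) (by linarith) hA hN hδ0 hδ1 (fun η hη => sUpper2 hC.poly hη)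
    (by
      filter_upwards [hw] with m hm hlow k hk1 hk2
      obtain ⟨a1, -, -, a4⟩ := hm hlow k hk1 hk2
      exact ⟨by exact_mod_cast a1, a4⟩) τ hτ
  exact ⟨δ', h1, by linarith, h3⟩

/-- The same along a filter. -/
theorem sRatio_filter (hC : BumpClass C) (hg : (15 / 4 : ℝ) ≤ growth C) {l : Filter ℕ}
    (hl : l ≤ atTop)
    (h : Tendsto (fun k : ℕ => (count C (2 * k) : ℝ) ^ (((2 * k : ℕ) : ℝ)⁻¹)) l (𝓝 (growth C))) :
    Tendsto (fun k : ℕ => (count C (2 * k + 2) : ℝ) / (count C (2 * k) : ℝ)) l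
      (𝓝 (growth C ^ 2)) := by
  rw [Metric.tendsto_nhds]
  intro τ hτ
  obtain ⟨δ, hδ, hδ1, h1⟩ := sRatio hC hg (τ := τ / 2) (by positivity)
  have h2 : ∀ᶠ k : ℕ in l, growth C - δ < (count C (2 * k) : ℝ) ^ (((2 * k : ℕ) : ℝ)⁻¹) :=
    h.eventually_const_lt (by linarith)
  filter_upwards [h2, hl h1, hl (eventually_gt_atTop 0)] with k hk hk1 hk0
  have hne : (2 * k : ℕ) ≠ 0 := by omega
  have hpow : ((count C (2 * k) : ℝ) ^ (((2 * k : ℕ) : ℝ)⁻¹)) ^ (2 * k) = count C (2 * k) :=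
    Real.rpow_inv_natCast_pow (Nat.cast_nonneg _) hne
  have hlow : (growth C - δ) ^ (2 * k) ≤ (count C (2 * k) : ℝ) := by
    rw [← hpow]
    exact pow_le_pow_left₀ (by linarith) hk.le _
  have h4 := hk1 hlow
  have e1 : 2 * (k + 1) = 2 * k + 2 := by ring
  rw [e1] at h4
  rw [Real.dist_eq]
  linarith

end counts

/-! ### The growth rates -/

theorem sLower {C : Finset (Sym2 P3) → Prop} (hC : ∀ E, C E → IsPolygon E) {x : ℝ} (hx : 0 ≤ x)
    (hf : ∃ᶠ n in atTop, x ^ n ≤ (count C n : ℝ)) : x ≤ growth C := by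
  obtain ⟨B, hB, h⟩ := sCount_le
  exact le_limsup_root hB (h C hC) hx hf

theorem sFreq {C : Finset (Sym2 P3) → Prop} {x : ℝ} (hx : 0 ≤ x) (hxg : x < growth C) :
    ∃ᶠ n in atTop, x ^ n ≤ (count C n : ℝ) := by
  have h1 := frequently_lt_of_lt_limsup (f := atTop)
    (u := fun n : ℕ => (count C n : ℝ) ^ ((n : ℝ)⁻¹)) (b := x) ?_ hxg
  · refine (h1.and_eventually (eventually_gt_atTop 0)).mono ?_
    rintro n ⟨hn, hn0⟩
    have h3 : ((count C n : ℝ) ^ ((n : ℝ)⁻¹)) ^ n = count C n :=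
      Real.rpow_inv_natCast_pow (Nat.cast_nonneg _) hn0.ne'
    rw [← h3]
    exact pow_le_pow_left₀ hx hn.le _
  · exact (isBoundedUnder_of ⟨0, fun n => Real.rpow_nonneg (Nat.cast_nonneg _) _⟩ :
      IsBoundedUnder (· ≥ ·) atTop _).isCoboundedUnder_le

/-- The growth rate of the unknot is the smallest. -/
theorem sGrowth_U_le {K : Finset (Sym2 P3)} (hK : IsPolygon K) :
    growth UClass ≤ growth (KClass K) := by
  by_cases hKn : Unknotted K
  · have hcl : ∀ n, count (KClass K) n = count UClass n := by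
      intro n
      unfold count
      congr 1
      ext E
      simp only [Set.mem_ofPred_eq]
      constructor
      · rintro ⟨⟨h1, h2⟩, h3⟩
        exact ⟨⟨h1, h2.symm.unknotted hKn⟩, h3⟩
      · rintro ⟨⟨h1, h2⟩, h3⟩
        refine ⟨⟨h1, ?_⟩, h3⟩
        obtain ⟨φ, hφ⟩ := hKn
        obtain ⟨ψ, hψ⟩ := h2
        refine ⟨φ.trans ψ.symm, ?_⟩
        change (ψ.symm ∘ φ) '' body K = body E
        rw [Set.image_comp, hφ, ← hψ]
        exact ψ.symm_image_image _
    unfold growth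
    simp only [hcl]
    exact le_rfl
  · obtain ⟨ε, hε, c, -, h⟩ := attach b1Statement ncStatement moveFacts hK hKn
    refine le_of_forall_lt fun x hx => ?_
    obtain ⟨y, hxy, hyg⟩ := exists_between (max_lt hx
      (lt_of_lt_of_le (by norm_num : (1 : ℝ) < 15 / 4) (lower_all UClass unknotClosedZ)))
    have hy1 : 1 < y := lt_of_le_of_lt (le_max_right _ _) hxy
    have hy0 : 0 < y := by linarith
    refine lt_of_lt_of_le (lt_of_le_of_lt (le_max_left _ _) hxy) ?_
    refine sLower (fun E h => h.1) hy0.le ?_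
    have h1 := sFreq hy0.le hyg
    have h2 : ∀ᶠ n : ℕ in atTop, y ^ c / ε ≤ (n : ℝ) ^ (2 / 3 : ℝ) :=
      ((tendsto_rpow_atTop (by norm_num)).comp tendsto_natCast_atTop_atTop).eventually_ge_atTop _
    have h3 := h1.and_eventually h2
    have h4 : ∃ᶠ n : ℕ in atTop, y ^ (n + c) ≤ (count (KClass K) (n + c) : ℝ) := by
      refine h3.mono ?_
      rintro n ⟨a1, a2⟩
      refine le_trans ?_ (h n)
      rw [div_le_iff₀ hε] at a2
      calc y ^ (n + c) = y ^ c * y ^ n := by rw [pow_add]; ring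
        _ ≤ ((n : ℝ) ^ (2 / 3 : ℝ) * ε) * y ^ n := mul_le_mul_of_nonneg_right a2 (by positivity)
        _ ≤ ((n : ℝ) ^ (2 / 3 : ℝ) * ε) * (count UClass n : ℝ) :=
            mul_le_mul_of_nonneg_left a1 (by positivity)
        _ = _ := by ring
    exact (tendsto_add_atTop_nat c).frequently h4

/-- The growth rate does not depend on the group. -/
theorem sGrowth_prop {C C' : Finset (Sym2 P3) → Prop} (hC : ∀ E, C E → IsPolygon E)
    (hC' : ∀ E, C' E → IsPolygon E) (h : ∀ n, count C' n = 2 * count C n) :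
    growth C' = growth C := by
  apply le_antisymm
  · refine le_of_forall_pos_le_add fun η hη => ?_
    have hg : 0 ≤ growth C := by
      unfold growth
      obtain ⟨B, hB, hb⟩ := sCount_le
      refine le_limsup_of_frequently_le (Frequently.of_forall fun n => ?_) (bdd_root hB (hb C hC))
      exact Real.rpow_nonneg (Nat.cast_nonneg _) _
    unfold growth
    refine limsup_le_of_le ?_ ?_
    · exact (isBoundedUnder_of ⟨0, fun n => Real.rpow_nonneg (Nat.cast_nonneg _) _⟩ :
        IsBoundedUnder (· ≥ ·) atTop _).isCoboundedUnder_le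
    · have h1 := sUpper hC (η := η / 2) (by positivity)
      have hr : 1 < (growth C + η) / (growth C + η / 2) := by
        rw [one_lt_div (by positivity)]; linarith
      have h2 : ∀ᶠ n : ℕ in atTop, (2 : ℝ) ≤ ((growth C + η) / (growth C + η / 2)) ^ n :=
        (tendsto_pow_atTop_atTop_of_one_lt hr).eventually_ge_atTop _
      filter_upwards [h1, h2, eventually_gt_atTop 0] with n hn hn2 hn0
      have h3 : (count C' n : ℝ) ≤ (growth C + η) ^ n := by
        rw [h]
        push_cast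
        calc 2 * (count C n : ℝ) ≤ ((growth C + η) / (growth C + η / 2)) ^ n *
              (growth C + η / 2) ^ n :=
            mul_le_mul hn2 hn (Nat.cast_nonneg _) (by positivity)
          _ = (growth C + η) ^ n := by
            rw [← mul_pow, div_mul_cancel₀]
            positivity
      have h4 : (count C' n : ℝ) ^ ((n : ℝ)⁻¹) ≤ ((growth C + η) ^ n) ^ ((n : ℝ)⁻¹) :=
        Real.rpow_le_rpow (Nat.cast_nonneg _) h3 (by positivity)
      rwa [Real.pow_rpow_inv_natCast (by positivity) hn0.ne'] at h4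
  · refine le_of_forall_lt fun x hx => ?_
    rcases lt_or_ge x 0 with hx0 | hx0
    · refine lt_of_lt_of_le hx0 ?_
      unfold growth
      obtain ⟨B, hB, hb⟩ := sCount_le
      refine le_limsup_of_frequently_le (Frequently.of_forall fun n => ?_) (bdd_root hB (hb C' hC'))
      exact Real.rpow_nonneg (Nat.cast_nonneg _) _
    · obtain ⟨y, hxy, hyg⟩ := exists_between hx
      refine lt_of_lt_of_le hxy (sLower hC' (hx0.trans hxy.le) ?_)
      refine (sFreq (hx0.trans hxy.le) hyg).mono fun n hn => hn.trans ?_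
      rw [h]
      push_cast
      linarith [(Nat.cast_nonneg (count C n) : (0 : ℝ) ≤ _)]

theorem sGrowth_G (G : Subgroup (R3 ≃ₜ R3)) (hG : ∀ φ : R3 ≃ₜ R3, φ ∈ G ∨ φ * swapR ∈ G)
    (K : Finset (Sym2 P3)) : growth (GClass G K) = growth (KClass K) := by
  rcases propStatement G hG K with h | h
  · unfold growth
    simp only [h]
  · exact (sGrowth_prop (fun E h => h.1) (fun E h => h.1) h).symm

theorem sGrowth_ge (K : Finset (Sym2 P3)) (hK : IsPolygon K) :
    (15 / 4 : ℝ) ≤ growth (KClass K) :=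
  (lower_all UClass unknotClosedZ).trans (sGrowth_U_le hK)

end Pool.Agent.LK
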