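import Pool.Agent.MP_aea6d5_co.JoinFinal
import Pool.Agent.MP_aea6d5_co.SepFun

/-! The separating function: `SepStatement`. -/

set_option autoImplicit false

namespace Pool.Agent.LK

theorem sepStatement : SepStatement :=
  fun E F x y h hE hF hB he hf => exists_sep E F x y h hE hF hB he hf

end Pool.Agent.LK
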