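import Pool.Agent.MP_aea6d5_co.Between
import Pool.Agent.MP_aea6d5_co.CellRad
import Pool.Agent.MP_aea6d5_co.Collapse

/-! Cells inside and outside of a round shell in which an unknotted circle is conical. -/

set_option autoImplicit false
set_option linter.unusedSectionVars false

open Set Topology Filter

namespace Pool.Agent.LK

/-- Two rays pointing down. -/
def Dn : Set R3 := {u | u.2.1 = 0 ∧ |u.1| = -u.2.2 / 2}

lemma smul_mem_Dn {c : ℝ} (hc : 0 < c) (u : R3) : c • u ∈ Dn ↔ u ∈ Dn := by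
  have h1 : (c • u).1 = c * u.1 := rfl
  have h2 : (c • u).2.1 = c * u.2.1 := rfl
  have h3 : (c • u).2.2 = c * u.2.2 := rfl
  simp only [Dn, mem_ofPred_eq, h1, h2, h3, abs_mul, abs_of_pos hc]
  constructor
  · rintro ⟨h4, h5⟩
    refine ⟨(mul_eq_zero.mp h4).resolve_left hc.ne', ?_⟩
    have : c * |u.1| = c * (-u.2.2 / 2) := by rw [h5]; ring
    exact mul_left_cancel₀ hc.ne' this
  · rintro ⟨h4, h5⟩
    refine ⟨by rw [h4, mul_zero], ?_⟩
    rw [h5]; ring

/-- The standard point of `Dn`. -/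
noncomputable def dpt : R3 := (1 / 2, 0, -1)

lemma dpt_mem : dpt ∈ Dn := by
  refine ⟨rfl, ?_⟩
  change |(1 / 2 : ℝ)| = -(-1) / 2
  rw [abs_of_pos (by norm_num)]
  norm_num

lemma norm_dpt : ‖dpt‖ = 1 := by
  change max ‖(1 / 2 : ℝ)‖ (max ‖(0 : ℝ)‖ ‖(-1 : ℝ)‖) = 1
  norm_num

lemma smul_dpt_mem {c : ℝ} (hc : 0 < c) : c • dpt ∈ Dn := (smul_mem_Dn hc _).mpr dpt_mem

lemma norm_smul_dpt {c : ℝ} (hc : 0 < c) : ‖c • dpt‖ = c := by
  rw [norm_smul, norm_dpt, mul_one, Real.norm_of_nonneg hc.le]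

/-- Two rays from `q` together with the point at infinity. -/
def VG (q : R3) : Set S3 := {m | m = OnePoint.infty ∨ ∃ u ∈ Dn, m = ((q + u : R3) : S3)}

lemma coe_mem_VG {q u : R3} : ((q + u : R3) : S3) ∈ VG q ↔ u ∈ Dn := by
  constructor
  · rintro (h | ⟨u', hu', h⟩)
    · exact absurd h (OnePoint.coe_ne_infty _)
    · rw [OnePoint.coe_eq_coe, add_right_inj] at h
      rwa [h]
  · intro h
    exact Or.inr ⟨u, h, rfl⟩

/-- Straightening the two rays. -/
noncomputable def etaH (q : R3) : R3 ≃ₜ R3 where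
  toFun p := (-(p.2.2 - q.2.2) - 2 * |p.1 - q.1|, p.1 - q.1, p.2.1 - q.2.1)
  invFun a := (a.2.1 + q.1, a.2.2 + q.2.1, -a.1 - 2 * |a.2.1| + q.2.2)
  left_inv := by
    intro p
    refine Prod.ext ?_ (Prod.ext ?_ ?_)
    · change p.1 - q.1 + q.1 = p.1
      ring
    · change p.2.1 - q.2.1 + q.2.1 = p.2.1
      ring
    · change -(-(p.2.2 - q.2.2) - 2 * |p.1 - q.1|) - 2 * |p.1 - q.1| + q.2.2 = p.2.2
      ring
  right_inv := by
    intro a
    refine Prod.ext ?_ (Prod.ext ?_ ?_)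
    · change -(-a.1 - 2 * |a.2.1| + q.2.2 - q.2.2) - 2 * |a.2.1 + q.1 - q.1| = a.1
      rw [add_sub_cancel_right, add_sub_cancel_right]
      ring
    · change a.2.1 + q.1 - q.1 = a.2.1
      ring
    · change a.2.2 + q.2.1 - q.2.1 = a.2.2
      ring
  continuous_toFun := by fun_prop
  continuous_invFun := by fun_prop

lemma etaH_mem (q u : R3) : etaH q (q + u) ∈ axisY ↔ u ∈ Dn := by
  have h1 : etaH q (q + u) = (-u.2.2 - 2 * |u.1|, u.1, u.2.1) := by
    change (-(q.2.2 + u.2.2 - q.2.2) - 2 * |q.1 + u.1 - q.1|, q.1 + u.1 - q.1,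
      q.2.1 + u.2.1 - q.2.1) = _
    rw [add_sub_cancel_left, add_sub_cancel_left, add_sub_cancel_left]
  rw [h1, mem_axisY]
  simp only [Dn, mem_ofPred_eq]
  constructor
  · rintro ⟨h2, h3⟩
    exact ⟨h3, by linarith⟩
  · rintro ⟨h2, h3⟩
    exact ⟨by linarith, h2⟩

lemma cell_VG (q : R3) {p : S3} (hp : p ∈ VG q) :
    ∃ w : R3 → S3, PCell axisY (VG q) w ∧ range w = {p}ᶜ := by
  have hG : ∀ m : S3, ext3 (etaH q) m ∈ Lbar ↔ m ∈ VG q := by
    intro m
    induction m using OnePoint.rec with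
    | infty =>
      rw [ext3_infty]
      exact ⟨fun _ => Or.inl rfl, fun _ => infty_mem_Lbar⟩
    | coe v =>
      have h1 : v = q + (v - q) := by rw [add_sub_cancel]
      rw [ext3_coe, coe_mem_Lbar, h1, etaH_mem, coe_mem_VG]
  obtain ⟨h, hh, hinf⟩ := exists_move_line ((hG p).mpr hp)
  set Θ : S3 ≃ₜ S3 := (ext3 (etaH q)).trans h with hΘ
  have hΘmem : ∀ m, Θ m ∈ Lbar ↔ m ∈ VG q := by
    intro m
    change h (ext3 (etaH q) m) ∈ Lbar ↔ m ∈ VG q
    rw [hh, hG]
  have hΘp : Θ p = OnePoint.infty := hinf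
  refine ⟨fun x => Θ.symm (x : S3), ⟨?_, ?_⟩, ?_⟩
  · exact Θ.symm.isOpenEmbedding.comp OnePoint.isOpenEmbedding_coe
  · intro x
    rw [← hΘmem, Θ.apply_symm_apply, coe_mem_Lbar]
  · ext m
    simp only [mem_range, mem_compl_iff, mem_singleton_iff]
    constructor
    · rintro ⟨x, rfl⟩ h1
      have h2 : (x : S3) = Θ p := by rw [← h1, Θ.apply_symm_apply]
      rw [hΘp] at h2
      exact OnePoint.coe_ne_infty x h2
    · intro hm
      have h1 : Θ m ≠ OnePoint.infty := by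
        intro h2
        apply hm
        exact Θ.injective (h2.trans hΘp.symm)
      obtain ⟨x, hx⟩ := OnePoint.ne_infty_iff_exists.mp h1
      exact ⟨x, by rw [hx, Θ.symm_apply_apply]⟩

lemma mem_up_ball {q : R3} {r : ℝ} {v : R3} : (v : S3) ∈ up (Metric.ball q r) ↔ ‖v - q‖ < r := by
  rw [coe_mem_up, Metric.mem_ball, dist_eq_norm]

lemma mem_up_closedBall {q : R3} {r : ℝ} {v : R3} :
    (v : S3) ∈ up (Metric.closedBall q r) ↔ ‖v - q‖ ≤ r := by
  rw [coe_mem_up, Metric.mem_closedBall, dist_eq_norm]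

section shell

variable {X : Set R3} {q : R3} {R R₁ : ℝ}

lemma shell_K {f : S3 → S3} (hX : ∀ u : R3, R ≤ ‖u‖ → ‖u‖ ≤ R₁ → (q + u ∈ X ↔ u ∈ Dn))
    (hc : ∀ u : R3, R < ‖u‖ → ‖u‖ < R₁ →
      ∃ c : ℝ, 0 < c ∧ f ((q + u : R3) : S3) = ((q + c • u : R3) : S3))
    {m : S3} (h1 : m ∉ up (Metric.closedBall q R)) (h2 : m ∈ up (Metric.ball q R₁)) :
    f m ∈ VG q ↔ m ∈ up X := by
  induction m using OnePoint.rec with
  | infty => exact absurd h2 (infty_notMem_up _)
  | coe v =>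
    rw [mem_up_closedBall, not_le] at h1
    rw [mem_up_ball] at h2
    have hv : q + (v - q) = v := add_sub_cancel _ _
    obtain ⟨c, hc0, hcf⟩ := hc (v - q) h1 h2
    rw [hv] at hcf
    rw [hcf, coe_mem_VG, smul_mem_Dn hc0, coe_mem_up, ← hX (v - q) h1.le h2.le, hv]

/-- The cell outside. -/
theorem cell_out (hR : 0 < R) (hRR₁ : R < R₁)
    (hX : ∀ u : R3, R ≤ ‖u‖ → ‖u‖ ≤ R₁ → (q + u ∈ X ↔ u ∈ Dn)) (hU : Unk X) :
    ∃ w : R3 → S3, PCell axisY (up X) w ∧ (up (Metric.ball q R₁))ᶜ ⊆ range w ∧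
      range w ⊆ (up (Metric.closedBall q R))ᶜ := by
  obtain ⟨f, hf, hfs, hfq, hfi, hinj, hc⟩ := exists_collapse q hR hRR₁
  have hR₁ : 0 < R₁ := hR.trans hRR₁
  refine exists_cell_between (G := VG q) hf hfs (a := (q : S3)) (b := OnePoint.infty)
    (p := ((q + dpt : R3) : S3)) (OnePoint.coe_ne_infty q) ?_ (OnePoint.coe_ne_infty _) hfq
    (fun x => (hfi x).trans Iff.rfl) ?_ ?_ ?_ (Or.inl rfl) (coe_mem_VG.mpr dpt_mem) ?_
    (fun p hp => cell_VG q hp) (s := ((q + R₁ • dpt : R3) : S3)) ?_ ?_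
  · intro h
    rw [OnePoint.coe_eq_coe] at h
    have : dpt = 0 := by simpa using h
    have h2 := norm_dpt
    rw [this, norm_zero] at h2
    exact zero_ne_one h2
  · intro m m' h1 h2
    exact hinj m m' h1 (not_not.mp h2)
  · intro m h1 h2
    exact shell_K hX hc h1 (not_not.mp h2)
  · have : ((q : R3) : S3) = ((q + 0 : R3) : S3) := by rw [add_zero]
    rw [this, coe_mem_VG]
    exact ⟨rfl, by simp⟩
  · intro p hp
    obtain ⟨v, hv, rfl⟩ := hp
    exact cellOfUnk X v hU hv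
  · rw [coe_mem_up, hX _ (by rw [norm_smul_dpt hR₁]; exact hRR₁.le)
      (by rw [norm_smul_dpt hR₁])]
    exact smul_dpt_mem hR₁
  · intro h
    rw [mem_up_ball, add_sub_cancel_left, norm_smul_dpt hR₁] at h
    exact lt_irrefl _ h

/-- The cell inside. -/
theorem cell_in (hR : 0 < R) (hRR₁ : R < R₁)
    (hX : ∀ u : R3, R ≤ ‖u‖ → ‖u‖ ≤ R₁ → (q + u ∈ X ↔ u ∈ Dn)) (hU : Unk X) :
    ∃ w : R3 → S3, PCell axisY (up X) w ∧ up (Metric.closedBall q R) ⊆ range w ∧
      range w ⊆ up (Metric.ball q R₁) := by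
  obtain ⟨f, hf, hfs, hfq, hfi, hinj, hc⟩ := exists_collapse q hR hRR₁
  have hR₁ : 0 < R₁ := hR.trans hRR₁
  have key : ∃ w : R3 → S3, PCell axisY (up X) w ∧ up (Metric.closedBall q R) ⊆ range w ∧
      range w ⊆ ((up (Metric.ball q R₁))ᶜ)ᶜ := by
    refine exists_cell_between (G := VG q) hf hfs (b := (q : S3)) (a := OnePoint.infty)
      (p := ((q + dpt : R3) : S3)) (OnePoint.infty_ne_coe q) (OnePoint.coe_ne_infty _) ?_
      (fun x => (hfi x).trans Iff.rfl) hfq ?_ ?_ (Or.inl rfl) ?_ (coe_mem_VG.mpr dpt_mem) ?_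
      (fun p hp => cell_VG q hp) (s := ((q + R • dpt : R3) : S3)) ?_ ?_
    · intro h
      rw [OnePoint.coe_eq_coe] at h
      have : dpt = 0 := by simpa using h
      have h2 := norm_dpt
      rw [this, norm_zero] at h2
      exact zero_ne_one h2
    · intro m m' h2 h1
      exact hinj m m' h1 (not_not.mp h2)
    · intro m h2 h1
      exact shell_K hX hc h1 (not_not.mp h2)
    · have : ((q : R3) : S3) = ((q + 0 : R3) : S3) := by rw [add_zero]
      rw [this, coe_mem_VG]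
      exact ⟨rfl, by simp⟩
    · intro p hp
      obtain ⟨v, hv, rfl⟩ := hp
      exact cellOfUnk X v hU hv
    · rw [coe_mem_up, hX _ (by rw [norm_smul_dpt hR])
        (by rw [norm_smul_dpt hR]; exact hRR₁.le)]
      exact smul_dpt_mem hR
    · rw [mem_up_closedBall, add_sub_cancel_left, norm_smul_dpt hR]
  rwa [compl_compl] at key

/-- The complement of the closed ball is a cell. -/
theorem cell_compl {R' : ℝ} (hR : 0 < R) (hRR' : R < R')
    (hX : ∀ u : R3, R ≤ ‖u‖ → ‖u‖ < R' → (q + u ∈ X ↔ u ∈ Dn)) (hU : Unk X) :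
    ∃ w : R3 → S3, PCell axisY (up X) w ∧ range w = (up (Metric.closedBall q R))ᶜ := by
  have hopen : ∀ r : ℝ, IsOpen (up (Metric.ball q r)) := fun r =>
    OnePoint.isOpenEmbedding_coe.isOpenMap _ Metric.isOpen_ball
  refine brown (C := fun n : ℕ => (up (Metric.ball q (R + 1 / ((n : ℝ) + 1))))ᶜ) ?_
    (fun n => (hopen _).isClosed_compl.isCompact) ?_
  · intro C hC hCc
    -- a radius
    obtain ⟨R₁, h1, h2, h3⟩ : ∃ R₁, R < R₁ ∧ R₁ < R' ∧ C ⊆ (up (Metric.ball q R₁))ᶜ := by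
      set C' : Set R3 := (fun v : R3 => (v : S3)) ⁻¹' C ∩ Metric.closedBall q R' with hC'
      have hC'c : IsCompact C' :=
        (isCompact_closedBall q R').inter_left (hCc.isClosed.preimage OnePoint.continuous_coe)
      rcases C'.eq_empty_or_nonempty with hemp | hne
      · refine ⟨(R + R') / 2, by linarith, by linarith, ?_⟩
        intro m hm hm'
        obtain ⟨v, hv, rfl⟩ := hm'
        have : v ∈ C' := ⟨hm, by
          rw [Metric.mem_closedBall]
          rw [Metric.mem_ball] at hv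
          linarith⟩
        rw [hemp] at this
        exact this
      · obtain ⟨v₀, hv₀, hmin⟩ := hC'c.exists_isMinOn hne
          (f := fun v : R3 => ‖v - q‖) (by fun_prop)
        have h4 : R < ‖v₀ - q‖ := by
          have := hC hv₀.1
          rw [mem_compl_iff, mem_up_closedBall, not_le] at this
          exact this
        refine ⟨min ((R + R') / 2) ((R + ‖v₀ - q‖) / 2), lt_min (by linarith) (by linarith),
          (min_le_left _ _).trans_lt (by linarith), ?_⟩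
        intro m hm hm'
        obtain ⟨v, hv, rfl⟩ := hm'
        rw [Metric.mem_ball, dist_eq_norm] at hv
        have h5 : v ∈ C' := ⟨hm, by
          rw [Metric.mem_closedBall, dist_eq_norm]
          have := hv.trans_le (min_le_left _ _)
          linarith⟩
        have h6 : ‖v₀ - q‖ ≤ ‖v - q‖ := hmin h5
        have h7 := hv.trans_le (min_le_right _ _)
        linarith
    obtain ⟨w, hw, hw1, hw2⟩ := cell_out hR h1 (fun u hu hu' => hX u hu (hu'.trans_lt h2)) hU
    exact ⟨w, hw, h3.trans hw1, hw2⟩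
  · ext m
    rw [mem_iUnion]
    induction m using OnePoint.rec with
    | infty =>
      exact ⟨fun _ => infty_notMem_up _, fun _ => ⟨0, infty_notMem_up _⟩⟩
    | coe v =>
      rw [mem_compl_iff, mem_up_closedBall, not_le]
      constructor
      · rintro ⟨n, hn⟩
        rw [mem_compl_iff, mem_up_ball, not_lt] at hn
        have : 0 < 1 / ((n : ℝ) + 1) := by positivity
        linarith
      · intro hv
        obtain ⟨n, hn⟩ := exists_nat_one_div_lt (sub_pos.mpr hv)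
        refine ⟨n, ?_⟩
        rw [mem_compl_iff, mem_up_ball, not_lt]
        linarith

end shell

end Pool.Agent.LK
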