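import Pool.Agent.MP_aea6d5_co.Defs

/-! Interface statements for the modules. -/

set_option autoImplicit false

namespace Pool.Agent.LK

/-- The columns occupied by a set of edges: its projection to the `xy`-plane. -/
def cols (E : Finset (Sym2 P3)) : Set (ℤ × ℤ) := {c | ∃ z : ℤ, ((c.1, c.2, z) : P3) ∈ verts E}

/-- `E` and `E'` differ only near `p`. -/
def NearAt (E E' : Finset (Sym2 P3)) (p : P3) : Prop :=
  ∀ u v : P3, (s(u, v) ∈ E ∧ s(u, v) ∉ E') ∨ (s(u, v) ∈ E' ∧ s(u, v) ∉ E) →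
    |u.1 - p.1| ≤ 3 ∧ |u.2.1 - p.2.1| ≤ 3 ∧ |u.2.2 - p.2.2| ≤ 3

/-- Package SA (helper52). Lemma (a) of the plan, with its mirror image. -/
def AttachA : Prop := ∀ C : Finset (Sym2 P3) → Prop, Closed C → ∀ E, C E → ∀ σ x y : ℤ,
  (σ = 1 ∨ σ = -1) → (x, y) ∈ cols E → (x + σ, y) ∉ cols E → (x + σ, y + 1) ∉ cols E →
  (x + σ, y - 1) ∉ cols E →
  ∃ E' h, C E' ∧ s((x + σ, y, h), (x + σ, y, h + 1)) ∈ E' ∧ E.card ≤ E'.card ∧
    E'.card ≤ E.card + 6 ∧ NearAt E E' (x + σ, y, h) ∧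
    cols E' ⊆ cols E ∪ {(x + σ, y), (x + σ, y + 1), (x + σ, y - 1)}

/-- Package SQ (helper52). Lemma (q) of the plan, with its mirror images. -/
def AttachQ : Prop := ∀ C : Finset (Sym2 P3) → Prop, Closed C → ∀ E, C E → ∀ σ τ x y : ℤ,
  (σ = 1 ∨ σ = -1) → (τ = 1 ∨ τ = -1) → (x, y) ∈ cols E → (x + σ, y) ∉ cols E →
  (x, y + τ) ∉ cols E →
  ∃ E' h, C E' ∧ s((x + σ, y, h), (x + σ, y, h + 1)) ∈ E' ∧ E.card ≤ E'.card ∧
    E'.card ≤ E.card + 6 ∧ NearAt E E' (x + σ, y, h) ∧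
    cols E' ⊆ cols E ∪ {(x + σ, y), (x, y + τ)}

/-- Package PC (helper63). The class of all polygons is closed. -/
def PolyStatement : Prop := Closed IsPolygon

/-- Package PA (helper63). A polygon has as many vertices as edges. -/
def CardStatement : Prop := ∀ E, IsPolygon E → (verts E).Finite ∧ (verts E).ncard = E.card

/-- Package PA (helper63). A polygon minus an edge is still connected (an arc). -/
def ArcStatement : Prop := ∀ E, IsPolygon E → ∀ a b, s(a, b) ∈ E → ∀ u ∈ verts E, ∀ v ∈ verts E,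
  Relation.ReflTransGen (fun u' v' => s(u', v') ∈ E ∧ s(u', v') ≠ s(a, b)) u v

/-- Package PB (helper63). Exponential upper bound. (The set in `count` has to be finite.) -/
def BoundStatement : Prop := ∃ K : ℝ, ∀ n : ℕ,
  {E : Finset (Sym2 P3) | IsPolygon E ∧ E.card = n ∧ Normed E}.Finite ∧
    (count IsPolygon n : ℝ) ≤ K ^ n

/-- Package T (helper33, helper43). The moves keep unknottedness. -/
structure UnknotClosed : Prop where
  square : Unknotted square
  trans : ∀ (t : P3) E, Unknotted E → Unknotted (mapE (fun u => u + t) E)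
  swapXY : ∀ E, Unknotted E → Unknotted (mapE (fun u => (u.2.1, u.1, u.2.2)) E)
  swapYZ : ∀ E, Unknotted E → Unknotted (mapE (fun u => (u.1, u.2.2, u.2.1)) E)
  negX : ∀ E, Unknotted E → Unknotted (mapE (fun u => (-u.1, u.2.1, u.2.2)) E)
  bump : ∀ E x y d, IsPolygon E → Unknotted E → s(x, y) ∈ E → IsUnit3 d → x + d ∉ verts E →
    y + d ∉ verts E → Unknotted (bump E x y d)
  flip : ∀ E x a b, IsPolygon E → Unknotted E → s(x, x + a) ∈ E → s(x + a, x + a + b) ∈ E →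
    IsUnit3 a → IsUnit3 b → a ≠ b → a ≠ -b → x + b ∉ verts E → Unknotted (flip E x a b)
  join : ∀ E F x y h, IsPolygon E → Unknotted E → IsPolygon F → Unknotted F →
    (∀ u ∈ verts E, ∀ v ∈ verts F, (u.1, u.2.1) ≠ (v.1, v.2.1)) →
    s((x, y, h), (x, y, h + 1)) ∈ E → s((x + 1, y, h), (x + 1, y, h + 1)) ∈ F →
    Unknotted (join E F x y h)

end Pool.Agent.LK
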