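import Pool.Agent.MP_aea6d5_co.PolyBody

/-! The three convex bodies used for the elementary moves, in standard position. -/

set_option autoImplicit false

open Set Topology

namespace Pool.Agent.LK

/-- Body for the tent and the first half of the bump, over the edge from `(0,0,0)` to `(1,0,0)`. -/
def LB : List (ℝ × ℝ × ℝ × ℝ) :=
  [(-1, 4, -1, 0), (-1, -4, -1, 0), (1, 4, -1, -1), (1, -4, -1, -1), (-1, 0, -4, 0),
    (1, 0, -4, -1), (-4, 0, -1, 0), (4, 0, -1, -4), (0, 0, 4, -5)]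

/-- Body for the second half of the bump: chord from `(0,0,1)` to `(1,0,0)`, apex `(1,0,1)`. -/
def L2 : List (ℝ × ℝ × ℝ × ℝ) :=
  [(-5, 0, -3, 3), (-3, 0, -5, 3), (-1, 0, 9, -9), (9, 0, -1, -9), (-1, 4, 1, -1),
    (-1, -4, 1, -1), (1, 4, -1, -1), (1, -4, -1, -1)]

/-- Body for the flip: corner `(0,0,0)`, `(1,0,0)`, `(1,0,1)`, new vertex `(0,0,1)`. -/
def L3 : List (ℝ × ℝ × ℝ × ℝ) :=
  [(-1, 0, -9, 0), (-9, 0, -1, 0), (9, 0, 1, -10), (1, 0, 9, -10), (-1, 4, -1, 0),
    (-1, -4, -1, 0), (1, 4, 1, -2), (1, -4, 1, -2)]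

lemma mem_LB (P : R3) : P ∈ poly LB ↔
    (4 * P.2.1 ≤ P.1 + P.2.2 ∧ -(4 * P.2.1) ≤ P.1 + P.2.2 ∧ 4 * P.2.1 ≤ 1 - P.1 + P.2.2 ∧
      -(4 * P.2.1) ≤ 1 - P.1 + P.2.2 ∧ -P.1 ≤ 4 * P.2.2 ∧ P.1 - 1 ≤ 4 * P.2.2 ∧
      -(4 * P.1) ≤ P.2.2 ∧ 4 * P.1 - 4 ≤ P.2.2 ∧ 4 * P.2.2 ≤ 5) := by
  simp only [poly, LB, val, mem_ofPred_eq, List.forall_mem_cons, List.not_mem_nil, false_implies,
    implies_true, and_true]
  constructor
  · rintro ⟨h1, h2, h3, h4, h5, h6, h7, h8, h9⟩
    refine ⟨?_, ?_, ?_, ?_, ?_, ?_, ?_, ?_, ?_⟩ <;> linarith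
  · rintro ⟨h1, h2, h3, h4, h5, h6, h7, h8, h9⟩
    refine ⟨?_, ?_, ?_, ?_, ?_, ?_, ?_, ?_, ?_⟩ <;> linarith

lemma mem_L2 (P : R3) : P ∈ poly L2 ↔
    (3 ≤ 5 * P.1 + 3 * P.2.2 ∧ 3 ≤ 3 * P.1 + 5 * P.2.2 ∧ 9 * P.2.2 - 9 ≤ P.1 ∧
      9 * P.1 - 9 ≤ P.2.2 ∧ 4 * P.2.1 ≤ 1 + P.1 - P.2.2 ∧ -(4 * P.2.1) ≤ 1 + P.1 - P.2.2 ∧
      4 * P.2.1 ≤ 1 - P.1 + P.2.2 ∧ -(4 * P.2.1) ≤ 1 - P.1 + P.2.2) := by
  simp only [poly, L2, val, mem_ofPred_eq, List.forall_mem_cons, List.not_mem_nil, false_implies,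
    implies_true, and_true]
  constructor
  · rintro ⟨h1, h2, h3, h4, h5, h6, h7, h8⟩
    refine ⟨?_, ?_, ?_, ?_, ?_, ?_, ?_, ?_⟩ <;> linarith
  · rintro ⟨h1, h2, h3, h4, h5, h6, h7, h8⟩
    refine ⟨?_, ?_, ?_, ?_, ?_, ?_, ?_, ?_⟩ <;> linarith

lemma mem_L3 (P : R3) : P ∈ poly L3 ↔
    (-P.1 ≤ 9 * P.2.2 ∧ -(9 * P.1) ≤ P.2.2 ∧ 9 * P.1 + P.2.2 ≤ 10 ∧ P.1 + 9 * P.2.2 ≤ 10 ∧
      4 * P.2.1 ≤ P.1 + P.2.2 ∧ -(4 * P.2.1) ≤ P.1 + P.2.2 ∧ 4 * P.2.1 ≤ 2 - P.1 - P.2.2 ∧
      -(4 * P.2.1) ≤ 2 - P.1 - P.2.2) := by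
  simp only [poly, L3, val, mem_ofPred_eq, List.forall_mem_cons, List.not_mem_nil, false_implies,
    implies_true, and_true]
  constructor
  · rintro ⟨h1, h2, h3, h4, h5, h6, h7, h8⟩
    refine ⟨?_, ?_, ?_, ?_, ?_, ?_, ?_, ?_⟩ <;> linarith
  · rintro ⟨h1, h2, h3, h4, h5, h6, h7, h8⟩
    refine ⟨?_, ?_, ?_, ?_, ?_, ?_, ?_, ?_⟩ <;> linarith

lemma bdd_of_box {C : Set R3} (h : ∀ P ∈ C, |P.1| ≤ 3 ∧ |P.2.1| ≤ 3 ∧ |P.2.2| ≤ 3) :
    Bornology.IsBounded C := by
  apply (Metric.isBounded_closedBall (x := (0 : R3)) (r := 3)).subset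
  intro P hP
  obtain ⟨h1, h2, h3⟩ := h P hP
  rw [mem_closedBall_zero_iff, Prod.norm_def, Prod.norm_def, Real.norm_eq_abs, Real.norm_eq_abs,
    Real.norm_eq_abs]
  exact max_le h1 (max_le h2 h3)

lemma body_LB : Body (poly LB) := by
  refine ⟨poly_convex _, bdd_of_box fun P hP => ?_⟩
  rw [mem_LB] at hP
  obtain ⟨h1, h2, h3, h4, h5, h6, h7, h8, h9⟩ := hP
  refine ⟨abs_le.2 ⟨?_, ?_⟩, abs_le.2 ⟨?_, ?_⟩, abs_le.2 ⟨?_, ?_⟩⟩ <;> linarith

lemma body_L2 : Body (poly L2) := by
  refine ⟨poly_convex _, bdd_of_box fun P hP => ?_⟩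
  rw [mem_L2] at hP
  obtain ⟨h1, h2, h3, h4, h5, h6, h7, h8⟩ := hP
  refine ⟨abs_le.2 ⟨?_, ?_⟩, abs_le.2 ⟨?_, ?_⟩, abs_le.2 ⟨?_, ?_⟩⟩ <;> linarith

lemma body_L3 : Body (poly L3) := by
  refine ⟨poly_convex _, bdd_of_box fun P hP => ?_⟩
  rw [mem_L3] at hP
  obtain ⟨h1, h2, h3, h4, h5, h6, h7, h8⟩ := hP
  refine ⟨abs_le.2 ⟨?_, ?_⟩, abs_le.2 ⟨?_, ?_⟩, abs_le.2 ⟨?_, ?_⟩⟩ <;> linarith

/-- lattice edges meeting the body `LB` -/
lemma LB_cases {u v : P3} (h : Adj u v) {P : R3} (hP : P ∈ segment ℝ (toR u) (toR v))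
    (hC : P ∈ poly LB) : s(u, v) = s((0, 0, 0), (1, 0, 0)) ∨ ((0, 0, 1) : P3) ∈ s(u, v) ∨
      ((1, 0, 1) : P3) ∈ s(u, v) ∨ P = toR (0, 0, 0) ∨ P = toR (1, 0, 0) := by
  rw [mem_LB] at hC
  obtain ⟨h1, h2, h3, h4, h5, h6, h7, h8, h9⟩ := hC
  obtain ⟨⟨p1, p2, p3⟩, t, t0, t1, hc⟩ := seg_cases h hP
  rcases hc with ⟨hs, rfl⟩ | ⟨hs, rfl⟩ | ⟨hs, rfl⟩
  · simp only at hs h1 h2 h3 h4 h5 h6 h7 h8 h9
    have a1 : p2 = 0 := by
      have b1 : (-1 : ℝ) < p2 := by linarith
      have b2 : (p2 : ℝ) < 1 := by linarith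
      have b3 : -1 < p2 := by exact_mod_cast b1
      have b4 : p2 < 1 := by exact_mod_cast b2
      omega
    have a2 : p3 = 0 ∨ p3 = 1 := by
      have b1 : (-1 : ℝ) < p3 := by linarith
      have b2 : (p3 : ℝ) < 2 := by linarith
      have b3 : -1 < p3 := by exact_mod_cast b1
      have b4 : p3 < 2 := by exact_mod_cast b2
      omega
    have a3 : p1 = -1 ∨ p1 = 0 ∨ p1 = 1 := by
      have b1 : (-2 : ℝ) < p1 := by linarith
      have b2 : (p1 : ℝ) < 2 := by linarith
      have b3 : -2 < p1 := by exact_mod_cast b1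
      have b4 : p1 < 2 := by exact_mod_cast b2
      omega
    subst a1
    rcases a2 with rfl | rfl
    · rcases a3 with rfl | rfl | rfl
      · right; right; right; left
        push_cast at h7
        have : t = 1 := by linarith
        simp [toR, this]
      · left
        exact hs
      · right; right; right; right
        push_cast at h8
        have : t = 0 := by linarith
        simp [toR, this]
    · rcases a3 with rfl | rfl | rfl
      · right; left; rw [hs]; simp
      · right; left; rw [hs]; simp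
      · right; right; left; rw [hs]; simp
  · simp only at hs h1 h2 h3 h4 h5 h6 h7 h8 h9
    have a2 : p3 = 0 ∨ p3 = 1 := by
      have b1 : (-1 : ℝ) < p3 := by linarith
      have b2 : (p3 : ℝ) < 2 := by linarith
      have b3 : -1 < p3 := by exact_mod_cast b1
      have b4 : p3 < 2 := by exact_mod_cast b2
      omega
    have a3 : p1 = 0 ∨ p1 = 1 := by
      have b1 : (-1 : ℝ) < p1 := by linarith
      have b2 : (p1 : ℝ) < 2 := by linarith
      have b3 : -1 < p1 := by exact_mod_cast b1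
      have b4 : p1 < 2 := by exact_mod_cast b2
      omega
    have a1 : p2 = -1 ∨ p2 = 0 := by
      have b1 : (-2 : ℝ) < p2 := by linarith
      have b2 : (p2 : ℝ) < 1 := by linarith
      have b3 : -2 < p2 := by exact_mod_cast b1
      have b4 : p2 < 1 := by exact_mod_cast b2
      omega
    rcases a2 with rfl | rfl
    · have a4 : (p2 : ℝ) + t = 0 := by
        rcases a3 with rfl | rfl <;> push_cast at h1 h2 h3 h4 <;> linarith
      rcases a3 with rfl | rfl
      · right; right; right; left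
        simp [toR, a4]
      · right; right; right; right
        simp [toR, a4]
    · rcases a3 with rfl | rfl
      · right; left
        rcases a1 with rfl | rfl <;> rw [hs] <;> simp
      · right; right; left
        rcases a1 with rfl | rfl <;> rw [hs] <;> simp
  · simp only at hs h1 h2 h3 h4 h5 h6 h7 h8 h9
    have a1 : p2 = 0 := by
      have b1 : (-1 : ℝ) < p2 := by linarith
      have b2 : (p2 : ℝ) < 1 := by linarith
      have b3 : -1 < p2 := by exact_mod_cast b1
      have b4 : p2 < 1 := by exact_mod_cast b2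
      omega
    have a3 : p1 = 0 ∨ p1 = 1 := by
      have b1 : (-1 : ℝ) < p1 := by linarith
      have b2 : (p1 : ℝ) < 2 := by linarith
      have b3 : -1 < p1 := by exact_mod_cast b1
      have b4 : p1 < 2 := by exact_mod_cast b2
      omega
    have a2 : p3 = -1 ∨ p3 = 0 ∨ p3 = 1 := by
      have b1 : (-2 : ℝ) < p3 := by linarith
      have b2 : (p3 : ℝ) < 2 := by linarith
      have b3 : -2 < p3 := by exact_mod_cast b1
      have b4 : p3 < 2 := by exact_mod_cast b2
      omega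
    subst a1
    rcases a2 with rfl | rfl | rfl
    · have a4 : t = 1 := by
        rcases a3 with rfl | rfl <;> push_cast at h5 h6 <;> linarith
      rcases a3 with rfl | rfl
      · right; right; right; left
        simp [toR, a4]
      · right; right; right; right
        simp [toR, a4]
    · rcases a3 with rfl | rfl
      · right; left; rw [hs]; simp
      · right; right; left; rw [hs]; simp
    · rcases a3 with rfl | rfl
      · right; left; rw [hs]; simp
      · right; right; left; rw [hs]; simp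

lemma int_cases_zero {p : ℤ} (h1 : (-1 : ℝ) < p) (h2 : (p : ℝ) < 1) : p = 0 := by
  have b3 : -1 < p := by exact_mod_cast h1
  have b4 : p < 1 := by exact_mod_cast h2
  omega

lemma int_cases_01 {p : ℤ} (h1 : (-1 : ℝ) < p) (h2 : (p : ℝ) < 2) : p = 0 ∨ p = 1 := by
  have b3 : -1 < p := by exact_mod_cast h1
  have b4 : p < 2 := by exact_mod_cast h2
  omega

lemma int_cases_m0 {p : ℤ} (h1 : (-2 : ℝ) < p) (h2 : (p : ℝ) < 1) : p = -1 ∨ p = 0 := by
  have b3 : -2 < p := by exact_mod_cast h1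
  have b4 : p < 1 := by exact_mod_cast h2
  omega

lemma int_cases_m01 {p : ℤ} (h1 : (-2 : ℝ) < p) (h2 : (p : ℝ) < 2) :
    p = -1 ∨ p = 0 ∨ p = 1 := by
  have b3 : -2 < p := by exact_mod_cast h1
  have b4 : p < 2 := by exact_mod_cast h2
  omega

/-- lattice edges meeting the body `L2` -/
lemma L2_cases {u v : P3} (h : Adj u v) {P : R3} (hP : P ∈ segment ℝ (toR u) (toR v))
    (hC : P ∈ poly L2) : ((0, 0, 1) : P3) ∈ s(u, v) ∨ ((1, 0, 1) : P3) ∈ s(u, v) ∨
      P = toR (1, 0, 0) := by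
  rw [mem_L2] at hC
  obtain ⟨h1, h2, h3, h4, h5, h6, h7, h8⟩ := hC
  obtain ⟨⟨p1, p2, p3⟩, t, t0, t1, hc⟩ := seg_cases h hP
  rcases hc with ⟨hs, rfl⟩ | ⟨hs, rfl⟩ | ⟨hs, rfl⟩
  · simp only at hs h1 h2 h3 h4 h5 h6 h7 h8
    have a1 : p2 = 0 := int_cases_zero (by linarith) (by linarith)
    have a2 : p3 = 0 ∨ p3 = 1 := int_cases_01 (by linarith) (by linarith)
    have a3 : p1 = -1 ∨ p1 = 0 ∨ p1 = 1 := int_cases_m01 (by linarith) (by linarith)
    subst a1
    rcases a2 with rfl | rfl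
    · right; right
      push_cast at h2 h4
      have : (p1 : ℝ) + t = 1 := by linarith
      simp [toR, this]
    · rcases a3 with rfl | rfl | rfl
      · left; rw [hs]; simp
      · left; rw [hs]; simp
      · right; left; rw [hs]; simp
  · simp only at hs h1 h2 h3 h4 h5 h6 h7 h8
    have a2 : p3 = 0 ∨ p3 = 1 := int_cases_01 (by linarith) (by linarith)
    have a3 : p1 = 0 ∨ p1 = 1 := int_cases_01 (by linarith) (by linarith)
    have a1 : p2 = -1 ∨ p2 = 0 := int_cases_m0 (by linarith) (by linarith)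
    rcases a2 with rfl | rfl
    · rcases a3 with rfl | rfl
      · exfalso
        push_cast at h1
        linarith
      · right; right
        push_cast at h7 h8
        have : (p2 : ℝ) + t = 0 := by linarith
        simp [toR, this]
    · rcases a3 with rfl | rfl
      · left
        rcases a1 with rfl | rfl <;> rw [hs] <;> simp
      · right; left
        rcases a1 with rfl | rfl <;> rw [hs] <;> simp
  · simp only at hs h1 h2 h3 h4 h5 h6 h7 h8
    have a1 : p2 = 0 := int_cases_zero (by linarith) (by linarith)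
    have a3 : p1 = 0 ∨ p1 = 1 := int_cases_01 (by linarith) (by linarith)
    have a2 : p3 = -1 ∨ p3 = 0 ∨ p3 = 1 := int_cases_m01 (by linarith) (by linarith)
    subst a1
    rcases a3 with rfl | rfl
    · left
      push_cast at h1
      rcases a2 with rfl | rfl | rfl
      · exfalso
        push_cast at h1
        linarith
      · rw [hs]; simp
      · rw [hs]; simp
    · rcases a2 with rfl | rfl | rfl
      · right; right
        push_cast at h4
        have : t = 1 := by linarith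
        simp [toR, this]
      · right; left; rw [hs]; simp
      · right; left; rw [hs]; simp

/-- lattice edges meeting the body `L3` -/
lemma L3_cases {u v : P3} (h : Adj u v) {P : R3} (hP : P ∈ segment ℝ (toR u) (toR v))
    (hC : P ∈ poly L3) : ((0, 0, 1) : P3) ∈ s(u, v) ∨ ((1, 0, 0) : P3) ∈ s(u, v) ∨
      P = toR (0, 0, 0) ∨ P = toR (1, 0, 1) := by
  rw [mem_L3] at hC
  obtain ⟨h1, h2, h3, h4, h5, h6, h7, h8⟩ := hC
  obtain ⟨⟨p1, p2, p3⟩, t, t0, t1, hc⟩ := seg_cases h hP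
  rcases hc with ⟨hs, rfl⟩ | ⟨hs, rfl⟩ | ⟨hs, rfl⟩
  · simp only at hs h1 h2 h3 h4 h5 h6 h7 h8
    have a1 : p2 = 0 := int_cases_zero (by linarith) (by linarith)
    have a2 : p3 = 0 ∨ p3 = 1 := int_cases_01 (by linarith) (by linarith)
    have a3 : p1 = -1 ∨ p1 = 0 ∨ p1 = 1 := int_cases_m01 (by linarith) (by linarith)
    subst a1
    rcases a2 with rfl | rfl
    · rcases a3 with rfl | rfl | rfl
      · right; right; left
        push_cast at h1
        have : t = 1 := by linarith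
        simp [toR, this]
      · right; left; rw [hs]; simp
      · right; left; rw [hs]; simp
    · rcases a3 with rfl | rfl | rfl
      · left; rw [hs]; simp
      · left; rw [hs]; simp
      · right; right; right
        push_cast at h4
        have : t = 0 := by linarith
        simp [toR, this]
  · simp only at hs h1 h2 h3 h4 h5 h6 h7 h8
    have a2 : p3 = 0 ∨ p3 = 1 := int_cases_01 (by linarith) (by linarith)
    have a3 : p1 = 0 ∨ p1 = 1 := int_cases_01 (by linarith) (by linarith)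
    have a1 : p2 = -1 ∨ p2 = 0 := int_cases_m0 (by linarith) (by linarith)
    rcases a2 with rfl | rfl
    · rcases a3 with rfl | rfl
      · right; right; left
        push_cast at h5 h6
        have : (p2 : ℝ) + t = 0 := by linarith
        simp [toR, this]
      · right; left
        rcases a1 with rfl | rfl <;> rw [hs] <;> simp
    · rcases a3 with rfl | rfl
      · left
        rcases a1 with rfl | rfl <;> rw [hs] <;> simp
      · right; right; right
        push_cast at h7 h8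
        have : (p2 : ℝ) + t = 0 := by linarith
        simp [toR, this]
  · simp only at hs h1 h2 h3 h4 h5 h6 h7 h8
    have a1 : p2 = 0 := int_cases_zero (by linarith) (by linarith)
    have a3 : p1 = 0 ∨ p1 = 1 := int_cases_01 (by linarith) (by linarith)
    have a2 : p3 = -1 ∨ p3 = 0 ∨ p3 = 1 := int_cases_m01 (by linarith) (by linarith)
    subst a1
    rcases a3 with rfl | rfl
    · rcases a2 with rfl | rfl | rfl
      · right; right; left
        push_cast at h1
        have : t = 1 := by linarith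
        simp [toR, this]
      · left; rw [hs]; simp
      · left; rw [hs]; simp
    · rcases a2 with rfl | rfl | rfl
      · right; left; rw [hs]; simp
      · right; left; rw [hs]; simp
      · right; right; right
        push_cast at h3
        have : t = 0 := by linarith
        simp [toR, this]

end Pool.Agent.LK
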