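import Pool.Agent.MP_aea6d5_co.Prot

/-! Tongues and turns: the surgery theorem. -/

set_option autoImplicit false
set_option linter.unusedSimpArgs false

namespace Pool.Agent.LK

variable {C : Finset (Sym2 P3) → Prop}

theorem ChangedIn.shift {p a : P3} {r r' : ℤ} {E E' : Finset (Sym2 P3)} (h : ChangedIn a r E E')
    (hpa : Box r' (a - p)) : ChangedIn p (r + r') E E' := by
  intro u v huv
  obtain ⟨h1, h2⟩ := h u v huv
  have e1 : u - p = (u - a) + (a - p) := by abel
  have e2 : v - p = (v - a) + (a - p) := by abel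
  rw [e1, e2]
  exact ⟨h1.add hpa, h2.add hpa⟩

/-- One push of an edge. -/
theorem push_step (hC : MoveClosed C) {E : Finset (Sym2 P3)} (h1 : C E) {P Q P' Q' d : P3}
    (e : s(P, Q) ∈ E) (hd : IsUnit3 d) (hP : P + d = P') (hQ : Q + d = Q') (fP : P' ∉ verts E)
    (fQ : Q' ∉ verts E) : ∃ E', C E' ∧ s(P, P') ∈ E' ∧ s(P', Q') ∈ E' ∧ s(Q, Q') ∈ E' ∧
      (∀ v ∈ verts E', v ∈ verts E ∨ v = P' ∨ v = Q') ∧
      ∀ (p : P3) (r : ℤ), Box r (P - p) → Box r (Q - p) → Box r (P' - p) → Box r (Q' - p) →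
        ChangedIn p r E E' := by
  subst hP hQ
  refine ⟨bump E P Q d, hC.bump _ _ _ _ h1 e hd fP fQ, ?_, ?_, ?_, ?_, ?_⟩
  · rw [mem_bump]; exact Or.inr (Or.inl rfl)
  · rw [mem_bump]; exact Or.inr (Or.inr (Or.inl rfl))
  · rw [mem_bump]; exact Or.inr (Or.inr (Or.inr (Sym2.eq_swap)))
  · intro v hv; exact verts_bump e hv
  · intro p r a b c d; exact changedIn_bump a b c d

theorem box_smul {d : P3} (h : IsUnit3 d) (s : ℤ) : Box |s| (s • d) := by
  rcases isUnit3_iff.1 h with rfl | rfl | rfl | rfl | rfl | rfl <;> simp [Box]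

/-- Straight pushes. -/
theorem pushes (hC : MoveClosed C) {E1 : Finset (Sym2 P3)} (h1 : C E1) {a x y : P3}
    (hx : IsUnit3 x) (hy : IsUnit3 y) (hxy : dot x y = 0) (edge : s(a, a + x) ∈ E1) (K : ℕ)
    (hf : ∀ v ∈ verts E1, ∀ s : ℤ, 1 ≤ s → s ≤ K → v ≠ a + s • y ∧ v ≠ a + s • y + x) :
    ∃ E2, C E2 ∧ s(a + (K : ℤ) • y, a + (K : ℤ) • y + x) ∈ E2 ∧
      (1 ≤ K → s(a + (K : ℤ) • y - y, a + (K : ℤ) • y) ∈ E2 ∧
        s(a + (K : ℤ) • y + x - y, a + (K : ℤ) • y + x) ∈ E2) ∧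
      (∀ v ∈ verts E2, v ∈ verts E1 ∨ ∃ s : ℤ, 1 ≤ s ∧ s ≤ K ∧ (v = a + s • y ∨ v = a + s • y + x)) ∧
      ChangedIn a (K + 1) E1 E2 := by
  have hyy : dot y y = 1 := isUnit3_iff_dot.1 hy
  induction K with
  | zero =>
    refine ⟨E1, h1, by simpa using edge, fun h => absurd h (by norm_num), fun v hv => Or.inl hv,
      ChangedIn.refl _ _ _⟩
  | succ K ih =>
    obtain ⟨E2, c2, e2, -, v2, ch2⟩ := ih (fun v hv s hs1 hs2 => hf v hv s hs1 (by push_cast; omega))
    have q1 : a + (K : ℤ) • y + y = a + ((K + 1 : ℕ) : ℤ) • y := by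
      push_cast; rw [add_smul, one_smul, add_assoc]
    have q2 : a + (K : ℤ) • y + x + y = a + ((K + 1 : ℕ) : ℤ) • y + x := by
      rw [← q1]; abel
    have new : ∀ v : P3, (v = a + ((K + 1 : ℕ) : ℤ) • y ∨ v = a + ((K + 1 : ℕ) : ℤ) • y + x) →
        v ∉ verts E2 := by
      intro v hv hm
      rcases v2 v hm with h | ⟨s, hs1, hs2, hs⟩
      · have := hf v h ((K + 1 : ℕ) : ℤ) (by push_cast; omega) le_rfl
        rcases hv with hv | hv
        · exact this.1 hv
        · exact this.2 hv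
      · have key : dot (v - a) y = s := by
          rcases hs with rfl | rfl
          · rw [add_sub_cancel_left, smul_dot, hyy, mul_one]
          · have : a + s • y + x - a = s • y + x := by abel
            rw [this, add_dot, smul_dot, hyy, hxy]; ring
        have key' : dot (v - a) y = ((K + 1 : ℕ) : ℤ) := by
          rcases hv with rfl | rfl
          · rw [add_sub_cancel_left, smul_dot, hyy, mul_one]
          · have : a + ((K + 1 : ℕ) : ℤ) • y + x - a = ((K + 1 : ℕ) : ℤ) • y + x := by abel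
            rw [this, add_dot, smul_dot, hyy, hxy]; ring
        rw [key] at key'
        push_cast at key'
        omega
    obtain ⟨E3, c3, a3, b3, d3, v3, ch3⟩ := push_step hC c2 e2 hy q1 q2 (new _ (Or.inl rfl))
      (new _ (Or.inr rfl))
    have r1 : a + ((K + 1 : ℕ) : ℤ) • y - y = a + (K : ℤ) • y := by rw [← q1]; abel
    have r2 : a + ((K + 1 : ℕ) : ℤ) • y + x - y = a + (K : ℤ) • y + x := by rw [← q2]; abel
    refine ⟨E3, c3, b3, fun _ => ⟨by rw [r1]; exact a3, by rw [r2]; exact d3⟩, ?_, ?_⟩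
    · intro v hv
      rcases v3 v hv with h | h | h
      · rcases v2 v h with h | ⟨s, hs1, hs2, hs⟩
        · exact Or.inl h
        · exact Or.inr ⟨s, hs1, by push_cast; omega, hs⟩
      · exact Or.inr ⟨((K + 1 : ℕ) : ℤ), by push_cast; omega, le_rfl, Or.inl h⟩
      · exact Or.inr ⟨((K + 1 : ℕ) : ℤ), by push_cast; omega, le_rfl, Or.inr h⟩
    · have hbox : ∀ s : ℤ, 0 ≤ s → s ≤ ((K + 1 : ℕ) : ℤ) →
          Box (((K + 1 : ℕ) : ℤ) + 1) (a + s • y - a) ∧
            Box (((K + 1 : ℕ) : ℤ) + 1) (a + s • y + x - a) := by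
        intro s hs hs'
        constructor
        · rw [add_sub_cancel_left]
          exact (box_smul hy s).mono (by rw [abs_of_nonneg hs]; omega)
        · have : a + s • y + x - a = s • y + x := by abel
          rw [this]
          exact ((box_smul hy s).add (box_unit hx)).mono (by rw [abs_of_nonneg hs]; omega)
      refine (ch2.mono (by push_cast; omega)).trans (ch3 _ _ ?_ ?_ ?_ ?_)
      · exact (hbox K (by positivity) (by push_cast; omega)).1
      · exact (hbox K (by positivity) (by push_cast; omega)).2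
      · exact (hbox _ (by positivity) le_rfl).1
      · exact (hbox _ (by positivity) le_rfl).2

/-- The input data of the turn: a polygon with a tongue ending in the edge `b, b + x`, front in the
direction `y`. -/
structure Tongue (C : Finset (Sym2 P3) → Prop) (S : P3 → Prop) (E1 : Finset (Sym2 P3))
    (b x y w : P3) : Prop where
  mem : C E1
  fr : Fr x y w
  e0 : s(b, b + x) ∈ E1
  e1 : s(b - y, b) ∈ E1
  e2 : s(b + x - y, b + x) ∈ E1
  old : ∀ v, Box 3 (v - b) → ¬ S v
  verts : ∀ v ∈ verts E1, S v ∨ (0 ≤ dot (v - b) x ∧ dot (v - b) x ≤ 1 ∧ dot (v - b) y ≤ 0 ∧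
    dot (v - b) w = 0)

theorem Tongue.mirror {S : P3 → Prop} {E1 : Finset (Sym2 P3)} {b x y w : P3}
    (h : Tongue C S E1 b x y w) (hS : ∀ v, Box 4 (v - b) → ¬ S v) :
    Tongue C S E1 (b + x) (-x) y w := by
  have hxx := h.fr.xx
  have hxy := h.fr.xy
  have hxz := h.fr.xz
  refine ⟨h.mem, h.fr.negx, ?_, ?_, ?_, ?_, ?_⟩
  · have : b + x + -x = b := by abel
    rw [this, Sym2.eq_swap]; exact h.e0
  · exact h.e2
  · have : b + x + -x = b := by abel
    rw [this]; exact h.e1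
  · intro v hv
    refine hS v ?_
    have : v - b = (v - (b + x)) + x := by abel
    rw [this]; exact hv.add (box_unit h.fr.ux)
  · intro v hv
    rcases h.verts v hv with h' | ⟨h1, h2, h3, h4⟩
    · exact Or.inl h'
    · right
      rw [← sub_sub]
      simp only [sub_dot, dot_neg] at *
      rw [hxx, hxy, hxz]
      refine ⟨by omega, by omega, by omega, by omega⟩

theorem Tongue.negw {S : P3 → Prop} {E1 : Finset (Sym2 P3)} {b x y w : P3}
    (h : Tongue C S E1 b x y w) : Tongue C S E1 b x y (-w) := by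
  have hF : Fr x y (-w) := ⟨h.fr.xx, h.fr.yy, by rw [dot_neg, neg_dot, h.fr.zz]; norm_num, h.fr.xy,
    by rw [dot_neg, h.fr.xz, neg_zero], by rw [dot_neg, h.fr.yz, neg_zero]⟩
  refine ⟨h.mem, hF, h.e0, h.e1, h.e2, h.old, ?_⟩
  intro v hv
  rcases h.verts v hv with h' | ⟨h1, h2, h3, h4⟩
  · exact Or.inl h'
  · exact Or.inr ⟨h1, h2, h3, by rw [dot_neg, h4, neg_zero]⟩

/-- The result of a turn: an edge `c, c + f` in the given orientation `f`, highest in the direction
`e` among the vertices which are not old. -/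
def Turned (C : Finset (Sym2 P3) → Prop) (S : P3 → Prop) (E1 : Finset (Sym2 P3)) (b e f : P3) :
    Prop :=
  ∃ E2 c, C E2 ∧ (s(c, c + f) ∈ E2 ∨ s(c, c - f) ∈ E2) ∧
    (∀ v ∈ verts E2, S v ∨ dot (v - b) e ≤ dot (c - b) e) ∧
    (∀ v ∈ verts E2, v ∈ verts E1 ∨ Box 3 (v - b)) ∧ Box 3 (c - b) ∧ 0 ≤ dot (c - b) e ∧
    ChangedIn b 3 E1 E2

theorem turn_yx {S : P3 → Prop} {E1 : Finset (Sym2 P3)} {b x y w : P3}
    (h : Tongue C S E1 b x y w) : Turned C S E1 b y x := by
  refine ⟨E1, b, h.mem, Or.inl h.e0, ?_, fun v hv => Or.inl hv, ?_, ?_, ChangedIn.refl _ _ _⟩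
  · intro v hv
    rcases h.verts v hv with h' | ⟨h1, h2, h3, h4⟩
    · exact Or.inl h'
    · right; rw [sub_self, zero_dot]; exact h3
  · rw [sub_self]; simp [Box]
  · rw [sub_self, zero_dot]

/-- Points near `b` in frame coordinates. -/
theorem Tongue.pt {S : P3 → Prop} {E1 : Finset (Sym2 P3)} {b x y w : P3}
    (h : Tongue C S E1 b x y w) (i j k : ℤ) :
    dot (b + i • x + j • y + k • w - b) x = i ∧ dot (b + i • x + j • y + k • w - b) y = j ∧
      dot (b + i • x + j • y + k • w - b) w = k ∧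
      Box (|i| + |j| + |k|) (b + i • x + j • y + k • w - b) := by
  have e : b + i • x + j • y + k • w - b = i • x + j • y + k • w := by abel
  rw [e]
  refine ⟨?_, ?_, ?_, ?_⟩
  · simp only [add_dot, smul_dot, h.fr.xx, h.fr.yx, h.fr.zx]; ring
  · simp only [add_dot, smul_dot, h.fr.xy, h.fr.yy, h.fr.zy]; ring
  · simp only [add_dot, smul_dot, h.fr.xz, h.fr.yz, h.fr.zz]; ring
  · exact ((box_smul h.fr.ux i).add (box_smul h.fr.uy j)).add (box_smul h.fr.uz k)

theorem Tongue.not_mem {S : P3 → Prop} {E1 : Finset (Sym2 P3)} {b x y w : P3}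
    (h : Tongue C S E1 b x y w) (i j k : ℤ) (hb : |i| + |j| + |k| ≤ 3)
    (hT : i < 0 ∨ 1 < i ∨ 0 < j ∨ k ≠ 0) : b + i • x + j • y + k • w ∉ LK.verts E1 := by
  intro hm
  obtain ⟨h1, h2, h3, h4⟩ := h.pt i j k
  rcases h.verts _ hm with h' | ⟨g1, g2, g3, g4⟩
  · exact h.old _ (h4.mono hb) h'
  · rw [h1] at g1 g2
    rw [h2] at g3
    rw [h3] at g4
    omega

theorem Tongue.pt_ne {S : P3 → Prop} {E1 : Finset (Sym2 P3)} {b x y w : P3}
    (h : Tongue C S E1 b x y w) (i j k i' j' k' : ℤ) (hne : i ≠ i' ∨ j ≠ j' ∨ k ≠ k') :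
    b + i • x + j • y + k • w ≠ b + i' • x + j' • y + k' • w := by
  intro he
  obtain ⟨h1, h2, h3, -⟩ := h.pt i j k
  obtain ⟨g1, g2, g3, -⟩ := h.pt i' j' k'
  rw [he] at h1 h2 h3
  omega

/-- The point with frame coordinates `t`. -/
def Pt (b x y w t : P3) : P3 := b + t.1 • x + t.2.1 • y + t.2.2 • w

/-- Sum of the absolute values of the coordinates. -/
def l1 (t : P3) : ℤ := |t.1| + |t.2.1| + |t.2.2|

/-- An intermediate polygon of a turn: `L` is the list of the added vertices. -/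
structure Mid (C : Finset (Sym2 P3) → Prop) (E1 E' : Finset (Sym2 P3)) (b x y w : P3)
    (L : List P3) : Prop where
  mem : C E'
  verts : ∀ v ∈ verts E', v ∈ LK.verts E1 ∨ ∃ t ∈ L, v = Pt b x y w t
  changed : ChangedIn b 3 E1 E'

theorem Mid.step (hC : MoveClosed C) {S : P3 → Prop} {E1 E' : Finset (Sym2 P3)} {b x y w : P3}
    (h : Tongue C S E1 b x y w) {L : List P3} (hm : Mid C E1 E' b x y w L) (t t' u u' d : P3)
    (he : s(Pt b x y w t, Pt b x y w t') ∈ E') (hd : IsUnit3 d)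
    (hu : Pt b x y w t + d = Pt b x y w u) (hu' : Pt b x y w t' + d = Pt b x y w u')
    (ht : l1 t ≤ 3) (ht' : l1 t' ≤ 3) (hlu : l1 u ≤ 3) (hlu' : l1 u' ≤ 3) (hL : u ∉ L)
    (hL' : u' ∉ L) (hT : u.1 < 0 ∨ 1 < u.1 ∨ 0 < u.2.1 ∨ u.2.2 ≠ 0)
    (hT' : u'.1 < 0 ∨ 1 < u'.1 ∨ 0 < u'.2.1 ∨ u'.2.2 ≠ 0) :
    ∃ E'', Mid C E1 E'' b x y w (u :: u' :: L) ∧ s(Pt b x y w t, Pt b x y w u) ∈ E'' ∧
      s(Pt b x y w u, Pt b x y w u') ∈ E'' ∧ s(Pt b x y w t', Pt b x y w u') ∈ E'' := by
  have key : ∀ v : P3, l1 v ≤ 3 → v ∉ L → (v.1 < 0 ∨ 1 < v.1 ∨ 0 < v.2.1 ∨ v.2.2 ≠ 0) →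
      Pt b x y w v ∉ LK.verts E' := by
    intro v hv hvL hvT hmem
    rcases hm.verts _ hmem with h' | ⟨t, ht, h'⟩
    · exact h.not_mem _ _ _ hv hvT h'
    · have : v = t := by
        by_contra hne
        refine h.pt_ne v.1 v.2.1 v.2.2 t.1 t.2.1 t.2.2 ?_ h'
        by_contra hc
        push Not at hc
        exact hne (Prod.ext hc.1 (Prod.ext hc.2.1 hc.2.2))
      rw [this] at hvL
      exact hvL ht
  have hbox : ∀ v : P3, l1 v ≤ 3 → Box 3 (Pt b x y w v - b) := fun v hv =>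
    (h.pt v.1 v.2.1 v.2.2).2.2.2.mono hv
  obtain ⟨E'', c, a1, a2, a3, a4, a5⟩ := push_step hC hm.mem he hd hu hu' (key u hlu hL hT)
    (key u' hlu' hL' hT')
  refine ⟨E'', ⟨c, ?_, ?_⟩, a1, a2, a3⟩
  · intro v hv
    rcases a4 v hv with h' | h' | h'
    · rcases hm.verts v h' with h'' | ⟨t, ht, h''⟩
      · exact Or.inl h''
      · exact Or.inr ⟨t, by simp [ht], h''⟩
    · exact Or.inr ⟨u, by simp, h'⟩
    · exact Or.inr ⟨u', by simp, h'⟩
  · exact hm.changed.trans (a5 _ _ (hbox _ ht) (hbox _ ht') (hbox _ hlu) (hbox _ hlu'))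

theorem Mid.start {S : P3 → Prop} {E1 : Finset (Sym2 P3)} {b x y w : P3}
    (h : Tongue C S E1 b x y w) : Mid C E1 E1 b x y w [] :=
  ⟨h.mem, fun _ hv => Or.inl hv, ChangedIn.refl _ _ _⟩

/-- Conclusion of a turn from an intermediate polygon. -/
theorem Mid.turned {S : P3 → Prop} {E1 E' : Finset (Sym2 P3)} {b x y w : P3}
    (h : Tongue C S E1 b x y w) {L : List P3} (hm : Mid C E1 E' b x y w L) (c e f ec : P3)
    (hf : s(Pt b x y w c, Pt b x y w c + f) ∈ E' ∨ s(Pt b x y w c, Pt b x y w c - f) ∈ E')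
    (hle : ∀ t : P3, dot (Pt b x y w t - b) e = dot t ec) (hc : l1 c ≤ 3)
    (hL : ∀ t ∈ L, l1 t ≤ 3 ∧ dot t ec ≤ dot c ec)
    (hec : (ec = (1, 0, 0) ∧ 1 ≤ dot c ec) ∨ (ec = (0, 1, 0) ∧ 0 ≤ dot c ec) ∨
      (ec = (0, 0, 1) ∧ 0 ≤ dot c ec)) : Turned C S E1 b e f := by
  have hexp : ∀ v : P3, v = Pt b x y w (dot (v - b) x, dot (v - b) y, dot (v - b) w) := by
    intro v
    have := h.fr.expand (v - b)
    simp only [Pt]
    rw [add_assoc, add_assoc, ← add_assoc (dot (v - b) x • x), ← this]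
    abel
  refine ⟨E', Pt b x y w c, hm.mem, hf, ?_, ?_, ?_, ?_, hm.changed⟩
  · intro v hv
    rcases hm.verts v hv with h' | ⟨t, ht, rfl⟩
    · rcases h.verts v h' with h'' | ⟨g1, g2, g3, g4⟩
      · exact Or.inl h''
      · right
        rw [hle, hexp v, hle]
        rcases hec with ⟨rfl, h1⟩ | ⟨rfl, h1⟩ | ⟨rfl, h1⟩
        · simp only [dot] at h1 ⊢
          simp only [dot] at g1 g2
          omega
        · simp only [dot] at h1 ⊢
          simp only [dot] at g3
          omega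
        · simp only [dot] at h1 ⊢
          simp only [dot] at g4
          omega
    · right
      rw [hle, hle]
      exact (hL t ht).2
  · intro v hv
    rcases hm.verts v hv with h' | ⟨t, ht, rfl⟩
    · exact Or.inl h'
    · exact Or.inr ((h.pt t.1 t.2.1 t.2.2).2.2.2.mono (hL t ht).1)
  · exact (h.pt c.1 c.2.1 c.2.2).2.2.2.mono hc
  · rw [hle]
    rcases hec with ⟨rfl, h1⟩ | ⟨rfl, h1⟩ | ⟨rfl, h1⟩ <;> omega

theorem Tongue.lev_x {S : P3 → Prop} {E1 : Finset (Sym2 P3)} {b x y w : P3}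
    (h : Tongue C S E1 b x y w) (t : P3) : dot (Pt b x y w t - b) x = dot t (1, 0, 0) := by
  rw [Pt, (h.pt t.1 t.2.1 t.2.2).1]; simp [dot]

theorem Tongue.lev_y {S : P3 → Prop} {E1 : Finset (Sym2 P3)} {b x y w : P3}
    (h : Tongue C S E1 b x y w) (t : P3) : dot (Pt b x y w t - b) y = dot t (0, 1, 0) := by
  rw [Pt, (h.pt t.1 t.2.1 t.2.2).2.1]; simp [dot]

theorem Tongue.lev_w {S : P3 → Prop} {E1 : Finset (Sym2 P3)} {b x y w : P3}
    (h : Tongue C S E1 b x y w) (t : P3) : dot (Pt b x y w t - b) w = dot t (0, 0, 1) := by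
  rw [Pt, (h.pt t.1 t.2.1 t.2.2).2.2.1]; simp [dot]

theorem turn_yw (hC : MoveClosed C) {S : P3 → Prop} {E1 : Finset (Sym2 P3)} {b x y w : P3}
    (h : Tongue C S E1 b x y w) : Turned C S E1 b y w := by
  obtain ⟨E2, m2, -, e2, -⟩ := (Mid.start h).step hC h (0, 0, 0) (1, 0, 0) (0, 1, 0) (1, 1, 0) y
    (by simpa [Pt] using h.e0) h.fr.uy (by simp only [Pt]; module) (by simp only [Pt]; module)
    (by decide) (by decide) (by decide) (by decide) (by decide) (by decide) (by decide) (by decide)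
  obtain ⟨E3, m3, e3, -, -⟩ := m2.step hC h (0, 1, 0) (1, 1, 0) (0, 1, 1) (1, 1, 1) w
    e2 h.fr.uz (by simp only [Pt]; module) (by simp only [Pt]; module)
    (by decide) (by decide) (by decide) (by decide) (by decide) (by decide) (by decide) (by decide)
  obtain ⟨E4, m4, -, e4, -⟩ := m3.step hC h (0, 1, 0) (0, 1, 1) (0, 2, 0) (0, 2, 1) y
    e3 h.fr.uy (by simp only [Pt]; module) (by simp only [Pt]; module)
    (by decide) (by decide) (by decide) (by decide) (by decide) (by decide) (by decide) (by decide)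
  refine m4.turned h (0, 2, 0) y w (0, 1, 0) (Or.inl ?_) h.lev_y (by decide) ?_
    (Or.inr (Or.inl ⟨rfl, by decide⟩))
  · have : Pt b x y w (0, 2, 0) + w = Pt b x y w (0, 2, 1) := by simp only [Pt]; module
    rw [this]; exact e4
  · intro t ht
    simp only [List.mem_cons, List.not_mem_nil, or_false] at ht
    rcases ht with rfl | rfl | rfl | rfl | rfl | rfl <;> decide

theorem turn_wx (hC : MoveClosed C) {S : P3 → Prop} {E1 : Finset (Sym2 P3)} {b x y w : P3}
    (h : Tongue C S E1 b x y w) : Turned C S E1 b w x := by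
  obtain ⟨E2, m2, -, e2, -⟩ := (Mid.start h).step hC h (0, 0, 0) (1, 0, 0) (0, 0, 1) (1, 0, 1) w
    (by simpa [Pt] using h.e0) h.fr.uz (by simp only [Pt]; module) (by simp only [Pt]; module)
    (by decide) (by decide) (by decide) (by decide) (by decide) (by decide) (by decide) (by decide)
  refine m2.turned h (0, 0, 1) w x (0, 0, 1) (Or.inl ?_) h.lev_w (by decide) ?_
    (Or.inr (Or.inr ⟨rfl, by decide⟩))
  · have : Pt b x y w (0, 0, 1) + x = Pt b x y w (1, 0, 1) := by simp only [Pt]; module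
    rw [this]; exact e2
  · intro t ht
    simp only [List.mem_cons, List.not_mem_nil, or_false] at ht
    rcases ht with rfl | rfl <;> decide

theorem turn_wy (hC : MoveClosed C) {S : P3 → Prop} {E1 : Finset (Sym2 P3)} {b x y w : P3}
    (h : Tongue C S E1 b x y w) : Turned C S E1 b w y := by
  obtain ⟨E2, m2, -, e2, -⟩ := (Mid.start h).step hC h (0, -1, 0) (0, 0, 0) (0, -1, 1) (0, 0, 1) w
    (by
      have e1 : Pt b x y w (0, -1, 0) = b - y := by simp only [Pt]; module
      have e2 : Pt b x y w (0, 0, 0) = b := by simp only [Pt]; module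
      rw [e1, e2]; exact h.e1) h.fr.uz (by simp only [Pt]; module) (by simp only [Pt]; module)
    (by decide) (by decide) (by decide) (by decide) (by decide) (by decide) (by decide) (by decide)
  refine m2.turned h (0, -1, 1) w y (0, 0, 1) (Or.inl ?_) h.lev_w (by decide) ?_
    (Or.inr (Or.inr ⟨rfl, by decide⟩))
  · have : Pt b x y w (0, -1, 1) + y = Pt b x y w (0, 0, 1) := by simp only [Pt]; module
    rw [this]; exact e2
  · intro t ht
    simp only [List.mem_cons, List.not_mem_nil, or_false] at ht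
    rcases ht with rfl | rfl <;> decide

theorem turn_xy (hC : MoveClosed C) {S : P3 → Prop} {E1 : Finset (Sym2 P3)} {b x y w : P3}
    (h : Tongue C S E1 b x y w) : Turned C S E1 b x y := by
  obtain ⟨E2, m2, -, e2, -⟩ := (Mid.start h).step hC h (1, -1, 0) (1, 0, 0) (2, -1, 0) (2, 0, 0) x
    (by
      have e1 : Pt b x y w (1, -1, 0) = b + x - y := by simp only [Pt]; module
      have e2 : Pt b x y w (1, 0, 0) = b + x := by simp only [Pt]; module
      rw [e1, e2]; exact h.e2) h.fr.ux (by simp only [Pt]; module) (by simp only [Pt]; module)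
    (by decide) (by decide) (by decide) (by decide) (by decide) (by decide) (by decide) (by decide)
  refine m2.turned h (2, -1, 0) x y (1, 0, 0) (Or.inl ?_) h.lev_x (by decide) ?_
    (Or.inl ⟨rfl, by decide⟩)
  · have : Pt b x y w (2, -1, 0) + y = Pt b x y w (2, 0, 0) := by simp only [Pt]; module
    rw [this]; exact e2
  · intro t ht
    simp only [List.mem_cons, List.not_mem_nil, or_false] at ht
    rcases ht with rfl | rfl <;> decide

theorem turn_xw (hC : MoveClosed C) {S : P3 → Prop} {E1 : Finset (Sym2 P3)} {b x y w : P3}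
    (h : Tongue C S E1 b x y w) : Turned C S E1 b x w := by
  obtain ⟨E2, m2, -, -, e2⟩ := (Mid.start h).step hC h (0, 0, 0) (1, 0, 0) (0, 0, 1) (1, 0, 1) w
    (by simpa [Pt] using h.e0) h.fr.uz (by simp only [Pt]; module) (by simp only [Pt]; module)
    (by decide) (by decide) (by decide) (by decide) (by decide) (by decide) (by decide) (by decide)
  obtain ⟨E3, m3, -, e3, -⟩ := m2.step hC h (1, 0, 0) (1, 0, 1) (2, 0, 0) (2, 0, 1) x
    e2 h.fr.ux (by simp only [Pt]; module) (by simp only [Pt]; module)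
    (by decide) (by decide) (by decide) (by decide) (by decide) (by decide) (by decide) (by decide)
  refine m3.turned h (2, 0, 0) x w (1, 0, 0) (Or.inl ?_) h.lev_x (by decide) ?_
    (Or.inl ⟨rfl, by decide⟩)
  · have : Pt b x y w (2, 0, 0) + w = Pt b x y w (2, 0, 1) := by simp only [Pt]; module
    rw [this]; exact e3
  · intro t ht
    simp only [List.mem_cons, List.not_mem_nil, or_false] at ht
    rcases ht with rfl | rfl | rfl | rfl <;> decide

end Pool.Agent.LK
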