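import Pool.Agent.MP_aea6d5_co.Surg

/-! The surgery theorem. -/

set_option autoImplicit false
set_option linter.unusedSimpArgs false

namespace Pool.Agent.LK

variable {C : Finset (Sym2 P3) → Prop}

theorem Turned.neg {S : P3 → Prop} {E1 : Finset (Sym2 P3)} {b e f : P3}
    (h : Turned C S E1 b e f) : Turned C S E1 b e (-f) := by
  obtain ⟨E2, c, h1, h2, h3⟩ := h
  refine ⟨E2, c, h1, ?_, h3⟩
  rcases h2 with h2 | h2
  · right; rwa [sub_neg_eq_add]
  · left; rwa [← sub_eq_add_neg]

/-- All turns. -/
theorem turn_all (hC : MoveClosed C) {S : P3 → Prop} {E1 : Finset (Sym2 P3)} {b x y w : P3}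
    (h : Tongue C S E1 b x y w) (hS : ∀ v, Box 4 (v - b) → ¬ S v) {e f : P3} (he : IsUnit3 e)
    (hf : IsUnit3 f) (hef : dot e f = 0) (hey : e ≠ -y) :
    ∃ b', Box 1 (b' - b) ∧ -1 ≤ dot (b' - b) e ∧ Turned C S E1 b' e f := by
  have hb : Box 1 (b - b) := by rw [sub_self]; simp [Box]
  have hb' : -1 ≤ dot (b - b) e := by rw [sub_self, zero_dot]; norm_num
  have main : ∀ b' x' w' : P3, Tongue C S E1 b' x' y w' → (e = x' ∨ e = y ∨ e = w') →
      Turned C S E1 b' e f := by
    intro b' x' w' h' he'
    have hfu := h'.fr.unit_cases hf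
    have hne : ∀ d : P3, IsUnit3 d → dot d d = 1 := fun d hd => isUnit3_iff_dot.1 hd
    rcases he' with rfl | rfl | rfl
    · rcases hfu with rfl | rfl | rfl | rfl | rfl | rfl
      · rw [h'.fr.xx] at hef; norm_num at hef
      · rw [dot_neg, h'.fr.xx] at hef; norm_num at hef
      · exact turn_xy hC h'
      · exact (turn_xy hC h').neg
      · exact turn_xw hC h'
      · exact (turn_xw hC h').neg
    · rcases hfu with rfl | rfl | rfl | rfl | rfl | rfl
      · exact turn_yx h'
      · exact (turn_yx h').neg
      · rw [h'.fr.yy] at hef; norm_num at hef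
      · rw [dot_neg, h'.fr.yy] at hef; norm_num at hef
      · exact turn_yw hC h'
      · exact (turn_yw hC h').neg
    · rcases hfu with rfl | rfl | rfl | rfl | rfl | rfl
      · exact turn_wx hC h'
      · exact (turn_wx hC h').neg
      · exact turn_wy hC h'
      · exact (turn_wy hC h').neg
      · rw [h'.fr.zz] at hef; norm_num at hef
      · rw [dot_neg, h'.fr.zz] at hef; norm_num at hef
  rcases h.fr.unit_cases he with h' | h' | h' | h' | h' | h'
  · exact ⟨b, hb, hb', main b x w h (Or.inl h')⟩
  · refine ⟨b + x, ?_, ?_, main (b + x) (-x) w (h.mirror hS) (Or.inl h')⟩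
    · rw [add_sub_cancel_left]; exact box_unit h.fr.ux
    · rw [add_sub_cancel_left, h', dot_neg, h.fr.xx]
  · exact ⟨b, hb, hb', main b x w h (Or.inr (Or.inl h'))⟩
  · exact absurd h' hey
  · exact ⟨b, hb, hb', main b x w h (Or.inr (Or.inr h'))⟩
  · exact ⟨b, hb, hb', main b x (-w) h.negw (Or.inr (Or.inr h'))⟩

/-- Cross product. -/
def cr (u v : P3) : P3 :=
  (u.2.1 * v.2.2 - u.2.2 * v.2.1, u.2.2 * v.1 - u.1 * v.2.2, u.1 * v.2.1 - u.2.1 * v.1)

theorem fr_cr {u v : P3} (hu : IsUnit3 u) (hv : IsUnit3 v) (huv : dot u v = 0) :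
    Fr u v (cr u v) := by
  rcases isUnit3_iff.1 hu with rfl | rfl | rfl | rfl | rfl | rfl <;>
    rcases isUnit3_iff.1 hv with rfl | rfl | rfl | rfl | rfl | rfl <;>
    simp [dot] at huv <;> constructor <;> simp [dot, cr]

theorem nsq_box {r : ℤ} {v : P3} (h : Box r v) : nsq v ≤ 3 * r ^ 2 := by
  obtain ⟨h1, h2, h3⟩ := h
  have a1 := sq_le_sq' (abs_le.1 h1).1 (abs_le.1 h1).2
  have a2 := sq_le_sq' (abs_le.1 h2).1 (abs_le.1 h2).2
  have a3 := sq_le_sq' (abs_le.1 h3).1 (abs_le.1 h3).2
  simp only [nsq, dot]
  nlinarith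

theorem dot_box_le {N x y z : P3} (hF : Fr x y z) (hxy' : dot N y ≤ dot N x)
    (hyz' : dot N z ≤ dot N y) (hz0 : 0 ≤ dot N z) {r : ℤ} {v : P3} (h : Box r v) :
    dot N v ≤ 3 * r * dot N x := by
  have key : ∀ d : P3, IsUnit3 d → dot N d ≤ dot N x := by
    intro d hd
    rcases hF.unit_cases hd with rfl | rfl | rfl | rfl | rfl | rfl <;>
      (try simp only [dot_neg]) <;> omega
  have k1 := key (1, 0, 0) (by simp [isUnit3_iff])
  have k2 := key (-1, 0, 0) (by simp [isUnit3_iff])
  have k3 := key (0, 1, 0) (by simp [isUnit3_iff])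
  have k4 := key (0, -1, 0) (by simp [isUnit3_iff])
  have k5 := key (0, 0, 1) (by simp [isUnit3_iff])
  have k6 := key (0, 0, -1) (by simp [isUnit3_iff])
  simp only [dot] at k1 k2 k3 k4 k5 k6
  obtain ⟨h1, h2, h3⟩ := h
  have hr : 0 ≤ r := (abs_nonneg _).trans h1
  have hM : 0 ≤ dot N x := by omega
  have g : ∀ a b : ℤ, |a| ≤ dot N x → |b| ≤ r → a * b ≤ r * dot N x := by
    intro a b ha hb
    calc a * b ≤ |a * b| := le_abs_self _
      _ = |a| * |b| := abs_mul _ _
      _ ≤ dot N x * r := mul_le_mul ha hb (abs_nonneg _) hM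
      _ = r * dot N x := mul_comm _ _
  have g1 := g N.1 v.1 (abs_le.2 ⟨by simp only [dot]; linarith, by simp only [dot]; linarith⟩) h1
  have g2 := g N.2.1 v.2.1 (abs_le.2 ⟨by simp only [dot]; linarith, by simp only [dot]; linarith⟩) h2
  have g3 := g N.2.2 v.2.2 (abs_le.2 ⟨by simp only [dot]; linarith, by simp only [dot]; linarith⟩) h3
  have : dot N v = N.1 * v.1 + N.2.1 * v.2.1 + N.2.2 * v.2.2 := rfl
  rw [this]
  linarith

theorem le_dot_box {N x y z : P3} (hF : Fr x y z) (hxy' : dot N y ≤ dot N x)
    (hyz' : dot N z ≤ dot N y) (hz0 : 0 ≤ dot N z) {r : ℤ} {v : P3} (h : Box r v) :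
    -(3 * r * dot N x) ≤ dot N v := by
  have := dot_box_le hF hxy' hyz' hz0 h.neg
  rw [dot_neg] at this
  linarith

/-- **Surgery theorem.** -/
theorem surgery (hC : MoveClosed C) {E : Finset (Sym2 P3)} {p N : P3} (h1 : C E)
    (hp : p ∈ verts E) (hloc : Loc E p N) {x y z : P3} (hF : Fr x y z)
    (hxy' : dot N y ≤ dot N x) (hyz' : dot N z ≤ dot N y) (hz0 : 0 ≤ dot N z)
    (hM : 100000 ≤ dot N x) (hN : 0 ≤ N.2.2) :
    ∃ E' a, C E' ∧ s(a, a + (1, 0, 0)) ∈ E' ∧ ChangedIn p 220 E E' ∧ Box 220 (a - p) ∧
      (∀ v ∈ verts E', v ∈ verts E ∨ (Box 220 (v - p) ∧ v.2.2 ≤ a.2.2 ∧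
        dot N (v - p) ≤ dot N (a - p) + 100 * dot N x)) ∧
      150 * dot N x ≤ dot N (a - p) := by
  set M := dot N x with hMdef
  have ub : ∀ {r : ℤ} {v : P3}, Box r v → dot N v ≤ 3 * r * M := fun h =>
    dot_box_le hF hxy' hyz' hz0 h
  have lb : ∀ {r : ℤ} {v : P3}, Box r v → -(3 * r * M) ≤ dot N v := fun h =>
    le_dot_box hF hxy' hyz' hz0 h
  obtain ⟨E', a, u, v, hpr⟩ := protrude hC h1 hp hloc x y z hF (by omega) hxy' hyz' hz0
  rw [← hMdef] at hpr
  have huu : dot u u = 1 := isUnit3_iff_dot.1 hpr.hx
  have hvv : dot v v = 1 := isUnit3_iff_dot.1 hpr.hy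
  have huv : dot u v = 0 := hpr.xy
  have hvM : dot N v ≤ M := by
    rcases hF.unit_cases hpr.hy with h | h | h | h | h | h <;> rw [h] <;>
      (try simp only [dot_neg]) <;> omega
  -- the tongue
  have hfree : ∀ w ∈ verts E', ∀ s : ℤ, 1 ≤ s → s ≤ (200 : ℕ) → w ≠ a + s • v ∧ w ≠ a + s • v + u := by
    intro w hw s hs1 hs2
    push_cast at hs2
    rcases hpr.verts w hw with h | ⟨-, h⟩
    · constructor
      · intro he
        refine hloc.free (a + s • v - p) w (by rw [he]; abel) ?_ h
        have e : a + s • v - p = (a - p) + s • v := by abel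
        have hb : Box 203 (a + s • v - p) := by
          rw [e]
          exact (hpr.box.add (box_smul hpr.hy s)).mono (by rw [abs_of_nonneg (by omega)]; omega)
        have h2 := nsq_box hb
        have h3 : dot N (a + s • v - p) = dot N (a - p) + s * dot N v := by
          rw [e, dot_add, dot_smul]
        have h4 : 1 * (M - 3) ≤ s * dot N v := mul_le_mul hs1 hpr.big (by omega) (by omega)
        rw [h3]
        have := hpr.h0
        omega
      · intro he
        refine hloc.free (a + s • v + u - p) w (by rw [he]; abel) ?_ h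
        have e : a + s • v + u - p = (a - p) + s • v + u := by abel
        have hb : Box 204 (a + s • v + u - p) := by
          rw [e]
          exact ((hpr.box.add (box_smul hpr.hy s)).add (box_unit hpr.hx)).mono
            (by rw [abs_of_nonneg (by omega)]; omega)
        have h2 := nsq_box hb
        have e' : a + s • v + u - p = (a + u - p) + s • v := by abel
        have h3 : dot N (a + s • v + u - p) = dot N (a + u - p) + s * dot N v := by
          rw [e', dot_add, dot_smul]
        have h4 : 1 * (M - 3) ≤ s * dot N v := mul_le_mul hs1 hpr.big (by omega) (by omega)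
        rw [h3]
        have := hpr.h1
        omega
    · constructor
      · intro he
        rw [he, add_sub_cancel_left, smul_dot, hvv] at h
        omega
      · intro he
        have e : a + s • v + u - a = s • v + u := by abel
        rw [he, e, add_dot, smul_dot, hvv, huv] at h
        omega
  obtain ⟨E2, c2, e2, e2', v2, ch2⟩ := pushes hC hpr.mem hpr.hx hpr.hy huv hpr.edge 200 hfree
  obtain ⟨e2a, e2b⟩ := e2' (by norm_num)
  set b : P3 := a + ((200 : ℕ) : ℤ) • v with hb
  have hba : b - a = (200 : ℤ) • v := by rw [hb]; push_cast; abel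
  have hbaBox : Box 200 (b - a) := by
    rw [hba]; exact (box_smul hpr.hy 200).mono (by norm_num)
  have hbp : Box 203 (b - p) := by
    have : b - p = (b - a) + (a - p) := by abel
    rw [this]; exact hbaBox.add hpr.box
  have hNb : 200 * (M - 3) ≤ dot N (b - p) := by
    have e : b - p = (a - p) + (200 : ℤ) • v := by rw [← hba]; abel
    rw [e, dot_add, dot_smul]
    have := hpr.h0
    have := hpr.big
    omega
  set S : P3 → Prop := fun v' => v' ∈ verts E ∨ Box 3 (v' - p) with hS
  have deep : ∀ v', Box 15 (v' - b) → ¬ S v' := by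
    intro v' hv' hS'
    have e : v' - p = (v' - b) + (b - p) := by abel
    have h2 : Box 218 (v' - p) := by rw [e]; exact hv'.add hbp
    have h3 := lb hv'
    have h4 : dot N (v' - p) = dot N (v' - b) + dot N (b - p) := by rw [e, dot_add]
    rcases hS' with h | h
    · have h5 := hloc v' h
      have h6 := nsq_box h2
      omega
    · have h5 := ub h
      omega
  have hFr := fr_cr hpr.hx hpr.hy huv
  have htongue : Tongue C S E2 b u v (cr u v) := by
    refine ⟨c2, hFr, e2, e2a, e2b, fun v' hv' => deep v' (hv'.mono (by norm_num)), ?_⟩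
    intro v' hv'
    rcases v2 v' hv' with h | ⟨s, hs1, hs2, h⟩
    · rcases hpr.verts v' h with h | h
      · exact Or.inl (Or.inl h)
      · exact Or.inl (Or.inr h.1)
    · right
      push_cast at hs2
      rcases h with rfl | rfl
      · have e : a + s • v - b = (s - 200) • v := by rw [hb]; push_cast; module
        rw [e]
        simp only [smul_dot, hFr.yx, hFr.yy, hFr.yz]
        refine ⟨by norm_num, by norm_num, by omega, by norm_num⟩
      · have e : a + s • v + u - b = (s - 200) • v + u := by rw [hb]; push_cast; module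
        rw [e]
        simp only [smul_dot, add_dot, hFr.yx, hFr.yy, hFr.yz, hFr.xx, hFr.xy, hFr.xz]
        refine ⟨by norm_num, by norm_num, by omega, by norm_num⟩
  -- the turn
  have he3N : dot N (0, 0, 1) = N.2.2 := by simp [dot]
  have hnev : ((0, 0, 1) : P3) ≠ -v := by
    intro h
    rw [h, dot_neg] at he3N
    have := hpr.big
    omega
  obtain ⟨b', hb'1, hb'2, E3, c, c3, e3, lev3, v3, hcb, hcl, ch3⟩ :=
    turn_all hC htongue (fun v' hv' => deep v' (hv'.mono (by norm_num))) (e := (0, 0, 1))
      (f := (1, 0, 0)) (by simp [isUnit3_iff]) (by simp [isUnit3_iff]) (by simp [dot]) hnev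
  -- final pushes
  obtain ⟨f, hf, ef⟩ : ∃ f : P3, (f = (1, 0, 0) ∨ f = -(1, 0, 0)) ∧ s(c, c + f) ∈ E3 := by
    rcases e3 with h | h
    · exact ⟨_, Or.inl rfl, h⟩
    · exact ⟨_, Or.inr rfl, by rwa [← sub_eq_add_neg]⟩
  have hfu : IsUnit3 f := by rcases hf with rfl | rfl <;> simp [isUnit3_iff]
  have hfe : dot f (0, 0, 1) = 0 := by rcases hf with rfl | rfl <;> simp [dot]
  have heu : IsUnit3 ((0, 0, 1) : P3) := by simp [isUnit3_iff]
  have hcB : Box 4 (c - b) := by
    have : c - b = (c - b') + (b' - b) := by abel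
    rw [this]; exact hcb.add hb'1
  have hBox15 : ∀ s : ℤ, 0 ≤ s → s ≤ 10 → Box 14 (c + s • ((0, 0, 1) : P3) - b) ∧
      Box 15 (c + s • ((0, 0, 1) : P3) + f - b) := by
    intro s hs1 hs2
    have e1 : c + s • ((0, 0, 1) : P3) - b = (c - b) + s • ((0, 0, 1) : P3) := by abel
    have e2 : c + s • ((0, 0, 1) : P3) + f - b = (c - b) + s • ((0, 0, 1) : P3) + f := by abel
    rw [e1, e2]
    exact ⟨(hcB.add (box_smul heu s)).mono (by rw [abs_of_nonneg hs1]; omega),
      ((hcB.add (box_smul heu s)).add (box_unit hfu)).mono (by rw [abs_of_nonneg hs1]; omega)⟩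
  have hfree3 : ∀ w ∈ verts E3, ∀ s : ℤ, 1 ≤ s → s ≤ (10 : ℕ) →
      w ≠ c + s • ((0, 0, 1) : P3) ∧ w ≠ c + s • ((0, 0, 1) : P3) + f := by
    intro w hw s hs1 hs2
    push_cast at hs2
    obtain ⟨hB1, hB2⟩ := hBox15 s (by omega) hs2
    rcases lev3 w hw with h | h
    · constructor
      · rintro rfl
        exact deep _ (hB1.mono (by norm_num)) h
      · rintro rfl
        exact deep _ hB2 h
    · have hee : dot ((0, 0, 1) : P3) (0, 0, 1) = 1 := by simp [dot]
      constructor
      · rintro rfl
        have e : c + s • ((0, 0, 1) : P3) - b' = (c - b') + s • ((0, 0, 1) : P3) := by abel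
        rw [e, add_dot, smul_dot, hee] at h
        omega
      · rintro rfl
        have e : c + s • ((0, 0, 1) : P3) + f - b' = (c - b') + s • ((0, 0, 1) : P3) + f := by abel
        rw [e, add_dot, add_dot, smul_dot, hee, hfe] at h
        omega
  obtain ⟨E4, c4, e4, -, v4, ch4⟩ := pushes hC c3 hfu heu hfe ef 10 hfree3
  push_cast at e4 v4 ch4
  set c' : P3 := c + (10 : ℤ) • ((0, 0, 1) : P3) with hc'
  obtain ⟨a', ha', ea'⟩ : ∃ a' : P3, (a' = c' ∨ a' = c' + f) ∧ s(a', a' + (1, 0, 0)) ∈ E4 := by
    rcases hf with rfl | rfl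
    · exact ⟨c', Or.inl rfl, e4⟩
    · refine ⟨c' + -(1, 0, 0), Or.inr rfl, ?_⟩
      rw [neg_add_cancel_right, Sym2.eq_swap]; exact e4
  have ha'B : Box 15 (a' - b) := by
    obtain ⟨hB1, hB2⟩ := hBox15 10 (by norm_num) le_rfl
    rcases ha' with rfl | rfl
    · exact hB1.mono (by norm_num)
    · exact hB2
  have hNa' : dot N (b - p) - 45 * M ≤ dot N (a' - p) := by
    have e : a' - p = (a' - b) + (b - p) := by abel
    have := lb ha'B
    rw [e, dot_add]
    omega
  -- heights in the vertical direction
  have hfz : f.2.2 = 0 := by rcases hf with rfl | rfl <;> simp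
  have ha'z : a'.2.2 = c.2.2 + 10 := by
    rcases ha' with rfl | rfl <;> simp [hc', hfz]
  have hvz : 0 ≤ v.2.2 := by
    rcases isUnit3_iff.1 hpr.hy with h | h | h | h | h | h
    · rw [h]
    · rw [h]
    · rw [h]
    · rw [h]
    · rw [h]; norm_num
    · exact absurd (by rw [h]; simp) hnev
  have hbz : a.2.2 ≤ b.2.2 := by
    rw [hb]
    simp only [Prod.snd_add, Prod.smul_snd, smul_eq_mul]
    push_cast
    omega
  have haz : p.2.2 - 3 ≤ a.2.2 := by
    have := (abs_le.1 hpr.box.2.2).1
    simp only [Prod.snd_sub] at this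
    omega
  have hcz : b.2.2 - 1 ≤ c.2.2 := by
    simp only [dot, Prod.snd_sub, Prod.fst_sub] at hb'2 hcl
    omega
  have hcp : Box 207 (c - p) := by
    have : c - p = (c - b) + (b - p) := by abel
    rw [this]; exact (hcB.add hbp).mono (by norm_num)
  have hb'p : Box 204 (b' - p) := by
    have : b' - p = (b' - b) + (b - p) := by abel
    rw [this]; exact (hb'1.add hbp).mono (by norm_num)
  refine ⟨E4, a', c4, ea', ?_, ?_, ?_, ?_⟩
  · refine ((hpr.changed.mono (by norm_num)).trans ((ch2.shift hpr.box).mono ?_)).trans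
      (((ch3.shift hb'p).mono (by norm_num)).trans ((ch4.shift hcp).mono (by norm_num)))
    norm_num
  · have : a' - p = (a' - b) + (b - p) := by abel
    rw [this]; exact (ha'B.add hbp).mono (by norm_num)
  · -- the new vertices
    have near : ∀ w, Box 15 (w - b) → Box 220 (w - p) ∧
        dot N (w - p) ≤ dot N (a' - p) + 100 * M := by
      intro w hw
      have e : w - p = (w - b) + (b - p) := by abel
      refine ⟨by rw [e]; exact (hw.add hbp).mono (by norm_num), ?_⟩
      have := ub hw
      rw [e, dot_add]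
      omega
    intro w hw
    rcases v4 w hw with h | ⟨s, hs1, hs2, h⟩
    · rcases lev3 w h with (h' | h') | h'
      · exact Or.inl h'
      · right
        refine ⟨h'.mono (by norm_num), ?_, ?_⟩
        · have := (abs_le.1 h'.2.2).2
          simp only [Prod.snd_sub] at this
          omega
        · have := ub h'
          omega
      · have hz : w.2.2 ≤ c.2.2 := by
          simp only [dot, Prod.snd_sub, Prod.fst_sub] at h'
          omega
        rcases v3 w h with h'' | h''
        · rcases v2 w h'' with g | ⟨s, hs1, hs2, g⟩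
          · rcases hpr.verts w g with g' | ⟨g', -⟩
            · exact Or.inl g'
            · right
              refine ⟨g'.mono (by norm_num), by omega, ?_⟩
              have := ub g'
              omega
          · right
            push_cast at hs2
            have hsN : 0 ≤ (200 - s) * dot N v := by
              have := hpr.big
              exact mul_nonneg (by omega) (by omega)
            have huM : dot N u ≤ M := by
              rcases hF.unit_cases hpr.hx with h | h | h | h | h | h <;> rw [h] <;>
                (try simp only [dot_neg]) <;> omega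
            rcases g with rfl | rfl
            · refine ⟨?_, by omega, ?_⟩
              · have : a + s • v - p = (a - p) + s • v := by abel
                rw [this]
                exact (hpr.box.add (box_smul hpr.hy s)).mono
                  (by rw [abs_of_nonneg (by omega)]; omega)
              · have : a + s • v - p = (b - p) - (200 - s) • v := by
                  rw [hb]; push_cast; module
                rw [this, dot_sub, dot_smul]
                omega
            · refine ⟨?_, by omega, ?_⟩
              · have : a + s • v + u - p = (a - p) + s • v + u := by abel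
                rw [this]
                exact ((hpr.box.add (box_smul hpr.hy s)).add (box_unit hpr.hx)).mono
                  (by rw [abs_of_nonneg (by omega)]; omega)
              · have : a + s • v + u - p = (b - p) - (200 - s) • v + u := by
                  rw [hb]; push_cast; module
                rw [this, dot_add, dot_sub, dot_smul]
                omega
        · right
          have hwb : Box 15 (w - b) := by
            have : w - b = (w - b') + (b' - b) := by abel
            rw [this]; exact (h''.add hb'1).mono (by norm_num)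
          exact ⟨(near w hwb).1, by omega, (near w hwb).2⟩
    · right
      obtain ⟨hB1, hB2⟩ := hBox15 s (by omega) hs2
      rcases h with rfl | rfl
      · refine ⟨(near _ (hB1.mono (by norm_num))).1, ?_, (near _ (hB1.mono (by norm_num))).2⟩
        rw [ha'z]
        simp
        omega
      · refine ⟨(near _ hB2).1, ?_, (near _ hB2).2⟩
        rw [ha'z]
        simp [hfz]
        omega
  · omega

end Pool.Agent.LK
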